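import Pool.Agent.ARM.ShortG
import Pool.Agent.TIP.WideF
import Pool.Agent.TIW.Base
import Pool.Agent.TIW.Nice

/-!
# ARM: moments of the length and of the end of the bridges; few free cuts with weights (helper82)

* `mom_of_tail`: moments from a tail of a larger power;
* **`buMom`**: the bridges of height at most `2 ^ b` with the weight `(1 + |Z| / m_b) ^ q (1 + |end| / 2 ^ b) ^ q`;
* `cel i Z`: the cell of a word of the scale `i` (length in units of `m_i`, cell of the end), `wc` its weight;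
* **`cellMom`**: the sum over the cells of the weight times the mass of the bridges of the cell;
* **`uaW`**: the same with the masses of the bridges with few free cuts behind words `A` that depend on the cell.
-/

set_option autoImplicit false

namespace HexObs

namespace ARM

open Finset TS SDN SIM NTA TIP

open scoped ENNReal

namespace BM

lemma tsum_sub (S : Set (List Bool)) (F : List Bool → ℝ≥0∞) : ∑' t : S, F t = ∑' t, S.indicator F t := tsum_subtype S F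

lemma tsum_ite (S : Set (List Bool)) (P : List Bool → Prop) [DecidablePred P] (c : ℝ≥0∞) :
    ∑' t : S, wE (t : List Bool) * (if P t then c else 0) = c * gf {t | t ∈ S ∧ P t} := by
  classical
  rw [tsum_sub S (fun t => wE t * (if P t then c else 0))]
  unfold gf
  rw [tsum_sub {t | t ∈ S ∧ P t} wE, ← ENNReal.tsum_mul_left]
  refine tsum_congr fun t => ?_
  by_cases h1 : t ∈ S
  · by_cases h2 : P t
    · rw [Set.indicator_of_mem h1, Set.indicator_of_mem (show t ∈ {t | t ∈ S ∧ P t} from ⟨h1, h2⟩), if_pos h2, mul_comm]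
    · rw [Set.indicator_of_mem h1, Set.indicator_of_notMem (show t ∉ {t | t ∈ S ∧ P t} from fun h => h2 h.2), if_neg h2,
        mul_zero, mul_zero]
  · rw [Set.indicator_of_notMem h1, Set.indicator_of_notMem (show t ∉ {t | t ∈ S ∧ P t} from fun h => h1 h.1), mul_zero]

lemma pow_le_dyad {x : ℝ} (hx : 0 ≤ x) (q : ℕ) : ENNReal.ofReal ((1 + x) ^ q) ≤ ENNReal.ofReal (2 ^ q) +
    ∑' n : ℕ, (if (2 : ℝ) ^ n ≤ x then ENNReal.ofReal (4 ^ q * ((2 : ℝ) ^ n) ^ q) else 0) := by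
  rcases lt_or_ge x 1 with h | h
  · refine le_trans (ENNReal.ofReal_le_ofReal ?_) le_self_add
    exact pow_le_pow_left₀ (by linarith) (by linarith) q
  · obtain ⟨n, h1, h2⟩ := exists_nat_pow_near h (one_lt_two (α := ℝ))
    refine le_trans ?_ le_add_self
    refine le_trans ?_ (ENNReal.le_tsum n)
    rw [if_pos h1]
    refine ENNReal.ofReal_le_ofReal ?_
    rw [← mul_pow]
    refine pow_le_pow_left₀ (by linarith) ?_ q
    rw [pow_succ] at h2
    linarith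

/-- moments from a tail of a larger power -/
lemma mom_of_tail {S : Set (List Bool)} {f : List Bool → ℝ} (hf : ∀ t, 0 ≤ f t) (q : ℕ) {A B : ℝ} (hA : 0 ≤ A)
    (hB : 0 ≤ B) (h0 : gf S ≤ ENNReal.ofReal B)
    (h1 : ∀ n : ℕ, gf {t | t ∈ S ∧ (2 : ℝ) ^ n ≤ f t} ≤ ENNReal.ofReal (A / ((2 : ℝ) ^ n) ^ (q + 1))) :
    ∑' t : S, wE (t : List Bool) * ENNReal.ofReal ((1 + f t) ^ q) ≤ ENNReal.ofReal (2 ^ q * B + 2 * 4 ^ q * A) := by
  classical
  calc ∑' t : S, wE (t : List Bool) * ENNReal.ofReal ((1 + f t) ^ q)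
      ≤ ∑' t : S, (wE (t : List Bool) * ENNReal.ofReal (2 ^ q) +
        ∑' n : ℕ, wE (t : List Bool) * (if (2 : ℝ) ^ n ≤ f t then ENNReal.ofReal (4 ^ q * ((2 : ℝ) ^ n) ^ q) else 0)) := by
        refine ENNReal.tsum_le_tsum fun t => ?_
        rw [ENNReal.tsum_mul_left, ← mul_add]
        exact mul_le_mul_right (pow_le_dyad (hf t) q) _
    _ = ENNReal.ofReal (2 ^ q) * gf S + ∑' n : ℕ, ENNReal.ofReal (4 ^ q * ((2 : ℝ) ^ n) ^ q) *
        gf {t | t ∈ S ∧ (2 : ℝ) ^ n ≤ f t} := by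
        rw [ENNReal.tsum_add, ENNReal.tsum_mul_right, mul_comm, ENNReal.tsum_comm]
        congr 1
        exact tsum_congr fun n => tsum_ite S (fun t => (2 : ℝ) ^ n ≤ f t) _
    _ ≤ ENNReal.ofReal (2 ^ q) * ENNReal.ofReal B + ∑' n : ℕ, ENNReal.ofReal (4 ^ q * A * (1 / 2) ^ n) := by
        refine add_le_add (mul_le_mul_right h0 _) (ENNReal.tsum_le_tsum fun n => ?_)
        refine (mul_le_mul_right (h1 n) _).trans (le_of_eq ?_)
        rw [← ENNReal.ofReal_mul (by positivity)]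
        congr 1
        rw [pow_succ, one_div, inv_pow]
        have : (0 : ℝ) < 2 ^ n := by positivity
        field_simp
    _ = _ := by
        rw [← ENNReal.ofReal_mul (by positivity), ← ENNReal.ofReal_tsum_of_nonneg (fun n => by positivity)
          (summable_geometric_two.mul_left _), tsum_mul_left, tsum_geometric_two,
          ← ENNReal.ofReal_add (by positivity) (by positivity)]
        congr 1
        ring

/-- the bridges of height at most 2 ^ b -/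
def Lb (b : ℕ) : Set (List Bool) := {Z | Z ∈ BU ∧ hgt Z ≤ 2 ^ b}

lemma gf_Lb (b : ℕ) : gf (Lb b) ≤ ENNReal.ofReal (Ub b) := by
  refine (gf_mono ?_).trans (gf_BU_le (2 ^ b))
  rintro Z ⟨h1, h2⟩
  exact ⟨hgt Z, h2, TIP.BU_hgt h1⟩

lemma gf_Lb_len (b : ℕ) (lam : ℝ) : gf {Z | Z ∈ Lb b ∧ lam ≤ (Z.length : ℝ)} ≤ NTm.TL (2 ^ b) lam := by
  unfold NTm.TL
  refine (gf_mono (Q := ⋃ h ∈ range (2 ^ b + 1), {Z | Z ∈ Brd h ∧ lam ≤ (Z.length : ℝ)}) ?_).trans (BAR.gf_bi_le _ _)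
  rintro Z ⟨⟨h1, h2⟩, h3⟩
  rw [Set.mem_iUnion₂]
  exact ⟨hgt Z, mem_range.2 (by omega), TIP.BU_hgt h1, h3⟩

/-- the tail of the lengths -/
lemma len_tail (Q : ℕ) : ∃ A : ℝ, 0 < A ∧ ∀ b n : ℕ,
    gf {Z | Z ∈ Lb b ∧ (2 : ℝ) ^ n ≤ (Z.length : ℝ) / ml b} ≤ ENNReal.ofReal (A * Ub b / ((2 : ℝ) ^ n) ^ Q) := by
  obtain ⟨A, hA, h⟩ := tb_M Q
  obtain ⟨Cm, hCm, hmz⟩ := mZ_le
  refine ⟨(A + 1) * Cm ^ Q, by positivity, fun b n => ?_⟩
  have hU := Ub_pos b
  have hml := ml_pos b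
  have h2n : (0 : ℝ) < 2 ^ n := by positivity
  rcases le_or_gt Cm (2 ^ n) with h1 | h1
  · have h2 : 1 ≤ 2 ^ n / Cm := by rwa [le_div_iff₀ (by linarith), one_mul]
    refine (gf_mono (Q := {Z | Z ∈ Lb b ∧ (2 ^ n / Cm) * PW.mZ (2 ^ b) ≤ (Z.length : ℝ)}) ?_).trans
      ((gf_Lb_len b _).trans ((h b _ h2).trans (ENNReal.ofReal_le_ofReal ?_)))
    · rintro Z ⟨h3, h4⟩
      refine ⟨h3, ?_⟩
      rw [le_div_iff₀ hml] at h4
      calc 2 ^ n / Cm * PW.mZ (2 ^ b) ≤ 2 ^ n / Cm * (Cm * ml b) := mul_le_mul_of_nonneg_left (hmz b) (by positivity)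
        _ = 2 ^ n * ml b := by field_simp
        _ ≤ _ := h4
    · rw [div_pow]
      have hC0 : 0 < Cm ^ Q := by positivity
      have e : A / ((2 ^ n) ^ Q / Cm ^ Q) * Ub b = A * Cm ^ Q * Ub b / (2 ^ n) ^ Q := by field_simp
      rw [e]
      gcongr
      linarith
  · refine (gf_mono (Q := Lb b) fun Z hZ => hZ.1).trans ((gf_Lb b).trans (ENNReal.ofReal_le_ofReal ?_))
    rw [le_div_iff₀ (by positivity)]
    have h2 : ((2 : ℝ) ^ n) ^ Q ≤ Cm ^ Q := pow_le_pow_left₀ h2n.le h1.le Q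
    have h3 : 0 ≤ A * Cm ^ Q := by positivity
    calc Ub b * (2 ^ n) ^ Q ≤ Ub b * Cm ^ Q := mul_le_mul_of_nonneg_left h2 hU.le
      _ ≤ (A + 1) * Cm ^ Q * Ub b := by nlinarith

/-- the tail of the ends -/
lemma end_tail (Q : ℕ) : ∃ A : ℝ, 0 < A ∧ ∀ b n : ℕ,
    gf {Z | Z ∈ Lb b ∧ (2 : ℝ) ^ n ≤ ((TIW.hn (TIW.en Z) : ℤ) : ℝ) / 2 ^ b} ≤
      ENNReal.ofReal (A * Ub b / ((2 : ℝ) ^ n) ^ Q) := by
  obtain ⟨C, c, hC, hc, h⟩ := wide_free
  refine ⟨C * Real.exp c * ((Q.factorial : ℝ) / (c / 4) ^ Q), by positivity, fun b n => ?_⟩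
  have hU := Ub_pos b
  have h2n : (0 : ℝ) < 2 ^ n := by positivity
  refine (gf_mono (Q := {Z | Z ∈ BU ∧ hgt Z ≤ 2 ^ (b + 1) ∧ ¬ In (2 ^ n / 4 * 2 ^ b) Z}) ?_).trans
    ((h b _).trans (ENNReal.ofReal_le_ofReal ?_))
  · rintro Z ⟨⟨h1, h2⟩, h3⟩
    refine ⟨h1, h2.trans (Nat.pow_le_pow_right (by norm_num) (by omega)), fun hI => ?_⟩
    have h4 := TIW.hn_le_Bl (hI Z.length le_rfl)
    rw [le_div_iff₀ (by positivity)] at h3
    have h5 : ((2 : ℤ) ^ n * 2 ^ b) ≤ TIW.hn (TIW.en Z) := by exact_mod_cast h3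
    have h6 : 3 * (2 ^ n / 4 * 2 ^ b) < 2 ^ n * 2 ^ b := by
      rw [← mul_assoc]
      refine Nat.mul_lt_mul_of_pos_right ?_ (by positivity)
      have : 0 < 2 ^ n := by positivity
      omega
    have h7 : ((3 * (2 ^ n / 4 * 2 ^ b) : ℕ) : ℤ) < ((2 ^ n * 2 ^ b : ℕ) : ℤ) := by exact_mod_cast h6
    push_cast at h4 h7
    have h8 : TIW.hn (TIW.en Z) = TIW.hn (vx oo up Z Z.length) := rfl
    rw [h8] at h5
    omega
  · have h1 : Real.exp (-(c * ((2 ^ n / 4 : ℕ) : ℝ))) ≤ Real.exp c * Real.exp (-(c / 4 * 2 ^ n)) := by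
      rw [← Real.exp_add]
      apply Real.exp_le_exp.2
      have h2 : 2 ^ n ≤ 4 * (2 ^ n / 4) + 4 := by omega
      have h3 : ((2 : ℝ) ^ n) ≤ 4 * ((2 ^ n / 4 : ℕ) : ℝ) + 4 := by exact_mod_cast h2
      nlinarith
    have h2 : Real.exp (-(c / 4 * 2 ^ n)) ≤ (Q.factorial : ℝ) / (c / 4) ^ Q / (2 ^ n) ^ Q := by
      have h3 := Real.pow_div_factorial_le_exp (c / 4 * 2 ^ n) (by positivity) Q
      rw [Real.exp_neg, div_div, ← mul_pow, inv_eq_one_div, div_le_div_iff₀ (Real.exp_pos _) (by positivity), one_mul]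
      rw [div_le_iff₀ (by positivity)] at h3
      linarith
    calc C * Real.exp (-(c * ((2 ^ n / 4 : ℕ) : ℝ))) * Ub b
        ≤ C * (Real.exp c * ((Q.factorial : ℝ) / (c / 4) ^ Q / (2 ^ n) ^ Q)) * Ub b := by gcongr; exact h1.trans (by gcongr)
      _ = _ := by ring

end BM

open BM

/-- **moments of the length and of the end of the bridges** -/
theorem buMom (q : ℕ) : ∃ C : ℝ, 0 < C ∧ ∀ b : ℕ, ∑' Z : Lb b, wE (Z : List Bool) *
    ENNReal.ofReal ((1 + ((Z : List Bool).length : ℝ) / ml b) ^ q * (1 + ((TIW.hn (TIW.en (Z : List Bool)) : ℤ) : ℝ) / 2 ^ b) ^ q) ≤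
      ENNReal.ofReal (C * Ub b) := by
  obtain ⟨A1, hA1, h1⟩ := len_tail (2 * q + 1)
  obtain ⟨A2, hA2, h2⟩ := end_tail (2 * q + 1)
  refine ⟨(2 ^ (2 * q) + 2 * 4 ^ (2 * q) * A1) + (2 ^ (2 * q) + 2 * 4 ^ (2 * q) * A2), by positivity, fun b => ?_⟩
  have hU := Ub_pos b
  have hml := ml_pos b
  have hx : ∀ Z : List Bool, 0 ≤ (Z.length : ℝ) / ml b := fun Z => by positivity
  have hy : ∀ Z : List Bool, 0 ≤ ((TIW.hn (TIW.en Z) : ℤ) : ℝ) / 2 ^ b := fun Z => by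
    have : (0 : ℝ) ≤ ((TIW.hn (TIW.en Z) : ℤ) : ℝ) := by exact_mod_cast TIW.hn_nonneg _
    positivity
  have k1 := mom_of_tail (S := Lb b) hx (2 * q) (A := A1 * Ub b) (B := Ub b) (by positivity) hU.le (gf_Lb b) (h1 b)
  have k2 := mom_of_tail (S := Lb b) hy (2 * q) (A := A2 * Ub b) (B := Ub b) (by positivity) hU.le (gf_Lb b) (h2 b)
  calc ∑' Z : Lb b, wE (Z : List Bool) * ENNReal.ofReal ((1 + ((Z : List Bool).length : ℝ) / ml b) ^ q *
        (1 + ((TIW.hn (TIW.en (Z : List Bool)) : ℤ) : ℝ) / 2 ^ b) ^ q)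
      ≤ ∑' Z : Lb b, (wE (Z : List Bool) * ENNReal.ofReal ((1 + ((Z : List Bool).length : ℝ) / ml b) ^ (2 * q)) +
        wE (Z : List Bool) * ENNReal.ofReal ((1 + ((TIW.hn (TIW.en (Z : List Bool)) : ℤ) : ℝ) / 2 ^ b) ^ (2 * q))) := by
        refine ENNReal.tsum_le_tsum fun Z => ?_
        rw [← mul_add, ← ENNReal.ofReal_add (by have := hx Z; positivity) (by have := hy Z; positivity)]
        refine mul_le_mul_right (ENNReal.ofReal_le_ofReal ?_) _
        rw [mul_comm 2 q, pow_mul, pow_mul]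
        nlinarith [sq_nonneg ((1 + ((Z : List Bool).length : ℝ) / ml b) ^ q -
          (1 + ((TIW.hn (TIW.en (Z : List Bool)) : ℤ) : ℝ) / 2 ^ b) ^ q), sq_nonneg ((1 + ((Z : List Bool).length : ℝ) / ml b) ^ q),
          sq_nonneg ((1 + ((TIW.hn (TIW.en (Z : List Bool)) : ℤ) : ℝ) / 2 ^ b) ^ q)]
    _ ≤ ENNReal.ofReal (2 ^ (2 * q) * Ub b + 2 * 4 ^ (2 * q) * (A1 * Ub b)) +
        ENNReal.ofReal (2 ^ (2 * q) * Ub b + 2 * 4 ^ (2 * q) * (A2 * Ub b)) := by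
        rw [ENNReal.tsum_add]
        exact add_le_add k1 k2
    _ = _ := by
        rw [← ENNReal.ofReal_add (by positivity) (by positivity)]
        congr 1
        ring

end ARM

end HexObs
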