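import Pool.Agent.ARM.Num
import Pool.Agent.TIW.Base

/-!
# ARM (two arms): numbers, scales, distances from the end (helper63)

* `pr_lev`, `HF.mono`, `Fp_mass` : the predicted mass at two levels;
* `dz_app`, `dz_drop`, `In_of_dz` : distances from the end, boxes.
-/

set_option autoImplicit false

namespace HexObs

namespace ARM

open Finset TS SDN SIM NTA TIP

open scoped ENNReal

/-! ### the predicted mass -/

lemma pr_z (i : ℕ) : pr 0 i = (2 : ℝ) ^ ((43 / 24 : ℝ) * (i : ℝ)) := by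
  have h := ml_pos i
  unfold pr
  rw [Nat.cast_zero, max_eq_right h.le, div_self h.ne', Real.one_rpow, mul_one]

/-- the predicted mass of a higher level -/
lemma pr_lev {j i : ℕ} (n : ℕ) (h : j ≤ i) : pr n i ≤ (2 : ℝ) ^ ((91 / 24 : ℝ) * ((i : ℝ) - j)) * pr n j := by
  obtain ⟨k, rfl⟩ : ∃ k, i = j + k := ⟨i - j, by omega⟩
  have h1 := pr_up n j k
  rwa [show ((j + k : ℕ) : ℝ) - j = k by push_cast; ring]

/-! ### the hypothesis of the sandwich -/

lemma HF.mono {D : ℝ} {n n' j j' : ℕ} (h : HF D n j) (hn : n' ≤ n) (hj : j ≤ j') : HF D n' j' :=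
  fun m i hm hi => h m i (hm.trans hn) (hj.trans hi)

lemma Fp_mass {D : ℝ} {n j : ℕ} (hD : 0 ≤ D) (h : HF D n j) (hj : 1 ≤ j) :
    gf (Fp n j) ≤ ENNReal.ofReal ((2 : ℝ) ^ (91 / 24 : ℝ) * D * pr n j) := by
  refine (gf_mono (Fp_sub_F hj)).trans ((h n (j + 1) le_rfl (by omega)).trans (ENNReal.ofReal_le_ofReal ?_))
  have h1 := pr_up n j 1
  rw [Nat.cast_one, mul_one] at h1
  calc D * pr n (j + 1) ≤ D * ((2 : ℝ) ^ (91 / 24 : ℝ) * pr n j) := by gcongr
    _ = _ := by ring

/-! ### distances from the end, boxes -/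

lemma dz_nonneg (L : List Bool) (t : ℕ) : 0 ≤ dz L t := TIW.hn_nonneg _

lemma dz_len (L : List Bool) : dz L L.length = 0 := by
  unfold dz TIW.en
  rw [sub_self]
  decide

lemma dz_app (A Y : List Bool) (k : ℕ) : dz (A ++ Y) (A.length + k) = dz Y k := by
  unfold dz
  have h1 := TIW.vx_app A Y k
  have h2 := TIW.vx_app A Y Y.length
  rw [← List.length_append] at h2
  have h3 : TIW.en (A ++ Y) = TIW.en A + mulE (TIW.rt A) (TIW.en Y) := h2
  rw [h1, h3, add_sub_add_left_eq_sub, ← mulE_sub, TIW.hn_mulE (TIW.nrm_rt A)]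

lemma dz_drop (L : List Bool) {c s : ℕ} (h : c ≤ s) (hs : s ≤ L.length) : dz (L.drop c) (s - c) = dz L s := by
  have h1 := dz_app (L.take c) (L.drop c) (s - c)
  rw [List.take_append_drop, List.length_take, min_eq_left (by omega), show c + (s - c) = s by omega] at h1
  exact h1.symm

lemma Bl_of_hn {p : Pt} {D : ℕ} (h : TIW.hn p ≤ D) : p ∈ Bl oo D := by
  have h1 := TIW.ip_le_hn p (show ((1, 0) : Pt) ∈ dirs by decide)
  have h2 := TIW.ip_le_hn p (show ((0, 1) : Pt) ∈ dirs by decide)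
  have h3 := TIW.neg_hn_le_ip p (show ((1, 0) : Pt) ∈ dirs by decide)
  have h4 := TIW.neg_hn_le_ip p (show ((0, 1) : Pt) ∈ dirs by decide)
  simp only [ip] at h1 h2 h3 h4
  have e1 : (oo : Pt).1 = 0 := rfl
  have e2 : (oo : Pt).2 = 0 := rfl
  refine ⟨?_, ?_⟩
  · rw [e1, sub_zero, abs_le]
    constructor <;> linarith
  · rw [e2, sub_zero, abs_le]
    constructor <;> linarith

lemma In_of_hn {Y : List Bool} {D : ℕ} (h : ∀ s, s ≤ Y.length → TIW.hn (vx oo up Y s) ≤ D) : In D Y :=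
  fun s hs => Bl_of_hn (h s hs)

/-- the distance of two vertices -/
lemma hn_dz (L : List Bool) (s t : ℕ) : TIW.hn (vx oo up L s - vx oo up L t) ≤ dz L s + dz L t := by
  unfold dz
  rw [TIW.hn_sub_comm (vx oo up L t)]
  exact TIW.hn_tri _ _ _

lemma dz_hn (L : List Bool) (s t : ℕ) : dz L s ≤ TIW.hn (vx oo up L s - vx oo up L t) + dz L t := by
  unfold dz
  exact TIW.hn_tri _ _ _

/-- a word is in the box of radius D if its start and its vertices are close to its end -/
lemma In_of_dz {Y : List Bool} {D : ℕ} (h : ∀ s, s ≤ Y.length → dz Y s + dz Y 0 ≤ D) : In D Y := by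
  refine In_of_hn fun s hs => le_trans ?_ (h s hs)
  have h1 := hn_dz Y s 0
  have h2 : vx oo up Y 0 = 0 := rfl
  rwa [h2, sub_zero] at h1

end ARM

end HexObs
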