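import Pool.Agent.ARM.Defs2
import Pool.Agent.NPR.Defs

/-!
# ARM, part 2: two good ends with DISJOINT local structures (helper82's form), the literals `TipF2s`, `ExCs`

For the rows T2N, T2S, T2Q, LowPt. `NPR.GS`: good local start, `NPR.GE`: good local end.
-/

set_option autoImplicit false

namespace HexObs

namespace ARM

open Finset TS SDN SIM NTA TIP

open scoped ENNReal

/-- words with a good local start and a good local end of the scale b, disjoint -/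
def TwoG (η : ℝ) (E b : ℕ) : Set (List Bool) :=
  {L | ∃ S ∈ NPR.GS η E b, ∃ R, ∃ T ∈ NPR.GE η E b, L = S ++ (R ++ T)}

/-- **row T' (helper73)** -/
def TipF2s : Prop := ∀ (η : ℝ) (E : ℕ), 0 < η → ∃ C : ℝ, 0 < C ∧ ∀ (D : ℝ) (n i b : ℕ), 0 ≤ D → HF D n i → b ≤ i →
  gf {L | L ∈ F n i ∧ L ∈ TwoG η E b} * Xb b ^ 2 ≤ ENNReal.ofReal (C * D * pr n i)

/-- **row D' (helper28)** (double counting at both ends of a closed word, level i) -/
def ExCs : Prop := ∀ (η : ℝ) (E c : ℕ), 0 < η → ∃ C : ℝ, 0 < C ∧ ∀ (D : ℝ) (n i b : ℕ), 0 ≤ D → HF D n i → b ≤ i →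
  ∀ (ρ : List Bool → List Bool → List Bool → Prop) (x : ℝ≥0∞) (q : ℝ), (∀ Y2 M Y1, ρ Y2 M Y1 → M ∈ TwoG η E b) →
    (∀ M, ∑' p : {p : List Bool × List Bool | ρ p.1 M p.2 ∧ In (2 ^ (i + c)) p.1 ∧ In (2 ^ (i + c)) p.2 ∧
      p.1 ++ (M ++ p.2) ∈ C0 n}, wE (p : List Bool × List Bool).1 * wE (p : List Bool × List Bool).2 ≤
        x * ENNReal.ofReal (wt n M.length i)) → 0 < q →
    gf {L | L ∈ C0 n ∧ q ≤ ((tri (2 ^ (i + c)) ρ L).ncard : ℝ)} * (ENNReal.ofReal q * Xb b ^ 2) ≤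
      ENNReal.ofReal (C * D * pr n i) * x

end ARM

end HexObs
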