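import Pool.Agent.ARM.PMJ
import Pool.Agent.ARM.DefsC

/-!
# ARM, row T2N (helper9): the literals of the root pieces (words with a good start and a good end of the scale b) and of the
exceptional classes of closed words

`W2E η D b c` : words in the box of the scale b + c with a good start and a good end.
-/

set_option autoImplicit false

namespace HexObs

namespace ARM

open Finset TS SDN SIM NTA TIP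

open scoped ENNReal

/-- **row QPt** (from SmL and PMJ): exact end and exact length -/
def QPt : Prop := ∀ (η : ℝ) (D c q : ℕ), 0 < η → ∃ (C : ℝ) (b0 : ℕ), 0 < C ∧ ∀ (b y : ℕ) (z : Pt), b0 ≤ b →
  gf {Q | Q ∈ W2E η D b c ∧ Q.length = y ∧ TIW.en Q = z} ≤
    ENNReal.ofReal (C * (Ub b / (4 ^ b * ml b)) / (1 + (y : ℝ) / ml b) ^ q)

/-- the root pieces with a long factor in Nz of the scale b or b + 1 -/
def W2B (κ : ℝ) (C : ℕ) (η : ℝ) (D b J c1 : ℕ) : Set (List Bool) :=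
  {Q | Q ∈ W2E η D b J ∧ ∃ b' n : ℕ, (b' = b ∨ b' = b + 1) ∧ 2 ^ J ≤ n * 2 ^ c1 ∧ Q ∈ Lz κ C b' n}

/-- **row QPtBad** (from SmL, PMJ, QBadM) -/
def QPtBad (κ : ℝ) (C : ℕ) : Prop := ∀ (η : ℝ) (D a c1 q : ℕ), 0 < η → ∃ J0 b0 : ℕ, ∀ (b J y : ℕ) (z : Pt), b0 ≤ b →
  J0 ≤ J → gf {Q | Q ∈ W2B κ C η D b J c1 ∧ Q.length = y ∧ TIW.en Q = z} ≤
    ENNReal.ofReal ((1 / 2) ^ (a * J) * (Ub b / (4 ^ b * ml b)) / (1 + (y : ℝ) / ml b) ^ q)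

/-- **row QBadM** (helper28, from RegZ and NPR.twoE): the mass of the root pieces with a long factor in Nz -/
def QBadM (κ : ℝ) (C : ℕ) : Prop := ∀ (η : ℝ) (D a c1 : ℕ), 0 < η → ∃ J0 b0 : ℕ, ∀ b J : ℕ, b0 ≤ b → J0 ≤ J →
  gf {Q | Q ∈ W2E η D b J ∧ ∃ b' n : ℕ, (b' = b ∨ b' = b + 1) ∧ 2 ^ J ≤ n * 2 ^ c1 ∧ Q ∈ Lz κ C b' n} ≤
    ENNReal.ofReal ((1 / 2) ^ (a * J) * Ub b)

/-- closed words with two disjoint good factors, both ends in the box of the scale b + J, one end with a long factor in Nz -/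
def E2F (κ : ℝ) (C b c1 J n : ℕ) : Set (List Bool) :=
  {L | L ∈ C0 n ∧ ∃ P Z V W Y, L = P ++ (Z ++ (V ++ (W ++ Y))) ∧ Z ∈ Zc κ C b ∧ W ∈ Zc κ C b ∧ In (2 ^ (b + J)) P ∧
    In (2 ^ (b + J)) Y ∧ ∃ N, 2 ^ J ≤ N * 2 ^ c1 ∧ (P ∈ Lz κ C b N ∨ Y ∈ Lz κ C b N)}

/-- closed words with a good factor, the rest in the box of the scale b + J, with a long factor in Nz -/
def E1F (κ : ℝ) (C b c1 J n : ℕ) : Set (List Bool) :=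
  {L | L ∈ C0 n ∧ ∃ X Z Y, L = X ++ (Z ++ Y) ∧ Z ∈ Zc κ C b ∧ In (2 ^ (b + J)) X ∧ In (2 ^ (b + J)) Y ∧
    ∃ b' N, (b' = b ∨ b' = b + 1) ∧ 2 ^ J ≤ N * 2 ^ c1 ∧ (X ∈ Lz κ C b' N ∨ Y ∈ Lz κ C b' N)}

/-- **row RootB** -/
def RootB (κ : ℝ) (C : ℕ) : Prop := ∀ a c1 : ℕ, ∃ (A : ℝ) (J0 b0 : ℕ), 0 < A ∧ ∀ n b J : ℕ, 1 ≤ n → b0 ≤ b → J0 ≤ J →
  gf (E2F κ C b c1 J n) ≤ ENNReal.ofReal (A * (1 / 2) ^ (a * J) * (n : ℝ) ^ (-(3 / 2) : ℝ)) ∧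
  gf (E1F κ C b c1 J n) ≤ ENNReal.ofReal (A * (1 / 2) ^ (a * J) * (n : ℝ) ^ (-(3 / 2) : ℝ))

/-- **row RootN** -/
def RootN (κ : ℝ) (C : ℕ) : Prop := ∀ a : ℕ, ∃ (A : ℝ) (J0 b0 : ℕ), 0 < A ∧ ∀ n b J : ℕ, 1 ≤ n → b0 ≤ b → J0 ≤ J →
  gf {L | L ∈ C0 n ∧ L ∈ Nz κ C b ∧ ¬ In (2 ^ (b + J)) L} ≤
    ENNReal.ofReal (A * (1 / 2) ^ (a * J) * (n : ℝ) ^ (-(3 / 2) : ℝ))

end ARM

end HexObs
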