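import Pool.Agent.ARM.T2Na
import Pool.Agent.ARM.DefsT
import Pool.Agent.TIP.NfC

/-!
# ARM2, row T2N, part b (helper9): one closed word

* `ne_first` : the first good factor; `Zd` : a good factor with its parts, `Zd.gs`, `Zd.ge` : the cuts;
* `D2` : the first and the last good factor, disjoint; `d2_of`;
* `few_cut` : few good cuts at the end give parts that start with many bridges with few free cuts;
* **`tri_A`**, **`tri_B`** : the number of the decompositions.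
-/

set_option autoImplicit false

namespace HexObs

namespace ARM

open Finset TS SDN SIM NTA TIP

open TIP.Nf (cz mem_cz nc_cz rank_lt rank_sum card_rank cz_split in_mid in_app in_mono Dt NeW)

open scoped ENNReal

namespace T2

variable {κ η : ℝ} {C b : ℕ}

/-- the first good factor -/
lemma ne_first {t : List Bool} (h : t ∉ Nz κ C b) :
    ∃ X Z Y, t = X ++ (Z ++ Y) ∧ Y ≠ [] ∧ Z ∈ Zc κ C b ∧ X ∈ Nz κ C b := by
  classical
  have h' : ∃ m : ℕ, ∃ X Z Y, t = X ++ (Z ++ Y) ∧ Y ≠ [] ∧ Z ∈ Zc κ C b ∧ (X ++ Z).length = m := by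
    by_contra hcon
    apply h
    intro X Z Y h1 h2 h3
    exact hcon ⟨_, X, Z, Y, h1, h2, h3, rfl⟩
  obtain ⟨X, Z, Y, h1, h2, h3, h4⟩ := Nat.find_spec h'
  refine ⟨X, Z, Y, h1, h2, h3, fun X' Z' Y' e1 e2 e3 => ?_⟩
  have h5 : (X' ++ Z').length < Nat.find h' := by
    rw [← h4]
    have h6 := congrArg List.length e1
    have h7 := List.length_pos_iff.2 e2
    simp only [List.length_append] at h6 ⊢
    omega
  refine Nat.find_min h' h5 ⟨X', Z', Y' ++ (Z ++ Y), ?_, ?_, e3, rfl⟩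
  · conv_lhs => rw [h1, e1]
    simp only [List.append_assoc]
  · intro h6
    exact e2 (List.append_eq_nil_iff.1 h6).1

lemma mem_GS {E : ℕ} (hb : b ≠ 0) {S : List Bool} : S ∈ NPR.GS η E b ↔ ∃ N Z3, S = N ++ Z3 ∧ N ∈ BU ∧ Z3 ∈ BU ∧
    hgt N ≤ 2 ^ b ∧ 2 ^ (b + 1) ≤ hgt Z3 ∧ η * Ub b ≤ (nc N : ℝ) ∧ In (E * 2 ^ b) S := by
  show (if b = 0 then S = [] else _) ↔ _
  rw [if_neg hb]

lemma mem_GE {E : ℕ} (hb : b ≠ 0) {T : List Bool} : T ∈ NPR.GE η E b ↔ ∃ Z1 M, T = Z1 ++ M ∧ Z1 ∈ BU ∧ M ∈ BU ∧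
    hgt M ≤ 2 ^ b ∧ 2 ^ (b + 1) ≤ hgt Z1 ∧ η * Ub b ≤ (nc M : ℝ) ∧ In (E * 2 ^ b) T := by
  show (if b = 0 then T = [] else _) ↔ _
  rw [if_neg hb]

/-- a good factor with its parts -/
structure Zd (κ : ℝ) (C b : ℕ) (Z1 Z2 Z3 : List Bool) : Prop where
  b1 : Z1 ∈ BU
  b2 : Z2 ∈ BU
  b3 : Z3 ∈ BU
  h1 : 2 ^ (b + 1) ≤ hgt Z1
  h3 : 2 ^ (b + 1) ≤ hgt Z3
  h2 : hgt Z2 ≤ 2 ^ b
  n2 : κ * Ub b ≤ (nc Z2 : ℝ)
  inn : In (C * 2 ^ b) (Z1 ++ (Z2 ++ Z3))

lemma Zd_of {Z : List Bool} (h : Z ∈ Zc κ C b) : ∃ Z1 Z2 Z3, Z = Z1 ++ (Z2 ++ Z3) ∧ Zd κ C b Z1 Z2 Z3 := by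
  obtain ⟨Z1, Z2, Z3, rfl, c1, c2, c3, c4, c5, c6, c7, c8⟩ := h
  exact ⟨Z1, Z2, Z3, rfl, c1, c2, c3, c4, c5, c6, c7, c8⟩

section

variable {Z1 Z2 Z3 : List Bool}

/-- the good start behind a cut -/
lemma Zd.gs (hd : Zd κ C b Z1 Z2 Z3) (hb : b ≠ 0) {c h E : ℕ} (hc : c ∈ cz Z2) (hη : η * Ub b ≤ (h : ℝ))
    (c1 : h ≤ nc (Z2.drop c)) (hE : 2 * C ≤ E) : Z2.drop c ++ Z3 ∈ NPR.GS η E b := by
  obtain ⟨a1, a2, a3⟩ := mem_cz.1 hc
  have hh : hgt (Z2.take c) + hgt (Z2.drop c) = hgt Z2 := by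
    rw [← hgt_app a2 a3, List.take_append_drop]
  have h2 := hd.h2
  refine (mem_GS hb).2 ⟨_, _, rfl, a3, hd.b3, by omega, hd.h3, hη.trans (by exact_mod_cast c1), ?_⟩
  refine in_mono (in_mid (X := Z1 ++ Z2.take c) (R := []) (BU_dx (BU_app hd.b1 a2)) (E := C * 2 ^ b) ?_) ?_
  · have : (Z1 ++ Z2.take c) ++ ((Z2.drop c ++ Z3) ++ []) = Z1 ++ (Z2 ++ Z3) := by
      rw [List.append_nil, List.append_assoc]
      conv_rhs => rw [← List.take_append_drop c Z2]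
      simp only [List.append_assoc]
    rw [this]
    exact hd.inn
  · rw [← mul_assoc]
    exact Nat.mul_le_mul_right _ hE

/-- the good end before a cut -/
lemma Zd.ge (hd : Zd κ C b Z1 Z2 Z3) (hb : b ≠ 0) {c h E : ℕ} (hc : c ∈ cz Z2) (hη : η * Ub b ≤ (h : ℝ))
    (c1 : h ≤ nc (Z2.take c)) (hE : C ≤ E) : Z1 ++ Z2.take c ∈ NPR.GE η E b := by
  obtain ⟨a1, a2, a3⟩ := mem_cz.1 hc
  have hh : hgt (Z2.take c) + hgt (Z2.drop c) = hgt Z2 := by
    rw [← hgt_app a2 a3, List.take_append_drop]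
  have h2 := hd.h2
  refine (mem_GE hb).2 ⟨_, _, rfl, hd.b1, a2, by omega, hd.h1, hη.trans (by exact_mod_cast c1), fun i hi => ?_⟩
  have e : Z1 ++ (Z2 ++ Z3) = (Z1 ++ Z2.take c) ++ (Z2.drop c ++ Z3) := by
    conv_lhs => rw [← List.take_append_drop c Z2]
    simp only [List.append_assoc]
  have h3 := hd.inn i (by rw [e, List.length_append]; omega)
  rw [e, vx_append (by omega)] at h3
  exact Bl_mono _ (Nat.mul_le_mul_right _ hE) h3

lemma Zd.in_pre (hd : Zd κ C b Z1 Z2 Z3) {c : ℕ} : In (C * 2 ^ b) (Z1 ++ Z2.take c) := by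
  intro i hi
  have e : Z1 ++ (Z2 ++ Z3) = (Z1 ++ Z2.take c) ++ (Z2.drop c ++ Z3) := by
    conv_lhs => rw [← List.take_append_drop c Z2]
    simp only [List.append_assoc]
  have h3 := hd.inn i (by rw [e, List.length_append]; omega)
  rw [e, vx_append (by omega)] at h3
  exact h3

end

/-- words with a good local end -/
def En (η : ℝ) (E b : ℕ) : Set (List Bool) := {Y | ∃ R, ∃ T ∈ NPR.GE η E b, Y = R ++ T}

/-- two parts, any direction of the first one -/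
lemma in_app2 {E E' : ℕ} {W Y : List Bool} (h1 : In E W) (h2 : In E' Y) : In (E + 2 * E') (W ++ Y) := by
  intro i hi
  rcases Nat.lt_or_ge W.length i with h | h
  · obtain ⟨k, rfl⟩ : ∃ k, i = W.length + k := ⟨i - W.length, by omega⟩
    rw [List.length_append] at hi
    have e1 : vx oo up (W ++ Y) (W.length + k) = tipv W + mulE (rotTo up (tipd W)) (vx oo up Y k) := vx_general W Y k
    obtain ⟨a1, a2⟩ := h1 W.length le_rfl
    obtain ⟨b1, b2⟩ := h2 k (by omega)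
    have hu : rotTo up (tipd W) ∈ dirs := by
      have : ∀ d ∈ dirs, rotTo up d ∈ dirs := by decide
      exact this _ (tipd_mem _)
    have o1 : (oo : Pt).1 = 0 := rfl
    have o2 : (oo : Pt).2 = 0 := rfl
    rw [o1, sub_zero] at a1 b1
    rw [o2, sub_zero] at a2 b2
    obtain ⟨m1, m2⟩ := Nf.mulE_bl hu b1 b2
    have a1' : |(tipv W).1| ≤ (E : ℤ) := a1
    have a2' : |(tipv W).2| ≤ (E : ℤ) := a2
    rw [e1]
    refine ⟨?_, ?_⟩
    · rw [o1, sub_zero, Prod.fst_add]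
      push_cast
      exact (abs_add_le _ _).trans (add_le_add a1' m1)
    · rw [o2, sub_zero, Prod.snd_add]
      push_cast
      exact (abs_add_le _ _).trans (add_le_add a2' m2)
  · rw [vx_append (by omega)]
    exact Bl_mono _ (by omega) (h1 i h)

lemma in_nil {E : ℕ} : In E [] := by
  intro i hi
  have : i = 0 := Nat.le_zero.1 hi
  subst this
  exact ⟨by simp [vx, vs], by simp [vx, vs]⟩

lemma in_letter {β : Bool} : In 1 [β] := by
  intro i hi
  have h1 : i = 0 ∨ i = 1 := by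
    simp only [List.length_singleton] at hi
    omega
  rcases h1 with rfl | rfl
  · have : vx oo up [β] 0 = oo := rfl
    rw [this]
    exact ⟨by simp, by simp⟩
  · have : vx oo up [β] 1 = oo + up := rfl
    rw [this]
    exact ⟨by decide, by decide⟩

/-! ### two good factors -/

/-- the first and the last good factor -/
structure D2 (κ : ℝ) (C b : ℕ) (L P Z1 Z2 Z3 V W1 W2 W3 Y : List Bool) : Prop where
  eq : L = P ++ (Z1 ++ (Z2 ++ (Z3 ++ (V ++ (W1 ++ (W2 ++ (W3 ++ Y)))))))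
  z : Zd κ C b Z1 Z2 Z3
  w : Zd κ C b W1 W2 W3

/-- two good factors, or one that cuts the word into two parts without good factors, or none -/
lemma d2_of (hW : NeW) {L : List Bool} (h : L ∉ Nz κ C b) :
    (∃ P Z1 Z2 Z3 V W1 W2 W3 Y, D2 κ C b L P Z1 Z2 Z3 V W1 W2 W3 Y ∧ P ∈ Nz κ C b ∧ Y ∈ Nz κ C b) ∨
    ∃ X Z1 Z2 Z3 Y, L = X ++ (Z1 ++ (Z2 ++ (Z3 ++ Y))) ∧ Zd κ C b Z1 Z2 Z3 ∧ X ∈ Nz κ C b ∧ Y ∈ Nz κ C b := by
  obtain ⟨X, Z, Y, h1, -, h3, h4⟩ := hW.last κ C b L h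
  obtain ⟨W1, W2, W3, rfl, hw⟩ := Zd_of h3
  by_cases hX : X ∈ Nz κ C b
  · right
    refine ⟨X, W1, W2, W3, Y, ?_, hw, hX, h4⟩
    rw [h1]
    simp only [List.append_assoc]
  · left
    obtain ⟨P, Z, V, e1, -, e3, e4⟩ := ne_first hX
    obtain ⟨Z1, Z2, Z3, rfl, hz⟩ := Zd_of e3
    refine ⟨P, Z1, Z2, Z3, V, W1, W2, W3, Y, ⟨?_, hz, hw⟩, e4, h4⟩
    rw [h1, e1]
    simp only [List.append_assoc]

/-- the number of the decompositions -/
lemma tri_ge {D : ℕ} {ρ : List Bool → List Bool → List Bool → Prop} {L : List Bool} {A B : Finset ℕ}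
    {p1 p2 : ℕ → List Bool} (h1 : Set.InjOn p1 (A : Set ℕ)) (h2 : Set.InjOn p2 (B : Set ℕ))
    (h : ∀ a ∈ A, ∀ c ∈ B, In D (p1 a) ∧ In D (p2 c) ∧ ∃ M, L = p1 a ++ (M ++ p2 c) ∧ ρ (p1 a) M (p2 c)) :
    A.card * B.card ≤ (tri D ρ L).ncard := by
  classical
  have hfin : (tri D ρ L).Finite := by
    have : (tri D ρ L) ⊆ ((L.inits.toFinset ×ˢ L.tails.toFinset : Finset (List Bool × List Bool)) :
        Set (List Bool × List Bool)) := by
      rintro ⟨p, q⟩ ⟨-, -, M, h3, -⟩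
      rw [mem_coe, mem_product, List.mem_toFinset, List.mem_toFinset, List.mem_inits, List.mem_tails]
      exact ⟨⟨M ++ q, h3.symm⟩, ⟨p ++ M, by rw [List.append_assoc]; exact h3.symm⟩⟩
    exact (Finset.finite_toSet _).subset this
  have hinj : Set.InjOn (fun q : ℕ × ℕ => (p1 q.1, p2 q.2)) ((A ×ˢ B : Finset (ℕ × ℕ)) : Set (ℕ × ℕ)) := by
    rintro ⟨a, c⟩ hq ⟨a', c'⟩ hq' he
    rw [mem_coe, mem_product] at hq hq'
    simp only [Prod.mk.injEq] at he
    exact Prod.ext (h1 hq.1 hq'.1 he.1) (h2 hq.2 hq'.2 he.2)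
  rw [← card_product, ← card_image_of_injOn hinj, ← Set.ncard_coe_finset]
  refine Set.ncard_le_ncard (fun x hx => ?_) hfin
  obtain ⟨⟨a, c⟩, hq, rfl⟩ := mem_image.1 (mem_coe.1 hx)
  rw [mem_product] at hq
  exact h a hq.1 c hq.2

/-! ### few free cuts at the end -/

/-- the ends that start with many bridges with few free cuts, behind them a good local start -/
def FwS (κ0 : ℝ) (r b E : ℕ) (η q : ℝ) (A Y : List Bool) : Prop :=
  ∃ S : Finset ℕ, q ≤ (S.card : ℝ) ∧ ∀ k ∈ S, k ≤ Y.length ∧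
    (Y.take k ∈ BU ∧ hgt (Y.take k) ≤ 2 ^ b ∧ A ++ Y.take k ∈ SA ∧ (frN (Far6 r) A (Y.take k) : ℝ) < κ0) ∧
    Y.drop k ∈ St η E b

open Classical in
lemma few_cut (hW : NeW) {t X Z1 Z2 Z3 Y0 : List Bool} (hd : Dt κ C b t X Z1 Z2 Z3 Y0) (hb : b ≠ 0) {κ0 κ' : ℝ}
    {h m r a : ℕ} (hh : 1 ≤ h) (hη : η * Ub b ≤ (h : ℝ)) (h4 : 4 * h ≤ nc Z2) (hE : In (2 ^ (b + m)) Y0)
    (hC : 2 * C ≤ 2 ^ m) (ha : 2 ^ a ≤ r) (hκ : κ' * Ub b ≤ κ0)
    (hN : ((NCa b a (2 ^ (b + (m + 1))) η t).ncard : ℝ) < κ' * Ub b)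
    {c : ℕ} (hc1 : c ∈ cz Z2) (hc2 : h ≤ nc (Z2.take c)) (hc3 : nc (Z2.take c) < 2 * h) :
    FwS κ0 r b (2 * C) η h (t.take ((X ++ Z1).length + c)) (t.drop ((X ++ Z1).length + c)) := by
  have hpow : 2 * (C * 2 ^ b) + 2 ^ (b + m) ≤ 2 ^ (b + (m + 1)) := by
    have e1 : 2 ^ (b + (m + 1)) = 2 ^ m * 2 ^ b + 2 ^ (b + m) := by
      rw [← add_assoc, pow_succ, pow_add]
      ring
    have e2 := Nat.mul_le_mul_right (2 ^ b) hC
    rw [e1]
    nlinarith
  have h3 := card_rank hW (Z := Z2) (lo := 2 * h) (hi := 3 * h) (by omega) (by omega)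
  have h3' : 3 * h - 2 * h = h := by omega
  rw [h3'] at h3
  obtain ⟨a1, a2, a3⟩ := mem_cz.1 hc1
  obtain ⟨f1, f2, f3⟩ := hd.cut a1
  have hzd : Zd κ C b Z1 Z2 Z3 := ⟨hd.b1, hd.b2, hd.b3, hd.h1, hd.h3, hd.h2, hd.n2, hd.inn⟩
  have hlt : ∀ c' ∈ (cz Z2).filter (fun c => 2 * h ≤ nc (Z2.take c) ∧ nc (Z2.take c) < 3 * h), c < c' := by
    intro c' hc'
    rw [mem_filter] at hc'
    by_contra hcon
    rcases Nat.eq_or_lt_of_le (not_lt.1 hcon) with he | he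
    · rw [he] at hc'
      omega
    · have := rank_lt hW hc'.1 hc1 he
      omega
  refine ⟨((cz Z2).filter (fun c => 2 * h ≤ nc (Z2.take c) ∧ nc (Z2.take c) < 3 * h)).image (fun c' => c' - c), ?_,
    fun k hk => ?_⟩
  · rw [card_image_of_injOn, h3]
    intro x hx y hy hxy
    have := hlt x (mem_coe.1 hx)
    have := hlt y (mem_coe.1 hy)
    simp only at hxy
    omega
  · obtain ⟨c', hc', rfl⟩ := mem_image.1 hk
    have hcc := hlt c' hc'
    rw [mem_filter] at hc'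
    obtain ⟨d1, d2, d3⟩ := hc'
    obtain ⟨P, M, R, p1, p2, p3, p4, p5, p6, p7, p8, p9, p10⟩ := cz_split hc1 d1 hcc.le
    obtain ⟨b1, b2, b3⟩ := mem_cz.1 d1
    obtain ⟨k1, k2, k3⟩ := hd.cut b1
    have hMl : M.length = c' - c := by omega
    have e1 : t.drop ((X ++ Z1).length + c) = M ++ (R ++ (Z3 ++ Y0)) := by
      rw [f3, p8, List.append_assoc]
    have e2 : (t.drop ((X ++ Z1).length + c)).take (c' - c) = M := by
      rw [e1]
      exact List.take_left' hMl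
    have e3 : (t.drop ((X ++ Z1).length + c)).drop (c' - c) = t.drop ((X ++ Z1).length + c') := by
      rw [List.drop_drop]
      congr 1
      omega
    have e4 : t.take ((X ++ Z1).length + c) ++ M = t.take ((X ++ Z1).length + c') := by
      rw [f2, k2, p7, p9]
      simp only [List.append_assoc]
    rw [e2, e3]
    have hhM : hgt P + (hgt M + hgt R) = hgt Z2 := by
      rw [← hgt_app p2 p3, ← hgt_app p1 (BU_app p2 p3), ← p4]
    have hh2 := hd.h2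
    refine ⟨?_, ⟨p2, by omega, ?_, ?_⟩, ?_⟩
    · rw [e1, List.length_append]
      omega
    · rw [e4]
      exact SA_take hd.sa _
    · -- few free cuts
      by_contra hcon
      rw [not_lt] at hcon
      have key : frN (Far6 r) (t.take ((X ++ Z1).length + c)) M ≤ (NCa b a (2 ^ (b + (m + 1))) η t).ncard := by
        unfold frN
        rw [← card_image_of_injective _ (fun x y h => Nat.add_left_cancel h :
          Function.Injective fun i => ((X ++ Z1).length + c) + i)]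
        refine Nf.nca_ge fun q hq => ?_
        obtain ⟨i, hi, rfl⟩ := mem_image.1 hq
        rw [mem_filter, mem_range] at hi
        obtain ⟨i1, i2, i3, i4⟩ := hi
        have m1 : Z2.take (c + i) = P ++ M.take i := by
          rw [p4, ← p5, List.take_length_add_append, List.take_append_of_le_length (by omega)]
        have m2 : Z2.drop (c + i) = M.drop i ++ R := by
          rw [p4, ← p5, List.drop_length_add_append, List.drop_append_of_le_length (by omega)]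
        have m3 : c + i ∈ cz Z2 := by
          rw [mem_cz, m1, m2]
          exact ⟨by omega, BU_app p1 i2, BU_app i3 p3⟩
        have m4 : nc (Z2.take c) ≤ nc (Z2.take (c + i)) := by
          rcases Nat.eq_zero_or_pos i with h0 | h0
          · rw [h0, add_zero]
          · exact (rank_lt hW hc1 m3 (by omega)).le
        have m5 : nc (Z2.take (c + i)) ≤ nc (Z2.take c') := by
          rcases Nat.eq_or_lt_of_le (show c + i ≤ c' by omega) with h0 | h0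
          · rw [h0]
          · exact (rank_lt hW m3 d1 h0).le
        obtain ⟨n1, n2, n3⟩ := hd.cut (mem_cz.1 m3).1
        obtain ⟨o1, o2⟩ := hd.gt hW hη h4 m3 (by omega) (by omega)
        rw [← add_assoc] at n1 n2 n3 o1 o2
        refine ⟨n1, o2, ?_, ?_⟩
        · have := hd.inD hE hpow m3
          rwa [← add_assoc (X ++ Z1).length c i] at this
        · have : t.take ((X ++ Z1).length + c + i) = t.take ((X ++ Z1).length + c) ++ M.take i := by
            rw [n2, f2, m1, p7]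
            simp only [List.append_assoc]
          rw [this]
          exact Nf.free_of i2 i4 ha
      have key' : (frN (Far6 r) (t.take ((X ++ Z1).length + c)) M : ℝ) ≤ ((NCa b a (2 ^ (b + (m + 1))) η t).ncard : ℝ) := by
        exact_mod_cast key
      linarith
    · have hs := rank_sum hW d1
      refine ⟨Z2.drop c' ++ Z3, hzd.gs hb d1 hη (by omega) le_rfl, Y0, ?_⟩
      rw [k3, List.append_assoc]

end T2

open T2

/-- the relation of the case A (both ends small, few free cuts at the end) -/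
def RhA (κ0 : ℝ) (r b E : ℕ) (η q : ℝ) (Y2 M Y1 : List Bool) : Prop :=
  M ∈ TwoG η E b ∧ Y2 ∈ En η E b ∧ FwS κ0 r b E η q (Y2 ++ M) Y1

/-- the relation of the case B (a long factor without good windows in one end) -/
def RhB (κ : ℝ) (C b E J c1 : ℕ) (η : ℝ) (Y2 M Y1 : List Bool) : Prop :=
  M ∈ TwoG η E b ∧ Y2 ∈ En η E b ∧ Y1 ∈ St η E b ∧
    ∃ n : ℕ, 2 ^ J ≤ n * 2 ^ c1 ∧ (Y2 ∈ Lz κ C b n ∨ Y1 ∈ Lz κ C b n)

namespace T2

variable {κ η : ℝ} {C b : ℕ} {L P Z1 Z2 Z3 V W1 W2 W3 Y : List Bool}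

/-- the parts at a pair of cuts -/
lemma D2.parts (hW : NeW) (hd : D2 κ C b L P Z1 Z2 Z3 V W1 W2 W3 Y) (hb : b ≠ 0) {h E : ℕ} (hη : η * Ub b ≤ (h : ℝ))
    (hz : 4 * h ≤ nc Z2) (hw : 4 * h ≤ nc W2) (hE : 2 * C ≤ E) {c d : ℕ} (hc : c ∈ cz Z2) (c1 : h ≤ nc (Z2.take c))
    (c2 : nc (Z2.take c) < 2 * h) (hdd : d ∈ cz W2) (d1 : h ≤ nc (W2.take d)) (d2 : nc (W2.take d) < 2 * h) :
    L = (P ++ (Z1 ++ Z2.take c)) ++ ((Z2.drop c ++ (Z3 ++ (V ++ (W1 ++ W2.take d)))) ++ (W2.drop d ++ (W3 ++ Y))) ∧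
      Z2.drop c ++ (Z3 ++ (V ++ (W1 ++ W2.take d))) ∈ TwoG η E b ∧ P ++ (Z1 ++ Z2.take c) ∈ En η E b ∧
      W2.drop d ++ (W3 ++ Y) ∈ St η E b := by
  have hs := rank_sum hW hc
  have hs' := rank_sum hW hdd
  refine ⟨?_, ?_, ?_, ?_⟩
  · rw [hd.eq]
    conv_lhs => rw [← List.take_append_drop c Z2, ← List.take_append_drop d W2]
    simp only [List.append_assoc]
  · refine ⟨Z2.drop c ++ Z3, hd.z.gs hb hc hη (by omega) hE, V, W1 ++ W2.take d, hd.w.ge hb hdd hη d1 (by omega), ?_⟩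
    simp only [List.append_assoc]
  · exact ⟨P, _, hd.z.ge hb hc hη c1 (by omega), rfl⟩
  · exact ⟨_, hd.w.gs hb hdd hη (by omega) hE, Y, by simp only [List.append_assoc]⟩

lemma hpow {C b m : ℕ} (hC : 2 * C ≤ 2 ^ m) : 2 * (C * 2 ^ b) + 2 ^ (b + m) ≤ 2 ^ (b + (m + 1)) := by
  have e1 : 2 ^ (b + (m + 1)) = 2 ^ m * 2 ^ b + 2 ^ (b + m) := by
    rw [← add_assoc, pow_succ, pow_add]
    ring
  have e2 := Nat.mul_le_mul_right (2 ^ b) hC
  rw [e1]
  nlinarith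

/-- the boxes -/
lemma D2.box (hd : D2 κ C b L P Z1 Z2 Z3 V W1 W2 W3 Y) {m : ℕ} (hC : 2 * C ≤ 2 ^ m) (hP : In (2 ^ (b + m)) P)
    (hY : In (2 ^ (b + m)) Y) {c d : ℕ} (hdd : d ∈ cz W2) :
    In (2 ^ (b + (m + 1))) (P ++ (Z1 ++ Z2.take c)) ∧ In (2 ^ (b + (m + 1))) (W2.drop d ++ (W3 ++ Y)) := by
  obtain ⟨a1, a2, a3⟩ := mem_cz.1 hdd
  have hp := hpow (b := b) hC
  refine ⟨in_mono (in_app2 hP (hd.z.in_pre (c := c))) (by omega), ?_⟩
  rw [← List.append_assoc]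
  refine in_mono (in_app (BU_dx (BU_app a3 hd.w.b3)) ?_ hY) hp
  refine in_mid (X := W1 ++ W2.take d) (R := []) (BU_dx (BU_app hd.w.b1 a2)) ?_
  have : (W1 ++ W2.take d) ++ ((W2.drop d ++ W3) ++ []) = W1 ++ (W2 ++ W3) := by
    rw [List.append_nil, List.append_assoc]
    conv_rhs => rw [← List.take_append_drop d W2]
    simp only [List.append_assoc]
  rw [this]
  exact hd.w.inn

/-- the index sets -/
lemma card_ix (hW : NeW) {Z : List Bool} {h : ℕ} (hh : 1 ≤ h) (hz : 4 * h ≤ nc Z) :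
    ∃ S : Finset ℕ, S.card = h ∧ ∀ c ∈ S, c ∈ cz Z ∧ h ≤ nc (Z.take c) ∧ nc (Z.take c) < 2 * h := by
  classical
  have h1 := card_rank hW (Z := Z) (lo := h) (hi := 2 * h) hh (by omega)
  refine ⟨_, h1.trans (by omega), fun c hc => ?_⟩
  rw [mem_filter] at hc
  exact ⟨hc.1, hc.2.1, hc.2.2⟩

lemma lz_app {X Y Z : List Bool} {n : ℕ} (h : Y ∈ Lz κ C b n) : X ++ (Y ++ Z) ∈ Lz κ C b n := by
  obtain ⟨A, Q, B, rfl, h2, h3⟩ := h
  exact ⟨X ++ A, Q, B ++ Z, by simp only [List.append_assoc], h2, h3⟩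

/-- **case B**: a long factor without good windows in one of the two ends -/
theorem tri_B (hW : NeW) (hd : D2 κ C b L P Z1 Z2 Z3 V W1 W2 W3 Y) (hb : b ≠ 0) {h E J c1 : ℕ} (hh : 1 ≤ h)
    (hη : η * Ub b ≤ (h : ℝ)) (hz : 4 * h ≤ nc Z2) (hw : 4 * h ≤ nc W2) (hE : 2 * C ≤ E) (hC : 2 * C ≤ 2 ^ J)
    (hP : In (2 ^ (b + J)) P) (hY : In (2 ^ (b + J)) Y) {N : ℕ} (hN : 2 ^ J ≤ N * 2 ^ c1)
    (hbig : P ∈ Lz κ C b N ∨ Y ∈ Lz κ C b N) :
    h * h ≤ (tri (2 ^ (b + (J + 1))) (RhB κ C b E J c1 η) L).ncard := by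
  obtain ⟨S1, hS1, hc1⟩ := card_ix hW hh hz
  obtain ⟨S2, hS2, hc2⟩ := card_ix hW hh hw
  have key : S1.card * S2.card ≤ (tri (2 ^ (b + (J + 1))) (RhB κ C b E J c1 η) L).ncard := by
    refine tri_ge (p1 := fun c => P ++ (Z1 ++ Z2.take c)) (p2 := fun d => W2.drop d ++ (W3 ++ Y)) ?_ ?_ ?_
    · intro c hc c' hc' he
      have h1 := congrArg List.length he
      have h2 := (mem_cz.1 (hc1 c hc).1).1
      have h3 := (mem_cz.1 (hc1 c' hc').1).1
      simp only [List.length_append, List.length_take] at h1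
      omega
    · intro c hc c' hc' he
      have h1 := congrArg List.length he
      have h2 := (mem_cz.1 (hc2 c hc).1).1
      have h3 := (mem_cz.1 (hc2 c' hc').1).1
      simp only [List.length_append, List.length_drop] at h1
      omega
    · intro c hc d hdd
      obtain ⟨e1, e2, e3⟩ := hc1 c hc
      obtain ⟨f1, f2, f3⟩ := hc2 d hdd
      obtain ⟨g1, g2⟩ := hd.box (c := c) hC hP hY f1
      obtain ⟨i1, i2, i3, i4⟩ := hd.parts hW hb hη hz hw hE e1 e2 e3 f1 f2 f3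
      refine ⟨g1, g2, _, i1, i2, i3, i4, N, hN, ?_⟩
      rcases hbig with h5 | h5
      · left
        have := lz_app (X := []) (Z := Z1 ++ Z2.take c) h5
        rwa [List.nil_append] at this
      · right
        have := lz_app (X := W2.drop d ++ W3) (Z := []) h5
        rwa [List.append_nil, List.append_assoc] at this
  rwa [hS1, hS2] at key

/-- **case A**: both ends are small, few good cuts at the end -/
theorem tri_A (hW : NeW) (hsa : L ∈ SA) (hd : D2 κ C b L P Z1 Z2 Z3 V W1 W2 W3 Y) (hnY : Y ∈ Nz κ C b) (hb : b ≠ 0) {κ0 κ' : ℝ} {h E m r a : ℕ}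
    (hh : 1 ≤ h) (hη : η * Ub b ≤ (h : ℝ)) (hz : 4 * h ≤ nc Z2) (hw : 4 * h ≤ nc W2) (hE : E = 2 * C)
    (hC : 2 * C ≤ 2 ^ m) (hP : In (2 ^ (b + m)) P) (hY : In (2 ^ (b + m)) Y) (ha : 2 ^ a ≤ r) (hκ : κ' * Ub b ≤ κ0)
    (hN : ((NCa b a (2 ^ (b + (m + 1))) η L).ncard : ℝ) < κ' * Ub b) :
    h * h ≤ (tri (2 ^ (b + (m + 1))) (RhA κ0 r b E η h) L).ncard := by
  obtain ⟨S1, hS1, hc1⟩ := card_ix hW hh hz
  obtain ⟨S2, hS2, hc2⟩ := card_ix hW hh hw
  have hdt : Dt κ C b L (P ++ (Z1 ++ (Z2 ++ (Z3 ++ V)))) W1 W2 W3 Y :=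
    ⟨hsa, by rw [hd.eq]; simp only [List.append_assoc], hd.w.b1, hd.w.b2, hd.w.b3, hd.w.h1, hd.w.h3, hd.w.h2, hd.w.n2,
      hd.w.inn, hnY⟩
  have key : S1.card * S2.card ≤ (tri (2 ^ (b + (m + 1))) (RhA κ0 r b E η h) L).ncard := by
    refine tri_ge (p1 := fun c => P ++ (Z1 ++ Z2.take c)) (p2 := fun d => W2.drop d ++ (W3 ++ Y)) ?_ ?_ ?_
    · intro c hc c' hc' he
      have h1 := congrArg List.length he
      have h2 := (mem_cz.1 (hc1 c hc).1).1
      have h3 := (mem_cz.1 (hc1 c' hc').1).1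
      simp only [List.length_append, List.length_take] at h1
      omega
    · intro c hc c' hc' he
      have h1 := congrArg List.length he
      have h2 := (mem_cz.1 (hc2 c hc).1).1
      have h3 := (mem_cz.1 (hc2 c' hc').1).1
      simp only [List.length_append, List.length_drop] at h1
      omega
    · intro c hc d hdd
      obtain ⟨e1, e2, e3⟩ := hc1 c hc
      obtain ⟨f1, f2, f3⟩ := hc2 d hdd
      obtain ⟨g1, g2⟩ := hd.box (c := c) hC hP hY f1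
      obtain ⟨i1, i2, i3, -⟩ := hd.parts hW hb hη hz hw (E := E) (by omega) e1 e2 e3 f1 f2 f3
      refine ⟨g1, g2, _, i1, i2, i3, ?_⟩
      have h5 := few_cut hW hdt hb hh hη hw hY hC ha hκ hN f1 f2 f3
      obtain ⟨k1, k2, k3⟩ := hdt.cut (mem_cz.1 f1).1
      rw [k2, k3] at h5
      rw [hE]
      have e6 : (P ++ (Z1 ++ Z2.take c)) ++ (Z2.drop c ++ (Z3 ++ (V ++ (W1 ++ W2.take d)))) =
          (P ++ (Z1 ++ (Z2 ++ (Z3 ++ V)))) ++ (W1 ++ W2.take d) := by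
        conv_rhs => rw [← List.take_append_drop c Z2]
        simp only [List.append_assoc]
      rw [e6]
      exact h5
  rwa [hS1, hS2] at key

end T2

end ARM

end HexObs
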