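import Pool.Agent.ARM.Defs
import Pool.Agent.NPR.Defs

/-!
# ARM, row I (helper86): literals of the inner bound

Parts `Y` behind a good tip, from a distance more than 2 ^ (i - 2) of the end, with a visit of a small ball around the end and a
far excursion behind it. The start of `Y` is a LOCAL good start structure (`NPR.GS η D b`). Scale of the tip: b, i = b + m.
-/

set_option autoImplicit false

namespace HexObs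

namespace ARM

open Finset TS SDN SIM NTA TIP

open scoped ENNReal

/-- words with a good local start structure of the scale b -/
def St (η : ℝ) (D b : ℕ) : Set (List Bool) := {Y | ∃ S ∈ NPR.GS η D b, ∃ R, Y = S ++ R}

/-- a visit of the ball of radius 2 ^ (l + 1) around the end and behind it a vertex at distance more than 2 ^ (i - 1) -/
def Vis (l i : ℕ) : Set (List Bool) :=
  {Y | ∃ a b, a < b ∧ b ≤ Y.length ∧ dz Y a ≤ 2 ^ (l + 1) ∧ 2 ^ i < 2 * dz Y b}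

/-- **row I1** (helper44: from RetW and end_SV): the mass, no condition on end and length -/
def RetT : Prop := ∀ (θ η : ℝ) (D c : ℕ), 0 < θ → 0 < η → ∃ (B : ℝ) (m0 b0 : ℕ), 1 ≤ B ∧ ∀ b l i m : ℕ,
  i = b + m → m0 ≤ m → b0 ≤ b → b0 ≤ l → l ≤ i →
  gf {W | W ∈ SA ∧ W ∈ St η D b ∧ In (2 ^ (i + c)) W ∧ 2 ^ i < 8 * dz W 0 ∧ W ∈ Vis l i} ≤
    ENNReal.ofReal (B ^ m * (2 : ℝ) ^ ((θ - 2 / 3) * ((i : ℝ) - l)) * Ub b) * Xb b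

/-- **row I2**: exact end and exact length -/
def InPt : Prop := ∀ (θ η : ℝ) (D c : ℕ), 0 < θ → 0 < η → ∃ (B : ℝ) (m0 b0 : ℕ), 1 ≤ B ∧ ∀ (b l i m y : ℕ) (z : Pt),
  i = b + m → m0 ≤ m → b0 ≤ b → b0 ≤ l → l ≤ i →
  gf {Y | Y ∈ SA ∧ Y ∈ St η D b ∧ In (2 ^ (i + c)) Y ∧ Y.length = y ∧ TIW.en Y = z ∧ 2 ^ i < 4 * dz Y 0 ∧ Y ∈ Vis l i} ≤
    ENNReal.ofReal (B ^ m * (2 : ℝ) ^ ((θ - 2 / 3) * ((i : ℝ) - l)) * (1 + (y : ℝ) / ml i) ^ (-(4 : ℝ)) *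
      (Ub i / (4 ^ i * ml i))) * Xb i

/-- **row I3** (the form used in EsSt): end up to 2 ^ j, length up to m_j; η D c are fixed first -/
def InSt' : Prop := ∀ (η : ℝ) (D c : ℕ), 0 < η → ∀ θ1 : ℝ, 0 < θ1 → ∃ θ0 : ℝ, 0 < θ0 ∧ ∀ θ : ℝ, 0 < θ → θ ≤ θ0 →
  ∃ m00 : ℕ, ∀ m0, m00 ≤ m0 → ∃ (C : ℝ) (b0 : ℕ), 0 < C ∧ ∀ (j l i m y : ℕ) (z : Pt), b0 ≤ j → j ≤ l → l ≤ i →
  m = ⌊θ * ((i : ℝ) - j)⌋₊ + m0 → b0 + m ≤ i →
  gf {Y | Y ∈ SA ∧ Y ∈ St η D (i - m) ∧ In (2 ^ (i + c)) Y ∧ y ≤ Y.length ∧ (Y.length : ℝ) < y + ml j ∧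
      TIW.hn (TIW.en Y - z) ≤ 2 ^ j + 2 ∧ 2 ^ i < 4 * dz Y 0 ∧ Y ∈ Vis l i} ≤
    ENNReal.ofReal (C * (2 : ℝ) ^ ((θ1 - 10 / 3) * ((i : ℝ) - j) - 2 / 3 * ((i : ℝ) - l)) *
      (1 + (y : ℝ) / ml i) ^ (-(4 : ℝ)) * Ub i) * Xb i

end ARM

end HexObs
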