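import Pool.Agent.ARM.DefsC
import Pool.Agent.ARM.DefsI

/-!
# ARM, row T2S (helper74): literals between the parts

`RhoS`: the triples of the main part; `BadR`: a long factor without rich window near the root; `TwoCr` (helper63): dichotomy
for one word; `BadRoot`: the mass of the exceptional words; `PairS`: the sum over the two ends for a given middle part.
-/

set_option autoImplicit false

namespace HexObs

namespace ARM

open Finset TS SDN SIM NTA TIP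

open scoped ENNReal

/-- good cuts on both sides of the root: the end part starts far from the root and has a visit and a far excursion -/
def RhoS (η : ℝ) (D b l i : ℕ) (Y2 M Y1 : List Bool) : Prop :=
  M ∈ TwoG η D b ∧ (∃ R, ∃ T ∈ NPR.GE η D b, Y2 = R ++ T) ∧ Y1 ∈ St η D b ∧ 2 ^ i < 4 * dz Y1 0 ∧ Y1 ∈ Vis l i

/-- a factor of extent more than N 2 ^ b without rich window, the part between the root and it (on one side) within r -/
def BadR (κ : ℝ) (C b N : ℕ) (r : ℤ) (L : List Bool) : Prop :=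
  ∃ X Q Y, L = X ++ (Q ++ Y) ∧ Q ∈ Nz κ C b ∧ ¬ In (N * 2 ^ b) Q ∧
    ((∀ s, s ≤ (X ++ Q).length → dz L s ≤ r) ∨ (∀ s, X.length ≤ s → s ≤ L.length → dz L s ≤ r))

/-- **row T2S-G (helper63)**: one word: h good cuts on both sides of the root, or a long factor without rich window -/
def TwoCr (κ : ℝ) (C : ℕ) : Prop := ∃ m00 b0 : ℕ, ∀ (n l i b m h : ℕ) (η : ℝ) (L : List Bool), i = b + m → m00 ≤ m →
  b0 ≤ b → l + m00 ≤ i → 1 ≤ h → η * Ub b ≤ (h : ℝ) → 4 * (h : ℝ) ≤ κ * Ub b → L ∈ C0 n → L ∈ ESe l i →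
    h ^ 2 ≤ (tri (2 ^ (i + 3)) (RhoS η (2 * C) b l i) L).ncard ∨ ∃ N : ℕ, 2 ^ m ≤ N * 2 ^ 8 ∧ BadR κ C b N (2 ^ (i + 2)) L

/-- **row T2S-B**: the mass of the exceptional closed words -/
def BadRoot (κ : ℝ) (C : ℕ) : Prop := ∀ a c1 : ℕ, ∃ (A : ℝ) (J0 b0 : ℕ), 0 < A ∧ ∀ n b J N : ℕ, 1 ≤ n → b0 ≤ b → J0 ≤ J →
  2 ^ J ≤ N * 2 ^ c1 → gf {L | L ∈ C0 n ∧ BadR κ C b N (2 ^ (b + J)) L} ≤
    ENNReal.ofReal (A * (1 / 2) ^ (a * J) * (n : ℝ) ^ (-(3 / 2) : ℝ))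

/-- **row T2S-P**: the two ends, the middle part M given -/
def PairS : Prop := ∀ (η θ : ℝ) (D c : ℕ), 0 < η → 0 < θ → ∃ (B : ℝ) (m0 b0 : ℕ), 1 ≤ B ∧ ∀ (n b l i m : ℕ) (M : List Bool),
  i = b + m → m0 ≤ m → b0 ≤ b → b0 ≤ l → l ≤ i →
  ∑' p : {p : List Bool × List Bool | RhoS η D b l i p.1 M p.2 ∧ In (2 ^ (i + c)) p.1 ∧ In (2 ^ (i + c)) p.2 ∧
      p.1 ++ (M ++ p.2) ∈ C0 n}, wE (p : List Bool × List Bool).1 * wE (p : List Bool × List Bool).2 ≤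
    ENNReal.ofReal (B ^ m * (2 : ℝ) ^ ((θ - 2 / 3) * ((i : ℝ) - l)) * (Ub b / 4 ^ i)) * ENNReal.ofReal (wt n M.length i)

end ARM

end HexObs
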