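import Pool.Agent.ARM.RootN
import Pool.Agent.ARM.T2Nb
import Pool.Agent.ARM.T2SD
import Pool.Agent.ARM.NumB

/-!
# ARM2, row T2S-B (helper15): closed words with a long factor without rich windows near the root

* `cut2` : a long factor in Nz of a word cut into two parts; `three` : into three parts, the middle one small;
* `fit` : the scale of the two ends;
* **`badRoot_of : RootB κ C → RootN κ C → BadRoot κ C`**.
-/

set_option autoImplicit false

namespace HexObs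

namespace ARM

open Finset TS SDN HexObs.SIM NTA TIP

open scoped ENNReal

namespace BR

variable {κ : ℝ} {C b : ℕ}

/-- a long factor of a word cut into two parts -/
lemma cut2 {N N1 N2 : ℕ} {A B X F Y : List Bool} (he : A ++ B = X ++ (F ++ Y)) (hF : F ∈ Nz κ C b) (hN : ¬ In N F)
    (h : N1 + 2 * N2 ≤ N) : (∃ X' F' Y', A = X' ++ (F' ++ Y') ∧ F' ∈ Nz κ C b ∧ ¬ In N1 F') ∨
      ∃ X' F' Y', B = X' ++ (F' ++ Y') ∧ F' ∈ Nz κ C b ∧ ¬ In N2 F' := by
  rcases List.append_eq_append_iff.1 he with ⟨V, h4, h5⟩ | ⟨V, h4, h5⟩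
  · exact Or.inr ⟨V, F, Y, h5, hF, fun hI => hN (YB.In_mono (by omega) hI)⟩
  · rcases List.append_eq_append_iff.1 h5 with ⟨V', h6, h7⟩ | ⟨V', h6, h7⟩
    · exact Or.inl ⟨X, F, V', by rw [h4, h6], hF, fun hI => hN (YB.In_mono (by omega) hI)⟩
    · by_cases hV : In N1 V
      · refine Or.inr ⟨[], V', Y, by rw [h7]; rfl, YB.Nz_suf (X := V) (by rw [← h6]; exact hF), fun hI => hN ?_⟩
        rw [h6]
        exact YB.In_mono h (QB.In_app hV hI)
      · exact Or.inl ⟨X, V, [], by rw [List.append_nil]; exact h4, YB.Nz_pre (Y := V') (by rw [← h6]; exact hF), hV⟩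

/-- three parts, the middle one small -/
lemma three {N N' D : ℕ} {A W B X F Y : List Bool} (he : A ++ (W ++ B) = X ++ (F ++ Y)) (hF : F ∈ Nz κ C b)
    (hN : ¬ In (N * 2 ^ b) F) (hW : In D W) (h : 5 * (N' * 2 ^ b) + 8 * D ≤ N * 2 ^ b) :
    A ∈ Lz κ C b N' ∨ B ∈ Lz κ C b N' := by
  rcases cut2 (N1 := N' * 2 ^ b) (N2 := 4 * D + 2 * (N' * 2 ^ b)) he hF hN (by omega) with h1 | ⟨X', F', Y', h1, h2, h3⟩
  · exact Or.inl h1
  · rcases cut2 (N1 := 4 * D) (N2 := N' * 2 ^ b) h1 h2 h3 (by omega) with ⟨X1, F1, Y1, h4, -, h6⟩ | h4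
    · exfalso
      refine h6 (QB.In_pre (B := Y1) (QB.In_suf (A := X1) ?_))
      rw [← h4]
      exact hW
    · exact Or.inr h4

/-- large words have a long factor in Nz -/
def Bg (κ : ℝ) (C b J : ℕ) (U : List Bool) : Prop := ∀ j, J + 3 ≤ j → ¬ In (2 ^ (b + j)) U → U ∈ Lz κ C b (2 ^ (j - 3))

lemma pw {b j : ℕ} (h : 3 ≤ j) : 2 ^ (b + j) = 8 * (2 ^ (j - 3) * 2 ^ b) := by
  rw [← pow_add, show (8 : ℕ) = 2 ^ 3 by norm_num, ← pow_add]
  congr 1
  omega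

lemma Bg_Nz {J : ℕ} {U : List Bool} (h : U ∈ Nz κ C b) : Bg κ C b J U := by
  intro j hj hI
  refine ⟨[], U, [], by simp, h, fun h1 => hI (YB.In_mono ?_ h1)⟩
  rw [pw (by omega : 3 ≤ j)]
  omega

lemma Bg_small {J : ℕ} {U : List Bool} (h : In (2 ^ (b + J + 3)) U) : Bg κ C b J U := by
  intro j hj hI
  exact absurd (YB.In_mono (Nat.pow_le_pow_right (by norm_num) (by omega)) h) hI

lemma Bg_pre {J : ℕ} {G V : List Bool} (hG : In (2 ^ (b + J + 1)) G) (hV : V ∈ Nz κ C b) : Bg κ C b J (G ++ V) := by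
  intro j hj hI
  refine ⟨G, V, [], by rw [List.append_nil], hV, fun h1 => hI (YB.In_mono ?_ (QB.In_app hG h1))⟩
  have e1 := pw (b := b) (show 3 ≤ j by omega)
  have e2 : 4 * 2 ^ (b + J + 1) ≤ 2 ^ (b + j) := by
    rw [show 4 * 2 ^ (b + J + 1) = 2 ^ (b + J + 3) by rw [pow_add _ _ 3, pow_add _ _ 1]; ring]
    exact Nat.pow_le_pow_right (by norm_num) (by omega)
  omega

lemma Bg_suf {J : ℕ} {G V : List Bool} (hG : In (2 ^ (b + J + 1)) G) (hV : V ∈ Nz κ C b) : Bg κ C b J (V ++ G) := by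
  intro j hj hI
  refine ⟨[], V, G, rfl, hV, fun h1 => hI (YB.In_mono ?_ (QB.In_app h1 hG))⟩
  have e1 := pw (b := b) (show 3 ≤ j by omega)
  have e2 : 4 * 2 ^ (b + J + 1) ≤ 2 ^ (b + j) := by
    rw [show 4 * 2 ^ (b + J + 1) = 2 ^ (b + J + 3) by rw [pow_add _ _ 3, pow_add _ _ 1]; ring]
    exact Nat.pow_le_pow_right (by norm_num) (by omega)
  omega

/-- **the scale of the two ends** -/
lemma fit {J c' N : ℕ} {U B : List Bool} (hc : 4 ≤ c') (hU : Bg κ C b J U) (hB : Bg κ C b J B) (hN : 2 ^ (J + 3) ≤ N * 2 ^ c')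
    (h : U ∈ Lz κ C b N ∨ B ∈ Lz κ C b N) : ∃ l, In (2 ^ (b + (J + 3 + l))) U ∧ In (2 ^ (b + (J + 3 + l))) B ∧
      ∃ N', 2 ^ (J + 3 + l) ≤ N' * 2 ^ c' ∧ (U ∈ Lz κ C b N' ∨ B ∈ Lz κ C b N') := by
  classical
  have hex : ∃ l, In (2 ^ (b + (J + 3 + l))) U ∧ In (2 ^ (b + (J + 3 + l))) B := by
    obtain ⟨j1, h1⟩ := T2.In_ex U
    obtain ⟨j2, h2⟩ := T2.In_ex B
    exact ⟨j1 + j2, YB.In_mono (Nat.pow_le_pow_right (by norm_num) (by omega)) h1,
      YB.In_mono (Nat.pow_le_pow_right (by norm_num) (by omega)) h2⟩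
  obtain ⟨h1, h2⟩ := Nat.find_spec hex
  refine ⟨Nat.find hex, h1, h2, ?_⟩
  rcases Nat.eq_zero_or_pos (Nat.find hex) with h0 | h0
  · rw [h0]
    exact ⟨N, hN, h⟩
  · have h3 := Nat.find_min hex (m := Nat.find hex - 1) (by omega)
    obtain ⟨j, hj⟩ : ∃ j, j = J + 3 + (Nat.find hex - 1) := ⟨_, rfl⟩
    rw [← hj] at h3
    have h4 : ¬ In (2 ^ (b + j)) U ∨ ¬ In (2 ^ (b + j)) B := by
      by_contra hcon
      rw [not_or, not_not, not_not] at hcon
      exact h3 hcon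
    refine ⟨2 ^ (j - 3), ?_, ?_⟩
    · rw [← pow_add]
      exact Nat.pow_le_pow_right (by norm_num) (by omega)
    · rcases h4 with h4 | h4
      · exact Or.inl (hU j (by omega) h4)
      · exact Or.inr (hB j (by omega) h4)

lemma Lz_mid {N : ℕ} {X Q Y : List Bool} (h1 : Q ∈ Nz κ C b) (h2 : ¬ In (N * 2 ^ b) Q) : X ++ (Q ++ Y) ∈ Lz κ C b N :=
  ⟨X, Q, Y, rfl, h1, h2⟩

/-- balls around the root, first part -/
lemma In_left {n : ℕ} {r : ℕ} {L G Y : List Bool} (hL : L ∈ C0 n) (he : L = G ++ Y) (h : ∀ s, s ≤ G.length → dz L s ≤ r) :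
    In (r + 2) G := by
  intro i hi
  have h1 := h i hi
  have h2 := (C0_mem hL).2.2
  unfold dz at h1
  have h3 := TIW.hn_tri (vx oo up L i) (TIW.en L) 0
  rw [sub_zero, sub_zero] at h3
  have h4 : vx oo up L i = vx oo up G i := by
    rw [he]
    exact vx_append (by omega)
  rw [h4] at h1 h3
  refine Bl_of_hn ?_
  push_cast
  linarith

/-- displacements of a factor -/
lemma hn_fac0 (A B : List Bool) (j : ℕ) : TIW.hn (vx oo up (A ++ B) (A.length + j) - vx oo up (A ++ B) A.length) =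
    TIW.hn (vx oo up B j) := by
  have hr : nrm (rotTo up (dx up A A.length)) = 1 := nrm_rotTo upd (dx_mem upd A A.length)
  have h0 := vx_general A B j
  have h1 : vx oo up (A ++ B) A.length = vx oo up A A.length := vx_append (by omega)
  rw [h0, h1, add_sub_cancel_left, TIW.hn_mulE hr]

/-- balls around the root, last part -/
lemma In_right {r : ℕ} {L X G : List Bool} (he : L = X ++ G) (h : ∀ s, X.length ≤ s → s ≤ L.length → dz L s ≤ r) :
    In (2 * r) G := by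
  intro i hi
  have hl : L.length = X.length + G.length := by rw [he, List.length_append]
  have h1 := h (X.length + i) (by omega) (by omega)
  have h2 := h X.length le_rfl (by omega)
  have h3 := hn_fac0 X G i
  rw [← he] at h3
  unfold dz at h1 h2
  have h4 := TIW.hn_tri (vx oo up L (X.length + i)) (TIW.en L) (vx oo up L X.length)
  rw [TIW.hn_sub_comm (TIW.en L)] at h4
  refine Bl_of_hn ?_
  push_cast
  linarith

lemma Zc_In {Z : List Bool} (h : Z ∈ Zc κ C b) : In (C * 2 ^ b) Z := by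
  obtain ⟨Z1, Z2, Z3, -, -, -, -, -, -, -, -, h⟩ := h
  exact h

/-- **the geometry** -/
lemma cover {n J N c1 : ℕ} {L : List Bool} (hJ : c1 + 3 ≤ J) (hC : 8 * C ≤ 2 ^ (J - c1 - 3)) (hN : 2 ^ J ≤ N * 2 ^ c1)
    (hL : L ∈ C0 n) (hb : BadR κ C b N (2 ^ (b + J)) L) :
    (L ∈ Nz κ C b ∧ ¬ In (2 ^ (b + (J - c1 - 2))) L) ∨ (∃ l, L ∈ E2F κ C b (c1 + 6) (J + 3 + l) n) ∨
      ∃ l, L ∈ E1F κ C b (c1 + 6) (J + 3 + l) n := by
  obtain ⟨X, Q, Y, he, hQ, hI, hside⟩ := hb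
  have hN1 : 2 ^ (J - c1) ≤ N := by
    have e1 : 2 ^ J = 2 ^ (J - c1) * 2 ^ c1 := by
      rw [← pow_add]
      congr 1
      omega
    rw [e1] at hN
    exact Nat.le_of_mul_le_mul_right hN (by positivity)
  have hN3 : 2 ^ (J + 3) ≤ N * 2 ^ (c1 + 6) := by
    calc 2 ^ (J + 3) = 2 ^ J * 2 ^ 3 := pow_add _ _ _
      _ ≤ N * 2 ^ c1 * 2 ^ 6 := Nat.mul_le_mul hN (by norm_num)
      _ = N * 2 ^ (c1 + 6) := by rw [pow_add]; ring
  have hN4 : 2 ^ (J + 3) ≤ 2 ^ (J - c1 - 3) * 2 ^ (c1 + 6) := by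
    rw [← pow_add]
    exact Nat.pow_le_pow_right (by norm_num) (by omega)
  have h3 : ∀ {A W B : List Bool}, L = A ++ (W ++ B) → W ∈ Zc κ C b → A ∈ Lz κ C b (2 ^ (J - c1 - 3)) ∨
      B ∈ Lz κ C b (2 ^ (J - c1 - 3)) := by
    intro A W B e1 hW
    refine three (D := C * 2 ^ b) (e1.symm.trans he) hQ hI (Zc_In hW) ?_
    have e2 : 2 ^ (J - c1) = 8 * 2 ^ (J - c1 - 3) := by
      rw [show (8 : ℕ) = 2 ^ 3 by norm_num, ← pow_add]
      congr 1
      omega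
    have e3 : 5 * 2 ^ (J - c1 - 3) + 8 * C ≤ N := by omega
    calc 5 * (2 ^ (J - c1 - 3) * 2 ^ b) + 8 * (C * 2 ^ b) = (5 * 2 ^ (J - c1 - 3) + 8 * C) * 2 ^ b := by ring
      _ ≤ N * 2 ^ b := Nat.mul_le_mul_right _ e3
  by_cases hz : L ∈ Nz κ C b
  · left
    refine ⟨hz, fun h => hI ?_⟩
    have h1 : In (4 * 2 ^ (b + (J - c1 - 2))) (Q ++ Y) := QB.In_suf (A := X) (by rw [← he]; exact h)
    refine YB.In_mono ?_ (QB.In_pre h1)
    calc 4 * 2 ^ (b + (J - c1 - 2)) = 2 ^ (J - c1) * 2 ^ b := by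
          rw [show (4 : ℕ) = 2 ^ 2 by norm_num, ← pow_add, ← pow_add]
          congr 1
          omega
      _ ≤ N * 2 ^ b := Nat.mul_le_mul_right _ hN1
  · right
    have hpow : 2 ^ (b + J) + 2 ≤ 2 ^ (b + J + 1) := by
      have e1 : 2 ^ (b + J + 1) = 2 ^ (b + J) * 2 := pow_succ _ _
      have e2 : 2 ^ 1 ≤ 2 ^ (b + J) := Nat.pow_le_pow_right (by norm_num) (by omega)
      omega
    rcases hside with hs | hs
    · have hG : In (2 ^ (b + J + 1)) (X ++ Q) := by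
        refine YB.In_mono hpow (In_left hL (by rw [he, List.append_assoc]) fun s hs' => ?_)
        push_cast
        exact hs s hs'
      have he' : L = (X ++ Q) ++ Y := by rw [he, List.append_assoc]
      by_cases hY : Y ∈ Nz κ C b
      · obtain ⟨A, W, B, e1, hB0, hW, hB⟩ := neW.last κ C b L hz
        have hAl : A.length ≤ (X ++ Q).length := by
          by_contra hcon
          obtain ⟨V', h4, h5⟩ := NPR.pre_eq (A := A) (Z := W ++ B) (V := X ++ Q) (R := Y) (by rw [← e1]; exact he') (by omega)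
          exact hY V' W B h5 hB0 hW
        obtain ⟨V', h4, h5⟩ := NPR.pre_eq (A := X ++ Q) (Z := Y) (V := A) (R := W ++ B) (by rw [← e1]; exact he'.symm) hAl
        have hA : In (2 ^ (b + J + 1)) A := QB.In_pre (B := V') (by rw [← h4]; exact hG)
        obtain ⟨l, f1, f2, N', f3, f4⟩ := fit (J := J) (c' := c1 + 6) (by omega)
          (Bg_small (J := J) (YB.In_mono (Nat.pow_le_pow_right (by norm_num) (by omega)) hA)) (Bg_Nz hB) hN4 (h3 e1 hW)
        exact Or.inr ⟨l, hL, A, W, B, e1, hW, f1, f2, b, N', Or.inl rfl, f3, f4⟩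
      · obtain ⟨V1, Z, Y1, e1, hY10, hZ, hV1⟩ := T2.ne_first hY
        have hPz : (X ++ Q) ++ V1 ∈ Lz κ C b N := by
          rw [List.append_assoc]
          exact Lz_mid hQ hI
        by_cases hY1 : Y1 ∈ Nz κ C b
        · obtain ⟨l, f1, f2, N', f3, f4⟩ := fit (J := J) (c' := c1 + 6) (by omega) (Bg_pre hG hV1) (Bg_Nz hY1) hN3 (Or.inl hPz)
          refine Or.inr ⟨l, hL, (X ++ Q) ++ V1, Z, Y1, ?_, hZ, f1, f2, b, N', Or.inl rfl, f3, f4⟩
          rw [he, e1]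
          simp only [List.append_assoc]
        · obtain ⟨V, W, Y2, e2, -, hW, hY2⟩ := neW.last κ C b Y1 hY1
          obtain ⟨l, f1, f2, N', f3, f4⟩ := fit (J := J) (c' := c1 + 6) (by omega) (Bg_pre hG hV1) (Bg_Nz hY2) hN3 (Or.inl hPz)
          refine Or.inl ⟨l, hL, (X ++ Q) ++ V1, Z, V, W, Y2, ?_, hZ, hW, f1, f2, N', f3, f4⟩
          rw [he, e1, e2]
          simp only [List.append_assoc]
    · have hG : In (2 ^ (b + J + 1)) (Q ++ Y) := by
        have e1 : 2 ^ (b + J + 1) = 2 * 2 ^ (b + J) := by rw [pow_succ]; ring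
        rw [e1]
        refine In_right he fun s h1 h2 => ?_
        push_cast
        exact hs s h1 h2
      by_cases hX : X ∈ Nz κ C b
      · obtain ⟨A, W, B, e1, hB0, hW, hA⟩ := T2.ne_first hz
        have e1' : L = (A ++ W) ++ B := by rw [e1, List.append_assoc]
        have hAl : X.length ≤ (A ++ W).length := by
          by_contra hcon
          obtain ⟨V', h4, h5⟩ := NPR.pre_eq (A := X) (Z := Q ++ Y) (V := A ++ W) (R := B) (by rw [← he]; exact e1') (by omega)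
          refine hX A W V' (by rw [h4, List.append_assoc]) ?_ hW
          rintro rfl
          rw [List.append_nil] at h4
          rw [h4] at hcon
          omega
        obtain ⟨V', h4, h5⟩ := NPR.pre_eq (A := A ++ W) (Z := B) (V := X) (R := Q ++ Y) (by rw [← e1']; exact he) hAl
        have hB : In (2 ^ (b + J + 3)) B := by
          have e2 : 2 ^ (b + J + 3) = 4 * 2 ^ (b + J + 1) := by rw [pow_add _ _ 3, pow_add _ _ 1]; ring
          rw [e2]
          exact QB.In_suf (A := V') (by rw [← h5]; exact hG)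
        obtain ⟨l, f1, f2, N', f3, f4⟩ := fit (J := J) (c' := c1 + 6) (by omega) (Bg_Nz hA) (Bg_small hB) hN4 (h3 e1 hW)
        exact Or.inr ⟨l, hL, A, W, B, e1, hW, f1, f2, b, N', Or.inl rfl, f3, f4⟩
      · obtain ⟨X1, Z, V1, e1, -, hZ, hV1⟩ := neW.last κ C b X hX
        have hPz : V1 ++ (Q ++ Y) ∈ Lz κ C b N := Lz_mid hQ hI
        by_cases hX1 : X1 ∈ Nz κ C b
        · obtain ⟨l, f1, f2, N', f3, f4⟩ := fit (J := J) (c' := c1 + 6) (by omega) (Bg_Nz hX1) (Bg_suf hG hV1) hN3 (Or.inr hPz)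
          refine Or.inr ⟨l, hL, X1, Z, V1 ++ (Q ++ Y), ?_, hZ, f1, f2, b, N', Or.inl rfl, f3, f4⟩
          rw [he, e1]
          simp only [List.append_assoc]
        · obtain ⟨P, W, V, e2, -, hW, hP⟩ := T2.ne_first hX1
          obtain ⟨l, f1, f2, N', f3, f4⟩ := fit (J := J) (c' := c1 + 6) (by omega) (Bg_Nz hP) (Bg_suf hG hV1) hN3 (Or.inr hPz)
          refine Or.inl ⟨l, hL, P, W, V, Z, V1 ++ (Q ++ Y), ?_, hW, hZ, f1, f2, N', f3, f4⟩
          rw [he, e1, e2]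
          simp only [List.append_assoc]

end BR

open BR

/-- **row T2S-B** -/
theorem badRoot_of {κ : ℝ} {C : ℕ} (hB : RootB κ C) (hN : RootN κ C) : BadRoot κ C := by
  intro a c1
  obtain ⟨A1, J1, b1, hA1, h1⟩ := hB (a + 1) (c1 + 6)
  obtain ⟨A2, J2, b2, hA2, h2⟩ := hN a
  refine ⟨4 * A1 + A2 * 2 ^ (a * (c1 + 2)), c1 + 3 + 8 * C + J1 + J2, b1 + b2, by positivity, fun n b J N hn hb hJ hJN => ?_⟩
  have hn0 : (0 : ℝ) < n := by exact_mod_cast hn
  obtain ⟨ν, hν⟩ : ∃ ν : ℝ, ν = (n : ℝ) ^ (-(3 / 2) : ℝ) := ⟨_, rfl⟩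
  have hν0 : 0 < ν := by rw [hν]; positivity
  have hC : 8 * C ≤ 2 ^ (J - c1 - 3) :=
    (show 8 * C ≤ J - c1 - 3 by omega).trans Nat.lt_two_pow_self.le
  have hcov : {L | L ∈ C0 n ∧ BadR κ C b N (2 ^ (b + J)) L} ⊆ {L | L ∈ C0 n ∧ L ∈ Nz κ C b ∧ ¬ In (2 ^ (b + (J - c1 - 2))) L} ∪
      ((⋃ l, E2F κ C b (c1 + 6) (J + 3 + l) n) ∪ ⋃ l, E1F κ C b (c1 + 6) (J + 3 + l) n) := by
    rintro L ⟨hL, hbad⟩
    rcases cover (n := n) (by omega) hC hJN hL hbad with h | ⟨l, h⟩ | ⟨l, h⟩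
    · exact Or.inl ⟨hL, h.1, h.2⟩
    · exact Or.inr (Or.inl (Set.mem_iUnion.2 ⟨l, h⟩))
    · exact Or.inr (Or.inr (Set.mem_iUnion.2 ⟨l, h⟩))
  have hdec : ∀ l : ℕ, A1 * (1 / 2) ^ ((a + 1) * (J + 3 + l)) * ν ≤ A1 * (1 / 2) ^ (a * J) * ν * (1 / 2) ^ l := by
    intro l
    have e1 : (1 / 2 : ℝ) ^ ((a + 1) * (J + 3 + l)) ≤ (1 / 2) ^ (a * J) * (1 / 2) ^ l := by
      rw [← pow_add]
      refine pow_le_pow_of_le_one (by norm_num) (by norm_num) ?_
      nlinarith [Nat.zero_le (a * (3 + l))]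
    calc A1 * (1 / 2) ^ ((a + 1) * (J + 3 + l)) * ν ≤ A1 * ((1 / 2) ^ (a * J) * (1 / 2) ^ l) * ν := by gcongr
      _ = _ := by ring
  have g1 : gf (⋃ l, E2F κ C b (c1 + 6) (J + 3 + l) n) ≤ ENNReal.ofReal (2 * (A1 * (1 / 2) ^ (a * J) * ν)) := by
    refine T2.geo_sum (by positivity) fun l => ?_
    refine ((h1 n b (J + 3 + l) hn (by omega) (by omega)).1).trans (ENNReal.ofReal_le_ofReal ?_)
    rw [← hν]
    exact hdec l
  have g2 : gf (⋃ l, E1F κ C b (c1 + 6) (J + 3 + l) n) ≤ ENNReal.ofReal (2 * (A1 * (1 / 2) ^ (a * J) * ν)) := by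
    refine T2.geo_sum (by positivity) fun l => ?_
    refine ((h1 n b (J + 3 + l) hn (by omega) (by omega)).2).trans (ENNReal.ofReal_le_ofReal ?_)
    rw [← hν]
    exact hdec l
  have g3 : gf {L | L ∈ C0 n ∧ L ∈ Nz κ C b ∧ ¬ In (2 ^ (b + (J - c1 - 2))) L} ≤
      ENNReal.ofReal (A2 * 2 ^ (a * (c1 + 2)) * (1 / 2) ^ (a * J) * ν) := by
    refine (h2 n b (J - c1 - 2) hn (by omega) (by omega)).trans (ENNReal.ofReal_le_ofReal (le_of_eq ?_))
    rw [← hν]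
    have e1 : (1 / 2 : ℝ) ^ (a * J) = (1 / 2) ^ (a * (J - c1 - 2)) * (1 / 2) ^ (a * (c1 + 2)) := by
      rw [← pow_add, ← mul_add]
      congr 2
      omega
    have e2 : (2 : ℝ) ^ (a * (c1 + 2)) * (1 / 2) ^ (a * (c1 + 2)) = 1 := by
      rw [← mul_pow]
      norm_num
    rw [e1]
    calc A2 * (1 / 2) ^ (a * (J - c1 - 2)) * ν = A2 * (1 / 2) ^ (a * (J - c1 - 2)) * ν * 1 := (mul_one _).symm
      _ = A2 * (1 / 2) ^ (a * (J - c1 - 2)) * ν * ((2 : ℝ) ^ (a * (c1 + 2)) * (1 / 2) ^ (a * (c1 + 2))) := by rw [e2]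
      _ = _ := by ring
  rw [← hν]
  refine (gf_mono hcov).trans ((gf_union_le _ _).trans ((add_le_add g3 ((gf_union_le _ _).trans (add_le_add g1 g2))).trans ?_))
  rw [← ENNReal.ofReal_add (by positivity) (by positivity), ← ENNReal.ofReal_add (by positivity) (by positivity)]
  refine ENNReal.ofReal_le_ofReal (le_of_eq ?_)
  ring

end ARM

end HexObs
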