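import Pool.Agent.ARM.NWin

/-!
ARM, row Q (helper65): near touches. Definitions and the literal of the plain bound.
-/

set_option autoImplicit false

namespace HexObs

namespace ARM

open Finset TS SDN SIM NTA TIP

open scoped ENNReal

/-- near touch of a word with itself: distance at most r, excursion at least R between -/
def NTp (r R : ℤ) : Set (List Bool) :=
  {t | ∃ a s b, a ≤ s ∧ s ≤ b ∧ b ≤ t.length ∧ TIW.hn (vx oo up t a - vx oo up t b) ≤ r ∧
    R ≤ TIW.hn (vx oo up t a - vx oo up t s)}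

/-- **the plain bound for near touches** (words of a box) -/
def PlNt : Prop := ∀ (k : ℕ) (ε : ℝ), 0 < ε → ∃ e K0 : ℕ, k ≤ e ∧ e ≤ K0 ∧ ∀ K, K0 ≤ K →
  gf {t | t ∈ WL K ∧ t ∈ NTp (2 ^ (K - e)) (2 ^ (K - k))} ≤ ENNReal.ofReal (ε * Ub K) * Xb K ^ 2

/-- the mass of the words of any length that end near their start -/
def BallSt : Prop := ∀ ε : ℝ, 0 < ε → ∃ a K0 : ℕ, a ≤ K0 ∧ ∀ K, K0 ≤ K →
  gf {t | t ∈ SA ∧ TIW.hn (TIW.en t) ≤ 2 ^ (K - a)} ≤ ENNReal.ofReal (ε * Ub K) * Xb K ^ 2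

end ARM

end HexObs
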