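import Pool.Agent.ARM.NumB
import Pool.Agent.ARM.NtD
import Pool.Agent.PW.SeYZ
import Pool.Agent.TPF.Main
import Pool.Agent.TPC.XUp

/-!
# ARM2, row BallSt (helper29): the walks with a close end

* `ball_up`: the mass of the walks that end within `2 ^ K` of the start is at most `C 2 ^ (43 K / 24)`;
* **`ballSt`**: it is a small part of the mass of the box.
-/

set_option autoImplicit false

namespace HexObs

namespace ARM

open Finset TS SDN SIM NTA TIP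

open scoped ENNReal

open Classical in
/-- a set of ends in a box -/
lemma ends_le {D : ℕ} {G : ℝ≥0∞} {S : Set Pt} (hS : ∀ y ∈ S, TIW.hn y ≤ D) (hG : ∀ y ∈ S, gf {t | t ∈ SA ∧ TIW.en t = y} ≤ G) :
    gf {t | t ∈ SA ∧ TIW.en t ∈ S} ≤ ((2 * D + 1) ^ 2 : ℕ) * G := by
  obtain ⟨I, hI⟩ : ∃ I : Finset Pt, I = (Finset.Icc (-(D : ℤ)) D ×ˢ Finset.Icc (-(D : ℤ)) D) := ⟨_, rfl⟩
  have hcard : I.card = (2 * D + 1) ^ 2 := by
    rw [hI, card_product, Int.card_Icc, sq]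
    congr 1 <;> omega
  have hsub : {t | t ∈ SA ∧ TIW.en t ∈ S} ⊆ ⋃ y ∈ I.filter (fun y => y ∈ S), {t | t ∈ SA ∧ TIW.en t = y} := by
    rintro t ⟨h1, h2⟩
    simp only [Set.mem_iUnion]
    refine ⟨TIW.en t, ?_, h1, rfl⟩
    rw [mem_filter]
    refine ⟨?_, h2⟩
    obtain ⟨h3, h4⟩ := Bl_of_hn (hS _ h2)
    have e1 : (oo : Pt).1 = 0 := rfl
    have e2 : (oo : Pt).2 = 0 := rfl
    rw [e1, sub_zero, abs_le] at h3
    rw [e2, sub_zero, abs_le] at h4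
    rw [hI, mem_product, mem_Icc, mem_Icc]
    exact ⟨h3, h4⟩
  refine (gf_mono hsub).trans ((ENNReal.tsum_biUnion_le wE _ _).trans ?_)
  have h1 : ∑ y ∈ I.filter (fun y => y ∈ S), ∑' t : {t | t ∈ SA ∧ TIW.en t = y}, wE (t : List Bool) ≤
      ∑ _y ∈ I.filter (fun y => y ∈ S), G := by
    refine sum_le_sum fun y hy => ?_
    rw [mem_filter] at hy
    exact hG y hy.2
  refine h1.trans ?_
  rw [sum_const, nsmul_eq_mul]
  refine mul_le_mul' ?_ le_rfl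
  rw [← hcard]
  exact_mod_cast card_filter_le _ _

/-- the generating function at a vertex is finite -/
lemma en_fin (q : Pt) : gf {t | t ∈ SA ∧ TIW.en t = q} ≠ ⊤ := TPF.SE_finC TPF.ur TPC.xUp q

/-- **the mass of the walks with a close end** -/
theorem ball_up : ∃ C : ℝ, 0 < C ∧ ∀ K : ℕ, gf {t | t ∈ SA ∧ TIW.hn (TIW.en t) ≤ 2 ^ K} ≤
    ENNReal.ofReal (C * (2 : ℝ) ^ ((43 / 24 : ℝ) * (K : ℝ))) := by
  obtain ⟨C1, K0, hC1, hse⟩ := PWN.seY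
  obtain ⟨a, A, ha, hA, hg⟩ := PWN.gK_two
  obtain ⟨S, hS⟩ : ∃ S : ℕ → ℝ≥0∞, S = fun K => gf {t | t ∈ SA ∧ TIW.hn (TIW.en t) ≤ 2 ^ K} := ⟨_, rfl⟩
  -- the bottom
  have hfin : S K0 ≠ ⊤ := by
    rw [hS]
    simp only
    obtain ⟨I, hI⟩ : ∃ I : Finset Pt, I = (Finset.Icc (-((2 : ℤ) ^ K0)) (2 ^ K0) ×ˢ Finset.Icc (-((2 : ℤ) ^ K0)) (2 ^ K0)) := ⟨_, rfl⟩
    have hsub : {t | t ∈ SA ∧ TIW.hn (TIW.en t) ≤ 2 ^ K0} ⊆ ⋃ y ∈ I, {t | t ∈ SA ∧ TIW.en t = y} := by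
      rintro t ⟨h1, h2⟩
      simp only [Set.mem_iUnion]
      refine ⟨TIW.en t, ?_, h1, rfl⟩
      obtain ⟨h3, h4⟩ := Bl_of_hn (D := 2 ^ K0) (by push_cast; exact h2)
      have e1 : (oo : Pt).1 = 0 := rfl
      have e2 : (oo : Pt).2 = 0 := rfl
      rw [e1, sub_zero, abs_le] at h3
      rw [e2, sub_zero, abs_le] at h4
      push_cast at h3 h4
      rw [hI, mem_product, mem_Icc, mem_Icc]
      exact ⟨h3, h4⟩
    refine ne_top_of_le_ne_top ?_ ((gf_mono hsub).trans (ENNReal.tsum_biUnion_le wE _ _))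
    exact ENNReal.sum_ne_top.2 fun y _ => en_fin y
  obtain ⟨C2, hC2⟩ : ∃ C2 : ℝ, C2 = (S K0).toReal + 25 * C1 * A := ⟨_, rfl⟩
  have hC20 : 0 < C2 := by
    rw [hC2]
    have : 0 ≤ (S K0).toReal := ENNReal.toReal_nonneg
    positivity
  -- one level
  have hstep : ∀ K, K0 ≤ K → S (K + 1) ≤ S K + ENNReal.ofReal (25 * C1 * A * (2 : ℝ) ^ ((43 / 24 : ℝ) * (K : ℝ))) := by
    intro K hK
    have hsub : {t | t ∈ SA ∧ TIW.hn (TIW.en t) ≤ 2 ^ (K + 1)} ⊆ {t | t ∈ SA ∧ TIW.hn (TIW.en t) ≤ 2 ^ K} ∪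
        {t | t ∈ SA ∧ TIW.en t ∈ {y : Pt | 2 ^ K ≤ TIW.hn y ∧ TIW.hn y ≤ ((2 ^ (K + 1) : ℕ) : ℤ)}} := by
      rintro t ⟨h1, h2⟩
      rcases le_total (TIW.hn (TIW.en t)) (2 ^ K) with h | h
      · exact Or.inl ⟨h1, h⟩
      · exact Or.inr ⟨h1, h, by push_cast; exact h2⟩
    have h1 : S (K + 1) ≤ S K + gf {t | t ∈ SA ∧ TIW.en t ∈ {y : Pt | 2 ^ K ≤ TIW.hn y ∧ TIW.hn y ≤ ((2 ^ (K + 1) : ℕ) : ℤ)}} := by
      rw [hS]
      exact (gf_mono hsub).trans (gf_union_le _ _)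
    refine h1.trans (add_le_add le_rfl ?_)
    have h2 := ends_le (D := 2 ^ (K + 1)) (G := ENNReal.ofReal (C1 * PWN.gK K))
      (S := {y : Pt | 2 ^ K ≤ TIW.hn y ∧ TIW.hn y ≤ ((2 ^ (K + 1) : ℕ) : ℤ)}) (fun y hy => hy.2) (fun y hy => hse K y hK hy.1)
    refine h2.trans ?_
    have hg2 := (hg K).2
    have hg0 := PWN.gK_nonneg K
    have e4 : (4 : ℝ) ^ K = (2 : ℝ) ^ (2 * (K : ℝ)) := by
      rw [Real.rpow_mul (by norm_num), Real.rpow_natCast]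
      norm_num
    have e5 : (4 : ℝ) ^ K * (2 : ℝ) ^ (-(5 / 24) * (K : ℝ)) = (2 : ℝ) ^ ((43 / 24 : ℝ) * (K : ℝ)) := by
      rw [e4, ← Real.rpow_add (by norm_num)]
      congr 1
      ring
    rw [← ENNReal.ofReal_natCast, ← ENNReal.ofReal_mul (by positivity)]
    refine ENNReal.ofReal_le_ofReal ?_
    have h3 : (((2 * 2 ^ (K + 1) + 1) ^ 2 : ℕ) : ℝ) ≤ 25 * 4 ^ K := by
      have h4 : (1 : ℝ) ≤ 2 ^ K := one_le_pow₀ (by norm_num)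
      have h5 : (4 : ℝ) ^ K = 2 ^ K * 2 ^ K := by rw [← mul_pow]; norm_num
      have h6 : (2 : ℝ) ^ (K + 1) = 2 * 2 ^ K := pow_succ' _ _
      rw [h5]
      push_cast
      rw [h6]
      have h7 : 2 * (2 * (2 : ℝ) ^ K) + 1 ≤ 5 * 2 ^ K := by linarith
      calc (2 * (2 * (2 : ℝ) ^ K) + 1) ^ 2 ≤ (5 * 2 ^ K) ^ 2 := pow_le_pow_left₀ (by positivity) h7 2
        _ = 25 * (2 ^ K * 2 ^ K) := by ring
    calc (((2 * 2 ^ (K + 1) + 1) ^ 2 : ℕ) : ℝ) * (C1 * PWN.gK K) ≤ (25 * 4 ^ K) * (C1 * (A * (2 : ℝ) ^ (-(5 / 24) * (K : ℝ)))) := by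
          gcongr
      _ = 25 * C1 * A * (4 ^ K * (2 : ℝ) ^ (-(5 / 24) * (K : ℝ))) := by ring
      _ = _ := by rw [e5]
  have hup : ∀ s : ℕ, S (K0 + s) ≤ ENNReal.ofReal (C2 * (2 : ℝ) ^ ((43 / 24 : ℝ) * ((K0 + s : ℕ) : ℝ))) := by
    intro s
    induction s with
    | zero =>
      rw [Nat.add_zero, ← ENNReal.ofReal_toReal hfin]
      refine ENNReal.ofReal_le_ofReal ?_
      have h1 : (1 : ℝ) ≤ (2 : ℝ) ^ ((43 / 24 : ℝ) * (K0 : ℝ)) := Real.one_le_rpow (by norm_num) (by positivity)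
      have h2 : (S K0).toReal ≤ C2 := by
        rw [hC2]
        have : 0 < 25 * C1 * A := by positivity
        linarith
      nlinarith
    | succ s ih =>
      refine (hstep (K0 + s) (by omega)).trans ?_
      refine (add_le_add ih le_rfl).trans ?_
      rw [← ENNReal.ofReal_add (by positivity) (by positivity)]
      refine ENNReal.ofReal_le_ofReal ?_
      have e : (2 : ℝ) ^ ((43 / 24 : ℝ) * ((K0 + (s + 1) : ℕ) : ℝ)) = (2 : ℝ) ^ (43 / 24 : ℝ) *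
          (2 : ℝ) ^ ((43 / 24 : ℝ) * ((K0 + s : ℕ) : ℝ)) := by
        rw [← Real.rpow_add (by norm_num)]
        congr 1
        push_cast
        ring
      have h1 : (2 : ℝ) ≤ (2 : ℝ) ^ (43 / 24 : ℝ) := by
        calc (2 : ℝ) = 2 ^ (1 : ℝ) := (Real.rpow_one 2).symm
          _ ≤ _ := Real.rpow_le_rpow_of_exponent_le (by norm_num) (by norm_num)
      have h2 : 25 * C1 * A ≤ C2 := by
        rw [hC2]
        have : 0 ≤ (S K0).toReal := ENNReal.toReal_nonneg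
        linarith
      have h3 : (0 : ℝ) < (2 : ℝ) ^ ((43 / 24 : ℝ) * ((K0 + s : ℕ) : ℝ)) := by positivity
      rw [e]
      calc C2 * (2 : ℝ) ^ ((43 / 24 : ℝ) * ((K0 + s : ℕ) : ℝ)) + 25 * C1 * A * (2 : ℝ) ^ ((43 / 24 : ℝ) * ((K0 + s : ℕ) : ℝ))
          ≤ C2 * (2 : ℝ) ^ ((43 / 24 : ℝ) * ((K0 + s : ℕ) : ℝ)) + C2 * (2 : ℝ) ^ ((43 / 24 : ℝ) * ((K0 + s : ℕ) : ℝ)) := by
            gcongr
        _ = C2 * (2 * (2 : ℝ) ^ ((43 / 24 : ℝ) * ((K0 + s : ℕ) : ℝ))) := by ring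
        _ ≤ _ := by gcongr
  refine ⟨C2 * (2 : ℝ) ^ ((43 / 24 : ℝ) * (K0 : ℝ)), by positivity, fun K => ?_⟩
  rcases le_total K0 K with h | h
  · obtain ⟨s, rfl⟩ : ∃ s, K = K0 + s := ⟨K - K0, by omega⟩
    have h1 := hup s
    rw [hS] at h1
    refine h1.trans (ENNReal.ofReal_le_ofReal ?_)
    have h2 : (1 : ℝ) ≤ (2 : ℝ) ^ ((43 / 24 : ℝ) * (K0 : ℝ)) := Real.one_le_rpow (by norm_num) (by positivity)
    have h3 : (0 : ℝ) < (2 : ℝ) ^ ((43 / 24 : ℝ) * ((K0 + s : ℕ) : ℝ)) := by positivity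
    refine mul_le_mul_of_nonneg_right ?_ h3.le
    nlinarith
  · have h1 := hup 0
    rw [hS, Nat.add_zero] at h1
    refine (gf_mono ?_).trans (h1.trans (ENNReal.ofReal_le_ofReal ?_))
    · rintro t ⟨h3, h4⟩
      exact ⟨h3, h4.trans (pow_le_pow_right₀ (by norm_num) h)⟩
    · have h2 : (1 : ℝ) ≤ (2 : ℝ) ^ ((43 / 24 : ℝ) * (K : ℝ)) := Real.one_le_rpow (by norm_num) (by positivity)
      have h3 : (0 : ℝ) < (2 : ℝ) ^ ((43 / 24 : ℝ) * (K0 : ℝ)) := by positivity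
      nlinarith [mul_pos hC20 h3]

/-- **row BallSt** -/
theorem ballSt : BallSt := by
  obtain ⟨C, hC, h⟩ := ball_up
  obtain ⟨a0, A, ha0, hA, hg⟩ := PWN.gK_two
  intro ε hε
  obtain ⟨a, ha⟩ : ∃ a : ℕ, C / 2 ^ a ≤ ε * a0 := by
    obtain ⟨a, h⟩ := pow_unbounded_of_one_lt (C / (ε * a0)) (one_lt_two)
    refine ⟨a, ?_⟩
    rw [div_lt_iff₀ (by positivity)] at h
    rw [div_le_iff₀ (by positivity)]
    linarith
  refine ⟨a, a, le_rfl, fun K hK => (h (K - a)).trans ?_⟩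
  have h1 := (hg K).1
  have hU := TS.Ub_pos K
  have e4 : (4 : ℝ) ^ K = (2 : ℝ) ^ (2 * (K : ℝ)) := by
    rw [Real.rpow_mul (by norm_num), Real.rpow_natCast]
    norm_num
  have e5 : (4 : ℝ) ^ K * (2 : ℝ) ^ (-(5 / 24) * (K : ℝ)) = (2 : ℝ) ^ ((43 / 24 : ℝ) * (K : ℝ)) := by
    rw [e4, ← Real.rpow_add (by norm_num)]
    congr 1
    ring
  have e6 : ENNReal.ofReal (ε * Ub K) * Xb K ^ 2 = ENNReal.ofReal (ε * (4 ^ K * PWN.gK K)) := by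
    have e7 : ε * (4 ^ K * PWN.gK K) = ε * Ub K * (Xb K).toReal ^ 2 := by
      unfold PWN.gK
      field_simp
    rw [e7, ENNReal.ofReal_mul (p := ε * Ub K) (by positivity), ENNReal.ofReal_pow ENNReal.toReal_nonneg,
      ENNReal.ofReal_toReal (Xb_ne_top K)]
  rw [e6]
  refine ENNReal.ofReal_le_ofReal ?_
  have h2 : (2 : ℝ) ^ ((43 / 24 : ℝ) * (K : ℝ)) ≤ (4 ^ K * PWN.gK K) / a0 := by
    rw [le_div_iff₀ ha0, ← e5]
    have : (0 : ℝ) < 4 ^ K := by positivity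
    nlinarith
  have h3 : (2 : ℝ) ^ ((43 / 24 : ℝ) * ((K - a : ℕ) : ℝ)) ≤ (2 : ℝ) ^ ((43 / 24 : ℝ) * (K : ℝ)) / 2 ^ a := by
    rw [le_div_iff₀ (by positivity), ← Real.rpow_natCast 2 a, ← Real.rpow_add (by norm_num)]
    refine Real.rpow_le_rpow_of_exponent_le (by norm_num) ?_
    rw [Nat.cast_sub hK]
    have : (0 : ℝ) ≤ a := Nat.cast_nonneg a
    linarith
  have hg0 := PWN.gK_nonneg K
  calc C * (2 : ℝ) ^ ((43 / 24 : ℝ) * ((K - a : ℕ) : ℝ)) ≤ C * ((4 ^ K * PWN.gK K) / a0 / 2 ^ a) := by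
        refine mul_le_mul_of_nonneg_left (h3.trans ?_) hC.le
        exact div_le_div_of_nonneg_right h2 (by positivity)
    _ = (C / 2 ^ a) * ((4 ^ K * PWN.gK K) / a0) := by ring
    _ ≤ (ε * a0) * ((4 ^ K * PWN.gK K) / a0) := mul_le_mul_of_nonneg_right ha (by positivity)
    _ = ε * (4 ^ K * PWN.gK K) := by field_simp

end ARM

end HexObs
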