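import Pool.Agent.ARM.Num
import Pool.Agent.NPR.Fast

/-!
ARM: **row B1** (helper37): lengths at most lam m_i, from the mass of all the words with at most x letters.
-/

set_option autoImplicit false

namespace HexObs

namespace ARM

open Finset TS SDN SIM NTA TIP

open scoped ENNReal

theorem baseSt : BaseSt := by
  intro lam hlam
  obtain ⟨C, hC, h⟩ := NPR.Fast.short_mass
  obtain ⟨K, hK⟩ : ∃ K : ℝ, K = max lam 1 := ⟨_, rfl⟩
  have hK0 : 0 < K := by rw [hK]; exact lt_max_of_lt_right one_pos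
  have hK1 : 1 ≤ K := by rw [hK]; exact le_max_right _ _
  have hKl : lam ≤ K := by rw [hK]; exact le_max_left _ _
  refine ⟨C * (lam + 1) ^ (43 / 32 : ℝ) * K ^ (3 / 2 : ℝ), by positivity, fun n i hn => ?_⟩
  have hm := ml_pos i
  have hm1 := one_le_ml i
  have hw := pw_pos i
  have hsub : F n i ⊆ {t | t ∈ SA ∧ (t.length : ℝ) ≤ (lam + 1) * ml i} := by
    intro L hL
    refine ⟨(mem_F.1 hL).1, ?_⟩
    have := (mem_F.1 hL).2.2.1
    linarith
  refine (gf_mono hsub).trans ((h ((lam + 1) * ml i) (by nlinarith)).trans (ENNReal.ofReal_le_ofReal ?_))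
  have e1 : (ml i) ^ (43 / 32 : ℝ) = pw i := by
    unfold ml pw
    rw [← Real.rpow_mul (by norm_num)]
    congr 1
    ring
  have e2 : pw i ≤ K ^ (3 / 2 : ℝ) * pr n i := by
    rw [pr_eq]
    have h1 : max (n : ℝ) (ml i) ≤ K * ml i := by
      apply max_le
      · exact hn.trans (mul_le_mul_of_nonneg_right hKl hm.le)
      · nlinarith
    have h2 : 1 ≤ K * (ml i / max (n : ℝ) (ml i)) := by
      rw [← mul_div_assoc, le_div_iff₀ (max_pos n i), one_mul]
      exact h1
    have h3 : 1 ≤ K ^ (3 / 2 : ℝ) * (ml i / max (n : ℝ) (ml i)) ^ (3 / 2 : ℝ) := by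
      rw [← Real.mul_rpow hK0.le (div_pos hm (max_pos n i)).le]
      exact Real.one_le_rpow h2 (by norm_num)
    nlinarith
  rw [Real.mul_rpow (by linarith) hm.le, e1]
  have e3 : 0 ≤ C * (lam + 1) ^ (43 / 32 : ℝ) := by positivity
  calc C * ((lam + 1) ^ (43 / 32 : ℝ) * pw i) = C * (lam + 1) ^ (43 / 32 : ℝ) * pw i := by ring
    _ ≤ C * (lam + 1) ^ (43 / 32 : ℝ) * (K ^ (3 / 2 : ℝ) * pr n i) := mul_le_mul_of_nonneg_left e2 e3
    _ = _ := by ring

end ARM

end HexObs
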