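import Pool.Agent.ARM.Num
import Pool.Agent.TIP.DCnt
import Pool.Agent.TIW.Nice
import Pool.Agent.SLW.Split

/-!
# ARM2, row E (helper28): `exF_of : TipF → ExF`, double counting with windows of the length of the first part

* `dcs` : double counting, the mass of the second part depends on the first one;
* `pr_back`, `pr_up16` : the predicted mass at smaller lengths and at higher levels;
* **`exF_of`**.
-/

set_option autoImplicit false

namespace HexObs

namespace ARM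

open Finset TS SDN SIM NTA TIP

open scoped ENNReal

open Classical in
/-- every word of G has many splittings into a word A of X and a word of Y A -/
theorem dcs {G X : Set (List Bool)} {Y : List Bool → Set (List Bool)} {c : ℝ≥0∞}
    (h : ∀ L ∈ G, ∃ S : Finset ℕ, c ≤ (S.card : ℝ≥0∞) ∧ ∀ q ∈ S, q ≤ L.length ∧ L.take q ∈ X ∧ L.drop q ∈ Y (L.take q)) :
    c * gf G ≤ ∑' A : List Bool, if A ∈ X then wE A * gf (Y A) else 0 := by
  have e1 : c * gf G ≤ ∑' L : List Bool, ∑' p : List Bool × List Bool,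
      if p.1 ++ p.2 = L ∧ p.1 ∈ X ∧ p.2 ∈ Y p.1 then wE p.1 * wE p.2 else 0 := by
    rw [gf_ind, ← ENNReal.tsum_mul_left]
    refine ENNReal.tsum_le_tsum fun L => ?_
    by_cases hL : L ∈ G
    · obtain ⟨S, hS, hq⟩ := h L hL
      rw [if_pos hL]
      have hinj : Set.InjOn (fun q : ℕ => (L.take q, L.drop q)) (S : Set ℕ) := by
        intro q hq1 q' hq2 he
        have h1 := congrArg (fun p : List Bool × List Bool => p.1.length) he
        simp only [List.length_take] at h1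
        have := (hq q hq1).1
        have := (hq q' hq2).1
        omega
      calc c * wE L ≤ (S.card : ℝ≥0∞) * wE L := mul_le_mul_left hS _
        _ = ∑ q ∈ S, wE L := by rw [sum_const, nsmul_eq_mul]
        _ = ∑ q ∈ S, (fun p : List Bool × List Bool =>
              if p.1 ++ p.2 = L ∧ p.1 ∈ X ∧ p.2 ∈ Y p.1 then wE p.1 * wE p.2 else 0) (L.take q, L.drop q) := by
            refine sum_congr rfl fun q hqS => ?_
            show wE L = if L.take q ++ L.drop q = L ∧ L.take q ∈ X ∧ L.drop q ∈ Y (L.take q) then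
              wE (L.take q) * wE (L.drop q) else 0
            rw [if_pos ⟨List.take_append_drop q L, (hq q hqS).2⟩, ← wE_append, List.take_append_drop]
        _ = ∑ p ∈ S.image (fun q : ℕ => (L.take q, L.drop q)), (fun p : List Bool × List Bool =>
              if p.1 ++ p.2 = L ∧ p.1 ∈ X ∧ p.2 ∈ Y p.1 then wE p.1 * wE p.2 else 0) p := by
            rw [sum_image hinj]
        _ ≤ _ := ENNReal.sum_le_tsum _
    · rw [if_neg hL, mul_zero]
      exact zero_le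
  refine e1.trans ?_
  rw [ENNReal.tsum_comm]
  have e2 : ∀ p : List Bool × List Bool, (∑' L : List Bool,
      if p.1 ++ p.2 = L ∧ p.1 ∈ X ∧ p.2 ∈ Y p.1 then wE p.1 * wE p.2 else 0) =
      if p.1 ∈ X ∧ p.2 ∈ Y p.1 then wE p.1 * wE p.2 else 0 := by
    intro p
    rw [tsum_eq_single (p.1 ++ p.2) (fun L hL => if_neg fun h => hL h.1.symm)]
    by_cases hp : p.1 ∈ X ∧ p.2 ∈ Y p.1
    · rw [if_pos ⟨rfl, hp⟩, if_pos hp]
    · rw [if_neg hp, if_neg fun h => hp h.2]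
  rw [tsum_congr e2, ENNReal.tsum_prod']
  refine ENNReal.tsum_le_tsum fun A => ?_
  by_cases hA : A ∈ X
  · rw [if_pos hA]
    have e3 : ∀ Z : List Bool, (if (A, Z).1 ∈ X ∧ (A, Z).2 ∈ Y (A, Z).1 then wE (A, Z).1 * wE (A, Z).2 else 0) =
        wE A * (if Z ∈ Y A then wE Z else 0) := by
      intro Z
      by_cases hZ : Z ∈ Y A
      · rw [if_pos ⟨hA, hZ⟩, if_pos hZ]
      · rw [if_neg (fun h => hZ h.2), if_neg hZ, mul_zero]
    rw [tsum_congr e3, ENNReal.tsum_mul_left, ← gf_ind]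
  · rw [if_neg hA]
    refine le_of_eq (ENNReal.tsum_eq_zero.2 fun Z => if_neg fun h => hA h.1)

/-! ### the predicted mass -/

lemma ml_mono {i k : ℕ} (h : i ≤ k) : ml i ≤ ml k := by
  unfold ml
  refine Real.rpow_le_rpow_of_exponent_le (by norm_num) ?_
  have : (i : ℝ) ≤ k := by exact_mod_cast h
  linarith

lemma ml_two (i d : ℕ) (hd : 1 ≤ d) : 2 * ml i ≤ ml (i + d) := by
  rw [ml_add]
  refine mul_le_mul_of_nonneg_right ?_ (ml_pos i).le
  calc (2 : ℝ) = 2 ^ (1 : ℝ) := (Real.rpow_one 2).symm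
    _ ≤ 2 ^ ((4 / 3 : ℝ) * (d : ℝ)) := by
      refine Real.rpow_le_rpow_of_exponent_le (by norm_num) ?_
      have : (1 : ℝ) ≤ d := by exact_mod_cast hd
      linarith

lemma pr_nonneg (n i : ℕ) : 0 ≤ pr n i := by
  unfold pr
  have := ml_pos i
  positivity

/-- shorter words -/
lemma pr_back {n k s i : ℕ} (hs : (s : ℝ) ≤ ml i) : pr (n - k * s) i ≤ ((k : ℝ) + 1) ^ 2 * pr n i := by
  have hM := ml_pos i
  have hk : (0 : ℝ) ≤ k := Nat.cast_nonneg k
  have h0 : 0 < max (n : ℝ) (ml i) := lt_of_lt_of_le hM (le_max_right _ _)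
  have h0' : 0 < max ((n - k * s : ℕ) : ℝ) (ml i) := lt_of_lt_of_le hM (le_max_right _ _)
  have h1 : max (n : ℝ) (ml i) ≤ (k + 1) * max ((n - k * s : ℕ) : ℝ) (ml i) := by
    have h2 : (n : ℝ) ≤ ((n - k * s : ℕ) : ℝ) + k * s := by
      have : n ≤ (n - k * s) + k * s := by omega
      exact_mod_cast this
    have h3 : (k : ℝ) * s ≤ k * max ((n - k * s : ℕ) : ℝ) (ml i) :=
      mul_le_mul_of_nonneg_left (hs.trans (le_max_right _ _)) hk
    have h4 := le_max_left ((n - k * s : ℕ) : ℝ) (ml i)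
    have h5 := le_max_right ((n - k * s : ℕ) : ℝ) (ml i)
    refine max_le (by linarith) ?_
    nlinarith
  have h2 : ml i / max ((n - k * s : ℕ) : ℝ) (ml i) ≤ (k + 1) * (ml i / max (n : ℝ) (ml i)) := by
    rw [div_le_iff₀ h0', mul_div_assoc', div_mul_eq_mul_div, le_div_iff₀ h0]
    nlinarith
  have h3 : (ml i / max ((n - k * s : ℕ) : ℝ) (ml i)) ^ (3 / 2 : ℝ) ≤
      ((k : ℝ) + 1) ^ 2 * (ml i / max (n : ℝ) (ml i)) ^ (3 / 2 : ℝ) := by
    refine (Real.rpow_le_rpow (by positivity) h2 (by norm_num)).trans ?_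
    rw [Real.mul_rpow (by positivity) (by positivity)]
    refine mul_le_mul_of_nonneg_right ?_ (by positivity)
    rw [← Real.rpow_natCast ((k : ℝ) + 1) 2]
    exact Real.rpow_le_rpow_of_exponent_le (by linarith) (by norm_num)
  unfold pr
  calc (2 : ℝ) ^ ((43 / 24 : ℝ) * (i : ℝ)) * (ml i / max ((n - k * s : ℕ) : ℝ) (ml i)) ^ (3 / 2 : ℝ)
      ≤ (2 : ℝ) ^ ((43 / 24 : ℝ) * (i : ℝ)) * (((k : ℝ) + 1) ^ 2 * (ml i / max (n : ℝ) (ml i)) ^ (3 / 2 : ℝ)) :=
        mul_le_mul_of_nonneg_left h3 (by positivity)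
    _ = _ := by ring

/-- higher levels -/
lemma pr_up16 (n i d : ℕ) : pr n (i + d) ≤ 16 ^ d * pr n i := by
  have hM := ml_pos i
  have hM' := ml_pos (i + d)
  have h0 : 0 < max (n : ℝ) (ml i) := lt_of_lt_of_le hM (le_max_right _ _)
  have h1 : ml (i + d) / max (n : ℝ) (ml (i + d)) ≤ (2 : ℝ) ^ ((4 / 3 : ℝ) * (d : ℝ)) * (ml i / max (n : ℝ) (ml i)) := by
    rw [← mul_div_assoc, ← ml_add]
    refine div_le_div_of_nonneg_left hM'.le h0 ?_
    exact max_le_max le_rfl (ml_mono (by omega))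
  have h2 : (ml (i + d) / max (n : ℝ) (ml (i + d))) ^ (3 / 2 : ℝ) ≤
      (2 : ℝ) ^ ((2 : ℝ) * (d : ℝ)) * (ml i / max (n : ℝ) (ml i)) ^ (3 / 2 : ℝ) := by
    refine (Real.rpow_le_rpow (by positivity) h1 (by norm_num)).trans ?_
    rw [Real.mul_rpow (by positivity) (by positivity), ← Real.rpow_mul (by norm_num)]
    refine le_of_eq ?_
    congr 2
    ring
  unfold pr
  have e1 : (2 : ℝ) ^ ((43 / 24 : ℝ) * ((i + d : ℕ) : ℝ)) = (2 : ℝ) ^ ((43 / 24 : ℝ) * (i : ℝ)) *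
      (2 : ℝ) ^ ((43 / 24 : ℝ) * (d : ℝ)) := by
    rw [← Real.rpow_add (by norm_num)]
    congr 1
    push_cast
    ring
  have e2 : (2 : ℝ) ^ ((43 / 24 : ℝ) * (d : ℝ)) * (2 : ℝ) ^ ((2 : ℝ) * (d : ℝ)) ≤ 16 ^ d := by
    rw [← Real.rpow_add (by norm_num)]
    calc (2 : ℝ) ^ ((43 / 24 : ℝ) * (d : ℝ) + (2 : ℝ) * (d : ℝ)) ≤ (2 : ℝ) ^ ((4 : ℝ) * (d : ℝ)) := by
          refine Real.rpow_le_rpow_of_exponent_le (by norm_num) ?_
          have : (0 : ℝ) ≤ d := Nat.cast_nonneg d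
          linarith
      _ = 16 ^ d := by
          rw [Real.rpow_mul (by norm_num), Real.rpow_natCast]
          norm_num
  calc (2 : ℝ) ^ ((43 / 24 : ℝ) * ((i + d : ℕ) : ℝ)) * (ml (i + d) / max (n : ℝ) (ml (i + d))) ^ (3 / 2 : ℝ)
      ≤ (2 : ℝ) ^ ((43 / 24 : ℝ) * (i : ℝ)) * (2 : ℝ) ^ ((43 / 24 : ℝ) * (d : ℝ)) *
        ((2 : ℝ) ^ ((2 : ℝ) * (d : ℝ)) * (ml i / max (n : ℝ) (ml i)) ^ (3 / 2 : ℝ)) := by
        rw [e1]
        exact mul_le_mul_of_nonneg_left h2 (by positivity)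
    _ = (2 : ℝ) ^ ((43 / 24 : ℝ) * (d : ℝ)) * (2 : ℝ) ^ ((2 : ℝ) * (d : ℝ)) * ((2 : ℝ) ^ ((43 / 24 : ℝ) * (i : ℝ)) *
        (ml i / max (n : ℝ) (ml i)) ^ (3 / 2 : ℝ)) := by ring
    _ ≤ 16 ^ d * ((2 : ℝ) ^ ((43 / 24 : ℝ) * (i : ℝ)) * (ml i / max (n : ℝ) (ml i)) ^ (3 / 2 : ℝ)) :=
        mul_le_mul_of_nonneg_right e2 (by positivity)

/-! ### windows -/

/-- the window of a length and its weight -/
lemma window {n a s i : ℕ} (hs1 : 1 ≤ s) (hs2 : ml i ≤ s) : ∃ k : ℕ, n - k * s ≤ a ∧ (a < (n - k * s) + s ∨ (k = 0 ∧ n ≤ a)) ∧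
    wt n a i ≤ 16 / ((k : ℝ) + 1) ^ 4 := by
  have hm := ml_pos i
  have hform : ∀ y : ℝ, 0 ≤ y → (1 + y) ^ (-(4 : ℝ)) = 1 / (1 + y) ^ 4 := by
    intro y hy
    rw [Real.rpow_neg (by linarith), one_div]
    congr 1
    exact_mod_cast Real.rpow_natCast (1 + y) 4
  rcases Nat.lt_or_ge a n with h | h
  · obtain ⟨k', hk'⟩ : ∃ k' : ℕ, k' = (n - a - 1) / s := ⟨_, rfl⟩
    have h1 : k' * s ≤ n - a - 1 := by rw [hk']; exact Nat.div_mul_le_self _ _
    have h2 : n - a - 1 < k' * s + s := by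
      rw [hk']
      have h3 := Nat.div_add_mod (n - a - 1) s
      have h4 := Nat.mod_lt (n - a - 1) (show 0 < s by omega)
      rw [mul_comm] at h3
      omega
    refine ⟨k' + 1, ?_, Or.inl ?_, ?_⟩
    · rw [add_mul, one_mul]
      omega
    · rw [add_mul, one_mul]
      omega
    · unfold wt
      have h3 : (k' : ℝ) ≤ ((n - a : ℕ) : ℝ) / ml i := by
        rw [le_div_iff₀ hm]
        calc (k' : ℝ) * ml i ≤ k' * s := mul_le_mul_of_nonneg_left hs2 (Nat.cast_nonneg _)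
          _ ≤ ((n - a : ℕ) : ℝ) := by
            have : k' * s ≤ n - a := by omega
            exact_mod_cast this
      have hk0 : (0 : ℝ) ≤ k' := Nat.cast_nonneg _
      rw [hform _ (hk0.trans h3), Nat.cast_succ]
      rw [div_le_div_iff₀ (by positivity) (by positivity), one_mul]
      have h4 : (k' : ℝ) + 1 + 1 ≤ 2 * (1 + ((n - a : ℕ) : ℝ) / ml i) := by linarith
      calc ((k' : ℝ) + 1 + 1) ^ 4 ≤ (2 * (1 + ((n - a : ℕ) : ℝ) / ml i)) ^ 4 := pow_le_pow_left₀ (by positivity) h4 4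
        _ = 16 * (1 + ((n - a : ℕ) : ℝ) / ml i) ^ 4 := by ring
  · refine ⟨0, by omega, Or.inr ⟨rfl, h⟩, ?_⟩
    unfold wt
    rw [show n - a = 0 by omega, Nat.cast_zero, zero_div, add_zero, Real.one_rpow]
    norm_num

/-! ### the row -/

lemma en_app (A Z : List Bool) : TIW.en (A ++ Z) = TIW.en A + mulE (TIW.rt A) (TIW.en Z) := by
  have h := TIW.vx_app A Z Z.length
  unfold TIW.en at h ⊢
  rw [List.length_append]
  exact h

lemma hn_In {D : ℕ} {Y : List Bool} (h : In D Y) : TIW.hn (TIW.en Y) ≤ 3 * D := TIW.hn_le_Bl (h Y.length le_rfl)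

/-- the first part of a word with both ends close -/
lemma fst_F {n j i c : ℕ} (hj : j ≤ i) {A Y : List Bool} (hL : A ++ Y ∈ Fp n j) (hY : In (2 ^ (i + c)) Y) :
    A ∈ SA ∧ (A.length : ℝ) < n + ml j ∧ TIW.hn (TIW.en A) ≤ 2 ^ (i + c + 3) := by
  obtain ⟨h1, -, h3, h4⟩ := hL
  refine ⟨SLW.SA_take h1, ?_, ?_⟩
  · rw [List.length_append] at h3
    push_cast at h3
    have : (0 : ℝ) ≤ Y.length := Nat.cast_nonneg _
    linarith
  · have h5 := hn_In hY
    have h6 : TIW.en A = TIW.en (A ++ Y) - mulE (TIW.rt A) (TIW.en Y) := by rw [en_app]; abel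
    have h7 := TIW.hn_sub (TIW.en (A ++ Y)) (mulE (TIW.rt A) (TIW.en Y))
    rw [← h6, TIW.hn_mulE (TIW.nrm_rt A)] at h7
    have h8 : (2 : ℤ) ^ j ≤ 2 ^ (i + c) := pow_le_pow_right₀ (by norm_num) (by omega)
    have h9 : (1 : ℤ) ≤ 2 ^ (i + c) := one_le_pow₀ (by norm_num)
    have h10 : (2 : ℤ) ^ (i + c + 3) = 8 * 2 ^ (i + c) := by ring
    push_cast at h5
    rw [h10]
    linarith

/-- the cuts of a decomposition -/
lemma nD_cuts (D : ℕ) (ρ : List Bool → List Bool → Prop) (L : List Bool) : ∃ S : Finset ℕ, nD D ρ L ≤ S.card ∧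
    ∀ q ∈ S, q ≤ L.length ∧ ρ (L.take q) (L.drop q) ∧ In D (L.drop q) := by
  classical
  refine ⟨(range (L.length + 1)).filter fun k => ρ (L.take k) (L.drop k) ∧ In D (L.drop k), ?_, fun q hq => ?_⟩
  · unfold nD
    refine le_trans ?_ (card_image_le (f := fun k => L.drop k))
    rw [← Set.ncard_coe_finset]
    refine Set.ncard_le_ncard (fun Y hY => ?_) (Finset.finite_toSet _)
    obtain ⟨A, rfl, h1, h2⟩ := hY
    rw [mem_coe, mem_image]
    refine ⟨A.length, ?_, by simp⟩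
    rw [mem_filter, mem_range, List.take_left' rfl, List.drop_left' rfl, List.length_append]
    exact ⟨by omega, h1, h2⟩
  · rw [mem_filter, mem_range] at hq
    exact ⟨by omega, hq.2.1, hq.2.2⟩

lemma sum_sq : ∃ S0 : ℝ, 0 ≤ S0 ∧ ∑' k : ℕ, ENNReal.ofReal (1 / ((k : ℝ) + 1) ^ 2) = ENNReal.ofReal S0 := by
  have h1 : Summable fun k : ℕ => 1 / ((k : ℝ) + 1) ^ 2 := by
    have h2 := (summable_nat_add_iff 1).2 (Real.summable_one_div_nat_pow.2 (show 1 < 2 by norm_num))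
    refine h2.congr fun k => ?_
    push_cast
    rfl
  exact ⟨∑' k : ℕ, 1 / ((k : ℝ) + 1) ^ 2, tsum_nonneg fun k => by positivity,
    (ENNReal.ofReal_tsum_of_nonneg (fun k => by positivity) h1).symm⟩

/-- **row E** -/
theorem exF_of (hT : TipF) : ExF := by
  classical
  intro η c hη
  obtain ⟨C, hC, hT⟩ := hT η hη
  obtain ⟨S0, hS0, hsum⟩ := sum_sq
  refine ⟨16 * C * 16 ^ (c + 3) * (S0 + 1), by positivity, fun D n j i b hD hF hji hbi ρ x q hρ hx hq => ?_⟩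
  obtain ⟨i', hi'⟩ : ∃ i', i' = i + (c + 3) := ⟨_, rfl⟩
  obtain ⟨s, hs⟩ : ∃ s : ℕ, s = ⌊ml i'⌋₊ := ⟨_, rfl⟩
  have hs1 : (s : ℝ) ≤ ml i' := by rw [hs]; exact Nat.floor_le (ml_pos _).le
  have hs2 : ml i ≤ s := by
    have h1 := Nat.lt_floor_add_one (ml i')
    rw [← hs] at h1
    have h2 := ml_two i (c + 3) (by omega)
    rw [← hi'] at h2
    have h3 := one_le_ml i
    linarith
  have hs3 : 1 ≤ s := by
    have h1 := (one_le_ml i).trans hs2
    exact_mod_cast h1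
  obtain ⟨X, hX⟩ : ∃ X : Set (List Bool), X = {A | A ∈ GT b η ∧ A ∈ SA ∧ (A.length : ℝ) < n + ml j ∧
      TIW.hn (TIW.en A) ≤ 2 ^ i'} := ⟨_, rfl⟩
  obtain ⟨Y, hY⟩ : ∃ Y : List Bool → Set (List Bool), Y = fun A => {Y | ρ A Y ∧ In (2 ^ (i + c)) Y ∧ A ++ Y ∈ Fp n j} :=
    ⟨_, rfl⟩
  obtain ⟨W, hW⟩ : ∃ W : ℕ → Set (List Bool), W = fun k => F (n - k * s) i' ∩ GT b η := ⟨_, rfl⟩
  have h1 : ENNReal.ofReal q * gf {L | L ∈ Fp n j ∧ q ≤ (nD (2 ^ (i + c)) ρ L : ℝ)} ≤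
      ∑' A : List Bool, if A ∈ X then wE A * gf (Y A) else 0 := by
    refine dcs fun L hL => ?_
    obtain ⟨S, hS, hcut⟩ := nD_cuts (2 ^ (i + c)) ρ L
    refine ⟨S, ?_, fun k hk => ?_⟩
    · rw [← ENNReal.ofReal_natCast]
      refine ENNReal.ofReal_le_ofReal (hL.2.trans ?_)
      exact_mod_cast hS
    · obtain ⟨h2, h3, h4⟩ := hcut k hk
      have h5 : L.take k ++ L.drop k ∈ Fp n j := by rw [List.take_append_drop]; exact hL.1
      obtain ⟨h6, h7, h8⟩ := fst_F hji h5 h4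
      refine ⟨h2, ?_, ?_⟩
      · rw [hX]
        refine ⟨hρ _ _ h3, h6, h7, ?_⟩
        rw [hi', ← add_assoc]
        exact h8
      · rw [hY]
        exact ⟨h3, h4, h5⟩
  have h2 : (∑' A : List Bool, if A ∈ X then wE A * gf (Y A) else 0) ≤
      ∑' A : List Bool, ∑' k : ℕ, if A ∈ W k then wE A * (x * ENNReal.ofReal (16 / ((k : ℝ) + 1) ^ 4)) else 0 := by
    refine ENNReal.tsum_le_tsum fun A => ?_
    by_cases hA : A ∈ X
    · rw [if_pos hA]
      obtain ⟨k, hk1, hk2, hk3⟩ := window (n := n) (a := A.length) hs3 hs2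
      have hA' := hA
      rw [hX] at hA'
      obtain ⟨g1, g2, g3, g4⟩ := hA'
      have hAW : A ∈ W k := by
        rw [hW]
        refine ⟨⟨g2, hk1, ?_, by rw [sub_zero]; exact g4⟩, g1⟩
        rcases hk2 with h3 | ⟨h3, h4⟩
        · have h5 : (A.length : ℝ) < ((n - k * s : ℕ) : ℝ) + s := by exact_mod_cast h3
          linarith
        · rw [h3, zero_mul, Nat.sub_zero]
          have := ml_mono (show j ≤ i' by omega)
          linarith
      refine le_trans ?_ (ENNReal.le_tsum k)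
      rw [if_pos hAW]
      refine mul_le_mul' le_rfl ?_
      rw [hY]
      exact (hx A).trans (mul_le_mul' le_rfl (ENNReal.ofReal_le_ofReal hk3))
    · rw [if_neg hA]
      exact zero_le
  rw [ENNReal.tsum_comm] at h2
  have h3 : ∀ k : ℕ, (∑' A : List Bool, if A ∈ W k then wE A * (x * ENNReal.ofReal (16 / ((k : ℝ) + 1) ^ 4)) else 0) * Xb b ≤
      ENNReal.ofReal (16 * C * 16 ^ (c + 3) * (D * pr n i)) * x * ENNReal.ofReal (1 / ((k : ℝ) + 1) ^ 2) := by
    intro k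
    have e1 : (∑' A : List Bool, if A ∈ W k then wE A * (x * ENNReal.ofReal (16 / ((k : ℝ) + 1) ^ 4)) else 0) =
        gf (W k) * (x * ENNReal.ofReal (16 / ((k : ℝ) + 1) ^ 4)) := by
      rw [gf_ind (W k), ← ENNReal.tsum_mul_right]
      refine tsum_congr fun A => ?_
      by_cases hA : A ∈ W k
      · rw [if_pos hA, if_pos hA]
      · rw [if_neg hA, if_neg hA, zero_mul]
    have h4 : gf (W k) * Xb b ≤ ENNReal.ofReal (C * D * pr (n - k * s) i') := by
      rw [hW]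
      refine hT D (n - k * s) i' b hD (fun n' i'' h5 h6 => hF n' i'' (by omega) (by omega)) (by omega)
    have h5 : C * D * pr (n - k * s) i' ≤ C * D * (((k : ℝ) + 1) ^ 2 * (16 ^ (c + 3) * pr n i)) := by
      refine mul_le_mul_of_nonneg_left ?_ (by positivity)
      refine (pr_back hs1).trans (mul_le_mul_of_nonneg_left ?_ (by positivity))
      rw [hi']
      exact pr_up16 n i (c + 3)
    have hp := pr_nonneg n i
    rw [e1]
    calc gf (W k) * (x * ENNReal.ofReal (16 / ((k : ℝ) + 1) ^ 4)) * Xb b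
        = gf (W k) * Xb b * ENNReal.ofReal (16 / ((k : ℝ) + 1) ^ 4) * x := by ring
      _ ≤ ENNReal.ofReal (C * D * (((k : ℝ) + 1) ^ 2 * (16 ^ (c + 3) * pr n i))) *
          ENNReal.ofReal (16 / ((k : ℝ) + 1) ^ 4) * x :=
          mul_le_mul' (mul_le_mul' (h4.trans (ENNReal.ofReal_le_ofReal h5)) le_rfl) le_rfl
      _ = ENNReal.ofReal (16 * C * 16 ^ (c + 3) * (D * pr n i)) * x * ENNReal.ofReal (1 / ((k : ℝ) + 1) ^ 2) := by
          rw [← ENNReal.ofReal_mul (by positivity),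
            mul_right_comm (ENNReal.ofReal (16 * C * 16 ^ (c + 3) * (D * pr n i))) x, ← ENNReal.ofReal_mul (by positivity)]
          congr 2
          field_simp
  have h4 : gf {L | L ∈ Fp n j ∧ q ≤ (nD (2 ^ (i + c)) ρ L : ℝ)} * (ENNReal.ofReal q * Xb b) ≤
      ENNReal.ofReal (16 * C * 16 ^ (c + 3) * (D * pr n i)) * x * ENNReal.ofReal S0 := by
    calc gf {L | L ∈ Fp n j ∧ q ≤ (nD (2 ^ (i + c)) ρ L : ℝ)} * (ENNReal.ofReal q * Xb b)
        = ENNReal.ofReal q * gf {L | L ∈ Fp n j ∧ q ≤ (nD (2 ^ (i + c)) ρ L : ℝ)} * Xb b := by ring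
      _ ≤ (∑' k : ℕ, ∑' A : List Bool, if A ∈ W k then wE A * (x * ENNReal.ofReal (16 / ((k : ℝ) + 1) ^ 4)) else 0) *
          Xb b := mul_le_mul' (h1.trans h2) le_rfl
      _ = ∑' k : ℕ, (∑' A : List Bool, if A ∈ W k then wE A * (x * ENNReal.ofReal (16 / ((k : ℝ) + 1) ^ 4)) else 0) *
          Xb b := ENNReal.tsum_mul_right.symm
      _ ≤ ∑' k : ℕ, ENNReal.ofReal (16 * C * 16 ^ (c + 3) * (D * pr n i)) * x * ENNReal.ofReal (1 / ((k : ℝ) + 1) ^ 2) :=
          ENNReal.tsum_le_tsum h3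
      _ = _ := by rw [ENNReal.tsum_mul_left, hsum]
  refine h4.trans ?_
  rw [mul_right_comm]
  refine mul_le_mul' ?_ le_rfl
  have hp := pr_nonneg n i
  rw [← ENNReal.ofReal_mul (by positivity)]
  refine ENNReal.ofReal_le_ofReal ?_
  have h5 : 0 ≤ 16 * C * 16 ^ (c + 3) * (D * pr n i) := by positivity
  calc 16 * C * 16 ^ (c + 3) * (D * pr n i) * S0 ≤ 16 * C * 16 ^ (c + 3) * (D * pr n i) * (S0 + 1) :=
        mul_le_mul_of_nonneg_left (by linarith) h5
    _ = 16 * C * 16 ^ (c + 3) * (S0 + 1) * D * pr n i := by ring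

end ARM

end HexObs
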