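import Pool.Agent.ARM.DefsI
import Pool.Agent.ARM.ExF
import Pool.Agent.TIP.Ne
import Pool.Agent.TIP.EsMass
import Pool.Agent.NPR.TwoEnd
import Pool.Agent.JNT.JoB

/-!
# ARM, row I2 (helper86): `inPt_of : SmL → RetT → YMassJ → InPt`

The end and the length are smoothed at the start tip (`SmL`: helper25); the rest has again a local good start; its mass is the
tip form of the return bound (`RetT`: helper44); the moments of the length come from `YMassJ`.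
-/

set_option autoImplicit false

namespace HexObs

namespace ARM

open Finset TS SDN SIM NTA TIP

open scoped ENNReal

/-- the smoothing lemma, cuts as a parameter (from `smoothT` of helper25) -/
def SmL : Prop := ∀ (η : ℝ) (q : ℕ), 0 < η → ∃ (C : ℝ) (b0 : ℕ), 0 < C ∧ ∀ (b y : ℕ) (z : Pt), b0 ≤ b →
  ∀ (S WW : Set (List Bool)) (φ : List Bool → ℝ≥0∞), (∀ Y ∈ S, Y.length = y ∧ TIW.en Y = z ∧ ∃ T : Finset ℕ,
    η * Ub b ≤ (T.card : ℝ) ∧ (∀ c ∈ T, c ≤ Y.length ∧ Y.take c ∈ BU ∧ hgt (Y.take c) ≤ 2 ^ b ∧ Y.drop c ∈ WW ∧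
      1 ≤ ENNReal.ofReal ((1 + (c : ℝ) / ml b) ^ q) * φ (Y.drop c)) ∧
    ∀ c ∈ T, ∀ c' ∈ T, c ≤ c' → (Y.drop c).take (c' - c) ∈ BU) →
  gf S ≤ ENNReal.ofReal (C / (4 ^ b * ml b)) * ∑' W : WW, wE (W : List Bool) * φ W

/-! ### the rest behind a cut of the start structure -/

lemma vx_bu {P W : List Bool} (hP : P ∈ BU) (k : ℕ) :
    vx oo up (P ++ W) (P.length + k) = vx oo up P P.length + vx oo up W k := vx_cat (BU_dx hP) k

lemma en_bu {P W : List Bool} (hP : P ∈ BU) : TIW.en (P ++ W) = vx oo up P P.length + TIW.en W := by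
  unfold TIW.en
  rw [List.length_append, vx_bu hP]

lemma dz_bu {P W : List Bool} (hP : P ∈ BU) (k : ℕ) : dz W k = dz (P ++ W) (P.length + k) := by
  unfold dz
  rw [vx_bu hP, en_bu hP, add_sub_add_left_eq_sub]

lemma hn_box {D : ℕ} {Y : List Bool} (h : In D Y) {k : ℕ} (hk : k ≤ Y.length) : TIW.hn (vx oo up Y k) ≤ 3 * D :=
  TIW.hn_le_Bl (h k hk)

lemma Bl_sub {p q : Pt} {a b : ℕ} (hp : p ∈ Bl oo a) (hq : q ∈ Bl oo b) : p - q ∈ Bl oo (a + b) := by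
  rw [mem_Bl] at hp hq ⊢
  push_cast
  have e1 : (oo : Pt).1 = 0 := rfl
  have e2 : (oo : Pt).2 = 0 := rfl
  rw [e1, e2] at hp hq ⊢
  simp only [Prod.fst_sub, Prod.snd_sub]
  refine ⟨⟨?_, ?_⟩, ?_, ?_⟩ <;> omega

/-- the rest of a word in a box -/
lemma In_bu {P W : List Bool} {E : ℕ} (hP : P ∈ BU) (h : In E (P ++ W)) : In (2 * E) W := by
  intro k hk
  have h1 := h (P.length + k) (by rw [List.length_append]; omega)
  have h2 := h P.length (by rw [List.length_append]; omega)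
  rw [vx_bu hP] at h1
  rw [vx_append (by omega)] at h2
  have h3 := Bl_sub h1 h2
  rw [add_sub_cancel_left] at h3
  rwa [two_mul]

lemma SA_drop {P W : List Bool} (h : P ++ W ∈ SA) (hP : P ∈ BU) : W ∈ SA := by
  refine ⟨fun _ _ _ => Set.mem_univ _, fun i k hik hk he => ?_⟩
  have h1 := h.inj (P.length + i) (P.length + k) (by omega) (by rw [List.length_append]; omega) (by
    rw [vx_bu hP, vx_bu hP, he])
  omega

/-- **the cuts of the start structure** -/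
lemma st_cuts {η : ℝ} {D b : ℕ} (hb : b ≠ 0) (hU : 4 ≤ η * Ub b) {Y : List Bool} (hY : Y ∈ St η D b) :
    ∃ T : Finset ℕ, η / 2 * Ub b ≤ (T.card : ℝ) ∧ (∀ c ∈ T, c ≤ Y.length ∧ Y.take c ∈ BU ∧ hgt (Y.take c) ≤ 2 ^ b ∧
      Y.drop c ∈ St (η / 4) (2 * D) b ∧ In (D * 2 ^ b) (Y.take c)) ∧
      ∀ c ∈ T, ∀ c' ∈ T, c ≤ c' → (Y.drop c).take (c' - c) ∈ BU := by
  classical
  obtain ⟨S, hS, R, rfl⟩ := hY
  have hS' : if b = 0 then S = [] else ∃ N Z3, S = N ++ Z3 ∧ N ∈ BU ∧ Z3 ∈ BU ∧ hgt N ≤ 2 ^ b ∧ 2 ^ (b + 1) ≤ hgt Z3 ∧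
    η * Ub b ≤ (nc N : ℝ) ∧ In (D * 2 ^ b) S := hS
  rw [if_neg hb] at hS'
  obtain ⟨N, Z3, rfl, hN, hZ3, hhN, hhZ, hnc, hIn⟩ := hS'
  have hn1 : 1 ≤ nc N := nc_pos hN
  -- the split in the middle
  obtain ⟨N1, N2, hN1, hN2, rfl, hc1, hc2⟩ := nc_split hN (i := nc N - nc N / 2) (by omega) (by omega)
  have g1 : η / 2 * Ub b ≤ (nc N1 : ℝ) := by
    have h1 : nc (N1 ++ N2) ≤ 2 * nc N1 := by omega
    have h2 : (nc (N1 ++ N2) : ℝ) ≤ 2 * (nc N1 : ℝ) := by exact_mod_cast h1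
    linarith
  have g2 : η / 4 * Ub b ≤ (nc N2 : ℝ) := by
    have h1 : nc (N1 ++ N2) ≤ 2 * nc N2 := by omega
    have h2 : (nc (N1 ++ N2) : ℝ) ≤ 2 * (nc N2 : ℝ) := by exact_mod_cast h1
    linarith
  obtain ⟨h0, hh0⟩ : ∃ h0, h0 = hgt (N1 ++ N2) := ⟨_, rfl⟩
  rw [hgt_app hN1 hN2] at hhN
  refine ⟨(range (N1.length + 1)).filter fun j => N1.take j ∈ BU ∧ N1.drop j ∈ BU, g1, fun c hc => ?_, fun c hc c' hc' hcc => ?_⟩
  · rw [mem_nc] at hc
    obtain ⟨c1, c2, c3⟩ := hc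
    have hl : ((N1 ++ N2) ++ Z3 ++ R).length = N1.length + N2.length + Z3.length + R.length := by
      simp only [List.length_append]
    have e1 : ((N1 ++ N2) ++ Z3 ++ R).take c = N1.take c := by
      rw [List.append_assoc, List.append_assoc, List.take_append_of_le_length c1]
    have e2 : ((N1 ++ N2) ++ Z3 ++ R).drop c = ((N1.drop c ++ N2) ++ Z3) ++ R := by
      rw [List.append_assoc, List.append_assoc, List.drop_append_of_le_length c1]
      simp only [List.append_assoc]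
    have hsp := hgt_app c2 c3
    rw [List.take_append_drop] at hsp
    rw [e1, e2]
    refine ⟨by omega, c2, by omega, ⟨(N1.drop c ++ N2) ++ Z3, ?_, R, rfl⟩, fun k hk => ?_⟩
    · show if b = 0 then _ else _
      rw [if_neg hb]
      refine ⟨N1.drop c ++ N2, Z3, rfl, BU_app c3 hN2, hZ3, ?_, hhZ, ?_, ?_⟩
      · rw [hgt_app c3 hN2]
        omega
      · have h1 := nc_app c3 hN2
        have h2 := nc_pos c3
        have h3 : nc N2 ≤ nc (N1.drop c ++ N2) := by omega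
        have h4 : (nc N2 : ℝ) ≤ (nc (N1.drop c ++ N2) : ℝ) := by exact_mod_cast h3
        linarith
      · have h1 : N1.take c ++ ((N1.drop c ++ N2) ++ Z3) = (N1 ++ N2) ++ Z3 := by
          rw [← List.append_assoc, ← List.append_assoc, List.take_append_drop]
        have h2 := In_bu (P := N1.take c) (W := (N1.drop c ++ N2) ++ Z3) c2 (by rw [h1]; exact hIn)
        rwa [← mul_assoc] at h2
    · have h1 : k ≤ ((N1 ++ N2) ++ Z3).length := by
        rw [List.length_take] at hk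
        simp only [List.length_append]
        omega
      have h2 := hIn k h1
      have h3 : (N1 ++ N2) ++ Z3 = N1.take c ++ (N1.drop c ++ (N2 ++ Z3)) := by
        rw [← List.append_assoc, List.take_append_drop, List.append_assoc]
      rw [h3, vx_append (by omega)] at h2
      exact h2
  · rw [mem_nc] at hc hc'
    obtain ⟨c1, c2, c3⟩ := hc
    obtain ⟨d1, d2, d3⟩ := hc'
    have e2 : ((N1 ++ N2) ++ Z3 ++ R).drop c = N1.drop c ++ (N2 ++ (Z3 ++ R)) := by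
      rw [List.append_assoc, List.append_assoc, List.drop_append_of_le_length c1]
    rw [e2, List.take_append_of_le_length (by rw [List.length_drop]; omega)]
    -- between two cuts
    obtain ⟨e, rfl⟩ := Nat.exists_eq_add_of_le hcc
    rw [Nat.add_sub_cancel_left]
    refine ne_suf (s := N1.take c) (N := N1.drop (c + e)) c2 ?_ ?_
    · rw [← List.take_add]
      exact d2
    · rw [← List.drop_drop, List.take_append_drop]
      exact c3

/-! ### the mass of the rest -/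

/-- the moments of the length, unit m_b -/
lemma wmass (hY : YMassJ) {η : ℝ} (hη : 0 < η) (q : ℕ) : ∃ B : ℝ, 1 ≤ B ∧ ∀ b J : ℕ,
    ∑' W : {W : List Bool | W ∈ SA ∧ rev W ∈ GT b η ∧ In (2 ^ (b + J)) W},
      wE (W : List Bool) * ENNReal.ofReal ((1 + ((W : List Bool).length : ℝ) / ml b) ^ q) ≤
        ENNReal.ofReal (B ^ (J + 1) * Ub b) * Xb b := by
  obtain ⟨C, hC, h⟩ := hY η q hη
  obtain ⟨E, hE⟩ : ∃ E : ℝ, E = (2 : ℝ) ^ (4 / 3 : ℝ) := ⟨_, rfl⟩
  have hE1 : 1 ≤ E := by rw [hE]; exact Real.one_le_rpow (by norm_num) (by norm_num)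
  refine ⟨C * E ^ q, one_le_mul_of_one_le_of_one_le hC (one_le_pow₀ hE1), fun b J => ?_⟩
  obtain ⟨r, hr⟩ : ∃ r : ℝ, r = E ^ J := ⟨_, rfl⟩
  have hr1 : 1 ≤ r := by rw [hr]; exact one_le_pow₀ hE1
  have hml : ml (b + J) = r * ml b := by
    rw [ml_add, hr, hE, ← Real.rpow_natCast, ← Real.rpow_mul (by norm_num)]
  have hb := ml_pos b
  have hU := Ub_pos b
  have h1 : ∀ W : List Bool, wE W * ENNReal.ofReal ((1 + (W.length : ℝ) / ml b) ^ q) ≤
      ENNReal.ofReal (r ^ q) * (wE W * ENNReal.ofReal ((1 + (W.length : ℝ) / ml (b + J)) ^ q)) := by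
    intro W
    rw [mul_left_comm, ← ENNReal.ofReal_mul (by positivity), ← mul_pow]
    refine mul_le_mul_right (ENNReal.ofReal_le_ofReal (pow_le_pow_left₀ (by positivity) ?_ q)) _
    rw [hml, mul_add, mul_one, mul_div_assoc', mul_div_mul_left _ _ (by linarith)]
    linarith
  refine (ENNReal.tsum_le_tsum fun W : {W : List Bool | W ∈ SA ∧ rev W ∈ GT b η ∧ In (2 ^ (b + J)) W} =>
    h1 (W : List Bool)).trans ?_
  rw [ENNReal.tsum_mul_left]
  refine (mul_le_mul_right (h b J) _).trans ?_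
  rw [← mul_assoc, ← ENNReal.ofReal_mul (by positivity)]
  refine mul_le_mul_left (ENNReal.ofReal_le_ofReal ?_) _
  rw [← mul_assoc]
  refine mul_le_mul_of_nonneg_right ?_ hU.le
  rw [hr, mul_pow, ← pow_mul, ← pow_mul, mul_comm]
  refine mul_le_mul_of_nonneg_left (pow_le_pow_right₀ hE1 ?_) (by positivity)
  nlinarith

/-- cut off at the level Λ -/
lemma cutoff {x Λ : ℝ} (hx : 0 ≤ x) (hΛ : 1 ≤ Λ) {q : ℕ} (hq : 4 ≤ q) :
    (1 + x) ^ 4 ≤ Λ ^ 4 + (Λ ^ (q - 4))⁻¹ * (1 + x) ^ q := by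
  have hp : 0 < Λ ^ (q - 4) := by positivity
  rcases le_total (1 + x) Λ with h | h
  · have h1 : (1 + x) ^ 4 ≤ Λ ^ 4 := pow_le_pow_left₀ (by linarith) h 4
    have h2 : 0 ≤ (Λ ^ (q - 4))⁻¹ * (1 + x) ^ q := by positivity
    linarith
  · have h1 : Λ ^ (q - 4) ≤ (1 + x) ^ (q - 4) := pow_le_pow_left₀ (by linarith) h _
    have h2 : (1 + x) ^ q = (1 + x) ^ (q - 4) * (1 + x) ^ 4 := by
      rw [← pow_add]
      congr 1
      omega
    have h3 : (1 + x) ^ 4 ≤ (Λ ^ (q - 4))⁻¹ * (1 + x) ^ q := by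
      rw [h2, ← mul_assoc, inv_mul_eq_div]
      exact le_mul_of_one_le_left (by positivity) ((one_le_div hp).2 h1)
    have h4 : 0 ≤ Λ ^ 4 := by positivity
    linarith

/-- the fourth moment of a class, from its mass and a high moment of a larger class -/
lemma fourth {WW W0 : Set (List Bool)} (hs : WW ⊆ W0) {m Λ : ℝ} (hm : 0 < m) (hΛ : 1 ≤ Λ) {q : ℕ} (hq : 4 ≤ q) :
    ∑' W : WW, wE (W : List Bool) * ENNReal.ofReal ((1 + ((W : List Bool).length : ℝ) / m) ^ 4) ≤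
      ENNReal.ofReal (Λ ^ 4) * gf WW + ENNReal.ofReal ((Λ ^ (q - 4))⁻¹) *
        ∑' W : W0, wE (W : List Bool) * ENNReal.ofReal ((1 + ((W : List Bool).length : ℝ) / m) ^ q) := by
  have h1 : ∀ W : List Bool, wE W * ENNReal.ofReal ((1 + (W.length : ℝ) / m) ^ 4) ≤ ENNReal.ofReal (Λ ^ 4) * wE W +
      ENNReal.ofReal ((Λ ^ (q - 4))⁻¹) * (wE W * ENNReal.ofReal ((1 + (W.length : ℝ) / m) ^ q)) := by
    intro W
    have h2 := cutoff (x := (W.length : ℝ) / m) (by positivity) hΛ hq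
    refine (mul_le_mul_right (ENNReal.ofReal_le_ofReal h2) _).trans (le_of_eq ?_)
    rw [ENNReal.ofReal_add (by positivity) (by positivity), ENNReal.ofReal_mul (p := (Λ ^ (q - 4))⁻¹) (by positivity)]
    ring
  refine (ENNReal.tsum_le_tsum fun W : WW => h1 (W : List Bool)).trans ?_
  rw [ENNReal.tsum_add, ENNReal.tsum_mul_left, ENNReal.tsum_mul_left]
  refine add_le_add le_rfl (mul_le_mul_right ?_ _)
  exact ENNReal.tsum_mono_subtype (fun W : List Bool => wE W * ENNReal.ofReal ((1 + (W.length : ℝ) / m) ^ q)) hs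

/-! ### the rest: far from the end, with a visit -/

/-- two vertices of a word, one of them in the first part -/
lemma dz_near {P W : List Bool} {E a a' : ℕ} (hIn : In E P) (ha : a ≤ P.length) (ha' : a' ≤ P.length) :
    dz (P ++ W) a ≤ dz (P ++ W) a' + 6 * E := by
  unfold dz
  have h1 := TIW.hn_tri (vx oo up (P ++ W) a) (vx oo up (P ++ W) a') (TIW.en (P ++ W))
  have h2 := TIW.hn_sub (vx oo up (P ++ W) a) (vx oo up (P ++ W) a')
  have h3 : TIW.hn (vx oo up (P ++ W) a) ≤ 3 * E := by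
    rw [vx_append (by omega)]
    exact hn_box hIn ha
  have h4 : TIW.hn (vx oo up (P ++ W) a') ≤ 3 * E := by
    rw [vx_append (by omega)]
    exact hn_box hIn ha'
  linarith

lemma rest_far {P W : List Bool} {D b i m : ℕ} (hP : P ∈ BU) (hIn : In (D * 2 ^ b) P) (hi : i = b + m) (hm : 48 * D ≤ 2 ^ m)
    (h : 2 ^ i < 4 * dz (P ++ W) 0) : 2 ^ i < 8 * dz W 0 := by
  have h1 := dz_near (W := W) hIn (Nat.zero_le _) le_rfl
  rw [dz_bu hP 0, Nat.add_zero]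
  have h2 : (48 * D : ℤ) * 2 ^ b ≤ 2 ^ i := by
    rw [hi, pow_add, mul_comm ((2 : ℤ) ^ b)]
    refine mul_le_mul_of_nonneg_right ?_ (by positivity)
    exact_mod_cast hm
  push_cast at h1
  have h3 : 6 * ((D : ℤ) * 2 ^ b) * 8 ≤ 2 ^ i := by
    calc 6 * ((D : ℤ) * 2 ^ b) * 8 = (48 * D : ℤ) * 2 ^ b := by ring
      _ ≤ _ := h2
  linarith

lemma rest_vis {P W : List Bool} {D b i m l : ℕ} (hP : P ∈ BU) (hIn : In (D * 2 ^ b) P) (hi : i = b + m) (hm : 48 * D ≤ 2 ^ m)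
    (hl : l + 5 ≤ i) (h : 2 ^ i < 4 * dz (P ++ W) 0) (hv : P ++ W ∈ Vis l i) : W ∈ Vis l i := by
  obtain ⟨a, a', h1, h2, h3, h4⟩ := hv
  have h5 : P.length ≤ a := by
    by_contra hc
    have h6 := dz_near (W := W) (a := 0) (a' := a) hIn (Nat.zero_le _) (by omega)
    push_cast at h6
    have h7 : (48 * D : ℤ) * 2 ^ b ≤ 2 ^ i := by
      rw [hi, pow_add, mul_comm ((2 : ℤ) ^ b)]
      refine mul_le_mul_of_nonneg_right ?_ (by positivity)
      exact_mod_cast hm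
    have h8 : 8 * ((2 : ℤ) ^ (l + 1)) ≤ 2 ^ i := by
      have e : (8 : ℤ) * 2 ^ (l + 1) = 2 ^ (l + 4) := by rw [pow_add, pow_add]; ring
      rw [e]
      exact pow_le_pow_right₀ (by norm_num) (by omega)
    have h9 : 4 * (6 * ((D : ℤ) * 2 ^ b)) * 2 ≤ 2 ^ i := by
      calc 4 * (6 * ((D : ℤ) * 2 ^ b)) * 2 = (48 * D : ℤ) * 2 ^ b := by ring
        _ ≤ _ := h7
    linarith
  obtain ⟨k, rfl⟩ := Nat.exists_eq_add_of_le h5
  obtain ⟨k', rfl⟩ := Nat.exists_eq_add_of_le (h5.trans h1.le)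
  rw [List.length_append] at h2
  rw [← dz_bu hP] at h3 h4
  exact ⟨k, k', by omega, by omega, h3, h4⟩

lemma St_GT {η : ℝ} {D b : ℕ} (hb : b ≠ 0) {W : List Bool} (h : W ∈ St η D b) : rev W ∈ GT b η := by
  obtain ⟨S, hS, R, rfl⟩ := h
  exact NPR.GS_rev hb hS R

/-- the weight of the length -/
lemma wt_ge {c w y : ℕ} {m : ℝ} (hm : 0 < m) (hy : y = c + w) :
    1 ≤ ENNReal.ofReal ((1 + (c : ℝ) / m) ^ 4) * ENNReal.ofReal ((1 + (w : ℝ) / m) ^ 4 * ((1 + (y : ℝ) / m) ^ 4)⁻¹) := by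
  rw [← ENNReal.ofReal_mul (by positivity), ← ENNReal.ofReal_one]
  refine ENNReal.ofReal_le_ofReal ?_
  rw [← mul_assoc, ← mul_pow, ← div_eq_mul_inv, one_le_div (by positivity)]
  refine pow_le_pow_left₀ (by positivity) ?_ 4
  have h1 : (y : ℝ) = c + w := by rw [hy]; push_cast; ring
  have h2 : 0 ≤ (c : ℝ) / m := by positivity
  have h3 : 0 ≤ (w : ℝ) / m := by positivity
  rw [h1, add_div]
  nlinarith

/-! ### the theorem -/

/-- **row I2** -/
theorem inPt_of (hS : SmL) (hR : RetT) (hY : YMassJ) : InPt := by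
  intro θ η D c hθ hη
  obtain ⟨τ, hτ⟩ : ∃ τ : ℝ, τ = θ / 8 := ⟨_, rfl⟩
  have hτ0 : 0 < τ := by rw [hτ]; positivity
  obtain ⟨n, hn⟩ := exists_nat_ge (2 / 3 / τ)
  rw [div_le_iff₀ hτ0] at hn
  obtain ⟨q, hq⟩ : ∃ q : ℕ, q = n + 4 := ⟨_, rfl⟩
  obtain ⟨B1, m1, b1, hB1, hR⟩ := hR (θ / 2) (η / 4) (2 * D) (c + 1) (by positivity) (by positivity)
  obtain ⟨B2, hB2, hW⟩ := wmass hY (show 0 < η / 4 by positivity) q
  obtain ⟨C3, b3, hC3, hS⟩ := hS (η / 2) 4 (by positivity)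
  obtain ⟨m2, hm2⟩ : ∃ m2 : ℕ, 48 * D < 2 ^ m2 := ⟨48 * D, Nat.lt_two_pow_self⟩
  obtain ⟨b2, hb2⟩ : ∃ b2 : ℕ, ∀ b, b2 ≤ b → 4 ≤ η * Ub b := by
    obtain ⟨cu, Cu, hcu, -, hU⟩ := JNT.JoT.Ub_two
    obtain ⟨b2, hb2⟩ := exists_nat_ge (4 / (η * cu))
    rw [div_le_iff₀ (by positivity)] at hb2
    refine ⟨2 * b2, fun b hb => ?_⟩
    have h1 := (hU b).1
    have h2 : (b2 : ℝ) ≤ (2 : ℝ) ^ (3 / 4 * (b : ℝ)) := by
      have h3 : (b2 : ℝ) ≤ (2 : ℝ) ^ b2 := by exact_mod_cast Nat.lt_two_pow_self.le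
      refine h3.trans ?_
      rw [← Real.rpow_natCast 2 b2]
      refine Real.rpow_le_rpow_of_exponent_le (by norm_num) ?_
      have : (2 : ℝ) * b2 ≤ b := by exact_mod_cast hb
      linarith
    calc (4 : ℝ) ≤ b2 * (η * cu) := hb2
      _ ≤ (2 : ℝ) ^ (3 / 4 * (b : ℝ)) * (η * cu) := mul_le_mul_of_nonneg_right h2 (by positivity)
      _ = η * (cu * (2 : ℝ) ^ (3 / 4 * (b : ℝ))) := by ring
      _ ≤ _ := mul_le_mul_of_nonneg_left h1 hη.le
  obtain ⟨A, hA⟩ : ∃ A : ℝ, A = B1 + 16 * B2 ^ (c + 3) := ⟨_, rfl⟩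
  have hB2c : 1 ≤ B2 ^ (c + 3) := one_le_pow₀ hB2
  have hA1 : 1 ≤ A := by rw [hA]; linarith
  refine ⟨(C3 + 1) * A * 16, m1 + m2 + 1, b1 + b2 + b3 + 1, ?_, fun b l i m y z hi hm hb hbl hli => ?_⟩
  · nlinarith
  have hb0 : b ≠ 0 := by omega
  have hm48 : 48 * D ≤ 2 ^ m := hm2.le.trans (Nat.pow_le_pow_right (by norm_num) (by omega))
  have hml := ml_pos b
  have hmli := ml_pos i
  have hUb := Ub_pos b
  have hUi := Ub_pos i
  obtain ⟨s, hs⟩ : ∃ s : ℝ, s = (i : ℝ) - l := ⟨_, rfl⟩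
  have hs0 : 0 ≤ s := by
    rw [hs]
    have : (l : ℝ) ≤ i := by exact_mod_cast hli
    linarith
  obtain ⟨κ0, hκ0⟩ : ∃ κ0 : ℝ, κ0 = ((1 + (y : ℝ) / ml b) ^ 4)⁻¹ := ⟨_, rfl⟩
  have hκ00 : 0 ≤ κ0 := by rw [hκ0]; positivity
  obtain ⟨G, hG⟩ : ∃ G : ℝ, G = (2 : ℝ) ^ ((θ - 2 / 3) * s) * (B1 ^ m + 16 * B2 ^ (m + c + 2)) := ⟨_, rfl⟩
  have hG0 : 0 ≤ G := by rw [hG]; positivity
  -- a class of the rests
  have main : ∀ WW : Set (List Bool), (∀ Y ∈ {Y | Y ∈ SA ∧ Y ∈ St η D b ∧ In (2 ^ (i + c)) Y ∧ Y.length = y ∧ TIW.en Y = z ∧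
      2 ^ i < 4 * dz Y 0 ∧ Y ∈ Vis l i}, ∀ k, k ≤ Y.length → Y.take k ∈ BU → In (D * 2 ^ b) (Y.take k) →
      Y.drop k ∈ St (η / 4) (2 * D) b → Y.drop k ∈ WW) →
      ∑' W : WW, wE (W : List Bool) * ENNReal.ofReal ((1 + ((W : List Bool).length : ℝ) / ml b) ^ 4) ≤
        ENNReal.ofReal (G * Ub b) * Xb b →
      gf {Y | Y ∈ SA ∧ Y ∈ St η D b ∧ In (2 ^ (i + c)) Y ∧ Y.length = y ∧ TIW.en Y = z ∧ 2 ^ i < 4 * dz Y 0 ∧ Y ∈ Vis l i} ≤
        ENNReal.ofReal (C3 / (4 ^ b * ml b) * (κ0 * (G * Ub b))) * Xb b := by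
    intro WW h1 h2
    have h3 := hS b y z (by omega) {Y | Y ∈ SA ∧ Y ∈ St η D b ∧ In (2 ^ (i + c)) Y ∧ Y.length = y ∧ TIW.en Y = z ∧
      2 ^ i < 4 * dz Y 0 ∧ Y ∈ Vis l i} WW
      (fun W => ENNReal.ofReal ((1 + (W.length : ℝ) / ml b) ^ 4 * κ0)) (by
        intro Y hYc
        have hYc' := hYc
        obtain ⟨y1, y2, y3, y4, y5, y6, y7⟩ := hYc
        obtain ⟨T, t1, t2, t3⟩ := st_cuts hb0 (hb2 b (by omega)) y2
        refine ⟨y4, y5, T, t1, fun k hk => ?_, t3⟩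
        obtain ⟨u1, u2, u3, u4, u5⟩ := t2 k hk
        refine ⟨u1, u2, u3, h1 Y hYc' k u1 u2 u5 u4, ?_⟩
        rw [hκ0]
        exact wt_ge hml (by rw [List.length_drop]; omega))
    refine h3.trans ?_
    have h4 : ∑' W : WW, wE (W : List Bool) * ENNReal.ofReal ((1 + ((W : List Bool).length : ℝ) / ml b) ^ 4 * κ0) =
        ENNReal.ofReal κ0 *
          ∑' W : WW, wE (W : List Bool) * ENNReal.ofReal ((1 + ((W : List Bool).length : ℝ) / ml b) ^ 4) := by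
      rw [← ENNReal.tsum_mul_left]
      refine tsum_congr fun W => ?_
      rw [mul_comm _ κ0, ENNReal.ofReal_mul hκ00]
      ring
    rw [h4]
    refine (mul_le_mul_right (mul_le_mul_right h2 _) _).trans (le_of_eq ?_)
    rw [← mul_assoc, ← mul_assoc, ← ENNReal.ofReal_mul (by positivity), ← ENNReal.ofReal_mul (by positivity)]
    congr 2
    ring
  -- the box of the rest
  have hbox : ∀ k : ℕ, ∀ Y : List Bool, In (2 ^ (i + c)) Y → Y.take k ∈ BU → In (2 ^ (i + (c + 1))) (Y.drop k) := by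
    intro k Y h1 h2
    have h3 := In_bu (P := Y.take k) (W := Y.drop k) h2 (by rwa [List.take_append_drop])
    rwa [show 2 * 2 ^ (i + c) = 2 ^ (i + (c + 1)) by rw [← add_assoc, pow_succ]; ring] at h3
  have hsa : ∀ k : ℕ, ∀ Y : List Bool, Y ∈ SA → Y.take k ∈ BU → Y.drop k ∈ SA := by
    intro k Y h1 h2
    exact SA_drop (P := Y.take k) (by rwa [List.take_append_drop]) h2
  have hJ : i + (c + 1) = b + (m + c + 1) := by omega
  have hWm := hW b (m + c + 1)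
  rw [← hJ] at hWm
  -- the mass of the rests
  have key : gf {Y | Y ∈ SA ∧ Y ∈ St η D b ∧ In (2 ^ (i + c)) Y ∧ Y.length = y ∧ TIW.en Y = z ∧ 2 ^ i < 4 * dz Y 0 ∧
      Y ∈ Vis l i} ≤ ENNReal.ofReal (C3 / (4 ^ b * ml b) * (κ0 * (G * Ub b))) * Xb b := by
    rcases Nat.lt_or_ge i (l + 5) with hl | hl
    · -- no visit
      refine main {W | W ∈ SA ∧ rev W ∈ GT b (η / 4) ∧ In (2 ^ (i + (c + 1))) W} ?_ ?_
      · rintro Y ⟨y1, y2, y3, y4, y5, y6, y7⟩ k k1 k2 k3 k4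
        exact ⟨hsa k Y y1 k2, St_GT hb0 k4, hbox k Y y3 k2⟩
      · refine (ENNReal.tsum_le_tsum fun W => ?_).trans (hWm.trans ?_)
        · refine mul_le_mul_right (ENNReal.ofReal_le_ofReal ?_) _
          refine pow_le_pow_right₀ ?_ (by omega)
          have : 0 ≤ ((W : List Bool).length : ℝ) / ml b := by positivity
          linarith
        · refine mul_le_mul_left (ENNReal.ofReal_le_ofReal (mul_le_mul_of_nonneg_right ?_ hUb.le)) _
          rw [hG, show m + c + 1 + 1 = m + c + 2 by ring]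
          have h1 : s ≤ 4 := by
            rw [hs]
            have : (i : ℝ) ≤ l + 4 := by exact_mod_cast (show i ≤ l + 4 by omega)
            linarith
          have h2 : (16 : ℝ)⁻¹ ≤ (2 : ℝ) ^ ((θ - 2 / 3) * s) := by
            have h3 : (16 : ℝ)⁻¹ = (2 : ℝ) ^ (-4 : ℝ) := by
              rw [Real.rpow_neg (by norm_num), show (4 : ℝ) = ((4 : ℕ) : ℝ) by norm_num, Real.rpow_natCast]
              norm_num
            rw [h3]
            refine Real.rpow_le_rpow_of_exponent_le (by norm_num) ?_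
            nlinarith [mul_nonneg hθ.le hs0]
          have h4 : 0 ≤ B1 ^ m := by positivity
          have h5 : 0 ≤ B2 ^ (m + c + 2) := by positivity
          calc B2 ^ (m + c + 2) = 16⁻¹ * (16 * B2 ^ (m + c + 2)) := by ring
            _ ≤ 16⁻¹ * (B1 ^ m + 16 * B2 ^ (m + c + 2)) := by
                refine mul_le_mul_of_nonneg_left (by linarith) (by norm_num)
            _ ≤ _ := mul_le_mul_of_nonneg_right h2 (by positivity)
    · -- with a visit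
      obtain ⟨Λ, hΛ⟩ : ∃ Λ : ℝ, Λ = (2 : ℝ) ^ (τ * s) := ⟨_, rfl⟩
      have hΛ1 : 1 ≤ Λ := by rw [hΛ]; exact Real.one_le_rpow (by norm_num) (by positivity)
      refine main {W | W ∈ SA ∧ W ∈ St (η / 4) (2 * D) b ∧ In (2 ^ (i + (c + 1))) W ∧ 2 ^ i < 8 * dz W 0 ∧ W ∈ Vis l i} ?_ ?_
      · rintro Y ⟨y1, y2, y3, y4, y5, y6, y7⟩ k k1 k2 k3 k4
        refine ⟨hsa k Y y1 k2, k4, hbox k Y y3 k2, ?_, ?_⟩
        · exact rest_far k2 k3 hi hm48 (by rwa [List.take_append_drop])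
        · exact rest_vis k2 k3 hi hm48 hl (by rwa [List.take_append_drop]) (by rwa [List.take_append_drop])
      · refine (fourth (W0 := {W | W ∈ SA ∧ rev W ∈ GT b (η / 4) ∧ In (2 ^ (i + (c + 1))) W})
          (fun W hW' => ⟨hW'.1, St_GT hb0 hW'.2.1, hW'.2.2.1⟩) hml hΛ1 (show 4 ≤ q by omega)).trans ?_
        have h1 := hR b l i m hi (by omega) (by omega) (by omega) hli
        rw [← hs] at h1
        refine (add_le_add (mul_le_mul_right h1 _) (mul_le_mul_right hWm _)).trans ?_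
        rw [← mul_assoc, ← mul_assoc, ← add_mul, ← ENNReal.ofReal_mul (by positivity), ← ENNReal.ofReal_mul (by positivity),
          ← ENNReal.ofReal_add (by positivity) (by positivity)]
        refine mul_le_mul_left (ENNReal.ofReal_le_ofReal ?_) _
        have e1 : Λ ^ 4 * (2 : ℝ) ^ ((θ / 2 - 2 / 3) * s) = (2 : ℝ) ^ ((θ - 2 / 3) * s) := by
          rw [hΛ, ← Real.rpow_natCast, ← Real.rpow_mul (by norm_num), ← Real.rpow_add (by norm_num)]
          congr 1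
          rw [hτ]
          push_cast
          ring
        have e2 : (Λ ^ (q - 4))⁻¹ ≤ (2 : ℝ) ^ ((θ - 2 / 3) * s) := by
          rw [show q - 4 = n by omega, hΛ, ← Real.rpow_natCast, ← Real.rpow_mul (by norm_num), ← Real.rpow_neg (by norm_num)]
          refine Real.rpow_le_rpow_of_exponent_le (by norm_num) ?_
          have h2 := mul_le_mul_of_nonneg_right hn hs0
          nlinarith [mul_nonneg hθ.le hs0]
        have h4 : (0 : ℝ) ≤ (2 : ℝ) ^ ((θ - 2 / 3) * s) := by positivity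
        have h5 : 0 ≤ B2 ^ (m + c + 2) := by positivity
        calc Λ ^ 4 * (B1 ^ m * (2 : ℝ) ^ ((θ / 2 - 2 / 3) * s) * Ub b) + (Λ ^ (q - 4))⁻¹ * (B2 ^ (m + c + 1 + 1) * Ub b)
            = (Λ ^ 4 * (2 : ℝ) ^ ((θ / 2 - 2 / 3) * s)) * (B1 ^ m * Ub b) +
              (Λ ^ (q - 4))⁻¹ * (B2 ^ (m + c + 2) * Ub b) := by ring
          _ ≤ (2 : ℝ) ^ ((θ - 2 / 3) * s) * (B1 ^ m * Ub b) + (2 : ℝ) ^ ((θ - 2 / 3) * s) * (16 * B2 ^ (m + c + 2) * Ub b) := by
              rw [e1]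
              refine add_le_add le_rfl (mul_le_mul e2 ?_ (by positivity) h4)
              nlinarith [mul_nonneg h5 hUb.le]
          _ = G * Ub b := by rw [hG]; ring
  -- the numbers
  refine key.trans (mul_le_mul' (ENNReal.ofReal_le_ofReal ?_) (Xb_mono (by omega)))
  have hm1 : 1 ≤ m := by omega
  have n1 : B1 ^ m + 16 * B2 ^ (m + c + 2) ≤ A ^ m := by
    have h1 : (16 * B2 ^ (c + 3)) ^ m ≥ 16 * B2 ^ (m + c + 2) := by
      rw [mul_pow, ← pow_mul]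
      refine mul_le_mul (le_self_pow₀ (by norm_num) (by omega)) (pow_le_pow_right₀ hB2 ?_) (by positivity) (by positivity)
      nlinarith
    have h2 : B1 ^ m + (16 * B2 ^ (c + 3)) ^ m ≤ A ^ m := by
      rw [hA]
      exact pow_add_pow_le (by positivity) (by positivity) (by omega)
    linarith
  have n2 : Ub b ≤ Ub i := Ub_mono (by omega)
  have n3 : (4 ^ b * ml b)⁻¹ ≤ 16 ^ m * (4 ^ i * ml i)⁻¹ := by
    have h1 : 4 ^ i * ml i = (4 ^ m * (2 : ℝ) ^ ((4 / 3 : ℝ) * (m : ℝ))) * (4 ^ b * ml b) := by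
      rw [hi, ml_add, pow_add]
      ring
    have h2 : (4 : ℝ) ^ m * (2 : ℝ) ^ ((4 / 3 : ℝ) * (m : ℝ)) ≤ 16 ^ m := by
      have h3 : (2 : ℝ) ^ ((4 / 3 : ℝ) * (m : ℝ)) ≤ 4 ^ m := by
        have h4 : (4 : ℝ) ^ m = (2 : ℝ) ^ ((2 : ℝ) * (m : ℝ)) := by
          rw [Real.rpow_mul (by norm_num), Real.rpow_natCast]
          norm_num
        rw [h4]
        refine Real.rpow_le_rpow_of_exponent_le (by norm_num) ?_
        have : (0 : ℝ) ≤ m := Nat.cast_nonneg m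
        linarith
      calc (4 : ℝ) ^ m * (2 : ℝ) ^ ((4 / 3 : ℝ) * (m : ℝ)) ≤ 4 ^ m * 4 ^ m := mul_le_mul_of_nonneg_left h3 (by positivity)
        _ = 16 ^ m := by rw [← mul_pow]; norm_num
    have h3 : 0 < 4 ^ b * ml b := by positivity
    have h4 : 4 ^ i * ml i ≤ 16 ^ m * (4 ^ b * ml b) := by
      rw [h1]
      exact mul_le_mul_of_nonneg_right h2 h3.le
    have h5 : 0 < 4 ^ i * ml i := by positivity
    rw [← div_eq_mul_inv, le_div_iff₀ h5, inv_mul_le_iff₀ h3]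
    linarith
  have n4 : κ0 ≤ (1 + (y : ℝ) / ml i) ^ (-(4 : ℝ)) := by
    rw [hκ0, Real.rpow_neg (by positivity), show (4 : ℝ) = ((4 : ℕ) : ℝ) by norm_num, Real.rpow_natCast]
    refine inv_anti₀ (by positivity) (pow_le_pow_left₀ (by positivity) ?_ 4)
    have : (y : ℝ) / ml i ≤ (y : ℝ) / ml b := div_le_div_of_nonneg_left (by positivity) hml (ml_le (by omega))
    linarith
  have hw : 0 ≤ (1 + (y : ℝ) / ml i) ^ (-(4 : ℝ)) := by positivity
  have hp : 0 ≤ (2 : ℝ) ^ ((θ - 2 / 3) * s) := by positivity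
  rw [← hs]
  calc C3 / (4 ^ b * ml b) * (κ0 * (G * Ub b))
      = C3 * (4 ^ b * ml b)⁻¹ * κ0 * ((2 : ℝ) ^ ((θ - 2 / 3) * s) * (B1 ^ m + 16 * B2 ^ (m + c + 2))) * Ub b := by
        rw [hG]
        ring
    _ ≤ (C3 + 1) * (16 ^ m * (4 ^ i * ml i)⁻¹) * (1 + (y : ℝ) / ml i) ^ (-(4 : ℝ)) *
          ((2 : ℝ) ^ ((θ - 2 / 3) * s) * A ^ m) * Ub i := by
        gcongr
        linarith
    _ ≤ (C3 + 1) ^ m * (16 ^ m * (4 ^ i * ml i)⁻¹) * (1 + (y : ℝ) / ml i) ^ (-(4 : ℝ)) *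
          ((2 : ℝ) ^ ((θ - 2 / 3) * s) * A ^ m) * Ub i := by
        have h1 : C3 + 1 ≤ (C3 + 1) ^ m := le_self_pow₀ (by linarith) (by omega)
        gcongr
    _ = _ := by
        rw [mul_pow, mul_pow]
        field_simp

end ARM

end HexObs
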