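import Pool.Agent.ARM.DefsT
import Pool.Agent.ARM.InPt
import Pool.Agent.TIP.YBadG

/-!
# ARM2, row T2N (helper9): root pieces with exact end and exact length

* `st_cuts2` : the cuts of the good start, the rest of the word is kept; `w2e_cuts` : the same for W2E;
* **`qPt_of`** : `SmL → PMJ → QPt`; **`qPtBad_of`** : `SmL → PMJ → QBadM κ C → QPtBad κ C`.
-/

set_option autoImplicit false

namespace HexObs

namespace ARM

open Finset TS SDN SIM NTA TIP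

open scoped ENNReal

namespace T2

/-- **the cuts of the good start**, the rest X is kept -/
lemma st_cuts2 {η : ℝ} {D b : ℕ} (hb : b ≠ 0) (hU : 4 ≤ η * Ub b) {S X : List Bool} (hS : S ∈ NPR.GS η D b) :
    ∃ T : Finset ℕ, η / 2 * Ub b ≤ (T.card : ℝ) ∧ (∀ c ∈ T, c ≤ (S ++ X).length ∧ (S ++ X).take c ∈ BU ∧
      hgt ((S ++ X).take c) ≤ 2 ^ b ∧ (∃ S' ∈ NPR.GS (η / 4) (2 * D) b, ∃ R, (S ++ X).drop c = S' ++ (R ++ X)) ∧
      In (D * 2 ^ b) ((S ++ X).take c)) ∧ ∀ c ∈ T, ∀ c' ∈ T, c ≤ c' → ((S ++ X).drop c).take (c' - c) ∈ BU := by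
  obtain ⟨T, h1, h2, h3⟩ := st_cuts hb hU (Y := S) ⟨S, hS, [], by rw [List.append_nil]⟩
  refine ⟨T, h1, fun c hc => ?_, fun c hc c' hc' hcc => ?_⟩
  · obtain ⟨a1, a2, a3, ⟨S', hS', R, hR⟩, a5⟩ := h2 c hc
    have e1 : (S ++ X).take c = S.take c := List.take_append_of_le_length a1
    have e2 : (S ++ X).drop c = S.drop c ++ X := List.drop_append_of_le_length a1
    rw [e1, e2]
    refine ⟨by rw [List.length_append]; omega, a2, a3, ⟨S', hS', R, ?_⟩, a5⟩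
    rw [hR, List.append_assoc]
  · have a1 := (h2 c hc).1
    have b1 := (h2 c' hc').1
    have e2 : (S ++ X).drop c = S.drop c ++ X := List.drop_append_of_le_length a1
    rw [e2, List.take_append_of_le_length (by rw [List.length_drop]; omega)]
    exact h3 c hc c' hc' hcc

lemma GE_mono {η η' : ℝ} {D D' b : ℕ} (hb : b ≠ 0) (hη : η' ≤ η) (hD : D ≤ D') {T : List Bool}
    (h : T ∈ NPR.GE η D b) : T ∈ NPR.GE η' D' b := by
  have h' : if b = 0 then T = [] else ∃ Z1 M, T = Z1 ++ M ∧ Z1 ∈ BU ∧ M ∈ BU ∧ hgt M ≤ 2 ^ b ∧ 2 ^ (b + 1) ≤ hgt Z1 ∧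
    η * Ub b ≤ (nc M : ℝ) ∧ In (D * 2 ^ b) T := h
  rw [if_neg hb] at h'
  obtain ⟨Z1, M, h1, h2, h3, h4, h5, h6, h7⟩ := h'
  show if b = 0 then _ else _
  rw [if_neg hb]
  refine ⟨Z1, M, h1, h2, h3, h4, h5, ?_, fun i hi => Bl_mono _ (Nat.mul_le_mul_right _ hD) (h7 i hi)⟩
  have := mul_le_mul_of_nonneg_right hη (Ub_pos b).le
  linarith

lemma GS_mono {η η' : ℝ} {D D' b : ℕ} (hb : b ≠ 0) (hη : η' ≤ η) (hD : D ≤ D') {T : List Bool}
    (h : T ∈ NPR.GS η D b) : T ∈ NPR.GS η' D' b := by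
  have h' : if b = 0 then T = [] else ∃ N Z3, T = N ++ Z3 ∧ N ∈ BU ∧ Z3 ∈ BU ∧ hgt N ≤ 2 ^ b ∧ 2 ^ (b + 1) ≤ hgt Z3 ∧
    η * Ub b ≤ (nc N : ℝ) ∧ In (D * 2 ^ b) T := h
  rw [if_neg hb] at h'
  obtain ⟨Z1, M, h1, h2, h3, h4, h5, h6, h7⟩ := h'
  show if b = 0 then _ else _
  rw [if_neg hb]
  refine ⟨Z1, M, h1, h2, h3, h4, h5, ?_, fun i hi => Bl_mono _ (Nat.mul_le_mul_right _ hD) (h7 i hi)⟩
  have := mul_le_mul_of_nonneg_right hη (Ub_pos b).le
  linarith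

/-- **the cuts of a root piece** -/
lemma w2e_cuts {η : ℝ} {D b J : ℕ} (hη : 0 < η) (hb : b ≠ 0) (hU : 4 ≤ η * Ub b) {Q : List Bool} (h : Q ∈ W2E η D b J) :
    ∃ T : Finset ℕ, η / 2 * Ub b ≤ (T.card : ℝ) ∧ (∀ c ∈ T, c ≤ Q.length ∧ Q.take c ∈ BU ∧
      hgt (Q.take c) ≤ 2 ^ b ∧ Q.drop c ∈ W2E (η / 4) (2 * D) b (J + 1) ∧ In (D * 2 ^ b) (Q.take c)) ∧
      ∀ c ∈ T, ∀ c' ∈ T, c ≤ c' → (Q.drop c).take (c' - c) ∈ BU := by
  obtain ⟨h1, h2, S, hS, R, Tq, hT, rfl⟩ := h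
  obtain ⟨T, g1, g2, g3⟩ := st_cuts2 hb hU (X := R ++ Tq) hS
  refine ⟨T, g1, fun c hc => ?_, g3⟩
  obtain ⟨a1, a2, a3, ⟨S', hS', R', hR'⟩, a5⟩ := g2 c hc
  refine ⟨a1, a2, a3, ⟨SDN.SA_drop h1 c, ?_, S', hS', R' ++ R, Tq, GE_mono hb (by linarith) (by omega) hT, ?_⟩, a5⟩
  · have e := In_bu (P := (S ++ (R ++ Tq)).take c) (W := (S ++ (R ++ Tq)).drop c) a2 (by rwa [List.take_append_drop])
    have e3 : 2 ^ (b + (J + 1)) = 2 * 2 ^ (b + J) := by rw [← add_assoc, pow_succ]; ring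
    rw [e3]
    exact e
  · rw [hR', List.append_assoc]

/-- the weight in the scale b against the weight in the scale b + J -/
lemma wt_up {b J q : ℕ} {x : ℝ} (hx : 0 ≤ x) :
    (1 + x / ml b) ^ q ≤ ((4 : ℝ) ^ q) ^ J * (1 + x / ml (b + J)) ^ q := by
  rw [← pow_mul, mul_comm q J, pow_mul, ← mul_pow]
  refine pow_le_pow_left₀ (by have := ml_pos b; positivity) ?_ q
  have h1 : ml (b + J) ≤ 4 ^ J * ml b := by
    rw [ml_add]
    refine mul_le_mul_of_nonneg_right ?_ (ml_pos b).le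
    have h2 : ((4 : ℝ)) ^ J = (2 : ℝ) ^ (2 * (J : ℝ)) := by
      rw [Real.rpow_mul (by norm_num), Real.rpow_natCast]
      norm_num
    rw [h2]
    refine Real.rpow_le_rpow_of_exponent_le (by norm_num) ?_
    have : (0 : ℝ) ≤ J := Nat.cast_nonneg J
    linarith
  have h3 := ml_pos b
  have h4 := ml_pos (b + J)
  have h5 : (1 : ℝ) ≤ 4 ^ J := one_le_pow₀ (by norm_num)
  have h6 : x / ml b ≤ 4 ^ J * (x / ml (b + J)) := by
    rw [div_le_iff₀ h3, mul_assoc, div_mul_eq_mul_div, ← mul_div_assoc, le_div_iff₀ h4]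
    calc x * ml (b + J) ≤ x * (4 ^ J * ml b) := mul_le_mul_of_nonneg_left h1 hx
      _ = _ := by ring
  rw [mul_add, mul_one]
  linarith

lemma wt_split {b : ℕ} {q c w y : ℕ} (h : y = c + w) : (1 : ℝ) ≤ (1 + (c : ℝ) / ml b) ^ q * ((1 + (w : ℝ) / ml b) ^ q / (1 + (y : ℝ) / ml b) ^ q) := by
  have hm := ml_pos b
  have hy : (0 : ℝ) < (1 + (y : ℝ) / ml b) ^ q := by positivity
  rw [← mul_div_assoc, le_div_iff₀ hy, one_mul, ← mul_pow]
  refine pow_le_pow_left₀ (by positivity) ?_ q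
  have e : (y : ℝ) / ml b = (c : ℝ) / ml b + (w : ℝ) / ml b := by
    rw [h]
    push_cast
    ring
  have h1 : (0 : ℝ) ≤ (c : ℝ) / ml b := by positivity
  have h2 : (0 : ℝ) ≤ (w : ℝ) / ml b := by positivity
  rw [e]
  nlinarith [mul_nonneg h1 h2]

/-- moments of the root pieces in the scale b -/
lemma pmj_b (hP : PMJ) (η : ℝ) (D q : ℕ) (hη : 0 < η) : ∃ K : ℝ, 1 ≤ K ∧ ∀ b J : ℕ, 1 ≤ b →
    ∑' A : W2E η D b J, wE (A : List Bool) * ENNReal.ofReal ((1 + ((A : List Bool).length : ℝ) / ml b) ^ q) ≤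
      ENNReal.ofReal (K ^ (J + 1) * Ub b) := by
  obtain ⟨C, hC, h⟩ := hP η D q hη
  refine ⟨C * 4 ^ q, by
    have : (1 : ℝ) ≤ 4 ^ q := one_le_pow₀ (by norm_num)
    nlinarith, fun b J hb => ?_⟩
  have hU := Ub_pos b
  calc ∑' A : W2E η D b J, wE (A : List Bool) * ENNReal.ofReal ((1 + ((A : List Bool).length : ℝ) / ml b) ^ q)
      ≤ ∑' A : W2E η D b J, ENNReal.ofReal (((4 : ℝ) ^ q) ^ J) *
          (wE (A : List Bool) * ENNReal.ofReal ((1 + ((A : List Bool).length : ℝ) / ml (b + J)) ^ q)) := by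
        refine ENNReal.tsum_le_tsum fun A => ?_
        have h1 := wt_up (b := b) (J := J) (q := q) (x := ((A : List Bool).length : ℝ)) (Nat.cast_nonneg _)
        refine (mul_le_mul' le_rfl (ENNReal.ofReal_le_ofReal h1)).trans (le_of_eq ?_)
        rw [ENNReal.ofReal_mul (by positivity)]
        ring
    _ = ENNReal.ofReal (((4 : ℝ) ^ q) ^ J) * _ := ENNReal.tsum_mul_left
    _ ≤ ENNReal.ofReal (((4 : ℝ) ^ q) ^ J) * ENNReal.ofReal (C ^ (J + 1) * Ub b) := mul_le_mul' le_rfl (h b J hb)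
    _ ≤ _ := by
        rw [← ENNReal.ofReal_mul (by positivity)]
        refine ENNReal.ofReal_le_ofReal ?_
        rw [← mul_assoc]
        refine mul_le_mul_of_nonneg_right ?_ hU.le
        rw [mul_pow C, mul_comm]
        refine mul_le_mul_of_nonneg_left ?_ (by positivity)
        exact pow_le_pow_right₀ (one_le_pow₀ (by norm_num)) (Nat.le_succ J)

/-- **the smoothing of the root pieces**, any class -/
lemma smooth_w (hS : SmL) (η : ℝ) (D q : ℕ) (hη : 0 < η) : ∃ (C : ℝ) (b0 : ℕ), 0 < C ∧ 1 ≤ b0 ∧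
    ∀ (b J y : ℕ) (z : Pt) (F G : Set (List Bool)), b0 ≤ b → (∀ Q ∈ F, Q ∈ W2E η D b J) →
    (∀ Q ∈ F, ∀ c, c ≤ Q.length → In (D * 2 ^ b) (Q.take c) → Q.take c ∈ BU → Q.drop c ∈ G) →
    gf {Q | Q ∈ F ∧ Q.length = y ∧ TIW.en Q = z} ≤ ENNReal.ofReal (C / (4 ^ b * ml b) / (1 + (y : ℝ) / ml b) ^ q) *
      ∑' W : {W | W ∈ W2E (η / 4) (2 * D) b (J + 1) ∧ W ∈ G}, wE (W : List Bool) *
        ENNReal.ofReal ((1 + ((W : List Bool).length : ℝ) / ml b) ^ q) := by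
  obtain ⟨C, b1, hC, h⟩ := hS (η / 2) q (by positivity)
  obtain ⟨bU, hbU⟩ : ∃ bU : ℕ, ∀ b, bU ≤ b → 4 ≤ η * Ub b := by
    obtain ⟨B, hB⟩ := Ub_big
    obtain ⟨n, hn⟩ := exists_nat_ge (4 / η)
    refine ⟨B * n, fun b hb => ?_⟩
    have h1 := hB b n hb
    have h2 : (n : ℝ) ≤ 8 ^ n := by
      exact_mod_cast (Nat.lt_pow_self (by norm_num : 1 < 8)).le
    have h3 : 4 / η ≤ Ub b := hn.trans (h2.trans h1)
    rw [div_le_iff₀ hη] at h3
    linarith
  refine ⟨C, b1 + bU + 1, hC, by omega, fun b J y z F G hb hF hG => ?_⟩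
  have hm := ml_pos b
  have hb0 : b ≠ 0 := by omega
  have hU := hbU b (by omega)
  have hy : (0 : ℝ) < (1 + (y : ℝ) / ml b) ^ q := by positivity
  have h1 := h b y z (by omega) {Q | Q ∈ F ∧ Q.length = y ∧ TIW.en Q = z}
    {W | W ∈ W2E (η / 4) (2 * D) b (J + 1) ∧ W ∈ G}
    (fun W => ENNReal.ofReal ((1 + (W.length : ℝ) / ml b) ^ q / (1 + (y : ℝ) / ml b) ^ q)) ?_
  · refine h1.trans (le_of_eq ?_)
    rw [← ENNReal.tsum_mul_left, ← ENNReal.tsum_mul_left]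
    refine tsum_congr fun W => ?_
    rw [div_eq_mul_inv (((1 : ℝ) + (((W : List Bool).length : ℕ) : ℝ) / ml b) ^ q),
      ENNReal.ofReal_mul (by positivity), div_eq_mul_inv (C / (4 ^ b * ml b)), ENNReal.ofReal_mul (by positivity)]
    ring
  · rintro Q ⟨hQF, hQy, hQz⟩
    obtain ⟨T, g1, g2, g3⟩ := w2e_cuts hη hb0 hU (hF Q hQF)
    refine ⟨hQy, hQz, T, g1, fun c hc => ?_, g3⟩
    obtain ⟨a1, a2, a3, a4, a5⟩ := g2 c hc
    refine ⟨a1, a2, a3, ⟨a4, hG Q hQF c a1 a5 a2⟩, ?_⟩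
    rw [← ENNReal.ofReal_mul (by positivity), ← ENNReal.ofReal_one]
    refine ENNReal.ofReal_le_ofReal ?_
    exact wt_split (by rw [List.length_drop]; omega)

end T2

open T2

/-- **row QPt** -/
theorem qPt_of (hS : SmL) (hP : PMJ) : QPt := by
  intro η D c q hη
  obtain ⟨C, b0, hC, hb0, h⟩ := smooth_w hS η D q hη
  obtain ⟨K, hK, hP⟩ := pmj_b hP (η / 4) (2 * D) q (by positivity)
  refine ⟨C * K ^ (c + 2), b0, by positivity, fun b y z hb => ?_⟩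
  have hm := ml_pos b
  have hU := Ub_pos b
  refine (h b c y z (W2E η D b c) Set.univ hb (fun Q hQ => hQ) (fun _ _ _ _ _ _ => Set.mem_univ _)).trans ?_
  have h1 : ∑' W : {W | W ∈ W2E (η / 4) (2 * D) b (c + 1) ∧ W ∈ (Set.univ : Set (List Bool))}, wE (W : List Bool) *
        ENNReal.ofReal ((1 + ((W : List Bool).length : ℝ) / ml b) ^ q) ≤ ENNReal.ofReal (K ^ (c + 1 + 1) * Ub b) := by
    refine le_trans ?_ (hP b (c + 1) (by omega))
    exact ENNReal.tsum_mono_subtype (fun W => wE W * ENNReal.ofReal ((1 + (W.length : ℝ) / ml b) ^ q)) fun W hW => hW.1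
  refine (mul_le_mul' le_rfl h1).trans (le_of_eq ?_)
  rw [← ENNReal.ofReal_mul (by positivity)]
  congr 1
  ring

namespace T2

/-- a long factor survives when a small beginning is removed -/
lemma Lz_drop {κ : ℝ} {C b' : ℕ} {L : List Bool} {c E m n : ℕ} (hc : In E (L.take c)) (hcl : c ≤ L.length)
    (h : L ∈ Lz κ C b' m) (hm : 2 * (n * 2 ^ b') + 4 * E ≤ m * 2 ^ b') : L.drop c ∈ Lz κ C b' n := by
  obtain ⟨X, Q, Y, rfl, h2, h3⟩ := h
  rcases Nat.lt_or_ge c X.length with h4 | h4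
  · rw [List.drop_append_of_le_length h4.le]
    refine ⟨X.drop c, Q, Y, rfl, h2, fun hI => h3 (YB.In_mono ?_ hI)⟩
    have : n * 2 ^ b' ≤ 2 * (n * 2 ^ b') := by omega
    omega
  · obtain ⟨k, rfl⟩ : ∃ k, c = X.length + k := ⟨c - X.length, by omega⟩
    have hl : (X ++ (Q ++ Y)).length = X.length + (Q.length + Y.length) := by simp only [List.length_append]
    -- the vertices of Q
    obtain ⟨u, hu, -, hf⟩ := drop_frame' (X ++ (Q ++ Y)) X.length
    rw [List.drop_left] at hf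
    have key : ∀ i, i ≤ k → i ≤ Q.length → |(vx oo up Q i).1| ≤ ((4 * E : ℕ) : ℤ) ∧ |(vx oo up Q i).2| ≤ ((4 * E : ℕ) : ℤ) := by
      intro i hi hiQ
      have e0 : ∀ j, j ≤ X.length + k → |(vx oo up (X ++ (Q ++ Y)) j).1| ≤ (E : ℤ) ∧ |(vx oo up (X ++ (Q ++ Y)) j).2| ≤ (E : ℤ) := by
        intro j hj
        have h5 := RevM.In_coord hc (i := j) (by rw [List.length_take]; omega)
        have h6 : vx oo up ((X ++ (Q ++ Y)).take (X.length + k)) j = vx oo up (X ++ (Q ++ Y)) j := by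
          conv_rhs => rw [← List.take_append_drop (X.length + k) (X ++ (Q ++ Y))]
          exact (vx_append (by rw [List.length_take]; omega)).symm
        rwa [h6] at h5
      have h5 := e0 (X.length + i) (by omega)
      have h6 := e0 X.length (by omega)
      have h7 := hf i
      rw [vx_append (t := Q) (s := Y) (by omega)] at h7
      obtain ⟨g1, g2⟩ := RevM.coord h7 h5.1 h6.1 h5.2 h6.2
      have h8 := YB.mul_coord' hu g1 g2
      push_cast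
      constructor <;> [have := h8.1; have := h8.2] <;> linarith
    rcases Nat.lt_or_ge Q.length k with h5 | h5
    · exfalso
      apply h3
      rw [YB.In_iff]
      intro i hi
      obtain ⟨g1, g2⟩ := key i (by omega) hi
      have h6 : ((4 * E : ℕ) : ℤ) ≤ ((m * 2 ^ b' : ℕ) : ℤ) := by exact_mod_cast (by omega)
      exact ⟨g1.trans h6, g2.trans h6⟩
    · rw [List.drop_length_add_append, List.drop_append_of_le_length h5]
      refine ⟨[], Q.drop k, Y, rfl, ?_, YB.not_In_drop h3 key (by omega)⟩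
      have h6 : Q.take k ++ Q.drop k ∈ Nz κ C b' := by rwa [List.take_append_drop]
      exact YB.Nz_suf h6

/-- a rare part of a family with moments -/
lemma rare_mom {W : Set (List Bool)} {B : Set (List Bool)} {f : List Bool → ℝ} (hf : ∀ t, 0 ≤ f t) {g M lam : ℝ}
    (hl : 0 < lam) (hg : 0 ≤ g) (hM : 0 ≤ M) (hB : B ⊆ W) (h1 : gf B ≤ ENNReal.ofReal g)
    (h2 : ∑' t : W, wE (t : List Bool) * ENNReal.ofReal (f t ^ 2) ≤ ENNReal.ofReal M) :
    ∑' t : B, wE (t : List Bool) * ENNReal.ofReal (f t) ≤ ENNReal.ofReal (lam * g + lam⁻¹ * M) := by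
  calc ∑' t : B, wE (t : List Bool) * ENNReal.ofReal (f t)
      ≤ ∑' t : B, (ENNReal.ofReal lam * wE (t : List Bool) + ENNReal.ofReal lam⁻¹ * (wE (t : List Bool) * ENNReal.ofReal (f t ^ 2))) := by
        refine ENNReal.tsum_le_tsum fun t => ?_
        have h3 : f t ≤ lam + lam⁻¹ * f t ^ 2 := by
          have h4 : 0 ≤ (f t - lam) ^ 2 := sq_nonneg _
          have h5 : f t * lam ≤ lam * lam + f t ^ 2 := by nlinarith [hf t, mul_nonneg (hf t) hl.le]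
          have h6 : lam⁻¹ * (f t * lam) ≤ lam⁻¹ * (lam * lam + f t ^ 2) := mul_le_mul_of_nonneg_left h5 (by positivity)
          have e1 : lam⁻¹ * (f t * lam) = f t := by field_simp
          have e2 : lam⁻¹ * (lam * lam + f t ^ 2) = lam + lam⁻¹ * f t ^ 2 := by field_simp
          rwa [e1, e2] at h6
        refine (mul_le_mul' le_rfl (ENNReal.ofReal_le_ofReal h3)).trans (le_of_eq ?_)
        rw [ENNReal.ofReal_add hl.le (by positivity), ENNReal.ofReal_mul (by positivity)]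
        ring
    _ = ENNReal.ofReal lam * gf B + ENNReal.ofReal lam⁻¹ * ∑' t : B, wE (t : List Bool) * ENNReal.ofReal (f t ^ 2) := by
        rw [ENNReal.tsum_add, ENNReal.tsum_mul_left, ENNReal.tsum_mul_left]
        rfl
    _ ≤ ENNReal.ofReal lam * ENNReal.ofReal g + ENNReal.ofReal lam⁻¹ * ENNReal.ofReal M := by
        refine add_le_add (mul_le_mul' le_rfl h1) (mul_le_mul' le_rfl (le_trans ?_ h2))
        exact ENNReal.tsum_mono_subtype (fun t => wE t * ENNReal.ofReal (f t ^ 2)) hB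
    _ = _ := by
        rw [← ENNReal.ofReal_mul hl.le, ← ENNReal.ofReal_mul (by positivity), ← ENNReal.ofReal_add (by positivity) (by positivity)]

end T2

/-- **row QPtBad** -/
theorem qPtBad_of {κ : ℝ} {C : ℕ} (hS : SmL) (hP : PMJ) (hB : QBadM κ C) : QPtBad κ C := by
  intro η D a c1 q hη
  obtain ⟨C1, b1, hC1, hb1, h⟩ := smooth_w hS η D q hη
  obtain ⟨K, hK, hP⟩ := pmj_b hP (η / 4) (2 * D) (2 * q) (by positivity)
  obtain ⟨s, hs⟩ : ∃ s : ℕ, K ^ 2 * 2 ^ (a + 1) < (2 : ℝ) ^ s := pow_unbounded_of_one_lt _ one_lt_two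
  obtain ⟨J1, b2, hB⟩ := hB (η / 4) (2 * D) (s + (a + 1)) (c1 + 4) (by positivity)
  obtain ⟨J2, hJ2⟩ : ∃ J2 : ℕ, C1 * 2 < (2 : ℝ) ^ J2 := pow_unbounded_of_one_lt _ one_lt_two
  obtain ⟨d, hd⟩ : ∃ d : ℕ, 8 * D + 8 < 2 ^ d := ⟨8 * D + 8, Nat.lt_two_pow_self⟩
  refine ⟨J1 + J2 + (c1 + d) + 1, b1 + b2, fun b J y z hb hJ => ?_⟩
  have hm := ml_pos b
  have hU := Ub_pos b
  obtain ⟨G, hG⟩ : ∃ G : Set (List Bool), G = {W | ∃ b' n : ℕ, (b' = b ∨ b' = b + 1) ∧ 2 ^ (J + 1) ≤ n * 2 ^ (c1 + 4) ∧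
      W ∈ Lz κ C b' n} := ⟨_, rfl⟩
  have h1 := h b J y z (W2B κ C η D b J c1) G (by omega) (fun Q hQ => hQ.1) ?_
  · refine h1.trans ?_
    have h2 := rare_mom (W := W2E (η / 4) (2 * D) b (J + 1)) (B := {W | W ∈ W2E (η / 4) (2 * D) b (J + 1) ∧ W ∈ G})
      (f := fun t => (1 + (t.length : ℝ) / ml b) ^ q) (fun t => by positivity)
      (g := (1 / 2) ^ ((s + (a + 1)) * (J + 1)) * Ub b) (M := K ^ (J + 1 + 1) * Ub b) (lam := (2 : ℝ) ^ (s * (J + 1)))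
      (by positivity) (by positivity) (by positivity) (fun W hW => hW.1)
      (by rw [hG]; exact hB b (J + 1) (by omega) (by omega))
      (by
        refine le_trans (ENNReal.tsum_le_tsum fun t => ?_) (hP b (J + 1) (by omega))
        rw [← pow_mul, mul_comm q 2])
    refine (mul_le_mul' le_rfl h2).trans ?_
    rw [← ENNReal.ofReal_mul (by positivity)]
    refine ENNReal.ofReal_le_ofReal ?_
    -- the numbers
    have e1 : (2 : ℝ) ^ (s * (J + 1)) * ((1 / 2) ^ ((s + (a + 1)) * (J + 1)) * Ub b) = (1 / 2) ^ ((a + 1) * (J + 1)) * Ub b := by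
      rw [add_mul, pow_add, one_div, inv_pow, inv_pow]
      field_simp
    have e2 : ((2 : ℝ) ^ (s * (J + 1)))⁻¹ * (K ^ (J + 1 + 1) * Ub b) ≤ (1 / 2) ^ ((a + 1) * (J + 1)) * Ub b := by
      rw [← mul_assoc]
      refine mul_le_mul_of_nonneg_right ?_ hU.le
      have e3 : K ^ (J + 1 + 1) ≤ (K ^ 2) ^ (J + 1) := by
        rw [← pow_mul]
        exact pow_le_pow_right₀ hK (by omega)
      have e4 : (K ^ 2) ^ (J + 1) * (2 ^ (a + 1)) ^ (J + 1) ≤ ((2 : ℝ) ^ s) ^ (J + 1) := by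
        rw [← mul_pow]
        exact pow_le_pow_left₀ (by positivity) hs.le _
      rw [inv_mul_le_iff₀ (by positivity), one_div, inv_pow, ← div_eq_mul_inv, le_div_iff₀ (by positivity), pow_mul (2 : ℝ) s,
        pow_mul (2 : ℝ) (a + 1)]
      exact (mul_le_mul_of_nonneg_right e3 (by positivity)).trans e4
    have e5 : C1 * (2 * (1 / 2 : ℝ) ^ ((a + 1) * (J + 1))) ≤ (1 / 2) ^ (a * J) := by
      have e6 : (1 / 2 : ℝ) ^ ((a + 1) * (J + 1)) ≤ (1 / 2) ^ (a * J) * (1 / 2) ^ J2 := by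
        rw [← pow_add]
        refine pow_le_pow_of_le_one (by norm_num) (by norm_num) ?_
        nlinarith
      have e7 : C1 * 2 * (1 / 2 : ℝ) ^ J2 ≤ 1 := by
        rw [one_div, inv_pow, ← div_eq_mul_inv, div_le_one (by positivity)]
        exact hJ2.le
      calc C1 * (2 * (1 / 2 : ℝ) ^ ((a + 1) * (J + 1))) ≤ C1 * (2 * ((1 / 2) ^ (a * J) * (1 / 2) ^ J2)) := by gcongr
        _ = (C1 * 2 * (1 / 2 : ℝ) ^ J2) * (1 / 2) ^ (a * J) := by ring
        _ ≤ 1 * (1 / 2) ^ (a * J) := mul_le_mul_of_nonneg_right e7 (by positivity)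
        _ = _ := one_mul _
    rw [e1]
    calc C1 / (4 ^ b * ml b) / (1 + (y : ℝ) / ml b) ^ q * ((1 / 2) ^ ((a + 1) * (J + 1)) * Ub b +
          ((2 : ℝ) ^ (s * (J + 1)))⁻¹ * (K ^ (J + 1 + 1) * Ub b))
        ≤ C1 / (4 ^ b * ml b) / (1 + (y : ℝ) / ml b) ^ q * ((1 / 2) ^ ((a + 1) * (J + 1)) * Ub b +
          (1 / 2) ^ ((a + 1) * (J + 1)) * Ub b) := by gcongr
      _ = (C1 * (2 * (1 / 2 : ℝ) ^ ((a + 1) * (J + 1)))) * (Ub b / (4 ^ b * ml b) / (1 + (y : ℝ) / ml b) ^ q) := by ring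
      _ ≤ (1 / 2) ^ (a * J) * (Ub b / (4 ^ b * ml b) / (1 + (y : ℝ) / ml b) ^ q) :=
          mul_le_mul_of_nonneg_right e5 (by positivity)
      _ = _ := by ring
  · rintro Q ⟨hQ, b', n, hb', hn, hL⟩ c hc hin -
    rw [hG]
    have hn8 : 8 * D + 8 ≤ n := by
      have h5 : 2 ^ (c1 + d) ≤ 2 ^ J := Nat.pow_le_pow_right (by norm_num) (by omega)
      have h6 : 2 ^ (c1 + d) = 2 ^ d * 2 ^ c1 := by rw [pow_add, mul_comm]
      rw [h6] at h5
      have h7 := Nat.le_of_mul_le_mul_right (h5.trans hn) (by positivity)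
      omega
    have hbb : 2 ^ b ≤ 2 ^ b' := Nat.pow_le_pow_right (by norm_num) (by omega)
    have h8 : 2 * (n / 4) + 4 * D ≤ n := by omega
    refine ⟨b', n / 4, hb', ?_, Lz_drop hin hc hL ?_⟩
    · have h9 : n ≤ (n / 4) * 8 := by omega
      have e3 : 2 ^ (J + 1) = 2 * 2 ^ J := by rw [pow_succ, mul_comm]
      have e4 : n / 4 * 2 ^ (c1 + 4) = 2 * (n / 4 * 8 * 2 ^ c1) := by rw [pow_add]; ring
      rw [e3, e4]
      have := Nat.mul_le_mul_right (2 ^ c1) h9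
      omega
    · have e5 := Nat.mul_le_mul_right (2 ^ b') h8
      have e6 := Nat.mul_le_mul_left (4 * D) hbb
      calc 2 * (n / 4 * 2 ^ b') + 4 * (D * 2 ^ b) = 2 * (n / 4 * 2 ^ b') + 4 * D * 2 ^ b := by ring
        _ ≤ 2 * (n / 4 * 2 ^ b') + 4 * D * 2 ^ b' := by omega
        _ = (2 * (n / 4) + 4 * D) * 2 ^ b' := by ring
        _ ≤ _ := e5

end ARM

end HexObs
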