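import Pool.Agent.ARM.RootN1
import Pool.Agent.ARM.QPt
import Pool.Agent.TIP.UaZ

/-!
# ARM2, row T2N (helper9): **case A**, the inner bound (both ends of the closed word are small, few good cuts at the end)

* `cut_sum`, `letter_sum`, `pair_split` : sums over cuts;
* `few_mom` : bridges with few free cuts, with the weight of the length;
* **`caseA`**.
-/

set_option autoImplicit false

namespace HexObs

namespace ARM

open Finset TS SDN SIM NTA TIP

open TIP.Nf (cz mem_cz nc_cz rank_lt rank_sum card_rank cz_split in_mid in_app in_mono Dt NeW)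

open scoped ENNReal

open BM (Lb gf_Lb)

namespace T2

/-- **the sum over the cuts** -/
lemma cut_sum {A Fw : Set (List Bool)} {Wc : List Bool → Set (List Bool)} {q : ℝ≥0∞}
    (h : ∀ Y ∈ A, ∃ S : Finset ℕ, q ≤ (S.card : ℝ≥0∞) ∧ ∀ k ∈ S, k ≤ Y.length ∧ Y.take k ∈ Fw ∧ Y.drop k ∈ Wc (Y.take k)) :
    q * gf A ≤ ∑' V : Fw, wE (V : List Bool) * gf (Wc V) := by
  classical
  have h1 : ∀ Y ∈ A, q ≤ ∑' V : List Bool, ∑' W : List Bool, (if (V ∈ Fw ∧ W ∈ Wc V) ∧ V ++ W = Y then (1 : ℝ≥0∞) else 0) := by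
    intro Y hY
    obtain ⟨S, hS, hk⟩ := h Y hY
    obtain ⟨F, hF⟩ : ∃ F : List Bool × List Bool → ℝ≥0∞, F = fun x =>
      if (x.1 ∈ Fw ∧ x.2 ∈ Wc x.1) ∧ x.1 ++ x.2 = Y then 1 else 0 := ⟨_, rfl⟩
    have hinj : Set.InjOn (fun k : ℕ => (Y.take k, Y.drop k)) (S : Set ℕ) := by
      intro k hk1 k' hk2 he
      have h1 := congrArg (fun x : List Bool × List Bool => x.1.length) he
      simp only [List.length_take] at h1
      have := (hk k (mem_coe.1 hk1)).1
      have := (hk k' (mem_coe.1 hk2)).1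
      omega
    calc q ≤ (S.card : ℝ≥0∞) := hS
      _ = ∑ k ∈ S, F (Y.take k, Y.drop k) := by
          have h2 : ∀ k ∈ S, F (Y.take k, Y.drop k) = 1 := by
            intro k hk'
            obtain ⟨a1, a2, a3⟩ := hk k hk'
            rw [hF]
            simp only [List.take_append_drop, and_true]
            rw [if_pos ⟨a2, a3⟩]
          rw [sum_congr rfl h2, sum_const, nsmul_eq_mul, mul_one]
      _ = ∑ x ∈ S.image (fun k : ℕ => (Y.take k, Y.drop k)), F x := (sum_image (f := F) hinj).symm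
      _ ≤ ∑' x, F x := ENNReal.sum_le_tsum _
      _ = _ := by rw [ENNReal.tsum_prod', hF]
  have hg : ∀ V : List Bool, gf (Wc V) = ∑' W : List Bool, (if W ∈ Wc V then wE W else 0) := by
    intro V
    unfold gf
    rw [_root_.tsum_subtype _ (fun t => wE t)]
    exact tsum_congr fun t => by rw [Set.indicator_apply]
  calc q * gf A = ∑' Y : A, q * wE (Y : List Bool) := by
        unfold gf
        rw [ENNReal.tsum_mul_left]
    _ ≤ ∑' Y : A, ∑' V : List Bool, ∑' W : List Bool,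
          wE (Y : List Bool) * (if (V ∈ Fw ∧ W ∈ Wc V) ∧ V ++ W = (Y : List Bool) then (1 : ℝ≥0∞) else 0) := by
        refine ENNReal.tsum_le_tsum fun Y => ?_
        rw [mul_comm]
        refine (mul_le_mul' le_rfl (h1 _ Y.2)).trans (le_of_eq ?_)
        rw [← ENNReal.tsum_mul_left]
        exact tsum_congr fun V => by rw [ENNReal.tsum_mul_left]
    _ ≤ ∑' V : Fw, wE (V : List Bool) * gf (Wc V) := by
        rw [ENNReal.tsum_comm, _root_.tsum_subtype Fw (fun V => wE V * gf (Wc V))]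
        refine ENNReal.tsum_le_tsum fun V => ?_
        by_cases hV : V ∈ Fw
        · rw [Set.indicator_of_mem hV, ENNReal.tsum_comm, hg, ← ENNReal.tsum_mul_left]
          refine ENNReal.tsum_le_tsum fun W => ?_
          by_cases hW : W ∈ Wc V
          · rw [if_pos hW]
            by_cases hA : V ++ W ∈ A
            · rw [tsum_eq_single (⟨V ++ W, hA⟩ : A)]
              · rw [if_pos ⟨⟨hV, hW⟩, rfl⟩, mul_one, wE_append]
              · intro s hs
                rw [if_neg, mul_zero]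
                rintro ⟨-, h3⟩
                exact hs (Subtype.ext h3.symm)
            · refine le_of_eq_of_le (ENNReal.tsum_eq_zero.2 fun s => ?_) zero_le
              rw [if_neg, mul_zero]
              rintro ⟨-, h3⟩
              exact hA (by rw [h3]; exact s.2)
          · refine le_of_eq_of_le (ENNReal.tsum_eq_zero.2 fun s => ?_) zero_le
            rw [if_neg, mul_zero]
            rintro ⟨h3, -⟩
            exact hW h3.2
        · refine le_of_eq_of_le (ENNReal.tsum_eq_zero.2 fun s => ENNReal.tsum_eq_zero.2 fun W => ?_) zero_le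
          rw [if_neg, mul_zero]
          rintro ⟨h3, -⟩
          exact hV h3.1

/-- one more letter -/
lemma letter_sum {A B : Set (List Bool)} (h : ∀ W ∈ A, ∃ β : Bool, W ++ [β] ∈ B) : gf A ≤ ENNReal.ofReal xc⁻¹ * gf B := by
  classical
  have hxc := xc_pos
  have hone : ENNReal.ofReal xc⁻¹ * ENNReal.ofReal xc = 1 := by
    rw [← ENNReal.ofReal_mul (by positivity), inv_mul_cancel₀ hxc.ne', ENNReal.ofReal_one]
  choose! β hβ using h
  obtain ⟨g, hg⟩ : ∃ g : A → B, g = fun W => ⟨(W : List Bool) ++ [β W], hβ _ W.2⟩ := ⟨_, rfl⟩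
  have hinj : Function.Injective g := by
    rintro ⟨L, hL⟩ ⟨L', hL'⟩ he
    rw [hg] at he
    simp only [Subtype.mk.injEq] at he
    have h3 := List.append_inj_left' he rfl
    exact Subtype.ext h3
  calc gf A = ∑' W : A, ENNReal.ofReal xc⁻¹ * (fun t : B => wE (t : List Bool)) (g W) := by
        unfold gf
        refine tsum_congr fun W => ?_
        rw [hg]
        simp only
        rw [wE_append, wE_letter]
        calc wE (W : List Bool) = (ENNReal.ofReal xc⁻¹ * ENNReal.ofReal xc) * wE (W : List Bool) := by rw [hone, one_mul]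
          _ = _ := by ring
    _ = ENNReal.ofReal xc⁻¹ * ∑' W : A, (fun t : B => wE (t : List Bool)) (g W) := ENNReal.tsum_mul_left
    _ ≤ _ := mul_le_mul' le_rfl (ENNReal.tsum_comp_le_tsum_of_injective hinj (fun t : B => wE (t : List Bool)))

/-- a sum over pairs -/
lemma pair_split (R : Set (List Bool × List Bool)) (F : List Bool → List Bool → ℝ≥0∞) :
    ∑' p : R, F (p : List Bool × List Bool).1 (p : List Bool × List Bool).2 = ∑' a : List Bool, ∑' b : {b | (a, b) ∈ R}, F a b := by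
  rw [_root_.tsum_subtype R (fun p : List Bool × List Bool => F p.1 p.2), ENNReal.tsum_prod']
  refine tsum_congr fun a => ?_
  rw [_root_.tsum_subtype {b | (a, b) ∈ R} (fun b => F a b)]
  refine tsum_congr fun b => ?_
  by_cases h : (a, b) ∈ R
  · rw [Set.indicator_of_mem h, Set.indicator_of_mem (show b ∈ {b | (a, b) ∈ R} from h)]
  · rw [Set.indicator_of_notMem h, Set.indicator_of_notMem (show b ∉ {b | (a, b) ∈ R} from h)]

/-- the bridges with few free cuts behind A -/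
def Fw (κ0 : ℝ) (r b : ℕ) (A : List Bool) : Set (List Bool) :=
  {V | V ∈ BU ∧ hgt V ≤ 2 ^ b ∧ A ++ V ∈ SA ∧ (frN (Far6 r) A V : ℝ) < κ0}

/-- few free cuts, with the weight of the length -/
lemma few_mom {ε : ℝ} (hε : 0 < ε) : ∃ (κ1 : ℝ) (a0 b0 : ℕ), 0 < κ1 ∧ a0 ≤ b0 ∧ ∀ b, b0 ≤ b → ∀ A : List Bool,
    ∑' V : Fw (κ1 * Ub b) (2 ^ (b - a0)) b A, wE (V : List Bool) * ENNReal.ofReal ((1 + ((V : List Bool).length : ℝ) / ml b) ^ 4) ≤
      ENNReal.ofReal (ε * Ub b) := by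
  obtain ⟨Cu, κ, r0, hCu, hκ, hua⟩ := TIP.uah6
  obtain ⟨c, C, hc, hC, hU⟩ := JNT.JoT.Ub_two
  obtain ⟨C8, hC8, hmom⟩ := buMom 8
  obtain ⟨lam, hlam⟩ : ∃ lam : ℝ, lam = 2 * C8 / ε := ⟨_, rfl⟩
  have hl0 : 0 < lam := by rw [hlam]; positivity
  obtain ⟨t, ht⟩ : ∃ t : ℝ, t = (2 : ℝ) ^ (3 / 4 : ℝ) := ⟨_, rfl⟩
  have ht1 : 1 < t := by
    rw [ht]
    exact Real.one_lt_rpow (by norm_num) (by norm_num)
  have ht0 : 0 < t := by linarith
  obtain ⟨a0, ha0⟩ : ∃ a0 : ℕ, lam * Cu * (C / c) * (2 / ε) < t ^ a0 := pow_unbounded_of_one_lt _ ht1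
  refine ⟨κ * (c / C) / t ^ a0, a0, a0 + r0, by positivity, by omega, fun b hb A => ?_⟩
  have hUb := Ub_pos b
  have hm := ml_pos b
  -- the smaller scale
  obtain ⟨k, rfl⟩ : ∃ k, b = k + a0 := ⟨b - a0, by omega⟩
  have hk : k + a0 - a0 = k := by omega
  rw [hk]
  have e1 : (2 : ℝ) ^ (3 / 4 * ((k + a0 : ℕ) : ℝ)) = (2 : ℝ) ^ (3 / 4 * (k : ℝ)) * t ^ a0 := by
    rw [ht, ← Real.rpow_natCast ((2 : ℝ) ^ (3 / 4 : ℝ)), ← Real.rpow_mul (by norm_num), ← Real.rpow_add (by norm_num)]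
    congr 1
    push_cast
    ring
  obtain ⟨X, hX⟩ : ∃ X : ℝ, X = (2 : ℝ) ^ (3 / 4 * (k : ℝ)) := ⟨_, rfl⟩
  have hX0 : 0 < X := by rw [hX]; positivity
  have h1 := hU k
  have h2 := hU (k + a0)
  rw [e1, ← hX] at h2
  rw [← hX] at h1
  have hta : 0 < t ^ a0 := by positivity
  -- upper and lower bound of Ub k
  have hlo : c / C / t ^ a0 * Ub (k + a0) ≤ Ub k := by
    calc c / C / t ^ a0 * Ub (k + a0) ≤ c / C / t ^ a0 * (C * (X * t ^ a0)) := mul_le_mul_of_nonneg_left h2.2 (by positivity)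
      _ = c * X := by field_simp
      _ ≤ Ub k := h1.1
  have hup : Ub k ≤ C / c / t ^ a0 * Ub (k + a0) := by
    calc Ub k ≤ C * X := h1.2
      _ = C / c / t ^ a0 * (c * (X * t ^ a0)) := by field_simp
      _ ≤ C / c / t ^ a0 * Ub (k + a0) := mul_le_mul_of_nonneg_left h2.1 (by positivity)
  have hgf : gf (Fw (κ * (c / C) / t ^ a0 * Ub (k + a0)) (2 ^ k) (k + a0) A) ≤
      ENNReal.ofReal (Cu * (C / c / t ^ a0 * Ub (k + a0))) := by
    have h3 := hua (2 ^ k) (by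
      have : k ≤ 2 ^ k := Nat.lt_two_pow_self.le
      omega) (2 ^ (k + a0)) A
    refine (gf_mono ?_).trans (h3.trans (ENNReal.ofReal_le_ofReal (mul_le_mul_of_nonneg_left hup hCu.le)))
    rintro V ⟨v1, v2, v3, v4⟩
    refine ⟨v1, v2, v3, v4.trans_le ?_⟩
    calc κ * (c / C) / t ^ a0 * Ub (k + a0) = κ * (c / C / t ^ a0 * Ub (k + a0)) := by ring
      _ ≤ κ * Ub k := mul_le_mul_of_nonneg_left hlo hκ.le
      _ = _ := rfl
  have h4 := rare_mom (W := Lb (k + a0)) (B := Fw (κ * (c / C) / t ^ a0 * Ub (k + a0)) (2 ^ k) (k + a0) A)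
    (f := fun t => (1 + (t.length : ℝ) / ml (k + a0)) ^ 4) (fun t => by positivity)
    (g := Cu * (C / c / t ^ a0 * Ub (k + a0))) (M := C8 * Ub (k + a0)) (lam := lam) hl0 (by positivity) (by positivity)
    (fun V hV => ⟨hV.1, hV.2.1⟩) hgf (by
      refine le_trans (ENNReal.tsum_le_tsum fun V => ?_) (hmom (k + a0))
      refine mul_le_mul' le_rfl (ENNReal.ofReal_le_ofReal ?_)
      rw [← pow_mul]
      refine le_mul_of_one_le_right (by positivity) ?_
      refine one_le_pow₀ ?_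
      have h5 : (0 : ℤ) ≤ TIW.hn (TIW.en (V : List Bool)) := TIW.hn_nonneg _
      have h6 : (0 : ℝ) ≤ ((TIW.hn (TIW.en (V : List Bool)) : ℤ) : ℝ) := by exact_mod_cast h5
      have : 0 ≤ ((TIW.hn (TIW.en (V : List Bool)) : ℤ) : ℝ) / 2 ^ (k + a0) := by positivity
      linarith)
  refine h4.trans (ENNReal.ofReal_le_ofReal ?_)
  have h5 : lam⁻¹ * (C8 * Ub (k + a0)) = ε / 2 * Ub (k + a0) := by
    rw [hlam]
    field_simp
  have h6 : lam * (Cu * (C / c / t ^ a0 * Ub (k + a0))) ≤ ε / 2 * Ub (k + a0) := by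
    have h7 : lam * Cu * (C / c) / t ^ a0 ≤ ε / 2 := by
      rw [div_le_iff₀ hta]
      calc lam * Cu * (C / c) = ε / 2 * (lam * Cu * (C / c) * (2 / ε)) := by field_simp
        _ ≤ ε / 2 * t ^ a0 := mul_le_mul_of_nonneg_left ha0.le (by positivity)
    calc lam * (Cu * (C / c / t ^ a0 * Ub (k + a0))) = lam * Cu * (C / c) / t ^ a0 * Ub (k + a0) := by ring
      _ ≤ _ := mul_le_mul_of_nonneg_right h7 hUb.le
  rw [h5]
  linarith

/-- the rests behind the cuts of the root piece, the part Y2 behind the root is kept -/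
def WWr (η : ℝ) (E b J : ℕ) (Y2 : List Bool) : Set (List Bool) := {U | U ++ Y2 ∈ W2E η E b J}

/-- the part in front of the root with exact length and exact end -/
lemma front_pt (hS : SmL) {η : ℝ} (hη : 0 < η) (E : ℕ) : ∃ (C : ℝ) (b0 : ℕ), 0 < C ∧ 1 ≤ b0 ∧
    ∀ (b J y : ℕ) (z : Pt) (Y2 : List Bool), b0 ≤ b → Y2 ∈ En η E b →
    gf {U | (U ∈ St η E b ∧ U ++ Y2 ∈ SA ∧ In (2 ^ (b + J)) (U ++ Y2)) ∧ U.length = y ∧ TIW.en U = z} ≤
      ENNReal.ofReal (C / (4 ^ b * ml b) / (1 + ((y + Y2.length : ℕ) : ℝ) / ml b) ^ 4) *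
      ∑' U : WWr (η / 4) (2 * E) b (J + 1) Y2, wE (U : List Bool) *
        ENNReal.ofReal ((1 + (((U : List Bool) ++ Y2).length : ℝ) / ml b) ^ 4) := by
  obtain ⟨C, b1, hC, h⟩ := hS (η / 2) 4 (by positivity)
  obtain ⟨bU, hbU⟩ := exU hη 4
  refine ⟨C, b1 + bU + 1, hC, by omega, fun b J y z Y2 hb hY2 => ?_⟩
  have hm := ml_pos b
  have hb0 : b ≠ 0 := by omega
  have hU := hbU b (by omega)
  have hy : (0 : ℝ) < (1 + ((y + Y2.length : ℕ) : ℝ) / ml b) ^ 4 := by positivity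
  have h1 := h b y z (by omega) {U | (U ∈ St η E b ∧ U ++ Y2 ∈ SA ∧ In (2 ^ (b + J)) (U ++ Y2)) ∧ U.length = y ∧ TIW.en U = z}
    (WWr (η / 4) (2 * E) b (J + 1) Y2)
    (fun U => ENNReal.ofReal ((1 + ((U ++ Y2).length : ℝ) / ml b) ^ 4 / (1 + ((y + Y2.length : ℕ) : ℝ) / ml b) ^ 4)) ?_
  · refine h1.trans (le_of_eq ?_)
    rw [← ENNReal.tsum_mul_left, ← ENNReal.tsum_mul_left]
    refine tsum_congr fun U => ?_
    rw [div_eq_mul_inv (((1 : ℝ) + ((((U : List Bool) ++ Y2).length : ℕ) : ℝ) / ml b) ^ 4),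
      ENNReal.ofReal_mul (by positivity), div_eq_mul_inv (C / (4 ^ b * ml b)), ENNReal.ofReal_mul (by positivity)]
    ring
  · rintro U ⟨⟨⟨S, hSg, R0, hUS⟩, hsa, hin⟩, hUy, hUz⟩
    obtain ⟨R2, T2, hT2, rfl⟩ := hY2
    obtain ⟨T, g1, g2, g3⟩ := st_cuts2 hb0 hU (X := R0) hSg
    rw [← hUS] at g2 g3
    refine ⟨hUy, hUz, T, g1, fun c hc => ?_, g3⟩
    obtain ⟨a1, a2, a3, ⟨S', hS', R, hR⟩, a5⟩ := g2 c hc
    have ed : (U ++ (R2 ++ T2)).drop c = U.drop c ++ (R2 ++ T2) := List.drop_append_of_le_length a1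
    have et : (U ++ (R2 ++ T2)).take c = U.take c := List.take_append_of_le_length a1
    refine ⟨a1, a2, a3, ⟨?_, ?_, S', hS', R ++ (R0 ++ R2), T2, GE_mono hb0 (by linarith) (by omega) hT2, ?_⟩, ?_⟩
    · have := SDN.SA_drop hsa c
      rwa [ed] at this
    · have e := In_bu (P := U.take c) (W := U.drop c ++ (R2 ++ T2)) (E := 2 ^ (b + J)) a2 (by
        rw [← ed, ← et, List.take_append_drop]
        exact hin)
      have e3 : 2 ^ (b + (J + 1)) = 2 * 2 ^ (b + J) := by rw [← add_assoc, pow_succ]; ring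
      rw [e3]
      exact e
    · rw [hR]
      simp only [List.append_assoc]
    · rw [← ENNReal.ofReal_mul (by positivity), ← ENNReal.ofReal_one]
      refine ENNReal.ofReal_le_ofReal ?_
      refine wt_split ?_
      simp only [List.length_append, List.length_drop]
      omega

lemma len_num4 {b n p m' y : ℕ} (h : n + 1 ≤ m' + p + y) :
    1 / (1 + (y : ℝ) / ml b) ^ 4 ≤ (1 + (p : ℝ) / ml b) ^ 4 / (1 + ((n + 1 - m' : ℕ) : ℝ) / ml b) ^ 4 := by
  have hm := ml_pos b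
  rw [div_le_div_iff₀ (by positivity) (by positivity), one_mul, ← mul_pow]
  refine pow_le_pow_left₀ (by positivity) ?_ 4
  have h1 : ((n + 1 - m' : ℕ) : ℝ) ≤ (p : ℝ) + (y : ℝ) := by exact_mod_cast (show n + 1 - m' ≤ p + y by omega)
  have h2 : ((n + 1 - m' : ℕ) : ℝ) / ml b ≤ (p : ℝ) / ml b + (y : ℝ) / ml b := by
    rw [← add_div]
    exact div_le_div_of_nonneg_right h1 hm.le
  have h3 : (0 : ℝ) ≤ (p : ℝ) / ml b := by positivity
  have h4 : (0 : ℝ) ≤ (y : ℝ) / ml b := by positivity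
  nlinarith [mul_nonneg h3 h4]

/-- **the inner bound of the case A** -/
theorem caseA (hS : SmL) (hP : PMJ) {η : ℝ} (hη : 0 < η) (E m : ℕ) {ε : ℝ} (hε : 0 < ε) :
    ∃ (κ1 : ℝ) (a0 b0 : ℕ), 0 < κ1 ∧ a0 ≤ b0 ∧ 1 ≤ b0 ∧ ∀ (b n h : ℕ) (M : List Bool), b0 ≤ b → η * Ub b ≤ (h : ℝ) →
      ∑' p : {p : List Bool × List Bool | RhA (κ1 * Ub b) (2 ^ (b - a0)) b E η h p.1 M p.2 ∧ In (2 ^ (b + m + 1)) p.1 ∧
        In (2 ^ (b + m + 1)) p.2 ∧ p.1 ++ (M ++ p.2) ∈ C0 n}, wE (p : List Bool × List Bool).1 * wE (p : List Bool × List Bool).2 ≤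
      ENNReal.ofReal (ε * (Ub b / 4 ^ b)) * ENNReal.ofReal (wt n M.length (b + m)) := by
  obtain ⟨C, b1, hC, hb1, hfr⟩ := front_pt hS hη E
  obtain ⟨K, hK, hP⟩ := pmj_b hP (η / 4) (2 * E) 5 (by positivity)
  have hxc := xc_pos
  obtain ⟨κ1, a0, b2, hκ1, hab, hfew⟩ := few_mom (ε := ε * η / (xc⁻¹ * C * K ^ (m + 5 + 1))) (by positivity)
  refine ⟨κ1, a0, b1 + b2, hκ1, by omega, by omega, fun b n h M hb hh => ?_⟩
  have hU := Ub_pos b
  have hm := ml_pos b
  have hb0 : b ≠ 0 := by omega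
  obtain ⟨R, hR⟩ : ∃ R : Set (List Bool × List Bool), R = {p : List Bool × List Bool |
    RhA (κ1 * Ub b) (2 ^ (b - a0)) b E η h p.1 M p.2 ∧ In (2 ^ (b + m + 1)) p.1 ∧
        In (2 ^ (b + m + 1)) p.2 ∧ p.1 ++ (M ++ p.2) ∈ C0 n} := ⟨_, rfl⟩
  rw [← hR]
  obtain ⟨G, hG⟩ : ∃ G : List Bool → ℝ≥0∞, G = fun Y2 => ∑' U : WWr (η / 4) (2 * E) b (m + 5) Y2, wE (U : List Bool) *
        ENNReal.ofReal ((1 + (((U : List Bool) ++ Y2).length : ℝ) / ml b) ^ 4) := ⟨_, rfl⟩
  obtain ⟨g0, hg0⟩ : ∃ g0 : ℝ, g0 = C / (4 ^ b * ml b) / (1 + ((n + 1 - M.length : ℕ) : ℝ) / ml b) ^ 4 := ⟨_, rfl⟩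
  have hg00 : 0 ≤ g0 := by rw [hg0]; positivity
  obtain ⟨e1, he1⟩ : ∃ e1 : ℝ, e1 = ε * η / (xc⁻¹ * C * K ^ (m + 5 + 1)) := ⟨_, rfl⟩
  have he10 : 0 < e1 := by rw [he1]; positivity
  rw [← he1] at hfew
  -- one Y2
  have hone : ∀ Y2 : List Bool, (h : ℝ≥0∞) * gf {Y1 | (Y2, Y1) ∈ R} ≤
      ENNReal.ofReal (xc⁻¹ * g0) * ENNReal.ofReal (e1 * Ub b) * G Y2 := by
    intro Y2
    by_cases hne : ∃ Y1, (Y2, Y1) ∈ R
    · obtain ⟨Y10, hY10⟩ := hne
      rw [hR] at hY10
      obtain ⟨⟨hM, hY2, -⟩, hi2, -, -⟩ := hY10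
      have hM0 := twoG_ne hb0 hM
      obtain ⟨Wc, hWc⟩ : ∃ Wc : List Bool → Set (List Bool), Wc = fun V => {W | W ∈ St η E b ∧ In (2 ^ (b + (m + 2))) W ∧
        Y2 ++ (M ++ (V ++ W)) ∈ C0 n} := ⟨_, rfl⟩
      have h1 := cut_sum (A := {Y1 | (Y2, Y1) ∈ R}) (Fw := Fw (κ1 * Ub b) (2 ^ (b - a0)) b (Y2 ++ M)) (Wc := Wc)
        (q := (h : ℝ≥0∞)) (by
          intro Y1 hY1
          have hY1' : (Y2, Y1) ∈ R := hY1
          rw [hR] at hY1'
          obtain ⟨⟨-, -, S, hS1, hS2⟩, -, hi1, hc0⟩ := hY1'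
          refine ⟨S, by exact_mod_cast hS1, fun k hk => ?_⟩
          obtain ⟨k1, ⟨k2, k3, k4, k5⟩, k6⟩ := hS2 k hk
          refine ⟨k1, ⟨k2, k3, k4, k5⟩, ?_⟩
          rw [hWc]
          refine ⟨k6, ?_, ?_⟩
          · have e := In_bu (P := Y1.take k) (W := Y1.drop k) (E := 2 ^ (b + m + 1)) k2 (by
              rw [List.take_append_drop]
              exact hi1)
            have e3 : 2 ^ (b + (m + 2)) = 2 * 2 ^ (b + m + 1) := by
              rw [show b + (m + 2) = b + m + 1 + 1 by omega, pow_succ]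
              ring
            rw [e3]
            exact e
          · rw [List.take_append_drop]
            exact hc0)
      refine h1.trans ?_
      have h2 : ∀ V : List Bool, V ∈ Fw (κ1 * Ub b) (2 ^ (b - a0)) b (Y2 ++ M) → gf (Wc V) ≤ ENNReal.ofReal xc⁻¹ *
          (ENNReal.ofReal (g0 * (1 + (V.length : ℝ) / ml b) ^ 4) * G Y2) := by
        intro V hV
        have h3 := letter_sum (A := Wc V) (B := {U | U ∈ {U | U ∈ St η E b ∧ U ++ Y2 ∈ SA ∧ In (2 ^ (b + (m + 4))) (U ++ Y2)} ∧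
          (Y2 ++ (M ++ V)) ++ U ∈ POL.Cy (n + 1)}) (by
            intro W hW
            rw [hWc] at hW
            obtain ⟨w1, w2, β, w3⟩ := hW
            have w4 : (Y2 ++ (M ++ V)) ++ (W ++ [β]) ∈ POL.Cy (n + 1) := by
              simpa only [List.append_assoc] using w3
            have w5 : (M ++ V) ++ ((W ++ [β]) ++ Y2) ∈ POL.Cy (n + 1) := by
              have w6 : Y2 ++ ((M ++ V) ++ (W ++ [β])) ∈ POL.Cy (n + 1) := by
                simpa only [List.append_assoc] using w3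
              have := POL.cy_rot w6
              simpa only [List.append_assoc] using this
            have w7 := w2_of (J := m + 2) hb0 (M := M ++ V) (by
              intro h0
              exact hM0 (List.append_eq_nil_iff.1 h0).1) hY2 w1 (YB.In_mono (Nat.pow_le_pow_right (by norm_num) (by omega)) hi2) w2 w5
            obtain ⟨S, hSg, R1, hW1⟩ := w1
            refine ⟨β, ⟨⟨S, hSg, R1 ++ [β], ?_⟩, w7.1, w7.2.1⟩, w4⟩
            rw [hW1, List.append_assoc])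
        refine h3.trans (mul_le_mul' le_rfl ?_)
        refine gf_cy (fun z => ?_)
        have h4 := hfr b (m + 4) (n + 1 - (Y2 ++ (M ++ V)).length) z Y2 (by omega) hY2
        refine h4.trans ?_
        rw [hG]
        refine mul_le_mul' (ENNReal.ofReal_le_ofReal ?_) le_rfl
        have h5 := len_num4 (b := b) (n := n) (p := V.length) (m' := M.length)
          (y := n + 1 - (Y2 ++ (M ++ V)).length + Y2.length) (by
            simp only [List.length_append]
            omega)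
        have h6 : (0 : ℝ) ≤ C / (4 ^ b * ml b) := by positivity
        calc C / (4 ^ b * ml b) / (1 + ((n + 1 - (Y2 ++ (M ++ V)).length + Y2.length : ℕ) : ℝ) / ml b) ^ 4
            = C / (4 ^ b * ml b) * (1 / (1 + ((n + 1 - (Y2 ++ (M ++ V)).length + Y2.length : ℕ) : ℝ) / ml b) ^ 4) := by ring
          _ ≤ C / (4 ^ b * ml b) * ((1 + (V.length : ℝ) / ml b) ^ 4 / (1 + ((n + 1 - M.length : ℕ) : ℝ) / ml b) ^ 4) :=
              mul_le_mul_of_nonneg_left h5 h6
          _ = g0 * (1 + (V.length : ℝ) / ml b) ^ 4 := by rw [hg0]; ring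
      calc ∑' V : Fw (κ1 * Ub b) (2 ^ (b - a0)) b (Y2 ++ M), wE (V : List Bool) * gf (Wc V)
          ≤ ∑' V : Fw (κ1 * Ub b) (2 ^ (b - a0)) b (Y2 ++ M), ENNReal.ofReal (xc⁻¹ * g0) * G Y2 *
            (wE (V : List Bool) * ENNReal.ofReal ((1 + ((V : List Bool).length : ℝ) / ml b) ^ 4)) := by
            refine ENNReal.tsum_le_tsum fun V => ?_
            refine (mul_le_mul' le_rfl (h2 _ V.2)).trans (le_of_eq ?_)
            rw [ENNReal.ofReal_mul hg00, ENNReal.ofReal_mul (by positivity)]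
            ring
        _ = ENNReal.ofReal (xc⁻¹ * g0) * G Y2 * _ := ENNReal.tsum_mul_left
        _ ≤ ENNReal.ofReal (xc⁻¹ * g0) * G Y2 * ENNReal.ofReal (e1 * Ub b) := mul_le_mul' le_rfl (hfew b (by omega) (Y2 ++ M))
        _ = _ := by ring
    · have he : {Y1 | (Y2, Y1) ∈ R} = ∅ := Set.eq_empty_of_forall_notMem fun Y1 hY1 => hne ⟨Y1, hY1⟩
      rw [he]
      have : gf (∅ : Set (List Bool)) = 0 := by
        unfold gf
        simp
      rw [this, mul_zero]
      exact zero_le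
  -- all Y2
  have hsum : ∑' Y2 : List Bool, wE Y2 * G Y2 ≤ ENNReal.ofReal (ml b * (K ^ (m + 5 + 1) * Ub b)) := by
    have h1 : ∑' Y2 : List Bool, wE Y2 * G Y2 = ∑' p : {p : List Bool × List Bool | p.2 ++ p.1 ∈ W2E (η / 4) (2 * E) b (m + 5)},
        wE (p : List Bool × List Bool).1 * wE (p : List Bool × List Bool).2 *
        ENNReal.ofReal ((1 + ((((p : List Bool × List Bool).2 ++ (p : List Bool × List Bool).1).length : ℕ) : ℝ) / ml b) ^ 4) := by
      rw [pair_split {p : List Bool × List Bool | p.2 ++ p.1 ∈ W2E (η / 4) (2 * E) b (m + 5)}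
        (fun a b' => wE a * wE b' * ENNReal.ofReal ((1 + (((b' ++ a).length : ℕ) : ℝ) / ml b) ^ 4))]
      refine tsum_congr fun Y2 => ?_
      rw [hG]
      simp only
      rw [← ENNReal.tsum_mul_left]
      exact tsum_congr fun U => by rw [mul_assoc]
    rw [h1]
    refine (pair_sum (S := W2E (η / 4) (2 * E) b (m + 5)) (fun T => ENNReal.ofReal ((1 + ((T.length : ℕ) : ℝ) / ml b) ^ 4))
      (fun p hp => hp)).trans ?_
    calc ∑' T : W2E (η / 4) (2 * E) b (m + 5), (((T : List Bool).length + 1 : ℕ) : ℝ≥0∞) *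
          (wE (T : List Bool) * ENNReal.ofReal ((1 + (((T : List Bool).length : ℕ) : ℝ) / ml b) ^ 4))
        ≤ ∑' T : W2E (η / 4) (2 * E) b (m + 5), ENNReal.ofReal (ml b) *
          (wE (T : List Bool) * ENNReal.ofReal ((1 + (((T : List Bool).length : ℕ) : ℝ) / ml b) ^ 5)) := by
          refine ENNReal.tsum_le_tsum fun T => ?_
          have h2 : (((T : List Bool).length + 1 : ℕ) : ℝ≥0∞) ≤ ENNReal.ofReal (ml b * (1 + (((T : List Bool).length : ℕ) : ℝ) / ml b)) := by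
            rw [← ENNReal.ofReal_natCast]
            refine ENNReal.ofReal_le_ofReal ?_
            rw [mul_add, mul_one, mul_div_cancel₀ _ hm.ne']
            push_cast
            have := one_le_ml b
            linarith
          refine (mul_le_mul' h2 le_rfl).trans (le_of_eq ?_)
          rw [pow_succ ((1 : ℝ) + (((T : List Bool).length : ℕ) : ℝ) / ml b) 4, ENNReal.ofReal_mul hm.le,
            ENNReal.ofReal_mul (by positivity)]
          ring
      _ = ENNReal.ofReal (ml b) * _ := ENNReal.tsum_mul_left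
      _ ≤ ENNReal.ofReal (ml b) * ENNReal.ofReal (K ^ (m + 5 + 1) * Ub b) := mul_le_mul' le_rfl (hP b (m + 5) (by omega))
      _ = _ := by rw [← ENNReal.ofReal_mul hm.le]
  have hh0 : (0 : ℝ) < h := lt_of_lt_of_le (by positivity) hh
  have htot : (∑' p : R, wE (p : List Bool × List Bool).1 * wE (p : List Bool × List Bool).2) * ENNReal.ofReal h ≤
      ENNReal.ofReal (xc⁻¹ * g0 * (e1 * Ub b) * (ml b * (K ^ (m + 5 + 1) * Ub b))) * 1 := by
    rw [mul_one, pair_split R (fun a b' => wE a * wE b'), ENNReal.ofReal_natCast, ← ENNReal.tsum_mul_right]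
    calc ∑' Y2 : List Bool, (∑' Y1 : {Y1 | (Y2, Y1) ∈ R}, wE Y2 * wE (Y1 : List Bool)) * (h : ℝ≥0∞)
        ≤ ∑' Y2 : List Bool, ENNReal.ofReal (xc⁻¹ * g0) * ENNReal.ofReal (e1 * Ub b) * (wE Y2 * G Y2) := by
          refine ENNReal.tsum_le_tsum fun Y2 => ?_
          rw [ENNReal.tsum_mul_left]
          calc wE Y2 * (∑' Y1 : {Y1 | (Y2, Y1) ∈ R}, wE (Y1 : List Bool)) * (h : ℝ≥0∞)
              = wE Y2 * ((h : ℝ≥0∞) * gf {Y1 | (Y2, Y1) ∈ R}) := by
                unfold gf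
                ring
            _ ≤ wE Y2 * (ENNReal.ofReal (xc⁻¹ * g0) * ENNReal.ofReal (e1 * Ub b) * G Y2) := mul_le_mul' le_rfl (hone Y2)
            _ = _ := by ring
      _ = ENNReal.ofReal (xc⁻¹ * g0) * ENNReal.ofReal (e1 * Ub b) * ∑' Y2 : List Bool, wE Y2 * G Y2 := ENNReal.tsum_mul_left
      _ ≤ ENNReal.ofReal (xc⁻¹ * g0) * ENNReal.ofReal (e1 * Ub b) * ENNReal.ofReal (ml b * (K ^ (m + 5 + 1) * Ub b)) :=
          mul_le_mul' le_rfl hsum
      _ = _ := by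
          rw [← ENNReal.ofReal_mul (by positivity), ← ENNReal.ofReal_mul (by positivity)]
  have h1 := div_of_mul hh0 (by positivity) htot
  rw [mul_one] at h1
  refine h1.trans ?_
  have hwt0 : 0 ≤ wt n M.length (b + m) := by
    unfold wt
    have := ml_pos (b + m)
    positivity
  rw [← ENNReal.ofReal_mul (by positivity)]
  refine ENNReal.ofReal_le_ofReal ?_
  rw [div_le_iff₀ hh0]
  -- the weight
  obtain ⟨y, hy⟩ : ∃ y : ℕ, y = n + 1 - M.length := ⟨_, rfl⟩
  obtain ⟨x, hx⟩ : ∃ x : ℕ, x = n - M.length := ⟨_, rfl⟩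
  have hxy : (x : ℝ) ≤ y := by exact_mod_cast (show x ≤ y by omega)
  have hy0 : (0 : ℝ) ≤ y := Nat.cast_nonneg y
  have hx0 : (0 : ℝ) ≤ x := Nat.cast_nonneg x
  have hmi := ml_pos (b + m)
  have hwt : wt n M.length (b + m) = ((1 + (x : ℝ) / ml (b + m)) ^ 4)⁻¹ := by
    unfold wt
    rw [← hx, Real.rpow_neg (by positivity)]
    norm_cast
  have h2 : ((1 + (y : ℝ) / ml b) ^ 4)⁻¹ ≤ wt n M.length (b + m) := by
    rw [hwt]
    refine inv_anti₀ (by positivity) (pow_le_pow_left₀ (by positivity) ?_ 4)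
    have : (x : ℝ) / ml (b + m) ≤ (y : ℝ) / ml b := div_le_div₀ hy0 hxy hm (ml_le (Nat.le_add_right b m))
    linarith
  have h3 : xc⁻¹ * C * K ^ (m + 5 + 1) * e1 = ε * η := by
    rw [he1]
    field_simp
  calc xc⁻¹ * g0 * (e1 * Ub b) * (ml b * (K ^ (m + 5 + 1) * Ub b))
      = (xc⁻¹ * C * K ^ (m + 5 + 1) * e1) * (Ub b / 4 ^ b) * ((1 + (y : ℝ) / ml b) ^ 4)⁻¹ * Ub b := by
        rw [hg0, ← hy]
        field_simp
    _ = ε * (Ub b / 4 ^ b) * ((1 + (y : ℝ) / ml b) ^ 4)⁻¹ * (η * Ub b) := by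
        rw [h3]
        ring
    _ ≤ ε * (Ub b / 4 ^ b) * wt n M.length (b + m) * h := by gcongr

end T2

end ARM

end HexObs
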