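import Pool.Agent.ARM.Defs
import Pool.Agent.NPR.Fast
import Pool.Agent.NPR.TwoEnd

/-!
# ARM, row B2 (helper15): long words in a small ball

* **`confSt : ConfSt`**: the mass of the words with at least `n` letters whose vertices are within `2 ^ i` of the end.
-/

set_option autoImplicit false

namespace HexObs

namespace ARM

open Finset TS SDN NTA TIP

open scoped ENNReal

/-- the words within `2 ^ i` of their end are words of the box of the level `i` -/
lemma conf_WL {i : ℕ} {L : List Bool} (hL : L ∈ SA) (h : ∀ s, s ≤ L.length → dz L s ≤ 2 ^ i) : L ∈ WL i := by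
  refine ⟨hL, fun s hs dir => ?_⟩
  have h1 := h s hs
  have h2 := h 0 (Nat.zero_le _)
  unfold dz at h1 h2
  have h3 := TIW.hn_sub (vx oo up L s - TIW.en L) (vx oo up L 0 - TIW.en L)
  have h4 : vx oo up L s - TIW.en L - (vx oo up L 0 - TIW.en L) = vx oo up L s := by
    have e : vx oo up L 0 = (0 : Pt) := rfl
    rw [e]
    abel
  rw [h4] at h3
  exact NPR.row_le_hn (D := 2 * 2 ^ i) (by linarith) (by have : (0 : ℤ) < 2 ^ i := by positivity
                                                         linarith) dir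

/-- **row B2** -/
theorem confSt : ConfSt := by
  obtain ⟨C1, hC1, hT⟩ := NTA.tot_WL
  obtain ⟨C2, hC2, hI⟩ := NTA.ti_M
  obtain ⟨A, hA, hI⟩ := hI 4
  obtain ⟨M0, hM0, hmu⟩ := VF.mUp VF.sharpZ
  obtain ⟨C3, hC3, hF⟩ := NPR.Fast.FK_up
  obtain ⟨M, hM⟩ : ∃ M : ℝ, M = 1 + M0 := ⟨_, rfl⟩
  have hM1 : 1 ≤ M := by rw [hM]; linarith
  have hA0 : 0 < A := by linarith
  have hC10 : 0 < C1 := by linarith
  refine ⟨(A + C1) * M ^ 4 * C3, by positivity, fun n i => ?_⟩
  have hml : 0 < ml i := by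
    unfold ml
    positivity
  have hmZ : PW.mZ (2 ^ i) ≤ M * ml i := by
    have h1 := hmu i
    have h2 : (2 : ℝ) ^ (4 / 3 * (i : ℝ)) = ml i := rfl
    rw [h2] at h1
    rw [hM]
    nlinarith
  have hsub : ∀ t ∈ {L : List Bool | L ∈ SA ∧ n ≤ L.length ∧ ∀ s, s ≤ L.length → dz L s ≤ 2 ^ i}, t ∈ WL i :=
    fun t ht => conf_WL ht.1 ht.2.2
  obtain ⟨x, hx⟩ : ∃ x : ℝ, x = (ml i / max (n : ℝ) (ml i)) ^ (4 : ℕ) := ⟨_, rfl⟩
  have hmax : 0 < max (n : ℝ) (ml i) := lt_max_of_lt_right hml
  have hx0 : 0 < x := by rw [hx]; positivity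
  have key : gf {L : List Bool | L ∈ SA ∧ n ≤ L.length ∧ ∀ s, s ≤ L.length → dz L s ≤ 2 ^ i} ≤
      ENNReal.ofReal ((A + C1) * M ^ 4 * x) * (ENNReal.ofReal (Ub i) * Xb i ^ 2) := by
    rcases le_or_gt (M * ml i) (n : ℝ) with h1 | h1
    · -- long
      have hn0 : (0 : ℝ) < n := lt_of_lt_of_le (by positivity) h1
      have hnm : ml i ≤ n := le_trans (by nlinarith) h1
      obtain ⟨lam, hlam⟩ : ∃ lam : ℝ, lam = n / (M * ml i) := ⟨_, rfl⟩
      have hl1 : 1 ≤ lam := by
        rw [hlam, le_div_iff₀ (by positivity)]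
        linarith
      have h2 := hI i i lam le_rfl hl1
      refine (gf_mono fun t ht => ?_).trans (h2.trans (mul_le_mul' (ENNReal.ofReal_le_ofReal ?_) le_rfl))
      · refine ⟨hsub t ht, 0, t.length, bx_all (hsub t ht), ?_⟩
        rw [Nat.cast_zero, sub_zero]
        have h3 : (n : ℝ) ≤ t.length := by exact_mod_cast ht.2.1
        refine le_trans ?_ h3
        calc lam * PW.mZ (2 ^ i) ≤ lam * (M * ml i) := mul_le_mul_of_nonneg_left hmZ (by linarith)
          _ = n := by
            rw [hlam]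
            field_simp
      · rw [Nat.sub_self, pow_zero, mul_one, hx, max_eq_left hnm, hlam]
        have e : A / ((n : ℝ) / (M * ml i)) ^ 4 = A * M ^ 4 * (ml i / n) ^ 4 := by
          field_simp
        rw [e]
        have : 0 ≤ C1 * M ^ 4 * (ml i / n) ^ 4 := by positivity
        nlinarith
    · -- the rest
      refine (gf_mono fun t ht => hsub t ht).trans ((hT i).trans (mul_le_mul' (ENNReal.ofReal_le_ofReal ?_) le_rfl))
      have h2 : 1 ≤ M * (ml i / max (n : ℝ) (ml i)) := by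
        rw [← mul_div_assoc, le_div_iff₀ hmax, one_mul]
        refine max_le h1.le ?_
        nlinarith
      have h3 : 1 ≤ M ^ 4 * x := by
        rw [hx, ← mul_pow]
        exact one_le_pow₀ h2
      have h4 : 0 ≤ A * (M ^ 4 * x) := by positivity
      nlinarith
  refine key.trans ((mul_le_mul' le_rfl (hF i)).trans (le_of_eq ?_))
  rw [← ENNReal.ofReal_mul (by positivity), ← hx]
  congr 1
  ring

end ARM

end HexObs
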