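import Pool.Agent.ARM.Defs2
import Pool.Agent.POL.Fin
import Pool.Agent.TIW.Base
import Pool.Agent.TIP.OddV

/-!
# ARM, row T2C (helper15): closed words in a small ball

* `conf_WC` : a closed word whose vertices are within `2 ^ i` of the last one is in the box of the level `i`, all rotations;
* **`conf_C0`** : their mass is at most `A n ^ (-3 / 2) (ml i / max n (ml i)) ^ Q`, every `Q`;
* **`t2C : T2C`**.
-/

set_option autoImplicit false

namespace HexObs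

namespace ARM

open Finset TS SDN NTW NTA JNT

open scoped ENNReal

/-- the closed word and its rotations are in the box -/
lemma conf_WC {n i : ℕ} {L : List Bool} {b : Bool} (ht : L ++ [b] ∈ POL.Cy (n + 1))
    (h : ∀ s, s ≤ L.length → dz L s ≤ 2 ^ i) : L ++ [b] ∈ POL.WC (n + 1) i := by
  have hlen : (L ++ [b]).length = n + 1 := ht.1
  have hL : L.length = n := by
    rw [List.length_append, List.length_singleton] at hlen
    omega
  refine ⟨ht, fun X Y hXY k hk dir => ?_⟩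
  have hc := POL.Cy.clo ht
  have hp : ∀ a, TIW.hn (POL.pv (L ++ [b]) a - TIW.en L) ≤ 2 ^ i := by
    intro a
    have h1 : a % (L ++ [b]).length ≤ L.length := by
      have := Nat.mod_lt a (show 0 < (L ++ [b]).length by omega)
      omega
    rw [POL.pv_mod hc a, POL.pv_eq (by omega), vx_append (by omega)]
    exact h _ h1
  have h1 : Y ++ X = (L ++ [b]).rotate X.length := by
    rw [hXY, POL.rotate_app]
  rw [h1, POL.rot_vx (by omega)]
  have h2 : TIW.hn (mulE (rotTo (POL.pd (L ++ [b]) X.length) up) (POL.pv (L ++ [b]) (X.length + k) -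
      POL.pv (L ++ [b]) X.length)) ≤ 2 * 2 ^ i := by
    rw [TIW.hn_mulE (POL.nrm_rotTo_pd _ _)]
    have h3 := TIW.hn_sub (POL.pv (L ++ [b]) (X.length + k) - TIW.en L) (POL.pv (L ++ [b]) X.length - TIW.en L)
    rw [sub_sub_sub_cancel_right] at h3
    have h4 := hp (X.length + k)
    have h5 := hp X.length
    linarith
  have h0 : (0 : ℤ) < 2 ^ i := by positivity
  generalize mulE (rotTo (POL.pd (L ++ [b]) X.length) up) (POL.pv (L ++ [b]) (X.length + k) -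
      POL.pv (L ++ [b]) X.length) = v at h2
  -- the rows
  have h3 : |lvl dir v| ≤ TIW.hn v := by
    cases dir with
    | false =>
      rw [TIP.lvl_false]
      exact le_max_left _ _
    | true =>
      rw [TIP.lvl_true, abs_neg]
      exact (le_max_right _ _).trans (le_max_right _ _)
  unfold row
  generalize lvl dir v = x at h3
  rw [abs_le] at h3 ⊢
  omega

/-- **closed words in a small ball**, every power -/
theorem conf_C0 (Q : ℕ) : ∃ A : ℝ, 0 < A ∧ ∀ n i : ℕ, 1 ≤ n →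
    gf {L | L ∈ C0 n ∧ ∀ s, s ≤ L.length → dz L s ≤ 2 ^ i} ≤
      ENNReal.ofReal (A * (n : ℝ) ^ (-(3 / 2) : ℝ) * (ml i / max (n : ℝ) (ml i)) ^ Q) := by
  obtain ⟨c1, hc1, hlow⟩ := VF.mLow VF.sharpZ
  obtain ⟨C0', hC0', hup0⟩ := VF.mUp VF.sharpZ
  obtain ⟨C2, hC2⟩ : ∃ C2 : ℝ, C2 = 1 + C0' := ⟨_, rfl⟩
  have hC21 : 1 ≤ C2 := by rw [hC2]; linarith
  have hup : ∀ k : ℕ, PW.mZ (2 ^ k) ≤ C2 * ml k := by
    intro k
    have h1 := hup0 k
    have h2 : (2 : ℝ) ^ (4 / 3 * (k : ℝ)) = ml k := rfl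
    rw [h2] at h1
    have h3 : 0 < ml k := by
      unfold ml
      positivity
    rw [hC2]
    nlinarith
  obtain ⟨A, hA, hsm⟩ := POL.small_of POL.normAll (Q + 3)
  obtain ⟨C, hC, hP1⟩ := POL.P1
  have hA0 : 0 < A := by linarith
  have hC20 : 0 < C2 := by linarith
  refine ⟨4 * A * C2 ^ (Q + 3) / c1 + 2 * C * C2 ^ Q, by positivity, fun n i hn => ?_⟩
  have hn0 : (0 : ℝ) < n := by exact_mod_cast hn
  have hml : 0 < ml i := by
    unfold ml
    positivity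
  have hmax : 0 < max (n : ℝ) (ml i) := lt_max_of_lt_right hml
  have hpn : 0 < (n : ℝ) ^ (-(3 / 2) : ℝ) := by positivity
  rcases le_or_gt (C2 * ml i) (n : ℝ) with h1 | h1
  · -- small box
    have hnm : ml i ≤ n := le_trans (by nlinarith) h1
    have hsub : {L | L ∈ C0 n ∧ ∀ s, s ≤ L.length → dz L s ≤ 2 ^ i} ⊆
        {w | w ∈ POL.EC (n + 1) i ∧ w ∈ (Set.univ : Set (List Bool))} := by
      rintro L ⟨⟨b, hb⟩, h⟩
      have h2 := conf_WC hb h
      exact ⟨⟨POL.wl_of_wc h2, b, h2⟩, Set.mem_univ _⟩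
    refine (gf_mono hsub).trans ((POL.add_letter (B := POL.WC (n + 1) i) fun w c _ h => h).trans ?_)
    obtain ⟨lam, hlam⟩ : ∃ lam : ℝ, lam = n / (C2 * ml i) := ⟨_, rfl⟩
    have hl1 : 1 ≤ lam := by
      rw [hlam, le_div_iff₀ (by positivity)]
      linarith
    have h2 : lam * mM i + 1 ≤ ((n + 1 : ℕ) : ℝ) := by
      have h3 : lam * mM i ≤ n := by
        calc lam * mM i ≤ lam * (C2 * ml i) := mul_le_mul_of_nonneg_left (hup i) (by linarith)
          _ = n := by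
            rw [hlam]
            field_simp
      push_cast
      linarith
    have h3 := hsm (n + 1) i lam (by omega) hl1 h2
    refine (mul_le_mul' le_rfl h3).trans ?_
    have e2 : (2 : ℝ≥0∞) = ENNReal.ofReal 2 := by norm_num
    rw [e2, ← ENNReal.ofReal_mul (by norm_num)]
    refine ENNReal.ofReal_le_ofReal ?_
    rw [max_eq_left hnm]
    have hw : c1 * ml i * ml i ^ (3 / 2 : ℝ) ≤ w4 mM i := by
      have h5 : ml i ^ (3 / 2 : ℝ) = 4 ^ i := by
        have h6 : (4 : ℝ) ^ i = 2 ^ (2 * (i : ℝ)) := by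
          rw [Real.rpow_mul (by norm_num), Real.rpow_natCast]
          norm_num
        unfold ml
        rw [h6, ← Real.rpow_mul (by norm_num)]
        congr 1
        ring
      rw [h5]
      exact mul_le_mul_of_nonneg_right (hlow i) (by positivity)
    have hw0 : 0 < c1 * ml i * ml i ^ (3 / 2 : ℝ) := by positivity
    have h6 : ((n + 1 : ℕ) : ℝ) / w4 mM i ≤ 2 * n / (c1 * ml i * ml i ^ (3 / 2 : ℝ)) := by
      refine div_le_div₀ (by positivity) ?_ hw0 hw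
      push_cast
      have : (1 : ℝ) ≤ n := by exact_mod_cast hn
      linarith
    have h7 : 2 * (A / lam ^ (Q + 3) * (((n + 1 : ℕ) : ℝ) / w4 mM i)) ≤
        2 * (A / lam ^ (Q + 3) * (2 * n / (c1 * ml i * ml i ^ (3 / 2 : ℝ)))) := by
      have : 0 ≤ A / lam ^ (Q + 3) := by
        have : 0 < lam := by linarith
        positivity
      exact mul_le_mul_of_nonneg_left (mul_le_mul_of_nonneg_left h6 this) (by norm_num)
    refine h7.trans ?_
    obtain ⟨x, hx⟩ : ∃ x : ℝ, x = ml i / n := ⟨_, rfl⟩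
    have hx0 : 0 < x := by rw [hx]; positivity
    have hx1 : x ≤ 1 := by
      rw [hx, div_le_one hn0]
      exact hnm
    have e3 : A / lam ^ (Q + 3) = A * C2 ^ (Q + 3) * x ^ (Q + 3) := by
      have h9 : (n / (C2 * ml i)) ^ (Q + 3) * (C2 ^ (Q + 3) * (ml i / n) ^ (Q + 3)) = 1 := by
        rw [← mul_pow, ← mul_pow]
        have h10 : (n : ℝ) / (C2 * ml i) * (C2 * (ml i / n)) = 1 := by
          field_simp
        rw [h10, one_pow]
      rw [hlam, hx, div_eq_iff (by positivity)]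
      linear_combination (-A) * h9
    have e4 : (n : ℝ) / (ml i * ml i ^ (3 / 2 : ℝ)) * x ^ 3 = (n : ℝ) ^ (-(3 / 2) : ℝ) * x ^ (1 / 2 : ℝ) := by
      have hmx : ml i = x * n := by
        rw [hx]
        field_simp
      rw [hmx, Real.mul_rpow hx0.le hn0.le]
      have a1 : x ^ (3 / 2 : ℝ) * x ^ (1 / 2 : ℝ) = x ^ 2 := by
        rw [← Real.rpow_add hx0]
        norm_num
      have a2 : (n : ℝ) ^ (3 / 2 : ℝ) * (n : ℝ) ^ (-(3 / 2) : ℝ) = 1 := by
        rw [← Real.rpow_add hn0]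
        norm_num
      have a3 : 0 < x ^ (3 / 2 : ℝ) := by positivity
      have a4 : 0 < (n : ℝ) ^ (3 / 2 : ℝ) := by positivity
      rw [div_mul_eq_mul_div, div_eq_iff (by positivity)]
      linear_combination (-(n : ℝ) * x * x ^ (3 / 2 : ℝ) * x ^ (1 / 2 : ℝ)) * a2 + (-(n : ℝ) * x) * a1
    have h8 : x ^ (1 / 2 : ℝ) ≤ 1 := Real.rpow_le_one hx0.le hx1 (by norm_num)
    calc 2 * (A / lam ^ (Q + 3) * (2 * n / (c1 * ml i * ml i ^ (3 / 2 : ℝ))))
        = 4 * A * C2 ^ (Q + 3) / c1 * x ^ Q * ((n : ℝ) / (ml i * ml i ^ (3 / 2 : ℝ)) * x ^ 3) := by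
          rw [e3, pow_add x Q 3]
          field_simp
          ring
      _ = 4 * A * C2 ^ (Q + 3) / c1 * x ^ Q * ((n : ℝ) ^ (-(3 / 2) : ℝ) * x ^ (1 / 2 : ℝ)) := by rw [e4]
      _ ≤ 4 * A * C2 ^ (Q + 3) / c1 * x ^ Q * ((n : ℝ) ^ (-(3 / 2) : ℝ) * 1) := by gcongr
      _ ≤ (4 * A * C2 ^ (Q + 3) / c1 + 2 * C * C2 ^ Q) * (n : ℝ) ^ (-(3 / 2) : ℝ) * x ^ Q := by
          have : 0 ≤ 2 * C * C2 ^ Q * (n : ℝ) ^ (-(3 / 2) : ℝ) * x ^ Q := by positivity
          nlinarith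
      _ = _ := by rw [hx]
  · -- large box
    have hsub : {L | L ∈ C0 n ∧ ∀ s, s ≤ L.length → dz L s ≤ 2 ^ i} ⊆
        {w | w ∈ POL.EC (n + 1) (n + 3) ∧ w ∈ (Set.univ : Set (List Bool))} := by
      rintro L ⟨⟨b, hb⟩, -⟩
      have h2 : L ++ [b] ∈ POL.WC (n + 1) (n + 3) := POL.Cy_WC hb
      exact ⟨⟨POL.wl_of_wc h2, b, h2⟩, Set.mem_univ _⟩
    refine (gf_mono hsub).trans ((POL.add_letter (B := POL.Cy (n + 1)) fun w c _ h => h.1).trans ?_)
    refine (mul_le_mul' le_rfl (hP1 (n + 1) (by omega))).trans ?_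
    have e2 : (2 : ℝ≥0∞) = ENNReal.ofReal 2 := by norm_num
    rw [e2, ← ENNReal.ofReal_mul (by norm_num)]
    refine ENNReal.ofReal_le_ofReal ?_
    have h2 : 1 ≤ C2 * (ml i / max (n : ℝ) (ml i)) := by
      rw [← mul_div_assoc, le_div_iff₀ hmax, one_mul]
      refine max_le h1.le ?_
      nlinarith
    have h3 : 1 ≤ C2 ^ Q * (ml i / max (n : ℝ) (ml i)) ^ Q := by
      rw [← mul_pow]
      exact one_le_pow₀ h2
    have h4 : ((n + 1 : ℕ) : ℝ) ^ (-(3 / 2) : ℝ) ≤ (n : ℝ) ^ (-(3 / 2) : ℝ) :=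
      Real.rpow_le_rpow_of_nonpos hn0 (by push_cast; linarith) (by norm_num)
    obtain ⟨y, hy⟩ : ∃ y : ℝ, y = (ml i / max (n : ℝ) (ml i)) ^ Q := ⟨_, rfl⟩
    rw [← hy] at h3 ⊢
    have hy0 : 0 < y := by rw [hy]; positivity
    calc 2 * (C * ((n + 1 : ℕ) : ℝ) ^ (-(3 / 2) : ℝ)) ≤ 2 * (C * (n : ℝ) ^ (-(3 / 2) : ℝ)) := by gcongr
      _ ≤ 2 * (C * (n : ℝ) ^ (-(3 / 2) : ℝ)) * (C2 ^ Q * y) := by
          have : 0 ≤ 2 * (C * (n : ℝ) ^ (-(3 / 2) : ℝ)) := by positivity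
          nlinarith
      _ ≤ (4 * A * C2 ^ (Q + 3) / c1 + 2 * C * C2 ^ Q) * (n : ℝ) ^ (-(3 / 2) : ℝ) * y := by
          have : 0 ≤ 4 * A * C2 ^ (Q + 3) / c1 * (n : ℝ) ^ (-(3 / 2) : ℝ) * y := by positivity
          nlinarith

/-- **row T2C** -/
theorem t2C : T2C := by
  intro u ε hε
  obtain ⟨A, hA, h⟩ := conf_C0 1
  obtain ⟨b0, hb0⟩ := pow_unbounded_of_one_lt (A * 2 ^ (2 * u) / ε) (one_lt_two : (1 : ℝ) < 2)
  refine ⟨b0, fun n j _ hn => ?_⟩
  have hml : 0 < ml j := by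
    unfold ml
    positivity
  have hn0 : (0 : ℝ) < n := lt_of_lt_of_le (by positivity) hn
  have hn1 : 1 ≤ n := by exact_mod_cast hn0
  refine (h n (j + u) hn1).trans (ENNReal.ofReal_le_ofReal ?_)
  have hpn : 0 < (n : ℝ) ^ (-(3 / 2) : ℝ) := by positivity
  have h1 : ml (j + u) ≤ 2 ^ (2 * u) * ml j := by
    unfold ml
    rw [← Real.rpow_natCast 2 (2 * u), ← Real.rpow_add (by norm_num)]
    refine Real.rpow_le_rpow_of_exponent_le (by norm_num) ?_
    push_cast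
    have : (0 : ℝ) ≤ u := Nat.cast_nonneg _
    linarith
  have h2 : ml (j + u) / max (n : ℝ) (ml (j + u)) ≤ 2 ^ (2 * u) / 2 ^ b0 := by
    have h3 : ml (j + u) / max (n : ℝ) (ml (j + u)) ≤ ml (j + u) / n :=
      div_le_div_of_nonneg_left (by unfold ml; positivity) hn0 (le_max_left _ _)
    refine h3.trans ?_
    rw [div_le_div_iff₀ hn0 (by positivity)]
    calc ml (j + u) * 2 ^ b0 ≤ 2 ^ (2 * u) * ml j * 2 ^ b0 := by gcongr
      _ = 2 ^ (2 * u) * (2 ^ b0 * ml j) := by ring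
      _ ≤ 2 ^ (2 * u) * n := by gcongr
  rw [pow_one]
  have h3 : A * (2 ^ (2 * u) / 2 ^ b0) ≤ ε := by
    rw [div_lt_iff₀ hε] at hb0
    rw [← mul_div_assoc, div_le_iff₀ (by positivity)]
    linarith
  calc A * (n : ℝ) ^ (-(3 / 2) : ℝ) * (ml (j + u) / max (n : ℝ) (ml (j + u)))
      ≤ A * (n : ℝ) ^ (-(3 / 2) : ℝ) * (2 ^ (2 * u) / 2 ^ b0) := by gcongr
    _ = A * (2 ^ (2 * u) / 2 ^ b0) * (n : ℝ) ^ (-(3 / 2) : ℝ) := by ring
    _ ≤ ε * (n : ℝ) ^ (-(3 / 2) : ℝ) := by gcongr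

end ARM

end HexObs
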