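import Mathlib

/-!
# The corridor lemma (two arms), discrete and without topology

Two words `γ s` (`s : Bool`) run from far away to their tips through the cells of a grid. If `q1`, `q2` are cells far from
both words, if no word comes near itself after a large excursion, if the words do not come near each other, and if only
the tip parts come near the centre, then `q1` and `q2` are joined by a chain of cells which keeps away from both words.

Proof: `cr q1 q2 u w` = signed number of crossings of the L-shaped dual path from `q1` to `q2` by the L-shaped path from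
`u` to `w`. It is additive on boxes which miss `q1`, `q2`, it vanishes far away, its coboundary is `δ q1 - δ q2`. The
crossing numbers along the words give a function `θ` near the words with `cr = dθ` on the boundary of the set `O` of the
cells which can be reached from `q1`; so the sum of `d (cr - dθ)` over `O` vanishes, hence `q2 ∈ O`.
-/

set_option autoImplicit false

namespace HexObs

namespace ARM

/-- sup distance at most `d` -/
def nr (d : ℤ) (u w : ℤ × ℤ) : Prop := |w.1 - u.1| ≤ d ∧ |w.2 - u.2| ≤ d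

instance (d : ℤ) (u w : ℤ × ℤ) : Decidable (nr d u w) := by unfold nr; infer_instance

lemma nr_iff {d : ℤ} {u w : ℤ × ℤ} :
    nr d u w ↔ (w.1 - u.1 ≤ d ∧ u.1 - w.1 ≤ d) ∧ (w.2 - u.2 ≤ d ∧ u.2 - w.2 ≤ d) := by
  unfold nr
  rw [abs_le, abs_le]
  constructor
  · rintro ⟨⟨h1, h2⟩, h3, h4⟩
    exact ⟨⟨by omega, by omega⟩, by omega, by omega⟩
  · rintro ⟨⟨h1, h2⟩, h3, h4⟩
    exact ⟨⟨by omega, by omega⟩, by omega, by omega⟩

lemma nr_symm {d : ℤ} {u w : ℤ × ℤ} (h : nr d u w) : nr d w u := by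
  rw [nr_iff] at *
  omega

lemma nr_trans {d e : ℤ} {u v w : ℤ × ℤ} (h : nr d u v) (h' : nr e v w) : nr (d + e) u w := by
  rw [nr_iff] at *
  omega

lemma nr_mono {d e : ℤ} (hde : d ≤ e) {u w : ℤ × ℤ} (h : nr d u w) : nr e u w := by
  rw [nr_iff] at *
  omega

lemma nr_self {d : ℤ} (hd : 0 ≤ d) (u : ℤ × ℤ) : nr d u u := by
  rw [nr_iff]
  omega

/-- neighbouring cells -/
def adj (f g : ℤ × ℤ) : Prop := g = f + (1, 0) ∨ g = f - (1, 0) ∨ g = f + (0, 1) ∨ g = f - (0, 1)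

/-- the vertex `u` is to the right of the face `q` -/
def sA (q u : ℤ × ℤ) : ℤ := if q.1 < u.1 then 1 else 0

/-- the vertex `u` is above the face `q` -/
def sB (q u : ℤ × ℤ) : ℤ := if q.2 < u.2 then 1 else 0

/-- crossings of the dual path from `q1` to `q2` by the path from `u` to `w` -/
def cr (q1 q2 u w : ℤ × ℤ) : ℤ :=
  -(sA q2 w - sA q2 u) * (sB q1 u - sB q2 u) + (sA q1 w - sA q2 w) * (sB q1 w - sB q1 u)

variable {q1 q2 : ℤ × ℤ}

lemma cr_self (u : ℤ × ℤ) : cr q1 q2 u u = 0 := by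
  unfold cr
  ring

/-- **the coboundary of the crossing number** -/
lemma d_cr (f : ℤ × ℤ) : cr q1 q2 f (f + (1, 0)) + cr q1 q2 (f + (1, 0)) (f + (1, 0) + (0, 1)) -
    cr q1 q2 (f + (0, 1)) (f + (0, 1) + (1, 0)) - cr q1 q2 f (f + (0, 1)) =
    (if f = q1 then 1 else 0) - if f = q2 then 1 else 0 := by
  obtain ⟨a, b⟩ := f
  obtain ⟨a1, b1⟩ := q1
  obtain ⟨a2, b2⟩ := q2
  simp only [cr, sA, sB, Prod.mk_add_mk, add_zero, Prod.mk.injEq]
  have e1 : ∀ c d : ℤ, (if c < d + 1 then (1 : ℤ) else 0) = (if c < d then 1 else 0) + if d = c then 1 else 0 := by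
    intro c d
    split_ifs <;> omega
  rw [e1 a2 a, e1 a1 a, e1 b1 b, e1 b2 b]
  have e2 : (if a = a1 ∧ b = b1 then (1 : ℤ) else 0) = (if a = a1 then 1 else 0) * if b = b1 then 1 else 0 := by
    split_ifs <;> simp_all
  have e3 : (if a = a2 ∧ b = b2 then (1 : ℤ) else 0) = (if a = a2 then 1 else 0) * if b = b2 then 1 else 0 := by
    split_ifs <;> simp_all
  rw [e2, e3]
  ring

/-- the box of radius `ρ` around `u` does not contain the face `q` -/
def Fr (ρ : ℤ) (u q : ℤ × ℤ) : Prop := ¬ nr ρ u q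

lemma Fr.cases {ρ : ℤ} {u q : ℤ × ℤ} (h : Fr ρ u q) :
    (∀ w, nr ρ u w → sA q w = sA q u) ∨ (∀ w, nr ρ u w → sB q w = sB q u) := by
  by_cases h1 : |q.1 - u.1| ≤ ρ
  · have h2 : ¬ |q.2 - u.2| ≤ ρ := fun h2 => h ⟨h1, h2⟩
    right
    intro w hw
    rw [nr_iff] at hw
    rw [abs_le] at h2
    unfold sB
    by_cases h3 : q.2 < u.2
    · rw [if_pos h3, if_pos (by omega)]
    · rw [if_neg h3, if_neg (by omega)]
  · left
    intro w hw
    rw [nr_iff] at hw
    rw [abs_le] at h1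
    unfold sA
    by_cases h3 : q.1 < u.1
    · rw [if_pos h3, if_pos (by omega)]
    · rw [if_neg h3, if_neg (by omega)]

/-- **the crossing number is additive on boxes which miss the two faces** -/
lemma cr_add {ρ : ℤ} {u a b c : ℤ × ℤ} (h1 : Fr ρ u q1) (h2 : Fr ρ u q2) (ha : nr ρ u a) (hb : nr ρ u b)
    (hc : nr ρ u c) : cr q1 q2 a b + cr q1 q2 b c = cr q1 q2 a c := by
  unfold cr
  rcases h1.cases with k1 | k1 <;> rcases h2.cases with k2 | k2 <;>
  · simp only [k1 a ha, k1 b hb, k1 c hc, k2 a ha, k2 b hb, k2 c hc]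
    ring

/-- **the crossing number vanishes outside of the bounding box** -/
lemma cr_out {R0 d : ℤ} {p u w : ℤ × ℤ} (h1 : nr R0 p q1) (h2 : nr R0 p q2) (hu : ¬ nr (R0 + d) p u)
    (hw : nr d u w) : cr q1 q2 u w = 0 := by
  have hc : (∀ q, nr R0 p q → sA q u = 1 ∧ sA q w = 1) ∨ (∀ q, nr R0 p q → sA q u = 0 ∧ sA q w = 0) ∨
      (∀ q, nr R0 p q → sB q u = 1 ∧ sB q w = 1) ∨ (∀ q, nr R0 p q → sB q u = 0 ∧ sB q w = 0) := by
    rw [nr_iff] at hu hw
    by_cases a1 : R0 + d < u.1 - p.1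
    · left
      intro q hq
      rw [nr_iff] at hq
      exact ⟨if_pos (by omega), if_pos (by omega)⟩
    by_cases a2 : R0 + d < p.1 - u.1
    · right; left
      intro q hq
      rw [nr_iff] at hq
      exact ⟨if_neg (by omega), if_neg (by omega)⟩
    by_cases a3 : R0 + d < u.2 - p.2
    · right; right; left
      intro q hq
      rw [nr_iff] at hq
      exact ⟨if_pos (by omega), if_pos (by omega)⟩
    · right; right; right
      intro q hq
      rw [nr_iff] at hq
      exact ⟨if_neg (by omega), if_neg (by omega)⟩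
  unfold cr
  rcases hc with h | h | h | h
  · rw [(h q1 h1).2, (h q2 h2).1, (h q2 h2).2]
    ring
  · rw [(h q1 h1).2, (h q2 h2).1, (h q2 h2).2]
    ring
  · rw [(h q1 h1).1, (h q1 h1).2, (h q2 h2).1]
    ring
  · rw [(h q1 h1).1, (h q1 h1).2, (h q2 h2).1]
    ring

/-- crossings of the dual path by the word up to the time `i` -/
def kap (q1 q2 : ℤ × ℤ) (γ : ℕ → ℤ × ℤ) (i : ℕ) : ℤ := ∑ k ∈ Finset.range i, cr q1 q2 (γ k) (γ (k + 1))

lemma kap_succ (γ : ℕ → ℤ × ℤ) (i : ℕ) : kap q1 q2 γ (i + 1) = kap q1 q2 γ i + cr q1 q2 (γ i) (γ (i + 1)) :=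
  Finset.sum_range_succ _ _

lemma kap_box {γ : ℕ → ℤ × ℤ} {i : ℕ} {ρ : ℤ} (hρ : 0 ≤ ρ) (h1 : Fr ρ (γ i) q1) (h2 : Fr ρ (γ i) q2) (j : ℕ)
    (hij : i ≤ j) (h : ∀ k, i ≤ k → k ≤ j → nr ρ (γ i) (γ k)) :
    kap q1 q2 γ j = kap q1 q2 γ i + cr q1 q2 (γ i) (γ j) := by
  induction j, hij using Nat.le_induction with
  | base => rw [cr_self, add_zero]
  | succ j hij ih =>
    rw [kap_succ, ih fun k hk hk' => h k hk (by omega), add_assoc,
      cr_add h1 h2 (nr_self hρ _) (h j hij (by omega)) (h (j + 1) (by omega) le_rfl)]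

lemma kap_out {γ : ℕ → ℤ × ℤ} {R0 : ℤ} {p : ℤ × ℤ} (h1 : nr R0 p q1) (h2 : nr R0 p q2) (i : ℕ)
    (hs : ∀ k, k < i → nr 1 (γ k) (γ (k + 1))) (h : ∀ k, k ≤ i → ¬ nr (R0 + 1) p (γ k)) : kap q1 q2 γ i = 0 := by
  induction i with
  | zero => rfl
  | succ i ih =>
    rw [kap_succ, ih (fun k hk => hs k (by omega)) fun k hk => h k (by omega), zero_add]
    exact cr_out h1 h2 (h i (by omega)) (hs i (by omega))

/-- sums over a finite set of faces of a function which vanishes on its boundary -/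
lemma sum_shift {O : Finset (ℤ × ℤ)} {H : ℤ × ℤ → ℤ} {e : ℤ × ℤ} (h1 : ∀ f ∈ O, f - e ∉ O → H f = 0)
    (h2 : ∀ f ∈ O, f + e ∉ O → H (f + e) = 0) : ∑ f ∈ O, H f = ∑ f ∈ O, H (f + e) := by
  classical
  have a1 : ∑ f ∈ O, H f = ∑ f ∈ O.filter (fun f => f - e ∈ O), H f := by
    rw [Finset.sum_filter]
    refine Finset.sum_congr rfl fun f hf => ?_
    split_ifs with h
    · rfl
    · exact h1 f hf h
  have a2 : ∑ f ∈ O, H (f + e) = ∑ f ∈ O.filter (fun f => f + e ∈ O), H (f + e) := by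
    rw [Finset.sum_filter]
    refine Finset.sum_congr rfl fun f hf => ?_
    split_ifs with h
    · rfl
    · exact h2 f hf h
  rw [a1, a2]
  refine Finset.sum_nbij' (fun f => f - e) (fun f => f + e) ?_ ?_ ?_ ?_ ?_
  · intro f hf
    rw [Finset.mem_filter] at hf ⊢
    rw [sub_add_cancel]
    exact ⟨hf.2, hf.1⟩
  · intro f hf
    rw [Finset.mem_filter] at hf ⊢
    rw [add_sub_cancel_right]
    exact ⟨hf.2, hf.1⟩
  · intro f _
    exact sub_add_cancel _ _
  · intro f _
    exact add_sub_cancel_right _ _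
  · intro f _
    rw [sub_add_cancel]

/-- **Stokes**: a set of faces which contains `q1` and on whose boundary the crossing number is exact contains `q2` -/
lemma stokes {O : Finset (ℤ × ℤ)} (θ : ℤ × ℤ → ℤ) (hq : q1 ∈ O)
    (hb : ∀ f ∈ O, f - (0, 1) ∉ O → cr q1 q2 f (f + (1, 0)) = θ (f + (1, 0)) - θ f)
    (ht : ∀ f ∈ O, f + (0, 1) ∉ O → cr q1 q2 (f + (0, 1)) (f + (0, 1) + (1, 0)) = θ (f + (0, 1) + (1, 0)) - θ (f + (0, 1)))
    (hl : ∀ f ∈ O, f - (1, 0) ∉ O → cr q1 q2 f (f + (0, 1)) = θ (f + (0, 1)) - θ f)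
    (hr : ∀ f ∈ O, f + (1, 0) ∉ O → cr q1 q2 (f + (1, 0)) (f + (1, 0) + (0, 1)) = θ (f + (1, 0) + (0, 1)) - θ (f + (1, 0))) :
    q2 ∈ O := by
  classical
  by_contra hq2
  have s1 := sum_shift (O := O) (H := fun x => cr q1 q2 x (x + (1, 0)) - (θ (x + (1, 0)) - θ x)) (e := (0, 1))
    (fun f hf h => by rw [hb f hf h, sub_self]) (fun f hf h => by rw [ht f hf h, sub_self])
  have s2 := sum_shift (O := O) (H := fun x => cr q1 q2 x (x + (0, 1)) - (θ (x + (0, 1)) - θ x)) (e := (1, 0))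
    (fun f hf h => by rw [hl f hf h, sub_self]) (fun f hf h => by rw [hr f hf h, sub_self])
  have s3 : ∑ f ∈ O, ((if f = q1 then (1 : ℤ) else 0) - if f = q2 then 1 else 0) = 1 := by
    rw [Finset.sum_sub_distrib, Finset.sum_ite_eq', Finset.sum_ite_eq', if_pos hq, if_neg hq2]
    rfl
  have s4 : ∑ f ∈ O, ((if f = q1 then (1 : ℤ) else 0) - if f = q2 then 1 else 0) = 0 := by
    have e : ∀ f : ℤ × ℤ, ((if f = q1 then (1 : ℤ) else 0) - if f = q2 then 1 else 0) =
        (cr q1 q2 f (f + (1, 0)) - (θ (f + (1, 0)) - θ f)) -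
        (cr q1 q2 (f + (0, 1)) (f + (0, 1) + (1, 0)) - (θ (f + (0, 1) + (1, 0)) - θ (f + (0, 1)))) -
        ((cr q1 q2 f (f + (0, 1)) - (θ (f + (0, 1)) - θ f)) -
        (cr q1 q2 (f + (1, 0)) (f + (1, 0) + (0, 1)) - (θ (f + (1, 0) + (0, 1)) - θ (f + (1, 0))))) := by
      intro f
      rw [← d_cr f, show f + (1, 0) + (0, 1) = f + (0, 1) + (1, 0) by abel]
      ring
    have s5 : ∀ a b c d : ℤ × ℤ → ℤ, ∑ f ∈ O, a f = ∑ f ∈ O, b f → ∑ f ∈ O, c f = ∑ f ∈ O, d f →
        ∑ f ∈ O, (a f - b f - (c f - d f)) = 0 := by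
      intro a b c d h1 h2
      rw [Finset.sum_sub_distrib, Finset.sum_sub_distrib, Finset.sum_sub_distrib, h1, h2]
      ring
    rw [Finset.sum_congr rfl fun f _ => e f]
    exact s5 _ _ _ _ s1 s2
  rw [s3] at s4
  exact one_ne_zero s4

/-- **THE CORRIDOR LEMMA.** Two words, `s : Bool`, from far away to their tips, cells `γ s 0, .., γ s (n s)`; cells `q1`,
`q2` in the box of radius `R0` around `p`, at distance more than `ρ` from the words (`hfar`); a word which comes back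
near itself has not left the box of radius `ρ` in between (`hnt`); the words do not come near each other (`hmix`); up to
the last time outside of the box of radius `R1` they do not come near `p` (`hes`). Then `q2` can be reached from `q1`
inside of the box of radius `R'`, at distance more than `r` from the words. -/
theorem corridor {n : Bool → ℕ} {γ : Bool → ℕ → ℤ × ℤ} {p q1 q2 : ℤ × ℤ} {r ρ R0 R1 R' : ℤ} (hr : 0 ≤ r)
    (hρ : 2 * (r + 1) ≤ ρ) (hR0 : 0 ≤ R0) (hR : R0 + r + 2 ≤ R1) (hR' : R1 + r + 2 ≤ R')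
    (hstep : ∀ s i, i < n s → nr 1 (γ s i) (γ s (i + 1))) (hq1 : nr R0 p q1) (hq2 : nr R0 p q2)
    (hfar : ∀ s i, i ≤ n s → ¬ nr ρ (γ s i) q1 ∧ ¬ nr ρ (γ s i) q2)
    (hnt : ∀ s i j, i ≤ j → j ≤ n s → nr (2 * (r + 1)) (γ s i) (γ s j) → nr (R' + r + 2) p (γ s i) →
      ∀ k, i ≤ k → k ≤ j → nr ρ (γ s i) (γ s k))
    (hmix : ∀ i j, i ≤ n false → j ≤ n true → nr (R' + r + 2) p (γ false i) → ¬ nr (2 * (r + 1)) (γ false i) (γ true j))
    (hes : ∀ s i, i ≤ n s → ¬ nr R1 p (γ s i) → ∀ k, k ≤ i → ¬ nr (R0 + 1) p (γ s k)) :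
    Relation.ReflTransGen (fun f g => adj f g ∧ nr R' p g ∧ ∀ s i, i ≤ n s → ¬ nr r (γ s i) g) q1 q2 := by
  classical
  obtain ⟨ok, hok⟩ : ∃ ok : ℤ × ℤ → Prop, ok = fun g => nr R' p g ∧ ∀ s i, i ≤ n s → ¬ nr r (γ s i) g := ⟨_, rfl⟩
  have hρ0 : 0 ≤ ρ := by omega
  have okq : ok q1 := by
    rw [hok]
    exact ⟨nr_mono (by omega) hq1, fun s i hi h => (hfar s i hi).1 (nr_mono (by omega) h)⟩
  -- the reachable set
  obtain ⟨Re, hRe⟩ : ∃ Re : ℤ × ℤ → Prop, Re = Relation.ReflTransGen (fun f g => adj f g ∧ ok g) q1 := ⟨_, rfl⟩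
  have ReOk : ∀ f, Re f → ok f := by
    intro f hf
    rw [hRe] at hf
    induction hf with
    | refl => exact okq
    | tail _ h _ => exact h.2
  have ReSt : ∀ f g, Re f → adj f g → ok g → Re g := by
    intro f g hf h1 h2
    rw [hRe] at hf ⊢
    exact hf.tail ⟨h1, h2⟩
  obtain ⟨O, hO⟩ : ∃ O : Finset (ℤ × ℤ), O = (Finset.Icc (p.1 - R', p.2 - R') (p.1 + R', p.2 + R')).filter Re := ⟨_, rfl⟩
  have memO : ∀ f, f ∈ O ↔ Re f := by
    intro f
    rw [hO, Finset.mem_filter]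
    refine ⟨fun h => h.2, fun h => ⟨?_, h⟩⟩
    have h1 := ReOk f h
    rw [hok] at h1
    have h2 := h1.1
    rw [nr_iff] at h2
    rw [Finset.mem_Icc, Prod.le_def, Prod.le_def]
    simp only
    omega
  -- the potential
  obtain ⟨val, hval⟩ : ∃ val : Bool × ℕ → ℤ × ℤ → ℤ, val = fun a x => kap q1 q2 (γ a.1) a.2 + cr q1 q2 (γ a.1 a.2) x :=
    ⟨_, rfl⟩
  obtain ⟨Nr, hNr⟩ : ∃ Nr : Bool × ℕ → ℤ × ℤ → Prop, Nr = fun a x => a.2 ≤ n a.1 ∧ nr (r + 1) (γ a.1 a.2) x := ⟨_, rfl⟩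
  -- single valued
  have single : ∀ a b : Bool × ℕ, ∀ x, nr (R' + 1) p x → Nr a x → Nr b x → val a x = val b x := by
    have key : ∀ (s : Bool) (i j : ℕ) (x : ℤ × ℤ), nr (R' + 1) p x → i ≤ j → j ≤ n s → nr (r + 1) (γ s i) x →
        nr (r + 1) (γ s j) x → val (s, i) x = val (s, j) x := by
      intro s i j x hx hij hj h1 h2
      have h3 : nr (2 * (r + 1)) (γ s i) (γ s j) := by
        have := nr_trans h1 (nr_symm h2)
        rwa [← two_mul] at this
      have h4 : nr (R' + r + 2) p (γ s i) := by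
        have := nr_trans hx (nr_symm h1)
        rwa [show R' + 1 + (r + 1) = R' + r + 2 by ring] at this
      have h5 := hnt s i j hij hj h3 h4
      have f1 := (hfar s i (hij.trans hj)).1
      have f2 := (hfar s i (hij.trans hj)).2
      have h6 := kap_box (q1 := q1) (q2 := q2) hρ0 f1 f2 j hij h5
      rw [hval]
      simp only
      rw [h6, add_assoc, cr_add f1 f2 (nr_self hρ0 _) (h5 j hij le_rfl) (nr_mono (by omega) h1)]
    intro a b x hx ha hb
    rw [hNr] at ha hb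
    obtain ⟨s, i⟩ := a
    obtain ⟨s', j⟩ := b
    simp only at ha hb
    by_cases hs : s = s'
    · subst hs
      rcases le_total i j with h | h
      · exact key s i j x hx h hb.1 ha.2 hb.2
      · exact (key s j i x hx h ha.1 hb.2 ha.2).symm
    · exfalso
      have h4 : ∀ {v : ℤ × ℤ}, nr (r + 1) v x → nr (R' + r + 2) p v := by
        intro v h1
        have := nr_trans hx (nr_symm h1)
        rwa [show R' + 1 + (r + 1) = R' + r + 2 by ring] at this
      have h3 : ∀ {v w : ℤ × ℤ}, nr (r + 1) v x → nr (r + 1) w x → nr (2 * (r + 1)) v w := by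
        intro v w h1 h2
        have := nr_trans h1 (nr_symm h2)
        rwa [← two_mul] at this
      cases s <;> cases s'
      · exact hs rfl
      · exact hmix i j ha.1 hb.1 (h4 ha.2) (h3 ha.2 hb.2)
      · exact hmix j i hb.1 ha.1 (h4 hb.2) (h3 hb.2 ha.2)
      · exact hs rfl
  obtain ⟨θ, hθ⟩ : ∃ θ : ℤ × ℤ → ℤ, θ = fun x => if h : ∃ a, Nr a x then val h.choose x else 0 := ⟨_, rfl⟩
  have hθ1 : ∀ a x, nr (R' + 1) p x → Nr a x → θ x = val a x := by
    intro a x hx ha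
    have h : ∃ a, Nr a x := ⟨a, ha⟩
    rw [hθ]
    simp only
    rw [dif_pos h]
    exact single _ _ x hx h.choose_spec ha
  -- near the boundary of the box
  have hθ2 : ∀ x, nr (R' + 1) p x → ¬ nr (R' - 1) p x → θ x = 0 := by
    intro x hx hx'
    by_cases h : ∃ a, Nr a x
    · obtain ⟨⟨s, i⟩, ha⟩ := h
      rw [hθ1 _ x hx ha, hval]
      rw [hNr] at ha
      simp only at ha ⊢
      have h1 : ¬ nr R1 p (γ s i) := fun h1 => hx' (nr_mono (by omega) (nr_trans h1 ha.2))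
      have h2 := hes s i ha.1 h1
      rw [kap_out hq1 hq2 i (fun k hk => hstep s k (hk.trans_le ha.1)) h2, zero_add]
      exact cr_out hq1 hq2 (d := r + 1) (fun h3 => h1 (nr_mono (by omega) h3)) ha.2
    · rw [hθ]
      simp only
      rw [dif_neg h]
  -- the crossing number is exact on an edge of a forbidden face
  have edge : ∀ g x y, ¬ ok g → nr (R' + 1) p g → nr 1 x y → (∀ v, nr r v g → nr (r + 1) v x ∧ nr (r + 1) v y) →
      (¬ nr R' p g → ¬ nr (R' - 1) p x ∧ ¬ nr (R' - 1) p y) → nr (R' + 1) p x → nr (R' + 1) p y →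
      cr q1 q2 x y = θ y - θ x := by
    intro g x y hg _ hxy hv hb hx hy
    by_cases h : nr R' p g
    · have h1 : ∃ s i, i ≤ n s ∧ nr r (γ s i) g := by
        by_contra hcon
        push Not at hcon
        apply hg
        rw [hok]
        exact ⟨h, fun s i hi => hcon s i hi⟩
      obtain ⟨s, i, hi, h2⟩ := h1
      obtain ⟨h3, h4⟩ := hv _ h2
      have a1 : Nr (s, i) x := by rw [hNr]; exact ⟨hi, h3⟩
      have a2 : Nr (s, i) y := by rw [hNr]; exact ⟨hi, h4⟩
      rw [hθ1 _ x hx a1, hθ1 _ y hy a2, hval]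
      simp only
      have f1 := (hfar s i hi).1
      have f2 := (hfar s i hi).2
      rw [← cr_add f1 f2 (nr_self hρ0 _) (nr_mono (by omega) h3) (nr_mono (by omega) h4)]
      ring
    · obtain ⟨b1, b2⟩ := hb h
      rw [hθ2 x hx b1, hθ2 y hy b2, sub_self]
      exact cr_out hq1 hq2 (d := 1) (fun h3 => b1 (nr_mono (by omega) h3)) hxy
  have inO : ∀ f ∈ O, nr R' p f := by
    intro f hf
    have := ReOk f ((memO f).1 hf)
    rw [hok] at this
    exact this.1
  have notok : ∀ f ∈ O, ∀ g, adj f g → g ∉ O → ¬ ok g := by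
    intro f hf g h1 h2 h3
    exact h2 ((memO g).2 (ReSt f g ((memO f).1 hf) h1 h3))
  have fin : q2 ∈ O := by
    refine stokes (q1 := q1) (q2 := q2) θ ((memO q1).2 ?_) ?_ ?_ ?_ ?_
    · rw [hRe]
    · intro f hf h
      have h1 := inO f hf
      rw [nr_iff] at h1
      refine edge (f - (0, 1)) f (f + (1, 0)) (notok f hf _ (Or.inr (Or.inr (Or.inr rfl))) h) ?_ ?_ ?_ ?_ ?_ ?_
      all_goals simp only [nr_iff, Prod.fst_sub, Prod.snd_sub, Prod.fst_add, Prod.snd_add]
      all_goals omega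
    · intro f hf h
      have h1 := inO f hf
      rw [nr_iff] at h1
      refine edge (f + (0, 1)) (f + (0, 1)) (f + (0, 1) + (1, 0)) (notok f hf _ (Or.inr (Or.inr (Or.inl rfl))) h) ?_ ?_ ?_ ?_ ?_ ?_
      all_goals simp only [nr_iff, Prod.fst_sub, Prod.snd_sub, Prod.fst_add, Prod.snd_add]
      all_goals omega
    · intro f hf h
      have h1 := inO f hf
      rw [nr_iff] at h1
      refine edge (f - (1, 0)) f (f + (0, 1)) (notok f hf _ (Or.inr (Or.inl rfl)) h) ?_ ?_ ?_ ?_ ?_ ?_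
      all_goals simp only [nr_iff, Prod.fst_sub, Prod.snd_sub, Prod.fst_add, Prod.snd_add]
      all_goals omega
    · intro f hf h
      have h1 := inO f hf
      rw [nr_iff] at h1
      refine edge (f + (1, 0)) (f + (1, 0)) (f + (1, 0) + (0, 1)) (notok f hf _ (Or.inl rfl) h) ?_ ?_ ?_ ?_ ?_ ?_
      all_goals simp only [nr_iff, Prod.fst_sub, Prod.snd_sub, Prod.fst_add, Prod.snd_add]
      all_goals omega
  have h := (memO q2).1 fin
  rw [hRe, hok] at h
  exact h

end ARM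

end HexObs
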