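import Pool.Agent.TIP.DefsN
import Pool.Agent.TIW.Defs
import Pool.Agent.POL.Defs

/-!
# ARM (doc nu34/ARM2_37): two arms. Definitions and literals between the rows (part 1, up to (T1)).

Words with both ends close: `F n j`. `pr n j`: the predicted mass (explicit powers: Ub k ~ 2^(3k/4), Xb k ~ 2^(25k/48),
mean length ~ 2^(4k/3)). `HF D n j`: the hypothesis of the sandwich (lengths at most n, levels at least j).
-/

set_option autoImplicit false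

namespace HexObs

namespace ARM

open Finset TS SDN SIM NTA TIP

open scoped ENNReal

/-- length scale of the level i -/
noncomputable def ml (i : ℕ) : ℝ := (2 : ℝ) ^ ((4 / 3 : ℝ) * (i : ℝ))

/-- words with at least n and less than n + m_j letters, end within 2 ^ j of z -/
def Fz (n j : ℕ) (z : Pt) : Set (List Bool) :=
  {L | L ∈ SA ∧ n ≤ L.length ∧ (L.length : ℝ) < n + ml j ∧ TIW.hn (TIW.en L - z) ≤ 2 ^ j}

/-- **words with both ends close** -/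
def F (n j : ℕ) : Set (List Bool) := Fz n j 0

/-- the same with a slightly larger radius (closed under `rv`) -/
def Fp (n j : ℕ) : Set (List Bool) :=
  {L | L ∈ SA ∧ n ≤ L.length ∧ (L.length : ℝ) < n + ml j ∧ TIW.hn (TIW.en L) ≤ 2 ^ j + 2}

/-- the reversed walk: from the last vertex of L to the vertex number 1 of L (one letter less; `TIP.rev_SA`) -/
def rv (L : List Bool) : List Bool := (rev L).drop 1

/-- the predicted mass of F n i -/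
noncomputable def pr (n i : ℕ) : ℝ := (2 : ℝ) ^ ((43 / 24 : ℝ) * (i : ℝ)) * (ml i / max (n : ℝ) (ml i)) ^ (3 / 2 : ℝ)

/-- the hypothesis of the sandwich: lengths at most n, levels at least j -/
def HF (D : ℝ) (n j : ℕ) : Prop := ∀ n' i, n' ≤ n → j ≤ i → gf (F n' i) ≤ ENNReal.ofReal (D * pr n' i)

/-- **(T1)** -/
def T1 : Prop := ∃ D : ℝ, 0 < D ∧ ∀ n i : ℕ, gf (F n i) ≤ ENNReal.ofReal (D * pr n i)

/-! ### base rows (no hypothesis HF) -/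

/-- **row B1**: lengths at most lam m_i -/
def BaseSt : Prop := ∀ lam : ℝ, 0 < lam → ∃ C : ℝ, 0 < C ∧ ∀ n i : ℕ, (n : ℝ) ≤ lam * ml i →
  gf (F n i) ≤ ENNReal.ofReal (C * pr n i)

/-- distance of the vertex t of L from the end -/
def dz (L : List Bool) (t : ℕ) : ℤ := TIW.hn (vx oo up L t - TIW.en L)

/-- **row B2**: long words in a small ball -/
def ConfSt : Prop := ∃ C : ℝ, 0 < C ∧ ∀ n i : ℕ,
  gf {L | L ∈ SA ∧ n ≤ L.length ∧ ∀ s, s ≤ L.length → dz L s ≤ 2 ^ i} ≤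
    ENNReal.ofReal (C * ((2 : ℝ) ^ ((43 / 24 : ℝ) * (i : ℝ)) * (ml i / max (n : ℝ) (ml i)) ^ (4 : ℕ)))

/-- **row B3**: the parts behind a good tip, with the moments of the length -/
def YMassW : Prop := ∀ (η : ℝ) (c q : ℕ), 0 < η → ∃ C : ℝ, 0 < C ∧ ∀ b : ℕ,
  ∑' Y : {Y : List Bool | Y ∈ SA ∧ rev Y ∈ GT b η ∧ In (2 ^ (b + c)) Y},
    wE (Y : List Bool) * ENNReal.ofReal ((1 + ((Y : List Bool).length : ℝ) / ml b) ^ q) ≤ ENNReal.ofReal (C * Ub b) * Xb b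

/-- **row B3'** (helper63): the constant explicit in the box -/
def YMassJ : Prop := ∀ (η : ℝ) (q : ℕ), 0 < η → ∃ C : ℝ, 1 ≤ C ∧ ∀ b J : ℕ,
  ∑' Y : {Y : List Bool | Y ∈ SA ∧ rev Y ∈ GT b η ∧ In (2 ^ (b + J)) Y},
    wE (Y : List Bool) * ENNReal.ofReal ((1 + ((Y : List Bool).length : ℝ) / ml (b + J)) ^ q) ≤
      ENNReal.ofReal (C ^ (J + 1) * Ub b) * Xb b

/-! ### rows T, E, N: the tip lemma in the class F -/

/-- **row T** (tip lemma in F) -/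
def TipF : Prop := ∀ η : ℝ, 0 < η → ∃ C : ℝ, 0 < C ∧ ∀ (D : ℝ) (n i b : ℕ), 0 ≤ D → HF D n i → b ≤ i →
  gf (F n i ∩ GT b η) * Xb b ≤ ENNReal.ofReal (C * D * pr n i)

/-- the weight of a missing length -/
noncomputable def wt (n a i : ℕ) : ℝ := (1 + ((n - a : ℕ) : ℝ) / ml i) ^ (-(4 : ℝ))

/-- **row E** (double counting: a part Y of size at most 2 ^ (i + c) behind a good tip; i >= j the level of the part) -/
def ExF : Prop := ∀ (η : ℝ) (c : ℕ), 0 < η → ∃ C : ℝ, 0 < C ∧ ∀ (D : ℝ) (n j i b : ℕ), 0 ≤ D → HF D n i → j ≤ i → b ≤ i →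
  ∀ (ρ : List Bool → List Bool → Prop) (x : ℝ≥0∞) (q : ℝ), (∀ A Y, ρ A Y → A ∈ GT b η) →
    (∀ A, gf {Y | ρ A Y ∧ In (2 ^ (i + c)) Y ∧ A ++ Y ∈ Fp n j} ≤ x * ENNReal.ofReal (wt n A.length i)) → 0 < q →
    gf {L | L ∈ Fp n j ∧ q ≤ (nD (2 ^ (i + c)) ρ L : ℝ)} * (ENNReal.ofReal q * Xb b) ≤ ENNReal.ofReal (C * D * pr n i) * x

/-- good cuts near the end: the number of the cuts of the level j, free half ball of radius 2 ^ (j - a) -/
noncomputable def gc (j a m : ℕ) (η : ℝ) (L : List Bool) : ℝ := ((NCa j (j - a) (2 ^ (j + m)) η L).ncard : ℝ)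

/-- **row N** (many good cuts near the end, in the class F) -/
def NF : Prop := ∀ ε : ℝ, 0 < ε → ∃ (η κ : ℝ) (a m b0 : ℕ), 0 < η ∧ 0 < κ ∧ a ≤ b0 ∧ ∀ (D : ℝ) (n j : ℕ), 0 ≤ D →
  HF D n j → b0 ≤ j → 2 ^ b0 * ml j ≤ n → gf {L | L ∈ Fp n j ∧ gc j a m η L < κ * Ub j} ≤ ENNReal.ofReal (ε * D * pr n j)

/-! ### rows I, S: extra strands -/

/-- extra strand of the level i at the end: a visit a of the ball of radius 2 ^ (l + 1) around the end, before it the word was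
at distance more than 2 ^ (i - 1), behind it it comes to such a distance, but stays in the ball of radius 2 ^ (i + 2) -/
def ESe (l i : ℕ) : Set (List Bool) :=
  {L | ∃ t a b, t < a ∧ a < b ∧ b ≤ L.length ∧ 2 ^ i < 2 * dz L t ∧ dz L a ≤ 2 ^ (l + 1) ∧ 2 ^ i < 2 * dz L b ∧
    ∀ s, a ≤ s → s ≤ L.length → dz L s ≤ 2 ^ (i + 2)}

/-- **row I** (inner bound): parts Y behind a good tip of the scale i - m, m <= θ (i - j) + m0, from a distance more than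
2 ^ (i - 2) of the end, with a visit of the small ball and a far excursion behind it; the end of Y prescribed up to 2 ^ j, the
length up to m_j -/
def InSt : Prop := ∀ θ1 : ℝ, 0 < θ1 → ∃ θ : ℝ, 0 < θ ∧ ∀ (η : ℝ) (c m0 : ℕ), 0 < η → ∃ (C : ℝ) (b0 : ℕ), 0 < C ∧
  ∀ (j l i m y : ℕ) (z : Pt), b0 ≤ j → j ≤ l → l ≤ i → (m : ℝ) ≤ θ * ((i : ℝ) - j) + m0 →
  gf {Y | Y ∈ SA ∧ rev Y ∈ GT (i - m) η ∧ In (2 ^ (i + c)) Y ∧ y ≤ Y.length ∧ (Y.length : ℝ) < y + ml j ∧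
      TIW.hn (TIW.en Y - z) ≤ 2 ^ j + 2 ∧ 2 ^ i < 4 * dz Y 0 ∧ (∃ a b, a < b ∧ b ≤ Y.length ∧ dz Y a ≤ 2 ^ (l + 1) ∧
        2 ^ i < 2 * dz Y b)} ≤
    ENNReal.ofReal (C * (2 : ℝ) ^ ((θ1 - 10 / 3) * ((i : ℝ) - j) - 2 / 3 * ((i : ℝ) - l)) *
      (1 + (y : ℝ) / ml i) ^ (-(4 : ℝ)) * Ub i) * Xb i

/-- **row S** (the start side: the same for `rv L`) -/
def EsSt : Prop := ∀ θ : ℝ, 0 < θ → ∃ (C : ℝ) (b0 : ℕ), 0 < C ∧ ∀ (D : ℝ) (n j l i : ℕ), 0 ≤ D → HF D n j → b0 ≤ j → j ≤ l →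
  l ≤ i → gf {L | L ∈ Fp n j ∧ L ∈ ESe l i} ≤
    ENNReal.ofReal (C * D * (2 : ℝ) ^ ((11 / 24 + θ) * ((i : ℝ) - j) - 2 / 3 * ((i : ℝ) - l)) * pr n j)

/-! ### row Q: near touches -/

/-- t is in the end part of the level i -/
def tE (L : List Bool) (i t : ℕ) : Prop := t ≤ L.length ∧ ∀ s, t ≤ s → s ≤ L.length → dz L s ≤ 2 ^ i

/-- t is in the start part of the level i (balls around the end) -/
def tS (L : List Bool) (i t : ℕ) : Prop := t ≤ L.length ∧ ∀ s, s ≤ t → dz L s ≤ 2 ^ i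

/-- near touch in the ball of radius 2 ^ c around the end: distance at most r; with an excursion at least R inside the end
part or inside the start part of the level i, or a in the start part and b in the end part -/
def NTs (c i : ℕ) (r R : ℤ) : Set (List Bool) :=
  {L | ∃ a b, a ≤ b ∧ b ≤ L.length ∧ dz L a ≤ 2 ^ c ∧ dz L b ≤ 2 ^ c ∧ TIW.hn (vx oo up L a - vx oo up L b) ≤ r ∧
    (((tE L i a ∨ tS L i b) ∧ ∃ s, a ≤ s ∧ s ≤ b ∧ R ≤ TIW.hn (vx oo up L a - vx oo up L s)) ∨ (tS L i a ∧ tE L i b ∧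
      ∃ s, a ≤ s ∧ s ≤ b ∧ 2 ^ i < dz L s))}

/-- **row Q**: level i = j + u, ball 2 ^ (j + c), distance 2 ^ (j - e), excursion 2 ^ (j - k) -/
def NtSt : Prop := ∀ (u c k : ℕ) (ε : ℝ), c ≤ u → 0 < ε → ∃ e b0 : ℕ, k ≤ e ∧ e ≤ b0 ∧ ∀ (D : ℝ) (n j : ℕ), 0 ≤ D →
  HF D n j → b0 ≤ j → 2 ^ b0 * ml j ≤ n →
    gf {L | L ∈ Fp n j ∧ L ∈ NTs (j + c) (j + u) (2 ^ (j - e)) (2 ^ (j - k))} ≤ ENNReal.ofReal (ε * D * pr n j)

/-! ### row G: the good words -/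

/-- the good words of the level j; η κ a m: cuts; extra strands in the ball 2 ^ (j + m + 4) only from less than 2 ^ (j + c), in
the ball 2 ^ (j + c) only from less than 2 ^ (j + u); e k: near touches; a vertex outside of the ball 2 ^ (j + u) -/
def GF (n j : ℕ) (η κ : ℝ) (a m c u e k : ℕ) : Set (List Bool) :=
  {L | L ∈ F n j ∧ (∃ s, s ≤ L.length ∧ 2 ^ (j + u) < dz L s) ∧ ∀ T, T = L ∨ T = rv L → κ * Ub j ≤ gc j a m η T ∧
    (∀ i, j + c ≤ i + 1 → T ∉ ESe (j + m + 4) i) ∧ (∀ i, j + u ≤ i → T ∉ ESe (j + c) i) ∧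
    T ∉ NTs (j + c) (j + u) (2 ^ (j - e)) (2 ^ (j - k))}

/-- **row G**: the mass of the good words, from the polygons -/
def GoodSt : Prop := ∀ (η κ : ℝ) (a m : ℕ), 0 < η → 0 < κ → ∃ k c0 : ℕ, ∀ c u e : ℕ, c0 ≤ c → c ≤ u → k ≤ e →
  ∃ (C : ℝ) (b0 : ℕ), 0 < C ∧ ∀ n j : ℕ, b0 ≤ j → 2 ^ b0 * ml j ≤ n →
    gf (GF n j η κ a m c u e k) ≤ ENNReal.ofReal (C * pr n j)

end ARM

end HexObs
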