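import Pool.Agent.ARM.Defs

/-!
# ARM, part 2: literals behind (T1): two good ends, exact ends, closed words opened at the root, the point bounds (A).
-/

set_option autoImplicit false

namespace HexObs

namespace ARM

open Finset TS SDN SIM NTA TIP

open scoped ENNReal

/-- **row T'** (two good ends) -/
def TipF2 : Prop := ∀ η : ℝ, 0 < η → ∃ C : ℝ, 0 < C ∧ ∀ (D : ℝ) (n i b : ℕ), 0 ≤ D → HF D n i → b ≤ i →
  gf {L | L ∈ F n i ∧ L ∈ GT b η ∧ rv L ∈ GT b η} * Xb b ^ 2 ≤ ENNReal.ofReal (C * D * pr n i)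

/-! ### (A1): the upper bound at a point -/

/-- **row Y1**: the parts behind a good tip, exact end and length -/
def YPt : Prop := ∀ (η : ℝ) (c : ℕ), 0 < η → ∃ (C : ℝ) (b0 : ℕ), 0 < C ∧ ∀ (b y : ℕ) (z : Pt), b0 ≤ b →
  gf {Y | Y ∈ SA ∧ rev Y ∈ GT b η ∧ In (2 ^ (b + c)) Y ∧ Y.length = y ∧ TIW.en Y = z} ≤
    ENNReal.ofReal (C * Ub b / (4 ^ b * ml b) * (1 + (y : ℝ) / ml b) ^ (-(4 : ℝ))) * Xb b

/-- **row Y2**: the same for the parts with a long factor in Nz (exact form of YBad) -/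
def YPtBad (κ : ℝ) (C : ℕ) : Prop := ∀ (η : ℝ) (a c1 : ℕ), 0 < η → ∃ J0 b0 : ℕ, ∀ (b J y : ℕ) (z : Pt), b0 ≤ b → J0 ≤ J →
  gf {Y | Y ∈ SA ∧ rev Y ∈ GT b η ∧ In (2 ^ (b + J)) Y ∧ (∃ n : ℕ, 2 ^ J ≤ n * 2 ^ c1 ∧ Y ∈ Lz κ C b n) ∧
      Y.length = y ∧ TIW.en Y = z} ≤
    ENNReal.ofReal (Ub b / ((2 : ℝ) ^ (a * J) * (4 ^ b * ml b)) * (1 + (y : ℝ) / ml b) ^ (-(4 : ℝ))) * Xb b

/-- **row U** (A1), from T1, TipF, YPt, YPtBad -/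
def UpPt : Prop := ∃ (C : ℝ) (b0 : ℕ), 0 < C ∧ ∀ (n j : ℕ) (z : Pt), b0 ≤ j → 2 ^ b0 * ml j ≤ n → TIW.hn z ≤ 2 ^ j →
  gf {L | L ∈ SA ∧ L.length = n ∧ TIW.en L = z} ≤ ENNReal.ofReal (C * (pr n j / (4 ^ j * ml j)))

/-! ### (T2): closed words, opened at the root -/

/-- closed words with n + 1 edges without the last letter: n letters, the last vertex is a neighbour of the first one -/
def C0 (n : ℕ) : Set (List Bool) := {L | ∃ b : Bool, L ++ [b] ∈ POL.Cy (n + 1)}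

/-- the decompositions L = Y2 ++ M ++ Y1 in ρ -/
def tri (D : ℕ) (ρ : List Bool → List Bool → List Bool → Prop) (L : List Bool) : Set (List Bool × List Bool) :=
  {p | In D p.1 ∧ In D p.2 ∧ ∃ M, L = p.1 ++ (M ++ p.2) ∧ ρ p.1 M p.2}

/-- **row D** (double counting at both ends of a closed word, level i) -/
def ExC : Prop := ∀ (η : ℝ) (c : ℕ), 0 < η → ∃ C : ℝ, 0 < C ∧ ∀ (D : ℝ) (n i b : ℕ), 0 ≤ D → HF D n i → b ≤ i →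
  ∀ (ρ : List Bool → List Bool → List Bool → Prop) (x : ℝ≥0∞) (q : ℝ),
    (∀ Y2 M Y1, ρ Y2 M Y1 → M ∈ GT b η ∧ rv M ∈ GT b η) →
    (∀ M, ∑' p : {p : List Bool × List Bool | ρ p.1 M p.2 ∧ In (2 ^ (i + c)) p.1 ∧ In (2 ^ (i + c)) p.2 ∧
      p.1 ++ (M ++ p.2) ∈ C0 n}, wE (p : List Bool × List Bool).1 * wE (p : List Bool × List Bool).2 ≤
        x * ENNReal.ofReal (wt n M.length i)) → 0 < q →
    gf {L | L ∈ C0 n ∧ q ≤ ((tri (2 ^ (i + c)) ρ L).ncard : ℝ)} * (ENNReal.ofReal q * Xb b ^ 2) ≤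
      ENNReal.ofReal (C * D * pr n i) * x

/-- **row T2N** (good cuts around the root; both sides) -/
def T2N : Prop := ∀ ε : ℝ, 0 < ε → ∃ (η κ : ℝ) (a m b0 : ℕ), 0 < η ∧ 0 < κ ∧ a ≤ b0 ∧ ∀ n j : ℕ,
  b0 ≤ j → 2 ^ b0 * ml j ≤ n → gf {L | L ∈ C0 n ∧ (gc j a m η L < κ * Ub j ∨ gc j a m η (rv L) < κ * Ub j)} ≤
    ENNReal.ofReal (ε * (n : ℝ) ^ (-(3 / 2) : ℝ))

/-- **row T2S** (extra strands; any negative exponent is enough) -/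
def T2S : Prop := ∃ (C : ℝ) (b0 : ℕ), 0 < C ∧ ∀ n l i : ℕ, b0 ≤ l → l ≤ i → 1 ≤ n →
  gf {L | L ∈ C0 n ∧ (L ∈ ESe l i ∨ rv L ∈ ESe l i)} ≤
    ENNReal.ofReal (C * (2 : ℝ) ^ (-(1 / 8 : ℝ) * ((i : ℝ) - l)) * (n : ℝ) ^ (-(3 / 2) : ℝ))

/-- **row T2Q** (near touches) -/
def T2Q : Prop := ∀ (u c k : ℕ) (ε : ℝ), c ≤ u → 0 < ε → ∃ e b0 : ℕ, k ≤ e ∧ e ≤ b0 ∧ ∀ n j : ℕ, b0 ≤ j → 2 ^ b0 * ml j ≤ n →
  gf {L | L ∈ C0 n ∧ (L ∈ NTs (j + c) (j + u) (2 ^ (j - e)) (2 ^ (j - k)) ∨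
    rv L ∈ NTs (j + c) (j + u) (2 ^ (j - e)) (2 ^ (j - k)))} ≤ ENNReal.ofReal (ε * (n : ℝ) ^ (-(3 / 2) : ℝ))

/-- **row T2C** (the closed word is not in a small ball) -/
def T2C : Prop := ∀ (u : ℕ) (ε : ℝ), 0 < ε → ∃ b0 : ℕ, ∀ n j : ℕ, b0 ≤ j → 2 ^ b0 * ml j ≤ n →
  gf {L | L ∈ C0 n ∧ ∀ s, s ≤ L.length → dz L s ≤ 2 ^ (j + u)} ≤ ENNReal.ofReal (ε * (n : ℝ) ^ (-(3 / 2) : ℝ))

/-! ### (A3): the lower bound at a point -/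

/-- the three rotations of z by 120 degrees (`JNT.r3`) -/
def E3 (z : Pt) : Set Pt := {z, mulE (-1, 1) z, mulE (-1, 1) (mulE (-1, 1) z)}

/-- the walks with n letters from the origin to z (up to the rotations = the three first directions) -/
def WE (n : ℕ) (z : Pt) : Set (List Bool) := {L | L ∈ SA ∧ L.length = n ∧ TIW.en L ∈ E3 z}

/-- **row L** (A3) -/
def LowPt : Prop := ∃ (c : ℝ) (b0 : ℕ), 0 < c ∧ ∀ (n j : ℕ) (z : Pt), b0 ≤ j → 2 ^ b0 * ml j ≤ n → 2 ^ j ≤ TIW.hn z →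
  TIW.hn z ≤ 2 ^ (j + 1) → cl z = (if Even n then 0 else 2) → ENNReal.ofReal (c * (pr n j / (4 ^ j * ml j))) ≤ gf (WE n z)

/-- **row L0** (the same for the points at a bounded distance) -/
def LowSm : Prop := ∀ b : ℕ, ∃ (c : ℝ) (n0 : ℕ), 0 < c ∧ ∀ (n : ℕ) (z : Pt), n0 ≤ n → z ≠ 0 → TIW.hn z ≤ 2 ^ b →
  cl z = (if Even n then 0 else 2) → ENNReal.ofReal (c * (n : ℝ) ^ (-(3 / 2) : ℝ)) ≤ gf (WE n z)

end ARM

end HexObs
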