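import Pool.Agent.ARM.Defs
import Pool.Agent.ARM2.Path

/-!
# ARM, row G (captain helper51): literals

* `TubeQ`, `TubeSt` (helper51): tubes along an induced path of the triangular lattice of mesh `D`, exact end, exact length;
* `Jn`: words that can be closed to a polygon by a tube along the path; `JMass`: their mass, from the polygons;
* `CutP`: pairs of good cuts; `JoinSt`: the middle part between two good cuts of a word of `GF` is joinable.

All paths turn by 0 or +-60 degrees (`AR.ps E i` = sum of the first i directions), scale `k`, mesh between `18 H 2 ^ k` and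
`36 H 2 ^ k`. `AR.NS c d D w y`: y is within w of the segment from c to c + D d.
-/

set_option autoImplicit false

namespace HexObs

namespace ARM

open Finset TS SDN SIM NTA TIP

open scoped ENNReal

/-- induced paths of the triangular lattice with r steps -/
structure IPg (E : ℕ → Pt) (r : ℕ) : Prop where
  dir : ∀ i, i < r → E i ∈ dirs
  tur : ∀ i, i + 1 < r → E (i + 1) = E i ∨ E (i + 1) = rotL (E i) ∨ E (i + 1) = rotR (E i)
  ind : ∀ i j, i + 1 < j → j ≤ r → 3 ≤ nrm (AR.ps E j - AR.ps E i)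

/-- y is within w of the segment j of the path that starts at the origin -/
def Nr (e : ℕ → Pt) (D w : ℤ) (j : ℕ) (y : Pt) : Prop := AR.NS (AR.pv e D j) (e j) D w y

/-- **tube words** from the origin (first direction up = e 0) to z along the path e with r steps -/
structure TubeQ (e : ℕ → Pt) (D w : ℤ) (r : ℕ) (z : Pt) (Q : List Bool) : Prop where
  sa : Q ∈ SA
  en : TIW.en Q = z
  de : TIW.de Q = e (r - 1)
  rg : ∀ i, i ≤ Q.length → ∃ j, j < r ∧ Nr e D w j (vx oo up Q i)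
  st : ∀ i, 1 ≤ i → i ≤ Q.length → 0 < ip (vx oo up Q i) up ∨ ∃ j, 1 ≤ j ∧ j < r ∧ Nr e D w j (vx oo up Q i)
  bd : ∀ i, i ≤ Q.length → ip (vx oo up Q i - z) (e (r - 1)) ≤ 0 ∨ ∃ j, j + 1 < r ∧ Nr e D w j (vx oo up Q i)

/-- **row G0 (helper51)**: the mass of the tube words with exact end and exact length -/
def TubeSt : Prop := ∀ a A : ℝ, 0 < a → a ≤ A → ∃ H0 : ℕ, 2 ^ 13 ≤ H0 ∧ ∀ H : ℕ, H0 ≤ H → ∀ Mx : ℕ,
  ∃ (c : ℝ) (k0 : ℕ), 0 < c ∧ ∀ (k r b : ℕ) (D : ℤ) (e : ℕ → Pt) (z : Pt), k0 ≤ k →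
    18 * (H * 2 ^ k) ≤ D → D ≤ 36 * (H * 2 ^ k) → 1 ≤ r → r ≤ Mx → IPg e r → e 0 = up →
    TIW.hn (z - AR.pv e D r) ≤ 2 ^ (k + 2) → cl z = (if Even b then 0 else 2) →
    cl (e (r - 1)) = (if Even b then 2 else 1) → a * ml k ≤ b → (b : ℝ) ≤ A * ml k →
    ENNReal.ofReal (c * (Ub k / (4 ^ k * ml k))) ≤ gf {Q | TubeQ e D (2 ^ (k + 9)) r z Q ∧ Q.length = b}

/-- the vertices of the path that ends at the origin -/
def qv (E : ℕ → Pt) (D : ℤ) (r i : ℕ) : Pt := D • (AR.ps E i - AR.ps E r)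

/-- **joinable words**: the path goes from the end of M (first direction = direction of exit) to the start of M (the origin,
last direction up) and keeps away from M -/
structure Jn (E : ℕ → Pt) (r : ℕ) (D : ℤ) (k : ℕ) (M : List Bool) : Prop where
  sa : M ∈ SA
  de : TIW.de M = E 0
  pos : TIW.hn (TIW.en M - qv E D r 0) ≤ 2 ^ k
  mid : ∀ i, i ≤ M.length → ∀ j, 1 ≤ j → j + 1 < r → ¬ AR.NS (qv E D r j) (E j) D (2 ^ (k + 11)) (vx oo up M i)
  fst : ∀ i, i ≤ M.length → AR.NS (qv E D r 0) (E 0) D (2 ^ (k + 11)) (vx oo up M i) → ip (vx oo up M i - TIW.en M) (E 0) ≤ 0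
  lst : ∀ i, 1 ≤ i → i ≤ M.length → AR.NS (qv E D r (r - 1)) (E (r - 1)) D (2 ^ (k + 11)) (vx oo up M i) →
    0 < ip (vx oo up M i) up

/-- **row G3**: the mass of the joinable words, window of the length `ml k` -/
def JMass : Prop := ∃ H0 : ℕ, 2 ^ 13 ≤ H0 ∧ ∀ H : ℕ, H0 ≤ H → ∀ Mx : ℕ, ∃ (C : ℝ) (k0 : ℕ), 0 < C ∧
  ∀ (k r n : ℕ) (D : ℤ) (E : ℕ → Pt), k0 ≤ k → 18 * (H * 2 ^ k) ≤ D → D ≤ 36 * (H * 2 ^ k) → 3 ≤ r → r ≤ Mx →
    IPg E r → E (r - 1) = up →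
    gf {M | Jn E r D k M ∧ n ≤ M.length ∧ (M.length : ℝ) < n + ml k} ≤
      ENNReal.ofReal (C * (4 ^ k * Ub k) * (max (n : ℝ) (ml k)) ^ (-(3 / 2 : ℝ)))

/-- **a pair of good cuts** of the word X ++ (M ++ Y) of the level j -/
def CutP (j a m : ℕ) (η : ℝ) (X M Y : List Bool) : Prop :=
  (rev Y ∈ GT j η ∧ In (2 ^ (j + m)) Y ∧ FreeT (2 ^ (j - a)) (X ++ M)) ∧
  (X ∈ GT j η ∧ In (2 ^ (j + m)) (rev X) ∧ FreeT (2 ^ (j - a)) (rv (M ++ Y)))

/-- **rows G1 + R7b**: the middle part is joinable, at a scale k' between j - sx and j; finitely many meshes (Dirichlet); the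
last two steps of the path are up -/
def JoinSt : Prop := ∀ (η κ : ℝ) (a m : ℕ), 0 < η → 0 < κ → ∃ k c0 : ℕ, ∀ c u e : ℕ, c0 ≤ c → c ≤ u → k ≤ e →
  ∀ H : ℕ, 2 ^ 13 ≤ H → ∃ Mx sx b0 : ℕ, ∀ j : ℕ, b0 ≤ j → ∃ DD : Finset ℤ, DD.card ≤ Mx ∧ ∀ n : ℕ, 2 ^ b0 * ml j ≤ n →
    ∀ X M Y : List Bool, X ++ (M ++ Y) ∈ GF n j η κ a m c u e k → CutP j a m η X M Y →
      ∃ (k' r : ℕ) (D : ℤ) (E : ℕ → Pt), D ∈ DD ∧ k' ≤ j ∧ j ≤ k' + sx ∧ 18 * (H * 2 ^ k') ≤ D ∧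
        D ≤ 36 * (H * 2 ^ k') ∧ 4 ≤ r ∧ r ≤ Mx ∧ IPg E r ∧ E (r - 1) = up ∧ E (r - 2) = up ∧ Jn E r D k' M

/-- row G2: the double count -/
def GlueG : Prop := JoinSt → JMass → YMassW → GoodSt

end ARM

end HexObs
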