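import Pool.Agent.ARM.Defs2
import Pool.Agent.ARM.DefsG
import Pool.Agent.JNT.Low2Defs

/-!
# ARM, (A3): literals between the rows of `LowPt` (helper47)

* `TailJ` : few letters missing; `JLow` : the joinable words have a large mass (from `GoodC0`, `JoinSt`, the inner bound);
* `NcHB` : tips with any number of letters in a small box; `JFill` : two tips with a given difference, exact length.
-/

set_option autoImplicit false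

namespace HexObs

namespace ARM

open Finset TS SDN NTA TIP

open scoped ENNReal

/-- **row L1 (helper94)**: joinable words with many missing letters, weighted -/
def TailJ : Prop := ∃ H0 : ℕ, 2 ^ 13 ≤ H0 ∧ ∀ H : ℕ, H0 ≤ H → ∀ (Mx : ℕ) (ε : ℝ), 0 < ε → ∃ (A : ℝ) (k0 b0 : ℕ), 1 ≤ A ∧
  ∀ (k r n : ℕ) (D : ℤ) (E : ℕ → Pt), k0 ≤ k → 2 ^ b0 * ml k ≤ n → 18 * (H * 2 ^ k) ≤ D → D ≤ 36 * (H * 2 ^ k) →
    3 ≤ r → r ≤ Mx → IPg E r → E (r - 1) = up →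
    ∑' M : {M : List Bool | Jn E r D k M ∧ M.length ≤ n ∧ (M.length : ℝ) + A * ml k ≤ n},
      wE (M : List Bool) * ENNReal.ofReal (wt n (M : List Bool).length k) ≤
        ENNReal.ofReal (ε * (4 ^ k * Ub k) * (n : ℝ) ^ (-(3 / 2 : ℝ)))

/-- **row L2 (helper47)**: the mass of the joinable words from below, one path, a window of the length -/
def JLow : Prop := ∃ H0 : ℕ, 2 ^ 13 ≤ H0 ∧ ∀ H : ℕ, H0 ≤ H → ∃ (Mx sx b0 : ℕ) (c A : ℝ), 0 < c ∧ 0 < A ∧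
  ∀ n j : ℕ, b0 ≤ j → 2 ^ b0 * ml j ≤ n → ∃ (k r : ℕ) (D : ℤ) (E : ℕ → Pt), k ≤ j ∧ j ≤ k + sx ∧
    18 * (H * 2 ^ k) ≤ D ∧ D ≤ 36 * (H * 2 ^ k) ∧ 4 ≤ r ∧ r ≤ Mx ∧ IPg E r ∧ E (r - 1) = up ∧ E (r - 2) = up ∧
    ENNReal.ofReal (c * (4 ^ j * Ub j) * (n : ℝ) ^ (-(3 / 2 : ℝ))) ≤
      gf {M | Jn E r D k M ∧ M.length ≤ n ∧ (n : ℝ) ≤ M.length + A * ml j}

/-- **row L3 (helper87)**: half plane words without a cut, any number of letters (up to a window), the parity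
given, all vertices in a small box -/
def NcHB : Prop := ∀ e A : ℝ, 0 < e → 0 < A → ∃ (c : ℝ) (k0 : ℕ), 0 < c ∧ ∀ k b p : ℕ, k0 ≤ k → p < 2 →
  (b : ℝ) ≤ A * ml k → ENNReal.ofReal c * Xb k ≤ gf {F | F ∈ BAR.HiN F.length ∧ F.length % 2 = p ∧
    b ≤ F.length ∧ (F.length : ℝ) ≤ b + e * ml k ∧ ∀ i, i ≤ F.length → TIW.hn (vx oo up F i) ≤ ⌊e * 2 ^ k⌋}

/-- **row L4 (helper94)**: two tips face to face in the last part of the path, given difference, exact length -/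
def JFill : Prop := ∃ H0 : ℕ, 2 ^ 13 ≤ H0 ∧ ∀ H : ℕ, H0 ≤ H → ∀ (Mx sx : ℕ) (B : ℝ), 1 ≤ B → ∃ (c : ℝ) (k0 : ℕ), 0 < c ∧
  ∀ (k r n : ℕ) (D : ℤ) (E : ℕ → Pt) (z : Pt), k0 ≤ k → 2 ^ k0 * ml k ≤ n → 18 * (H * 2 ^ k) ≤ D → D ≤ 36 * (H * 2 ^ k) →
    4 ≤ r → r ≤ Mx → IPg E r → E (r - 1) = up → E (r - 2) = up → 2 ^ k ≤ 2 ^ sx * TIW.hn z → TIW.hn z ≤ 2 ^ (k + 1) →
    cl z = (if Even n then 0 else 2) →
    gf {M | Jn E r D k M ∧ (M.length : ℝ) + ml k ≤ n ∧ (n : ℝ) ≤ M.length + B * ml k} *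
      (ENNReal.ofReal (c / (4 ^ k * ml k)) * Xb k ^ 2) ≤ gf (WE n z)

end ARM

end HexObs
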