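import Pool.Agent.ARM.Defs2
import Pool.Agent.ARM.DefsG

/-!
# ARM: near touches, the form which is right for closed words (helper28): `NTc`, `GFc`, `T2Qc`, `JoinSc`

In `NTs` the third case contains the pair a = 0, b = |L| of every closed word. Here the part of the word on the side of the root
(in front of a or behind b) must have an excursion. Only L itself is used, not `rv L`.
-/

set_option autoImplicit false

namespace HexObs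

namespace ARM

open Finset TS SDN SIM NTA TIP

open scoped ENNReal

/-- near touch in the ball of radius 2 ^ c around the end: distance at most r; with an excursion at least R inside the end
part or inside the start part of the level i, or a in the start part, b in the end part and an excursion in front of a or
behind b -/
def NTc (c i : ℕ) (r R : ℤ) : Set (List Bool) :=
  {L | ∃ a b, a ≤ b ∧ b ≤ L.length ∧ dz L a ≤ 2 ^ c ∧ dz L b ≤ 2 ^ c ∧ TIW.hn (vx oo up L a - vx oo up L b) ≤ r ∧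
    (((tE L i a ∨ tS L i b) ∧ ∃ s, a ≤ s ∧ s ≤ b ∧ R ≤ TIW.hn (vx oo up L a - vx oo up L s)) ∨ (tS L i a ∧ tE L i b ∧
      ∃ s, s ≤ L.length ∧ (s ≤ a ∨ b ≤ s) ∧ R ≤ TIW.hn (vx oo up L a - vx oo up L s)))}

/-- the good words of the level j, also for closed words -/
def GFc (n j : ℕ) (η κ : ℝ) (a m c u e k : ℕ) : Set (List Bool) :=
  {L | L ∈ F n j ∧ (∃ s, s ≤ L.length ∧ 2 ^ (j + u) < dz L s) ∧ L ∉ NTc (j + c) (j + u) (2 ^ (j - e)) (2 ^ (j - k)) ∧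
    ∀ T, T = L ∨ T = rv L → κ * Ub j ≤ gc j a m η T ∧
      (∀ i, j + c ≤ i + 1 → T ∉ ESe (j + m + 4) i) ∧ (∀ i, j + u ≤ i → T ∉ ESe (j + c) i)}

/-- with a far vertex, the new near touches are near touches -/
lemma NTs_of_NTc {L : List Bool} {c i : ℕ} {r R : ℤ} (hf : ∃ s, s ≤ L.length ∧ 2 ^ i < dz L s) (h : L ∈ NTc c i r R) :
    L ∈ NTs c i r R := by
  obtain ⟨a, b, hab, hb, h1, h2, h3, h4⟩ := h
  refine ⟨a, b, hab, hb, h1, h2, h3, ?_⟩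
  rcases h4 with h4 | ⟨h4, h5, -⟩
  · exact Or.inl h4
  · obtain ⟨s, hs, hs2⟩ := hf
    refine Or.inr ⟨h4, h5, s, ?_, ?_, hs2⟩
    · by_contra hc
      exact absurd (h4.2 s (by omega)) (not_le.2 hs2)
    · by_contra hc
      exact absurd (h5.2 s (by omega) hs) (not_le.2 hs2)

lemma GF_sub_GFc (n j : ℕ) (η κ : ℝ) (a m c u e k : ℕ) : GF n j η κ a m c u e k ⊆ GFc n j η κ a m c u e k := by
  rintro L ⟨h1, h2, h3⟩
  exact ⟨h1, h2, fun h => (h3 L (Or.inl rfl)).2.2.2 (NTs_of_NTc h2 h), fun T hT =>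
    ⟨(h3 T hT).1, (h3 T hT).2.1, (h3 T hT).2.2.1⟩⟩

/-- **row T2Q'** (near touches of closed words; helper28) -/
def T2Qc : Prop := ∀ (u c k : ℕ) (ε : ℝ), c ≤ u → 0 < ε → ∃ e b0 : ℕ, k ≤ e ∧ e ≤ b0 ∧ ∀ n j : ℕ, b0 ≤ j → 2 ^ b0 * ml j ≤ n →
  gf {L | L ∈ C0 n ∧ L ∈ NTc (j + c) (j + u) (2 ^ (j - e)) (2 ^ (j - k))} ≤ ENNReal.ofReal (ε * (n : ℝ) ^ (-(3 / 2) : ℝ))

/-- **rows G1 + R7b** with the new good words -/
def JoinSc : Prop := ∀ (η κ : ℝ) (a m : ℕ), 0 < η → 0 < κ → ∃ k c0 : ℕ, ∀ c u e : ℕ, c0 ≤ c → c ≤ u → k ≤ e →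
  ∀ H : ℕ, 2 ^ 13 ≤ H → ∃ Mx sx b0 : ℕ, ∀ j, b0 ≤ j → ∃ DD : Finset ℤ, DD.card ≤ Mx ∧ ∀ n : ℕ, 2 ^ b0 * ml j ≤ n →
    ∀ X M Y : List Bool, X ++ (M ++ Y) ∈ GFc n j η κ a m c u e k → CutP j a m η X M Y →
      ∃ (k' r : ℕ) (D : ℤ) (E : ℕ → Pt), D ∈ DD ∧ k' ≤ j ∧ j ≤ k' + sx ∧ 18 * (H * 2 ^ k') ≤ D ∧ D ≤ 36 * (H * 2 ^ k') ∧
        4 ≤ r ∧ r ≤ Mx ∧ IPg E r ∧ E (r - 1) = up ∧ E (r - 2) = up ∧ Jn E r D k' M

theorem joinSt_of_c (h : JoinSc) : JoinSt := by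
  intro η κ a m hη hκ
  obtain ⟨k, c0, h⟩ := h η κ a m hη hκ
  refine ⟨k, c0, fun c u e h1 h2 h3 H hH => ?_⟩
  obtain ⟨Mx, sx, b0, h⟩ := h c u e h1 h2 h3 H hH
  refine ⟨Mx, sx, b0, fun j hj => ?_⟩
  obtain ⟨DD, hDD, h⟩ := h j hj
  exact ⟨DD, hDD, fun n hn X M Y hL hC => h n hn X M Y (GF_sub_GFc n j η κ a m c u e k hL) hC⟩

end ARM

end HexObs
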