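import Pool.Agent.ARM.NumB
import Pool.Agent.TPC.AN
import Pool.Agent.TPC.XUp
import Pool.Agent.TPC.XLow
import Pool.Agent.IW.AsUp
import Pool.Agent.TIP.NgA
import Pool.Agent.TIW.Tog
import Pool.Agent.NT.MassD

/-!
# ARM (two arms): the constant of the sandwich is bounded from below (helper63)

* `gfN_low` : the weight of the words with n letters;
* `F_low` : the mass of `F 0 i` is at least `c 2 ^ (43 i / 24)`;
* **`hf_low`** : a constant D with `HF D n j` is at least c0.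
-/

set_option autoImplicit false

namespace HexObs

namespace ARM

open Finset TS SDN SIM NTA TIP NTW

open scoped ENNReal

theorem gfN_low : ∃ c : ℝ, 0 < c ∧ ∀ n : ℕ, 1 ≤ n → ENNReal.ofReal (c * (n : ℝ) ^ (11 / 32 : ℝ)) ≤ gf (SawN n) := by
  obtain ⟨c, C, hc, hC, h⟩ := TPC.an_const TPC.xUp TPC.xLow
  have hx := xc_pos
  have hmu : muB = 1 / xc := le_antisymm muB_le le_muB
  refine ⟨2 / 3 * c, by positivity, fun n hn => ?_⟩
  rw [show gf (SawN n) = ENNReal.ofReal ((cS n : ℝ) * xc ^ n) from TOG.gf_ncard subset_rfl]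
  refine ENNReal.ofReal_le_ofReal ?_
  have h1 : (2 : ℝ) * aB n = 3 * cS n := by exact_mod_cast aB_eq hn
  have h2 : (cS n : ℝ) = 2 / 3 * aB n := by linarith
  have h3 : muB ^ n * xc ^ n = 1 := by
    rw [hmu, ← mul_pow, one_div, inv_mul_cancel₀ hx.ne', one_pow]
  rw [h2]
  calc 2 / 3 * c * (n : ℝ) ^ (11 / 32 : ℝ) = 2 / 3 * c * (n : ℝ) ^ (11 / 32 : ℝ) * (muB ^ n * xc ^ n) := by
        rw [h3, mul_one]
    _ = 2 / 3 * (c * (muB ^ n * (n : ℝ) ^ ((11 : ℝ) / 32))) * xc ^ n := by ring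
    _ ≤ 2 / 3 * (aB n : ℝ) * xc ^ n := by
        have := (h n hn).1
        gcongr

lemma hn_le_JJ (p : Pt) : (TIW.hn p : ℝ) ≤ 2 * ‖NTF.JJ p‖ := by
  have h1 := NTF.JJ_norm p
  have h2 := TIW.hn_sq_le p
  have h3 := TIW.hn_nonneg p
  have h4 : (TIW.hn p : ℝ) ^ 2 ≤ 4 * ((nrm p : ℤ) : ℝ) := by exact_mod_cast h2
  have h5 : (TIW.hn p : ℝ) ^ 2 ≤ (2 * ‖NTF.JJ p‖) ^ 2 := by
    rw [mul_pow, h1]
    linarith
  exact (sq_le_sq₀ (by exact_mod_cast h3) (by positivity)).1 h5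

/-- **the words with both ends close and few letters** -/
theorem F_low : ∃ (c : ℝ) (i0 : ℕ), 0 < c ∧ ∀ i, i0 ≤ i →
    ENNReal.ofReal (c * (2 : ℝ) ^ ((43 / 24 : ℝ) * (i : ℝ))) ≤ gf (F 0 i) := by
  obtain ⟨c1, hc1, hlow⟩ := gfN_low
  obtain ⟨C, hC, hup⟩ := NQ.asUp 1
  obtain ⟨lam, hlam⟩ : ∃ lam : ℝ, lam = 2 * C + 1 := ⟨_, rfl⟩
  have hlam1 : 1 ≤ lam := by rw [hlam]; linarith
  obtain ⟨d, hd⟩ : ∃ d : ℕ, 2 * lam ≤ 2 ^ d := by
    obtain ⟨d, hd⟩ := pow_unbounded_of_one_lt (2 * lam) (one_lt_two)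
    exact ⟨d, hd.le⟩
  obtain ⟨c, hc⟩ : ∃ c : ℝ, c = c1 / 16 * (2 : ℝ) ^ (-((43 / 24 : ℝ) * (d : ℝ))) := ⟨_, rfl⟩
  have hc0 : 0 < c := by rw [hc]; positivity
  refine ⟨c, d + 3, hc0, fun i hi => ?_⟩
  obtain ⟨k, rfl⟩ : ∃ k, i = k + d := ⟨i - d, by omega⟩
  have hk3 : 3 ≤ k := by omega
  obtain ⟨x, hx⟩ : ∃ x : ℝ, x = ml k := ⟨_, rfl⟩
  have hx8 : 8 ≤ x := by
    rw [hx]
    unfold ml
    calc (8 : ℝ) = 2 ^ (3 : ℝ) := by norm_num
      _ ≤ _ := by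
        refine Real.rpow_le_rpow_of_exponent_le (by norm_num) ?_
        have : (3 : ℝ) ≤ k := by exact_mod_cast hk3
        linarith
  have hx34 : x ^ (3 / 4 : ℝ) = 2 ^ k := by
    rw [hx]
    unfold ml
    rw [← Real.rpow_mul (by norm_num), ← Real.rpow_natCast]
    congr 1
    ring
  have hx43 : x ^ (43 / 32 : ℝ) = (2 : ℝ) ^ ((43 / 24 : ℝ) * (k : ℝ)) := by
    rw [hx]
    unfold ml
    rw [← Real.rpow_mul (by norm_num)]
    congr 1
    ring
  obtain ⟨N, hN⟩ : ∃ N : ℕ, N = ⌊x⌋₊ := ⟨_, rfl⟩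
  have hN1 : (N : ℝ) ≤ x := by rw [hN]; exact Nat.floor_le (by linarith)
  have hN2 : x < N + 1 := by rw [hN]; exact Nat.lt_floor_add_one x
  -- one length
  have hone : ∀ n ∈ Icc (N / 2 + 1) N, ENNReal.ofReal (c1 / 4 * x ^ (11 / 32 : ℝ)) ≤
      gf {t | t ∈ F 0 (k + d) ∧ t.length = n} := by
    intro n hn
    rw [mem_Icc] at hn
    obtain ⟨n1, n2⟩ := hn
    have hn1 : 1 ≤ n := by omega
    have hnx : (n : ℝ) ≤ x := le_trans (by exact_mod_cast n2) hN1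
    have hnx2 : x / 2 ≤ n := by
      have h1 : N + 1 ≤ 2 * n := by omega
      have h2 : (N : ℝ) + 1 ≤ 2 * n := by exact_mod_cast h1
      linarith
    obtain ⟨Bd, hBd⟩ : ∃ Bd : Set (List Bool), Bd = {t | ∃ i, i ≤ n ∧ lam * (n : ℝ) ^ (3 / 4 : ℝ) ≤
      ‖NTF.JJ (vx oo up t i)‖} := ⟨_, rfl⟩
    have hP : TOG.Pn n Bd ≤ 1 / 2 := by
      have h1 := hup n lam hn1 hlam1
      rw [← hBd, pow_one] at h1
      refine h1.trans ?_
      rw [div_le_div_iff₀ (by linarith) (by norm_num), hlam]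
      linarith
    have hmul := NgA.Pn_mul n Bd
    have hall : gf (SawN n) ≤ gf {t | t ∈ F 0 (k + d) ∧ t.length = n} + gf {t | t ∈ SawN n ∧ t ∈ Bd} := by
      refine (gf_mono fun t ht => ?_).trans (gf_union_le _ _)
      by_cases hb : t ∈ Bd
      · exact Or.inr ⟨ht, hb⟩
      · refine Or.inl ⟨?_, ht.1⟩
        rw [mem_F]
        have hl : t.length = n := ht.1
        refine ⟨ht.2, Nat.zero_le _, ?_, ?_⟩
        · rw [hl, Nat.cast_zero, zero_add]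
          refine hnx.trans_lt ?_
          rw [hx, ml_add]
          have h1 : (1 : ℝ) < (2 : ℝ) ^ ((4 / 3 : ℝ) * (d : ℝ)) := by
            refine Real.one_lt_rpow (by norm_num) ?_
            have hd1 : 1 ≤ d := by
              by_contra h0
              rw [show d = 0 by omega, pow_zero] at hd
              linarith
            have : (1 : ℝ) ≤ d := by exact_mod_cast hd1
            positivity
          have := ml_pos k
          nlinarith
        · have h1 : ‖NTF.JJ (vx oo up t n)‖ < lam * (n : ℝ) ^ (3 / 4 : ℝ) := by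
            by_contra h0
            refine hb ?_
            rw [hBd]
            exact ⟨n, le_rfl, not_lt.1 h0⟩
          have h2 : (n : ℝ) ^ (3 / 4 : ℝ) ≤ 2 ^ k := by
            rw [← hx34]
            exact Real.rpow_le_rpow (Nat.cast_nonneg _) hnx (by norm_num)
          have h3 := hn_le_JJ (TIW.en t)
          have h4 : TIW.en t = vx oo up t n := by
            unfold TIW.en
            rw [hl]
          rw [h4] at h3 ⊢
          have h5 : (TIW.hn (vx oo up t n) : ℝ) ≤ 2 ^ (k + d) := by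
            calc (TIW.hn (vx oo up t n) : ℝ) ≤ 2 * (lam * (n : ℝ) ^ (3 / 4 : ℝ)) := by linarith
              _ ≤ 2 * (lam * 2 ^ k) := by gcongr
              _ = 2 * lam * 2 ^ k := by ring
              _ ≤ 2 ^ d * 2 ^ k := by gcongr
              _ = 2 ^ (k + d) := by rw [pow_add]; ring
          exact_mod_cast h5
    have hhalf : gf {t | t ∈ SawN n ∧ t ∈ Bd} ≤ gf (SawN n) * ENNReal.ofReal (1 / 2) := by
      rw [← hmul]
      exact mul_le_mul' le_rfl (ENNReal.ofReal_le_ofReal hP)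
    have hs := NgA.saw_ne n
    have h1 : gf (SawN n) * ENNReal.ofReal (1 / 2) ≤ gf {t | t ∈ F 0 (k + d) ∧ t.length = n} := by
      have h2 : gf (SawN n) = gf (SawN n) * ENNReal.ofReal (1 / 2) + gf (SawN n) * ENNReal.ofReal (1 / 2) := by
        rw [← mul_add, ← ENNReal.ofReal_add (by norm_num) (by norm_num), add_halves, ENNReal.ofReal_one, mul_one]
      have h3 : gf (SawN n) * ENNReal.ofReal (1 / 2) + gf (SawN n) * ENNReal.ofReal (1 / 2) ≤
          gf {t | t ∈ F 0 (k + d) ∧ t.length = n} + gf (SawN n) * ENNReal.ofReal (1 / 2) := by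
        rw [← h2]
        exact hall.trans (add_le_add le_rfl hhalf)
      exact (ENNReal.add_le_add_iff_right (ENNReal.mul_ne_top hs.2 ENNReal.ofReal_ne_top)).1 h3
    refine le_trans ?_ h1
    refine le_trans ?_ (mul_le_mul' (hlow n hn1) le_rfl)
    rw [← ENNReal.ofReal_mul (by positivity)]
    refine ENNReal.ofReal_le_ofReal ?_
    have h4 : (x / 2) ^ (11 / 32 : ℝ) ≤ (n : ℝ) ^ (11 / 32 : ℝ) :=
      Real.rpow_le_rpow (by linarith) hnx2 (by norm_num)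
    have h5 : x ^ (11 / 32 : ℝ) / 2 ≤ (x / 2) ^ (11 / 32 : ℝ) := by
      rw [Real.div_rpow (by linarith) (by norm_num)]
      refine div_le_div_of_nonneg_left (by positivity) (by positivity) ?_
      calc (2 : ℝ) ^ (11 / 32 : ℝ) ≤ 2 ^ (1 : ℝ) := Real.rpow_le_rpow_of_exponent_le (by norm_num) (by norm_num)
        _ = 2 := Real.rpow_one 2
    calc c1 / 4 * x ^ (11 / 32 : ℝ) = c1 * (x ^ (11 / 32 : ℝ) / 2) * (1 / 2) := by ring
      _ ≤ c1 * (n : ℝ) ^ (11 / 32 : ℝ) * (1 / 2) := by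
        have := h5.trans h4
        gcongr
  -- all lengths
  rw [NTF.gf_lengths (F 0 (k + d))]
  refine le_trans ?_ (ENNReal.sum_le_tsum (Icc (N / 2 + 1) N))
  refine le_trans ?_ (sum_le_sum hone)
  rw [sum_const, nsmul_eq_mul, Nat.card_Icc, ← ENNReal.ofReal_natCast, ← ENNReal.ofReal_mul (Nat.cast_nonneg _)]
  refine ENNReal.ofReal_le_ofReal ?_
  have h1 : x / 4 ≤ ((N + 1 - (N / 2 + 1) : ℕ) : ℝ) := by
    have h2 : N ≤ 2 * (N + 1 - (N / 2 + 1)) := by omega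
    have h3 : (N : ℝ) ≤ 2 * ((N + 1 - (N / 2 + 1) : ℕ) : ℝ) := by exact_mod_cast h2
    linarith
  have h2 : x ^ (43 / 32 : ℝ) = x * x ^ (11 / 32 : ℝ) := by
    rw [show (43 / 32 : ℝ) = 1 + 11 / 32 by norm_num, Real.rpow_add (by linarith), Real.rpow_one]
  have h3 : (2 : ℝ) ^ ((43 / 24 : ℝ) * ((k + d : ℕ) : ℝ)) = x ^ (43 / 32 : ℝ) * (2 : ℝ) ^ ((43 / 24 : ℝ) * (d : ℝ)) := by
    rw [hx43, ← Real.rpow_add (by norm_num)]
    congr 1
    push_cast
    ring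
  have h4 : (2 : ℝ) ^ (-((43 / 24 : ℝ) * (d : ℝ))) * (2 : ℝ) ^ ((43 / 24 : ℝ) * (d : ℝ)) = 1 := by
    rw [← Real.rpow_add (by norm_num), neg_add_cancel, Real.rpow_zero]
  rw [hc, h3]
  calc c1 / 16 * (2 : ℝ) ^ (-((43 / 24 : ℝ) * (d : ℝ))) * (x ^ (43 / 32 : ℝ) * (2 : ℝ) ^ ((43 / 24 : ℝ) * (d : ℝ)))
      = c1 / 16 * x ^ (43 / 32 : ℝ) * ((2 : ℝ) ^ (-((43 / 24 : ℝ) * (d : ℝ))) * (2 : ℝ) ^ ((43 / 24 : ℝ) * (d : ℝ))) := by
        ring
    _ = x / 4 * (c1 / 4 * x ^ (11 / 32 : ℝ)) := by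
        rw [h4, h2]
        ring
    _ ≤ _ := by gcongr

/-- **the constant of the sandwich is at least c0** -/
theorem hf_low : ∃ c0 : ℝ, 0 < c0 ∧ ∀ (D : ℝ) (n j : ℕ), HF D n j → c0 ≤ D := by
  obtain ⟨c, i0, hc, h⟩ := F_low
  refine ⟨c, hc, fun D n j hF => ?_⟩
  have h1 := h (j + i0) (by omega)
  have h2 := h1.trans (hF 0 (j + i0) (Nat.zero_le _) (by omega))
  have h3 : (0 : ℝ) < (2 : ℝ) ^ ((43 / 24 : ℝ) * ((j + i0 : ℕ) : ℝ)) := by positivity
  rw [pr_z] at h2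
  by_contra h0
  rw [not_le] at h0
  have h4 : D * (2 : ℝ) ^ ((43 / 24 : ℝ) * ((j + i0 : ℕ) : ℝ)) < c * (2 : ℝ) ^ ((43 / 24 : ℝ) * ((j + i0 : ℕ) : ℝ)) :=
    mul_lt_mul_of_pos_right h0 h3
  exact absurd h2 (not_le.2 ((ENNReal.ofReal_lt_ofReal_iff (by positivity)).2 h4))

end ARM

end HexObs
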