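import Pool.Agent.ARM.ExF
import Pool.Agent.TIP.NfC

/-!
# ARM2, row N, first half (helper29): a rich factor near the end, in the class F

* `wB_of`: the words without a rich factor or with a large part behind the last one;
* **`nWin_of`**: `NWin`.
-/

set_option autoImplicit false

namespace HexObs

namespace ARM

open Finset TS SDN SIM NTA TIP TIP.Nf

open scoped ENNReal

/-- `YBad` with the tail of the length (helper63) -/
def YBadWSt (κ : ℝ) (C : ℕ) : Prop := ∀ (η : ℝ) (a c1 : ℕ), 0 < η → ∃ J0 b0 : ℕ, ∀ b J y : ℕ, b0 ≤ b → J0 ≤ J →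
  gf {Y | Y ∈ SA ∧ rev Y ∈ GT b η ∧ In (2 ^ (b + J)) Y ∧ y ≤ Y.length ∧ ∃ n : ℕ, 2 ^ J ≤ n * 2 ^ c1 ∧ Y ∈ Lz κ C b n} ≤
    ENNReal.ofReal (Ub b / (2 : ℝ) ^ (a * J) * (1 + (y : ℝ) / ml (b + J)) ^ (-(4 : ℝ))) * Xb b

/-- words without a rich factor -/
def NoRSt (κ : ℝ) (C : ℕ) : Prop := ∀ ε : ℝ, 0 < ε → ∃ b0 : ℕ, ∀ n j : ℕ, b0 ≤ j → 2 ^ b0 * ml j ≤ n →
  gf {L | L ∈ Fp n j ∧ L ∈ Nz κ C j} ≤ ENNReal.ofReal (ε * pr n j)

/-- the constant of the hypothesis is not small -/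
def HfLow : Prop := ∃ c0 : ℝ, 0 < c0 ∧ ∀ (D : ℝ) (n j : ℕ), 0 ≤ D → HF D n j → c0 ≤ D

/-- **a rich factor near the end** -/
def NWin (κ : ℝ) (C : ℕ) : Prop := ∀ ε : ℝ, 0 < ε → ∃ m b0 : ℕ, ∀ (D : ℝ) (n j : ℕ), 0 ≤ D → HF D n j → b0 ≤ j →
  2 ^ b0 * ml j ≤ n → gf {L | L ∈ Fp n j ∧ ¬ ∃ X Z Y, L = X ++ (Z ++ Y) ∧ Y ≠ [] ∧ Z ∈ Zc κ C j ∧ In (2 ^ (j + m)) Y} ≤
    ENNReal.ofReal (ε * D * pr n j)

/-- no rich factor, or the part behind the last one is larger than 2 ^ (j + m) -/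
def WB (κ : ℝ) (C n j m : ℕ) : Set (List Bool) :=
  {L | L ∈ Fp n j ∧ (L ∈ Nz κ C j ∨ ∃ X Z1 Z2 Z3 Y0, Dt κ C j L X Z1 Z2 Z3 Y0 ∧ ¬ In (2 ^ (j + m)) Y0)}

/-- cancellation of the mass of the tips -/
lemma cancelF {b : ℕ} {μ : ℝ≥0∞} {q y a : ℝ} (hq : 0 < q) (ha : 0 ≤ a)
    (h : μ * (ENNReal.ofReal q * Xb b) ≤ ENNReal.ofReal a * (ENNReal.ofReal y * Xb b)) :
    μ ≤ ENNReal.ofReal (a * y / q) := by
  have e1 : ENNReal.ofReal q ≠ 0 := by
    rw [Ne, ENNReal.ofReal_eq_zero, not_le]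
    exact hq
  have e2 : ENNReal.ofReal (a * y / q) * ENNReal.ofReal q = ENNReal.ofReal a * ENNReal.ofReal y := by
    rw [← ENNReal.ofReal_mul' hq.le, ← ENNReal.ofReal_mul ha]
    congr 1
    field_simp
  have h1 : (μ * ENNReal.ofReal q) * Xb b ≤ (ENNReal.ofReal (a * y / q) * ENNReal.ofReal q) * Xb b := by
    rw [e2]
    calc (μ * ENNReal.ofReal q) * Xb b = μ * (ENNReal.ofReal q * Xb b) := by ring
      _ ≤ ENNReal.ofReal a * (ENNReal.ofReal y * Xb b) := h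
      _ = _ := by ring
  have h2 := (ENNReal.mul_le_mul_iff_left (Xb_ne_zero b) (Xb_ne_top b)).1 h1
  exact (ENNReal.mul_le_mul_iff_left e1 ENNReal.ofReal_ne_top).1 h2

/-- every word is in some box -/
lemma In_len (Y : List Bool) : ∃ J : ℕ, ∀ b : ℕ, In (2 ^ (b + J)) Y := by
  obtain ⟨D, hD⟩ : ∃ D : ℕ, D = ∑ k ∈ range (Y.length + 1), ((vx oo up Y k).1.natAbs + (vx oo up Y k).2.natAbs) := ⟨_, rfl⟩
  refine ⟨D, fun b i hi => ?_⟩
  have h1 : (vx oo up Y i).1.natAbs + (vx oo up Y i).2.natAbs ≤ D := by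
    rw [hD]
    exact single_le_sum (f := fun k => (vx oo up Y k).1.natAbs + (vx oo up Y k).2.natAbs) (fun _ _ => Nat.zero_le _)
      (mem_range.2 (by omega))
  have h3 : D ≤ 2 ^ (b + D) := by
    calc D ≤ 2 ^ D := Nat.lt_two_pow_self.le
      _ ≤ 2 ^ (b + D) := Nat.pow_le_pow_right (by norm_num) (by omega)
  refine ⟨?_, ?_⟩
  · show |(vx oo up Y i).1 - (0 : ℤ)| ≤ _
    rw [sub_zero, Int.abs_eq_natAbs]
    exact_mod_cast (by omega : (vx oo up Y i).1.natAbs ≤ 2 ^ (b + D))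
  · show |(vx oo up Y i).2 - (0 : ℤ)| ≤ _
    rw [sub_zero, Int.abs_eq_natAbs]
    exact_mod_cast (by omega : (vx oo up Y i).2.natAbs ≤ 2 ^ (b + D))

open Classical in
/-- **the words without a rich factor near the end** -/
theorem wB_of {κ : ℝ} {C : ℕ} (hκ : 0 < κ) (hE : ExF) (hY : YBadWSt κ C) (hN : NoRSt κ C) (hL : HfLow) :
    ∀ ε : ℝ, 0 < ε → ∃ m0 : ℕ, ∀ m, m0 ≤ m → ∃ b0 : ℕ, ∀ (D : ℝ) (n j : ℕ), 0 ≤ D → HF D n j → b0 ≤ j → 2 ^ b0 * ml j ≤ n →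
      gf (WB κ C n j m) ≤ ENNReal.ofReal (ε * D * pr n j) := by
  intro ε hε
  obtain ⟨η, hηd⟩ : ∃ η : ℝ, η = κ / 8 := ⟨_, rfl⟩
  have hη : 0 < η := by rw [hηd]; positivity
  obtain ⟨J1, b1, hY⟩ := hY η 5 2 hη
  obtain ⟨C1, hC1, hE⟩ := hE η 0 hη
  obtain ⟨c0, hc0, hL⟩ := hL
  obtain ⟨bN, hN⟩ := hN (ε / 2 * c0) (by positivity)
  obtain ⟨m1, hm1⟩ := ex_pow (K := 8 * C1 / κ) (e := ε / 2) (by positivity)
  refine ⟨max (max J1 (2 * C + 3)) m1, fun m hm => ?_⟩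
  have hmJ : J1 ≤ m := ((le_max_left _ _).trans (le_max_left _ _)).trans hm
  have hmC : 2 * C + 3 ≤ m := ((le_max_right _ _).trans (le_max_left _ _)).trans hm
  have hm3 := hm1 m ((le_max_right _ _).trans hm)
  have hm2 : 2 * C ≤ 2 ^ m := by
    have := (Nat.lt_two_pow_self (n := m)).le
    omega
  obtain ⟨bU, hbU⟩ : ∃ bU : ℕ, ∀ b, bU ≤ b → 8 ≤ κ * Ub b := by
    obtain ⟨B, hB⟩ := Ub_big
    obtain ⟨n, hn⟩ := exists_nat_ge (8 / κ)
    refine ⟨B * n, fun b hb => ?_⟩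
    have h1 := hB b n hb
    have h2 : (n : ℝ) ≤ 8 ^ n := by
      exact_mod_cast (Nat.lt_pow_self (by norm_num : 1 < 8)).le
    have h3 : 8 / κ ≤ Ub b := hn.trans (h2.trans h1)
    rw [div_le_iff₀ hκ] at h3
    linarith
  refine ⟨max (max b1 bN) bU, fun D n j hD hF hj hn => ?_⟩
  have hj1 : b1 ≤ j := ((le_max_left _ _).trans (le_max_left _ _)).trans hj
  have hjN : bN ≤ j := ((le_max_right _ _).trans (le_max_left _ _)).trans hj
  have hjU : bU ≤ j := (le_max_right _ _).trans hj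
  have h8 := hbU j hjU
  have hU := TS.Ub_pos j
  have hp := pr_nonneg n j
  -- the numbers
  obtain ⟨h, hh⟩ : ∃ h : ℕ, h = ⌈κ * Ub j / 8⌉₊ := ⟨_, rfl⟩
  have hh1 : 1 ≤ h := by
    rw [hh, Nat.one_le_iff_ne_zero, Nat.ne_zero_iff_zero_lt, Nat.ceil_pos]
    positivity
  have hq : κ * Ub j / 8 ≤ (h : ℝ) := by
    rw [hh]
    exact Nat.le_ceil _
  have hh2 : (h : ℝ) < κ * Ub j / 8 + 1 := by
    rw [hh]
    exact Nat.ceil_lt_add_one (by positivity)
  have hηh : η * Ub j ≤ (h : ℝ) := by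
    rw [hηd]
    calc κ / 8 * Ub j = κ * Ub j / 8 := by ring
      _ ≤ h := hq
  -- the events
  obtain ⟨EJ, hEJ⟩ : ∃ EJ : ℕ → Set (List Bool), EJ = fun s => {L | L ∈ Fp n j ∧ κ * Ub j / 8 ≤
    (nD (2 ^ (j + (m + s + 1) + 0)) (RB κ C j (m + s + 1) (C * 2 ^ j) η) L : ℝ)} := ⟨_, rfl⟩
  have hcov : WB κ C n j m ⊆ {L | L ∈ Fp n j ∧ L ∈ Nz κ C j} ∪ ⋃ s, EJ s := by
    rintro L ⟨hLF, hLz | ⟨X, Z1, Z2, Z3, Y0, hd, hbig⟩⟩
    · exact Or.inl ⟨hLF, hLz⟩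
    · refine Or.inr ?_
      have h4 : 4 * h ≤ nc Z2 := by
        have h5 : (4 : ℝ) * h ≤ nc Z2 := by
          have := hd.n2
          linarith
        exact_mod_cast h5
      have hex : ∃ J, In (2 ^ (j + J)) Y0 := by
        obtain ⟨J, hJ⟩ := In_len Y0
        exact ⟨J, hJ j⟩
      have h5 := Nat.find_spec hex
      have hJm : m < Nat.find hex := by
        by_contra hc
        exact hbig (in_mono h5 (Nat.pow_le_pow_right (by norm_num) (by omega)))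
      have h6 := Nat.find_min hex (m := Nat.find hex - 1) (by omega)
      obtain ⟨J, hJd⟩ : ∃ J, J = Nat.find hex := ⟨_, rfl⟩
      rw [← hJd] at h5 h6 hJm
      have h7 : ¬ In (2 ^ (J - 1) * 2 ^ j) Y0 := by
        rwa [← pow_add, add_comm (J - 1) j]
      have h9 : 2 ^ J = 2 * 2 ^ (J - 1) := by
        rw [← pow_succ']
        congr 1
        omega
      rw [Set.mem_iUnion]
      refine ⟨J - m, ?_⟩
      rw [hEJ]
      refine ⟨hLF, hq.trans ?_⟩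
      have h11 : 2 * C ≤ 2 ^ J := hm2.trans (Nat.pow_le_pow_right (by norm_num) (by omega))
      have h12 : 2 ^ (J + 1) ≤ 2 ^ (J - 1) * 2 ^ 2 := by
        rw [pow_succ, h9]
        omega
      have h13 := caseB neW hd hh1 hηh h4 h12 h5 h7 h11
      rw [show m + (J - m) + 1 = J + 1 by omega, add_zero]
      exact_mod_cast h13
  -- the mass of one event
  have hB1 : ∀ s, gf (EJ s) ≤ ENNReal.ofReal (8 * C1 / κ * (D * pr n j) * (1 / 2) ^ (m + s + 1)) := by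
    intro s
    obtain ⟨J, hJ⟩ : ∃ J, J = m + s + 1 := ⟨_, rfl⟩
    have hFi : HF D n (j + J) := fun n' i hn' hi => hF n' i hn' (by omega)
    have h5 := hE D n j (j + J) j hD hFi (by omega) (by omega) (RB κ C j J (C * 2 ^ j) η)
      (ENNReal.ofReal (Ub j / (2 : ℝ) ^ (5 * J)) * Xb j) (κ * Ub j / 8) (fun A Y h => h.1.gt) (fun A => ?_) (by positivity)
    · have h6 : gf (EJ s) * (ENNReal.ofReal (κ * Ub j / 8) * Xb j) ≤
          ENNReal.ofReal (C1 * D * pr n (j + J)) * (ENNReal.ofReal (Ub j / (2 : ℝ) ^ (5 * J)) * Xb j) := by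
        rw [hEJ]
        simp only
        rw [← hJ]
        exact h5
      have hpJ := pr_nonneg n (j + J)
      refine (cancelF (by positivity) (by positivity) h6).trans (ENNReal.ofReal_le_ofReal ?_)
      have h7 := pr_up16 n j J
      rw [← hJ]
      have h8' : (2 : ℝ) ^ (5 * J) = 32 ^ J := by
        rw [pow_mul]
        norm_num
      rw [h8', div_le_iff₀ (by positivity)]
      have h9 : (16 : ℝ) ^ J / 32 ^ J = (1 / 2) ^ J := by
        rw [← div_pow]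
        norm_num
      calc C1 * D * pr n (j + J) * (Ub j / 32 ^ J) ≤ C1 * D * (16 ^ J * pr n j) * (Ub j / 32 ^ J) := by gcongr
        _ = C1 * D * pr n j * Ub j * (16 ^ J / 32 ^ J) := by ring
        _ = 8 * C1 / κ * (D * pr n j) * (1 / 2) ^ J * (κ * Ub j / 8) := by
            rw [h9]
            field_simp
    · have h6 := hY j J (n - A.length) hj1 (by omega)
      have hw : ENNReal.ofReal (Ub j / (2 : ℝ) ^ (5 * J) * (1 + ((n - A.length : ℕ) : ℝ) / ml (j + J)) ^ (-(4 : ℝ))) * Xb j =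
          ENNReal.ofReal (Ub j / (2 : ℝ) ^ (5 * J)) * Xb j * ENNReal.ofReal (wt n A.length (j + J)) := by
        rw [ENNReal.ofReal_mul (by positivity)]
        unfold wt
        ring
      rw [hw] at h6
      refine (gf_mono ?_).trans h6
      rintro Y ⟨⟨-, y1, y2, y3⟩, y4, y5⟩
      refine ⟨y1, y2, by rwa [add_zero] at y4, ?_, y3⟩
      have h7 := y5.2.1
      rw [List.length_append] at h7
      omega
  -- the sum
  have hsum : gf (⋃ s, EJ s) ≤ ENNReal.ofReal (ε / 2 * D * pr n j) := by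
    refine (ENNReal.tsum_iUnion_le_tsum wE EJ).trans ((ENNReal.tsum_le_tsum hB1).trans ?_)
    rw [← ENNReal.ofReal_tsum_of_nonneg (fun s => by positivity)]
    · refine ENNReal.ofReal_le_ofReal ?_
      have e1 : ∀ s : ℕ, 8 * C1 / κ * (D * pr n j) * (1 / 2) ^ (m + s + 1) =
          (8 * C1 / κ * (1 / 2) ^ m * (D * pr n j) / 2) * (1 / 2) ^ s := by
        intro s
        rw [pow_succ, pow_add]
        ring
      simp only [e1]
      rw [tsum_mul_left, tsum_geometric_two]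
      have h5 : 0 ≤ D * pr n j := by positivity
      calc 8 * C1 / κ * (1 / 2) ^ m * (D * pr n j) / 2 * 2 = (8 * C1 / κ * (1 / 2) ^ m) * (D * pr n j) := by ring
        _ ≤ ε / 2 * (D * pr n j) := mul_le_mul_of_nonneg_right hm3 h5
        _ = _ := by ring
    · have e1 : ∀ s : ℕ, 8 * C1 / κ * (D * pr n j) * (1 / 2) ^ (m + s + 1) =
          (8 * C1 / κ * (1 / 2) ^ m * (D * pr n j) / 2) * (1 / 2) ^ s := by
        intro s
        rw [pow_succ, pow_add]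
        ring
      simp only [e1]
      exact summable_geometric_two.mul_left _
  have hNz : gf {L | L ∈ Fp n j ∧ L ∈ Nz κ C j} ≤ ENNReal.ofReal (ε / 2 * D * pr n j) := by
    have h5 : 2 ^ bN * ml j ≤ n := by
      refine le_trans (mul_le_mul_of_nonneg_right ?_ (ml_pos j).le) hn
      exact pow_le_pow_right₀ (by norm_num) ((le_max_right _ _).trans (le_max_left _ _))
    refine (hN n j hjN h5).trans (ENNReal.ofReal_le_ofReal ?_)
    have h6 := hL D n j hD hF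
    have h7 : ε / 2 * c0 ≤ ε / 2 * D := mul_le_mul_of_nonneg_left h6 (by positivity)
    exact mul_le_mul_of_nonneg_right h7 hp
  refine (gf_mono hcov).trans ((gf_union_le _ _).trans ((add_le_add hNz hsum).trans (le_of_eq ?_)))
  rw [← ENNReal.ofReal_add (by positivity) (by positivity)]
  congr 1
  ring

/-- **row N, first half** -/
theorem nWin_of {κ : ℝ} {C : ℕ} (hκ : 0 < κ) (hE : ExF) (hY : YBadWSt κ C) (hN : NoRSt κ C) (hL : HfLow) : NWin κ C := by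
  intro ε hε
  obtain ⟨m, h⟩ := wB_of hκ hE hY hN hL ε hε
  obtain ⟨b0, h⟩ := h m le_rfl
  refine ⟨m, b0, fun D n j hD hF hj hn => (gf_mono ?_).trans (h D n j hD hF hj hn)⟩
  rintro L ⟨hLF, hno⟩
  refine ⟨hLF, ?_⟩
  by_cases hz : L ∈ Nz κ C j
  · exact Or.inl hz
  · obtain ⟨X, Z, Y, h1, h2, ⟨Z1, Z2, Z3, rfl, c1, c2, c3, c4, c5, c6, c7, c8⟩, h4⟩ := neW.last κ C j L hz
    refine Or.inr ⟨X, Z1, Z2, Z3, Y, ⟨hLF.1, by rw [h1]; simp only [List.append_assoc], c1, c2, c3, c4, c5, c6, c7, c8, h4⟩,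
      fun hin => hno ⟨X, Z1 ++ (Z2 ++ Z3), Y, h1, h2, ⟨Z1, Z2, Z3, rfl, c1, c2, c3, c4, c5, c6, c7, c8⟩, hin⟩⟩

end ARM

end HexObs
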