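import Pool.Agent.ARM.NumB

/-!
# ARM (two arms): bad parts with the weight of the length (helper63)

* `sqrt_mul` : two bounds give the geometric mean;
* **`yBadW`** : parts behind a good tip with a long factor without rich window, at least y letters.
-/

set_option autoImplicit false

namespace HexObs

namespace ARM

open Finset TS SDN SIM NTA TIP

open scoped ENNReal

/-- the minimum is at most the geometric mean -/
lemma sqrt_mul {x X : ℝ≥0∞} {r s : ℝ} (hr : 0 ≤ r) (hs : 0 ≤ s) (h1 : x ≤ ENNReal.ofReal r * X)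
    (h2 : x ≤ ENNReal.ofReal s * X) : x ≤ ENNReal.ofReal (Real.sqrt (r * s)) * X := by
  rcases le_total r s with h | h
  · refine h1.trans (mul_le_mul' (ENNReal.ofReal_le_ofReal ?_) le_rfl)
    refine Real.le_sqrt_of_sq_le ?_
    rw [sq]
    exact mul_le_mul_of_nonneg_left h hr
  · refine h2.trans (mul_le_mul' (ENNReal.ofReal_le_ofReal ?_) le_rfl)
    refine Real.le_sqrt_of_sq_le ?_
    rw [sq]
    exact mul_le_mul_of_nonneg_right h hs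

/-- many letters, from the moments -/
lemma mass_len {P : Set (List Bool)} {q y : ℕ} {m : ℝ} {M : ℝ≥0∞} (hm : 0 < m)
    (h : ∑' Y : P, wE (Y : List Bool) * ENNReal.ofReal ((1 + ((Y : List Bool).length : ℝ) / m) ^ q) ≤ M) :
    gf {Y | Y ∈ P ∧ y ≤ Y.length} ≤ ENNReal.ofReal (((1 + (y : ℝ) / m) ^ q)⁻¹) * M := by
  have hp : (0 : ℝ) < (1 + (y : ℝ) / m) ^ q := by positivity
  have h1 : ENNReal.ofReal ((1 + (y : ℝ) / m) ^ q) * gf {Y | Y ∈ P ∧ y ≤ Y.length} ≤ M := by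
    refine le_trans ?_ h
    have e1 : ∑' Y : P, wE (Y : List Bool) * ENNReal.ofReal ((1 + ((Y : List Bool).length : ℝ) / m) ^ q) =
        ∑' Y : List Bool, P.indicator (fun Y => wE Y * ENNReal.ofReal ((1 + (Y.length : ℝ) / m) ^ q)) Y :=
      tsum_subtype P (fun Y => wE Y * ENNReal.ofReal ((1 + (Y.length : ℝ) / m) ^ q))
    rw [e1]
    unfold gf
    have e2 : ∑' Y : {Y | Y ∈ P ∧ y ≤ Y.length}, wE (Y : List Bool) =
        ∑' Y : List Bool, {Y | Y ∈ P ∧ y ≤ Y.length}.indicator (fun Y => wE Y) Y :=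
      tsum_subtype _ (fun Y => wE Y)
    rw [e2, ← ENNReal.tsum_mul_left]
    refine ENNReal.tsum_le_tsum fun Y => ?_
    by_cases hY : Y ∈ {Y | Y ∈ P ∧ y ≤ Y.length}
    · rw [Set.indicator_of_mem hY, Set.indicator_of_mem hY.1, mul_comm]
      refine mul_le_mul' le_rfl (ENNReal.ofReal_le_ofReal ?_)
      have h3 : (y : ℝ) ≤ Y.length := by exact_mod_cast hY.2
      gcongr
    · rw [Set.indicator_of_notMem hY, mul_zero]
      exact zero_le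
  have h2 : ENNReal.ofReal (((1 + (y : ℝ) / m) ^ q)⁻¹) * ENNReal.ofReal ((1 + (y : ℝ) / m) ^ q) = 1 := by
    rw [← ENNReal.ofReal_mul (by positivity), inv_mul_cancel₀ hp.ne', ENNReal.ofReal_one]
  calc gf {Y | Y ∈ P ∧ y ≤ Y.length} = ENNReal.ofReal (((1 + (y : ℝ) / m) ^ q)⁻¹) *
        (ENNReal.ofReal ((1 + (y : ℝ) / m) ^ q) * gf {Y | Y ∈ P ∧ y ≤ Y.length}) := by
        rw [← mul_assoc, h2, one_mul]
    _ ≤ _ := mul_le_mul' le_rfl h1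

/-- the weight of a missing length, as a power -/
lemma wt_pow (y : ℝ) (hy : 0 ≤ y) : (1 + y) ^ (-(4 : ℝ)) = ((1 + y) ^ 4)⁻¹ := by
  rw [Real.rpow_neg (by linarith)]
  congr 1
  exact_mod_cast Real.rpow_natCast (1 + y) 4

/-- **parts with a long factor without rich window, with the weight of the length** -/
theorem yBadW {κ : ℝ} {C : ℕ} (hM : YMassJ) (hY : YBad κ C) : ∀ (η : ℝ) (a c1 : ℕ), 0 < η → ∃ J0 b0 : ℕ,
    ∀ b J y : ℕ, b0 ≤ b → J0 ≤ J →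
    gf {Y | Y ∈ SA ∧ rev Y ∈ GT b η ∧ In (2 ^ (b + J)) Y ∧ y ≤ Y.length ∧ ∃ n : ℕ, 2 ^ J ≤ n * 2 ^ c1 ∧ Y ∈ Lz κ C b n} ≤
      ENNReal.ofReal (Ub b / (2 : ℝ) ^ (a * J) * (1 + (y : ℝ) / ml (b + J)) ^ (-(4 : ℝ))) * Xb b := by
  intro η a c1 hη
  obtain ⟨C1, hC1, hM⟩ := hM η 8 hη
  obtain ⟨a1, ha1⟩ : ∃ a1 : ℕ, C1 ^ 2 * 4 ^ a ≤ 2 ^ a1 := by
    obtain ⟨a1, h⟩ := pow_unbounded_of_one_lt (C1 ^ 2 * 4 ^ a) (one_lt_two)
    exact ⟨a1, h.le⟩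
  obtain ⟨J0, b0, hY⟩ := hY η a1 c1 hη
  refine ⟨J0 + 1, b0, fun b J y hb hJ => ?_⟩
  have hU : (0 : ℝ) < Ub b := Ub_pos b
  have hm := ml_pos (b + J)
  obtain ⟨w, hw⟩ : ∃ w : ℝ, w = 1 + (y : ℝ) / ml (b + J) := ⟨_, rfl⟩
  have hw1 : 1 ≤ w := by
    rw [hw]
    have : 0 ≤ (y : ℝ) / ml (b + J) := by positivity
    linarith
  have h1 : gf {Y | Y ∈ SA ∧ rev Y ∈ GT b η ∧ In (2 ^ (b + J)) Y ∧ y ≤ Y.length ∧
      ∃ n : ℕ, 2 ^ J ≤ n * 2 ^ c1 ∧ Y ∈ Lz κ C b n} ≤ ENNReal.ofReal (Ub b / (2 : ℝ) ^ (a1 * J)) * Xb b := by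
    refine (gf_mono ?_).trans (hY b J hb (by omega))
    rintro Y ⟨k1, k2, k3, -, k5⟩
    exact ⟨k1, k2, k3, k5⟩
  have h2 : gf {Y | Y ∈ SA ∧ rev Y ∈ GT b η ∧ In (2 ^ (b + J)) Y ∧ y ≤ Y.length ∧
      ∃ n : ℕ, 2 ^ J ≤ n * 2 ^ c1 ∧ Y ∈ Lz κ C b n} ≤ ENNReal.ofReal ((w ^ 8)⁻¹ * (C1 ^ (J + 1) * Ub b)) * Xb b := by
    have h3 := mass_len (y := y) hm (hM b J)
    rw [← hw, ← mul_assoc, ← ENNReal.ofReal_mul (by positivity)] at h3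
    refine (gf_mono ?_).trans h3
    rintro Y ⟨k1, k2, k3, k4, -⟩
    exact ⟨⟨k1, k2, k3⟩, k4⟩
  refine (sqrt_mul (by positivity) (by positivity) h1 h2).trans (mul_le_mul' (ENNReal.ofReal_le_ofReal ?_) le_rfl)
  rw [wt_pow _ (by positivity), ← hw]
  refine Real.sqrt_le_iff.2 ⟨by positivity, ?_⟩
  have hp : (0 : ℝ) < 2 ^ (a1 * J) := by positivity
  have h3 : C1 ^ (J + 1) * 4 ^ (a * J) ≤ 2 ^ (a1 * J) := by
    calc C1 ^ (J + 1) * 4 ^ (a * J) ≤ C1 ^ (2 * J) * 4 ^ (a * J) := by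
          have : J + 1 ≤ 2 * J := by omega
          gcongr
      _ = (C1 ^ 2 * 4 ^ a) ^ J := by rw [mul_pow, ← pow_mul, ← pow_mul]
      _ ≤ (2 ^ a1) ^ J := by gcongr
      _ = 2 ^ (a1 * J) := (pow_mul _ _ _).symm
  have h4 : (4 : ℝ) ^ (a * J) = (2 ^ (a * J)) ^ 2 := by
    rw [show (4 : ℝ) = 2 ^ 2 by norm_num, ← pow_mul, ← pow_mul, mul_comm 2]
  have h5 : C1 ^ (J + 1) / 2 ^ (a1 * J) ≤ 1 / (2 ^ (a * J)) ^ 2 := by
    rw [div_le_div_iff₀ hp (by positivity), one_mul, ← h4]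
    exact h3
  calc Ub b / 2 ^ (a1 * J) * ((w ^ 8)⁻¹ * (C1 ^ (J + 1) * Ub b))
      = Ub b ^ 2 * (w ^ 8)⁻¹ * (C1 ^ (J + 1) / 2 ^ (a1 * J)) := by ring
    _ ≤ Ub b ^ 2 * (w ^ 8)⁻¹ * (1 / (2 ^ (a * J)) ^ 2) := by gcongr
    _ = (Ub b / 2 ^ (a * J) * (w ^ 4)⁻¹) ^ 2 := by
      rw [mul_pow, div_pow, inv_pow, ← pow_mul]
      ring

end ARM

end HexObs
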