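import Pool.Agent.ARM.NumB
import Pool.Agent.ARM.YBadW
import Pool.Agent.ARM.NWin
import Pool.Agent.ARM.Conf
import Pool.Agent.TIP.YBad
import Pool.Agent.SDN.Crowd

/-!
# ARM (two arms): words without a rich factor (helper63)

* **`noRich`** : words of the box `2 ^ (b + J)` with at least n letters and a factor of extent `2 ^ J` without rich window of
  the scale b: `pr n (b + J) / 2 ^ (a J)`, every a;
* **`noR`** : `NoRSt`.
-/

set_option autoImplicit false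

namespace HexObs

namespace ARM

open Finset TS SDN SIM NTA TIP

open scoped ENNReal

/-- a word of a box is close to its end -/
lemma dz_In {K : ℕ} {L : List Bool} (h : In (2 ^ K) L) : ∀ s, s ≤ L.length → dz L s ≤ 2 ^ (K + 3) := by
  intro s hs
  have h1 := TIW.hn_le_Bl (h s hs)
  have h2 := TIW.hn_le_Bl (h L.length le_rfl)
  have h3 := TIW.hn_sub (vx oo up L s) (vx oo up L L.length)
  have e : (2 : ℤ) ^ (K + 3) = 8 * 2 ^ K := by ring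
  have e0 : (0 : ℤ) < 2 ^ K := by positivity
  push_cast at h1 h2
  unfold dz TIW.en
  rw [e]
  linarith

lemma WL_In {K : ℕ} {L : List Bool} (hL : L ∈ SA) (h : In (2 ^ K) L) : L ∈ WL (K + 3) := conf_WL hL (dz_In h)

/-- the sum of the powers of 1 / 2 -/
lemma tsum_half {x : ℝ} (hx : 0 ≤ x) : ∑' J : ℕ, ENNReal.ofReal (x * (1 / 2) ^ J) = ENNReal.ofReal (2 * x) := by
  have h1 : HasSum (fun J : ℕ => x * (1 / 2 : ℝ) ^ J) (x * 2) := by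
    have h2 := (hasSum_geometric_two).mul_left x
    exact h2
  rw [← ENNReal.ofReal_tsum_of_nonneg (fun J => by positivity) h1.summable, h1.tsum_eq, mul_comm]

/-- **words with a long factor without rich window** -/
theorem noRich {κ : ℝ} {C : ℕ} (hR : RegZ κ C) (hC : ConfSt) : ∀ a c1 : ℕ, ∃ J0 b0 : ℕ, ∀ b J n : ℕ, b0 ≤ b → J0 ≤ J →
    gf {L | L ∈ SA ∧ n ≤ L.length ∧ In (2 ^ (b + J)) L ∧ ∃ N : ℕ, 2 ^ J ≤ N * 2 ^ c1 ∧ L ∈ Lz κ C b N} ≤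
      ENNReal.ofReal (pr n (b + J) / 2 ^ (a * J)) := by
  intro a c1
  obtain ⟨C1, c, b1, J1, n1, hC1, hc, hreg⟩ := hR
  obtain ⟨C2, hC2, hconf⟩ := hC
  obtain ⟨C3, hC3, hF⟩ := NPR.Fast.FK_up
  have hl2 : 0 < Real.log 2 := Real.log_pos one_lt_two
  obtain ⟨k, hk⟩ : ∃ k : ℝ, k = C1 ^ 3 * C3 * C2 * (2 ^ ((91 / 24 : ℝ) * 3)) ^ 2 := ⟨_, rfl⟩
  have hk0 : 0 ≤ k := by rw [hk]; positivity
  obtain ⟨J2, hJ2⟩ := YB.num k (C1 * 4 ^ a) (c * Real.log 2) c1 hk0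
    (one_le_mul_of_one_le_of_one_le hC1 (one_le_pow₀ (by norm_num))) (by positivity)
  refine ⟨J1 + J2 + n1 + c1, b1, fun b J n hb hJ => ?_⟩
  obtain ⟨N, hN⟩ : ∃ N : ℕ, N = 2 ^ (J - c1) := ⟨_, rfl⟩
  have hNn : n1 ≤ N := by
    rw [hN]
    exact (show n1 ≤ J - c1 by omega).trans Nat.lt_two_pow_self.le
  have hNr : (N : ℝ) = 2 ^ (J - c1) := by rw [hN]; push_cast; rfl
  obtain ⟨S, hS⟩ : ∃ S : Set (List Bool), S = {L | L ∈ SA ∧ n ≤ L.length ∧ In (2 ^ (b + J)) L ∧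
    ∃ N : ℕ, 2 ^ J ≤ N * 2 ^ c1 ∧ L ∈ Lz κ C b N} := ⟨_, rfl⟩
  obtain ⟨i, hi⟩ : ∃ i, i = b + J + 3 := ⟨_, rfl⟩
  obtain ⟨p, hp⟩ : ∃ p : ℝ, p = (2 : ℝ) ^ ((43 / 24 : ℝ) * (i : ℝ)) := ⟨_, rfl⟩
  have hp0 : 0 < p := by rw [hp]; positivity
  have hm := ml_pos i
  have hmax : 0 < max (n : ℝ) (ml i) := lt_max_of_lt_right hm
  obtain ⟨x, hx⟩ : ∃ x : ℝ, x = ml i / max (n : ℝ) (ml i) := ⟨_, rfl⟩
  have hx0 : 0 < x := by rw [hx]; positivity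
  have hx1 : x ≤ 1 := by
    rw [hx, div_le_one hmax]
    exact le_max_right _ _
  obtain ⟨w, hw⟩ : ∃ w : ℝ, w = (2 : ℝ) ^ (-(c * N)) := ⟨_, rfl⟩
  have hw0 : 0 < w := by rw [hw]; positivity
  have h1 : gf S ≤ ENNReal.ofReal (C1 ^ (J + 3) * w * (C3 * p)) * 1 := by
    have h2 : gf S ≤ gf {t | t ∈ WL (b + (J + 3)) ∧ t ∈ Lz κ C b N} := by
      refine gf_mono fun L hL => ?_
      rw [hS] at hL
      obtain ⟨l1, -, l3, N', l4, l5⟩ := hL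
      refine ⟨WL_In l1 l3, YB.Lz_anti ?_ l5⟩
      rw [hN]
      have h3 : 2 ^ (J - c1) * 2 ^ c1 ≤ N' * 2 ^ c1 := by
        rw [← pow_add, show J - c1 + c1 = J by omega]
        exact l4
      exact Nat.le_of_mul_le_mul_right h3 (by positivity)
    have h3 := hreg b (J + 3) N hb (by omega) hNn
    have h4 := hF (b + (J + 3))
    rw [show b + (J + 3) = i by omega] at h2 h3 h4
    refine h2.trans (h3.trans ?_)
    rw [mul_one, hw, ENNReal.ofReal_mul (by positivity), mul_assoc]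
    calc ENNReal.ofReal (C1 ^ (J + 3) * 2 ^ (-(c * (N : ℝ)))) * (ENNReal.ofReal (Ub i) * Xb i ^ 2)
        ≤ ENNReal.ofReal (C1 ^ (J + 3) * 2 ^ (-(c * (N : ℝ)))) * ENNReal.ofReal (C3 * 2 ^ (43 / 24 * (i : ℝ))) :=
          mul_le_mul' le_rfl h4
      _ = _ := by rw [← ENNReal.ofReal_mul (by positivity), hp]
  have h2 : gf S ≤ ENNReal.ofReal (C2 * (p * x ^ (4 : ℕ))) * 1 := by
    rw [mul_one, hp, hx]
    refine (gf_mono fun L hL => ?_).trans (hconf n i)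
    rw [hS] at hL
    obtain ⟨l1, l2, l3, -⟩ := hL
    refine ⟨l1, l2, fun s hs => ?_⟩
    rw [hi]
    exact dz_In l3 s hs
  have h3 := sqrt_mul (by positivity) (by positivity) h1 h2
  rw [mul_one, hS] at h3
  refine h3.trans (ENNReal.ofReal_le_ofReal ?_)
  have hpr : 0 < pr n (b + J) := pr_pos _ _
  refine Real.sqrt_le_iff.2 ⟨by positivity, ?_⟩
  have h4 : p * x ^ (3 / 2 : ℝ) ≤ 2 ^ ((91 / 24 : ℝ) * 3) * pr n (b + J) := by
    have h5 := pr_up n (b + J) 3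
    rw [← hi] at h5
    have h6 : pr n i = p * x ^ (3 / 2 : ℝ) := by rw [hp, hx]; rfl
    rw [← h6]
    push_cast at h5
    exact h5
  have h5 : p ^ 2 * x ^ 4 ≤ (2 ^ ((91 / 24 : ℝ) * 3) * pr n (b + J)) ^ 2 := by
    have h6 : (x ^ (3 / 2 : ℝ)) ^ 2 = x ^ 3 := by
      rw [← Real.rpow_natCast, ← Real.rpow_mul hx0.le, ← Real.rpow_natCast x 3]
      norm_num
    calc p ^ 2 * x ^ 4 ≤ p ^ 2 * x ^ 3 := by
          have : x ^ 4 ≤ x ^ 3 := pow_le_pow_of_le_one hx0.le hx1 (by norm_num)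
          gcongr
      _ = (p * x ^ (3 / 2 : ℝ)) ^ 2 := by rw [mul_pow, h6]
      _ ≤ _ := by gcongr
  have h6 : k * (C1 * 4 ^ a) ^ J * w ≤ 1 := by
    have h7 := hJ2 J (by omega)
    have e : w = Real.exp (-(c * Real.log 2 * 2 ^ (J - c1))) := by
      rw [hw, Real.rpow_def_of_pos (by norm_num), hNr]
      congr 1
      ring
    rw [e]
    exact h7
  have h4a : ((2 : ℝ) ^ (a * J)) ^ 2 = (4 ^ a) ^ J := by
    rw [show (4 : ℝ) = 2 ^ 2 by norm_num, ← pow_mul, ← pow_mul, ← pow_mul]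
    congr 1
    ring
  have hq : (0 : ℝ) < (4 ^ a) ^ J := by positivity
  calc C1 ^ (J + 3) * w * (C3 * p) * (C2 * (p * x ^ 4)) = C1 ^ (J + 3) * w * C3 * C2 * (p ^ 2 * x ^ 4) := by ring
    _ ≤ C1 ^ (J + 3) * w * C3 * C2 * (2 ^ ((91 / 24 : ℝ) * 3) * pr n (b + J)) ^ 2 := by gcongr
    _ = (k * (C1 * 4 ^ a) ^ J * w) * ((pr n (b + J)) ^ 2 / (4 ^ a) ^ J) := by
      rw [hk, mul_pow C1, mul_pow _ (pr n (b + J))]
      field_simp
      ring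
    _ ≤ 1 * ((pr n (b + J)) ^ 2 / (4 ^ a) ^ J) := by gcongr
    _ = (pr n (b + J) / 2 ^ (a * J)) ^ 2 := by rw [one_mul, div_pow, h4a]

/-- **row NoR** (29's literal): the words without a rich factor -/
theorem noR {κ : ℝ} {C : ℕ} (hR : RegZ κ C) (hC : ConfSt) : NoRSt κ C := by
  classical
  intro ε hε
  obtain ⟨J0, b1, hno⟩ := noRich hR hC 6 1
  obtain ⟨C2, hC2, hconf⟩ := hC
  obtain ⟨J1, hJ1⟩ : ∃ J1 : ℕ, J0 ≤ J1 ∧ 2 * (1 / 2 : ℝ) ^ J1 ≤ ε / 2 := by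
    obtain ⟨J1, h⟩ := exists_pow_lt_of_lt_one (show 0 < ε / 4 by positivity) (show (1 / 2 : ℝ) < 1 by norm_num)
    refine ⟨J0 + J1, by omega, ?_⟩
    have h1 : (1 / 2 : ℝ) ^ (J0 + J1) ≤ (1 / 2) ^ J1 := pow_le_pow_of_le_one (by norm_num) (by norm_num) (by omega)
    linarith
  obtain ⟨hJ01, hJε⟩ := hJ1
  obtain ⟨A, hA⟩ : ∃ A : ℝ, A = C2 * (2 ^ ((91 / 24 : ℝ) * ((J1 + 3 : ℕ) : ℝ)) * 2 ^ ((4 / 3 : ℝ) * ((J1 + 3 : ℕ) : ℝ))) :=
    ⟨_, rfl⟩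
  have hA0 : 0 < A := by rw [hA]; positivity
  obtain ⟨b2, hb2⟩ : ∃ b2 : ℕ, A / 2 ^ b2 ≤ ε / 2 := by
    obtain ⟨b2, h⟩ := pow_unbounded_of_one_lt (2 * A / ε) (one_lt_two)
    refine ⟨b2, ?_⟩
    rw [div_lt_iff₀ hε] at h
    rw [div_le_div_iff₀ (by positivity) (by norm_num)]
    linarith
  refine ⟨b1 + b2, fun n j hj hn => ?_⟩
  have hpr : 0 < pr n j := pr_pos _ _
  have hmj := ml_pos j
  obtain ⟨i, hi⟩ : ∃ i, i = j + J1 + 3 := ⟨_, rfl⟩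
  -- the covering
  have hcov : {L | L ∈ Fp n j ∧ L ∈ Nz κ C j} ⊆ {L | L ∈ SA ∧ n ≤ L.length ∧ ∀ s, s ≤ L.length → dz L s ≤ 2 ^ i} ∪
      ⋃ J : ℕ, {L | L ∈ SA ∧ n ≤ L.length ∧ In (2 ^ (j + (J1 + J))) L ∧
        ∃ N : ℕ, 2 ^ (J1 + J) ≤ N * 2 ^ 1 ∧ L ∈ Lz κ C j N} := by
    rintro L ⟨⟨h1, h2, -, -⟩, h5⟩
    have hex : ∃ J, In (2 ^ (j + J)) L := by
      obtain ⟨J, hJ⟩ := In_len L
      exact ⟨J, hJ j⟩
    rcases le_or_gt (Nat.find hex) J1 with h | h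
    · refine Or.inl ⟨h1, h2, fun s hs => ?_⟩
      have h6 : In (2 ^ (j + J1)) L := Nf.in_mono (Nat.find_spec hex) (Nat.pow_le_pow_right (by norm_num) (by omega))
      rw [hi]
      exact dz_In h6 s hs
    · refine Or.inr (Set.mem_iUnion.2 ⟨Nat.find hex - J1, h1, h2, ?_, 2 ^ (Nat.find hex - 1), ?_, ?_⟩)
      · rw [show J1 + (Nat.find hex - J1) = Nat.find hex by omega]
        exact Nat.find_spec hex
      · rw [← pow_add]
        exact Nat.pow_le_pow_right (by norm_num) (by omega)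
      · refine ⟨[], L, [], by rw [List.nil_append, List.append_nil], h5, ?_⟩
        rw [← pow_add, show Nat.find hex - 1 + j = j + (Nat.find hex - 1) by omega]
        exact Nat.find_min hex (by omega)
  refine (gf_mono hcov).trans ((gf_union_le _ _).trans ?_)
  have hsplit : ENNReal.ofReal (ε * pr n j) = ENNReal.ofReal (ε / 2 * pr n j) + ENNReal.ofReal (ε / 2 * pr n j) := by
    rw [← ENNReal.ofReal_add (by positivity) (by positivity)]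
    congr 1
    ring
  rw [hsplit]
  refine add_le_add ?_ ?_
  · refine (hconf n i).trans (ENNReal.ofReal_le_ofReal ?_)
    have hm := ml_pos i
    have hmax : 0 < max (n : ℝ) (ml i) := lt_max_of_lt_right hm
    obtain ⟨x, hx⟩ : ∃ x : ℝ, x = ml i / max (n : ℝ) (ml i) := ⟨_, rfl⟩
    have hx0 : 0 < x := by rw [hx]; positivity
    have hx1 : x ≤ 1 := by
      rw [hx, div_le_one hmax]
      exact le_max_right _ _
    have hx2 : x ≤ 2 ^ ((4 / 3 : ℝ) * ((J1 + 3 : ℕ) : ℝ)) / 2 ^ b2 := by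
      rw [hx, div_le_div_iff₀ hmax (by positivity), hi, show j + J1 + 3 = j + (J1 + 3) by omega, ml_add]
      have h1 : ml j * 2 ^ b2 ≤ max (n : ℝ) ((2 : ℝ) ^ ((4 / 3 : ℝ) * ((J1 + 3 : ℕ) : ℝ)) * ml j) := by
        refine le_trans ?_ (le_max_left _ _)
        refine le_trans ?_ hn
        rw [mul_comm]
        have : (2 : ℝ) ^ b2 ≤ 2 ^ (b1 + b2) := pow_le_pow_right₀ (by norm_num) (by omega)
        gcongr
      have h2 : (0 : ℝ) < (2 : ℝ) ^ ((4 / 3 : ℝ) * ((J1 + 3 : ℕ) : ℝ)) := by positivity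
      calc (2 : ℝ) ^ ((4 / 3 : ℝ) * ((J1 + 3 : ℕ) : ℝ)) * ml j * 2 ^ b2
          = (2 : ℝ) ^ ((4 / 3 : ℝ) * ((J1 + 3 : ℕ) : ℝ)) * (ml j * 2 ^ b2) := by ring
        _ ≤ _ := mul_le_mul_of_nonneg_left h1 h2.le
    have h4 : x ^ (4 : ℕ) ≤ x ^ (3 / 2 : ℝ) * x := by
      have h5 : x ^ (3 / 2 : ℝ) * x = x ^ (5 / 2 : ℝ) := by
        rw [show (5 / 2 : ℝ) = 3 / 2 + 1 by norm_num, Real.rpow_add hx0, Real.rpow_one]
      rw [h5, ← Real.rpow_natCast]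
      exact Real.rpow_le_rpow_of_exponent_ge hx0 hx1 (by norm_num)
    have h5 := pr_up n j (J1 + 3)
    rw [show j + (J1 + 3) = i by omega] at h5
    have h6 : pr n i = (2 : ℝ) ^ ((43 / 24 : ℝ) * (i : ℝ)) * x ^ (3 / 2 : ℝ) := by rw [hx]; rfl
    rw [← hx]
    calc C2 * ((2 : ℝ) ^ ((43 / 24 : ℝ) * (i : ℝ)) * x ^ (4 : ℕ))
        ≤ C2 * ((2 : ℝ) ^ ((43 / 24 : ℝ) * (i : ℝ)) * (x ^ (3 / 2 : ℝ) * x)) := by gcongr
      _ = C2 * (pr n i * x) := by rw [h6]; ring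
      _ ≤ C2 * ((2 ^ ((91 / 24 : ℝ) * ((J1 + 3 : ℕ) : ℝ)) * pr n j) *
          (2 ^ ((4 / 3 : ℝ) * ((J1 + 3 : ℕ) : ℝ)) / 2 ^ b2)) := by gcongr
      _ = A / 2 ^ b2 * pr n j := by
        rw [hA]
        ring
      _ ≤ ε / 2 * pr n j := by gcongr
  · refine (Crw.gf_iUnion_le _).trans ?_
    have h1 : ∀ J : ℕ, gf {L | L ∈ SA ∧ n ≤ L.length ∧ In (2 ^ (j + (J1 + J))) L ∧
        ∃ N : ℕ, 2 ^ (J1 + J) ≤ N * 2 ^ 1 ∧ L ∈ Lz κ C j N} ≤
        ENNReal.ofReal (((1 / 2) ^ J1 * pr n j) * (1 / 2) ^ J) := by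
      intro J
      refine (hno j (J1 + J) n (by omega) (by omega)).trans (ENNReal.ofReal_le_ofReal ?_)
      have h2 := pr_up16 n j (J1 + J)
      have h3 : (0 : ℝ) < 2 ^ (6 * (J1 + J)) := by positivity
      rw [div_le_iff₀ h3]
      refine h2.trans ?_
      have h4 : (2 : ℝ) ^ (6 * (J1 + J)) = 64 ^ (J1 + J) := by
        rw [pow_mul]
        norm_num
      have h5 : (16 : ℝ) ^ (J1 + J) ≤ (1 / 2) ^ (J1 + J) * 64 ^ (J1 + J) := by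
        rw [← mul_pow]
        exact pow_le_pow_left₀ (by norm_num) (by norm_num) _
      rw [h4]
      calc (16 : ℝ) ^ (J1 + J) * pr n j ≤ ((1 / 2) ^ (J1 + J) * 64 ^ (J1 + J)) * pr n j := by gcongr
        _ = _ := by
          rw [pow_add (1 / 2 : ℝ)]
          ring
    refine (ENNReal.tsum_le_tsum h1).trans ?_
    rw [tsum_half (by positivity)]
    refine ENNReal.ofReal_le_ofReal ?_
    nlinarith

end ARM

end HexObs
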