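import Pool.Agent.ARM.EsSt
import Pool.Agent.ARM.NoRich
import Pool.Agent.ARM.Low
import Pool.Agent.TIP.GeoZ
import Pool.Agent.TIP.YBad

/-!
# ARM (two arms): the inputs of the rows N and S with κ, C of `regZ_all` (helper63)

* `hfLow : HfLow`, `yBadWSt`, `noRichSt`; `noR` is in NoRich.lean;
* **`esSt_in`** : row S from ExF, InSt', YMassJ.
-/

set_option autoImplicit false

namespace HexObs

namespace ARM

open TIP

theorem hfLow : HfLow := by
  obtain ⟨c0, hc0, h⟩ := hf_low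
  exact ⟨c0, hc0, fun D n j _ hF => h D n j hF⟩

theorem yBadWSt {κ : ℝ} {C : ℕ} (hM : YMassJ) (hR : RegZ κ C) : YBadWSt κ C := yBadW hM (yBad hR)

theorem noRichSt {κ : ℝ} {C : ℕ} (hR : RegZ κ C) (hC : ConfSt) : NoRichSt κ C := noRich hR hC

/-- **row S** -/
theorem esSt_in (hE : ExF) (hI : InSt') (hM : YMassJ) : EsSt := by
  obtain ⟨κ, hκ, C, -, hR⟩ := regZ_all
  exact esSt_of hκ hE hI (yBadWSt hM hR) (noRichSt hR confSt) hfLow

end ARM

end HexObs
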