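import Pool.Agent.ARM.EsW
import Pool.Agent.ARM.DefsI
import Pool.Agent.ARM.NWin
import Pool.Agent.ARM.YBadW
import Pool.Agent.TIP.NfM
import Pool.Agent.SDN.Crowd

/-!
# ARM (two arms), row S (helper63): `esSt_of`

The words with an extra strand of the level i: good cuts in the last crossing before the visit (`InSt'`), or a long part
without rich window (`YBadWSt`, `NoRichSt`).
-/

set_option autoImplicit false

namespace HexObs

namespace ARM

open Finset TS SDN SIM NTA TIP TIP.Nf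

open scoped ENNReal

/-- words with a long factor without rich window (`noRich`) -/
def NoRichSt (κ : ℝ) (C : ℕ) : Prop := ∀ a c1 : ℕ, ∃ J0 b0 : ℕ, ∀ b J n : ℕ, b0 ≤ b → J0 ≤ J →
  gf {L | L ∈ SA ∧ n ≤ L.length ∧ In (2 ^ (b + J)) L ∧ ∃ N : ℕ, 2 ^ J ≤ N * 2 ^ c1 ∧ L ∈ Lz κ C b N} ≤
    ENNReal.ofReal (pr n (b + J) / 2 ^ (a * J))

namespace Es

/-! ### numbers -/

lemma tsum_half {x : ℝ} (hx : 0 ≤ x) : ∑' J : ℕ, ENNReal.ofReal (x * (1 / 2) ^ J) = ENNReal.ofReal (2 * x) := by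
  have h1 : HasSum (fun J : ℕ => x * (1 / 2 : ℝ) ^ J) (x * 2) := (hasSum_geometric_two).mul_left x
  rw [← ENNReal.ofReal_tsum_of_nonneg (fun J => by positivity) h1.summable, h1.tsum_eq, mul_comm]

/-- the ratio of the tips of two scales -/
lemma tip_rat : ∃ G : ℝ, 1 ≤ G ∧ ∀ b m : ℕ, ENNReal.ofReal (Ub (b + m)) * Xb (b + m) ≤
    ENNReal.ofReal (G ^ m * Ub b) * Xb b := by
  obtain ⟨E, hE, hXE⟩ := Xb_pow
  refine ⟨2 * E, by linarith, fun b m => ?_⟩
  have hU := Ub_pos b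
  calc ENNReal.ofReal (Ub (b + m)) * Xb (b + m) ≤ ENNReal.ofReal (2 ^ m * Ub b) * (ENNReal.ofReal (E ^ m) * Xb b) :=
        mul_le_mul' (ENNReal.ofReal_le_ofReal (Ub_steps b m)) (hXE b m)
    _ = _ := by
      rw [← mul_assoc, ← ENNReal.ofReal_mul (by positivity), mul_pow]
      congr 2
      ring

/-- a small power -/
lemma small_pow {G θ : ℝ} (hG : 1 ≤ G) (hθ : 0 < θ) : ∃ δ : ℝ, 0 < δ ∧ ∀ δ', 0 ≤ δ' → δ' ≤ δ → ∀ s : ℝ, 0 ≤ s →
    G ^ ⌊δ' * s⌋₊ ≤ (2 : ℝ) ^ (θ * s) := by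
  have hlog : 0 ≤ Real.logb 2 G := Real.logb_nonneg (by norm_num) hG
  refine ⟨θ / (Real.logb 2 G + 1), by positivity, fun δ' h0 h1 s hs => ?_⟩
  have h2 : (⌊δ' * s⌋₊ : ℝ) ≤ δ' * s := Nat.floor_le (by positivity)
  have h3 : G = (2 : ℝ) ^ Real.logb 2 G := (Real.rpow_logb (by norm_num) (by norm_num) (by linarith)).symm
  have h5 : G ^ ⌊δ' * s⌋₊ = (2 : ℝ) ^ (Real.logb 2 G * (⌊δ' * s⌋₊ : ℝ)) := by
    rw [Real.rpow_mul (by norm_num), ← h3, Real.rpow_natCast]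
  rw [h5]
  refine Real.rpow_le_rpow_of_exponent_le (by norm_num) ?_
  have h4 : Real.logb 2 G * δ' ≤ θ := by
    calc Real.logb 2 G * δ' ≤ (Real.logb 2 G + 1) * (θ / (Real.logb 2 G + 1)) := by
          refine mul_le_mul (by linarith) h1 h0 (by linarith)
      _ = θ := by field_simp
  calc Real.logb 2 G * (⌊δ' * s⌋₊ : ℝ) ≤ Real.logb 2 G * (δ' * s) := by gcongr
    _ = Real.logb 2 G * δ' * s := by ring
    _ ≤ θ * s := by gcongr

/-- the weights of two neighbouring scales -/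
lemma wt_up (y i : ℕ) : (1 + (y : ℝ) / ml (i + 1)) ^ (-(4 : ℝ)) ≤ 256 * (1 + (y : ℝ) / ml i) ^ (-(4 : ℝ)) := by
  have hm := ml_pos i
  have hm' := ml_pos (i + 1)
  have h1 : ml (i + 1) ≤ 4 * ml i := by
    rw [ml_add]
    refine mul_le_mul_of_nonneg_right ?_ hm.le
    calc (2 : ℝ) ^ ((4 / 3 : ℝ) * ((1 : ℕ) : ℝ)) ≤ 2 ^ (2 : ℝ) :=
          Real.rpow_le_rpow_of_exponent_le (by norm_num) (by norm_num)
      _ = 4 := by norm_num
  have hy : (0 : ℝ) ≤ y := Nat.cast_nonneg y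
  have h2 : 1 + (y : ℝ) / ml i ≤ 4 * (1 + (y : ℝ) / ml (i + 1)) := by
    have h3 : (y : ℝ) / ml i ≤ 4 * ((y : ℝ) / ml (i + 1)) := by
      rw [mul_div_assoc', div_le_div_iff₀ hm hm']
      nlinarith
    linarith
  have h0 : 0 < 1 + (y : ℝ) / ml i := by positivity
  have h0' : 0 < 1 + (y : ℝ) / ml (i + 1) := by positivity
  rw [wt_pow _ (by positivity), wt_pow _ (by positivity)]
  rw [← div_eq_mul_inv, ← one_div, div_le_div_iff₀ (by positivity) (by positivity), one_mul]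
  calc (1 + (y : ℝ) / ml i) ^ 4 ≤ (4 * (1 + (y : ℝ) / ml (i + 1))) ^ 4 := pow_le_pow_left₀ h0.le h2 4
    _ = 256 * (1 + (y : ℝ) / ml (i + 1)) ^ 4 := by ring

/-! ### the frame of the end -/

/-- the end of the second part, in its frame -/
lemma end_frame (A : List Bool) : ∃ z : Pt, ∀ Y : List Bool, TIW.hn (TIW.en Y - z) = TIW.hn (TIW.en (A ++ Y)) := by
  refine ⟨mulE (conjE (TIW.rt A)) (-TIW.en A), fun Y => ?_⟩
  have h1 : mulE (TIW.rt A) (mulE (conjE (TIW.rt A)) (-TIW.en A)) = -TIW.en A := by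
    rw [mulE_assoc, mulE_conjE, TIW.nrm_rt, mulE_one]
  rw [← TIW.hn_mulE (TIW.nrm_rt A), mulE_sub, h1, sub_neg_eq_add, en_app, add_comm]

/-- the length of the second part -/
lemma len_frame {n j : ℕ} {A Y : List Bool} (h : A ++ Y ∈ Fp n j) : n - A.length ≤ Y.length ∧
    (Y.length : ℝ) < ((n - A.length : ℕ) : ℝ) + ml j := by
  obtain ⟨-, h2, h3, -⟩ := h
  rw [List.length_append] at h2 h3
  push_cast at h3
  refine ⟨by omega, ?_⟩
  rcases le_or_gt A.length n with h | h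
  · rw [Nat.cast_sub h]
    linarith
  · have e : (n : ℝ) < A.length := by exact_mod_cast h
    rw [show n - A.length = 0 by omega, Nat.cast_zero]
    linarith

end Es

open Es

open Classical in
/-- **row S** -/
theorem esSt_of {κ : ℝ} {C : ℕ} (hκ : 0 < κ) (hE : ExF) (hI : InSt') (hY : YBadWSt κ C) (hN : NoRichSt κ C)
    (hL : HfLow) : EsSt := by
  intro θ hθ
  obtain ⟨η, hηd⟩ : ∃ η : ℝ, η = κ / 8 := ⟨_, rfl⟩
  have hη : 0 < η := by rw [hηd]; positivity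
  obtain ⟨θ0, hθ0, hI⟩ := hI η (2 * C) 3 hη (θ / 2) (by positivity)
  obtain ⟨G, hG, hrat⟩ := tip_rat
  obtain ⟨δ1, hδ1, hsm⟩ := small_pow hG (show 0 < θ / 2 by positivity)
  obtain ⟨δ, hδd⟩ : ∃ δ : ℝ, δ = min (min θ0 δ1) 1 := ⟨_, rfl⟩
  have hδ : 0 < δ := by rw [hδd]; exact lt_min (lt_min hθ0 hδ1) one_pos
  have hδ0 : δ ≤ θ0 := by rw [hδd]; exact (min_le_left _ _).trans (min_le_left _ _)
  have hδ1' : δ ≤ δ1 := by rw [hδd]; exact (min_le_left _ _).trans (min_le_right _ _)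
  have hδ2 : δ ≤ 1 := by rw [hδd]; exact min_le_right _ _
  obtain ⟨m00, hI⟩ := hI δ hδ hδ0
  obtain ⟨a, ha5, haδ⟩ : ∃ a : ℕ, 5 ≤ a ∧ 107 / 24 ≤ (a : ℝ) * δ := by
    obtain ⟨a, ha⟩ := exists_nat_ge (107 / 24 / δ)
    refine ⟨a + 5, by omega, ?_⟩
    rw [div_le_iff₀ hδ] at ha
    push_cast
    nlinarith
  obtain ⟨J0, b1, hY⟩ := hY η a 13 hη
  obtain ⟨J2, b2, hN⟩ := hN a 12
  obtain ⟨CA, hCA, hEA⟩ := hE η 3 hη
  obtain ⟨CB, hCB, hEB⟩ := hE η 1 hη
  obtain ⟨c0, hc0, hL⟩ := hL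
  obtain ⟨m0, hm0⟩ : ∃ m0 : ℕ, m0 = m00 + J0 + J2 + 6 + 48 * C + 1 := ⟨_, rfl⟩
  obtain ⟨CI, b3, hCI, hI⟩ := hI m0 (by omega)
  obtain ⟨bU, hbU⟩ : ∃ bU : ℕ, ∀ b, bU ≤ b → 8 ≤ κ * Ub b := by
    obtain ⟨B, hB⟩ := Ub_big
    obtain ⟨n, hn⟩ := exists_nat_ge (8 / κ)
    refine ⟨B * n, fun b hb => ?_⟩
    have h1 := hB b n hb
    have h2 : (n : ℝ) ≤ 8 ^ n := by
      exact_mod_cast (Nat.lt_pow_self (by norm_num : 1 < 8)).le
    have h3 : 8 / κ ≤ Ub b := hn.trans (h2.trans h1)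
    rw [div_le_iff₀ hκ] at h3
    linarith
  obtain ⟨KA, hKA⟩ : ∃ KA : ℝ, KA = CA * CI * G ^ m0 * (8 / κ) := ⟨_, rfl⟩
  obtain ⟨KB, hKB⟩ : ∃ KB : ℝ, KB = CB * (2048 / κ) := ⟨_, rfl⟩
  have hKA0 : 0 < KA := by rw [hKA]; positivity
  have hKB0 : 0 < KB := by rw [hKB]; positivity
  refine ⟨KA + 2 * KB + 2 / c0 + 2 ^ (91 / 24 : ℝ) * 4, m0 + (b1 + b2 + b3 + bU + 1), by positivity,
    fun D n j l i hD hF hj hjl hli => ?_⟩
  obtain ⟨s, hs⟩ : ∃ s : ℝ, s = (i : ℝ) - j := ⟨_, rfl⟩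
  have hs0 : 0 ≤ s := by
    rw [hs]
    have : (j : ℝ) ≤ i := by exact_mod_cast hjl.trans hli
    linarith
  obtain ⟨u, hu⟩ : ∃ u : ℝ, u = (i : ℝ) - l := ⟨_, rfl⟩
  have hu0 : 0 ≤ u := by
    rw [hu]
    have : (l : ℝ) ≤ i := by exact_mod_cast hli
    linarith
  have hus : u ≤ s := by
    rw [hs, hu]
    have : (j : ℝ) ≤ l := by exact_mod_cast hjl
    linarith
  obtain ⟨W, hW⟩ : ∃ W : ℝ, W = (2 : ℝ) ^ ((11 / 24 + θ) * s - 2 / 3 * u) := ⟨_, rfl⟩
  have hW0 : 0 < W := by rw [hW]; positivity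
  have hp := pr_pos n j
  rw [← hs, ← hu, ← hW]
  -- small distance of the levels
  rcases Nat.lt_or_ge i (l + 3) with hil | hil
  · refine (gf_mono fun L hL => hL.1).trans ((Fp_mass hD hF (by omega)).trans (ENNReal.ofReal_le_ofReal ?_))
    have hu2 : u ≤ 2 := by
      rw [hu]
      have : i ≤ l + 2 := by omega
      have : (i : ℝ) ≤ l + 2 := by exact_mod_cast this
      linarith
    have hW1 : 1 ≤ 4 * W := by
      rw [hW]
      have h1 : (2 : ℝ) ^ (-(2 : ℝ)) ≤ (2 : ℝ) ^ ((11 / 24 + θ) * s - 2 / 3 * u) := by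
        refine Real.rpow_le_rpow_of_exponent_le (by norm_num) ?_
        have : 0 ≤ (11 / 24 + θ) * s := by positivity
        linarith
      have h2 : (2 : ℝ) ^ (-(2 : ℝ)) = 1 / 4 := by
        rw [Real.rpow_neg (by norm_num)]
        norm_num
      linarith
    calc (2 : ℝ) ^ (91 / 24 : ℝ) * D * pr n j ≤ (2 : ℝ) ^ (91 / 24 : ℝ) * D * pr n j * (4 * W) :=
          le_mul_of_one_le_right (by positivity) hW1
      _ = (2 ^ (91 / 24 : ℝ) * 4) * D * W * pr n j := by ring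
      _ ≤ (KA + 2 * KB + 2 / c0 + 2 ^ (91 / 24 : ℝ) * 4) * D * W * pr n j := by
        have : 0 ≤ KA + 2 * KB + 2 / c0 := by positivity
        gcongr
        linarith
  -- the scale of the tips
  obtain ⟨m, hm⟩ : ∃ m : ℕ, m = ⌊δ * ((i : ℝ) - j)⌋₊ + m0 := ⟨_, rfl⟩
  have hfl : ⌊δ * ((i : ℝ) - j)⌋₊ ≤ i - j := by
    have h1 : δ * ((i : ℝ) - j) ≤ ((i - j : ℕ) : ℝ) := by
      rw [Nat.cast_sub (hjl.trans hli), ← hs]
      nlinarith
    calc ⌊δ * ((i : ℝ) - j)⌋₊ ≤ ⌊((i - j : ℕ) : ℝ)⌋₊ := Nat.floor_le_floor h1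
      _ = i - j := Nat.floor_natCast _
  obtain ⟨b, hb⟩ : ∃ b, b = i - m := ⟨_, rfl⟩
  have him : i = b + m := by omega
  have hbj : j ≤ b + m0 := by omega
  have hbi : b ≤ i := by omega
  have hb1 : b1 ≤ b := by omega
  have hb2 : b2 ≤ b := by omega
  have hbU' : bU ≤ b := by omega
  have hb0 : 1 ≤ b := by omega
  have hm6 : 6 ≤ m := by omega
  have hmC : 48 * C ≤ 2 ^ m := by
    have h1 : 48 * C ≤ m := by omega
    exact h1.trans Nat.lt_two_pow_self.le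
  have hmJ0 : J0 ≤ m := by omega
  have hmJ2 : J2 ≤ m := by omega
  have hms : δ * s ≤ m := by
    have h1 := Nat.lt_floor_add_one (δ * ((i : ℝ) - j))
    have h2 : (m : ℝ) = (⌊δ * ((i : ℝ) - j)⌋₊ : ℝ) + m0 := by
      rw [hm]
      push_cast
      ring
    have h3 : (1 : ℝ) ≤ m0 := by
      have : 1 ≤ m0 := by omega
      exact_mod_cast this
    rw [← hs] at h1 h2
    linarith
  have h8 := hbU b hbU'
  have hU := Ub_pos b
  have hFi : HF D n i := hF.mono le_rfl (hjl.trans hli)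
  -- the numbers
  obtain ⟨h, hh⟩ : ∃ h : ℕ, h = ⌈κ * Ub b / 8⌉₊ := ⟨_, rfl⟩
  have hh1 : 1 ≤ h := by
    rw [hh, Nat.one_le_iff_ne_zero, Nat.ne_zero_iff_zero_lt, Nat.ceil_pos]
    positivity
  have hq : κ * Ub b / 8 ≤ (h : ℝ) := by
    rw [hh]
    exact Nat.le_ceil _
  have hh2 : (h : ℝ) < κ * Ub b / 8 + 1 := by
    rw [hh]
    exact Nat.ceil_lt_add_one (by positivity)
  have hηh : η * Ub b ≤ (h : ℝ) := by
    rw [hηd]
    calc κ / 8 * Ub b = κ * Ub b / 8 := by ring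
      _ ≤ h := hq
  have hq0 : 0 < κ * Ub b / 8 := by positivity
  -- the events
  obtain ⟨EA, hEAd⟩ : ∃ EA : Set (List Bool), EA = {L | L ∈ Fp n j ∧ κ * Ub b / 8 ≤
    (nD (2 ^ (i + 3)) (RhoA η (2 * C) b l i) L : ℝ)} := ⟨_, rfl⟩
  obtain ⟨EB, hEBd⟩ : ∃ EB : ℕ → Set (List Bool), EB = fun J => {L | L ∈ Fp n j ∧ κ * Ub b / 8 ≤
    (nD (2 ^ (i + J + 1)) (RhoB κ η C b (m + J + 1) 13) L : ℝ)} := ⟨_, rfl⟩
  obtain ⟨EC, hECd⟩ : ∃ EC : ℕ → Set (List Bool), EC = fun J => {L | L ∈ SA ∧ n ≤ L.length ∧ In (2 ^ (b + (m + J))) L ∧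
    ∃ N : ℕ, 2 ^ (m + J) ≤ N * 2 ^ 12 ∧ L ∈ Lz κ C b N} := ⟨_, rfl⟩
  have hcov : {L | L ∈ Fp n j ∧ L ∈ ESe l i} ⊆ EA ∪ ((⋃ J, EB J) ∪ ⋃ J, EC J) := by
    rintro L ⟨hLF, hLe⟩
    obtain ⟨t0, t1, hc⟩ := cr_of hil hLe
    have hsa : L ∈ SA := hLF.1
    by_cases hNz : L.take t1 ∈ Nz κ C b
    · obtain ⟨J, -, hJ1, hJ2⟩ := es_caseC hc hNz him hm6
      refine Or.inr (Or.inr (Set.mem_iUnion.2 ⟨J, ?_⟩))
      rw [hECd]
      refine ⟨hsa, hLF.2.1, ?_, hJ2⟩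
      rw [show b + (m + J) = i + J by omega]
      exact hJ1
    · obtain ⟨X, Z1, Z2, Z3, Y0, hd⟩ := dt_of neW (SA_take hsa t1) hNz
      have h4 : 4 * h ≤ nc Z2 := by
        have h5 : (4 : ℝ) * h ≤ nc Z2 := by
          have := hd.n2
          linarith
        exact_mod_cast h5
      rcases Nat.lt_or_ge t0 (X ++ Z1).length with hX | hX
      · refine Or.inl ?_
        rw [hEAd]
        refine ⟨hLF, hq.trans ?_⟩
        exact_mod_cast es_caseA hc hsa hd hb0 hh1 hηh h4 hX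
      · obtain ⟨J, -, hJ⟩ := es_caseB hc hsa hd hh1 hηh h4 hX him hm6 hmC
        refine Or.inr (Or.inl (Set.mem_iUnion.2 ⟨J, ?_⟩))
        rw [hEBd]
        refine ⟨hLF, hq.trans ?_⟩
        exact_mod_cast hJ
  have hlev : pr n i ≤ (2 : ℝ) ^ ((91 / 24 : ℝ) * s) * pr n j := by
    rw [hs]
    exact pr_lev n (hjl.trans hli)
  have hpi := pr_pos n i
  -- case A
  have hA : gf EA ≤ ENNReal.ofReal (KA * D * W * pr n j) := by
    obtain ⟨w, hw⟩ : ∃ w : ℝ, w = (2 : ℝ) ^ ((θ / 2 - 10 / 3) * ((i : ℝ) - j) - 2 / 3 * ((i : ℝ) - l)) := ⟨_, rfl⟩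
    have hw0 : 0 < w := by rw [hw]; positivity
    have h1 := hEA D n j i b hD hFi (hjl.trans hli) hbi (RhoA η (2 * C) b l i) (ENNReal.ofReal (CI * w * Ub i) * Xb i)
      (κ * Ub b / 8) (fun A Y h => h.1) (fun A => ?_) hq0
    · rw [← hEAd] at h1
      have h2 : ENNReal.ofReal (CI * w * Ub i) * Xb i ≤ ENNReal.ofReal (CI * w * (G ^ m * Ub b)) * Xb b := by
        have h3 := hrat b m
        rw [← him] at h3
        rw [ENNReal.ofReal_mul (by positivity), ENNReal.ofReal_mul (show 0 ≤ CI * w by positivity), mul_assoc, mul_assoc]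
        exact mul_le_mul' le_rfl h3
      have h3 := cancelF (y := CI * w * (G ^ m * Ub b)) hq0 (by positivity) (h1.trans (mul_le_mul' le_rfl h2))
      refine h3.trans (ENNReal.ofReal_le_ofReal ?_)
      have hGm : G ^ m ≤ G ^ m0 * (2 : ℝ) ^ (θ / 2 * s) := by
        rw [hm, pow_add, ← hs, mul_comm]
        exact mul_le_mul_of_nonneg_left (hsm δ hδ.le hδ1' s hs0) (by positivity)
      have hww : w * (2 : ℝ) ^ (θ / 2 * s) * (2 : ℝ) ^ ((91 / 24 : ℝ) * s) = W := by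
        rw [hw, hW, ← hs, ← hu, ← Real.rpow_add (by norm_num), ← Real.rpow_add (by norm_num)]
        congr 1
        ring
      have hUne : Ub b ≠ 0 := hU.ne'
      calc CA * D * pr n i * (CI * w * (G ^ m * Ub b)) / (κ * Ub b / 8)
          = CA * D * pr n i * (CI * w * G ^ m) * (8 / κ) := by
            field_simp
        _ ≤ CA * D * ((2 : ℝ) ^ ((91 / 24 : ℝ) * s) * pr n j) * (CI * w * (G ^ m0 * (2 : ℝ) ^ (θ / 2 * s))) * (8 / κ) := by
            gcongr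
        _ = CA * CI * G ^ m0 * (8 / κ) * D * (w * (2 : ℝ) ^ (θ / 2 * s) * (2 : ℝ) ^ ((91 / 24 : ℝ) * s)) * pr n j := by
            ring
        _ = KA * D * W * pr n j := by rw [hww, hKA]
    · obtain ⟨z, hz⟩ := end_frame A
      have h2 := hI j l i m (n - A.length) z (by omega) hjl hli hm (by omega)
      have h3 : ENNReal.ofReal (CI * w * Ub i) * Xb i * ENNReal.ofReal (wt n A.length i) =
          ENNReal.ofReal (CI * (2 : ℝ) ^ ((θ / 2 - 10 / 3) * ((i : ℝ) - j) - 2 / 3 * ((i : ℝ) - l)) *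
            (1 + ((n - A.length : ℕ) : ℝ) / ml i) ^ (-(4 : ℝ)) * Ub i) * Xb i := by
        have hUi := Ub_pos i
        rw [mul_right_comm, ← ENNReal.ofReal_mul (by positivity), ← hw]
        congr 2
        unfold wt
        ring
      rw [h3]
      refine (gf_mono ?_).trans h2
      rintro Y ⟨⟨-, r2, r3, r4, r5⟩, r6, r7⟩
      obtain ⟨k1, k2⟩ := len_frame r7
      refine ⟨r2, ?_, r6, k1, k2, ?_, r4, r5⟩
      · rw [← hb]
        exact r3
      · rw [hz Y]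
        exact r7.2.2.2
  -- the loss of the distance of the levels
  have hWlow : (2 : ℝ) ^ ((91 / 24 : ℝ) * s) ≤ W * 2 ^ (a * m) := by
    rw [hW, ← Real.rpow_natCast (2 : ℝ) (a * m), ← Real.rpow_add (by norm_num)]
    refine Real.rpow_le_rpow_of_exponent_le (by norm_num) ?_
    push_cast
    have h1 : 107 / 24 * s ≤ (a : ℝ) * m := by
      calc 107 / 24 * s ≤ (a : ℝ) * δ * s := by gcongr
        _ = a * (δ * s) := by ring
        _ ≤ a * m := by gcongr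
    have h2 : 0 ≤ (11 / 24 + θ) * s := by positivity
    linarith
  have h16 : ∀ J : ℕ, (16 : ℝ) ^ J ≤ (1 / 2) ^ J * 2 ^ (a * J) := by
    intro J
    rw [pow_mul, ← mul_pow]
    refine pow_le_pow_left₀ (by norm_num) ?_ J
    have : (2 : ℝ) ^ 5 ≤ 2 ^ a := pow_le_pow_right₀ (by norm_num) ha5
    linarith
  have hprJ : ∀ J : ℕ, pr n (i + J) / 2 ^ (a * (m + J)) ≤ W * pr n j * (1 / 2) ^ J := by
    intro J
    rw [div_le_iff₀ (by positivity)]
    calc pr n (i + J) ≤ 16 ^ J * pr n i := pr_up16 n i J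
      _ ≤ ((1 / 2) ^ J * 2 ^ (a * J)) * ((2 : ℝ) ^ ((91 / 24 : ℝ) * s) * pr n j) :=
        mul_le_mul (h16 J) hlev hpi.le (by positivity)
      _ ≤ ((1 / 2) ^ J * 2 ^ (a * J)) * ((W * 2 ^ (a * m)) * pr n j) := by gcongr
      _ = _ := by
        rw [mul_add, pow_add]
        ring
  -- case B
  have hB : ∀ J, gf (EB J) ≤ ENNReal.ofReal ((KB * D * W * pr n j) * (1 / 2) ^ J) := by
    intro J
    have hFJ : HF D n (i + J) := hF.mono le_rfl (by omega)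
    have h1 := hEB D n j (i + J) b hD hFJ (by omega) (by omega) (RhoB κ η C b (m + J + 1) 13)
      (ENNReal.ofReal (256 * (Ub b / 2 ^ (a * (m + J + 1)))) * Xb b) (κ * Ub b / 8) (fun A Y h => h.1) (fun A => ?_) hq0
    · have h2 : gf (EB J) * (ENNReal.ofReal (κ * Ub b / 8) * Xb b) ≤ ENNReal.ofReal (CB * D * pr n (i + J)) *
          (ENNReal.ofReal (256 * (Ub b / 2 ^ (a * (m + J + 1)))) * Xb b) := by
        rw [hEBd]
        exact h1
      have hpJ := pr_pos n (i + J)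
      refine (cancelF hq0 (by positivity) h2).trans (ENNReal.ofReal_le_ofReal ?_)
      have h3 : (0 : ℝ) < 2 ^ (a * (m + J)) := by positivity
      have h4 : (2 : ℝ) ^ (a * (m + J)) ≤ 2 ^ (a * (m + J + 1)) :=
        pow_le_pow_right₀ (by norm_num) (Nat.mul_le_mul_left _ (by omega))
      calc CB * D * pr n (i + J) * (256 * (Ub b / 2 ^ (a * (m + J + 1)))) / (κ * Ub b / 8)
          = CB * (2048 / κ) * D * (pr n (i + J) / 2 ^ (a * (m + J + 1))) := by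
            field_simp
            ring
        _ ≤ CB * (2048 / κ) * D * (pr n (i + J) / 2 ^ (a * (m + J))) := by gcongr
        _ ≤ CB * (2048 / κ) * D * (W * pr n j * (1 / 2) ^ J) := by
          have := hprJ J
          gcongr
        _ = _ := by rw [hKB]; ring
    · have h2 := hY b (m + J + 1) (n - A.length) hb1 (by omega)
      rw [show b + (m + J + 1) = i + J + 1 by omega] at h2
      refine (gf_mono ?_).trans (h2.trans ?_)
      · rintro Y ⟨⟨-, r2, r3, r4⟩, r5, r6⟩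
        exact ⟨r2, r3, r5, (len_frame r6).1, r4⟩
      · rw [mul_right_comm, ← ENNReal.ofReal_mul (by positivity)]
        refine mul_le_mul' (ENNReal.ofReal_le_ofReal ?_) le_rfl
        have h3 := wt_up (n - A.length) (i + J)
        unfold wt
        calc Ub b / 2 ^ (a * (m + J + 1)) * (1 + ((n - A.length : ℕ) : ℝ) / ml (i + J + 1)) ^ (-(4 : ℝ))
            ≤ Ub b / 2 ^ (a * (m + J + 1)) * (256 * (1 + ((n - A.length : ℕ) : ℝ) / ml (i + J)) ^ (-(4 : ℝ))) := by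
              gcongr
          _ = _ := by ring
  -- case C
  have hCc : ∀ J, gf (EC J) ≤ ENNReal.ofReal ((1 / c0 * D * W * pr n j) * (1 / 2) ^ J) := by
    intro J
    rw [hECd]
    refine (hN b (m + J) n hb2 (by omega)).trans (ENNReal.ofReal_le_ofReal ?_)
    rw [show b + (m + J) = i + J by omega]
    have h1 := hL D n j hD hF
    have h2 : 1 ≤ 1 / c0 * D := by
      rw [one_div, inv_mul_eq_div, le_div_iff₀ hc0, one_mul]
      exact h1
    calc pr n (i + J) / 2 ^ (a * (m + J)) ≤ W * pr n j * (1 / 2) ^ J := hprJ J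
      _ ≤ W * pr n j * (1 / 2) ^ J * (1 / c0 * D) := le_mul_of_one_le_right (by positivity) h2
      _ = _ := by ring
  -- the sum
  refine (gf_mono hcov).trans ((gf_union_le _ _).trans ?_)
  have hsum : ENNReal.ofReal ((KA + 2 * KB + 2 / c0 + 2 ^ (91 / 24 : ℝ) * 4) * D * W * pr n j) =
      ENNReal.ofReal (KA * D * W * pr n j) + ((ENNReal.ofReal (2 * (KB * D * W * pr n j)) +
        ENNReal.ofReal (2 * (1 / c0 * D * W * pr n j))) + ENNReal.ofReal ((2 ^ (91 / 24 : ℝ) * 4) * D * W * pr n j)) := by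
    rw [← ENNReal.ofReal_add (by positivity) (by positivity), ← ENNReal.ofReal_add (by positivity) (by positivity),
      ← ENNReal.ofReal_add (by positivity) (by positivity)]
    congr 1
    ring
  rw [hsum]
  refine add_le_add hA (le_trans ?_ (le_add_of_nonneg_right zero_le))
  refine (gf_union_le _ _).trans (add_le_add ?_ ?_)
  · refine (Crw.gf_iUnion_le _).trans ((ENNReal.tsum_le_tsum hB).trans ?_)
    rw [Es.tsum_half (by positivity)]
  · refine (Crw.gf_iUnion_le _).trans ((ENNReal.tsum_le_tsum hCc).trans ?_)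
    rw [Es.tsum_half (by positivity)]

end ARM

end HexObs
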