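import Pool.Agent.ARM.NumB
import Pool.Agent.TIW.Nice
import Pool.Agent.TIP.NfC
import Pool.Agent.NPR.Defs

/-!
# ARM (two arms), row S: the words with an extra strand (helper63)

The word has a last crossing from distance `2 ^ (i - 1)` to distance `2 ^ (i - 2)` of the end before the visit of the small
ball. Either there is a rich factor of the scale `b = i - m` behind its start (`es_caseA`: good cuts in the crossing), or
the last rich factor before its end is older (`es_caseB`), or there is none (`es_caseC`).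
-/

set_option autoImplicit false

namespace HexObs

namespace ARM

open Finset TS SDN SIM NTA TIP

open scoped ENNReal

open Nf

/-- the last crossing before the visit -/
structure Cr (l i : ℕ) (L : List Bool) (t0 t1 : ℕ) : Prop where
  lt : t0 < t1
  le : t1 ≤ L.length
  far : 2 ^ i < 2 * dz L t0
  near : 4 * dz L t1 ≤ 2 ^ i
  rest : ∀ s, t0 < s → s ≤ L.length → dz L s ≤ 2 ^ (i + 2)
  mid : ∀ s, t0 ≤ s → s < t1 → 2 ^ i < 4 * dz L s
  vis : ∃ a b, t1 ≤ a ∧ a < b ∧ b ≤ L.length ∧ dz L a ≤ 2 ^ (l + 1) ∧ 2 ^ i < 2 * dz L b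

lemma cr_of {l i : ℕ} {L : List Bool} (hli : l + 3 ≤ i) (h : L ∈ ESe l i) : ∃ t0 t1, Cr l i L t0 t1 := by
  classical
  obtain ⟨t, a, b, ht, hab, hb, h1, h2, h3, h4⟩ := h
  have hp : (2 : ℤ) ^ (l + 3) ≤ 2 ^ i := pow_le_pow_right₀ (by norm_num) hli
  have h2' : 4 * dz L a ≤ 2 ^ i := by
    have e : (2 : ℤ) ^ (l + 3) = 4 * 2 ^ (l + 1) := by ring
    linarith
  have hi : (0 : ℤ) < 2 ^ i := by positivity
  obtain ⟨t0, ht0⟩ : ∃ t0, t0 = Nat.findGreatest (fun s => 2 ^ i < 2 * dz L s) a := ⟨_, rfl⟩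
  have k1 : 2 ^ i < 2 * dz L t0 := by
    rw [ht0]
    exact Nat.findGreatest_spec (P := fun s => 2 ^ i < 2 * dz L s) ht.le h1
  have k2 : ∀ s, t0 < s → s ≤ a → 2 * dz L s ≤ 2 ^ i := by
    intro s hs1 hs2
    rw [ht0] at hs1
    exact not_lt.1 (Nat.findGreatest_is_greatest hs1 hs2)
  have k3 : t0 ≤ a := by
    rw [ht0]
    exact Nat.findGreatest_le a
  have k4 : t0 < a := by
    rcases Nat.lt_or_ge t0 a with h | h
    · exact h
    · have e : t0 = a := by omega
      rw [e] at k1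
      linarith
  have hex : ∃ s, t0 < s ∧ 4 * dz L s ≤ 2 ^ i := ⟨a, k4, h2'⟩
  obtain ⟨m1, m2⟩ := Nat.find_spec hex
  have m3 : Nat.find hex ≤ a := Nat.find_min' hex ⟨k4, h2'⟩
  refine ⟨t0, Nat.find hex, m1, by omega, k1, m2, fun s hs1 hs2 => ?_, fun s hs1 hs2 => ?_, a, b, m3, hab, hb, h2, h3⟩
  · rcases Nat.lt_or_ge s a with h | h
    · have h5 := k2 s hs1 h.le
      have e : (2 : ℤ) ^ (i + 2) = 4 * 2 ^ i := by ring
      linarith
    · exact h4 s h hs2
  · rcases Nat.eq_or_lt_of_le hs1 with h | h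
    · rw [← h]
      linarith
    · by_contra hc
      exact Nat.find_min hex hs2 ⟨h, not_lt.1 hc⟩

lemma Cr.far3 {l i t0 t1 : ℕ} {L : List Bool} (hc : Cr l i L t0 t1) : 3 * 2 ^ i ≤ 8 * dz L t0 := by
  have h1 := hc.far
  have h2 : (0 : ℤ) < 2 ^ i := by positivity
  linarith

lemma Bl_add' {p q : Pt} {a b : ℕ} (hp : p ∈ Bl oo a) (hq : q ∈ Bl oo b) : p + q ∈ Bl oo (a + b) := by
  obtain ⟨h1, h2⟩ := hp
  obtain ⟨h3, h4⟩ := hq
  have e1 : (oo : Pt).1 = 0 := rfl
  have e2 : (oo : Pt).2 = 0 := rfl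
  rw [e1, sub_zero] at h1 h3
  rw [e2, sub_zero] at h2 h4
  refine ⟨?_, ?_⟩
  · rw [e1, sub_zero, Prod.fst_add]
    push_cast
    exact (abs_add_le _ _).trans (add_le_add h1 h3)
  · rw [e2, sub_zero, Prod.snd_add]
    push_cast
    exact (abs_add_le _ _).trans (add_le_add h2 h4)

/-! ### words -/

lemma drop_app_take {L : List Bool} {q t : ℕ} (h : q ≤ t) (ht : t ≤ L.length) :
    L.drop q = (L.take t).drop q ++ L.drop t := by
  conv_lhs => rw [← List.take_append_drop t L]
  refine List.drop_append_of_le_length ?_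
  rw [List.length_take]
  omega

lemma take_take' {L : List Bool} {q t : ℕ} (h : q ≤ t) : (L.take t).take q = L.take q := by
  rw [List.take_take, min_eq_left h]

/-- distances inside of a factor -/
lemma hn_app (A W : List Bool) (s s' : ℕ) : TIW.hn (vx oo up (A ++ W) (A.length + s) - vx oo up (A ++ W) (A.length + s')) =
    TIW.hn (vx oo up W s - vx oo up W s') := by
  rw [TIW.vx_app, TIW.vx_app, add_sub_add_left_eq_sub, ← mulE_sub, TIW.hn_mulE (TIW.nrm_rt A)]

lemma hn_in {E : ℕ} {W : List Bool} (h : In E W) {s s' : ℕ} (hs : s ≤ W.length) (hs' : s' ≤ W.length) :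
    TIW.hn (vx oo up W s - vx oo up W s') ≤ 6 * E := by
  have h1 := TIW.hn_le_Bl (h s hs)
  have h2 := TIW.hn_le_Bl (h s' hs')
  have h3 := TIW.hn_sub (vx oo up W s) (vx oo up W s')
  linarith

/-- distances inside of a factor, the factor in a box -/
lemma hn_fac {E : ℕ} {A W B : List Bool} (h : In E W) {s s' : ℕ} (h1 : A.length ≤ s) (h2 : s ≤ (A ++ W).length)
    (h3 : A.length ≤ s') (h4 : s' ≤ (A ++ W).length) :
    TIW.hn (vx oo up (A ++ (W ++ B)) s - vx oo up (A ++ (W ++ B)) s') ≤ 6 * E := by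
  rw [List.length_append] at h2 h4
  have e1 : s = A.length + (s - A.length) := by omega
  have e2 : s' = A.length + (s' - A.length) := by omega
  rw [e1, e2, hn_app, vx_append (by omega), vx_append (by omega)]
  exact hn_in h (by omega) (by omega)

/-- a box of a dyadic size -/
lemma ex_J (i : ℕ) (W : List Bool) : ∃ J, 6 ≤ J ∧ In (2 ^ (i + J)) W ∧ (J = 6 ∨ ¬ In (2 ^ (i + J - 1)) W) := by
  classical
  have h0 : ∃ J, In (2 ^ (i + J)) W := by
    obtain ⟨D, hD⟩ : ∃ D : ℕ, D = (range (W.length + 1)).sup fun s => (TIW.hn (vx oo up W s)).toNat := ⟨_, rfl⟩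
    refine ⟨D, In_of_hn fun s hs => ?_⟩
    have h1 : (TIW.hn (vx oo up W s)).toNat ≤ D := by
      rw [hD]
      exact le_sup (f := fun s => (TIW.hn (vx oo up W s)).toNat) (mem_range.2 (by omega))
    have h2 : D ≤ 2 ^ (i + D) := le_trans Nat.lt_two_pow_self.le (Nat.pow_le_pow_right (by norm_num) (by omega))
    have h3 := TIW.hn_nonneg (vx oo up W s)
    omega
  rcases Nat.lt_or_ge 6 (Nat.find h0) with h | h
  · refine ⟨Nat.find h0, h.le, Nat.find_spec h0, Or.inr ?_⟩
    have h1 := Nat.find_min h0 (m := Nat.find h0 - 1) (by omega)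
    rwa [show i + (Nat.find h0 - 1) = i + Nat.find h0 - 1 by omega] at h1
  · exact ⟨6, le_rfl, in_mono (Nat.find_spec h0) (Nat.pow_le_pow_right (by norm_num) (by omega)), Or.inl rfl⟩

/-- the long factor in front of the end of the crossing -/
lemma big_factor {i b m t1 s0 : ℕ} {L P Y0 : List Bool} (ht : t1 ≤ L.length) (hT : L.take t1 = P ++ Y0)
    (hP : P.length ≤ s0) (hs1 : s0 ≤ t1) (hfar : 3 * 2 ^ i ≤ 8 * dz L s0) (hnear : 4 * dz L t1 ≤ 2 ^ i)
    (hrest : ∀ s, t1 < s → s ≤ L.length → dz L s ≤ 2 ^ (i + 2)) (him : i = b + m) (hm : 6 ≤ m) {J : ℕ} (hJ : 6 ≤ J)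
    (hJ' : J = 6 ∨ ¬ In (2 ^ (i + J - 1)) (Y0 ++ L.drop t1)) : ∃ n : ℕ, 2 ^ (m + J) ≤ n * 2 ^ 12 ∧ ¬ In (n * 2 ^ b) Y0 := by
  have hL : L = P ++ (Y0 ++ L.drop t1) := by
    conv_lhs => rw [← List.take_append_drop t1 L, hT, List.append_assoc]
  have hlen : t1 = P.length + Y0.length := by
    have h := congrArg List.length hT
    rw [List.length_take, List.length_append, min_eq_left ht] at h
    exact h
  rcases Nat.eq_or_lt_of_le hJ with h6 | h6
  · refine ⟨2 ^ (m - 6), ?_, fun hin => ?_⟩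
    · rw [← pow_add]
      exact Nat.pow_le_pow_right (by norm_num) (by omega)
    · have h1 := hn_fac (B := L.drop t1) hin hP (show s0 ≤ (P ++ Y0).length by rw [List.length_append]; omega)
        (show P.length ≤ t1 by omega) (show t1 ≤ (P ++ Y0).length by rw [List.length_append]; omega)
      rw [← hL] at h1
      have h2 := dz_hn L s0 t1
      have h3 : (2 : ℤ) ^ i = 64 * ((2 ^ (m - 6) * 2 ^ b : ℕ) : ℤ) := by
        push_cast
        rw [← pow_add, show (64 : ℤ) = 2 ^ 6 by norm_num, ← pow_add]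
        congr 1
        omega
      have h4 : (0 : ℤ) < 2 ^ i := by positivity
      linarith
  · have hJn : ¬ In (2 ^ (i + J - 1)) (Y0 ++ L.drop t1) := by
      rcases hJ' with h | h
      · omega
      · exact h
    refine ⟨2 ^ (m + J - 2), ?_, fun hin => hJn ?_⟩
    · rw [← pow_add]
      exact Nat.pow_le_pow_right (by norm_num) (by omega)
    · rw [← pow_add, show m + J - 2 + b = i + J - 2 by omega] at hin
      have hdbl : 2 ^ (i + J - 1) = 2 ^ (i + J - 2) + 2 ^ (i + J - 2) := by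
        rw [← two_mul, ← pow_succ']
        congr 1
        omega
      intro s hs
      rcases le_or_gt s Y0.length with h | h
      · rw [vx_append (by omega)]
        exact Bl_mono _ (by rw [hdbl]; exact Nat.le_add_right _ _) (hin s h)
      · obtain ⟨k, rfl⟩ : ∃ k, s = Y0.length + k := ⟨s - Y0.length, by omega⟩
        rw [List.length_append, List.length_drop] at hs
        have h1 := hn_app P (Y0 ++ L.drop t1) (Y0.length + k) Y0.length
        rw [← hL, ← add_assoc, ← hlen] at h1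
        have h2 := hn_dz L (t1 + k) t1
        have h3 := hrest (t1 + k) (by omega) (by omega)
        have h4 : TIW.hn (vx oo up (Y0 ++ L.drop t1) (Y0.length + k) - vx oo up (Y0 ++ L.drop t1) Y0.length) ≤
            ((2 ^ (i + J - 2) : ℕ) : ℤ) := by
          rw [← h1]
          have e1 : (2 : ℤ) ^ (i + 2) = 4 * 2 ^ i := by ring
          have e2 : (2 : ℤ) ^ i * 8 ≤ ((2 ^ (i + J - 2) : ℕ) : ℤ) := by
            push_cast
            rw [show (8 : ℤ) = 2 ^ 3 by norm_num, ← pow_add]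
            exact pow_le_pow_right₀ (by norm_num) (by omega)
          have e3 : (0 : ℤ) < 2 ^ i := by positivity
          linarith
        have h5 := Bl_of_hn h4
        have h6' := hin Y0.length le_rfl
        have h7 : vx oo up (Y0 ++ L.drop t1) Y0.length = vx oo up Y0 Y0.length := vx_append (by omega)
        rw [h7] at h5
        have h8 := Bl_add' h5 h6'
        rw [sub_add_cancel, ← hdbl] at h8
        exact h8

/-! ### the cases -/

variable {κ η : ℝ} {C b l i m t0 t1 h : ℕ} {L X Z1 Z2 Z3 Y0 : List Bool}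

/-- good cuts in the crossing -/
def RhoA (η : ℝ) (D b l i : ℕ) (A Y : List Bool) : Prop :=
  A ∈ GT b η ∧ Y ∈ SA ∧ (∃ S ∈ NPR.GS η D b, ∃ R, Y = S ++ R) ∧ 2 ^ i < 4 * dz Y 0 ∧
    ∃ a b', a < b' ∧ b' ≤ Y.length ∧ dz Y a ≤ 2 ^ (l + 1) ∧ 2 ^ i < 2 * dz Y b'

/-- the part behind the cut has a long factor without rich window -/
def RhoB (κ η : ℝ) (C b J c1 : ℕ) (A Y : List Bool) : Prop :=
  A ∈ GT b η ∧ Y ∈ SA ∧ rev Y ∈ GT b η ∧ ∃ n : ℕ, 2 ^ J ≤ n * 2 ^ c1 ∧ Y ∈ Lz κ C b n

/-- the cuts of the rich factor, in the whole word -/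
lemma cut_L (hd : Dt κ C b (L.take t1) X Z1 Z2 Z3 Y0) (ht : t1 ≤ L.length) {c : ℕ} (hc : c ≤ Z2.length) :
    (X ++ Z1).length + c < t1 ∧ L.take ((X ++ Z1).length + c) = (L.take t1).take ((X ++ Z1).length + c) ∧
      L.drop ((X ++ Z1).length + c) = Z2.drop c ++ (Z3 ++ (Y0 ++ L.drop t1)) := by
  obtain ⟨f1, f2, f3⟩ := hd.cut hc
  have hz : 0 < Z3.length := by
    rcases Nat.eq_zero_or_pos Z3.length with h0 | h0
    · have h1 := hd.h3
      rw [List.length_eq_zero_iff.1 h0, hgt_nil] at h1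
      have : 1 ≤ 2 ^ (b + 1) := Nat.one_le_two_pow
      omega
    · exact h0
  have hlt : (X ++ Z1).length + c < t1 := by
    have h1 := congrArg List.length f3
    simp only [List.length_append, List.length_drop, List.length_take] at h1 f1 ⊢
    omega
  refine ⟨hlt, (take_take' hlt.le).symm, ?_⟩
  rw [drop_app_take hlt.le ht, f3]
  simp only [List.append_assoc]

open Classical in
/-- **case A**: the last rich factor in front of the end of the crossing starts inside of the crossing -/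
theorem es_caseA (hc : Cr l i L t0 t1) (hsa : L ∈ SA) (hd : Dt κ C b (L.take t1) X Z1 Z2 Z3 Y0) (hb : 1 ≤ b)
    (hh : 1 ≤ h) (hη : η * Ub b ≤ (h : ℝ)) (h4 : 4 * h ≤ nc Z2) (hX : t0 < (X ++ Z1).length) :
    h ≤ nD (2 ^ (i + 3)) (RhoA η (2 * C) b l i) L := by
  have h1 := card_rank neW (Z := Z2) (lo := h) (hi := 2 * h) hh (by omega)
  have h2 : 2 * h - h = h := by omega
  rw [h2] at h1
  rw [← h1, ← card_image_of_injective _ (fun x y h => Nat.add_left_cancel h : Function.Injective fun c => (X ++ Z1).length + c)]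
  refine nD_ge fun q hq => ?_
  obtain ⟨c, hcm, rfl⟩ := mem_image.1 hq
  rw [mem_filter] at hcm
  obtain ⟨hc1, hc2, hc3⟩ := hcm
  obtain ⟨a1, a2, a3⟩ := mem_cz.1 hc1
  obtain ⟨f1, f2, f3⟩ := cut_L hd hc.le a1
  obtain ⟨g1, g2⟩ := hd.gt neW hη h4 hc1 hc2 (by omega)
  have hh' : hgt (Z2.take c) + hgt (Z2.drop c) = hgt Z2 := by
    rw [← hgt_app a2 a3, List.take_append_drop]
  have hs := rank_sum neW hc1
  have hZ2 := hd.h2
  obtain ⟨q, hqd⟩ : ∃ q, q = (X ++ Z1).length + c := ⟨_, rfl⟩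
  rw [← hqd] at f1 f2 f3 g1 ⊢
  have hqt : t0 < q := by omega
  have hqL : q ≤ L.length := by have := hc.le; omega
  have hz0 : dz (L.drop q) 0 = dz L q := by
    have := dz_drop L (le_refl q) hqL
    rwa [Nat.sub_self] at this
  refine ⟨hqL, ⟨by rw [f2]; exact g1, SA_drop hsa _, ⟨Z2.drop c ++ Z3, ?_, Y0 ++ L.drop t1, ?_⟩, ?_, ?_⟩, ?_⟩
  · show (if b = 0 then _ else _)
    rw [if_neg (by omega)]
    refine ⟨Z2.drop c, Z3, rfl, a3, hd.b3, by omega, hd.h3, hη.trans ?_, ?_⟩
    · have : h ≤ nc (Z2.drop c) := by omega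
      exact_mod_cast this
    · rw [mul_assoc]
      refine in_mid (X := Z1 ++ Z2.take c) (R := []) (BU_dx (BU_app hd.b1 a2)) ?_
      have e : (Z1 ++ Z2.take c) ++ ((Z2.drop c ++ Z3) ++ []) = Z1 ++ (Z2 ++ Z3) := by
        rw [List.append_nil, List.append_assoc]
        conv_rhs => rw [← List.take_append_drop c Z2]
        simp only [List.append_assoc]
      rw [e]
      exact hd.inn
  · rw [f3]
    simp only [List.append_assoc]
  · rw [hz0]
    exact hc.mid q hqt.le f1
  · obtain ⟨a, b', v1, v2, v3, v4, v5⟩ := hc.vis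
    refine ⟨a - q, b' - q, by omega, ?_, ?_, ?_⟩
    · rw [List.length_drop]
      omega
    · rwa [dz_drop L (by omega) (by omega)]
    · rwa [dz_drop L (by omega) (by omega)]
  · refine In_of_dz fun s hs => ?_
    rw [List.length_drop] at hs
    have h5 := dz_drop L (show q ≤ q + s by omega) (by omega)
    rw [show q + s - q = s by omega] at h5
    rw [h5, hz0]
    have h6 := hc.rest (q + s) (by omega) (by omega)
    have h7 := hc.rest q hqt hqL
    push_cast
    have e : (2 : ℤ) ^ (i + 3) = 2 ^ (i + 2) + 2 ^ (i + 2) := by ring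
    rw [e]
    exact add_le_add h6 h7

open Classical in
/-- **case B**: it starts in front of the crossing -/
theorem es_caseB (hc : Cr l i L t0 t1) (hsa : L ∈ SA) (hd : Dt κ C b (L.take t1) X Z1 Z2 Z3 Y0)
    (hh : 1 ≤ h) (hη : η * Ub b ≤ (h : ℝ)) (h4 : 4 * h ≤ nc Z2) (hX : (X ++ Z1).length ≤ t0) (him : i = b + m)
    (hm : 6 ≤ m) (hC : 48 * C ≤ 2 ^ m) :
    ∃ J, 6 ≤ J ∧ h ≤ nD (2 ^ (i + J + 1)) (RhoB κ η C b (m + J + 1) 13) L := by
  obtain ⟨P, hP⟩ : ∃ P, P = X ++ (Z1 ++ (Z2 ++ Z3)) := ⟨_, rfl⟩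
  have hT : L.take t1 = P ++ Y0 := by
    rw [hd.eq, hP]
    simp only [List.append_assoc]
  obtain ⟨J, hJ1, hJ2, hJ3⟩ := ex_J i (Y0 ++ L.drop t1)
  have hlen : P.length + Y0.length = t1 := by
    have h := congrArg List.length hT
    rw [List.length_take, List.length_append, min_eq_left hc.le] at h
    exact h.symm
  have hbig : ∃ n : ℕ, 2 ^ (m + J) ≤ n * 2 ^ 12 ∧ ¬ In (n * 2 ^ b) Y0 := by
    rcases le_or_gt P.length t0 with h0 | h0
    · exact big_factor (s0 := t0) hc.le hT h0 hc.lt.le hc.far3 hc.near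
        (fun s h1 h2 => hc.rest s (hc.lt.trans h1) h2) him hm hJ1 hJ3
    · refine big_factor (s0 := P.length) hc.le hT le_rfl (by omega) ?_ hc.near
        (fun s h1 h2 => hc.rest s (hc.lt.trans h1) h2) him hm hJ1 hJ3
      have hL : L = X ++ ((Z1 ++ (Z2 ++ Z3)) ++ (Y0 ++ L.drop t1)) := by
        conv_lhs => rw [← List.take_append_drop t1 L, hT, hP]
        simp only [List.append_assoc]
      have hXl : X.length ≤ (X ++ Z1).length := by
        rw [List.length_append]
        omega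
      have h1 := hn_fac (A := X) (B := Y0 ++ L.drop t1) hd.inn (s := t0) (s' := P.length) (by omega) (by rw [← hP]; omega)
        (by rw [hP, List.length_append]; omega) (by rw [← hP])
      rw [← hL] at h1
      have h2 := dz_hn L t0 P.length
      have h3 := hc.far
      have h4' : (48 * C : ℤ) * 2 ^ b ≤ 2 ^ i := by
        have h5 : 48 * C * 2 ^ b ≤ 2 ^ m * 2 ^ b := Nat.mul_le_mul_right _ hC
        rw [← pow_add, show m + b = i by omega] at h5
        exact_mod_cast h5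
      push_cast at h1
      linarith
  refine ⟨J, hJ1, ?_⟩
  obtain ⟨n, hn1, hn2⟩ := hbig
  have h1 := card_rank neW (Z := Z2) (lo := h) (hi := 2 * h) hh (by omega)
  have h2 : 2 * h - h = h := by omega
  rw [h2] at h1
  rw [← h1, ← card_image_of_injective _ (fun x y h => Nat.add_left_cancel h : Function.Injective fun c => (X ++ Z1).length + c)]
  refine nD_ge fun q hq => ?_
  obtain ⟨c, hcm, rfl⟩ := mem_image.1 hq
  rw [mem_filter] at hcm
  obtain ⟨hc1, hc2, hc3⟩ := hcm
  obtain ⟨a1, a2, a3⟩ := mem_cz.1 hc1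
  obtain ⟨f1, f2, f3⟩ := cut_L hd hc.le a1
  obtain ⟨g1, g2⟩ := hd.gt neW hη h4 hc1 hc2 (by omega)
  have hcl := hc.le
  refine ⟨by omega, ⟨by rw [f2]; exact g1, SA_drop hsa _, ?_, n, ?_, ?_⟩, ?_⟩
  · obtain ⟨-, -, e2⟩ := hd.cut a1
    have hh' : hgt (Z2.take c) + hgt (Z2.drop c) = hgt Z2 := by
      rw [← hgt_app a2 a3, List.take_append_drop]
    have hs := rank_sum neW hc1
    have hZ2 := hd.h2
    rw [f3]
    refine neW.B η b _ Z3 _ a3 (by omega) hd.b3 hd.h3 (hη.trans ?_)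
    have : h ≤ nc (Z2.drop c) := by omega
    exact_mod_cast this
  · rw [pow_succ 2 (m + J), pow_succ 2 12, ← mul_assoc]
    exact Nat.mul_le_mul_right _ hn1
  · rw [f3]
    exact ⟨Z2.drop c ++ Z3, Y0, L.drop t1, by simp only [List.append_assoc], hd.nz, hn2⟩
  · rw [f3, ← List.append_assoc]
    have hin1 : In (2 * (C * 2 ^ b)) (Z2.drop c ++ Z3) := by
      refine in_mid (X := Z1 ++ Z2.take c) (R := []) (BU_dx (BU_app hd.b1 a2)) ?_
      have e : (Z1 ++ Z2.take c) ++ ((Z2.drop c ++ Z3) ++ []) = Z1 ++ (Z2 ++ Z3) := by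
        rw [List.append_nil, List.append_assoc]
        conv_rhs => rw [← List.take_append_drop c Z2]
        simp only [List.append_assoc]
      rw [e]
      exact hd.inn
    refine in_mono (in_app (BU_dx (BU_app a3 hd.b3)) hin1 hJ2) ?_
    have h5 : 48 * C * 2 ^ b ≤ 2 ^ m * 2 ^ b := Nat.mul_le_mul_right _ hC
    rw [← pow_add, show m + b = i by omega] at h5
    have h6 : 2 ^ (i + J + 1) = 2 ^ (i + J) + 2 ^ (i + J) := by rw [pow_succ]; ring
    have h7 : 2 ^ i ≤ 2 ^ (i + J) := Nat.pow_le_pow_right (by norm_num) (by omega)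
    rw [mul_assoc] at h5
    rw [h6]
    generalize C * 2 ^ b = y at h5 ⊢
    omega

/-- **case C**: there is no rich factor in front of the end of the crossing -/
theorem es_caseC (hc : Cr l i L t0 t1) (hN : L.take t1 ∈ Nz κ C b) (him : i = b + m) (hm : 6 ≤ m) :
    ∃ J, 6 ≤ J ∧ In (2 ^ (i + J)) L ∧ ∃ n : ℕ, 2 ^ (m + J) ≤ n * 2 ^ 12 ∧ L ∈ Lz κ C b n := by
  obtain ⟨J, hJ1, hJ2, hJ3⟩ := ex_J i L
  refine ⟨J, hJ1, hJ2, ?_⟩
  obtain ⟨n, hn1, hn2⟩ := big_factor (P := []) (Y0 := L.take t1) (s0 := t0) hc.le (by rw [List.nil_append])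
    (Nat.zero_le _) hc.lt.le hc.far3 hc.near (fun s h1 h2 => hc.rest s (hc.lt.trans h1) h2) him hm hJ1
    (by rw [List.take_append_drop]; exact hJ3)
  exact ⟨n, hn1, [], L.take t1, L.drop t1, by rw [List.nil_append, List.take_append_drop], hN, hn2⟩

end ARM

end HexObs
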