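import Pool.Agent.ARM.Defs2
import Pool.Agent.ARM.ExF
import Pool.Agent.TIP.NfA
import Pool.Agent.TIW.InsA

/-!
# ARM2, row D (helper28): `exC_of : TipF2 → ExC`, double counting at both ends of a closed word

* `dct` : double counting of triples Y2 ++ (M ++ Y1), the mass of the pair (Y2, Y1) depends on M;
* `C0_mem` : the words of C0 n are self-avoiding, they have n letters and end next to their start;
* **`exC_of`**.
-/

set_option autoImplicit false

namespace HexObs

namespace ARM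

open Finset TS SDN SIM NTA TIP

open scoped ENNReal

open Classical in
/-- every word of G has many splittings into three parts -/
theorem dct {G X : Set (List Bool)} {P : List Bool → List Bool × List Bool → Prop} {c : ℝ≥0∞}
    (h : ∀ L ∈ G, ∃ S : Finset (ℕ × ℕ), c ≤ (S.card : ℝ≥0∞) ∧ ∀ q ∈ S, q.1 ≤ q.2 ∧ q.2 ≤ L.length ∧
      (L.take q.2).drop q.1 ∈ X ∧ P ((L.take q.2).drop q.1) (L.take q.1, L.drop q.2)) :
    c * gf G ≤ ∑' M : List Bool, if M ∈ X then wE M * ∑' p : {p : List Bool × List Bool | P M p},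
      wE (p : List Bool × List Bool).1 * wE (p : List Bool × List Bool).2 else 0 := by
  have e1 : c * gf G ≤ ∑' L : List Bool, ∑' p : List Bool × (List Bool × List Bool),
      if p.2.1 ++ (p.1 ++ p.2.2) = L ∧ p.1 ∈ X ∧ P p.1 p.2 then wE p.1 * (wE p.2.1 * wE p.2.2) else 0 := by
    rw [gf_ind, ← ENNReal.tsum_mul_left]
    refine ENNReal.tsum_le_tsum fun L => ?_
    by_cases hL : L ∈ G
    · obtain ⟨S, hS, hq⟩ := h L hL
      rw [if_pos hL]
      have hcat : ∀ q ∈ S, L.take q.1 ++ ((L.take q.2).drop q.1 ++ L.drop q.2) = L := by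
        intro q hqS
        obtain ⟨h1, h2, -⟩ := hq q hqS
        have h3 : L.take q.1 = (L.take q.2).take q.1 := by rw [List.take_take, min_eq_left h1]
        rw [← List.append_assoc, h3, List.take_append_drop, List.take_append_drop]
      have hinj : Set.InjOn (fun q : ℕ × ℕ => ((L.take q.2).drop q.1, (L.take q.1, L.drop q.2))) (S : Set (ℕ × ℕ)) := by
        intro q hq1 q' hq2 he
        have h1 := congrArg (fun p : List Bool × (List Bool × List Bool) => p.2.1.length) he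
        have h2 := congrArg (fun p : List Bool × (List Bool × List Bool) => p.2.2.length) he
        simp only [List.length_take, List.length_drop] at h1 h2
        have h3 := hq q hq1
        have h4 := hq q' hq2
        exact Prod.ext (by omega) (by omega)
      calc c * wE L ≤ (S.card : ℝ≥0∞) * wE L := mul_le_mul_left hS _
        _ = ∑ q ∈ S, wE L := by rw [sum_const, nsmul_eq_mul]
        _ = ∑ q ∈ S, (fun p : List Bool × (List Bool × List Bool) =>
              if p.2.1 ++ (p.1 ++ p.2.2) = L ∧ p.1 ∈ X ∧ P p.1 p.2 then wE p.1 * (wE p.2.1 * wE p.2.2) else 0)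
              ((L.take q.2).drop q.1, (L.take q.1, L.drop q.2)) := by
            refine sum_congr rfl fun q hqS => ?_
            show wE L = if L.take q.1 ++ ((L.take q.2).drop q.1 ++ L.drop q.2) = L ∧ (L.take q.2).drop q.1 ∈ X ∧
              P ((L.take q.2).drop q.1) (L.take q.1, L.drop q.2) then
              wE ((L.take q.2).drop q.1) * (wE (L.take q.1) * wE (L.drop q.2)) else 0
            rw [if_pos ⟨hcat q hqS, (hq q hqS).2.2⟩]
            conv_lhs => rw [← hcat q hqS]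
            rw [wE_append, wE_append]
            ring
        _ = ∑ p ∈ S.image (fun q : ℕ × ℕ => ((L.take q.2).drop q.1, (L.take q.1, L.drop q.2))),
              (fun p : List Bool × (List Bool × List Bool) =>
              if p.2.1 ++ (p.1 ++ p.2.2) = L ∧ p.1 ∈ X ∧ P p.1 p.2 then wE p.1 * (wE p.2.1 * wE p.2.2) else 0) p := by
            rw [sum_image hinj]
        _ ≤ _ := ENNReal.sum_le_tsum _
    · rw [if_neg hL, mul_zero]
      exact zero_le
  refine e1.trans ?_
  rw [ENNReal.tsum_comm]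
  have e2 : ∀ p : List Bool × (List Bool × List Bool), (∑' L : List Bool,
      if p.2.1 ++ (p.1 ++ p.2.2) = L ∧ p.1 ∈ X ∧ P p.1 p.2 then wE p.1 * (wE p.2.1 * wE p.2.2) else 0) =
      if p.1 ∈ X ∧ P p.1 p.2 then wE p.1 * (wE p.2.1 * wE p.2.2) else 0 := by
    intro p
    rw [tsum_eq_single (p.2.1 ++ (p.1 ++ p.2.2)) (fun L hL => if_neg fun h => hL h.1.symm)]
    by_cases hp : p.1 ∈ X ∧ P p.1 p.2
    · rw [if_pos ⟨rfl, hp⟩, if_pos hp]
    · rw [if_neg hp, if_neg fun h => hp h.2]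
  rw [tsum_congr e2, ENNReal.tsum_prod']
  refine ENNReal.tsum_le_tsum fun M => ?_
  by_cases hM : M ∈ X
  · rw [if_pos hM, _root_.tsum_subtype {p : List Bool × List Bool | P M p} (fun p => wE p.1 * wE p.2),
      ← ENNReal.tsum_mul_left]
    refine ENNReal.tsum_le_tsum fun p => ?_
    by_cases hp : P M p
    · rw [if_pos ⟨hM, hp⟩, Set.indicator_of_mem (show p ∈ {p : List Bool × List Bool | P M p} from hp)]
    · rw [if_neg (fun h => hp h.2)]
      exact zero_le
  · rw [if_neg hM]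
    refine le_of_eq (ENNReal.tsum_eq_zero.2 fun Z => if_neg fun h => hM h.1)

/-! ### closed words -/

lemma C0_mem {n : ℕ} {L : List Bool} (h : L ∈ C0 n) : L ∈ SA ∧ L.length = n ∧ TIW.hn (TIW.en L) ≤ 2 := by
  obtain ⟨b, h1, h2, -, h4⟩ := h
  rw [List.length_append, List.length_singleton] at h1
  have hn : L.length = n := by omega
  have e : ∀ i, i ≤ n + 1 → vx oo up (L ++ [b]) i = vx oo up L i := fun i hi => vx_append (by omega)
  refine ⟨⟨fun i _ _ => Set.mem_univ _, fun i k hik hk he => ?_⟩, hn, ?_⟩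
  · rw [← e i (by omega), ← e k (by omega)] at he
    have := h4 i k (by omega) (by omega) he
    omega
  · rw [e (n + 1) le_rfl, vx_succ] at h2
    have h5 : TIW.en L = oo - dx up L n := by
      unfold TIW.en
      rw [hn]
      exact eq_sub_of_add_eq h2
    have h6 : oo - dx up L n = - dx up L n := by
      have : (oo : Pt) = 0 := rfl
      rw [this, zero_sub]
    rw [h5, h6, TIW.hn_neg, TIW.hn_dir (dx_mem (by decide) L n)]

/-- the middle part of a closed word -/
lemma mid_F {n i c : ℕ} {Y2 M Y1 : List Bool} (hL : Y2 ++ (M ++ Y1) ∈ C0 n) (h2 : In (2 ^ (i + c)) Y2)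
    (h1 : In (2 ^ (i + c)) Y1) : M ∈ SA ∧ M.length ≤ n ∧ TIW.hn (TIW.en M) ≤ 2 ^ (i + c + 3) := by
  obtain ⟨g1, g2, g3⟩ := C0_mem hL
  refine ⟨SLW.SA_take (TIP.Nf.SA_suf g1), ?_, ?_⟩
  · rw [List.length_append, List.length_append] at g2
    omega
  · have h3 := hn_In h2
    have h4 := hn_In h1
    have e1 : mulE (TIW.rt Y2) (TIW.en (M ++ Y1)) = TIW.en (Y2 ++ (M ++ Y1)) - TIW.en Y2 := by
      rw [en_app Y2 (M ++ Y1)]
      abel
    have e2 : TIW.en M = TIW.en (M ++ Y1) - mulE (TIW.rt M) (TIW.en Y1) := by rw [en_app M Y1]; abel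
    have h5 := TIW.hn_sub (TIW.en (Y2 ++ (M ++ Y1))) (TIW.en Y2)
    rw [← e1, TIW.hn_mulE (TIW.nrm_rt Y2)] at h5
    have h6 := TIW.hn_sub (TIW.en (M ++ Y1)) (mulE (TIW.rt M) (TIW.en Y1))
    rw [← e2, TIW.hn_mulE (TIW.nrm_rt M)] at h6
    have h9 : (1 : ℤ) ≤ 2 ^ (i + c) := one_le_pow₀ (by norm_num)
    have h10 : (2 : ℤ) ^ (i + c + 3) = 8 * 2 ^ (i + c) := by ring
    push_cast at h3 h4
    rw [h10]
    linarith

/-- the pairs of cuts of the decompositions -/
lemma tri_cuts (D : ℕ) (ρ : List Bool → List Bool → List Bool → Prop) (L : List Bool) :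
    ∃ S : Finset (ℕ × ℕ), (tri D ρ L).ncard ≤ S.card ∧ ∀ q ∈ S, q.1 ≤ q.2 ∧ q.2 ≤ L.length ∧ In D (L.take q.1) ∧
      In D (L.drop q.2) ∧ ρ (L.take q.1) ((L.take q.2).drop q.1) (L.drop q.2) := by
  classical
  refine ⟨((range (L.length + 1)) ×ˢ (range (L.length + 1))).filter fun q => q.1 ≤ q.2 ∧ In D (L.take q.1) ∧
      In D (L.drop q.2) ∧ ρ (L.take q.1) ((L.take q.2).drop q.1) (L.drop q.2), ?_, fun q hq => ?_⟩
  · refine le_trans ?_ (card_image_le (f := fun q : ℕ × ℕ => (L.take q.1, L.drop q.2)))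
    rw [← Set.ncard_coe_finset]
    refine Set.ncard_le_ncard (fun p hp => ?_) (Finset.finite_toSet _)
    obtain ⟨Y2, Y1⟩ := p
    obtain ⟨h1, h2, M, rfl, h3⟩ := hp
    rw [mem_coe, mem_image]
    have e1 : (Y2 ++ (M ++ Y1)).take Y2.length = Y2 := List.take_left' rfl
    have e2 : (Y2 ++ (M ++ Y1)).take (Y2 ++ M).length = Y2 ++ M := by
      rw [← List.append_assoc]
      exact List.take_left' rfl
    have e3 : (Y2 ++ (M ++ Y1)).drop (Y2 ++ M).length = Y1 := by
      rw [← List.append_assoc]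
      exact List.drop_left' rfl
    have e4 : (Y2 ++ M).drop Y2.length = M := List.drop_left' rfl
    refine ⟨(Y2.length, (Y2 ++ M).length), ?_, ?_⟩
    · rw [mem_filter, mem_product, mem_range, mem_range]
      simp only
      rw [e1, e2, e3, e4]
      simp only [List.length_append]
      exact ⟨⟨by omega, by omega⟩, by omega, h1, h2, h3⟩
    · simp only
      rw [e1, e3]
  · rw [mem_filter, mem_product, mem_range, mem_range] at hq
    exact ⟨hq.2.1, by omega, hq.2.2.1, hq.2.2.2.1, hq.2.2.2.2⟩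

/-- **row D** -/
theorem exC_of (hT : TipF2) : ExC := by
  classical
  intro η c hη
  obtain ⟨C, hC, hT⟩ := hT η hη
  obtain ⟨S0, hS0, hsum⟩ := sum_sq
  refine ⟨16 * C * 16 ^ (c + 3) * (S0 + 1), by positivity, fun D n i b hD hF hbi ρ x q hρ hx hq => ?_⟩
  obtain ⟨i', hi'⟩ : ∃ i', i' = i + (c + 3) := ⟨_, rfl⟩
  obtain ⟨s, hs⟩ : ∃ s : ℕ, s = ⌊ml i'⌋₊ := ⟨_, rfl⟩
  have hs1 : (s : ℝ) ≤ ml i' := by rw [hs]; exact Nat.floor_le (ml_pos _).le
  have hs2 : ml i ≤ s := by
    have h1 := Nat.lt_floor_add_one (ml i')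
    rw [← hs] at h1
    have h2 := ml_two i (c + 3) (by omega)
    rw [← hi'] at h2
    have h3 := one_le_ml i
    linarith
  have hs3 : 1 ≤ s := by
    have h1 := (one_le_ml i).trans hs2
    exact_mod_cast h1
  obtain ⟨X, hX⟩ : ∃ X : Set (List Bool), X = {M | M ∈ GT b η ∧ rv M ∈ GT b η ∧ M ∈ SA ∧ M.length ≤ n ∧
      TIW.hn (TIW.en M) ≤ 2 ^ i'} := ⟨_, rfl⟩
  obtain ⟨P, hP⟩ : ∃ P : List Bool → List Bool × List Bool → Prop, P = fun M p => ρ p.1 M p.2 ∧ In (2 ^ (i + c)) p.1 ∧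
      In (2 ^ (i + c)) p.2 ∧ p.1 ++ (M ++ p.2) ∈ C0 n := ⟨_, rfl⟩
  obtain ⟨W, hW⟩ : ∃ W : ℕ → Set (List Bool), W = fun k => {L | L ∈ F (n - k * s) i' ∧ L ∈ GT b η ∧ rv L ∈ GT b η} :=
    ⟨_, rfl⟩
  have h1 : ENNReal.ofReal q * gf {L | L ∈ C0 n ∧ q ≤ ((tri (2 ^ (i + c)) ρ L).ncard : ℝ)} ≤
      ∑' M : List Bool, if M ∈ X then wE M * ∑' p : {p : List Bool × List Bool | P M p},
        wE (p : List Bool × List Bool).1 * wE (p : List Bool × List Bool).2 else 0 := by
    refine dct fun L hL => ?_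
    obtain ⟨S, hS, hcut⟩ := tri_cuts (2 ^ (i + c)) ρ L
    refine ⟨S, ?_, fun k hk => ?_⟩
    · rw [← ENNReal.ofReal_natCast]
      refine ENNReal.ofReal_le_ofReal (hL.2.trans ?_)
      exact_mod_cast hS
    · obtain ⟨h2, h3, h4, h5, h6⟩ := hcut k hk
      have h7 : L.take k.1 ++ ((L.take k.2).drop k.1 ++ L.drop k.2) ∈ C0 n := by
        have h8 : L.take k.1 = (L.take k.2).take k.1 := by rw [List.take_take, min_eq_left h2]
        rw [← List.append_assoc, h8, List.take_append_drop, List.take_append_drop]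
        exact hL.1
      obtain ⟨h8, h9, h10⟩ := mid_F h7 h4 h5
      obtain ⟨h11, h12⟩ := hρ _ _ _ h6
      refine ⟨h2, h3, ?_, ?_⟩
      · rw [hX]
        refine ⟨h11, h12, h8, h9, ?_⟩
        rw [hi', ← add_assoc]
        exact h10
      · rw [hP]
        exact ⟨h6, h4, h5, h7⟩
  have h2 : (∑' M : List Bool, if M ∈ X then wE M * ∑' p : {p : List Bool × List Bool | P M p},
        wE (p : List Bool × List Bool).1 * wE (p : List Bool × List Bool).2 else 0) ≤
      ∑' M : List Bool, ∑' k : ℕ, if M ∈ W k then wE M * (x * ENNReal.ofReal (16 / ((k : ℝ) + 1) ^ 4)) else 0 := by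
    refine ENNReal.tsum_le_tsum fun M => ?_
    by_cases hM : M ∈ X
    · rw [if_pos hM]
      obtain ⟨k, hk1, hk2, hk3⟩ := window (n := n) (a := M.length) hs3 hs2
      have hM' := hM
      rw [hX] at hM'
      obtain ⟨g1, g2, g3, g4, g5⟩ := hM'
      have hMW : M ∈ W k := by
        rw [hW]
        refine ⟨⟨g3, hk1, ?_, by rw [sub_zero]; exact g5⟩, g1, g2⟩
        rcases hk2 with h3 | ⟨h3, h4⟩
        · have h5 : (M.length : ℝ) < ((n - k * s : ℕ) : ℝ) + s := by exact_mod_cast h3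
          linarith
        · rw [h3, zero_mul, Nat.sub_zero]
          have h5 : (M.length : ℝ) ≤ n := by exact_mod_cast g4
          have := ml_pos i'
          linarith
      refine le_trans ?_ (ENNReal.le_tsum k)
      rw [if_pos hMW]
      refine mul_le_mul' le_rfl ?_
      rw [hP]
      exact (hx M).trans (mul_le_mul' le_rfl (ENNReal.ofReal_le_ofReal hk3))
    · rw [if_neg hM]
      exact zero_le
  rw [ENNReal.tsum_comm] at h2
  have h3 : ∀ k : ℕ, (∑' M : List Bool, if M ∈ W k then wE M * (x * ENNReal.ofReal (16 / ((k : ℝ) + 1) ^ 4)) else 0) *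
      Xb b ^ 2 ≤ ENNReal.ofReal (16 * C * 16 ^ (c + 3) * (D * pr n i)) * x * ENNReal.ofReal (1 / ((k : ℝ) + 1) ^ 2) := by
    intro k
    have e1 : (∑' M : List Bool, if M ∈ W k then wE M * (x * ENNReal.ofReal (16 / ((k : ℝ) + 1) ^ 4)) else 0) =
        gf (W k) * (x * ENNReal.ofReal (16 / ((k : ℝ) + 1) ^ 4)) := by
      rw [gf_ind (W k), ← ENNReal.tsum_mul_right]
      refine tsum_congr fun A => ?_
      by_cases hA : A ∈ W k
      · rw [if_pos hA, if_pos hA]
      · rw [if_neg hA, if_neg hA, zero_mul]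
    have h4 : gf (W k) * Xb b ^ 2 ≤ ENNReal.ofReal (C * D * pr (n - k * s) i') := by
      rw [hW]
      refine hT D (n - k * s) i' b hD (fun n' i'' h5 h6 => hF n' i'' (by omega) (by omega)) (by omega)
    have h5 : C * D * pr (n - k * s) i' ≤ C * D * (((k : ℝ) + 1) ^ 2 * (16 ^ (c + 3) * pr n i)) := by
      refine mul_le_mul_of_nonneg_left ?_ (by positivity)
      refine (pr_back hs1).trans (mul_le_mul_of_nonneg_left ?_ (by positivity))
      rw [hi']
      exact pr_up16 n i (c + 3)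
    have hp := pr_nonneg n i
    rw [e1]
    calc gf (W k) * (x * ENNReal.ofReal (16 / ((k : ℝ) + 1) ^ 4)) * Xb b ^ 2
        = gf (W k) * Xb b ^ 2 * ENNReal.ofReal (16 / ((k : ℝ) + 1) ^ 4) * x := by ring
      _ ≤ ENNReal.ofReal (C * D * (((k : ℝ) + 1) ^ 2 * (16 ^ (c + 3) * pr n i))) *
          ENNReal.ofReal (16 / ((k : ℝ) + 1) ^ 4) * x :=
          mul_le_mul' (mul_le_mul' (h4.trans (ENNReal.ofReal_le_ofReal h5)) le_rfl) le_rfl
      _ = ENNReal.ofReal (16 * C * 16 ^ (c + 3) * (D * pr n i)) * x * ENNReal.ofReal (1 / ((k : ℝ) + 1) ^ 2) := by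
          rw [← ENNReal.ofReal_mul (by positivity),
            mul_right_comm (ENNReal.ofReal (16 * C * 16 ^ (c + 3) * (D * pr n i))) x, ← ENNReal.ofReal_mul (by positivity)]
          congr 2
          field_simp
  have h4 : gf {L | L ∈ C0 n ∧ q ≤ ((tri (2 ^ (i + c)) ρ L).ncard : ℝ)} * (ENNReal.ofReal q * Xb b ^ 2) ≤
      ENNReal.ofReal (16 * C * 16 ^ (c + 3) * (D * pr n i)) * x * ENNReal.ofReal S0 := by
    calc gf {L | L ∈ C0 n ∧ q ≤ ((tri (2 ^ (i + c)) ρ L).ncard : ℝ)} * (ENNReal.ofReal q * Xb b ^ 2)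
        = ENNReal.ofReal q * gf {L | L ∈ C0 n ∧ q ≤ ((tri (2 ^ (i + c)) ρ L).ncard : ℝ)} * Xb b ^ 2 := by ring
      _ ≤ (∑' k : ℕ, ∑' A : List Bool, if A ∈ W k then wE A * (x * ENNReal.ofReal (16 / ((k : ℝ) + 1) ^ 4)) else 0) *
          Xb b ^ 2 := mul_le_mul' (h1.trans h2) le_rfl
      _ = ∑' k : ℕ, (∑' A : List Bool, if A ∈ W k then wE A * (x * ENNReal.ofReal (16 / ((k : ℝ) + 1) ^ 4)) else 0) *
          Xb b ^ 2 := ENNReal.tsum_mul_right.symm
      _ ≤ ∑' k : ℕ, ENNReal.ofReal (16 * C * 16 ^ (c + 3) * (D * pr n i)) * x * ENNReal.ofReal (1 / ((k : ℝ) + 1) ^ 2) :=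
          ENNReal.tsum_le_tsum h3
      _ = _ := by rw [ENNReal.tsum_mul_left, hsum]
  refine h4.trans ?_
  rw [mul_right_comm]
  refine mul_le_mul' ?_ le_rfl
  have hp := pr_nonneg n i
  rw [← ENNReal.ofReal_mul (by positivity)]
  refine ENNReal.ofReal_le_ofReal ?_
  have h5 : 0 ≤ 16 * C * 16 ^ (c + 3) * (D * pr n i) := by positivity
  calc 16 * C * 16 ^ (c + 3) * (D * pr n i) * S0 ≤ 16 * C * 16 ^ (c + 3) * (D * pr n i) * (S0 + 1) :=
        mul_le_mul_of_nonneg_left (by linarith) h5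
    _ = 16 * C * 16 ^ (c + 3) * (S0 + 1) * D * pr n i := by ring

end ARM

end HexObs
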