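import Pool.Agent.ARM.DefsC
import Pool.Agent.ARM.ExC

/-!
# ARM2, row D' (helper28): double counting at both ends of a closed word, general class of the middle parts

* **`exC_gen`** : any class TT of middle parts; **`exCs_of`** : TipF2s → ExCs (disjoint local structures).
-/

set_option autoImplicit false

namespace HexObs

namespace ARM

open Finset TS SDN HexObs.SIM NTA TIP

open scoped ENNReal

/-- **row D, general class TT of the middle parts** -/
theorem exC_gen (c : ℕ) : ∃ K : ℝ, 0 < K ∧ ∀ (C D : ℝ) (n i b : ℕ) (TT : Set (List Bool)), 0 < C → 0 ≤ D →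
    (∀ n' i' : ℕ, n' ≤ n → i ≤ i' → gf {L | L ∈ F n' i' ∧ L ∈ TT} * Xb b ^ 2 ≤ ENNReal.ofReal (C * D * pr n' i')) →
    ∀ (ρ : List Bool → List Bool → List Bool → Prop) (x : ℝ≥0∞) (q : ℝ), (∀ Y2 M Y1, ρ Y2 M Y1 → M ∈ TT) →
      (∀ M, ∑' p : {p : List Bool × List Bool | ρ p.1 M p.2 ∧ In (2 ^ (i + c)) p.1 ∧ In (2 ^ (i + c)) p.2 ∧
        p.1 ++ (M ++ p.2) ∈ C0 n}, wE (p : List Bool × List Bool).1 * wE (p : List Bool × List Bool).2 ≤
          x * ENNReal.ofReal (wt n M.length i)) → 0 < q →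
      gf {L | L ∈ C0 n ∧ q ≤ ((tri (2 ^ (i + c)) ρ L).ncard : ℝ)} * (ENNReal.ofReal q * Xb b ^ 2) ≤
        ENNReal.ofReal (K * C * D * pr n i) * x := by
  classical
  obtain ⟨S0, hS0, hsum⟩ := sum_sq
  refine ⟨16 * 16 ^ (c + 3) * (S0 + 1), by positivity, fun C D n i b TT hC hD hT ρ x q hρ hx hq => ?_⟩
  obtain ⟨i', hi'⟩ : ∃ i', i' = i + (c + 3) := ⟨_, rfl⟩
  obtain ⟨s, hs⟩ : ∃ s : ℕ, s = ⌊ml i'⌋₊ := ⟨_, rfl⟩
  have hs1 : (s : ℝ) ≤ ml i' := by rw [hs]; exact Nat.floor_le (ml_pos _).le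
  have hs2 : ml i ≤ s := by
    have h1 := Nat.lt_floor_add_one (ml i')
    rw [← hs] at h1
    have h2 := ml_two i (c + 3) (by omega)
    rw [← hi'] at h2
    have h3 := one_le_ml i
    linarith
  have hs3 : 1 ≤ s := by
    have h1 := (one_le_ml i).trans hs2
    exact_mod_cast h1
  obtain ⟨X, hX⟩ : ∃ X : Set (List Bool), X = {M | M ∈ TT ∧ M ∈ SA ∧ M.length ≤ n ∧
      TIW.hn (TIW.en M) ≤ 2 ^ i'} := ⟨_, rfl⟩
  obtain ⟨P, hP⟩ : ∃ P : List Bool → List Bool × List Bool → Prop, P = fun M p => ρ p.1 M p.2 ∧ In (2 ^ (i + c)) p.1 ∧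
      In (2 ^ (i + c)) p.2 ∧ p.1 ++ (M ++ p.2) ∈ C0 n := ⟨_, rfl⟩
  obtain ⟨W, hW⟩ : ∃ W : ℕ → Set (List Bool), W = fun k => {L | L ∈ F (n - k * s) i' ∧ L ∈ TT} :=
    ⟨_, rfl⟩
  have h1 : ENNReal.ofReal q * gf {L | L ∈ C0 n ∧ q ≤ ((tri (2 ^ (i + c)) ρ L).ncard : ℝ)} ≤
      ∑' M : List Bool, if M ∈ X then wE M * ∑' p : {p : List Bool × List Bool | P M p},
        wE (p : List Bool × List Bool).1 * wE (p : List Bool × List Bool).2 else 0 := by
    refine dct fun L hL => ?_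
    obtain ⟨S, hS, hcut⟩ := tri_cuts (2 ^ (i + c)) ρ L
    refine ⟨S, ?_, fun k hk => ?_⟩
    · rw [← ENNReal.ofReal_natCast]
      refine ENNReal.ofReal_le_ofReal (hL.2.trans ?_)
      exact_mod_cast hS
    · obtain ⟨h2, h3, h4, h5, h6⟩ := hcut k hk
      have h7 : L.take k.1 ++ ((L.take k.2).drop k.1 ++ L.drop k.2) ∈ C0 n := by
        have h8 : L.take k.1 = (L.take k.2).take k.1 := by rw [List.take_take, min_eq_left h2]
        rw [← List.append_assoc, h8, List.take_append_drop, List.take_append_drop]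
        exact hL.1
      obtain ⟨h8, h9, h10⟩ := mid_F h7 h4 h5
      have h11 := hρ _ _ _ h6
      refine ⟨h2, h3, ?_, ?_⟩
      · rw [hX]
        refine ⟨h11, h8, h9, ?_⟩
        rw [hi', ← add_assoc]
        exact h10
      · rw [hP]
        exact ⟨h6, h4, h5, h7⟩
  have h2 : (∑' M : List Bool, if M ∈ X then wE M * ∑' p : {p : List Bool × List Bool | P M p},
        wE (p : List Bool × List Bool).1 * wE (p : List Bool × List Bool).2 else 0) ≤
      ∑' M : List Bool, ∑' k : ℕ, if M ∈ W k then wE M * (x * ENNReal.ofReal (16 / ((k : ℝ) + 1) ^ 4)) else 0 := by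
    refine ENNReal.tsum_le_tsum fun M => ?_
    by_cases hM : M ∈ X
    · rw [if_pos hM]
      obtain ⟨k, hk1, hk2, hk3⟩ := window (n := n) (a := M.length) hs3 hs2
      have hM' := hM
      rw [hX] at hM'
      obtain ⟨g1, g3, g4, g5⟩ := hM'
      have hMW : M ∈ W k := by
        rw [hW]
        refine ⟨⟨g3, hk1, ?_, by rw [sub_zero]; exact g5⟩, g1⟩
        rcases hk2 with h3 | ⟨h3, h4⟩
        · have h5 : (M.length : ℝ) < ((n - k * s : ℕ) : ℝ) + s := by exact_mod_cast h3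
          linarith
        · rw [h3, zero_mul, Nat.sub_zero]
          have h5 : (M.length : ℝ) ≤ n := by exact_mod_cast g4
          have := ml_pos i'
          linarith
      refine le_trans ?_ (ENNReal.le_tsum k)
      rw [if_pos hMW]
      refine mul_le_mul' le_rfl ?_
      rw [hP]
      exact (hx M).trans (mul_le_mul' le_rfl (ENNReal.ofReal_le_ofReal hk3))
    · rw [if_neg hM]
      exact zero_le
  rw [ENNReal.tsum_comm] at h2
  have h3 : ∀ k : ℕ, (∑' M : List Bool, if M ∈ W k then wE M * (x * ENNReal.ofReal (16 / ((k : ℝ) + 1) ^ 4)) else 0) *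
      Xb b ^ 2 ≤ ENNReal.ofReal (16 * C * 16 ^ (c + 3) * (D * pr n i)) * x * ENNReal.ofReal (1 / ((k : ℝ) + 1) ^ 2) := by
    intro k
    have e1 : (∑' M : List Bool, if M ∈ W k then wE M * (x * ENNReal.ofReal (16 / ((k : ℝ) + 1) ^ 4)) else 0) =
        gf (W k) * (x * ENNReal.ofReal (16 / ((k : ℝ) + 1) ^ 4)) := by
      rw [gf_ind (W k), ← ENNReal.tsum_mul_right]
      refine tsum_congr fun A => ?_
      by_cases hA : A ∈ W k
      · rw [if_pos hA, if_pos hA]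
      · rw [if_neg hA, if_neg hA, zero_mul]
    have h4 : gf (W k) * Xb b ^ 2 ≤ ENNReal.ofReal (C * D * pr (n - k * s) i') := by
      rw [hW]
      exact hT (n - k * s) i' (by omega) (by omega)
    have h5 : C * D * pr (n - k * s) i' ≤ C * D * (((k : ℝ) + 1) ^ 2 * (16 ^ (c + 3) * pr n i)) := by
      refine mul_le_mul_of_nonneg_left ?_ (by positivity)
      refine (pr_back hs1).trans (mul_le_mul_of_nonneg_left ?_ (by positivity))
      rw [hi']
      exact pr_up16 n i (c + 3)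
    have hp := pr_nonneg n i
    rw [e1]
    calc gf (W k) * (x * ENNReal.ofReal (16 / ((k : ℝ) + 1) ^ 4)) * Xb b ^ 2
        = gf (W k) * Xb b ^ 2 * ENNReal.ofReal (16 / ((k : ℝ) + 1) ^ 4) * x := by ring
      _ ≤ ENNReal.ofReal (C * D * (((k : ℝ) + 1) ^ 2 * (16 ^ (c + 3) * pr n i))) *
          ENNReal.ofReal (16 / ((k : ℝ) + 1) ^ 4) * x :=
          mul_le_mul' (mul_le_mul' (h4.trans (ENNReal.ofReal_le_ofReal h5)) le_rfl) le_rfl
      _ = ENNReal.ofReal (16 * C * 16 ^ (c + 3) * (D * pr n i)) * x * ENNReal.ofReal (1 / ((k : ℝ) + 1) ^ 2) := by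
          rw [← ENNReal.ofReal_mul (by positivity),
            mul_right_comm (ENNReal.ofReal (16 * C * 16 ^ (c + 3) * (D * pr n i))) x, ← ENNReal.ofReal_mul (by positivity)]
          congr 2
          field_simp
  have h4 : gf {L | L ∈ C0 n ∧ q ≤ ((tri (2 ^ (i + c)) ρ L).ncard : ℝ)} * (ENNReal.ofReal q * Xb b ^ 2) ≤
      ENNReal.ofReal (16 * C * 16 ^ (c + 3) * (D * pr n i)) * x * ENNReal.ofReal S0 := by
    calc gf {L | L ∈ C0 n ∧ q ≤ ((tri (2 ^ (i + c)) ρ L).ncard : ℝ)} * (ENNReal.ofReal q * Xb b ^ 2)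
        = ENNReal.ofReal q * gf {L | L ∈ C0 n ∧ q ≤ ((tri (2 ^ (i + c)) ρ L).ncard : ℝ)} * Xb b ^ 2 := by ring
      _ ≤ (∑' k : ℕ, ∑' A : List Bool, if A ∈ W k then wE A * (x * ENNReal.ofReal (16 / ((k : ℝ) + 1) ^ 4)) else 0) *
          Xb b ^ 2 := mul_le_mul' (h1.trans h2) le_rfl
      _ = ∑' k : ℕ, (∑' A : List Bool, if A ∈ W k then wE A * (x * ENNReal.ofReal (16 / ((k : ℝ) + 1) ^ 4)) else 0) *
          Xb b ^ 2 := ENNReal.tsum_mul_right.symm
      _ ≤ ∑' k : ℕ, ENNReal.ofReal (16 * C * 16 ^ (c + 3) * (D * pr n i)) * x * ENNReal.ofReal (1 / ((k : ℝ) + 1) ^ 2) :=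
          ENNReal.tsum_le_tsum h3
      _ = _ := by rw [ENNReal.tsum_mul_left, hsum]
  refine h4.trans ?_
  rw [mul_right_comm]
  refine mul_le_mul' ?_ le_rfl
  have hp := pr_nonneg n i
  rw [← ENNReal.ofReal_mul (by positivity)]
  refine ENNReal.ofReal_le_ofReal ?_
  have h5 : 0 ≤ 16 * C * 16 ^ (c + 3) * (D * pr n i) := by positivity
  calc 16 * C * 16 ^ (c + 3) * (D * pr n i) * S0 ≤ 16 * C * 16 ^ (c + 3) * (D * pr n i) * (S0 + 1) :=
        mul_le_mul_of_nonneg_left (by linarith) h5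
    _ = 16 * 16 ^ (c + 3) * (S0 + 1) * C * D * pr n i := by ring

/-- **row D'** -/
theorem exCs_of (hT : TipF2s) : ExCs := by
  intro η E c hη
  obtain ⟨C, hC, hT⟩ := hT η E hη
  obtain ⟨K, hK, h⟩ := exC_gen c
  refine ⟨K * C, by positivity, fun D n i b hD hF hbi ρ x q hρ hx hq => ?_⟩
  refine h C D n i b (TwoG η E b) hC hD (fun n' i' h1 h2 => ?_) ρ x q hρ hx hq
  exact hT D n' i' b hD (fun n'' i'' h5 h6 => hF n'' i'' (h5.trans h1) (h2.trans h6)) (hbi.trans h2)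

end ARM

end HexObs
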