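import Pool.Agent.ARM.FastW
import Pool.Agent.NTS.DirF

/-!
# ARM2, row VisW, second part (helper70): the numbers

* `fastF` : direction false; **`fastW`** : both directions.
-/

set_option autoImplicit false

namespace HexObs

namespace ARM

open Finset TS SDN NTW NTA

open scoped ENNReal

/-- a displacement of at least 2 ^ s levels in at most x letters, direction false -/
def DEf (s : ℕ) (x : ℝ) : Set (List Bool) := {t | ∃ i j : ℕ, i ≤ j ∧ j ≤ t.length ∧ (j : ℝ) - i ≤ x ∧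
  2 ^ s ≤ |lev t j - lev t i|}

/-- **large displacements in a short time, direction false** -/
theorem fastF : ∃ C : ℝ, 1 ≤ C ∧ ∀ Q : ℕ, ∃ A : ℝ, 1 ≤ A ∧ ∀ (K l : ℕ) (y : ℝ), l ≤ K → 0 < y → y ≤ 1 →
    gf {t | t ∈ WL K ∧ t ∈ DEf l (y * PW.mZ (2 ^ l))} ≤
      ENNReal.ofReal (A * y ^ Q * C ^ (K - l)) * (ENNReal.ofReal (Ub K) * Xb K ^ 2) := by
  obtain ⟨D, Kc, s, k0, hD, hKc, hdis⟩ := dispX
  obtain ⟨Cg, hCg, hup'⟩ := mup_M
  have hup : ∀ k, PW.mZ (2 ^ (k + 1)) ≤ Cg * PW.mZ (2 ^ k) := hup'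
  obtain ⟨T, hT, hTot⟩ := ens_WL.tot
  have hCg0 : 0 < Cg := by linarith
  have hD0 : 0 < D := by linarith
  refine ⟨D, hD, fun Q => ?_⟩
  obtain ⟨A, hA, hdis⟩ := hdis (Q + 1)
  have hA0 : 0 < A := by linarith
  -- the numbers
  obtain ⟨e, he⟩ : ∃ e : ℕ, Cg ≤ (2 : ℝ) ^ e := by
    obtain ⟨q, hq⟩ := pow_unbounded_of_one_lt Cg (show (1 : ℝ) < 2 by norm_num)
    exact ⟨q, hq.le⟩
  obtain ⟨a, ha⟩ : ∃ a : ℕ, PW.mZ (2 ^ 0) ≤ (2 : ℝ) ^ a := by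
    obtain ⟨q, hq⟩ := pow_unbounded_of_one_lt (PW.mZ (2 ^ 0)) (show (1 : ℝ) < 2 by norm_num)
    exact ⟨q, hq.le⟩
  obtain ⟨kb, hkb⟩ : ∃ kb, kb = k0 + 2 := ⟨_, rfl⟩
  obtain ⟨s1, hs1⟩ : ∃ s1, s1 = s + 5 := ⟨_, rfl⟩
  obtain ⟨E, hEdef⟩ : ∃ E, E = D * Cg ^ (Q + 1) := ⟨_, rfl⟩
  have hE1 : 1 ≤ E := by rw [hEdef]; exact one_le_mul_of_one_le_of_one_le hD (one_le_pow₀ hCg)
  obtain ⟨r1, hr1⟩ := EN.small_j hE1 Q s1 (ε := 1) one_pos
  obtain ⟨r2, hr2⟩ := EN.small_j (show (1 : ℝ) ≤ 2 ^ (e + 1) from one_le_pow₀ (by norm_num)) Q s1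
    (ε := (1 / 2) ^ (1 + a + (e + 1) * (10 + kb))) (by positivity)
  obtain ⟨r3, hr3⟩ := EN.small_j hCg Q s1 (ε := 1 / (2 * Cg ^ 10)) (by positivity)
  obtain ⟨r0, hr0⟩ : ∃ r0, r0 = r1 + r2 + r3 := ⟨_, rfl⟩
  obtain ⟨A1, hA1⟩ : ∃ A1, A1 = D ^ 10 * (A * (2 * Cg ^ 10) ^ (Q + 1) + Kc) := ⟨_, rfl⟩
  obtain ⟨A2, hA2⟩ : ∃ A2, A2 = T * (2 ^ r0) ^ Q := ⟨_, rfl⟩
  have hA10 : 0 < A1 := by rw [hA1]; positivity
  have hA21 : 1 ≤ A2 := by
    rw [hA2]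
    exact one_le_mul_of_one_le_of_one_le hT (one_le_pow₀ (one_le_pow₀ (by norm_num)))
  refine ⟨A1 + A2, by linarith, fun K l y hl hy0 hy1 => ?_⟩
  have hDK : 1 ≤ D ^ (K - l) := one_le_pow₀ hD
  obtain ⟨r, hrl, hru⟩ := EN.dyadic hy0 hy1
  rcases Nat.lt_or_ge r r0 with hr | hr
  · -- the trivial case
    refine (gf_mono fun t ht => ht.1).trans ((hTot K).trans (mul_le_mul_left (ENNReal.ofReal_le_ofReal ?_) _))
    have h2 : 1 ≤ (2 : ℝ) ^ r0 * y := by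
      have h3 : (1 / 2 : ℝ) ^ r0 ≤ (1 / 2) ^ (r + 1) := pow_le_pow_of_le_one (by norm_num) (by norm_num) (by omega)
      have h4 : (2 : ℝ) ^ r0 * (1 / 2) ^ r0 = 1 := by rw [← mul_pow]; norm_num
      calc (1 : ℝ) = 2 ^ r0 * (1 / 2) ^ r0 := h4.symm
        _ ≤ 2 ^ r0 * y := by
            have : (1 / 2 : ℝ) ^ r0 ≤ y := h3.trans hrl.le
            gcongr
    have h5 : 1 ≤ ((2 : ℝ) ^ r0) ^ Q * y ^ Q := by
      rw [← mul_pow]
      exact one_le_pow₀ h2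
    have hT0 : 0 < T := by linarith
    calc T ≤ T * ((((2 : ℝ) ^ r0) ^ Q * y ^ Q) * D ^ (K - l)) :=
          le_mul_of_one_le_right hT0.le (one_le_mul_of_one_le_of_one_le h5 hDK)
      _ = A2 * y ^ Q * D ^ (K - l) := by rw [hA2]; ring
      _ ≤ (A1 + A2) * y ^ Q * D ^ (K - l) := by
          gcongr
          linarith
  · -- the main case
    rcases Set.eq_empty_or_nonempty {t | t ∈ WL K ∧ t ∈ DEf l (y * PW.mZ (2 ^ l))} with h0 | h0
    · rw [h0]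
      have : gf (∅ : Set (List Bool)) = 0 := by
        unfold gf
        simp
      rw [this]
      exact zero_le
    have hms := mlow_M.pos l
    have hn1 : (2 : ℝ) ^ l ≤ 2 * (y * PW.mZ (2 ^ l)) := by
      obtain ⟨t, -, x, z, hxz, hz, h1, h2⟩ := h0
      have h3 := h2.trans (EN.lvl_lip2 false t hxz)
      have h4 : ((2 ^ l : ℤ) : ℝ) ≤ ((2 * ((z : ℤ) - x) : ℤ) : ℝ) := by exact_mod_cast h3
      push_cast at h4
      linarith
    -- r against l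
    have hrs : r ≤ 1 + a + (e + 1) * l := by
      have h1 : PW.mZ (2 ^ l) ≤ Cg ^ l * PW.mZ (2 ^ 0) := by
        have := EN.m_pow (m := fun k => PW.mZ (2 ^ k)) hCg hup 0 l
        simp only [zero_add] at this
        exact this
      have h2 : (2 : ℝ) ^ r ≤ 2 ^ (1 + a + (e + 1) * l) := by
        have h3 : (2 : ℝ) ^ r * (1 / 2) ^ r = 1 := by rw [← mul_pow]; norm_num
        have h4 : (1 : ℝ) ≤ 2 ^ l := one_le_pow₀ (by norm_num)
        calc (2 : ℝ) ^ r ≤ 2 ^ r * (2 * (y * PW.mZ (2 ^ l))) := le_mul_of_one_le_right (by positivity) (by linarith)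
          _ ≤ 2 ^ r * (2 * ((1 / 2) ^ r * (Cg ^ l * PW.mZ (2 ^ 0)))) := by gcongr
          _ = 2 * (Cg ^ l * PW.mZ (2 ^ 0)) := by
              rw [show (2 : ℝ) ^ r * (2 * ((1 / 2) ^ r * (Cg ^ l * PW.mZ (2 ^ 0)))) =
                (2 ^ r * (1 / 2) ^ r) * (2 * (Cg ^ l * PW.mZ (2 ^ 0))) by ring, h3, one_mul]
          _ ≤ 2 * ((2 ^ e) ^ l * 2 ^ a) := by
              have := mlow_M.pos 0
              gcongr
          _ = 2 ^ (1 + a + e * l) := by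
              rw [← pow_mul, pow_add, pow_add, pow_one]
              ring
          _ ≤ 2 ^ (1 + a + (e + 1) * l) := pow_le_pow_right₀ (by norm_num) (by
              have : e * l ≤ (e + 1) * l := Nat.mul_le_mul_right _ (by omega)
              omega)
      exact (pow_le_pow_iff_right₀ (by norm_num : (1 : ℝ) < 2)).1 h2
    obtain ⟨nn, hnn⟩ : ∃ nn, nn = (Q + 1) * (r + 1) := ⟨_, rfl⟩
    obtain ⟨j1, hj1⟩ : ∃ j1, j1 = s1 + Nat.clog 2 ((Q + 1) * (r + 1)) := ⟨_, rfl⟩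
    have b1 := hr1 r (by omega)
    have b2 := hr2 r (by omega)
    have b3 := hr3 r (by omega)
    rw [← hj1] at b1 b2 b3
    have hjs : j1 + 10 + kb ≤ l := by
      have h1 : (2 : ℝ) ^ ((e + 1) * j1 + (1 + a + (e + 1) * (10 + kb))) ≤ 2 ^ r := by
        rw [pow_add, pow_mul]
        have h3 : (2 : ℝ) ^ r * (1 / 2) ^ r = 1 := by rw [← mul_pow]; norm_num
        have h4 : ∀ x : ℕ, (1 / 2 : ℝ) ^ x * 2 ^ x = 1 := fun x => by rw [← mul_pow]; norm_num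
        calc ((2 : ℝ) ^ (e + 1)) ^ j1 * 2 ^ (1 + a + (e + 1) * (10 + kb))
            = 2 ^ r * (((2 ^ (e + 1)) ^ j1 * (1 / 2) ^ r) * 2 ^ (1 + a + (e + 1) * (10 + kb))) := by
              rw [show (2 : ℝ) ^ r * (((2 ^ (e + 1)) ^ j1 * (1 / 2) ^ r) * 2 ^ (1 + a + (e + 1) * (10 + kb))) =
                (2 ^ r * (1 / 2) ^ r) * ((2 ^ (e + 1)) ^ j1 * 2 ^ (1 + a + (e + 1) * (10 + kb))) by ring, h3, one_mul]
          _ ≤ 2 ^ r * ((1 / 2) ^ (1 + a + (e + 1) * (10 + kb)) * 2 ^ (1 + a + (e + 1) * (10 + kb))) := by gcongr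
          _ = 2 ^ r := by rw [h4, mul_one]
      have h2 := (pow_le_pow_iff_right₀ (by norm_num : (1 : ℝ) < 2)).1 h1
      have h3 : (e + 1) * (j1 + 10 + kb) ≤ (e + 1) * l := by
        have : (e + 1) * (j1 + 10 + kb) = (e + 1) * j1 + (e + 1) * (10 + kb) := by ring
        omega
      exact Nat.le_of_mul_le_mul_left h3 (by omega)
    obtain ⟨k, hk⟩ : ∃ k, k = l - 10 - j1 := ⟨_, rfl⟩
    obtain ⟨J, hJ⟩ : ∃ J, J = K - l + 10 := ⟨_, rfl⟩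
    have hlk : l = k + j1 + 10 := by omega
    have hKk : K = k + j1 + J := by omega
    have hmk := mlow_M.pos k
    have hdm : 2 ≤ y * PW.mZ (2 ^ l) := by
      have h1 : (2 : ℝ) ^ 2 ≤ 2 ^ l := pow_le_pow_right₀ (by norm_num) (by omega)
      norm_num at h1
      linarith
    obtain ⟨x, hx⟩ : ∃ x, x = y * PW.mZ (2 ^ l) + 2 := ⟨_, rfl⟩
    have hx0 : 0 < x := by rw [hx]; positivity
    have hx2 : x ≤ 2 * (y * PW.mZ (2 ^ l)) := by rw [hx]; linarith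
    have hsl : PW.mZ (2 ^ l) ≤ Cg ^ (10 + j1) * PW.mZ (2 ^ k) := by
      have := EN.m_pow (m := fun k => PW.mZ (2 ^ k)) hCg hup k (10 + j1)
      rwa [show k + (10 + j1) = l by omega] at this
    have hxk : x / PW.mZ (2 ^ k) ≤ 2 * Cg ^ 10 * Cg ^ j1 * y := by
      rw [div_le_iff₀ hmk]
      calc x ≤ 2 * (y * PW.mZ (2 ^ l)) := hx2
        _ ≤ 2 * (y * (Cg ^ (10 + j1) * PW.mZ (2 ^ k))) := by gcongr
        _ = _ := by rw [pow_add]; ring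
    have hxl : x ≤ PW.mZ (2 ^ k) := by
      have h1 : x / PW.mZ (2 ^ k) ≤ 1 := by
        refine hxk.trans ?_
        calc 2 * Cg ^ 10 * Cg ^ j1 * y ≤ 2 * Cg ^ 10 * Cg ^ j1 * (1 / 2) ^ r := by gcongr
          _ = 2 * Cg ^ 10 * (Cg ^ j1 * (1 / 2) ^ r) := by ring
          _ ≤ 2 * Cg ^ 10 * (1 / (2 * Cg ^ 10)) := by gcongr
          _ = 1 := by field_simp
      rwa [div_le_one hmk] at h1
    have hnn2 : nn * 2 ^ (k + s) ≤ 2 ^ (k + j1) := by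
      have h2 : nn ≤ 2 ^ Nat.clog 2 ((Q + 1) * (r + 1)) := by
        rw [hnn]
        exact Nat.le_pow_clog (by norm_num) _
      calc nn * 2 ^ (k + s) ≤ 2 ^ Nat.clog 2 ((Q + 1) * (r + 1)) * 2 ^ (k + s) := Nat.mul_le_mul_right _ h2
        _ = 2 ^ (Nat.clog 2 ((Q + 1) * (r + 1)) + (k + s)) := (pow_add 2 _ _).symm
        _ ≤ 2 ^ (k + j1) := Nat.pow_le_pow_right (by norm_num) (by omega)
    have hsub : {t | t ∈ WL K ∧ t ∈ DEf l (y * PW.mZ (2 ^ l))} ⊆ DFQ (k + j1) J x := by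
      rintro t ⟨h1, u, z, huz, hz, h3, h4⟩
      refine ⟨by rw [← hKk]; exact h1, u, z, huz, hz, by rw [hx]; linarith, le_trans ?_ h4⟩
      rw [hlk, pow_add 2 (k + j1) 10]
      have : (1 : ℤ) ≤ 2 ^ (k + j1) := one_le_pow₀ (by norm_num)
      generalize (2 : ℤ) ^ (k + j1) = Z at *
      linarith
    refine (gf_mono hsub).trans ((hdis k j1 J nn x (by omega) (by omega) (by omega) hnn2 (by omega) hx0 hxl).trans ?_)
    rw [← hKk, mul_comm _ (Ub K), ENNReal.ofReal_mul (Ub_pos K).le, mul_assoc, mul_left_comm]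
    refine mul_le_mul_left (ENNReal.ofReal_le_ofReal ?_) _
    have hn4 : Kc / 4 ^ nn ≤ Kc * y ^ (Q + 1) := by
      rw [div_eq_mul_one_div]
      refine mul_le_mul_of_nonneg_left ?_ (by linarith)
      have h3 : 1 / (4 : ℝ) ^ nn ≤ ((1 / 2) ^ (r + 1)) ^ (Q + 1) := by
        rw [← pow_mul, hnn, mul_comm (r + 1) (Q + 1), one_div, ← inv_pow]
        exact pow_le_pow_left₀ (by norm_num) (by norm_num) _
      exact h3.trans (pow_le_pow_left₀ (by positivity) hrl.le _)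
    have hCj : 1 ≤ (Cg ^ (Q + 1)) ^ j1 := one_le_pow₀ (one_le_pow₀ hCg)
    have hEj : E ^ j1 * y ≤ 1 := by
      calc E ^ j1 * y ≤ E ^ j1 * (1 / 2) ^ r := by gcongr
        _ ≤ 1 := b1
    have hxp : (x / PW.mZ (2 ^ k)) ^ (Q + 1) ≤ (2 * Cg ^ 10 * Cg ^ j1 * y) ^ (Q + 1) :=
      pow_le_pow_left₀ (by positivity) hxk _
    have hpk : D ^ (J + j1) = D ^ 10 * D ^ (K - l) * D ^ j1 := by
      rw [← pow_add, ← pow_add]
      congr 1
      omega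
    calc D ^ (J + j1) * (A * (x / PW.mZ (2 ^ k)) ^ (Q + 1) + Kc / 4 ^ nn)
        ≤ D ^ (J + j1) * (A * (2 * Cg ^ 10 * Cg ^ j1 * y) ^ (Q + 1) + Kc * y ^ (Q + 1) * (Cg ^ (Q + 1)) ^ j1) := by
          refine mul_le_mul_of_nonneg_left (add_le_add (mul_le_mul_of_nonneg_left hxp hA0.le) ?_) (by positivity)
          exact hn4.trans (le_mul_of_one_le_right (by positivity) hCj)
      _ = D ^ 10 * (A * (2 * Cg ^ 10) ^ (Q + 1) + Kc) * D ^ (K - l) * ((D * Cg ^ (Q + 1)) ^ j1 * y) * y ^ Q := by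
          have hZ : (Cg ^ j1) ^ (Q + 1) = (Cg ^ (Q + 1)) ^ j1 := by rw [← pow_mul, ← pow_mul, mul_comm]
          rw [mul_pow (2 * Cg ^ 10 * Cg ^ j1) y, mul_pow (2 * Cg ^ 10) (Cg ^ j1), hZ, mul_pow D (Cg ^ (Q + 1)), hpk, pow_succ y Q]
          generalize (Cg ^ (Q + 1)) ^ j1 = W
          generalize (2 * Cg ^ 10) ^ (Q + 1) = V
          ring
      _ = A1 * D ^ (K - l) * (E ^ j1 * y) * y ^ Q := by rw [hA1, hEdef]
      _ ≤ A1 * D ^ (K - l) * 1 * y ^ Q := by gcongr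
      _ = A1 * y ^ Q * D ^ (K - l) := by ring
      _ ≤ (A1 + A2) * y ^ Q * D ^ (K - l) := by
          gcongr
          linarith

/-- the weights of larger boxes -/
lemma FK_shift : ∃ C : ℝ, 1 ≤ C ∧ ∀ K j : ℕ, ENNReal.ofReal (Ub (K + j)) * Xb (K + j) ^ 2 ≤
    ENNReal.ofReal (C ^ j) * (ENNReal.ofReal (Ub K) * Xb K ^ 2) := by
  obtain ⟨C, hC, hX⟩ := Xb_pow
  refine ⟨2 * C ^ 2, by nlinarith [one_le_pow₀ hC (n := 2)], fun K j => ?_⟩
  have hU : Ub (K + j) ≤ 2 ^ j * Ub K := UU_ratio_up K j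
  have hC0 : (0 : ℝ) ≤ C := by linarith
  calc ENNReal.ofReal (Ub (K + j)) * Xb (K + j) ^ 2
      ≤ ENNReal.ofReal (2 ^ j * Ub K) * (ENNReal.ofReal (C ^ j) * Xb K) ^ 2 :=
        mul_le_mul' (ENNReal.ofReal_le_ofReal hU) (pow_le_pow_left' (hX K j) 2)
    _ = ENNReal.ofReal ((2 * C ^ 2) ^ j) * (ENNReal.ofReal (Ub K) * Xb K ^ 2) := by
        rw [mul_pow (2 : ℝ) (C ^ 2), ENNReal.ofReal_mul (by positivity), mul_pow, ← ENNReal.ofReal_pow (by positivity),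
          ENNReal.ofReal_mul (by positivity)]
        have e : (C ^ j) ^ 2 = (C ^ 2) ^ j := by ring
        rw [e]
        ring

/-- the words with a zigzag at the start, direction true -/
lemma de_true {K l : ℕ} {x : ℝ} (hl : 3 ≤ l) : gf {t | t ∈ WL K ∧ ∃ i j : ℕ, i ≤ j ∧ j ≤ t.length ∧ (j : ℝ) - i ≤ x ∧
    2 ^ l ≤ |lvl true (vx oo up t j) - lvl true (vx oo up t i)|} ≤
      ENNReal.ofReal DirA.CD * gf {t | t ∈ WL (K + 3) ∧ t ∈ DEf (l - 1) x} := by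
  classical
  refine (gf_mono ?_).trans (DirA.gf_zz _)
  rintro t ⟨hW, i, j, hij, hj, hx, hd⟩
  have h2l : (8 : ℤ) ≤ 2 ^ l := by
    calc (8 : ℤ) = 2 ^ 3 := by norm_num
      _ ≤ 2 ^ l := pow_le_pow_right₀ (by norm_num) hl
  have hex : ∃ q, q ≤ t.length ∧ DirA.vert (dx up t q) := by
    by_contra hc
    push Not at hc
    have h1 : ∀ i, i < t.length → ¬ DirA.vert (dx up t i) := fun i hi => hc i hi.le
    have h2 := DirA.zz_lvl h1 i (hij.trans hj)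
    have h3 := DirA.zz_lvl h1 j hj
    rw [h2, h3, le_abs] at hd
    split_ifs at hd <;> omega
  obtain ⟨hq, hv⟩ := Nat.find_spec hex
  have hmin : ∀ i, i < Nat.find hex → ¬ DirA.vert (dx up t i) := fun i hi h => Nat.find_min hex hi ⟨by omega, h⟩
  set q := Nat.find hex
  have hWd := RD.drop_WL hW hq hv
  obtain ⟨σ, hσ, h1, -, -⟩ := RD.drop_dir hq hv
  refine ⟨q, t.drop q, ⟨hWd, ?_⟩, by rw [← DirA.take_eq hq hmin hv, List.take_append_drop]⟩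
  obtain ⟨i', j', a, b, c, d⟩ := disp_red hq hσ (fun k hk => by
    have b1 := DirA.zz_lvl hmin k hk
    have b2 := DirA.zz_lvl hmin q le_rfl
    rw [b1, b2, abs_le]
    split_ifs <;> constructor <;> omega) (fun k _ => by
    rw [h1 k, add_sub_cancel_left]
    rfl) hij hj
  refine ⟨i', j', a, b, ?_, ?_⟩
  · have e1 : ((j' - i' : ℕ) : ℝ) ≤ ((j - i : ℕ) : ℝ) := by exact_mod_cast c
    rw [Nat.cast_sub a, Nat.cast_sub hij] at e1
    linarith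
  · have e2 : (2 : ℤ) ^ l = 2 * 2 ^ (l - 1) := by
      rw [← pow_succ']
      congr 1
      omega
    rw [e2] at hd h2l
    generalize (2 : ℤ) ^ (l - 1) = Z at *
    linarith

/-- **large displacements in a short time, words of the box** -/
theorem fastW : ∃ C : ℝ, 1 ≤ C ∧ ∀ Q : ℕ, ∃ A : ℝ, 1 ≤ A ∧ ∀ (K l : ℕ) (y : ℝ), l ≤ K → 0 < y → y ≤ 1 →
    gf {t | t ∈ WL K ∧ t ∈ EN.DE l (y * PW.mZ (2 ^ l))} ≤
      ENNReal.ofReal (A * y ^ Q * C ^ (K - l)) * (ENNReal.ofReal (Ub K) * Xb K ^ 2) := by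
  obtain ⟨C, hC, hF⟩ := fastF
  obtain ⟨Cf, hCf, hFK⟩ := FK_shift
  obtain ⟨Cg, hCg, hup'⟩ := mup_M
  have hup : ∀ k, PW.mZ (2 ^ (k + 1)) ≤ Cg * PW.mZ (2 ^ k) := hup'
  obtain ⟨T, hT, hTot⟩ := ens_WL.tot
  have hCD := DirA.CD_ge
  have hCg0 : 0 < Cg := by linarith
  have hC0 : 0 < C := by linarith
  have hCf0 : 0 < Cf := by linarith
  have hT0 : 0 < T := by linarith
  have hCD0 : 0 < DirA.CD := by linarith
  obtain ⟨m3, hm3⟩ : ∃ m3 : ℝ, m3 = 2 * PW.mZ (2 ^ 3) + 1 := ⟨_, rfl⟩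
  have hm30 : 1 ≤ m3 := by
    rw [hm3]
    have := mlow_M.pos 3
    linarith
  refine ⟨C, hC, fun Q => ?_⟩
  obtain ⟨A, hA, hF⟩ := hF Q
  have hA0 : 0 < A := by linarith
  obtain ⟨W, hW⟩ : ∃ W : ℝ, W = T * (Cg * m3) ^ Q + (A + DirA.CD * (A * Cg ^ Q * C ^ 4 * Cf ^ 3)) := ⟨_, rfl⟩
  have hWA : A + DirA.CD * (A * Cg ^ Q * C ^ 4 * Cf ^ 3) ≤ W := by
    rw [hW]
    have : 0 ≤ T * (Cg * m3) ^ Q := by positivity
    linarith
  have hWT : T * (Cg * m3) ^ Q ≤ W := by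
    rw [hW]
    have : 0 ≤ A + DirA.CD * (A * Cg ^ Q * C ^ 4 * Cf ^ 3) := by positivity
    linarith
  refine ⟨W, ?_, fun K l y hl hy0 hy1 => ?_⟩
  · refine le_trans ?_ hWA
    have : 0 ≤ DirA.CD * (A * Cg ^ Q * C ^ 4 * Cf ^ 3) := by positivity
    linarith
  have hCK : 1 ≤ C ^ (K - l) := one_le_pow₀ hC
  -- the trivial bound
  have htriv : 1 ≤ Cg * m3 * y → gf {t | t ∈ WL K ∧ t ∈ EN.DE l (y * PW.mZ (2 ^ l))} ≤
      ENNReal.ofReal (W * y ^ Q * C ^ (K - l)) * (ENNReal.ofReal (Ub K) * Xb K ^ 2) := by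
    intro h
    refine (gf_mono fun t ht => ht.1).trans ((hTot K).trans (mul_le_mul_left (ENNReal.ofReal_le_ofReal ?_) _))
    have h5 : 1 ≤ (Cg * m3) ^ Q * y ^ Q := by
      rw [← mul_pow]
      exact one_le_pow₀ h
    calc T ≤ T * (((Cg * m3) ^ Q * y ^ Q) * C ^ (K - l)) :=
          le_mul_of_one_le_right hT0.le (one_le_mul_of_one_le_of_one_le h5 hCK)
      _ = (T * (Cg * m3) ^ Q) * y ^ Q * C ^ (K - l) := by ring
      _ ≤ W * y ^ Q * C ^ (K - l) := by gcongr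
  rcases Nat.lt_or_ge l 3 with hl3 | hl3
  · rcases Set.eq_empty_or_nonempty {t | t ∈ WL K ∧ t ∈ EN.DE l (y * PW.mZ (2 ^ l))} with h0 | h0
    · rw [h0]
      have : gf (∅ : Set (List Bool)) = 0 := by
        unfold gf
        simp
      rw [this]
      exact zero_le
    refine htriv ?_
    obtain ⟨t, -, dir, i, j, hij, hj, h1, h2⟩ := h0
    have h3 := h2.trans (EN.lvl_lip2 dir t hij)
    have h4 : ((2 ^ l : ℤ) : ℝ) ≤ ((2 * ((j : ℤ) - i) : ℤ) : ℝ) := by exact_mod_cast h3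
    push_cast at h4
    have h5 : (1 : ℝ) ≤ 2 ^ l := one_le_pow₀ (by norm_num)
    have h6 : PW.mZ (2 ^ l) ≤ PW.mZ (2 ^ 3) := EN.m_mono mlow_M (by omega)
    have h7 : 1 ≤ m3 * y := by
      rw [hm3]
      nlinarith
    nlinarith
  rcases le_or_gt 1 (Cg * y) with hy | hy
  · exact htriv (by nlinarith)
  -- the main case
  have hml := mlow_M.pos l
  have hml1 := mlow_M.pos (l - 1)
  obtain ⟨y', hy'⟩ : ∃ y', y' = y * PW.mZ (2 ^ l) / PW.mZ (2 ^ (l - 1)) := ⟨_, rfl⟩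
  have hy'0 : 0 < y' := by rw [hy']; positivity
  have hy'C : y' ≤ Cg * y := by
    rw [hy', div_le_iff₀ hml1]
    have := hup (l - 1)
    rw [show l - 1 + 1 = l by omega] at this
    nlinarith
  have ex : y' * PW.mZ (2 ^ (l - 1)) = y * PW.mZ (2 ^ l) := by
    rw [hy']
    field_simp
  have g1 := hF K l y hl hy0 hy1
  have g2 := hF (K + 3) (l - 1) y' (by omega) hy'0 (by linarith)
  rw [ex] at g2
  have g3 := (de_true (K := K) (l := l) (x := y * PW.mZ (2 ^ l)) hl3).trans (mul_le_mul_right (g2.trans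
    (mul_le_mul_right (hFK K 3) _)) _)
  have hsub : {t | t ∈ WL K ∧ t ∈ EN.DE l (y * PW.mZ (2 ^ l))} ⊆ {t | t ∈ WL K ∧ t ∈ DEf l (y * PW.mZ (2 ^ l))} ∪
      {t | t ∈ WL K ∧ ∃ i j : ℕ, i ≤ j ∧ j ≤ t.length ∧ (j : ℝ) - i ≤ y * PW.mZ (2 ^ l) ∧
        2 ^ l ≤ |lvl true (vx oo up t j) - lvl true (vx oo up t i)|} := by
    rintro t ⟨h1, dir, i, j, h2, h3, h4, h5⟩
    cases dir
    · exact Or.inl ⟨h1, i, j, h2, h3, h4, h5⟩
    · exact Or.inr ⟨h1, i, j, h2, h3, h4, h5⟩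
  refine (gf_mono hsub).trans ((gf_union_le _ _).trans ((add_le_add g1 g3).trans ?_))
  rw [← mul_assoc (ENNReal.ofReal (A * y' ^ Q * C ^ (K + 3 - (l - 1)))), ← mul_assoc (ENNReal.ofReal DirA.CD),
    ← ENNReal.ofReal_mul (by positivity), ← ENNReal.ofReal_mul (by positivity), ← add_mul,
    ← ENNReal.ofReal_add (by positivity) (by positivity)]
  refine mul_le_mul_left (ENNReal.ofReal_le_ofReal ?_) _
  have hyQ : y' ^ Q ≤ Cg ^ Q * y ^ Q := by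
    rw [← mul_pow]
    exact pow_le_pow_left₀ hy'0.le hy'C _
  rw [show K + 3 - (l - 1) = (K - l) + 4 by omega, pow_add C]
  calc A * y ^ Q * C ^ (K - l) + DirA.CD * (A * y' ^ Q * (C ^ (K - l) * C ^ 4) * Cf ^ 3)
      ≤ A * y ^ Q * C ^ (K - l) + DirA.CD * (A * (Cg ^ Q * y ^ Q) * (C ^ (K - l) * C ^ 4) * Cf ^ 3) := by gcongr
    _ = (A + DirA.CD * (A * Cg ^ Q * C ^ 4 * Cf ^ 3)) * y ^ Q * C ^ (K - l) := by ring
    _ ≤ W * y ^ Q * C ^ (K - l) := by gcongr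

end ARM

end HexObs
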