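import Pool.Agent.NTW.DispQB
import Pool.Agent.NTA.RunX
import Pool.Agent.NTA.TailEns
import Pool.Agent.EN.EspM
import Pool.Agent.EN.EmoNum

/-!
# ARM2, row VisW, first part (helper70): large displacements in a short time, words of the box

* `eq2X` : the event theorem for one marked leaf, ends allowed, any length;
* `fastF` : direction false; **`fastW`** : a displacement of at least `2 ^ l` in at most `y m_l` letters costs `y ^ Q`,
  with a loss exponential in the number of scales.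
-/

set_option autoImplicit false

namespace HexObs

namespace ARM

open Finset TS SDN NTW NTA

open scoped ENNReal

/-- **the event theorem for one marked leaf, ends allowed, any length** -/
theorem eq2X : ∃ (C : ℝ) (k0 : ℕ), 1 ≤ C ∧ ∀ (kc J : ℕ) (S : Set (List Bool)) (δ : ℝ), k0 ≤ kc → 6 ≤ J → 0 < δ →
    SmD DmJ kc S δ → gf (EQ2 kc J S) ≤ ENNReal.ofReal (C ^ J * δ * Ub (kc + J)) * Xb (kc + J) ^ 2 := by
  obtain ⟨Ci, δi, hI⟩ := inp_exists
  obtain ⟨C0, k0, hC0, h0⟩ := eventQ2J (ssA hI)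
  obtain ⟨D, hD, hDX⟩ := Xb_pow
  have hC0' : 0 ≤ C0 := by linarith
  have hD0 : 0 ≤ D := by linarith
  refine ⟨C0 * D ^ 16, k0, ?_, fun kc J S δ hk hJ hδ hS => ?_⟩
  · have : 1 ≤ D ^ 16 := one_le_pow₀ hD
    nlinarith
  · have hUp := Ub_pos (kc + J)
    obtain ⟨lam', hQ⟩ := QL_exists (kc + J + 8)
    have h1 : gf {t | t ∈ SA ∧ t ∈ EQ2 kc J S} ≤
        ENNReal.ofReal (C0 ^ J * δ * Ub (kc + J)) * (Xb (kc + J + 8)) ^ 2 := by
      refine gf_SA_le fun lam => (h0 kc J lam lam' S δ hk hJ hδ hQ hS).trans ?_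
      exact mul_le_mul_right (pow_le_pow_left' (bl_le_Xb _ _) 2) _
    refine (gf_mono fun t ht => ?_).trans (h1.trans ?_)
    · exact ⟨ht.1.1, ht⟩
    · calc ENNReal.ofReal (C0 ^ J * δ * Ub (kc + J)) * (Xb (kc + J + 8)) ^ 2
          ≤ ENNReal.ofReal (C0 ^ J * δ * Ub (kc + J)) * (ENNReal.ofReal (D ^ 8) * Xb (kc + J)) ^ 2 := by
            exact mul_le_mul_right (pow_le_pow_left' (hDX (kc + J) 8) 2) _
        _ = ENNReal.ofReal (C0 ^ J * D ^ 16 * δ * Ub (kc + J)) * Xb (kc + J) ^ 2 := by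
            rw [mul_pow, ← ENNReal.ofReal_pow (by positivity), ← mul_assoc, ← ENNReal.ofReal_mul (by positivity)]
            congr 2
            ring
        _ ≤ _ := by
            refine mul_le_mul_left (ENNReal.ofReal_le_ofReal ?_) _
            have e1 : D ^ 16 ≤ (D ^ 16) ^ J := by
              calc D ^ 16 = (D ^ 16) ^ 1 := by rw [pow_one]
                _ ≤ (D ^ 16) ^ J := pow_le_pow_right₀ (one_le_pow₀ hD) (by omega)
            rw [mul_pow]
            gcongr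

/-- the displacement event at one scale, direction false -/
theorem dispX : ∃ (D Kc : ℝ) (s k0 : ℕ), 1 ≤ D ∧ 1 ≤ Kc ∧ ∀ Q : ℕ, ∃ A : ℝ, 1 ≤ A ∧ ∀ (k j1 J n : ℕ) (x : ℝ), k0 ≤ k → 6 ≤ J →
    5 ≤ j1 → n * 2 ^ (k + s) ≤ 2 ^ (k + j1) → k + s ≤ k + j1 → 0 < x → x ≤ PW.mZ (2 ^ k) →
    gf (DFQ (k + j1) J x) ≤ ENNReal.ofReal (D ^ (J + j1) * (A * (x / PW.mZ (2 ^ k)) ^ Q + Kc / 4 ^ n) * Ub (k + j1 + J)) *
      Xb (k + j1 + J) ^ 2 := by
  obtain ⟨Ci, δi, hI⟩ := inp_exists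
  obtain ⟨K, s, hK, hG⟩ := cleanD hI (ssA hI) (ssThree hI) (ssBoth hI)
  obtain ⟨C1, k1, hC1, hev⟩ := eq2X
  refine ⟨64 * (8 * C1), K, s, k1 + 5, by linarith, hK, fun Q => ?_⟩
  obtain ⟨A, hA, hsh⟩ := EN.shortM_M EN.asm_M Q
  have hA0 : 0 < A := by linarith
  have hC10 : 0 < C1 := by linarith
  refine ⟨2 * A, by linarith, fun k j1 J n x hk hJ hj1 hn hks hx hxm => ?_⟩
  have hmk := mlow_M.pos k
  have hmkc := mlow_M.pos (k + j1)
  have hmm : PW.mZ (2 ^ k) ≤ PW.mZ (2 ^ (k + j1)) := EN.m_mono mlow_M (by omega)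
  have hU := Ub_pos (k + j1 + J)
  obtain ⟨y0, hy0⟩ : ∃ y0, y0 = x / PW.mZ (2 ^ (k + j1)) := ⟨_, rfl⟩
  obtain ⟨y1, hy1⟩ : ∃ y1, y1 = x / PW.mZ (2 ^ k) := ⟨_, rfl⟩
  have hy00 : 0 < y0 := by rw [hy0]; positivity
  have hy10 : 0 < y1 := by rw [hy1]; positivity
  have hy11 : y1 ≤ 1 := by
    rw [hy1, div_le_one hmk]
    exact hxm
  have hy01 : y0 ≤ y1 := by
    rw [hy0, hy1]
    exact div_le_div_of_nonneg_left hx.le hmk hmm
  have ex0 : y0 * PW.mZ (2 ^ (k + j1)) = x := by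
    rw [hy0]
    field_simp
  have ex1 : y1 * PW.mZ (2 ^ k) = x := by
    rw [hy1]
    field_simp
  have hS0 := hsh (k + j1) (J + 2) y0 hy00 (hy01.trans hy11)
  have hS1 := hsh k (J + j1 + 2) y1 hy10 hy11
  simp only [ex0] at hS0
  simp only [ex1] at hS1
  have hSG : SmD DmJ (k + j1) (NTm.GU k (k + j1) (2 ^ (k + j1 + (J + 2)))) (K * 8 ^ (J + 2) / 4 ^ n) :=
    hG (k + j1) (J + 2) n k (by omega) hn hks (by omega)
  have e0 := hev (k + j1) J _ _ (by omega) hJ (by positivity) hS0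
  have e1 := hev k (J + j1) _ _ (by omega) (by omega) (by positivity) hS1
  have e2 := hev (k + j1) J _ _ (by omega) hJ (by positivity) hSG
  rw [show k + (J + j1) = k + j1 + J by omega] at e1
  have hsub : DFQ (k + j1) J x ⊆ (EQ2 (k + j1) J (NTm.SL (k + j1) (J + 2) x) ∪ EQ2 k (J + j1) (NTm.SL k (J + j1 + 2) x)) ∪
      EQ2 (k + j1) J (NTm.GU k (k + j1) (2 ^ (k + j1 + (J + 2)))) := by
    intro t ht
    have h1 := DQ.DFQ_cover (k := k) (j1 := j1) (J := J) (lam := t.length) (x := x) ⟨⟨ht.1.1, le_rfl⟩, ht⟩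
    rcases h1 with (h1 | h1) | h1
    · exact Or.inl (Or.inl h1.2)
    · exact Or.inl (Or.inr h1.2)
    · exact Or.inr h1.2
  refine (gf_mono hsub).trans ((gf_union_le _ _).trans ((add_le_add ((gf_union_le _ _).trans (add_le_add e0 e1)) e2).trans ?_))
  rw [← add_mul, ← add_mul, ← ENNReal.ofReal_add (by positivity) (by positivity),
    ← ENNReal.ofReal_add (by positivity) (by positivity)]
  refine mul_le_mul_left (ENNReal.ofReal_le_ofReal ?_) _
  rw [← add_mul, ← add_mul]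
  refine mul_le_mul_of_nonneg_right ?_ hU.le
  rw [← hy1]
  obtain ⟨P, hP⟩ : ∃ P, P = (64 * (8 * C1)) ^ (J + j1) := ⟨_, rfl⟩
  have p1 : C1 ^ (J + j1) * 4 ^ (J + j1 + 2) ≤ P := by
    rw [hP]
    calc C1 ^ (J + j1) * 4 ^ (J + j1 + 2) = 16 * (4 * C1) ^ (J + j1) := by
          rw [mul_pow, pow_add 4 (J + j1) 2]
          ring
      _ ≤ 64 ^ (J + j1) * (8 * C1) ^ (J + j1) := by
          have h1 : (16 : ℝ) ≤ 64 ^ (J + j1) := by
            calc (16 : ℝ) ≤ 64 ^ 1 := by norm_num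
              _ ≤ 64 ^ (J + j1) := pow_le_pow_right₀ (by norm_num) (by omega)
          have h2 : (4 * C1) ^ (J + j1) ≤ (8 * C1) ^ (J + j1) := pow_le_pow_left₀ (by positivity) (by linarith) _
          exact mul_le_mul h1 h2 (by positivity) (by positivity)
      _ = _ := by rw [mul_pow 64]
  have p0 : C1 ^ J * 4 ^ (J + 2) ≤ P := by
    refine le_trans ?_ p1
    exact mul_le_mul (pow_le_pow_right₀ hC1 (by omega)) (pow_le_pow_right₀ (by norm_num) (by omega)) (by positivity)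
      (by positivity)
  have p2 : C1 ^ J * 8 ^ (J + 2) ≤ P := by
    rw [hP]
    calc C1 ^ J * 8 ^ (J + 2) = 64 * (8 * C1) ^ J := by
          rw [mul_pow, pow_add 8 J 2]
          ring
      _ ≤ 64 ^ (J + j1) * (8 * C1) ^ (J + j1) := by
          have h1 : (64 : ℝ) ≤ 64 ^ (J + j1) := by
            calc (64 : ℝ) ≤ 64 ^ 1 := by norm_num
              _ ≤ 64 ^ (J + j1) := pow_le_pow_right₀ (by norm_num) (by omega)
          have h2 : (8 * C1) ^ J ≤ (8 * C1) ^ (J + j1) := pow_le_pow_right₀ (by linarith) (by omega)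
          exact mul_le_mul h1 h2 (by positivity) (by positivity)
      _ = _ := by rw [mul_pow 64]
  have q0 : y0 ^ Q ≤ y1 ^ Q := pow_le_pow_left₀ hy00.le hy01 _
  have q1 : 0 < y1 ^ Q := by positivity
  have q2 : 0 < y0 ^ Q := by positivity
  have hP0 : 0 < P := by rw [hP]; positivity
  rw [← hP]
  calc C1 ^ J * (A * 4 ^ (J + 2) * y0 ^ Q) + C1 ^ (J + j1) * (A * 4 ^ (J + j1 + 2) * y1 ^ Q) +
        C1 ^ J * (K * 8 ^ (J + 2) / 4 ^ n)
      = A * (C1 ^ J * 4 ^ (J + 2)) * y0 ^ Q + A * (C1 ^ (J + j1) * 4 ^ (J + j1 + 2)) * y1 ^ Q +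
        K * (C1 ^ J * 8 ^ (J + 2)) / 4 ^ n := by ring
    _ ≤ A * P * y1 ^ Q + A * P * y1 ^ Q + K * P / 4 ^ n := by gcongr
    _ = P * (2 * A * y1 ^ Q + K / 4 ^ n) := by ring

end ARM

end HexObs
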