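import Pool.Agent.ARM.GlueGB
import Pool.Agent.TPC.AnO
import Pool.Agent.TPC.XUp

/-!
# ARM2, row G2 (helper26): `glueG : GlueG`, the double count over the pairs of good cuts

Every good word has at least `(κ Ub j) ^ 2` pairs of good cuts; its middle part is joinable (JoinSt), the mass of the middle
parts with prescribed outer parts is bounded by `JMass`, the outer parts by `YMassW` (with the weights for the missing length).
-/

set_option autoImplicit false

namespace HexObs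

namespace ARM

open Finset TS SDN SIM NTA TIP

open scoped ENNReal

namespace G2

/-- the numbers -/
lemma num2 {C3 C4 : ℝ} (hC3 : 0 < C3) (hC4 : 0 < C4) {κ C2 K : ℝ} (hκ : 0 < κ) (hC2 : 0 < C2) (hK : 0 < K)
    (hU : ∀ k : ℕ, Ub k ≤ C4 * 2 ^ (3 / 4 * (k : ℝ))) (n j : ℕ) :
    K * (4 ^ j * Ub j) * (max (n : ℝ) (ml j)) ^ (-(3 / 2 : ℝ)) * ((C2 * Ub j) ^ 2 * (C3 * 2 ^ (25 / 24 * (j : ℝ)))) /
      (κ * Ub j) ^ 2 ≤ (K * C2 ^ 2 * C3 * C4 / κ ^ 2) * pr n j := by
  have hUj := U_pos j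
  have hm := m_pos j
  have hB0 : 0 < max (n : ℝ) (ml j) := lt_max_of_lt_right hm
  have e1 : pr n j = 2 ^ ((43 / 24 : ℝ) * (j : ℝ)) * (4 ^ j * (max (n : ℝ) (ml j)) ^ (-(3 / 2 : ℝ))) := by
    unfold pr
    rw [Real.div_rpow hm.le hB0.le, Real.rpow_neg hB0.le, ← div_eq_mul_inv]
    have e2 : (ml j) ^ (3 / 2 : ℝ) = 4 ^ j := by
      unfold ml
      rw [← Real.rpow_mul (by norm_num), show (4 / 3 : ℝ) * (j : ℝ) * (3 / 2) = 2 * (j : ℝ) by ring,
        Real.rpow_mul (by norm_num), Real.rpow_natCast]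
      norm_num
    rw [e2]
  have e3 : (2 : ℝ) ^ ((43 / 24 : ℝ) * (j : ℝ)) = 2 ^ (3 / 4 * (j : ℝ)) * 2 ^ (25 / 24 * (j : ℝ)) := by
    rw [← Real.rpow_add (by norm_num)]
    congr 1
    ring
  obtain ⟨B, hB⟩ : ∃ B, B = (max (n : ℝ) (ml j)) ^ (-(3 / 2 : ℝ)) := ⟨_, rfl⟩
  have hBp : 0 < B := by
    rw [hB]
    positivity
  rw [e1, e3, ← hB, div_le_iff₀ (by positivity)]
  have h1 := hU j
  have h2 : (0 : ℝ) < 2 ^ (3 / 4 * (j : ℝ)) := by positivity
  have h3 : (0 : ℝ) < 2 ^ (25 / 24 * (j : ℝ)) := by positivity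
  calc K * (4 ^ j * Ub j) * B * ((C2 * Ub j) ^ 2 * (C3 * 2 ^ (25 / 24 * (j : ℝ))))
      = K * C2 ^ 2 * C3 * (4 ^ j * B * 2 ^ (25 / 24 * (j : ℝ)) * Ub j ^ 2) * Ub j := by ring
    _ ≤ K * C2 ^ 2 * C3 * (4 ^ j * B * 2 ^ (25 / 24 * (j : ℝ)) * Ub j ^ 2) * (C4 * 2 ^ (3 / 4 * (j : ℝ))) := by gcongr
    _ = _ := by
        field_simp

/-- the double sum -/
lemma dsum {GG : Set (List Bool)} {c : ℝ≥0∞} {P : List Bool → List Bool × List Bool → Prop} {g : List Bool → ℝ≥0∞}
    {K : ℝ≥0∞}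
    (h : ∀ L ∈ GG, ∃ S : Finset (ℕ × ℕ), c ≤ (S.card : ℝ≥0∞) ∧ ∀ q ∈ S, q.1 ≤ q.2 ∧ q.2 ≤ L.length ∧
      P ((L.take q.2).drop q.1) (L.take q.1, L.drop q.2))
    (hg : ∀ X Y : List Bool, wE X * wE Y * gf {M | P M (X, Y)} ≤ K * (g (rev X) * g Y)) :
    c * gf GG ≤ K * (∑' Y : List Bool, g Y) ^ 2 := by
  classical
  have h1 := dct (G := GG) (X := Set.univ) (P := P) (c := c) fun L hL => by
    obtain ⟨S, h1, h2⟩ := h L hL
    exact ⟨S, h1, fun q hq => ⟨(h2 q hq).1, (h2 q hq).2.1, Set.mem_univ _, (h2 q hq).2.2⟩⟩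
  refine h1.trans ?_
  simp only [Set.mem_univ, if_true]
  have e1 : ∀ M : List Bool, (wE M * ∑' p : {p : List Bool × List Bool | P M p},
      wE (p : List Bool × List Bool).1 * wE (p : List Bool × List Bool).2) =
      ∑' p : List Bool × List Bool, if P M p then wE M * (wE p.1 * wE p.2) else 0 := by
    intro M
    rw [_root_.tsum_subtype {p : List Bool × List Bool | P M p} (fun p => wE p.1 * wE p.2),
      ← ENNReal.tsum_mul_left]
    refine tsum_congr fun p => ?_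
    by_cases hp : P M p
    · rw [if_pos hp, Set.indicator_of_mem (show p ∈ {p : List Bool × List Bool | P M p} from hp)]
    · rw [if_neg hp, Set.indicator_of_notMem (show p ∉ {p : List Bool × List Bool | P M p} from hp), mul_zero]
  rw [tsum_congr e1, ENNReal.tsum_comm]
  have e2 : ∀ p : List Bool × List Bool, (∑' M : List Bool, if P M p then wE M * (wE p.1 * wE p.2) else 0) =
      wE p.1 * wE p.2 * gf {M | P M p} := by
    intro p
    rw [gf_ind, ← ENNReal.tsum_mul_left]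
    refine tsum_congr fun M => ?_
    by_cases hp : P M p
    · rw [if_pos hp, if_pos (show M ∈ {M | P M p} from hp), mul_comm]
    · rw [if_neg hp, if_neg (show M ∉ {M | P M p} from hp), mul_zero]
  rw [tsum_congr e2]
  calc ∑' p : List Bool × List Bool, wE p.1 * wE p.2 * gf {M | P M p}
      ≤ ∑' p : List Bool × List Bool, K * (g (rev p.1) * g p.2) := ENNReal.tsum_le_tsum fun p => hg p.1 p.2
    _ = K * (∑' X : List Bool, g (rev X)) * ∑' Y : List Bool, g Y := by
        rw [ENNReal.tsum_mul_left, ENNReal.tsum_prod']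
        have : ∀ X : List Bool, ∑' Y : List Bool, g (rev X) * g Y = g (rev X) * ∑' Y : List Bool, g Y :=
          fun X => ENNReal.tsum_mul_left
        rw [tsum_congr this, ENNReal.tsum_mul_right, mul_assoc]
    _ = _ := by
        have e3 : (∑' X : List Bool, g (rev X)) = ∑' Y : List Bool, g Y :=
          (Function.Involutive.toPerm rev rev_rev).tsum_eq g
        rw [e3, pow_two, mul_assoc]

/-- **row G2** -/
theorem glueG : GlueG := by
  classical
  intro hJoin hJM hY η κ a m hη hκ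
  obtain ⟨k, c0, hJoin⟩ := hJoin η κ a m hη hκ
  refine ⟨k, max c0 (m + 5), fun c u e hc hcu hke => ?_⟩
  obtain ⟨H0, hH0, hJM⟩ := hJM
  obtain ⟨Mx, sx, b1, hJoin⟩ := hJoin c u e ((le_max_left _ _).trans hc) hcu hke H0 hH0
  obtain ⟨C1, k0, hC1, hJM⟩ := hJM H0 le_rfl Mx
  obtain ⟨C2, hC2, hY⟩ := hY η m 2 hη
  obtain ⟨C3, hC3, hX⟩ := TPC.xUp
  obtain ⟨c4, C4, -, hC4, hU⟩ := TPC.An.Ub_two
  have hu : m + 5 ≤ u := (le_max_right _ _).trans (hc.trans hcu)
  obtain ⟨K0, hK0⟩ : ∃ K0 : ℝ, K0 = (((sx + 1) * ((Mx + 1) * (Mx * 6 ^ Mx)) : ℕ) : ℝ) * ((2 * 4 ^ sx + 1) * (C1 * 8 ^ sx)) + 1 :=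
    ⟨_, rfl⟩
  have hK1 : (((sx + 1) * ((Mx + 1) * (Mx * 6 ^ Mx)) : ℕ) : ℝ) * ((2 * 4 ^ sx + 1) * (C1 * 8 ^ sx)) ≤ K0 := by
    rw [hK0]
    linarith
  have hKp : 0 < K0 := by
    rw [hK0]
    positivity
  refine ⟨K0 * C2 ^ 2 * C3 * C4 / κ ^ 2, max b1 (k0 + sx), by positivity, fun n j hj hn => ?_⟩
  have hj1 : b1 ≤ j := (le_max_left _ _).trans hj
  have hj2 : k0 + sx ≤ j := (le_max_right _ _).trans hj
  have hm := m_pos j
  have hm1 := m_one j
  have hUj := U_pos j
  have hn1 : 2 ^ b1 * ml j ≤ n := by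
    refine le_trans ?_ hn
    have : (2 : ℝ) ^ b1 ≤ 2 ^ max b1 (k0 + sx) := pow_le_pow_right₀ (by norm_num) (le_max_left _ _)
    gcongr
  have hn0 : 1 ≤ n := by
    have h1 : (1 : ℝ) ≤ 2 ^ max b1 (k0 + sx) := one_le_pow₀ (by norm_num)
    have h2 : (1 : ℝ) ≤ n := by nlinarith
    exact_mod_cast h2
  obtain ⟨DD, hDD, hJoin⟩ := hJoin j hj1
  have hJoin := hJoin n hn1
  -- the class of the outer parts and its weight
  obtain ⟨YY, hYY⟩ : ∃ YY : Set (List Bool), YY = {Y | Y ∈ SA ∧ rev Y ∈ GT j η ∧ In (2 ^ (j + m)) Y} := ⟨_, rfl⟩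
  obtain ⟨g, hg⟩ : ∃ g : List Bool → ℝ≥0∞, g = fun Y => if Y ∈ YY then
    wE Y * ENNReal.ofReal ((1 + (Y.length : ℝ) / ml j) ^ 2) else 0 := ⟨_, rfl⟩
  have hgs : ∑' Y : List Bool, g Y ≤ ENNReal.ofReal (C2 * Ub j) * Xb j := by
    refine le_trans (le_of_eq ?_) (hY j)
    rw [← hYY, _root_.tsum_subtype YY (fun Y => wE Y * ENNReal.ofReal ((1 + (Y.length : ℝ) / ml j) ^ 2))]
    refine tsum_congr fun Y => ?_
    rw [hg, Set.indicator_apply]
  obtain ⟨B, hB⟩ : ∃ B, B = (max (n : ℝ) (ml j)) ^ (-(3 / 2 : ℝ)) := ⟨_, rfl⟩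
  have hBp : 0 < B := by
    have hB0 : 0 < max (n : ℝ) (ml j) := lt_max_of_lt_right hm
    rw [hB]
    positivity
  have key : ENNReal.ofReal ((κ * Ub j) ^ 2) * gf (GF n j η κ a m c u e k) ≤
      ENNReal.ofReal (K0 * (4 ^ j * Ub j) * B) * (∑' Y : List Bool, g Y) ^ 2 := by
    refine dsum (P := fun M p => p.1 ++ (M ++ p.2) ∈ GF n j η κ a m c u e k ∧ CutP j a m η p.1 M p.2) ?_ ?_
    · intro L hL
      obtain ⟨S, h1, h2⟩ := pairs hκ hu hn0 hL
      refine ⟨S, h1, fun q hq => ?_⟩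
      obtain ⟨h3, h4, h5⟩ := h2 q hq
      refine ⟨h3, h4, ?_, h5⟩
      have h6 : L.take q.1 = (L.take q.2).take q.1 := by rw [List.take_take, min_eq_left h3]
      show L.take q.1 ++ ((L.take q.2).drop q.1 ++ L.drop q.2) ∈ GF n j η κ a m c u e k
      rw [← List.append_assoc, h6, List.take_append_drop, List.take_append_drop]
      exact hL
    · intro X Y
      by_cases hne : ∃ M, X ++ (M ++ Y) ∈ GF n j η κ a m c u e k ∧ CutP j a m η X M Y
      · obtain ⟨M0, hM0, hc0⟩ := hne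
        have hSA : X ++ (M0 ++ Y) ∈ SA := hM0.1.1
        have hYm : Y ∈ YY := by
          rw [hYY]
          exact ⟨TIP.Nf.SA_suf (TIP.Nf.SA_suf hSA), hc0.1.1, hc0.1.2.1⟩
        have hlenM : 1 ≤ (M0 ++ Y).length := by
          by_contra hlt
          have h0 : M0 ++ Y = [] := List.length_eq_zero_iff.1 (by omega)
          obtain ⟨s, hs, hfar⟩ := hM0.2.1
          rw [h0, List.append_nil] at hs hfar
          have h1 := near_start (D := 2 ^ (j + m)) (L := X) (q := X.length) (s := s)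
            (by rw [List.take_length]; exact hc0.2.2.1) hs le_rfl
          have h2 := near_start (D := 2 ^ (j + m)) (L := X) (q := X.length) (s := X.length)
            (by rw [List.take_length]; exact hc0.2.2.1) le_rfl le_rfl
          have h3 : dz X s ≤ TIW.hn (vx oo up X s) + TIW.hn (vx oo up X X.length) := TIW.hn_sub _ _
          have e1 : (2 : ℤ) ^ (j + u) = 2 ^ (j + m + 5) * 2 ^ (u - (m + 5)) := by
            rw [← pow_add]
            congr 1
            omega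
          have e2 : (1 : ℤ) ≤ 2 ^ (u - (m + 5)) := one_le_pow₀ (by norm_num)
          have e3 : (2 : ℤ) ^ (j + m + 5) = 32 * 2 ^ (j + m) := by ring
          have e5 : (1 : ℤ) ≤ 2 ^ (j + m) := one_le_pow₀ (by norm_num)
          rw [e1, e3] at hfar
          push_cast at h1 h2
          nlinarith
        have hXm : rev X ∈ YY := by
          rw [hYY]
          refine ⟨?_, by rw [rev_rev]; exact hc0.2.1, hc0.2.2.1⟩
          have h1 : rv (X ++ (M0 ++ Y)) ∈ SA := RevM.rev_SA hSA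
          have h2 : rv (X ++ (M0 ++ Y)) = (rev (M0 ++ Y)).drop 1 ++ rev X := by
            unfold rv
            rw [rev_app, List.drop_append_of_le_length (by rw [rev_length]; exact hlenM)]
          rw [h2] at h1
          exact TIP.Nf.SA_suf h1
        have hbd : gf {M | X ++ (M ++ Y) ∈ GF n j η κ a m c u e k ∧ CutP j a m η X M Y} ≤
            ENNReal.ofReal (K0 * (4 ^ j * Ub j) * B) * (ENNReal.ofReal ((1 + (X.length : ℝ) / ml j) ^ 2) *
              ENNReal.ofReal ((1 + (Y.length : ℝ) / ml j) ^ 2)) := by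
          have h1 := mid_mass (H := H0) (Mx := Mx) (sx := sx) (k0 := k0) hC1
            (fun k r n D E hk h2 h3 h4 h5 h6 h7 => hJM k r n D E hk h2 h3 h4 h5 h6 h7) hj2 hDD
            (Q := {M | X ++ (M ++ Y) ∈ GF n j η κ a m c u e k ∧ CutP j a m η X M Y}) (N := n - (X.length + Y.length)) ?_
          · refine h1.trans ?_
            rw [← ENNReal.ofReal_mul (by positivity), ← ENNReal.ofReal_mul (by positivity)]
            refine ENNReal.ofReal_le_ofReal ?_
            have h2 := num1 n X.length Y.length j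
            rw [← hB] at h2
            obtain ⟨W, hW⟩ : ∃ W : ℝ, W = (1 + (X.length : ℝ) / ml j) ^ 2 * (1 + (Y.length : ℝ) / ml j) ^ 2 := ⟨_, rfl⟩
            have hW0 : 0 ≤ W := by
              rw [hW]
              positivity
            rw [← hW] at h2 ⊢
            calc (((sx + 1) * ((Mx + 1) * (Mx * 6 ^ Mx)) : ℕ) : ℝ) * ((2 * 4 ^ sx + 1) * (C1 * (4 ^ j * Ub j) *
                  (8 ^ sx * (max ((n - (X.length + Y.length) : ℕ) : ℝ) (ml j)) ^ (-(3 / 2 : ℝ)))))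
                ≤ (((sx + 1) * ((Mx + 1) * (Mx * 6 ^ Mx)) : ℕ) : ℝ) * ((2 * 4 ^ sx + 1) * (C1 * (4 ^ j * Ub j) *
                  (8 ^ sx * (B * W)))) := by gcongr
              _ = (((sx + 1) * ((Mx + 1) * (Mx * 6 ^ Mx)) : ℕ) : ℝ) * ((2 * 4 ^ sx + 1) * (C1 * 8 ^ sx)) *
                  (4 ^ j * Ub j) * B * W := by ring
              _ ≤ K0 * (4 ^ j * Ub j) * B * W := by gcongr
          · intro M hM
            obtain ⟨hM1, hM2⟩ := hM
            obtain ⟨k', r, D, E, hD, c1, c2, c3, c4, c5, c6, c7, c8, -, c9⟩ := hJoin X M Y hM1 hM2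
            have h2 : n ≤ (X ++ (M ++ Y)).length := hM1.1.2.1
            have h3 : ((X ++ (M ++ Y)).length : ℝ) < n + ml j := hM1.1.2.2.1
            rw [List.length_append, List.length_append] at h2 h3
            refine ⟨by omega, ?_, k', r, D, E, hD, ⟨c1, c2, c3, c4, by omega, c6, c7, c8⟩, c9⟩
            have h4 : (n : ℝ) ≤ ((n - (X.length + Y.length) : ℕ) : ℝ) + (X.length + Y.length) := by
              exact_mod_cast (by omega : n ≤ n - (X.length + Y.length) + (X.length + Y.length))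
            push_cast at h3
            linarith
        rw [hg]
        simp only
        rw [if_pos hXm, if_pos hYm, rev_length]
        have e1 : wE (rev X) = wE X := by
          unfold wE
          rw [rev_length]
        rw [e1]
        calc wE X * wE Y * gf {M | X ++ (M ++ Y) ∈ GF n j η κ a m c u e k ∧ CutP j a m η X M Y}
            ≤ wE X * wE Y * (ENNReal.ofReal (K0 * (4 ^ j * Ub j) * B) * (ENNReal.ofReal ((1 + (X.length : ℝ) / ml j) ^ 2) *
              ENNReal.ofReal ((1 + (Y.length : ℝ) / ml j) ^ 2))) := mul_le_mul_right hbd _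
          _ = _ := by ring
      · have h0 : gf {M | X ++ (M ++ Y) ∈ GF n j η κ a m c u e k ∧ CutP j a m η X M Y} = 0 := by
          have : {M | X ++ (M ++ Y) ∈ GF n j η κ a m c u e k ∧ CutP j a m η X M Y} = ∅ := by
            ext M
            simp only [Set.mem_setOf_eq, Set.mem_empty_iff_false, iff_false]
            exact fun h => hne ⟨M, h⟩
          rw [this]
          unfold gf
          simp
        show wE X * wE Y * gf {M | X ++ (M ++ Y) ∈ GF n j η κ a m c u e k ∧ CutP j a m η X M Y} ≤ _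
        rw [h0, mul_zero]
        exact zero_le
  have h2 : ENNReal.ofReal ((κ * Ub j) ^ 2) * gf (GF n j η κ a m c u e k) ≤
      ENNReal.ofReal (K0 * (4 ^ j * Ub j) * B * ((C2 * Ub j) ^ 2 * (C3 * 2 ^ (25 / 24 * (j : ℝ))))) := by
    refine key.trans ?_
    rw [ENNReal.ofReal_mul (by positivity : (0 : ℝ) ≤ K0 * (4 ^ j * Ub j) * B)]
    refine mul_le_mul_right ?_ (ENNReal.ofReal (K0 * (4 ^ j * Ub j) * B))
    calc (∑' Y : List Bool, g Y) ^ 2 ≤ (ENNReal.ofReal (C2 * Ub j) * Xb j) ^ 2 := pow_le_pow_left' hgs 2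
      _ = ENNReal.ofReal ((C2 * Ub j) ^ 2) * Xb j ^ 2 := by rw [mul_pow, ENNReal.ofReal_pow (by positivity)]
      _ ≤ ENNReal.ofReal ((C2 * Ub j) ^ 2) * ENNReal.ofReal (C3 * 2 ^ (25 / 24 * (j : ℝ))) := mul_le_mul_right (hX j) _
      _ = _ := by rw [← ENNReal.ofReal_mul (by positivity)]
  have h3 : gf (GF n j η κ a m c u e k) ≤ ENNReal.ofReal (K0 * (4 ^ j * Ub j) * B * ((C2 * Ub j) ^ 2 *
      (C3 * 2 ^ (25 / 24 * (j : ℝ)))) / (κ * Ub j) ^ 2) := by
    have hp : 0 < (κ * Ub j) ^ 2 := by positivity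
    rw [ENNReal.ofReal_div_of_pos hp, ENNReal.le_div_iff_mul_le (Or.inl (ENNReal.ofReal_pos.2 hp).ne') (Or.inl ENNReal.ofReal_ne_top),
      mul_comm]
    exact h2
  refine h3.trans (ENNReal.ofReal_le_ofReal ?_)
  rw [hB]
  exact num2 hC3 hC4 hκ hC2 hKp (fun k => (hU k).2) n j

end G2

end ARM

end HexObs
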