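import Pool.Agent.ARM.DefsG
import Pool.Agent.ARM.ExC
import Pool.Agent.TIP.RevM

/-!
# ARM2, row G2 (helper26), part A: the pairs of good cuts of a good word

* `cuts_end`, `cuts_start` : positions of the good cuts near the end and near the start;
* `pairs` : a word of `GF` has at least `(κ Ub j) ^ 2` pairs of cuts `q1 ≤ q2` with `CutP`.
-/

set_option autoImplicit false

namespace HexObs

namespace ARM

open Finset TS SDN SIM NTA TIP

open scoped ENNReal

namespace G2

lemma rev_app (a b : List Bool) : rev (a ++ b) = rev b ++ rev a := by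
  unfold rev
  rw [List.map_append, List.reverse_append]

/-- the cuts near the end -/
lemma cuts_end (j a m : ℕ) (η : ℝ) (L : List Bool) : ∃ S : Finset ℕ, gc j a m η L ≤ (S.card : ℝ) ∧
    ∀ q ∈ S, q ≤ L.length ∧ rev (L.drop q) ∈ GT j η ∧ In (2 ^ (j + m)) (L.drop q) ∧ FreeT (2 ^ (j - a)) (L.take q) := by
  classical
  refine ⟨(range (L.length + 1)).filter fun k => rev (L.drop k) ∈ GT j η ∧ In (2 ^ (j + m)) (L.drop k) ∧
    FreeT (2 ^ (j - a)) (L.take k), ?_, fun q hq => ?_⟩
  · unfold gc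
    refine Nat.cast_le.2 (le_trans ?_ (card_image_le (f := fun k => L.drop k)))
    rw [← Set.ncard_coe_finset]
    refine Set.ncard_le_ncard (fun Y hY => ?_) (Finset.finite_toSet _)
    obtain ⟨h1, h2, A, rfl, h3⟩ := hY
    rw [mem_coe, mem_image]
    refine ⟨A.length, ?_, by simp⟩
    rw [mem_filter, mem_range, List.take_left' rfl, List.drop_left' rfl, List.length_append]
    exact ⟨by omega, h1, h2, h3⟩
  · rw [mem_filter, mem_range] at hq
    exact ⟨by omega, hq.2.1, hq.2.2.1, hq.2.2.2⟩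

lemma rv_split {L : List Bool} {q : ℕ} (h : q < L.length) :
    (rv L).take (L.length - 1 - q) = rv (L.drop q) ∧ (rv L).drop (L.length - 1 - q) = rev (L.take q) := by
  have h1 : (rev (L.drop q)).length = L.length - q := by rw [rev_length, List.length_drop]
  have h2 : rv L = rv (L.drop q) ++ rev (L.take q) := by
    unfold rv
    conv_lhs => rw [← List.take_append_drop q L]
    rw [rev_app, List.drop_append_of_le_length (by omega)]
  have h3 : (rv (L.drop q)).length = L.length - 1 - q := by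
    unfold rv
    rw [List.length_drop, h1]
    omega
  rw [h2]
  exact ⟨List.take_left' h3, List.drop_left' h3⟩

/-- the cuts near the start -/
lemma cuts_start (j a m : ℕ) (η : ℝ) {L : List Bool} (hL : 1 ≤ L.length) :
    ∃ S : Finset ℕ, gc j a m η (rv L) ≤ (S.card : ℝ) ∧ ∀ q ∈ S, q < L.length ∧ L.take q ∈ GT j η ∧
      In (2 ^ (j + m)) (rev (L.take q)) ∧ FreeT (2 ^ (j - a)) (rv (L.drop q)) := by
  classical
  obtain ⟨S, hS, hq⟩ := cuts_end j a m η (rv L)
  have hlen : (rv L).length = L.length - 1 := by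
    unfold rv
    rw [List.length_drop, rev_length]
  have hinj : Set.InjOn (fun q => L.length - 1 - q) (S : Set ℕ) := by
    intro q h1 q' h2 he
    have h3 := (hq q h1).1
    have h4 := (hq q' h2).1
    simp only at he
    omega
  refine ⟨S.image fun q => L.length - 1 - q, by rw [card_image_of_injOn hinj]; exact hS, fun p hp => ?_⟩
  obtain ⟨q, hqS, rfl⟩ := mem_image.1 hp
  obtain ⟨h1, h2, h3, h4⟩ := hq q hqS
  have hlt : L.length - 1 - q < L.length := by omega
  obtain ⟨e1, e2⟩ := rv_split hlt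
  rw [show L.length - 1 - (L.length - 1 - q) = q by omega] at e1 e2
  rw [e2] at h2 h3
  rw [e1] at h4
  rw [rev_rev] at h2
  exact ⟨hlt, h2, h3, h4⟩

/-- the vertices of the first part are near the start -/
lemma near_start {D : ℕ} {L : List Bool} {q s : ℕ} (h : In D (rev (L.take q))) (hs : s ≤ q) (hq : q ≤ L.length) :
    TIW.hn (vx oo up L s) ≤ 6 * D + 4 := by
  have hX : (L.take q).length = q := by rw [List.length_take, min_eq_left hq]
  have e1 : vx oo up L s = vx oo up (L.take q) s := by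
    conv_lhs => rw [← List.take_append_drop q L]
    exact vx_append (by omega)
  rw [e1]
  rcases Nat.eq_zero_or_pos s with h0 | h0
  · rw [h0]
    have : TIW.hn (vx oo up (L.take q) 0) = 0 := by
      have h : vx oo up (L.take q) 0 = oo := rfl
      rw [h]
      decide
    rw [this]
    positivity
  obtain ⟨c, hc, hf⟩ := RevM.rev_frame (L.take q)
  rw [hX] at hf
  have hc' := mem_dirs.1 hc
  have key : ∀ t, 1 ≤ t → t ≤ q → TIW.hn (vx oo up (L.take q) t - vx oo up (L.take q) (q + 1)) ≤ 3 * D := by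
    intro t ht1 ht2
    have h1 := hf (q + 1 - t) (by omega)
    rw [show q + 1 - (q + 1 - t) = t by omega] at h1
    rw [h1, add_sub_cancel_left, TIW.hn_mulE hc']
    exact TIW.hn_le_Bl (h (q + 1 - t) (by rw [rev_length, hX]; omega))
  have h2 := key s h0 hs
  have h3 := key 1 le_rfl (by omega)
  have h4 : TIW.hn (vx oo up (L.take q) 1) ≤ 2 := by
    have h : vx oo up (L.take q) 1 = oo + up := rfl
    rw [h]
    decide
  have e2 : vx oo up (L.take q) s = (vx oo up (L.take q) s - vx oo up (L.take q) (q + 1)) -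
      (vx oo up (L.take q) 1 - vx oo up (L.take q) (q + 1)) + vx oo up (L.take q) 1 := by abel
  rw [e2]
  have h5 := TIW.hn_add ((vx oo up (L.take q) s - vx oo up (L.take q) (q + 1)) -
      (vx oo up (L.take q) 1 - vx oo up (L.take q) (q + 1))) (vx oo up (L.take q) 1)
  have h6 := TIW.hn_sub (vx oo up (L.take q) s - vx oo up (L.take q) (q + 1))
      (vx oo up (L.take q) 1 - vx oo up (L.take q) (q + 1))
  linarith

/-- the vertices of the last part are near the end -/
lemma near_end {D : ℕ} {L : List Bool} {q s : ℕ} (hq : q ≤ L.length) (h : In D (L.drop q)) (hs : q ≤ s)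
    (hs' : s ≤ L.length) : dz L s ≤ 6 * D := by
  obtain ⟨i, rfl⟩ : ∃ i, s = q + i := ⟨s - q, by omega⟩
  have hX : (L.take q).length = q := by rw [List.length_take, min_eq_left hq]
  have hY : (L.drop q).length = L.length - q := List.length_drop
  have e1 := TIW.vx_app (L.take q) (L.drop q) i
  have e2 := TIW.vx_app (L.take q) (L.drop q) (L.length - q)
  rw [List.take_append_drop, hX] at e1 e2
  rw [show q + (L.length - q) = L.length by omega] at e2
  unfold dz TIW.en
  rw [e1, e2, add_sub_add_left_eq_sub, ← mulE_sub, TIW.hn_mulE (TIW.nrm_rt _)]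
  have h1 := TIW.hn_sub (vx oo up (L.drop q) i) (vx oo up (L.drop q) (L.length - q))
  have h2 := TIW.hn_le_Bl (h i (by omega))
  have h3 := TIW.hn_le_Bl (h (L.length - q) (by omega))
  linarith

/-- **a good word has many pairs of cuts** -/
theorem pairs {n j : ℕ} {η κ : ℝ} {a m c u e k : ℕ} (hκ : 0 < κ) (hu : m + 5 ≤ u) (hn : 1 ≤ n) {L : List Bool}
    (hL : L ∈ GF n j η κ a m c u e k) : ∃ S : Finset (ℕ × ℕ), ENNReal.ofReal ((κ * Ub j) ^ 2) ≤ (S.card : ℝ≥0∞) ∧
      ∀ q ∈ S, q.1 ≤ q.2 ∧ q.2 ≤ L.length ∧ CutP j a m η (L.take q.1) ((L.take q.2).drop q.1) (L.drop q.2) := by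
  obtain ⟨hF, ⟨s, hs, hfar⟩, hT⟩ := hL
  obtain ⟨hSA, hlen, -, hend⟩ := hF
  rw [sub_zero] at hend
  have hL1 : 1 ≤ L.length := hn.trans hlen
  obtain ⟨S1, hS1, hq1⟩ := cuts_start j a m η hL1
  obtain ⟨S2, hS2, hq2⟩ := cuts_end j a m η L
  have h1 := (hT L (Or.inl rfl)).1.trans hS2
  have h2 := (hT (rv L) (Or.inr rfl)).1.trans hS1
  have hU : 0 ≤ κ * Ub j := by
    have := Num2Aux.UU_pos (2 ^ j)
    unfold Ub
    positivity
  have hbig : (6 : ℤ) * ((2 ^ (j + m) : ℕ) : ℤ) + 4 + 2 ^ j < 2 ^ (j + u) := by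
    have e1 : (2 : ℤ) ^ (j + u) = 2 ^ (j + m + 5) * 2 ^ (u - (m + 5)) := by
      rw [← pow_add]
      congr 1
      omega
    have e2 : (1 : ℤ) ≤ 2 ^ (u - (m + 5)) := one_le_pow₀ (by norm_num)
    have e3 : (2 : ℤ) ^ (j + m + 5) = 32 * 2 ^ (j + m) := by ring
    have e4 : (2 : ℤ) ^ j ≤ 2 ^ (j + m) := pow_le_pow_right₀ (by norm_num) (by omega)
    have e5 : (1 : ℤ) ≤ 2 ^ (j + m) := one_le_pow₀ (by norm_num)
    rw [e1, e3]
    push_cast
    nlinarith
  refine ⟨S1 ×ˢ S2, ?_, fun q hq => ?_⟩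
  · rw [card_product]
    have e : ((S1.card * S2.card : ℕ) : ℝ≥0∞) = ENNReal.ofReal ((S1.card : ℝ) * S2.card) := by
      rw [← Nat.cast_mul, ENNReal.ofReal_natCast]
    rw [e]
    refine ENNReal.ofReal_le_ofReal ?_
    rw [pow_two]
    exact mul_le_mul h2 h1 hU (hU.trans h2)
  · rw [mem_product] at hq
    obtain ⟨a1, a2, a3, a4⟩ := hq1 q.1 hq.1
    obtain ⟨b1, b2, b3, b4⟩ := hq2 q.2 hq.2
    have hlt1 : q.1 < s := by
      by_contra hc
      have h3 := near_start a3 (not_lt.1 hc) a1.le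
      have h4 : dz L s ≤ TIW.hn (vx oo up L s) + TIW.hn (TIW.en L) := TIW.hn_sub _ _
      linarith
    have hlt2 : s < q.2 := by
      by_contra hc
      have h3 := near_end b1 b3 (not_lt.1 hc) hs
      have h5 : (0 : ℤ) < 2 ^ j := by positivity
      linarith
    have hle : q.1 ≤ q.2 := by omega
    have hcat : L.take q.1 ++ (L.take q.2).drop q.1 = L.take q.2 := by
      have h3 : L.take q.1 = (L.take q.2).take q.1 := by rw [List.take_take, min_eq_left hle]
      rw [h3, List.take_append_drop]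
    have hcat2 : (L.take q.2).drop q.1 ++ L.drop q.2 = L.drop q.1 := by
      conv_rhs => rw [← List.take_append_drop q.2 L]
      rw [List.drop_append_of_le_length (by rw [List.length_take]; omega)]
    refine ⟨hle, b1, ⟨b2, b3, ?_⟩, a2, a3, ?_⟩
    · rw [hcat]
      exact b4
    · rw [hcat2]
      exact a4

end G2

end ARM

end HexObs
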