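import Pool.Agent.ARM.GlueGA

/-!
# ARM2, row G2 (helper26), part B: the mass of the middle parts with prescribed outer parts

* `num1` : a missing length in the negative power; `win` : a window of `ml j` by windows of `ml k`;
* `mid_mass` : union bound over the scale, the number of steps, the mesh and the directions.
-/

set_option autoImplicit false

namespace HexObs

namespace ARM

open Finset TS SDN SIM NTA TIP

open scoped ENNReal

namespace G2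

lemma m_pos (i : ℕ) : 0 < ml i := Real.rpow_pos_of_pos (by norm_num) _

lemma m_one (i : ℕ) : 1 ≤ ml i := Real.one_le_rpow (by norm_num) (by positivity)

lemma m_up {k j s : ℕ} (h : j ≤ k + s) : ml j ≤ 4 ^ s * ml k := by
  have h4 : (4 : ℝ) ^ s = (2 : ℝ) ^ (2 * (s : ℝ)) := by
    rw [Real.rpow_mul (by norm_num), Real.rpow_natCast]
    norm_num
  rw [h4]
  unfold ml
  rw [← Real.rpow_add (by norm_num)]
  apply Real.rpow_le_rpow_of_exponent_le (by norm_num)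
  have h1 : (j : ℝ) ≤ k + s := by exact_mod_cast h
  have h2 : (0 : ℝ) ≤ s := Nat.cast_nonneg s
  linarith

lemma U_pos (j : ℕ) : 0 < Ub j := by
  have := Num2Aux.UU_pos (2 ^ j)
  unfold Ub
  exact this

lemma four_pow (s : ℕ) : ((4 : ℝ) ^ s) ^ (3 / 2 : ℝ) = 8 ^ s := by
  rw [← Real.rpow_natCast 4 s, ← Real.rpow_mul (by norm_num), mul_comm, Real.rpow_mul (by norm_num), Real.rpow_natCast]
  congr 1
  rw [show (4 : ℝ) = 2 ^ (2 : ℝ) by norm_num, ← Real.rpow_mul (by norm_num)]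
  norm_num

/-- a missing length -/
lemma num1 (n x y j : ℕ) : (max ((n - (x + y) : ℕ) : ℝ) (ml j)) ^ (-(3 / 2 : ℝ)) ≤
    (max (n : ℝ) (ml j)) ^ (-(3 / 2 : ℝ)) * ((1 + (x : ℝ) / ml j) ^ 2 * (1 + (y : ℝ) / ml j) ^ 2) := by
  have hm := m_pos j
  have hx : (0 : ℝ) ≤ (x : ℝ) / ml j := by positivity
  have hy : (0 : ℝ) ≤ (y : ℝ) / ml j := by positivity
  obtain ⟨A, hA⟩ : ∃ A, A = max ((n - (x + y) : ℕ) : ℝ) (ml j) := ⟨_, rfl⟩
  obtain ⟨B, hB⟩ : ∃ B, B = max (n : ℝ) (ml j) := ⟨_, rfl⟩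
  obtain ⟨w, hw⟩ : ∃ w, w = (1 + (x : ℝ) / ml j) * (1 + (y : ℝ) / ml j) := ⟨_, rfl⟩
  have hA0 : 0 < A := by rw [hA]; exact lt_max_of_lt_right hm
  have hB0 : 0 < B := by rw [hB]; exact lt_max_of_lt_right hm
  have hw1 : 1 ≤ w := by
    rw [hw]
    nlinarith [mul_nonneg hx hy]
  have hw0 : 0 < w := by linarith
  have hmA : ml j ≤ A := by rw [hA]; exact le_max_right _ _
  have h1 : B ≤ A * w := by
    rw [hB]
    refine max_le ?_ ?_
    · have e : (n : ℝ) ≤ ((n - (x + y) : ℕ) : ℝ) + (x + y) := by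
        exact_mod_cast (by omega : n ≤ n - (x + y) + (x + y))
      have e1 : ((n - (x + y) : ℕ) : ℝ) ≤ A := by rw [hA]; exact le_max_left _ _
      have e2 : (x : ℝ) ≤ A * ((x : ℝ) / ml j) := by
        calc (x : ℝ) = ml j * ((x : ℝ) / ml j) := by field_simp
          _ ≤ _ := by gcongr
      have e3 : (y : ℝ) ≤ A * ((y : ℝ) / ml j) := by
        calc (y : ℝ) = ml j * ((y : ℝ) / ml j) := by field_simp
          _ ≤ _ := by gcongr
      rw [hw]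
      nlinarith [mul_nonneg hA0.le (mul_nonneg hx hy)]
    · nlinarith
  have h2 : A ^ (-(3 / 2 : ℝ)) ≤ (B / w) ^ (-(3 / 2 : ℝ)) := by
    apply Real.rpow_le_rpow_of_nonpos (by positivity)
    · rw [div_le_iff₀ hw0]
      exact h1
    · norm_num
  have h3 : (B / w) ^ (-(3 / 2 : ℝ)) = B ^ (-(3 / 2 : ℝ)) * w ^ (3 / 2 : ℝ) := by
    rw [Real.div_rpow hB0.le hw0.le, Real.rpow_neg hw0.le, div_inv_eq_mul]
  have h4 : w ^ (3 / 2 : ℝ) ≤ w ^ 2 := by
    rw [← Real.rpow_natCast w 2]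
    apply Real.rpow_le_rpow_of_exponent_le hw1
    norm_num
  rw [← hA, ← hB, ← mul_pow, ← hw]
  refine h2.trans (h3.le.trans ?_)
  have : 0 ≤ B ^ (-(3 / 2 : ℝ)) := by positivity
  gcongr

/-- a window of `ml j` by windows of `ml k` -/
lemma win {Q : Set (List Bool)} {C : ℝ} {k j sx : ℕ} (hC : 0 < C) (hk : k ≤ j) (hj : j ≤ k + sx)
    (h : ∀ n' : ℕ, gf {M | M ∈ Q ∧ n' ≤ M.length ∧ (M.length : ℝ) < n' + ml k} ≤
      ENNReal.ofReal (C * (4 ^ k * Ub k) * (max (n' : ℝ) (ml k)) ^ (-(3 / 2 : ℝ)))) (N : ℕ) :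
    gf {M | M ∈ Q ∧ N ≤ M.length ∧ (M.length : ℝ) < N + ml j} ≤
      ENNReal.ofReal ((2 * 4 ^ sx + 1) * (C * (4 ^ j * Ub j) * (8 ^ sx * (max (N : ℝ) (ml j)) ^ (-(3 / 2 : ℝ))))) := by
  classical
  have hm := m_pos k
  have hm1 := m_one k
  obtain ⟨s, hs⟩ : ∃ s, s = ⌊ml k⌋₊ := ⟨_, rfl⟩
  have hs1 : 1 ≤ s := by
    rw [hs]
    exact Nat.le_floor (by exact_mod_cast hm1)
  have hs2 : (s : ℝ) ≤ ml k := by
    rw [hs]
    exact Nat.floor_le hm.le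
  have hs3 : ml k ≤ 2 * (s : ℝ) := by
    have h1 : ml k < (s : ℝ) + 1 := by
      rw [hs]
      exact Nat.lt_floor_add_one _
    have h2 : (1 : ℝ) ≤ s := by exact_mod_cast hs1
    linarith
  have hcov : {M | M ∈ Q ∧ N ≤ M.length ∧ (M.length : ℝ) < N + ml j} ⊆
      ⋃ t ∈ range (2 * 4 ^ sx + 1), {M | M ∈ Q ∧ N + t * s ≤ M.length ∧ (M.length : ℝ) < ((N + t * s : ℕ) : ℝ) + ml k} := by
    intro M hM
    obtain ⟨h1, h2, h3⟩ := hM
    simp only [Set.mem_iUnion, exists_prop]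
    have h4 := Nat.div_add_mod (M.length - N) s
    have h5 := Nat.mod_lt (M.length - N) hs1
    refine ⟨(M.length - N) / s, ?_, h1, ?_, ?_⟩
    · rw [mem_range]
      have h6 : ((M.length - N : ℕ) : ℝ) < 4 ^ sx * (2 * s) := by
        rw [Nat.cast_sub h2]
        have h7 := m_up hj
        have h8 : (0 : ℝ) < 4 ^ sx := by positivity
        nlinarith
      have h7 : M.length - N < 4 ^ sx * (2 * s) := by exact_mod_cast h6
      have h8 : (M.length - N) / s < 2 * 4 ^ sx := by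
        rw [Nat.div_lt_iff_lt_mul hs1]
        calc M.length - N < 4 ^ sx * (2 * s) := h7
          _ = 2 * 4 ^ sx * s := by ring
      omega
    · have : s * ((M.length - N) / s) = (M.length - N) / s * s := mul_comm _ _
      omega
    · have h6 : M.length < N + (M.length - N) / s * s + s := by
        have : s * ((M.length - N) / s) = (M.length - N) / s * s := mul_comm _ _
        omega
      have h7 : (M.length : ℝ) < ((N + (M.length - N) / s * s : ℕ) : ℝ) + s := by exact_mod_cast h6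
      linarith
  have hA : ∀ t : ℕ, C * (4 ^ k * Ub k) * (max ((N + t * s : ℕ) : ℝ) (ml k)) ^ (-(3 / 2 : ℝ)) ≤
      C * (4 ^ j * Ub j) * (8 ^ sx * (max (N : ℝ) (ml j)) ^ (-(3 / 2 : ℝ))) := by
    intro t
    have hUk := U_pos k
    have hUj := U_pos j
    have h1 : Ub k ≤ Ub j := Num2Aux.UU_mono (Nat.pow_le_pow_right (by norm_num) hk)
    have h2 : (4 : ℝ) ^ k ≤ 4 ^ j := pow_le_pow_right₀ (by norm_num) hk
    have h8 : (0 : ℝ) < 4 ^ sx := by positivity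
    have hmj := m_pos j
    have hB0 : 0 < max (N : ℝ) (ml j) := lt_max_of_lt_right hmj
    have h3 : max (N : ℝ) (ml j) / 4 ^ sx ≤ max ((N + t * s : ℕ) : ℝ) (ml k) := by
      rw [div_le_iff₀ h8]
      refine max_le ?_ ?_
      · have e1 : (N : ℝ) ≤ ((N + t * s : ℕ) : ℝ) := by exact_mod_cast (by omega : N ≤ N + t * s)
        have e2 : ((N + t * s : ℕ) : ℝ) ≤ max ((N + t * s : ℕ) : ℝ) (ml k) := le_max_left _ _
        have e3 : (1 : ℝ) ≤ 4 ^ sx := one_le_pow₀ (by norm_num)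
        have e4 : 0 ≤ max ((N + t * s : ℕ) : ℝ) (ml k) := (Nat.cast_nonneg _).trans e2
        nlinarith
      · have e1 := m_up hj
        have e2 : ml k ≤ max ((N + t * s : ℕ) : ℝ) (ml k) := le_max_right _ _
        nlinarith
    have h4 : (max ((N + t * s : ℕ) : ℝ) (ml k)) ^ (-(3 / 2 : ℝ)) ≤ 8 ^ sx * (max (N : ℝ) (ml j)) ^ (-(3 / 2 : ℝ)) := by
      refine (Real.rpow_le_rpow_of_nonpos (by positivity) h3 (by norm_num)).trans (le_of_eq ?_)
      rw [Real.div_rpow hB0.le h8.le, Real.rpow_neg h8.le, div_inv_eq_mul, four_pow]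
      ring
    have h5 : 0 ≤ (max ((N + t * s : ℕ) : ℝ) (ml k)) ^ (-(3 / 2 : ℝ)) := by positivity
    have h6 : 0 ≤ C * (4 ^ j * Ub j) := by positivity
    refine mul_le_mul ?_ h4 h5 h6
    gcongr
  calc gf {M | M ∈ Q ∧ N ≤ M.length ∧ (M.length : ℝ) < N + ml j}
      ≤ gf (⋃ t ∈ range (2 * 4 ^ sx + 1),
          {M | M ∈ Q ∧ N + t * s ≤ M.length ∧ (M.length : ℝ) < ((N + t * s : ℕ) : ℝ) + ml k}) := gf_mono hcov
    _ ≤ ∑ t ∈ range (2 * 4 ^ sx + 1),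
          gf {M | M ∈ Q ∧ N + t * s ≤ M.length ∧ (M.length : ℝ) < ((N + t * s : ℕ) : ℝ) + ml k} := by
        unfold gf
        exact ENNReal.tsum_biUnion_le wE _ _
    _ ≤ ∑ _t ∈ range (2 * 4 ^ sx + 1),
          ENNReal.ofReal (C * (4 ^ j * Ub j) * (8 ^ sx * (max (N : ℝ) (ml j)) ^ (-(3 / 2 : ℝ)))) :=
        sum_le_sum fun t _ => (h (N + t * s)).trans (ENNReal.ofReal_le_ofReal (hA t))
    _ = _ := by
        have e : ((2 * 4 ^ sx + 1 : ℕ) : ℝ≥0∞) = ENNReal.ofReal (2 * 4 ^ sx + 1) := by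
          rw [← ENNReal.ofReal_natCast]
          push_cast
          rfl
        rw [sum_const, card_range, nsmul_eq_mul, e, ← ENNReal.ofReal_mul (by positivity)]

/-! ### the first directions -/

/-- the first r directions -/
def cutE (E : ℕ → Pt) (r i : ℕ) : Pt := if i < r then E i else up

lemma cutE_lt {E : ℕ → Pt} {r i : ℕ} (h : i < r) : cutE E r i = E i := if_pos h

lemma cutE_ps {E : ℕ → Pt} {r i : ℕ} (h : i ≤ r) : AR.ps (cutE E r) i = AR.ps E i :=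
  sum_congr rfl fun _ ha => cutE_lt (lt_of_lt_of_le (mem_range.1 ha) h)

lemma cutE_qv {E : ℕ → Pt} {D : ℤ} {r i : ℕ} (h : i ≤ r) : qv (cutE E r) D r i = qv E D r i := by
  unfold qv
  rw [cutE_ps h, cutE_ps le_rfl]

lemma IPg_cut {E : ℕ → Pt} {r : ℕ} (h : IPg E r) : IPg (cutE E r) r := by
  refine ⟨fun i hi => ?_, fun i hi => ?_, fun i j hij hj => ?_⟩
  · rw [cutE_lt hi]
    exact h.dir i hi
  · rw [cutE_lt hi, cutE_lt (by omega : i < r)]
    exact h.tur i hi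
  · rw [cutE_ps hj, cutE_ps (by omega : i ≤ r)]
    exact h.ind i j hij hj

lemma Jn_cut {E : ℕ → Pt} {r : ℕ} {D : ℤ} {k : ℕ} {M : List Bool} (hr : 3 ≤ r) (h : Jn E r D k M) :
    Jn (cutE E r) r D k M := by
  refine ⟨h.sa, ?_, ?_, ?_, ?_, ?_⟩
  · rw [cutE_lt (by omega)]
    exact h.de
  · rw [cutE_qv (by omega)]
    exact h.pos
  · intro i hi j h1 h2
    rw [cutE_qv (by omega), cutE_lt (by omega : j < r)]
    exact h.mid i hi j h1 h2
  · intro i hi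
    rw [cutE_qv (by omega), cutE_lt (by omega : 0 < r)]
    exact h.fst i hi
  · intro i h1 hi
    rw [cutE_qv (by omega), cutE_lt (by omega : r - 1 < r)]
    exact h.lst i h1 hi

open Classical in
/-- the finite set of the directions -/
noncomputable def EE (Mx : ℕ) : Finset (ℕ → Pt) :=
  (Fintype.piFinset (fun _ : Fin Mx => dirs)).image fun g i => if h : i < Mx then g ⟨i, h⟩ else up

lemma EE_card (Mx : ℕ) : (EE Mx).card ≤ 6 ^ Mx := by
  classical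
  unfold EE
  refine card_image_le.trans ?_
  rw [Fintype.card_piFinset]
  simp only [prod_const, card_univ, Fintype.card_fin]
  exact Nat.pow_le_pow_left (by decide) _

lemma cutE_mem {E : ℕ → Pt} {r Mx : ℕ} (hr : r ≤ Mx) (h : IPg E r) : cutE E r ∈ EE Mx := by
  classical
  unfold EE
  rw [mem_image]
  refine ⟨fun i => cutE E r i, ?_, ?_⟩
  · rw [Fintype.mem_piFinset]
    intro i
    by_cases hi : (i : ℕ) < r
    · rw [cutE_lt hi]
      exact h.dir i hi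
    · unfold cutE
      rw [if_neg hi]
      exact up_dirs
  · funext i
    by_cases hi : i < Mx
    · rw [dif_pos hi]
    · rw [dif_neg hi]
      unfold cutE
      rw [if_neg (by omega)]

/-! ### the union bound -/

/-- the conditions of `JMass` -/
def Cnd (H Mx sx j k' r : ℕ) (D : ℤ) (E : ℕ → Pt) : Prop :=
  k' ≤ j ∧ j ≤ k' + sx ∧ 18 * (H * 2 ^ k') ≤ D ∧ D ≤ 36 * (H * 2 ^ k') ∧ 3 ≤ r ∧ r ≤ Mx ∧ IPg E r ∧ E (r - 1) = up

theorem mid_mass {H Mx sx k0 : ℕ} {C1 : ℝ} (hC1 : 0 < C1)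
    (hJ : ∀ (k r n : ℕ) (D : ℤ) (E : ℕ → Pt), k0 ≤ k → 18 * (H * 2 ^ k) ≤ D → D ≤ 36 * (H * 2 ^ k) → 3 ≤ r → r ≤ Mx →
      IPg E r → E (r - 1) = up → gf {M | Jn E r D k M ∧ n ≤ M.length ∧ (M.length : ℝ) < n + ml k} ≤
        ENNReal.ofReal (C1 * (4 ^ k * Ub k) * (max (n : ℝ) (ml k)) ^ (-(3 / 2 : ℝ))))
    {j : ℕ} (hj : k0 + sx ≤ j) {DD : Finset ℤ} (hDD : DD.card ≤ Mx) {Q : Set (List Bool)} {N : ℕ}
    (hQ : ∀ M ∈ Q, N ≤ M.length ∧ (M.length : ℝ) < N + ml j ∧ ∃ (k' r : ℕ) (D : ℤ) (E : ℕ → Pt), D ∈ DD ∧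
      Cnd H Mx sx j k' r D E ∧ Jn E r D k' M) :
    gf Q ≤ ENNReal.ofReal ((((sx + 1) * ((Mx + 1) * (Mx * 6 ^ Mx)) : ℕ) : ℝ) *
      ((2 * 4 ^ sx + 1) * (C1 * (4 ^ j * Ub j) * (8 ^ sx * (max (N : ℝ) (ml j)) ^ (-(3 / 2 : ℝ)))))) := by
  classical
  obtain ⟨I, hI⟩ : ∃ I, I = (Icc (j - sx) j) ×ˢ (range (Mx + 1)) ×ˢ DD ×ˢ EE Mx := ⟨_, rfl⟩
  have hcard : I.card ≤ (sx + 1) * ((Mx + 1) * (Mx * 6 ^ Mx)) := by
    rw [hI, card_product, card_product, card_product, Nat.card_Icc, card_range]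
    exact Nat.mul_le_mul (by omega) (Nat.mul_le_mul_left _ (Nat.mul_le_mul hDD (EE_card Mx)))
  have hcov : Q ⊆ ⋃ ι ∈ I, {M | (Cnd H Mx sx j ι.1 ι.2.1 ι.2.2.1 ι.2.2.2 ∧ Jn ι.2.2.2 ι.2.1 ι.2.2.1 ι.1 M) ∧
      N ≤ M.length ∧ (M.length : ℝ) < N + ml j} := by
    intro M hM
    obtain ⟨h1, h2, k', r, D, E, hD, hc, hJn⟩ := hQ M hM
    obtain ⟨c1, c2, c3, c4, c5, c6, c7, c8⟩ := hc
    simp only [Set.mem_iUnion, exists_prop]
    refine ⟨(k', r, D, cutE E r), ?_, ⟨⟨c1, c2, c3, c4, c5, c6, IPg_cut c7, ?_⟩, Jn_cut c5 hJn⟩, h1, h2⟩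
    · rw [hI]
      simp only [mem_product, mem_Icc, mem_range]
      exact ⟨⟨by omega, c1⟩, by omega, hD, cutE_mem c6 c7⟩
    · show cutE E r (r - 1) = up
      rw [cutE_lt (by omega)]
      exact c8
  have hB : ∀ ι ∈ I, gf {M | (Cnd H Mx sx j ι.1 ι.2.1 ι.2.2.1 ι.2.2.2 ∧ Jn ι.2.2.2 ι.2.1 ι.2.2.1 ι.1 M) ∧
      N ≤ M.length ∧ (M.length : ℝ) < N + ml j} ≤
      ENNReal.ofReal ((2 * 4 ^ sx + 1) * (C1 * (4 ^ j * Ub j) * (8 ^ sx * (max (N : ℝ) (ml j)) ^ (-(3 / 2 : ℝ))))) := by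
    rintro ⟨k', r, D, E⟩ -
    by_cases hc : Cnd H Mx sx j k' r D E
    · obtain ⟨c1, c2, c3, c4, c5, c6, c7, c8⟩ := hc
      refine (gf_mono (Q := {M | M ∈ {M | Jn E r D k' M} ∧ N ≤ M.length ∧ (M.length : ℝ) < N + ml j})
        fun M hM => ⟨hM.1.2, hM.2⟩).trans ?_
      refine win hC1 c1 c2 (fun n' => ?_) N
      exact hJ k' r n' D E (by omega) c3 c4 c5 c6 c7 c8
    · refine (gf_mono (Q := ∅) fun M hM => hc hM.1.1).trans ?_
      unfold gf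
      simp
  calc gf Q ≤ gf (⋃ ι ∈ I, {M | (Cnd H Mx sx j ι.1 ι.2.1 ι.2.2.1 ι.2.2.2 ∧ Jn ι.2.2.2 ι.2.1 ι.2.2.1 ι.1 M) ∧
          N ≤ M.length ∧ (M.length : ℝ) < N + ml j}) := gf_mono hcov
    _ ≤ ∑ ι ∈ I, gf {M | (Cnd H Mx sx j ι.1 ι.2.1 ι.2.2.1 ι.2.2.2 ∧ Jn ι.2.2.2 ι.2.1 ι.2.2.1 ι.1 M) ∧
          N ≤ M.length ∧ (M.length : ℝ) < N + ml j} := by
        unfold gf
        exact ENNReal.tsum_biUnion_le wE _ _
    _ ≤ ∑ _ι ∈ I, ENNReal.ofReal ((2 * 4 ^ sx + 1) *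
          (C1 * (4 ^ j * Ub j) * (8 ^ sx * (max (N : ℝ) (ml j)) ^ (-(3 / 2 : ℝ))))) := sum_le_sum hB
    _ ≤ _ := by
        rw [sum_const, nsmul_eq_mul]
        refine (mul_le_mul_left (Nat.cast_le.2 hcard) _).trans (le_of_eq ?_)
        rw [← ENNReal.ofReal_natCast, ← ENNReal.ofReal_mul (Nat.cast_nonneg _)]

end G2

end ARM

end HexObs
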