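import Pool.Agent.ARM.ExC
import Pool.Agent.POL.FinH

/-!
# ARM2, row L (A3), part 0 (helper94): the good closed words

* `c0_low`: the closed words of n + 1 letters (without the last one) have at least the mass c n ^ (-3/2), n odd (POL.lowH);
* **`goodC0`**: T2N, T2S, T2Q, T2C: most of this mass is in GF; the order of the constants is η κ a m, then k c0 (arbitrary,
  from JoinSt), then c, u, e.
-/

set_option autoImplicit false

namespace HexObs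

namespace ARM

open Finset TS SDN SIM NTA TIP

open scoped ENNReal

theorem wE_le1 (t : List Bool) : wE t ≤ 1 := by
  have h : xc ≤ 1 := by
    have h1 : xc ^ 2 = 1 / (2 + Real.sqrt 2) := xc_sq
    have h2 : 0 ≤ Real.sqrt 2 := Real.sqrt_nonneg 2
    have h3 : xc ^ 2 ≤ 1 := by
      rw [h1, div_le_one (by linarith)]
      linarith
    nlinarith [xc_pos]
  unfold wE
  rw [← ENNReal.ofReal_one]
  exact ENNReal.ofReal_le_ofReal (pow_le_one₀ xc_pos.le h)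

/-- a closed word without its last letter -/
theorem gf_Cy_le (n : ℕ) : gf (POL.Cy (n + 1)) ≤ 2 * gf (C0 n) := by
  have hne : ∀ t : POL.Cy (n + 1), (t : List Bool) ≠ [] := by
    rintro ⟨t, ht⟩ h0
    have h1 := ht.1
    simp only at h0
    rw [h0] at h1
    simp at h1
  have hd : ∀ t : POL.Cy (n + 1), (t : List Bool).dropLast ++ [(t : List Bool).getLast (hne t)] = t := fun t =>
    List.dropLast_append_getLast (hne t)
  have hin : ∀ t : POL.Cy (n + 1), (t : List Bool).dropLast ∈ C0 n := fun t =>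
    ⟨(t : List Bool).getLast (hne t), by rw [hd t]; exact t.2⟩
  obtain ⟨φ, hφ⟩ : ∃ φ : POL.Cy (n + 1) → C0 n × Bool, φ = fun t : POL.Cy (n + 1) =>
    ((⟨(t : List Bool).dropLast, hin t⟩ : C0 n), (t : List Bool).getLast (hne t)) := ⟨_, rfl⟩
  have hinj : Function.Injective φ := by
    intro t t' h
    rw [hφ] at h
    simp only [Prod.mk.injEq, Subtype.mk.injEq] at h
    apply Subtype.ext
    rw [← hd t, ← hd t', h.1, h.2]
  have hw : ∀ t : POL.Cy (n + 1), wE (t : List Bool) ≤ wE ((φ t).1 : List Bool) := by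
    intro t
    rw [← hd t, wE_append, hφ]
    exact mul_le_of_le_one_right zero_le (wE_le1 _)
  calc gf (POL.Cy (n + 1)) = ∑' t : POL.Cy (n + 1), wE (t : List Bool) := rfl
    _ ≤ ∑' t : POL.Cy (n + 1), (fun p : C0 n × Bool => wE (p.1 : List Bool)) (φ t) := ENNReal.tsum_le_tsum hw
    _ ≤ ∑' p : C0 n × Bool, wE (p.1 : List Bool) :=
        ENNReal.tsum_comp_le_tsum_of_injective hinj (fun p : C0 n × Bool => wE (p.1 : List Bool))
    _ = ∑' L : C0 n, ∑' _ : Bool, wE (L : List Bool) := ENNReal.tsum_prod' (f := fun p : C0 n × Bool => wE (p.1 : List Bool))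
    _ = ∑' L : C0 n, 2 * wE (L : List Bool) := by
        refine tsum_congr fun L => ?_
        rw [tsum_fintype, Fintype.sum_bool, two_mul]
    _ = 2 * gf (C0 n) := ENNReal.tsum_mul_left

/-- **the mass of the closed words** -/
theorem c0_low : ∃ (c : ℝ) (N0 : ℕ), 0 < c ∧ ∀ n : ℕ, N0 ≤ n → Odd n →
    ENNReal.ofReal (c * (n : ℝ) ^ (-(3 / 2) : ℝ)) ≤ gf (C0 n) := by
  obtain ⟨c, N0, hc, h⟩ := POL.lowH
  refine ⟨c / 16, N0 + 1, by positivity, fun n hn ho => ?_⟩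
  have hn0 : (0 : ℝ) < n := by
    have : 0 < n := by omega
    exact_mod_cast this
  obtain ⟨G, hG, h1, -⟩ := h (n + 1) (by omega) ho.add_one
  have h2 : gf G ≤ 2 * gf (C0 n) := (gf_mono hG).trans (gf_Cy_le n)
  have h3 : c / 16 * (n : ℝ) ^ (-(3 / 2) : ℝ) * 2 ≤ c * ((n + 1 : ℕ) : ℝ) ^ (-(3 / 2) : ℝ) := by
    have h4 : ((n + 1 : ℕ) : ℝ) ≤ 2 * n := by
      have : n + 1 ≤ 2 * n := by omega
      exact_mod_cast this
    have h5 : (2 * (n : ℝ)) ^ (-(3 / 2) : ℝ) ≤ ((n + 1 : ℕ) : ℝ) ^ (-(3 / 2) : ℝ) :=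
      Real.rpow_le_rpow_of_nonpos (by positivity) h4 (by norm_num)
    rw [Real.mul_rpow (by norm_num) hn0.le] at h5
    have h6 : (1 / 8 : ℝ) ≤ (2 : ℝ) ^ (-(3 / 2) : ℝ) := by
      have h7 : (2 : ℝ) ^ (-(3 : ℝ)) ≤ (2 : ℝ) ^ (-(3 / 2) : ℝ) :=
        Real.rpow_le_rpow_of_exponent_le (by norm_num) (by norm_num)
      refine le_trans (le_of_eq ?_) h7
      rw [Real.rpow_neg (by norm_num)]
      norm_num
    have h8 : 0 < (n : ℝ) ^ (-(3 / 2) : ℝ) := by positivity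
    nlinarith [mul_le_mul_of_nonneg_right h6 h8.le, mul_le_mul_of_nonneg_left h5 hc.le,
      mul_le_mul_of_nonneg_left (mul_le_mul_of_nonneg_right h6 h8.le) hc.le]
  have h9 : 2 * ENNReal.ofReal (c / 16 * (n : ℝ) ^ (-(3 / 2) : ℝ)) ≤ 2 * gf (C0 n) := by
    refine le_trans ?_ (h1.trans h2)
    rw [show (2 : ℝ≥0∞) = ENNReal.ofReal 2 by simp, ← ENNReal.ofReal_mul (by norm_num), mul_comm (2 : ℝ)]
    exact ENNReal.ofReal_le_ofReal h3
  exact (ENNReal.mul_le_mul_iff_right (by norm_num) (by norm_num)).1 h9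

/-! ### the bad words -/

/-- the ratio of the extra strands -/
noncomputable def r8 : ℝ := (2 : ℝ) ^ (-(1 / 8 : ℝ))

theorem r8_pos : 0 < r8 := by unfold r8; positivity

theorem r8_lt : r8 < 1 := by
  unfold r8
  exact Real.rpow_lt_one_of_one_lt_of_neg (by norm_num) (by norm_num)

/-- the sum of the extra strands from the level t on -/
theorem geo8 {C N : ℝ} (hC : 0 ≤ C) (hN : 0 ≤ N) (t : ℕ) :
    ∑' s : ℕ, ENNReal.ofReal (C * (2 : ℝ) ^ (-(1 / 8 : ℝ) * ((t : ℝ) + s)) * N) = ENNReal.ofReal (C * r8 ^ t / (1 - r8) * N) := by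
  have h0 := r8_pos
  have h1 := r8_lt
  have e : ∀ s : ℕ, C * (2 : ℝ) ^ (-(1 / 8 : ℝ) * ((t : ℝ) + s)) * N = C * r8 ^ t * N * r8 ^ s := by
    intro s
    have h2 : (2 : ℝ) ^ (-(1 / 8 : ℝ) * ((t : ℝ) + s)) = r8 ^ t * r8 ^ s := by
      rw [← pow_add]
      unfold r8
      rw [← Real.rpow_natCast, ← Real.rpow_mul (by norm_num)]
      push_cast
      rfl
    rw [h2]
    ring
  simp only [e]
  have hs : HasSum (fun s : ℕ => C * r8 ^ t * N * r8 ^ s) (C * r8 ^ t * N * (1 - r8)⁻¹) :=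
    (hasSum_geometric_of_lt_one h0.le h1).mul_left _
  rw [← ENNReal.ofReal_tsum_of_nonneg (fun s => by positivity) hs.summable, hs.tsum_eq]
  congr 1
  ring

/-- the extra strands from the level i0 on -/
theorem es_le {C : ℝ} {b0 n l i0 : ℕ} (hC : 0 < C) (h : ∀ i : ℕ, l ≤ i →
    gf {L | L ∈ C0 n ∧ (L ∈ ESe l i ∨ rv L ∈ ESe l i)} ≤
      ENNReal.ofReal (C * (2 : ℝ) ^ (-(1 / 8 : ℝ) * ((i : ℝ) - l)) * (n : ℝ) ^ (-(3 / 2) : ℝ))) {t : ℕ} (ht : l + t ≤ i0) :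
    gf {L | L ∈ C0 n ∧ ∃ i, i0 ≤ i ∧ (L ∈ ESe l i ∨ rv L ∈ ESe l i)} ≤
      ENNReal.ofReal (C * r8 ^ t / (1 - r8) * (n : ℝ) ^ (-(3 / 2) : ℝ)) := by
  have hsub : {L | L ∈ C0 n ∧ ∃ i, i0 ≤ i ∧ (L ∈ ESe l i ∨ rv L ∈ ESe l i)} ⊆
      ⋃ s : ℕ, {L | L ∈ C0 n ∧ (L ∈ ESe l (l + t + s) ∨ rv L ∈ ESe l (l + t + s))} := by
    rintro L ⟨h1, i, hi, h2⟩
    have e : l + t + (i - (l + t)) = i := by omega
    refine Set.mem_iUnion.2 ⟨i - (l + t), h1, ?_⟩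
    rw [e]
    exact h2
  refine (gf_mono hsub).trans ((ENNReal.tsum_iUnion_le_tsum wE _).trans ?_)
  rw [← geo8 hC.le (by positivity) t]
  refine ENNReal.tsum_le_tsum fun s => (h _ (by omega)).trans (le_of_eq ?_)
  congr 4
  push_cast
  ring

/-- the geometric factor is small -/
theorem exists_t {C ε : ℝ} (hε : 0 < ε) : ∃ t0 : ℕ, ∀ t ≥ t0, C * r8 ^ t / (1 - r8) ≤ ε := by
  have h0 := r8_pos
  have h1 := r8_lt
  have h2 : Filter.Tendsto (fun t : ℕ => C * r8 ^ t / (1 - r8)) Filter.atTop (nhds (C * 0 / (1 - r8))) :=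
    ((tendsto_pow_atTop_nhds_zero_of_lt_one h0.le h1).const_mul C).div_const _
  rw [mul_zero, zero_div] at h2
  obtain ⟨t0, h3⟩ := Filter.eventually_atTop.1 (h2.eventually_le_const hε)
  exact ⟨t0, h3⟩

/-- **the bad closed words** -/
theorem badC0 (hN : T2N) (hS : T2S) (hQ : T2Q) (hC : T2C) {ε : ℝ} (hε : 0 < ε) : ∃ (η κ : ℝ) (a m : ℕ), 0 < η ∧ 0 < κ ∧
    ∀ k c0 : ℕ, ∃ c1 : ℕ, c0 ≤ c1 ∧ ∀ c : ℕ, c1 ≤ c → ∃ u1 : ℕ, c ≤ u1 ∧ ∀ u : ℕ, u1 ≤ u → ∃ e b0 : ℕ, k ≤ e ∧ e ≤ b0 ∧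
      ∀ n j : ℕ, b0 ≤ j → 2 ^ b0 * ml j ≤ n → gf {L | L ∈ C0 n ∧ L ∉ GF n j η κ a m c u e k} ≤
        ENNReal.ofReal (ε * (n : ℝ) ^ (-(3 / 2) : ℝ)) := by
  obtain ⟨δ, hδ⟩ : ∃ δ : ℝ, δ = ε / 5 := ⟨_, rfl⟩
  have hδ0 : 0 < δ := by rw [hδ]; positivity
  obtain ⟨η, κ, a, m, b1, hη, hκ, -, g1⟩ := hN δ hδ0
  obtain ⟨C, b2, hC0, g2⟩ := hS
  obtain ⟨t0, ht0⟩ := exists_t (C := C) hδ0
  refine ⟨η, κ, a, m, hη, hκ, fun k c0 => ⟨max c0 (m + 5 + t0), le_max_left _ _, fun c hc => ⟨c + t0, by omega,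
    fun u hu => ?_⟩⟩⟩
  have hc2 : m + 5 + t0 ≤ c := (le_max_right _ _).trans hc
  obtain ⟨e, b3, he, hb3, g3⟩ := hQ u c k δ (by omega) hδ0
  obtain ⟨b4, g4⟩ := hC u δ hδ0
  refine ⟨e, max (max b1 b2) (max b3 (max b4 1)), he, by omega, fun n j hj hn => ?_⟩
  have hml : 0 < ml j := by unfold ml; positivity
  have hle : ∀ b : ℕ, b ≤ max (max b1 b2) (max b3 (max b4 1)) → (2 : ℝ) ^ b * ml j ≤ n := fun b hb =>
    (mul_le_mul_of_nonneg_right (pow_le_pow_right₀ (by norm_num) hb) hml.le).trans hn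
  have hn1 : 1 ≤ n := by
    have h1 := hle 1 (by omega)
    have h2 : (1 : ℝ) ≤ ml j := by
      unfold ml
      exact Real.one_le_rpow (by norm_num) (by positivity)
    have h3 : (1 : ℝ) ≤ n := by nlinarith
    exact_mod_cast h3
  -- the five classes
  have f1 := g1 n j (by omega) (hle b1 (by omega))
  have f2 := es_le (n := n) (l := j + m + 4) (i0 := j + c - 1) (t := t0) (b0 := b2) hC0
    (fun i hi => g2 n (j + m + 4) i (by omega) hi hn1) (by omega)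
  have f3 := es_le (n := n) (l := j + c) (i0 := j + u) (t := t0) (b0 := b2) hC0
    (fun i hi => g2 n (j + c) i (by omega) hi hn1) (by omega)
  have f4 := g3 n j (by omega) (hle b3 (by omega))
  have f5 := g4 n j (by omega) (hle b4 (by omega))
  have hN0 : 0 ≤ (n : ℝ) ^ (-(3 / 2) : ℝ) := by positivity
  have ht := mul_le_mul_of_nonneg_right (ht0 t0 le_rfl) hN0
  have f2' := f2.trans (ENNReal.ofReal_le_ofReal ht)
  have f3' := f3.trans (ENNReal.ofReal_le_ofReal ht)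
  have hsub : {L | L ∈ C0 n ∧ L ∉ GF n j η κ a m c u e k} ⊆
      {L | L ∈ C0 n ∧ (gc j a m η L < κ * Ub j ∨ gc j a m η (rv L) < κ * Ub j)} ∪
      ({L | L ∈ C0 n ∧ ∃ i, j + c - 1 ≤ i ∧ (L ∈ ESe (j + m + 4) i ∨ rv L ∈ ESe (j + m + 4) i)} ∪
      ({L | L ∈ C0 n ∧ ∃ i, j + u ≤ i ∧ (L ∈ ESe (j + c) i ∨ rv L ∈ ESe (j + c) i)} ∪
      ({L | L ∈ C0 n ∧ (L ∈ NTs (j + c) (j + u) (2 ^ (j - e)) (2 ^ (j - k)) ∨
        rv L ∈ NTs (j + c) (j + u) (2 ^ (j - e)) (2 ^ (j - k)))} ∪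
      {L | L ∈ C0 n ∧ ∀ s, s ≤ L.length → dz L s ≤ 2 ^ (j + u)}))) := by
    rintro L ⟨hL, hG⟩
    by_contra hno
    simp only [Set.mem_union, Set.mem_setOf_eq, not_or, not_and, not_exists, not_lt, not_forall, not_le] at hno
    obtain ⟨q1, q2, q3, q4, q5⟩ := hno
    obtain ⟨p1, p2, p3⟩ := C0_mem hL
    refine hG ⟨⟨p1, p2.ge, ?_, ?_⟩, ?_, ?_⟩
    · rw [p2]
      linarith
    · rw [sub_zero]
      refine p3.trans ?_
      calc (2 : ℤ) = 2 ^ 1 := by norm_num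
        _ ≤ 2 ^ j := pow_le_pow_right₀ (by norm_num) (by omega)
    · obtain ⟨s, hs1, hs2⟩ := q5 hL
      exact ⟨s, hs1, hs2⟩
    · rintro T (rfl | rfl)
      · exact ⟨(q1 hL).1, fun i hi => (q2 hL i (by omega)).1, fun i hi => (q3 hL i hi).1, (q4 hL).1⟩
      · exact ⟨(q1 hL).2, fun i hi => (q2 hL i (by omega)).2, fun i hi => (q3 hL i hi).2, (q4 hL).2⟩
  refine (gf_mono hsub).trans ?_
  refine (gf_union_le _ _).trans ((add_le_add f1 ((gf_union_le _ _).trans (add_le_add f2' ((gf_union_le _ _).trans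
    (add_le_add f3' ((gf_union_le _ _).trans (add_le_add f4 f5))))))).trans (le_of_eq ?_))
  rw [← ENNReal.ofReal_add (by positivity) (by positivity), ← ENNReal.ofReal_add (by positivity) (by positivity),
    ← ENNReal.ofReal_add (by positivity) (by positivity), ← ENNReal.ofReal_add (by positivity) (by positivity)]
  congr 1
  rw [hδ]
  ring

/-- **the good closed words**: the constant cc does not depend on k, c0 -/
theorem goodC0 (hN : T2N) (hS : T2S) (hQ : T2Q) (hC : T2C) : ∃ (cc η κ : ℝ) (a m : ℕ), 0 < cc ∧ 0 < η ∧ 0 < κ ∧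
    ∀ k c0 : ℕ, ∃ c1 : ℕ, c0 ≤ c1 ∧ ∀ c : ℕ, c1 ≤ c → ∃ u1 : ℕ, c ≤ u1 ∧ ∀ u : ℕ, u1 ≤ u → ∃ e b0 : ℕ, k ≤ e ∧ e ≤ b0 ∧
      ∀ n j : ℕ, b0 ≤ j → 2 ^ b0 * ml j ≤ n → Odd n → ENNReal.ofReal (cc * (n : ℝ) ^ (-(3 / 2) : ℝ)) ≤
        gf {L | L ∈ C0 n ∧ L ∈ GF n j η κ a m c u e k} := by
  obtain ⟨c', N0, hc', hlow⟩ := c0_low
  obtain ⟨η, κ, a, m, hη, hκ, H⟩ := badC0 hN hS hQ hC (ε := c' / 2) (by positivity)
  refine ⟨c' / 2, η, κ, a, m, by positivity, hη, hκ, fun k c0 => ?_⟩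
  obtain ⟨c1, hc1, H⟩ := H k c0
  refine ⟨c1, hc1, fun c hc => ?_⟩
  obtain ⟨u1, hu1, H⟩ := H c hc
  refine ⟨u1, hu1, fun u hu => ?_⟩
  obtain ⟨e, b0, he, hb0, H⟩ := H u hu
  refine ⟨e, max b0 N0, he, by omega, fun n j hj hn ho => ?_⟩
  have hml : 0 < ml j := by unfold ml; positivity
  have hml1 : (1 : ℝ) ≤ ml j := by
    unfold ml
    exact Real.one_le_rpow (by norm_num) (by positivity)
  have hle : ∀ b : ℕ, b ≤ max b0 N0 → (2 : ℝ) ^ b * ml j ≤ n := fun b hb =>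
    (mul_le_mul_of_nonneg_right (pow_le_pow_right₀ (by norm_num) hb) hml.le).trans hn
  have hnN : N0 ≤ n := by
    have h1 := hle N0 (by omega)
    have h2 : (N0 : ℝ) < 2 ^ N0 := by exact_mod_cast Nat.lt_two_pow_self
    have h3 : (0 : ℝ) < 2 ^ N0 := by positivity
    have h4 : (N0 : ℝ) < n := by nlinarith
    exact_mod_cast h4.le
  have h5 := H n j (by omega) (hle b0 (by omega))
  have h6 := hlow n hnN ho
  have hN0 : 0 ≤ (n : ℝ) ^ (-(3 / 2) : ℝ) := by positivity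
  have hsub : C0 n ⊆ {L | L ∈ C0 n ∧ L ∈ GF n j η κ a m c u e k} ∪ {L | L ∈ C0 n ∧ L ∉ GF n j η κ a m c u e k} := by
    intro L hL
    by_cases h : L ∈ GF n j η κ a m c u e k
    · exact Or.inl ⟨hL, h⟩
    · exact Or.inr ⟨hL, h⟩
  have h7 := h6.trans ((gf_mono hsub).trans ((gf_union_le _ _).trans (add_le_add le_rfl h5)))
  have h8 : ENNReal.ofReal (c' * (n : ℝ) ^ (-(3 / 2) : ℝ)) = ENNReal.ofReal (c' / 2 * (n : ℝ) ^ (-(3 / 2) : ℝ)) +
      ENNReal.ofReal (c' / 2 * (n : ℝ) ^ (-(3 / 2) : ℝ)) := by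
    rw [← ENNReal.ofReal_add (by positivity) (by positivity)]
    congr 1
    ring
  rw [h8] at h7
  exact (ENNReal.add_le_add_iff_right ENNReal.ofReal_ne_top).1 h7

end ARM

end HexObs
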