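import Pool.Agent.ARM.GoodC0
import Pool.Agent.ARM.DefsQ

/-!
# ARM2, row L (A3), part 0 (helper94): the good closed words, with the new near touches `NTc`

* **`badCc`**, **`goodCc`**: as `badC0`, `goodC0` of ARM/GoodC0 with `T2Qc` and `GFc` (ARM/DefsQ).
-/

set_option autoImplicit false

namespace HexObs

namespace ARM

open Finset TS SDN SIM NTA TIP

open scoped ENNReal

/-- **the bad closed words** -/
theorem badCc (hN : T2N) (hS : T2S) (hQ : T2Qc) (hC : T2C) {ε : ℝ} (hε : 0 < ε) : ∃ (η κ : ℝ) (a m : ℕ), 0 < η ∧ 0 < κ ∧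
    ∀ k c0 : ℕ, ∃ c1 : ℕ, c0 ≤ c1 ∧ ∀ c : ℕ, c1 ≤ c → ∃ u1 : ℕ, c ≤ u1 ∧ ∀ u : ℕ, u1 ≤ u → ∃ e b0 : ℕ, k ≤ e ∧ e ≤ b0 ∧
      ∀ n j : ℕ, b0 ≤ j → 2 ^ b0 * ml j ≤ n → gf {L | L ∈ C0 n ∧ L ∉ GFc n j η κ a m c u e k} ≤
        ENNReal.ofReal (ε * (n : ℝ) ^ (-(3 / 2) : ℝ)) := by
  obtain ⟨δ, hδ⟩ : ∃ δ : ℝ, δ = ε / 5 := ⟨_, rfl⟩
  have hδ0 : 0 < δ := by rw [hδ]; positivity
  obtain ⟨η, κ, a, m, b1, hη, hκ, -, g1⟩ := hN δ hδ0
  obtain ⟨C, b2, hC0, g2⟩ := hS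
  obtain ⟨t0, ht0⟩ := exists_t (C := C) hδ0
  refine ⟨η, κ, a, m, hη, hκ, fun k c0 => ⟨max c0 (m + 5 + t0), le_max_left _ _, fun c hc => ⟨c + t0, by omega,
    fun u hu => ?_⟩⟩⟩
  have hc2 : m + 5 + t0 ≤ c := (le_max_right _ _).trans hc
  obtain ⟨e, b3, he, hb3, g3⟩ := hQ u c k δ (by omega) hδ0
  obtain ⟨b4, g4⟩ := hC u δ hδ0
  refine ⟨e, max (max b1 b2) (max b3 (max b4 1)), he, by omega, fun n j hj hn => ?_⟩
  have hml : 0 < ml j := by unfold ml; positivity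
  have hle : ∀ b : ℕ, b ≤ max (max b1 b2) (max b3 (max b4 1)) → (2 : ℝ) ^ b * ml j ≤ n := fun b hb =>
    (mul_le_mul_of_nonneg_right (pow_le_pow_right₀ (by norm_num) hb) hml.le).trans hn
  have hn1 : 1 ≤ n := by
    have h1 := hle 1 (by omega)
    have h2 : (1 : ℝ) ≤ ml j := by
      unfold ml
      exact Real.one_le_rpow (by norm_num) (by positivity)
    have h3 : (1 : ℝ) ≤ n := by nlinarith
    exact_mod_cast h3
  -- the five classes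
  have f1 := g1 n j (by omega) (hle b1 (by omega))
  have f2 := es_le (n := n) (l := j + m + 4) (i0 := j + c - 1) (t := t0) (b0 := b2) hC0
    (fun i hi => g2 n (j + m + 4) i (by omega) hi hn1) (by omega)
  have f3 := es_le (n := n) (l := j + c) (i0 := j + u) (t := t0) (b0 := b2) hC0
    (fun i hi => g2 n (j + c) i (by omega) hi hn1) (by omega)
  have f4 := g3 n j (by omega) (hle b3 (by omega))
  have f5 := g4 n j (by omega) (hle b4 (by omega))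
  have hN0 : 0 ≤ (n : ℝ) ^ (-(3 / 2) : ℝ) := by positivity
  have ht := mul_le_mul_of_nonneg_right (ht0 t0 le_rfl) hN0
  have f2' := f2.trans (ENNReal.ofReal_le_ofReal ht)
  have f3' := f3.trans (ENNReal.ofReal_le_ofReal ht)
  have hsub : {L | L ∈ C0 n ∧ L ∉ GFc n j η κ a m c u e k} ⊆
      {L | L ∈ C0 n ∧ (gc j a m η L < κ * Ub j ∨ gc j a m η (rv L) < κ * Ub j)} ∪
      ({L | L ∈ C0 n ∧ ∃ i, j + c - 1 ≤ i ∧ (L ∈ ESe (j + m + 4) i ∨ rv L ∈ ESe (j + m + 4) i)} ∪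
      ({L | L ∈ C0 n ∧ ∃ i, j + u ≤ i ∧ (L ∈ ESe (j + c) i ∨ rv L ∈ ESe (j + c) i)} ∪
      ({L | L ∈ C0 n ∧ L ∈ NTc (j + c) (j + u) (2 ^ (j - e)) (2 ^ (j - k))} ∪
      {L | L ∈ C0 n ∧ ∀ s, s ≤ L.length → dz L s ≤ 2 ^ (j + u)}))) := by
    rintro L ⟨hL, hG⟩
    by_contra hno
    simp only [Set.mem_union, Set.mem_setOf_eq, not_or, not_and, not_exists, not_lt, not_forall, not_le] at hno
    obtain ⟨q1, q2, q3, q4, q5⟩ := hno
    obtain ⟨p1, p2, p3⟩ := C0_mem hL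
    refine hG ⟨⟨p1, p2.ge, ?_, ?_⟩, ?_, q4 hL, ?_⟩
    · rw [p2]
      linarith
    · rw [sub_zero]
      refine p3.trans ?_
      calc (2 : ℤ) = 2 ^ 1 := by norm_num
        _ ≤ 2 ^ j := pow_le_pow_right₀ (by norm_num) (by omega)
    · obtain ⟨s, hs1, hs2⟩ := q5 hL
      exact ⟨s, hs1, hs2⟩
    · rintro T (rfl | rfl)
      · exact ⟨(q1 hL).1, fun i hi => (q2 hL i (by omega)).1, fun i hi => (q3 hL i hi).1⟩
      · exact ⟨(q1 hL).2, fun i hi => (q2 hL i (by omega)).2, fun i hi => (q3 hL i hi).2⟩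
  refine (gf_mono hsub).trans ?_
  refine (gf_union_le _ _).trans ((add_le_add f1 ((gf_union_le _ _).trans (add_le_add f2' ((gf_union_le _ _).trans
    (add_le_add f3' ((gf_union_le _ _).trans (add_le_add f4 f5))))))).trans (le_of_eq ?_))
  rw [← ENNReal.ofReal_add (by positivity) (by positivity), ← ENNReal.ofReal_add (by positivity) (by positivity),
    ← ENNReal.ofReal_add (by positivity) (by positivity), ← ENNReal.ofReal_add (by positivity) (by positivity)]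
  congr 1
  rw [hδ]
  ring

/-- **the good closed words**: the constant cc does not depend on k, c0 -/
theorem goodCc (hN : T2N) (hS : T2S) (hQ : T2Qc) (hC : T2C) : ∃ (cc η κ : ℝ) (a m : ℕ), 0 < cc ∧ 0 < η ∧ 0 < κ ∧
    ∀ k c0 : ℕ, ∃ c1 : ℕ, c0 ≤ c1 ∧ ∀ c : ℕ, c1 ≤ c → ∃ u1 : ℕ, c ≤ u1 ∧ ∀ u : ℕ, u1 ≤ u → ∃ e b0 : ℕ, k ≤ e ∧ e ≤ b0 ∧
      ∀ n j : ℕ, b0 ≤ j → 2 ^ b0 * ml j ≤ n → Odd n → ENNReal.ofReal (cc * (n : ℝ) ^ (-(3 / 2) : ℝ)) ≤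
        gf {L | L ∈ C0 n ∧ L ∈ GFc n j η κ a m c u e k} := by
  obtain ⟨c', N0, hc', hlow⟩ := c0_low
  obtain ⟨η, κ, a, m, hη, hκ, H⟩ := badCc hN hS hQ hC (ε := c' / 2) (by positivity)
  refine ⟨c' / 2, η, κ, a, m, by positivity, hη, hκ, fun k c0 => ?_⟩
  obtain ⟨c1, hc1, H⟩ := H k c0
  refine ⟨c1, hc1, fun c hc => ?_⟩
  obtain ⟨u1, hu1, H⟩ := H c hc
  refine ⟨u1, hu1, fun u hu => ?_⟩
  obtain ⟨e, b0, he, hb0, H⟩ := H u hu
  refine ⟨e, max b0 N0, he, by omega, fun n j hj hn ho => ?_⟩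
  have hml : 0 < ml j := by unfold ml; positivity
  have hml1 : (1 : ℝ) ≤ ml j := by
    unfold ml
    exact Real.one_le_rpow (by norm_num) (by positivity)
  have hle : ∀ b : ℕ, b ≤ max b0 N0 → (2 : ℝ) ^ b * ml j ≤ n := fun b hb =>
    (mul_le_mul_of_nonneg_right (pow_le_pow_right₀ (by norm_num) hb) hml.le).trans hn
  have hnN : N0 ≤ n := by
    have h1 := hle N0 (by omega)
    have h2 : (N0 : ℝ) < 2 ^ N0 := by exact_mod_cast Nat.lt_two_pow_self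
    have h3 : (0 : ℝ) < 2 ^ N0 := by positivity
    have h4 : (N0 : ℝ) < n := by nlinarith
    exact_mod_cast h4.le
  have h5 := H n j (by omega) (hle b0 (by omega))
  have h6 := hlow n hnN ho
  have hN0 : 0 ≤ (n : ℝ) ^ (-(3 / 2) : ℝ) := by positivity
  have hsub : C0 n ⊆ {L | L ∈ C0 n ∧ L ∈ GFc n j η κ a m c u e k} ∪ {L | L ∈ C0 n ∧ L ∉ GFc n j η κ a m c u e k} := by
    intro L hL
    by_cases h : L ∈ GFc n j η κ a m c u e k
    · exact Or.inl ⟨hL, h⟩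
    · exact Or.inr ⟨hL, h⟩
  have h7 := h6.trans ((gf_mono hsub).trans ((gf_union_le _ _).trans (add_le_add le_rfl h5)))
  have h8 : ENNReal.ofReal (c' * (n : ℝ) ^ (-(3 / 2) : ℝ)) = ENNReal.ofReal (c' / 2 * (n : ℝ) ^ (-(3 / 2) : ℝ)) +
      ENNReal.ofReal (c' / 2 * (n : ℝ) ^ (-(3 / 2) : ℝ)) := by
    rw [← ENNReal.ofReal_add (by positivity) (by positivity)]
    congr 1
    ring
  rw [h8] at h7
  exact (ENNReal.add_le_add_iff_right ENNReal.ofReal_ne_top).1 h7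

end ARM

end HexObs
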