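import Pool.Agent.ARM.Defs

/-!
ARM: the numbers ml, pr (helper37).
-/

set_option autoImplicit false

namespace HexObs

namespace ARM

open Finset TS SDN SIM NTA TIP

open scoped ENNReal

lemma ml_pos (i : ℕ) : 0 < ml i := by
  unfold ml
  positivity

lemma ml_add (i s : ℕ) : ml (i + s) = (2 : ℝ) ^ ((4 / 3 : ℝ) * (s : ℝ)) * ml i := by
  unfold ml
  rw [← Real.rpow_add (by norm_num)]
  congr 1
  push_cast
  ring

lemma ml_zero : ml 0 = 1 := by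
  unfold ml
  norm_num

lemma ml_le {i j : ℕ} (h : i ≤ j) : ml i ≤ ml j := by
  unfold ml
  apply Real.rpow_le_rpow_of_exponent_le (by norm_num)
  have : (i : ℝ) ≤ j := by exact_mod_cast h
  linarith

lemma one_le_ml (i : ℕ) : 1 ≤ ml i := by
  rw [← ml_zero]
  exact ml_le (Nat.zero_le i)

/-- the power of 2 in pr -/
noncomputable def pw (i : ℕ) : ℝ := (2 : ℝ) ^ ((43 / 24 : ℝ) * (i : ℝ))

lemma pw_pos (i : ℕ) : 0 < pw i := by
  unfold pw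
  positivity

lemma pw_add (i s : ℕ) : pw (i + s) = (2 : ℝ) ^ ((43 / 24 : ℝ) * (s : ℝ)) * pw i := by
  unfold pw
  rw [← Real.rpow_add (by norm_num)]
  congr 1
  push_cast
  ring

lemma pr_eq (n i : ℕ) : pr n i = pw i * (ml i / max (n : ℝ) (ml i)) ^ (3 / 2 : ℝ) := rfl

lemma max_pos (n i : ℕ) : 0 < max (n : ℝ) (ml i) := lt_max_of_lt_right (ml_pos i)

lemma pr_pos (n i : ℕ) : 0 < pr n i := by
  rw [pr_eq]
  exact mul_pos (pw_pos i) (Real.rpow_pos_of_pos (div_pos (ml_pos i) (max_pos n i)) _)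

lemma pr_anti {n n' : ℕ} (h : n ≤ n') (i : ℕ) : pr n' i ≤ pr n i := by
  rw [pr_eq, pr_eq]
  have h1 : (n : ℝ) ≤ n' := by exact_mod_cast h
  have h2 : max (n : ℝ) (ml i) ≤ max (n' : ℝ) (ml i) := max_le_max h1 le_rfl
  refine mul_le_mul_of_nonneg_left ?_ (pw_pos i).le
  apply Real.rpow_le_rpow (div_pos (ml_pos i) (max_pos n' i)).le _ (by norm_num)
  exact div_le_div_of_nonneg_left (ml_pos i).le (max_pos n i) h2

/-- one factor (91 / 24) per level -/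
lemma pr_up (n j s : ℕ) : pr n (j + s) ≤ (2 : ℝ) ^ ((91 / 24 : ℝ) * (s : ℝ)) * pr n j := by
  rw [pr_eq, pr_eq]
  have h0 : ml (j + s) / max (n : ℝ) (ml (j + s)) ≤ (2 : ℝ) ^ ((4 / 3 : ℝ) * (s : ℝ)) * (ml j / max (n : ℝ) (ml j)) := by
    rw [ml_add, ← mul_div_assoc]
    apply div_le_div_of_nonneg_left (by have := ml_pos j; positivity) (max_pos n j)
    apply max_le_max le_rfl
    have h1 : (1 : ℝ) ≤ (2 : ℝ) ^ ((4 / 3 : ℝ) * (s : ℝ)) := Real.one_le_rpow (by norm_num) (by positivity)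
    have := ml_pos j
    nlinarith
  have h1 : (ml (j + s) / max (n : ℝ) (ml (j + s))) ^ (3 / 2 : ℝ) ≤
      ((2 : ℝ) ^ ((4 / 3 : ℝ) * (s : ℝ)) * (ml j / max (n : ℝ) (ml j))) ^ (3 / 2 : ℝ) :=
    Real.rpow_le_rpow (div_pos (ml_pos _) (max_pos n _)).le h0 (by norm_num)
  have h2 : ((2 : ℝ) ^ ((4 / 3 : ℝ) * (s : ℝ)) * (ml j / max (n : ℝ) (ml j))) ^ (3 / 2 : ℝ) =
      (2 : ℝ) ^ ((2 : ℝ) * (s : ℝ)) * (ml j / max (n : ℝ) (ml j)) ^ (3 / 2 : ℝ) := by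
    rw [Real.mul_rpow (by positivity) (div_pos (ml_pos j) (max_pos n j)).le, ← Real.rpow_mul (by norm_num)]
    congr 2
    ring
  have h3 : (2 : ℝ) ^ ((91 / 24 : ℝ) * (s : ℝ)) = (2 : ℝ) ^ ((43 / 24 : ℝ) * (s : ℝ)) * (2 : ℝ) ^ ((2 : ℝ) * (s : ℝ)) := by
    rw [← Real.rpow_add (by norm_num)]
    congr 1
    ring
  rw [h2] at h1
  rw [pw_add, h3]
  have hp := pw_pos j
  have hq : 0 < (2 : ℝ) ^ ((43 / 24 : ℝ) * (s : ℝ)) := by positivity
  calc (2 : ℝ) ^ ((43 / 24 : ℝ) * (s : ℝ)) * pw j * (ml (j + s) / max (n : ℝ) (ml (j + s))) ^ (3 / 2 : ℝ)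
      ≤ (2 : ℝ) ^ ((43 / 24 : ℝ) * (s : ℝ)) * pw j * ((2 : ℝ) ^ ((2 : ℝ) * (s : ℝ)) *
        (ml j / max (n : ℝ) (ml j)) ^ (3 / 2 : ℝ)) := by gcongr
    _ = _ := by ring

/-- pr increases with the level -/
lemma pr_mono (n j s : ℕ) : pr n j ≤ pr n (j + s) := by
  rw [pr_eq, pr_eq]
  have h1 : (1 : ℝ) ≤ (2 : ℝ) ^ ((43 / 24 : ℝ) * (s : ℝ)) := Real.one_le_rpow (by norm_num) (by positivity)
  have h2 : pw j ≤ pw (j + s) := by
    rw [pw_add]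
    have := pw_pos j
    nlinarith
  have h3 : ml j / max (n : ℝ) (ml j) ≤ ml (j + s) / max (n : ℝ) (ml (j + s)) := by
    have hm : ml j ≤ ml (j + s) := ml_le (Nat.le_add_right j s)
    have hj := ml_pos j
    have hjs := ml_pos (j + s)
    rw [div_le_div_iff₀ (max_pos n j) (max_pos n (j + s))]
    rcases le_total (n : ℝ) (ml j) with h | h
    · rw [max_eq_right h, max_eq_right (h.trans hm)]
      linarith
    · rw [max_eq_left h]
      rcases le_total (n : ℝ) (ml (j + s)) with h' | h'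
      · rw [max_eq_right h']
        nlinarith
      · rw [max_eq_left h']
        have : (0 : ℝ) ≤ n := Nat.cast_nonneg n
        nlinarith
  have h4 : 0 ≤ ml j / max (n : ℝ) (ml j) := (div_pos (ml_pos j) (max_pos n j)).le
  exact mul_le_mul h2 (Real.rpow_le_rpow h4 h3 (by norm_num)) (Real.rpow_nonneg h4 _) (pw_pos _).le

/-- a missing length -/
lemma pr_sub (n y i : ℕ) : pr (n - y) i ≤ (1 + (y : ℝ) / ml i) ^ (3 / 2 : ℝ) * pr n i := by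
  rw [pr_eq, pr_eq]
  have hm := ml_pos i
  have hy : (0 : ℝ) ≤ y := Nat.cast_nonneg y
  have h1 : (1 : ℝ) ≤ 1 + (y : ℝ) / ml i := by
    have : 0 ≤ (y : ℝ) / ml i := by positivity
    linarith
  have h0 : max (n : ℝ) (ml i) ≤ (1 + (y : ℝ) / ml i) * max ((n - y : ℕ) : ℝ) (ml i) := by
    have e : (n : ℝ) ≤ ((n - y : ℕ) : ℝ) + y := by exact_mod_cast (by omega : n ≤ n - y + y)
    have e1 : ml i ≤ max ((n - y : ℕ) : ℝ) (ml i) := le_max_right _ _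
    have e2 : ((n - y : ℕ) : ℝ) ≤ max ((n - y : ℕ) : ℝ) (ml i) := le_max_left _ _
    have e3 : (y : ℝ) ≤ (y : ℝ) / ml i * max ((n - y : ℕ) : ℝ) (ml i) := by
      calc (y : ℝ) = (y : ℝ) / ml i * ml i := by field_simp
        _ ≤ _ := by gcongr
    apply max_le
    · nlinarith
    · nlinarith
  have h2 : ml i / max ((n - y : ℕ) : ℝ) (ml i) ≤ (1 + (y : ℝ) / ml i) * (ml i / max (n : ℝ) (ml i)) := by
    rw [← mul_div_assoc, div_le_div_iff₀ (max_pos _ i) (max_pos n i)]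
    nlinarith
  have h3 : (ml i / max ((n - y : ℕ) : ℝ) (ml i)) ^ (3 / 2 : ℝ) ≤
      (1 + (y : ℝ) / ml i) ^ (3 / 2 : ℝ) * (ml i / max (n : ℝ) (ml i)) ^ (3 / 2 : ℝ) := by
    rw [← Real.mul_rpow (by linarith) (div_pos hm (max_pos n i)).le]
    exact Real.rpow_le_rpow (div_pos hm (max_pos _ i)).le h2 (by norm_num)
  have hp := pw_pos i
  calc pw i * (ml i / max ((n - y : ℕ) : ℝ) (ml i)) ^ (3 / 2 : ℝ) ≤
      pw i * ((1 + (y : ℝ) / ml i) ^ (3 / 2 : ℝ) * (ml i / max (n : ℝ) (ml i)) ^ (3 / 2 : ℝ)) := by gcongr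
    _ = _ := by ring

/-- one letter less -/
lemma pr_pred (n i : ℕ) : pr (n - 1) i ≤ 4 * pr n i := by
  refine (pr_sub n 1 i).trans ?_
  have h1 := one_le_ml i
  have h2 : 1 + ((1 : ℕ) : ℝ) / ml i ≤ 2 := by
    have : (1 : ℝ) / ml i ≤ 1 := by
      rw [div_le_one (ml_pos i)]
      exact h1
    push_cast
    linarith
  have h3 : (1 + ((1 : ℕ) : ℝ) / ml i) ^ (3 / 2 : ℝ) ≤ 4 := by
    have h4 : (1 + ((1 : ℕ) : ℝ) / ml i) ^ (3 / 2 : ℝ) ≤ (2 : ℝ) ^ (3 / 2 : ℝ) :=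
      Real.rpow_le_rpow (by have := ml_pos i; positivity) h2 (by norm_num)
    have h5 : (2 : ℝ) ^ (3 / 2 : ℝ) ≤ (2 : ℝ) ^ (2 : ℝ) := Real.rpow_le_rpow_of_exponent_le (by norm_num) (by norm_num)
    have h6 : (2 : ℝ) ^ (2 : ℝ) = 4 := by
      rw [show (2 : ℝ) = ((2 : ℕ) : ℝ) by norm_num, Real.rpow_natCast]
      norm_num
    linarith
  exact mul_le_mul_of_nonneg_right h3 (pr_pos n i).le

/-! ### the classes -/

lemma hn_zero_le (p : Pt) : TIW.hn (p - 0) = TIW.hn p := by rw [sub_zero]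

lemma mem_F {n j : ℕ} {L : List Bool} : L ∈ F n j ↔
    L ∈ SA ∧ n ≤ L.length ∧ (L.length : ℝ) < n + ml j ∧ TIW.hn (TIW.en L) ≤ 2 ^ j := by
  unfold F Fz
  rw [Set.mem_ofPred_eq, sub_zero]

lemma F_sub_Fp (n j : ℕ) : F n j ⊆ Fp n j := by
  intro L h
  rw [mem_F] at h
  exact ⟨h.1, h.2.1, h.2.2.1, h.2.2.2.trans (by linarith)⟩

lemma F_mono {n j i : ℕ} (h : j ≤ i) : F n j ⊆ F n i := by
  intro L hL
  rw [mem_F] at hL ⊢
  refine ⟨hL.1, hL.2.1, hL.2.2.1.trans_le (by have := ml_le h; linarith), hL.2.2.2.trans ?_⟩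
  exact pow_le_pow_right₀ (by norm_num) h

lemma Fp_sub_F {n j : ℕ} (h : 1 ≤ j) : Fp n j ⊆ F n (j + 1) := by
  intro L hL
  rw [mem_F]
  refine ⟨hL.1, hL.2.1, hL.2.2.1.trans_le (by have := ml_le (Nat.le_succ j); linarith), hL.2.2.2.trans ?_⟩
  have h1 : (2 : ℤ) ^ 1 ≤ 2 ^ j := pow_le_pow_right₀ (by norm_num) h
  rw [pow_succ]
  linarith

lemma F_zero_top {n i j : ℕ} (h : j ≤ i) {D : ℝ} (hH : HF D n j) : HF D n i := fun n' k hn' hk => hH n' k hn' (h.trans hk)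

end ARM

end HexObs
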