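import Pool.Agent.ARM.DefsI
import Pool.Agent.ARM.Num
import Pool.Agent.NPR.TwoEnd

/-!
# ARM, row I3 (helper86): `inSt'_of : InPt → InSt'`: sum over the ends and the lengths of a window
-/

set_option autoImplicit false

namespace HexObs

namespace ARM

open Finset TS SDN SIM NTA TIP

open scoped ENNReal

/-- the points of a ball -/
lemma ball_box {p z : Pt} {R : ℤ} (h : TIW.hn (p - z) ≤ R) : p ∈ (Icc (z.1 - R) (z.1 + R)) ×ˢ (Icc (z.2 - R) (z.2 + R)) := by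
  have a1 : |ip (p - z) up| ≤ R := (le_max_left _ _).trans h
  have a2 : |ip (p - z) (rotL up)| ≤ R := ((le_max_left _ _).trans (le_max_right _ _)).trans h
  obtain ⟨x, y⟩ := p
  obtain ⟨x', y'⟩ := z
  simp only [ip, rotL, up, Prod.fst_sub, Prod.snd_sub] at a1 a2
  rw [abs_le] at a1 a2
  rw [mem_product, mem_Icc, mem_Icc]
  refine ⟨⟨?_, ?_⟩, ?_, ?_⟩ <;> simp only <;> linarith [a1.1, a1.2, a2.1, a2.2]

lemma box_card (z : Pt) (j : ℕ) :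
    ((((Icc (z.1 - (2 ^ j + 2)) (z.1 + (2 ^ j + 2))) ×ˢ (Icc (z.2 - (2 ^ j + 2)) (z.2 + (2 ^ j + 2)))).card : ℕ) : ℝ) ≤
      49 * 4 ^ j := by
  rw [card_product, Int.card_Icc, Int.card_Icc]
  have e1 : (z.1 + (2 ^ j + 2) + 1 - (z.1 - (2 ^ j + 2))).toNat = 2 * 2 ^ j + 5 := by
    have : z.1 + (2 ^ j + 2) + 1 - (z.1 - (2 ^ j + 2)) = ((2 * 2 ^ j + 5 : ℕ) : ℤ) := by push_cast; ring
    rw [this, Int.toNat_natCast]
  have e2 : (z.2 + (2 ^ j + 2) + 1 - (z.2 - (2 ^ j + 2))).toNat = 2 * 2 ^ j + 5 := by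
    have : z.2 + (2 ^ j + 2) + 1 - (z.2 - (2 ^ j + 2)) = ((2 * 2 ^ j + 5 : ℕ) : ℤ) := by push_cast; ring
    rw [this, Int.toNat_natCast]
  rw [e1, e2]
  have h1 : (1 : ℝ) ≤ 2 ^ j := one_le_pow₀ (by norm_num)
  have h2 : (4 : ℝ) ^ j = 2 ^ j * 2 ^ j := by rw [← mul_pow]; norm_num
  push_cast
  rw [h2]
  nlinarith

/-- a union over a finite set -/
lemma gf_bU {ι : Type} (s : Finset ι) (P : ι → Set (List Bool)) (Q : Set (List Bool)) (hQ : ∀ t ∈ Q, ∃ i ∈ s, t ∈ P i)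
    {x : ℝ≥0∞} (h : ∀ i ∈ s, gf (P i) ≤ x) : gf Q ≤ (s.card : ℝ≥0∞) * x := by
  classical
  have h1 : gf Q ≤ ∑ i ∈ s, gf (P i) := by
    have e : ∀ R : Set (List Bool), gf R = ∑' t : List Bool, if t ∈ R then wE t else 0 := fun R => gf_ind R
    rw [e Q]
    have e2 : ∑ i ∈ s, gf (P i) = ∑' t : List Bool, ∑ i ∈ s, (if t ∈ P i then wE t else 0) := by
      rw [Summable.tsum_finsetSum fun _ _ => ENNReal.summable]
      exact sum_congr rfl fun i _ => e (P i)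
    rw [e2]
    refine ENNReal.tsum_le_tsum fun t => ?_
    by_cases ht : t ∈ Q
    · rw [if_pos ht]
      obtain ⟨i, hi, hti⟩ := hQ t ht
      refine le_trans ?_ (single_le_sum (f := fun i => if t ∈ P i then wE t else 0) (fun _ _ => zero_le) hi)
      simp only [if_pos hti, le_refl]
    · rw [if_neg ht]
      exact zero_le
  refine h1.trans ((sum_le_card_nsmul s _ x h).trans (le_of_eq ?_))
  rw [nsmul_eq_mul]

/-- **row I3** -/
theorem inSt'_of (hI : InPt) : InSt' := by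
  intro η D c hη θ1 hθ1
  obtain ⟨B, m1, b1, hB, hI⟩ := hI (θ1 / 2) η D c (by positivity) hη
  obtain ⟨L, hL⟩ : ∃ L : ℝ, L = Real.logb 2 B + 1 := ⟨_, rfl⟩
  have hlog : 0 ≤ Real.logb 2 B := Real.logb_nonneg (by norm_num) hB
  have hL0 : 0 < L := by rw [hL]; linarith
  have hBL : B ≤ (2 : ℝ) ^ L := by
    have h1 : B = (2 : ℝ) ^ Real.logb 2 B := (Real.rpow_logb (by norm_num) (by norm_num) (by linarith)).symm
    rw [h1, hL]
    exact Real.rpow_le_rpow_of_exponent_le (by norm_num) (by linarith)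
  refine ⟨θ1 / 2 / L, by positivity, fun θ hθ hθ0 => ⟨m1, fun m0 hm0 => ⟨98 * B ^ m0, b1, by positivity,
    fun j l i m y z hj hjl hli hm hbm => ?_⟩⟩⟩
  have hji : j ≤ i := hjl.trans hli
  obtain ⟨s, hs⟩ : ∃ s : ℝ, s = (i : ℝ) - j := ⟨_, rfl⟩
  obtain ⟨u, hu⟩ : ∃ u : ℝ, u = (i : ℝ) - l := ⟨_, rfl⟩
  have hu0 : 0 ≤ u := by
    rw [hu]
    have : (l : ℝ) ≤ i := by exact_mod_cast hli
    linarith
  have hsu : u ≤ s := by
    rw [hu, hs]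
    have : (j : ℝ) ≤ l := by exact_mod_cast hjl
    linarith
  have hs0 : 0 ≤ s := hu0.trans hsu
  have hml := ml_pos j
  have hmli := ml_pos i
  have hUi := Ub_pos i
  have hml1 := one_le_ml j
  rw [← hs] at hm
  rw [← hs, ← hu]
  have hwt : 0 < (1 + (y : ℝ) / ml i) ^ (-(4 : ℝ)) := Real.rpow_pos_of_pos (by positivity) _
  -- one point
  obtain ⟨G, hG⟩ : ∃ G : ℝ, G = B ^ m * (2 : ℝ) ^ ((θ1 / 2 - 2 / 3) * u) * (1 + (y : ℝ) / ml i) ^ (-(4 : ℝ)) *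
    (Ub i / (4 ^ i * ml i)) := ⟨_, rfl⟩
  have hG0 : 0 ≤ G := by rw [hG]; positivity
  have h1 := gf_bU ((Ico y (y + ⌈ml j⌉₊)) ×ˢ ((Icc (z.1 - (2 ^ j + 2)) (z.1 + (2 ^ j + 2))) ×ˢ
      (Icc (z.2 - (2 ^ j + 2)) (z.2 + (2 ^ j + 2)))))
    (fun p => {Y | Y ∈ SA ∧ Y ∈ St η D (i - m) ∧ In (2 ^ (i + c)) Y ∧ Y.length = p.1 ∧ TIW.en Y = p.2 ∧ 2 ^ i < 4 * dz Y 0 ∧
      Y ∈ Vis l i})
    {Y | Y ∈ SA ∧ Y ∈ St η D (i - m) ∧ In (2 ^ (i + c)) Y ∧ y ≤ Y.length ∧ (Y.length : ℝ) < y + ml j ∧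
      TIW.hn (TIW.en Y - z) ≤ 2 ^ j + 2 ∧ 2 ^ i < 4 * dz Y 0 ∧ Y ∈ Vis l i} (by
      rintro Y ⟨y1, y2, y3, y4, y5, y6, y7, y8⟩
      refine ⟨(Y.length, TIW.en Y), ?_, y1, y2, y3, rfl, rfl, y7, y8⟩
      rw [mem_product]
      refine ⟨?_, ball_box y6⟩
      rw [mem_Ico]
      refine ⟨y4, ?_⟩
      have : (Y.length : ℝ) < ((y + ⌈ml j⌉₊ : ℕ) : ℝ) := by
        push_cast
        have := Nat.le_ceil (ml j)
        linarith
      exact_mod_cast this)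
    (x := ENNReal.ofReal G * Xb i) (by
      rintro ⟨y', z'⟩ hp
      rw [mem_product, mem_Ico] at hp
      refine (hI (i - m) l i m y' z' (by omega) (by omega) (by omega) (by omega) hli).trans ?_
      refine mul_le_mul_left (ENNReal.ofReal_le_ofReal ?_) _
      rw [hG, ← hu]
      have h2 : (1 + (y' : ℝ) / ml i) ^ (-(4 : ℝ)) ≤ (1 + (y : ℝ) / ml i) ^ (-(4 : ℝ)) := by
        refine Real.rpow_le_rpow_of_nonpos (by positivity) ?_ (by norm_num)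
        have : (y : ℝ) ≤ y' := by exact_mod_cast hp.1.1
        gcongr
      gcongr)
  refine h1.trans ?_
  rw [card_product, Nat.card_Ico, Nat.add_sub_cancel_left, ← mul_assoc]
  refine mul_le_mul_left ?_ _
  rw [← ENNReal.ofReal_natCast, ← ENNReal.ofReal_mul (by positivity)]
  refine ENNReal.ofReal_le_ofReal ?_
  have h3 := box_card z j
  have h4 : (⌈ml j⌉₊ : ℝ) ≤ 2 * ml j := by
    have := Nat.ceil_lt_add_one hml.le
    linarith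
  push_cast at h3 ⊢
  obtain ⟨K, hK⟩ : ∃ K : ℝ, K = (((Icc (z.1 - (2 ^ j + 2)) (z.1 + (2 ^ j + 2))) ×ˢ
    (Icc (z.2 - (2 ^ j + 2)) (z.2 + (2 ^ j + 2)))).card : ℝ) := ⟨_, rfl⟩
  rw [← hK] at h3 ⊢
  have hK0 : 0 ≤ K := by rw [hK]; positivity
  have h5 : (⌈ml j⌉₊ : ℝ) * K ≤ 98 * (4 ^ j * ml j) := by
    calc (⌈ml j⌉₊ : ℝ) * K ≤ 2 * ml j * (49 * 4 ^ j) := by gcongr
      _ = _ := by ring
  -- the powers
  have h6 : B ^ m ≤ B ^ m0 * (2 : ℝ) ^ (θ1 / 2 * s) := by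
    rw [hm, pow_add, mul_comm]
    refine mul_le_mul_of_nonneg_left ?_ (by positivity)
    have h7 : (⌊θ * s⌋₊ : ℝ) ≤ θ * s := Nat.floor_le (by positivity)
    calc B ^ ⌊θ * s⌋₊ ≤ ((2 : ℝ) ^ L) ^ ⌊θ * s⌋₊ := pow_le_pow_left₀ (by linarith) hBL _
      _ = (2 : ℝ) ^ (L * (⌊θ * s⌋₊ : ℝ)) := by rw [Real.rpow_mul (by norm_num), Real.rpow_natCast]
      _ ≤ _ := by
          refine Real.rpow_le_rpow_of_exponent_le (by norm_num) ?_
          rw [le_div_iff₀ hL0] at hθ0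
          calc L * (⌊θ * s⌋₊ : ℝ) ≤ L * (θ * s) := mul_le_mul_of_nonneg_left h7 hL0.le
            _ = θ * L * s := by ring
            _ ≤ θ1 / 2 * s := mul_le_mul_of_nonneg_right hθ0 hs0
  have h8 : 4 ^ j * ml j = (2 : ℝ) ^ (-(10 / 3) * s) * (4 ^ i * ml i) := by
    have e1 : (4 : ℝ) ^ j = (2 : ℝ) ^ ((2 : ℝ) * (j : ℝ)) := by
      rw [Real.rpow_mul (by norm_num), Real.rpow_natCast]
      norm_num
    have e2 : (4 : ℝ) ^ i = (2 : ℝ) ^ ((2 : ℝ) * (i : ℝ)) := by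
      rw [Real.rpow_mul (by norm_num), Real.rpow_natCast]
      norm_num
    unfold ml
    rw [e1, e2, ← Real.rpow_add (by norm_num), ← Real.rpow_add (by norm_num), ← Real.rpow_add (by norm_num)]
    congr 1
    rw [hs]
    ring
  have h9 : 0 < 4 ^ i * ml i := by positivity
  calc (⌈ml j⌉₊ : ℝ) * K * G ≤ 98 * (4 ^ j * ml j) * G := mul_le_mul_of_nonneg_right h5 hG0
    _ = 98 * B ^ m * ((2 : ℝ) ^ (-(10 / 3) * s) * (2 : ℝ) ^ ((θ1 / 2 - 2 / 3) * u)) *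
          (1 + (y : ℝ) / ml i) ^ (-(4 : ℝ)) * Ub i := by
        rw [h8, hG]
        field_simp
    _ ≤ 98 * (B ^ m0 * (2 : ℝ) ^ (θ1 / 2 * s)) * ((2 : ℝ) ^ (-(10 / 3) * s) * (2 : ℝ) ^ ((θ1 / 2 - 2 / 3) * u)) *
          (1 + (y : ℝ) / ml i) ^ (-(4 : ℝ)) * Ub i := by gcongr
    _ = 98 * B ^ m0 * ((2 : ℝ) ^ (θ1 / 2 * s) * ((2 : ℝ) ^ (-(10 / 3) * s) * (2 : ℝ) ^ ((θ1 / 2 - 2 / 3) * u))) *
          (1 + (y : ℝ) / ml i) ^ (-(4 : ℝ)) * Ub i := by ring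
    _ ≤ _ := by
        rw [← Real.rpow_add (by norm_num), ← Real.rpow_add (by norm_num)]
        have h10 : (2 : ℝ) ^ (θ1 / 2 * s + (-(10 / 3) * s + (θ1 / 2 - 2 / 3) * u)) ≤
            (2 : ℝ) ^ ((θ1 - 10 / 3) * s - 2 / 3 * u) := by
          refine Real.rpow_le_rpow_of_exponent_le (by norm_num) ?_
          nlinarith
        gcongr

end ARM

end HexObs
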