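import Pool.Agent.ARM.PlcS

/-!
# ARM, row L4 (helper94), part a: placed parts of self-avoiding words, classes of placed words

* `Cx`: placed words with an index, a condition at the start and one at the end; `Wx`: the minimal ones;
* `mark_eqx`: two minimal markings of one word are equal;
* `sum_decx`: all from the minimal ones.
-/

set_option autoImplicit false

namespace HexObs

namespace ARM

namespace J3

open Finset TS SDN SIM NTA TIP G3

open scoped ENNReal

variable {E : ℕ → Pt} {r : ℕ} {D : ℤ} {k : ℕ} {p c : Pt} {w : List Bool} {N a b a' b' : ℕ}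

/-- a part of a self-avoiding word -/
lemma sl_SAx (hw : w ∈ SA) (a b : ℕ) : sl w a b ∈ SA := by
  unfold sl
  exact SA_take (SA_drop hw a) (b - a)

/-- the end of a part -/
lemma sl_en (hab : a ≤ b) (hb : b ≤ w.length) (hu : Up w c a = up) :
    Vp w p c a + TIW.en (sl w a b) = Vp w p c b := by
  unfold TIW.en
  rw [sl_len hb]
  have h1 := (part_up (w := w) (c := c) (a := a) (p := p) (m := b - a) (i := b - a) hu le_rfl (by omega)).1
  unfold sl
  rw [h1, show a + (b - a) = b by omega]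
  abel

/-- **a placed part is a placed word** -/
lemma Pl.plcx (hw : w ∈ SA) (hab : a ≤ b) (hb : b ≤ w.length)
    (h : Pl E r D k (Vp w p c) (Up w c) a b) : Plc E r D k (Vp w p c a) (sl w a b) := by
  have hl : (sl w a b).length = b - a := sl_len hb
  have hv : ∀ i, i ≤ (sl w a b).length → vx oo up (sl w a b) i = Vp w p c (a + i) - Vp w p c a := by
    intro i hi
    rw [hl] at hi
    exact (part_up h.ua hi (by omega)).1
  have hen : TIW.en (sl w a b) = Vp w p c b - Vp w p c a := by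
    rw [← sl_en (p := p) hab hb h.ua]
    abel
  have hde : TIW.de (sl w a b) = Up w c b := by
    unfold TIW.de
    rw [hl]
    have h1 := (part_up (w := w) (c := c) (a := a) (p := p) (m := b - a) h.ua (i := b - a) le_rfl (by omega)).2
    rw [show a + (b - a) = b by omega] at h1
    exact h1
  refine ⟨sl_SAx hw a b, by rw [hde, h.ub], h.sa, ?_, fun i hi j hj hj' hn => ?_, fun i hi hn => ?_, fun i hi hi' hn => ?_⟩
  · rw [hen, add_sub_cancel]
    exact h.tb
  · rw [hv i hi, add_sub_cancel] at hn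
    rw [hl] at hi
    exact h.mid (a + i) (by omega) (by omega) j hj hj' hn
  · rw [hv i hi, add_sub_cancel] at hn
    rw [hv i hi, hen]
    rw [hl] at hi
    have h1 := h.fst (a + i) (by omega) (by omega) hn
    have e1 : Vp w p c (a + i) - Vp w p c a - (Vp w p c b - Vp w p c a) = Vp w p c (a + i) - Vp w p c b := by abel
    rw [e1]
    exact h1
  · rw [hv i hi', add_sub_cancel] at hn
    rw [hv i hi']
    rw [hl] at hi'
    exact h.lst (a + i) (by omega) (by omega) hn

/-- **the difference of two markings at one end is a bridge** -/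
lemma part_bux {d : Pt} (hd : d ∈ dirs) (hw : w ∈ SA) (hab : a ≤ b) (hb : b ≤ w.length)
    (hua : Up w c a = d) (hub : Up w c b = d)
    (h : ∀ i, a ≤ i → i ≤ b → (a < i → 0 < ip (Vp w p c i - Vp w p c a) d) ∧ ip (Vp w p c i - Vp w p c b) d ≤ 0) :
    sl w a b ∈ BU := by
  have hl : (sl w a b).length = b - a := sl_len hb
  obtain ⟨h1, h2⟩ := frame_dir hd
  obtain ⟨u, hu⟩ : ∃ u, u = rotTo up d := ⟨_, rfl⟩
  rw [← hu] at h1 h2
  have hun : nrm u = 1 := mem_dirs.1 h1
  have hv : ∀ i, i ≤ b - a → mulE u (vx oo up (sl w a b) i) = Vp w p c (a + i) - Vp w p c a ∧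
      mulE u (dx up (sl w a b) i) = Up w c (a + i) := by
    intro i hi
    exact part_vx (by rw [← h2, hua]) hun hi (by omega)
  have hlev : ∀ i, i ≤ b - a → lev (sl w a b) i = ip (Vp w p c (a + i) - Vp w p c a) d := by
    intro i hi
    rw [← (hv i hi).1, h2, ip_mulE, hun, one_mul]
    rfl
  refine bu_of (sl_SAx hw a b) ?_ (fun i h3 h4 => ?_) (fun i h4 => ?_)
  · rw [hl]
    have h5 := (hv (b - a) le_rfl).2
    rw [show a + (b - a) = b by omega, hub, h2] at h5
    exact mulE_inj hun h5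
  · rw [hl] at h4
    rw [hlev i h4]
    exact (h (a + i) (by omega) (by omega)).1 (by omega)
  · rw [hl] at h4 ⊢
    rw [hlev i h4, hlev (b - a) le_rfl, show a + (b - a) = b by omega]
    have h5 := (h (a + i) (by omega) (by omega)).2
    have e1 : Vp w p c (a + i) - Vp w p c b = (Vp w p c (a + i) - Vp w p c a) - (Vp w p c b - Vp w p c a) := by abel
    rw [e1, AR.ip_sub_left] at h5
    linarith

/-! ### Classes -/

/-- **a class of placed words**: index and place of the start, word -/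
def Cx (E : ℕ → Pt) (r : ℕ) (D : ℤ) (k : ℕ) (Ps Pe : ℕ → Pt → Prop) (x : ℕ × (Pt × List Bool)) : Prop :=
  Plc E r D k x.2.1 x.2.2 ∧ Ps x.1 x.2.1 ∧ Pe (x.1 + x.2.2.length) (x.2.1 + TIW.en x.2.2)

/-- the minimal ones -/
def Wx (E : ℕ → Pt) (r : ℕ) (D : ℤ) (k : ℕ) (Ps Pe : ℕ → Pt → Prop) (x : ℕ × (Pt × List Bool)) : Prop :=
  Cx E r D k Ps Pe x ∧ ∀ Z1 I Z2 : List Bool, Z1 ∈ BU → Z2 ∈ BU → x.2.2 = Z1 ++ (I ++ Z2) →
    Cx E r D k Ps Pe (x.1 + Z1.length, (x.2.1 + TIW.en Z1, I)) → Z1 = [] ∧ Z2 = []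

variable {Ps Pe : ℕ → Pt → Prop}

/-- one of two markings, minimal -/
lemma mark_lex (hE : IPg E r) (hr : 3 ≤ r) (hD : 2 ^ (k + 12) ≤ D) (hc : nrm c = 1) (hw : w ∈ SA) (hN : w.length = N)
    (h : Tr E r D k (Vp w p c) (Up w c) N a b) (h' : Tr E r D k (Vp w p c) (Up w c) N a' b')
    (s1 : Ps a (Vp w p c a)) (s2 : Ps a' (Vp w p c a')) (t1 : Pe b (Vp w p c b)) (t2 : Pe b' (Vp w p c b'))
    (hm : Wx E r D k Ps Pe (a, (Vp w p c a, sl w a b))) : a' ≤ a ∧ b ≤ b' := by
  have hst : ∀ i, i < N → TIW.hn (Vp w p c (i + 1) - Vp w p c i) ≤ 2 := fun i _ => Vp_step hc i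
  have m1 : a' ≤ b := h.meet hE hr hD hst h'
  have m2 : a ≤ b' := h'.meet hE hr hD hst h
  have hab := h.ab
  have hab' := h'.ab
  have hbN := h.bN
  have hbN' := h'.bN
  have hI := h.inter h'
  have i1 : a ≤ max a a' := le_max_left _ _
  have i2 : max a a' ≤ min b b' := by omega
  have i3 : min b b' ≤ b := min_le_left _ _
  have hIp : Plc E r D k (Vp w p c (max a a')) (sl w (max a a') (min b b')) := Pl.plcx hw i2 (by omega) hI
  have z1 : sl w a (max a a') ∈ BU := by
    rcases Nat.lt_or_ge a a' with h1 | h1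
    · rw [max_eq_right h1.le]
      refine part_bux (p := p) (c := c) up_dirs hw h1.le (by omega) h.ua h'.ua ?_
      exact h.dif1 hE hr hD hst h' h1.le
    · rw [max_eq_left h1]
      unfold sl
      rw [Nat.sub_self, List.take_zero]
      exact nil_BU
  have z2 : sl w (min b b') b ∈ BU := by
    rcases Nat.lt_or_ge b' b with h1 | h1
    · rw [min_eq_right h1.le]
      refine part_bux (p := p) (c := c) (hE.dir 0 (by omega)) hw h1.le (by omega) h'.ub h.ub ?_
      exact h.dif2 hE hr hD hst h' h1.le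
    · rw [min_eq_left h1]
      unfold sl
      rw [Nat.sub_self, List.take_zero]
      exact nil_BU
  have hcat : sl w a b = sl w a (max a a') ++ (sl w (max a a') (min b b') ++ sl w (min b b') b) := by
    rw [← sl_cat i2 i3, ← sl_cat i1 (by omega)]
  have hl1 : (sl w a (max a a')).length = max a a' - a := sl_len (by omega)
  have hl2 : (sl w (max a a') (min b b')).length = min b b' - max a a' := sl_len (by omega)
  obtain ⟨e1, e2⟩ := hm.2 _ _ _ z1 z2 hcat (by
    refine ⟨?_, ?_, ?_⟩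
    · show Plc E r D k (Vp w p c a + TIW.en (sl w a (max a a'))) (sl w (max a a') (min b b'))
      rw [sl_en i1 (by omega) h.ua]
      exact hIp
    · show Ps (a + (sl w a (max a a')).length) (Vp w p c a + TIW.en (sl w a (max a a')))
      rw [sl_en i1 (by omega) h.ua, hl1, show a + (max a a' - a) = max a a' by omega]
      rcases max_choice a a' with e | e <;> rw [e]
      · exact s1
      · exact s2
    · show Pe (a + (sl w a (max a a')).length + (sl w (max a a') (min b b')).length)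
        (Vp w p c a + TIW.en (sl w a (max a a')) + TIW.en (sl w (max a a') (min b b')))
      rw [sl_en i1 (by omega) h.ua, sl_en i2 (by omega) hI.ua, hl1, hl2,
        show a + (max a a' - a) + (min b b' - max a a') = min b b' by omega]
      rcases min_choice b b' with e | e <;> rw [e]
      · exact t1
      · exact t2)
  have e3 := congrArg List.length e1
  have e4 := congrArg List.length e2
  rw [sl_len (by omega)] at e3 e4
  simp only [List.length_nil] at e3 e4
  omega

/-- **uniqueness** -/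
theorem mark_eqx (hE : IPg E r) (hr : 3 ≤ r) (hD : 2 ^ (k + 12) ≤ D) (hc : nrm c = 1) (hw : w ∈ SA) (hN : w.length = N)
    (h : Tr E r D k (Vp w p c) (Up w c) N a b) (h' : Tr E r D k (Vp w p c) (Up w c) N a' b')
    (hm : Wx E r D k Ps Pe (a, (Vp w p c a, sl w a b))) (hm' : Wx E r D k Ps Pe (a', (Vp w p c a', sl w a' b'))) :
    a = a' ∧ b = b' := by
  have hbN := h.bN
  have hbN' := h'.bN
  have hab := h.ab
  have hab' := h'.ab
  have t1 : Pe b (Vp w p c b) := by
    have h1 := hm.1.2.2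
    simp only at h1
    rw [sl_en hab (by omega) h.ua, sl_len (by omega), show a + (b - a) = b by omega] at h1
    exact h1
  have t2 : Pe b' (Vp w p c b') := by
    have h1 := hm'.1.2.2
    simp only at h1
    rw [sl_en hab' (by omega) h'.ua, sl_len (by omega), show a' + (b' - a') = b' by omega] at h1
    exact h1
  have h1 := mark_lex hE hr hD hc hw hN h h' hm.1.2.1 hm'.1.2.1 t1 t2 hm
  have h2 := mark_lex hE hr hD hc hw hN h' h hm'.1.2.1 hm.1.2.1 t2 t1 hm'
  omega

/-! ### The minimal decomposition -/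

lemma min_decx : ∀ (n i : ℕ) (s : Pt) (M : List Bool), M.length = n → Cx E r D k Ps Pe (i, (s, M)) →
    ∃ Z1 I Z2 : List Bool, Z1 ∈ BU ∧ Z2 ∈ BU ∧ M = Z1 ++ (I ++ Z2) ∧
      Wx E r D k Ps Pe (i + Z1.length, (s + TIW.en Z1, I)) := by
  intro n
  induction n using Nat.strong_induction_on with
  | _ n ih =>
    intro i s M hn hP
    by_cases hm : Wx E r D k Ps Pe (i, (s, M))
    · refine ⟨[], M, [], nil_BU, nil_BU, by simp, ?_⟩
      have : TIW.en ([] : List Bool) = 0 := rfl
      rw [this, add_zero]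
      exact hm
    · have h1 : ¬ ∀ Z1 I Z2 : List Bool, Z1 ∈ BU → Z2 ∈ BU → M = Z1 ++ (I ++ Z2) →
          Cx E r D k Ps Pe (i + Z1.length, (s + TIW.en Z1, I)) → Z1 = [] ∧ Z2 = [] := fun h => hm ⟨hP, h⟩
      push Not at h1
      obtain ⟨Z1, I, Z2, z1, z2, he, hI, h2⟩ := h1
      have hlt : I.length < n := by
        have h3 := congrArg List.length he
        rw [List.length_append, List.length_append, hn] at h3
        rcases Nat.eq_zero_or_pos Z1.length with h4 | h4
        · have h5 := h2 (List.length_eq_zero_iff.1 h4)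
          have h6 : 0 < Z2.length := List.length_pos_iff.2 h5
          omega
        · omega
      obtain ⟨Y1, J, Y2, y1, y2, he', hJ⟩ := ih I.length hlt (i + Z1.length) (s + TIW.en Z1) I rfl hI
      refine ⟨Z1 ++ Y1, J, Y2 ++ Z2, BU_app z1 y1, BU_app y2 z2, ?_, ?_⟩
      · rw [he, he']
        simp only [List.append_assoc]
      · rw [en_bu z1, ← add_assoc, List.length_append, ← add_assoc]
        exact hJ

/-- **all from the minimal ones** -/
theorem sum_decx : ∑' x : {x | Cx E r D k Ps Pe x}, wE (x : ℕ × (Pt × List Bool)).2.2 ≤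
    gf (G3.BL k) * (gf (G3.BL k) * ∑' y : {y | Wx E r D k Ps Pe y}, wE (y : ℕ × (Pt × List Bool)).2.2) := by
  classical
  have key : ∀ x : ℕ × (Pt × List Bool), Cx E r D k Ps Pe x → ∃ Z1 I Z2 : List Bool, Z1 ∈ BU ∧ Z2 ∈ BU ∧
      x.2.2 = Z1 ++ (I ++ Z2) ∧ Wx E r D k Ps Pe (x.1 + Z1.length, (x.2.1 + TIW.en Z1, I)) :=
    fun x hx => min_decx x.2.2.length x.1 x.2.1 x.2.2 rfl hx
  choose! f g h hf using key
  have e1 : gf (G3.BL k) * (gf (G3.BL k) * ∑' y : {y | Wx E r D k Ps Pe y}, wE (y : ℕ × (Pt × List Bool)).2.2) =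
      ∑' p : G3.BL k × (G3.BL k × {y | Wx E r D k Ps Pe y}),
        wE (p.1 : List Bool) * (wE (p.2.1 : List Bool) * wE (p.2.2 : ℕ × (Pt × List Bool)).2.2) := by
    rw [ENNReal.tsum_prod']
    unfold gf
    rw [← ENNReal.tsum_mul_right]
    refine tsum_congr fun Z1 => ?_
    show _ = ∑' b : G3.BL k × {y | Wx E r D k Ps Pe y}, wE (Z1 : List Bool) *
      (wE (b.1 : List Bool) * wE (b.2 : ℕ × (Pt × List Bool)).2.2)
    rw [ENNReal.tsum_mul_left]
    congr 1
    rw [ENNReal.tsum_prod', ← ENNReal.tsum_mul_right]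
    refine tsum_congr fun Z2 => ?_
    show _ = ∑' b : {y | Wx E r D k Ps Pe y}, wE (Z2 : List Bool) * wE (b : ℕ × (Pt × List Bool)).2.2
    rw [ENNReal.tsum_mul_left]
  rw [e1]
  have hmem : ∀ x : ℕ × (Pt × List Bool), Cx E r D k Ps Pe x → f x ∈ G3.BL k ∧ h x ∈ G3.BL k := by
    intro x hx
    obtain ⟨h1, h2, h3, h4⟩ := hf x hx
    have hP := hx.1
    rw [h3] at hP
    obtain ⟨h5, h6⟩ := dec_hgt h1 h2 hP h4.1.1
    exact ⟨⟨h1, h5⟩, ⟨h2, h6⟩⟩
  let φ : {x | Cx E r D k Ps Pe x} → G3.BL k × (G3.BL k × {y | Wx E r D k Ps Pe y}) := fun x =>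
    (⟨f x, (hmem x x.2).1⟩, (⟨h x, (hmem x x.2).2⟩,
      ⟨((x : ℕ × (Pt × List Bool)).1 + (f x).length, ((x : ℕ × (Pt × List Bool)).2.1 + TIW.en (f x), g x)),
        (hf x x.2).2.2.2⟩))
  have hφ : Function.Injective φ := by
    intro x y hxy
    have a1 : f (x : ℕ × (Pt × List Bool)) = f (y : ℕ × (Pt × List Bool)) := congrArg (fun p => ((p.1 : G3.BL k) : List Bool)) hxy
    have a2 : h (x : ℕ × (Pt × List Bool)) = h (y : ℕ × (Pt × List Bool)) :=
      congrArg (fun p => ((p.2.1 : G3.BL k) : List Bool)) hxy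
    have a3 : ((x : ℕ × (Pt × List Bool)).1 + (f x).length, ((x : ℕ × (Pt × List Bool)).2.1 + TIW.en (f x), g x)) =
        ((y : ℕ × (Pt × List Bool)).1 + (f y).length, ((y : ℕ × (Pt × List Bool)).2.1 + TIW.en (f y), g y)) :=
      congrArg (fun p => (p.2.2 : ℕ × (Pt × List Bool))) hxy
    rw [Prod.mk.injEq, Prod.mk.injEq] at a3
    obtain ⟨a6, a4, a5⟩ := a3
    apply Subtype.ext
    apply Prod.ext
    · rw [a1] at a6
      exact Nat.add_right_cancel a6
    apply Prod.ext
    · rw [a1] at a4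
      exact add_right_cancel a4
    · rw [(hf x x.2).2.2.1, (hf y y.2).2.2.1, a1, a2, a5]
  refine le_trans (le_of_eq (tsum_congr fun x => ?_)) (ENNReal.tsum_comp_le_tsum_of_injective hφ _)
  show wE (x : ℕ × (Pt × List Bool)).2.2 = wE (f x) * (wE (h x) * wE (g x))
  rw [← wE_append, ← wE_append]
  have h1 := (hf x x.2).2.2.1
  unfold wE
  rw [h1]
  simp only [List.length_append]
  congr 2
  ring

end J3

end ARM

end HexObs
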