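import Pool.Agent.ARM.LowMom

/-!
# ARM, row G3 (helper87): `jMass_of : TubeSt -> P1 -> JMass`
-/

set_option autoImplicit false

namespace HexObs

namespace ARM

namespace G3

open Finset TS SDN SIM NTA TIP

open scoped ENNReal

variable {E : ℕ → Pt} {r : ℕ} {D : ℤ} {k : ℕ}

lemma ml_pos (k : ℕ) : 0 < ml k := by
  unfold ml
  positivity

/-! ### 1. The mass of the tubes -/

lemma rc_rt (M : List Bool) (p : Pt) : mulE (rc M) (mulE (TIW.rt M) p) = p := by
  unfold rc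
  rw [mulE_assoc, mulE_comm (conjE _), mulE_conjE, TIW.nrm_rt, mulE_one]

lemma cl_rc (M : List Bool) : cl (rc M) * cl (TIW.de M) = cl up := by
  have h1 : mulE (rc M) (TIW.de M) = up := by
    rw [← TIW.rt_up M, rc_rt]
  rw [← cl_mulE, h1]

/-- numbers of the same parity -/
lemma par_card (q0 q1 a : ℕ) : (q1 - q0) / 2 ≤ ((Icc q0 q1).filter fun b => b % 2 = a % 2).card := by
  classical
  obtain ⟨s, hs1, hs2, hs3⟩ : ∃ s, q0 ≤ s ∧ s ≤ q0 + 1 ∧ s % 2 = a % 2 := by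
    by_cases h : q0 % 2 = a % 2
    · exact ⟨q0, le_rfl, by omega, h⟩
    · exact ⟨q0 + 1, by omega, le_rfl, by omega⟩
  calc (q1 - q0) / 2 = (range ((q1 - q0) / 2)).card := (card_range _).symm
    _ ≤ _ := by
      refine card_le_card_of_injOn (fun i => s + 2 * i) ?_ ?_
      · intro i hi
        rw [mem_coe, mem_range] at hi
        show s + 2 * i ∈ ((Icc q0 q1).filter fun b => b % 2 = a % 2 : Finset ℕ)
        rw [mem_filter, mem_Icc]
        omega
      · intro i _ j _ h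
        simp only at h
        omega

/-- **the tubes behind a placed word** -/
lemma tube_mass {H Mx k0 : ℕ} {c : ℝ} (hc : 0 < c)
    (hT : ∀ (k r b : ℕ) (D : ℤ) (e : ℕ → Pt) (z : Pt), k0 ≤ k →
    18 * (H * 2 ^ k) ≤ D → D ≤ 36 * (H * 2 ^ k) → 1 ≤ r → r ≤ Mx → IPg e r → e 0 = up →
    TIW.hn (z - AR.pv e D r) ≤ 2 ^ (k + 2) → cl z = (if Even b then 0 else 2) →
    cl (e (r - 1)) = (if Even b then 2 else 1) → 1 * ml k ≤ b → (b : ℝ) ≤ 3 * ml k →
    ENNReal.ofReal (c * (Ub k / (4 ^ k * ml k))) ≤ gf {Q | TubeQ e D (2 ^ (k + 9)) r z Q ∧ Q.length = b})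
    (hk : k0 ≤ k) (hD1 : 18 * (H * 2 ^ k) ≤ D) (hD2 : D ≤ 36 * (H * 2 ^ k)) (hr : 1 ≤ r) (hr' : r ≤ Mx)
    (hE : IPg E r) (hup : E (r - 1) = up) {s : Pt} {M : List Bool} (hP : Plc E r D k s M) (hm : 4 ≤ ml k) :
    ENNReal.ofReal (c / 4 * (Ub k / 4 ^ k)) ≤ gf (QQ E r D k ⌈ml k⌉₊ ⌊3 * ml k⌋₊ M) := by
  classical
  have hU : 0 < Ub k := Num2Aux.UU_pos _
  have hml := ml_pos k
  obtain ⟨B, hB⟩ : ∃ B : Finset ℕ, B = (Icc ⌈ml k⌉₊ ⌊3 * ml k⌋₊).filter fun b => b % 2 = M.length % 2 := ⟨_, rfl⟩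
  have hcard : ml k / 4 ≤ (B.card : ℝ) := by
    have h1 := par_card ⌈ml k⌉₊ ⌊3 * ml k⌋₊ M.length
    rw [← hB] at h1
    have h2 : (⌈ml k⌉₊ : ℝ) < ml k + 1 := Nat.ceil_lt_add_one hml.le
    have h3 : 3 * ml k < ⌊3 * ml k⌋₊ + 1 := Nat.lt_floor_add_one _
    have h4 : ⌊3 * ml k⌋₊ ≤ 2 * B.card + 1 + ⌈ml k⌉₊ := by omega
    have h5 : (⌊3 * ml k⌋₊ : ℝ) ≤ 2 * B.card + 1 + ⌈ml k⌉₊ := by exact_mod_cast h4
    linarith
  have hsub : (⋃ b ∈ B, {Q | TP E r D k M Q ∧ Q.length = b}) ⊆ QQ E r D k ⌈ml k⌉₊ ⌊3 * ml k⌋₊ M := by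
    intro Q hQ
    rw [Set.mem_iUnion₂] at hQ
    obtain ⟨b, hb, hQ1, hQ2⟩ := hQ
    rw [hB, mem_filter, mem_Icc] at hb
    exact ⟨hQ1, by omega, by omega⟩
  refine le_trans ?_ (gf_mono hsub)
  have hdis : ∀ i ∈ B, ∀ j ∈ B, i ≠ j → Disjoint {Q | TP E r D k M Q ∧ Q.length = i} {Q | TP E r D k M Q ∧ Q.length = j} := by
    intro i _ j _ hij
    rw [Set.disjoint_left]
    rintro Q ⟨-, h1⟩ ⟨-, h2⟩
    exact hij (h1.symm.trans h2)
  rw [gf_biUnion _ _ hdis]
  have key : ∀ b ∈ B, ENNReal.ofReal (c * (Ub k / (4 ^ k * ml k))) ≤ gf {Q | TP E r D k M Q ∧ Q.length = b} := by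
    intro b hb
    rw [hB, mem_filter, mem_Icc] at hb
    obtain ⟨⟨hb1, hb2⟩, hb3⟩ := hb
    have hpar : Even b ↔ Even M.length := by
      rw [Nat.even_iff, Nat.even_iff, hb3]
    refine hT k r b D (fun i => mulE (rc M) (E i)) (mulE (rc M) (-(TIW.en M))) hk hD1 hD2 hr hr' (ipg_rot hE (nrm_rc M)) ?_ ?_ ?_ ?_ ?_ ?_
    · show mulE (rc M) (E 0) = up
      rw [← hP.de, ← TIW.rt_up M, rc_rt]
    · have e1 : mulE (rc M) (-(TIW.en M)) - AR.pv (fun i => mulE (rc M) (E i)) D r = mulE (rc M) (-(TIW.en M - qv E D r 0)) := by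
        unfold AR.pv
        rw [ps_rot, ← mulE_smul, ← mulE_sub]
        congr 1
        unfold qv
        rw [ps_zero, zero_sub, smul_neg]
        abel
      rw [e1, TIW.hn_mulE (nrm_rc M), TIW.hn_neg]
      have e2 : TIW.en M - qv E D r 0 = (s + TIW.en M - qv E D r 0) - s := by abel
      rw [e2]
      have e3 : (2 : ℤ) ^ (k + 2) = 2 ^ (k + 1) + 2 ^ (k + 1) := by ring
      rw [e3]
      exact (TIW.hn_sub _ _).trans (add_le_add hP.ht hP.hs)
    · have h1 := cl_rc M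
      have h2 : cl (TIW.de M) = if Even M.length then cl up else -cl up := cl_dx up M M.length
      have h3 : cl (TIW.en M) = if Even M.length then cl oo else cl oo + cl up := cl_vx oo up M M.length
      rw [cl_mulE, cl_neg, h3]
      rw [h2] at h1
      by_cases he : Even M.length
      · rw [if_pos he] at h1 ⊢
        rw [if_pos (hpar.2 he)]
        have : cl oo = 0 := by decide
        rw [this]
        ring
      · rw [if_neg he] at h1 ⊢
        rw [if_neg (fun h => he (hpar.1 h))]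
        have h4 : cl up = 2 := by decide
        have h5 : cl oo = 0 := by decide
        rw [h4] at h1
        rw [h4, h5, zero_add]
        exact h1
    · show cl (mulE (rc M) (E (r - 1))) = _
      rw [hup, cl_mulE]
      have h1 := cl_rc M
      have h2 : cl (TIW.de M) = if Even M.length then cl up else -cl up := cl_dx up M M.length
      rw [h2] at h1
      by_cases he : Even M.length
      · rw [if_pos he] at h1
        rw [if_pos (hpar.2 he), h1]
        decide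
      · rw [if_neg he] at h1
        rw [if_neg (fun h => he (hpar.1 h))]
        have h4 : cl up = 2 := by decide
        rw [h4] at h1 ⊢
        have h6 : cl (rc M) * 2 = -(cl (rc M) * -2) := by ring
        rw [h6, h1]
        decide
    · rw [one_mul]
      exact (Nat.le_ceil _).trans (by exact_mod_cast hb1)
    · exact (by exact_mod_cast hb2 : (b : ℝ) ≤ ⌊3 * ml k⌋₊).trans (Nat.floor_le (by positivity))
  refine le_trans ?_ (sum_le_sum key)
  rw [sum_const, nsmul_eq_mul]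
  have h6 : (B.card : ℝ≥0∞) = ENNReal.ofReal (B.card : ℝ) := (ENNReal.ofReal_natCast _).symm
  rw [h6, ← ENNReal.ofReal_mul (by positivity)]
  refine ENNReal.ofReal_le_ofReal ?_
  have h7 : c / 4 * (Ub k / 4 ^ k) = ml k / 4 * (c * (Ub k / (4 ^ k * ml k))) := by
    field_simp
  rw [h7]
  exact mul_le_mul_of_nonneg_right hcard (by positivity)

/-! ### 2. Numbers -/

lemma max_shift {n z : ℕ} {m : ℝ} (hm : 0 < m) :
    (max ((n - z : ℕ) : ℝ) m) ^ (-(3 / 2 : ℝ)) ≤ (max (n : ℝ) m) ^ (-(3 / 2 : ℝ)) * (1 + (z : ℝ) / m) ^ 2 := by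
  obtain ⟨a, ha⟩ : ∃ a, a = max ((n - z : ℕ) : ℝ) m := ⟨_, rfl⟩
  obtain ⟨b, hb⟩ : ∃ b, b = max (n : ℝ) m := ⟨_, rfl⟩
  rw [← ha, ← hb]
  have hma : m ≤ a := by
    rw [ha]
    exact le_max_right _ _
  have ha0 : 0 < a := lt_of_lt_of_le hm hma
  have hb0 : 0 < b := by
    rw [hb]
    exact lt_of_lt_of_le hm (le_max_right _ _)
  have hz : 0 ≤ (z : ℝ) / m := by positivity
  have hba : b ≤ a * (1 + (z : ℝ) / m) := by
    rw [hb]
    refine max_le ?_ ?_
    · have h1 : (n : ℝ) ≤ ((n - z : ℕ) : ℝ) + z := by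
        have : n ≤ (n - z) + z := by omega
        exact_mod_cast this
      have h2 : ((n - z : ℕ) : ℝ) ≤ a := by
        rw [ha]
        exact le_max_left _ _
      have h3 : (z : ℝ) ≤ a * ((z : ℝ) / m) := by
        rw [← mul_div_assoc, le_div_iff₀ hm, mul_comm]
        exact mul_le_mul_of_nonneg_right hma (by positivity)
      linarith
    · nlinarith
  have h4 : b ^ (3 / 2 : ℝ) ≤ a ^ (3 / 2 : ℝ) * (1 + (z : ℝ) / m) ^ 2 := by
    calc b ^ (3 / 2 : ℝ) ≤ (a * (1 + (z : ℝ) / m)) ^ (3 / 2 : ℝ) := Real.rpow_le_rpow hb0.le hba (by norm_num)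
      _ = a ^ (3 / 2 : ℝ) * (1 + (z : ℝ) / m) ^ (3 / 2 : ℝ) := Real.mul_rpow ha0.le (by positivity)
      _ ≤ _ := by
        refine mul_le_mul_of_nonneg_left ?_ (by positivity)
        rw [← Real.rpow_natCast (1 + (z : ℝ) / m) 2]
        refine Real.rpow_le_rpow_of_exponent_le (by linarith) ?_
        norm_num
  rw [Real.rpow_neg ha0.le, Real.rpow_neg hb0.le]
  have h5 : 0 < a ^ (3 / 2 : ℝ) := Real.rpow_pos_of_pos ha0 _
  have h6 : 0 < b ^ (3 / 2 : ℝ) := Real.rpow_pos_of_pos hb0 _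
  rw [inv_mul_eq_div, le_div_iff₀ h6, inv_mul_le_iff₀ h5]
  exact h4

/-- the closed words in a window -/
lemma cw_P1 {C : ℝ} (hC : 0 < C) (hP : ∀ N : ℕ, 1 ≤ N → gf (POL.Cy N) ≤ ENNReal.ofReal (C * (N : ℝ) ^ (-(3 / 2) : ℝ)))
    {n0 n1 : ℕ} {x : ℝ} (hx : 0 < x) (hn : 1 ≤ n0) (hx0 : x ≤ n0) :
    gf (CW n0 n1) ≤ ENNReal.ofReal (((n1 + 1 - n0 : ℕ) : ℝ) * (C * x ^ (-(3 / 2 : ℝ)))) := by
  refine (cw_mass n0 n1).trans ?_
  have h1 : ∀ N ∈ Icc n0 n1, gf (POL.Cy N) ≤ ENNReal.ofReal (C * x ^ (-(3 / 2 : ℝ))) := by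
    intro N hN
    rw [mem_Icc] at hN
    refine (hP N (by omega)).trans (ENNReal.ofReal_le_ofReal ?_)
    refine mul_le_mul_of_nonneg_left ?_ hC.le
    refine Real.rpow_le_rpow_of_nonpos hx ?_ (by norm_num)
    exact hx0.trans (by exact_mod_cast hN.1)
  refine (sum_le_sum h1).trans ?_
  rw [sum_const, Nat.card_Icc, nsmul_eq_mul]
  have h6 : (((n1 + 1 - n0 : ℕ) : ℕ) : ℝ≥0∞) = ENNReal.ofReal ((n1 + 1 - n0 : ℕ) : ℝ) := (ENNReal.ofReal_natCast _).symm
  rw [h6, ← ENNReal.ofReal_mul (by positivity)]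

/-- points with a small norm -/
lemma small_pts (k : ℕ) : ∃ S : Finset Pt, (∀ s ∈ S, TIW.hn s ≤ 2 ^ k) ∧ (4 : ℝ) ^ k / 36 ≤ (S.card : ℝ) := by
  obtain ⟨b, hb⟩ : ∃ b : ℕ, b = 2 ^ k / 6 := ⟨_, rfl⟩
  refine ⟨Icc (0 : ℤ) b ×ˢ Icc (0 : ℤ) b, fun s hs => ?_, ?_⟩
  · rw [mem_product, mem_Icc, mem_Icc] at hs
    obtain ⟨⟨h1, h2⟩, h3, h4⟩ := hs
    have h5 : 6 * b ≤ 2 ^ k := by
      rw [hb]
      exact Nat.mul_div_le _ _
    have h6 : (6 : ℤ) * b ≤ 2 ^ k := by exact_mod_cast h5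
    refine TIW.hn_le fun d hd => ?_
    have h7 := dir_bound hd
    unfold ip
    nlinarith [h7.1, h7.2.1, h7.2.2.1, h7.2.2.2]
  · rw [card_product, Int.card_Icc]
    have h1 : ((b : ℤ) + 1 - 0).toNat = b + 1 := by
      rw [sub_zero]
      have : ((b : ℤ) + 1) = ((b + 1 : ℕ) : ℤ) := by push_cast; ring
      rw [this, Int.toNat_natCast]
    rw [h1]
    have h2 : 2 ^ k < 6 * (b + 1) := by
      rw [hb]
      exact Nat.lt_mul_div_succ _ (by norm_num)
    have h3 : (2 : ℝ) ^ k ≤ 6 * (b + 1) := by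
      have : ((2 ^ k : ℕ) : ℝ) ≤ ((6 * (b + 1) : ℕ) : ℝ) := by exact_mod_cast h2.le
      push_cast at this
      linarith
    have h4 : (4 : ℝ) ^ k = (2 ^ k) ^ 2 := by
      rw [← pow_mul, mul_comm, pow_mul]
      norm_num
    rw [h4]
    push_cast
    have h5 : (0 : ℝ) < 2 ^ k := by positivity
    nlinarith

/-! ### 3. The result -/

/-- **row G3, from the tubes and the number of the polygons** -/
theorem jMass_of (hT : TubeSt) (hP : ∃ C : ℝ, 0 < C ∧ ∀ N : ℕ, 1 ≤ N →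
    gf (POL.Cy N) ≤ ENNReal.ofReal (C * (N : ℝ) ^ (-(3 / 2) : ℝ))) : JMass := by
  classical
  obtain ⟨C1, hC1, hP⟩ := hP
  obtain ⟨C2, hC2, hmom⟩ := low_mom
  obtain ⟨H0, hH0, hT⟩ := hT 1 3 (by norm_num) (by norm_num)
  refine ⟨H0, hH0, fun H hH Mx => ?_⟩
  obtain ⟨c, k0, hc, hT⟩ := hT H hH Mx
  obtain ⟨K1, hK1⟩ : ∃ K1 : ℕ, K1 = 2 * (Mx + 1) * (36 * H) + 1024 := ⟨_, rfl⟩
  obtain ⟨K2, hK2⟩ : ∃ K2 : ℝ, K2 = 2400 * K1 ^ 2 * C1 / c := ⟨_, rfl⟩
  have hK1p : 0 < K1 := by omega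
  have hK2p : 0 < K2 := by
    rw [hK2]
    have : (0 : ℝ) < K1 := by exact_mod_cast hK1p
    positivity
  refine ⟨36 * K2 * C2 ^ 2, max k0 2, by positivity, ?_⟩
  intro k r n D E hk hD1 hD2 hr hr' hE hup
  have hk0 : k0 ≤ k := (le_max_left _ _).trans hk
  have hk2 : 2 ≤ k := (le_max_right _ _).trans hk
  have hU : 0 < Ub k := Num2Aux.UU_pos _
  have hml := ml_pos k
  have h4k : (0 : ℝ) < 4 ^ k := by positivity
  have hm4 : 4 ≤ ml k := by
    unfold ml
    have h1 : (4 : ℝ) = (2 : ℝ) ^ (2 : ℝ) := by norm_num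
    rw [h1]
    refine Real.rpow_le_rpow_of_exponent_le (by norm_num) ?_
    have h2 : (2 : ℝ) ≤ k := by exact_mod_cast hk2
    linarith
  have hH13 : 2 ^ 13 ≤ H := hH0.trans hH
  have hDD : (2 : ℤ) ^ (k + 12) ≤ D := by
    refine le_trans ?_ hD1
    have h1 : (2 : ℤ) ^ 13 ≤ H := by exact_mod_cast hH13
    have h2 : (0 : ℤ) < 2 ^ k := by positivity
    have h3 : (2 : ℤ) ^ (k + 12) = 2 ^ 12 * 2 ^ k := by ring
    rw [h3]
    nlinarith
  -- the minimal words
  have hG : ∀ n' : ℕ, ∑' y : MW E r D k n' (ml k), wE (y : Pt × List Bool).2 ≤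
      ENNReal.ofReal (K2 * (4 ^ k * (4 ^ k / Ub k)) * (max (n' : ℝ) (ml k)) ^ (-(3 / 2 : ℝ))) := by
    intro n'
    obtain ⟨q0, hq0⟩ : ∃ q0, q0 = ⌈ml k⌉₊ := ⟨_, rfl⟩
    obtain ⟨q1, hq1⟩ : ∃ q1, q1 = ⌊3 * ml k⌋₊ := ⟨_, rfl⟩
    have hq0m : ml k ≤ q0 := by
      rw [hq0]
      exact Nat.le_ceil _
    have hq1m : (q1 : ℝ) ≤ 3 * ml k := by
      rw [hq1]
      exact Nat.floor_le (by positivity)
    have hroot := sum_root hE hr hup hDD n' (ml k) q0 q1 (K1 * 2 ^ k) (by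
      rw [hK1]
      push_cast
      have h1 : (2 : ℤ) ^ (k + 10) = 1024 * 2 ^ k := by ring
      rw [h1]
      have h2 : (r : ℤ) ≤ Mx := by exact_mod_cast hr'
      have h3 : (0 : ℤ) ≤ D := le_trans (by positivity) hDD
      have h4 : 2 * ((r : ℤ) + 1) * D ≤ 2 * ((Mx : ℤ) + 1) * D := by
        refine mul_le_mul_of_nonneg_right ?_ h3
        linarith
      have h5 : 2 * ((Mx : ℤ) + 1) * D ≤ 2 * ((Mx : ℤ) + 1) * (36 * (H * 2 ^ k)) := by
        refine mul_le_mul_of_nonneg_left hD2 (by positivity)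
      have h6 : (2 * ((Mx : ℤ) + 1) * (36 * H) + 1024) * 2 ^ k = 2 * ((Mx : ℤ) + 1) * (36 * (H * 2 ^ k)) + 1024 * 2 ^ k := by ring
      rw [h6]
      linarith) (n' + q0 + q1) (by
      push_cast
      linarith) (ENNReal.ofReal (c / 4 * (Ub k / 4 ^ k))) (fun x hx => by
      rw [hq0, hq1]
      exact tube_mass hc hT hk0 hD1 hD2 (by omega) hr' hE hup hx.1.1 hm4)
    have hcw := cw_P1 hC1 hP (n0 := n' + q0) (n1 := n' + q0 + q1) (x := max (n' : ℝ) (ml k))
      (lt_of_lt_of_le hml (le_max_right _ _)) (by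
        have : (1 : ℝ) ≤ q0 := by linarith
        have : 1 ≤ q0 := by exact_mod_cast this
        omega) (by
        push_cast
        refine max_le (by linarith [hml]) ?_
        have : (0 : ℝ) ≤ n' := by positivity
        linarith)
    have hcount : ((n' + q0 + q1 + 1 - (n' + q0) : ℕ) : ℝ) ≤ 4 * ml k := by
      have e1 : n' + q0 + q1 + 1 - (n' + q0) = q1 + 1 := by omega
      rw [e1]
      push_cast
      linarith
    obtain ⟨X, hX⟩ : ∃ X : ℝ, X = (max (n' : ℝ) (ml k)) ^ (-(3 / 2 : ℝ)) := ⟨_, rfl⟩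
    rw [← hX] at hcw ⊢
    have hX0 : 0 ≤ X := by
      rw [hX]
      have : 0 ≤ max (n' : ℝ) (ml k) := hml.le.trans (le_max_right _ _)
      positivity
    have h1 : (∑' y : MW E r D k n' (ml k), wE (y : Pt × List Bool).2) * ENNReal.ofReal (c / 4 * (Ub k / 4 ^ k) * ml k) ≤
        ENNReal.ofReal (150 * K1 ^ 2 * 4 ^ k * (4 * ml k * (C1 * X))) := by
      calc (∑' y : MW E r D k n' (ml k), wE (y : Pt × List Bool).2) * ENNReal.ofReal (c / 4 * (Ub k / 4 ^ k) * ml k) ≤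
          (∑' y : MW E r D k n' (ml k), wE (y : Pt × List Bool).2) * (ENNReal.ofReal (c / 4 * (Ub k / 4 ^ k)) * q0) := by
            refine mul_le_mul' le_rfl ?_
            rw [ENNReal.ofReal_mul (by positivity)]
            refine mul_le_mul' le_rfl ?_
            rw [← ENNReal.ofReal_natCast]
            exact ENNReal.ofReal_le_ofReal hq0m
        _ ≤ _ := hroot
        _ ≤ ENNReal.ofReal (150 * K1 ^ 2 * 4 ^ k) * ENNReal.ofReal (4 * ml k * (C1 * X)) := by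
            refine mul_le_mul' ?_ (hcw.trans (ENNReal.ofReal_le_ofReal ?_))
            · rw [← ENNReal.ofReal_natCast]
              refine ENNReal.ofReal_le_ofReal ?_
              push_cast
              have h2 : (1 : ℝ) ≤ K1 * 2 ^ k := by
                have : (1 : ℝ) ≤ K1 := by exact_mod_cast hK1p
                have h3 : (1 : ℝ) ≤ 2 ^ k := one_le_pow₀ (by norm_num)
                nlinarith
              have h3 : (4 : ℝ) ^ k = (2 ^ k) ^ 2 := by
                rw [← pow_mul, mul_comm, pow_mul]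
                norm_num
              rw [h3]
              nlinarith
            · exact mul_le_mul_of_nonneg_right hcount (by positivity)
        _ = _ := by
            rw [← ENNReal.ofReal_mul (by positivity)]
    have hpos : 0 < c / 4 * (Ub k / 4 ^ k) * ml k := by positivity
    have h2 : ∑' y : MW E r D k n' (ml k), wE (y : Pt × List Bool).2 ≤
        ENNReal.ofReal (150 * K1 ^ 2 * 4 ^ k * (4 * ml k * (C1 * X))) / ENNReal.ofReal (c / 4 * (Ub k / 4 ^ k) * ml k) := by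
      rw [ENNReal.le_div_iff_mul_le (Or.inl (by simpa using hpos)) (Or.inl ENNReal.ofReal_ne_top)]
      exact h1
    refine h2.trans ?_
    rw [← ENNReal.ofReal_div_of_pos hpos]
    refine ENNReal.ofReal_le_ofReal (le_of_eq ?_)
    rw [hK2]
    field_simp
    ring
  -- all placed words
  have hall : ∑' x : PLW E r D k n (ml k), wE (x : Pt × List Bool).2 ≤
      ENNReal.ofReal (K2 * (4 ^ k * (4 ^ k / Ub k)) * (max (n : ℝ) (ml k)) ^ (-(3 / 2 : ℝ)) * (C2 * Ub k) ^ 2) := by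
    refine (sum_dec n (ml k)).trans ?_
    obtain ⟨Y, hY⟩ : ∃ Y : ℝ, Y = K2 * (4 ^ k * (4 ^ k / Ub k)) * (max (n : ℝ) (ml k)) ^ (-(3 / 2 : ℝ)) := ⟨_, rfl⟩
    have hY0 : 0 ≤ Y := by
      rw [hY]
      have : 0 ≤ max (n : ℝ) (ml k) := hml.le.trans (le_max_right _ _)
      positivity
    have h1 : ∀ z1 z2 : ℕ, ∑' y : MW E r D k (n - (z1 + z2)) (ml k), wE (y : Pt × List Bool).2 ≤
        ENNReal.ofReal Y * (ENNReal.ofReal ((1 + (z1 : ℝ) / ml k) ^ 2) * ENNReal.ofReal ((1 + (z2 : ℝ) / ml k) ^ 2)) := by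
      intro z1 z2
      refine (hG _).trans ?_
      rw [← ENNReal.ofReal_mul (by positivity), ← ENNReal.ofReal_mul hY0]
      refine ENNReal.ofReal_le_ofReal ?_
      have h2 := max_shift (n := n) (z := z1 + z2) hml
      have h3 : (1 + ((z1 + z2 : ℕ) : ℝ) / ml k) ^ 2 ≤ (1 + (z1 : ℝ) / ml k) ^ 2 * (1 + (z2 : ℝ) / ml k) ^ 2 := by
        rw [← mul_pow]
        refine pow_le_pow_left₀ (by positivity) ?_ 2
        push_cast
        have h4 : 0 ≤ (z1 : ℝ) / ml k := by positivity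
        have h5 : 0 ≤ (z2 : ℝ) / ml k := by positivity
        rw [add_div]
        nlinarith [mul_nonneg h4 h5]
      have h6 : 0 ≤ K2 * (4 ^ k * (4 ^ k / Ub k)) := by positivity
      have h7 : 0 ≤ (max (n : ℝ) (ml k)) ^ (-(3 / 2 : ℝ)) := by
        have : 0 ≤ max (n : ℝ) (ml k) := hml.le.trans (le_max_right _ _)
        positivity
      calc K2 * (4 ^ k * (4 ^ k / Ub k)) * (max ((n - (z1 + z2) : ℕ) : ℝ) (ml k)) ^ (-(3 / 2 : ℝ)) ≤
          K2 * (4 ^ k * (4 ^ k / Ub k)) * ((max (n : ℝ) (ml k)) ^ (-(3 / 2 : ℝ)) *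
            ((1 + (z1 : ℝ) / ml k) ^ 2 * (1 + (z2 : ℝ) / ml k) ^ 2)) :=
            mul_le_mul_of_nonneg_left (h2.trans (mul_le_mul_of_nonneg_left h3 h7)) h6
        _ = _ := by rw [hY]; ring
    have h8 : ∑' Z1 : BL k, wE (Z1 : List Bool) * ∑' Z2 : BL k, wE (Z2 : List Bool) *
        ∑' y : MW E r D k (n - ((Z1 : List Bool).length + (Z2 : List Bool).length)) (ml k), wE (y : Pt × List Bool).2 ≤
        ENNReal.ofReal Y * ((∑' Z : BL k, wE (Z : List Bool) * ENNReal.ofReal ((1 + ((Z : List Bool).length : ℝ) / ml k) ^ 2)) *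
          (∑' Z : BL k, wE (Z : List Bool) * ENNReal.ofReal ((1 + ((Z : List Bool).length : ℝ) / ml k) ^ 2))) := by
      rw [← ENNReal.tsum_mul_right, ← ENNReal.tsum_mul_left]
      refine ENNReal.tsum_le_tsum fun Z1 => ?_
      rw [← ENNReal.tsum_mul_left, ← ENNReal.tsum_mul_left, ← ENNReal.tsum_mul_left]
      refine ENNReal.tsum_le_tsum fun Z2 => ?_
      calc wE (Z1 : List Bool) * (wE (Z2 : List Bool) *
          ∑' y : MW E r D k (n - ((Z1 : List Bool).length + (Z2 : List Bool).length)) (ml k), wE (y : Pt × List Bool).2) ≤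
          wE (Z1 : List Bool) * (wE (Z2 : List Bool) * (ENNReal.ofReal Y * (ENNReal.ofReal ((1 + ((Z1 : List Bool).length : ℝ) / ml k) ^ 2) *
            ENNReal.ofReal ((1 + ((Z2 : List Bool).length : ℝ) / ml k) ^ 2)))) :=
            mul_le_mul' le_rfl (mul_le_mul' le_rfl (h1 _ _))
        _ = _ := by ring
    refine h8.trans ?_
    refine (mul_le_mul' le_rfl (mul_le_mul' (hmom k) (hmom k))).trans (le_of_eq ?_)
    rw [← ENNReal.ofReal_mul (by positivity), ← ENNReal.ofReal_mul hY0, ← hY]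
    congr 1
    ring
  -- the placements
  obtain ⟨S, hS1, hS2⟩ := small_pts k
  obtain ⟨W, hW⟩ : ∃ W : Set (List Bool), W = {M | Jn E r D k M ∧ n ≤ M.length ∧ (M.length : ℝ) < n + ml k} := ⟨_, rfl⟩
  rw [← hW]
  have h1 : (S.card : ℝ≥0∞) * gf W ≤ ∑' x : PLW E r D k n (ml k), wE (x : Pt × List Bool).2 := by
    have h2 : ∑' x : ((S : Set Pt) ×ˢ W : Set (Pt × List Bool)), wE (x : Pt × List Bool).2 = (S.card : ℝ≥0∞) * gf W := by
      rw [tsum_subtype ((S : Set Pt) ×ˢ W) (fun x : Pt × List Bool => wE x.2), ENNReal.tsum_prod']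
      have h3 : ∀ a : Pt, ∑' w : List Bool, ((S : Set Pt) ×ˢ W).indicator (fun x : Pt × List Bool => wE x.2) (a, w) =
          if a ∈ S then gf W else 0 := by
        intro a
        by_cases ha : a ∈ S
        · rw [if_pos ha, AR.gf_ite]
          refine tsum_congr fun w => ?_
          by_cases hw : w ∈ W
          · rw [if_pos hw, Set.indicator_of_mem]
            exact ⟨ha, hw⟩
          · rw [if_neg hw, Set.indicator_of_notMem]
            exact fun h => hw h.2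
        · rw [if_neg ha, ENNReal.tsum_eq_zero]
          intro w
          rw [Set.indicator_of_notMem]
          exact fun h => ha h.1
      rw [tsum_congr h3, tsum_eq_sum (s := S) (fun a ha => if_neg ha),
        sum_congr rfl (g := fun _ => gf W) (fun a ha => if_pos ha), sum_const, nsmul_eq_mul]
    rw [← h2]
    refine inj_sum (f := fun x : Pt × List Bool => wE x.2) (g := fun x : Pt × List Bool => wE x.2) id ?_ ?_ ?_
    · rintro ⟨s, M⟩ ⟨hs, hM⟩
      rw [hW] at hM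
      exact ⟨jn_plc hM.1 (hS1 s hs), hM.2.1, hM.2.2⟩
    · exact Set.injOn_id _
    · exact fun _ _ => le_rfl
  have hScard : (0 : ℝ) < S.card := lt_of_lt_of_le (by positivity) hS2
  have h2 : gf W ≤ ENNReal.ofReal (K2 * (4 ^ k * (4 ^ k / Ub k)) * (max (n : ℝ) (ml k)) ^ (-(3 / 2 : ℝ)) * (C2 * Ub k) ^ 2) /
      ENNReal.ofReal (4 ^ k / 36) := by
    rw [ENNReal.le_div_iff_mul_le (Or.inl (by simp)) (Or.inl ENNReal.ofReal_ne_top), mul_comm]
    refine le_trans ?_ (h1.trans hall)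
    refine mul_le_mul' ?_ le_rfl
    rw [← ENNReal.ofReal_natCast]
    exact ENNReal.ofReal_le_ofReal hS2
  refine h2.trans ?_
  rw [← ENNReal.ofReal_div_of_pos (by positivity)]
  refine ENNReal.ofReal_le_ofReal (le_of_eq ?_)
  field_simp

end G3

end ARM

end HexObs
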