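import Pool.Agent.ARM.JFa
import Pool.Agent.ARM.JMassA
import Pool.Agent.ARM.DefsL
import Pool.Agent.JNT.JCnt

/-!
# ARM, row L4 (helper94), part b: the filled word `W1 ++ (M ++ W2)`
-/

set_option autoImplicit false

namespace HexObs

namespace ARM

namespace J3

open Finset TS SDN SIM NTA TIP G3

open scoped ENNReal

/-- **start parts**: from p1 to s, close to the last segment, above the level h -/
structure S1 (E : ℕ → Pt) (r : ℕ) (D : ℤ) (k : ℕ) (p1 : Pt) (h : ℤ) (i : ℕ) (s : Pt) (W : List Bool) : Prop where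
  sa : W ∈ SA
  len : W.length = i
  en : p1 + mulE (rc W) (TIW.en W) = s
  rg : ∀ t, t ≤ i → AR.NS (qv E D r (r - 1)) (E (r - 1)) D (2 ^ (k + 10)) (p1 + mulE (rc W) (vx oo up W t))
  bd : ∀ t, t ≤ i → ip (p1 + mulE (rc W) (vx oo up W t) - s) up ≤ 0
  hi : ∀ t, t ≤ i → h < ip (p1 + mulE (rc W) (vx oo up W t)) up

/-- **end parts**: from the end of M to pe along the first segments, below the level h close to the last ones -/
structure S2 (E : ℕ → Pt) (r : ℕ) (D : ℤ) (k : ℕ) (pe : Pt) (h : ℤ) (s : Pt) (M : List Bool) (m : ℕ) (W : List Bool) :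
    Prop where
  sa : W ∈ SA
  len : W.length = m
  en : s + TIW.en M + mulE (TIW.rt M) (TIW.en W) = pe
  rg : ∀ t, t ≤ m → ∃ j, j + 1 < r ∧
    AR.NS (qv E D r j) (E j) D (2 ^ (k + 10)) (s + TIW.en M + mulE (TIW.rt M) (vx oo up W t))
  st : ∀ t, 1 ≤ t → t ≤ m → 0 < ip (vx oo up W t) up ∨ ∃ j, 1 ≤ j ∧ j + 1 < r ∧
    AR.NS (qv E D r j) (E j) D (2 ^ (k + 10)) (s + TIW.en M + mulE (TIW.rt M) (vx oo up W t))
  lo : ∀ t, t ≤ m → ip (s + TIW.en M + mulE (TIW.rt M) (vx oo up W t)) up ≤ h ∨ ∃ j, j + 2 < r ∧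
    AR.NS (qv E D r j) (E j) D (2 ^ (k + 10)) (s + TIW.en M + mulE (TIW.rt M) (vx oo up W t))

variable {E : ℕ → Pt} {r : ℕ} {D : ℤ} {k : ℕ} {p1 pe s : Pt} {h : ℤ} {i m : ℕ} {M W W1 W2 : List Bool}

lemma V_app (h1 : p1 + mulE (rc W1) (TIW.en W1) = s) (X : List Bool) (j : ℕ) :
    Vp (W1 ++ X) p1 (rc W1) (W1.length + j) = s + vx oo up X j := by
  unfold Vp
  rw [TIW.vx_app, mulE_add, ← add_assoc, h1, rc_rt]

lemma U_app (X : List Bool) (j : ℕ) : Up (W1 ++ X) (rc W1) (W1.length + j) = dx up X j := by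
  unfold Up
  rw [TIW.dx_app, rc_rt]

lemma V_fst (X : List Bool) {t : ℕ} (ht : t ≤ W1.length) :
    Vp (W1 ++ X) p1 (rc W1) t = p1 + mulE (rc W1) (vx oo up W1 t) := by
  unfold Vp
  rw [vx_append (by omega)]

/-- no point is close to the last segment and to one of the first r - 2 segments -/
lemma far_two (hE : IPg E r) (hD : 2 ^ (k + 12) ≤ D) {x : Pt} {j : ℕ} (hj : j + 2 < r)
    (h1 : AR.NS (qv E D r j) (E j) D (2 ^ (k + 10)) x)
    (h2 : AR.NS (qv E D r (r - 1)) (E (r - 1)) D (2 ^ (k + 10)) x) : False := by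
  have h3 := ipg_sep hE (i := r - 1) (j := j) (by omega) (by omega) h2 h1
  have e12 : (2 : ℤ) ^ (k + 12) = 4 * 2 ^ (k + 10) := by ring
  have hp : (0 : ℤ) < 2 ^ (k + 10) := by positivity
  have h4 : TIW.hn (0 : Pt) = 0 := by decide
  rw [sub_self, h4] at h3
  linarith

/-- M and the end part -/
lemma sa_MW (hP : Plc E r D k s M) (h2 : S2 E r D k pe h s M m W2) : M ++ W2 ∈ SA := by
  refine AR.sa_app hP.sa h2.sa fun a ha j hj hjl he => ?_
  rw [h2.len] at hjl
  have h3 : s + TIW.en M + mulE (TIW.rt M) (vx oo up W2 j) = s + vx oo up M a := by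
    rw [he, add_assoc]
  rcases h2.st j hj hjl with h4 | ⟨j', h4, h5, h6⟩
  · obtain ⟨j', h5, h6⟩ := h2.rg j hjl
    rw [h3] at h6
    rcases Nat.eq_zero_or_pos j' with h0 | h0
    · rw [h0] at h6
      have h7 := hP.fst a ha h6
      have h8 : vx oo up M a - TIW.en M = mulE (TIW.rt M) (vx oo up W2 j) := by
        rw [he]
        abel
      rw [h8, ip_rtE hP] at h7
      linarith
    · exact hP.mid a ha j' h0 h5 h6
  · rw [h3] at h6
    exact hP.mid a ha j' h4 h5 h6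

/-- **the filled word is self-avoiding** -/
theorem sa_fill (hE : IPg E r) (hup : E (r - 1) = up) (hD : 2 ^ (k + 12) ≤ D) (hP : Plc E r D k s M)
    (h1 : S1 E r D k p1 h i s W1) (h2 : S2 E r D k pe h s M m W2) : W1 ++ (M ++ W2) ∈ SA := by
  refine AR.sa_app h1.sa (sa_MW hP h2) fun a ha j hj hjl he => ?_
  rw [h1.len] at ha
  have h3 : p1 + mulE (rc W1) (vx oo up W1 a) = s + vx oo up (M ++ W2) j := by
    rw [he, mulE_add, ← add_assoc, h1.en, rc_rt]
  have h4 := h1.rg a ha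
  have h5 := h1.bd a ha
  have h6 := h1.hi a ha
  rw [h3] at h4 h5 h6
  rcases Nat.lt_or_ge M.length j with h7 | h7
  · obtain ⟨q, rfl⟩ : ∃ q, j = M.length + q := ⟨j - M.length, by omega⟩
    rw [List.length_append, h2.len] at hjl
    rw [vx_MQ, ← add_assoc] at h4 h6
    rcases h2.lo q (by omega) with h8 | ⟨j', h8, h9⟩
    · linarith
    · exact far_two hE hD h8 h9 h4
  · rw [vx_append (by omega)] at h4 h5
    have h8 := hP.lst j hj h7 h4
    rw [add_sub_cancel_left] at h5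
    linarith

/-- **the marking of the filled word** -/
theorem tr_fill (_hE : IPg E r) (hr : 4 ≤ r) (hP : Plc E r D k s M)
    (h1 : S1 E r D k p1 h i s W1) (h2 : S2 E r D k pe h s M m W2) (hm : 1 ≤ m) :
    Tr E r D k (Vp (W1 ++ (M ++ W2)) p1 (rc W1)) (Up (W1 ++ (M ++ W2)) (rc W1)) (i + M.length + m) i (i + M.length) := by
  have hl := h1.len
  have v1 : ∀ t, t ≤ i → Vp (W1 ++ (M ++ W2)) p1 (rc W1) t = p1 + mulE (rc W1) (vx oo up W1 t) := by
    intro t ht
    exact V_fst _ (by omega)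
  have v2 : ∀ j, j ≤ M.length → Vp (W1 ++ (M ++ W2)) p1 (rc W1) (i + j) = s + vx oo up M j := by
    intro j hj
    have h3 := V_app h1.en (M ++ W2) j
    rw [hl] at h3
    rw [h3, vx_append (by omega)]
  have v3 : ∀ j, Vp (W1 ++ (M ++ W2)) p1 (rc W1) (i + M.length + j) =
      s + TIW.en M + mulE (TIW.rt M) (vx oo up W2 j) := by
    intro j
    have h3 := V_app h1.en (M ++ W2) (M.length + j)
    rw [hl, ← add_assoc] at h3
    rw [h3, vx_MQ, add_assoc]
  have v0 : Vp (W1 ++ (M ++ W2)) p1 (rc W1) i = s := by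
    have := v2 0 (Nat.zero_le _)
    rw [add_zero] at this
    rw [this]
    exact add_zero s
  have vb : Vp (W1 ++ (M ++ W2)) p1 (rc W1) (i + M.length) = s + TIW.en M := v2 M.length le_rfl
  have ua : Up (W1 ++ (M ++ W2)) (rc W1) i = up := by
    have h3 := U_app (W1 := W1) (M ++ W2) 0
    rw [hl, add_zero] at h3
    rw [h3]
    rfl
  have ub : Up (W1 ++ (M ++ W2)) (rc W1) (i + M.length) = E 0 := by
    have h3 := U_app (W1 := W1) (M ++ W2) M.length
    rw [hl] at h3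
    rw [h3, dx_append le_rfl]
    exact hP.de
  have vm : ∀ t, i ≤ t → t ≤ i + M.length → ∃ j, j ≤ M.length ∧ t = i + j ∧
      Vp (W1 ++ (M ++ W2)) p1 (rc W1) t = s + vx oo up M j := by
    intro t h3 h4
    obtain ⟨j, rfl⟩ : ∃ j, t = i + j := ⟨t - i, by omega⟩
    exact ⟨j, by omega, rfl, v2 j (by omega)⟩
  have vq : ∀ t, i + M.length ≤ t → t ≤ i + M.length + m → ∃ q, q ≤ m ∧ t = i + M.length + q := by
    intro t h3 h4
    exact ⟨t - (i + M.length), by omega, by omega⟩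
  refine ⟨⟨ua, ub, ?_, ?_, fun t h3 h4 j hj hj' hn => ?_, fun t h3 h4 hn => ?_, fun t h3 h4 hn => ?_⟩,
    by omega, by omega, fun t ht => ?_, fun t ht => ?_, fun t ht => ?_⟩
  · rw [v0]
    exact hP.hs
  · rw [vb]
    exact hP.ht
  · obtain ⟨q, hq, -, hv⟩ := vm t h3 h4
    rw [hv] at hn
    exact hP.mid q hq j hj hj' hn
  · obtain ⟨q, hq, -, hv⟩ := vm t h3 h4
    rw [hv] at hn
    rw [hv, vb, add_sub_add_left_eq_sub]
    exact hP.fst q hq hn
  · obtain ⟨q, hq, hi, hv⟩ := vm t h3.le h4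
    rw [hv] at hn
    rw [hv, v0, add_sub_cancel_left]
    exact hP.lst q (by omega) hq hn
  · rcases ht with ht | ⟨ht, ht'⟩
    · refine ⟨r - 1, by omega, ?_⟩
      rw [v1 t ht]
      exact h1.rg t ht
    · obtain ⟨q, hq, rfl⟩ := vq t ht ht'
      rw [v3]
      obtain ⟨j, h3, h4⟩ := h2.rg q hq
      exact ⟨j, by omega, h4⟩
  · rcases ht with ht | ⟨ht, ht'⟩
    · right
      refine ⟨r - 1, by omega, by omega, ?_⟩
      rw [v1 t ht]
      exact h1.rg t ht
    · obtain ⟨q, hq, rfl⟩ := vq t ht.le ht'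
      rw [v3, vb]
      rcases h2.st q (by omega) hq with h3 | ⟨j, h3, h4, h5⟩
      · left
        rw [add_sub_cancel_left, ip_rtE hP]
        exact h3
      · exact Or.inr ⟨j, h3, by omega, h5⟩
  · rcases ht with ht | ⟨ht, ht'⟩
    · left
      rw [v1 t ht, v0]
      exact h1.bd t ht
    · right
      obtain ⟨q, hq, rfl⟩ := vq t ht ht'
      rw [v3]
      exact h2.rg q hq

/-- the end of the filled word -/
lemma en_fill (h1 : S1 E r D k p1 h i s W1) (h2 : S2 E r D k pe h s M m W2) :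
    p1 + mulE (rc W1) (TIW.en (W1 ++ (M ++ W2))) = pe := by
  rw [TIW.en_app, mulE_add, ← add_assoc, h1.en, rc_rt, TIW.en_app, ← add_assoc]
  exact h2.en

lemma mulE_cancel {a b v : Pt} (hv : v ≠ 0) (h : mulE a v = mulE b v) : a = b := by
  rw [mulE_comm a, mulE_comm b] at h
  have h1 : mulE v (a - b) = 0 := by
    rw [mulE_sub, h, sub_self]
  have h2 : nrm v * nrm (a - b) = 0 := by
    rw [← nrm_mulE, h1]
    rfl
  have h3 : ∀ p : Pt, nrm p = 0 → p = 0 := by
    intro p hp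
    have h4 := TIW.nrm_le_hn p
    have e : nrm p = p.1 * p.1 + p.1 * p.2 + p.2 * p.2 := by
      simp only [nrm]
      ring
    rw [e] at hp
    have h5 : p.1 = 0 ∧ p.2 = 0 := by
      constructor <;> nlinarith [sq_nonneg (2 * p.1 + p.2), sq_nonneg (p.1 + 2 * p.2), sq_nonneg p.1, sq_nonneg p.2]
    exact Prod.ext h5.1 h5.2
  rcases mul_eq_zero.1 h2 with h4 | h4
  · exact absurd (h3 v h4) hv
  · exact sub_eq_zero.1 (h3 _ h4)

/-- rotations by an even number of letters -/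
lemma E3_rt {W : List Bool} (hW : Even W.length) {x z : Pt} (hx : x ∈ E3 z) : mulE (TIW.rt W) x ∈ E3 z := by
  have h1 : cl (TIW.de W) = cl up := by
    have : cl (TIW.de W) = if Even W.length then cl up else -cl up := cl_dx up W W.length
    rw [this, if_pos hW]
  have h2 : TIW.de W ∈ dirs := dx_mem up_dirs _ _
  have key : ∀ d ∈ dirs, cl d = cl up → d = up ∨ d = mulE (-1, 1) up ∨ d = mulE (-1, 1) (mulE (-1, 1) up) := by decide
  have nup : nrm up = 1 := mem_dirs.1 up_dirs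
  have e1 : mulE (mulE (-1, 1) (-1, 1)) (-1, 1) = ((1, 0) : Pt) := by decide
  have h3 : TIW.rt W = (1, 0) ∨ TIW.rt W = (-1, 1) ∨ TIW.rt W = mulE (-1, 1) (-1, 1) := by
    have h4 := TIW.rt_up W
    rcases key _ h2 h1 with h5 | h5 | h5
    · left
      exact JNT.mulE_left_inj nup (by rw [h4, h5, mulE_one])
    · right; left
      exact JNT.mulE_left_inj nup (by rw [h4, h5])
    · right; right
      exact JNT.mulE_left_inj nup (by rw [h4, h5, ← mulE_assoc])
  have e2 : ∀ q : Pt, mulE (-1, 1) (mulE (-1, 1) (mulE (-1, 1) q)) = q := by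
    intro q
    rw [mulE_assoc, mulE_assoc, e1, mulE_one]
  unfold E3 at hx ⊢
  simp only [Set.mem_insert_iff, Set.mem_singleton_iff] at hx ⊢
  rcases h3 with h4 | h4 | h4 <;> rw [h4]
  · rw [mulE_one]
    exact hx
  · rcases hx with rfl | rfl | rfl
    · exact Or.inr (Or.inl rfl)
    · exact Or.inr (Or.inr rfl)
    · rw [e2]
      exact Or.inl rfl
  · rw [← mulE_assoc]
    rcases hx with rfl | rfl | rfl
    · exact Or.inr (Or.inr rfl)
    · rw [e2]
      exact Or.inl rfl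
    · rw [e2]
      exact Or.inr (Or.inl rfl)

variable {Ps Pe : ℕ → Pt → Prop}

/-- **the sum over the minimal placed words** -/
theorem sum_fill (hE : IPg E r) (hr : 4 ≤ r) (hup : E (r - 1) = up) (hD : 2 ^ (k + 12) ≤ D) {n : ℕ} {z : Pt}
    (hne : p1 ≠ pe) (hz : pe - p1 ∈ E3 z) (hPs : ∀ i s, Ps i s → Even i) (hPe : ∀ j x, Pe j x → j < n) {α β : ℝ≥0∞}
    (h1 : ∀ i s M, Cx E r D k Ps Pe (i, (s, M)) → α ≤ gf {W | S1 E r D k p1 h i s W})
    (h2 : ∀ i s M, Cx E r D k Ps Pe (i, (s, M)) → β ≤ gf {W | S2 E r D k pe h s M (n - (i + M.length)) W}) :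
    (∑' y : {y | Wx E r D k Ps Pe y}, wE (y : ℕ × (Pt × List Bool)).2.2) * (α * β) ≤ gf (WE n z) := by
  classical
  have e1 : (∑' y : {y | Wx E r D k Ps Pe y}, wE (y : ℕ × (Pt × List Bool)).2.2) * (α * β) ≤
      ∑' q : (Σ y : {y | Wx E r D k Ps Pe y}, ({W | S1 E r D k p1 h (y : ℕ × (Pt × List Bool)).1
          (y : ℕ × (Pt × List Bool)).2.1 W} × {W | S2 E r D k pe h (y : ℕ × (Pt × List Bool)).2.1
          (y : ℕ × (Pt × List Bool)).2.2 (n - ((y : ℕ × (Pt × List Bool)).1 + (y : ℕ × (Pt × List Bool)).2.2.length)) W})),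
        wE (q.1 : ℕ × (Pt × List Bool)).2.2 * (wE (q.2.1 : List Bool) * wE (q.2.2 : List Bool)) := by
    rw [ENNReal.tsum_sigma', ← ENNReal.tsum_mul_right]
    refine ENNReal.tsum_le_tsum fun y => ?_
    show _ ≤ ∑' b : ({W | S1 E r D k p1 h (y : ℕ × (Pt × List Bool)).1 (y : ℕ × (Pt × List Bool)).2.1 W} ×
        {W | S2 E r D k pe h (y : ℕ × (Pt × List Bool)).2.1 (y : ℕ × (Pt × List Bool)).2.2
          (n - ((y : ℕ × (Pt × List Bool)).1 + (y : ℕ × (Pt × List Bool)).2.2.length)) W}),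
        wE (y : ℕ × (Pt × List Bool)).2.2 * (wE (b.1 : List Bool) * wE (b.2 : List Bool))
    rw [ENNReal.tsum_mul_left]
    refine mul_le_mul' le_rfl ?_
    have e2 : ∑' q : ({W | S1 E r D k p1 h (y : ℕ × (Pt × List Bool)).1 (y : ℕ × (Pt × List Bool)).2.1 W} ×
        {W | S2 E r D k pe h (y : ℕ × (Pt × List Bool)).2.1 (y : ℕ × (Pt × List Bool)).2.2
          (n - ((y : ℕ × (Pt × List Bool)).1 + (y : ℕ × (Pt × List Bool)).2.2.length)) W}),
        wE (q.1 : List Bool) * wE (q.2 : List Bool) =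
        gf {W | S1 E r D k p1 h (y : ℕ × (Pt × List Bool)).1 (y : ℕ × (Pt × List Bool)).2.1 W} *
        gf {W | S2 E r D k pe h (y : ℕ × (Pt × List Bool)).2.1 (y : ℕ × (Pt × List Bool)).2.2
          (n - ((y : ℕ × (Pt × List Bool)).1 + (y : ℕ × (Pt × List Bool)).2.2.length)) W} := by
      rw [ENNReal.tsum_prod']
      unfold gf
      rw [← ENNReal.tsum_mul_right]
      refine tsum_congr fun a => ?_
      show ∑' b : {W | S2 E r D k pe h (y : ℕ × (Pt × List Bool)).2.1 (y : ℕ × (Pt × List Bool)).2.2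
          (n - ((y : ℕ × (Pt × List Bool)).1 + (y : ℕ × (Pt × List Bool)).2.2.length)) W},
          wE (a : List Bool) * wE (b : List Bool) = _
      rw [ENNReal.tsum_mul_left]
    rw [e2]
    exact mul_le_mul' (h1 _ _ _ y.2.1) (h2 _ _ _ y.2.1)
  refine e1.trans ?_
  have hmem : ∀ (y : ℕ × (Pt × List Bool)) (W1 W2 : List Bool), Wx E r D k Ps Pe y → S1 E r D k p1 h y.1 y.2.1 W1 →
      S2 E r D k pe h y.2.1 y.2.2 (n - (y.1 + y.2.2.length)) W2 → W1 ++ (y.2.2 ++ W2) ∈ WE n z := by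
    intro y W1 W2 hy g1 g2
    refine ⟨sa_fill hE hup hD hy.1.1 g1 g2, ?_, ?_⟩
    · rw [List.length_append, List.length_append, g1.len, g2.len]
      have := hPe _ _ hy.1.2.2
      omega
    · have g3 := en_fill g1 g2
      have g4 : TIW.en (W1 ++ (y.2.2 ++ W2)) = mulE (TIW.rt W1) (pe - p1) := by
        rw [← g3, add_sub_cancel_left, rt_rc]
      rw [g4]
      exact E3_rt (by rw [g1.len]; exact hPs _ _ hy.1.2.1) hz
  let φ : (Σ y : {y | Wx E r D k Ps Pe y}, ({W | S1 E r D k p1 h (y : ℕ × (Pt × List Bool)).1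
          (y : ℕ × (Pt × List Bool)).2.1 W} × {W | S2 E r D k pe h (y : ℕ × (Pt × List Bool)).2.1
          (y : ℕ × (Pt × List Bool)).2.2 (n - ((y : ℕ × (Pt × List Bool)).1 + (y : ℕ × (Pt × List Bool)).2.2.length)) W})) →
        WE n z := fun q =>
    ⟨(q.2.1 : List Bool) ++ ((q.1 : ℕ × (Pt × List Bool)).2.2 ++ (q.2.2 : List Bool)),
      hmem q.1 q.2.1 q.2.2 q.1.2 q.2.1.2 q.2.2.2⟩
  have hφ : Function.Injective φ := by
    rintro ⟨⟨⟨i, s, M⟩, hy⟩, ⟨⟨W1, g1⟩, ⟨W2, g2⟩⟩⟩ ⟨⟨⟨i', s', M'⟩, hy'⟩, ⟨⟨W1', g1'⟩, ⟨W2', g2'⟩⟩⟩ he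
    have he' : W1 ++ (M ++ W2) = W1' ++ (M' ++ W2') := congrArg Subtype.val he
    simp only [Set.mem_setOf_eq] at hy g1 g2 hy' g1' g2'
    have j1 := hPe _ _ hy.1.2.2
    have j1' := hPe _ _ hy'.1.2.2
    simp only at j1 j1'
    have t1 := tr_fill hE hr hy.1.1 g1 g2 (by omega)
    have t2 := tr_fill hE hr hy'.1.1 g1' g2' (by omega)
    simp only at t1 t2
    have n1 : i + M.length + (n - (i + M.length)) = n := by omega
    have n2 : i' + M'.length + (n - (i' + M'.length)) = n := by omega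
    rw [n1] at t1
    rw [n2, ← he'] at t2
    have hc : rc W1 = rc W1' := by
      have f1 := en_fill g1 g2
      have f2 := en_fill g1' g2'
      rw [← he', ← f1] at f2
      have f3 := add_left_cancel f2
      refine (mulE_cancel ?_ f3).symm
      intro h0
      rw [h0, G3.mulE_zero, add_zero] at f1
      exact hne f1
    rw [← hc] at t2
    have hw : W1 ++ (M ++ W2) ∈ SA := sa_fill hE hup hD hy.1.1 g1 g2
    have hN : (W1 ++ (M ++ W2)).length = n := (hmem (i, (s, M)) W1 W2 hy g1 g2).2.1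
    have s1 : sl (W1 ++ (M ++ W2)) i (i + M.length) = M := by
      rw [← g1.len]
      exact sl_mid
    have s1' : sl (W1 ++ (M ++ W2)) i' (i' + M'.length) = M' := by
      rw [he', ← g1'.len]
      exact sl_mid
    have v1 : Vp (W1 ++ (M ++ W2)) p1 (rc W1) i = s := by
      have h3 := V_app g1.en (M ++ W2) 0
      rw [g1.len, add_zero] at h3
      rw [h3]
      exact add_zero s
    have v1' : Vp (W1 ++ (M ++ W2)) p1 (rc W1) i' = s' := by
      have h3 := V_app g1'.en (M' ++ W2') 0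
      rw [g1'.len, add_zero, ← he', ← hc] at h3
      rw [h3]
      exact add_zero s'
    obtain ⟨u1, u2⟩ := mark_eqx (Ps := Ps) (Pe := Pe) hE (by omega) hD (nrm_rc W1) hw hN t1 t2
      (by rw [v1, s1]; exact hy) (by rw [v1', s1']; exact hy')
    have hMM : M = M' := by
      calc M = sl (W1 ++ (M ++ W2)) i (i + M.length) := s1.symm
        _ = sl (W1 ++ (M ++ W2)) i' (i' + M'.length) := by rw [u2, u1]
        _ = M' := s1'
    have hss : s = s' := by rw [← v1, ← v1', u1]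
    obtain ⟨h3, h4⟩ := List.append_inj he' (by rw [g1.len, g1'.len]; exact u1)
    subst u1 hMM hss h3
    have h5 : W2 = W2' := List.append_cancel_left h4
    subst h5
    rfl
  refine le_trans (le_of_eq (tsum_congr fun q => ?_)) (ENNReal.tsum_comp_le_tsum_of_injective hφ
    (fun y : WE n z => wE (y : List Bool)))
  show _ = wE ((q.2.1 : List Bool) ++ ((q.1 : ℕ × (Pt × List Bool)).2.2 ++ (q.2.2 : List Bool)))
  rw [wE_append, wE_append]
  ring

end J3

end ARM

end HexObs
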