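import Pool.Agent.ARM.Num
import Pool.Agent.TIW.InsA
import Pool.Agent.TIP.RevM

/-!
ARM: the reversed walk rv (helper37): the class F goes to the class Fp, the mass changes by a factor at most 2.
-/

set_option autoImplicit false

namespace HexObs

namespace ARM

open Finset TS SDN SIM NTA TIP

open scoped ENNReal

lemma rv_length (L : List Bool) : (rv L).length = L.length - 1 := by
  unfold rv
  rw [List.length_drop, rev_length]

/-- the vertices of the reversed walk -/
lemma rv_vx (L : List Bool) : ∃ c ∈ dirs, ∀ i, i ≤ L.length →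
    vx oo up L (L.length - i) = TIW.en L + mulE c (vx oo up (rv L) i) := RevM.rev_frame1 L

lemma hn_vx_one (L : List Bool) : TIW.hn (vx oo up L 1) ≤ 2 := by
  have h : vx oo up L 1 = oo + up := rfl
  rw [h]
  decide

lemma hn_mulE' {c : Pt} (hc : c ∈ dirs) (p : Pt) : TIW.hn (mulE c p) = TIW.hn p := TIW.hn_mulE (mem_dirs.1 hc) p

/-- the end of the reversed walk -/
lemma hn_en_rv {L : List Bool} (h : 1 ≤ L.length) : TIW.hn (TIW.en (rv L)) ≤ TIW.hn (TIW.en L) + 2 := by
  obtain ⟨c, hc, hf⟩ := rv_vx L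
  have h1 := hf (L.length - 1) (by omega)
  rw [show L.length - (L.length - 1) = 1 by omega] at h1
  have h2 : mulE c (TIW.en (rv L)) = vx oo up L 1 - TIW.en L := by
    have e : TIW.en (rv L) = vx oo up (rv L) (L.length - 1) := by
      unfold TIW.en
      rw [rv_length]
    rw [e, h1]
    abel
  rw [← hn_mulE' hc, h2]
  refine (TIW.hn_sub _ _).trans ?_
  have := hn_vx_one L
  linarith

lemma rv_SA {L : List Bool} (h : L ∈ SA) : rv L ∈ SA := RevM.rev_SA h

/-- the class F goes to the class Fp -/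
lemma rv_mem {n j : ℕ} {L : List Bool} (hn : 1 ≤ n) (h : L ∈ F n j) : rv L ∈ Fp (n - 1) j := by
  rw [mem_F] at h
  obtain ⟨h1, h2, h3, h4⟩ := h
  have e : ((n - 1 : ℕ) : ℝ) = (n : ℝ) - 1 := by
    rw [Nat.cast_sub hn, Nat.cast_one]
  have e2 : (((L.length - 1 : ℕ)) : ℝ) = (L.length : ℝ) - 1 := by
    rw [Nat.cast_sub (hn.trans h2), Nat.cast_one]
  refine ⟨rv_SA h1, ?_, ?_, ?_⟩
  · rw [rv_length]
    omega
  · rw [rv_length, e2, e]
    linarith
  · exact (hn_en_rv (hn.trans h2)).trans (by linarith)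

/-- the reversed walk and the first letter of the reversed word determine the word -/
lemma rv_inj {L L' : List Bool} (h : 1 ≤ L.length) (h' : 1 ≤ L'.length) (h1 : rv L = rv L')
    (h2 : (rev L).headD true = (rev L').headD true) : L = L' := by
  have key : ∀ L : List Bool, 1 ≤ L.length → rev L = (rev L).headD true :: rv L := by
    intro L hL
    have h3 : (rev L).length = L.length := rev_length L
    unfold rv
    cases hr : rev L with
    | nil =>
      rw [hr] at h3
      simp only [List.length_nil] at h3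
      omega
    | cons b t => rfl
  have h3 : rev L = rev L' := by rw [key L h, key L' h', h1, h2]
  rw [← rev_rev L, h3, rev_rev]

lemma wE_rv {L : List Bool} (h : 1 ≤ L.length) : wE L ≤ wE (rv L) := by
  unfold wE
  apply ENNReal.ofReal_le_ofReal
  rw [rv_length]
  exact pow_le_pow_of_le_one xc_pos.le (NTW.DirA.xc_lt).le (by omega)

/-- **the transfer to the reversed walk** -/
theorem gf_rv {n j : ℕ} (hn : 1 ≤ n) (X : Set (List Bool)) :
    gf {L | L ∈ F n j ∧ rv L ∈ X} ≤ 2 * gf {L | L ∈ Fp (n - 1) j ∧ L ∈ X} := by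
  have hsub : {L | L ∈ F n j ∧ rv L ∈ X} ⊆ {L | (L ∈ F n j ∧ rv L ∈ X) ∧ (rev L).headD true = true} ∪
      {L | (L ∈ F n j ∧ rv L ∈ X) ∧ (rev L).headD true = false} := by
    intro L hL
    cases hb : (rev L).headD true with
    | true => exact Or.inl ⟨hL, hb⟩
    | false => exact Or.inr ⟨hL, hb⟩
  have hlen : ∀ L, L ∈ F n j → 1 ≤ L.length := fun L hL => hn.trans (mem_F.1 hL).2.1
  have hb : ∀ b : Bool, gf {L | (L ∈ F n j ∧ rv L ∈ X) ∧ (rev L).headD true = b} ≤ gf {L | L ∈ Fp (n - 1) j ∧ L ∈ X} := by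
    intro b
    have := gf_le_of_inj (P := {L | (L ∈ F n j ∧ rv L ∈ X) ∧ (rev L).headD true = b})
      (Q := {L | L ∈ Fp (n - 1) j ∧ L ∈ X}) rv (fun L hL => ⟨rv_mem hn hL.1.1, hL.1.2⟩)
      (fun L hL L' hL' h => rv_inj (hlen L hL.1.1) (hlen L' hL'.1.1) h (hL.2.trans hL'.2.symm)) 1
      (fun L hL => by rw [one_mul]; exact wE_rv (hlen L hL.1.1))
    rwa [one_mul] at this
  calc gf {L | L ∈ F n j ∧ rv L ∈ X} ≤ _ := gf_mono hsub
    _ ≤ _ := gf_union_le _ _
    _ ≤ gf {L | L ∈ Fp (n - 1) j ∧ L ∈ X} + gf {L | L ∈ Fp (n - 1) j ∧ L ∈ X} := add_le_add (hb true) (hb false)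
    _ = _ := (two_mul _).symm

end ARM

end HexObs
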