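import Pool.Agent.ARM.JFb
import Pool.Agent.ARM.Rv

/-!
# ARM, row L4 (helper94), part c: the start parts `rv F ++ Q`
-/

set_option autoImplicit false

namespace HexObs

namespace ARM

namespace J3

open Finset TS SDN SIM NTA TIP G3

open scoped ENNReal

variable {E : ℕ → Pt} {r : ℕ} {D : ℤ} {k : ℕ} {p1 s : Pt} {h : ℤ} {i : ℕ} {F Q W : List Bool}

lemma rv_eq (A : List Bool) : rv A = rev A.dropLast := by
  unfold rv rev
  rw [List.drop_one, List.tail_reverse, List.map_dropLast]

/-- **the reversed tip in the frame of its end** -/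
lemma rv_pos (hF : 1 ≤ F.length) {t : ℕ} (ht : t ≤ F.length) :
    mulE (rc (rv F)) (vx oo up (rv F) t) = TIW.en F - vx oo up F (F.length - t) := by
  obtain ⟨c, hc, hf⟩ := rv_vx F
  have hl : (rv F).length = F.length - 1 := rv_length F
  have h1 := hf (F.length - 1) (by omega)
  have h2 := hf F.length le_rfl
  rw [show F.length - (F.length - 1) = 1 by omega] at h1
  rw [Nat.sub_self] at h2
  have h3 : vx oo up (rv F) F.length = vx oo up (rv F) (F.length - 1) + TIW.de (rv F) := by
    unfold TIW.de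
    rw [hl]
    conv_lhs => rw [show F.length = F.length - 1 + 1 by omega]
    rfl
  have h4 : vx oo up F 1 = vx oo up F 0 + up := rfl
  have h5 : mulE c (TIW.de (rv F)) = -up := by
    rw [h3, mulE_add] at h2
    rw [h1] at h4
    have h6 : TIW.en F + mulE c (vx oo up (rv F) (F.length - 1)) = TIW.en F + (mulE c (vx oo up (rv F) (F.length - 1)) +
        mulE c (TIW.de (rv F))) + up := by rw [h4, ← h2]
    have h7 : mulE c (TIW.de (rv F)) + up = 0 := by
      have h8 : TIW.en F + (mulE c (vx oo up (rv F) (F.length - 1)) + mulE c (TIW.de (rv F))) + up =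
          (TIW.en F + mulE c (vx oo up (rv F) (F.length - 1))) + (mulE c (TIW.de (rv F)) + up) := by abel
      rw [h8] at h6
      exact left_eq_add.1 h6
    exact eq_neg_of_add_eq_zero_left h7
  have h6 : rc (rv F) = -c := by
    have n1 : nrm (TIW.de (rv F)) = 1 := mem_dirs.1 (dx_mem up_dirs _ _)
    refine JNT.mulE_left_inj n1 ?_
    rw [JNT.mulE_negl, h5, neg_neg]
    calc mulE (rc (rv F)) (TIW.de (rv F)) = mulE (rc (rv F)) (mulE (TIW.rt (rv F)) up) := by rw [TIW.rt_up]
      _ = up := rc_rt _ _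
  rw [h6, JNT.mulE_negl, hf t ht]
  abel

lemma rc_congr {A B : List Bool} (h : TIW.de A = TIW.de B) : rc A = rc B := by
  unfold rc TIW.rt
  rw [h]

/-- the end direction of the start part -/
lemma de_rvQ (hQ : TIW.de Q = up) : TIW.de (rv F ++ Q) = TIW.de (rv F) := by
  rw [TIW.de_app, hQ, TIW.rt_up]

lemma pos_rvQ1 (hF : 1 ≤ F.length) (hQ : TIW.de Q = up) {t : ℕ} (ht : t ≤ (rv F).length) :
    mulE (rc (rv F ++ Q)) (vx oo up (rv F ++ Q) t) = TIW.en F - vx oo up F (F.length - t) := by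
  rw [rc_congr (de_rvQ hQ), vx_append (by omega)]
  rw [rv_length] at ht
  exact rv_pos hF (by omega)

lemma pos_rvQ2 (hF : 1 ≤ F.length) (hQ : TIW.de Q = up) (j : ℕ) :
    mulE (rc (rv F ++ Q)) (vx oo up (rv F ++ Q) ((rv F).length + j)) = TIW.en F - up + vx oo up Q j := by
  rw [rc_congr (de_rvQ hQ), TIW.vx_app, mulE_add, rc_rt]
  congr 1
  unfold TIW.en
  rw [rv_length, rv_pos hF (by omega), show F.length - (F.length - 1) = 1 by omega]
  have h4 : vx oo up F 1 = up := by
    show vx oo up F 0 + up = up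
    exact zero_add up
  rw [h4]
  rfl

/-- the positions of a tip: level at least 2 -/
lemma lev_two (hF : F ∈ BAR.HiN F.length) {t : ℕ} (h1 : 1 ≤ t) (h2 : t ≤ F.length) : 2 ≤ ip (vx oo up F t) up := by
  have h3 : 0 < lev F t := (BAR.HpN_iff.1 hF.1).2.1 t h1 h2
  have h4 := lev_mod F t
  have h5 : ip (vx oo up F t) up = lev F t := rfl
  rw [h5]
  split_ifs at h4 <;> omega

/-- the straight tube -/
def up1 : ℕ → Pt := fun _ => up

/-- **the start part** -/
theorem s1_of (hr : 1 ≤ r) (hup : E (r - 1) = up) {b : ℤ} (hb : h + 2 * b < ip p1 up)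
    (hp1 : TIW.hn (p1 - qv E D r (r - 1)) ≤ 4) (hbk : 2 * b + 6 ≤ 2 ^ (k + 9)) (hF : F ∈ BAR.HiN F.length)
    (hFl : 1 ≤ F.length) (hFb : ∀ t, t ≤ F.length → TIW.hn (vx oo up F t) ≤ b)
    (hQ : TubeQ up1 D (2 ^ (k + 9)) 1 (s - (p1 + TIW.en F - up)) Q) (hQ1 : 1 ≤ Q.length)
    (hi : F.length + Q.length = i + 1) : S1 E r D k p1 h i s (rv F ++ Q) := by
  have hQd : TIW.de Q = up := hQ.de
  have hst : ∀ j, 1 ≤ j → j ≤ Q.length → 0 < ip (vx oo up Q j) up := by
    intro j h1 h2
    rcases hQ.st j h1 h2 with h3 | ⟨j', h3, h4, -⟩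
    · exact h3
    · omega
  have hbd : ∀ j, j ≤ Q.length → ip (vx oo up Q j - (s - (p1 + TIW.en F - up))) up ≤ 0 := by
    intro j h1
    rcases hQ.bd j h1 with h3 | ⟨j', h3, -⟩
    · exact h3
    · omega
  have hrg : ∀ j, j ≤ Q.length → AR.NS 0 up D (2 ^ (k + 9)) (vx oo up Q j) := by
    intro j h1
    obtain ⟨j', h2, h3⟩ := hQ.rg j h1
    obtain rfl : j' = 0 := by omega
    unfold Nr at h3
    have e1 : AR.pv up1 D 0 = 0 := by
      unfold AR.pv
      rw [ps_zero, smul_zero]
    rw [e1] at h3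
    exact h3
  have hlr : (rv F).length = F.length - 1 := rv_length F
  have hlW : (rv F ++ Q).length = i := by
    rw [List.length_append, hlr]
    omega
  have henF : TIW.hn (TIW.en F) ≤ b := hFb F.length le_rfl
  have hb0 : 0 ≤ b := (TIW.hn_nonneg _).trans henF
  have hup2 : TIW.hn up = 2 := by decide
  -- the end
  have hen : p1 + mulE (rc (rv F ++ Q)) (TIW.en (rv F ++ Q)) = s := by
    have h1 := pos_rvQ2 (F := F) (Q := Q) hFl hQd Q.length
    have h2 : TIW.en (rv F ++ Q) = vx oo up (rv F ++ Q) ((rv F).length + Q.length) := by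
      unfold TIW.en
      rw [List.length_append]
    rw [h2, h1]
    have h3 : vx oo up Q Q.length = s - (p1 + TIW.en F - up) := hQ.en
    rw [h3]
    abel
  have hlow : 0 < ip (s - (p1 + TIW.en F - up)) up := by
    have h3 : vx oo up Q Q.length = s - (p1 + TIW.en F - up) := hQ.en
    rw [← h3]
    exact hst Q.length hQ1 le_rfl
  -- the two sorts of vertices
  have key : ∀ t, t ≤ i → (∃ a, 1 ≤ a ∧ a ≤ F.length ∧ p1 + mulE (rc (rv F ++ Q)) (vx oo up (rv F ++ Q) t) =
      p1 + TIW.en F - vx oo up F a) ∨ (∃ j, j ≤ Q.length ∧ p1 + mulE (rc (rv F ++ Q)) (vx oo up (rv F ++ Q) t) =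
      p1 + TIW.en F - up + vx oo up Q j) := by
    intro t ht
    rcases Nat.lt_or_ge (rv F).length t with h1 | h1
    · right
      obtain ⟨j, rfl⟩ : ∃ j, t = (rv F).length + j := ⟨t - (rv F).length, by omega⟩
      refine ⟨j, by omega, ?_⟩
      rw [pos_rvQ2 hFl hQd]
      abel
    · left
      refine ⟨F.length - t, by omega, by omega, ?_⟩
      rw [pos_rvQ1 hFl hQd h1]
      abel
  refine ⟨?_, hlW, hen, fun t ht => ?_, fun t ht => ?_, fun t ht => ?_⟩
  · -- self-avoiding
    have hFs : F ∈ SA := ⟨fun _ _ _ => Set.mem_univ _, (BAR.HpN_iff.1 hF.1).2.2⟩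
    refine AR.sa_app (rv_SA hFs) hQ.sa fun t ht j hj hjl he => ?_
    have h1 : mulE (rc (rv F)) (vx oo up (rv F) t) = TIW.en F - up + vx oo up Q j := by
      rw [he, mulE_add, rc_rt]
      congr 1
      unfold TIW.en
      rw [rv_length, rv_pos hFl (by omega), show F.length - (F.length - 1) = 1 by omega]
      have h4 : vx oo up F 1 = up := by
        show vx oo up F 0 + up = up
        exact zero_add up
      rw [h4]
      rfl
    rw [rv_pos hFl (by omega)] at h1
    have h2 := lev_two hF (t := F.length - t) (by omega) (by omega)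
    have h3 := hst j hj hjl
    have h5 : vx oo up Q j = up - vx oo up F (F.length - t) := by
      have h6 : TIW.en F - vx oo up F (F.length - t) - (TIW.en F - up) = vx oo up Q j := by
        rw [h1]
        abel
      rw [← h6]
      abel
    rw [h5, AR.ip_sub_left] at h3
    have h6 : ip up up = 2 := by decide
    linarith
  · -- near the last segment
    rw [hup]
    rcases key t ht with ⟨a, h1, h2, h3⟩ | ⟨j, h1, h3⟩
    · rw [h3]
      refine ⟨0, le_rfl, ?_, ?_⟩
      · obtain ⟨t0, h4, h5, -⟩ := hrg 0 (Nat.zero_le _)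
        exact h4.trans h5
      · rw [zero_smul, add_zero]
        have e1 : p1 + TIW.en F - vx oo up F a - qv E D r (r - 1) = (p1 - qv E D r (r - 1)) + (TIW.en F - vx oo up F a) := by
          abel
        rw [e1]
        have h4 := TIW.hn_add (p1 - qv E D r (r - 1)) (TIW.en F - vx oo up F a)
        have h5 := TIW.hn_sub (TIW.en F) (vx oo up F a)
        have h6 := hFb a h2
        have h7 : (2 : ℤ) ^ (k + 10) = 2 ^ (k + 9) + 2 ^ (k + 9) := by ring
        linarith
    · rw [h3]
      have h7 : (2 : ℤ) ^ (k + 10) = 2 ^ (k + 9) + 2 ^ (k + 9) := by ring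
      rw [h7]
      refine NS_shift (hrg j h1) ?_
      have e1 : p1 + TIW.en F - up + vx oo up Q j - qv E D r (r - 1) - (vx oo up Q j - 0) =
          (p1 - qv E D r (r - 1)) + (TIW.en F - up) := by abel
      rw [e1]
      have h4 := TIW.hn_add (p1 - qv E D r (r - 1)) (TIW.en F - up)
      have h5 := TIW.hn_sub (TIW.en F) up
      linarith
  · -- below the start of M
    rcases key t ht with ⟨a, h1, h2, h3⟩ | ⟨j, h1, h3⟩
    · rw [h3]
      have e1 : p1 + TIW.en F - vx oo up F a - s = -(s - (p1 + TIW.en F - up)) + (up - vx oo up F a) := by abel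
      have h4 := lev_two hF h1 h2
      have h6 : ip up up = 2 := by decide
      have h7 : ip (up - vx oo up F a) up = ip up up - ip (vx oo up F a) up := AR.ip_sub_left _ _ _
      rw [e1, ip_add_left, ip_neg_left, h7, h6]
      linarith
    · rw [h3]
      have e1 : p1 + TIW.en F - up + vx oo up Q j - s = vx oo up Q j - (s - (p1 + TIW.en F - up)) := by abel
      rw [e1]
      exact hbd j h1
  · -- above h
    have h8 := TIW.neg_hn_le_ip (TIW.en F) TIW.upd'
    rcases key t ht with ⟨a, h1, h2, h3⟩ | ⟨j, h1, h3⟩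
    · rw [h3, AR.ip_sub_left, ip_add_left]
      have h9 := TIW.ip_le_hn (vx oo up F a) TIW.upd'
      have h10 := hFb a h2
      linarith
    · rw [h3, ip_add_left, AR.ip_sub_left, ip_add_left]
      have h6 : ip up up = 2 := by decide
      rw [h6]
      have h9 : 2 ≤ b := by
        have h10 := hFb 1 hFl
        have h11 : vx oo up F 1 = up := by
          show vx oo up F 0 + up = up
          exact zero_add up
        rw [h11, hup2] at h10
        exact h10
      rcases Nat.eq_zero_or_pos j with h0 | h0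
      · rw [h0]
        have h11 : ip (vx oo up Q 0) up = 0 := by
          show ip oo up = 0
          decide
        linarith
      · have h11 := hst j h0 h1
        linarith

/-- the tips -/
def TB (p b0 b1 : ℕ) (b : ℤ) : Set (List Bool) := {F | F ∈ BAR.HiN F.length ∧ F.length % 2 = p ∧
    b0 ≤ F.length ∧ F.length ≤ b1 ∧ ∀ i, i ≤ F.length → TIW.hn (vx oo up F i) ≤ b}

/-- tube words of one step are half plane words -/
lemma tube_HpN {D w : ℤ} {z : Pt} (hQ : TubeQ up1 D w 1 z Q) : Q ∈ HpN Q.length := by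
  rw [BAR.HpN_iff]
  refine ⟨rfl, fun i h1 h2 => ?_, hQ.sa.inj⟩
  rcases hQ.st i h1 h2 with h3 | ⟨j', h3, h4, -⟩
  · exact h3
  · omega

/-- **the sum over the start parts** -/
theorem sum_s1 (hr : 1 ≤ r) (hup : E (r - 1) = up) {b : ℤ} (hb : h + 2 * b < ip p1 up)
    (hp1 : TIW.hn (p1 - qv E D r (r - 1)) ≤ 4) (hbk : 2 * b + 6 ≤ 2 ^ (k + 9)) {b1 : ℕ} (hb1 : b1 ≤ i) {v : ℝ≥0∞}
    (hv : ∀ F ∈ TB 1 0 b1 b, v ≤ gf {Q | TubeQ up1 D (2 ^ (k + 9)) 1 (s - (p1 + TIW.en F - up)) Q ∧
      Q.length = i + 1 - F.length}) :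
    gf (TB 1 0 b1 b) * v ≤ 2 * gf {W | S1 E r D k p1 h i s W} := by
  classical
  have e1 : gf (TB 1 0 b1 b) * v ≤ ∑' q : (Σ F : TB 1 0 b1 b, {Q | TubeQ up1 D (2 ^ (k + 9)) 1
      (s - (p1 + TIW.en (F : List Bool) - up)) Q ∧ Q.length = i + 1 - (F : List Bool).length}),
      wE (q.1 : List Bool) * wE (q.2 : List Bool) := by
    rw [ENNReal.tsum_sigma']
    unfold gf
    rw [← ENNReal.tsum_mul_right]
    refine ENNReal.tsum_le_tsum fun F => ?_
    show _ ≤ ∑' b' : {Q | TubeQ up1 D (2 ^ (k + 9)) 1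
      (s - (p1 + TIW.en (F : List Bool) - up)) Q ∧ Q.length = i + 1 - (F : List Bool).length},
      wE (F : List Bool) * wE (b' : List Bool)
    rw [ENNReal.tsum_mul_left]
    exact mul_le_mul' le_rfl (hv F F.2)
  refine e1.trans ?_
  have e2 : 2 * gf {W | S1 E r D k p1 h i s W} = ∑' q : Bool × {W | S1 E r D k p1 h i s W}, wE (q.2 : List Bool) := by
    rw [ENNReal.tsum_prod']
    show _ = ∑' b : Bool, gf {W | S1 E r D k p1 h i s W}
    rw [tsum_bool]
    ring
  rw [e2]
  have hmem : ∀ F Q : List Bool, F ∈ TB 1 0 b1 b → TubeQ up1 D (2 ^ (k + 9)) 1 (s - (p1 + TIW.en F - up)) Q →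
      Q.length = i + 1 - F.length → S1 E r D k p1 h i s (rv F ++ Q) := by
    intro F Q hF hQ hl
    obtain ⟨h1, h2, -, h3, h4⟩ := hF
    exact s1_of hr hup hb hp1 hbk h1 (by omega) h4 hQ (by omega) (by omega)
  let φ : (Σ F : TB 1 0 b1 b, {Q | TubeQ up1 D (2 ^ (k + 9)) 1
      (s - (p1 + TIW.en (F : List Bool) - up)) Q ∧ Q.length = i + 1 - (F : List Bool).length}) →
      Bool × {W | S1 E r D k p1 h i s W} := fun q =>
    ((q.1 : List Bool).getLastD true, ⟨rv (q.1 : List Bool) ++ (q.2 : List Bool), hmem q.1 q.2 q.1.2 q.2.2.1 q.2.2.2⟩)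
  have hφ : Function.Injective φ := by
    rintro ⟨⟨F, hF⟩, ⟨Q, hQ⟩⟩ ⟨⟨F', hF'⟩, ⟨Q', hQ'⟩⟩ he
    have h1 : F.getLastD true = F'.getLastD true := congrArg Prod.fst he
    have h2 : rv F ++ Q = rv F' ++ Q' := congrArg (fun q => ((q.2 : {W | S1 E r D k p1 h i s W}) : List Bool)) he
    simp only [Set.mem_setOf_eq] at hQ hQ'
    have g1 : 1 ≤ F.length := by
      have := hF.2.1
      omega
    have g1' : 1 ≤ F'.length := by
      have := hF'.2.1
      omega
    have d1 : TIW.de (rv F) = TIW.de (rv F') := by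
      rw [← de_rvQ (F := F) hQ.1.de, h2, de_rvQ (F := F') hQ'.1.de]
    have d2 : BAR.jd F.dropLast = BAR.jd F'.dropLast := by
      unfold BAR.jd
      have l1 : F.dropLast.length = (rv F).length := by rw [rv_eq, rev_length]
      have l2 : F'.dropLast.length = (rv F').length := by rw [rv_eq, rev_length]
      rw [← rv_eq, ← rv_eq, l1, l2]
      exact d1
    rw [rv_eq, rv_eq] at h2
    obtain ⟨h3, h4⟩ := JNT.triple_inj hF.1 hF'.1 g1 g1' (tube_HpN hQ.1) (tube_HpN hQ'.1) h1 d2 h2
    subst h3 h4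
    rfl
  refine le_trans (ENNReal.tsum_le_tsum fun q => ?_) (ENNReal.tsum_comp_le_tsum_of_injective hφ
    (fun q : Bool × {W | S1 E r D k p1 h i s W} => wE (q.2 : List Bool)))
  show _ ≤ wE (rv (q.1 : List Bool) ++ (q.2 : List Bool))
  rw [wE_append]
  refine mul_le_mul' (wE_rv ?_) le_rfl
  have := q.1.2.2.1
  omega

end J3

end ARM

end HexObs
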