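import Pool.Agent.ARM.JFc

/-!
# ARM, row L4 (helper94), part d: the end parts `Q ++ A`
-/

set_option autoImplicit false

namespace HexObs

namespace ARM

namespace J3

open Finset TS SDN SIM NTA TIP G3

open scoped ENNReal

variable {E : ℕ → Pt} {r : ℕ} {D : ℤ} {k : ℕ} {pe s : Pt} {h b : ℤ} {m p b0 b1 : ℕ} {M Q A : List Bool}

lemma qv_step (E : ℕ → Pt) (D : ℤ) (r i : ℕ) : qv E D r i + D • E i = qv E D r (i + 1) := by
  unfold qv
  rw [← smul_add, AR.ps_succ]
  congr 1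
  abel

/-- the tube words to the point before A -/
def TE (E : ℕ → Pt) (r : ℕ) (D : ℤ) (k : ℕ) (pe s : Pt) (M A : List Bool) (Q : List Bool) : Prop :=
  TubeQ (fun i => mulE (rc M) (E i)) D (2 ^ (k + 9)) (r - 1) (mulE (rc M) (pe - TIW.en A - (s + TIW.en M))) Q

lemma TE.deQ (hup : E (r - 2) = up) (hQ : TE E r D k pe s M A Q) : TIW.de Q = mulE (rc M) up := by
  have h1 : TIW.de Q = mulE (rc M) (E (r - 1 - 1)) := hQ.de
  rw [h1, show r - 1 - 1 = r - 2 by omega, hup]

/-- the rotation at the end of the tube -/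
lemma TE.rtQ (hup : E (r - 2) = up) (hQ : TE E r D k pe s M A Q) (x : Pt) : mulE (TIW.rt M) (mulE (TIW.rt Q) x) = x := by
  have h1 : mulE (TIW.rt M) (TIW.rt Q) = (1, 0) := by
    refine JNT.mulE_left_inj JNT.nrm_up ?_
    rw [← mulE_assoc, TIW.rt_up, hQ.deQ hup, rt_rc, mulE_one]
  rw [mulE_assoc, h1, mulE_one]

/-- the vertices behind the tube -/
lemma TE.pos (hup : E (r - 2) = up) (hQ : TE E r D k pe s M A Q) (x : Pt) :
    s + TIW.en M + mulE (TIW.rt M) (TIW.en Q + mulE (TIW.rt Q) x) = pe - TIW.en A + x := by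
  have h1 : TIW.en Q = mulE (rc M) (pe - TIW.en A - (s + TIW.en M)) := hQ.en
  rw [mulE_add, hQ.rtQ hup, h1, rt_rc]
  abel

/-- the box of the last tip -/
lemma near_pe (hD : 0 ≤ D) (hpe : TIW.hn (pe - qv E D r (r - 1)) + 2 * b ≤ 2 ^ (k + 10))
    (hA : ∀ t, t ≤ A.length → TIW.hn (vx oo up A t) ≤ b) {j : ℕ} (hj : j ≤ A.length) :
    TIW.hn (pe - TIW.en A + vx oo up A j - qv E D r (r - 1)) ≤ 2 ^ (k + 10) ∧
    AR.NS (qv E D r (r - 1)) (E (r - 1)) D (2 ^ (k + 10)) (pe - TIW.en A + vx oo up A j) := by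
  have h1 : TIW.hn (pe - TIW.en A + vx oo up A j - qv E D r (r - 1)) ≤ 2 ^ (k + 10) := by
    have e1 : pe - TIW.en A + vx oo up A j - qv E D r (r - 1) = (pe - qv E D r (r - 1)) + (vx oo up A j - TIW.en A) := by
      abel
    rw [e1]
    have h2 := TIW.hn_add (pe - qv E D r (r - 1)) (vx oo up A j - TIW.en A)
    have h3 := TIW.hn_sub (vx oo up A j) (TIW.en A)
    have h4 := hA j hj
    have h5 : TIW.hn (TIW.en A) ≤ b := hA A.length le_rfl
    linarith
  refine ⟨h1, 0, le_rfl, hD, ?_⟩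
  rw [zero_smul, add_zero]
  exact h1

/-- the vertices of the tube: not above its end or close to one of the first segments -/
lemma TE.bdA (hup : E (r - 2) = up) (hP : Plc E r D k s M) (hQ : TE E r D k pe s M A Q) {t : ℕ} (ht : t ≤ Q.length) :
    ip (s + TIW.en M + mulE (TIW.rt M) (vx oo up Q t) - (pe - TIW.en A)) up ≤ 0 ∨ ∃ j, j + 2 < r ∧
      AR.NS (qv E D r j) (E j) D (2 ^ (k + 10)) (s + TIW.en M + mulE (TIW.rt M) (vx oo up Q t)) := by
  rcases hQ.bd t ht with h1 | ⟨j, h1, h2⟩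
  · left
    rw [show r - 1 - 1 = r - 2 by omega, hup] at h1
    have h3 := ip_mulE (TIW.rt M) (vx oo up Q t - mulE (rc M) (pe - TIW.en A - (s + TIW.en M))) (mulE (rc M) up)
    rw [TIW.nrm_rt, one_mul, mulE_sub, rt_rc, rt_rc] at h3
    have e1 : s + TIW.en M + mulE (TIW.rt M) (vx oo up Q t) - (pe - TIW.en A) =
        mulE (TIW.rt M) (vx oo up Q t) - (pe - TIW.en A - (s + TIW.en M)) := by abel
    rw [e1, h3]
    exact h1
  · exact Or.inr ⟨j, by omega, near_abs hP h2⟩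

/-- **the end part** -/
theorem s2_of (hE : IPg E r) (hr : 4 ≤ r) (hup : E (r - 2) = up) (hD : 2 ^ (k + 12) ≤ D) (hP : Plc E r D k s M)
    (hpe : TIW.hn (pe - qv E D r (r - 1)) + 2 * b ≤ 2 ^ (k + 10)) (hlo : ip pe up + 2 * b ≤ h)
    (hA : A ∈ BAR.HiN A.length) (hAb : ∀ t, t ≤ A.length → TIW.hn (vx oo up A t) ≤ b)
    (hQ : TE E r D k pe s M A Q) (hm : Q.length + A.length = m) : S2 E r D k pe h s M m (Q ++ A) := by
  have hD0 : 0 ≤ D := le_trans (by positivity) hD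
  have hAs : A ∈ SA := ⟨fun _ _ _ => Set.mem_univ _, (BAR.HpN_iff.1 hA.1).2.2⟩
  have hApos : ∀ j, 1 ≤ j → j ≤ A.length → 0 < ip (vx oo up A j) up := (BAR.HpN_iff.1 hA.1).2.1
  have hub : ip (pe - TIW.en A) up ≤ ip pe up + b := by
    rw [AR.ip_sub_left]
    have h1 := TIW.neg_hn_le_ip (TIW.en A) TIW.upd'
    have h2 : TIW.hn (TIW.en A) ≤ b := hAb A.length le_rfl
    linarith
  have hb0 : 0 ≤ b := (TIW.hn_nonneg _).trans (hAb 0 (Nat.zero_le _))
  have key : ∀ t, t ≤ m → (t ≤ Q.length ∧ vx oo up (Q ++ A) t = vx oo up Q t) ∨ (∃ j, 1 ≤ j ∧ j ≤ A.length ∧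
      s + TIW.en M + mulE (TIW.rt M) (vx oo up (Q ++ A) t) = pe - TIW.en A + vx oo up A j) := by
    intro t ht
    rcases Nat.lt_or_ge Q.length t with h1 | h1
    · right
      obtain ⟨j, rfl⟩ : ∃ j, t = Q.length + j := ⟨t - Q.length, by omega⟩
      refine ⟨j, by omega, by omega, ?_⟩
      rw [TIW.vx_app, hQ.pos hup]
    · left
      exact ⟨h1, vx_append (by omega)⟩
  have hseg : ∀ j, j ≤ A.length → AR.NS (qv E D r (r - 2)) (E (r - 2)) D (2 ^ (k + 10)) (pe - TIW.en A + vx oo up A j) := by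
    intro j hj
    refine ⟨D, hD0, le_rfl, ?_⟩
    rw [qv_step, show r - 2 + 1 = r - 1 by omega]
    exact (near_pe hD0 hpe hAb hj).1
  refine ⟨?_, ?_, ?_, fun t ht => ?_, fun t ht0 ht => ?_, fun t ht => ?_⟩
  · refine AR.sa_app hQ.sa hAs fun t ht j hj hjl he => ?_
    have h1 : s + TIW.en M + mulE (TIW.rt M) (vx oo up Q t) = pe - TIW.en A + vx oo up A j := by
      rw [he, hQ.pos hup]
    rcases hQ.bdA hup hP ht with h2 | ⟨j', h2, h3⟩
    · rw [h1, add_sub_cancel_left] at h2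
      have h4 := hApos j hj hjl
      linarith
    · rw [h1] at h3
      exact far_two hE hD h2 h3 (near_pe hD0 hpe hAb hjl).2
  · rw [List.length_append]
    exact hm
  · have h1 : TIW.en (Q ++ A) = TIW.en Q + mulE (TIW.rt Q) (TIW.en A) := TIW.en_app Q A
    rw [h1, hQ.pos hup]
    abel
  · rcases key t ht with ⟨h1, h2⟩ | ⟨j, h1, h2, h3⟩
    · rw [h2]
      obtain ⟨j, h3, h4⟩ := hQ.rg t h1
      exact ⟨j, by omega, near_abs hP h4⟩
    · rw [h3]
      exact ⟨r - 2, by omega, hseg j h2⟩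
  · rcases key t ht with ⟨h1, h2⟩ | ⟨j, h1, h2, h3⟩
    · rw [h2]
      rcases hQ.st t ht0 h1 with h3 | ⟨j, h3, h4, h5⟩
      · exact Or.inl h3
      · exact Or.inr ⟨j, h3, by omega, near_abs hP h5⟩
    · right
      rw [h3]
      exact ⟨r - 2, by omega, by omega, hseg j h2⟩
  · rcases key t ht with ⟨h1, h2⟩ | ⟨j, h1, h2, h3⟩
    · rw [h2]
      rcases hQ.bdA hup hP h1 with h3 | h3
      · left
        rw [AR.ip_sub_left] at h3
        linarith
      · exact Or.inr h3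
    · left
      rw [h3, ip_add_left]
      have h4 := TIW.ip_le_hn (vx oo up A j) TIW.upd'
      have h5 := hAb j h2
      linarith

/-- two decompositions of one end part -/
lemma s2_le (hE : IPg E r) (hr : 4 ≤ r) (hup : E (r - 2) = up) (hD : 2 ^ (k + 12) ≤ D) (hP : Plc E r D k s M)
    (hpe : TIW.hn (pe - qv E D r (r - 1)) + 2 * b ≤ 2 ^ (k + 10)) {A' Q' : List Bool}
    (hA : A ∈ BAR.HiN A.length) (hAb : ∀ t, t ≤ A.length → TIW.hn (vx oo up A t) ≤ b)
    (hQ : TE E r D k pe s M A Q)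
    (hA' : A' ∈ BAR.HiN A'.length) (hQ' : TE E r D k pe s M A' Q')
    (he : Q ++ A = Q' ++ A') (hl : Q.length ≤ Q'.length) : Q = Q' ∧ A = A' := by
  have hD0 : 0 ≤ D := le_trans (by positivity) hD
  obtain ⟨Z, hZ1, hZ2⟩ : ∃ Z, Q' = Q ++ Z ∧ A = Z ++ A' := by
    refine ⟨Q'.drop Q.length, ?_, ?_⟩
    · have h1 : Q = Q'.take Q.length := by
        have h2 := congrArg (List.take Q.length) he
        rw [List.take_left' rfl, List.take_append_of_le_length hl] at h2
        exact h2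
      conv_lhs => rw [← List.take_append_drop Q.length Q', ← h1]
    · have h2 := congrArg (List.drop Q.length) he
      rw [List.drop_left' rfl, List.drop_append_of_le_length hl] at h2
      exact h2
  have hAs : A ∈ SA := ⟨fun _ _ _ => Set.mem_univ _, (BAR.HpN_iff.1 hA.1).2.2⟩
  have hlA : A.length = Z.length + A'.length := by rw [hZ2, List.length_append]
  have hvZ : ∀ j, j ≤ Z.length → vx oo up A j = vx oo up Z j := by
    intro j hj
    rw [hZ2, vx_append (by omega)]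
  have hZBU : Z ∈ BU := by
    refine bu_of ?_ ?_ (fun j h1 h2 => ?_) (fun j h2 => ?_)
    · have h1 : Z = A.take Z.length := by rw [hZ2, List.take_left' rfl]
      rw [h1]
      exact SA_take hAs _
    · have h1 := hQ'.deQ hup
      rw [hZ1, TIW.de_app, ← hQ.deQ hup, ← TIW.rt_up Q] at h1
      exact mulE_inj (TIW.nrm_rt Q) h1
    · have h3 : 0 < lev A j := (BAR.HpN_iff.1 hA.1).2.1 j h1 (by omega)
      have h4 : lev A j = ip (vx oo up A j) up := rfl
      rw [h4, hvZ j h2] at h3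
      exact h3
    · have h3 := hQ'.bdA hup hP (t := Q.length + j) (by rw [hZ1, List.length_append]; omega)
      have h4 : vx oo up Q' (Q.length + j) = TIW.en Q + mulE (TIW.rt Q) (vx oo up Z j) := by
        rw [hZ1, TIW.vx_app]
      rw [h4, hQ.pos hup] at h3
      have h5 : pe - TIW.en A' = pe - TIW.en A + TIW.en Z := by
        have h6 := hQ'.pos hup 0
        rw [G3.mulE_zero, add_zero, add_zero, hZ1, TIW.en_app, hQ.pos hup] at h6
        exact h6.symm
      rcases h3 with h3 | ⟨j', h3, h6⟩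
      · rw [h5] at h3
        have e1 : pe - TIW.en A + vx oo up Z j - (pe - TIW.en A + TIW.en Z) = vx oo up Z j - TIW.en Z := by abel
        rw [e1, AR.ip_sub_left] at h3
        have h7 : ip (vx oo up Z j) up = lev Z j := rfl
        have h8 : ip (TIW.en Z) up = lev Z Z.length := rfl
        linarith
      · exfalso
        rw [← hvZ j h2] at h6
        exact far_two hE hD h3 h6 (near_pe hD0 hpe hAb (by omega)).2
  obtain ⟨h1, h2⟩ := JNT.split_inj nil_BU hZBU hA hA' (by rw [List.nil_append]; exact hZ2)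
  refine ⟨?_, h2⟩
  rw [hZ1, ← h1, List.append_nil]

/-- **the sum over the end parts** -/
theorem sum_s2 (hE : IPg E r) (hr : 4 ≤ r) (hup : E (r - 2) = up) (hD : 2 ^ (k + 12) ≤ D) (hP : Plc E r D k s M)
    (hpe : TIW.hn (pe - qv E D r (r - 1)) + 2 * b ≤ 2 ^ (k + 10)) (hlo : ip pe up + 2 * b ≤ h) (hb1 : b1 ≤ m)
    {v : ℝ≥0∞} (hv : ∀ A ∈ TB p b0 b1 b, v ≤ gf {Q | TE E r D k pe s M A Q ∧ Q.length = m - A.length}) :
    gf (TB p b0 b1 b) * v ≤ gf {W | S2 E r D k pe h s M m W} := by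
  classical
  have e1 : gf (TB p b0 b1 b) * v ≤ ∑' q : (Σ A : TB p b0 b1 b, {Q | TE E r D k pe s M (A : List Bool) Q ∧
      Q.length = m - (A : List Bool).length}), wE (q.1 : List Bool) * wE (q.2 : List Bool) := by
    rw [ENNReal.tsum_sigma']
    unfold gf
    rw [← ENNReal.tsum_mul_right]
    refine ENNReal.tsum_le_tsum fun A => ?_
    show _ ≤ ∑' b' : {Q | TE E r D k pe s M (A : List Bool) Q ∧ Q.length = m - (A : List Bool).length},
      wE (A : List Bool) * wE (b' : List Bool)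
    rw [ENNReal.tsum_mul_left]
    exact mul_le_mul' le_rfl (hv A A.2)
  refine e1.trans ?_
  let φ : (Σ A : TB p b0 b1 b, {Q | TE E r D k pe s M (A : List Bool) Q ∧ Q.length = m - (A : List Bool).length}) →
      {W | S2 E r D k pe h s M m W} := fun q =>
    ⟨(q.2 : List Bool) ++ (q.1 : List Bool), s2_of hE hr hup hD hP hpe hlo q.1.2.1 q.1.2.2.2.2.2 q.2.2.1 (by
      have h1 : (q.2 : List Bool).length = m - (q.1 : List Bool).length := q.2.2.2
      have h2 : (q.1 : List Bool).length ≤ b1 := q.1.2.2.2.2.1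
      omega)⟩
  have hφ : Function.Injective φ := by
    rintro ⟨⟨A, hA⟩, ⟨Q, hQ⟩⟩ ⟨⟨A', hA'⟩, ⟨Q', hQ'⟩⟩ he
    have h2 : Q ++ A = Q' ++ A' := congrArg (fun q : {W | S2 E r D k pe h s M m W} => (q : List Bool)) he
    simp only [Set.mem_setOf_eq] at hQ hQ'
    have h3 : Q = Q' ∧ A = A' := by
      rcases le_total Q.length Q'.length with h4 | h4
      · exact s2_le hE hr hup hD hP hpe hA.1 hA.2.2.2.2 hQ.1 hA'.1 hQ'.1 h2 h4
      · obtain ⟨h5, h6⟩ := s2_le hE hr hup hD hP hpe hA'.1 hA'.2.2.2.2 hQ'.1 hA.1 hQ.1 h2.symm h4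
        exact ⟨h5.symm, h6.symm⟩
    obtain ⟨h4, h5⟩ := h3
    subst h4 h5
    rfl
  refine le_trans (le_of_eq (tsum_congr fun q => ?_)) (ENNReal.tsum_comp_le_tsum_of_injective hφ
    (fun q : {W | S2 E r D k pe h s M m W} => wE (q : List Bool)))
  show _ = wE ((q.2 : List Bool) ++ (q.1 : List Bool))
  rw [wE_append, mul_comm]

end J3

end ARM

end HexObs
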