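import Pool.Agent.ARM.JFd

/-!
# ARM, row L4 (helper94), part e: the tubes at both sides, rotations, points
-/

set_option autoImplicit false

namespace HexObs

namespace ARM

namespace J3

open Finset TS SDN SIM NTA TIP G3

open scoped ENNReal

variable {E : ℕ → Pt} {r : ℕ} {D : ℤ} {k : ℕ} {p1 pe s : Pt} {h b : ℤ} {i m : ℕ} {M Q A F : List Bool}

/-- the tube lemma with fixed constants -/
def TSt (H Mx kT : ℕ) (c : ℝ) : Prop := ∀ (k r b : ℕ) (D : ℤ) (e : ℕ → Pt) (z : Pt), kT ≤ k →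
    18 * (H * 2 ^ k) ≤ D → D ≤ 36 * (H * 2 ^ k) → 1 ≤ r → r ≤ Mx → IPg e r → e 0 = up →
    TIW.hn (z - AR.pv e D r) ≤ 2 ^ (k + 2) → cl z = (if Even b then 0 else 2) →
    cl (e (r - 1)) = (if Even b then 2 else 1) → 1 / 16 * ml k ≤ b → (b : ℝ) ≤ 1 * ml k →
    ENNReal.ofReal (c * (Ub k / (4 ^ k * ml k))) ≤ gf {Q | TubeQ e D (2 ^ (k + 9)) r z Q ∧ Q.length = b}

lemma cl_upx : cl up = 2 := by decide

lemma cl_oox : cl oo = 0 := by decide

lemma cl_enx (A : List Bool) : cl (TIW.en A) = if Even A.length then 0 else 2 := by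
  have h : cl (TIW.en A) = if Even A.length then cl oo else cl oo + cl up := cl_vx oo up A A.length
  rw [h, cl_upx, cl_oox, zero_add]

/-- **the tube at the start** -/
theorem tube1 {H Mx kT : ℕ} {c : ℝ} (hT : TSt H Mx kT c) (hk : kT ≤ k) (hD1 : 18 * (H * 2 ^ k) ≤ D)
    (hD2 : D ≤ 36 * (H * 2 ^ k)) (hMx : 1 ≤ Mx) (hr : 1 ≤ r) (hup : E (r - 1) = up) (hF : F.length % 2 = 1)
    (hFb : TIW.hn (TIW.en F) ≤ b) (hb : b + 6 ≤ 2 ^ (k + 1)) (hp1 : TIW.hn (p1 - qv E D r (r - 1)) ≤ 4) (cp1 : cl p1 = 0)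
    (hs : TIW.hn s ≤ 2 ^ (k + 1)) (cs : cl s = 0) (hi : Even i) (hFi : F.length ≤ i)
    (l1 : 1 / 16 * ml k ≤ (i + 1 - F.length : ℕ)) (l2 : ((i + 1 - F.length : ℕ) : ℝ) ≤ 1 * ml k) :
    ENNReal.ofReal (c * (Ub k / (4 ^ k * ml k))) ≤ gf {Q | TubeQ up1 D (2 ^ (k + 9)) 1 (s - (p1 + TIW.en F - up)) Q ∧
      Q.length = i + 1 - F.length} := by
  have hFo : ¬ Even F.length := by
    rw [Nat.even_iff]
    omega
  have hev : Even (i + 1 - F.length) := by
    rw [Nat.even_iff] at hi ⊢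
    omega
  have hup2 : TIW.hn up = 2 := by decide
  refine hT k 1 (i + 1 - F.length) D up1 _ hk hD1 hD2 le_rfl hMx ⟨fun _ _ => TIW.upd', fun j hj => by omega,
    fun a j h1 h2 => by omega⟩ rfl ?_ ?_ ?_ l1 l2
  · have e1 : AR.pv up1 D 1 = D • up := by
      unfold AR.pv
      rw [AR.ps_succ, ps_zero, zero_add]
      rfl
    have e2 : qv E D r (r - 1) = -(D • up) := by
      have := qv_last E D hr
      rw [hup] at this
      exact eq_neg_of_add_eq_zero_left this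
    have e3 : s - (p1 + TIW.en F - up) - AR.pv up1 D 1 = s - (p1 - qv E D r (r - 1)) - (TIW.en F - up) := by
      rw [e1, e2]
      abel
    rw [e3]
    have h1 := TIW.hn_sub (s - (p1 - qv E D r (r - 1))) (TIW.en F - up)
    have h2 := TIW.hn_sub s (p1 - qv E D r (r - 1))
    have h3 := TIW.hn_sub (TIW.en F) up
    have h4 : (2 : ℤ) ^ (k + 2) = 2 ^ (k + 1) + 2 ^ (k + 1) := by ring
    linarith
  · rw [if_pos hev, cl_sub, cl_sub, cl_add, cs, cp1, cl_enx, if_neg hFo, cl_upx]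
    decide
  · rw [if_pos hev]
    exact cl_upx

lemma ipg_le (hE : IPg E r) {r' : ℕ} (h : r' ≤ r) : IPg E r' :=
  ⟨fun i hi => hE.dir i (by omega), fun i hi => hE.tur i (by omega), fun i j hij hj => hE.ind i j hij (by omega)⟩

/-- **the tube at the end** -/
theorem tube2 {H Mx kT : ℕ} {c : ℝ} (hT : TSt H Mx kT c) (hk : kT ≤ k) (hD1 : 18 * (H * 2 ^ k) ≤ D)
    (hD2 : D ≤ 36 * (H * 2 ^ k)) (hE : IPg E r) (hr : 4 ≤ r) (hMx : r ≤ Mx) (hup : E (r - 2) = up)
    (hP : Plc E r D k s M) (hx : 2 * TIW.hn (s + TIW.en M - qv E D r 0) ≤ 3 * 2 ^ k) (cs : cl s = 0)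
    (hpe : 2 * (TIW.hn (pe - qv E D r (r - 1)) + b) ≤ 5 * 2 ^ k)
    {n : ℕ} (cpe : cl pe = if Even n then 0 else 2) (hA : TIW.hn (TIW.en A) ≤ b) (hAn : A.length % 2 = n % 2)
    (hi : Even i) (him : i + M.length ≤ n) (hAm : A.length ≤ n - (i + M.length))
    (l1 : 1 / 16 * ml k ≤ (n - (i + M.length) - A.length : ℕ)) (l2 : ((n - (i + M.length) - A.length : ℕ) : ℝ) ≤ 1 * ml k) :
    ENNReal.ofReal (c * (Ub k / (4 ^ k * ml k))) ≤
      gf {Q | TE E r D k pe s M A Q ∧ Q.length = n - (i + M.length) - A.length} := by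
  have hpar : Even (n - (i + M.length) - A.length) ↔ Even M.length := by
    rw [Nat.even_iff, Nat.even_iff]
    rw [Nat.even_iff] at hi
    omega
  have hAn' : Even A.length ↔ Even n := by
    rw [Nat.even_iff, Nat.even_iff, hAn]
  have g1 := cl_rc M
  have g2 : cl (TIW.de M) = if Even M.length then cl up else -cl up := cl_dx up M M.length
  rw [g2] at g1
  refine hT k (r - 1) (n - (i + M.length) - A.length) D (fun i => mulE (rc M) (E i)) _ hk hD1 hD2 (by omega) (by omega)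
    (ipg_rot (ipg_le hE (by omega)) (nrm_rc M)) ?_ ?_ ?_ ?_ l1 l2
  · show mulE (rc M) (E 0) = up
    rw [← hP.de, ← TIW.rt_up M, rc_rt]
  · have e1 : AR.pv (fun i => mulE (rc M) (E i)) D (r - 1) = mulE (rc M) (qv E D r (r - 1) - qv E D r 0) := by
      unfold AR.pv
      rw [ps_rot, ← mulE_smul]
      congr 1
      unfold qv
      rw [ps_zero, ← smul_sub]
      congr 1
      abel
    have e2 : mulE (rc M) (pe - TIW.en A - (s + TIW.en M)) - AR.pv (fun i => mulE (rc M) (E i)) D (r - 1) =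
        mulE (rc M) ((pe - qv E D r (r - 1)) - TIW.en A - (s + TIW.en M - qv E D r 0)) := by
      rw [e1, ← mulE_sub]
      congr 1
      abel
    rw [e2, TIW.hn_mulE (nrm_rc M)]
    have h1 := TIW.hn_sub ((pe - qv E D r (r - 1)) - TIW.en A) (s + TIW.en M - qv E D r 0)
    have h2 := TIW.hn_sub (pe - qv E D r (r - 1)) (TIW.en A)
    have h4 : (2 : ℤ) ^ (k + 2) = 4 * 2 ^ k := by ring
    rw [h4]
    linarith
  · rw [cl_mulE]
    have e1 : cl (pe - TIW.en A - (s + TIW.en M)) = -cl (TIW.en M) := by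
      rw [cl_sub, cl_sub, cl_add, cs, cpe, cl_enx A]
      by_cases he : Even n
      · rw [if_pos he, if_pos (hAn'.2 he)]
        ring
      · rw [if_neg he, if_neg (fun h => he (hAn'.1 h))]
        ring
    rw [e1, cl_enx M]
    by_cases he : Even M.length
    · rw [if_pos he, if_pos (hpar.2 he)]
      ring
    · rw [if_neg he] at g1 ⊢
      rw [if_neg (fun h => he (hpar.1 h))]
      rw [cl_upx] at g1
      exact g1
  · show cl (mulE (rc M) (E (r - 1 - 1))) = _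
    rw [show r - 1 - 1 = r - 2 by omega, hup, cl_mulE]
    by_cases he : Even M.length
    · rw [if_pos he] at g1
      rw [if_pos (hpar.2 he), g1, cl_upx]
    · rw [if_neg he] at g1
      rw [if_neg (fun h => he (hpar.1 h))]
      rw [cl_upx] at g1 ⊢
      have h6 : cl (rc M) * 2 = -(cl (rc M) * -2) := by ring
      rw [h6, g1]
      decide

/-- a rotation of the displacement with a low level -/
lemma low_rot (z : Pt) : ∃ z' ∈ E3 z, 2 * ip z' up ≤ -TIW.hn z ∧ TIW.hn z' = TIW.hn z ∧ cl z' = cl z := by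
  have n1 : nrm ((-1, 1) : Pt) = 1 := by decide
  have c1 : cl ((-1, 1) : Pt) = 1 := by decide
  have a1 : mulE (-1, 1) z ∈ E3 z := Or.inr (Or.inl rfl)
  have a2 : mulE (-1, 1) (mulE (-1, 1) z) ∈ E3 z := Or.inr (Or.inr rfl)
  have b1 : TIW.hn (mulE (-1, 1) z) = TIW.hn z := TIW.hn_mulE n1 z
  have b2 : TIW.hn (mulE (-1, 1) (mulE (-1, 1) z)) = TIW.hn z := by rw [TIW.hn_mulE n1, b1]
  have d1 : cl (mulE (-1, 1) z) = cl z := by rw [cl_mulE, c1, one_mul]
  have d2 : cl (mulE (-1, 1) (mulE (-1, 1) z)) = cl z := by rw [cl_mulE, c1, one_mul, d1]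
  have key : 2 * ip z up ≤ -TIW.hn z ∨ 2 * ip (mulE (-1, 1) z) up ≤ -TIW.hn z ∨
      2 * ip (mulE (-1, 1) (mulE (-1, 1) z)) up ≤ -TIW.hn z := by
    by_contra hc
    push Not at hc
    obtain ⟨g1, g2, g3⟩ := hc
    have g4 : TIW.hn z ≤ TIW.hn z - 1 := by
      refine TIW.hn_le fun d hd => ?_
      obtain ⟨N, hN⟩ : ∃ N, N = TIW.hn z := ⟨_, rfl⟩
      rw [← hN] at g1 g2 g3 ⊢
      obtain ⟨x, y⟩ := z
      simp only [ip, up, mulE] at g1 g2 g3
      simp only [dirs, mem_insert, mem_singleton] at hd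
      rcases hd with rfl | rfl | rfl | rfl | rfl | rfl <;> simp only [ip] <;> omega
    linarith
  rcases key with h | h | h
  · exact ⟨z, Or.inl rfl, h, rfl, rfl⟩
  · exact ⟨_, a1, h, b1, d1⟩
  · exact ⟨_, a2, h, b2, d2⟩

/-- points of the first class with a small norm -/
lemma small_cl (k : ℕ) : ∃ S : Finset Pt, (∀ s ∈ S, 4 * TIW.hn s ≤ 2 ^ (k + 4) ∧ cl s = 0) ∧
    (4 : ℝ) ^ k / 36 ≤ (S.card : ℝ) := by
  classical
  obtain ⟨S, h1, h2⟩ := small_pts k
  have e3 : ∀ s : Pt, TIW.hn ((3 : ℤ) • s) ≤ 3 * TIW.hn s := by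
    intro s
    refine TIW.hn_le fun d hd => ?_
    rw [AR.ip_smul]
    linarith [TIW.ip_le_hn s hd]
  refine ⟨S.image fun s => (3 : ℤ) • s, fun s hs => ?_, ?_⟩
  · rw [mem_image] at hs
    obtain ⟨t, ht, rfl⟩ := hs
    constructor
    · have h3 := h1 t ht
      have h4 := e3 t
      have h5 : (2 : ℤ) ^ (k + 4) = 16 * 2 ^ k := by ring
      have h6 : (0 : ℤ) < 2 ^ k := by positivity
      linarith
    · rw [cl_smul]
      have : ((3 : ℤ) : ZMod 3) = 0 := by decide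
      rw [this, zero_mul]
  · rw [card_image_of_injective]
    · exact h2
    · intro a b hab
      have h3 : (3 : ℤ) • a = (3 : ℤ) • b := hab
      have h4 := congrArg Prod.fst h3
      have h5 := congrArg Prod.snd h3
      simp only [Prod.smul_fst, Prod.smul_snd, smul_eq_mul] at h4 h5
      exact Prod.ext (by omega) (by omega)

end J3

end ARM

end HexObs
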