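import Pool.Agent.ARM.JFe
import Pool.Agent.ARM2.TubeF

/-!
# ARM, row L4 (helper94): `jFill_of : NcHB → JFill`
-/

set_option autoImplicit false

namespace HexObs

namespace ARM

open Finset TS SDN SIM NTA TIP G3 J3

open scoped ENNReal

/-- **row L4** -/
theorem jFill_of (hN : NcHB) : JFill := by
  classical
  obtain ⟨C2, hC2, hmom⟩ := low_mom
  obtain ⟨H0, hH0, hT⟩ := AR.tubeSt (1 / 16) 1 (by norm_num) (by norm_num)
  refine ⟨H0, hH0, fun H hH Mx sx B hB => ?_⟩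
  obtain ⟨cT, kT, hcT, hT⟩ := hT H hH (Mx + 1)
  obtain ⟨c1, k1, hc1, hN⟩ := hN (1 / 2 ^ (sx + 6)) B (by positivity) (by linarith)
  obtain ⟨c3, hc3⟩ : ∃ c3 : ℝ, c3 = c1 ^ 2 * cT ^ 2 / (2 * 32 * 9216 * C2 ^ 2) := ⟨_, rfl⟩
  have hc3p : 0 < c3 := by
    rw [hc3]
    positivity
  refine ⟨c3, max (max kT k1) (sx + 20), hc3p, ?_⟩
  intro k r n D E z hk hnk hD1 hD2 hr hMx hE hup1 hup2 hz1 hz2 hzc
  have hkT : kT ≤ k := (le_max_left _ _).trans ((le_max_left _ _).trans hk)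
  have hk1 : k1 ≤ k := (le_max_right _ _).trans ((le_max_left _ _).trans hk)
  have hks : sx + 20 ≤ k := (le_max_right _ _).trans hk
  have hU : 0 < Ub k := Num2Aux.UU_pos _
  obtain ⟨m, hm⟩ : ∃ m, m = ml k := ⟨_, rfl⟩
  have hm0 : 0 < m := by
    rw [hm]
    exact ml_pos k
  have h4k : (0 : ℝ) < 4 ^ k := by positivity
  have hm20 : 1048576 ≤ m := by
    rw [hm]
    unfold ml
    have h1 : (1048576 : ℝ) = (2 : ℝ) ^ (20 : ℝ) := by norm_num
    rw [h1]
    refine Real.rpow_le_rpow_of_exponent_le (by norm_num) ?_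
    have h2 : (20 : ℝ) ≤ k := by exact_mod_cast (le_trans (Nat.le_add_left 20 sx) hks)
    linarith
  -- integers
  obtain ⟨W2, hW2⟩ : ∃ W2 : ℤ, W2 = 2 ^ k := ⟨_, rfl⟩
  have hk20 : (1048576 : ℤ) ≤ W2 := by
    rw [hW2]
    have h1 : (1048576 : ℤ) = 2 ^ 20 := by norm_num
    rw [h1]
    exact pow_le_pow_right₀ (by norm_num) (le_trans (Nat.le_add_left 20 sx) hks)
  have hH13 : 2 ^ 13 ≤ H := hH0.trans hH
  have hDD : (2 : ℤ) ^ (k + 12) ≤ D := by
    refine le_trans ?_ hD1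
    have h1 : (2 : ℤ) ^ 13 ≤ H := by exact_mod_cast hH13
    have h2 : (0 : ℤ) < 2 ^ k := by positivity
    have h3 : (2 : ℤ) ^ (k + 12) = 2 ^ 12 * 2 ^ k := by ring
    rw [h3]
    nlinarith
  obtain ⟨bz, hbz⟩ : ∃ bz : ℤ, bz = ⌊(1 / 2 ^ (sx + 6) * 2 ^ k : ℝ)⌋ := ⟨_, rfl⟩
  have hbz0 : 0 ≤ bz := by
    rw [hbz]
    exact Int.floor_nonneg.2 (by positivity)
  have hbz1 : 64 * (2 ^ sx * bz) ≤ W2 := by
    have h1 : (bz : ℝ) ≤ 1 / 2 ^ (sx + 6) * 2 ^ k := by
      rw [hbz]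
      exact Int.floor_le _
    have h2 : (64 * (2 ^ sx * bz) : ℝ) ≤ 2 ^ k := by
      have h3 : (0 : ℝ) < 2 ^ (sx + 6) := by positivity
      have h4 : (2 : ℝ) ^ (sx + 6) * bz ≤ 2 ^ (sx + 6) * (1 / 2 ^ (sx + 6) * 2 ^ k) := mul_le_mul_of_nonneg_left h1 h3.le
      have h5 : (2 : ℝ) ^ (sx + 6) * (1 / 2 ^ (sx + 6) * 2 ^ k) = 2 ^ k := by
        field_simp
      rw [h5] at h4
      calc (64 * (2 ^ sx * bz) : ℝ) = 2 ^ (sx + 6) * bz := by ring
        _ ≤ _ := h4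
    rw [hW2]
    exact_mod_cast h2
  have hsx1 : (1 : ℤ) ≤ 2 ^ sx := one_le_pow₀ (by norm_num)
  have hbz2 : 64 * bz ≤ W2 := by nlinarith
  have hbzz : 64 * bz ≤ TIW.hn z := by
    have h1 : 64 * (2 ^ sx * bz) ≤ 2 ^ sx * TIW.hn z := by
      rw [hW2] at hbz1
      exact hbz1.trans hz1
    have h2 : (2 : ℤ) ^ sx * (64 * bz) ≤ 2 ^ sx * TIW.hn z := by
      calc (2 : ℤ) ^ sx * (64 * bz) = 64 * (2 ^ sx * bz) := by ring
        _ ≤ _ := h1
    exact le_of_mul_le_mul_left h2 (by positivity)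
  have hz64 : 64 ≤ TIW.hn z := by
    have h1 : (2 : ℤ) ^ (sx + 20) ≤ 2 ^ k := pow_le_pow_right₀ (by norm_num) hks
    have h2 : (2 : ℤ) ^ sx * 64 ≤ 2 ^ sx * TIW.hn z := by
      calc (2 : ℤ) ^ sx * 64 ≤ 2 ^ (sx + 20) := by
            rw [pow_add]
            exact mul_le_mul_of_nonneg_left (by norm_num) (by positivity)
        _ ≤ 2 ^ k := h1
        _ ≤ _ := hz1
    exact le_of_mul_le_mul_left h2 (by positivity)
  have hzW : TIW.hn z ≤ 2 * W2 := by
    rw [hW2]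
    calc TIW.hn z ≤ 2 ^ (k + 1) := hz2
      _ = 2 * 2 ^ k := by ring
  have p1k : (2 : ℤ) ^ (k + 1) = 2 * W2 := by rw [hW2]; ring
  have p9k : (2 : ℤ) ^ (k + 9) = 512 * W2 := by rw [hW2]; ring
  have p10k : (2 : ℤ) ^ (k + 10) = 1024 * W2 := by rw [hW2]; ring
  -- lengths
  obtain ⟨em, hem⟩ : ∃ em : ℕ, em = ⌊(1 / 2 ^ (sx + 6) * m : ℝ)⌋₊ := ⟨_, rfl⟩
  have hem1 : (em : ℝ) ≤ m / 64 := by
    have h1 : (em : ℝ) ≤ 1 / 2 ^ (sx + 6) * m := by
      rw [hem]
      exact Nat.floor_le (by positivity)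
    have h2 : (1 : ℝ) / 2 ^ (sx + 6) ≤ 1 / 64 := by
      have h3 : (1 : ℝ) ≤ 2 ^ sx := one_le_pow₀ (by norm_num)
      have h4 : (64 : ℝ) ≤ 2 ^ (sx + 6) := by
        rw [pow_add]
        linarith
      exact one_div_le_one_div_of_le (by norm_num) h4
    have h5 : 1 / 2 ^ (sx + 6) * m ≤ 1 / 64 * m := mul_le_mul_of_nonneg_right h2 hm0.le
    linarith
  -- the tips
  have hTB : ∀ p b : ℕ, p < 2 → (b : ℝ) ≤ B * m → ENNReal.ofReal c1 * Xb k ≤ gf (TB p b (b + em) bz) := by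
    intro p b hp hb
    refine (hN k b p hk1 hp (by rw [← hm]; exact hb)).trans (gf_mono ?_)
    rintro F ⟨f1, f2, f3, f4, f5⟩
    refine ⟨f1, f2, f3, ?_, fun i hi => ?_⟩
    · have h1 : ((F.length - b : ℕ) : ℝ) ≤ 1 / 2 ^ (sx + 6) * m := by
        rw [Nat.cast_sub f3, hm]
        linarith
      have h2 : F.length - b ≤ em := by
        rw [hem]
        exact Nat.le_floor h1
      omega
    · rw [hbz]
      exact f5 i hi
  -- the points
  obtain ⟨z', ez', lz', hz', cz'⟩ := low_rot z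
  obtain ⟨p1, hp1⟩ : ∃ p1 : Pt, p1 = (-(3 * (D / 3))) • up := ⟨_, rfl⟩
  have hqv : qv E D r (r - 1) = -(D • up) := by
    have := qv_last E D (r := r) (by omega)
    rw [hup1] at this
    exact eq_neg_of_add_eq_zero_left this
  have hp1n : TIW.hn (p1 - qv E D r (r - 1)) ≤ 4 := by
    have e1 : p1 - qv E D r (r - 1) = (D - 3 * (D / 3)) • up := by
      rw [hp1, hqv, sub_smul, neg_smul]
      abel
    rw [e1]
    have h1 : 0 ≤ D - 3 * (D / 3) := by omega
    have h2 : D - 3 * (D / 3) ≤ 2 := by omega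
    refine TIW.hn_le fun d hd => ?_
    rw [AR.ip_smul]
    have h3 : ip up d ≤ 2 := by
      have key : ∀ d ∈ dirs, ip up d ≤ 2 := by decide
      exact key d hd
    nlinarith
  have cp1 : cl p1 = 0 := by
    rw [hp1, cl_smul]
    have : ((-(3 * (D / 3)) : ℤ) : ZMod 3) = 0 := by
      push_cast
      have h3 : (3 : ZMod 3) = 0 := by decide
      rw [h3]
      ring
    rw [this, zero_mul]
  obtain ⟨pe, hpe⟩ : ∃ pe, pe = p1 + z' := ⟨_, rfl⟩
  obtain ⟨h, hh⟩ : ∃ h : ℤ, h = ip p1 up - 2 * bz - 1 := ⟨_, rfl⟩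
  have hpen : TIW.hn (pe - qv E D r (r - 1)) ≤ 2 * W2 + 4 := by
    have e1 : pe - qv E D r (r - 1) = (p1 - qv E D r (r - 1)) + z' := by
      rw [hpe]
      abel
    rw [e1]
    have h1 := TIW.hn_add (p1 - qv E D r (r - 1)) z'
    rw [hz'] at h1
    linarith
  have hlo : ip pe up + 2 * bz ≤ h := by
    rw [hh, hpe, ip_add_left]
    omega
  have hhb : h + 2 * bz < ip p1 up := by
    rw [hh]
    linarith
  have hne : p1 ≠ pe := by
    intro h1
    have h2 : z' = 0 := by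
      rw [hpe] at h1
      exact left_eq_add.1 h1
    rw [h2] at hz'
    have h3 : TIW.hn (0 : Pt) = 0 := by decide
    rw [h3] at hz'
    linarith
  have hzE : pe - p1 ∈ E3 z := by
    rw [hpe, add_sub_cancel_left]
    exact ez'
  have cpe : cl pe = if Even n then 0 else 2 := by
    rw [hpe, cl_add, cp1, zero_add, cz', hzc]
  -- the class
  obtain ⟨Ps, hPs⟩ : ∃ Ps : ℕ → Pt → Prop, Ps = fun (i : ℕ) (s : Pt) => Even i ∧ cl s = 0 ∧ m / 8 ≤ (i : ℝ) ∧ (i : ℝ) ≤ m / 4 :=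
    ⟨_, rfl⟩
  obtain ⟨Pe, hPe⟩ : ∃ Pe : ℕ → Pt → Prop, Pe = fun (j : ℕ) (x : Pt) => 2 * TIW.hn (x - qv E D r 0) ≤ 3 * 2 ^ k ∧
    (j : ℝ) + 3 / 4 * m ≤ n ∧ (n : ℝ) ≤ j + B * m := ⟨_, rfl⟩
  obtain ⟨v, hv⟩ : ∃ v, v = ENNReal.ofReal (cT * (Ub k / (4 ^ k * ml k))) := ⟨_, rfl⟩
  have hα : ∀ i s M, Cx E r D k Ps Pe (i, (s, M)) → ENNReal.ofReal (1 / 2) * (ENNReal.ofReal c1 * Xb k * v) ≤
      gf {W | S1 E r D k p1 h i s W} := by
    intro i s M hC
    obtain ⟨hP, hs, -⟩ := hC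
    simp only at hP hs
    rw [hPs] at hs
    obtain ⟨hev, cs, l1, l2⟩ := hs
    have h1 : em ≤ i := by
      have : (em : ℝ) ≤ i := by linarith
      exact_mod_cast this
    have h2 : gf (TB 1 0 (0 + em) bz) * v ≤ 2 * gf {W | S1 E r D k p1 h i s W} := by
      refine sum_s1 (by omega) hup1 hhb hp1n (by rw [p9k]; linarith) (by omega) fun F hF => ?_
      have hFl : F.length ≤ 0 + em := hF.2.2.2.1
      have e1 : ((i + 1 - F.length : ℕ) : ℝ) = i + 1 - F.length := by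
        rw [Nat.cast_sub (by omega)]
        push_cast
        ring
      have h3 : (F.length : ℝ) ≤ em := by
        have : F.length ≤ em := by omega
        exact_mod_cast this
      have h5 : (0 : ℝ) ≤ F.length := by positivity
      rw [hv]
      refine tube1 hT hkT hD1 hD2 (by omega) (by omega) hup1 hF.2.1 (hF.2.2.2.2 F.length le_rfl)
        (by rw [p1k]; linarith) hp1n cp1 hP.hs cs hev (by omega) ?_ ?_
      · rw [e1, ← hm]
        linarith
      · rw [e1, ← hm]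
        linarith
    have h3 := mul_le_mul' (hTB 1 0 (by norm_num) (by push_cast; positivity)) (le_refl v)
    calc ENNReal.ofReal (1 / 2) * (ENNReal.ofReal c1 * Xb k * v) ≤
        ENNReal.ofReal (1 / 2) * (2 * gf {W | S1 E r D k p1 h i s W}) := mul_le_mul' le_rfl (h3.trans h2)
      _ = gf {W | S1 E r D k p1 h i s W} := by
        rw [← mul_assoc]
        have : ENNReal.ofReal (1 / 2) * 2 = 1 := by
          have h4 : (2 : ℝ≥0∞) = ENNReal.ofReal 2 := by simp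
          rw [h4, ← ENNReal.ofReal_mul (by norm_num)]
          norm_num
        rw [this, one_mul]
  have hβ : ∀ i s M, Cx E r D k Ps Pe (i, (s, M)) → ENNReal.ofReal c1 * Xb k * v ≤
      gf {W | S2 E r D k pe h s M (n - (i + M.length)) W} := by
    intro i s M hC
    obtain ⟨hP, hs, he⟩ := hC
    simp only at hP hs he
    rw [hPs] at hs
    rw [hPe] at he
    obtain ⟨hev, cs, l1, l2⟩ := hs
    obtain ⟨hx, j1, j2⟩ := he
    obtain ⟨m0, hm00⟩ : ∃ m0, m0 = n - (i + M.length) := ⟨_, rfl⟩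
    obtain ⟨q, hq⟩ : ∃ q, q = ⌊3 / 4 * m⌋₊ := ⟨_, rfl⟩
    have hjn : i + M.length ≤ n := by
      have : ((i + M.length : ℕ) : ℝ) ≤ n := by linarith
      exact_mod_cast this
    have em0 : (m0 : ℝ) = n - ((i + M.length : ℕ) : ℝ) := by
      rw [hm00, Nat.cast_sub hjn]
    have hq1 : (q : ℝ) ≤ 3 / 4 * m := by
      rw [hq]
      exact Nat.floor_le (by positivity)
    have hq2 : 3 / 4 * m < q + 1 := by
      rw [hq]
      exact Nat.lt_floor_add_one _
    have hqm : q ≤ m0 := by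
      have : (q : ℝ) ≤ m0 := by linarith
      exact_mod_cast this
    have heq : em ≤ q := by
      have : (em : ℝ) ≤ q := by linarith
      exact_mod_cast this
    have hb0 : ((m0 - q : ℕ) : ℝ) ≤ B * m := by
      rw [Nat.cast_sub hqm]
      have : (0 : ℝ) ≤ q := by positivity
      linarith
    refine le_trans (mul_le_mul' (hTB (n % 2) (m0 - q) (Nat.mod_lt _ (by norm_num)) hb0) (le_refl v)) ?_
    rw [← hm00]
    refine sum_s2 hE hr hup2 hDD hP (by rw [p10k]; linarith) hlo (by omega) fun A hA => ?_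
    have hA1 : m0 - q ≤ A.length := hA.2.2.1
    have hA2 : A.length ≤ m0 - q + em := hA.2.2.2.1
    have hAn : A.length % 2 = n % 2 := hA.2.1
    have e1 : ((m0 - A.length : ℕ) : ℝ) = m0 - A.length := Nat.cast_sub (by omega)
    have h3 : (A.length : ℝ) ≤ m0 - q + em := by
      have h4 : A.length + q ≤ m0 + em := by omega
      have h5 : (A.length : ℝ) + q ≤ m0 + em := by exact_mod_cast h4
      linarith
    have h5 : (m0 : ℝ) ≤ A.length + q := by
      have h4 : m0 ≤ A.length + q := by omega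
      exact_mod_cast h4
    rw [hv, hm00]
    refine tube2 hT hkT hD1 hD2 hE hr (by omega) hup2 hP hx cs ?_ cpe (hA.2.2.2.2 A.length le_rfl) hAn hev
      hjn (by omega) ?_ ?_
    · rw [← hW2]
      linarith
    · rw [← hm00, e1, ← hm]
      linarith
    · rw [← hm00, e1, ← hm]
      linarith
  have hfill := sum_fill (Ps := Ps) (Pe := Pe) (p1 := p1) (pe := pe) (h := h) hE hr hup1 hDD (n := n) (z := z) hne hzE
    (fun i s hs => by
      rw [hPs] at hs
      exact hs.1)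
    (fun j x hx => by
      rw [hPe] at hx
      have : (j : ℝ) < n := by linarith [hx.2.1]
      exact_mod_cast this) hα hβ
  have hdec := sum_decx (E := E) (r := r) (D := D) (k := k) (Ps := Ps) (Pe := Pe)
  have hBL : gf (G3.BL k) ≤ ENNReal.ofReal (C2 * Ub k) := by
    refine le_trans ?_ (hmom k)
    unfold gf
    refine ENNReal.tsum_le_tsum fun Z => ?_
    calc wE (Z : List Bool) = wE (Z : List Bool) * 1 := (mul_one _).symm
      _ ≤ _ := by
        refine mul_le_mul' le_rfl ?_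
        rw [← ENNReal.ofReal_one]
        refine ENNReal.ofReal_le_ofReal ?_
        have h1 := ml_pos k
        have h2 : 0 ≤ ((Z : List Bool).length : ℝ) / ml k := by positivity
        nlinarith
  -- the lower bound for the class
  obtain ⟨MS, hMS⟩ : ∃ MS : Set (List Bool), MS = {M | Jn E r D k M ∧ (M.length : ℝ) + ml k ≤ n ∧
    (n : ℝ) ≤ M.length + B * ml k} := ⟨_, rfl⟩
  rw [← hMS]
  obtain ⟨k', hk'⟩ : ∃ k', k = k' + 4 := ⟨k - 4, by omega⟩
  obtain ⟨S, hS1, hS2⟩ := small_cl k'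
  rw [← hk'] at hS1
  obtain ⟨I, hI⟩ : ∃ I : Finset ℕ, I = (Icc ⌈m / 8⌉₊ ⌊m / 4⌋₊).filter fun b => b % 2 = 0 % 2 := ⟨_, rfl⟩
  have hIc : m / 32 ≤ (I.card : ℝ) := by
    have h1 := par_card ⌈m / 8⌉₊ ⌊m / 4⌋₊ 0
    rw [← hI] at h1
    have h2 : (⌈m / 8⌉₊ : ℝ) < m / 8 + 1 := Nat.ceil_lt_add_one (by positivity)
    have h3 : m / 4 < ⌊m / 4⌋₊ + 1 := Nat.lt_floor_add_one _
    have h4 : ⌊m / 4⌋₊ ≤ 2 * I.card + 1 + ⌈m / 8⌉₊ := by omega
    have h5 : (⌊m / 4⌋₊ : ℝ) ≤ 2 * I.card + 1 + ⌈m / 8⌉₊ := by exact_mod_cast h4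
    linarith
  have hSc : (4 : ℝ) ^ k / 9216 ≤ (S.card : ℝ) := by
    have h1 : (4 : ℝ) ^ k = 256 * 4 ^ k' := by
      rw [hk', pow_add]
      ring
    rw [h1]
    linarith
  have hlow : gf MS * ENNReal.ofReal (4 ^ k * m / (32 * 9216)) ≤
      ∑' x : {x | Cx E r D k Ps Pe x}, wE (x : ℕ × (Pt × List Bool)).2.2 := by
    have hmem : ∀ (i : ℕ) (s : Pt) (M : List Bool), (i, s) ∈ I ×ˢ S → M ∈ MS → Cx E r D k Ps Pe (i, (s, M)) := by
      intro i s M his hM
      rw [mem_product] at his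
      obtain ⟨hi, hs⟩ := his
      simp only at hi hs
      rw [hI, mem_filter, mem_Icc] at hi
      obtain ⟨⟨hi1, hi2⟩, hi3⟩ := hi
      obtain ⟨hs1, hs2⟩ := hS1 s hs
      rw [hMS] at hM
      obtain ⟨hM1, hM2, hM3⟩ := hM
      rw [← hm] at hM2 hM3
      have hsk : TIW.hn s ≤ 2 ^ k := by
        have := TIW.hn_nonneg s
        linarith
      have g1 : m / 8 ≤ (i : ℝ) := (Nat.le_ceil _).trans (by exact_mod_cast hi1)
      have g2 : (i : ℝ) ≤ m / 4 := by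
        have : (i : ℝ) ≤ ⌊m / 4⌋₊ := by exact_mod_cast hi2
        exact this.trans (Nat.floor_le (by positivity))
      refine ⟨jn_plc hM1 hsk, ?_, ?_⟩
      · rw [hPs]
        refine ⟨?_, hs2, g1, g2⟩
        rw [Nat.even_iff]
        omega
      · rw [hPe]
        refine ⟨?_, ?_, ?_⟩
        · have e1 : s + TIW.en M - qv E D r 0 = s + (TIW.en M - qv E D r 0) := by abel
          show 2 * TIW.hn (s + TIW.en M - qv E D r 0) ≤ 3 * 2 ^ k
          rw [e1]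
          have h1 := TIW.hn_add s (TIW.en M - qv E D r 0)
          have h2 := hM1.pos
          linarith
        · show ((i + M.length : ℕ) : ℝ) + 3 / 4 * m ≤ n
          push_cast
          linarith
        · show (n : ℝ) ≤ ((i + M.length : ℕ) : ℝ) + B * m
          push_cast
          have : (0 : ℝ) ≤ i := by positivity
          linarith
    let φ : (↥(I ×ˢ S) × MS) → {x | Cx E r D k Ps Pe x} := fun q =>
      ⟨((q.1 : ℕ × Pt).1, ((q.1 : ℕ × Pt).2, (q.2 : List Bool))), hmem _ _ _ q.1.2 q.2.2⟩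
    have hφ : Function.Injective φ := by
      rintro ⟨⟨⟨i, s⟩, h1⟩, ⟨M, h2⟩⟩ ⟨⟨⟨i', s'⟩, h1'⟩, ⟨M', h2'⟩⟩ he
      have h3 := congrArg Subtype.val he
      simp only [φ, Prod.mk.injEq] at h3
      obtain ⟨h4, h5, h6⟩ := h3
      subst h4 h5 h6
      rfl
    have e1 : gf MS * (((I ×ˢ S).card : ℕ) : ℝ≥0∞) = ∑' q : (↥(I ×ˢ S) × MS), wE (q.2 : List Bool) := by
      rw [ENNReal.tsum_prod']
      show _ = ∑' a : ↥(I ×ˢ S), gf MS
      rw [tsum_fintype, sum_const, card_univ, Fintype.card_coe, nsmul_eq_mul, mul_comm]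
    have e2 : ∑' q : (↥(I ×ˢ S) × MS), wE (q.2 : List Bool) ≤
        ∑' x : {x | Cx E r D k Ps Pe x}, wE (x : ℕ × (Pt × List Bool)).2.2 :=
      ENNReal.tsum_comp_le_tsum_of_injective hφ (fun x : {x | Cx E r D k Ps Pe x} => wE (x : ℕ × (Pt × List Bool)).2.2)
    refine le_trans ?_ (e1.le.trans e2)
    refine mul_le_mul' le_rfl ?_
    rw [← ENNReal.ofReal_natCast]
    refine ENNReal.ofReal_le_ofReal ?_
    rw [card_product]
    push_cast
    calc 4 ^ k * m / (32 * 9216) = (m / 32) * (4 ^ k / 9216) := by ring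
      _ ≤ I.card * S.card := mul_le_mul hIc hSc (by positivity) (by positivity)
  -- the result
  obtain ⟨T, hTd⟩ : ∃ T, T = ∑' y : {y | Wx E r D k Ps Pe y}, wE (y : ℕ × (Pt × List Bool)).2.2 := ⟨_, rfl⟩
  rw [← hTd] at hfill hdec
  have hK : gf MS * ENNReal.ofReal (4 ^ k * m / (32 * 9216)) ≤ ENNReal.ofReal ((C2 * Ub k) ^ 2) * T := by
    refine hlow.trans (hdec.trans ?_)
    rw [← mul_assoc]
    refine mul_le_mul' ?_ le_rfl
    rw [sq, ENNReal.ofReal_mul (by positivity)]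
    exact mul_le_mul' hBL hBL
  have hfin : ENNReal.ofReal ((C2 * Ub k) ^ 2) * (gf MS * (ENNReal.ofReal (c3 / (4 ^ k * ml k)) * Xb k ^ 2)) ≤
      ENNReal.ofReal ((C2 * Ub k) ^ 2) * gf (WE n z) := by
    have e1 : ENNReal.ofReal ((C2 * Ub k) ^ 2) * (gf MS * (ENNReal.ofReal (c3 / (4 ^ k * ml k)) * Xb k ^ 2)) =
        (gf MS * ENNReal.ofReal (4 ^ k * m / (32 * 9216))) *
          (ENNReal.ofReal (1 / 2) * (ENNReal.ofReal c1 * Xb k * v) * (ENNReal.ofReal c1 * Xb k * v)) := by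
      have e2 : ENNReal.ofReal ((C2 * Ub k) ^ 2) * ENNReal.ofReal (c3 / (4 ^ k * ml k)) =
          ENNReal.ofReal (4 ^ k * m / (32 * 9216)) * (ENNReal.ofReal (1 / 2) * (ENNReal.ofReal c1 * v) *
            (ENNReal.ofReal c1 * v)) := by
        rw [hv, ← ENNReal.ofReal_mul (by positivity), ← ENNReal.ofReal_mul hc1.le, ← ENNReal.ofReal_mul (by norm_num),
          ← ENNReal.ofReal_mul (by rw [← hm]; positivity), ← ENNReal.ofReal_mul (by positivity), ← hm]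
        congr 1
        rw [hc3]
        field_simp
      calc ENNReal.ofReal ((C2 * Ub k) ^ 2) * (gf MS * (ENNReal.ofReal (c3 / (4 ^ k * ml k)) * Xb k ^ 2)) =
          gf MS * (ENNReal.ofReal ((C2 * Ub k) ^ 2) * ENNReal.ofReal (c3 / (4 ^ k * ml k))) * Xb k ^ 2 := by ring
        _ = _ := by
          rw [e2]
          ring
    rw [e1]
    calc (gf MS * ENNReal.ofReal (4 ^ k * m / (32 * 9216))) *
          (ENNReal.ofReal (1 / 2) * (ENNReal.ofReal c1 * Xb k * v) * (ENNReal.ofReal c1 * Xb k * v)) ≤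
        (ENNReal.ofReal ((C2 * Ub k) ^ 2) * T) *
          (ENNReal.ofReal (1 / 2) * (ENNReal.ofReal c1 * Xb k * v) * (ENNReal.ofReal c1 * Xb k * v)) :=
          mul_le_mul' hK le_rfl
      _ = ENNReal.ofReal ((C2 * Ub k) ^ 2) * (T *
          (ENNReal.ofReal (1 / 2) * (ENNReal.ofReal c1 * Xb k * v) * (ENNReal.ofReal c1 * Xb k * v))) := by ring
      _ ≤ _ := mul_le_mul' le_rfl hfill
  have hpos : 0 < (C2 * Ub k) ^ 2 := by positivity
  exact (ENNReal.mul_le_mul_iff_right (ENNReal.ofReal_pos.2 hpos).ne' ENNReal.ofReal_ne_top).1 hfin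

end ARM

end HexObs
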