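import Pool.Agent.ARM.JLowC
import Pool.Agent.ARM.GlueGB
import Pool.Agent.ARM.GoodCc
import Pool.Agent.ARM.DefsL

/-!
# ARM, (A3), row L2 (helper47): `jLow_of`, the mass of the joinable words from below

From the good closed words (`goodCc`), the pairs of good cuts, the joinable middle parts (`JoinSc`), the sum over the outer
parts (`inner`) and the tails of the length (`TailJ`).
-/

set_option autoImplicit false

namespace HexObs

namespace ARM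

open Finset TS SDN HexObs.SIM NTA TIP

open scoped ENNReal

namespace JL

/-- **a good closed word has many pairs of cuts** -/
theorem pairsC {n j : ℕ} {η κ : ℝ} {a m c u e k : ℕ} (hκ : 0 < κ) (hu : m + 5 ≤ u) (hn : 1 ≤ n) {L : List Bool}
    (hL : L ∈ GFc n j η κ a m c u e k) : ∃ S : Finset (ℕ × ℕ), ENNReal.ofReal ((κ * Ub j) ^ 2) ≤ (S.card : ℝ≥0∞) ∧
      ∀ q ∈ S, q.1 ≤ q.2 ∧ q.2 ≤ L.length ∧ CutP j a m η (L.take q.1) ((L.take q.2).drop q.1) (L.drop q.2) := by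
  obtain ⟨hF, ⟨s, hs, hfar⟩, -, hT⟩ := hL
  obtain ⟨hSA, hlen, -, hend⟩ := hF
  rw [sub_zero] at hend
  have hL1 : 1 ≤ L.length := hn.trans hlen
  obtain ⟨S1, hS1, hq1⟩ := G2.cuts_start j a m η hL1
  obtain ⟨S2, hS2, hq2⟩ := G2.cuts_end j a m η L
  have h1 := (hT L (Or.inl rfl)).1.trans hS2
  have h2 := (hT (rv L) (Or.inr rfl)).1.trans hS1
  have hU : 0 ≤ κ * Ub j := by
    have := Num2Aux.UU_pos (2 ^ j)
    unfold Ub
    positivity
  have hbig : (6 : ℤ) * ((2 ^ (j + m) : ℕ) : ℤ) + 4 + 2 ^ j < 2 ^ (j + u) := by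
    have e1 : (2 : ℤ) ^ (j + u) = 2 ^ (j + m + 5) * 2 ^ (u - (m + 5)) := by
      rw [← pow_add]
      congr 1
      omega
    have e2 : (1 : ℤ) ≤ 2 ^ (u - (m + 5)) := one_le_pow₀ (by norm_num)
    have e3 : (2 : ℤ) ^ (j + m + 5) = 32 * 2 ^ (j + m) := by ring
    have e4 : (2 : ℤ) ^ j ≤ 2 ^ (j + m) := pow_le_pow_right₀ (by norm_num) (by omega)
    have e5 : (1 : ℤ) ≤ 2 ^ (j + m) := one_le_pow₀ (by norm_num)
    rw [e1, e3]
    push_cast
    nlinarith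
  refine ⟨S1 ×ˢ S2, ?_, fun q hq => ?_⟩
  · rw [card_product]
    have e : ((S1.card * S2.card : ℕ) : ℝ≥0∞) = ENNReal.ofReal ((S1.card : ℝ) * S2.card) := by
      rw [← Nat.cast_mul, ENNReal.ofReal_natCast]
    rw [e]
    refine ENNReal.ofReal_le_ofReal ?_
    rw [pow_two]
    exact mul_le_mul h2 h1 hU (hU.trans h2)
  · rw [mem_product] at hq
    obtain ⟨a1, a2, a3, a4⟩ := hq1 q.1 hq.1
    obtain ⟨b1, b2, b3, b4⟩ := hq2 q.2 hq.2
    have hlt1 : q.1 < s := by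
      by_contra hc
      have h3 := G2.near_start a3 (not_lt.1 hc) a1.le
      have h4 : dz L s ≤ TIW.hn (vx oo up L s) + TIW.hn (TIW.en L) := TIW.hn_sub _ _
      linarith
    have hlt2 : s < q.2 := by
      by_contra hc
      have h3 := G2.near_end b1 b3 (not_lt.1 hc) hs
      have h5 : (0 : ℤ) < 2 ^ j := by positivity
      linarith
    have hle : q.1 ≤ q.2 := by omega
    have hcat : L.take q.1 ++ (L.take q.2).drop q.1 = L.take q.2 := by
      have h3 : L.take q.1 = (L.take q.2).take q.1 := by rw [List.take_take, min_eq_left hle]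
      rw [h3, List.take_append_drop]
    have hcat2 : (L.take q.2).drop q.1 ++ L.drop q.2 = L.drop q.1 := by
      conv_rhs => rw [← List.take_append_drop q.2 L]
      rw [List.drop_append_of_le_length (by rw [List.length_take]; omega)]
    refine ⟨hle, b1, ⟨b2, b3, ?_⟩, a2, a3, ?_⟩
    · rw [hcat]
      exact b4
    · rw [hcat2]
      exact a4

/-- joinable words are not empty -/
lemma jn_ne {H : ℕ} (hH : 1 ≤ H) {k r : ℕ} {D : ℤ} {E : ℕ → Pt} {M : List Bool} (hD : 18 * (H * 2 ^ k) ≤ D) (hr : 3 ≤ r)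
    (hE : IPg E r) (h : Jn E r D k M) : M ≠ [] := by
  rintro rfl
  have h1 := h.pos
  have e0 : TIW.en ([] : List Bool) = 0 := rfl
  have h2 : (3 : ℤ) ≤ nrm (AR.ps E r - AR.ps E 0) := hE.ind 0 r (by omega) le_rfl
  obtain ⟨v, hv⟩ : ∃ v, v = AR.ps E r - AR.ps E 0 := ⟨_, rfl⟩
  rw [← hv] at h2
  have e1 : TIW.en ([] : List Bool) - qv E D r 0 = D • v := by
    rw [e0, hv]
    unfold qv
    rw [zero_sub, ← smul_neg, neg_sub]
  rw [e1] at h1
  have hk : (1 : ℤ) ≤ 2 ^ k := one_le_pow₀ (by norm_num)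
  have hH' : (1 : ℤ) ≤ H := by exact_mod_cast hH
  have hHk : (2 : ℤ) ^ k ≤ H * 2 ^ k := by nlinarith
  have hDk : 2 ^ k < D := by linarith
  have h3 : nrm v ≤ TIW.hn v ^ 2 := TIW.nrm_le_hn v
  have h4 := TIW.hn_nonneg v
  have h5 : 1 ≤ TIW.hn v := by
    by_contra hc
    have : TIW.hn v = 0 := by omega
    rw [this] at h3
    norm_num at h3
    omega
  have hD0 : 0 ≤ D := by linarith
  have h6 : TIW.hn (D • v) = D * TIW.hn v := by
    unfold TIW.hn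
    rw [AR.ip_smul, AR.ip_smul, AR.ip_smul, abs_mul, abs_mul, abs_mul, abs_of_nonneg hD0, mul_max_of_nonneg _ _ hD0,
      mul_max_of_nonneg _ _ hD0]
  rw [h6] at h1
  nlinarith

/-- the conditions on the path -/
def CndU (H Mx sx j k' r : ℕ) (D : ℤ) (E : ℕ → Pt) : Prop :=
  k' ≤ j ∧ j ≤ k' + sx ∧ 18 * (H * 2 ^ k') ≤ D ∧ D ≤ 36 * (H * 2 ^ k') ∧ 4 ≤ r ∧ r ≤ Mx ∧ IPg E r ∧ E (r - 1) = up ∧
    E (r - 2) = up

/-- the weights of two scales -/
lemma wt_two {k j s : ℕ} (hk : k ≤ j) (h : j ≤ k + s) (n a : ℕ) : wt n a j ≤ 256 ^ s * wt n a k := by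
  have h1 := G2.m_up h
  have hk0 := G2.m_pos k
  have hj0 := G2.m_pos j
  have hkj : ml k ≤ ml j := ml_mono hk
  obtain ⟨x, hx⟩ : ∃ x : ℝ, x = ((n - a : ℕ) : ℝ) := ⟨_, rfl⟩
  have hx0 : 0 ≤ x := by rw [hx]; positivity
  have e : ∀ i, wt n a i = ((1 + x / ml i) ^ 4)⁻¹ := by
    intro i
    have hi := G2.m_pos i
    unfold wt
    rw [← hx, Real.rpow_neg (by positivity)]
    norm_cast
  rw [e, e]
  have h4 : (1 : ℝ) ≤ 4 ^ s := one_le_pow₀ (by norm_num)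
  have h2 : 1 + x / ml k ≤ 4 ^ s * (1 + x / ml j) := by
    have h3 : x / ml k ≤ 4 ^ s * (x / ml j) := by
      rw [← mul_div_assoc, div_le_div_iff₀ hk0 hj0]
      nlinarith
    linarith
  have h5 : (1 + x / ml k) ^ 4 ≤ 256 ^ s * (1 + x / ml j) ^ 4 := by
    refine (pow_le_pow_left₀ (by positivity) h2 4).trans (le_of_eq ?_)
    rw [mul_pow, ← pow_mul, mul_comm s 4, pow_mul]
    norm_num
  rw [← div_eq_mul_inv, inv_eq_one_div, div_le_div_iff₀ (by positivity) (by positivity)]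
  linarith

lemma wt_le_one (n a j : ℕ) : wt n a j ≤ 1 := by
  have hj := G2.m_pos j
  unfold wt
  rw [Real.rpow_neg (by positivity)]
  refine inv_le_one_of_one_le₀ (Real.one_le_rpow ?_ (by norm_num))
  have : 0 ≤ ((n - a : ℕ) : ℝ) / ml j := by positivity
  linarith

lemma sum_le {A : Set (List Bool)} {g : List Bool → ℝ≥0∞} {I : Finset (ℕ × ℕ × ℤ × (ℕ → Pt))}
    {J : ℕ × ℕ × ℤ × (ℕ → Pt) → Set (List Bool)} (h : A ⊆ ⋃ ι ∈ I, J ι) {x : ℝ≥0∞} {K : ℕ} (hI : I.card ≤ K)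
    (hx : (K : ℝ≥0∞) * x < ∑' M : A, g (M : List Bool)) : ∃ ι ∈ I, x < ∑' M : J ι, g (M : List Bool) := by
  by_contra hc
  push Not at hc
  refine absurd hx (not_lt.2 ?_)
  calc ∑' M : A, g (M : List Bool) ≤ ∑' M : (⋃ ι ∈ I, J ι : Set (List Bool)), g (M : List Bool) :=
        ENNReal.tsum_mono_subtype g h
    _ ≤ ∑ ι ∈ I, ∑' M : J ι, g (M : List Bool) := ENNReal.tsum_biUnion_le g _ _
    _ ≤ ∑ _ι ∈ I, x := sum_le_sum fun ι hι => hc ι hι
    _ = (I.card : ℝ≥0∞) * x := by rw [sum_const, nsmul_eq_mul]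
    _ ≤ (K : ℝ≥0∞) * x := mul_le_mul_left (Nat.cast_le.2 hI) _

/-- the step: odd lengths -/
theorem key {n j : ℕ} {η κ cc CI c A : ℝ} {a m c1 u e k H Mx sx k0 b3 K : ℕ} {DD : Finset ℤ} (hη : 0 < η) (hκ : 0 < κ)
    (hcc : 0 < cc) (hCI : 0 < CI) (hA : 1 ≤ A) (hu : m + 5 ≤ u) (hn : 1 ≤ n) (hH : 1 ≤ H) (hK : K = (sx + 1) * ((Mx + 1) * (Mx * 6 ^ Mx)) + 1)
    (hc : c = cc * κ ^ 2 / (4 * CI * K)) (hk0 : k0 + sx ≤ j) (hnb : 2 ^ b3 * ml j ≤ n) (hDD : DD.card ≤ Mx)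
    (hG : ENNReal.ofReal (cc * (n : ℝ) ^ (-(3 / 2) : ℝ)) ≤ gf {L | L ∈ C0 n ∧ L ∈ GFc n j η κ a m c1 u e k})
    (hJ : ∀ X M Y : List Bool, X ++ (M ++ Y) ∈ GFc n j η κ a m c1 u e k → CutP j a m η X M Y →
      ∃ (k' r : ℕ) (D : ℤ) (E : ℕ → Pt), D ∈ DD ∧ k' ≤ j ∧ j ≤ k' + sx ∧ 18 * (H * 2 ^ k') ≤ D ∧ D ≤ 36 * (H * 2 ^ k') ∧
        4 ≤ r ∧ r ≤ Mx ∧ IPg E r ∧ E (r - 1) = up ∧ E (r - 2) = up ∧ Jn E r D k' M)
    (hI : ∀ M : List Bool, M ≠ [] → M.length ≤ n →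
      ∑' p : OP η m n j M, wE (p : List Bool × List Bool).1 * wE (p : List Bool × List Bool).2 ≤
        ENNReal.ofReal (CI * (Ub j / 4 ^ j)) * ENNReal.ofReal (wt n M.length j))
    (hT : ∀ (k r n : ℕ) (D : ℤ) (E : ℕ → Pt), k0 ≤ k → 2 ^ b3 * ml k ≤ n → 18 * (H * 2 ^ k) ≤ D → D ≤ 36 * (H * 2 ^ k) →
      3 ≤ r → r ≤ Mx → IPg E r → E (r - 1) = up →
      ∑' M : {M : List Bool | Jn E r D k M ∧ M.length ≤ n ∧ (M.length : ℝ) + A * ml k ≤ n},
        wE (M : List Bool) * ENNReal.ofReal (wt n (M : List Bool).length k) ≤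
          ENNReal.ofReal (c / 256 ^ sx * (4 ^ k * Ub k) * (n : ℝ) ^ (-(3 / 2 : ℝ)))) :
    ∃ (k' r : ℕ) (D : ℤ) (E : ℕ → Pt), CndU H Mx sx j k' r D E ∧
      ENNReal.ofReal (c * (4 ^ j * Ub j) * (n : ℝ) ^ (-(3 / 2 : ℝ))) ≤
        gf {M | Jn E r D k' M ∧ M.length ≤ n ∧ (n : ℝ) ≤ M.length + A * ml j} := by
  classical
  have hUj := Ub_pos j
  have hmj := G2.m_pos j
  have hK0 : (0 : ℝ) < K := by
    rw [hK]
    positivity
  have hc0 : 0 < c := by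
    rw [hc]
    positivity
  obtain ⟨B, hB⟩ : ∃ B, B = (n : ℝ) ^ (-(3 / 2 : ℝ)) := ⟨_, rfl⟩
  have hn0 : (0 : ℝ) < n := by exact_mod_cast hn
  have hB0 : 0 < B := by rw [hB]; positivity
  rw [← hB] at hG ⊢
  obtain ⟨GG, hGG⟩ : ∃ GG, GG = {L | L ∈ C0 n ∧ L ∈ GFc n j η κ a m c1 u e k} := ⟨_, rfl⟩
  rw [← hGG] at hG
  obtain ⟨JJ, hJJ⟩ : ∃ JJ : Set (List Bool), JJ = {M | M.length ≤ n ∧ M ≠ [] ∧ ∃ (k' r : ℕ) (D : ℤ) (E : ℕ → Pt), D ∈ DD ∧
    CndU H Mx sx j k' r D E ∧ Jn E r D k' M} := ⟨_, rfl⟩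
  obtain ⟨g, hg⟩ : ∃ g : List Bool → ℝ≥0∞, g = fun M => wE M * ENNReal.ofReal (wt n M.length j) := ⟨_, rfl⟩
  -- the double count
  have h2 := dct (G := GG) (X := JJ) (P := fun M p => p ∈ OP η m n j M) (c := ENNReal.ofReal ((κ * Ub j) ^ 2)) (fun L hL => by
    rw [hGG] at hL
    obtain ⟨hL0, hLG⟩ := hL
    obtain ⟨S, h1, h2⟩ := pairsC hκ hu hn hLG
    refine ⟨S, h1, fun q hq => ?_⟩
    obtain ⟨h3, h4, h5⟩ := h2 q hq
    have h6 : L.take q.1 ++ ((L.take q.2).drop q.1 ++ L.drop q.2) = L := by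
      have h6 : L.take q.1 = (L.take q.2).take q.1 := by rw [List.take_take, min_eq_left h3]
      rw [← List.append_assoc, h6, List.take_append_drop, List.take_append_drop]
    obtain ⟨k', r, D, E, d1, d2, d3, d4, d5, d6, d7, d8, d9, d10, d11⟩ := hJ _ _ _ (by rw [h6]; exact hLG) h5
    refine ⟨h3, h4, ?_, h5.2.1, h5.1.1, h5.2.2.1, h5.1.2.1, by rw [h6]; exact hL0⟩
    rw [hJJ]
    refine ⟨?_, jn_ne hH d4 (by omega) d8 d11, k', r, D, E, d1, ⟨d2, d3, d4, d5, d6, d7, d8, d9, d10⟩, d11⟩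
    have h7 := (C0_mem hL0).2.1
    rw [List.length_drop, List.length_take]
    omega)
  have h3 : (∑' M : List Bool, if M ∈ JJ then wE M * ∑' p : {p : List Bool × List Bool | p ∈ OP η m n j M},
      wE (p : List Bool × List Bool).1 * wE (p : List Bool × List Bool).2 else 0) ≤
      ENNReal.ofReal (CI * (Ub j / 4 ^ j)) * ∑' M : JJ, g (M : List Bool) := by
    rw [_root_.tsum_subtype JJ g, ← ENNReal.tsum_mul_left]
    refine ENNReal.tsum_le_tsum fun M => ?_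
    by_cases hM : M ∈ JJ
    · rw [if_pos hM, Set.indicator_of_mem hM, hg]
      have hM' := hM
      rw [hJJ] at hM'
      refine (mul_le_mul_right (hI M hM'.2.1 hM'.1) _).trans (le_of_eq ?_)
      show _ = ENNReal.ofReal (CI * (Ub j / 4 ^ j)) * (wE M * ENNReal.ofReal (wt n M.length j))
      ring
    · rw [if_neg hM]
      exact zero_le
  have h4 : ENNReal.ofReal (4 * K * c * (4 ^ j * Ub j) * B) ≤ ∑' M : JJ, g (M : List Bool) := by
    have hp : 0 < CI * (Ub j / 4 ^ j) := by positivity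
    have h5 : ENNReal.ofReal ((κ * Ub j) ^ 2) * ENNReal.ofReal (cc * B) ≤
        ENNReal.ofReal (CI * (Ub j / 4 ^ j)) * ∑' M : JJ, g (M : List Bool) :=
      (mul_le_mul_right hG _).trans (h2.trans h3)
    rw [← ENNReal.ofReal_mul (by positivity)] at h5
    have h6 : ENNReal.ofReal ((κ * Ub j) ^ 2 * (cc * B)) =
        ENNReal.ofReal (CI * (Ub j / 4 ^ j)) * ENNReal.ofReal (4 * K * c * (4 ^ j * Ub j) * B) := by
      rw [← ENNReal.ofReal_mul hp.le]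
      congr 1
      rw [hc]
      field_simp
    rw [h6] at h5
    exact (ENNReal.mul_le_mul_iff_right (ENNReal.ofReal_pos.2 hp).ne' ENNReal.ofReal_ne_top).1 h5
  -- one path
  obtain ⟨I, hI'⟩ : ∃ I, I = (Icc (j - sx) j) ×ˢ (range (Mx + 1)) ×ˢ DD ×ˢ G2.EE Mx := ⟨_, rfl⟩
  have hcard : I.card ≤ K := by
    rw [hI', card_product, card_product, card_product, Nat.card_Icc, card_range, hK]
    refine (Nat.mul_le_mul (by omega : j + 1 - (j - sx) ≤ sx + 1) (Nat.mul_le_mul_left _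
      (Nat.mul_le_mul hDD (G2.EE_card Mx)))).trans (Nat.le_succ _)
  have hcov : JJ ⊆ ⋃ ι ∈ I, (fun ι : ℕ × ℕ × ℤ × (ℕ → Pt) => {M : List Bool | M.length ≤ n ∧
      CndU H Mx sx j ι.1 ι.2.1 ι.2.2.1 ι.2.2.2 ∧ Jn ι.2.2.2 ι.2.1 ι.2.2.1 ι.1 M}) ι := by
    intro M hM
    rw [hJJ] at hM
    obtain ⟨h1, -, k', r, D, E, hD, hcd, hJn⟩ := hM
    obtain ⟨d1, d2, d3, d4, d5, d6, d7, d8, d9⟩ := hcd
    simp only [Set.mem_iUnion, exists_prop]
    refine ⟨(k', r, D, G2.cutE E r), ?_, h1, ⟨d1, d2, d3, d4, d5, d6, G2.IPg_cut d7, ?_, ?_⟩, G2.Jn_cut (by omega) hJn⟩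
    · rw [hI']
      simp only [mem_product, mem_Icc, mem_range]
      exact ⟨⟨by omega, d1⟩, by omega, hD, G2.cutE_mem d6 d7⟩
    · show G2.cutE E r (r - 1) = up
      rw [G2.cutE_lt (by omega)]
      exact d8
    · show G2.cutE E r (r - 2) = up
      rw [G2.cutE_lt (by omega)]
      exact d9
  have h5 : (K : ℝ≥0∞) * ENNReal.ofReal (2 * c * (4 ^ j * Ub j) * B) < ∑' M : JJ, g (M : List Bool) := by
    refine lt_of_lt_of_le ?_ h4
    rw [← ENNReal.ofReal_natCast, ← ENNReal.ofReal_mul (by positivity), ENNReal.ofReal_lt_ofReal_iff (by positivity)]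
    have : 0 < K * c * (4 ^ j * Ub j) * B := by positivity
    nlinarith
  obtain ⟨⟨k', r, D, E⟩, -, h6⟩ := sum_le hcov hcard h5
  simp only at h6
  by_cases hcd : CndU H Mx sx j k' r D E
  swap
  · exfalso
    have h7 : ∑' M : {M : List Bool | M.length ≤ n ∧ CndU H Mx sx j k' r D E ∧ Jn E r D k' M}, g (M : List Bool) = 0 := by
      have : {M : List Bool | M.length ≤ n ∧ CndU H Mx sx j k' r D E ∧ Jn E r D k' M} = ∅ := by
        ext M
        simp only [Set.mem_setOf_eq, Set.mem_empty_iff_false, iff_false]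
        exact fun h => hcd h.2.1
      rw [this]
      exact tsum_empty
    rw [h7] at h6
    exact not_lt_zero h6
  refine ⟨k', r, D, E, hcd, ?_⟩
  obtain ⟨d1, d2, d3, d4, d5, d6, d7, d8, d9⟩ := hcd
  have hmk : ml k' ≤ ml j := ml_mono d1
  have hmk0 := G2.m_pos k'
  obtain ⟨Fa, hFa⟩ : ∃ Fa : Set (List Bool), Fa = {M | Jn E r D k' M ∧ M.length ≤ n ∧ (M.length : ℝ) + A * ml k' ≤ n} := ⟨_, rfl⟩
  obtain ⟨Ne, hNe⟩ : ∃ Ne : Set (List Bool), Ne = {M | Jn E r D k' M ∧ M.length ≤ n ∧ (n : ℝ) ≤ M.length + A * ml j} := ⟨_, rfl⟩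
  have h7 : ENNReal.ofReal (2 * c * (4 ^ j * Ub j) * B) ≤ ∑' M : Fa, g (M : List Bool) + ∑' M : Ne, g (M : List Bool) := by
    refine h6.le.trans ((ENNReal.tsum_mono_subtype g (t := Fa ∪ Ne) ?_).trans (ENNReal.tsum_union_le g Fa Ne))
    rintro M ⟨f1, -, f3⟩
    rw [hFa, hNe]
    rcases le_or_gt ((M.length : ℝ) + A * ml k') n with f4 | f4
    · exact Or.inl ⟨f3, f1, f4⟩
    · refine Or.inr ⟨f3, f1, ?_⟩
      have : A * ml k' ≤ A * ml j := mul_le_mul_of_nonneg_left hmk (by linarith)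
      linarith
  have h8 : ∑' M : Fa, g (M : List Bool) ≤ ENNReal.ofReal (c * (4 ^ j * Ub j) * B) := by
    have f1 : ∑' M : Fa, g (M : List Bool) ≤ ∑' M : Fa, ENNReal.ofReal (256 ^ sx) *
        (wE (M : List Bool) * ENNReal.ofReal (wt n (M : List Bool).length k')) := by
      refine ENNReal.tsum_le_tsum fun M => ?_
      rw [hg]
      show wE (M : List Bool) * ENNReal.ofReal (wt n (M : List Bool).length j) ≤ _
      rw [mul_left_comm, ← ENNReal.ofReal_mul (by positivity)]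
      exact mul_le_mul_right (ENNReal.ofReal_le_ofReal (wt_two d1 d2 _ _)) _
    refine f1.trans ?_
    rw [ENNReal.tsum_mul_left]
    have f2 := hT k' r n D E (by omega) (le_trans (mul_le_mul_of_nonneg_left hmk (by positivity)) hnb) d3 d4 (by omega) d6 d7 d8
    rw [← hFa, ← hB] at f2
    refine (mul_le_mul_right f2 _).trans ?_
    rw [← ENNReal.ofReal_mul (by positivity)]
    refine ENNReal.ofReal_le_ofReal ?_
    have f3 : (4 : ℝ) ^ k' ≤ 4 ^ j := pow_le_pow_right₀ (by norm_num) d1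
    have f4 : Ub k' ≤ Ub j := Ub_mono d1
    have f5 := Ub_pos k'
    calc 256 ^ sx * (c / 256 ^ sx * (4 ^ k' * Ub k') * B) = c * (4 ^ k' * Ub k') * B := by
          field_simp
      _ ≤ c * (4 ^ j * Ub j) * B := by gcongr
  have h9 : ∑' M : Ne, g (M : List Bool) ≤ gf Ne := by
    unfold gf
    refine ENNReal.tsum_le_tsum fun M => ?_
    rw [hg]
    show wE (M : List Bool) * ENNReal.ofReal (wt n (M : List Bool).length j) ≤ wE (M : List Bool)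
    calc wE (M : List Bool) * ENNReal.ofReal (wt n (M : List Bool).length j) ≤ wE (M : List Bool) * ENNReal.ofReal 1 :=
          mul_le_mul_right (ENNReal.ofReal_le_ofReal (wt_le_one _ _ _)) _
      _ = _ := by rw [ENNReal.ofReal_one, mul_one]
  have h10 : ENNReal.ofReal (c * (4 ^ j * Ub j) * B) + ENNReal.ofReal (c * (4 ^ j * Ub j) * B) ≤
      ENNReal.ofReal (c * (4 ^ j * Ub j) * B) + gf Ne := by
    rw [← ENNReal.ofReal_add (by positivity) (by positivity)]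
    refine le_trans (ENNReal.ofReal_le_ofReal (le_of_eq (by ring))) (h7.trans (add_le_add h8 h9))
  rw [hNe] at h10
  exact (ENNReal.add_le_add_iff_left ENNReal.ofReal_ne_top).1 h10

end JL

open JL

/-- **row L2** -/
theorem jLow_of (hN : T2N) (hSt : T2S) (hQ : T2Qc) (hC : T2C) (hJ : JoinSc) (hSm : SmL) (hY : YMassW) (hT : TailJ) :
    JLow := by
  classical
  obtain ⟨cc, η, κ, a, m, hcc, hη, hκ, hG⟩ := goodCc hN hSt hQ hC
  obtain ⟨k, c0, hJ⟩ := hJ η κ a m hη hκ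
  obtain ⟨c1, hc1, hG⟩ := hG k (max c0 (m + 5))
  obtain ⟨u, hu1, hG⟩ := hG c1 le_rfl
  obtain ⟨e, b1, hke, heb, hG⟩ := hG u le_rfl
  obtain ⟨CI, bI, hCI, hI⟩ := inner hSm (pm2_of hY) η m hη
  obtain ⟨H0, hH0, hT⟩ := hT
  refine ⟨H0, hH0, fun H hH => ?_⟩
  obtain ⟨Mx, sx, b2, hJ⟩ := hJ c1 u e ((le_max_left _ _).trans hc1) hu1 hke H (hH0.trans hH)
  obtain ⟨K, hK⟩ : ∃ K : ℕ, K = (sx + 1) * ((Mx + 1) * (Mx * 6 ^ Mx)) + 1 := ⟨_, rfl⟩
  have hK0 : (0 : ℝ) < K := by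
    rw [hK]
    positivity
  obtain ⟨c, hc⟩ : ∃ c : ℝ, c = cc * κ ^ 2 / (4 * CI * K) := ⟨_, rfl⟩
  have hc0 : 0 < c := by
    rw [hc]
    positivity
  obtain ⟨A, k0, b3, hA, hT⟩ := hT H hH Mx (c / 256 ^ sx) (by positivity)
  obtain ⟨b, hb⟩ : ∃ b, b = b1 + b2 + bI + b3 + k0 + sx + 1 := ⟨_, rfl⟩
  have hH1 : 1 ≤ H := le_trans (by norm_num) (hH0.trans hH)
  have hodd : ∀ n j : ℕ, Odd n → b ≤ j → 2 ^ b * ml j ≤ n → ∃ (k' r : ℕ) (D : ℤ) (E : ℕ → Pt), CndU H Mx sx j k' r D E ∧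
      ENNReal.ofReal (c * (4 ^ j * Ub j) * (n : ℝ) ^ (-(3 / 2 : ℝ))) ≤
        gf {M | Jn E r D k' M ∧ M.length ≤ n ∧ (n : ℝ) ≤ M.length + A * ml j} := by
    intro n j ho hj hnj
    have hmj := G2.m_pos j
    have hle : ∀ b' : ℕ, b' ≤ b → (2 : ℝ) ^ b' * ml j ≤ n := fun b' hb' =>
      (mul_le_mul_of_nonneg_right (pow_le_pow_right₀ (by norm_num) hb') hmj.le).trans hnj
    obtain ⟨DD, hDD, hJ'⟩ := hJ j (by omega)
    exact key hη hκ hcc hCI hA ((le_max_right _ _).trans (hc1.trans hu1)) ho.pos hH1 hK hc (by omega) (hle b3 (by omega)) hDD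
      (hG n j (by omega) (hle b1 (by omega)) ho) (hJ' n (hle b2 (by omega))) (fun M => hI n j (by omega) M) hT
  refine ⟨Mx, sx, b + 1, c, A + 1, hc0, by linarith, fun n j hj hnj => ?_⟩
  have hmj := G2.m_pos j
  have hmj1 := G2.m_one j
  rcases Nat.even_or_odd n with he | ho
  · have h2 : (2 : ℝ) ^ (b + 1) * ml j = 2 * (2 ^ b * ml j) := by ring
    have h3 : (1 : ℝ) ≤ 2 ^ b := one_le_pow₀ (by norm_num)
    have h4 : (1 : ℝ) ≤ 2 ^ b * ml j := one_le_mul_of_one_le_of_one_le h3 hmj1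
    have hn2 : (2 : ℝ) ≤ n := by linarith
    have hn2' : 2 ≤ n := by exact_mod_cast hn2
    have e1 : ((n - 1 : ℕ) : ℝ) = (n : ℝ) - 1 := by rw [Nat.cast_sub (by omega), Nat.cast_one]
    have ho : Odd (n - 1) := Nat.Even.sub_odd (by omega) he odd_one
    obtain ⟨k', r, D, E, ⟨d1, d2, d3, d4, d5, d6, d7, d8, d9⟩, h5⟩ := hodd (n - 1) j ho (by omega) (by rw [e1]; linarith)
    refine ⟨k', r, D, E, d1, d2, d3, d4, d5, d6, d7, d8, d9, ?_⟩
    refine le_trans (ENNReal.ofReal_le_ofReal ?_) (h5.trans (gf_mono ?_))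
    · rw [e1]
      have hU := Ub_pos j
      have h6 : (n : ℝ) ^ (-(3 / 2 : ℝ)) ≤ ((n : ℝ) - 1) ^ (-(3 / 2 : ℝ)) :=
        Real.rpow_le_rpow_of_nonpos (by linarith) (by linarith) (by norm_num)
      gcongr
    · rintro M ⟨f1, f2, f3⟩
      refine ⟨f1, by omega, ?_⟩
      rw [e1] at f3
      linarith
  · obtain ⟨k', r, D, E, ⟨d1, d2, d3, d4, d5, d6, d7, d8, d9⟩, h5⟩ := hodd n j ho (by omega) (by
      refine le_trans (mul_le_mul_of_nonneg_right (pow_le_pow_right₀ (by norm_num) (by omega)) hmj.le) hnj)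
    refine ⟨k', r, D, E, d1, d2, d3, d4, d5, d6, d7, d8, d9, h5.trans (gf_mono ?_)⟩
    rintro M ⟨f1, f2, f3⟩
    exact ⟨f1, f2, by linarith⟩

end ARM

end HexObs
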