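import Pool.Agent.ARM.PM
import Pool.Agent.ARM.InPt
import Pool.Agent.ARM.ExC

/-!
# ARM, (A3), row L2 (helper47), part A: two-ended words, exact end and exact length

* `rich0`, `gt_start`: half of the cuts of a rich end have a rich end in front of them;
* `pp_pt`: the mass of the two-ended words (GT form) with exact end and exact length, from `SmL` and `PM2`.
-/

set_option autoImplicit false

namespace HexObs

namespace ARM

open Finset TS SDN HexObs.SIM NTA TIP

open scoped ENNReal

namespace JL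

lemma rev_take (t : List Bool) {y : ℕ} (hy : y ≤ t.length) : rev (t.take y) = (rev t).drop (t.length - y) := by
  have h := congrArg rev (List.take_append_drop y t)
  rw [rev_append] at h
  rw [← h, List.drop_left']
  rw [rev_length, List.length_drop]

lemma rev_drop (t : List Bool) {x : ℕ} (hx : x ≤ t.length) : rev (t.drop x) = (rev t).take (t.length - x) := by
  have h := congrArg rev (List.take_append_drop x t)
  rw [rev_append] at h
  rw [← h, List.take_left']
  rw [rev_length, List.length_drop]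

/-- the cuts in front of a cut, the same scale -/
lemma cs_take0 {b : ℕ} {L : List Bool} {j' j : ℕ} (h' : j' ∈ cs b L) (h : j ∈ cs b L) (hjj : j' ≤ j) :
    (L.take j).drop j' ∈ BU ∧ j' ∈ cs b (L.take j) := by
  rw [mem_cs] at h h' ⊢
  obtain ⟨a1, a2, a3, a4⟩ := h
  obtain ⟨b1, b2, b3, b4⟩ := h'
  obtain ⟨A, B, c1, c2, c3⟩ := a4
  have e1 : L.drop j' = (L.take j).drop j' ++ L.drop j := by
    have : L.drop j' = (L.take j ++ L.drop j).drop j' := by rw [List.take_append_drop]
    rw [this, List.drop_append_of_le_length]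
    rw [List.length_take]
    omega
  have e2 : L.take j' ++ (L.take j).drop j' = L.take j := by
    have : (L.take j).take j' = L.take j' := by rw [List.take_take, min_eq_left hjj]
    rw [← this, List.take_append_drop]
  obtain ⟨m1, m2⟩ := mid_BU (X := L.take j') (Y := (L.take j).drop j') (Z := L.drop j) (A := A) (B := B) (n := 2 ^ b)
    (by rw [← e1]; exact b2) a2 (by rw [← e1]; exact b3) c2 (by rw [e2, c1]) c3
  rw [← e1] at m2
  refine ⟨m1, by rw [List.length_take]; omega, m1, by omega, ?_⟩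
  rw [List.take_take, min_eq_left hjj]
  exact b4

open Classical in
/-- most cuts have a rich end in front of them -/
theorem rich0 (b : ℕ) (η : ℝ) (L : List Bool) (hη : 0 ≤ η) :
    (((cs b L).filter fun j => L.take j ∉ GT b (η / 2)).card : ℝ) ≤ η / 2 * Ub b := by
  have hU : (0 : ℝ) ≤ Ub b := (Ub_pos b).le
  refine count_lt (S := cs b L) (by positivity) (filter_subset _ _) fun j hj => ?_
  rw [mem_filter] at hj
  obtain ⟨hj1, hj3⟩ := hj
  have hj4 : ¬ (η / 2 * Ub b ≤ ((cs b (L.take j)).card : ℝ)) := hj3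
  refine lt_of_le_of_lt ?_ (not_le.1 hj4)
  have : (cs b L).filter (fun i => i ≤ j) ⊆ cs b (L.take j) := by
    intro i hi
    rw [mem_filter] at hi
    exact (cs_take0 hi.1 hj1 hi.2).2
  exact_mod_cast card_le_card this

/-- a rich start: the cuts with a rich start behind them -/
theorem gt_start {b : ℕ} {η : ℝ} (hη : 0 ≤ η) {W : List Bool} (h : rev W ∈ GT b η) : ∃ T : Finset ℕ,
    η / 2 * Ub b ≤ (T.card : ℝ) ∧ (∀ c ∈ T, c ≤ W.length ∧ W.take c ∈ BU ∧ hgt (W.take c) ≤ 2 ^ b ∧
      rev (W.drop c) ∈ GT b (η / 2)) ∧ ∀ c ∈ T, ∀ c' ∈ T, c ≤ c' → (W.drop c).take (c' - c) ∈ BU := by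
  classical
  obtain ⟨L, hL⟩ : ∃ L, L = rev W := ⟨_, rfl⟩
  have hWL : W = rev L := by rw [hL, rev_rev]
  have hlen : L.length = W.length := by rw [hL, rev_length]
  rw [← hL] at h
  have h' : η * Ub b ≤ ((cs b L).card : ℝ) := h
  have hr := rich0 b η L hη
  obtain ⟨T0, hT0⟩ : ∃ T0, T0 = (cs b L).filter fun j => ¬ L.take j ∉ GT b (η / 2) := ⟨_, rfl⟩
  have hcard : η / 2 * Ub b ≤ (T0.card : ℝ) := by
    have h1 := card_filter_add_card_filter_not (s := cs b L) (fun j => L.take j ∉ GT b (η / 2))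
    have h2 : (((cs b L).filter fun j => L.take j ∉ GT b (η / 2)).card : ℝ) + (T0.card : ℝ) = ((cs b L).card : ℝ) := by
      rw [hT0]
      exact_mod_cast h1
    linarith
  have hmem : ∀ j, j ∈ T0 → j ∈ cs b L ∧ L.take j ∈ GT b (η / 2) := by
    intro j hj
    rw [hT0, mem_filter, not_not] at hj
    exact hj
  have hle : ∀ j, j ∈ T0 → j ≤ L.length := fun j hj => (mem_cs.1 (hmem j hj).1).1
  refine ⟨T0.image fun j => L.length - j, ?_, ?_, ?_⟩
  · rw [card_image_of_injOn]
    · exact hcard
    · intro i hi k hk he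
      have h1 := hle i hi
      have h2 := hle k hk
      simp only at he
      omega
  · intro c hc
    rw [mem_image] at hc
    obtain ⟨j, hj, rfl⟩ := hc
    obtain ⟨g1, g2⟩ := hmem j hj
    obtain ⟨a1, a2, a3, -⟩ := mem_cs.1 g1
    have e1 : W.take (L.length - j) = rev (L.drop j) := by
      rw [hWL, rev_drop L a1]
    have e2 : W.drop (L.length - j) = rev (L.take j) := by
      rw [hWL, rev_take L a1]
    obtain ⟨m, hm⟩ := a2
    have hm' : rev (L.drop j) ∈ Brd m := (Brd_rev hm)
    refine ⟨by omega, ?_, ?_, ?_⟩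
    · rw [e1]
      exact ⟨m, hm'⟩
    · rw [e1, hgt_eq hm']
      rwa [hgt_eq hm] at a3
    · rw [e2, rev_rev]
      exact g2
  · intro c hc c' hc' hcc
    rw [mem_image] at hc hc'
    obtain ⟨j, hj, rfl⟩ := hc
    obtain ⟨j', hj', rfl⟩ := hc'
    have a1 := hle j hj
    have a2 := hle j' hj'
    have hjj : j' ≤ j := by omega
    obtain ⟨g1, -⟩ := cs_take0 (hmem j' hj').1 (hmem j hj).1 hjj
    have e2 : W.drop (L.length - j) = rev (L.take j) := by
      rw [hWL, rev_take L a1]
    have e3 : (rev (L.take j)).take (L.length - j' - (L.length - j)) = rev ((L.take j).drop j') := by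
      rw [rev_drop (L.take j) (by rw [List.length_take]; omega), List.length_take]
      congr 1
      omega
    rw [e2, e3]
    exact BU_rev g1

/-- the weight of the length, any power -/
lemma wtq (q : ℕ) {c w y : ℕ} {m : ℝ} (hm : 0 < m) (hy : y = c + w) :
    1 ≤ ENNReal.ofReal ((1 + (c : ℝ) / m) ^ q) * ENNReal.ofReal ((1 + (w : ℝ) / m) ^ q * ((1 + (y : ℝ) / m) ^ q)⁻¹) := by
  rw [← ENNReal.ofReal_mul (by positivity), ← ENNReal.ofReal_one]
  refine ENNReal.ofReal_le_ofReal ?_
  rw [← mul_assoc, ← mul_pow, ← div_eq_mul_inv, one_le_div (by positivity)]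
  refine pow_le_pow_left₀ (by positivity) ?_ q
  have h1 : (y : ℝ) = c + w := by rw [hy]; push_cast; ring
  have h2 : 0 ≤ (c : ℝ) / m := by positivity
  have h3 : 0 ≤ (w : ℝ) / m := by positivity
  rw [h1, add_div]
  nlinarith

/-- **exact end and exact length of the two-ended words** -/
theorem pp_pt (hS : SmL) (hP : PM2) (η : ℝ) (c q : ℕ) (hη : 0 < η) : ∃ (C : ℝ) (b0 : ℕ), 0 < C ∧ ∀ (b y : ℕ) (z : Pt), b0 ≤ b →
    gf {P | P ∈ PM.PP η b c ∧ P.length = y ∧ TIW.en P = z} ≤
      ENNReal.ofReal (C * (Ub b / (4 ^ b * ml b)) * ((1 + (y : ℝ) / ml b) ^ q)⁻¹) := by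
  obtain ⟨B, b2, hB, hW⟩ := hP (η / 2) (c + 1) q (by positivity)
  obtain ⟨C3, b3, hC3, hS⟩ := hS (η / 2) q (by positivity)
  refine ⟨C3 * B, max b2 b3, by positivity, fun b y z hb => ?_⟩
  have hml := ml_pos b
  have hUb := Ub_pos b
  obtain ⟨κ0, hκ0⟩ : ∃ κ0 : ℝ, κ0 = ((1 + (y : ℝ) / ml b) ^ q)⁻¹ := ⟨_, rfl⟩
  have hκ00 : 0 ≤ κ0 := by rw [hκ0]; positivity
  have h3 := hS b y z (by omega) {P | P ∈ PM.PP η b c ∧ P.length = y ∧ TIW.en P = z} (PM.PP (η / 2) b (c + 1))
    (fun W => ENNReal.ofReal ((1 + (W.length : ℝ) / ml b) ^ q * κ0)) (by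
      rintro Y ⟨⟨g1, g2, W, X, rfl, g3, g4⟩, y2, y3⟩
      obtain ⟨T, t1, t2, t3⟩ := gt_start hη.le g3
      refine ⟨y2, y3, T, t1, fun k hk => ?_, fun k hk k' hk' hkk => ?_⟩
      · obtain ⟨u1, u2, u3, u4⟩ := t2 k hk
        have e1 : (W ++ X).take k = W.take k := by rw [List.take_append_of_le_length u1]
        have e2 : (W ++ X).drop k = W.drop k ++ X := by rw [List.drop_append_of_le_length u1]
        have e3 : W.take k ++ (W.drop k ++ X) = W ++ X := by rw [← List.append_assoc, List.take_append_drop]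
        rw [e1, e2]
        refine ⟨by rw [List.length_append]; omega, u2, u3, ⟨?_, ?_, W.drop k, X, rfl, u4, GT_anti (by linarith) g4⟩, ?_⟩
        · exact SA_drop (P := W.take k) (by rw [e3]; exact g1) u2
        · rw [← e3] at g2
          have h1 := In_bu u2 g2
          have h2 : 2 * 2 ^ (b + c) = 2 ^ (b + (c + 1)) := by rw [← add_assoc, pow_succ]; ring
          rwa [h2] at h1
        · rw [hκ0]
          refine wtq q hml ?_
          rw [← y2, ← e2, List.length_drop, List.length_append]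
          omega
      · have u1 := (t2 k hk).1
        have u2 := (t2 k' hk').1
        rw [List.drop_append_of_le_length u1, List.take_append_of_le_length (by rw [List.length_drop]; omega)]
        exact t3 k hk k' hk' hkk)
  rw [← hκ0]
  refine h3.trans ?_
  have h4 : ∑' W : PM.PP (η / 2) b (c + 1),
      wE (W : List Bool) * ENNReal.ofReal ((1 + ((W : List Bool).length : ℝ) / ml b) ^ q * κ0) =
      ENNReal.ofReal κ0 * ∑' W : PM.PP (η / 2) b (c + 1),
        wE (W : List Bool) * ENNReal.ofReal ((1 + ((W : List Bool).length : ℝ) / ml b) ^ q) := by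
    rw [← ENNReal.tsum_mul_left]
    refine tsum_congr fun W => ?_
    rw [mul_comm _ κ0, ENNReal.ofReal_mul hκ00]
    ring
  rw [h4]
  refine (mul_le_mul_right (mul_le_mul_right (hW b (by omega)) _) _).trans ?_
  rw [← ENNReal.ofReal_mul hκ00, ← ENNReal.ofReal_mul (by positivity)]
  refine ENNReal.ofReal_le_ofReal (le_of_eq ?_)
  field_simp

end JL

end ARM

end HexObs
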