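import Pool.Agent.ARM.JLowA
import Pool.Agent.ARM.GlueGA
import Pool.Agent.ARM.ExC
import Pool.Agent.POL.Bot
import Pool.Agent.NPR.FlagG

/-!
# ARM, (A3), row L2 (helper47), part B: the root piece of a closed word

* `closed`: the word behind the middle part of a closed word, through the root: self-avoiding, exact length, exact end;
* `inner`: the sum over the two outer parts of a closed word with the middle part M.
-/

set_option autoImplicit false

namespace HexObs

namespace ARM

open Finset TS SDN HexObs.SIM NTA TIP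

open scoped ENNReal

namespace JL

/-- the word from the end of the middle part to its start through the root -/
lemma closed {n : ℕ} {X M Y : List Bool} (h : X ++ (M ++ Y) ∈ C0 n) (hM : M ≠ []) :
    ∃ l : Bool, (Y ++ (l :: X)) ∈ SA ∧ (Y ++ (l :: X)).length = n + 1 - M.length ∧
      ∃ c ∈ dirs, TIW.en (Y ++ (l :: X)) = - mulE c (TIW.en M) := by
  obtain ⟨l, hl⟩ := h
  have e1 : X ++ (M ++ Y) ++ [l] = (X ++ M) ++ (Y ++ [l]) := by simp only [List.append_assoc]
  have h1 := POL.Cy.rot hl (X ++ M).length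
  rw [e1, List.rotate_append_length_eq] at h1
  have e2 : Y ++ [l] ++ (X ++ M) = (Y ++ (l :: X)) ++ M := by simp
  rw [e2] at h1
  obtain ⟨P, hP⟩ : ∃ P, P = Y ++ (l :: X) := ⟨_, rfl⟩
  rw [← hP] at h1
  refine ⟨l, ?_⟩
  rw [← hP]
  obtain ⟨g1, g2, g3, g4⟩ := h1
  have hMl : 1 ≤ M.length := List.length_pos_iff.2 hM
  rw [List.length_append] at g1
  refine ⟨⟨fun i _ _ => Set.mem_univ _, fun i k hik hk he => ?_⟩, by omega, TIW.rt P, ?_, ?_⟩
  · rw [← vx_append (s := M) (by omega : i ≤ P.length + 1), ← vx_append (s := M) (by omega : k ≤ P.length + 1)] at he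
    have := g4 i k (by omega) (by omega) he
    omega
  · exact mem_dirs.2 (TIW.nrm_rt P)
  · have e3 : TIW.en (P ++ M) = oo := by
      unfold TIW.en
      rw [List.length_append, g1]
      exact g2
    rw [en_app] at e3
    have h0 : (oo : Pt) = 0 := rfl
    rw [h0] at e3
    exact eq_neg_of_add_eq_zero_left e3

/-- the class of the outer parts -/
def OP (η : ℝ) (m n j : ℕ) (M : List Bool) : Set (List Bool × List Bool) :=
  {p | p.1 ∈ GT j η ∧ rev p.2 ∈ GT j η ∧ In (2 ^ (j + m)) (rev p.1) ∧ In (2 ^ (j + m)) p.2 ∧ p.1 ++ (M ++ p.2) ∈ C0 n}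

lemma close_pp {η : ℝ} {m n j : ℕ} {M : List Bool} (hM : M ≠ []) {p : List Bool × List Bool} (hp : p ∈ OP η m n j M) :
    ∃ l : Bool, (p.2 ++ (l :: p.1)) ∈ PM.PP η j (m + 6) ∧ (p.2 ++ (l :: p.1)).length = n + 1 - M.length ∧
      ∃ c ∈ dirs, TIW.en (p.2 ++ (l :: p.1)) = - mulE c (TIW.en M) := by
  obtain ⟨h1, h2, h3, h4, h5⟩ := hp
  obtain ⟨l, g1, g2, g3⟩ := closed h5 hM
  refine ⟨l, ⟨g1, ?_, p.2, l :: p.1, rfl, h2, ?_⟩, g2, g3⟩
  · have a1 : In (6 * 2 ^ (j + m) + 4) p.1 := by
      intro i hi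
      refine Bl_of_hn ?_
      have := G2.near_start (L := p.1) (q := p.1.length) (s := i) (by rw [List.take_length]; exact h3) hi le_rfl
      push_cast at this ⊢
      exact this
    have a2 : In 2 [l] := by
      intro i hi
      rw [List.length_singleton] at hi
      have hh : ∀ (l : Bool) (i : Fin 2), vx oo up [l] i ∈ Bl oo 2 := by
        intro l i
        rw [mem_Bl]
        revert l i
        decide
      exact hh l ⟨i, by omega⟩
    have a3 := NPR.In_app h4 (NPR.In_app a2 a1)
    have a4 : ([l] ++ p.1) = l :: p.1 := rfl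
    rw [a4] at a3
    intro i hi
    refine Bl_mono _ ?_ (a3 i hi)
    have e1 : 2 ^ (j + (m + 6)) = 64 * 2 ^ (j + m) := by ring
    have e2 : 1 ≤ 2 ^ (j + m) := Nat.one_le_two_pow
    rw [e1]
    omega
  · exact NPR.GT_left (X := [l]) h1

end JL

end ARM

end HexObs
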