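import Pool.Agent.ARM.JLowB

/-!
# ARM, (A3), row L2 (helper47), part C: the sum over the outer parts of a closed word
-/

set_option autoImplicit false

namespace HexObs

namespace ARM

open Finset TS SDN HexObs.SIM NTA TIP

open scoped ENNReal

namespace JL

/-- the possible root pieces -/
def RP (η : ℝ) (m n j : ℕ) (M : List Bool) : Set (List Bool) :=
  {P | P ∈ PM.PP η j (m + 6) ∧ P.length = n + 1 - M.length ∧ ∃ c ∈ dirs, TIW.en P = - mulE c (TIW.en M)}

/-- the pairs are root pieces with a marked letter -/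
lemma pair_sum {η : ℝ} {m n j : ℕ} {M : List Bool} (hM : M ≠ []) :
    ∑' p : OP η m n j M, wE (p : List Bool × List Bool).1 * wE (p : List Bool × List Bool).2 ≤
      ENNReal.ofReal (1 / xc) * (((n + 1 - M.length + 1 : ℕ) : ℝ≥0∞) * gf (RP η m n j M)) := by
  have key : ∀ p : OP η m n j M, ∃ l : Bool, (p : List Bool × List Bool).2 ++ (l :: (p : List Bool × List Bool).1) ∈
      RP η m n j M := by
    intro p
    obtain ⟨l, h1, h2, h3⟩ := close_pp hM p.2
    exact ⟨l, h1, h2, h3⟩
  choose l hl using key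
  obtain ⟨φ, hφ⟩ : ∃ φ : OP η m n j M → RP η m n j M × Fin (n + 1 - M.length + 1), φ = fun p =>
      (⟨(p : List Bool × List Bool).2 ++ (l p :: (p : List Bool × List Bool).1), hl p⟩,
        ⟨(p : List Bool × List Bool).2.length, by
          have h := (hl p).2.1
          rw [List.length_append] at h
          omega⟩) := ⟨_, rfl⟩
  have hinj : Function.Injective φ := by
    intro p p' h
    rw [hφ] at h
    simp only [Prod.mk.injEq, Subtype.mk.injEq, Fin.mk.injEq] at h
    obtain ⟨h1, h2⟩ := h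
    obtain ⟨h3, h4⟩ := List.append_inj h1 h2
    have h5 := (List.cons.inj h4).2
    exact Subtype.ext (Prod.ext h5 h3)
  have hx := xc_pos
  have hw : ∀ p : OP η m n j M, wE (p : List Bool × List Bool).1 * wE (p : List Bool × List Bool).2 ≤
      (fun q : RP η m n j M × Fin (n + 1 - M.length + 1) => ENNReal.ofReal (1 / xc) * wE (q.1 : List Bool)) (φ p) := by
    intro p
    rw [hφ]
    show _ ≤ ENNReal.ofReal (1 / xc) * wE ((p : List Bool × List Bool).2 ++ (l p :: (p : List Bool × List Bool).1))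
    have e1 : wE (l p :: (p : List Bool × List Bool).1) = ENNReal.ofReal xc * wE (p : List Bool × List Bool).1 := by
      unfold wE
      rw [List.length_cons, pow_succ', ENNReal.ofReal_mul hx.le]
    have e2 : ENNReal.ofReal (1 / xc) * ENNReal.ofReal xc = 1 := by
      rw [← ENNReal.ofReal_mul (by positivity), one_div, inv_mul_cancel₀ hx.ne', ENNReal.ofReal_one]
    rw [wE_append, e1]
    refine le_of_eq ?_
    calc wE (p : List Bool × List Bool).1 * wE (p : List Bool × List Bool).2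
        = 1 * (wE (p : List Bool × List Bool).1 * wE (p : List Bool × List Bool).2) := (one_mul _).symm
      _ = (ENNReal.ofReal (1 / xc) * ENNReal.ofReal xc) *
          (wE (p : List Bool × List Bool).1 * wE (p : List Bool × List Bool).2) := by rw [e2]
      _ = _ := by ring
  calc ∑' p : OP η m n j M, wE (p : List Bool × List Bool).1 * wE (p : List Bool × List Bool).2
      ≤ ∑' p : OP η m n j M, (fun q : RP η m n j M × Fin (n + 1 - M.length + 1) =>
          ENNReal.ofReal (1 / xc) * wE (q.1 : List Bool)) (φ p) := ENNReal.tsum_le_tsum hw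
    _ ≤ ∑' q : RP η m n j M × Fin (n + 1 - M.length + 1), ENNReal.ofReal (1 / xc) * wE (q.1 : List Bool) :=
        ENNReal.tsum_comp_le_tsum_of_injective hinj (fun q : RP η m n j M × Fin (n + 1 - M.length + 1) =>
          ENNReal.ofReal (1 / xc) * wE (q.1 : List Bool))
    _ = ∑' P : RP η m n j M, ∑' _ : Fin (n + 1 - M.length + 1), ENNReal.ofReal (1 / xc) * wE (P : List Bool) :=
        ENNReal.tsum_prod' (f := fun q : RP η m n j M × Fin (n + 1 - M.length + 1) =>
          ENNReal.ofReal (1 / xc) * wE (q.1 : List Bool))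
    _ = ∑' P : RP η m n j M, ENNReal.ofReal (1 / xc) * (((n + 1 - M.length + 1 : ℕ) : ℝ≥0∞) * wE (P : List Bool)) := by
        refine tsum_congr fun P => ?_
        rw [tsum_fintype, sum_const, card_univ, Fintype.card_fin, nsmul_eq_mul]
        ring
    _ = _ := by
        rw [ENNReal.tsum_mul_left, ENNReal.tsum_mul_left]
        rfl

/-- **the sum over the outer parts** -/
theorem inner (hS : SmL) (hP : PM2) (η : ℝ) (m : ℕ) (hη : 0 < η) : ∃ (C : ℝ) (b0 : ℕ), 0 < C ∧ ∀ (n j : ℕ), b0 ≤ j →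
    ∀ M : List Bool, M ≠ [] → M.length ≤ n →
      ∑' p : OP η m n j M, wE (p : List Bool × List Bool).1 * wE (p : List Bool × List Bool).2 ≤
        ENNReal.ofReal (C * (Ub j / 4 ^ j)) * ENNReal.ofReal (wt n M.length j) := by
  obtain ⟨C, b0, hC, h⟩ := pp_pt hS hP η (m + 6) 5 hη
  have hx := xc_pos
  refine ⟨1 / xc * (6 * C), b0, by positivity, fun n j hj M hM hMn => ?_⟩
  have hml := ml_pos j
  have hml1 : 1 ≤ ml j := Real.one_le_rpow (by norm_num) (by positivity)
  have hU := Ub_pos j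
  obtain ⟨y, hy⟩ : ∃ y, y = n + 1 - M.length := ⟨_, rfl⟩
  have h1 : gf (RP η m n j M) ≤ ENNReal.ofReal (6 * (C * (Ub j / (4 ^ j * ml j)) * ((1 + (y : ℝ) / ml j) ^ 5)⁻¹)) := by
    have hsub : RP η m n j M ⊆ ⋃ c ∈ dirs, {P | P ∈ PM.PP η j (m + 6) ∧ P.length = y ∧ TIW.en P = - mulE c (TIW.en M)} := by
      rintro P ⟨g1, g2, c, hc, g3⟩
      simp only [Set.mem_iUnion, exists_prop]
      exact ⟨c, hc, g1, by rw [g2, hy], g3⟩
    refine (gf_mono hsub).trans ?_
    have h2 : gf (⋃ c ∈ dirs, {P | P ∈ PM.PP η j (m + 6) ∧ P.length = y ∧ TIW.en P = - mulE c (TIW.en M)}) ≤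
        ∑ c ∈ dirs, gf {P | P ∈ PM.PP η j (m + 6) ∧ P.length = y ∧ TIW.en P = - mulE c (TIW.en M)} := by
      unfold gf
      exact ENNReal.tsum_biUnion_le wE _ _
    refine h2.trans ((sum_le_sum fun c _ => h j y (- mulE c (TIW.en M)) hj).trans ?_)
    rw [sum_const, nsmul_eq_mul]
    have e6 : dirs.card = 6 := by decide
    rw [e6, ENNReal.ofReal_mul (p := 6) (by norm_num)]
    norm_num
  refine (pair_sum hM).trans ?_
  rw [← hy]
  refine (mul_le_mul_right (mul_le_mul_right h1 _) _).trans ?_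
  have e1 : ((y + 1 : ℕ) : ℝ≥0∞) = ENNReal.ofReal ((y : ℝ) + 1) := by
    rw [← ENNReal.ofReal_natCast]
    push_cast
    rfl
  have hw0 : 0 ≤ wt n M.length j := by
    unfold wt
    positivity
  rw [e1, ← ENNReal.ofReal_mul (by positivity), ← ENNReal.ofReal_mul (by positivity), ← ENNReal.ofReal_mul (by positivity)]
  refine ENNReal.ofReal_le_ofReal ?_
  obtain ⟨v, hv⟩ : ∃ v : ℝ, v = 1 + (y : ℝ) / ml j := ⟨_, rfl⟩
  have hv1 : 1 ≤ v := by
    rw [hv]
    have : 0 ≤ (y : ℝ) / ml j := by positivity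
    linarith
  have hvy : (y : ℝ) + 1 ≤ ml j * v := by
    rw [hv, mul_add, mul_div_cancel₀ _ hml.ne']
    linarith
  have hwt : (v ^ 4)⁻¹ ≤ wt n M.length j := by
    have h2 : wt n M.length j = ((1 + ((n - M.length : ℕ) : ℝ) / ml j) ^ 4)⁻¹ := by
      unfold wt
      rw [Real.rpow_neg (by positivity)]
      norm_cast
    rw [h2]
    refine inv_anti₀ (by positivity) (pow_le_pow_left₀ (by positivity) ?_ 4)
    rw [hv]
    have h3 : ((n - M.length : ℕ) : ℝ) ≤ y := by exact_mod_cast (by omega : n - M.length ≤ y)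
    have h4 := div_le_div_of_nonneg_right h3 hml.le
    linarith
  rw [← hv]
  have e5 : (v ^ 5)⁻¹ = (v ^ 4)⁻¹ * v⁻¹ := by
    rw [← mul_inv, ← pow_succ]
  have hv0 : 0 < v := by linarith
  calc 1 / xc * (((y : ℝ) + 1) * (6 * (C * (Ub j / (4 ^ j * ml j)) * (v ^ 5)⁻¹)))
      ≤ 1 / xc * ((ml j * v) * (6 * (C * (Ub j / (4 ^ j * ml j)) * (v ^ 5)⁻¹))) := by gcongr
    _ = 1 / xc * (6 * C) * (Ub j / 4 ^ j) * (v ^ 4)⁻¹ := by
        rw [e5]
        field_simp
    _ ≤ _ := by gcongr

end JL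

end ARM

end HexObs
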