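import Pool.Agent.ARM.JMassA
import Pool.Agent.ARM2.TubeF
import Pool.Agent.POL.Fin

/-!
# ARM, row G3 (helper87): the mass of the joinable words
-/

set_option autoImplicit false

namespace HexObs

namespace ARM

/-- **row G3** -/
theorem jMass : JMass := G3.jMass_of AR.tubeSt POL.P1

end ARM

end HexObs
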