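import Pool.Agent.TIW.Base
import Pool.Agent.ARM.Corr

/-!
# From a chain of cells to an induced path of the triangular lattice (row R7b of ARM2)

`V` = the vertices of a walk from `0` (first direction `up`) to `t` (direction of exit `dt`); the half ball of radius `ρ`
in front of `t` and the half ball behind `0` are free. Cells of size `D`, anchored at `t`. If a chain of cells leads from a
point in front of `t` to a point behind `0` and keeps away from `V`, and if `t` is near a point of the lattice of mesh `D`,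
there is an induced path of the lattice from this point to `0` (first direction `dt`, last direction `up`) whose edges keep
away from `V`, but for the two ends.
-/

set_option autoImplicit false

namespace HexObs

namespace ARM

open Finset TS SDN TIW

/-- 4-neighbours are neighbours in the triangular lattice -/
lemma adj_dirs {f g : ℤ × ℤ} (h : adj f g) : g - f ∈ dirs := by
  rcases h with h | h | h | h <;> subst h
  · rw [add_sub_cancel_left]; decide
  · rw [show f - (1, 0) - f = -(1, 0) by abel]; decide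
  · rw [add_sub_cancel_left]; decide
  · rw [show f - (0, 1) - f = -(0, 1) by abel]; decide

lemma turn_check : ∀ d ∈ dirs, ∀ d' ∈ dirs, d + d' ≠ 0 → d + d' ∉ dirs → d' = d ∨ d' = rotL d ∨ d' = rotR d := by
  decide

lemma nrm_three {p : Pt} (h0 : p ≠ 0) (h1 : p ∉ dirs) : 3 ≤ nrm p := by
  by_contra hc
  have h2 : nrm p ≤ 2 := by omega
  have h3 := abs_le_of_nrm (p := p) (k := 2) (by norm_num) (by linarith)
  obtain ⟨a, b⟩ := p
  have ha : -2 ≤ a ∧ a ≤ 2 := by constructor <;> nlinarith [h3.1]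
  have hb : -2 ≤ b ∧ b ≤ 2 := by constructor <;> nlinarith [h3.2]
  obtain ⟨ha1, ha2⟩ := ha
  obtain ⟨hb1, hb2⟩ := hb
  interval_cases a <;> interval_cases b <;> revert h0 h1 h2 <;> decide

/-! ### shortest paths -/

section short

variable {α : Type*} {S : α → α → Prop}

/-- there is a path of length n -/
def Pth' (S : α → α → Prop) (a b : α) (n : ℕ) : Prop :=
  ∃ f : ℕ → α, f 0 = a ∧ f n = b ∧ ∀ i, i < n → S (f i) (f (i + 1))

lemma pth_of {a b : α} (h : Relation.ReflTransGen S a b) : ∃ n, Pth' S a b n := by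
  induction h with
  | refl => exact ⟨0, fun _ => a, rfl, rfl, fun i hi => absurd hi (Nat.not_lt_zero _)⟩
  | @tail b c _ h2 ih =>
    obtain ⟨n, f, h0, hn, hf⟩ := ih
    refine ⟨n + 1, fun i => if i ≤ n then f i else c, ?_, ?_, ?_⟩
    · simpa using h0
    · simp
    · intro i hi
      rcases Nat.lt_or_ge i n with h | h
      · simp only [h.le, if_true, Nat.succ_le_of_lt h]
        exact hf i h
      · have e : i = n := by omega
        subst e
        simp only [le_refl, if_true, Nat.not_succ_le_self, if_false]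
        rw [hn]
        exact h2

/-- **a shortest path is induced** -/
theorem short_path {a b : α} (h : Relation.ReflTransGen S a b) : ∃ (n : ℕ) (f : ℕ → α), f 0 = a ∧ f n = b ∧
    (∀ i, i < n → S (f i) (f (i + 1))) ∧ (∀ i j, i < j → j ≤ n → f i ≠ f j) ∧
    ∀ i j, i + 1 < j → j ≤ n → ¬ S (f i) (f j) := by
  classical
  have hex := pth_of h
  obtain ⟨f, h0, hn, hf⟩ := Nat.find_spec hex
  refine ⟨Nat.find hex, f, h0, hn, hf, ?_, ?_⟩
  · intro i j hij hj he
    have hlt : Nat.find hex - (j - i) < Nat.find hex := by omega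
    refine Nat.find_min hex hlt ⟨fun k => if k ≤ i then f k else f (k + (j - i)), ?_, ?_, ?_⟩
    · simp [h0]
    · simp only
      by_cases h1 : Nat.find hex - (j - i) ≤ i
      · rw [if_pos h1]
        have e1 : Nat.find hex - (j - i) = i := by omega
        rw [e1, he]
        have e2 : j = Nat.find hex := by omega
        rw [e2]
        exact hn
      · rw [if_neg h1, show Nat.find hex - (j - i) + (j - i) = Nat.find hex by omega]
        exact hn
    · intro k hk
      simp only
      rcases Nat.lt_trichotomy k i with h1 | h1 | h1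
      · rw [if_pos h1.le, if_pos (by omega)]
        exact hf k (by omega)
      · rw [if_pos h1.le, if_neg (by omega), h1, he, show i + 1 + (j - i) = j + 1 by omega]
        exact hf j (by omega)
      · rw [if_neg (by omega), if_neg (by omega), show k + 1 + (j - i) = k + (j - i) + 1 by omega]
        exact hf _ (by omega)
  · intro i j hij hj he
    have hlt : Nat.find hex - (j - i - 1) < Nat.find hex := by omega
    refine Nat.find_min hex hlt ⟨fun k => if k ≤ i then f k else f (k + (j - i - 1)), ?_, ?_, ?_⟩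
    · simp [h0]
    · simp only
      rw [if_neg (by omega), show Nat.find hex - (j - i - 1) + (j - i - 1) = Nat.find hex by omega]
      exact hn
    · intro k hk
      simp only
      rcases Nat.lt_trichotomy k i with h1 | h1 | h1
      · rw [if_pos h1.le, if_pos (by omega)]
        exact hf k (by omega)
      · rw [if_pos h1.le, if_neg (by omega), h1, show i + 1 + (j - i - 1) = j by omega]
        exact he
      · rw [if_neg (by omega), if_neg (by omega), show k + 1 + (j - i - 1) = k + (j - i - 1) + 1 by omega]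
        exact hf _ (by omega)

end short

/-! ### lattice steps -/

/-- a step of the triangular lattice to a point of `A` -/
def Sp (A : Pt → Prop) (f g : Pt) : Prop := g - f ∈ dirs ∧ A g

lemma line_path {A : Pt → Prop} {g d : Pt} (hd : d ∈ dirs) (n : ℕ) (h : ∀ k : ℕ, 1 ≤ k → k ≤ n → A (g + (k : ℤ) • d)) :
    Relation.ReflTransGen (Sp A) g (g + (n : ℤ) • d) := by
  induction n with
  | zero => simp only [Nat.cast_zero, zero_smul, add_zero]; exact Relation.ReflTransGen.refl
  | succ n ih =>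
    refine (ih fun k h1 h2 => h k h1 (by omega)).tail ⟨?_, h (n + 1) (by omega) le_rfl⟩
    have e : g + ((n + 1 : ℕ) : ℤ) • d - (g + (n : ℤ) • d) = d := by
      push_cast
      rw [add_smul, one_smul]
      abel
    rw [e]
    exact hd

/-- moves along the first coordinate, then along the second one -/
lemma box_path {A : Pt → Prop} {g g' : Pt} (h : ∀ x : Pt, min g.1 g'.1 ≤ x.1 → x.1 ≤ max g.1 g'.1 →
    min g.2 g'.2 ≤ x.2 → x.2 ≤ max g.2 g'.2 → A x) : Relation.ReflTransGen (Sp A) g g' := by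
  have key : ∀ (d : Pt), d ∈ dirs → ∀ n : ℕ, ∀ x : Pt, (∀ k : ℕ, 1 ≤ k → k ≤ n → A (x + (k : ℤ) • d)) →
      Relation.ReflTransGen (Sp A) x (x + (n : ℤ) • d) := fun d hd n x hx => line_path hd n hx
  have h1 : Relation.ReflTransGen (Sp A) g (g'.1, g.2) := by
    rcases le_total g.1 g'.1 with hc | hc
    · have := key (1, 0) (by decide) (g'.1 - g.1).toNat g (by
        intro k _ hk
        have hk' : (k : ℤ) ≤ g'.1 - g.1 := by omega
        refine h _ ?_ ?_ ?_ ?_ <;> simp only [Prod.fst_add, Prod.snd_add, Prod.smul_fst, Prod.smul_snd, smul_eq_mul] <;>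
          omega)
      have e : g + (((g'.1 - g.1).toNat : ℕ) : ℤ) • ((1, 0) : Pt) = (g'.1, g.2) := by
        rw [Int.toNat_of_nonneg (by omega)]
        refine Prod.ext ?_ ?_ <;> simp [Prod.fst_add, Prod.snd_add]
      rwa [e] at this
    · have := key (-1, 0) (by decide) (g.1 - g'.1).toNat g (by
        intro k _ hk
        have hk' : (k : ℤ) ≤ g.1 - g'.1 := by omega
        refine h _ ?_ ?_ ?_ ?_ <;> simp only [Prod.fst_add, Prod.snd_add, Prod.smul_fst, Prod.smul_snd, smul_eq_mul] <;>
          omega)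
      have e : g + (((g.1 - g'.1).toNat : ℕ) : ℤ) • ((-1, 0) : Pt) = (g'.1, g.2) := by
        rw [Int.toNat_of_nonneg (by omega)]
        refine Prod.ext ?_ ?_ <;> simp [Prod.fst_add, Prod.snd_add]
      rwa [e] at this
  have h2 : Relation.ReflTransGen (Sp A) (g'.1, g.2) g' := by
    rcases le_total g.2 g'.2 with hc | hc
    · have := key (0, 1) (by decide) (g'.2 - g.2).toNat (g'.1, g.2) (by
        intro k _ hk
        have hk' : (k : ℤ) ≤ g'.2 - g.2 := by omega
        refine h _ ?_ ?_ ?_ ?_ <;> simp only [Prod.fst_add, Prod.snd_add, Prod.smul_fst, Prod.smul_snd, smul_eq_mul] <;>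
          omega)
      have e : ((g'.1, g.2) : Pt) + (((g'.2 - g.2).toNat : ℕ) : ℤ) • ((0, 1) : Pt) = g' := by
        rw [Int.toNat_of_nonneg (by omega)]
        refine Prod.ext ?_ ?_ <;> simp
      rwa [e] at this
    · have := key (0, -1) (by decide) (g.2 - g'.2).toNat (g'.1, g.2) (by
        intro k _ hk
        have hk' : (k : ℤ) ≤ g.2 - g'.2 := by omega
        refine h _ ?_ ?_ ?_ ?_ <;> simp only [Prod.fst_add, Prod.snd_add, Prod.smul_fst, Prod.smul_snd, smul_eq_mul] <;>
          omega)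
      have e : ((g'.1, g.2) : Pt) + (((g.2 - g'.2).toNat : ℕ) : ℤ) • ((0, -1) : Pt) = g' := by
        rw [Int.toNat_of_nonneg (by omega)]
        refine Prod.ext ?_ ?_ <;> simp
      rwa [e] at this
  exact h1.trans h2

/-! ### the norm and the coordinates -/

lemma hn_coord (p : Pt) : 3 * |p.1| ≤ 2 * hn p ∧ 3 * |p.2| ≤ 2 * hn p := by
  have h1 := ip_le_hn p (d := (1, 0)) (by decide)
  have h2 := neg_hn_le_ip p (d := (1, 0)) (by decide)
  have h3 := ip_le_hn p (d := (0, 1)) (by decide)
  have h4 := neg_hn_le_ip p (d := (0, 1)) (by decide)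
  have h5 := ip_le_hn p (d := (1, -1)) (by decide)
  have h6 := neg_hn_le_ip p (d := (1, -1)) (by decide)
  simp only [ip] at h1 h2 h3 h4 h5 h6
  constructor
  · rcases abs_cases p.1 with h | h <;> omega
  · rcases abs_cases p.2 with h | h <;> omega

lemma hn_le_coord {p : Pt} {c : ℤ} (h1 : |p.1| ≤ c) (h2 : |p.2| ≤ c) : hn p ≤ 3 * c := by
  rw [abs_le] at h1 h2
  refine hn_le fun d hd => ?_
  simp only [dirs, Finset.mem_insert, Finset.mem_singleton] at hd
  rcases hd with rfl | rfl | rfl | rfl | rfl | rfl <;> simp only [ip] <;> omega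

lemma hn_smul_d {d : Pt} (hd : d ∈ dirs) {s : ℤ} (hs : 0 ≤ s) : hn (s • d) = 2 * s := by
  have hd2 : ip d d = 2 := ip_self_dir hd
  refine le_antisymm (hn_le fun e he => ?_) ?_
  · rw [ip_smul_left]
    have := (ip_dirs_ge d hd e he).2
    nlinarith
  · have := ip_le_hn (s • d) hd
    rw [ip_smul_left, hd2] at this
    linarith

/-- coordinates of cells -/
def ce (D : ℤ) (v : Pt) : ℤ × ℤ := (v.1 / D, v.2 / D)

lemma ce_spec {D : ℤ} (hD : 0 < D) (v : Pt) : (D * (ce D v).1 ≤ v.1 ∧ v.1 < D * (ce D v).1 + D) ∧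
    (D * (ce D v).2 ≤ v.2 ∧ v.2 < D * (ce D v).2 + D) := by
  unfold ce
  have h1 := Int.emod_add_mul_ediv v.1 D
  have h2 := Int.emod_nonneg v.1 hD.ne'
  have h3 := Int.emod_lt_of_pos v.1 hD
  have h4 := Int.emod_add_mul_ediv v.2 D
  have h5 := Int.emod_nonneg v.2 hD.ne'
  have h6 := Int.emod_lt_of_pos v.2 hD
  refine ⟨⟨?_, ?_⟩, ?_, ?_⟩ <;> simp only <;> linarith

/-! ### free points -/

lemma free_front {V : Set Pt} {t dt x : Pt} {ρ F : ℤ} (hdt : dt ∈ dirs)
    (hV : ∀ p ∈ V, 0 < ip (p - t) dt → ρ ≤ hn (p - t)) (h1 : F ≤ ip (x - t) dt) (h2 : hn (x - t) + F ≤ ρ) :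
    ∀ p ∈ V, F ≤ hn (p - x) := by
  intro p hp
  by_contra hc
  rw [not_le] at hc
  have e : p - t = (p - x) + (x - t) := by abel
  have h3 : 0 < ip (p - t) dt := by
    rw [e, ip_add_left]
    have := neg_hn_le_ip (p - x) hdt
    linarith
  have h4 := hV p hp h3
  have h5 := hn_add (p - x) (x - t)
  rw [← e] at h5
  linarith

lemma free_back {V : Set Pt} {x : Pt} {ρ F : ℤ} (hV : ∀ p ∈ V, ip p up < 0 → ρ ≤ hn p)
    (h1 : ip x up ≤ -F) (h2 : hn x + F ≤ ρ) : ∀ p ∈ V, F ≤ hn (p - x) := by
  intro p hp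
  by_contra hc
  rw [not_le] at hc
  have e : p = (p - x) + x := by abel
  have h3 : ip p up < 0 := by
    rw [e, ip_add_left]
    have := ip_le_hn (p - x) upd'
    linarith
  have h4 := hV p hp h3
  have h5 := hn_add (p - x) x
  rw [← e] at h5
  linarith

lemma free_cell {t p : Pt} {g : ℤ × ℤ} {D : ℤ} (hD : 0 < D) (h : ¬ nr 3 (ce D (p - t)) g) :
    4 * D ≤ hn (p - D • (g - ce D (-t))) := by
  obtain ⟨⟨a1, a2⟩, a3, a4⟩ := ce_spec hD (p - t)
  obtain ⟨⟨b1, b2⟩, b3, b4⟩ := ce_spec hD (-t)
  obtain ⟨c1, c2⟩ := hn_coord (p - D • (g - ce D (-t)))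
  simp only [Prod.fst_sub, Prod.snd_sub, Prod.smul_fst, Prod.smul_snd, smul_eq_mul, Prod.fst_neg, Prod.snd_neg] at *
  generalize hX : ce D (p - t) = X at *
  generalize hY : ce D (-t) = Y at *
  rw [nr_iff] at h
  by_cases h3 : g.1 - X.1 ≤ 3 ∧ X.1 - g.1 ≤ 3
  · have h4 : ¬ (g.2 - X.2 ≤ 3 ∧ X.2 - g.2 ≤ 3) := fun h4 => h ⟨h3, h4⟩
    have h5 : 3 * D < |p.2 - D * (g.2 - Y.2)| := by
      rw [lt_abs]
      rcases not_and_or.1 h4 with h5 | h5
      · right
        have : D * 4 ≤ D * (g.2 - X.2) := mul_le_mul_of_nonneg_left (by omega) hD.le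
        nlinarith
      · left
        have : D * 4 ≤ D * (X.2 - g.2) := mul_le_mul_of_nonneg_left (by omega) hD.le
        nlinarith
    linarith
  · have h5 : 3 * D < |p.1 - D * (g.1 - Y.1)| := by
      rw [lt_abs]
      rcases not_and_or.1 h3 with h5 | h5
      · right
        have : D * 4 ≤ D * (g.1 - X.1) := mul_le_mul_of_nonneg_left (by omega) hD.le
        nlinarith
      · left
        have : D * 4 ≤ D * (X.1 - g.1) := mul_le_mul_of_nonneg_left (by omega) hD.le
        nlinarith
    linarith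

/-- a small multiple -/
lemma abs_le_two {D m : ℤ} (hD : 0 < D) (h : |D * m| < 3 * D) : |m| ≤ 2 := by
  rw [abs_mul, abs_of_pos hD] at h
  have : |m| < 3 := lt_of_mul_lt_mul_left (by linarith) hD.le
  omega

lemma dir_coord : ∀ d ∈ dirs, |d.1| ≤ 1 ∧ |d.2| ≤ 1 := by decide

lemma nr_zero {d : ℤ} {w : ℤ × ℤ} : nr d 0 w ↔ |w.1| ≤ d ∧ |w.2| ≤ d := by
  unfold nr
  simp

/-- the allowed points of the lattice -/
def AP (V : Set Pt) (g0 dt : Pt) (D RB : ℤ) (g : Pt) : Prop :=
  nr RB 0 g ∧ (g = g0 + dt ∨ g = -up ∨ g = 0 ∨ 4 * D ≤ hn (D • g) ∧ ∀ p ∈ V, 3 * D ≤ hn (p - D • g))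

/-- far from V: allowed -/
lemma AP.of_free {V : Set Pt} {g0 dt g : Pt} {D RB : ℤ} (hD : 0 < D) (h0 : (0 : Pt) ∈ V) (h1 : nr RB 0 g)
    (h2 : ∀ p ∈ V, 4 * D ≤ hn (p - D • g)) : AP V g0 dt D RB g := by
  refine ⟨h1, Or.inr (Or.inr (Or.inr ⟨?_, fun p hp => ?_⟩))⟩
  · have := h2 0 h0
    rwa [zero_sub, hn_neg] at this
  · have := h2 p hp
    linarith

section connect

variable {V : Set Pt} {t dt g0 : Pt} {D w ρ κ N0 R RB : ℤ} {K : ℕ}

/-- the ray in front of `t` -/
lemma ray_front (hD : 0 < D) (hκ : κ ≤ D) (hdt : dt ∈ dirs) (h0 : (0 : Pt) ∈ V) (htt : 10 * D ≤ hn t)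
    (hg : hn (t - D • g0) ≤ κ)
    (hV : ∀ p ∈ V, 0 < ip (p - t) dt → ρ ≤ hn (p - t)) (hK : (K : ℤ) * D ≤ w) (hρ : 2 * w + 16 * D ≤ ρ)
    (hN : |g0.1| ≤ N0 ∧ |g0.2| ≤ N0) (hRB : N0 + K ≤ RB) :
    Relation.ReflTransGen (Sp (AP V g0 dt D RB)) g0 (g0 + (K : ℤ) • dt) := by
  refine line_path hdt K fun k h1 h2 => ?_
  have hbx : nr RB 0 (g0 + (k : ℤ) • dt) := by
    rw [nr_zero]
    have h3 : |(k : ℤ) * dt.1| ≤ k ∧ |(k : ℤ) * dt.2| ≤ k := by
      have hd := dir_coord dt hdt
      rw [abs_mul, abs_mul, Nat.abs_cast]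
      constructor <;> nlinarith [hd.1, hd.2]
    have h4 := abs_add_le g0.1 ((k : ℤ) * dt.1)
    have h5 := abs_add_le g0.2 ((k : ℤ) * dt.2)
    have h6 : (k : ℤ) ≤ K := by exact_mod_cast h2
    simp only [Prod.fst_add, Prod.snd_add, Prod.smul_fst, Prod.smul_snd, smul_eq_mul]
    constructor
    · linarith [hN.1, h3.1]
    · linarith [hN.2, h3.2]
  rcases Nat.lt_or_ge 1 k with hk | hk
  · have hk2 : (2 : ℤ) ≤ k := by exact_mod_cast hk
    have h6 : (k : ℤ) ≤ K := by exact_mod_cast h2
    have hkD : 2 * D ≤ (k : ℤ) * D := mul_le_mul_of_nonneg_right hk2 hD.le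
    have hkD' : (k : ℤ) * D ≤ w := (mul_le_mul_of_nonneg_right h6 hD.le).trans hK
    have e : D • (g0 + (k : ℤ) • dt) - t = ((k : ℤ) * D) • dt - (t - D • g0) := by
      rw [smul_add, smul_smul, mul_comm D]
      abel
    have k1 : 2 * ((k : ℤ) * D) - κ ≤ ip (D • (g0 + (k : ℤ) • dt) - t) dt := by
      rw [e, ip_sub_left, ip_smul_left, ip_self_dir hdt]
      have := ip_le_hn (t - D • g0) hdt
      linarith
    have k2 : hn (D • (g0 + (k : ℤ) • dt) - t) ≤ 2 * ((k : ℤ) * D) + κ := by
      rw [e]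
      have h7 := hn_sub (((k : ℤ) * D) • dt) (t - D • g0)
      rw [hn_smul_d hdt (by linarith)] at h7
      linarith
    refine ⟨hbx, Or.inr (Or.inr (Or.inr ⟨?_, free_front hdt hV (by linarith) (by linarith)⟩))⟩
    rcases Nat.lt_or_ge 2 k with hk3 | hk3
    · have hk3' : (3 : ℤ) ≤ k := by exact_mod_cast hk3
      have hkD3 : 3 * D ≤ (k : ℤ) * D := mul_le_mul_of_nonneg_right hk3' hD.le
      have := free_front (F := 4 * D) hdt hV (x := D • (g0 + (k : ℤ) • dt)) (by linarith) (by linarith) 0 h0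
      rwa [zero_sub, hn_neg] at this
    · have hk4 : (k : ℤ) * D ≤ 2 * D := by
        have : (k : ℤ) ≤ 2 := by exact_mod_cast hk3
        exact mul_le_mul_of_nonneg_right this hD.le
      have e2 : t = D • (g0 + (k : ℤ) • dt) - (D • (g0 + (k : ℤ) • dt) - t) := by abel
      have k3 := hn_sub (D • (g0 + (k : ℤ) • dt)) (D • (g0 + (k : ℤ) • dt) - t)
      rw [← e2] at k3
      linarith
  · refine ⟨hbx, Or.inl ?_⟩
    have : k = 1 := by omega
    subst this
    simp

/-- the ray behind the origin -/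
lemma ray_back (hD : 0 < D) (hV : ∀ p ∈ V, ip p up < 0 → ρ ≤ hn p) (hK : (K : ℤ) * D ≤ w) (hρ : 2 * w + 16 * D ≤ ρ)
    (hRB : (K : ℤ) ≤ RB) : Relation.ReflTransGen (Sp (AP V g0 dt D RB)) (-((K : ℤ) • up)) 0 := by
  have key := line_path (A := AP V g0 dt D RB) (g := -((K : ℤ) • up)) upd' K ?_
  · rwa [neg_add_cancel] at key
  · intro k h1 h2
    obtain ⟨m, rfl⟩ : ∃ m, K = k + m := ⟨K - k, by omega⟩
    have e0 : -(((k + m : ℕ) : ℤ) • up) + (k : ℤ) • up = -((m : ℤ) • up) := by
      push_cast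
      rw [add_smul]
      abel
    rw [e0]
    refine ⟨?_, ?_⟩
    · rw [nr_zero]
      have hu : |up.1| ≤ 1 ∧ |up.2| ≤ 1 := by decide
      have h3 : |(m : ℤ) * up.1| ≤ m ∧ |(m : ℤ) * up.2| ≤ m := by
        rw [abs_mul, abs_mul, Nat.abs_cast]
        constructor <;> nlinarith [hu.1, hu.2]
      simp only [Prod.fst_neg, Prod.snd_neg, Prod.smul_fst, Prod.smul_snd, smul_eq_mul, abs_neg]
      push_cast at hRB
      constructor <;> linarith [h3.1, h3.2]
    · rcases Nat.lt_trichotomy m 1 with hm | hm | hm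
      · right; right; left
        have : m = 0 := by omega
        subst this
        simp
      · right; left
        subst hm
        simp
      · right; right; right
        have hm2 : (2 : ℤ) ≤ m := by exact_mod_cast hm
        have h6 : (m : ℤ) * D ≤ w := by
          refine le_trans ?_ hK
          push_cast
          nlinarith
        have hmD : 2 * D ≤ (m : ℤ) * D := mul_le_mul_of_nonneg_right hm2 hD.le
        have e : D • -((m : ℤ) • up) = -(((m : ℤ) * D) • up) := by
          rw [smul_neg, smul_smul, mul_comm]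
        refine ⟨?_, free_back hV ?_ ?_⟩
        · rw [e, hn_neg, hn_smul_d upd' (by linarith)]
          linarith
        · rw [e, ip_neg_left, ip_smul_left, ip_self_dir upd']
          linarith
        · rw [e, hn_neg, hn_smul_d upd' (by linarith)]
          linarith

/-- **the two ends are joined in the allowed set** -/
lemma connect (hD : 0 < D) (hκ0 : 0 ≤ κ) (hκ : κ < D) (hdt : dt ∈ dirs) (h0 : (0 : Pt) ∈ V) (htt : 10 * D ≤ hn t)
    (hg : hn (t - D • g0) ≤ κ)
    (hV1 : ∀ p ∈ V, 0 < ip (p - t) dt → ρ ≤ hn (p - t)) (hV2 : ∀ p ∈ V, ip p up < 0 → ρ ≤ hn p)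
    (hw : 12 * D ≤ w) (hK : (K : ℤ) * D ≤ w) (hK' : w < ((K : ℤ) + 1) * D) (hρ : 2 * w + 16 * D ≤ ρ)
    (hN : |g0.1| ≤ N0 ∧ |g0.2| ≤ N0) (hR : 0 ≤ R) (hRB : R + N0 + K + 4 ≤ RB)
    (hc : Relation.ReflTransGen (fun f g => adj f g ∧ nr R 0 g ∧ ∀ p ∈ V, ¬ nr 3 (ce D (p - t)) g)
      (ce D (w • dt)) (ce D (-t - w • up))) :
    Relation.ReflTransGen (Sp (AP V g0 dt D RB)) g0 0 := by
  have hN0 : 0 ≤ N0 := (abs_nonneg _).trans hN.1
  have hK0 : (0 : ℤ) ≤ K := Int.natCast_nonneg K
  set c0 : Pt := -ce D (-t) with hc0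
  -- coordinates
  have hgc := hn_coord (t - D • g0)
  obtain ⟨⟨b1, b2⟩, b3, b4⟩ := ce_spec hD (-t)
  have hc1 : c0.1 = -(ce D (-t)).1 := rfl
  have hc2 : c0.2 = -(ce D (-t)).2 := rfl
  simp only [Prod.fst_sub, Prod.snd_sub, Prod.smul_fst, Prod.smul_snd, smul_eq_mul] at hgc
  simp only [Prod.fst_neg, Prod.snd_neg] at b1 b2 b3 b4
  obtain ⟨t1, t2⟩ := hgc
  rw [← sub_nonneg] at t1 t2
  have q1 := abs_le.1 (show |t.1 - D * g0.1| ≤ κ by linarith)
  have q2 := abs_le.1 (show |t.2 - D * g0.2| ≤ κ by linarith)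
  have hcN : |c0.1| ≤ N0 + 1 ∧ |c0.2| ≤ N0 + 1 := by
    have k1 : |c0.1 - g0.1| ≤ 1 := by
      have : |D * (c0.1 - g0.1)| < 2 * D := by
        rw [abs_lt]
        constructor <;> rw [hc1] <;> linarith
      rw [abs_mul, abs_of_pos hD] at this
      have : |c0.1 - g0.1| < 2 := lt_of_mul_lt_mul_left (by linarith) hD.le
      omega
    have k2 : |c0.2 - g0.2| ≤ 1 := by
      have : |D * (c0.2 - g0.2)| < 2 * D := by
        rw [abs_lt]
        constructor <;> rw [hc2] <;> linarith
      rw [abs_mul, abs_of_pos hD] at this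
      have : |c0.2 - g0.2| < 2 := lt_of_mul_lt_mul_left (by linarith) hD.le
      omega
    constructor
    · have := abs_sub_abs_le_abs_sub c0.1 g0.1
      linarith [hN.1]
    · have := abs_sub_abs_le_abs_sub c0.2 g0.2
      linarith [hN.2]
  obtain ⟨d1, d2⟩ := dir_coord dt hdt
  -- the first ray
  have s1 := ray_front (RB := RB) hD hκ.le hdt h0 htt hg hV1 hK hρ hN (by linarith)
  -- the first box
  obtain ⟨⟨e1, e2⟩, e3, e4⟩ := ce_spec hD (w • dt)
  simp only [Prod.smul_fst, Prod.smul_snd, smul_eq_mul] at e1 e2 e3 e4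
  have hKd : ∀ a : ℤ, |a| ≤ 1 → |(w - K * D) * a| < D := by
    intro a ha
    rw [abs_mul, abs_of_nonneg (by linarith)]
    have : w - K * D < D := by linarith
    nlinarith [abs_nonneg a]
  have m1 := abs_lt.1 (hKd dt.1 d1)
  have m2 := abs_lt.1 (hKd dt.2 d2)
  have s2 : Relation.ReflTransGen (Sp (AP V g0 dt D RB)) (g0 + (K : ℤ) • dt) (ce D (w • dt) + c0) := by
    have f1 : |(ce D (w • dt) + c0).1 - (g0 + (K : ℤ) • dt).1| ≤ 2 := by
      refine abs_le_two hD ?_
      rw [abs_lt]
      simp only [Prod.fst_add, Prod.smul_fst, smul_eq_mul, hc1]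
      constructor <;> linarith [m1.1, m1.2, q1.1, q1.2]
    have f2 : |(ce D (w • dt) + c0).2 - (g0 + (K : ℤ) • dt).2| ≤ 2 := by
      refine abs_le_two hD ?_
      rw [abs_lt]
      simp only [Prod.snd_add, Prod.smul_snd, smul_eq_mul, hc2]
      constructor <;> linarith [m2.1, m2.2, q2.1, q2.2]
    generalize hG' : ce D (w • dt) + c0 = G' at f1 f2
    generalize hG : g0 + (K : ℤ) • dt = G at f1 f2
    rw [abs_le] at f1 f2
    refine box_path fun x x1 x2 x3 x4 => ?_
    have y1 : |x.1 - G.1| ≤ 2 := by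
      rw [abs_le]
      rcases le_total G.1 G'.1 with h | h
      · rw [min_eq_left h] at x1
        rw [max_eq_right h] at x2
        omega
      · rw [min_eq_right h] at x1
        rw [max_eq_left h] at x2
        omega
    have y2 : |x.2 - G.2| ≤ 2 := by
      rw [abs_le]
      rcases le_total G.2 G'.2 with h | h
      · rw [min_eq_left h] at x3
        rw [max_eq_right h] at x4
        omega
      · rw [min_eq_right h] at x3
        rw [max_eq_left h] at x4
        omega
    have y3 : hn (x - G) ≤ 3 * 2 := hn_le_coord y1 y2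
    have y4 : hn (D • (x - G)) ≤ 6 * D := by
      refine hn_le fun d hd => ?_
      rw [ip_smul_left]
      have := ip_le_hn (x - G) hd
      nlinarith
    have y5 : hn ((w - K * D) • dt) ≤ 2 * D := by
      rw [hn_smul_d hdt (by linarith)]
      linarith
    have e : D • x - t = (D • (x - G) - (t - D • g0) - (w - K * D) • dt) + w • dt := by
      rw [← hG, smul_sub, smul_add, sub_smul, smul_smul, mul_comm D]
      abel
    have y6 : hn (D • (x - G) - (t - D • g0) - (w - K * D) • dt) ≤ 9 * D := by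
      have z1 := hn_sub (D • (x - G) - (t - D • g0)) ((w - K * D) • dt)
      have z2 := hn_sub (D • (x - G)) (t - D • g0)
      linarith
    refine AP.of_free hD h0 ?_ (free_front hdt hV1 ?_ ?_)
    · rw [nr_zero]
      have k3 : |(K : ℤ) * dt.1| ≤ K ∧ |(K : ℤ) * dt.2| ≤ K := by
        rw [abs_mul, abs_mul, Nat.abs_cast]
        constructor <;> nlinarith
      have g1 : G.1 = g0.1 + K * dt.1 := by rw [← hG]; rfl
      have g2 : G.2 = g0.2 + K * dt.2 := by rw [← hG]; rfl
      have k4 := abs_le.1 k3.1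
      have k5 := abs_le.1 k3.2
      have k6 := abs_le.1 hN.1
      have k7 := abs_le.1 hN.2
      rw [abs_le] at y1 y2
      rw [abs_le, abs_le]
      refine ⟨⟨?_, ?_⟩, ?_, ?_⟩ <;> linarith [y1.1, y1.2, y2.1, y2.2, k4.1, k4.2, k5.1, k5.2]
    · rw [e, ip_add_left, ip_smul_left, ip_self_dir hdt]
      have := neg_hn_le_ip (D • (x - G) - (t - D • g0) - (w - K * D) • dt) hdt
      linarith
    · rw [e]
      have z1 := hn_add (D • (x - G) - (t - D • g0) - (w - K * D) • dt) (w • dt)
      rw [hn_smul_d hdt (by linarith)] at z1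
      linarith
  -- the chain
  have s3 : Relation.ReflTransGen (Sp (AP V g0 dt D RB)) (ce D (w • dt) + c0) (ce D (-t - w • up) + c0) := by
    refine hc.lift (fun f => f + c0) fun f g hfg => ⟨?_, AP.of_free hD h0 ?_ fun p hp => ?_⟩
    · rw [add_sub_add_right_eq_sub]
      exact adj_dirs hfg.1
    · have h1 := hfg.2.1
      rw [nr_zero] at h1 ⊢
      have h2 := abs_add_le g.1 c0.1
      have h3 := abs_add_le g.2 c0.2
      constructor
      · refine h2.trans ?_
        linarith [h1.1, hcN.1]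
      · refine h3.trans ?_
        linarith [h1.2, hcN.2]
    · have := free_cell hD (hfg.2.2 p hp)
      show 4 * D ≤ hn (p - D • (g + -ce D (-t)))
      rw [← sub_eq_add_neg]
      exact this
  -- the second box
  obtain ⟨u1, u2⟩ := dir_coord up upd'
  obtain ⟨⟨v1, v2⟩, v3, v4⟩ := ce_spec hD (-t - w • up)
  simp only [Prod.fst_sub, Prod.snd_sub, Prod.fst_neg, Prod.snd_neg, Prod.smul_fst, Prod.smul_snd, smul_eq_mul] at v1 v2 v3 v4
  have m3 := abs_lt.1 (hKd up.1 u1)
  have m4 := abs_lt.1 (hKd up.2 u2)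
  have s4 : Relation.ReflTransGen (Sp (AP V g0 dt D RB)) (ce D (-t - w • up) + c0) (-((K : ℤ) • up)) := by
    have f1 : |(ce D (-t - w • up) + c0).1 - (-((K : ℤ) • up)).1| ≤ 2 := by
      refine abs_le_two hD ?_
      rw [abs_lt]
      simp only [Prod.fst_add, Prod.fst_neg, Prod.smul_fst, smul_eq_mul, hc1]
      constructor <;> linarith [m3.1, m3.2]
    have f2 : |(ce D (-t - w • up) + c0).2 - (-((K : ℤ) • up)).2| ≤ 2 := by
      refine abs_le_two hD ?_
      rw [abs_lt]
      simp only [Prod.snd_add, Prod.snd_neg, Prod.smul_snd, smul_eq_mul, hc2]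
      constructor <;> linarith [m4.1, m4.2]
    generalize hG' : ce D (-t - w • up) + c0 = G' at f1 f2
    generalize hG : -((K : ℤ) • up) = G at f1 f2
    rw [abs_le] at f1 f2
    refine box_path fun x x1 x2 x3 x4 => ?_
    have y1 : |x.1 - G.1| ≤ 2 := by
      rw [abs_le]
      rcases le_total G.1 G'.1 with h | h
      · rw [min_eq_right h] at x1
        rw [max_eq_left h] at x2
        omega
      · rw [min_eq_left h] at x1
        rw [max_eq_right h] at x2
        omega
    have y2 : |x.2 - G.2| ≤ 2 := by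
      rw [abs_le]
      rcases le_total G.2 G'.2 with h | h
      · rw [min_eq_right h] at x3
        rw [max_eq_left h] at x4
        omega
      · rw [min_eq_left h] at x3
        rw [max_eq_right h] at x4
        omega
    have y3 : hn (x - G) ≤ 3 * 2 := hn_le_coord y1 y2
    have y4 : hn (D • (x - G)) ≤ 6 * D := by
      refine hn_le fun d hd => ?_
      rw [ip_smul_left]
      have := ip_le_hn (x - G) hd
      nlinarith
    have y5 : hn ((w - K * D) • up) ≤ 2 * D := by
      rw [hn_smul_d upd' (by linarith)]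
      linarith
    have e : D • x = (D • (x - G) + (w - K * D) • up) - w • up := by
      rw [← hG, smul_sub, smul_neg, sub_smul, smul_smul, mul_comm D]
      abel
    have y6 : hn (D • (x - G) + (w - K * D) • up) ≤ 9 * D := by
      have z1 := hn_add (D • (x - G)) ((w - K * D) • up)
      linarith
    refine AP.of_free hD h0 ?_ (free_back hV2 ?_ ?_)
    · rw [nr_zero]
      have k3 : |(K : ℤ) * up.1| ≤ K ∧ |(K : ℤ) * up.2| ≤ K := by
        rw [abs_mul, abs_mul, Nat.abs_cast]
        constructor <;> nlinarith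
      have g1 : G.1 = -(K * up.1) := by rw [← hG]; rfl
      have g2 : G.2 = -(K * up.2) := by rw [← hG]; rfl
      have k4 := abs_le.1 k3.1
      have k5 := abs_le.1 k3.2
      rw [abs_le] at y1 y2
      rw [abs_le, abs_le]
      refine ⟨⟨?_, ?_⟩, ?_, ?_⟩ <;> linarith [y1.1, y1.2, y2.1, y2.2, k4.1, k4.2, k5.1, k5.2]
    · rw [e, ip_sub_left, ip_smul_left, ip_self_dir upd']
      have := ip_le_hn (D • (x - G) + (w - K * D) • up) upd'
      linarith
    · rw [e]
      have z1 := hn_sub (D • (x - G) + (w - K * D) • up) (w • up)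
      rw [hn_smul_d upd' (by linarith)] at z1
      linarith
  have s5 := ray_back (V := V) (g0 := g0) (dt := dt) (RB := RB) hD hV2 hK hρ (by linarith)
  exact (((s1.trans s2).trans s3).trans s4).trans s5

/-- **row R7b**: the induced path of the lattice from the point `g0` near `t` to the origin -/
theorem exists_path (hD : 0 < D) (hκ0 : 0 ≤ κ) (hκ : κ < D) (hdt : dt ∈ dirs) (h0 : (0 : Pt) ∈ V) (ht : t ∈ V)
    (hg : hn (t - D • g0) ≤ κ) (hV1 : ∀ p ∈ V, 0 < ip (p - t) dt → ρ ≤ hn (p - t))
    (hV2 : ∀ p ∈ V, ip p up < 0 → ρ ≤ hn p) (htt : 10 * D ≤ hn t) (hw : 12 * D ≤ w) (hK : (K : ℤ) * D ≤ w)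
    (hK' : w < ((K : ℤ) + 1) * D) (hρ : 2 * w + 16 * D ≤ ρ) (hN : |g0.1| ≤ N0 ∧ |g0.2| ≤ N0) (hR : 0 ≤ R)
    (hRB : R + N0 + K + 4 ≤ RB)
    (hc : Relation.ReflTransGen (fun f g => adj f g ∧ nr R 0 g ∧ ∀ p ∈ V, ¬ nr 3 (ce D (p - t)) g)
      (ce D (w • dt)) (ce D (-t - w • up))) :
    ∃ (n : ℕ) (f : ℕ → Pt), 4 ≤ n ∧ n ≤ ((2 * RB + 1).toNat) ^ 2 ∧ f 0 = g0 ∧ f n = 0 ∧ f 1 = g0 + dt ∧
      f (n - 1) = -up ∧ f (n - 2) = -up - up ∧ (∀ i, i < n → f (i + 1) - f i ∈ dirs) ∧
      (∀ i, i + 1 < n → f (i + 1 + 1) - f (i + 1) = f (i + 1) - f i ∨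
        f (i + 1 + 1) - f (i + 1) = rotL (f (i + 1) - f i) ∨ f (i + 1 + 1) - f (i + 1) = rotR (f (i + 1) - f i)) ∧
      (∀ i j, i + 1 < j → j ≤ n → 3 ≤ nrm (f j - f i)) ∧
      ∀ i, 1 ≤ i → i + 1 < n → ∀ s : ℤ, 0 ≤ s → s ≤ D → ∀ p ∈ V,
        D - κ ≤ hn (p - (D • f i + s • (f (i + 1) - f i))) := by
  have hcon := connect hD hκ0 hκ hdt h0 htt hg hV1 hV2 hw hK hK' hρ hN hR hRB hc
  obtain ⟨n, f, hf0, hfn, hstep, hne, hind⟩ := short_path hcon
  have hdir : ∀ i, i < n → f (i + 1) - f i ∈ dirs := fun i hi => (hstep i hi).1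
  have hA : ∀ i, 1 ≤ i → i ≤ n → AP V g0 dt D RB (f i) := by
    intro i h1 h2
    obtain ⟨j, rfl⟩ : ∃ j, i = j + 1 := ⟨i - 1, by omega⟩
    exact (hstep j (by omega)).2
  -- the point g0 is far from the origin
  have far0 : ∀ v : Pt, hn (D • g0 - v) ≤ 6 * D → hn v ≤ 0 → False := by
    intro v h1 h2
    have e : t = (t - D • g0) + (D • g0 - v) + v := by abel
    have h3 := hn_add ((t - D • g0) + (D • g0 - v)) v
    have h4 := hn_add (t - D • g0) (D • g0 - v)
    rw [← e] at h3
    linarith
  have far6 : hn (D • g0) ≤ 6 * D → False := by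
    intro h
    refine far0 0 ?_ ?_
    · rwa [sub_zero]
    · simp [hn, ip]
  have far1 : hn (D • g0) ≤ 4 * D → False := fun h => far6 (by linarith)
  have hnD : ∀ d ∈ dirs, hn (D • d) = 2 * D := fun d hd => hn_smul_d hd hD.le
  have adj0 : ∀ x : Pt, x ∈ dirs ∨ -x ∈ dirs → hn (D • x) = 2 * D := by
    intro x hx
    rcases hx with hx | hx
    · exact hnD x hx
    · have := hnD (-x) hx
      rwa [smul_neg, hn_neg] at this
  have two : ∀ x y : Pt, hn (D • x) ≤ 2 * D → hn (D • y) ≤ 2 * D → hn (D • (x + y)) ≤ 4 * D := by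
    intro x y h1 h2
    rw [smul_add]
    have := hn_add (D • x) (D • y)
    linarith
  -- the length
  have hn0 : n ≠ 0 := by
    intro h
    subst h
    rw [hf0] at hfn
    subst hfn
    refine far1 ?_
    simp only [smul_zero]
    have : hn (0 : Pt) = 0 := by simp [hn, ip]
    rw [this]
    linarith
  -- the first step
  have f1 : f 1 = g0 + dt := by
    have h1 := hdir 0 (by omega)
    rw [zero_add, hf0] at h1
    rcases (hA 1 le_rfl (by omega)).2 with h | h | h | h
    · exact h
    · exfalso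
      refine far1 ?_
      have e : g0 = -up + -(f 1 - g0) := by rw [h]; abel
      rw [e]
      refine two _ _ ?_ ?_
      · rw [smul_neg, hn_neg, hnD up upd']
      · rw [smul_neg, hn_neg, hnD _ h1]
    · exfalso
      refine far1 ?_
      have e : g0 = -(f 1 - g0) := by rw [h]; abel
      rw [e, smul_neg, hn_neg, hnD _ h1]
      linarith
    · exfalso
      have h2 := h.2 t ht
      have e : t - D • f 1 = (t - D • g0) - D • (f 1 - g0) := by rw [smul_sub]; abel
      rw [e] at h2
      have h3 := hn_sub (t - D • g0) (D • (f 1 - g0))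
      rw [hnD _ h1] at h3
      linarith
  -- the last step
  have hn1 : n ≠ 1 := by
    intro h
    subst h
    have h1 := hdir 0 (by omega)
    rw [zero_add, hf0, hfn, zero_sub] at h1
    refine far1 ?_
    rw [adj0 g0 (Or.inr h1)]
    linarith
  obtain ⟨m, rfl⟩ : ∃ m, n = m + 1 + 1 := ⟨n - 2, by omega⟩
  have fl : f (m + 1) = -up := by
    have h1 := hdir (m + 1) (by omega)
    rw [hfn, zero_sub] at h1
    rcases (hA (m + 1) (by omega) (by omega)).2 with h | h | h | h
    · exfalso
      refine far1 ?_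
      have e : g0 = -(-(f (m + 1))) + -dt := by rw [h]; abel
      rw [e]
      refine two _ _ ?_ ?_
      · rw [smul_neg, hn_neg, hnD _ h1]
      · rw [smul_neg, hn_neg, hnD _ hdt]
    · exact h
    · exact absurd (h.trans hfn.symm) (hne (m + 1) (m + 1 + 1) (by omega) le_rfl)
    · exfalso
      have h2 := h.2 0 h0
      rw [zero_sub, hn_neg, adj0 _ (Or.inr h1)] at h2
      linarith
  have hm : m ≠ 0 := by
    intro h
    subst h
    rw [zero_add] at fl
    rw [f1] at fl
    refine far1 ?_
    have e : g0 = -up + -dt := by rw [← fl]; abel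
    rw [e]
    refine two _ _ ?_ ?_
    · rw [smul_neg, hn_neg, hnD _ upd']
    · rw [smul_neg, hn_neg, hnD _ hdt]
  -- non neighbours
  have nonadj : ∀ i j, i + 1 < j → j ≤ m + 1 + 1 → f j - f i ≠ 0 ∧ f j - f i ∉ dirs := by
    intro i j h1 h2
    refine ⟨fun h => hne i j (by omega) h2 (sub_eq_zero.1 h).symm, fun h => hind i j h1 h2 ⟨h, hA j (by omega) h2⟩⟩
  have fl2 : f m = -up - up := by
    have h1 := hdir m (by omega)
    rw [fl] at h1
    rcases (hA m (by omega) (by omega)).2 with h | h | h | h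
    · exfalso
      refine far6 ?_
      have e : g0 = (-up + -(-up - f m)) + -dt := by rw [h]; abel
      have k1 := two (-up) (-(-up - f m)) (by rw [smul_neg, hn_neg, hnD _ upd']) (by rw [smul_neg, hn_neg, hnD _ h1])
      rw [e, smul_add]
      have k2 := hn_add (D • (-up + -(-up - f m))) (D • -dt)
      have k3 : hn (D • -dt) = 2 * D := by rw [smul_neg, hn_neg, hnD _ hdt]
      linarith
    · exact absurd (h.trans fl.symm) (hne m (m + 1) (by omega) (by omega))
    · exact absurd (h.trans hfn.symm) (hne m (m + 1 + 1) (by omega) le_rfl)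
    · have key : ∀ d ∈ dirs, 4 ≤ hn (-up - d) → d = up := by decide
      have e : f m = -up - (-up - f m) := by abel
      have h2 : 4 ≤ hn (-up - (-up - f m)) := by
        rw [← e]
        by_contra hc2
        have h3 : hn (f m) ≤ 3 := by omega
        have h4 : hn (D • f m) ≤ 3 * D := by
          refine hn_le fun d hd => ?_
          rw [ip_smul_left]
          have := ip_le_hn (f m) hd
          nlinarith
        linarith [h.1]
      rw [e, key _ h1 h2]
  have hm1 : m ≠ 1 := by
    intro h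
    subst h
    rw [f1] at fl2
    refine far6 ?_
    have e : g0 = (-up + -up) + -dt := by
      have : g0 = (g0 + dt) - dt := by abel
      rw [this, fl2]
      abel
    have k1 := two (-up) (-up) (by rw [smul_neg, hn_neg, hnD _ upd']) (by rw [smul_neg, hn_neg, hnD _ upd'])
    rw [e, smul_add]
    have k2 := hn_add (D • (-up + -up)) (D • -dt)
    have k3 : hn (D • -dt) = 2 * D := by rw [smul_neg, hn_neg, hnD _ hdt]
    linarith
  refine ⟨m + 1 + 1, f, by omega, ?_, hf0, hfn, f1, fl, fl2, hdir, ?_, ?_, ?_⟩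
  · -- the number of steps
    have h1 : ((range (m + 1 + 1)).image fun i => f (i + 1)).card = m + 1 + 1 := by
      rw [card_image_of_injOn, card_range]
      intro i hi j hj hij
      rw [mem_coe, mem_range] at hi hj
      simp only at hij
      rcases Nat.lt_trichotomy i j with h | h | h
      · exact absurd hij (hne (i + 1) (j + 1) (by omega) (by omega))
      · exact h
      · exact absurd hij.symm (hne (j + 1) (i + 1) (by omega) (by omega))
    have h2 : (range (m + 1 + 1)).image (fun i => f (i + 1)) ⊆ Icc (-RB) RB ×ˢ Icc (-RB) RB := by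
      intro x hx
      rw [mem_image] at hx
      obtain ⟨i, hi, rfl⟩ := hx
      rw [mem_range] at hi
      have h3 := (hA (i + 1) (by omega) (by omega)).1
      rw [nr_zero, abs_le, abs_le] at h3
      rw [mem_product, mem_Icc, mem_Icc]
      exact h3
    have h3 := card_le_card h2
    rw [h1, card_product, Int.card_Icc] at h3
    rw [pow_two]
    refine h3.trans (le_of_eq ?_)
    congr 2 <;> ring
  · intro i hi
    refine turn_check _ (hdir i (by omega)) _ (hdir (i + 1) (by omega)) ?_ ?_
    · have := (nonadj i (i + 1 + 1) (by omega) (by omega)).1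
      rwa [show f (i + 1) - f i + (f (i + 1 + 1) - f (i + 1)) = f (i + 1 + 1) - f i by abel]
    · have := (nonadj i (i + 1 + 1) (by omega) (by omega)).2
      rwa [show f (i + 1) - f i + (f (i + 1 + 1) - f (i + 1)) = f (i + 1 + 1) - f i by abel]
  · intro i j h1 h2
    exact nrm_three (nonadj i j h1 h2).1 (nonadj i j h1 h2).2
  · -- clearance
    have hC : ∀ i, 1 ≤ i → i < m + 1 + 1 → ∀ p ∈ V, 2 * D - κ ≤ hn (p - D • f i) := by
      intro i h1 h2 p hp
      rcases (hA i h1 h2.le).2 with h | h | h | h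
      · by_contra hcon2
        rw [not_le] at hcon2
        have e : p - t = (p - D • f i) + (D • dt - (t - D • g0)) := by rw [h, smul_add]; abel
        have k1 : 0 < ip (p - t) dt := by
          have k5 := neg_hn_le_ip (p - D • f i) hdt
          have k6 := ip_le_hn (t - D • g0) hdt
          have k7 : ip (D • dt - (t - D • g0)) dt = 2 * D - ip (t - D • g0) dt := by
            rw [ip_sub_left, ip_smul_left, ip_self_dir hdt]
            ring
          rw [e, ip_add_left, k7]
          linarith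
        have k2 := hV1 p hp k1
        have k3 := hn_add (p - D • f i) (D • dt - (t - D • g0))
        have k4 := hn_sub (D • dt) (t - D • g0)
        rw [hnD dt hdt] at k4
        rw [← e] at k3
        linarith
      · by_contra hcon2
        rw [not_le] at hcon2
        have e : p = (p - D • f i) - D • up := by rw [h, smul_neg]; abel
        have k1 : ip p up < 0 := by
          have k5 := ip_le_hn (p - D • f i) upd'
          have k7 : ip (D • up) up = 2 * D := by
            rw [ip_smul_left, ip_self_dir upd']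
            ring
          rw [e, ip_sub_left _ (D • up), k7]
          linarith
        have k2 := hV2 p hp k1
        have k3 := hn_sub (p - D • f i) (D • up)
        rw [hnD up upd', ← e] at k3
        linarith
      · exact absurd (h.trans hfn.symm) (hne i (m + 1 + 1) (by omega) le_rfl)
      · have := h.2 p hp
        linarith
    intro i h1 h2 s hs0 hsD p hp
    rcases le_total (2 * s) D with h | h
    · have k1 := hC i h1 (by omega) p hp
      have e : p - D • f i = (p - (D • f i + s • (f (i + 1) - f i))) + s • (f (i + 1) - f i) := by abel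
      have k2 := hn_add (p - (D • f i + s • (f (i + 1) - f i))) (s • (f (i + 1) - f i))
      rw [← e, hn_smul_d (hdir i (by omega)) hs0] at k2
      linarith
    · have k1 := hC (i + 1) (by omega) (by omega) p hp
      have e : p - D • f (i + 1) = (p - (D • f i + s • (f (i + 1) - f i))) - (D - s) • (f (i + 1) - f i) := by
        rw [sub_smul, smul_sub D]
        abel
      have k2 := hn_sub (p - (D • f i + s • (f (i + 1) - f i))) ((D - s) • (f (i + 1) - f i))
      rw [← e, hn_smul_d (hdir i (by omega)) (by linarith)] at k2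
      linarith

end connect

end ARM

end HexObs
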