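import Pool.Agent.ARM.Mid
import Pool.Agent.ARM.PathX

/-!
# Rows R7b, G: the middle part between two good cuts is joinable

* `dir2`: simultaneous approximation of two integers (Dirichlet);
* `mesh`: a mesh `D` such that a given point is near the lattice of mesh `D`;
* `MidOk`: what row G1 (helper74) gives for the middle word; **`jn_of`**: such a word is joinable.
-/

set_option autoImplicit false

namespace HexObs

namespace ARM

open Finset TS SDN SIM NTA TIP TIW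

/-! ### Dirichlet -/

/-- **two integers are simultaneously near multiples of `D`** after multiplication with `q ≤ N ^ 2` -/
theorem dir2 {D : ℤ} (hD : 0 < D) {N : ℕ} (hN : 0 < N) (x y : ℤ) :
    ∃ q : ℕ, 1 ≤ q ∧ q ≤ N ^ 2 ∧ ∃ a b : ℤ, N * |q * x - D * a| < D ∧ N * |q * y - D * b| < D := by
  have hN' : (0 : ℤ) < N := by exact_mod_cast hN
  have hb : ∀ z : ℤ, 0 ≤ N * (z % D) / D ∧ N * (z % D) / D < N := by
    intro z
    have h1 := Int.emod_nonneg z hD.ne'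
    have h2 := Int.emod_lt_of_pos z hD
    refine ⟨Int.ediv_nonneg (by positivity) hD.le, ?_⟩
    rw [Int.ediv_lt_iff_lt_mul hD]
    exact mul_lt_mul_of_pos_left h2 hN'
  obtain ⟨φ, hφ⟩ : ∃ φ : ℕ → ℤ × ℤ, φ = fun q : ℕ => (N * (((q : ℤ) * x) % D) / D, N * (((q : ℤ) * y) % D) / D) := ⟨_, rfl⟩
  have hmap : ∀ q ∈ range (N ^ 2 + 1), φ q ∈ Ico (0 : ℤ) N ×ˢ Ico (0 : ℤ) N := by
    intro q _
    rw [hφ]
    simp only [mem_product, mem_Ico]
    exact ⟨hb _, hb _⟩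
  have hcard : (Ico (0 : ℤ) N ×ˢ Ico (0 : ℤ) N).card < (range (N ^ 2 + 1)).card := by
    rw [card_product, Int.card_Ico, card_range, sub_zero, Int.toNat_natCast]
    nlinarith
  obtain ⟨q1, h1, q2, h2, hne, heq⟩ := exists_ne_map_eq_of_card_lt_of_maps_to hcard hmap
  wlog hlt : q1 < q2 generalizing q1 q2
  · exact this q2 h2 q1 h1 hne.symm heq.symm (by omega)
  rw [mem_range] at h1 h2
  refine ⟨q2 - q1, by omega, by omega, (q2 * x) / D - (q1 * x) / D, (q2 * y) / D - (q1 * y) / D, ?_⟩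
  rw [hφ] at heq
  simp only [Prod.mk.injEq] at heq
  have key : ∀ z : ℤ, N * ((q1 * z) % D) / D = N * ((q2 * z) % D) / D →
      N * |((q2 - q1 : ℕ) : ℤ) * z - D * ((q2 * z) / D - (q1 * z) / D)| < D := by
    intro z hz
    have e1 := Int.emod_add_mul_ediv (q1 * z) D
    have e2 := Int.emod_add_mul_ediv (q2 * z) D
    have e3 : ((q2 - q1 : ℕ) : ℤ) * z - D * ((q2 * z) / D - (q1 * z) / D) = (q2 * z) % D - (q1 * z) % D := by
      rw [Nat.cast_sub hlt.le, sub_mul, mul_sub]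
      linarith
    rw [e3]
    have f1 := Int.emod_add_mul_ediv (N * ((q1 * z) % D)) D
    have f2 := Int.emod_add_mul_ediv (N * ((q2 * z) % D)) D
    have g1 := Int.emod_nonneg (N * ((q1 * z) % D)) hD.ne'
    have g2 := Int.emod_nonneg (N * ((q2 * z) % D)) hD.ne'
    have g3 := Int.emod_lt_of_pos (N * ((q1 * z) % D)) hD
    have g4 := Int.emod_lt_of_pos (N * ((q2 * z) % D)) hD
    rw [hz] at f1
    rw [← abs_of_pos hN', ← abs_mul, mul_sub, abs_lt]
    constructor <;> linarith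
  exact ⟨key x heq.1, key y heq.2⟩

/-- **a mesh adapted to the point `t`** -/
theorem mesh {H : ℕ} (hH : 1 ≤ H) {D0 T : ℤ} {t : Pt} (hD0 : 0 < D0) (hT : 0 ≤ T) (h1 : |t.1| ≤ T * D0) (h2 : |t.2| ≤ T * D0)
    (hbig : ((216 * H : ℕ) : ℤ) ^ 2 * (432 * H * (((216 * H : ℕ) : ℤ) ^ 2 * T + 3)) ≤ D0) :
    ∃ (D : ℤ) (g : Pt), (∃ q : ℕ, q < (216 * H) ^ 2 + 1 ∧ D0 / q = D) ∧ 0 < D ∧ D ≤ D0 ∧
      D0 ≤ 2 * ((216 * H : ℕ) : ℤ) ^ 2 * D ∧
      |g.1| ≤ ((216 * H : ℕ) : ℤ) ^ 2 * T + 1 ∧ |g.2| ≤ ((216 * H : ℕ) : ℤ) ^ 2 * T + 1 ∧ 36 * H * hn (t - D • g) ≤ D := by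
  set N : ℕ := 216 * H with hN
  have hN0 : 0 < N := by omega
  have hN' : (1 : ℤ) ≤ N := by exact_mod_cast hN0
  have hH' : (1 : ℤ) ≤ H := by exact_mod_cast hH
  have hNH : (N : ℤ) = 216 * H := by rw [hN]; push_cast; ring
  obtain ⟨q, q1, q2, a, b, ha, hb⟩ := dir2 hD0 hN0 t.1 t.2
  have hq : (1 : ℤ) ≤ q := by exact_mod_cast q1
  have hq2 : (q : ℤ) ≤ N ^ 2 := by exact_mod_cast q2
  have hq0 : (0 : ℤ) < q := by linarith
  set S : ℤ := (N : ℤ) ^ 2 * T + 1 with hS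
  have hN2 : (0 : ℤ) ≤ (N : ℤ) ^ 2 := sq_nonneg _
  have hS1 : 1 ≤ S := by rw [hS]; nlinarith [mul_nonneg hN2 hT]
  -- the mesh
  have e1 := Int.emod_add_mul_ediv D0 (q : ℤ)
  have e2 := Int.emod_nonneg D0 hq0.ne'
  have e3 := Int.emod_lt_of_pos D0 hq0
  set D : ℤ := D0 / q with hDd
  set r : ℤ := D0 % q with hr
  have hbig' : (N : ℤ) ^ 2 * (432 * H * (S + 2)) ≤ D0 := by
    rw [hS]
    calc (N : ℤ) ^ 2 * (432 * H * ((N : ℤ) ^ 2 * T + 1 + 2)) = (N : ℤ) ^ 2 * (432 * H * ((N : ℤ) ^ 2 * T + 3)) := by ring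
      _ ≤ D0 := hbig
  -- D is large
  have hDq : 432 * H * (S + 2) ≤ D := by
    rw [hDd, Int.le_ediv_iff_mul_le hq0]
    refine le_trans ?_ hbig'
    rw [mul_comm ((N : ℤ) ^ 2)]
    exact mul_le_mul_of_nonneg_left hq2 (by positivity)
  have hDpos : 0 < D := by nlinarith
  -- a, b
  have hab : ∀ z c : ℤ, |z| ≤ T * D0 → N * |q * z - D0 * c| < D0 → |c| ≤ S ∧ 3 * (36 * H) * |z - D * c| ≤ D := by
    intro z c hz hc
    have k0 : |q * z - D0 * c| < D0 := by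
      have := abs_nonneg (q * z - D0 * c)
      nlinarith
    have k1 : |c| ≤ S := by
      have k2 : D0 * |c| ≤ q * |z| + |q * z - D0 * c| := by
        have h3 := abs_sub (q * z) (q * z - D0 * c)
        rw [sub_sub_cancel, abs_mul, abs_of_pos hD0, abs_mul, abs_of_pos hq0] at h3
        exact h3
      have k3 : q * |z| ≤ N ^ 2 * (T * D0) :=
        mul_le_mul hq2 hz (abs_nonneg _) hN2
      have k4 : D0 * |c| < D0 * (S + 1) := by
        rw [hS]
        nlinarith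
      have := lt_of_mul_lt_mul_left k4 hD0.le
      omega
    refine ⟨k1, ?_⟩
    -- q (z - D c) = (q z - D0 c) + r c
    have k5 : q * (z - D * c) = (q * z - D0 * c) + r * c := by
      have : D0 = r + q * D := by rw [hr, hDd]; linarith
      rw [this]
      ring
    have k6 : q * |z - D * c| ≤ |q * z - D0 * c| + q * S := by
      have h3 := abs_add_le (q * z - D0 * c) (r * c)
      rw [← k5, abs_mul, abs_of_pos hq0, abs_mul r, abs_of_nonneg e2] at h3
      have : r * |c| ≤ q * S := mul_le_mul e3.le k1 (abs_nonneg _) hq0.le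
      linarith
    have k7 : D0 ≤ q * (D + 1) := by
      have : D0 = r + q * D := by rw [hr, hDd]; linarith
      linarith
    -- multiply by N
    have k8 : N * |z - D * c| ≤ (D + 1) + N * S := by
      have h4 : q * (N * |z - D * c|) ≤ q * ((D + 1) + N * S) := by
        have h5 := mul_le_mul_of_nonneg_left k6 (by linarith : (0 : ℤ) ≤ N)
        nlinarith
      exact le_of_mul_le_mul_left h4 hq0
    have k9 : 3 * (36 * H) * (2 * |z - D * c|) ≤ (D + 1) + N * S := by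
      have : 3 * (36 * (H : ℤ)) * 2 = N := by rw [hNH]; ring
      calc 3 * (36 * (H : ℤ)) * (2 * |z - D * c|) = (3 * (36 * (H : ℤ)) * 2) * |z - D * c| := by ring
        _ = N * |z - D * c| := by rw [this]
        _ ≤ _ := k8
    have k10 : 1 + (N : ℤ) * S ≤ D := by
      rw [hNH]
      nlinarith
    linarith
  obtain ⟨a1, a2⟩ := hab t.1 a h1 ha
  obtain ⟨b1, b2⟩ := hab t.2 b h2 hb
  refine ⟨D, (a, b), ⟨q, by omega, rfl⟩, hDpos, ?_, ?_, a1, b1, ?_⟩
  · rw [hDd]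
    exact Int.ediv_le_self _ hD0.le
  · have k7 : D0 ≤ q * (D + 1) := by
      have : D0 = r + q * D := by rw [hr, hDd]; linarith
      linarith
    have k8 : (q : ℤ) * (D + 1) ≤ N ^ 2 * (2 * D) := mul_le_mul hq2 (by linarith) (by linarith) hN2
    linarith
  · -- the norm
    have hc : hn (t - D • ((a, b) : Pt)) ≤ 3 * max |t.1 - D * a| |t.2 - D * b| := by
      refine hn_le_coord (p := t - D • ((a, b) : Pt)) ?_ ?_
      · exact le_max_left _ _
      · exact le_max_right _ _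
    have hm : 3 * (36 * H) * max |t.1 - D * a| |t.2 - D * b| ≤ D := by
      rcases le_total |t.1 - D * a| |t.2 - D * b| with h | h
      · rw [max_eq_right h]
        exact b2
      · rw [max_eq_left h]
        exact a2
    have hH0 : (0 : ℤ) ≤ 36 * H := by linarith
    nlinarith

/-! ### joinable words -/

/-- **what row G1 gives for the middle word between two good cuts** -/
structure MidOk (a m c e j : ℕ) (M : List Bool) : Prop where
  sa : M ∈ SA
  two : 2 ≤ M.length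
  le : hn (en M) ≤ 2 ^ (j + m + 3)
  far : 2 ^ (j - e) < hn (en M)
  fe : M ∈ Fe (2 ^ (j - a))
  fr : ∀ t, 1 ≤ t → t ≤ M.length → ip (vx oo up M t - vx oo up M 1) up < 0 →
    2 ^ (j - a) ≤ hn (vx oo up M t - vx oo up M 1)
  chn : ∀ (h w : ℕ) (r : ℤ), 1 ≤ h → 0 ≤ r → 3 * (2 * r + 3) * h ≤ 2 ^ (j - e) → 2 ^ (j - a) ≤ 8 * w →
    8 * w ≤ 3 * 2 ^ (j - a) → Chn h w r ((2 ^ (j + c - 1) / h : ℕ) : ℤ) M

/-- scale of the mesh -/
lemma scale {H : ℕ} {D : ℤ} (hH : 1 ≤ H) (hD : 18 * H ≤ D) : ∃ k : ℕ, 18 * (H * 2 ^ k) ≤ D ∧ D < 36 * (H * 2 ^ k) := by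
  obtain ⟨d, rfl⟩ : ∃ d : ℕ, D = d := ⟨D.toNat, by omega⟩
  have hd : 18 * H ≤ d := by exact_mod_cast hD
  set q := d / (18 * H) with hq
  have hpos : 0 < 18 * H := by omega
  have hq1 : 1 ≤ q := by
    rw [hq, Nat.one_le_div_iff hpos]
    exact hd
  have h1 := Nat.pow_log_le_self 2 (x := q) (by omega)
  have h2 := Nat.lt_pow_succ_log_self (b := 2) (by norm_num) q
  have h3 : 18 * H * q ≤ d := Nat.mul_div_le d (18 * H)
  have h4 : d < 18 * H * (q + 1) := by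
    rw [hq]
    exact Nat.lt_mul_div_succ d hpos
  refine ⟨Nat.log 2 q, ?_, ?_⟩
  · have : 18 * (H * 2 ^ Nat.log 2 q) ≤ d := by nlinarith
    exact_mod_cast this
  · have : d < 36 * (H * 2 ^ Nat.log 2 q) := by
      rw [pow_succ] at h2
      nlinarith
    exact_mod_cast this

lemma vx_one (M : List Bool) : vx oo up M 1 = up := by
  simp [vx, vs, ds, oo]

theorem jn_of {a e : ℕ} (m c : ℕ) {H : ℕ} (hae : a + 6 ≤ e) (hH : 2 ^ 13 ≤ H) : ∃ Mx sx b0 : ℕ, ∀ j, b0 ≤ j →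
    ∃ DD : Finset ℤ, DD.card ≤ Mx ∧ ∀ M, MidOk a m c e j M → ∃ (k' r : ℕ) (D : ℤ) (E : ℕ → Pt), D ∈ DD ∧ k' ≤ j ∧
      j ≤ k' + sx ∧ 18 * (H * 2 ^ k') ≤ D ∧ D ≤ 36 * (H * 2 ^ k') ∧ 4 ≤ r ∧ r ≤ Mx ∧ IPg E r ∧ E (r - 1) = up ∧
      E (r - 2) = up ∧ Jn E r D k' M := by
  set N : ℕ := 216 * H with hN
  set T : ℕ := 2 ^ (m + e + 8) with hT
  set X : ℕ := N ^ 2 * (432 * H * (N ^ 2 * T + 3)) with hX
  set RB : ℕ := 2 * N ^ 2 * 2 ^ (c + e + 4) + (N ^ 2 * T + 1) + 2 * N ^ 2 * (3 * 2 ^ (e + 2)) + 4 with hRB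
  have hH1 : 1 ≤ H := le_trans (by norm_num) hH
  refine ⟨(2 * RB + 1) ^ 2 + (N ^ 2 + 1), e + 5 + 72 * H * N ^ 2, e + 5 + X + c, fun j hj =>
    ⟨(range (N ^ 2 + 1)).image fun q : ℕ => (2 : ℤ) ^ (j - (e + 5)) / q, ?_, fun M hM => ?_⟩⟩
  · refine card_image_le.trans ?_
    rw [card_range]
    exact Nat.le_add_left _ _
  -- scales
  obtain ⟨s, rfl⟩ : ∃ s, j = e + 5 + s := ⟨j - (e + 5), by omega⟩
  have hsX : X ≤ s := by omega
  have hpow : (X : ℤ) ≤ 2 ^ s := by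
    have h1 : X < 2 ^ X := Nat.lt_two_pow_self
    have h2 : 2 ^ X ≤ 2 ^ s := Nat.pow_le_pow_right (by norm_num) hsX
    exact_mod_cast h1.le.trans h2
  set D0 : ℤ := 2 ^ s with hD0
  have hD0p : 0 < D0 := by positivity
  have hje : e + 5 + s - e = s + 5 := by omega
  have hja : ∃ v, e + 5 + s - a = s + 11 + v := ⟨e - a - 6, by omega⟩
  obtain ⟨v, hja⟩ := hja
  have hfar := hM.far
  have hle := hM.le
  rw [hje] at hfar
  set t : Pt := en M with ht
  have hle2 : hn t ≤ T * D0 := by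
    rw [hT, hD0]
    push_cast
    rw [← pow_add, show m + e + 8 + s = e + 5 + s + m + 3 by ring]
    exact hle
  obtain ⟨c1, c2⟩ := hn_coord t
  obtain ⟨D, g, ⟨q0, hq0, hDq0⟩, hDp, hDle, hDge, hg1, hg2, hgn⟩ := mesh (H := H) (D0 := D0) (T := T) (t := t) hH1 hD0p (by positivity)
    (by linarith [abs_nonneg t.1, hn_nonneg t]) (by linarith [abs_nonneg t.2, hn_nonneg t]) (by
      refine le_trans (le_of_eq ?_) hpow
      rw [hX, hN]
      push_cast
      ring)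
  rw [← hN] at hDge hg1 hg2 hq0
  have hDD : D ∈ (range (N ^ 2 + 1)).image fun q : ℕ => (2 : ℤ) ^ (e + 5 + s - (e + 5)) / q := by
    rw [Nat.add_sub_cancel_left, mem_image]
    exact ⟨q0, mem_range.2 hq0, hDq0⟩
  -- the scale k'
  have hHz : (2 : ℤ) ^ 13 ≤ H := by exact_mod_cast hH
  have hD18 : 18 * (H : ℤ) ≤ D := by
    have h1 : (2 : ℤ) * N ^ 2 * (18 * H) ≤ 2 * N ^ 2 * D := by
      refine le_trans ?_ hDge
      refine le_trans ?_ hpow
      rw [hX]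
      push_cast
      have h2 : (0 : ℤ) ≤ (N : ℤ) ^ 2 * H := by positivity
      have h3 : (0 : ℤ) ≤ (N : ℤ) ^ 2 * T := by positivity
      nlinarith [mul_nonneg h2 h3]
    refine le_of_mul_le_mul_left h1 ?_
    have : (0 : ℤ) < N := by
      rw [hN]
      push_cast
      linarith
    positivity
  obtain ⟨k, hk1, hk2⟩ := scale hH1 hD18
  set κ : ℤ := 2 ^ k with hκ
  have hκp : 0 < κ := by positivity
  have hκD : 72 * (2 ^ 11 * κ) ≤ D := by
    refine le_trans ?_ hk1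
    have : (2 : ℤ) ^ 13 * κ ≤ H * κ := mul_le_mul_of_nonneg_right hHz hκp.le
    linarith
  have hgκ : hn (t - D • g) ≤ κ := by
    have h1 : 36 * (H : ℤ) * hn (t - D • g) ≤ 36 * H * κ := by
      rw [mul_assoc 36 (H : ℤ) κ]
      exact hgn.trans hk2.le
    refine le_of_mul_le_mul_left h1 (by linarith)
  -- the vertices
  obtain ⟨V, hV⟩ : ∃ V : Set Pt, V = {p | ∃ i, i ≤ M.length ∧ p = vx oo up M i} := ⟨_, rfl⟩
  have memV : ∀ i, i ≤ M.length → vx oo up M i ∈ V := fun i hi => by rw [hV]; exact ⟨i, hi, rfl⟩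
  have h0V : (0 : Pt) ∈ V := by
    have := memV 0 (Nat.zero_le _)
    exact this
  have htV : t ∈ V := memV _ le_rfl
  obtain ⟨dt, hdt0⟩ : ∃ dt : Pt, dt = de M := ⟨_, rfl⟩
  have hdt : dt ∈ dirs := by
    rw [hdt0]
    exact dx_mem upd' _ _
  set ρ : ℤ := 2 ^ (s + 11 + v) - 2 with hρ
  have hV1 : ∀ p ∈ V, 0 < ip (p - t) dt → ρ ≤ hn (p - t) := by
    intro p hp h1
    rw [hV] at hp
    obtain ⟨i, hi, rfl⟩ := hp
    rw [hdt0] at h1
    have h2 := hM.fe i hi h1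
    rw [hja] at h2
    push_cast at h2
    linarith
  have hV2' : ∀ i, 1 ≤ i → i ≤ M.length → ip (vx oo up M i) up ≤ 0 → ρ ≤ hn (vx oo up M i) := by
    intro i h1 h2 h3
    have h4 := hM.fr i h1 h2 (by
      rw [vx_one, ip_sub_left, ip_self_dir upd']
      linarith)
    rw [hja, vx_one] at h4
    have h5 := hn_sub (vx oo up M i) up
    rw [show hn up = 2 by decide] at h5
    linarith
  have hV2 : ∀ p ∈ V, ip p up < 0 → ρ ≤ hn p := by
    intro p hp h1
    rw [hV] at hp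
    obtain ⟨i, hi, rfl⟩ := hp
    rcases Nat.eq_zero_or_pos i with h | h
    · subst h
      simp [vx, vs, oo, ip] at h1
    · exact hV2' i h hi h1.le
  -- the chain
  obtain ⟨h, rfl⟩ : ∃ h : ℕ, D = h := ⟨D.toNat, by omega⟩
  have hh1 : 1 ≤ h := by exact_mod_cast hDp
  have hhge : 2 ^ s ≤ 2 * N ^ 2 * h := by
    have h1 : (2 : ℤ) ^ s ≤ 2 * (N : ℤ) ^ 2 * h := hDge
    exact_mod_cast h1
  have hcel : ∀ v : Pt, cel h v = ce (h : ℤ) v := fun v => rfl
  set w : ℕ := 3 * 2 ^ (s + 8 + v) with hw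
  have hc := hM.chn h w 3 hh1 (by norm_num) (by
      rw [hje, pow_add]
      have : (h : ℤ) ≤ 2 ^ s := hDle
      linarith) (by
      rw [hja, hw, show s + 11 + v = (s + 8 + v) + 3 by ring, pow_add _ _ 3]
      omega) (by
      rw [hja, hw, show s + 11 + v = (s + 8 + v) + 3 by ring, pow_add _ _ 3]
      omega)
  set R : ℕ := 2 ^ (e + 5 + s + c - 1) / h with hR
  have hRle : R ≤ 2 * N ^ 2 * 2 ^ (c + e + 4) := by
    rw [hR]
    refine Nat.div_le_of_le_mul ?_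
    rw [show e + 5 + s + c - 1 = (c + e + 4) + s by omega, pow_add]
    calc 2 ^ (c + e + 4) * 2 ^ s ≤ 2 ^ (c + e + 4) * (2 * N ^ 2 * h) := Nat.mul_le_mul_left _ hhge
      _ = h * (2 * N ^ 2 * 2 ^ (c + e + 4)) := by ring
  have hve : 8 + v ≤ e + 2 := by omega
  have hwle : w ≤ (3 * 2 ^ (e + 2)) * 2 ^ s := by
    rw [hw, show s + 8 + v = (8 + v) + s by ring, pow_add _ (8 + v), ← mul_assoc]
    exact Nat.mul_le_mul_right _ (Nat.mul_le_mul_left _ (Nat.pow_le_pow_right (by norm_num) hve))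
  have hKle : w / h ≤ 2 * N ^ 2 * (3 * 2 ^ (e + 2)) := by
    refine Nat.div_le_of_le_mul (hwle.trans ?_)
    calc (3 * 2 ^ (e + 2)) * 2 ^ s ≤ (3 * 2 ^ (e + 2)) * (2 * N ^ 2 * h) := Nat.mul_le_mul_left _ hhge
      _ = h * (2 * N ^ 2 * (3 * 2 ^ (e + 2))) := by ring
  have hs0 : (1 : ℤ) ≤ 2 ^ (s + 4 + v) := one_le_pow₀ (by norm_num)
  have hDs : (h : ℤ) ≤ 2 ^ (s + 4 + v) :=
    hDle.trans (pow_le_pow_right₀ (by norm_num) (by omega))
  have hwz : (w : ℤ) = 48 * 2 ^ (s + 4 + v) := by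
    rw [hw, show s + 8 + v = (s + 4 + v) + 4 by ring, pow_add _ _ 4]
    push_cast
    ring
  have hρz : ρ = 128 * 2 ^ (s + 4 + v) - 2 := by
    rw [hρ, show s + 11 + v = (s + 4 + v) + 7 by ring, pow_add _ _ 7]
    ring
  have hcV : Relation.ReflTransGen (fun f g => adj f g ∧ nr (R : ℤ) 0 g ∧ ∀ p ∈ V, ¬ nr 3 (ce (h : ℤ) (p - t)) g)
      (ce (h : ℤ) ((w : ℤ) • dt)) (ce (h : ℤ) (-t - (w : ℤ) • up)) := by
    rw [hdt0]
    unfold Chn at hc
    refine hc.lift id fun f g hfg => ⟨hfg.1, hfg.2.1, fun p hp => ?_⟩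
    rw [hV] at hp
    obtain ⟨i, hi, rfl⟩ := hp
    exact hfg.2.2 i hi
  obtain ⟨n, f, n3, nle, f0, fn, f1, fl, fl2, fdir, ftur, find, fclr⟩ := exists_path (D := (h : ℤ)) (w := (w : ℤ)) (ρ := ρ)
    (κ := κ) (N0 := (N : ℤ) ^ 2 * T + 1) (R := (R : ℤ)) (RB := (RB : ℤ)) (K := w / h) (V := V) (t := t) (dt := dt)
    (g0 := g) hDp hκp.le (by linarith) hdt h0V htV hgκ hV1 hV2 (by
      have : (10 : ℤ) * h ≤ 2 ^ (s + 5) := by
        rw [pow_add]
        linarith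
      linarith) (by rw [hwz]; linarith) (by exact_mod_cast Nat.div_mul_le_self w h) (by
      have := Nat.lt_mul_div_succ w hh1
      rw [mul_comm] at this
      exact_mod_cast this) (by rw [hwz, hρz]; linarith) ⟨hg1, hg2⟩ (Int.natCast_nonneg _) (by
      rw [hRB]
      have e1 : (R : ℤ) ≤ 2 * (N : ℤ) ^ 2 * 2 ^ (c + e + 4) := by exact_mod_cast hRle
      have e2 : ((w / h : ℕ) : ℤ) ≤ 2 * (N : ℤ) ^ 2 * (3 * 2 ^ (e + 2)) := by exact_mod_cast hKle
      push_cast at e1 e2 ⊢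
      linarith) hcV
  have hps : ∀ i, AR.ps (fun i => f (i + 1) - f i) i = f i - f 0 := fun i => sum_range_sub f i
  have hqv : ∀ i, qv (fun i => f (i + 1) - f i) (h : ℤ) n i = (h : ℤ) • f i := by
    intro i
    unfold qv
    rw [hps, hps, fn]
    congr 1
    abel
  obtain ⟨m', rfl⟩ : ∃ m', n = m' + 1 := ⟨n - 1, by omega⟩
  rw [Nat.add_sub_cancel] at fl
  obtain ⟨m'', rfl⟩ : ∃ m'', m' = m'' + 1 := ⟨m' - 1, by omega⟩
  rw [show m'' + 1 + 1 - 2 = m'' by omega] at fl2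
  have hlast : f (m'' + 1 + 1) - f (m'' + 1) = up := by rw [fn, fl]; abel
  have hlast2 : f (m'' + 1) - f m'' = up := by rw [fl, fl2]; abel
  have hfst : f (0 + 1) - f 0 = dt := by rw [zero_add, f1, f0]; abel
  have hup2 : hn up = 2 := by decide
  refine ⟨k, m'' + 1 + 1, (h : ℤ), fun i => f (i + 1) - f i, hDD, ?_, ?_, hk1, hk2.le, n3, ?_, ?_, ?_, ?_, ?_⟩
  · have h1 : (2 : ℤ) ^ k ≤ 2 ^ s := by
      have : (0 : ℤ) ≤ 2 ^ 11 * κ := by positivity
      linarith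
    have h2 : k ≤ s := (pow_le_pow_iff_right₀ (by norm_num : (1 : ℤ) < 2)).1 h1
    omega
  · have h1 : (2 : ℤ) ^ s ≤ 2 * N ^ 2 * (36 * (H * 2 ^ k)) :=
      hDge.trans (mul_le_mul_of_nonneg_left hk2.le (by positivity))
    have h2 : (72 * H * N ^ 2 : ℕ) < 2 ^ (72 * H * N ^ 2) := Nat.lt_two_pow_self
    have h3 : (2 : ℤ) ^ s ≤ 2 ^ (k + 72 * H * N ^ 2) := by
      rw [pow_add]
      refine h1.trans ?_
      have h4 : ((72 * H * N ^ 2 : ℕ) : ℤ) ≤ 2 ^ (72 * H * N ^ 2) := by exact_mod_cast h2.le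
      have h5 : (2 : ℤ) * N ^ 2 * (36 * (H * 2 ^ k)) = 2 ^ k * ((72 * H * N ^ 2 : ℕ) : ℤ) := by
        push_cast
        ring
      rw [h5]
      exact mul_le_mul_of_nonneg_left h4 (by positivity)
    have h6 : s ≤ k + 72 * H * N ^ 2 := (pow_le_pow_iff_right₀ (by norm_num : (1 : ℤ) < 2)).1 h3
    omega
  · refine le_trans (nle.trans (le_of_eq ?_)) (Nat.le_add_right _ _)
    congr 1
  · refine ⟨fdir, fun i hi => ftur i hi, fun i j h1 h2 => ?_⟩
    rw [hps, hps, sub_sub_sub_cancel_right]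
    exact find i j h1 h2
  · rw [Nat.add_sub_cancel]
    exact hlast
  · rw [show m'' + 1 + 1 - 2 = m'' by omega]
    exact hlast2
  · refine ⟨hM.sa, ?_, ?_, ?_, ?_, ?_⟩
    · show de M = f (0 + 1) - f 0
      rw [hfst, hdt0]
    · rw [hqv, f0]
      exact hgκ
    · rintro i hi j h1 h2 ⟨σ, s1, s2, s3⟩
      have h3 := fclr j h1 h2 σ s1 s2 _ (memV i hi)
      have s4 : hn (vx oo up M i - ((h : ℤ) • f j + σ • (f (j + 1) - f j))) ≤ 2 ^ (k + 11) := by
        rw [← hqv j]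
        exact s3
      rw [pow_add, ← hκ] at s4
      linarith
    · rintro i hi ⟨σ, s1, s2, s3⟩
      have s4 : hn (vx oo up M i - ((h : ℤ) • g + σ • dt)) ≤ 2 ^ (k + 11) := by
        rw [← hfst, ← f0, ← hqv 0]
        exact s3
      show ip (vx oo up M i - t) (f (0 + 1) - f 0) ≤ 0
      rw [hfst]
      by_contra hcon
      rw [not_le] at hcon
      have h1 := hV1 _ (memV i hi) hcon
      have h2 : vx oo up M i - t = (vx oo up M i - ((h : ℤ) • g + σ • dt)) + (σ • dt - (t - (h : ℤ) • g)) := by abel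
      have h3 := hn_add (vx oo up M i - ((h : ℤ) • g + σ • dt)) (σ • dt - (t - (h : ℤ) • g))
      have h4 := hn_sub (σ • dt) (t - (h : ℤ) • g)
      rw [hn_smul_d hdt s1] at h4
      rw [← h2] at h3
      rw [pow_add, ← hκ] at s4
      rw [hρz] at h1
      linarith
    · rintro i h1 hi ⟨σ, s1, s2, s3⟩
      have s4 : hn (vx oo up M i - ((h : ℤ) • -up + σ • up)) ≤ 2 ^ (k + 11) := by
        rw [← fl]
        have e1 := hqv (m'' + 1)
        rw [← e1]
        nth_rewrite 2 [← hlast]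
        exact s3
      by_contra hcon
      rw [not_lt] at hcon
      have h1' := hV2' i h1 hi hcon
      have h2 : vx oo up M i = (vx oo up M i - ((h : ℤ) • -up + σ • up)) + ((h : ℤ) • -up + σ • up) := by abel
      have h3 := hn_add (vx oo up M i - ((h : ℤ) • -up + σ • up)) ((h : ℤ) • -up + σ • up)
      have h4 := hn_add ((h : ℤ) • -up) (σ • up)
      rw [hn_smul_d upd' s1] at h4
      rw [← h2] at h3
      rw [pow_add, ← hκ] at s4
      rw [hρz] at h1'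
      have h5 : hn ((h : ℤ) • -up) = 2 * h := by rw [smul_neg, hn_neg, hn_smul_d upd' hDp.le]
      linarith

/-- row G1 (helper74) in the form used here -/
theorem midOk_of {n j a m c u e k : ℕ} {η κ : ℝ} {X M Y : List Bool} (hη : 0 < η) (hak : a + 6 ≤ k) (hke : k ≤ e)
    (hmc : m + 7 ≤ c) (hcu : c ≤ u) (hej : e + 4 ≤ j) (hL : X ++ (M ++ Y) ∈ GFc n j η κ a m c u e k)
    (hC : CutP j a m η X M Y) : MidOk a m c e j M := by
  obtain ⟨h2, hs, hle, hfar, hfe, hfr, _, hch⟩ := mid_ofc hη hak hke hmc hcu hej hL hC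
  have hfr' := (Fe_rv (M := M) (by omega)).1 hfr
  refine ⟨hs, h2, hle, hfar, hfe, fun t h1 h2 h3 => ?_, fun h w r h1 h2 h3 h4 h5 => ?_⟩
  · have := hfr' t h1 h2 h3
    push_cast at this
    exact this
  · have := hch h w r h1 h2 h3 h4 h5
    push_cast
    exact this

/-- **rows G1 + R7b: the middle part between two good cuts is joinable** (good words in the form for closed words) -/
theorem joinSc : JoinSc := by
  intro η κ a m hη hκ
  refine ⟨a + 6, m + 7, fun c u e hc hu he H hH => ?_⟩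
  obtain ⟨Mx, sx, b0, h1⟩ := jn_of m c he hH
  refine ⟨Mx, sx, b0 + e + 4, fun j hj => ?_⟩
  obtain ⟨DD, hDD, h2⟩ := h1 j (by omega)
  exact ⟨DD, hDD, fun n _ X M Y hX hC => h2 M (midOk_of hη le_rfl he hc hu (by omega) hX hC)⟩

/-- the same for the words of GF -/
theorem joinSt : JoinSt := joinSt_of_c joinSc

end ARM

end HexObs
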