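import Pool.Agent.TIP.YBad

/-!
# ARM2, row U, part 1 (helper29): long words without a rich factor, with a good tip (direct form of `YBad`)

* `Lz_cutD`: removing a narrow bridge at the end;
* **`lBad`**: words with a good tip of the scale b and a long factor without a rich window of the level b + d.
-/

set_option autoImplicit false

namespace HexObs

namespace ARM

open Finset TS SDN NTW SIM NTA TIP TIP.YB

open scoped ENNReal

lemma Lz_cutD {κ : ℝ} {C b D n n' : ℕ} {A Z : List Bool} (hZ : Z ∉ WdR D) (hn : n' * 2 ^ b + 2 * D ≤ n * 2 ^ b)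
    (h : A ++ Z ∈ Lz κ C b n) : A ∈ Lz κ C b n' := by
  have hr : ∀ a e, a ≤ Z.length → e ≤ Z.length → |(vx oo up Z a).1 - (vx oo up Z e).1| ≤ (D : ℤ) ∧
      |(vx oo up Z a).2 - (vx oo up Z e).2| ≤ (D : ℤ) := by
    intro a e ha he
    by_contra hcon
    exact hZ ⟨a, e, ha, he, fun hB => hcon hB⟩
  have hr0 : ∀ a, a ≤ Z.length → |(vx oo up Z a).1| ≤ (D : ℤ) ∧ |(vx oo up Z a).2| ≤ (D : ℤ) := by
    intro a ha
    obtain ⟨h1, h2⟩ := hr a 0 ha (Nat.zero_le _)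
    have e1 : (vx oo up Z 0).1 = 0 := rfl
    have e2 : (vx oo up Z 0).2 = 0 := rfl
    rw [e1, sub_zero] at h1
    rw [e2, sub_zero] at h2
    exact ⟨h1, h2⟩
  have hnn : n' ≤ n := by
    by_contra hc
    have : n * 2 ^ b < n' * 2 ^ b := Nat.mul_lt_mul_of_pos_right (by omega) (by positivity)
    omega
  obtain ⟨X, Q, Y, he, h2, h3⟩ := h
  obtain ⟨x, hx⟩ : ∃ x : ℕ, x = n * 2 ^ b := ⟨_, rfl⟩
  obtain ⟨x', hx'⟩ : ∃ x : ℕ, x = n' * 2 ^ b := ⟨_, rfl⟩
  rw [← hx] at h3 hn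
  rw [← hx'] at hn
  rcases List.append_eq_append_iff.1 he with ⟨W, h4, h5⟩ | ⟨W, h4, h5⟩
  · -- X = A ++ W, Z = W ++ (Q ++ Y)
    exfalso
    apply h3
    rw [In_iff]
    intro i hi
    have hlen : Z.length = W.length + (Q.length + Y.length) := by rw [h5, List.length_append, List.length_append]
    obtain ⟨c, hc, -, hf⟩ := drop_frame' Z W.length
    have e1 : Z.drop W.length = Q ++ Y := by rw [h5, List.drop_left' rfl]
    have e2 := hf i
    rw [e1, vx_append (by omega)] at e2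
    obtain ⟨a1, a2⟩ := hr (W.length + i) W.length (by omega) (by omega)
    have e3 : mulE c (vx oo up Q i) = vx oo up Z (W.length + i) - vx oo up Z W.length := by rw [e2]; abel
    rw [← Prod.fst_sub] at a1
    rw [← Prod.snd_sub] at a2
    rw [← e3] at a1 a2
    obtain ⟨b1, b2⟩ := mul_coord' hc a1 a2
    constructor <;> omega
  · -- A = X ++ W, Q ++ Y = W ++ Z
    rcases List.append_eq_append_iff.1 h5 with ⟨V, h6, h7⟩ | ⟨V, h6, h7⟩
    · -- W = Q ++ V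
      refine ⟨X, Q, V, by rw [h4, h6], h2, fun hI => h3 (In_mono ?_ hI)⟩
      rw [← hx']
      omega
    · -- Q = W ++ V, Z = V ++ Y
      refine ⟨X, W, [], by rw [h4, List.append_nil], Nz_pre (Y := V) (by rw [← h6]; exact h2), fun hI => h3 ?_⟩
      rw [← hx'] at hI
      rw [In_iff] at hI ⊢
      intro i hi
      rcases Nat.lt_or_ge W.length i with hk | hk
      · obtain ⟨k, rfl⟩ : ∃ k, i = W.length + k := ⟨i - W.length, by omega⟩
        have hlen : Q.length = W.length + V.length := by rw [h6, List.length_append]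
        have hlenZ : Z.length = V.length + Y.length := by rw [h7, List.length_append]
        obtain ⟨c, hc, -, hf⟩ := drop_frame' Q W.length
        have e1 : Q.drop W.length = V := by rw [h6, List.drop_left' rfl]
        have e2 := hf k
        rw [e1] at e2
        have e3 : vx oo up Z k = vx oo up V k := by rw [h7]; exact vx_append (by omega)
        have e4 : vx oo up Q W.length = vx oo up W W.length := by rw [h6]; exact vx_append (by omega)
        obtain ⟨a1, a2⟩ := hr0 k (by omega)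
        rw [e3] at a1 a2
        obtain ⟨b1, b2⟩ := mul_coord hc a1 a2
        obtain ⟨c1, c2⟩ := hI W.length le_rfl
        rw [e2, e4, Prod.fst_add, Prod.snd_add]
        rw [abs_le] at *
        rw [abs_le]
        refine ⟨⟨?_, ?_⟩, ?_, ?_⟩ <;> omega
      · have e3 : vx oo up Q i = vx oo up W i := by rw [h6]; exact vx_append (by omega)
        rw [e3]
        obtain ⟨c1, c2⟩ := hI i hk
        constructor <;> omega

/-- **long factors without rich window of the level b + d, good tip of the scale b** -/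
theorem lBad {κ : ℝ} {C : ℕ} (hR : RegZ κ C) (e : ℕ) : ∀ (η : ℝ) (a c1 : ℕ), 0 < η → ∃ J0 b0 : ℕ, ∀ b J : ℕ, b0 ≤ b →
    J0 ≤ J → gf {L | L ∈ WL (b + J) ∧ L ∈ GT b η ∧ ∃ n : ℕ, 2 ^ J ≤ n * 2 ^ c1 ∧ L ∈ Lz κ C (b + e) n} ≤
      ENNReal.ofReal (Ub b / (2 : ℝ) ^ (a * J)) * Xb b := by
  intro η a c1 hη
  obtain ⟨C1, c, b1, J1, n1, hC1, hc, hreg⟩ := hR
  obtain ⟨C2, lam, j0, hC2, hlam, htip⟩ := tipxJ η hη
  obtain ⟨C3, c3, hC3, hc3, hwide⟩ := wide_range
  obtain ⟨D, hD, hup⟩ := EnsW.ref_up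
  obtain ⟨E, hE, hXE⟩ := Xb_pow
  obtain ⟨x0, hx0⟩ : ∃ x0 : ℝ, x0 = (Xb 0).toReal := ⟨_, rfl⟩
  have hx00 : 0 ≤ x0 := by rw [hx0]; exact ENNReal.toReal_nonneg
  have hX0 : Xb 0 = ENNReal.ofReal x0 := by rw [hx0]; exact (ENNReal.ofReal_toReal (Xb_ne_top 0)).symm
  obtain ⟨A, hA⟩ : ∃ A : ℕ, (2 : ℝ) ^ (a + 1) * D < lam ^ A := pow_unbounded_of_one_lt _ hlam
  obtain ⟨d, hd⟩ : ∃ d : ℕ, d = c1 + 5 := ⟨_, rfl⟩
  have hl2 : 0 < Real.log 2 := Real.log_pos one_lt_two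
  -- the numbers
  obtain ⟨Ja, hJa⟩ : ∃ Ja : ℕ, 12 * C2 * D ^ 3 < 2 ^ Ja := pow_unbounded_of_one_lt _ one_lt_two
  have h2a : (1 : ℝ) ≤ 2 ^ a := one_le_pow₀ (by norm_num)
  obtain ⟨Jb, hJb⟩ := num (12 * (C2 * C3 * D ^ 3)) (D * 2 ^ a) c3 d (by positivity)
    (one_le_mul_of_one_le_of_one_le hD h2a) hc3
  obtain ⟨Jc, hJc⟩ := num (12 * (3 * C2 * C1 ^ 12 * D ^ (12 + e))) (C2 ^ A * (C1 * D) * 2 ^ a) (c * Real.log 2) d (by positivity)
    (one_le_mul_of_one_le_of_one_le (one_le_mul_of_one_le_of_one_le (one_le_pow₀ hC2)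
      (one_le_mul_of_one_le_of_one_le hC1 hD)) h2a) (by positivity)
  obtain ⟨Jd, hJd⟩ := num (12 * (3 * C1 ^ 12 * D ^ (12 + e) * E ^ j0 * x0)) (E ^ A * (C1 * D) * 2 ^ a) (c * Real.log 2) d
    (by positivity)
    (one_le_mul_of_one_le_of_one_le (one_le_mul_of_one_le_of_one_le (one_le_pow₀ hE)
      (one_le_mul_of_one_le_of_one_le hC1 hD)) h2a) (by positivity)
  refine ⟨J1 + Ja + Jb + Jc + Jd + d + n1 + 1, b1, fun b J hb hJ => ?_⟩
  obtain ⟨N, hN⟩ : ∃ N : ℕ, N = 2 ^ (J - d) := ⟨_, rfl⟩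
  have hN1 : 1 ≤ N := by rw [hN]; exact Nat.one_le_two_pow
  have hNn : n1 ≤ N := by
    rw [hN]
    exact (show n1 ≤ J - d by omega).trans Nat.lt_two_pow_self.le
  have hNr : (N : ℝ) = 2 ^ (J - d) := by rw [hN]; push_cast; rfl
  have hUb : (0 : ℝ) < Ub b := Ub_pos b
  obtain ⟨K, hK⟩ : ∃ K : ℕ, K = b + J := ⟨_, rfl⟩
  obtain ⟨W, hW⟩ : ∃ W : ℝ≥0∞, W = ENNReal.ofReal (Ub b) * Xb b ^ 2 := ⟨_, rfl⟩
  obtain ⟨g, hg⟩ : ∃ g : ℝ, g = C1 ^ (J + 12) * (2 : ℝ) ^ (-(c * N)) * D ^ (J + 12 + e) := ⟨_, rfl⟩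
  have hg0 : 0 ≤ g := by rw [hg]; positivity
  have hup' : ∀ i, ENNReal.ofReal (Ub (b + i)) * Xb (b + i) ^ 2 ≤ ENNReal.ofReal (D ^ i) * W := by
    intro i
    rw [hW]
    exact hup b i
  -- the words of the box
  have hbox : ∀ K' : ℕ, K' ≤ b + (J + 12) → gf {t | t ∈ WL K' ∧ t ∈ Lz κ C (b + e) N} ≤
      ENNReal.ofReal (3 * g) * W := by
    intro K' hK'
    have h1 : gf {t | t ∈ WL K' ∧ t ∈ Lz κ C (b + e) N} ≤ gf {t | t ∈ WL ((b + e) + (J + 12)) ∧ t ∈ Lz κ C (b + e) N} :=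
      gf_mono fun t ht => ⟨WL_up (by omega) ht.1, ht.2⟩
    have h2 := hreg (b + e) (J + 12) N (by omega) (by omega) hNn
    have h3 : ENNReal.ofReal (C1 ^ (J + 12) * (2 : ℝ) ^ (-(c * N)) * Ub ((b + e) + (J + 12))) * Xb ((b + e) + (J + 12)) ^ 2 ≤
        ENNReal.ofReal g * W := by
      rw [hg, show (b + e) + (J + 12) = b + (J + 12 + e) by ring]
      exact mulW (by positivity) (hup' (J + 12 + e))
    refine (h1.trans (h2.trans h3)).trans (mul_le_mul' (ENNReal.ofReal_le_ofReal ?_) le_rfl)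
    linarith
  -- the class
  obtain ⟨P, hP⟩ : ∃ P : Set (List Bool), P = {L | L ∈ WL K ∧ L ∈ Lz κ C (b + e) (16 * N)} := ⟨_, rfl⟩
  have hrev : gf {L | L ∈ WL (b + J) ∧ L ∈ GT b η ∧ ∃ n : ℕ, 2 ^ J ≤ n * 2 ^ c1 ∧ L ∈ Lz κ C (b + e) n} ≤
      gf (P ∩ GT b η) := by
    refine gf_mono ?_
    rintro L ⟨h2, h3, n, h5, h6⟩
    refine ⟨?_, h3⟩
    rw [hP, hK]
    refine ⟨h2, Lz_anti ?_ h6⟩
    have e1 : 2 ^ J = 32 * N * 2 ^ c1 := by
      rw [hN, show (32 : ℕ) = 2 ^ 5 by norm_num, ← pow_add, ← pow_add]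
      congr 1
      omega
    rw [e1] at h5
    have := Nat.le_of_mul_le_mul_right h5 (by positivity)
    omega
  -- the main bound
  have hmain : gf (P ∩ GT b η) * Xb b ≤ ENNReal.ofReal ((2 ^ (a * J))⁻¹ / 4) * W := by
    have hpow : (0 : ℝ) < 2 ^ (a * J) := by positivity
    have hexp : (2 : ℝ) ^ (-(c * N)) = Real.exp (-(c * Real.log 2 * 2 ^ (J - d))) := by
      rw [Real.rpow_def_of_pos (by norm_num), hNr]
      congr 1
      ring
    by_cases hbj : A * J + 1 + j0 ≤ b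
    · obtain ⟨w, hw⟩ : ∃ w : ℝ, w = C3 * Real.exp (-(c3 * N)) := ⟨_, rfl⟩
      have hw0 : 0 ≤ w := by rw [hw]; positivity
      have h1 := htip b (A * J + 1) K P {L | L ∈ WL K ∧ L ∈ Lz κ C (b + e) (4 * N)} (WdR (N * 2 ^ b)) w
        (ENNReal.ofReal (3 * g) * W) (by omega) hbj (by omega) (by rw [hP]; exact fun L hL => hL.1)
        (fun A Z1 Z2 hL h2 h3 h4 h5 => by
          rw [hP] at hL
          refine ⟨WL_pre (Z := Z2) (by rw [List.append_assoc]; exact hL.1), Lz_right _ (Lz_cutD h5 ?_ hL.2)⟩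
          have e1 : 2 ^ b ≤ 2 ^ (b + e) := Nat.pow_le_pow_right (by norm_num) (by omega)
          have e2 : N * 2 ^ b ≤ N * 2 ^ (b + e) := Nat.mul_le_mul_left _ e1
          have e3 : 4 * N * 2 ^ (b + e) = 4 * (N * 2 ^ (b + e)) := by ring
          have e4 : 16 * N * 2 ^ (b + e) = 16 * (N * 2 ^ (b + e)) := by ring
          omega) hw0
        ((gf_mono (Q := {Z | Z ∈ BU ∧ hgt Z ≤ 2 ^ (b + 1) ∧ Z ∈ WdR (N * 2 ^ b)}) (fun Z hZ =>
          ⟨hZ.1, hZ.2.1.trans (Nat.pow_le_pow_right (by norm_num) (by omega)), hZ.2.2⟩)).trans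
          (by rw [hw]; exact hwide b N))
        ((gf_mono (Q := {t | t ∈ WL (K + 3) ∧ t ∈ Lz κ C (b + e) N}) (by
          rintro t ⟨ht, L, hL, x, hx, rfl⟩
          refine ⟨EnsW.glue_WL (Nat.pow_le_pow_right (by norm_num) (by omega)) hL.1 hx ht, ?_⟩
          exact Lz_right _ (Lz_anti (by omega) hL.2))).trans (hbox (K + 3) (by omega)))
      refine h1.trans ?_
      have h2 : ENNReal.ofReal (C2 * ((lam ^ (A * J + 1))⁻¹ + w) * Ub K) * Xb K ^ 2 ≤
          ENNReal.ofReal (C2 * ((lam ^ (A * J + 1))⁻¹ + w) * D ^ (J + 3)) * W := by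
        have hq : 0 ≤ C2 * ((lam ^ (A * J + 1))⁻¹ + w) := by positivity
        rw [hK]
        refine (mulW hq (hup' J)).trans (mul_le_mul' (ENNReal.ofReal_le_ofReal ?_) le_rfl)
        exact mul_le_mul_of_nonneg_left (pow_le_pow_right₀ hD (by omega)) hq
      refine (add_le_add h2 le_rfl).trans ?_
      rw [← mul_assoc, ← add_mul, ← ENNReal.ofReal_mul (by positivity), ← ENNReal.ofReal_add (by positivity) (by positivity)]
      refine mul_le_mul' (ENNReal.ofReal_le_ofReal ?_) le_rfl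
      have t1 := term1 (a := a) (J := J) hC2 hlam hD hA hJa (by omega)
      have t2 : C2 * w * D ^ (J + 3) ≤ (2 ^ (a * J))⁻¹ / 12 := by
        refine fin (hJb J (by omega)) ?_
        rw [hw, hNr]
        ring
      have t3 : C2 ^ (A * J + 1) * (3 * g) ≤ (2 ^ (a * J))⁻¹ / 12 := by
        refine fin (hJc J (by omega)) ?_
        rw [hg, hexp, mul_pow, ← pow_mul, mul_pow]
        ring
      calc C2 * ((lam ^ (A * J + 1))⁻¹ + w) * D ^ (J + 3) + C2 ^ (A * J + 1) * (3 * g)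
          = C2 * (lam ^ (A * J + 1))⁻¹ * D ^ (J + 3) + C2 * w * D ^ (J + 3) + C2 ^ (A * J + 1) * (3 * g) := by ring
        _ ≤ (2 ^ (a * J))⁻¹ / 12 + (2 ^ (a * J))⁻¹ / 12 + (2 ^ (a * J))⁻¹ / 12 := by linarith
        _ = _ := by ring
    · -- no room: the trivial bound
      have h1 : gf (P ∩ GT b η) ≤ ENNReal.ofReal (3 * g) * W := by
        refine (gf_mono (Q := {t | t ∈ WL K ∧ t ∈ Lz κ C (b + e) N}) ?_).trans (hbox K (by omega))
        rintro L ⟨hL, -⟩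
        rw [hP] at hL
        exact ⟨hL.1, Lz_anti (by omega) hL.2⟩
      have h2 : Xb b ≤ ENNReal.ofReal (E ^ (A * J + j0) * x0) := by
        have h3 := hXE 0 b
        rw [Nat.zero_add, hX0, ← ENNReal.ofReal_mul (by positivity)] at h3
        refine h3.trans (ENNReal.ofReal_le_ofReal ?_)
        exact mul_le_mul_of_nonneg_right (pow_le_pow_right₀ hE (by omega)) hx00
      refine (mul_le_mul' h1 h2).trans ?_
      rw [mul_right_comm, ← ENNReal.ofReal_mul (by positivity)]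
      refine mul_le_mul' (ENNReal.ofReal_le_ofReal ?_) le_rfl
      have t4 : 3 * g * (E ^ (A * J + j0) * x0) ≤ (2 ^ (a * J))⁻¹ / 12 := by
        refine fin (hJd J (by omega)) ?_
        rw [hg, hexp, mul_pow, ← pow_mul, mul_pow]
        ring
      have : (0 : ℝ) ≤ (2 ^ (a * J))⁻¹ := by positivity
      linarith
  -- the end
  have hXz : Xb b ≠ 0 := Xb_ne_zero b
  have hXt : Xb b ≠ ∞ := Xb_ne_top b
  have h1 : gf (P ∩ GT b η) ≤ ENNReal.ofReal ((2 ^ (a * J))⁻¹ / 4 * Ub b) * Xb b := by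
    refine (ENNReal.mul_le_mul_iff_left hXz hXt).1 (hmain.trans (le_of_eq ?_))
    rw [hW, ENNReal.ofReal_mul (by positivity)]
    ring
  refine hrev.trans (h1.trans (mul_le_mul' (ENNReal.ofReal_le_ofReal ?_) le_rfl))
  have h4 : (0 : ℝ) ≤ (2 ^ (a * J))⁻¹ := by positivity
  calc (2 ^ (a * J))⁻¹ / 4 * Ub b ≤ (2 ^ (a * J))⁻¹ * Ub b := mul_le_mul_of_nonneg_right (by linarith) hUb.le
    _ = _ := by rw [div_eq_mul_inv, mul_comm]

end ARM

end HexObs
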