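import Pool.Agent.ARM.Mom
import Pool.Agent.ARM.Conf
import Pool.Agent.TIP.RevM
import Pool.Agent.TIP.TipXJ

/-!
# ARM, row B3' (helper63): words with a good tip, the tail of the length, the constant explicit in the box

* `wl_tail` : long words of a box;
* **`l_plain`**, **`l_tail`** : words of the box of the scale b + J with a good tip of the scale b;
* **`lMass_tail`**, **`lMassJ`** : the tail in any unit, the moments;
* **`yMassJ : YMassJ`** : the parts behind a good tip.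
-/

set_option autoImplicit false

namespace HexObs

namespace ARM

open Finset TS SDN NTW HexObs.SIM NTA TIP

open scoped ENNReal

/-- **long words of a box** -/
lemma wl_tail (Q : ℕ) : ∃ A : ℝ, 1 ≤ A ∧ ∀ (K : ℕ) (lam : ℝ), 0 < lam →
    gf {t | t ∈ WL K ∧ lam * ml K ≤ (t.length : ℝ)} ≤ ENNReal.ofReal (A / lam ^ Q) * (ENNReal.ofReal (Ub K) * Xb K ^ 2) := by
  obtain ⟨C1, hC1, hT⟩ := NTA.tot_WL
  obtain ⟨C2, hC2, hI⟩ := NTA.ti_M
  obtain ⟨A, hA, hI⟩ := hI Q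
  obtain ⟨M, hM, hmu⟩ := mZ_le_ml
  have hM0 : 0 < M := by linarith
  have hMQ : 1 ≤ M ^ Q := one_le_pow₀ hM
  refine ⟨(A + C1) * M ^ Q, by nlinarith, fun K lam hl => ?_⟩
  have hml : 0 < ml K := ml_pos K
  have hlQ : 0 < lam ^ Q := by positivity
  rcases le_or_gt M lam with h1 | h1
  · have hl1 : 1 ≤ lam / M := by
      rw [le_div_iff₀ hM0]
      linarith
    have h2 := hI K K (lam / M) le_rfl hl1
    refine (gf_mono fun t ht => ?_).trans (h2.trans (mul_le_mul' (ENNReal.ofReal_le_ofReal ?_) le_rfl))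
    · refine ⟨ht.1, 0, t.length, bx_all ht.1, ?_⟩
      rw [Nat.cast_zero, sub_zero]
      refine le_trans ?_ ht.2
      calc lam / M * PW.mZ (2 ^ K) ≤ lam / M * (M * ml K) := mul_le_mul_of_nonneg_left (hmu K) (by positivity)
        _ = lam * ml K := by field_simp
    · rw [Nat.sub_self, pow_zero, mul_one]
      have e : A / (lam / M) ^ Q = A * M ^ Q / lam ^ Q := by
        rw [div_pow]
        field_simp
      rw [e]
      gcongr
      linarith
  · refine (gf_mono fun t ht => ht.1).trans ((hT K).trans (mul_le_mul' (ENNReal.ofReal_le_ofReal ?_) le_rfl))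
    rw [le_div_iff₀ hlQ]
    have h3 : lam ^ Q ≤ M ^ Q := pow_le_pow_left₀ hl.le h1.le Q
    calc C1 * lam ^ Q ≤ C1 * M ^ Q := by gcongr
      _ ≤ _ := by gcongr; linarith

lemma Xb_gr : ∃ C : ℝ, 1 ≤ C ∧ ∀ b : ℕ, Xb b ≤ ENNReal.ofReal (C ^ (b + 1)) := by
  obtain ⟨D, hD, hx⟩ := Xb_pow
  obtain ⟨X0, hX0, hX0'⟩ : ∃ X0 : ℝ, 0 ≤ X0 ∧ Xb 0 = ENNReal.ofReal X0 :=
    ⟨(Xb 0).toReal, ENNReal.toReal_nonneg, (ENNReal.ofReal_toReal (Xb_ne_top 0)).symm⟩
  refine ⟨D + X0, by linarith, fun b => ?_⟩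
  have h1 := hx 0 b
  rw [zero_add, hX0', ← ENNReal.ofReal_mul (by positivity)] at h1
  refine h1.trans (ENNReal.ofReal_le_ofReal ?_)
  rw [pow_succ]
  have h2 : D ^ b ≤ (D + X0) ^ b := pow_le_pow_left₀ (by linarith) (by linarith) _
  exact mul_le_mul h2 (by linarith) hX0 (by positivity)

/-- division by the tip -/
lemma div_tip {a : ℝ≥0∞} {c : ℝ} {b : ℕ} (h : a * Xb b ≤ ENNReal.ofReal c * Xb b ^ 2) : a ≤ ENNReal.ofReal c * Xb b := by
  refine (ENNReal.mul_le_mul_iff_left (Xb_ne_zero b) (Xb_ne_top b)).1 (h.trans (le_of_eq ?_))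
  rw [sq, mul_assoc]

/-- **the plain mass** -/
theorem l_plain {η : ℝ} (hη : 0 < η) : ∃ C : ℝ, 1 ≤ C ∧ ∀ b J : ℕ,
    gf (WL (b + J) ∩ GT b η) ≤ ENNReal.ofReal (C ^ (J + 1) * Ub b) * Xb b := by
  obtain ⟨C, hC, h⟩ := tip_WL η hη
  obtain ⟨D, hD, hup⟩ := EnsW.ref_up
  refine ⟨(C + 1) * D, by nlinarith, fun b J => div_tip ?_⟩
  have hU : 0 < Ub b := Ub_pos b
  refine (h (b + J) b (by omega)).trans ?_
  rw [ENNReal.ofReal_mul hC.le, mul_assoc]
  refine (mul_le_mul_right (hup b J) _).trans ?_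
  rw [← mul_assoc, ← mul_assoc, ← ENNReal.ofReal_mul hC.le, ← ENNReal.ofReal_mul (by positivity)]
  refine mul_le_mul_left (ENNReal.ofReal_le_ofReal (mul_le_mul_of_nonneg_right ?_ hU.le)) _
  rw [mul_pow]
  have h1 : C + 1 ≤ (C + 1) ^ (J + 1) := le_self_pow₀ (by linarith) (by omega)
  have h2 : D ^ J ≤ D ^ (J + 1) := pow_le_pow_right₀ hD (by omega)
  have h3 : 0 < D ^ J := by positivity
  calc C * D ^ J ≤ (C + 1) * D ^ J := by nlinarith
    _ ≤ _ := mul_le_mul h1 h2 h3.le (by positivity)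

/-- the box of the glued word: the long ones -/
lemma big_tail (Q : ℕ) : ∃ A D : ℝ, 1 ≤ A ∧ 1 ≤ D ∧ ∀ b J s : ℕ,
    gf {t | t ∈ WL (b + J + 3) ∧ 2 ^ s / 2 * ml (b + J) ≤ (t.length : ℝ)} ≤
      ENNReal.ofReal (A * D ^ (J + 3) / 2 ^ (Q * s) * Ub b) * Xb b ^ 2 := by
  obtain ⟨A, hA, h⟩ := wl_tail Q
  obtain ⟨D, hD, hup⟩ := EnsW.ref_up
  refine ⟨A * 32 ^ Q, D, ?_, hD, fun b J s => ?_⟩
  · have : (1 : ℝ) ≤ 32 ^ Q := one_le_pow₀ (by norm_num)
    nlinarith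
  have hU : 0 < Ub b := Ub_pos b
  have hm : ml (b + J + 3) = 16 * ml (b + J) := by
    rw [ml_add, show (4 / 3 : ℝ) * ((3 : ℕ) : ℝ) = ((4 : ℕ) : ℝ) by push_cast; norm_num, Real.rpow_natCast]
    norm_num
  have h1 := h (b + J + 3) (2 ^ s / 32) (by positivity)
  have e1 : (2 : ℝ) ^ s / 32 * ml (b + J + 3) = 2 ^ s / 2 * ml (b + J) := by
    rw [hm]
    ring
  rw [e1] at h1
  refine h1.trans ?_
  have h2 := hup b (J + 3)
  rw [← add_assoc] at h2
  refine (mul_le_mul_right h2 _).trans (le_of_eq ?_)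
  rw [← mul_assoc, ← mul_assoc, ← ENNReal.ofReal_mul (by positivity), ← ENNReal.ofReal_mul (by positivity)]
  congr 2
  rw [div_pow, ← pow_mul, mul_comm s Q]
  field_simp

/-- **the tail of the length** -/
theorem l_tail {η : ℝ} (hη : 0 < η) (q : ℕ) : ∃ C : ℝ, 1 ≤ C ∧ ∀ b J s : ℕ,
    gf {L | L ∈ WL (b + J) ∧ L ∈ GT b η ∧ 2 ^ s * ml (b + J) ≤ (L.length : ℝ)} ≤
      ENNReal.ofReal (C ^ (J + 1) * Ub b / 2 ^ (q * s)) * Xb b := by
  obtain ⟨Cp, hCp, hplain⟩ := l_plain hη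
  obtain ⟨CX, hCX, hX⟩ := Xb_gr
  obtain ⟨Ct, lam, j0, hCt, hlam, htip⟩ := tipxJ η hη
  obtain ⟨Ab, hAb, hbrd⟩ := brd_tail q
  obtain ⟨D0, hD0, hup⟩ := EnsW.ref_up
  obtain ⟨a, ha⟩ := pow_unbounded_of_one_lt ((2 : ℝ) ^ q) hlam
  obtain ⟨c, hc⟩ := pow_unbounded_of_one_lt (Ct ^ a) (one_lt_two : (1 : ℝ) < 2)
  obtain ⟨c', hc'⟩ := pow_unbounded_of_one_lt (CX ^ a) (one_lt_two : (1 : ℝ) < 2)
  obtain ⟨Q, hQ⟩ : ∃ Q : ℕ, Q = q + c + c' := ⟨_, rfl⟩
  obtain ⟨A, D1, hA, hD1, hbig⟩ := big_tail Q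
  have hl0 : 0 < lam := by linarith
  have ha1 : 1 ≤ a := by
    by_contra hcon
    have : a = 0 := by omega
    subst this
    rw [pow_zero] at ha
    have : (1 : ℝ) ≤ 2 ^ q := one_le_pow₀ (by norm_num)
    linarith
  obtain ⟨D, hD⟩ : ∃ D : ℝ, D = D0 + D1 := ⟨_, rfl⟩
  have hDD : 1 ≤ D := by rw [hD]; linarith
  have hDp : 0 < D := by linarith
  obtain ⟨E1, hE1⟩ : ∃ E1 : ℝ, E1 = Ct * (1 + Ab * 2 ^ q) := ⟨_, rfl⟩
  obtain ⟨E3, hE3⟩ : ∃ E3 : ℝ, E3 = CX ^ j0 := ⟨_, rfl⟩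
  have pE1 : 0 < E1 := by rw [hE1]; positivity
  have pE3 : 0 < E3 := by rw [hE3]; positivity
  have hA0 : 0 < A := by linarith
  obtain ⟨S, hS⟩ : ∃ S : ℝ, S = E1 + A + E3 * A + 1 := ⟨_, rfl⟩
  have hS1 : 1 ≤ S := by rw [hS]; have : 0 < E3 * A := by positivity
                         linarith
  obtain ⟨G, hG⟩ : ∃ G : ℝ, G = S * D ^ 3 + Cp := ⟨_, rfl⟩
  have hSD : 0 < S * D ^ 3 := by positivity
  have hG1 : 1 ≤ G := by rw [hG]; linarith
  refine ⟨G, hG1, fun b J s => ?_⟩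
  have hU : 0 < Ub b := Ub_pos b
  have pt : (0 : ℝ) < 2 ^ (q * s) := by positivity
  have hfin : ∀ E : ℝ, 0 ≤ E → E ≤ S → E * D ^ (J + 3) ≤ G ^ (J + 1) := by
    intro E hE0 hE
    have h1 : S ≤ S ^ (J + 1) := le_self_pow₀ hS1 (by omega)
    have h2 : D ^ (J + 3) ≤ (D ^ 3) ^ (J + 1) := by
      rw [← pow_mul]
      exact pow_le_pow_right₀ hDD (by omega)
    calc E * D ^ (J + 3) ≤ S ^ (J + 1) * (D ^ 3) ^ (J + 1) :=
          mul_le_mul (hE.trans h1) h2 (by positivity) (by positivity)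
      _ = (S * D ^ 3) ^ (J + 1) := by rw [mul_pow]
      _ ≤ G ^ (J + 1) := pow_le_pow_left₀ hSD.le (by rw [hG]; linarith) _
  have hD1D : D1 ^ (J + 3) ≤ D ^ (J + 3) := pow_le_pow_left₀ (by linarith) (by rw [hD]; linarith) _
  have hD0D : D0 ^ J ≤ D ^ (J + 3) :=
    (pow_le_pow_left₀ (by linarith) (by rw [hD]; linarith) _).trans (pow_le_pow_right₀ hDD (by omega))
  have pDJ : 0 < D ^ (J + 3) := by positivity
  rcases Nat.eq_zero_or_pos s with hs | hs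
  · subst hs
    refine (gf_mono (fun L hL => ⟨hL.1, hL.2.1⟩ : _ ⊆ WL (b + J) ∩ GT b η)).trans ((hplain b J).trans ?_)
    refine mul_le_mul_left (ENNReal.ofReal_le_ofReal ?_) _
    rw [mul_zero, pow_zero, div_one]
    refine mul_le_mul_of_nonneg_right (pow_le_pow_left₀ (by linarith) ?_ _) hU.le
    rw [hG]
    linarith
  have hbg := hbig b J s
  rcases Nat.lt_or_ge b (a * s + j0) with hbj | hbj
  · -- no room
    have h4 : gf {L | L ∈ WL (b + J) ∧ L ∈ GT b η ∧ 2 ^ s * ml (b + J) ≤ (L.length : ℝ)} ≤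
        gf {t | t ∈ WL (b + J + 3) ∧ 2 ^ s / 2 * ml (b + J) ≤ (t.length : ℝ)} := by
      refine gf_mono ?_
      rintro L ⟨a1, -, a3⟩
      refine ⟨⟨a1.1, fun i hi dir => (a1.2 i hi dir).trans (pow_le_pow_right₀ (by norm_num) (by omega))⟩, le_trans ?_ a3⟩
      have := ml_pos (b + J)
      have h2 : (0 : ℝ) < 2 ^ s := by positivity
      nlinarith
    have h5 : Xb b ≤ ENNReal.ofReal (E3 * 2 ^ (c' * s)) := by
      refine (hX b).trans (ENNReal.ofReal_le_ofReal ?_)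
      calc CX ^ (b + 1) ≤ CX ^ (j0 + a * s) := pow_le_pow_right₀ hCX (by omega)
        _ = E3 * (CX ^ a) ^ s := by rw [pow_add, pow_mul, hE3]
        _ ≤ E3 * (2 ^ c') ^ s := mul_le_mul_of_nonneg_left (pow_le_pow_left₀ (by positivity) hc'.le s) pE3.le
        _ = _ := by rw [← pow_mul]
    refine h4.trans (hbg.trans ?_)
    rw [sq, ← mul_assoc]
    refine mul_le_mul_left ?_ _
    refine (mul_le_mul_right h5 _).trans ?_
    rw [← ENNReal.ofReal_mul (by positivity)]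
    refine ENNReal.ofReal_le_ofReal ?_
    have e1 : (2 : ℝ) ^ (Q * s) = 2 ^ (q * s) * 2 ^ (c * s) * 2 ^ (c' * s) := by
      rw [← pow_add, ← pow_add, hQ]
      congr 1
      ring
    have e2 : (0 : ℝ) < 2 ^ (c' * s) := by positivity
    have e3 : (1 : ℝ) ≤ 2 ^ (c * s) := one_le_pow₀ (by norm_num)
    have e4 : A * D1 ^ (J + 3) / 2 ^ (Q * s) * Ub b * (E3 * 2 ^ (c' * s)) =
        E3 * A * D1 ^ (J + 3) * Ub b / (2 ^ (q * s) * 2 ^ (c * s)) := by
      rw [e1]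
      field_simp
    rw [e4]
    have h6 : E3 * A * D1 ^ (J + 3) ≤ G ^ (J + 1) := by
      refine le_trans (mul_le_mul_of_nonneg_left hD1D (by positivity)) (hfin _ (by positivity) ?_)
      rw [hS]
      linarith
    calc E3 * A * D1 ^ (J + 3) * Ub b / (2 ^ (q * s) * 2 ^ (c * s)) ≤ E3 * A * D1 ^ (J + 3) * Ub b / 2 ^ (q * s) := by
          refine div_le_div_of_nonneg_left (by positivity) pt ?_
          nlinarith
      _ ≤ _ := by gcongr
  · -- the tip lemma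
    have hj1 : 1 ≤ a * s := Nat.mul_pos ha1 hs
    refine div_tip ?_
    have hmK : 0 < ml (b + J) := ml_pos (b + J)
    have h4 := htip b (a * s) (b + J) {L | L ∈ WL (b + J) ∧ 2 ^ s * ml (b + J) ≤ (L.length : ℝ)}
      {L | L ∈ WL (b + J) ∧ 2 ^ s / 2 * ml (b + J) ≤ (L.length : ℝ)} {Z : List Bool | 2 ^ s / 2 * ml (b + J) ≤ (Z.length : ℝ)}
      (Ab * 2 ^ q / 2 ^ (q * s)) _ hj1 hbj (by omega) (fun L hL => hL.1)
      (by
        rintro A' Z1 Z2 ⟨h1, h2⟩ - - - h5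
        refine ⟨⟨?_, fun i hi dir => ?_⟩, ?_⟩
        · have := SA_take h1.1 (A' ++ Z1).length
          rwa [← List.append_assoc, List.take_left'] at this
          rfl
        · have := h1.2 i (by rw [← List.append_assoc, List.length_append]; omega) dir
          rwa [← List.append_assoc, vx_append (by omega)] at this
        · have h9 : ((Z1 ++ Z2).length : ℝ) < 2 ^ s / 2 * ml (b + J) := not_le.1 h5
          rw [List.length_append] at h2
          push_cast at h2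
          have h10 : ((A' ++ Z1).length : ℝ) = A'.length + Z1.length := by rw [List.length_append]; push_cast; ring
          have h11 : (0 : ℝ) ≤ Z1.length := Nat.cast_nonneg _
          rw [h10]
          linarith)
      (by positivity)
      (by
        refine le_trans (gf_mono ?_) ((hbrd b (2 ^ s / 2) (by positivity)).trans (le_of_eq ?_))
        · rintro Z ⟨a1, a2, a3⟩
          refine ⟨a1, a2, ?_⟩
          have a4 : ml b ≤ ml (b + J) := ml_le (by omega)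
          have a5 : (0 : ℝ) < 2 ^ s := by positivity
          have a6 : 2 ^ s / 2 * ml (b + J) ≤ (Z.length : ℝ) := a3
          nlinarith
        · rw [div_pow, ← pow_mul, mul_comm s q]
          congr 2
          field_simp)
      (by
        refine (gf_mono ?_).trans hbg
        rintro t ⟨h1, L, ⟨hL, hl⟩, x, hx, rfl⟩
        refine ⟨EnsW.glue_WL (K := b + J) (R := 2 ^ b) (Nat.pow_le_pow_right (by norm_num) (by omega)) hL hx h1, ?_⟩
        have h2 : (L.length : ℝ) ≤ ((L ++ x).length : ℝ) := by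
          rw [List.length_append]
          push_cast
          have : (0 : ℝ) ≤ x.length := Nat.cast_nonneg _
          linarith
        exact le_trans hl h2)
    have h5 : gf {L | L ∈ WL (b + J) ∧ L ∈ GT b η ∧ 2 ^ s * ml (b + J) ≤ (L.length : ℝ)} ≤
        gf ({L | L ∈ WL (b + J) ∧ 2 ^ s * ml (b + J) ≤ (L.length : ℝ)} ∩ GT b η) :=
      gf_mono fun L hL => ⟨⟨hL.1, hL.2.2⟩, hL.2.1⟩
    have h6 : Ct * ((lam ^ (a * s))⁻¹ + Ab * 2 ^ q / 2 ^ (q * s)) ≤ E1 / 2 ^ (q * s) := by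
      have e1 : (2 : ℝ) ^ (q * s) ≤ lam ^ (a * s) := by
        rw [pow_mul, pow_mul]
        exact pow_le_pow_left₀ (by positivity) ha.le s
      have e2 : (lam ^ (a * s))⁻¹ ≤ (2 ^ (q * s))⁻¹ := inv_anti₀ pt e1
      have e3 : E1 / 2 ^ (q * s) = Ct * ((2 ^ (q * s))⁻¹ + Ab * 2 ^ q / 2 ^ (q * s)) := by
        rw [hE1]
        field_simp
      rw [e3]
      exact mul_le_mul_of_nonneg_left (by linarith) (by linarith)
    refine (mul_le_mul_left h5 _).trans (h4.trans ?_)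
    have k1 : ENNReal.ofReal (Ct * ((lam ^ (a * s))⁻¹ + Ab * 2 ^ q / 2 ^ (q * s)) * Ub (b + J)) * Xb (b + J) ^ 2 ≤
        ENNReal.ofReal (E1 * D ^ (J + 3) / 2 ^ (q * s) * Ub b) * Xb b ^ 2 := by
      rw [ENNReal.ofReal_mul (by positivity), mul_assoc]
      refine (mul_le_mul' (ENNReal.ofReal_le_ofReal h6) (hup b J)).trans ?_
      rw [← mul_assoc, ← mul_assoc, ← ENNReal.ofReal_mul (by positivity), ← ENNReal.ofReal_mul (by positivity)]
      refine mul_le_mul_left (ENNReal.ofReal_le_ofReal ?_) _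
      have e1 : E1 * D ^ (J + 3) / 2 ^ (q * s) = E1 / 2 ^ (q * s) * D ^ (J + 3) := by ring
      rw [e1]
      gcongr
    have k2 : ENNReal.ofReal (Ct ^ (a * s)) * (ENNReal.ofReal (A * D1 ^ (J + 3) / 2 ^ (Q * s) * Ub b) * Xb b ^ 2) ≤
        ENNReal.ofReal (A * D ^ (J + 3) / 2 ^ (q * s) * Ub b) * Xb b ^ 2 := by
      rw [← mul_assoc, ← ENNReal.ofReal_mul (by positivity)]
      refine mul_le_mul_left (ENNReal.ofReal_le_ofReal ?_) _
      have e1 : Ct ^ (a * s) ≤ 2 ^ (c * s) := by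
        rw [pow_mul, pow_mul]
        exact pow_le_pow_left₀ (by positivity) hc.le s
      have e2 : (2 : ℝ) ^ (Q * s) = 2 ^ (q * s) * 2 ^ (c * s) * 2 ^ (c' * s) := by
        rw [← pow_add, ← pow_add, hQ]
        congr 1
        ring
      have e3 : (1 : ℝ) ≤ 2 ^ (c' * s) := one_le_pow₀ (by norm_num)
      have e4 : (0 : ℝ) < 2 ^ (c * s) := by positivity
      rw [e2]
      calc Ct ^ (a * s) * (A * D1 ^ (J + 3) / (2 ^ (q * s) * 2 ^ (c * s) * 2 ^ (c' * s)) * Ub b) ≤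
            2 ^ (c * s) * (A * D ^ (J + 3) / (2 ^ (q * s) * 2 ^ (c * s) * 2 ^ (c' * s)) * Ub b) := by gcongr
        _ = A * D ^ (J + 3) / (2 ^ (q * s) * 2 ^ (c' * s)) * Ub b := by field_simp
        _ ≤ _ := by
          refine mul_le_mul_of_nonneg_right (div_le_div_of_nonneg_left (by positivity) pt ?_) hU.le
          nlinarith
    refine (add_le_add k1 k2).trans ?_
    rw [← add_mul, ← ENNReal.ofReal_add (by positivity) (by positivity)]
    refine mul_le_mul_left (ENNReal.ofReal_le_ofReal ?_) _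
    have k3 : (E1 + A) * D ^ (J + 3) ≤ G ^ (J + 1) := by
      refine hfin _ (by positivity) ?_
      rw [hS]
      have : 0 < E3 * A := by positivity
      linarith
    have k4 : E1 * D ^ (J + 3) / 2 ^ (q * s) * Ub b + A * D ^ (J + 3) / 2 ^ (q * s) * Ub b =
        (E1 + A) * D ^ (J + 3) * Ub b / 2 ^ (q * s) := by ring
    rw [k4]
    exact div_le_div_of_nonneg_right (mul_le_mul_of_nonneg_right k3 hU.le) pt.le

/-- **the tail in any unit** -/
theorem lMass_tail {η : ℝ} (hη : 0 < η) (q : ℕ) : ∃ C : ℝ, 1 ≤ C ∧ ∀ (b J : ℕ) (y : ℝ), 0 ≤ y →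
    gf {L | L ∈ WL (b + J) ∧ L ∈ GT b η ∧ y ≤ (L.length : ℝ)} ≤
      ENNReal.ofReal (C ^ (J + 1) * Ub b / (1 + y / ml (b + J)) ^ q) * Xb b := by
  obtain ⟨C1, hC1, h1⟩ := l_tail hη q
  obtain ⟨C0, hC0, h0⟩ := l_plain hη
  obtain ⟨E, hE⟩ : ∃ E : ℝ, E = 4 ^ q := ⟨_, rfl⟩
  have hE1 : 1 ≤ E := by rw [hE]; exact one_le_pow₀ (by norm_num)
  refine ⟨(C0 + C1) * E, by nlinarith, fun b J y hy => ?_⟩
  have hU : 0 < Ub b := Ub_pos b
  have hm := ml_pos (b + J)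
  obtain ⟨X, hX⟩ : ∃ X : ℝ, X = y / ml (b + J) := ⟨_, rfl⟩
  have hX0 : 0 ≤ X := by rw [hX]; positivity
  rw [← hX]
  have hE2 : E ≤ E ^ (J + 1) := le_self_pow₀ hE1 (by omega)
  have a0 : C0 ^ (J + 1) ≤ (C0 + C1) ^ (J + 1) := pow_le_pow_left₀ (by linarith) (by linarith) _
  have a1 : C1 ^ (J + 1) ≤ (C0 + C1) ^ (J + 1) := pow_le_pow_left₀ (by linarith) (by linarith) _
  have pC : 0 < (C0 + C1) ^ (J + 1) := by positivity
  have p1 : 0 < (1 + X) ^ q := by positivity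
  rcases lt_or_ge X 1 with h | h
  · refine (gf_mono (fun L hL => ⟨hL.1, hL.2.1⟩ : _ ⊆ WL (b + J) ∩ GT b η)).trans ((h0 b J).trans ?_)
    refine mul_le_mul_left (ENNReal.ofReal_le_ofReal ?_) _
    rw [le_div_iff₀ p1, mul_pow]
    have h2 : (1 + X) ^ q ≤ E := by
      rw [hE]
      exact pow_le_pow_left₀ (by linarith) (by linarith) q
    calc C0 ^ (J + 1) * Ub b * (1 + X) ^ q ≤ (C0 + C1) ^ (J + 1) * Ub b * E ^ (J + 1) := by
          gcongr
          exact h2.trans hE2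
      _ = _ := by ring
  · obtain ⟨s, hs1, hs2⟩ := exists_nat_pow_near h (by norm_num : (1 : ℝ) < 2)
    have h2 : {L | L ∈ WL (b + J) ∧ L ∈ GT b η ∧ y ≤ (L.length : ℝ)} ⊆
        {L | L ∈ WL (b + J) ∧ L ∈ GT b η ∧ 2 ^ s * ml (b + J) ≤ (L.length : ℝ)} := by
      rintro L ⟨b1, b2, b3⟩
      refine ⟨b1, b2, le_trans ?_ b3⟩
      rw [hX, le_div_iff₀ hm] at hs1
      exact hs1
    refine (gf_mono h2).trans ((h1 b J s).trans ?_)
    refine mul_le_mul_left (ENNReal.ofReal_le_ofReal ?_) _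
    have h3 : (1 + X) ^ q ≤ E * 2 ^ (q * s) := by
      calc (1 + X) ^ q ≤ (4 * 2 ^ s) ^ q := by
            refine pow_le_pow_left₀ (by linarith) ?_ q
            rw [pow_succ] at hs2
            have : (1 : ℝ) ≤ 2 ^ s := one_le_pow₀ (by norm_num)
            linarith
        _ = _ := by rw [mul_pow, ← pow_mul, mul_comm s q, hE]
    have pt : (0 : ℝ) < 2 ^ (q * s) := by positivity
    rw [div_le_div_iff₀ pt p1, mul_pow]
    calc C1 ^ (J + 1) * Ub b * (1 + X) ^ q ≤ (C0 + C1) ^ (J + 1) * Ub b * (E ^ (J + 1) * 2 ^ (q * s)) := by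
          gcongr
          refine h3.trans ?_
          gcongr
      _ = _ := by ring

/-- **words with a good tip, the moments of the length** -/
theorem lMassJ : ∀ (η : ℝ) (q : ℕ), 0 < η → ∃ C : ℝ, 1 ≤ C ∧ ∀ b J : ℕ,
    ∑' L : {L : List Bool | L ∈ WL (b + J) ∧ L ∈ GT b η},
      wE (L : List Bool) * ENNReal.ofReal ((1 + ((L : List Bool).length : ℝ) / ml (b + J)) ^ q) ≤
        ENNReal.ofReal (C ^ (J + 1) * Ub b) * Xb b := by
  intro η q hη
  obtain ⟨C1, hC1, h1⟩ := l_tail hη (q + 1)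
  obtain ⟨C0, hC0, h0⟩ := l_plain hη
  obtain ⟨E, hE⟩ : ∃ E : ℝ, E = 2 ^ q + 2 * 4 ^ q := ⟨_, rfl⟩
  have hE1 : 1 ≤ E := by
    have a1 : (1 : ℝ) ≤ 2 ^ q := one_le_pow₀ (by norm_num)
    have a2 : (0 : ℝ) < 4 ^ q := by positivity
    rw [hE]
    linarith
  refine ⟨(C0 + C1) * E, by nlinarith, fun b J => ?_⟩
  have hU : 0 < Ub b := Ub_pos b
  have a0 : C0 ^ (J + 1) ≤ (C0 + C1) ^ (J + 1) := pow_le_pow_left₀ (by linarith) (by linarith) _
  have a1 : C1 ^ (J + 1) ≤ (C0 + C1) ^ (J + 1) := pow_le_pow_left₀ (by linarith) (by linarith) _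
  refine (mom_tail {L : List Bool | L ∈ WL (b + J) ∧ L ∈ GT b η} (μ := ml (b + J)) (C := (C0 + C1) ^ (J + 1) * Ub b)
    (ml_pos _) (by positivity) q (Xb b)
    ((h0 b J).trans (mul_le_mul_left (ENNReal.ofReal_le_ofReal (mul_le_mul_of_nonneg_right a0 hU.le)) _))
    (fun s => ?_)).trans ?_
  · refine (gf_mono ?_).trans ((h1 b J s).trans (mul_le_mul_left (ENNReal.ofReal_le_ofReal ?_) _))
    · rintro L ⟨⟨b1, b2⟩, b3⟩
      exact ⟨b1, b2, b3⟩
    · gcongr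
  · rw [← hE]
    refine mul_le_mul_left (ENNReal.ofReal_le_ofReal ?_) _
    have a3 : E ≤ E ^ (J + 1) := le_self_pow₀ hE1 (by omega)
    have a4 : 0 < (C0 + C1) ^ (J + 1) := by positivity
    rw [mul_pow]
    calc (C0 + C1) ^ (J + 1) * Ub b * E = (C0 + C1) ^ (J + 1) * E * Ub b := by ring
      _ ≤ _ := mul_le_mul_of_nonneg_right (mul_le_mul_of_nonneg_left a3 a4.le) hU.le

/-- **row B3'** -/
theorem yMassJ : YMassJ := by
  intro η q hη
  obtain ⟨C1, hC1, h1⟩ := lMass_tail hη (q + 1)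
  obtain ⟨C0, hC0, h0⟩ := l_plain hη
  obtain ⟨C, hC⟩ : ∃ C : ℝ, C = C0 + C1 := ⟨_, rfl⟩
  have hC' : 1 ≤ C := by rw [hC]; linarith
  obtain ⟨E, hE⟩ : ∃ E : ℝ, E = 4 * 32 ^ (q + 1) * (2 ^ q + 2 * 4 ^ q) := ⟨_, rfl⟩
  have e1 : (1 : ℝ) ≤ 32 ^ (q + 1) := one_le_pow₀ (by norm_num)
  have hE0 : (1 : ℝ) ≤ 2 ^ q + 2 * 4 ^ q := by
    have a1 : (1 : ℝ) ≤ 2 ^ q := one_le_pow₀ (by norm_num)
    have a2 : (0 : ℝ) < 4 ^ q := by positivity
    linarith
  have hE1 : 1 ≤ E := by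
    rw [hE]
    nlinarith
  refine ⟨C ^ 4 * E, ?_, fun b J => ?_⟩
  · have : 1 ≤ C ^ 4 := one_le_pow₀ hC'
    nlinarith
  have hU : 0 < Ub b := Ub_pos b
  have hm := ml_pos (b + J)
  have hm1 : 1 ≤ ml (b + J) := Real.one_le_rpow (by norm_num) (by positivity)
  have hK : 4 * 2 ^ (b + J) + 3 ≤ 2 ^ (b + (J + 3)) := by
    have e : (2 : ℕ) ^ (b + (J + 3)) = 8 * 2 ^ (b + J) := by rw [show b + (J + 3) = b + J + 3 by ring, pow_add]; ring
    have : 1 ≤ 2 ^ (b + J) := Nat.one_le_two_pow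
    omega
  have hm3 : ml (b + (J + 3)) = 16 * ml (b + J) := by
    rw [← add_assoc, ml_add, show (4 / 3 : ℝ) * ((3 : ℕ) : ℝ) = ((4 : ℕ) : ℝ) by push_cast; norm_num, Real.rpow_natCast]
    norm_num
  have a0 : C0 ^ (J + 3 + 1) ≤ C ^ (J + 4) := pow_le_pow_left₀ (by linarith) (by rw [hC]; linarith) _
  have a1 : C1 ^ (J + 3 + 1) ≤ C ^ (J + 4) := pow_le_pow_left₀ (by linarith) (by rw [hC]; linarith) _
  have pC : 0 < C ^ (J + 4) := by positivity
  have h4 : (4 : ℝ≥0∞) = ENNReal.ofReal 4 := by simp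
  have hpl : gf {Y : List Bool | Y ∈ SA ∧ rev Y ∈ GT b η ∧ In (2 ^ (b + J)) Y} ≤
      ENNReal.ofReal (4 * 32 ^ (q + 1) * C ^ (J + 4) * Ub b) * Xb b := by
    have h2 := rev_le (b := b) (D := 2 ^ (b + J)) (K := b + (J + 3)) (η := η) (Q := Set.univ) (Q' := Set.univ) hK
      (fun _ _ _ _ => Set.mem_univ _) (fun _ _ _ => Set.mem_univ _)
    have h3 : gf {Y : List Bool | Y ∈ SA ∧ rev Y ∈ GT b η ∧ In (2 ^ (b + J)) Y} ≤
        gf {Y : List Bool | Y ∈ SA ∧ rev Y ∈ GT b η ∧ In (2 ^ (b + J)) Y ∧ Y ∈ Set.univ} :=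
      gf_mono fun Y hY => ⟨hY.1, hY.2.1, hY.2.2, Set.mem_univ _⟩
    have h3' : gf {L | L ∈ WL (b + (J + 3)) ∧ L ∈ GT b η ∧ L ∈ Set.univ} ≤ gf (WL (b + (J + 3)) ∩ GT b η) :=
      gf_mono fun L hL => ⟨hL.1, hL.2.1⟩
    refine h3.trans (h2.trans ?_)
    refine (mul_le_mul_right (h3'.trans (h0 b (J + 3))) _).trans ?_
    rw [h4, ← mul_assoc, ← ENNReal.ofReal_mul (by norm_num)]
    refine mul_le_mul_left (ENNReal.ofReal_le_ofReal ?_) _
    calc 4 * (C0 ^ (J + 3 + 1) * Ub b) ≤ 4 * (C ^ (J + 4) * Ub b) := by gcongr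
      _ = 4 * 1 * C ^ (J + 4) * Ub b := by ring
      _ ≤ _ := by gcongr
  refine (mom_tail {Y : List Bool | Y ∈ SA ∧ rev Y ∈ GT b η ∧ In (2 ^ (b + J)) Y} (μ := ml (b + J))
    (C := 4 * 32 ^ (q + 1) * C ^ (J + 4) * Ub b) hm (by positivity) q (Xb b) hpl (fun s => ?_)).trans ?_
  · rcases Nat.eq_zero_or_pos s with hs | hs
    · subst hs
      rw [mul_zero, pow_zero, div_one]
      exact (gf_mono fun Y hY => hY.1).trans hpl
    have p2 : (2 : ℝ) ≤ 2 ^ s := by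
      calc (2 : ℝ) = 2 ^ 1 := by norm_num
        _ ≤ 2 ^ s := pow_le_pow_right₀ (by norm_num) hs
    have h2 := rev_le (b := b) (D := 2 ^ (b + J)) (K := b + (J + 3)) (η := η)
      (Q := {Y : List Bool | 2 ^ s * ml (b + J) ≤ (Y.length : ℝ)})
      (Q' := {L : List Bool | 2 ^ s / 2 * ml (b + J) ≤ (L.length : ℝ)}) hK
      (fun Y hY _ _ => by
        show 2 ^ s / 2 * ml (b + J) ≤ ((rev Y).length : ℝ)
        rw [rev_length]
        have h3 : 2 ^ s * ml (b + J) ≤ (Y.length : ℝ) := hY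
        nlinarith)
      (fun Y hY _ => by
        show 2 ^ s / 2 * ml (b + J) ≤ (((rev Y).drop 1).length : ℝ)
        rw [List.length_drop, rev_length]
        have h3 : 2 ^ s * ml (b + J) ≤ (Y.length : ℝ) := hY
        have h5 : (Y.length : ℝ) ≤ ((Y.length - 1 : ℕ) : ℝ) + 1 := by
          have : Y.length ≤ Y.length - 1 + 1 := by omega
          exact_mod_cast this
        nlinarith)
    have h3 : gf {A : List Bool | A ∈ {Y : List Bool | Y ∈ SA ∧ rev Y ∈ GT b η ∧ In (2 ^ (b + J)) Y} ∧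
        2 ^ s * ml (b + J) ≤ (A.length : ℝ)} ≤ gf {Y : List Bool | Y ∈ SA ∧ rev Y ∈ GT b η ∧ In (2 ^ (b + J)) Y ∧
          Y ∈ {Y : List Bool | 2 ^ s * ml (b + J) ≤ (Y.length : ℝ)}} :=
      gf_mono fun Y hY => ⟨hY.1.1, hY.1.2.1, hY.1.2.2, hY.2⟩
    refine h3.trans (h2.trans ?_)
    refine (mul_le_mul_right (h1 b (J + 3) (2 ^ s / 2 * ml (b + J)) (by positivity)) _).trans ?_
    rw [h4, ← mul_assoc, ← ENNReal.ofReal_mul (by norm_num)]
    refine mul_le_mul_left (ENNReal.ofReal_le_ofReal ?_) _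
    have h5 : 1 + 2 ^ s / 2 * ml (b + J) / ml (b + (J + 3)) = 1 + 2 ^ s / 32 := by
      rw [hm3]
      field_simp
      ring
    rw [h5]
    have h6 : (2 : ℝ) ^ ((q + 1) * s) ≤ 32 ^ (q + 1) * (1 + 2 ^ s / 32) ^ (q + 1) := by
      rw [← mul_pow, mul_comm (q + 1) s, pow_mul]
      exact pow_le_pow_left₀ (by positivity) (by linarith) _
    have p3 : (0 : ℝ) < (1 + 2 ^ s / 32) ^ (q + 1) := by positivity
    have p4 : (0 : ℝ) < 2 ^ ((q + 1) * s) := by positivity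
    rw [← mul_div_assoc, div_le_div_iff₀ p3 p4]
    calc 4 * (C1 ^ (J + 3 + 1) * Ub b) * 2 ^ ((q + 1) * s) ≤
          4 * (C ^ (J + 4) * Ub b) * (32 ^ (q + 1) * (1 + 2 ^ s / 32) ^ (q + 1)) := by gcongr
      _ = _ := by ring
  · refine mul_le_mul_left (ENNReal.ofReal_le_ofReal ?_) _
    have a3 : E ≤ E ^ (J + 1) := le_self_pow₀ hE1 (by omega)
    have a4 : C ^ (J + 4) ≤ (C ^ 4) ^ (J + 1) := by
      rw [← pow_mul]
      exact pow_le_pow_right₀ hC' (by omega)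
    rw [mul_pow]
    calc 4 * 32 ^ (q + 1) * C ^ (J + 4) * Ub b * (2 ^ q + 2 * 4 ^ q) = C ^ (J + 4) * E * Ub b := by rw [hE]; ring
      _ ≤ _ := by gcongr

end ARM

end HexObs
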