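import Pool.Agent.ARM.NWin
import Pool.Agent.NTA.TbM
import Pool.Agent.SIM.FinAllS

/-!
# ARM2, row N (helper29): many good cuts near the end, in the class F

* `b_tail`: the tail of the lengths of the bridges of height at most `2 ^ b`;
* `fw_tail`: the mass of the parts with few free cuts and a given length;
* **`nF_of`**: `NF` from `ExF`, the tail form of `YBad`, `YMassJ`, the words without a rich factor, `c0 ≤ D`.
-/

set_option autoImplicit false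

namespace HexObs

namespace ARM

open Finset TS SDN SIM NTA TIP TIP.Nf

open scoped ENNReal

/-! ### lengths -/

/-- negative powers -/
lemma npow {x : ℝ} (hx : 0 ≤ x) (q : ℕ) : (1 + x) ^ (-(q : ℝ)) = ((1 + x) ^ q)⁻¹ := by
  rw [Real.rpow_neg (by linarith), Real.rpow_natCast]

lemma npow4 {x : ℝ} (hx : 0 ≤ x) : (1 + x) ^ (-(4 : ℝ)) = ((1 + x) ^ 4)⁻¹ := by
  have := npow hx 4
  exact_mod_cast this

/-- the tail of the lengths of the bridges -/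
lemma b_tail : ∃ A : ℝ, 0 < A ∧ ∀ (b y : ℕ), gf {Z | Z ∈ BU ∧ hgt Z ≤ 2 ^ b ∧ y ≤ 2 * Z.length} ≤
    ENNReal.ofReal (A * Ub b * ((1 + (y : ℝ) / 2 / ml b) ^ 8)⁻¹) := by
  obtain ⟨A, hA, hTB⟩ := NTA.tb_M 8
  obtain ⟨C, hC⟩ := mupZ
  have hC0 : 0 < C := by
    have h1 := hC 0
    have h2 : (0 : ℝ) < NTSF.MZ 0 := PW.mZ_pos Nat.one_le_two_pow
    rw [Nat.cast_zero, mul_zero, Real.rpow_zero, mul_one] at h1
    linarith
  have hmZ : ∀ b : ℕ, PW.mZ (2 ^ b) ≤ C * ml b := fun b => hC b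
  refine ⟨(A + 1) * (1 + C) ^ 8, by positivity, fun b y => ?_⟩
  have hU := TS.Ub_pos b
  have hml := ml_pos b
  have hm : (0 : ℝ) < PW.mZ (2 ^ b) := PW.mZ_pos Nat.one_le_two_pow
  have hy : (0 : ℝ) ≤ (y : ℝ) / 2 := by positivity
  have hx : (0 : ℝ) ≤ (y : ℝ) / 2 / ml b := by positivity
  rcases le_total ((y : ℝ) / 2) (PW.mZ (2 ^ b)) with h | h
  · have h0 : {Z : List Bool | Z ∈ BU ∧ hgt Z ≤ 2 ^ b ∧ y ≤ 2 * Z.length} ⊆ {V | V ∈ BU ∧ hgt V ≤ 2 ^ b} :=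
      fun Z hZ => ⟨hZ.1, hZ.2.1⟩
    refine (gf_mono h0).trans ((gf_lowBU (2 ^ b)).trans ?_)
    refine ENNReal.ofReal_le_ofReal ?_
    have h1 : 1 + (y : ℝ) / 2 / ml b ≤ 1 + C := by
      have : (y : ℝ) / 2 / ml b ≤ C := by
        rw [div_le_iff₀ hml]
        exact h.trans (hmZ b)
      linarith
    have h2 : (1 + (y : ℝ) / 2 / ml b) ^ 8 ≤ (1 + C) ^ 8 := pow_le_pow_left₀ (by positivity) h1 8
    have h3 : UU (2 ^ b) = Ub b := rfl
    rw [h3, ← div_eq_mul_inv, le_div_iff₀ (by positivity)]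
    calc Ub b * (1 + (y : ℝ) / 2 / ml b) ^ 8 ≤ Ub b * (1 + C) ^ 8 := mul_le_mul_of_nonneg_left h2 hU.le
      _ = 1 * (1 + C) ^ 8 * Ub b := by ring
      _ ≤ (A + 1) * (1 + C) ^ 8 * Ub b := by
          have : (1 : ℝ) ≤ A + 1 := by linarith
          gcongr
  · obtain ⟨lam, hlam⟩ : ∃ lam : ℝ, lam = (y : ℝ) / 2 / PW.mZ (2 ^ b) := ⟨_, rfl⟩
    have hlam1 : 1 ≤ lam := by
      rw [hlam, one_le_div hm]
      exact h
    have h1 : gf {Z | Z ∈ BU ∧ hgt Z ≤ 2 ^ b ∧ y ≤ 2 * Z.length} ≤ NTm.TL (2 ^ b) (lam * PW.mZ (2 ^ b)) := by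
      have h2 : lam * PW.mZ (2 ^ b) = (y : ℝ) / 2 := by
        rw [hlam]
        field_simp
      rw [h2]
      unfold NTm.TL
      have h0 : {Z : List Bool | Z ∈ BU ∧ hgt Z ≤ 2 ^ b ∧ y ≤ 2 * Z.length} ⊆
          ⋃ h ∈ range (2 ^ b + 1), {Z | Z ∈ Brd h ∧ (y : ℝ) / 2 ≤ (Z.length : ℝ)} := by
        intro Z hZ
        obtain ⟨z1, z2, z3⟩ := hZ
        simp only [Set.mem_iUnion]
        refine ⟨hgt Z, mem_range.2 (by omega), TIP.BU_hgt z1, ?_⟩
        have h3 : (y : ℝ) ≤ 2 * (Z.length : ℝ) := by exact_mod_cast z3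
        linarith
      exact (gf_mono h0).trans (ENNReal.tsum_biUnion_le wE _ _)
    refine h1.trans ((hTB b lam hlam1).trans (ENNReal.ofReal_le_ofReal ?_))
    have h2 : 1 + (y : ℝ) / 2 / ml b ≤ (1 + C) * lam := by
      have h3 : (y : ℝ) / 2 / ml b ≤ C * lam := by
        rw [hlam, div_le_iff₀ hml, mul_div_assoc', div_mul_eq_mul_div, le_div_iff₀ hm]
        calc (y : ℝ) / 2 * PW.mZ (2 ^ b) ≤ (y : ℝ) / 2 * (C * ml b) := mul_le_mul_of_nonneg_left (hmZ b) hy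
          _ = C * ((y : ℝ) / 2) * ml b := by ring
      nlinarith
    have h3 : (1 + (y : ℝ) / 2 / ml b) ^ 8 ≤ (1 + C) ^ 8 * lam ^ 8 := by
      rw [← mul_pow]
      exact pow_le_pow_left₀ (by positivity) h2 8
    have hlam0 : 0 < lam := by linarith
    rw [← div_eq_mul_inv, le_div_iff₀ (by positivity)]
    calc A / lam ^ 8 * Ub b * (1 + (y : ℝ) / 2 / ml b) ^ 8 ≤ A / lam ^ 8 * Ub b * ((1 + C) ^ 8 * lam ^ 8) :=
          mul_le_mul_of_nonneg_left h3 (by positivity)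
      _ = A * (1 + C) ^ 8 * Ub b := by field_simp
      _ ≤ (A + 1) * (1 + C) ^ 8 * Ub b := by gcongr; linarith

/-- two bounds, the geometric mean -/
lemma min_sqrt {g : ℝ≥0∞} {u v : ℝ} (hu : 0 ≤ u) (hv : 0 ≤ v) (h1 : g ≤ ENNReal.ofReal u) (h2 : g ≤ ENNReal.ofReal v) :
    g ≤ ENNReal.ofReal (Real.sqrt (u * v)) := by
  rcases le_total u v with h | h
  · refine h1.trans (ENNReal.ofReal_le_ofReal (Real.le_sqrt_of_sq_le ?_))
    rw [sq]
    exact mul_le_mul_of_nonneg_left h hu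
  · refine h2.trans (ENNReal.ofReal_le_ofReal (Real.le_sqrt_of_sq_le ?_))
    rw [sq]
    exact mul_le_mul_of_nonneg_right h hv

open Classical in
/-- **parts with few free cuts, with the tail of the length** -/
lemma fw_tail {κ0 η q CU CB M : ℝ} {r b m E D y : ℕ} {A : List Bool} (hCU : 0 < CU) (hCB : 0 < CB) (hM : 0 ≤ M)
    (hr : UU r ≤ Ub b) (hr0 : 0 < UU r)
    (h1 : gf {Z | Z ∈ BU ∧ hgt Z ≤ 2 ^ b ∧ A ++ Z ∈ SA ∧ (frN (Far6 r) A Z : ℝ) < κ0} ≤ ENNReal.ofReal (CU * UU r))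
    (h2 : gf {Z | Z ∈ BU ∧ hgt Z ≤ 2 ^ b ∧ y ≤ 2 * Z.length} ≤
      ENNReal.ofReal (CB * Ub b * ((1 + (y : ℝ) / 2 / ml b) ^ 8)⁻¹))
    (h3 : ∑' Y : {Y : List Bool | Y ∈ SA ∧ rev Y ∈ GT b η ∧ In D Y},
      wE (Y : List Bool) * ENNReal.ofReal ((1 + ((Y : List Bool).length : ℝ) / ml (b + m)) ^ 4) ≤
        ENNReal.ofReal (M * Ub b) * Xb b) :
    ENNReal.ofReal q * gf {Y | Fw κ0 r b E D η q A Y ∧ y ≤ Y.length} ≤
      ENNReal.ofReal (16 * (CU + Real.sqrt (CU * CB)) * M * Real.sqrt (UU r * Ub b) * Ub b *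
        (1 + (y : ℝ) / ml (b + m)) ^ (-(4 : ℝ))) * Xb b := by
  have hU := TS.Ub_pos b
  have hml := ml_pos b
  have hmm := ml_pos (b + m)
  obtain ⟨ω, hω⟩ : ∃ ω : ℝ, ω = ((1 + (y : ℝ) / 2 / ml (b + m)) ^ 4)⁻¹ := ⟨_, rfl⟩
  have hx0 : 0 ≤ (y : ℝ) / 2 / ml (b + m) := by positivity
  have hω0 : 0 < ω := by rw [hω]; positivity
  -- the mass of the long second parts
  have hY : gf {Y | Y ∈ SA ∧ rev Y ∈ GT b η ∧ In D Y ∧ y ≤ 2 * Y.length} ≤ ENNReal.ofReal (M * Ub b * ω) * Xb b := by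
    have e1 : ENNReal.ofReal ((1 + (y : ℝ) / 2 / ml (b + m)) ^ 4) * gf {Y | Y ∈ SA ∧ rev Y ∈ GT b η ∧ In D Y ∧ y ≤ 2 * Y.length} ≤
        ENNReal.ofReal (M * Ub b) * Xb b := by
      refine le_trans ?_ h3
      unfold gf
      rw [_root_.tsum_subtype _ (fun t => wE t), _root_.tsum_subtype {Y : List Bool | Y ∈ SA ∧ rev Y ∈ GT b η ∧ In D Y}
        (fun Y => wE Y * ENNReal.ofReal ((1 + (Y.length : ℝ) / ml (b + m)) ^ 4)), ← ENNReal.tsum_mul_left]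
      refine ENNReal.tsum_le_tsum fun Y => ?_
      simp only [Set.indicator_apply]
      by_cases hc : Y ∈ {Y | Y ∈ SA ∧ rev Y ∈ GT b η ∧ In D Y ∧ y ≤ 2 * Y.length}
      · obtain ⟨c1, c2, c3, c4⟩ := hc
        rw [if_pos (show Y ∈ {Y | Y ∈ SA ∧ rev Y ∈ GT b η ∧ In D Y ∧ y ≤ 2 * Y.length} from ⟨c1, c2, c3, c4⟩),
          if_pos (show Y ∈ {Y | Y ∈ SA ∧ rev Y ∈ GT b η ∧ In D Y} from ⟨c1, c2, c3⟩), mul_comm]
        refine mul_le_mul' le_rfl (ENNReal.ofReal_le_ofReal (pow_le_pow_left₀ (by positivity) ?_ 4))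
        have c5 : (y : ℝ) ≤ 2 * (Y.length : ℝ) := by exact_mod_cast c4
        have c6 : (y : ℝ) / 2 / ml (b + m) ≤ (Y.length : ℝ) / ml (b + m) :=
          div_le_div_of_nonneg_right (by linarith) hmm.le
        linarith
      · rw [if_neg hc, mul_zero]
        exact zero_le
    have e2 : ENNReal.ofReal (M * Ub b * ω) * Xb b = ENNReal.ofReal ω * (ENNReal.ofReal (M * Ub b) * Xb b) := by
      rw [← mul_assoc, ← ENNReal.ofReal_mul hω0.le]
      congr 2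
      ring
    rw [e2]
    refine le_trans (le_of_eq ?_) (mul_le_mul' le_rfl e1)
    rw [← mul_assoc, ← ENNReal.ofReal_mul hω0.le, hω, inv_mul_cancel₀ (by positivity), ENNReal.ofReal_one, one_mul]
  have hY1 : gf {Y | Y ∈ SA ∧ rev Y ∈ GT b η ∧ In D Y} ≤ ENNReal.ofReal (M * Ub b) * Xb b := by
    refine le_trans ?_ h3
    unfold gf
    refine ENNReal.tsum_le_tsum fun Y => ?_
    refine le_mul_of_one_le_right' ?_
    rw [← ENNReal.ofReal_one]
    refine ENNReal.ofReal_le_ofReal (one_le_pow₀ ?_)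
    have : 0 ≤ ((Y : List Bool).length : ℝ) / ml (b + m) := by positivity
    linarith
  -- the first parts
  obtain ⟨X, hX⟩ : ∃ X : Set (List Bool), X = {Z | Z ∈ BU ∧ hgt Z ≤ 2 ^ b ∧ A ++ Z ∈ SA ∧ (frN (Far6 r) A Z : ℝ) < κ0} :=
    ⟨_, rfl⟩
  rw [← hX] at h1
  have hX1 : gf X ≤ ENNReal.ofReal (CU * Real.sqrt (UU r * Ub b)) := by
    refine h1.trans (ENNReal.ofReal_le_ofReal (mul_le_mul_of_nonneg_left ?_ hCU.le))
    refine Real.le_sqrt_of_sq_le ?_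
    rw [sq]
    exact mul_le_mul_of_nonneg_left hr hr0.le
  have hX2 : gf {Z | Z ∈ X ∧ y ≤ 2 * Z.length} ≤ ENNReal.ofReal (Real.sqrt (CU * CB) * Real.sqrt (UU r * Ub b) * ω) := by
    have e1 : gf {Z | Z ∈ X ∧ y ≤ 2 * Z.length} ≤ ENNReal.ofReal (CU * UU r) := (gf_mono fun Z hZ => hZ.1).trans h1
    have e2 : gf {Z | Z ∈ X ∧ y ≤ 2 * Z.length} ≤ ENNReal.ofReal (CB * Ub b * ((1 + (y : ℝ) / 2 / ml b) ^ 8)⁻¹) := by
      refine (gf_mono fun Z hZ => ?_).trans h2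
      obtain ⟨z1, z2⟩ := hZ
      rw [hX] at z1
      exact ⟨z1.1, z1.2.1, z2⟩
    refine (min_sqrt (by positivity) (by positivity) e1 e2).trans (ENNReal.ofReal_le_ofReal ?_)
    have e3 : CU * UU r * (CB * Ub b * ((1 + (y : ℝ) / 2 / ml b) ^ 8)⁻¹) =
        (CU * CB) * (UU r * Ub b) * (((1 + (y : ℝ) / 2 / ml b) ^ 4)⁻¹) ^ 2 := by
      rw [inv_pow, ← pow_mul]
      ring
    rw [e3, Real.sqrt_mul (by positivity), Real.sqrt_mul (by positivity), Real.sqrt_sq (by positivity)]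
    refine mul_le_mul_of_nonneg_left ?_ (by positivity)
    rw [hω]
    refine inv_anti₀ (by positivity) (pow_le_pow_left₀ (by positivity) ?_ 4)
    have e4 : (y : ℝ) / 2 / ml (b + m) ≤ (y : ℝ) / 2 / ml b :=
      div_le_div_of_nonneg_left (by positivity) hml (ml_mono (by omega))
    linarith
  -- the double counting
  have hdc : ENNReal.ofReal q * gf {Y | Fw κ0 r b E D η q A Y ∧ y ≤ Y.length} ≤
      ∑' Z : List Bool, if Z ∈ X then wE Z * gf {Y | Y ∈ SA ∧ rev Y ∈ GT b η ∧ In D Y ∧ y ≤ Z.length + Y.length} else 0 := by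
    refine dcs (Y := fun Z => {Y | Y ∈ SA ∧ rev Y ∈ GT b η ∧ In D Y ∧ y ≤ Z.length + Y.length}) fun Y hY => ?_
    obtain ⟨⟨S, hS, hk⟩, hy⟩ := hY
    refine ⟨S, ?_, fun k hkS => ?_⟩
    · rw [← ENNReal.ofReal_natCast]
      exact ENNReal.ofReal_le_ofReal hS
    · obtain ⟨a1, a2, -, a4, a5, a6⟩ := hk k hkS
      refine ⟨a1, ?_, a4, a5, a6, ?_⟩
      · rw [hX]
        exact a2
      · rw [← List.length_append, List.take_append_drop]
        exact hy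
  refine hdc.trans ?_
  obtain ⟨X2, hX2d⟩ : ∃ X2 : Set (List Bool), X2 = {Z | Z ∈ X ∧ y ≤ 2 * Z.length} := ⟨_, rfl⟩
  rw [← hX2d] at hX2
  have hterm : ∀ Z : List Bool, (if Z ∈ X then wE Z *
      gf {Y | Y ∈ SA ∧ rev Y ∈ GT b η ∧ In D Y ∧ y ≤ Z.length + Y.length} else 0) ≤
      (if Z ∈ X then wE Z else 0) * (ENNReal.ofReal (M * Ub b * ω) * Xb b) +
        (if Z ∈ X2 then wE Z else 0) * (ENNReal.ofReal (M * Ub b) * Xb b) := by
    intro Z
    by_cases hZ : Z ∈ X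
    · rw [if_pos hZ, if_pos hZ]
      by_cases hZ2 : y ≤ 2 * Z.length
      · rw [if_pos (show Z ∈ X2 by rw [hX2d]; exact ⟨hZ, hZ2⟩)]
        refine le_trans (mul_le_mul' le_rfl ((gf_mono fun Y hY => ?_).trans hY1)) le_add_self
        exact ⟨hY.1, hY.2.1, hY.2.2.1⟩
      · refine le_trans (mul_le_mul' le_rfl ((gf_mono fun Y hY' => ?_).trans hY)) le_self_add
        exact ⟨hY'.1, hY'.2.1, hY'.2.2.1, by have := hY'.2.2.2; omega⟩
    · rw [if_neg hZ]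
      exact zero_le
  refine (ENNReal.tsum_le_tsum hterm).trans ?_
  rw [ENNReal.tsum_add, ENNReal.tsum_mul_right, ENNReal.tsum_mul_right, ← gf_ind X, ← gf_ind X2]
  have hsum : gf X * (ENNReal.ofReal (M * Ub b * ω) * Xb b) +
      gf X2 * (ENNReal.ofReal (M * Ub b) * Xb b) ≤
      ENNReal.ofReal ((CU + Real.sqrt (CU * CB)) * M * Real.sqrt (UU r * Ub b) * Ub b * ω) * Xb b := by
    calc _ ≤ ENNReal.ofReal (CU * Real.sqrt (UU r * Ub b)) * (ENNReal.ofReal (M * Ub b * ω) * Xb b) +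
          ENNReal.ofReal (Real.sqrt (CU * CB) * Real.sqrt (UU r * Ub b) * ω) * (ENNReal.ofReal (M * Ub b) * Xb b) :=
          add_le_add (mul_le_mul' hX1 le_rfl) (mul_le_mul' hX2 le_rfl)
      _ = ENNReal.ofReal ((CU + Real.sqrt (CU * CB)) * M * Real.sqrt (UU r * Ub b) * Ub b * ω) * Xb b := by
          rw [← mul_assoc, ← mul_assoc, ← add_mul, ← ENNReal.ofReal_mul (by positivity),
            ← ENNReal.ofReal_mul (by positivity), ← ENNReal.ofReal_add (by positivity) (by positivity)]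
          congr 2
          ring
  refine hsum.trans (mul_le_mul' (ENNReal.ofReal_le_ofReal ?_) le_rfl)
  have hω2 : ω ≤ 16 * (1 + (y : ℝ) / ml (b + m)) ^ (-(4 : ℝ)) := by
    rw [npow4 (by positivity), hω, ← div_eq_mul_inv, le_div_iff₀ (by positivity), inv_mul_le_iff₀ (by positivity)]
    have e1 : 1 + (y : ℝ) / ml (b + m) ≤ 2 * (1 + (y : ℝ) / 2 / ml (b + m)) := by
      have : (y : ℝ) / 2 / ml (b + m) = ((y : ℝ) / ml (b + m)) / 2 := by ring
      rw [this]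
      linarith
    calc (1 + (y : ℝ) / ml (b + m)) ^ 4 ≤ (2 * (1 + (y : ℝ) / 2 / ml (b + m))) ^ 4 :=
          pow_le_pow_left₀ (by positivity) e1 4
      _ = (1 + (y : ℝ) / 2 / ml (b + m)) ^ 4 * 16 := by ring
  calc (CU + Real.sqrt (CU * CB)) * M * Real.sqrt (UU r * Ub b) * Ub b * ω ≤
        (CU + Real.sqrt (CU * CB)) * M * Real.sqrt (UU r * Ub b) * Ub b * (16 * (1 + (y : ℝ) / ml (b + m)) ^ (-(4 : ℝ))) :=
        mul_le_mul_of_nonneg_left hω2 (by positivity)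
    _ = _ := by ring

open Classical in
/-- **row N** -/
theorem nF_of {κ : ℝ} {C : ℕ} (hκ : 0 < κ) (hE : ExF) (hY : YBadWSt κ C) (hN : NoRSt κ C) (hL : HfLow) (hYJ : YMassJ) :
    NF := by
  have hWB := wB_of hκ hE hY hN hL
  intro ε hε
  obtain ⟨η, hηd⟩ : ∃ η : ℝ, η = κ / 8 := ⟨_, rfl⟩
  have hη : 0 < η := by rw [hηd]; positivity
  obtain ⟨C1, hC1, hE⟩ := hE η 0 hη
  obtain ⟨CU, κ0, r0, hCU, hκ0, hUA⟩ := uah6
  obtain ⟨CB, hCB, hB⟩ := b_tail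
  obtain ⟨CJ, hCJ, hYJ⟩ := hYJ η 4 hη
  obtain ⟨m0, hWB⟩ := hWB (ε / 2) (by positivity)
  obtain ⟨m, hm⟩ : ∃ m : ℕ, m = max m0 (2 * C + 3) := ⟨_, rfl⟩
  have hm0 : m0 ≤ m := by rw [hm]; exact le_max_left _ _
  have hmC : 2 * C + 3 ≤ m := by rw [hm]; exact le_max_right _ _
  have hm2 : 2 * C ≤ 2 ^ m := by
    have := (Nat.lt_two_pow_self (n := m)).le
    omega
  obtain ⟨b1, hWB⟩ := hWB m hm0
  -- the constants
  obtain ⟨M, hM⟩ : ∃ M : ℝ, M = CJ ^ (m + 1 + 1) := ⟨_, rfl⟩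
  have hM0 : 0 < M := by rw [hM]; positivity
  obtain ⟨K1, hK1⟩ : ∃ K1 : ℝ, K1 = 16 * (CU + Real.sqrt (CU * CB)) * M * 8 / κ := ⟨_, rfl⟩
  have hK10 : 0 < K1 := by rw [hK1]; positivity
  obtain ⟨K2, hK2⟩ : ∃ K2 : ℝ, K2 = C1 * 16 ^ (m + 1) * K1 * 8 / κ := ⟨_, rfl⟩
  have hK20 : 0 < K2 := by rw [hK2]; positivity
  obtain ⟨a, ha⟩ := ex_Ub (K := K2 ^ 2) (e := (ε / 2) ^ 2) (by positivity) (by positivity)
  obtain ⟨bU, hbU⟩ : ∃ bU : ℕ, ∀ b, bU ≤ b → 8 ≤ κ * Ub b := by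
    obtain ⟨B, hB⟩ := Ub_big
    obtain ⟨n, hn⟩ := exists_nat_ge (8 / κ)
    refine ⟨B * n, fun b hb => ?_⟩
    have h1 := hB b n hb
    have h2 : (n : ℝ) ≤ 8 ^ n := by
      exact_mod_cast (Nat.lt_pow_self (by norm_num : 1 < 8)).le
    have h3 : 8 / κ ≤ Ub b := hn.trans (h2.trans h1)
    rw [div_le_iff₀ hκ] at h3
    linarith
  refine ⟨η, κ0 / 2 ^ a, a, m + 1, b1 + bU + (a + r0 + 1), hη, by positivity, by omega, fun D n j hD hF hj hn => ?_⟩
  have h8 := hbU j (by omega)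
  have hU := TS.Ub_pos j
  have hp := pr_nonneg n j
  -- the numbers
  obtain ⟨h, hh⟩ : ∃ h : ℕ, h = ⌈κ * Ub j / 8⌉₊ := ⟨_, rfl⟩
  have hh1 : 1 ≤ h := by
    rw [hh, Nat.one_le_iff_ne_zero, Nat.ne_zero_iff_zero_lt, Nat.ceil_pos]
    positivity
  have hq : κ * Ub j / 8 ≤ (h : ℝ) := by
    rw [hh]
    exact Nat.le_ceil _
  have hh2 : (h : ℝ) < κ * Ub j / 8 + 1 := by
    rw [hh]
    exact Nat.ceil_lt_add_one (by positivity)
  have hηh : η * Ub j ≤ (h : ℝ) := by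
    rw [hηd]
    calc κ / 8 * Ub j = κ * Ub j / 8 := by ring
      _ ≤ h := hq
  obtain ⟨r, hr⟩ : ∃ r : ℕ, r = 2 ^ (j - a) := ⟨_, rfl⟩
  have hr0 : r0 ≤ r := by
    rw [hr]
    have h1 : r0 ≤ j - a := by omega
    exact h1.trans Nat.lt_two_pow_self.le
  have hUr : UU r = Ub (j - a) := by rw [hr]; rfl
  have hUr0 : 0 < UU r := by rw [hUr]; exact TS.Ub_pos _
  have hUrb : UU r ≤ Ub j := by
    unfold Ub
    exact UU_mono (by rw [hr]; exact Nat.pow_le_pow_right (by norm_num) (by omega))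
  have hUj : Ub j ≤ 2 ^ a * UU r := by
    have := Ub_steps (j - a) a
    rw [Nat.sub_add_cancel (by omega)] at this
    rw [hUr]
    exact this
  have hκU : κ0 / 2 ^ a * Ub j ≤ κ0 * UU r := by
    rw [div_mul_eq_mul_div, div_le_iff₀ (by positivity)]
    nlinarith
  -- the event
  obtain ⟨i, hi⟩ : ∃ i : ℕ, i = j + (m + 1) := ⟨_, rfl⟩
  obtain ⟨ρ, hρ⟩ : ∃ ρ : List Bool → List Bool → Prop,
    ρ = RA (κ0 * UU r) r j (C * 2 ^ j) (2 ^ (j + (m + 1))) η h := ⟨_, rfl⟩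
  obtain ⟨EA, hEA⟩ : ∃ EA : Set (List Bool), EA = {L | L ∈ Fp n j ∧ κ * Ub j / 8 ≤ (nD (2 ^ (i + 0)) ρ L : ℝ)} := ⟨_, rfl⟩
  have hcov : {L | L ∈ Fp n j ∧ gc j a (m + 1) η L < κ0 / 2 ^ a * Ub j} ⊆ WB κ C n j m ∪ EA := by
    rintro L ⟨hLF, hbad⟩
    by_cases hW : L ∈ WB κ C n j m
    · exact Or.inl hW
    refine Or.inr ?_
    have hNz : L ∉ Nz κ C j := fun hN => hW ⟨hLF, Or.inl hN⟩
    obtain ⟨X, Z1, Z2, Z3, Y0, hd⟩ := dt_of neW hLF.1 hNz
    have hin : In (2 ^ (j + m)) Y0 := by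
      by_contra hc
      exact hW ⟨hLF, Or.inr ⟨X, Z1, Z2, Z3, Y0, hd, hc⟩⟩
    have h4 : 4 * h ≤ nc Z2 := by
      have h5 : (4 : ℝ) * h ≤ nc Z2 := by
        have := hd.n2
        linarith
      exact_mod_cast h5
    rw [hEA, hρ, hi, add_zero]
    refine ⟨hLF, hq.trans ?_⟩
    exact_mod_cast caseA neW hd hh1 hηh h4 hin hm2 (by rw [hr]) hκU hbad
  have hA1 : gf EA ≤ ENNReal.ofReal (ε / 2 * D * pr n j) := by
    have hFi : HF D n i := fun n' i' hn' hi' => hF n' i' hn' (by omega)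
    obtain ⟨x, hx⟩ : ∃ x : ℝ, x = K1 * Real.sqrt (UU r * Ub j) := ⟨_, rfl⟩
    have hx0 : 0 ≤ x := by rw [hx]; positivity
    have h5 := hE D n j i j hD hFi (by omega) (by omega) ρ (ENNReal.ofReal x * Xb j) (κ * Ub j / 8)
      (fun A Y h => by rw [hρ] at h; exact h.1.gt) (fun A => ?_) (by positivity)
    · rw [← hEA] at h5
      have hpi := pr_nonneg n i
      refine (cancelF (by positivity) (by positivity) h5).trans (ENNReal.ofReal_le_ofReal ?_)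
      have h7 := pr_up16 n j (m + 1)
      rw [← hi] at h7
      have h9 : K2 * (Real.sqrt (UU r * Ub j) / Ub j) ≤ ε / 2 := by
        have e1 : Real.sqrt (UU r * Ub j) / Ub j = Real.sqrt (UU r / Ub j) := by
          rw [Real.sqrt_mul hUr0.le, Real.sqrt_div hUr0.le, div_eq_div_iff hU.ne' (Real.sqrt_pos.2 hU).ne', mul_assoc,
            Real.mul_self_sqrt hU.le]
        rw [e1]
        have e2 := ha j (by omega)
        rw [← hUr] at e2
        have e3 : K2 * Real.sqrt (UU r / Ub j) = Real.sqrt (K2 ^ 2 * (UU r / Ub j)) := by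
          rw [Real.sqrt_mul (by positivity), Real.sqrt_sq hK20.le]
        rw [e3]
        exact Real.sqrt_le_iff.2 ⟨by positivity, e2⟩
      rw [div_le_iff₀ (by positivity)]
      have hDp : 0 ≤ D * pr n j := by positivity
      calc C1 * D * pr n i * x ≤ C1 * D * (16 ^ (m + 1) * pr n j) * x := by gcongr
        _ = (K2 * (Real.sqrt (UU r * Ub j) / Ub j)) * (D * pr n j) * (κ * Ub j / 8) := by
            rw [hx, hK2]
            field_simp
        _ ≤ ε / 2 * (D * pr n j) * (κ * Ub j / 8) := by gcongr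
        _ = _ := by ring
    · -- the mass of the second parts
      obtain ⟨y, hy⟩ : ∃ y : ℕ, y = n - A.length := ⟨_, rfl⟩
      have h6 := fw_tail (κ0 := κ0 * UU r) (η := η) (q := h) (CU := CU) (CB := CB) (M := M) (r := r) (b := j) (m := m + 1)
        (E := 2 * (C * 2 ^ j)) (D := 2 ^ (j + (m + 1))) (y := y) (A := A) hCU hCB hM0.le hUrb hUr0 (hUA r hr0 (2 ^ j) A)
        (hB j y) (by rw [hM]; exact_mod_cast hYJ j (m + 1))
      obtain ⟨S, hS⟩ : ∃ S : Set (List Bool), S = {Y | Fw (κ0 * UU r) r j (2 * (C * 2 ^ j)) (2 ^ (j + (m + 1))) η h A Y ∧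
        y ≤ Y.length} := ⟨_, rfl⟩
      rw [← hS] at h6
      have h7 : gf S ≤ ENNReal.ofReal x * Xb j * ENNReal.ofReal (wt n A.length i) := by
        have e0 : ENNReal.ofReal (κ * Ub j / 8) ≠ 0 := by
          rw [Ne, ENNReal.ofReal_eq_zero, not_le]
          positivity
        refine (ENNReal.mul_le_mul_iff_right e0 ENNReal.ofReal_ne_top).1 ?_
        refine (mul_le_mul' (ENNReal.ofReal_le_ofReal hq) le_rfl).trans (h6.trans (le_of_eq ?_))
        rw [mul_right_comm (ENNReal.ofReal x), ← ENNReal.ofReal_mul hx0, ← mul_assoc, ← ENNReal.ofReal_mul (by positivity)]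
        congr 2
        unfold wt
        rw [← hy, hi, hx, hK1]
        field_simp
      refine (gf_mono ?_).trans h7
      rintro Y ⟨y1, y2, y3⟩
      rw [hρ] at y1
      rw [hS]
      refine ⟨y1.2, ?_⟩
      have h8 := y3.2.1
      rw [List.length_append] at h8
      omega
  have hW1 : gf (WB κ C n j m) ≤ ENNReal.ofReal (ε / 2 * D * pr n j) := by
    refine hWB D n j hD hF (by omega) (le_trans (mul_le_mul_of_nonneg_right ?_ (ml_pos j).le) hn)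
    exact pow_le_pow_right₀ (by norm_num) (by omega)
  refine (gf_mono hcov).trans ((gf_union_le _ _).trans ((add_le_add hW1 hA1).trans (le_of_eq ?_)))
  rw [← ENNReal.ofReal_add (by positivity) (by positivity)]
  congr 1
  ring

end ARM

end HexObs
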