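import Pool.Agent.NPR.TwoEnd
import Pool.Agent.NPR.NoZ
import Pool.Agent.NPR.LeafD
import Pool.Agent.NPR.GrpA
import Pool.Agent.JNT.Inv
import Pool.Agent.PW.Cover

/-!
# ARM, row I, first half (helper44): words of a box that come back near their start. Tools

* `dc2` : double counting of the decompositions `A ++ (V ++ B)`;
* `rv_sum` : sums over reversed words;
* **`startSaus`** : the mean number of the points near a word behind a good start, from the mean number of the points near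
  a word of the box (`end_SV` for every point);
* `rich_pairs` : a rich bridge has many leaves of height at least `2 ^ r` between two good tips, or many cuts in a low bridge.
-/

set_option autoImplicit false

namespace HexObs

namespace ARM

open Finset TS SDN NTW NTA HexObs.SIM TIP TIW NPR

open scoped ENNReal

/-! ### 1. Double counting -/

open Classical in
/-- every word of G has many decompositions -/
theorem dc2 {G XA XB : Set (List Bool)} {Vs : List Bool → List Bool → Set (List Bool)} {c : ℝ≥0∞}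
    (h : ∀ L ∈ G, ∃ S : Finset (ℕ × ℕ), c ≤ (S.card : ℝ≥0∞) ∧ ∀ q ∈ S, q.1 ≤ q.2 ∧ q.2 ≤ L.length ∧ L.take q.1 ∈ XA ∧
      L.drop q.2 ∈ XB ∧ (L.take q.2).drop q.1 ∈ Vs (L.take q.1) (L.drop q.2)) :
    c * gf G ≤ ∑' A : List Bool, ∑' B : List Bool, if A ∈ XA ∧ B ∈ XB then wE A * wE B * gf (Vs A B) else 0 := by
  obtain ⟨F, hF⟩ : ∃ F : List Bool × List Bool × List Bool → ℝ≥0∞, F = fun p =>
      if p.1 ∈ XA ∧ p.2.1 ∈ XB ∧ p.2.2 ∈ Vs p.1 p.2.1 then wE p.1 * wE p.2.1 * wE p.2.2 else 0 := ⟨_, rfl⟩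
  have e1 : c * gf G ≤ ∑' L : List Bool, ∑' p : List Bool × List Bool × List Bool,
      if p.1 ++ (p.2.2 ++ p.2.1) = L then F p else 0 := by
    rw [gf_ind, ← ENNReal.tsum_mul_left]
    refine ENNReal.tsum_le_tsum fun L => ?_
    by_cases hL : L ∈ G
    · obtain ⟨S, hS, hq⟩ := h L hL
      rw [if_pos hL]
      have hinj : Set.InjOn (fun q : ℕ × ℕ => (L.take q.1, L.drop q.2, (L.take q.2).drop q.1)) (S : Set (ℕ × ℕ)) := by
        rintro ⟨q1, q2⟩ hq1 ⟨q1', q2'⟩ hq2 he
        have h1 := congrArg (fun p : List Bool × List Bool × List Bool => p.1.length) he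
        have h2 := congrArg (fun p : List Bool × List Bool × List Bool => p.2.1.length) he
        simp only [List.length_take, List.length_drop] at h1 h2
        have a1 := hq _ hq1
        have a2 := hq _ hq2
        have a3 := a1.1
        have a4 := a1.2.1
        have a5 := a2.1
        have a6 := a2.2.1
        simp only at a3 a4 a5 a6
        refine Prod.ext ?_ ?_
        · show q1 = q1'
          omega
        · show q2 = q2'
          omega
      calc c * wE L ≤ (S.card : ℝ≥0∞) * wE L := mul_le_mul_left hS _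
        _ = ∑ q ∈ S, wE L := by rw [sum_const, nsmul_eq_mul]
        _ = ∑ q ∈ S, (fun p : List Bool × List Bool × List Bool => if p.1 ++ (p.2.2 ++ p.2.1) = L then F p else 0)
              (L.take q.1, L.drop q.2, (L.take q.2).drop q.1) := by
            refine sum_congr rfl fun q hqS => ?_
            obtain ⟨b1, b2, b3, b4, b5⟩ := hq q hqS
            have e0 : L.take q.1 ++ ((L.take q.2).drop q.1 ++ L.drop q.2) = L := by
              rw [← List.append_assoc]
              have e2 : L.take q.1 = (L.take q.2).take q.1 := by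
                rw [List.take_take, min_eq_left b1]
              rw [e2, List.take_append_drop, List.take_append_drop]
            show wE L = if L.take q.1 ++ ((L.take q.2).drop q.1 ++ L.drop q.2) = L then _ else 0
            rw [if_pos e0, hF]
            show wE L = if L.take q.1 ∈ XA ∧ L.drop q.2 ∈ XB ∧ (L.take q.2).drop q.1 ∈ Vs (L.take q.1) (L.drop q.2) then
              wE (L.take q.1) * wE (L.drop q.2) * wE ((L.take q.2).drop q.1) else 0
            rw [if_pos ⟨b3, b4, b5⟩]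
            conv_lhs => rw [← e0]
            rw [wE_append, wE_append]
            ring
        _ = ∑ p ∈ S.image (fun q : ℕ × ℕ => (L.take q.1, L.drop q.2, (L.take q.2).drop q.1)),
              (fun p : List Bool × List Bool × List Bool => if p.1 ++ (p.2.2 ++ p.2.1) = L then F p else 0) p := by
            rw [sum_image hinj]
        _ ≤ _ := ENNReal.sum_le_tsum _
    · rw [if_neg hL, mul_zero]
      exact zero_le
  refine e1.trans ?_
  rw [ENNReal.tsum_comm]
  have e2 : ∀ p : List Bool × List Bool × List Bool, (∑' L : List Bool,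
      if p.1 ++ (p.2.2 ++ p.2.1) = L then F p else 0) = F p := by
    intro p
    rw [tsum_eq_single (p.1 ++ (p.2.2 ++ p.2.1)) (fun L hL => if_neg fun h => hL h.symm), if_pos rfl]
  rw [tsum_congr e2, ENNReal.tsum_prod']
  refine ENNReal.tsum_le_tsum fun A => ?_
  rw [ENNReal.tsum_prod']
  refine ENNReal.tsum_le_tsum fun B => ?_
  by_cases hAB : A ∈ XA ∧ B ∈ XB
  · rw [if_pos hAB, gf_ind, ← ENNReal.tsum_mul_left]
    refine ENNReal.tsum_le_tsum fun V => ?_
    rw [hF]
    show (if A ∈ XA ∧ B ∈ XB ∧ V ∈ Vs A B then wE A * wE B * wE V else 0) ≤ _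
    by_cases hV : V ∈ Vs A B
    · rw [if_pos ⟨hAB.1, hAB.2, hV⟩, if_pos hV]
    · rw [if_neg fun h => hV h.2.2]
      exact zero_le
  · rw [if_neg hAB]
    refine le_of_eq (ENNReal.tsum_eq_zero.2 fun V => ?_)
    rw [hF]
    exact if_neg fun h => hAB ⟨h.1, h.2.1⟩

/-! ### 2. Reversal -/

/-- sums over reversed words -/
theorem rv_sum {F G : List Bool → ℝ≥0∞} (h : ∀ B, F B ≤ G ((rev B).drop 1) * wE ((rev B).take 1)) :
    ∑' B, F B ≤ 3 * ∑' w, G w := by
  classical
  obtain ⟨S, hS⟩ : ∃ S : Set (List Bool), S = {t : List Bool | t.length ≤ 1} := ⟨_, rfl⟩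
  obtain ⟨H, hH⟩ : ∃ H : List Bool × List Bool → ℝ≥0∞, H = fun p => G p.1 * (if p.2 ∈ S then wE p.2 else 0) := ⟨_, rfl⟩
  have hinj : Function.Injective (fun B : List Bool => ((rev B).drop 1, (rev B).take 1)) := by
    intro B B' he
    have h1 := congrArg Prod.fst he
    have h2 := congrArg Prod.snd he
    simp only at h1 h2
    have h3 : rev B = rev B' := by
      rw [← List.take_append_drop 1 (rev B), ← List.take_append_drop 1 (rev B'), h1, h2]
    rw [← rev_rev B, h3, rev_rev]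
  calc ∑' B, F B ≤ ∑' B, H ((rev B).drop 1, (rev B).take 1) := by
        refine ENNReal.tsum_le_tsum fun B => (h B).trans (le_of_eq ?_)
        rw [hH]
        show _ = G ((rev B).drop 1) * (if (rev B).take 1 ∈ S then wE ((rev B).take 1) else 0)
        rw [if_pos]
        rw [hS]
        show ((rev B).take 1).length ≤ 1
        rw [List.length_take]
        omega
    _ ≤ ∑' p, H p := ENNReal.tsum_comp_le_tsum_of_injective hinj H
    _ = ∑' w, G w * gf S := by
        rw [ENNReal.tsum_prod']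
        refine tsum_congr fun w => ?_
        rw [gf_ind, ← ENNReal.tsum_mul_left]
        refine tsum_congr fun t => ?_
        rw [hH]
    _ = (∑' w, G w) * gf S := by rw [ENNReal.tsum_mul_right]
    _ ≤ (∑' w, G w) * 3 := by
        rw [hS]
        exact mul_le_mul_right RevM.gf_short _
    _ = _ := mul_comm _ _

/-! ### 3. Points near a word behind a good start -/

/-- the points at distance less than ρ from a vertex behind the good start of the scale b -/
def YB (η : ℝ) (b ρ : ℕ) (B : List Bool) : Set Pt :=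
  {y | ∃ N Z3 Y : List Bool, B = N ++ (Z3 ++ Y) ∧ Y ≠ [] ∧ N ∈ BU ∧ Z3 ∈ BU ∧ hgt N ≤ 2 ^ b ∧ 2 ^ (b + 1) ≤ hgt Z3 ∧
    η * Ub b ≤ (nc N : ℝ) ∧ ∃ i, (N ++ Z3).length + 1 ≤ i ∧ i ≤ B.length ∧ hn (vx oo up B i - y) < ρ}

open Classical in
/-- their number -/
noncomputable def nY (η : ℝ) (b ρ : ℕ) (B : List Bool) : ℝ≥0∞ := ∑' y : Pt, if y ∈ YB η b ρ B then 1 else 0

/-- the starts that end near y -/
def Vy (ρ : ℕ) (y : Pt) : Set (List Bool) := {V | hn (TIW.en V - y) < ρ}

lemma mulE_cj {c : Pt} (hc : nrm c = 1) (p : Pt) : mulE c (mulE (conjE c) p) = p := by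
  rw [mulE_assoc, mulE_conjE, hc, mulE_one]

lemma vx_tk {t : List Bool} {i a : ℕ} (ha : a ≤ i) : vx oo up (t.take i) a = vx oo up t a := by
  rcases Nat.lt_or_ge t.length i with h | h
  · rw [List.take_of_length_le h.le]
  · have h1 : vx oo up (t.take i ++ t.drop i) a = vx oo up (t.take i) a := vx_append (by
      rw [List.length_take]
      omega)
    rw [List.take_append_drop] at h1
    exact h1.symm

/-- one point, after reversal -/
lemma YB_rev {η : ℝ} {b ρ K : ℕ} {B : List Bool} (hB : B ∈ DW (3 * 2 ^ K)) : ∃ g : Pt → Pt, Function.Injective g ∧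
    ∀ y ∈ YB η b ρ B, (rev B).drop 1 ∈ SV (Vy ρ (g y)) K b ∩ GT b η := by
  obtain ⟨c, hc, hf⟩ := RevM.rev_frame1 B
  have hinj : Function.Injective fun y : Pt => mulE (conjE c) (y - vx oo up B B.length) := by
    intro y y' h
    have h1 := congrArg (mulE c) h
    simp only at h1
    rw [mulE_cj (mem_dirs.1 hc), mulE_cj (mem_dirs.1 hc)] at h1
    exact sub_left_injective h1
  refine ⟨_, hinj, fun y hy => ?_⟩
  obtain ⟨N, Z3, Y, rfl, hY, hN, hZ3, hNh, hZh, hnc, i, hi1, hi2, hd⟩ := hy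
  have hYl : 1 ≤ Y.length := List.length_pos_iff.2 hY
  have e1 : (rev (N ++ (Z3 ++ Y))).drop 1 = (rev Y).drop 1 ++ (rev Z3 ++ rev N) := by
    rw [TD.rev_append', TD.rev_append', List.append_assoc, List.drop_append_of_le_length (by rw [rev_length]; exact hYl)]
  have hT : rev Z3 ++ rev N ∈ BU := BU_app (BU_rev hZ3) (BU_rev hN)
  have hTh : 2 ^ (b + 1) ≤ hgt (rev Z3 ++ rev N) := by
    rw [hgt_app (BU_rev hZ3) (BU_rev hN), hgt_eq (Brd_rev (TIP.BU_hgt hZ3))]
    omega
  have hlen : (N ++ (Z3 ++ Y)).length = N.length + Z3.length + Y.length := by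
    simp only [List.length_append]
    omega
  have hl1 : ((rev Y).drop 1).length = Y.length - 1 := by rw [List.length_drop, rev_length]
  rw [List.length_append] at hi1
  rw [hlen] at hi2
  refine ⟨⟨DW_WL le_rfl (DW_rev hB), ((rev (N ++ (Z3 ++ Y))).drop 1).take ((N ++ (Z3 ++ Y)).length - i),
    ((rev (N ++ (Z3 ++ Y))).drop 1).drop ((N ++ (Z3 ++ Y)).length - i), Y.length - 1,
    (List.take_append_drop _ _).symm, ?_, ?_, ?_, ?_⟩, ?_⟩
  · show hn (TIW.en _ - _) < _
    have hlt : (((rev (N ++ (Z3 ++ Y))).drop 1).take ((N ++ (Z3 ++ Y)).length - i)).length =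
        (N ++ (Z3 ++ Y)).length - i := by
      rw [List.length_take, List.length_drop, rev_length, hlen]
      omega
    have h2 : TIW.en (((rev (N ++ (Z3 ++ Y))).drop 1).take ((N ++ (Z3 ++ Y)).length - i)) =
        vx oo up ((rev (N ++ (Z3 ++ Y))).drop 1) ((N ++ (Z3 ++ Y)).length - i) := by
      unfold TIW.en
      rw [hlt]
      exact vx_tk le_rfl
    have h3 := hf ((N ++ (Z3 ++ Y)).length - i) (by omega)
    have h4 : (N ++ (Z3 ++ Y)).length - ((N ++ (Z3 ++ Y)).length - i) = i := by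
      rw [hlen]
      omega
    rw [h4] at h3
    rw [h2]
    have h5 : vx oo up (N ++ (Z3 ++ Y)) i - y = mulE c (vx oo up ((rev (N ++ (Z3 ++ Y))).drop 1)
        ((N ++ (Z3 ++ Y)).length - i) - mulE (conjE c) (y - vx oo up (N ++ (Z3 ++ Y)) (N ++ (Z3 ++ Y)).length)) := by
      rw [mulE_sub, mulE_cj (mem_dirs.1 hc), h3]
      abel
    rw [h5, hn_mulE (mem_dirs.1 hc)] at hd
    exact hd
  · rw [List.length_take, List.length_drop, rev_length, hlen]
    omega
  · rw [List.length_drop, rev_length, hlen]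
    omega
  · rw [e1, lv_fr_app ((rev Y).drop 1) _ hT, ← hl1, vx_append (by omega)]
    have h4 : TIP.fr ((rev Y).drop 1) (vx oo up ((rev Y).drop 1) ((rev Y).drop 1).length) = 0 := by
      unfold TIP.fr tipv
      rw [sub_self]
      unfold mulE
      ext <;> simp
    rw [h4]
    have h5 : lv (0 : Pt) = 0 := by
      rw [lv_ip]
      unfold ip
      simp
    rw [h5]
    have h6 : (2 : ℤ) ^ (b + 1) ≤ hgt (rev Z3 ++ rev N) := by exact_mod_cast hTh
    omega
  · rw [e1]
    refine ne_A (BU_rev hZ3) ?_ (BU_rev hN) ?_ ?_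
    · rwa [hgt_eq (Brd_rev (TIP.BU_hgt hZ3))]
    · rwa [hgt_eq (Brd_rev (TIP.BU_hgt hN))]
    · rwa [nc_rev]

open Classical in
/-- **the mean number of the points near a word behind a good start** -/
theorem startSaus {η : ℝ} (hη : 0 < η) : ∃ C : ℝ, 0 < C ∧ ∀ K b ρ : ℕ, b ≤ K →
    (∑' B : List Bool, if B ∈ DW (3 * 2 ^ K) then wE B * nY η b ρ B else 0) * Xb b ≤
      ENNReal.ofReal C * ∑' w : List Bool, if w ∈ WL (K + 3) then wE w * ((PW.saus ρ w).ncard : ℝ≥0∞) else 0 := by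
  obtain ⟨C, hC, h⟩ := end_SV hη
  refine ⟨3 * C, by positivity, fun K b ρ hb => ?_⟩
  obtain ⟨G, hG⟩ : ∃ G : List Bool → ℝ≥0∞, G = fun w => ∑' y : Pt, if w ∈ SV (Vy ρ y) K b ∩ GT b η then wE w else 0 := ⟨_, rfl⟩
  have e1 := rv_sum (F := fun B => if B ∈ DW (3 * 2 ^ K) then wE B * nY η b ρ B else 0) (G := G) (fun B => by
    show (if B ∈ DW (3 * 2 ^ K) then wE B * nY η b ρ B else 0) ≤ _
    by_cases hB : B ∈ DW (3 * 2 ^ K)
    · rw [if_pos hB]
      obtain ⟨g, hg, hg2⟩ := YB_rev (η := η) (b := b) (ρ := ρ) hB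
      have e2 : wE B = wE ((rev B).drop 1) * wE ((rev B).take 1) := by
        rw [mul_comm, ← wE_append, List.take_append_drop, wE_rev]
      have e3 : G ((rev B).drop 1) * wE ((rev B).take 1) =
          wE B * ∑' y : Pt, (if (rev B).drop 1 ∈ SV (Vy ρ y) K b ∩ GT b η then 1 else 0 : ℝ≥0∞) := by
        rw [hG, e2]
        show (∑' y : Pt, if (rev B).drop 1 ∈ SV (Vy ρ y) K b ∩ GT b η then wE ((rev B).drop 1) else 0) *
          wE ((rev B).take 1) = _
        rw [mul_right_comm, ← ENNReal.tsum_mul_left]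
        congr 1
        refine tsum_congr fun y => ?_
        rw [mul_ite, mul_one, mul_zero]
      rw [e3]
      refine mul_le_mul_right ?_ _
      calc nY η b ρ B = ∑' y : Pt, (if y ∈ YB η b ρ B then 1 else 0 : ℝ≥0∞) := rfl
        _ ≤ ∑' y : Pt, (if (rev B).drop 1 ∈ SV (Vy ρ (g y)) K b ∩ GT b η then 1 else 0 : ℝ≥0∞) := by
            refine ENNReal.tsum_le_tsum fun y => ?_
            by_cases hy : y ∈ YB η b ρ B
            · rw [if_pos hy, if_pos (hg2 y hy)]
            · rw [if_neg hy]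
              exact zero_le
        _ ≤ _ := ENNReal.tsum_comp_le_tsum_of_injective hg
              (fun y => (if (rev B).drop 1 ∈ SV (Vy ρ y) K b ∩ GT b η then 1 else 0 : ℝ≥0∞))
    · rw [if_neg hB]
      exact zero_le)
  refine (mul_le_mul_left e1 _).trans ?_
  have e4 : ∑' w, G w = ∑' y : Pt, gf (SV (Vy ρ y) K b ∩ GT b η) := by
    rw [hG, ENNReal.tsum_comm]
    refine tsum_congr fun y => ?_
    rw [gf_ind]
    exact tsum_congr fun w => by split_ifs <;> rfl
  rw [e4]
  calc 3 * (∑' y : Pt, gf (SV (Vy ρ y) K b ∩ GT b η)) * Xb b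
      = 3 * ∑' y : Pt, gf (SV (Vy ρ y) K b ∩ GT b η) * Xb b := by rw [mul_assoc, ENNReal.tsum_mul_right]
    _ ≤ 3 * ∑' y : Pt, ENNReal.ofReal C * gf {w | w ∈ WL (K + 3) ∧ ∃ V ∈ Vy ρ y, ∃ R, w = V ++ R} :=
        mul_le_mul_right (ENNReal.tsum_le_tsum fun y => h _ K b _ hb le_rfl) _
    _ = ENNReal.ofReal (3 * C) * ∑' y : Pt, gf {w | w ∈ WL (K + 3) ∧ ∃ V ∈ Vy ρ y, ∃ R, w = V ++ R} := by
        rw [ENNReal.tsum_mul_left, ← mul_assoc, ENNReal.ofReal_mul (by norm_num)]
        congr 2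
        simp
    _ ≤ _ := by
        refine mul_le_mul_right ?_ _
        have e5 : ∀ y : Pt, gf {w | w ∈ WL (K + 3) ∧ ∃ V ∈ Vy ρ y, ∃ R, w = V ++ R} =
            ∑' w : List Bool, if w ∈ {w | w ∈ WL (K + 3) ∧ ∃ V ∈ Vy ρ y, ∃ R, w = V ++ R} then wE w else 0 := fun y => by
          rw [gf_ind]
          exact tsum_congr fun w => by split_ifs <;> rfl
        rw [tsum_congr e5, ENNReal.tsum_comm]
        refine ENNReal.tsum_le_tsum fun w => ?_
        by_cases hw : w ∈ WL (K + 3)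
        · rw [if_pos hw]
          have hfin := PW.saus_fin ρ w
          calc (∑' y : Pt, if w ∈ {w | w ∈ WL (K + 3) ∧ ∃ V ∈ Vy ρ y, ∃ R, w = V ++ R} then wE w else 0)
              ≤ ∑' y : Pt, if y ∈ hfin.toFinset then wE w else 0 := by
                refine ENNReal.tsum_le_tsum fun y => ?_
                by_cases hy : w ∈ {w | w ∈ WL (K + 3) ∧ ∃ V ∈ Vy ρ y, ∃ R, w = V ++ R}
                · obtain ⟨-, V, hV, R, hw2⟩ := hy
                  rw [if_pos ⟨hw, V, hV, R, hw2⟩, if_pos]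
                  rw [Set.Finite.mem_toFinset]
                  refine ⟨V.length, ?_, ?_⟩
                  · rw [hw2, List.length_append]
                    omega
                  · rw [hn_sub_comm, hw2, vx_append (by omega)]
                    exact hV
                · rw [if_neg hy]
                  exact zero_le
            _ = ∑ y ∈ hfin.toFinset, wE w := by
                rw [tsum_eq_sum (s := hfin.toFinset) fun y hy => if_neg hy]
                exact sum_congr rfl fun y hy => if_pos hy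
            _ = wE w * ((PW.saus ρ w).ncard : ℝ≥0∞) := by
                rw [sum_const, nsmul_eq_mul, mul_comm, Set.ncard_eq_toFinset_card _ hfin]
        · rw [if_neg hw]
          refine le_of_eq (ENNReal.tsum_eq_zero.2 fun y => if_neg fun h => hw h.1)

/-! ### 4. Pairs of cuts -/

/-- **pairs of cuts of a rich bridge** -/
theorem rich_pairs {κ : ℝ} {C b : ℕ} {t X Z Y : List Bool} (ht : t = X ++ (Z ++ Y)) (hZ : Z ∈ Zc κ C b)
    (hbig : 16 ≤ κ * Ub b) : ∃ S : Finset (ℕ × ℕ), (κ / 8 * Ub b) ^ 2 ≤ (S.card : ℝ) ∧ ∀ q ∈ S, q.1 ≤ q.2 ∧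
      q.2 ≤ t.length ∧ t.take q.1 ∈ GT b (κ / 8) ∧ (∃ N Z3 : List Bool, t.drop q.2 = N ++ (Z3 ++ Y) ∧ N ∈ BU ∧ Z3 ∈ BU ∧
        hgt N ≤ 2 ^ b ∧ 2 ^ (b + 1) ≤ hgt Z3 ∧ κ / 8 * Ub b ≤ (nc N : ℝ)) ∧
      ∃ m : ℕ, κ / 8 * Ub b ≤ (m : ℝ) ∧ (t.take q.2).drop q.1 ∈ Ir m := by
  classical
  obtain ⟨Z1, Z2, Z3, e, z1, z2, z3, g1, g3, g2, hc, -⟩ := hZ
  obtain ⟨a, ha⟩ : ∃ a, a = ⌈κ / 8 * Ub b⌉₊ := ⟨_, rfl⟩
  have ha1 : κ / 8 * Ub b ≤ (a : ℝ) := by
    rw [ha]
    exact Nat.le_ceil _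
  have ha2 : (a : ℝ) < κ / 8 * Ub b + 1 := by
    rw [ha]
    exact Nat.ceil_lt_add_one (by linarith)
  have ha0 : 2 ≤ a := by
    have : (2 : ℝ) ≤ a := by linarith
    exact_mod_cast this
  have hma : 8 * a ≤ nc Z2 + 7 := by
    have : (8 * a : ℝ) < nc Z2 + 8 := by linarith
    have : 8 * a < nc Z2 + 8 := by exact_mod_cast this
    omega
  have key : ∀ p : ℕ × ℕ, ∃ M V N : List Bool, p.1 < a → p.2 < a → Z2 = M ++ (V ++ N) ∧ M ∈ BU ∧ V ∈ BU ∧ N ∈ BU ∧
      nc M = a + p.1 ∧ V ∈ Ir (2 * a + 1 + p.2 - p.1) ∧ nc (M ++ V) = 3 * a + 1 + p.2 ∧ a ≤ nc N := by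
    intro p
    by_cases hp : p.1 < a ∧ p.2 < a
    · obtain ⟨hp1, hp2⟩ := hp
      obtain ⟨M, N, hM, hN, e2, c1, c2⟩ := nc_split z2 (i := a + p.1) (by omega) (by omega)
      obtain ⟨V, N', hV, hN', e3, c3⟩ := ir_front hN (n := 2 * a + 1 + p.2 - p.1) (by omega)
      refine ⟨M, V, N', fun _ _ => ⟨by rw [e2, e3], hM, Ir_BU hV, hN', c1, hV, ?_, by omega⟩⟩
      have h1 := nc_app hM (Ir_BU hV)
      rw [nc_Ir hV] at h1
      omega
    · exact ⟨[], [], [], fun h1 h2 => (hp ⟨h1, h2⟩).elim⟩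
  choose M V N hk using key
  obtain ⟨f, hf⟩ : ∃ f : ℕ × ℕ → ℕ × ℕ, f = fun p => ((X ++ (Z1 ++ M p)).length, (X ++ (Z1 ++ (M p ++ V p))).length) := ⟨_, rfl⟩
  refine ⟨(range a ×ˢ range a).image f, ?_, fun q hq => ?_⟩
  · have hinj : Set.InjOn f (↑(range a ×ˢ range a) : Set (ℕ × ℕ)) := by
      intro p hp p' hp' he
      rw [coe_product, Set.mem_prod, mem_coe, mem_coe, mem_range, mem_range] at hp hp'
      obtain ⟨h1, -, -, -, h2, -, h3, -⟩ := hk p hp.1 hp.2
      obtain ⟨h1', -, -, -, h2', -, h3', -⟩ := hk p' hp'.1 hp'.2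
      rw [hf] at he
      have he1 := congrArg Prod.fst he
      have he2 := congrArg Prod.snd he
      simp only [List.length_append] at he1 he2
      have m1 : M p = M p' := (List.append_inj (h1.symm.trans h1') (by omega)).1
      have h4 : (M p ++ V p) ++ N p = (M p' ++ V p') ++ N p' := by
        rw [List.append_assoc, List.append_assoc]
        exact h1.symm.trans h1'
      have m2 : M p ++ V p = M p' ++ V p' := (List.append_inj h4 (by simp only [List.length_append]; omega)).1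
      rw [m1] at h2
      rw [m2] at h3
      refine Prod.ext ?_ ?_
      · omega
      · omega
    rw [card_image_of_injOn hinj, card_product, card_range]
    push_cast
    rw [← pow_two]
    exact pow_le_pow_left₀ (by linarith) ha1 2
  · rw [mem_image] at hq
    obtain ⟨p, hp, rfl⟩ := hq
    rw [mem_product, mem_range, mem_range] at hp
    obtain ⟨h1, hM, hV, hN, h2, h5, h3, h4⟩ := hk p hp.1 hp.2
    have e1 : t = (X ++ (Z1 ++ M p)) ++ (V p ++ (N p ++ (Z3 ++ Y))) := by
      rw [ht, e, h1]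
      simp only [List.append_assoc]
    have e2 : t = (X ++ (Z1 ++ (M p ++ V p))) ++ (N p ++ (Z3 ++ Y)) := by
      rw [ht, e, h1]
      simp only [List.append_assoc]
    have hh1 := hgt_app hM (BU_app hV hN)
    have hh2 := hgt_app hV hN
    rw [← h1] at hh1
    rw [hf]
    show (X ++ (Z1 ++ M p)).length ≤ (X ++ (Z1 ++ (M p ++ V p))).length ∧ (X ++ (Z1 ++ (M p ++ V p))).length ≤ t.length ∧
      t.take (X ++ (Z1 ++ M p)).length ∈ GT b (κ / 8) ∧ (∃ N Z3 : List Bool, t.drop (X ++ (Z1 ++ (M p ++ V p))).length =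
        N ++ (Z3 ++ Y) ∧ N ∈ BU ∧ Z3 ∈ BU ∧ hgt N ≤ 2 ^ b ∧ 2 ^ (b + 1) ≤ hgt Z3 ∧ κ / 8 * Ub b ≤ (nc N : ℝ)) ∧
      ∃ m : ℕ, κ / 8 * Ub b ≤ (m : ℝ) ∧ (t.take (X ++ (Z1 ++ (M p ++ V p))).length).drop (X ++ (Z1 ++ M p)).length ∈ Ir m
    refine ⟨?_, ?_, ?_, ⟨N p, Z3, ?_, hN, z3, by omega, g3, ?_⟩, 2 * a + 1 + p.2 - p.1, ?_, ?_⟩
    · simp only [List.length_append]
      omega
    · rw [e2]
      simp only [List.length_append]
      omega
    · rw [e1, List.take_left' rfl]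
      refine ne_A z1 g1 hM (by omega) ?_
      rw [h2]
      push_cast
      have : (0 : ℝ) ≤ p.1 := Nat.cast_nonneg _
      linarith
    · rw [e2, List.drop_left' rfl]
    · have : (a : ℝ) ≤ (nc (N p) : ℝ) := by exact_mod_cast h4
      linarith
    · have h6 : a ≤ 2 * a + 1 + p.2 - p.1 := by omega
      have : (a : ℝ) ≤ ((2 * a + 1 + p.2 - p.1 : ℕ) : ℝ) := by exact_mod_cast h6
      linarith
    · have e3 : t.take (X ++ (Z1 ++ (M p ++ V p))).length = (X ++ (Z1 ++ M p)) ++ V p := by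
        rw [e2, List.take_left' rfl]
        simp only [List.append_assoc]
      rw [e3, List.drop_left' rfl]
      exact h5

/-! ### 5. The geometry -/

/-- the start in the frame of the end -/
def xA (A : List Bool) : Pt := mulE (conjE (rotTo up (dx up A A.length))) (vx oo up A A.length)

/-- vertices behind a bridge, in the frame of its start -/
lemma hn_behind {A V B : List Bool} (hV : V ∈ BU) (i : ℕ) : hn (vx oo up (A ++ (V ++ B)) (A.length + (V.length + i))) =
    hn (vx oo up B i - (-(xA A) - TIW.en V)) := by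
  have hr : nrm (rotTo up (dx up A A.length)) = 1 := nrm_rotTo upd (dx_mem upd A A.length)
  have h1 : vx oo up (A ++ (V ++ B)) (A.length + (V.length + i)) =
      mulE (rotTo up (dx up A A.length)) (vx oo up B i - (-(xA A) - TIW.en V)) := by
    rw [vx_general A (V ++ B) (V.length + i), vx_cat (FreeA.dx_BU hV)]
    have h2 : vx oo up B i - (-(xA A) - TIW.en V) = xA A + (vx oo up V V.length + vx oo up B i) := by
      unfold TIW.en
      abel
    rw [h2, mulE_add]
    unfold xA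
    rw [mulE_add, mulE_cj hr, mulE_add]
  rw [h1, hn_mulE hr]

/-- suffixes -/
lemma DW_drop {D : ℤ} {t : List Bool} (ht : t ∈ DW D) (q : ℕ) (hq : q ≤ t.length) : t.drop q ∈ DW D := by
  have hl : (t.take q).length = q := by rw [List.length_take, min_eq_left hq]
  have hr : nrm (rotTo up (dx up (t.take q) (t.take q).length)) = 1 := nrm_rotTo upd (dx_mem upd _ _)
  have key : ∀ i, vx oo up t (q + i) = vx oo up (t.take q) (t.take q).length +
      mulE (rotTo up (dx up (t.take q) (t.take q).length)) (vx oo up (t.drop q) i) := by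
    intro i
    have h1 := vx_general (t.take q) (t.drop q) i
    rw [List.take_append_drop] at h1
    rw [← h1, hl]
  refine ⟨SA_drop ht.1 q, fun i j hi hj => ?_⟩
  rw [List.length_drop] at hi hj
  have h1 := ht.2 (q + i) (q + j) (by omega) (by omega)
  rw [key i, key j, add_sub_add_left_eq_sub, ← mulE_sub, hn_mulE hr] at h1
  exact h1

/-! ### 6. The mass -/

/-- words of the box K with a rich bridge of the scale b and, behind it, a vertex at distance less than ρ from the start -/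
def Gr (κ : ℝ) (C b K ρ : ℕ) : Set (List Bool) :=
  {w | w ∈ WL K ∧ ∃ X Z Y : List Bool, w = X ++ (Z ++ Y) ∧ Z ∈ Zc κ C b ∧ ∃ t, (X ++ Z).length + 1 ≤ t ∧ t ≤ w.length ∧
    hn (vx oo up w t) < ρ}

open Classical in
/-- the mean number of the points near a word of the box -/
noncomputable def SS (K ρ : ℕ) : ℝ≥0∞ := ∑' w : List Bool, if w ∈ WL K then wE w * ((PW.saus ρ w).ncard : ℝ≥0∞) else 0

/-- the ends -/
def XB (η : ℝ) (b K : ℕ) : Set (List Bool) := {B | B ∈ DW (12 * 2 ^ K + 8) ∧ rev B ∈ GT b η}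

/-- the leaves -/
def Vs (η : ℝ) (b ρ a : ℕ) (A B : List Bool) : Set (List Bool) :=
  {V | V ∈ BU ∧ (∃ m, a ≤ m ∧ V ∈ Ir m) ∧ -(xA A) - TIW.en V ∈ YB η b ρ B}

open Classical in
/-- the mass of the leaves -/
lemma gf_Vs : ∃ C : ℝ, 0 < C ∧ ∀ (η : ℝ) (b ρ a r : ℕ) (A B : List Bool), gf (Vs η b ρ a A B) ≤
    gf (Hm a r) * ENNReal.ofReal (Ub r) + ENNReal.ofReal (C * (Ub r / 4 ^ r)) * nY η b ρ B := by
  obtain ⟨C, hC, h⟩ := JNT.IvT.gf_at
  refine ⟨C, hC, fun η b ρ a r A B => ?_⟩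
  obtain ⟨G0, hG0⟩ : ∃ G0 : Set (List Bool), G0 = {V | V ∈ HB (2 ^ r) ∧ -(xA A) - TIW.en V ∈ YB η b ρ B} := ⟨_, rfl⟩
  obtain ⟨Gy, hGy⟩ : ∃ Gy : Pt → Set (List Bool), Gy = fun y => {V | V ∈ HB (2 ^ r) ∧ JNT.en V = -(xA A) - y} := ⟨_, rfl⟩
  have hsub : Vs η b ρ a A B ⊆ {V | V ∈ NPR.Bk r ∧ ∃ m, a ≤ m ∧ V ∈ Ir m} ∪ G0 := by
    rintro V ⟨h1, h2, h3⟩
    rcases Nat.le_total (hgt V) (2 ^ r) with h4 | h4
    · exact Or.inl ⟨⟨h1, h4⟩, h2⟩
    · rw [hG0]
      exact Or.inr ⟨⟨hgt V, h4, TIP.BU_hgt h1⟩, h3⟩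
  refine (gf_mono hsub).trans ((gf_union_le _ _).trans (add_le_add (Hm_tail a r) ?_))
  have h4r : (((2 ^ r : ℕ) : ℝ)) ^ 2 = 4 ^ r := by
    push_cast
    rw [← pow_mul, mul_comm r 2, pow_mul]
    norm_num
  rw [gf_ind]
  calc (∑' V : List Bool, if V ∈ G0 then wE V else 0)
      ≤ ∑' V : List Bool, ∑' y : Pt, (if y ∈ YB η b ρ B then 1 else 0 : ℝ≥0∞) * (if V ∈ Gy y then wE V else 0) := by
        refine ENNReal.tsum_le_tsum fun V => ?_
        by_cases hV : V ∈ G0
        · rw [if_pos hV]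
          rw [hG0] at hV
          refine le_trans ?_ (ENNReal.le_tsum (-(xA A) - TIW.en V))
          rw [if_pos hV.2, one_mul, if_pos]
          rw [hGy]
          refine ⟨hV.1, ?_⟩
          show TIW.en V = _
          abel
        · rw [if_neg hV]
          exact zero_le
    _ = ∑' y : Pt, (if y ∈ YB η b ρ B then 1 else 0 : ℝ≥0∞) * gf (Gy y) := by
        rw [ENNReal.tsum_comm]
        refine tsum_congr fun y => ?_
        rw [ENNReal.tsum_mul_left, gf_ind]
    _ ≤ ∑' y : Pt, (if y ∈ YB η b ρ B then 1 else 0 : ℝ≥0∞) * ENNReal.ofReal (C * (Ub r / 4 ^ r)) := by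
        refine ENNReal.tsum_le_tsum fun y => mul_le_mul_right ?_ _
        rw [hGy]
        refine (h (2 ^ r) Nat.one_le_two_pow _).trans (le_of_eq ?_)
        rw [h4r]
        rfl
    _ = _ := by
        rw [ENNReal.tsum_mul_right, mul_comm]
        rfl

open Classical in
/-- **the mass of the returns behind a rich bridge** -/
theorem gr_mass {κ : ℝ} (hκ : 0 < κ) : ∃ C : ℝ, 0 < C ∧ ∀ (Cz b K ρ r : ℕ), b ≤ K → r ≤ b → 16 ≤ κ * Ub b →
    gf (Gr κ Cz b K ρ) * FK b ≤ ENNReal.ofReal C * (FK (K + 3) ^ 2 * gf (Hm ⌈κ / 8 * Ub b⌉₊ r) +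
      FK K * (ENNReal.ofReal (1 / 4 ^ r) * SS (K + 6) ρ)) := by
  obtain ⟨C1, hC1, h1⟩ := tip_FK (η := κ / 8) (by positivity)
  obtain ⟨C2, hC2, h2⟩ := start_plain (η := κ / 8) (by positivity)
  obtain ⟨C3, hC3, h3⟩ := startSaus (η := κ / 8) (by positivity)
  obtain ⟨C4, hC4, h4⟩ := gf_Vs
  refine ⟨64 / κ ^ 2 * (C1 * (C2 + C4 * C3)), by positivity, fun Cz b K ρ r hb hr hbig => ?_⟩
  obtain ⟨a, ha⟩ : ∃ a, a = ⌈κ / 8 * Ub b⌉₊ := ⟨_, rfl⟩
  rw [← ha]
  have hUb := Ub_pos b
  have hUr := Ub_pos r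
  obtain ⟨XA, hXA⟩ : ∃ XA : Set (List Bool), XA = WL K ∩ GT b (κ / 8) := ⟨_, rfl⟩
  -- double counting
  have d1 := dc2 (G := Gr κ Cz b K ρ) (XA := XA) (XB := XB (κ / 8) b K) (Vs := Vs (κ / 8) b ρ a)
    (c := ENNReal.ofReal ((κ / 8 * Ub b) ^ 2)) (fun w hw => by
      obtain ⟨hw, X, Z, Y, he, hZ, t, ht1, ht2, hd⟩ := hw
      obtain ⟨S, hS, hq⟩ := rich_pairs he hZ hbig
      refine ⟨S, ?_, fun q hqS => ?_⟩
      · rw [← ENNReal.ofReal_natCast]
        exact ENNReal.ofReal_le_ofReal hS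
      · obtain ⟨q1, q2, q3, ⟨N, Z3, q4, hN, hZ3, q5, q6, q7⟩, m, q8, q9⟩ := hq q hqS
        have hV : (w.take q.2).drop q.1 ∈ BU := Ir_BU q9
        have hY : Y ≠ [] := by
          rintro rfl
          rw [he] at ht2
          simp only [List.length_append, List.length_nil] at ht1 ht2
          omega
        refine ⟨q1, q2, by rw [hXA]; exact ⟨take_WL' hw _, q3⟩, ⟨DW_drop (WL_DW hw) _ q2, ?_⟩, hV, ⟨m, ?_, q9⟩, ?_⟩
        · rw [q4]
          exact ne_B hN q5 hZ3 q6 q7
        · rw [ha]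
          exact Nat.ceil_le.2 q8
        · have hlw : w.length = X.length + (Z.length + Y.length) := by
            rw [he]
            simp only [List.length_append]
          have hl1 := congrArg List.length q4
          rw [List.length_drop] at hl1
          simp only [List.length_append] at hl1 ht1
          have hlA : (w.take q.1).length = q.1 := by rw [List.length_take]; omega
          have hlV : ((w.take q.2).drop q.1).length = q.2 - q.1 := by rw [List.length_drop, List.length_take]; omega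
          refine ⟨N, Z3, Y, q4, hY, hN, hZ3, q5, q6, q7, t - q.2, ?_, ?_, ?_⟩
          · rw [List.length_append]
            omega
          · rw [List.length_drop]
            omega
          · have e0 : w.take q.1 ++ ((w.take q.2).drop q.1 ++ w.drop q.2) = w := by
              rw [← List.append_assoc]
              have e2 : w.take q.1 = (w.take q.2).take q.1 := by
                rw [List.take_take, min_eq_left q1]
              rw [e2, List.take_append_drop, List.take_append_drop]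
            have e1 := hn_behind (A := w.take q.1) (B := w.drop q.2) hV (t - q.2)
            rw [e0, hlA, hlV, show q.1 + (q.2 - q.1 + (t - q.2)) = t by omega] at e1
            rw [← e1]
            exact hd)
  -- the right side
  have d2 : (∑' A : List Bool, ∑' B : List Bool, if A ∈ XA ∧ B ∈ XB (κ / 8) b K then
      wE A * wE B * gf (Vs (κ / 8) b ρ a A B) else 0) ≤
      gf XA * (gf (XB (κ / 8) b K) * (gf (Hm a r) * ENNReal.ofReal (Ub r)) +
        ENNReal.ofReal (C4 * (Ub r / 4 ^ r)) *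
          ∑' B : List Bool, if B ∈ DW (3 * 2 ^ (K + 3)) then wE B * nY (κ / 8) b ρ B else 0) := by
    rw [gf_ind XA, ← ENNReal.tsum_mul_right]
    refine ENNReal.tsum_le_tsum fun A => ?_
    by_cases hA : A ∈ XA
    · rw [if_pos hA, gf_ind (XB (κ / 8) b K), ← ENNReal.tsum_mul_right, ← ENNReal.tsum_mul_left, ← ENNReal.tsum_add,
        ← ENNReal.tsum_mul_left]
      refine ENNReal.tsum_le_tsum fun B => ?_
      by_cases hB : B ∈ XB (κ / 8) b K
      · have hB' : B ∈ DW (3 * 2 ^ (K + 3)) := by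
          refine DW_mono ?_ hB.1
          rw [pow_add]
          have : (1 : ℤ) ≤ 2 ^ K := one_le_pow₀ (by norm_num)
          omega
        rw [if_pos ⟨hA, hB⟩, if_pos hB, if_pos hB']
        calc wE A * wE B * gf (Vs (κ / 8) b ρ a A B) ≤ wE A * wE B * (gf (Hm a r) * ENNReal.ofReal (Ub r) +
              ENNReal.ofReal (C4 * (Ub r / 4 ^ r)) * nY (κ / 8) b ρ B) := mul_le_mul_right (h4 _ _ _ _ _ _ _) _
          _ = _ := by ring
      · rw [if_neg fun h => hB h.2]
        exact zero_le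
    · refine le_trans (le_of_eq (ENNReal.tsum_eq_zero.2 fun B => if_neg fun h => hA h.1)) zero_le
  have h3' := h3 (K + 3) b ρ (by omega)
  have h2' : gf (XB (κ / 8) b K) * Xb b ≤ ENNReal.ofReal C2 * FK (K + 3) := by
    refine (mul_le_mul_left (gf_mono ?_) _).trans (h2 (K + 3) b (by omega))
    rintro B ⟨hB, hB2⟩
    refine ⟨DW_WL ?_ hB, hB2⟩
    rw [pow_add]
    have : (1 : ℤ) ≤ 2 ^ K := one_le_pow₀ (by norm_num)
    omega
  have h1' := h1 K b hb
  rw [← hXA] at h1'
  have hUrb : ENNReal.ofReal (Ub r) ≤ ENNReal.ofReal (Ub b) := ENNReal.ofReal_le_ofReal (Ub_mono hr)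
  obtain ⟨M, hM⟩ : ∃ M : ℝ≥0∞, M = ∑' B : List Bool, if B ∈ DW (3 * 2 ^ (K + 3)) then wE B * nY (κ / 8) b ρ B else 0 := ⟨_, rfl⟩
  rw [← hM] at d2 h3'
  have h3'' : M * Xb b ≤ ENNReal.ofReal C3 * SS (K + 6) ρ := h3'
  obtain ⟨gA, hgA⟩ : ∃ gA : ℝ≥0∞, gA = gf XA := ⟨_, rfl⟩
  obtain ⟨gB, hgB⟩ : ∃ gB : ℝ≥0∞, gB = gf (XB (κ / 8) b K) := ⟨_, rfl⟩
  obtain ⟨gH, hgH⟩ : ∃ gH : ℝ≥0∞, gH = gf (Hm a r) := ⟨_, rfl⟩
  obtain ⟨gG, hgG⟩ : ∃ gG : ℝ≥0∞, gG = gf (Gr κ Cz b K ρ) := ⟨_, rfl⟩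
  rw [← hgA] at d2 h1'
  rw [← hgB] at d2 h2'
  rw [← hgH] at d2
  rw [← hgG] at d1
  rw [← hgH, ← hgG]
  have d3 := d1.trans d2
  have hFK : FK b = ENNReal.ofReal (Ub b) * Xb b ^ 2 := rfl
  have hK3 : FK K ≤ FK (K + 3) := TE_mono (by omega)
  have e5 : ENNReal.ofReal (Ub b) * (ENNReal.ofReal ((κ / 8) ^ 2) * (gG * FK b)) ≤
      ENNReal.ofReal (Ub b) * (ENNReal.ofReal (C1 * (C2 + C4 * C3)) * (FK (K + 3) ^ 2 * gH +
        FK K * (ENNReal.ofReal (1 / 4 ^ r) * SS (K + 6) ρ))) := by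
    calc ENNReal.ofReal (Ub b) * (ENNReal.ofReal ((κ / 8) ^ 2) * (gG * FK b))
        = ENNReal.ofReal ((κ / 8 * Ub b) ^ 2) * gG * (Xb b * Xb b) := by
          rw [hFK, mul_pow, ENNReal.ofReal_mul (by positivity), ENNReal.ofReal_pow hUb.le]
          ring
      _ ≤ (gA * (gB * (gH * ENNReal.ofReal (Ub r)) + ENNReal.ofReal (C4 * (Ub r / 4 ^ r)) * M)) * (Xb b * Xb b) :=
          mul_le_mul_left d3 _
      _ = (gA * Xb b) * ((gB * Xb b) * (gH * ENNReal.ofReal (Ub r)) + ENNReal.ofReal (C4 * (Ub r / 4 ^ r)) * (M * Xb b)) := by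
          ring
      _ ≤ (ENNReal.ofReal C1 * FK K) * ((ENNReal.ofReal C2 * FK (K + 3)) * (gH * ENNReal.ofReal (Ub r)) +
            ENNReal.ofReal (C4 * (Ub r / 4 ^ r)) * (ENNReal.ofReal C3 * SS (K + 6) ρ)) := by gcongr
      _ = ENNReal.ofReal (Ub r) * ((ENNReal.ofReal (C1 * C2) * (FK K * FK (K + 3) * gH)) +
            ENNReal.ofReal (C1 * (C4 * C3)) * (FK K * (ENNReal.ofReal (1 / 4 ^ r) * SS (K + 6) ρ))) := by
          rw [show C4 * (Ub r / 4 ^ r) = C4 * (Ub r * (1 / 4 ^ r)) by ring, ENNReal.ofReal_mul hC4.le,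
            ENNReal.ofReal_mul hUr.le, ENNReal.ofReal_mul hC1.le, ENNReal.ofReal_mul hC1.le, ENNReal.ofReal_mul hC4.le]
          ring
      _ ≤ ENNReal.ofReal (Ub b) * ((ENNReal.ofReal (C1 * (C2 + C4 * C3)) * (FK (K + 3) ^ 2 * gH)) +
            ENNReal.ofReal (C1 * (C2 + C4 * C3)) * (FK K * (ENNReal.ofReal (1 / 4 ^ r) * SS (K + 6) ρ))) := by
          have hC43 : 0 < C4 * C3 := by positivity
          have i1 : C1 * C2 ≤ C1 * (C2 + C4 * C3) := mul_le_mul_of_nonneg_left (by linarith) hC1.le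
          have i2 : C1 * (C4 * C3) ≤ C1 * (C2 + C4 * C3) := mul_le_mul_of_nonneg_left (by linarith) hC1.le
          have i3 : FK K * FK (K + 3) ≤ FK (K + 3) ^ 2 := by
            rw [pow_two]
            exact mul_le_mul_left hK3 _
          gcongr
      _ = _ := by rw [← mul_add]
  have e6 : ENNReal.ofReal ((κ / 8) ^ 2) * (gG * FK b) ≤ ENNReal.ofReal (C1 * (C2 + C4 * C3)) * (FK (K + 3) ^ 2 * gH +
        FK K * (ENNReal.ofReal (1 / 4 ^ r) * SS (K + 6) ρ)) :=
    (ENNReal.mul_le_mul_iff_right (by positivity) ENNReal.ofReal_ne_top).1 e5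
  calc gG * FK b = ENNReal.ofReal (64 / κ ^ 2) * (ENNReal.ofReal ((κ / 8) ^ 2) * (gG * FK b)) := by
        rw [← mul_assoc, ← ENNReal.ofReal_mul (by positivity), show 64 / κ ^ 2 * (κ / 8) ^ 2 = 1 by field_simp; norm_num,
          ENNReal.ofReal_one, one_mul]
    _ ≤ ENNReal.ofReal (64 / κ ^ 2) * (ENNReal.ofReal (C1 * (C2 + C4 * C3)) * (FK (K + 3) ^ 2 * gH +
        FK K * (ENNReal.ofReal (1 / 4 ^ r) * SS (K + 6) ρ))) := mul_le_mul_right e6 _
    _ = _ := by rw [← mul_assoc, ← ENNReal.ofReal_mul (by positivity)]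

end ARM

end HexObs
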