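import Pool.Agent.ARM.NtM
import Pool.Agent.ARM.RetA
import Pool.Agent.TIP.RevM

/-!
ARM, row Q (helper13): **`ynSt : YNSt`**, the mass of the parts Y behind A with many splittings Y = V ++ B, V a low bridge, B
behind a good tip, and a near touch of A with B: double counting with the roles exchanged, `xboundS` for the high V.
-/

set_option autoImplicit false

namespace HexObs

namespace ARM

open Finset TS SDN SIM

open scoped ENNReal

/-- the low bridges between A and B with a near touch of A and B -/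
def VN (b cc S d : ℕ) (ρ R : ℕ → ℕ) (A B : List Bool) : Set (List Bool) :=
  {V | V ∈ BU ∧ hgt V ≤ 2 ^ b ∧ TIW.hn (TIW.en V) ≤ 2 ^ (b + cc) ∧ A ++ (V ++ B) ∈ SA ∧
    NearQ S d ρ R A.length (A.length + V.length) (A ++ (V ++ B))}

/-- double counting, the second part first -/
lemma dcR {G XB : Set (List Bool)} {Vs : List Bool → Set (List Bool)} {c M : ℝ≥0∞} (hM : ∀ B, gf (Vs B) ≤ M)
    (h : ∀ L ∈ G, ∃ T : Finset ℕ, c ≤ (T.card : ℝ≥0∞) ∧ ∀ k ∈ T, k ≤ L.length ∧ L.drop k ∈ XB ∧ L.take k ∈ Vs (L.drop k)) :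
    c * gf G ≤ gf XB * M := by
  classical
  have h1 := dc2 (G := G) (XA := {[]}) (XB := XB) (Vs := fun _ B => Vs B) (c := c) (by
    intro L hL
    obtain ⟨T, hT, hk⟩ := h L hL
    refine ⟨T.image fun k => (0, k), ?_, ?_⟩
    · rw [card_image_of_injective _ (fun k k' h => (Prod.ext_iff.1 h).2)]
      exact hT
    · intro p hp
      obtain ⟨k, hkT, rfl⟩ := mem_image.1 hp
      obtain ⟨a1, a2, a3⟩ := hk k hkT
      exact ⟨Nat.zero_le _, a1, by simp, a2, by simpa using a3⟩)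
  refine h1.trans ?_
  rw [tsum_eq_single ([] : List Bool)]
  swap
  · intro A hA
    exact ENNReal.tsum_eq_zero.2 fun B => if_neg fun h => hA h.1
  rw [gf_ind XB, ← ENNReal.tsum_mul_right]
  refine ENNReal.tsum_le_tsum fun B => ?_
  by_cases hB : B ∈ XB
  · rw [if_pos ⟨rfl, hB⟩, if_pos hB, show wE [] = 1 by simp [wE], one_mul]
    exact mul_le_mul_right (hM B) _
  · rw [if_neg (fun h => hB h.2), if_neg hB, zero_mul]

/-- **the mass of the parts with many splittings with a near touch** -/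
theorem ynSt : YNSt := by
  intro η cc J δ hη hδ
  obtain ⟨C1, hC1, hY⟩ := TIP.ymass' η J hη
  obtain ⟨C2, hC2, hX⟩ := xboundS
  obtain ⟨δ', hδ'⟩ : ∃ x : ℝ, x = δ / C1 := ⟨_, rfl⟩
  have hδ0 : 0 < δ' := by rw [hδ']; positivity
  obtain ⟨w, hw⟩ : ∃ w : ℕ, 2 * (2 : ℝ) ^ (-(kap0 * (w : ℝ))) ≤ δ' / 2 := by
    have hk := kap0_pos
    have h1 : (2 : ℝ) ^ (-kap0) < 1 := Real.rpow_lt_one_of_one_lt_of_neg (by norm_num) (by linarith)
    obtain ⟨w, hw⟩ := exists_pow_lt_of_lt_one (show (0 : ℝ) < δ' / 4 by positivity) h1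
    refine ⟨w, ?_⟩
    rw [← Real.rpow_natCast, ← Real.rpow_mul (by norm_num)] at hw
    rw [show -(kap0 * (w : ℝ)) = -kap0 * (w : ℝ) by ring]
    linarith
  refine ⟨2 * C2 * 4 ^ (cc + w) / δ', w, by positivity, fun A b S d ρ R q hb hq h1 h2 h3 => ?_⟩
  have hU := Ub_pos b
  have hM : 0 < 2 * C2 * 4 ^ (cc + w) / δ' := by positivity
  have hsum : 0 < ∑ s ∈ range S, (ρ s : ℝ) / R s := lt_of_lt_of_le hM h3
  have key : ∀ B, gf (VN b cc S d ρ R A B) ≤ ENNReal.ofReal (δ' * Ub b) := by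
    intro B
    have hsub : VN b cc S d ρ R A B ⊆ {V | V ∈ BU ∧ hgt V ≤ 2 ^ (b - w)} ∪
        {Z | Z ∈ BU ∧ 2 ^ (b - w) ≤ hgt Z ∧ TIW.hn (TIW.en Z) ≤ 2 ^ (b + cc) ∧ A ++ (Z ++ B) ∈ SA ∧
          NearQ S d ρ R A.length (A.length + Z.length) (A ++ (Z ++ B))} := by
      rintro V ⟨a1, a2, a3, a4, a5⟩
      rcases Nat.lt_or_ge (hgt V) (2 ^ (b - w)) with hh | hh
      · exact Or.inl ⟨a1, hh.le⟩
      · exact Or.inr ⟨a1, hh, a3, a4, a5⟩
    have e1 : gf {V | V ∈ BU ∧ hgt V ≤ 2 ^ (b - w)} ≤ ENNReal.ofReal (δ' / 2 * Ub b) := by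
      refine (TIP.gf_lowBU (2 ^ (b - w))).trans (ENNReal.ofReal_le_ofReal ?_)
      have h4 := GB.Ub_ratio_down (show b - w ≤ b by omega)
      have h5 : ((b : ℝ) - ((b - w : ℕ) : ℝ)) = w := by
        rw [Nat.cast_sub hb]
        ring
      rw [h5, div_le_iff₀ hU] at h4
      show Ub (b - w) ≤ δ' / 2 * Ub b
      nlinarith
    have e2 := hX A B (2 ^ (b - w)) (b + cc) S d ρ R Nat.one_le_two_pow h1 h2 hsum
    have e3 : C2 * 4 ^ (b + cc) * (UU (2 ^ (b - w)) / ((2 ^ (b - w) : ℕ) : ℝ) ^ 2) / ∑ s ∈ range S, (ρ s : ℝ) / R s ≤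
        δ' / 2 * Ub b := by
      rw [div_le_iff₀ hsum]
      have h4 : UU (2 ^ (b - w)) ≤ Ub b := Ub_mono (by omega)
      have h5 : (4 : ℝ) ^ (b + cc) = 4 ^ (cc + w) * 4 ^ (b - w) := by
        rw [← pow_add]
        congr 1
        omega
      have h6 : ((2 ^ (b - w) : ℕ) : ℝ) ^ 2 = 4 ^ (b - w) := by
        push_cast
        rw [← pow_mul, mul_comm, pow_mul]
        norm_num
      have h7 : (0 : ℝ) < 4 ^ (b - w) := by positivity
      have h8 : (0 : ℝ) < 4 ^ (cc + w) := by positivity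
      rw [h6, h5]
      calc C2 * (4 ^ (cc + w) * 4 ^ (b - w)) * (UU (2 ^ (b - w)) / 4 ^ (b - w)) = C2 * 4 ^ (cc + w) * UU (2 ^ (b - w)) := by
            field_simp
        _ ≤ C2 * 4 ^ (cc + w) * Ub b := mul_le_mul_of_nonneg_left h4 (by positivity)
        _ = δ' / 2 * Ub b * (2 * C2 * 4 ^ (cc + w) / δ') := by
            field_simp
        _ ≤ δ' / 2 * Ub b * ∑ s ∈ range S, (ρ s : ℝ) / R s := mul_le_mul_of_nonneg_left h3 (by positivity)
    calc gf (VN b cc S d ρ R A B) ≤ ENNReal.ofReal (δ' / 2 * Ub b) + ENNReal.ofReal (δ' / 2 * Ub b) :=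
          (gf_mono hsub).trans ((gf_union_le _ _).trans (add_le_add e1 (e2.trans (ENNReal.ofReal_le_ofReal e3))))
      _ = ENNReal.ofReal (δ' * Ub b) := by
          rw [← ENNReal.ofReal_add (by positivity) (by positivity)]
          congr 1
          ring
  have hdc := dcR (G := YN η (q * Ub b) b cc J S d ρ R A) (c := ENNReal.ofReal (q * Ub b))
    (XB := {B | B ∈ SA ∧ rev B ∈ TIP.GT b η ∧ TIP.In (2 ^ (b + J)) B}) (Vs := fun B => VN b cc S d ρ R A B) key (by
      rintro Y ⟨T, hT, hk⟩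
      refine ⟨T, ?_, fun k hkT => ?_⟩
      · rw [← ENNReal.ofReal_natCast]
        exact ENNReal.ofReal_le_ofReal hT
      · obtain ⟨a1, a2, a3, a4, a5, a6, a7, a8, a9⟩ := hk k hkT
        refine ⟨a1, ⟨a7, a8, a9⟩, a2, a3, a4, ?_, ?_⟩
        · rwa [List.take_append_drop]
        · rw [List.take_append_drop, List.length_take, min_eq_left a1]
          exact a6)
  have hq0 : 0 < q * Ub b := by positivity
  have hfin : gf (YN η (q * Ub b) b cc J S d ρ R A) * ENNReal.ofReal (q * Ub b) ≤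
      (ENNReal.ofReal (δ / q * Ub b) * NTA.Xb b) * ENNReal.ofReal (q * Ub b) := by
    rw [mul_comm (gf _)]
    refine hdc.trans ((mul_le_mul_left (hY b) _).trans (le_of_eq ?_))
    rw [mul_right_comm, mul_right_comm (ENNReal.ofReal (δ / q * Ub b)), ← ENNReal.ofReal_mul (by positivity),
      ← ENNReal.ofReal_mul (by positivity), hδ']
    congr 2
    field_simp
  exact (ENNReal.mul_le_mul_iff_left (by simpa using hq0) ENNReal.ofReal_ne_top).1 hfin

end ARM

end HexObs
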