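import Pool.Agent.ARM.NtD
import Pool.Agent.ARM.Ball
import Pool.Agent.ARM.FastN
import Pool.Agent.PW.HumpE
import Pool.Agent.PW.Cover
import Pool.Agent.NPR.TwoEnd
import Pool.Agent.NPR.Fast

/-!
# ARM2, row Q, the plain bound for near touches (helper70)

* `nt_far` : near touches away from the start of the word (`PW.hump0`, summed over the ends);
* **`plNt_of : BallSt → PlNt`**.
-/

set_option autoImplicit false

namespace HexObs

namespace ARM

open Finset TS SDN SIM NTA TIP NTW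

open scoped ENNReal

/-- a sum over the ends in a ball -/
lemma ends_sum {D : ℕ} {G : ℝ≥0∞} {E : Set (List Bool)} (hE : ∀ t ∈ E, TIW.hn (vx oo up t t.length) < D)
    (hG : ∀ y : Pt, gf {t | vx oo up t t.length = y ∧ t ∈ E} ≤ G) : gf E ≤ (((2 * D + 1) ^ 2 : ℕ) : ℝ≥0∞) * G := by
  classical
  obtain ⟨I, hI⟩ : ∃ I : Finset Pt, I = (Finset.Icc (-(D : ℤ)) D ×ˢ Finset.Icc (-(D : ℤ)) D) := ⟨_, rfl⟩
  have hcard : I.card = (2 * D + 1) ^ 2 := by
    rw [hI, card_product, Int.card_Icc, sq]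
    congr 1 <;> omega
  have hsub : E ⊆ ⋃ y ∈ I, {t | vx oo up t t.length = y ∧ t ∈ E} := by
    intro t ht
    rw [Set.mem_iUnion₂]
    refine ⟨vx oo up t t.length, ?_, rfl, ht⟩
    obtain ⟨h3, h4⟩ := PW.coord_lt (hE t ht)
    rw [abs_lt] at h3 h4
    rw [hI, mem_product, mem_Icc, mem_Icc]
    omega
  refine (gf_mono hsub).trans ((ENNReal.tsum_biUnion_le wE _ _).trans ?_)
  refine (sum_le_sum fun y _ => hG y).trans ?_
  rw [sum_const, nsmul_eq_mul, hcard]

/-- near touches away from the start -/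
def NtF (K a c : ℕ) : Set (List Bool) := {t | t ∈ WL K ∧ ∃ i l j, i ≤ l ∧ l ≤ j ∧ j ≤ t.length ∧
  TIW.hn (vx oo up t i - vx oo up t j) ≤ 2 ^ (K - c) ∧ 2 * 2 ^ (K - a) ≤ TIW.hn (vx oo up t i) ∧
    2 * 2 ^ (K - a) ≤ TIW.hn (vx oo up t i - vx oo up t l)}

/-- **near touches away from the start are rare** -/
theorem nt_far (a : ℕ) (ε : ℝ) (hε : 0 < ε) : ∃ c K0 : ℕ, ∀ K, K0 ≤ K →
    gf (NtF K a c) ≤ ENNReal.ofReal (ε * Ub K) * Xb K ^ 2 := by
  obtain ⟨c, K0, h⟩ := PW.hump0 (ε / 441) a (by positivity)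
  refine ⟨c, K0 + 2, fun K hK => ?_⟩
  have h2K : (1 : ℤ) ≤ 2 ^ K := one_le_pow₀ (by norm_num)
  have h1 := ends_sum (D := 10 * 2 ^ K + 1) (E := NtF K a c)
    (G := ENNReal.ofReal (ε / 441 * (Ub K / 4 ^ K)) * Xb K ^ 2) ?_ ?_
  rotate_left
  · rintro t ⟨ht, -⟩
    have h3 := TIW.hn_WL ht (le_refl t.length)
    push_cast
    linarith
  · intro y
    refine (gf_mono ?_).trans (h K y 0 (by omega) rfl)
    · rintro t ⟨hy, ht, i, l, j, h1, h2, h3, h4, h5, h6⟩
      obtain ⟨d1, e1⟩ := NPR.Fast.hn_lvl h5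
      rw [TIW.hn_sub_comm] at h6
      obtain ⟨d2, e2⟩ := NPR.Fast.hn_lvl h6
      refine ⟨hy, ht, ?_, i, l, j, h1, h2, h3, ?_, ⟨d1, by linarith⟩, ⟨d2, by linarith⟩⟩
      · intro i j hij hj heq
        rw [add_zero] at heq
        exact absurd (ht.1.inj i j hij (by omega) heq) (by simp)
      · rw [add_zero]
        have h7 : TIW.hn (vx oo up t i - vx oo up t j) < 2 ^ (K - c) + 1 := by linarith
        obtain ⟨h8, h9⟩ := PW.coord_lt h7
        rw [Prod.fst_sub] at h8
        rw [Prod.snd_sub] at h9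
        refine ⟨?_, ?_⟩
        · push_cast
          linarith
        · push_cast
          linarith
  refine h1.trans ?_
  have hU := Ub_pos K
  rw [← ENNReal.ofReal_natCast, ← mul_assoc, ← ENNReal.ofReal_mul (Nat.cast_nonneg _)]
  refine mul_le_mul_left (ENNReal.ofReal_le_ofReal ?_) _
  have h4 : (4 : ℝ) ≤ 2 ^ K := by
    calc (4 : ℝ) = 2 ^ 2 := by norm_num
      _ ≤ 2 ^ K := pow_le_pow_right₀ (by norm_num) (by omega)
  have e4 : (4 : ℝ) ^ K = 2 ^ K * 2 ^ K := by
    rw [← mul_pow]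
    norm_num
  have h5 : (((2 * (10 * 2 ^ K + 1) + 1) ^ 2 : ℕ) : ℝ) ≤ 441 * 4 ^ K := by
    push_cast
    rw [e4]
    nlinarith
  calc (((2 * (10 * 2 ^ K + 1) + 1) ^ 2 : ℕ) : ℝ) * (ε / 441 * (Ub K / 4 ^ K)) ≤ 441 * 4 ^ K * (ε / 441 * (Ub K / 4 ^ K)) := by
        gcongr
    _ = ε * Ub K := by field_simp

/-- **the plain bound for near touches** -/
theorem plNt_of (hB : BallSt) : PlNt := by
  intro k ε hε
  obtain ⟨aB, KB, -, hball⟩ := hB (ε / 3) (by positivity)
  obtain ⟨C, hC, hFK⟩ := FK_shift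
  obtain ⟨a1, ha1⟩ : ∃ a1, a1 = aB + k + 6 := ⟨_, rfl⟩
  obtain ⟨c1, K1, hn1⟩ := nt_far a1 (ε / 3) (by positivity)
  obtain ⟨c2, K2, hn2⟩ := nt_far (a1 + 3) (ε / (9 * C ^ 3)) (by positivity)
  obtain ⟨e, he⟩ : ∃ e, e = c1 + c2 + a1 + 4 := ⟨_, rfl⟩
  refine ⟨e, KB + K1 + K2 + e + 4, by omega, by omega, fun K hK => ?_⟩
  obtain ⟨X, hX⟩ : ∃ X : ℤ, X = 2 ^ (K - a1) := ⟨_, rfl⟩
  have hX1 : 1 ≤ X := by rw [hX]; exact one_le_pow₀ (by norm_num)
  have hXk : 64 * X ≤ 2 ^ (K - k) := by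
    rw [hX, show (64 : ℤ) = 2 ^ 6 by norm_num, ← pow_add]
    exact pow_le_pow_right₀ (by norm_num) (by omega)
  have hXe : 16 * (2 : ℤ) ^ (K - e) ≤ X := by
    rw [hX, show (16 : ℤ) = 2 ^ 4 by norm_num, ← pow_add]
    exact pow_le_pow_right₀ (by norm_num) (by omega)
  have he1 : (1 : ℤ) ≤ 2 ^ (K - e) := one_le_pow₀ (by norm_num)
  have hXB : 8 * X ≤ 2 ^ (K - aB) := by
    rw [hX, show (8 : ℤ) = 2 ^ 3 by norm_num, ← pow_add]
    exact pow_le_pow_right₀ (by norm_num) (by omega)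
  obtain ⟨R, hR⟩ : ∃ R : Set (List Bool), R = {t | t ∈ WL K ∧ (rev t).drop 1 ∈ NtF (K + 3) (a1 + 3) c2} := ⟨_, rfl⟩
  have hdir : ∀ d ∈ dirs, TIW.hn d = 2 := by decide
  have hcov : {t | t ∈ WL K ∧ t ∈ NTp (2 ^ (K - e)) (2 ^ (K - k))} ⊆
      (NtF K a1 c1 ∪ R) ∪ {t | t ∈ SA ∧ TIW.hn (TIW.en t) ≤ 2 ^ (K - aB)} := by
    rintro t ⟨ht, a, s, b, has, hsb, hb, d1, d2⟩
    have g1 : 15 * X ≤ TIW.hn (vx oo up t s - vx oo up t b) := by
      have h1 := TIW.hn_tri (vx oo up t a) (vx oo up t b) (vx oo up t s)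
      rw [TIW.hn_sub_comm (vx oo up t b)] at h1
      linarith
    rcases le_or_gt (2 * X) (TIW.hn (vx oo up t a)) with hA | hA
    · -- far from the start
      left; left
      refine ⟨ht, a, s, b, has, hsb, hb, d1.trans ?_, by rw [← hX]; exact hA, by rw [← hX]; linarith⟩
      exact pow_le_pow_right₀ (by norm_num) (by omega)
    rcases le_or_gt (2 * X) (TIW.hn (vx oo up t b - vx oo up t t.length)) with hE | hE
    · -- far from the end: the reversed word
      left; right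
      rw [hR]
      refine ⟨ht, NPR.DW_WL ?_ (NPR.DW_rev (NPR.WL_DW ht)), ?_⟩
      · have h2K : (1 : ℤ) ≤ 2 ^ K := one_le_pow₀ (by norm_num)
        rw [pow_add]
        linarith
      obtain ⟨c, hc, hf⟩ := TIP.RevM.rev_frame1 t
      have hn1 : nrm c = 1 := mem_dirs.1 hc
      have hf' : ∀ i, i ≤ t.length → vx oo up t i = vx oo up t t.length + mulE c (vx oo up ((rev t).drop 1) (t.length - i)) := by
        intro i hi
        have := hf (t.length - i) (by omega)
        rwa [show t.length - (t.length - i) = i by omega] at this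
      have hd : ∀ i j, i ≤ t.length → j ≤ t.length → TIW.hn (vx oo up t i - vx oo up t j) =
          TIW.hn (vx oo up ((rev t).drop 1) (t.length - i) - vx oo up ((rev t).drop 1) (t.length - j)) := by
        intro i j hi hj
        rw [hf' i hi, hf' j hj, add_sub_add_left_eq_sub, ← mulE_sub, TIW.hn_mulE hn1]
      have h0 : vx oo up ((rev t).drop 1) 0 = 0 := rfl
      -- the first vertex
      obtain ⟨a', ha', ha's, had⟩ : ∃ a', 1 ≤ a' ∧ a' ≤ s ∧ TIW.hn (vx oo up t a' - vx oo up t b) ≤ 2 ^ (K - e) + 2 := by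
        rcases Nat.eq_zero_or_pos a with h | h
        · subst h
          have hs0 : s ≠ 0 := by
            rintro rfl
            rw [sub_self] at d2
            have : TIW.hn (0 : Pt) = 0 := rfl
            rw [this] at d2
            have : (0 : ℤ) < 2 ^ (K - k) := by positivity
            linarith
          refine ⟨1, le_rfl, by omega, ?_⟩
          have h1 := TIW.hn_tri (vx oo up t 1) (vx oo up t 0) (vx oo up t b)
          have h2 : vx oo up t 1 - vx oo up t 0 = dx up t 0 := by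
            rw [vx_succ, add_sub_cancel_left]
          rw [h2, hdir _ (dx_mem up_dirs t 0)] at h1
          linarith
        · exact ⟨a, h, has, by linarith⟩
      refine ⟨t.length - b, t.length - s, t.length - a', by omega, by omega, ?_, ?_, ?_, ?_⟩
      · rw [List.length_drop, rev_length]
        omega
      · rw [← hd b a' hb (by omega), TIW.hn_sub_comm]
        refine had.trans ?_
        have h1 : 8 * (2 : ℤ) ^ (K - e) ≤ 2 ^ (K + 3 - c2) := by
          rw [show (8 : ℤ) = 2 ^ 3 by norm_num, ← pow_add]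
          exact pow_le_pow_right₀ (by norm_num) (by omega)
        linarith
      · have h1 := hd b t.length hb le_rfl
        rw [Nat.sub_self, h0, sub_zero] at h1
        rw [← h1, show K + 3 - (a1 + 3) = K - a1 by omega, ← hX]
        exact hE
      · rw [← hd b s hb (by omega), show K + 3 - (a1 + 3) = K - a1 by omega, ← hX, TIW.hn_sub_comm]
        linarith
    · -- near the start and near the end
      right
      refine ⟨ht.1, ?_⟩
      have h1 := TIW.hn_add (vx oo up t t.length - vx oo up t b) (vx oo up t b)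
      have h2 := TIW.hn_add (vx oo up t b - vx oo up t a) (vx oo up t a)
      rw [sub_add_cancel] at h1 h2
      rw [TIW.hn_sub_comm] at d1 hE
      show TIW.hn (vx oo up t t.length) ≤ _
      linarith
  refine (gf_mono hcov).trans ((gf_union_le _ _).trans ((add_le_add ((gf_union_le _ _).trans (add_le_add
    (hn1 K (by omega)) ?_)) (hball K (by omega))).trans (le_of_eq ?_) (b := ENNReal.ofReal (ε / 3 * Ub K) * Xb K ^ 2 +
      ENNReal.ofReal (ε / 3 * Ub K) * Xb K ^ 2 + ENNReal.ofReal (ε / 3 * Ub K) * Xb K ^ 2)))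
  · have h1 : gf R ≤ 3 * gf (NtF (K + 3) (a1 + 3) c2) := NPR.gf_rev1 fun t ht => by
      rw [hR] at ht
      exact ht.2
    have h2 := hn2 (K + 3) (by omega)
    have hU := Ub_pos K
    have hU3 := Ub_pos (K + 3)
    refine h1.trans ((mul_le_mul_right h2 _).trans ?_)
    rw [ENNReal.ofReal_mul (by positivity), mul_assoc (ENNReal.ofReal (ε / (9 * C ^ 3)))]
    refine (mul_le_mul_right (mul_le_mul_right (hFK K 3) _) _).trans (le_of_eq ?_)
    rw [← mul_assoc, ← mul_assoc, ← mul_assoc, show (3 : ℝ≥0∞) = ENNReal.ofReal 3 by norm_num,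
      ← ENNReal.ofReal_mul (by norm_num), ← ENNReal.ofReal_mul (by positivity), ← ENNReal.ofReal_mul (by positivity)]
    congr 2
    field_simp
    ring
  · have hU := Ub_pos K
    rw [← add_mul, ← add_mul, ← ENNReal.ofReal_add (by positivity) (by positivity),
      ← ENNReal.ofReal_add (by positivity) (by positivity)]
    congr 2
    ring

/-- **row PlNt, no hypothesis** -/
theorem plNt : PlNt := plNt_of ballSt

end ARM

end HexObs
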