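import Pool.Agent.ARM.TipT
import Pool.Agent.ARM.Num
import Pool.Agent.JNT.LowM

/-!
ARM, row T (helper73): **the tip lemma in the class of the words with both ends close**, `tipF_all : TipF`.
-/

set_option autoImplicit false

namespace HexObs

namespace ARM

open Finset TS SDN NTW NTA SIM TIP

open scoped ENNReal

/-- the mean length against ml -/
lemma mZ_ml : ∃ a : ℝ, 1 ≤ a ∧ ∀ i : ℕ, PW.mZ (2 ^ i) ≤ a * ml i := by
  obtain ⟨C, hC, h⟩ := JNT.zUp_M
  refine ⟨max 1 C, le_max_left _ _, fun i => (h (2 ^ i) Nat.one_le_two_pow).trans ?_⟩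
  have h1 : (((2 ^ i : ℕ) : ℝ)) ^ (4 / 3 : ℝ) = ml i := by
    unfold ml
    push_cast
    rw [← Real.rpow_natCast, ← Real.rpow_mul (by norm_num)]
    congr 1
    ring
  rw [h1]
  exact mul_le_mul_of_nonneg_right (le_max_right _ _) (ml_pos i).le

/-- the words of F n i from which at most t units have been removed -/
def PF (a : ℝ) (n i t : ℕ) : Set (List Bool) :=
  {L | L ∈ SA ∧ (n : ℝ) - t * (a * ml i) ≤ L.length ∧ (L.length : ℝ) < n + (t + 1) * (a * ml i) ∧
    ((TIW.hn (TIW.en L) : ℤ) : ℝ) ≤ (t + 1) * 2 ^ i}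

lemma PF_mono (a : ℝ) (ha : 1 ≤ a) (n i : ℕ) {t t' : ℕ} (h : t ≤ t') : PF a n i t ⊆ PF a n i t' := by
  rintro L ⟨h1, h2, h3, h4⟩
  have hm := ml_pos i
  have ht : (t : ℝ) ≤ t' := by exact_mod_cast h
  have hx : 0 ≤ a * ml i := by positivity
  refine ⟨h1, ?_, ?_, ?_⟩
  · have : (t : ℝ) * (a * ml i) ≤ t' * (a * ml i) := mul_le_mul_of_nonneg_right ht hx
    linarith
  · have : ((t : ℝ) + 1) * (a * ml i) ≤ (t' + 1) * (a * ml i) := mul_le_mul_of_nonneg_right (by linarith) hx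
    linarith
  · exact h4.trans (mul_le_mul_of_nonneg_right (by linarith) (by positivity))

/-- the mass of the classes -/
lemma PF_mass {a D : ℝ} (ha : 1 ≤ a) (hD : 0 ≤ D) {n i : ℕ} (hH : HF D n i) (t : ℕ) :
    gf (PF a n i t) ≤ ENNReal.ofReal (4 * (8 * a) ^ 4 * D * (((t : ℝ) + 1) ^ 4 * pr n i)) := by
  have hm := ml_pos i
  have hx : 0 ≤ a * ml i := by positivity
  have ha0 : 0 < a := by linarith
  -- the level
  have hex : ∃ s : ℕ, 4 * a * ((t : ℝ) + 1) ≤ 2 ^ s :=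
    (pow_unbounded_of_one_lt (4 * a * ((t : ℝ) + 1)) (one_lt_two (α := ℝ))).imp fun s hs => hs.le
  obtain ⟨s, hs1, hs2⟩ : ∃ s : ℕ, 4 * a * ((t : ℝ) + 1) ≤ 2 ^ s ∧ (2 : ℝ) ^ s ≤ 8 * a * ((t : ℝ) + 1) := by
    classical
    refine ⟨Nat.find hex, Nat.find_spec hex, ?_⟩
    rcases Nat.eq_zero_or_pos (Nat.find hex) with h | h
    · rw [h, pow_zero]
      have : (0 : ℝ) ≤ t := Nat.cast_nonneg t
      nlinarith
    · have h1 := Nat.find_min hex (show Nat.find hex - 1 < Nat.find hex by omega)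
      rw [not_le] at h1
      have h2 : (2 : ℝ) ^ Nat.find hex = 2 * 2 ^ (Nat.find hex - 1) := by
        rw [← pow_succ']
        congr 1
        omega
      rw [h2]
      linarith
  obtain ⟨y, hy⟩ : ∃ y : ℕ, y = ⌊(t : ℝ) * (a * ml i)⌋₊ := ⟨_, rfl⟩
  have hy1 : (y : ℝ) ≤ t * (a * ml i) := by
    rw [hy]
    exact Nat.floor_le (by positivity)
  have hms : (2 : ℝ) ^ s * ml i ≤ ml (i + s) := by
    rw [ml_add]
    refine mul_le_mul_of_nonneg_right ?_ hm.le
    rw [← Real.rpow_natCast]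
    refine Real.rpow_le_rpow_of_exponent_le (by norm_num) ?_
    have : (0 : ℝ) ≤ s := Nat.cast_nonneg s
    linarith
  have ht0 : (0 : ℝ) ≤ t := Nat.cast_nonneg t
  have hbig : (2 * (t : ℝ) + 1) * (a * ml i) + t * (a * ml i) ≤ ml (i + s) := by
    refine le_trans ?_ hms
    have h1 : 4 * a * ((t : ℝ) + 1) * ml i ≤ 2 ^ s * ml i := mul_le_mul_of_nonneg_right hs1 hm.le
    have h2 : (2 * (t : ℝ) + 1) * (a * ml i) + t * (a * ml i) = (3 * t + 1) * (a * ml i) := by ring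
    rw [h2]
    nlinarith
  have hsub : PF a n i t ⊆ F (n - y) (i + s) := by
    rintro L ⟨h1, h2, h3, h4⟩
    rw [mem_F]
    have hny : n - y ≤ L.length := by
      by_contra hcon
      have h5 : L.length + y + 1 ≤ n := by omega
      have h6 : (L.length : ℝ) + y + 1 ≤ n := by exact_mod_cast h5
      have h7 : (t : ℝ) * (a * ml i) < y + 1 := by
        rw [hy]
        exact Nat.lt_floor_add_one _
      linarith
    refine ⟨h1, hny, ?_, ?_⟩
    · have h5 : (n : ℝ) ≤ ((n - y : ℕ) : ℝ) + y := by exact_mod_cast (by omega : n ≤ n - y + y)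
      nlinarith
    · have h5 : ((t : ℝ) + 1) ≤ 2 ^ s := by
        refine le_trans ?_ hs1
        nlinarith
      have h6 : ((TIW.hn (TIW.en L) : ℤ) : ℝ) ≤ (2 : ℝ) ^ (i + s) := by
        refine h4.trans ?_
        rw [pow_add, mul_comm]
        exact mul_le_mul_of_nonneg_left h5 (by positivity)
      exact_mod_cast h6
  refine (gf_mono hsub).trans ((hH (n - y) (i + s) (by omega) (by omega)).trans (ENNReal.ofReal_le_ofReal ?_))
  have k1 := pr_sub n y (i + s)
  have k2 := pr_up n i s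
  have hp := pr_pos n i
  have hms0 := ml_pos (i + s)
  have k3 : (1 + (y : ℝ) / ml (i + s)) ^ (3 / 2 : ℝ) ≤ 4 := by
    have h1 : 1 + (y : ℝ) / ml (i + s) ≤ 2 := by
      have : (y : ℝ) / ml (i + s) ≤ 1 := by
        rw [div_le_one hms0]
        nlinarith
      linarith
    have h0 : (0 : ℝ) ≤ 1 + (y : ℝ) / ml (i + s) := by positivity
    have h4 : (1 + (y : ℝ) / ml (i + s)) ^ (3 / 2 : ℝ) ≤ (2 : ℝ) ^ (3 / 2 : ℝ) := Real.rpow_le_rpow h0 h1 (by norm_num)
    have h5 : (2 : ℝ) ^ (3 / 2 : ℝ) ≤ (2 : ℝ) ^ (2 : ℝ) := Real.rpow_le_rpow_of_exponent_le (by norm_num) (by norm_num)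
    have h6 : (2 : ℝ) ^ (2 : ℝ) = 4 := by
      rw [show (2 : ℝ) = ((2 : ℕ) : ℝ) by norm_num, Real.rpow_natCast]
      norm_num
    linarith
  have k4 : (2 : ℝ) ^ ((91 / 24 : ℝ) * (s : ℝ)) ≤ (8 * a * ((t : ℝ) + 1)) ^ 4 := by
    have h1 : (2 : ℝ) ^ ((91 / 24 : ℝ) * (s : ℝ)) ≤ (2 : ℝ) ^ ((4 : ℝ) * (s : ℝ)) := by
      refine Real.rpow_le_rpow_of_exponent_le (by norm_num) ?_
      have : (0 : ℝ) ≤ s := Nat.cast_nonneg s
      linarith
    have h2 : (2 : ℝ) ^ ((4 : ℝ) * (s : ℝ)) = ((2 : ℝ) ^ s) ^ 4 := by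
      rw [mul_comm, Real.rpow_mul (by norm_num), Real.rpow_natCast]
      rw [show (4 : ℝ) = ((4 : ℕ) : ℝ) by norm_num, Real.rpow_natCast]
    rw [h2] at h1
    exact h1.trans (pow_le_pow_left₀ (by positivity) hs2 _)
  have hpu := pr_pos n (i + s)
  calc D * pr (n - y) (i + s) ≤ D * (4 * ((8 * a * ((t : ℝ) + 1)) ^ 4 * pr n i)) := by
        refine mul_le_mul_of_nonneg_left (k1.trans ?_) hD
        refine mul_le_mul k3 (k2.trans (mul_le_mul_of_nonneg_right k4 hp.le)) hpu.le (by norm_num)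
    _ = 4 * (8 * a) ^ 4 * D * (((t : ℝ) + 1) ^ 4 * pr n i) := by ring

/-- short narrow words end close -/
lemma shE_end {k i : ℕ} (hk : k ≤ i) {e : List Bool} (he : ShE k e) : TIW.hn (TIW.en e) ≤ 10 * 2 ^ i := by
  have h1 := he.2.1 e.length le_rfl
  have h2 : (2 : ℤ) ^ k ≤ 2 ^ i := pow_le_pow_right₀ (by norm_num) hk
  have h3 : (1 : ℤ) ≤ 2 ^ k := one_le_pow₀ (by norm_num)
  have hf := h1 false
  have ht := h1 true
  push_cast at hf ht
  unfold row at hf ht
  have h4 : |lvl false (TIW.en e)| ≤ 3 * 2 ^ k + 2 := by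
    unfold TIW.en
    rw [abs_le] at hf ⊢
    constructor <;> omega
  have h5 : |lvl true (TIW.en e)| ≤ 3 * 2 ^ k + 2 := by
    unfold TIW.en
    rw [abs_le] at ht ⊢
    constructor <;> omega
  have h6 : TIW.hn (TIW.en e) ≤ (3 * 2 ^ k + 2) + (3 * 2 ^ k + 2) := by
    have e1 : ∀ p : Pt, lvl false p = ip p up := fun _ => rfl
    have e2 : ∀ p : Pt, lvl true p = ip p (-1, 0) := fun _ => rfl
    rw [e1] at h4
    rw [e2] at h5
    clear hf ht h1
    unfold TIW.hn
    generalize TIW.en e = q at h4 h5 ⊢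
    obtain ⟨x, y⟩ := q
    simp only [ip, up, rotL, rotR] at h4 h5 ⊢
    rw [abs_le] at h4 h5
    refine max_le ?_ (max_le ?_ ?_) <;> rw [abs_le] <;> constructor <;> omega
  omega

/-- **row T** -/
theorem tipF_all : TipF := by
  intro η hη
  obtain ⟨a, ha, hma⟩ := mZ_ml
  obtain ⟨C, hC, hT⟩ := tipT η ((2 : ℝ) ^ 4) hη (by norm_num)
  have ha0 : 0 < a := by linarith
  refine ⟨C * (4 * (8 * a) ^ 4 * 11 ^ 4), by positivity, fun D n i b hD hH hb => ?_⟩
  have hm := ml_pos i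
  have hx : 0 < a * ml i := by positivity
  have hp := pr_pos n i
  obtain ⟨M, hM⟩ : ∃ M : ℕ → ℝ≥0∞, M = fun t : ℕ => ENNReal.ofReal (4 * (8 * a) ^ 4 * D *
    (((t : ℝ) + 11) ^ 4 * pr n i)) := ⟨_, rfl⟩
  have hbound : ∀ t, gf (PF a n i (t + 10)) ≤ M t := by
    intro t
    rw [hM]
    refine (PF_mass ha hD hH (t + 10)).trans (le_of_eq ?_)
    push_cast
    congr 3
    ring
  have hens : EnsT (PF a n i) M i ((2 : ℝ) ^ 4) := by
    refine ⟨fun t L hL => hL.1, fun t s A Z hAZ hZ hZh hs => ?_, fun t => ?_, fun t k hk => ?_, fun t s => ?_⟩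
    · obtain ⟨h1, h2, h3, h4⟩ := hAZ
      obtain ⟨g1, g2⟩ := hs
      have g3 : (Z.length : ℝ) ≤ 2 ^ s * (a * ml i) := g1.trans (mul_le_mul_of_nonneg_left (hma i) (by positivity))
      rw [List.length_append] at h2 h3
      push_cast at h2 h3 ⊢
      have hZ0 : (0 : ℝ) ≤ Z.length := Nat.cast_nonneg _
      refine ⟨?_, ?_, ?_, ?_⟩
      · have := SA_take h1 A.length
        rwa [List.take_left' rfl] at this
      · push_cast
        linarith
      · push_cast
        have : (0 : ℝ) ≤ 2 ^ s * (a * ml i) := by positivity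
        linarith
      · have h5 : TIW.hn (TIW.en A) ≤ TIW.hn (TIW.en (A ++ Z)) + TIW.hn (TIW.en Z) := by
          have e : TIW.en A = TIW.en (A ++ Z) - mulE (TIW.rt A) (TIW.en Z) := by
            have e1 : TIW.en (A ++ Z) = TIW.en A + mulE (TIW.rt A) (TIW.en Z) := by
              unfold TIW.en
              rw [List.length_append, TIW.vx_app]
              rfl
            rw [e1]
            abel
          have h6 := TIW.hn_sub (TIW.en (A ++ Z)) (mulE (TIW.rt A) (TIW.en Z))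
          rw [← e, TIW.hn_mulE (TIW.nrm_rt A)] at h6
          exact h6
        have h6 := g2 Z.length le_rfl
        have h7 : ((TIW.hn (TIW.en A) : ℤ) : ℝ) ≤ ((TIW.hn (TIW.en (A ++ Z)) : ℤ) : ℝ) + ((TIW.hn (TIW.en Z) : ℤ) : ℝ) := by
          exact_mod_cast h5
        have h8 : ((TIW.hn (TIW.en Z) : ℤ) : ℝ) ≤ 2 ^ s * 2 ^ i := h6
        push_cast
        calc ((TIW.hn (TIW.en A) : ℤ) : ℝ) ≤ ((t : ℝ) + 1) * 2 ^ i + 2 ^ s * 2 ^ i := by linarith
          _ = ((t : ℝ) + 2 ^ s + 1) * 2 ^ i := by ring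
    · exact (gf_mono (PF_mono a ha n i (by omega))).trans (hbound t)
    · refine (gf_mono ?_).trans (hbound t)
      rintro T ⟨hT1, L, ⟨h1, h2, h3, h4⟩, e, he, rfl⟩
      have hel : (e.length : ℝ) ≤ a * ml i := by
        refine he.2.2.trans ?_
        obtain ⟨j, rfl⟩ := Nat.exists_eq_add_of_le hk
        exact (m_monoM k j).trans (hma _)
      have he0 : (0 : ℝ) ≤ e.length := Nat.cast_nonneg _
      refine ⟨hT1, ?_, ?_, ?_⟩
      · rw [List.length_append]
        push_cast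
        nlinarith
      · rw [List.length_append]
        push_cast
        nlinarith
      · have e1 : TIW.en (L ++ e) = TIW.en L + mulE (TIW.rt L) (TIW.en e) := by
          unfold TIW.en
          rw [List.length_append, TIW.vx_app]
          rfl
        have h5 := TIW.hn_add (TIW.en L) (mulE (TIW.rt L) (TIW.en e))
        rw [← e1, TIW.hn_mulE (TIW.nrm_rt L)] at h5
        have h6 := shE_end hk he
        have h7 : ((TIW.hn (TIW.en (L ++ e)) : ℤ) : ℝ) ≤ ((TIW.hn (TIW.en L) : ℤ) : ℝ) + 10 * 2 ^ i := by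
          exact_mod_cast h5.trans (add_le_add le_rfl h6)
        push_cast
        calc ((TIW.hn (TIW.en (L ++ e)) : ℤ) : ℝ) ≤ ((t : ℝ) + 1) * 2 ^ i + 10 * 2 ^ i := by linarith
          _ = ((t : ℝ) + 10 + 1) * 2 ^ i := by ring
    · rw [hM]
      simp only
      rw [← ENNReal.ofReal_mul (by positivity)]
      refine ENNReal.ofReal_le_ofReal ?_
      push_cast
      have h1 : (t : ℝ) + 2 ^ s + 11 ≤ 2 ^ (s + 1) * (t + 11) := by
        have h2 : (1 : ℝ) ≤ 2 ^ s := one_le_pow₀ (by norm_num)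
        have h3 : (0 : ℝ) ≤ t := Nat.cast_nonneg t
        rw [pow_succ]
        nlinarith
      have h2 : ((t : ℝ) + 2 ^ s + 11) ^ 4 ≤ (2 ^ (s + 1) * (t + 11)) ^ 4 := pow_le_pow_left₀ (by positivity) h1 _
      calc 4 * (8 * a) ^ 4 * D * (((t : ℝ) + 2 ^ s + 11) ^ 4 * pr n i)
          ≤ 4 * (8 * a) ^ 4 * D * ((2 ^ (s + 1) * (t + 11)) ^ 4 * pr n i) := by gcongr
        _ = ((2 : ℝ) ^ 4) ^ (s + 1) * (4 * (8 * a) ^ 4 * D * (((t : ℝ) + 11) ^ 4 * pr n i)) := by
            rw [mul_pow ((2 : ℝ) ^ (s + 1)) _ 4, ← pow_mul, ← pow_mul, mul_comm (s + 1) 4]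
            ring
  have key := hT (PF a n i) M i hens b 0 hb
  have hsub : F n i ⊆ PF a n i 0 := by
    intro L hL
    rw [mem_F] at hL
    obtain ⟨h1, h2, h3, h4⟩ := hL
    refine ⟨h1, ?_, ?_, ?_⟩
    · have : (n : ℝ) ≤ L.length := by exact_mod_cast h2
      simpa using this
    · have : ml i ≤ a * ml i := le_mul_of_one_le_left hm.le ha
      simp only [Nat.cast_zero, zero_add, one_mul]
      linarith
    · have h5 : ((TIW.hn (TIW.en L) : ℤ) : ℝ) ≤ 2 ^ i := by exact_mod_cast h4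
      simpa using h5
  refine (mul_le_mul_left (gf_mono (Set.inter_subset_inter_left _ hsub)) _).trans (key.trans (le_of_eq ?_))
  rw [hM]
  simp only
  rw [← ENNReal.ofReal_mul hC.le]
  congr 1
  push_cast
  ring

end ARM

end HexObs
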