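import Pool.Agent.ARM.NtR
import Pool.Agent.ARM.NtN
import Pool.Agent.ARM.NtP
import Pool.Agent.ARM.LMass
import Pool.Agent.ARM.TipF
import Pool.Agent.ARM.EsAll
import Pool.Agent.ARM.NoRich
import Pool.Agent.ARM.Conf
import Pool.Agent.TIP.GeoZ

/-!
ARM, row Q (helper65): `NtSt` without hypotheses.
-/

set_option autoImplicit false

namespace HexObs

namespace ARM

open TIP

theorem exF : ExF := exF_of tipF_all

theorem nWin {κ : ℝ} {C : ℕ} (hκ : 0 < κ) (hR : RegZ κ C) : NWin κ C :=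
  nWin_of hκ exF (yBadWSt yMassJ hR) (noR hR confSt) hfLow

/-- **row Q** -/
theorem ntSt : NtSt := by
  obtain ⟨κ, hκ, C, -, hR⟩ := regZ_all
  exact ntSt_of hκ exF yMassJ (nWin hκ hR) ynSt plNt

end ARM

end HexObs
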