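import Pool.Agent.ARM.Smooth
import Pool.Agent.ARM.InPt

/-!
# ARM: `smL : SmL` (helper25), the smoothing lemma in the form used by the inner bound.
-/

set_option autoImplicit false
set_option linter.ambiguousOpen false

namespace HexObs

namespace ARM

open Finset TS SDN SIM NTA TIP

open scoped ENNReal

/-- **the smoothing lemma, cuts as a parameter** -/
theorem smL : SmL := by
  intro η q hη
  obtain ⟨C, b0, hC, h⟩ := smoothT η q hη
  refine ⟨C, b0, hC, fun b y z hb S WW φ hS => h b y z hb S WW φ fun Y hY => ?_⟩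
  obtain ⟨h1, h2, T, h3, h4, h5⟩ := hS Y hY
  refine ⟨h1, h2, T, h3, fun c hc => ?_, h5⟩
  obtain ⟨a1, a2, a3, a4, a5⟩ := h4 c hc
  refine ⟨a1, a2, a3, a4, a5.trans (mul_le_mul' (ENNReal.ofReal_le_ofReal ?_) le_rfl)⟩
  have hm := ml_pos b
  unfold Sm.bw
  refine pow_le_pow_left₀ (by positivity) ?_ q
  rw [List.length_take, min_eq_left a1]
  exact le_mul_of_one_le_right (by positivity) (by
    have : 0 ≤ (Sm.ex (Y.take c) : ℝ) / 2 ^ b := by positivity
    linarith)

end ARM

end HexObs
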