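import Pool.Agent.ARM.RetW
import Pool.Agent.ARM.DefsI

/-!
# ARM, row I1 (helper44): the mass of the parts with a good start that visit a small ball around their end, go away and end

**`retT_of`** : `RetW → RetT`, by reversal and the tip lemma at the end (`NPR.end_SV`).
-/

set_option autoImplicit false

namespace HexObs

namespace ARM

open Finset TS SDN NTW NTA HexObs.SIM TIP TIW NPR

open scoped ENNReal

/-- **reversal of a word with a good start, any class of ends** -/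
lemma rev_SV {VV : Set (List Bool)} {η : ℝ} {b K i : ℕ} {N Z3 Y : List Bool} (hB : N ++ (Z3 ++ Y) ∈ DW (3 * 2 ^ K))
    (hN : N ∈ BU) (hZ3 : Z3 ∈ BU) (hNh : hgt N ≤ 2 ^ b) (hZh : 2 ^ (b + 1) ≤ hgt Z3) (hnc : η * Ub b ≤ (nc N : ℝ))
    (hi1 : (N ++ Z3).length + 1 ≤ i) (hi2 : i ≤ (N ++ (Z3 ++ Y)).length)
    (hV : ((rev (N ++ (Z3 ++ Y))).drop 1).take ((N ++ (Z3 ++ Y)).length - i) ∈ VV) :
    (rev (N ++ (Z3 ++ Y))).drop 1 ∈ SV VV K b ∩ GT b η := by
  have hlen : (N ++ (Z3 ++ Y)).length = N.length + Z3.length + Y.length := by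
    simp only [List.length_append]
    omega
  rw [List.length_append] at hi1
  have hYl : 1 ≤ Y.length := by omega
  have e1 : (rev (N ++ (Z3 ++ Y))).drop 1 = (rev Y).drop 1 ++ (rev Z3 ++ rev N) := by
    rw [TD.rev_append', TD.rev_append', List.append_assoc, List.drop_append_of_le_length (by rw [rev_length]; exact hYl)]
  have hT : rev Z3 ++ rev N ∈ BU := BU_app (BU_rev hZ3) (BU_rev hN)
  have hTh : 2 ^ (b + 1) ≤ hgt (rev Z3 ++ rev N) := by
    rw [hgt_app (BU_rev hZ3) (BU_rev hN), hgt_eq (Brd_rev (TIP.BU_hgt hZ3))]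
    omega
  have hl1 : ((rev Y).drop 1).length = Y.length - 1 := by rw [List.length_drop, rev_length]
  refine ⟨⟨DW_WL le_rfl (DW_rev hB), ((rev (N ++ (Z3 ++ Y))).drop 1).take ((N ++ (Z3 ++ Y)).length - i),
    ((rev (N ++ (Z3 ++ Y))).drop 1).drop ((N ++ (Z3 ++ Y)).length - i), Y.length - 1,
    (List.take_append_drop _ _).symm, hV, ?_, ?_, ?_⟩, ?_⟩
  · rw [List.length_take, List.length_drop, rev_length, hlen]
    omega
  · rw [List.length_drop, rev_length, hlen]
    omega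
  · rw [e1, lv_fr_app ((rev Y).drop 1) _ hT, ← hl1, vx_append (by omega)]
    have h4 : TIP.fr ((rev Y).drop 1) (vx oo up ((rev Y).drop 1) ((rev Y).drop 1).length) = 0 := by
      unfold TIP.fr tipv
      rw [sub_self]
      unfold mulE
      ext <;> simp
    rw [h4]
    have h5 : lv (0 : Pt) = 0 := by
      rw [lv_ip]
      unfold ip
      simp
    rw [h5]
    have h6 : (2 : ℤ) ^ (b + 1) ≤ hgt (rev Z3 ++ rev N) := by exact_mod_cast hTh
    omega
  · rw [e1]
    refine ne_A (BU_rev hZ3) ?_ (BU_rev hN) ?_ ?_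
    · rwa [hgt_eq (Brd_rev (TIP.BU_hgt hZ3))]
    · rwa [hgt_eq (Brd_rev (TIP.BU_hgt hN))]
    · rwa [nc_rev]

/-- distances from the end are distances from the start of the reversed word -/
lemma dz_rev (W : List Bool) {k : ℕ} (hk : k ≤ W.length) : dz W k = hn (vx oo up ((rev W).drop 1) (W.length - k)) := by
  obtain ⟨c, hc, hf⟩ := RevM.rev_frame1 W
  have h := hf (W.length - k) (by omega)
  rw [show W.length - (W.length - k) = k by omega] at h
  unfold dz TIW.en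
  rw [h, add_sub_cancel_left, hn_mulE (mem_dirs.1 hc)]

/-- words of a ball -/
lemma In_DW {D : ℕ} {W : List Bool} (hW : W ∈ SA) (h : In D W) : W ∈ DW (6 * D) := by
  refine ⟨hW, fun i j hi hj => ?_⟩
  have h1 := hn_le_Bl (h i hi)
  have h2 := hn_le_Bl (h j hj)
  have h3 := hn_sub (vx oo up W i) (vx oo up W j)
  linarith

/-- ends of the reversed words -/
def Vb (l i : ℕ) : Set (List Bool) :=
  {V | ∃ s, s ≤ V.length ∧ 2 ^ i < 4 * hn (vx oo up V s) ∧ hn (TIW.en V) ≤ 2 ^ (l + 1)}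

lemma Vb_Rt {l i c K : ℕ} (hK : K = i + c) : {w | w ∈ WL K ∧ ∃ V ∈ Vb l i, ∃ R, w = V ++ R} ⊆ Rt l i c := by
  rintro w ⟨hw, V, ⟨s, hs, h1, h2⟩, R, rfl⟩
  subst hK
  refine ⟨hw, s, V.length, hs, by rw [List.length_append]; omega, ?_, ?_⟩
  · rw [vx_append (by omega)]
    exact h1
  · rw [vx_append (by omega)]
    exact h2

/-- the geometry -/
lemma St_SV {η : ℝ} {D b l i m c : ℕ} (hi : i = b + m) (hb : b ≠ 0) (hm : 96 * D ≤ 2 ^ m) (hl : l + 5 ≤ i) {W : List Bool}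
    (hW : W ∈ SA) (hS : W ∈ St η D b) (hI : In (2 ^ (i + c)) W) (h0 : 2 ^ i < 8 * dz W 0) (hv : W ∈ Vis l i) :
    (rev W).drop 1 ∈ SV (Vb l i) (i + c + 1) b ∩ GT b η := by
  obtain ⟨S, hS, R, rfl⟩ := hS
  have hS' : if b = 0 then S = [] else ∃ N Z3, S = N ++ Z3 ∧ N ∈ BU ∧ Z3 ∈ BU ∧ hgt N ≤ 2 ^ b ∧ 2 ^ (b + 1) ≤ hgt Z3 ∧
    η * Ub b ≤ (nc N : ℝ) ∧ In (D * 2 ^ b) S := hS
  rw [if_neg hb] at hS'
  obtain ⟨N, Z3, rfl, h1, h2, h3, h4, h5, h6⟩ := hS'
  obtain ⟨a, b', hab, hb', ha, hbig⟩ := hv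
  have e0 : (N ++ Z3) ++ R = N ++ (Z3 ++ R) := List.append_assoc _ _ _
  have hdw : N ++ (Z3 ++ R) ∈ DW (3 * 2 ^ (i + c + 1)) := by
    rw [← e0]
    refine DW_mono ?_ (In_DW hW hI)
    rw [pow_succ]
    push_cast
    linarith
  -- a is behind the start
  have haS : (N ++ Z3).length + 1 ≤ a := by
    by_contra hcon
    have haS : a ≤ (N ++ Z3).length := by omega
    have k1 := hn_le_Bl (h6 a haS)
    have k2 : vx oo up ((N ++ Z3) ++ R) a = vx oo up (N ++ Z3) a := vx_append (by omega)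
    have k3 : dz ((N ++ Z3) ++ R) 0 ≤ hn (vx oo up ((N ++ Z3) ++ R) a) + dz ((N ++ Z3) ++ R) a := by
      unfold dz
      have e : vx oo up ((N ++ Z3) ++ R) 0 = 0 := by
        show oo = _
        exact oo_zero
      rw [e, zero_sub, hn_neg]
      have := hn_sub (vx oo up ((N ++ Z3) ++ R) a) (vx oo up ((N ++ Z3) ++ R) a - TIW.en ((N ++ Z3) ++ R))
      rwa [sub_sub_cancel] at this
    rw [k2] at k3
    have k4 : (96 : ℤ) * D * 2 ^ b ≤ 2 ^ i := by
      rw [hi, pow_add, mul_comm ((2 : ℤ) ^ b)]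
      refine mul_le_mul_of_nonneg_right ?_ (by positivity)
      exact_mod_cast hm
    have k5 : (2 : ℤ) ^ (l + 1) * 16 ≤ 2 ^ i := by
      rw [show (16 : ℤ) = 2 ^ 4 by norm_num, ← pow_add]
      exact pow_le_pow_right₀ (by norm_num) (by omega)
    push_cast at k1
    have k6 : (0 : ℤ) < 2 ^ i := by positivity
    linarith
  have hal : a ≤ ((N ++ Z3) ++ R).length := by omega
  rw [e0] at h0 ha hbig hb' hal ⊢
  refine rev_SV hdw h1 h2 h3 h4 h5 haS hal ?_
  have hlt : (((rev (N ++ (Z3 ++ R))).drop 1).take ((N ++ (Z3 ++ R)).length - a)).length =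
      (N ++ (Z3 ++ R)).length - a := by
    rw [List.length_take, List.length_drop, rev_length]
    omega
  refine ⟨(N ++ (Z3 ++ R)).length - b', ?_, ?_, ?_⟩
  · rw [hlt]
    omega
  · rw [vx_tk (by omega), ← dz_rev _ hb']
    have : (0 : ℤ) < 2 ^ i := by positivity
    linarith
  · unfold TIW.en
    rw [hlt, vx_tk le_rfl, ← dz_rev _ hal]
    exact ha

/-- **row I1** -/
theorem retT_of (hRW : RetW) : RetT := by
  intro θ η D c hθ hη
  obtain ⟨C1, b1, hC1, h1⟩ := hRW θ (c + 4) hθ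
  obtain ⟨C2, hC2, h2⟩ := end_SV hη
  obtain ⟨C3, hC3, h3⟩ := start_plain hη
  obtain ⟨E, hE, hF⟩ := FK_addZ
  obtain ⟨Q, hQ⟩ : ∃ Q : ℝ, Q = 3 * C2 * C1 + 8 * (C3 * E ^ (c + 1)) := ⟨_, rfl⟩
  have hQ0 : 0 < Q := by rw [hQ]; positivity
  obtain ⟨m0, hm0⟩ := pow_unbounded_of_one_lt (96 * D) (by norm_num : 1 < 2)
  refine ⟨(Q + 1) * E, m0 + 1, b1 + 1, by nlinarith, fun b l i m hi hm hb hbl hli => ?_⟩
  have hFb : FK b = ENNReal.ofReal (Ub b) * Xb b * Xb b := by
    unfold FK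
    rw [pow_two, mul_assoc]
  obtain ⟨T, hT⟩ : ∃ T : ℝ, T = (2 : ℝ) ^ ((θ - 2 / 3) * ((i : ℝ) - l)) := ⟨_, rfl⟩
  have hT0 : 0 < T := by rw [hT]; positivity
  have hUb := Ub_pos b
  have hE0 : (0 : ℝ) < E := by linarith
  rw [← hT]
  have hFi : FK i ≤ ENNReal.ofReal (E ^ m) * FK b := by
    rw [hi]
    exact hF b m
  obtain ⟨G, hG⟩ : ∃ G : Set (List Bool), G = {W | W ∈ SA ∧ W ∈ St η D b ∧ In (2 ^ (i + c)) W ∧ 2 ^ i < 8 * dz W 0 ∧
    W ∈ Vis l i} := ⟨_, rfl⟩
  rw [← hG]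
  have key : gf G * Xb b ≤ ENNReal.ofReal (Q * T) * FK i := by
    rcases Nat.lt_or_ge i (l + 5) with hx | hx
    · -- few scales
      have hT1 : 1 ≤ 8 * T := by
        have e8 : (8 : ℝ) = (2 : ℝ) ^ (3 : ℝ) := by norm_num
        rw [hT, e8, ← Real.rpow_add (by norm_num)]
        refine Real.one_le_rpow (by norm_num) ?_
        have k1 : (i : ℝ) ≤ l + 4 := by exact_mod_cast (show i ≤ l + 4 by omega)
        have k2 : (l : ℝ) ≤ i := by exact_mod_cast hli
        nlinarith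
      have k1 := h3 (i + c + 1) b (by omega)
      have k2 : gf G ≤ gf {w | w ∈ WL (i + c + 1) ∧ rev w ∈ GT b η} := by
        refine gf_mono ?_
        rw [hG]
        rintro W ⟨hW, ⟨S, hS, R, rfl⟩, hI, -, -⟩
        refine ⟨DW_WL ?_ (In_DW hW hI), GS_rev (by omega) hS R⟩
        rw [pow_succ]
        push_cast
        linarith
      refine (mul_le_mul_left k2 _).trans (k1.trans ?_)
      have k3 : FK (i + c + 1) ≤ ENNReal.ofReal (E ^ (c + 1)) * FK i := hF i (c + 1)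
      refine (mul_le_mul_right k3 _).trans ?_
      rw [← mul_assoc, ← ENNReal.ofReal_mul (by positivity)]
      refine mul_le_mul_left (ENNReal.ofReal_le_ofReal ?_) _
      rw [hQ]
      have k4 : 0 < C3 * E ^ (c + 1) := by positivity
      have k5 : 0 < 3 * C2 * C1 * T := by positivity
      nlinarith
    · have k1 : gf G ≤ 3 * gf (SV (Vb l i) (i + c + 1) b ∩ GT b η) := by
        refine gf_rev1 ?_
        rw [hG]
        rintro W ⟨hW, hS, hI, h0, hv⟩
        refine St_SV hi (by omega) ?_ hx hW hS hI h0 hv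
        exact hm0.le.trans (Nat.pow_le_pow_right (by norm_num) (by omega))
      have k2 := h2 (Vb l i) (i + c + 1) b _ (by omega) le_rfl
      have k3 : gf {w | w ∈ WL (i + c + 1 + 3) ∧ ∃ V ∈ Vb l i, ∃ R, w = V ++ R} ≤ ENNReal.ofReal (C1 * T) * FK i := by
        refine (gf_mono (Vb_Rt (c := c + 4) (by omega))).trans ?_
        rw [hT]
        exact h1 l i (by omega) hli
      calc gf G * Xb b ≤ 3 * gf (SV (Vb l i) (i + c + 1) b ∩ GT b η) * Xb b := mul_le_mul_left k1 _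
        _ = 3 * (gf (SV (Vb l i) (i + c + 1) b ∩ GT b η) * Xb b) := by rw [mul_assoc]
        _ ≤ 3 * (ENNReal.ofReal C2 * (ENNReal.ofReal (C1 * T) * FK i)) :=
            mul_le_mul_right (k2.trans (mul_le_mul_right k3 _)) _
        _ = ENNReal.ofReal (3 * C2 * C1 * T) * FK i := by
            rw [show (3 : ℝ≥0∞) = ENNReal.ofReal 3 by simp, ← mul_assoc, ← mul_assoc, ← ENNReal.ofReal_mul (by norm_num),
              ← ENNReal.ofReal_mul (by positivity)]
            congr 2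
            ring
        _ ≤ _ := by
            refine mul_le_mul_left (ENNReal.ofReal_le_ofReal ?_) _
            rw [hQ]
            have k4 : 0 < 8 * (C3 * E ^ (c + 1)) * T := by positivity
            linarith
  have hm1 : 1 ≤ m := by omega
  have hQm : Q * E ^ m ≤ ((Q + 1) * E) ^ m := by
    rw [mul_pow]
    refine mul_le_mul_of_nonneg_right ?_ (by positivity)
    calc Q ≤ (Q + 1) ^ 1 := by linarith
      _ ≤ (Q + 1) ^ m := pow_le_pow_right₀ (by linarith) hm1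
  refine (ENNReal.mul_le_mul_iff_left (Xb_ne_zero b) (Xb_ne_top b)).1 (key.trans ?_)
  calc ENNReal.ofReal (Q * T) * FK i ≤ ENNReal.ofReal (Q * T) * (ENNReal.ofReal (E ^ m) * FK b) := mul_le_mul_right hFi _
    _ = ENNReal.ofReal (Q * E ^ m * T * Ub b) * Xb b * Xb b := by
        rw [hFb, ENNReal.ofReal_mul (p := Q * E ^ m * T) (by positivity), ENNReal.ofReal_mul (p := Q * E ^ m) (by positivity),
          ENNReal.ofReal_mul (p := Q) (by positivity), ENNReal.ofReal_mul (p := Q) (by positivity)]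
        ring
    _ ≤ ENNReal.ofReal (((Q + 1) * E) ^ m * T * Ub b) * Xb b * Xb b := by
        refine mul_le_mul_left (mul_le_mul_left (ENNReal.ofReal_le_ofReal ?_) _) _
        gcongr

end ARM

end HexObs
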