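import Pool.Agent.ARM.VisW
import Pool.Agent.ARM.RetT
import Pool.Agent.TIP.GeoZ

/-!
# ARM2 (helper70): `VisS`, `RetW`, `RetT` without hypothesis
-/

set_option autoImplicit false

namespace HexObs

namespace ARM

open Finset TS SDN NTW NTA

open scoped ENNReal

/-- **row VisW in the form of `RetW`** -/
theorem visS : VisS := by
  intro θ hθ
  obtain ⟨C, b0, hC, h⟩ := visI θ hθ
  refine ⟨C, b0, hC, fun l K h1 h2 => (h l K h1 h2).trans (le_of_eq ?_)⟩
  rw [mul_assoc C, mul_assoc C]

/-- **row RetW, no hypothesis** -/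
theorem retW : RetW := by
  obtain ⟨κ, hκ, C, -, hR⟩ := TIP.regZ_all
  exact retW_of hκ hR visS

/-- **row RetT, no hypothesis** -/
theorem retT : RetT := retT_of retW

end ARM

end HexObs
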