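import Pool.Agent.ARM.Sand
import Pool.Agent.ARM.Base
import Pool.Agent.ARM.Conf
import Pool.Agent.ARM.NF
import Pool.Agent.ARM.EsAll
import Pool.Agent.ARM.InSt
import Pool.Agent.ARM.InPt
import Pool.Agent.ARM.JoinR
import Pool.Agent.ARM.VisS
import Pool.Agent.ARM.TipF
import Pool.Agent.ARM.ExF
import Pool.Agent.ARM.LMass
import Pool.Agent.ARM.GlueG
import Pool.Agent.ARM.JMass
import Pool.Agent.ARM.SmL
import Pool.Agent.ARM.NtAll

/-!
ARM: **(T1)**, no hypothesis.
-/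

set_option autoImplicit false

namespace HexObs

namespace ARM

open Finset TS SDN SIM NTA TIP

open scoped ENNReal

/-- **row B3** from B3' -/
theorem yMassW : YMassW := by
  intro η c q hη
  obtain ⟨C, hC, h⟩ := yMassJ η q hη
  obtain ⟨K, hK⟩ : ∃ K : ℝ, K = (2 : ℝ) ^ ((4 / 3 : ℝ) * (c : ℝ)) := ⟨_, rfl⟩
  have hK1 : 1 ≤ K := by rw [hK]; exact Real.one_le_rpow (by norm_num) (by positivity)
  refine ⟨K ^ q * C ^ (c + 1), by positivity, fun b => ?_⟩
  have hm := ml_pos b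
  have hmc := ml_pos (b + c)
  have e1 : ml (b + c) = K * ml b := by rw [hK]; exact ml_add b c
  have hp : ∀ Y : List Bool, wE Y * ENNReal.ofReal ((1 + (Y.length : ℝ) / ml b) ^ q) ≤
      ENNReal.ofReal (K ^ q) * (wE Y * ENNReal.ofReal ((1 + (Y.length : ℝ) / ml (b + c)) ^ q)) := by
    intro Y
    have h1 : (1 + (Y.length : ℝ) / ml b) ≤ K * (1 + (Y.length : ℝ) / ml (b + c)) := by
      rw [e1]
      have h2 : K * (1 + (Y.length : ℝ) / (K * ml b)) = K + (Y.length : ℝ) / ml b := by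
        field_simp
      rw [h2]
      linarith
    have h0 : 0 ≤ (1 + (Y.length : ℝ) / ml b) := by positivity
    calc wE Y * ENNReal.ofReal ((1 + (Y.length : ℝ) / ml b) ^ q)
        ≤ wE Y * ENNReal.ofReal ((K * (1 + (Y.length : ℝ) / ml (b + c))) ^ q) := by
          gcongr
      _ = _ := by
          rw [mul_pow, ENNReal.ofReal_mul (by positivity)]
          ring
  have h2 : ∑' Y : {Y : List Bool | Y ∈ SA ∧ rev Y ∈ GT b η ∧ In (2 ^ (b + c)) Y},
      wE (Y : List Bool) * ENNReal.ofReal ((1 + ((Y : List Bool).length : ℝ) / ml b) ^ q) ≤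
      ∑' Y : {Y : List Bool | Y ∈ SA ∧ rev Y ∈ GT b η ∧ In (2 ^ (b + c)) Y}, ENNReal.ofReal (K ^ q) *
        (wE (Y : List Bool) * ENNReal.ofReal ((1 + ((Y : List Bool).length : ℝ) / ml (b + c)) ^ q)) :=
    ENNReal.tsum_le_tsum fun Y => hp Y
  refine h2.trans ?_
  rw [ENNReal.tsum_mul_left]
  refine (mul_le_mul_right (h b c) _).trans (le_of_eq ?_)
  rw [← mul_assoc, ← ENNReal.ofReal_mul (by positivity)]
  congr 2
  ring

/-- **(T1)** from the open rows -/
theorem t1_in (hSm : SmL) (hNt : NtSt) : T1 := by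
  obtain ⟨κ, hκ, C, -, hR⟩ := regZ_all
  have hE : ExF := exF_of tipF_all
  exact t1_of baseSt confSt (nF_of hκ hE (yBadWSt yMassJ hR) (noR hR confSt) hfLow yMassJ)
    (esSt_in hE (inSt'_of (inPt_of hSm retT yMassJ)) yMassJ) hNt (G2.glueG joinSt jMass yMassW)

/-- **(T1)**, no hypothesis -/
theorem t1 : T1 := t1_in smL ntSt

end ARM

end HexObs
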