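import Pool.Agent.ARM.PMJ
import Pool.Agent.TIP.YBad

/-!
# ARM (helper28): two-ended words with a long factor without rich window

* `QB.core` : the factor lies behind the start and before the end, up to a constant factor of its extent;
* **`qBadM_of`** : `RegZ κ C → QBadM κ C`.
-/

set_option autoImplicit false

namespace HexObs

namespace ARM

open Finset TS SDN HexObs.SIM NTA TIP TIW

open scoped ENNReal

namespace QB

variable {κ : ℝ} {C b : ℕ}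

lemma In_pre {D : ℕ} {A B : List Bool} (h : In D (A ++ B)) : In D A := by
  intro i hi
  have := h i (by rw [List.length_append]; omega)
  rwa [vx_append (by omega)] at this

/-- the last part of a local word is local -/
lemma In_suf {D : ℕ} {A B : List Bool} (h : In D (A ++ B)) : In (4 * D) B := by
  rw [YB.In_iff]
  intro i hi
  obtain ⟨c, hc, -, hf⟩ := drop_frame' (A ++ B) A.length
  rw [List.drop_left'] at hf
  swap
  · rfl
  obtain ⟨a1, a2⟩ := RevM.In_coord h (i := A.length + i) (by rw [List.length_append]; omega)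
  obtain ⟨b1, b2⟩ := RevM.In_coord h (i := A.length) (by rw [List.length_append]; omega)
  obtain ⟨c1, c2⟩ := RevM.coord (hf i) a1 b1 a2 b2
  obtain ⟨d1, d2⟩ := YB.mul_coord' hc c1 c2
  push_cast
  constructor
  · linarith
  · linarith

lemma In_app {D D' : ℕ} {A B : List Bool} (h1 : In D A) (h2 : In D' B) : In (D + 2 * D') (A ++ B) := by
  rw [YB.In_iff]
  intro i hi
  rcases Nat.lt_or_ge A.length i with h | h
  · obtain ⟨j, rfl⟩ : ∃ j, i = A.length + j := ⟨i - A.length, by omega⟩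
    rw [List.length_append] at hi
    obtain ⟨c, hc, -, hf⟩ := drop_frame' (A ++ B) A.length
    rw [List.drop_left'] at hf
    swap
    · rfl
    rw [hf j, vx_append (by omega)]
    obtain ⟨a1, a2⟩ := RevM.In_coord h1 (i := A.length) le_rfl
    obtain ⟨b1, b2⟩ := RevM.In_coord h2 (i := j) (by omega)
    obtain ⟨c1, c2⟩ := YB.mul_coord hc b1 b2
    rw [Prod.fst_add, Prod.snd_add]
    rw [abs_le] at *
    rw [abs_le]
    push_cast
    refine ⟨⟨?_, ?_⟩, ?_, ?_⟩ <;> omega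
  · rw [vx_append (by omega)]
    obtain ⟨a1, a2⟩ := RevM.In_coord h1 (i := i) h
    push_cast
    constructor
    · have : (0 : ℤ) ≤ D' := by positivity
      linarith
    · have : (0 : ℤ) ≤ D' := by positivity
      linarith

/-- removing the start -/
lemma rm_front {D1 N N1 : ℕ} {S U X F Y : List Bool} (hS : In D1 S) (he : S ++ U = X ++ (F ++ Y)) (hF : F ∈ Nz κ C b)
    (hN : ¬ In N F) (h1 : 2 * N1 + 4 * D1 ≤ N) : ∃ X' F' Y', U = X' ++ (F' ++ Y') ∧ F' ∈ Nz κ C b ∧ ¬ In N1 F' := by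
  rcases List.append_eq_append_iff.1 he with ⟨W, h4, h5⟩ | ⟨W, h4, h5⟩
  · -- X = S ++ W
    exact ⟨W, F, Y, h5, hF, fun hI => hN (YB.In_mono (by omega) hI)⟩
  · -- S = X ++ W, F ++ Y = W ++ U
    have hW : In (4 * D1) W := In_suf (A := X) (by rw [← h4]; exact hS)
    rcases List.append_eq_append_iff.1 h5 with ⟨V, h6, h7⟩ | ⟨V, h6, h7⟩
    · -- W = F ++ V
      have h8 : In (4 * D1) F := In_pre (B := V) (by rw [← h6]; exact hW)
      exact absurd (YB.In_mono (by omega) h8) hN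
    · -- F = W ++ V, U = V ++ Y
      refine ⟨[], V, Y, h7, YB.Nz_suf (X := W) (by rw [← h6]; exact hF), ?_⟩
      have e1 : F.drop W.length = V := by rw [h6, List.drop_left' rfl]
      rw [← e1]
      refine YB.not_In_drop (D1 := 4 * D1) hN ?_ h1
      intro i hi _
      obtain ⟨a1, a2⟩ := RevM.In_coord hW (i := i) hi
      have e2 : vx oo up W i = vx oo up F i := by
        rw [h6]
        exact (vx_append (by omega)).symm
      rw [e2] at a1 a2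
      exact ⟨a1, a2⟩

/-- removing the end -/
lemma rm_back {D1 N N2 : ℕ} {R T X F Y : List Bool} (hT : In D1 T) (he : R ++ T = X ++ (F ++ Y)) (hF : F ∈ Nz κ C b)
    (hN : ¬ In N F) (h1 : N2 + 4 * D1 ≤ N) : ∃ X' F' Y', R = X' ++ (F' ++ Y') ∧ F' ∈ Nz κ C b ∧ ¬ In N2 F' := by
  rcases List.append_eq_append_iff.1 he with ⟨W, h4, h5⟩ | ⟨W, h4, h5⟩
  · -- X = R ++ W, T = W ++ (F ++ Y)
    have h6 : In (4 * D1) (F ++ Y) := In_suf (A := W) (by rw [← h5]; exact hT)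
    exact absurd (YB.In_mono (by omega) (In_pre h6)) hN
  · -- R = X ++ W, F ++ Y = W ++ T
    rcases List.append_eq_append_iff.1 h5 with ⟨V, h6, h7⟩ | ⟨V, h6, h7⟩
    · -- W = F ++ V
      exact ⟨X, F, V, by rw [h4, h6], hF, fun hI => hN (YB.In_mono (by omega) hI)⟩
    · -- F = W ++ V, T = V ++ Y
      refine ⟨X, W, [], by rw [h4, List.append_nil], YB.Nz_pre (Y := V) (by rw [← h6]; exact hF), fun hI => hN ?_⟩
      have h8 : In D1 V := In_pre (B := Y) (by rw [← h7]; exact hT)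
      rw [h6]
      exact YB.In_mono (by omega) (In_app hI h8)

/-- **the factor between the start and the end** -/
lemma core {D1 N N' : ℕ} {S R T : List Bool} (hS : In D1 S) (hT : In D1 T) (h1 : 2 * N' + 12 * D1 ≤ N)
    (h : ∃ X F Y, S ++ (R ++ T) = X ++ (F ++ Y) ∧ F ∈ Nz κ C b ∧ ¬ In N F) :
    ∃ X F Y, R = X ++ (F ++ Y) ∧ F ∈ Nz κ C b ∧ ¬ In N' F := by
  obtain ⟨X, F, Y, he, hF, hN⟩ := h
  obtain ⟨X1, F1, Y1, h2, h3, h4⟩ := rm_front (N1 := N' + 4 * D1) hS he hF hN (by omega)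
  exact rm_back (N2 := N') hT h2 h3 h4 (by omega)

lemma GS_In {η : ℝ} {D b : ℕ} (hb : b ≠ 0) {S : List Bool} (hS : S ∈ NPR.GS η D b) : In (D * 2 ^ b) S := by
  have hS' : if b = 0 then S = [] else ∃ N Z3, S = N ++ Z3 ∧ N ∈ BU ∧ Z3 ∈ BU ∧ hgt N ≤ 2 ^ b ∧ 2 ^ (b + 1) ≤ hgt Z3 ∧
    η * Ub b ≤ (nc N : ℝ) ∧ In (D * 2 ^ b) S := hS
  rw [if_neg hb] at hS'
  obtain ⟨N, Z3, -, -, -, -, -, -, h⟩ := hS'
  exact h

lemma GE_In {η : ℝ} {D b : ℕ} (hb : b ≠ 0) {T : List Bool} (hT : T ∈ NPR.GE η D b) : In (D * 2 ^ b) T := by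
  have hT' : if b = 0 then T = [] else ∃ Z1 M, T = Z1 ++ M ∧ Z1 ∈ BU ∧ M ∈ BU ∧ hgt M ≤ 2 ^ b ∧ 2 ^ (b + 1) ≤ hgt Z1 ∧
    η * Ub b ≤ (nc M : ℝ) ∧ In (D * 2 ^ b) T := hT
  rw [if_neg hb] at hT'
  obtain ⟨Z1, M, -, -, -, -, -, -, h⟩ := hT'
  exact h

/-- **two-ended masses with a rare middle part, the cost of the scales explicit** -/
lemma two_mass {η : ℝ} (hη : 0 < η) (D : ℕ) : ∃ C0 c B : ℝ, 0 < C0 ∧ 0 < c ∧ 1 ≤ B ∧ ∀ (b J : ℕ) (QQ : Set (List Bool)) (δ : ℝ),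
    1 ≤ b → 0 < δ → δ ≤ 1 → gf {t | t ∈ WL (b + J + 14) ∧ t ∈ NPR.Fac QQ} ≤ ENNReal.ofReal δ * NPR.FK (b + J + 14) →
    gf {p | p ∈ WL (b + J + 2) ∧ ∃ S ∈ NPR.GS η D b, ∃ R ∈ NPR.Fac QQ, ∃ T ∈ NPR.GE η D b, p = S ++ (R ++ T)} ≤
      ENNReal.ofReal (C0 * δ ^ c * B ^ J * Ub b) := by
  obtain ⟨C0, c, hC0, hc, htwo⟩ := NPR.twoE η D hη
  obtain ⟨B, hB, hup⟩ := NPR.TE_up
  have hB12 : 1 ≤ B ^ 12 := one_le_pow₀ hB
  obtain ⟨Ct, hCt, hpl⟩ := NPR.plainM η D hη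
  refine ⟨(C0 * (B ^ 12) ^ c + Ct * (B ^ 12) ^ c) * B ^ 2, c, B, by positivity, hc, hB, fun b J QQ δ hb hδ hδ1 hQ => ?_⟩
  have hb0 : b ≠ 0 := by omega
  have hU : 0 < Ub b := Ub_pos b
  obtain ⟨K, hK⟩ : ∃ K, K = b + J + 2 := ⟨_, rfl⟩
  have hK12 : b + J + 14 = K + 12 := by omega
  rw [hK12] at hQ
  rw [← hK]
  have hxw : NPR.xw b = Xb b := by
    unfold NPR.xw
    rw [if_neg hb0]
  obtain ⟨P, hP⟩ : ∃ P : Set (List Bool), P = {p | p ∈ WL K ∧ ∃ S ∈ NPR.GS η D b, ∃ R ∈ NPR.Fac QQ, ∃ T ∈ NPR.GE η D b,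
    p = S ++ (R ++ T)} := ⟨_, rfl⟩
  rw [← hP]
  have hsub : P ⊆ NPR.PCQ η D K b b QQ := by
    rw [hP]
    rintro p ⟨h1, S, hS, R, ⟨X, Q, Y, h2, h3⟩, T, hT, rfl⟩
    refine ⟨h1, S, hS, X, Q, h3, Y, T, hT, ?_⟩
    rw [h2]
    simp only [List.append_assoc]
  have hsub' : P ⊆ NPR.PC η D K b b := by
    rw [hP]
    rintro p ⟨h1, S, hS, R, -, T, hT, rfl⟩
    exact ⟨h1, S, hS, R, T, hT, rfl⟩
  have hδ' : gf {t | t ∈ WL (K + 12) ∧ t ∈ NPR.Fac QQ} ≤ ENNReal.ofReal (B ^ 12 * δ) * NPR.FK K := by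
    refine hQ.trans ((mul_le_mul_right (hup K 12) _).trans (le_of_eq ?_))
    rw [← mul_assoc, ← ENNReal.ofReal_mul hδ.le, mul_comm δ]
  have key : gf P * (NPR.xw b * NPR.xw b) ≤ ENNReal.ofReal ((C0 * (B ^ 12) ^ c + Ct * (B ^ 12) ^ c) * δ ^ c) * NPR.FK K := by
    have hq : 0 < δ ^ c := Real.rpow_pos_of_pos hδ _
    have hq' : 0 < (B ^ 12) ^ c := Real.rpow_pos_of_pos (by positivity) _
    rcases le_or_gt (B ^ 12 * δ) 1 with h1 | h1
    · have h2 := htwo K QQ (B ^ 12 * δ) (by positivity) h1 hδ' b b (by omega) (by omega)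
      refine (mul_le_mul_left (gf_mono hsub) _).trans (h2.trans (mul_le_mul_left (ENNReal.ofReal_le_ofReal ?_) _))
      rw [Real.mul_rpow (by positivity) hδ.le]
      have : 0 ≤ Ct * (B ^ 12) ^ c * δ ^ c := by positivity
      nlinarith
    · have h2 := hpl K b b (by omega) (by omega)
      refine (mul_le_mul_left (gf_mono hsub') _).trans (h2.trans (mul_le_mul_left (ENNReal.ofReal_le_ofReal ?_) _))
      have h3 : 1 ≤ (B ^ 12) ^ c * δ ^ c := by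
        rw [← Real.mul_rpow (by positivity) hδ.le]
        exact Real.one_le_rpow h1.le hc.le
      have : 0 ≤ C0 * (B ^ 12) ^ c * δ ^ c := by positivity
      nlinarith
  rw [hxw] at key
  have hFK : NPR.FK K ≤ ENNReal.ofReal (B ^ (J + 2) * Ub b) * Xb b ^ 2 := by
    have h1 := hup b (J + 2)
    rw [show b + (J + 2) = K by omega] at h1
    refine h1.trans (le_of_eq ?_)
    unfold NPR.FK
    rw [← mul_assoc, ← ENNReal.ofReal_mul (by positivity)]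
  have h1 : gf P * Xb b * Xb b ≤ ENNReal.ofReal ((C0 * (B ^ 12) ^ c + Ct * (B ^ 12) ^ c) * δ ^ c * (B ^ (J + 2) * Ub b)) * Xb b *
      Xb b := by
    calc gf P * Xb b * Xb b = gf P * (Xb b * Xb b) := by ring
      _ ≤ ENNReal.ofReal ((C0 * (B ^ 12) ^ c + Ct * (B ^ 12) ^ c) * δ ^ c) * (ENNReal.ofReal (B ^ (J + 2) * Ub b) * Xb b ^ 2) :=
          key.trans (mul_le_mul_right hFK _)
      _ = _ := by
          rw [← mul_assoc, ← ENNReal.ofReal_mul (by positivity)]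
          ring
  have h2 := (ENNReal.mul_le_mul_iff_left (Xb_ne_zero b) (Xb_ne_top b)).1 h1
  refine (div_Xb h2).trans (ENNReal.ofReal_le_ofReal (le_of_eq ?_))
  rw [pow_add]
  ring

end QB

/-- **two-ended words with a long factor without rich window** -/
theorem qBadM_core {κ : ℝ} {C : ℕ} (hR : RegZ κ C) (η : ℝ) (D a c1 : ℕ) (hη : 0 < η) : ∃ J0 b0 : ℕ, ∀ b J : ℕ, b0 ≤ b →
    J0 ≤ J → gf {Q | Q ∈ W2E η D b J ∧ ∃ b' n : ℕ, (b' = b ∨ b' = b + 1) ∧ 2 ^ J ≤ n * 2 ^ c1 ∧ Q ∈ Lz κ C b' n} ≤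
      ENNReal.ofReal ((1 / 2) ^ (a * J) * Ub b) := by
  obtain ⟨C', c, b1, J1, n1, hC', hc, hreg⟩ := hR
  obtain ⟨C0, c2, B, hC0, hc2, hB, htwo⟩ := QB.two_mass hη D
  have hl2 : 0 < Real.log 2 := Real.log_pos one_lt_two
  have hC14 : 1 ≤ C' ^ 14 := one_le_pow₀ hC'
  obtain ⟨J2, hJ2⟩ := YB.num (C' ^ 14) C' (c * Real.log 2) (c1 + 3) (by positivity) hC' (by positivity)
  obtain ⟨J3, hJ3⟩ := YB.num (2 * C0 * (C' ^ 14) ^ c2) (C' ^ c2 * B * 2 ^ a) (c * Real.log 2 * c2) (c1 + 3) (by positivity)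
    (by
      have h1 : 1 ≤ C' ^ c2 := Real.one_le_rpow hC' hc2.le
      have h2 : (1 : ℝ) ≤ 2 ^ a := one_le_pow₀ (by norm_num)
      exact one_le_mul_of_one_le_of_one_le (one_le_mul_of_one_le_of_one_le h1 hB) h2) (by positivity)
  refine ⟨J1 + J2 + J3 + n1 + c1 + 3 + 2 * D, b1 + 1, fun b J hb hJ => ?_⟩
  have hb0 : b ≠ 0 := by omega
  have hU : 0 < Ub b := Ub_pos b
  obtain ⟨n', hn'⟩ : ∃ n', n' = 2 ^ (J - (c1 + 3)) := ⟨_, rfl⟩
  have hn1 : n1 ≤ n' := by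
    rw [hn']
    exact (show n1 ≤ J - (c1 + 3) by omega).trans Nat.lt_two_pow_self.le
  have hnD : 2 * D ≤ n' := by
    rw [hn']
    exact (show 2 * D ≤ J - (c1 + 3) by omega).trans Nat.lt_two_pow_self.le
  have hnr : (n' : ℝ) = 2 ^ (J - (c1 + 3)) := by rw [hn']; push_cast; rfl
  obtain ⟨x, hx⟩ : ∃ x : ℝ, x = Real.exp (-(c * Real.log 2 * 2 ^ (J - (c1 + 3)))) := ⟨_, rfl⟩
  have hx0 : 0 < x := by rw [hx]; positivity
  have hx2 : (2 : ℝ) ^ (-(c * (n' : ℝ))) = x := by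
    rw [hx, Real.rpow_def_of_pos (by norm_num), hnr]
    congr 1
    ring
  obtain ⟨δ, hδ⟩ : ∃ δ : ℝ, δ = C' ^ 14 * C' ^ J * x := ⟨_, rfl⟩
  have hδ0 : 0 < δ := by rw [hδ]; positivity
  have hδ1 : δ ≤ 1 := by
    rw [hδ, hx]
    exact hJ2 J (by omega)
  have hδc : 2 * (C0 * δ ^ c2 * B ^ J) ≤ (1 / 2) ^ (a * J) := by
    have h1 := hJ3 J (by omega)
    have e1 : δ ^ c2 = (C' ^ 14) ^ c2 * (C' ^ c2) ^ J * Real.exp (-(c * Real.log 2 * c2 * 2 ^ (J - (c1 + 3)))) := by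
      rw [hδ, Real.mul_rpow (by positivity) hx0.le, Real.mul_rpow (by positivity) (by positivity)]
      congr 1
      · congr 1
        rw [← Real.rpow_natCast C' J, ← Real.rpow_mul (by positivity), mul_comm (J : ℝ), Real.rpow_mul (by positivity),
          Real.rpow_natCast]
      · rw [hx, ← Real.exp_mul]
        congr 1
        ring
    have h2 : (0 : ℝ) < 2 ^ (a * J) := by positivity
    rw [one_div, inv_pow, ← one_div, le_div_iff₀ h2]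
    refine le_trans (le_of_eq ?_) h1
    rw [e1, mul_pow, mul_pow, ← pow_mul]
    ring
  have key : ∀ b', (b' = b ∨ b' = b + 1) → gf {Q | Q ∈ W2E η D b J ∧ ∃ n : ℕ, 2 ^ J ≤ n * 2 ^ c1 ∧ Q ∈ Lz κ C b' n} ≤
      ENNReal.ofReal (C0 * δ ^ c2 * B ^ J * Ub b) := by
    intro b' hb'
    have hbb : 2 ^ b ≤ 2 ^ b' := Nat.pow_le_pow_right (by norm_num) (by omega)
    obtain ⟨QQ, hQQ⟩ : ∃ QQ : Set (List Bool), QQ = {Q | Q ∈ Nz κ C b' ∧ ¬ In (n' * 2 ^ b') Q} := ⟨_, rfl⟩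
    have hFac : NPR.Fac QQ = Lz κ C b' n' := by rw [hQQ]; rfl
    obtain ⟨J', hJ'⟩ : ∃ J', b + J + 14 = b' + J' := ⟨b + J + 14 - b', by omega⟩
    have hrg := hreg b' J' n' (by omega) (by omega) hn1
    have h1 : gf {t | t ∈ WL (b + J + 14) ∧ t ∈ NPR.Fac QQ} ≤ ENNReal.ofReal δ * NPR.FK (b + J + 14) := by
      rw [hFac, hJ']
      refine hrg.trans ?_
      rw [ENNReal.ofReal_mul (by positivity), mul_assoc]
      refine mul_le_mul' (ENNReal.ofReal_le_ofReal ?_) le_rfl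
      rw [hx2, hδ, ← pow_add]
      have h2 : C' ^ J' ≤ C' ^ (14 + J) := pow_le_pow_right₀ hC' (by omega)
      exact mul_le_mul_of_nonneg_right h2 hx0.le
    refine (gf_mono ?_).trans (htwo b J QQ δ (by omega) hδ0 hδ1 h1)
    rintro Q ⟨⟨q1, q2, S, hS, R, T, hT, rfl⟩, n, hn, X, F, Y, hF1, hF2, hF3⟩
    refine ⟨In_WL q1 q2, S, hS, R, ?_, T, hT, rfl⟩
    rw [hFac]
    have hn8 : 8 * n' ≤ n := by
      have h3 : 8 * n' * 2 ^ c1 ≤ n * 2 ^ c1 := by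
        refine le_trans (le_of_eq ?_) hn
        rw [hn', show (8 : ℕ) = 2 ^ 3 by norm_num, ← pow_add, ← pow_add]
        congr 1
        omega
      exact Nat.le_of_mul_le_mul_right h3 (by positivity)
    refine QB.core (N' := n' * 2 ^ b') (QB.GS_In hb0 hS) (QB.GE_In hb0 hT) ?_ ⟨X, F, Y, hF1, hF2, hF3⟩
    have h4 : D * 2 ^ b ≤ D * 2 ^ b' := Nat.mul_le_mul_left _ hbb
    have h5 : 8 * n' * 2 ^ b' ≤ n * 2 ^ b' := Nat.mul_le_mul_right _ hn8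
    have h6 : 2 * D * 2 ^ b' ≤ n' * 2 ^ b' := Nat.mul_le_mul_right _ hnD
    nlinarith
  have hcov : {Q | Q ∈ W2E η D b J ∧ ∃ b' n : ℕ, (b' = b ∨ b' = b + 1) ∧ 2 ^ J ≤ n * 2 ^ c1 ∧ Q ∈ Lz κ C b' n} ⊆
      {Q | Q ∈ W2E η D b J ∧ ∃ n : ℕ, 2 ^ J ≤ n * 2 ^ c1 ∧ Q ∈ Lz κ C b n} ∪
      {Q | Q ∈ W2E η D b J ∧ ∃ n : ℕ, 2 ^ J ≤ n * 2 ^ c1 ∧ Q ∈ Lz κ C (b + 1) n} := by
    rintro Q ⟨h1, b', n, rfl | rfl, h3, h4⟩
    · exact Or.inl ⟨h1, n, h3, h4⟩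
    · exact Or.inr ⟨h1, n, h3, h4⟩
  refine (gf_mono hcov).trans ((gf_union_le _ _).trans ((add_le_add (key b (Or.inl rfl)) (key (b + 1) (Or.inr rfl))).trans ?_))
  rw [← ENNReal.ofReal_add (by positivity) (by positivity)]
  refine ENNReal.ofReal_le_ofReal ?_
  calc C0 * δ ^ c2 * B ^ J * Ub b + C0 * δ ^ c2 * B ^ J * Ub b = 2 * (C0 * δ ^ c2 * B ^ J) * Ub b := by ring
    _ ≤ _ := mul_le_mul_of_nonneg_right hδc hU.le

end ARM

end HexObs
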