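import Pool.Agent.ARM.InPt
import Pool.Agent.ARM.QBadM

/-!
# ARM (helper28): two-ended words with a middle part in a class RR: exact end and exact length

* `W2R` : words of the box with a good start, a middle part in RR, a good end;
* `w2_cuts` : the cuts of the start structure; the rest has the SAME middle part;
* **`qx_pt`** : exact end and exact length, from the mass (SmL, PMJ).
-/

set_option autoImplicit false

namespace HexObs

namespace ARM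

open Finset TS SDN HexObs.SIM NTA TIP

open scoped ENNReal

/-- words of the box of the scale b + J with a good start and a good end of the scale b, middle part in RR -/
def W2R (η : ℝ) (D b J : ℕ) (RR : Set (List Bool)) : Set (List Bool) :=
  {A | A ∈ SA ∧ In (2 ^ (b + J)) A ∧ ∃ S ∈ NPR.GS η D b, ∃ R ∈ RR, ∃ T ∈ NPR.GE η D b, A = S ++ (R ++ T)}

lemma W2R_sub (η : ℝ) (D b J : ℕ) (RR : Set (List Bool)) : W2R η D b J RR ⊆ W2E η D b J := by
  rintro A ⟨h1, h2, S, hS, R, -, T, hT, h3⟩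
  exact ⟨h1, h2, S, hS, R, T, hT, h3⟩

lemma W2R_univ (η : ℝ) (D b J : ℕ) : W2R η D b J Set.univ = W2E η D b J := by
  ext A
  constructor
  · intro h
    exact W2R_sub _ _ _ _ _ h
  · rintro ⟨h1, h2, S, hS, R, T, hT, h3⟩
    exact ⟨h1, h2, S, hS, R, Set.mem_univ _, T, hT, h3⟩

lemma GE_mono {η : ℝ} {D b : ℕ} (hη : 0 ≤ η) {T : List Bool} (hT : T ∈ NPR.GE η D b) : T ∈ NPR.GE (η / 4) (2 * D) b := by
  have hT' : if b = 0 then T = [] else ∃ Z1 M, T = Z1 ++ M ∧ Z1 ∈ BU ∧ M ∈ BU ∧ hgt M ≤ 2 ^ b ∧ 2 ^ (b + 1) ≤ hgt Z1 ∧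
    η * Ub b ≤ (nc M : ℝ) ∧ In (D * 2 ^ b) T := hT
  show if b = 0 then _ else _
  by_cases hb : b = 0
  · rw [if_pos hb] at hT' ⊢
    exact hT'
  · rw [if_neg hb] at hT' ⊢
    obtain ⟨Z1, M, h1, h2, h3, h4, h5, h6, h7⟩ := hT'
    refine ⟨Z1, M, h1, h2, h3, h4, h5, le_trans ?_ h6, fun i hi => Bl_mono _ ?_ (h7 i hi)⟩
    · have := Ub_pos b
      nlinarith [mul_nonneg hη this.le]
    · rw [mul_assoc]
      omega

/-- **the cuts of the start structure, the middle part and the end stay** -/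
lemma w2_cuts {η : ℝ} {D b J : ℕ} {RR : Set (List Bool)} (hη : 0 ≤ η) (hb : b ≠ 0) (hU : 4 ≤ η * Ub b) {Y : List Bool}
    (hY : Y ∈ W2R η D b J RR) :
    ∃ T : Finset ℕ, η / 2 * Ub b ≤ (T.card : ℝ) ∧ (∀ c ∈ T, c ≤ Y.length ∧ Y.take c ∈ BU ∧ hgt (Y.take c) ≤ 2 ^ b ∧
      Y.drop c ∈ W2R (η / 4) (2 * D) b (J + 1) RR) ∧
      ∀ c ∈ T, ∀ c' ∈ T, c ≤ c' → (Y.drop c).take (c' - c) ∈ BU := by
  classical
  obtain ⟨hSA, hBox, S, hS, R, hR, T0, hT0, hYe⟩ := hY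
  have hS' : if b = 0 then S = [] else ∃ N Z3, S = N ++ Z3 ∧ N ∈ BU ∧ Z3 ∈ BU ∧ hgt N ≤ 2 ^ b ∧ 2 ^ (b + 1) ≤ hgt Z3 ∧
    η * Ub b ≤ (nc N : ℝ) ∧ In (D * 2 ^ b) S := hS
  rw [if_neg hb] at hS'
  obtain ⟨N, Z3, rfl, hN, hZ3, hhN, hhZ, hnc, hIn⟩ := hS'
  have hn1 : 1 ≤ nc N := nc_pos hN
  obtain ⟨N1, N2, hN1, hN2, rfl, hc1, hc2⟩ := nc_split hN (i := nc N - nc N / 2) (by omega) (by omega)
  have g1 : η / 2 * Ub b ≤ (nc N1 : ℝ) := by
    have h1 : nc (N1 ++ N2) ≤ 2 * nc N1 := by omega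
    have h2 : (nc (N1 ++ N2) : ℝ) ≤ 2 * (nc N1 : ℝ) := by exact_mod_cast h1
    linarith
  have g2 : η / 4 * Ub b ≤ (nc N2 : ℝ) := by
    have h1 : nc (N1 ++ N2) ≤ 2 * nc N2 := by omega
    have h2 : (nc (N1 ++ N2) : ℝ) ≤ 2 * (nc N2 : ℝ) := by exact_mod_cast h1
    linarith
  rw [hgt_app hN1 hN2] at hhN
  obtain ⟨W, hW⟩ : ∃ W, W = R ++ T0 := ⟨_, rfl⟩
  rw [← hW] at hYe
  subst hYe
  refine ⟨(range (N1.length + 1)).filter fun j => N1.take j ∈ BU ∧ N1.drop j ∈ BU, g1, fun c hc => ?_, fun c hc c' hc' hcc => ?_⟩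
  · rw [mem_nc] at hc
    obtain ⟨c1, c2, c3⟩ := hc
    have hl : ((N1 ++ N2) ++ Z3 ++ W).length = N1.length + N2.length + Z3.length + W.length := by
      simp only [List.length_append]
    have e1 : ((N1 ++ N2) ++ Z3 ++ W).take c = N1.take c := by
      rw [List.append_assoc, List.append_assoc, List.take_append_of_le_length c1]
    have e2 : ((N1 ++ N2) ++ Z3 ++ W).drop c = ((N1.drop c ++ N2) ++ Z3) ++ W := by
      rw [List.append_assoc, List.append_assoc, List.drop_append_of_le_length c1]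
      simp only [List.append_assoc]
    have e3 : (N1 ++ N2) ++ Z3 ++ W = N1.take c ++ (((N1.drop c ++ N2) ++ Z3) ++ W) := by
      rw [← e2, ← e1, List.take_append_drop]
    have hsp := hgt_app c2 c3
    rw [List.take_append_drop] at hsp
    rw [e1, e2]
    refine ⟨by omega, c2, by omega, ?_, ?_, (N1.drop c ++ N2) ++ Z3, ?_, R, hR, T0, GE_mono hη hT0, by rw [hW]⟩
    · rw [e3] at hSA
      exact SA_drop hSA c2
    · rw [e3] at hBox
      have h1 := In_bu c2 hBox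
      have h2 : 2 * 2 ^ (b + J) = 2 ^ (b + (J + 1)) := by rw [← add_assoc, pow_succ]; ring
      rwa [h2] at h1
    · show if b = 0 then _ else _
      rw [if_neg hb]
      refine ⟨N1.drop c ++ N2, Z3, rfl, BU_app c3 hN2, hZ3, ?_, hhZ, ?_, ?_⟩
      · rw [hgt_app c3 hN2]
        omega
      · have h1 := nc_app c3 hN2
        have h2 := nc_pos c3
        have h3 : nc N2 ≤ nc (N1.drop c ++ N2) := by omega
        have h4 : (nc N2 : ℝ) ≤ (nc (N1.drop c ++ N2) : ℝ) := by exact_mod_cast h3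
        linarith
      · have h1 : N1.take c ++ ((N1.drop c ++ N2) ++ Z3) = (N1 ++ N2) ++ Z3 := by
          rw [← List.append_assoc, ← List.append_assoc, List.take_append_drop]
        have h2 := In_bu (P := N1.take c) (W := (N1.drop c ++ N2) ++ Z3) c2 (by rw [h1]; exact hIn)
        rwa [← mul_assoc] at h2
  · rw [mem_nc] at hc hc'
    obtain ⟨c1, c2, c3⟩ := hc
    obtain ⟨d1, d2, d3⟩ := hc'
    have e2 : ((N1 ++ N2) ++ Z3 ++ W).drop c = N1.drop c ++ (N2 ++ (Z3 ++ W)) := by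
      rw [List.append_assoc, List.append_assoc, List.drop_append_of_le_length c1]
    rw [e2, List.take_append_of_le_length (by rw [List.length_drop]; omega)]
    obtain ⟨e, rfl⟩ := Nat.exists_eq_add_of_le hcc
    rw [Nat.add_sub_cancel_left]
    refine ne_suf (s := N1.take c) (N := N1.drop (c + e)) c2 ?_ ?_
    · rw [← List.take_add]
      exact d2
    · rw [← List.drop_drop, List.take_append_drop]
      exact c3

/-- a moment of a class, from its mass and the double moment of a larger class -/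
lemma half_mom {WW W0 : Set (List Bool)} (hs : WW ⊆ W0) {m δ : ℝ} (hm : 0 < m) (hδ : 0 < δ) (q : ℕ) :
    ∑' W : WW, wE (W : List Bool) * ENNReal.ofReal ((1 + ((W : List Bool).length : ℝ) / m) ^ q) ≤
      ENNReal.ofReal (1 / δ) * gf WW + ENNReal.ofReal δ *
        ∑' W : W0, wE (W : List Bool) * ENNReal.ofReal ((1 + ((W : List Bool).length : ℝ) / m) ^ (2 * q)) := by
  have h1 : ∀ W : List Bool, wE W * ENNReal.ofReal ((1 + (W.length : ℝ) / m) ^ q) ≤ ENNReal.ofReal (1 / δ) * wE W +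
      ENNReal.ofReal δ * (wE W * ENNReal.ofReal ((1 + (W.length : ℝ) / m) ^ (2 * q))) := by
    intro W
    obtain ⟨a, ha⟩ : ∃ a : ℝ, a = (1 + (W.length : ℝ) / m) ^ q := ⟨_, rfl⟩
    have ha0 : 0 ≤ a := by rw [ha]; positivity
    have e1 : (1 + (W.length : ℝ) / m) ^ (2 * q) = a ^ 2 := by
      rw [ha, ← pow_mul, mul_comm]
    rw [e1, ← ha]
    have h2 : a ≤ 1 / δ + δ * a ^ 2 := by
      rw [div_add' _ _ _ hδ.ne', le_div_iff₀ hδ]
      nlinarith [sq_nonneg (δ * a - 1)]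
    refine (mul_le_mul_right (ENNReal.ofReal_le_ofReal h2) _).trans (le_of_eq ?_)
    rw [ENNReal.ofReal_add (by positivity) (by positivity), ENNReal.ofReal_mul (p := δ) (by positivity)]
    ring
  refine (ENNReal.tsum_le_tsum fun W : WW => h1 (W : List Bool)).trans ?_
  rw [ENNReal.tsum_add, ENNReal.tsum_mul_left, ENNReal.tsum_mul_left]
  refine add_le_add le_rfl (mul_le_mul_right ?_ _)
  exact ENNReal.tsum_mono_subtype (fun W : List Bool => wE W * ENNReal.ofReal ((1 + (W.length : ℝ) / m) ^ (2 * q))) hs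

/-- the weight of the length, any power -/
lemma wt_geq (q : ℕ) {c w y : ℕ} {m : ℝ} (hm : 0 < m) (hy : y = c + w) :
    1 ≤ ENNReal.ofReal ((1 + (c : ℝ) / m) ^ q) * ENNReal.ofReal ((1 + (w : ℝ) / m) ^ q * ((1 + (y : ℝ) / m) ^ q)⁻¹) := by
  rw [← ENNReal.ofReal_mul (by positivity), ← ENNReal.ofReal_one]
  refine ENNReal.ofReal_le_ofReal ?_
  rw [← mul_assoc, ← mul_pow, ← div_eq_mul_inv, one_le_div (by positivity)]
  refine pow_le_pow_left₀ (by positivity) ?_ q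
  have h1 : (y : ℝ) = c + w := by rw [hy]; push_cast; ring
  have h2 : 0 ≤ (c : ℝ) / m := by positivity
  have h3 : 0 ≤ (w : ℝ) / m := by positivity
  rw [h1, add_div]
  nlinarith

/-- the moments of the two-ended words, unit m_b -/
lemma pmj_b (hP : PMJ) {η : ℝ} (hη : 0 < η) (D q : ℕ) : ∃ B : ℝ, 1 ≤ B ∧ ∀ b J : ℕ, 1 ≤ b →
    ∑' W : W2E η D b J, wE (W : List Bool) * ENNReal.ofReal ((1 + ((W : List Bool).length : ℝ) / ml b) ^ q) ≤
        ENNReal.ofReal (B ^ (J + 1) * Ub b) := by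
  obtain ⟨C, hC, h⟩ := hP η D q hη
  obtain ⟨E, hE⟩ : ∃ E : ℝ, E = (2 : ℝ) ^ (4 / 3 : ℝ) := ⟨_, rfl⟩
  have hE1 : 1 ≤ E := by rw [hE]; exact Real.one_le_rpow (by norm_num) (by norm_num)
  refine ⟨C * E ^ q, one_le_mul_of_one_le_of_one_le hC (one_le_pow₀ hE1), fun b J hb1 => ?_⟩
  obtain ⟨r, hr⟩ : ∃ r : ℝ, r = E ^ J := ⟨_, rfl⟩
  have hr1 : 1 ≤ r := by rw [hr]; exact one_le_pow₀ hE1
  have hml : ml (b + J) = r * ml b := by
    rw [ml_add, hr, hE, ← Real.rpow_natCast, ← Real.rpow_mul (by norm_num)]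
  have hb := ml_pos b
  have hU := Ub_pos b
  have h1 : ∀ W : List Bool, wE W * ENNReal.ofReal ((1 + (W.length : ℝ) / ml b) ^ q) ≤
      ENNReal.ofReal (r ^ q) * (wE W * ENNReal.ofReal ((1 + (W.length : ℝ) / ml (b + J)) ^ q)) := by
    intro W
    rw [mul_left_comm, ← ENNReal.ofReal_mul (by positivity), ← mul_pow]
    refine mul_le_mul_right (ENNReal.ofReal_le_ofReal (pow_le_pow_left₀ (by positivity) ?_ q)) _
    rw [hml, mul_add, mul_one, mul_div_assoc', mul_div_mul_left _ _ (by linarith)]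
    linarith
  refine (ENNReal.tsum_le_tsum fun W : W2E η D b J => h1 (W : List Bool)).trans ?_
  rw [ENNReal.tsum_mul_left]
  refine (mul_le_mul_right (h b J hb1) _).trans ?_
  rw [← ENNReal.ofReal_mul (by positivity)]
  refine ENNReal.ofReal_le_ofReal ?_
  rw [← mul_assoc]
  refine mul_le_mul_of_nonneg_right ?_ hU.le
  rw [hr, mul_pow, ← pow_mul, ← pow_mul, mul_comm]
  refine mul_le_mul_of_nonneg_left (pow_le_pow_right₀ hE1 ?_) (by positivity)
  nlinarith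

/-- **exact end and exact length of the two-ended words with a middle part in RR** -/
theorem qx_pt (hS : SmL) (hP : PMJ) {η : ℝ} (hη : 0 < η) (D q : ℕ) : ∃ (C : ℝ) (b0 : ℕ), 1 ≤ C ∧ ∀ b J : ℕ, b0 ≤ b →
    ∀ (RR : Set (List Bool)) (δ : ℝ), 0 < δ → gf (W2R (η / 4) (2 * D) b (J + 1) RR) ≤ ENNReal.ofReal (δ ^ 2 * Ub b) →
      ∀ (y : ℕ) (z : Pt), gf {Y | Y ∈ W2R η D b J RR ∧ Y.length = y ∧ TIW.en Y = z} ≤
        ENNReal.ofReal (C ^ (J + 1) * δ * (Ub b / (4 ^ b * ml b)) * ((1 + (y : ℝ) / ml b) ^ q)⁻¹) := by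
  obtain ⟨B, hB, hW⟩ := pmj_b hP (show 0 < η / 4 by positivity) (2 * D) (2 * q)
  obtain ⟨C3, b3, hC3, hS⟩ := hS (η / 2) q (by positivity)
  obtain ⟨b2, hb2⟩ : ∃ b2 : ℕ, ∀ b, b2 ≤ b → 4 ≤ η * Ub b := by
    obtain ⟨cu, Cu, hcu, -, hU⟩ := JNT.JoT.Ub_two
    obtain ⟨b2, hb2⟩ := exists_nat_ge (4 / (η * cu))
    rw [div_le_iff₀ (by positivity)] at hb2
    refine ⟨2 * b2, fun b hb => ?_⟩
    have h1 := (hU b).1
    have h2 : (b2 : ℝ) ≤ (2 : ℝ) ^ (3 / 4 * (b : ℝ)) := by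
      have h3 : (b2 : ℝ) ≤ (2 : ℝ) ^ b2 := by exact_mod_cast Nat.lt_two_pow_self.le
      refine h3.trans ?_
      rw [← Real.rpow_natCast 2 b2]
      refine Real.rpow_le_rpow_of_exponent_le (by norm_num) ?_
      have : (2 : ℝ) * b2 ≤ b := by exact_mod_cast hb
      linarith
    calc (4 : ℝ) ≤ b2 * (η * cu) := hb2
      _ ≤ (2 : ℝ) ^ (3 / 4 * (b : ℝ)) * (η * cu) := mul_le_mul_of_nonneg_right h2 (by positivity)
      _ = η * (cu * (2 : ℝ) ^ (3 / 4 * (b : ℝ))) := by ring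
      _ ≤ _ := mul_le_mul_of_nonneg_left h1 hη.le
  refine ⟨(C3 + 1) * (1 + B) ^ 2, b2 + b3 + 1, ?_, fun b J hb RR δ hδ hRR y z => ?_⟩
  · nlinarith [one_le_pow₀ (show 1 ≤ 1 + B by linarith) (n := 2)]
  have hb0 : b ≠ 0 := by omega
  have hml := ml_pos b
  have hUb := Ub_pos b
  obtain ⟨κ0, hκ0⟩ : ∃ κ0 : ℝ, κ0 = ((1 + (y : ℝ) / ml b) ^ q)⁻¹ := ⟨_, rfl⟩
  have hκ00 : 0 ≤ κ0 := by rw [hκ0]; positivity
  have h3 := hS b y z (by omega) {Y | Y ∈ W2R η D b J RR ∧ Y.length = y ∧ TIW.en Y = z} (W2R (η / 4) (2 * D) b (J + 1) RR)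
    (fun W => ENNReal.ofReal ((1 + (W.length : ℝ) / ml b) ^ q * κ0)) (by
      rintro Y ⟨y1, y2, y3⟩
      obtain ⟨T, t1, t2, t3⟩ := w2_cuts hη.le hb0 (hb2 b (by omega)) y1
      refine ⟨y2, y3, T, t1, fun k hk => ?_, t3⟩
      obtain ⟨u1, u2, u3, u4⟩ := t2 k hk
      refine ⟨u1, u2, u3, u4, ?_⟩
      rw [hκ0]
      exact wt_geq q hml (by rw [List.length_drop]; omega))
  rw [← hκ0]
  refine h3.trans ?_
  have h4 : ∑' W : W2R (η / 4) (2 * D) b (J + 1) RR,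
      wE (W : List Bool) * ENNReal.ofReal ((1 + ((W : List Bool).length : ℝ) / ml b) ^ q * κ0) =
      ENNReal.ofReal κ0 * ∑' W : W2R (η / 4) (2 * D) b (J + 1) RR,
        wE (W : List Bool) * ENNReal.ofReal ((1 + ((W : List Bool).length : ℝ) / ml b) ^ q) := by
    rw [← ENNReal.tsum_mul_left]
    refine tsum_congr fun W => ?_
    rw [mul_comm _ κ0, ENNReal.ofReal_mul hκ00]
    ring
  have h5 := half_mom (W2R_sub (η / 4) (2 * D) b (J + 1) RR) hml hδ q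
  have h6 : ∑' W : W2R (η / 4) (2 * D) b (J + 1) RR,
      wE (W : List Bool) * ENNReal.ofReal ((1 + ((W : List Bool).length : ℝ) / ml b) ^ q) ≤
        ENNReal.ofReal (δ * (1 + B ^ (J + 2)) * Ub b) := by
    refine h5.trans ((add_le_add (mul_le_mul_right hRR _) (mul_le_mul_right (hW b (J + 1) (by omega)) _)).trans (le_of_eq ?_))
    rw [← ENNReal.ofReal_mul (by positivity), ← ENNReal.ofReal_mul hδ.le, ← ENNReal.ofReal_add (by positivity) (by positivity)]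
    congr 1
    field_simp
  rw [h4]
  refine (mul_le_mul_right (mul_le_mul_right h6 _) _).trans ?_
  rw [← ENNReal.ofReal_mul hκ00, ← ENNReal.ofReal_mul (by positivity)]
  refine ENNReal.ofReal_le_ofReal ?_
  have h7 : C3 * (1 + B ^ (J + 2)) ≤ ((C3 + 1) * (1 + B) ^ 2) ^ (J + 1) := by
    have a1 : C3 ≤ (C3 + 1) ^ (J + 1) := by
      calc C3 ≤ (C3 + 1) ^ 1 := by linarith
        _ ≤ (C3 + 1) ^ (J + 1) := pow_le_pow_right₀ (by linarith) (by omega)
    have a2 : 1 + B ^ (J + 2) ≤ ((1 + B) ^ 2) ^ (J + 1) := by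
      calc 1 + B ^ (J + 2) ≤ 1 ^ (J + 2) + B ^ (J + 2) := by rw [one_pow]
        _ ≤ (1 + B) ^ (J + 2) := pow_add_pow_le (by norm_num) (by linarith) (by omega)
        _ ≤ (1 + B) ^ (2 * (J + 1)) := pow_le_pow_right₀ (by linarith) (by omega)
        _ = _ := pow_mul _ _ _
    rw [mul_pow]
    exact mul_le_mul a1 a2 (by positivity) (by positivity)
  have h8 : 0 ≤ δ * (Ub b / (4 ^ b * ml b)) * κ0 := by positivity
  calc C3 / (4 ^ b * ml b) * (κ0 * (δ * (1 + B ^ (J + 2)) * Ub b)) =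
      C3 * (1 + B ^ (J + 2)) * (δ * (Ub b / (4 ^ b * ml b)) * κ0) := by
        field_simp
    _ ≤ ((C3 + 1) * (1 + B) ^ 2) ^ (J + 1) * (δ * (Ub b / (4 ^ b * ml b)) * κ0) := mul_le_mul_of_nonneg_right h7 h8
    _ = _ := by ring

/-- **exact end and exact length, all two-ended words** -/
theorem qx_all (hS : SmL) (hP : PMJ) {η : ℝ} (hη : 0 < η) (D q : ℕ) : ∃ (C : ℝ) (b0 : ℕ), 1 ≤ C ∧ ∀ b J : ℕ, b0 ≤ b →
    ∀ (y : ℕ) (z : Pt), gf {Y | Y ∈ W2E η D b J ∧ Y.length = y ∧ TIW.en Y = z} ≤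
      ENNReal.ofReal (C ^ (J + 1) * (Ub b / (4 ^ b * ml b)) * ((1 + (y : ℝ) / ml b) ^ q)⁻¹) := by
  obtain ⟨C, b0, hC, h⟩ := qx_pt hS hP hη D q
  obtain ⟨B, hB, hW⟩ := pmj_b hP (show 0 < η / 4 by positivity) (2 * D) 0
  refine ⟨C * B ^ 2, b0 + 1, one_le_mul_of_one_le_of_one_le hC (one_le_pow₀ hB), fun b J hb y z => ?_⟩
  have hUb := Ub_pos b
  have hml := ml_pos b
  have h1 : gf (W2R (η / 4) (2 * D) b (J + 1) Set.univ) ≤ ENNReal.ofReal ((B ^ (J + 1)) ^ 2 * Ub b) := by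
    rw [W2R_univ]
    have h2 := hW b (J + 1) (by omega)
    simp only [pow_zero, ENNReal.ofReal_one, mul_one] at h2
    refine h2.trans (ENNReal.ofReal_le_ofReal (mul_le_mul_of_nonneg_right ?_ hUb.le))
    rw [← pow_mul]
    exact pow_le_pow_right₀ hB (by omega)
  have h2 := h b J (by omega) Set.univ (B ^ (J + 1)) (by positivity) h1 y z
  rw [W2R_univ] at h2
  refine h2.trans (ENNReal.ofReal_le_ofReal ?_)
  rw [mul_pow C]
  have h3 : 0 ≤ Ub b / (4 ^ b * ml b) := by positivity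
  have h4 : 0 ≤ ((1 + (y : ℝ) / ml b) ^ q)⁻¹ := by positivity
  have h5 : B ^ (J + 1) ≤ (B ^ 2) ^ (J + 1) := pow_le_pow_left₀ (by linarith) (by nlinarith) _
  gcongr

end ARM

end HexObs
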