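import Pool.Agent.ARM.InPt
import Pool.Agent.ARM.QX
import Pool.Agent.ARM.QBadM
import Pool.Agent.ARM.LMass
import Pool.Agent.ARM.ExF
import Pool.Agent.ARM.Defs2

/-!
# ARM2, rows Y1, Y2 (helper29): the parts behind a good tip, exact end and exact length, from `SmL`

* `gt_cuts`: the cuts of the start of a word whose reversal has a good tip;
* **`yPtJ`**: `YPt` in the box `2 ^ (b + J)`, the constant explicit, every power of the length;
* **`yPt_s : SmL → YPt`**, **`yPtBad_s : SmL → RegZ κ C → YPtBad κ C`**.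
-/

set_option autoImplicit false

namespace HexObs

namespace ARM

open Finset TS SDN HexObs.SIM NTA TIP

open scoped ENNReal

/-! ### the cuts -/

lemma cs_same {b : ℕ} {L : List Bool} {j' j : ℕ} (h' : j' ∈ cs b L) (h : j ∈ cs b L) (hjj : j' ≤ j) :
    j' ∈ cs b (L.take j) ∧ (L.take j).drop j' ∈ BU := by
  rw [mem_cs] at h h' ⊢
  obtain ⟨a1, a2, a3, a4⟩ := h
  obtain ⟨b1, b2, b3, b4⟩ := h'
  obtain ⟨A, B, c1, c2, c3⟩ := a4
  have e1 : L.drop j' = (L.take j).drop j' ++ L.drop j := by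
    have : L.drop j' = (L.take j ++ L.drop j).drop j' := by rw [List.take_append_drop]
    rw [this, List.drop_append_of_le_length]
    rw [List.length_take]
    omega
  have e2 : L.take j' ++ (L.take j).drop j' = L.take j := by
    have : (L.take j).take j' = L.take j' := by rw [List.take_take, min_eq_left hjj]
    rw [← this, List.take_append_drop]
  obtain ⟨m1, m2⟩ := mid_BU (X := L.take j') (Y := (L.take j).drop j') (Z := L.drop j) (A := A) (B := B) (n := 2 ^ b)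
    (by rw [← e1]; exact b2) a2 (by rw [← e1]; exact b3) c2 (by rw [e2, c1]) c3
  rw [← e1] at m2
  refine ⟨⟨by rw [List.length_take]; omega, m1, by omega, ?_⟩, m1⟩
  rw [List.take_take, min_eq_left hjj]
  exact b4

lemma rev_cut {Y : List Bool} {j : ℕ} (hj : j ≤ Y.length) : (rev Y).drop j = rev (Y.take (Y.length - j)) ∧
    (rev Y).take j = rev (Y.drop (Y.length - j)) := by
  have h1 : rev Y = rev (Y.drop (Y.length - j)) ++ rev (Y.take (Y.length - j)) := by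
    rw [← rev_append, List.take_append_drop]
  have h2 : (rev (Y.drop (Y.length - j))).length = j := by
    rw [rev_length, List.length_drop]
    omega
  constructor
  · conv_lhs => rw [h1]
    exact List.drop_left' h2
  · conv_lhs => rw [h1]
    exact List.take_left' h2

lemma hgt_rev {t : List Bool} (h : t ∈ BU) : hgt (rev t) = hgt t := by
  obtain ⟨n, hn⟩ := h
  rw [hgt_eq hn, hgt_eq (Brd_rev hn)]

open Classical in
/-- **the cuts of the start** -/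
theorem gt_cuts {b : ℕ} {η : ℝ} (hη : 0 ≤ η) {Y : List Bool} (hY : rev Y ∈ GT b η) : ∃ T : Finset ℕ,
    η / 2 * Ub b ≤ (T.card : ℝ) ∧ (∀ c ∈ T, c ≤ Y.length ∧ Y.take c ∈ BU ∧ hgt (Y.take c) ≤ 2 ^ b ∧
      rev (Y.drop c) ∈ GT b (η / 2)) ∧ ∀ c ∈ T, ∀ c' ∈ T, c ≤ c' → (Y.drop c).take (c' - c) ∈ BU := by
  have hU := Ub_pos b
  have hG : η * Ub b ≤ ((cs b (rev Y)).card : ℝ) := hY
  obtain ⟨N, hN⟩ : ∃ N : Finset ℕ, N = (cs b (rev Y)).filter fun j => (((cs b (rev Y)).filter fun i => i ≤ j).card : ℝ) < η / 2 * Ub b :=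
    ⟨_, rfl⟩
  obtain ⟨T0, hT0⟩ : ∃ T0 : Finset ℕ, T0 = (cs b (rev Y)).filter fun j => ¬ (((cs b (rev Y)).filter fun i => i ≤ j).card : ℝ) < η / 2 * Ub b :=
    ⟨_, rfl⟩
  have h1 : (N.card : ℝ) ≤ η / 2 * Ub b := by
    refine count_lt (S := cs b (rev Y)) (by positivity) ?_ fun j hj => ?_
    · rw [hN]
      exact filter_subset _ _
    · rw [hN, mem_filter] at hj
      exact hj.2
  have h2 : ((cs b (rev Y)).card : ℝ) = N.card + T0.card := by
    rw [hN, hT0]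
    exact_mod_cast (card_filter_add_card_filter_not (s := cs b (rev Y)) _).symm
  have h3 : η / 2 * Ub b ≤ (T0.card : ℝ) := by linarith
  have hmem : ∀ j ∈ T0, j ∈ cs b (rev Y) ∧ j ≤ Y.length := by
    intro j hj
    rw [hT0, mem_filter] at hj
    refine ⟨hj.1, ?_⟩
    have := (mem_cs.1 hj.1).1
    rwa [rev_length] at this
  refine ⟨T0.image fun j => Y.length - j, ?_, ?_, ?_⟩
  · rw [card_image_of_injOn]
    · exact h3
    · intro j hj j' hj' he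
      have := (hmem j hj).2
      have := (hmem j' hj').2
      simp only at he
      omega
  · intro c hc
    obtain ⟨j, hj, rfl⟩ := mem_image.1 hc
    obtain ⟨g1, g2⟩ := hmem j hj
    obtain ⟨g3, g4, g5, g6⟩ := mem_cs.1 g1
    obtain ⟨e1, e2⟩ := rev_cut g2
    rw [e1] at g4 g5
    have g7 := rev_BU g4
    refine ⟨by omega, g7, by rwa [hgt_rev g7] at g5, ?_⟩
    rw [← e2]
    show η / 2 * Ub b ≤ ((cs b ((rev Y).take j)).card : ℝ)
    rw [hT0, mem_filter, not_lt] at hj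
    refine hj.2.trans ?_
    have h4 : (cs b (rev Y)).filter (fun i => i ≤ j) ⊆ cs b ((rev Y).take j) := by
      intro i hi
      rw [mem_filter] at hi
      exact (cs_same hi.1 g1 hi.2).1
    exact_mod_cast card_le_card h4
  · intro c hc c' hc' hcc
    obtain ⟨j, hj, rfl⟩ := mem_image.1 hc
    obtain ⟨j', hj', rfl⟩ := mem_image.1 hc'
    obtain ⟨g1, g2⟩ := hmem j hj
    obtain ⟨g1', g2'⟩ := hmem j' hj'
    obtain ⟨e1, e2⟩ := rev_cut g2
    have h5 := (cs_same g1' g1 (by omega)).2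
    rw [e2] at h5
    have hl : (Y.drop (Y.length - j)).length = j := by
      rw [List.length_drop]
      omega
    obtain ⟨e3, e4⟩ := rev_cut (Y := Y.drop (Y.length - j)) (j := j') (by omega)
    rw [e3, hl] at h5
    have h6 := rev_BU h5
    rwa [show Y.length - j' - (Y.length - j) = j - j' by omega]

/-! ### exact end and exact length -/

/-- a unit of a higher level -/
lemma mom_unit {w b J q : ℕ} : (1 + (w : ℝ) / ml b) ^ q ≤ (4 ^ q) ^ J * (1 + (w : ℝ) / ml (b + J)) ^ q := by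
  have hm := ml_pos b
  have hm' := ml_pos (b + J)
  have h1 : ml (b + J) ≤ 4 ^ J * ml b := by
    rw [ml_add]
    refine mul_le_mul_of_nonneg_right ?_ hm.le
    calc (2 : ℝ) ^ ((4 / 3 : ℝ) * (J : ℝ)) ≤ 2 ^ ((2 : ℝ) * (J : ℝ)) :=
          Real.rpow_le_rpow_of_exponent_le (by norm_num) (by have : (0 : ℝ) ≤ J := Nat.cast_nonneg J; linarith)
      _ = 4 ^ J := by
        rw [Real.rpow_mul (by norm_num), Real.rpow_natCast]
        norm_num
  have h4 : (1 : ℝ) ≤ 4 ^ J := one_le_pow₀ (by norm_num)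
  have h2 : 1 + (w : ℝ) / ml b ≤ 4 ^ J * (1 + (w : ℝ) / ml (b + J)) := by
    have h3 : (w : ℝ) / ml b ≤ 4 ^ J * ((w : ℝ) / ml (b + J)) := by
      rw [← mul_div_assoc, div_le_div_iff₀ hm hm']
      calc (w : ℝ) * ml (b + J) ≤ w * (4 ^ J * ml b) := mul_le_mul_of_nonneg_left h1 (Nat.cast_nonneg w)
        _ = 4 ^ J * w * ml b := by ring
    linarith
  calc (1 + (w : ℝ) / ml b) ^ q ≤ (4 ^ J * (1 + (w : ℝ) / ml (b + J))) ^ q := pow_le_pow_left₀ (by positivity) h2 q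
    _ = _ := by rw [mul_pow, ← pow_mul, mul_comm J q, pow_mul]

/-- **the parts behind a good tip in a box, exact end and length** -/
theorem yPtJ (hS : SmL) {η : ℝ} (hη : 0 < η) (q : ℕ) : ∃ (C : ℝ) (b0 : ℕ), 1 ≤ C ∧ ∀ (b J y : ℕ) (z : Pt), b0 ≤ b →
    gf {Y | Y ∈ SA ∧ rev Y ∈ GT b η ∧ In (2 ^ (b + J)) Y ∧ Y.length = y ∧ TIW.en Y = z} ≤
      ENNReal.ofReal (C ^ (J + 1) * (Ub b / (4 ^ b * ml b)) * ((1 + (y : ℝ) / ml b) ^ q)⁻¹) * Xb b := by
  obtain ⟨C1, b1, hC1, hS⟩ := hS (η / 2) q (by positivity)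
  obtain ⟨C2, hC2, hM⟩ := yMassJ (η / 2) q (by positivity)
  refine ⟨(C1 + 1) * (C2 ^ 2 * (4 ^ q) ^ 2), b1, ?_, fun b J y z hb => ?_⟩
  · have h1 : (1 : ℝ) ≤ C2 ^ 2 := one_le_pow₀ hC2
    have h2 : (1 : ℝ) ≤ (4 ^ q) ^ 2 := one_le_pow₀ (one_le_pow₀ (by norm_num))
    have h3 : 1 ≤ C2 ^ 2 * (4 ^ q) ^ 2 := one_le_mul_of_one_le_of_one_le h1 h2
    nlinarith
  have hml := ml_pos b
  have hUb := Ub_pos b
  obtain ⟨κ0, hκ0⟩ : ∃ κ0 : ℝ, κ0 = ((1 + (y : ℝ) / ml b) ^ q)⁻¹ := ⟨_, rfl⟩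
  have hκ00 : 0 ≤ κ0 := by rw [hκ0]; positivity
  obtain ⟨WW, hWW⟩ : ∃ WW : Set (List Bool), WW = {W : List Bool | W ∈ SA ∧ rev W ∈ GT b (η / 2) ∧ In (2 ^ (b + (J + 1))) W} :=
    ⟨_, rfl⟩
  have h3 := hS b y z hb {Y | Y ∈ SA ∧ rev Y ∈ GT b η ∧ In (2 ^ (b + J)) Y ∧ Y.length = y ∧ TIW.en Y = z} WW
    (fun W => ENNReal.ofReal ((1 + (W.length : ℝ) / ml b) ^ q * κ0)) (by
      rintro Y ⟨y1, y2, y3, y4, y5⟩
      obtain ⟨T, t1, t2, t3⟩ := gt_cuts hη.le y2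
      refine ⟨y4, y5, T, t1, fun k hk => ?_, t3⟩
      obtain ⟨u1, u2, u3, u4⟩ := t2 k hk
      have e : Y = Y.take k ++ Y.drop k := (List.take_append_drop k Y).symm
      refine ⟨u1, u2, u3, ?_, ?_⟩
      · rw [hWW]
        refine ⟨SDN.SA_drop y1 k, u4, ?_⟩
        have h4 := In_bu (P := Y.take k) (W := Y.drop k) u2 (by rw [← e]; exact y3)
        rwa [show 2 * 2 ^ (b + J) = 2 ^ (b + (J + 1)) by rw [← add_assoc, pow_succ]; ring] at h4
      · rw [hκ0]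
        exact wt_geq q hml (by rw [List.length_drop]; omega))
  rw [← hκ0]
  refine h3.trans ?_
  have h5 : ∑' W : WW, wE (W : List Bool) * ENNReal.ofReal ((1 + ((W : List Bool).length : ℝ) / ml b) ^ q * κ0) ≤
      ENNReal.ofReal (κ0 * (4 ^ q) ^ (J + 1)) * (ENNReal.ofReal (C2 ^ (J + 2) * Ub b) * Xb b) := by
    have h6 := hM b (J + 1)
    rw [← hWW] at h6
    refine le_trans ?_ (mul_le_mul_right h6 _)
    rw [← ENNReal.tsum_mul_left]
    refine ENNReal.tsum_le_tsum fun W => ?_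
    rw [mul_left_comm]
    refine mul_le_mul_right ?_ _
    rw [← ENNReal.ofReal_mul (by positivity)]
    refine ENNReal.ofReal_le_ofReal ?_
    have h7 := mom_unit (w := (W : List Bool).length) (b := b) (J := J + 1) (q := q)
    calc (1 + ((W : List Bool).length : ℝ) / ml b) ^ q * κ0
        ≤ ((4 ^ q) ^ (J + 1) * (1 + ((W : List Bool).length : ℝ) / ml (b + (J + 1))) ^ q) * κ0 :=
          mul_le_mul_of_nonneg_right h7 hκ00
      _ = _ := by ring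
  refine (mul_le_mul_right h5 _).trans ?_
  rw [← mul_assoc, ← mul_assoc, ← ENNReal.ofReal_mul (by positivity), ← ENNReal.ofReal_mul (by positivity)]
  refine mul_le_mul_left (ENNReal.ofReal_le_ofReal ?_) _
  have a1 : C1 ≤ (C1 + 1) ^ (J + 1) := by
    calc C1 ≤ (C1 + 1) ^ 1 := by linarith
      _ ≤ (C1 + 1) ^ (J + 1) := pow_le_pow_right₀ (by linarith) (by omega)
  have a2 : C2 ^ (J + 2) * (4 ^ q) ^ (J + 1) ≤ (C2 ^ 2 * (4 ^ q) ^ 2) ^ (J + 1) := by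
    have h8 : C2 ^ (J + 2) ≤ (C2 ^ 2) ^ (J + 1) := by
      rw [← pow_mul]
      exact pow_le_pow_right₀ hC2 (by omega)
    have h9 : ((4 : ℝ) ^ q) ^ (J + 1) ≤ ((4 ^ q) ^ 2) ^ (J + 1) :=
      pow_le_pow_left₀ (by positivity) (le_self_pow₀ (one_le_pow₀ (by norm_num)) (by norm_num)) (J + 1)
    rw [mul_pow (C2 ^ 2)]
    exact mul_le_mul h8 h9 (by positivity) (by positivity)
  have h8 : 0 ≤ Ub b / (4 ^ b * ml b) * κ0 := by positivity
  calc C1 / (4 ^ b * ml b) * (κ0 * (4 ^ q) ^ (J + 1)) * (C2 ^ (J + 2) * Ub b) =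
      C1 * (C2 ^ (J + 2) * (4 ^ q) ^ (J + 1)) * (Ub b / (4 ^ b * ml b) * κ0) := by
        field_simp
    _ ≤ (C1 + 1) ^ (J + 1) * (C2 ^ 2 * (4 ^ q) ^ 2) ^ (J + 1) * (Ub b / (4 ^ b * ml b) * κ0) := by
        refine mul_le_mul_of_nonneg_right ?_ h8
        exact mul_le_mul a1 a2 (by positivity) (by positivity)
    _ = _ := by
        rw [← mul_pow]
        ring

/-- **row Y1** -/
theorem yPt_s (hS : SmL) : YPt := by
  intro η c hη
  obtain ⟨C, b0, hC, h⟩ := yPtJ hS hη 4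
  refine ⟨C ^ (c + 1), b0, by positivity, fun b y z hb => (h b c y z hb).trans (le_of_eq ?_)⟩
  have hml := ml_pos b
  have e : (1 + (y : ℝ) / ml b) ^ (-(4 : ℝ)) = ((1 + (y : ℝ) / ml b) ^ 4)⁻¹ := by
    rw [Real.rpow_neg (by positivity)]
    congr 1
    exact_mod_cast Real.rpow_natCast (1 + (y : ℝ) / ml b) 4
  rw [e]
  congr 2
  ring

/-! ### the bad parts -/

/-- the minimum is at most the geometric mean -/
lemma gm_le {x X : ℝ≥0∞} {r s : ℝ} (hr : 0 ≤ r) (hs : 0 ≤ s) (h1 : x ≤ ENNReal.ofReal r * X)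
    (h2 : x ≤ ENNReal.ofReal s * X) : x ≤ ENNReal.ofReal (Real.sqrt (r * s)) * X := by
  rcases le_total r s with h | h
  · refine h1.trans (mul_le_mul' (ENNReal.ofReal_le_ofReal ?_) le_rfl)
    refine Real.le_sqrt_of_sq_le ?_
    rw [sq]
    exact mul_le_mul_of_nonneg_left h hr
  · refine h2.trans (mul_le_mul' (ENNReal.ofReal_le_ofReal ?_) le_rfl)
    refine Real.le_sqrt_of_sq_le ?_
    rw [sq]
    exact mul_le_mul_of_nonneg_right h hs

open Classical in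
/-- **the bad parts, exact end and length, no weight of the length** -/
theorem yBad_pt {κ : ℝ} {C : ℕ} (hS : SmL) (hR : RegZ κ C) {η : ℝ} (hη : 0 < η) (a c1 : ℕ) : ∃ J0 b0 : ℕ,
    ∀ (b J y : ℕ) (z : Pt), b0 ≤ b → J0 ≤ J →
      gf {Y | Y ∈ SA ∧ rev Y ∈ GT b η ∧ In (2 ^ (b + J)) Y ∧ (∃ n : ℕ, 2 ^ J ≤ n * 2 ^ c1 ∧ Y ∈ Lz κ C b n) ∧
        Y.length = y ∧ TIW.en Y = z} ≤
        ENNReal.ofReal ((1 / 2) ^ (a * J) * (Ub b / (4 ^ b * ml b))) * Xb b := by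
  obtain ⟨C4, b4, hC4, hJm⟩ := yPtJ hS (show 0 < η / 2 by positivity) 0
  obtain ⟨C1, b1, hC1, hS⟩ := hS (η / 4) 0 (by positivity)
  obtain ⟨J2, b2, hYB⟩ := yBad hR (η / 2) (a + 1) (c1 + 3) (by positivity)
  obtain ⟨C3, c3, hC3, hc3, hwide⟩ := wide_range
  obtain ⟨d, hd⟩ : ∃ d : ℕ, d = c1 + 3 := ⟨_, rfl⟩
  obtain ⟨J3, hJ3⟩ := YB.num (2 * (4 / η * C3 * C4 ^ 2)) (C4 * 2 ^ a) c3 d (by positivity)
    (one_le_mul_of_one_le_of_one_le hC4 (one_le_pow₀ (by norm_num))) hc3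
  obtain ⟨J4, hJ4⟩ : ∃ J4 : ℕ, 2 * C1 < 2 ^ J4 := pow_unbounded_of_one_lt _ one_lt_two
  refine ⟨J2 + J3 + J4 + d + 1, b1 + b2 + b4, fun b J y z hb hJ => ?_⟩
  have hml := ml_pos b
  have hUb := Ub_pos b
  obtain ⟨N, hN⟩ : ∃ N : ℕ, N = 2 ^ (J - d) := ⟨_, rfl⟩
  obtain ⟨S0, hS0⟩ : ∃ S0 : Set (List Bool), S0 = {Y | Y ∈ SA ∧ rev Y ∈ GT b η ∧ In (2 ^ (b + J)) Y ∧
    (∃ n : ℕ, 2 ^ J ≤ n * 2 ^ c1 ∧ Y ∈ Lz κ C b n) ∧ Y.length = y ∧ TIW.en Y = z} := ⟨_, rfl⟩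
  obtain ⟨Wd, hWd⟩ : ∃ Wd : Set (List Bool), Wd = {P | P ∈ BU ∧ hgt P ≤ 2 ^ (b + 1) ∧ P ∈ WdR (N * 2 ^ b)} := ⟨_, rfl⟩
  obtain ⟨S1, hS1⟩ : ∃ S1 : Set (List Bool), S1 = {Y | Y ∈ S0 ∧ ∃ T : Finset ℕ, η / 4 * Ub b ≤ (T.card : ℝ) ∧
    (∀ c ∈ T, c ≤ Y.length ∧ Y.take c ∈ BU ∧ hgt (Y.take c) ≤ 2 ^ b ∧ rev (Y.drop c) ∈ GT b (η / 2) ∧
      Y.take c ∉ WdR (N * 2 ^ b)) ∧ ∀ c ∈ T, ∀ c' ∈ T, c ≤ c' → (Y.drop c).take (c' - c) ∈ BU} := ⟨_, rfl⟩
  obtain ⟨S2, hS2⟩ : ∃ S2 : Set (List Bool), S2 = {Y | Y ∈ S0 ∧ ∃ T : Finset ℕ, η / 4 * Ub b ≤ (T.card : ℝ) ∧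
    ∀ c ∈ T, c ≤ Y.length ∧ Y.take c ∈ Wd ∧ rev (Y.drop c) ∈ GT b (η / 2)} := ⟨_, rfl⟩
  have hcov : S0 ⊆ S1 ∪ S2 := by
    intro Y hY
    have hY' := hY
    rw [hS0] at hY'
    obtain ⟨y1, y2, y3, -⟩ := hY'
    obtain ⟨T, t1, t2, t3⟩ := gt_cuts hη.le y2
    obtain ⟨Ta, hTa⟩ : ∃ Ta : Finset ℕ, Ta = T.filter fun c => Y.take c ∈ WdR (N * 2 ^ b) := ⟨_, rfl⟩
    obtain ⟨Tb, hTb⟩ : ∃ Tb : Finset ℕ, Tb = T.filter fun c => ¬ Y.take c ∈ WdR (N * 2 ^ b) := ⟨_, rfl⟩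
    have h2 : (T.card : ℝ) = Ta.card + Tb.card := by
      rw [hTa, hTb]
      exact_mod_cast (card_filter_add_card_filter_not (s := T) _).symm
    rcases le_or_gt (η / 4 * Ub b) (Ta.card : ℝ) with h | h
    · right
      rw [hS2]
      refine ⟨hY, Ta, h, fun c hc => ?_⟩
      rw [hTa, mem_filter] at hc
      obtain ⟨u1, u2, u3, u4⟩ := t2 c hc.1
      refine ⟨u1, ?_, u4⟩
      rw [hWd]
      exact ⟨u2, u3.trans (Nat.pow_le_pow_right (by norm_num) (by omega)), hc.2⟩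
    · left
      rw [hS1]
      refine ⟨hY, Tb, by linarith, fun c hc => ?_, fun c hc c' hc' hcc => ?_⟩
      · rw [hTb, mem_filter] at hc
        obtain ⟨u1, u2, u3, u4⟩ := t2 c hc.1
        exact ⟨u1, u2, u3, u4, hc.2⟩
      · rw [hTb, mem_filter] at hc hc'
        exact t3 c hc.1 c' hc'.1 hcc
  -- narrow prefixes
  have hm1 : gf S1 ≤ ENNReal.ofReal ((1 / 2) ^ (a * J) / 2 * (Ub b / (4 ^ b * ml b))) * Xb b := by
    obtain ⟨WW, hWW⟩ : ∃ WW : Set (List Bool), WW = {W | W ∈ SA ∧ rev W ∈ GT b (η / 2) ∧ In (2 ^ (b + (J + 1))) W ∧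
      ∃ n : ℕ, 2 ^ (J + 1) ≤ n * 2 ^ (c1 + 3) ∧ W ∈ Lz κ C b n} := ⟨_, rfl⟩
    have h3 := hS b y z (by omega) S1 WW (fun _ => 1) (by
      intro Y hY
      rw [hS1, hS0] at hY
      obtain ⟨⟨y1, y2, y3, ⟨n, hn, X, F, R, hF1, hF2, hF3⟩, y4, y5⟩, T, t1, t2, t3⟩ := hY
      refine ⟨y4, y5, T, t1, fun k hk => ?_, t3⟩
      obtain ⟨u1, u2, u3, u4, u5⟩ := t2 k hk
      have e : Y = Y.take k ++ Y.drop k := (List.take_append_drop k Y).symm
      refine ⟨u1, u2, u3, ?_, ?_⟩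
      · rw [hWW]
        refine ⟨SDN.SA_drop y1 k, u4, ?_, 2 ^ (J - c1 - 2), ?_, ?_⟩
        · have h4 := In_bu (P := Y.take k) (W := Y.drop k) u2 (by rw [← e]; exact y3)
          rwa [show 2 * 2 ^ (b + J) = 2 ^ (b + (J + 1)) by rw [← add_assoc, pow_succ]; ring] at h4
        · rw [← pow_add]
          exact Nat.pow_le_pow_right (by norm_num) (by omega)
        · have hPin : In (N * 2 ^ b) (Y.take k) := by
            intro i hi
            by_contra hcon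
            exact u5 ⟨i, 0, hi, Nat.zero_le _, hcon⟩
          have hn2 : 2 ^ (J - c1) ≤ n := by
            have h5 : 2 ^ (J - c1) * 2 ^ c1 ≤ n * 2 ^ c1 := by
              rw [← pow_add, show J - c1 + c1 = J by omega]
              exact hn
            exact Nat.le_of_mul_le_mul_right h5 (by positivity)
          have hnum : 2 * (2 ^ (J - c1 - 2) * 2 ^ b) + 4 * (N * 2 ^ b) ≤ n * 2 ^ b := by
            have e1 : 2 ^ (J - c1) = 4 * 2 ^ (J - c1 - 2) := by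
              rw [show (4 : ℕ) = 2 ^ 2 by norm_num, ← pow_add]
              congr 1
              omega
            have e2 : 2 ^ (J - c1) = 8 * N := by
              rw [hN, show (8 : ℕ) = 2 ^ 3 by norm_num, ← pow_add]
              congr 1
              omega
            have h6 : 2 * 2 ^ (J - c1 - 2) + 4 * N ≤ n := by omega
            calc 2 * (2 ^ (J - c1 - 2) * 2 ^ b) + 4 * (N * 2 ^ b) = (2 * 2 ^ (J - c1 - 2) + 4 * N) * 2 ^ b := by ring
              _ ≤ n * 2 ^ b := Nat.mul_le_mul_right _ h6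
          exact QB.rm_front (N1 := 2 ^ (J - c1 - 2) * 2 ^ b) hPin (he := by rw [← e]; exact hF1) hF2 hF3 hnum
      · rw [pow_zero, ENNReal.ofReal_one, one_mul])
    refine h3.trans ?_
    have h4 : ∑' W : WW, wE (W : List Bool) * 1 ≤ ENNReal.ofReal (Ub b / 2 ^ ((a + 1) * (J + 1))) * Xb b := by
      simp only [mul_one]
      have h5 := hYB b (J + 1) (by omega) (by omega)
      rw [← hWW] at h5
      exact h5
    refine (mul_le_mul_right h4 _).trans ?_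
    rw [← mul_assoc, ← ENNReal.ofReal_mul (by positivity)]
    refine mul_le_mul_left (ENNReal.ofReal_le_ofReal ?_) _
    have h6 : (2 : ℝ) ^ (a * J) * 2 ^ J4 ≤ 2 ^ ((a + 1) * (J + 1)) := by
      rw [← pow_add]
      refine pow_le_pow_right₀ (by norm_num) ?_
      have : (a + 1) * (J + 1) = a * J + a + J + 1 := by ring
      omega
    have h7 : C1 / 2 ^ ((a + 1) * (J + 1)) ≤ (1 / 2) ^ (a * J) / 2 := by
      rw [one_div, inv_pow, div_le_div_iff₀ (by positivity) (by norm_num), inv_mul_eq_div, le_div_iff₀ (by positivity)]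
      calc C1 * 2 * 2 ^ (a * J) = (2 ^ (a * J)) * (2 * C1) := by ring
        _ ≤ 2 ^ (a * J) * 2 ^ J4 := mul_le_mul_of_nonneg_left hJ4.le (by positivity)
        _ ≤ _ := h6
    calc C1 / (4 ^ b * ml b) * (Ub b / 2 ^ ((a + 1) * (J + 1))) = C1 / 2 ^ ((a + 1) * (J + 1)) * (Ub b / (4 ^ b * ml b)) := by
          ring
      _ ≤ _ := mul_le_mul_of_nonneg_right h7 (by positivity)
  -- wide prefixes
  have hm2 : gf S2 ≤ ENNReal.ofReal ((1 / 2) ^ (a * J) / 2 * (Ub b / (4 ^ b * ml b))) * Xb b := by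
    have h3 : ENNReal.ofReal (η / 4 * Ub b) * gf S2 ≤ ∑' P : List Bool, if P ∈ Wd then wE P *
        gf {W | W ∈ SA ∧ rev W ∈ GT b (η / 2) ∧ In (2 ^ (b + (J + 1))) W ∧ W.length = y - P.length ∧
          TIW.en W = z - TIW.en P} else 0 := by
      refine dcs (Y := fun P => {W | W ∈ SA ∧ rev W ∈ GT b (η / 2) ∧ In (2 ^ (b + (J + 1))) W ∧ W.length = y - P.length ∧
          TIW.en W = z - TIW.en P}) fun Y hY => ?_
      rw [hS2, hS0] at hY
      obtain ⟨⟨y1, y2, y3, -, y4, y5⟩, T, t1, t2⟩ := hY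
      refine ⟨T, ?_, fun k hk => ?_⟩
      · rw [← ENNReal.ofReal_natCast]
        exact ENNReal.ofReal_le_ofReal t1
      · obtain ⟨u1, u2, u3⟩ := t2 k hk
        have u2' := u2
        rw [hWd] at u2'
        have e : Y = Y.take k ++ Y.drop k := (List.take_append_drop k Y).symm
        refine ⟨u1, u2, SDN.SA_drop y1 k, u3, ?_, ?_, ?_⟩
        · have h4 := In_bu (P := Y.take k) (W := Y.drop k) u2'.1 (by rw [← e]; exact y3)
          rwa [show 2 * 2 ^ (b + J) = 2 ^ (b + (J + 1)) by rw [← add_assoc, pow_succ]; ring] at h4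
        · rw [List.length_drop, List.length_take]
          omega
        · have h5 := en_bu (P := Y.take k) (W := Y.drop k) u2'.1
          rw [← e, y5] at h5
          rw [h5]
          unfold TIW.en
          abel
    have h4 : ∀ P : List Bool, (if P ∈ Wd then wE P *
        gf {W | W ∈ SA ∧ rev W ∈ GT b (η / 2) ∧ In (2 ^ (b + (J + 1))) W ∧ W.length = y - P.length ∧
          TIW.en W = z - TIW.en P} else 0) ≤
        (if P ∈ Wd then wE P else 0) * (ENNReal.ofReal (C4 ^ (J + 2) * (Ub b / (4 ^ b * ml b))) * Xb b) := by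
      intro P
      by_cases hP : P ∈ Wd
      · rw [if_pos hP, if_pos hP]
        refine mul_le_mul' le_rfl ((hJm b (J + 1) (y - P.length) (z - TIW.en P) (by omega)).trans (le_of_eq ?_))
        rw [pow_zero, inv_one, mul_one]
      · rw [if_neg hP]
        exact zero_le
    have h5 : gf Wd ≤ ENNReal.ofReal (C3 * Real.exp (-(c3 * N)) * Ub b) := by
      rw [hWd]
      exact hwide b N
    have h6 : ENNReal.ofReal (η / 4 * Ub b) * gf S2 ≤ ENNReal.ofReal (η / 4 * Ub b) *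
        (ENNReal.ofReal ((1 / 2) ^ (a * J) / 2 * (Ub b / (4 ^ b * ml b))) * Xb b) := by
      refine h3.trans ((ENNReal.tsum_le_tsum h4).trans ?_)
      rw [ENNReal.tsum_mul_right, ← gf_ind]
      refine (mul_le_mul' h5 le_rfl).trans ?_
      rw [← mul_assoc, ← mul_assoc, ← ENNReal.ofReal_mul (by positivity), ← ENNReal.ofReal_mul (by positivity)]
      refine mul_le_mul_left (ENNReal.ofReal_le_ofReal ?_) _
      have h7 := hJ3 J (by omega)
      have hNr : (N : ℝ) = 2 ^ (J - d) := by rw [hN]; push_cast; rfl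
      rw [← hNr] at h7
      obtain ⟨ee, hee⟩ : ∃ ee : ℝ, ee = Real.exp (-(c3 * N)) := ⟨_, rfl⟩
      have hee0 : 0 < ee := by rw [hee]; exact Real.exp_pos _
      rw [← hee] at h7 ⊢
      have h8 : C3 * ee * C4 ^ (J + 2) ≤ η / 4 * ((1 / 2) ^ (a * J) / 2) := by
        have hp : (0 : ℝ) < 2 ^ (a * J) := by positivity
        have h9 : (2 * (4 / η * C3 * C4 ^ 2)) * (C4 ^ J * 2 ^ (a * J)) * ee ≤ 1 := by
          rw [mul_pow, ← pow_mul] at h7
          exact h7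
        rw [one_div, inv_pow]
        have h10 : C3 * ee * C4 ^ (J + 2) = (2 * (4 / η * C3 * C4 ^ 2)) * (C4 ^ J * 2 ^ (a * J)) * ee *
            (η / 4 * ((2 ^ (a * J))⁻¹ / 2)) := by
          rw [pow_add]
          field_simp
        rw [h10]
        exact mul_le_of_le_one_left (by positivity) h9
      calc C3 * ee * Ub b * (C4 ^ (J + 2) * (Ub b / (4 ^ b * ml b))) = (C3 * ee * C4 ^ (J + 2)) * (Ub b * (Ub b / (4 ^ b * ml b))) := by
            ring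
        _ ≤ (η / 4 * ((1 / 2) ^ (a * J) / 2)) * (Ub b * (Ub b / (4 ^ b * ml b))) :=
            mul_le_mul_of_nonneg_right h8 (by positivity)
        _ = _ := by ring
    have hq : ENNReal.ofReal (η / 4 * Ub b) ≠ 0 := by
      rw [Ne, ENNReal.ofReal_eq_zero, not_le]
      positivity
    exact (ENNReal.mul_le_mul_iff_right hq ENNReal.ofReal_ne_top).1 h6
  rw [hS0] at hcov
  refine (gf_mono hcov).trans ((gf_union_le _ _).trans ((add_le_add hm1 hm2).trans (le_of_eq ?_)))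
  rw [← add_mul, ← ENNReal.ofReal_add (by positivity) (by positivity)]
  congr 2
  ring

/-- **row Y2** -/
theorem yPtBad_s {κ : ℝ} {C : ℕ} (hS : SmL) (hR : RegZ κ C) : YPtBad κ C := by
  intro η a c1 hη
  obtain ⟨C1, b1, hC1, h1⟩ := yPtJ hS hη 8
  obtain ⟨a1, ha1⟩ : ∃ a1 : ℕ, C1 ^ 2 * 4 ^ a ≤ 2 ^ a1 := by
    obtain ⟨a1, h⟩ := pow_unbounded_of_one_lt (C1 ^ 2 * 4 ^ a) (one_lt_two)
    exact ⟨a1, h.le⟩
  obtain ⟨J0, b0, h2⟩ := yBad_pt hS hR hη a1 c1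
  refine ⟨J0 + 1, b0 + b1, fun b J y z hb hJ => ?_⟩
  have hml := ml_pos b
  have hUb := Ub_pos b
  obtain ⟨w, hw⟩ : ∃ w : ℝ, w = 1 + (y : ℝ) / ml b := ⟨_, rfl⟩
  have hw0 : 0 < w := by rw [hw]; positivity
  have e : (1 + (y : ℝ) / ml b) ^ (-(4 : ℝ)) = (w ^ 4)⁻¹ := by
    rw [← hw, Real.rpow_neg hw0.le]
    congr 1
    exact_mod_cast Real.rpow_natCast w 4
  have g1 := h2 b J y z (by omega) (by omega)
  have g2 : gf {Y | Y ∈ SA ∧ rev Y ∈ GT b η ∧ In (2 ^ (b + J)) Y ∧ (∃ n : ℕ, 2 ^ J ≤ n * 2 ^ c1 ∧ Y ∈ Lz κ C b n) ∧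
      Y.length = y ∧ TIW.en Y = z} ≤ ENNReal.ofReal (C1 ^ (J + 1) * (Ub b / (4 ^ b * ml b)) * (w ^ 8)⁻¹) * Xb b := by
    rw [hw]
    refine (gf_mono ?_).trans (h1 b J y z (by omega))
    rintro Y ⟨y1, y2, y3, -, y4, y5⟩
    exact ⟨y1, y2, y3, y4, y5⟩
  rw [e]
  refine (gm_le (by positivity) (by positivity) g1 g2).trans (mul_le_mul' (ENNReal.ofReal_le_ofReal ?_) le_rfl)
  refine Real.sqrt_le_iff.2 ⟨by positivity, ?_⟩
  have hp : (0 : ℝ) < 2 ^ (a1 * J) := by positivity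
  have h3 : C1 ^ (J + 1) * 4 ^ (a * J) ≤ 2 ^ (a1 * J) := by
    calc C1 ^ (J + 1) * 4 ^ (a * J) ≤ C1 ^ (2 * J) * 4 ^ (a * J) := by
          have : J + 1 ≤ 2 * J := by omega
          gcongr
      _ = (C1 ^ 2 * 4 ^ a) ^ J := by rw [mul_pow, ← pow_mul, ← pow_mul]
      _ ≤ (2 ^ a1) ^ J := by gcongr
      _ = 2 ^ (a1 * J) := (pow_mul _ _ _).symm
  have h4 : (4 : ℝ) ^ (a * J) = (2 ^ (a * J)) ^ 2 := by
    rw [show (4 : ℝ) = 2 ^ 2 by norm_num, ← pow_mul, ← pow_mul, mul_comm 2]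
  have h5 : (1 / 2 : ℝ) ^ (a1 * J) * C1 ^ (J + 1) ≤ 1 / (2 ^ (a * J)) ^ 2 := by
    rw [one_div, inv_pow, inv_mul_eq_div, one_div, ← one_div, div_le_div_iff₀ hp (by positivity), one_mul, ← h4]
    exact h3
  calc (1 / 2) ^ (a1 * J) * (Ub b / (4 ^ b * ml b)) * (C1 ^ (J + 1) * (Ub b / (4 ^ b * ml b)) * (w ^ 8)⁻¹)
      = (Ub b / (4 ^ b * ml b)) ^ 2 * (w ^ 8)⁻¹ * ((1 / 2) ^ (a1 * J) * C1 ^ (J + 1)) := by ring
    _ ≤ (Ub b / (4 ^ b * ml b)) ^ 2 * (w ^ 8)⁻¹ * (1 / (2 ^ (a * J)) ^ 2) := by gcongr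
    _ = (Ub b / ((2 : ℝ) ^ (a * J) * (4 ^ b * ml b)) * (w ^ 4)⁻¹) ^ 2 := by
      rw [mul_pow, inv_pow, ← pow_mul w]
      field_simp

end ARM

end HexObs
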