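import Pool.Agent.ARM.UpPt
import Pool.Agent.ARM.YPtJ
import Pool.Agent.ARM.SmL
import Pool.Agent.TIP.GeoZ

/-!
# ARM2, row U (helper29): the upper bound at a point, from `T1` alone
-/

set_option autoImplicit false

namespace HexObs

namespace ARM

open TIP

/-- **row Y1, no hypothesis** -/
theorem yPt : YPt := yPt_s smL

/-- **row Y2** -/
theorem yPtBad {κ : ℝ} {C : ℕ} (hR : RegZ κ C) : YPtBad κ C := yPtBad_s smL hR

/-- **(A1) from (T1)** -/
theorem upPt_T (hT : T1) : UpPt := by
  obtain ⟨κ, hκ, C, -, hR⟩ := TIP.regZ_all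
  exact upPt_in hκ hR hT yPt (yPtBad hR)

end ARM

end HexObs
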