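import Pool.Agent.ARM.PubF
import Pool.Agent.ARM.T1
import Pool.Agent.ARM.UpAll
import Pool.Agent.JNT.LocEM
import Pool.Agent.JNT.ExSaw8

/-!
ARM: the complete law of the end point (helper37), from LowPt and LowSm; the upper side has no hypothesis.
-/

set_option autoImplicit false

namespace NTSZ

namespace Loc

open Pool.Agent.NTS.Res

open scoped Classical

/-- **the upper side**, no hypothesis -/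
theorem law_up_all : ∃ c C : ℝ, 0 < c ∧ 0 < C ∧ ∀ n : ℕ, 1 ≤ n → ∀ z : ℂ, z ≠ 0 →
      prb n (fun s => Pool.Agent.NTS.Res.pos s n = z) ≤ C * (n : ℝ) ^ (-(3 / 2) : ℝ) *
        (‖z‖ / (n : ℝ) ^ (3 / 4 : ℝ)) ^ (11 / 24 : ℝ) * Real.exp (-(c * (‖z‖ / (n : ℝ) ^ (3 / 4 : ℝ)) ^ 4)) := by
  obtain ⟨c0, C0, hc0, hC0, h1, -⟩ := loc_twoE
  exact law_up ⟨c0, C0, hc0, hC0, h1⟩ (HexObs.ARM.upPt_T HexObs.ARM.t1)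

/-- **the complete law** from the two lower rows -/
theorem law_in (hL : HexObs.ARM.LowPt) (hS : HexObs.ARM.LowSm) :
    ∃ c C : ℝ, 0 < c ∧ 0 < C ∧ ∀ n : ℕ, 1 ≤ n → ∀ z : ℂ,
      (∀ L : ℝ, 0 ≤ L → prb n (fun s => Pool.Agent.NTS.Res.pos s n = z ∧ ∃ j, j ≤ n ∧
        L * (n : ℝ) ^ (3 / 4 : ℝ) ≤ ‖Pool.Agent.NTS.Res.pos s j‖) ≤
        C * (n : ℝ) ^ (-(3 / 2) : ℝ) * Real.exp (-(c * L ^ 4))) ∧
      (z ≠ 0 → prb n (fun s => Pool.Agent.NTS.Res.pos s n = z) ≤ C * (n : ℝ) ^ (-(3 / 2) : ℝ) *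
        (‖z‖ / (n : ℝ) ^ (3 / 4 : ℝ)) ^ (11 / 24 : ℝ) * Real.exp (-(c * (‖z‖ / (n : ℝ) ^ (3 / 4 : ℝ)) ^ 4))) ∧
      (z ≠ 0 → (∃ s : Fin n → Fin 3, Pool.Agent.NTS.Res.pos s n = z) →
        (8 ≤ n ∨ 2 < ‖z‖ ∨ ∃ s ∈ saw n, Pool.Agent.NTS.Res.pos s n = z) →
        c * (n : ℝ) ^ (-(3 / 2) : ℝ) * (‖z‖ / (n : ℝ) ^ (3 / 4 : ℝ)) ^ (11 / 24 : ℝ) *
          Real.exp (-(C * (‖z‖ / (n : ℝ) ^ (3 / 4 : ℝ)) ^ 4)) ≤ prb n (fun s => Pool.Agent.NTS.Res.pos s n = z)) :=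
  law_of loc_twoE (fun n hn z hz h => ExS.exists_saw8 n hn z hz h) (HexObs.ARM.upPt_T HexObs.ARM.t1) hL hS

end Loc

end NTSZ
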