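import Pool.Agent.ARM.DefsL
import Pool.Agent.ARM.GlueGB
import Pool.Agent.TPC.XLow
import Pool.Agent.TPC.AnO

/-!
# ARM, (A3) (helper47): `lowPt_of`, the lower bound at a point from `JLow` and `JFill`
-/

set_option autoImplicit false

namespace HexObs

namespace ARM

open Finset TS SDN HexObs.SIM NTA TIP

open scoped ENNReal

/-- **the lower bound at a point** -/
theorem lowPt_of (hJ : JLow) (hF : JFill) : LowPt := by
  obtain ⟨H1, hH1, hJ⟩ := hJ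
  obtain ⟨H2, hH2, hF⟩ := hF
  obtain ⟨H, hH⟩ : ∃ H, H = max H1 H2 := ⟨_, rfl⟩
  obtain ⟨Mx, sx, b1, c1, A, hc1, hA, hJ⟩ := hJ H (by omega)
  obtain ⟨B, hB⟩ : ∃ B : ℝ, B = (A + 2) * 4 ^ sx + 1 := ⟨_, rfl⟩
  have hB1 : 1 ≤ B := by
    rw [hB]
    have : 0 < (A + 2) * (4 : ℝ) ^ sx := by positivity
    linarith
  obtain ⟨c2, k0, hc2, hF⟩ := hF H (by omega) Mx sx B hB1
  obtain ⟨c3, hc3, hX⟩ := TPC.xLow
  obtain ⟨c4, C4, hc4, -, hU⟩ := TPC.An.Ub_two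
  obtain ⟨b, hb⟩ : ∃ b, b = b1 + k0 + 2 * sx + 3 := ⟨_, rfl⟩
  refine ⟨c1 * c2 * c3 * c4, b, by positivity, fun n j z hj hnj hz1 hz2 hcl => ?_⟩
  have hmj := G2.m_pos j
  have hmj1 := G2.m_one j
  obtain ⟨J, hJJ⟩ : ∃ J, J = j + sx := ⟨_, rfl⟩
  have hmJ := G2.m_pos J
  have hmJ1 := G2.m_one J
  have hmJj : ml J ≤ 4 ^ sx * ml j := G2.m_up (by omega)
  have hjJ : ml j ≤ ml J := ml_mono (by omega)
  obtain ⟨n', hn'⟩ : ∃ n', n' = n - ⌈ml J⌉₊ := ⟨_, rfl⟩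
  have hcl1 := Nat.ceil_lt_add_one hmJ.le
  have hcl2 := Nat.le_ceil (ml J)
  have hbb : (2 : ℝ) ^ b = 8 * (2 ^ b1 * 2 ^ k0 * 4 ^ sx) := by
    rw [hb, pow_add, pow_add, pow_add, pow_mul]
    norm_num
    ring
  have p1 : (1 : ℝ) ≤ 2 ^ b1 := one_le_pow₀ (by norm_num)
  have p2 : (1 : ℝ) ≤ 2 ^ k0 := one_le_pow₀ (by norm_num)
  have p3 : (1 : ℝ) ≤ 4 ^ sx := one_le_pow₀ (by norm_num)
  have hn1 : (8 * (2 ^ b1 * 2 ^ k0)) * ml J ≤ n := by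
    refine le_trans ?_ hnj
    rw [hbb]
    calc 8 * (2 ^ b1 * 2 ^ k0) * ml J ≤ 8 * (2 ^ b1 * 2 ^ k0) * (4 ^ sx * ml j) := by gcongr
      _ = _ := by ring
  have hn2 : 8 * (2 ^ b1) * ml J ≤ n := by
    refine le_trans ?_ hn1
    gcongr
    nlinarith
  have hn3 : 2 ^ k0 * ml J ≤ n := by
    refine le_trans ?_ hn1
    gcongr
    nlinarith
  have hn4 : (8 : ℝ) ≤ n := by nlinarith
  have hceil : (⌈ml J⌉₊ : ℝ) ≤ n := by nlinarith
  have hceil' : ⌈ml J⌉₊ ≤ n := by exact_mod_cast hceil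
  have e1 : (n' : ℝ) = n - ⌈ml J⌉₊ := by rw [hn', Nat.cast_sub hceil']
  have hn5 : 2 ^ b1 * ml J ≤ n' := by
    rw [e1]
    have : ml J ≤ 2 ^ b1 * ml J := by nlinarith
    nlinarith
  obtain ⟨k, r, D, E, d1, d2, d3, d4, d5, d6, d7, d8, d9, h1⟩ := hJ n' J (by omega) hn5
  have hkj : j ≤ k := by omega
  have hmk := G2.m_pos k
  have hmk1 := G2.m_one k
  have hmkJ : ml k ≤ ml J := ml_mono d1
  have hmJk : ml J ≤ 4 ^ sx * ml k := G2.m_up d2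
  have h2 := hF k r n D E z (by omega) (le_trans (mul_le_mul_of_nonneg_left hmkJ (by positivity)) hn3) d3 d4 d5 d6 d7 d8 d9
    (by
      calc (2 : ℤ) ^ k ≤ 2 ^ (sx + j) := pow_le_pow_right₀ (by norm_num) (by omega)
        _ = 2 ^ sx * 2 ^ j := pow_add _ _ _
        _ ≤ 2 ^ sx * TIW.hn z := mul_le_mul_of_nonneg_left hz1 (by positivity))
    (hz2.trans (pow_le_pow_right₀ (by norm_num) (by omega))) hcl
  refine le_trans ?_ h2
  have h3 : gf {M | Jn E r D k M ∧ M.length ≤ n' ∧ (n' : ℝ) ≤ M.length + A * ml J} ≤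
      gf {M | Jn E r D k M ∧ (M.length : ℝ) + ml k ≤ n ∧ (n : ℝ) ≤ M.length + B * ml k} := by
    refine gf_mono ?_
    rintro M ⟨f1, f2, f3⟩
    have f4 : (M.length : ℝ) ≤ n' := by exact_mod_cast f2
    rw [e1] at f3 f4
    refine ⟨f1, by linarith, ?_⟩
    have f5 : (A + 2) * ml J ≤ (A + 2) * (4 ^ sx * ml k) := mul_le_mul_of_nonneg_left hmJk (by linarith)
    rw [hB]
    nlinarith
  refine le_trans ?_ (mul_le_mul_left (h1.trans h3) _)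
  -- the numbers
  obtain ⟨N, hN⟩ : ∃ N, N = (n : ℝ) ^ (-(3 / 2 : ℝ)) := ⟨_, rfl⟩
  have hn0 : (0 : ℝ) < n := by linarith
  have hn'0 : (0 : ℝ) < n' := by
    have : (0 : ℝ) < 2 ^ b1 * ml J := by positivity
    linarith
  have hN0 : 0 < N := by rw [hN]; positivity
  have h4 : N ≤ (n' : ℝ) ^ (-(3 / 2 : ℝ)) := by
    rw [hN]
    refine Real.rpow_le_rpow_of_nonpos hn'0 ?_ (by norm_num)
    rw [e1]
    have : (0 : ℝ) ≤ ⌈ml J⌉₊ := Nat.cast_nonneg _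
    linarith
  have hUk := G2.U_pos k
  have hUJ := G2.U_pos J
  have h5 : ENNReal.ofReal (c1 * (4 ^ k * Ub k) * N) ≤ ENNReal.ofReal (c1 * (4 ^ J * Ub J) * (n' : ℝ) ^ (-(3 / 2 : ℝ))) := by
    refine ENNReal.ofReal_le_ofReal ?_
    have f1 : (4 : ℝ) ^ k ≤ 4 ^ J := pow_le_pow_right₀ (by norm_num) d1
    have f2 : Ub k ≤ Ub J := Ub_mono d1
    gcongr
  have hmn : max (n : ℝ) (ml j) = n := by
    refine max_eq_left ?_
    have : ml j ≤ 8 * (2 ^ b1) * ml J := by nlinarith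
    linarith
  have h6 : pr n j / (4 ^ j * ml j) = 2 ^ ((11 / 24 : ℝ) * (j : ℝ)) * N := by
    unfold pr
    rw [hmn, Real.div_rpow hmj.le hn0.le, hN, Real.rpow_neg hn0.le]
    have e2 : (ml j) ^ (3 / 2 : ℝ) = 4 ^ j := by
      unfold ml
      rw [← Real.rpow_mul (by norm_num), show (4 / 3 : ℝ) * (j : ℝ) * (3 / 2) = 2 * (j : ℝ) by ring,
        Real.rpow_mul (by norm_num), Real.rpow_natCast]
      norm_num
    rw [e2]
    have e3 : (2 : ℝ) ^ ((43 / 24 : ℝ) * (j : ℝ)) = 2 ^ ((11 / 24 : ℝ) * (j : ℝ)) * ml j := by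
      unfold ml
      rw [← Real.rpow_add (by norm_num)]
      congr 1
      ring
    rw [e3]
    field_simp
  have h7 : (2 : ℝ) ^ ((11 / 24 : ℝ) * (j : ℝ)) ≤ 2 ^ ((11 / 24 : ℝ) * (k : ℝ)) := by
    refine Real.rpow_le_rpow_of_exponent_le (by norm_num) ?_
    have : (j : ℝ) ≤ k := by exact_mod_cast hkj
    linarith
  have h8 : c4 * 2 ^ (3 / 4 * (k : ℝ)) ≤ Ub k := (hU k).1
  have h9 : (2 : ℝ) ^ ((11 / 24 : ℝ) * (k : ℝ)) * ml k = 2 ^ (3 / 4 * (k : ℝ)) * 2 ^ (25 / 24 * (k : ℝ)) := by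
    unfold ml
    rw [← Real.rpow_add (by norm_num), ← Real.rpow_add (by norm_num)]
    congr 1
    ring
  refine le_trans ?_ (mul_le_mul' h5 (mul_le_mul_right (hX k) (ENNReal.ofReal (c2 / (4 ^ k * ml k)))))
  rw [← ENNReal.ofReal_mul (by positivity), ← ENNReal.ofReal_mul (by positivity), h6]
  refine ENNReal.ofReal_le_ofReal ?_
  obtain ⟨x, hx⟩ : ∃ x : ℝ, x = 2 ^ (25 / 24 * (k : ℝ)) := ⟨_, rfl⟩
  have hx0 : 0 < x := by rw [hx]; positivity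
  have h10 : c4 * ((2 : ℝ) ^ ((11 / 24 : ℝ) * (k : ℝ)) * ml k) ≤ Ub k * x := by
    rw [h9, ← mul_assoc, ← hx]
    exact mul_le_mul_of_nonneg_right h8 hx0.le
  rw [← hx]
  calc c1 * c2 * c3 * c4 * (2 ^ ((11 / 24 : ℝ) * (j : ℝ)) * N) ≤ c1 * c2 * c3 * c4 * (2 ^ ((11 / 24 : ℝ) * (k : ℝ)) * N) := by
        gcongr
    _ = c1 * c2 * c3 * N * (c4 * ((2 : ℝ) ^ ((11 / 24 : ℝ) * (k : ℝ)) * ml k)) / ml k := by
        field_simp
    _ ≤ c1 * c2 * c3 * N * (Ub k * x) / ml k := by gcongr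
    _ = _ := by
        field_simp

end ARM

end HexObs
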