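import Pool.Agent.ARM.NcBF

/-!
# ARM, row `NcHB` (helper87): numbers and the theorem

* **`ncHB : NcHB`**.
-/

set_option autoImplicit false

namespace HexObs

namespace ARM

namespace NB

open Finset TIW TS SDN NTA TIP AR

open scoped ENNReal

/-! ### 1. Numbers -/

lemma ml_add (l u : ℕ) : ml (l + 3 * u) = ml l * (2 ^ u) ^ 4 := by
  unfold ml
  have h1 : ((2 : ℝ) ^ u) ^ 4 = (2 : ℝ) ^ ((4 * u : ℕ) : ℝ) := by
    rw [Real.rpow_natCast, ← pow_mul, mul_comm]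
  rw [h1, ← Real.rpow_add (by norm_num)]
  congr 1
  push_cast
  ring

lemma ml_ge (l : ℕ) : (2 : ℝ) ^ l ≤ ml l := by
  unfold ml
  rw [← Real.rpow_natCast]
  refine Real.rpow_le_rpow_of_exponent_le (by norm_num) ?_
  have : (0 : ℝ) ≤ l := Nat.cast_nonneg l
  linarith

/-- the windows -/
lemma kap_ok {l : ℕ} (hl : 5 ≤ l) {c0 : ℝ} (hc0 : 0 ≤ c0) : min 1 (c0 / 4608) * Ub l ≤
    ((2 ^ l / 12 : ℕ) : ℝ) * ((2 ^ l / 12 : ℕ) : ℝ) * ((⌊ml l⌋₊ / 2 : ℕ) : ℝ) * (c0 * (Ub l / (4 ^ l * ml l))) := by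
  have hU := Ub_pos l
  have hml := ml_pos l
  have h2 : (32 : ℝ) ≤ 2 ^ l := by
    calc (32 : ℝ) = 2 ^ 5 := by norm_num
      _ ≤ 2 ^ l := pow_le_pow_right₀ (by norm_num) hl
  have h3 : (2 : ℝ) ^ l / 24 ≤ ((2 ^ l / 12 : ℕ) : ℝ) := by
    have h4 : 2 ^ l < 12 * (2 ^ l / 12 : ℕ) + 12 := by omega
    have h5 : (2 : ℝ) ^ l < 12 * ((2 ^ l / 12 : ℕ) : ℝ) + 12 := by exact_mod_cast h4
    linarith
  have h4 : ml l / 8 ≤ ((⌊ml l⌋₊ / 2 : ℕ) : ℝ) := by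
    have h5 := Nat.lt_floor_add_one (ml l)
    have h6 : ⌊ml l⌋₊ < 2 * (⌊ml l⌋₊ / 2) + 2 := by omega
    have h7 : (⌊ml l⌋₊ : ℝ) < 2 * ((⌊ml l⌋₊ / 2 : ℕ) : ℝ) + 2 := by exact_mod_cast h6
    have h8 := ml_ge l
    linarith
  have h5 : (2 : ℝ) ^ l / 24 * (2 ^ l / 24) * (ml l / 8) ≤
      ((2 ^ l / 12 : ℕ) : ℝ) * ((2 ^ l / 12 : ℕ) : ℝ) * ((⌊ml l⌋₊ / 2 : ℕ) : ℝ) := by
    have h6 : (0 : ℝ) ≤ 2 ^ l / 24 := by positivity
    have h7 : (0 : ℝ) ≤ ml l / 8 := by positivity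
    have h8 : (0 : ℝ) ≤ ((2 ^ l / 12 : ℕ) : ℝ) := Nat.cast_nonneg _
    exact mul_le_mul (mul_le_mul h3 h3 h6 h8) h4 h7 (mul_nonneg h8 h8)
  have h6 : 0 ≤ c0 * (Ub l / (4 ^ l * ml l)) := by positivity
  refine le_trans ?_ (mul_le_mul_of_nonneg_right h5 h6)
  have h7 : (4 : ℝ) ^ l = 2 ^ l * 2 ^ l := by
    rw [← mul_pow]
    norm_num
  have h8 : (2 : ℝ) ^ l / 24 * (2 ^ l / 24) * (ml l / 8) * (c0 * (Ub l / (4 ^ l * ml l))) = c0 / 4608 * Ub l := by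
    rw [h7]
    field_simp
    ring
  rw [h8]
  exact mul_le_mul_of_nonneg_right (min_le_right _ _) hU.le

/-- the length targets -/
lemma lam_ok {N β : ℕ} (hN : 1 ≤ N) (t r : ℕ) : ((t * β / N : ℕ) : ℝ) + r * ((β : ℝ) / N) - 1 ≤ (((t + r) * β / N : ℕ) : ℝ) ∧
    (((t + r) * β / N : ℕ) : ℝ) ≤ ((t * β / N : ℕ) : ℝ) + r * ((β : ℝ) / N) + 1 := by
  have hN0 : (0 : ℝ) < N := by exact_mod_cast hN
  have h1 : ∀ a : ℕ, ((a / N : ℕ) : ℝ) ≤ (a : ℝ) / N := fun a => Nat.cast_div_le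
  have h2 : ∀ a : ℕ, (a : ℝ) / N < ((a / N : ℕ) : ℝ) + 1 := by
    intro a
    rw [← Nat.floor_div_eq_div (K := ℝ)]
    exact Nat.lt_floor_add_one _
  have h3 := h1 (t * β)
  have h4 := h2 (t * β)
  have h5 := h1 ((t + r) * β)
  have h6 := h2 ((t + r) * β)
  have e1 : (((t + r) * β : ℕ) : ℝ) / N = ((t * β : ℕ) : ℝ) / N + r * ((β : ℝ) / N) := by
    push_cast
    ring
  rw [e1] at h5 h6
  constructor <;> linarith

lemma hn_lvl {p : Pt} {B : ℝ} (h : ∀ dir : Bool, ((|lvl dir p| : ℤ) : ℝ) ≤ B) : (hn p : ℝ) ≤ 2 * B := by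
  have h1 := h false
  have h2 := h true
  rw [Int.cast_abs] at h1 h2
  have e1 : lvl false p = ip p up := rfl
  have e2 : lvl true p = -(ip p (rotR up)) := by
    show ip p ((-1, 0) : Pt) = _
    simp only [ip, rotR, up]
    ring
  have e3 := ip_RL up p
  rw [e1, abs_le] at h1
  rw [e2, abs_le] at h2
  push_cast at h2
  obtain ⟨d, hd, hd2⟩ := exists_hn p
  rw [← hd2]
  have e4 : (ip p (rotR up) : ℝ) + (ip p (rotL up) : ℝ) = (ip p up : ℝ) := by exact_mod_cast e3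
  rcases dir_cases upd' hd with rfl | rfl | rfl | rfl | rfl | rfl
  · linarith
  · rw [ip_neg_right]; push_cast; linarith
  · linarith
  · rw [ip_neg_right]; push_cast; linarith
  · linarith
  · rw [ip_neg_right]; push_cast; linarith

/-- the numbers of the serpentine -/
lemma exists_c {e Y : ℝ} (he : 0 < e) (he1 : e ≤ 1) (hY : 32 ≤ e * Y ^ 4) (hY0 : 1 ≤ Y) : ∃ c : ℕ, 1 ≤ c ∧ (c : ℝ) ≤ Y ^ 2 ∧
    (((2 * c + 2) * (2 * c) : ℕ) : ℝ) ≤ e * Y ^ 4 / 4 ∧ e * Y ^ 4 / 16 ≤ (((2 * c + 2) * (2 * c) : ℕ) : ℝ) := by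
  obtain ⟨Q, hQ⟩ : ∃ Q : ℕ, Q = ⌊e * Y ^ 4 / 32⌋₊ := ⟨_, rfl⟩
  have hq1 : (Q : ℝ) ≤ e * Y ^ 4 / 32 := by
    rw [hQ]
    exact Nat.floor_le (by positivity)
  have hq2 : e * Y ^ 4 / 32 < Q + 1 := by
    rw [hQ]
    exact Nat.lt_floor_add_one _
  have hQ1 : 1 ≤ Q := by
    rw [hQ]
    refine Nat.le_floor ?_
    push_cast
    linarith
  have s1 : Nat.sqrt Q * Nat.sqrt Q ≤ Q := Nat.sqrt_le Q
  have s2 : Q < (Nat.sqrt Q + 1) * (Nat.sqrt Q + 1) := Nat.lt_succ_sqrt Q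
  have s3 : 1 ≤ Nat.sqrt Q := Nat.sqrt_pos.2 hQ1
  generalize Nat.sqrt Q = c at s1 s2 s3
  have t1 : (c : ℝ) * c ≤ Q := by exact_mod_cast s1
  have t2 : (Q : ℝ) + 1 ≤ (c + 1) * (c + 1) := by exact_mod_cast s2
  have t3 : (1 : ℝ) ≤ c := by exact_mod_cast s3
  have hY4 : 0 < Y ^ 4 := by positivity
  refine ⟨c, s3, ?_, ?_, ?_⟩
  · have h1 : (c : ℝ) ^ 2 ≤ (Y ^ 2) ^ 2 := by
      have : e * Y ^ 4 ≤ 1 * Y ^ 4 := mul_le_mul_of_nonneg_right he1 hY4.le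
      calc (c : ℝ) ^ 2 = c * c := sq _
        _ ≤ e * Y ^ 4 / 32 := t1.trans hq1
        _ ≤ Y ^ 4 := by linarith
        _ = (Y ^ 2) ^ 2 := by ring
    exact le_of_sq_le_sq h1 (by positivity)
  · push_cast
    nlinarith
  · push_cast
    nlinarith

end NB

open Finset TIW TS SDN NTA TIP AR NB

open scoped ENNReal

/-- **row `NcHB`**: long words without a cut in a small box -/
theorem ncHB : NcHB := by
  classical
  intro e0 A he0 hA
  obtain ⟨e, he⟩ : ∃ e : ℝ, e = min e0 1 := ⟨_, rfl⟩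
  have hee : e ≤ e0 := by rw [he]; exact min_le_left _ _
  have he1 : e ≤ 1 := by rw [he]; exact min_le_right _ _
  have hepos : 0 < e := by rw [he]; exact lt_min he0 one_pos
  obtain ⟨X1, hX1⟩ : ∃ X1 : ℝ, X1 = 16 * (A + 1) / e := ⟨_, rfl⟩
  have hX1e : X1 * e = 16 * (A + 1) := by rw [hX1]; field_simp
  have hX16 : 16 ≤ X1 := by
    rw [hX1, le_div_iff₀ hepos]
    linarith
  obtain ⟨H, hH13, hH⟩ := AR.tubeSt (1 / 2) (4 * X1 + 2) (by norm_num) (by linarith)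
  obtain ⟨c0, k1, hc0, hT⟩ := hH H le_rfl 4
  obtain ⟨cm, Cm, hcm, hCm, hmm⟩ := ml_mm
  obtain ⟨u, hu⟩ := pow_unbounded_of_one_lt (612 * (H : ℝ) / e + 32 * (X1 + 1) / e) (one_lt_two (α := ℝ))
  have hHr : (8192 : ℝ) ≤ H := by exact_mod_cast hH13
  obtain ⟨Y, hY⟩ : ∃ Y : ℝ, Y = 2 ^ u := ⟨_, rfl⟩
  rw [← hY] at hu
  have hq1 : 0 ≤ 612 * (H : ℝ) / e := by positivity
  have hq2 : 0 ≤ 32 * (X1 + 1) / e := by positivity
  have hY1 : 612 * (H : ℝ) ≤ e * Y := by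
    have : 612 * (H : ℝ) / e ≤ Y := by linarith
    rw [div_le_iff₀ hepos] at this
    linarith
  have hY2 : 32 * (X1 + 1) ≤ e * Y := by
    have : 32 * (X1 + 1) / e ≤ Y := by linarith
    rw [div_le_iff₀ hepos] at this
    linarith
  have hYp : 0 < Y := by rw [hY]; positivity
  have hY0 : 1 ≤ Y := by
    rw [hY]
    exact one_le_pow₀ (by norm_num)
  have hY4 : Y ≤ Y ^ 4 := by
    calc Y = Y ^ 1 := (pow_one Y).symm
      _ ≤ Y ^ 4 := pow_le_pow_right₀ hY0 (by norm_num)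
  have heY4 : e * Y ≤ e * Y ^ 4 := mul_le_mul_of_nonneg_left hY4 hepos.le
  obtain ⟨c, hc1, hc2, hc3, hc4⟩ := exists_c (e := e) (Y := Y) hepos he1 (by linarith) hY0
  obtain ⟨n, hnc⟩ : ∃ n, n = 2 * c := ⟨_, rfl⟩
  obtain ⟨N, hN⟩ : ∃ N, N = (n + 2) * (2 * c) := ⟨_, rfl⟩
  have hN' : (2 * c + 2) * (2 * c) = N := by rw [hN, hnc]
  rw [hN'] at hc3 hc4
  have hN1 : 1 ≤ N := by
    rw [← hN']
    exact Nat.mul_pos (by omega) (by omega)
  have hN0 : (0 : ℝ) < N := by exact_mod_cast hN1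
  obtain ⟨v, hv⟩ : ∃ v : ℝ, v = min (1 / (2 * Y ^ 3)) (e / (16 * Cm)) := ⟨_, rfl⟩
  have hv0 : 0 < v := by rw [hv]; exact lt_min (by positivity) (by positivity)
  have hv1 : v * (2 * Y ^ 3) ≤ 1 := by
    rw [← le_div_iff₀ (by positivity), hv]
    exact min_le_left _ _
  have hv2 : v * Cm ≤ e / 16 := by
    have : v ≤ e / (16 * Cm) := by rw [hv]; exact min_le_right _ _
    rw [le_div_iff₀ (by positivity)] at this
    linarith
  obtain ⟨c5, k5, hc5, hB⟩ := JNT.ncB_M v hv0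
  obtain ⟨κ, hκ⟩ : ∃ κ : ℝ, κ = min 1 (c0 / 4608) := ⟨_, rfl⟩
  have hκ0 : 0 < κ := by rw [hκ]; exact lt_min one_pos (by positivity)
  have hκ1 : κ ≤ 1 := by rw [hκ]; exact min_le_left _ _
  refine ⟨κ ^ N * c5 / Y ^ 3, k1 + k5 + 3 * u + 5, by positivity, fun k b p hk hp hb => ?_⟩
  obtain ⟨l, hl⟩ : ∃ l, l = k - 3 * u := ⟨_, rfl⟩
  have hkl : k = l + 3 * u := by omega
  have hl5 : 5 ≤ l := by omega
  have hlk1 : k1 ≤ l := by omega
  have hkk5 : k5 ≤ k := by omega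
  have hmlk : ml k = ml l * Y ^ 4 := by rw [hkl, ml_add, hY]
  have h2k : (2 : ℝ) ^ k = 2 ^ l * Y ^ 3 := by
    rw [hkl, pow_add, hY, ← pow_mul, mul_comm u 3]
  have hml := ml_pos l
  have hmll : (32 : ℝ) ≤ ml l := by
    refine le_trans ?_ (ml_ge l)
    calc (32 : ℝ) = 2 ^ 5 := by norm_num
      _ ≤ 2 ^ l := pow_le_pow_right₀ (by norm_num) hl5
  have hmk := ml_pos k
  have hY41 : 1 ≤ Y ^ 4 := one_le_pow₀ hY0
  have hmlkl : ml l ≤ ml k := by rw [hmlk]; exact le_mul_of_one_le_right hml.le hY41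
  have hXm : (X1 + 1) * ml l ≤ e / 32 * ml k := by
    rw [hmlk]
    have h1 : (X1 + 1) * ml l ≤ e * Y ^ 4 / 32 * ml l := mul_le_mul_of_nonneg_right (by linarith) hml.le
    linarith
  have hml2 : ml l ≤ e / 32 * ml k := le_trans (le_mul_of_one_le_left hml.le (by linarith)) hXm
  have hU := Ub_pos l
  have hUk := Ub_pos k
  have h2l : (0 : ℤ) < 2 ^ l := by positivity
  have h2lr : (0 : ℝ) < 2 ^ l := by positivity
  obtain ⟨D, hD⟩ : ∃ D : ℤ, D = 18 * (H * 2 ^ l) := ⟨_, rfl⟩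
  have hHz : (8192 : ℤ) ≤ H := by exact_mod_cast hH13
  have hD1 : 8192 * 2 ^ l ≤ (H : ℤ) * 2 ^ l := mul_le_mul_of_nonneg_right hHz h2l.le
  have hDr : (D : ℝ) = 18 * (H * 2 ^ l) := by rw [hD]; push_cast; ring
  have hTK : TubeK l D (1 / 2) (4 * X1 + 2) c0 := fun r b e z hr hr4 hE h0 hz hcz hce hb1 hb2 =>
    hT l r b D e z hlk1 (le_of_eq hD.symm) (by rw [hD]; linarith) hr hr4 hE h0 hz hcz hce hb1 hb2
  obtain ⟨M, hM⟩ : ∃ M, M = ⌊ml l⌋₊ := ⟨_, rfl⟩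
  have hMr : (M : ℝ) ≤ ml l := by rw [hM]; exact Nat.floor_le hml.le
  obtain ⟨β, hβ⟩ : ∃ β, β = b + ⌈e / 2 * ml k⌉₊ := ⟨_, rfl⟩
  have hβ1 : (b : ℝ) + e / 2 * ml k ≤ β := by
    rw [hβ]
    push_cast
    have := Nat.le_ceil (e / 2 * ml k)
    linarith
  have hβ2 : (β : ℝ) ≤ b + e / 2 * ml k + 1 := by
    rw [hβ]
    push_cast
    have := (Nat.ceil_lt_add_one (show 0 ≤ e / 2 * ml k by positivity)).le
    linarith
  obtain ⟨x, hx⟩ : ∃ x : ℝ, x = (β : ℝ) / N := ⟨_, rfl⟩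
  have hx1 : 2 * ml l ≤ x := by
    rw [hx, le_div_iff₀ hN0]
    have h1 : 2 * ml l * N ≤ 2 * ml l * (e * Y ^ 4 / 4) := mul_le_mul_of_nonneg_left hc3 (by positivity)
    have h2 : 2 * ml l * (e * Y ^ 4 / 4) = e / 2 * ml k := by rw [hmlk]; ring
    have h3 : (0 : ℝ) ≤ b := Nat.cast_nonneg b
    linarith
  have hx2 : x ≤ X1 * ml l := by
    rw [hx, div_le_iff₀ hN0]
    have h1 : X1 * ml l * (e * Y ^ 4 / 16) ≤ X1 * ml l * N := mul_le_mul_of_nonneg_left hc4 (by positivity)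
    have h2 : X1 * ml l * (e * Y ^ 4 / 16) = (A + 1) * ml k := by
      rw [hmlk]
      calc X1 * ml l * (e * Y ^ 4 / 16) = (X1 * e) * (ml l * Y ^ 4) / 16 := by ring
        _ = _ := by rw [hX1e]; ring
    have h3 : e / 2 * ml k ≤ 1 / 2 * ml k := mul_le_mul_of_nonneg_right (by linarith) hmk.le
    linarith
  obtain ⟨Λ, hΛ⟩ : ∃ Λ : ℕ → ℕ, Λ = fun t => t * β / N := ⟨_, rfl⟩
  have hΛ0 : Λ 0 = 0 := by
    rw [hΛ]
    show 0 * β / N = 0
    rw [Nat.zero_mul, Nat.zero_div]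
  have hΛN : Λ N = β := by
    rw [hΛ]
    exact Nat.mul_div_cancel_left β (by omega)
  have hstep : ∀ t r, 1 ≤ r → r ≤ 4 → ((Λ t : ℝ) + M) + 1 / 2 * ml l ≤ Λ (t + r) ∧
      (Λ (t + r) : ℝ) + M ≤ Λ t + (4 * X1 + 2) * ml l := by
    intro t r hr1 hr4
    obtain ⟨g1, g2⟩ := lam_ok (β := β) hN1 t r
    rw [← hx] at g1 g2
    have e1 : Λ t = t * β / N := by rw [hΛ]
    have e2 : Λ (t + r) = (t + r) * β / N := by rw [hΛ]
    rw [← e1, ← e2] at g1 g2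
    have hr1' : (1 : ℝ) ≤ r := by exact_mod_cast hr1
    have hr4' : (r : ℝ) ≤ 4 := by exact_mod_cast hr4
    have hx0 : 0 ≤ x := by linarith
    have g3 : 1 * x ≤ r * x := mul_le_mul_of_nonneg_right hr1' hx0
    have g4 : (r : ℝ) * x ≤ 4 * x := mul_le_mul_of_nonneg_right hr4' hx0
    constructor <;> linarith
  have hchain := chn_last (n := n) (c := c) (k := l) (D := D) (κ := κ) (M := M) (m := 2 ^ l / 12) (m1 := M / 2) (Λ := Λ)
    (by omega) hc1 hTK hc0.le (by rw [hD]; linarith) (Nat.mul_div_le _ _) (Nat.mul_div_le _ _) (by norm_num) hΛ0 hstep hκ0.le hκ1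
    (by rw [hκ, hM]; exact kap_ok hl5 hc0.le)
  rw [← hN, hΛN] at hchain
  -- the tips
  obtain ⟨SE, hSE⟩ : ∃ SE : Set (List Bool), SE = {E | E ∈ BAR.HiN E.length ∧ E.length % 2 = p ∧
    (E.length : ℝ) ≤ v * mm k ∧ ∀ i, i ≤ E.length → ∀ dir : Bool, ((|lvl dir (vx oo up E i)| : ℤ) : ℝ) ≤ v * 2 ^ k} := ⟨_, rfl⟩
  have hSEm : ENNReal.ofReal c5 * Xb k ≤ gf SE := by
    rw [hSE]
    exact hB k p hkk5 hp
  have hSEs : ∀ E ∈ SE, ∀ i, i ≤ E.length → hn (vx oo up E i) ≤ 2 ^ l := by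
    intro E hE i hi
    rw [hSE] at hE
    have h1 := hn_lvl (hE.2.2.2 i hi)
    have h2 : 2 * (v * 2 ^ k) ≤ (2 : ℝ) ^ l := by
      rw [h2k]
      calc 2 * (v * (2 ^ l * Y ^ 3)) = v * (2 * Y ^ 3) * 2 ^ l := by ring
        _ ≤ 1 * 2 ^ l := mul_le_mul_of_nonneg_right hv1 h2lr.le
        _ = _ := one_mul _
    have h3 : (hn (vx oo up E i) : ℝ) ≤ ((2 ^ l : ℤ) : ℝ) := by
      push_cast
      linarith
    exact_mod_cast h3
  have hD2048 : 2048 * 2 ^ l ≤ D := by rw [hD]; linarith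
  have hmass := tip_mass (n := n) (k := l) (D := D) (N := N) (L := β) (M := M) (l1 := Λ 1 + M) (SE := SE) (by omega) hN1
    (fun E hE => by rw [hSE] at hE; exact hE.1) hSEs hD2048
  -- the target
  obtain ⟨Goal, hGoal⟩ : ∃ Goal : Set (List Bool), Goal = {F | F ∈ BAR.HiN F.length ∧ F.length % 2 = p ∧
    b ≤ F.length ∧ (F.length : ℝ) ≤ b + e0 * ml k ∧ ∀ i, i ≤ F.length → TIW.hn (vx oo up F i) ≤ ⌊e0 * 2 ^ k⌋} := ⟨_, rfl⟩
  rw [← hGoal]
  obtain ⟨LB, hLB⟩ : ∃ LB : Set (List Bool), LB = {B | ∃ h, h ≤ 2 ^ k ∧ B ∈ Brd h} := ⟨_, rfl⟩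
  have hLBm : gf LB ≤ ENNReal.ofReal (Ub k) := by
    rw [hLB]
    exact NTm.low_mass (2 ^ k)
  have hΛ1 : ((Λ 1 + M : ℕ) : ℝ) ≤ (X1 + 1) * ml l := by
    obtain ⟨g1, g2⟩ := lam_ok (β := β) hN1 0 1
    rw [← hx] at g2
    have e1 : (0 + 1) * β / N = Λ 1 := by rw [hΛ]
    have h1 : ((1 * β / N : ℕ) : ℝ) ≤ x := by
      rw [hx, Nat.one_mul]
      exact Nat.cast_div_le
    have e2 : 1 * β / N = Λ 1 := by rw [hΛ]
    rw [e2] at h1
    push_cast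
    linarith
  have hsub : (Pr (CC (snk n) D l N β M (Λ 1 + M)) fun _ => SE) ⊆ Ex.cat LB Goal := by
    rintro F ⟨A', hA', E, hE, rfl⟩
    have hE' := hE
    rw [hSE] at hE'
    obtain ⟨B, G, f1, f2, f3, f4, f5, f6⟩ := tip_all (n := n) (c := c) (by omega) hc1 hN hA' hE'.1 (hSEs E hE) hD2048
    have hAe := cc_even hc1 hN hA'
    obtain ⟨z, -, -, a1, a2, -⟩ := hA'
    have hBb := TS.BU_hgt f2
    have hBe := POL.ev_len hBb
    have hlen : A'.length + E.length = B.length + G.length := by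
      rw [← List.length_append, f1, List.length_append]
    refine ⟨B, G, ?_, ?_, f1⟩
    · rw [hLB]
      refine ⟨hgt B, ?_, hBb⟩
      have h1 : (3 : ℝ) * (hgt B : ℝ) ≤ D + 2 * 2 ^ l := by exact_mod_cast f4
      have h2 : (D : ℝ) + 2 * 2 ^ l ≤ 3 * 2 ^ k := by
        rw [hDr, h2k]
        have h3 : 18 * (H : ℝ) + 2 ≤ 3 * Y ^ 3 := by
          have h4 : Y ≤ Y ^ 3 := by
            calc Y = Y ^ 1 := (pow_one Y).symm
              _ ≤ Y ^ 3 := pow_le_pow_right₀ hY0 (by norm_num)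
          have h5 : e * Y ≤ 1 * Y := mul_le_mul_of_nonneg_right he1 hYp.le
          linarith
        calc 18 * ((H : ℝ) * 2 ^ l) + 2 * 2 ^ l = (18 * H + 2) * 2 ^ l := by ring
          _ ≤ 3 * Y ^ 3 * 2 ^ l := mul_le_mul_of_nonneg_right h3 h2lr.le
          _ = _ := by ring
      have h3 : (hgt B : ℝ) ≤ ((2 ^ k : ℕ) : ℝ) := by
        push_cast
        linarith
      exact_mod_cast h3
    · rw [hGoal]
      have b1 : (B.length : ℝ) ≤ e / 32 * ml k := by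
        have : (B.length : ℝ) ≤ ((Λ 1 + M : ℕ) : ℝ) := by exact_mod_cast f3
        linarith
      have b2 : (G.length : ℝ) = A'.length + E.length - B.length := by
        have : (A'.length : ℝ) + E.length = B.length + G.length := by exact_mod_cast hlen
        linarith
      have b3 : (β : ℝ) ≤ A'.length := by exact_mod_cast a1
      have b4 : (A'.length : ℝ) ≤ β + M := by exact_mod_cast a2
      have b5 : (E.length : ℝ) ≤ e / 16 * ml k := by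
        have h1 := hE'.2.2.1
        have h2 := (hmm k).2
        calc (E.length : ℝ) ≤ v * mm k := h1
          _ ≤ v * (Cm * ml k) := mul_le_mul_of_nonneg_left h2 hv0.le
          _ = v * Cm * ml k := by ring
          _ ≤ e / 16 * ml k := mul_le_mul_of_nonneg_right hv2 hmk.le
      have b6 : (0 : ℝ) ≤ E.length := Nat.cast_nonneg _
      have b7 : (0 : ℝ) ≤ B.length := Nat.cast_nonneg _
      have b8 : e * ml k ≤ e0 * ml k := mul_le_mul_of_nonneg_right hee hmk.le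
      have b9 : 0 < e * ml k := by positivity
      refine ⟨f5, ?_, ?_, ?_, fun i hi => ?_⟩
      · have h1 := hE'.2.1
        rw [Nat.even_iff] at hAe
        omega
      · have : (b : ℝ) ≤ G.length := by
          rw [b2]
          linarith
        exact_mod_cast this
      · rw [b2]
        linarith
      · rw [Int.le_floor]
        have h1 := f6 i hi
        have h2 : (hn (vx oo up G i) : ℝ) ≤ 2 * ((D : ℝ) * (6 * c + 2 * n + 6)) := by exact_mod_cast h1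
        refine h2.trans ?_
        have hcr : (1 : ℝ) ≤ c := by exact_mod_cast hc1
        have hnr : (n : ℝ) = 2 * c := by rw [hnc]; push_cast; ring
        rw [hDr, hnr, h2k]
        have h3 : (6 * (c : ℝ) + 2 * (2 * c) + 6) ≤ 16 * c := by linarith
        have h4 : (H : ℝ) * (16 * c) ≤ H * (16 * Y ^ 2) := by
          refine mul_le_mul_of_nonneg_left ?_ (by linarith)
          linarith
        have h5 : 36 * ((H : ℝ) * (16 * Y ^ 2)) ≤ e * Y ^ 3 := by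
          have h6 : 612 * (H : ℝ) * Y ^ 2 ≤ e * Y * Y ^ 2 := mul_le_mul_of_nonneg_right hY1 (by positivity)
          have h7 : 0 ≤ (H : ℝ) * Y ^ 2 := by positivity
          calc 36 * ((H : ℝ) * (16 * Y ^ 2)) = 576 * (H * Y ^ 2) := by ring
            _ ≤ 612 * (H * Y ^ 2) := by linarith
            _ = 612 * (H : ℝ) * Y ^ 2 := by ring
            _ ≤ e * Y * Y ^ 2 := h6
            _ = e * Y ^ 3 := by ring
        calc 2 * (18 * ((H : ℝ) * 2 ^ l) * (6 * c + 2 * (2 * c) + 6))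
            ≤ 2 * (18 * ((H : ℝ) * 2 ^ l) * (16 * c)) := by gcongr
          _ = 36 * (H * (16 * c)) * 2 ^ l := by ring
          _ ≤ 36 * (H * (16 * Y ^ 2)) * 2 ^ l := by gcongr
          _ ≤ e * Y ^ 3 * 2 ^ l := mul_le_mul_of_nonneg_right h5 h2lr.le
          _ ≤ e0 * Y ^ 3 * 2 ^ l := by gcongr
          _ = e0 * (2 ^ l * Y ^ 3) := by ring
  -- the masses
  have hfin : ENNReal.ofReal (κ ^ N * Ub l) * (ENNReal.ofReal c5 * Xb k) ≤ ENNReal.ofReal (Ub k) * gf Goal :=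
    (mul_le_mul' hchain hSEm).trans (hmass.trans ((gf_mono hsub).trans ((Ex.gf_cat_le _ _).trans (mul_le_mul' hLBm le_rfl))))
  have hUkl : Ub k ≤ Y ^ 3 * Ub l := by
    have := TPC.Ub_pow l (3 * u)
    rw [← hkl] at this
    rw [hY, ← pow_mul, mul_comm u 3]
    exact this
  have h1 : ENNReal.ofReal (Ub k) * (ENNReal.ofReal (κ ^ N * c5 / Y ^ 3) * Xb k) ≤ ENNReal.ofReal (Ub k) * gf Goal := by
    refine le_trans ?_ hfin
    rw [← mul_assoc, ← mul_assoc, ← ENNReal.ofReal_mul hUk.le, ← ENNReal.ofReal_mul (by positivity)]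
    refine mul_le_mul' (ENNReal.ofReal_le_ofReal ?_) le_rfl
    calc Ub k * (κ ^ N * c5 / Y ^ 3) ≤ Y ^ 3 * Ub l * (κ ^ N * c5 / Y ^ 3) := by gcongr
      _ = κ ^ N * Ub l * c5 := by field_simp
  exact (ENNReal.mul_le_mul_iff_right (by simpa using hUk) ENNReal.ofReal_ne_top).1 h1

end ARM

end HexObs
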