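import Pool.Agent.ARM.TipU
import Pool.Agent.ARM.TipF
import Pool.Agent.ARM.DefsC
import Pool.Agent.ARM.Rv
import Pool.Agent.NPR.TwoEnd

/-!
ARM, row T' (helper73), part 2: the mass of the words with both ends close and a good local structure at BOTH ends
(disjoint), **`tipF2s : TipF2s`**.
-/

set_option autoImplicit false

namespace HexObs

namespace ARM

open Finset TS SDN NTW NTA HexObs.SIM TIP

open scoped ENNReal

/-- the masses of the classes PF -/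
noncomputable def MPF (a D : ℝ) (n i c t : ℕ) : ℝ := 4 * (8 * a) ^ 4 * D * (((t : ℝ) + c) ^ 4 * pr n i)

lemma MPF_grow {a D : ℝ} (ha : 0 < a) (hD : 0 ≤ D) (n i c t s : ℕ) (hc : 1 ≤ c) :
    MPF a D n i c (t + 2 ^ s) ≤ ((2 : ℝ) ^ 4) ^ (s + 1) * MPF a D n i c t := by
  have hp := pr_pos n i
  have hc' : (1 : ℝ) ≤ c := by exact_mod_cast hc
  unfold MPF
  push_cast
  have h1 : (t : ℝ) + 2 ^ s + c ≤ 2 ^ (s + 1) * (t + c) := by
    have h2 : (1 : ℝ) ≤ 2 ^ s := one_le_pow₀ (by norm_num)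
    have h3 : (0 : ℝ) ≤ t := Nat.cast_nonneg t
    rw [pow_succ]
    nlinarith
  have h2 : ((t : ℝ) + 2 ^ s + c) ^ 4 ≤ (2 ^ (s + 1) * (t + c)) ^ 4 := pow_le_pow_left₀ (by positivity) h1 _
  calc 4 * (8 * a) ^ 4 * D * (((t : ℝ) + 2 ^ s + c) ^ 4 * pr n i)
      ≤ 4 * (8 * a) ^ 4 * D * ((2 ^ (s + 1) * (t + c)) ^ 4 * pr n i) := by gcongr
    _ = ((2 : ℝ) ^ 4) ^ (s + 1) * (4 * (8 * a) ^ 4 * D * (((t : ℝ) + c) ^ 4 * pr n i)) := by
        rw [mul_pow ((2 : ℝ) ^ (s + 1)) _ 4, ← pow_mul, ← pow_mul, mul_comm (s + 1) 4]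
        ring

lemma MPF_nonneg {a D : ℝ} (ha : 0 < a) (hD : 0 ≤ D) (n i c t : ℕ) : 0 ≤ MPF a D n i c t := by
  have hp := pr_pos n i
  unfold MPF
  positivity

lemma en_append (L e : List Bool) : TIW.en (L ++ e) = TIW.en L + mulE (TIW.rt L) (TIW.en e) := by
  unfold TIW.en
  rw [List.length_append, TIW.vx_app]
  rfl

/-- removal of the end -/
lemma PF_pre {a : ℝ} (ha : 1 ≤ a) (hma : ∀ i : ℕ, PW.mZ (2 ^ i) ≤ a * ml i) {n i t s : ℕ} {A Z : List Bool}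
    (hAZ : A ++ Z ∈ PF a n i t) (hs : Sz i (2 ^ s) Z) : A ∈ PF a n i (t + 2 ^ s) := by
  have hm := ml_pos i
  have ha0 : 0 < a := by linarith
  obtain ⟨h1, h2, h3, h4⟩ := hAZ
  obtain ⟨g1, g2⟩ := hs
  have g3 : (Z.length : ℝ) ≤ 2 ^ s * (a * ml i) := g1.trans (mul_le_mul_of_nonneg_left (hma i) (by positivity))
  rw [List.length_append] at h2 h3
  push_cast at h2 h3 ⊢
  have hZ0 : (0 : ℝ) ≤ Z.length := Nat.cast_nonneg _
  refine ⟨?_, ?_, ?_, ?_⟩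
  · have := SA_take h1 A.length
    rwa [List.take_left' rfl] at this
  · push_cast
    linarith
  · push_cast
    have : (0 : ℝ) ≤ 2 ^ s * (a * ml i) := by positivity
    linarith
  · have h5 : TIW.hn (TIW.en A) ≤ TIW.hn (TIW.en (A ++ Z)) + TIW.hn (TIW.en Z) := by
      have e : TIW.en A = TIW.en (A ++ Z) - mulE (TIW.rt A) (TIW.en Z) := by
        rw [en_append A Z]
        abel
      have h6 := TIW.hn_sub (TIW.en (A ++ Z)) (mulE (TIW.rt A) (TIW.en Z))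
      rw [← e, TIW.hn_mulE (TIW.nrm_rt A)] at h6
      exact h6
    have h6 := g2 Z.length le_rfl
    have h7 : ((TIW.hn (TIW.en A) : ℤ) : ℝ) ≤ ((TIW.hn (TIW.en (A ++ Z)) : ℤ) : ℝ) + ((TIW.hn (TIW.en Z) : ℤ) : ℝ) := by
      exact_mod_cast h5
    have h8 : ((TIW.hn (TIW.en Z) : ℤ) : ℝ) ≤ 2 ^ s * 2 ^ i := h6
    push_cast
    calc ((TIW.hn (TIW.en A) : ℤ) : ℝ) ≤ ((t : ℝ) + 1) * 2 ^ i + 2 ^ s * 2 ^ i := by linarith
      _ = ((t : ℝ) + 2 ^ s + 1) * 2 ^ i := by ring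

/-- short narrow words added at the end -/
lemma PF_glue {a : ℝ} (ha : 1 ≤ a) (hma : ∀ i : ℕ, PW.mZ (2 ^ i) ≤ a * ml i) {n i t k : ℕ} (hk : k ≤ i) {L e : List Bool}
    (hL : L ∈ PF a n i t) (he : ShE k e) (hT : L ++ e ∈ SA) : L ++ e ∈ PF a n i (t + 10) := by
  have hm := ml_pos i
  have hx : 0 < a * ml i := by positivity
  obtain ⟨h1, h2, h3, h4⟩ := hL
  have hel : (e.length : ℝ) ≤ a * ml i := by
    refine he.2.2.trans ?_
    obtain ⟨j, rfl⟩ := Nat.exists_eq_add_of_le hk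
    exact (m_monoM k j).trans (hma _)
  have he0 : (0 : ℝ) ≤ e.length := Nat.cast_nonneg _
  refine ⟨hT, ?_, ?_, ?_⟩
  · rw [List.length_append]
    push_cast
    nlinarith
  · rw [List.length_append]
    push_cast
    nlinarith
  · have h5 := TIW.hn_add (TIW.en L) (mulE (TIW.rt L) (TIW.en e))
    rw [← en_append L e, TIW.hn_mulE (TIW.nrm_rt L)] at h5
    have h6 := shE_end hk he
    have h7 : ((TIW.hn (TIW.en (L ++ e)) : ℤ) : ℝ) ≤ ((TIW.hn (TIW.en L) : ℤ) : ℝ) + 10 * 2 ^ i := by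
      exact_mod_cast h5.trans (add_le_add le_rfl h6)
    push_cast
    calc ((TIW.hn (TIW.en (L ++ e)) : ℤ) : ℝ) ≤ ((t : ℝ) + 1) * 2 ^ i + 10 * 2 ^ i := by linarith
      _ = ((t : ℝ) + 10 + 1) * 2 ^ i := by ring

/-- **the tip lemma in all the classes PF** -/
theorem tipPF {a : ℝ} (ha : 1 ≤ a) (hma : ∀ i : ℕ, PW.mZ (2 ^ i) ≤ a * ml i) {η : ℝ} (hη : 0 < η) : ∃ C : ℝ, 0 < C ∧
    ∀ (D : ℝ) (n i b t : ℕ), 0 ≤ D → HF D n i → b ≤ i →
      gf (PF a n i t ∩ GT b η) * Xb b ≤ ENNReal.ofReal (C * MPF a D n i 11 t) := by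
  obtain ⟨C, hC, hT⟩ := tipT η ((2 : ℝ) ^ 4) hη (by norm_num)
  have ha0 : 0 < a := by linarith
  refine ⟨C, hC, fun D n i b t hD hH hb => ?_⟩
  have hbound : ∀ t, gf (PF a n i (t + 10)) ≤ ENNReal.ofReal (MPF a D n i 11 t) := by
    intro t
    refine (PF_mass ha hD hH (t + 10)).trans (le_of_eq ?_)
    unfold MPF
    push_cast
    congr 3
    ring
  have hens : EnsT (PF a n i) (fun t => ENNReal.ofReal (MPF a D n i 11 t)) i ((2 : ℝ) ^ 4) := by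
    refine ⟨fun t L hL => hL.1, fun t s A Z hAZ hZ hZh hs => PF_pre ha hma hAZ hs, fun t => ?_, fun t k hk => ?_,
      fun t s => ?_⟩
    · exact (gf_mono (PF_mono a ha n i (by omega))).trans (hbound t)
    · refine (gf_mono ?_).trans (hbound t)
      rintro T ⟨hT1, L, hL, e, he, rfl⟩
      exact PF_glue ha hma hk hL he hT1
    · show ENNReal.ofReal _ ≤ _ * ENNReal.ofReal _
      rw [← ENNReal.ofReal_mul (by positivity)]
      exact ENNReal.ofReal_le_ofReal (MPF_grow ha0 hD n i 11 t s (by norm_num))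
  have key := hT (PF a n i) _ i hens b t hb
  rwa [← ENNReal.ofReal_mul hC.le] at key

/-! ### the start -/

lemma PF_rv {a : ℝ} (ha : 1 ≤ a) {n i t : ℕ} {L : List Bool} (hL : L ∈ PF a n i t) (h1 : 1 ≤ L.length) :
    rv L ∈ PF a n i (t + 2) := by
  have hm : 1 ≤ ml i := by
    unfold ml
    exact Real.one_le_rpow (by norm_num) (by positivity)
  obtain ⟨g1, g2, g3, g4⟩ := hL
  have hx : 1 ≤ a * ml i := by nlinarith
  have e : (((rv L).length : ℕ) : ℝ) = (L.length : ℝ) - 1 := by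
    rw [rv_length, Nat.cast_sub h1, Nat.cast_one]
  refine ⟨rv_SA g1, ?_, ?_, ?_⟩
  · rw [e]
    push_cast
    nlinarith
  · rw [e]
    push_cast
    nlinarith
  · have h5 := hn_en_rv h1
    have h6 : ((TIW.hn (TIW.en (rv L)) : ℤ) : ℝ) ≤ ((TIW.hn (TIW.en L) : ℤ) : ℝ) + 2 := by exact_mod_cast h5
    have h7 : (1 : ℝ) ≤ 2 ^ i := one_le_pow₀ (by norm_num)
    push_cast
    nlinarith

/-- the transfer to the reversed walk -/
lemma PF_gf_rv {a : ℝ} (ha : 1 ≤ a) (n i t : ℕ) (X : Set (List Bool)) :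
    gf {L | L ∈ PF a n i t ∧ 1 ≤ L.length ∧ rv L ∈ X} ≤ 2 * gf (PF a n i (t + 2) ∩ X) := by
  have hsub : {L | L ∈ PF a n i t ∧ 1 ≤ L.length ∧ rv L ∈ X} ⊆
      {L | (L ∈ PF a n i t ∧ 1 ≤ L.length ∧ rv L ∈ X) ∧ (rev L).headD true = true} ∪
      {L | (L ∈ PF a n i t ∧ 1 ≤ L.length ∧ rv L ∈ X) ∧ (rev L).headD true = false} := by
    intro L hL
    cases hb : (rev L).headD true with
    | true => exact Or.inl ⟨hL, hb⟩
    | false => exact Or.inr ⟨hL, hb⟩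
  have hb : ∀ b : Bool, gf {L | (L ∈ PF a n i t ∧ 1 ≤ L.length ∧ rv L ∈ X) ∧ (rev L).headD true = b} ≤
      gf (PF a n i (t + 2) ∩ X) := by
    intro b
    have := gf_le_of_inj (P := {L | (L ∈ PF a n i t ∧ 1 ≤ L.length ∧ rv L ∈ X) ∧ (rev L).headD true = b})
      (Q := PF a n i (t + 2) ∩ X) rv (fun L hL => ⟨PF_rv ha hL.1.1 hL.1.2.1, hL.1.2.2⟩)
      (fun L hL L' hL' h => rv_inj hL.1.2.1 hL'.1.2.1 h (hL.2.trans hL'.2.symm)) 1
      (fun L hL => by rw [one_mul]; exact wE_rv hL.1.2.1)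
    rwa [one_mul] at this
  calc gf {L | L ∈ PF a n i t ∧ 1 ≤ L.length ∧ rv L ∈ X} ≤ _ := gf_mono hsub
    _ ≤ _ := gf_union_le _ _
    _ ≤ gf (PF a n i (t + 2) ∩ X) + gf (PF a n i (t + 2) ∩ X) := add_le_add (hb true) (hb false)
    _ = _ := (two_mul _).symm

lemma rv_GS {η : ℝ} {E b : ℕ} (hb : b ≠ 0) {V R : List Bool} (hV : V ∈ NPR.GS η E b) (hR : R ≠ []) :
    rv (V ++ R) ∈ GT b η := by
  have h1 := NPR.GS_rev hb hV []
  rw [List.append_nil] at h1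
  unfold rv
  rw [TD.rev_append', List.drop_append_of_le_length]
  · exact NPR.GT_left h1
  · rw [rev_length]
    exact List.length_pos_iff.2 hR

/-- **the words of PF with a good start** -/
theorem startPF {a : ℝ} (ha : 1 ≤ a) (hma : ∀ i : ℕ, PW.mZ (2 ^ i) ≤ a * ml i) {η : ℝ} (hη : 0 < η) : ∃ C : ℝ, 0 < C ∧
    ∀ (D : ℝ) (n i b E t : ℕ), 0 ≤ D → HF D n i → b ≤ i → b ≠ 0 →
      gf {L | L ∈ PF a n i t ∧ ∃ V ∈ NPR.GS η E b, ∃ R, R ≠ [] ∧ L = V ++ R} * Xb b ≤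
        ENNReal.ofReal (C * MPF a D n i 13 t) := by
  obtain ⟨C, hC, h⟩ := tipPF ha hma hη
  refine ⟨2 * C, by positivity, fun D n i b E t hD hH hb hb0 => ?_⟩
  have h1 : gf {L | L ∈ PF a n i t ∧ ∃ V ∈ NPR.GS η E b, ∃ R, R ≠ [] ∧ L = V ++ R} ≤
      2 * gf (PF a n i (t + 2) ∩ GT b η) := by
    refine (gf_mono ?_).trans (PF_gf_rv ha n i t (GT b η))
    rintro L ⟨g1, V, hV, R, hR, rfl⟩
    refine ⟨g1, ?_, rv_GS hb0 hV hR⟩
    have : 0 < R.length := List.length_pos_iff.2 hR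
    rw [List.length_append]
    omega
  calc gf {L | L ∈ PF a n i t ∧ ∃ V ∈ NPR.GS η E b, ∃ R, R ≠ [] ∧ L = V ++ R} * Xb b
      ≤ 2 * gf (PF a n i (t + 2) ∩ GT b η) * Xb b := mul_le_mul_left h1 _
    _ = 2 * (gf (PF a n i (t + 2) ∩ GT b η) * Xb b) := by ring
    _ ≤ 2 * ENNReal.ofReal (C * MPF a D n i 11 (t + 2)) := mul_le_mul_right (h D n i b (t + 2) hD hH hb) _
    _ = ENNReal.ofReal (2 * C * MPF a D n i 13 t) := by
        rw [show (2 : ℝ≥0∞) = ENNReal.ofReal 2 by simp, ← ENNReal.ofReal_mul (by norm_num), ← mul_assoc]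
        congr 2
        unfold MPF
        push_cast
        ring

/-! ### the structure at the end -/

/-- words that start in VV; behind this start some vertex lies at least 2 ^ (be + 1) rows below the tip -/
def SVs (VV : Set (List Bool)) (be : ℕ) : Set (List Bool) :=
  {w | ∃ (V R : List Bool) (i : ℕ), w = V ++ R ∧ V ∈ VV ∧ V.length ≤ i ∧ i ≤ w.length ∧
    lv (TIP.fr w (vx oo up w i)) ≤ -(3 * 2 ^ (be + 1))}

/-- **removal of a low bridge** -/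
lemma SVs_pre {VV : Set (List Bool)} {b : ℕ} {A Z : List Bool} (h : A ++ Z ∈ SVs VV (b + 1)) (hZ : Z ∈ BU)
    (hh : hgt Z ≤ 2 ^ (b + 1)) : A ∈ SVs VV b := by
  obtain ⟨V, R, i, he, hV, hVi, hi, hlv⟩ := h
  have hhz : (hgt Z : ℤ) ≤ 2 ^ (b + 1) := by exact_mod_cast hh
  have h0 : (0 : ℤ) ≤ hgt Z := by positivity
  have hpow : (2 : ℤ) ^ (b + 1 + 1) = 2 * 2 ^ (b + 1) := by rw [pow_succ]; ring
  have hp1 : (1 : ℤ) ≤ 2 ^ (b + 1) := one_le_pow₀ (by norm_num)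
  have gZ := mem_Brd.1 (TIP.BU_hgt hZ)
  have hiA : i ≤ A.length := by
    by_contra hcon
    obtain ⟨j, rfl⟩ : ∃ j, i = A.length + j := ⟨i - A.length, by omega⟩
    rw [List.length_append] at hi
    rw [lv_fr_app A Z hZ, fr_front, TIP.lv_vx, hpow] at hlv
    have h1 := gZ.1 j (by omega) (by omega)
    omega
  obtain ⟨W, hA, -⟩ := NPR.pre_eq he (hVi.trans hiA)
  refine ⟨V, W, i, hA, hV, hVi, hiA, ?_⟩
  rw [lv_fr_app A Z hZ, vx_append (by omega), hpow] at hlv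
  omega

lemma fr_tip (w : List Bool) : lv (TIP.fr w (vx oo up w w.length)) = 0 := by
  have h4 : TIP.fr w (vx oo up w w.length) = 0 := by
    unfold TIP.fr tipv
    rw [sub_self]
    unfold mulE
    ext <;> simp
  rw [h4, lv_ip]
  unfold ip
  simp

lemma SVs_ne {VV : Set (List Bool)} {b : ℕ} {w : List Bool} (h : w ∈ SVs VV b) : ∃ V ∈ VV, ∃ R, R ≠ [] ∧ w = V ++ R := by
  obtain ⟨V, R, i, he, hV, hVi, hi, hlv⟩ := h
  refine ⟨V, hV, R, ?_, he⟩
  rintro rfl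
  rw [List.append_nil] at he
  subst he
  have h1 : i = w.length := by omega
  rw [h1, fr_tip] at hlv
  have hp1 : (1 : ℤ) ≤ 2 ^ (b + 1) := one_le_pow₀ (by norm_num)
  omega

/-- the structure of the words of TwoG -/
lemma TwoG_SVs {η : ℝ} {E b : ℕ} (hb : b ≠ 0) {L : List Bool} (hL : L ∈ TwoG η E b) :
    L ∈ SVs (NPR.GS η E b) b ∧ L ∈ GT b η := by
  obtain ⟨V, hV, R, T, hT, rfl⟩ := hL
  obtain ⟨h1, h2, h3⟩ := NPR.GE_BU hb hT
  have e1 : V ++ (R ++ T) = (V ++ R) ++ T := by rw [List.append_assoc]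
  refine ⟨⟨V, R ++ T, (V ++ R).length, rfl, hV, by rw [List.length_append]; omega, ?_, ?_⟩, ?_⟩
  · simp only [List.length_append]
    omega
  · rw [e1, lv_fr_app (V ++ R) T h1, vx_append (by omega), fr_tip]
    have h6 : (2 : ℤ) ^ (b + 1) ≤ hgt T := by exact_mod_cast h2
    omega
  · rw [e1]
    exact h3 _

/-- **row T'** -/
theorem tipF2s : TipF2s := by
  intro η E hη
  obtain ⟨a, ha, hma⟩ := mZ_ml
  obtain ⟨C, hC, hT⟩ := tipU η ((2 : ℝ) ^ 4) hη (by norm_num)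
  obtain ⟨C1, hC1, hst⟩ := startPF ha hma hη
  have ha0 : 0 < a := by linarith
  obtain ⟨X0, hX0, hX0'⟩ : ∃ X0 : ℝ, 0 ≤ X0 ∧ Xb 0 = ENNReal.ofReal X0 :=
    ⟨(Xb 0).toReal, ENNReal.toReal_nonneg, (ENNReal.ofReal_toReal (Xb_ne_top 0)).symm⟩
  obtain ⟨K, hK⟩ : ∃ K : ℝ, K = C * (C1 * (4 * (8 * a) ^ 4 * 23 ^ 4)) + X0 ^ 2 := ⟨_, rfl⟩
  have hK1 : 0 < C * (C1 * (4 * (8 * a) ^ 4 * 23 ^ 4)) := by positivity
  refine ⟨K, by rw [hK]; positivity, fun D n i b hD hH hb => ?_⟩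
  have hp := pr_pos n i
  by_cases hb0 : b = 0
  · subst hb0
    rw [hX0', ← ENNReal.ofReal_pow hX0]
    calc gf {L | L ∈ F n i ∧ L ∈ TwoG η E 0} * ENNReal.ofReal (X0 ^ 2)
        ≤ ENNReal.ofReal (D * pr n i) * ENNReal.ofReal (X0 ^ 2) :=
          mul_le_mul_left ((gf_mono fun L hL => hL.1).trans (hH n i le_rfl le_rfl)) _
      _ = ENNReal.ofReal (X0 ^ 2 * D * pr n i) := by
          rw [← ENNReal.ofReal_mul (by positivity)]
          congr 1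
          ring
      _ ≤ _ := by
          refine ENNReal.ofReal_le_ofReal ?_
          gcongr
          rw [hK]
          linarith
  -- the family
  obtain ⟨P, hP⟩ : ∃ P : ℕ → ℕ → Set (List Bool), P = fun b' t => {L | L ∈ PF a n i t ∧ L ∈ SVs (NPR.GS η E b) b'} :=
    ⟨_, rfl⟩
  obtain ⟨M, hM⟩ : ∃ M : ℕ → ℝ≥0∞, M = fun t : ℕ => ENNReal.ofReal (C1 * MPF a D n i 23 t) * (Xb b)⁻¹ := ⟨_, rfl⟩
  have hXt := Xb_ne_top b
  have hX0b : Xb b ≠ 0 := by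
    intro h
    have := one_le_Xb b
    rw [h, mul_zero] at this
    simp at this
  have hbound : ∀ t, gf {L | L ∈ PF a n i (t + 10) ∧ ∃ V ∈ NPR.GS η E b, ∃ R, R ≠ [] ∧ L = V ++ R} ≤ M t := by
    intro t
    have h1 := hst D n i b E (t + 10) hD hH hb hb0
    have h2 : MPF a D n i 13 (t + 10) = MPF a D n i 23 t := by
      unfold MPF
      push_cast
      ring
    rw [h2] at h1
    rw [hM]
    show _ ≤ _ * (Xb b)⁻¹
    calc gf {L | L ∈ PF a n i (t + 10) ∧ ∃ V ∈ NPR.GS η E b, ∃ R, R ≠ [] ∧ L = V ++ R}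
        = gf {L | L ∈ PF a n i (t + 10) ∧ ∃ V ∈ NPR.GS η E b, ∃ R, R ≠ [] ∧ L = V ++ R} * Xb b * (Xb b)⁻¹ := by
          rw [mul_assoc, ENNReal.mul_inv_cancel hX0b hXt, mul_one]
      _ ≤ _ := mul_le_mul_left h1 _
  have hens : EnsU P M i ((2 : ℝ) ^ 4) := by
    rw [hP]
    refine ⟨fun b' t L hL => hL.1.1, fun b' t s A Z hb' hAZ hZ hZh hs => ⟨PF_pre ha hma hAZ.1 hs, SVs_pre hAZ.2 hZ hZh⟩,
      fun b' t => ?_, fun b' t k hk => ?_, fun t s => ?_⟩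
    · refine (gf_mono ?_).trans (hbound t)
      rintro L ⟨h1, h2⟩
      exact ⟨PF_mono a ha n i (by omega) h1, SVs_ne h2⟩
    · refine (gf_mono ?_).trans (hbound t)
      rintro T ⟨hT1, L, ⟨h1, h2⟩, e, he, rfl⟩
      obtain ⟨V, hV, R, hR, rfl⟩ := SVs_ne h2
      exact ⟨PF_glue ha hma hk h1 he hT1, V, hV, R ++ e, by simp [hR], by rw [List.append_assoc]⟩
    · rw [hM]
      show ENNReal.ofReal _ * _ ≤ _ * (ENNReal.ofReal _ * _)
      rw [← mul_assoc, ← ENNReal.ofReal_mul (by positivity)]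
      refine mul_le_mul_left (ENNReal.ofReal_le_ofReal ?_) _
      have := MPF_grow ha0 hD n i 23 t s (by norm_num)
      calc C1 * MPF a D n i 23 (t + 2 ^ s) ≤ C1 * (((2 : ℝ) ^ 4) ^ (s + 1) * MPF a D n i 23 t) :=
            mul_le_mul_of_nonneg_left this hC1.le
        _ = _ := by ring
  have key := hT P M i hens b 0 hb
  have hsub : {L | L ∈ F n i ∧ L ∈ TwoG η E b} ⊆ P b 0 ∩ GT b η := by
    rintro L ⟨h1, h2⟩
    obtain ⟨h3, h4⟩ := TwoG_SVs hb0 h2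
    rw [hP]
    refine ⟨⟨?_, h3⟩, h4⟩
    rw [mem_F] at h1
    obtain ⟨g1, g2, g3, g4⟩ := h1
    have hm := ml_pos i
    refine ⟨g1, ?_, ?_, ?_⟩
    · have : (n : ℝ) ≤ L.length := by exact_mod_cast g2
      simpa using this
    · have : ml i ≤ a * ml i := le_mul_of_one_le_left hm.le ha
      simp only [Nat.cast_zero, zero_add, one_mul]
      linarith
    · have h5 : ((TIW.hn (TIW.en L) : ℤ) : ℝ) ≤ 2 ^ i := by exact_mod_cast g4
      simpa using h5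
  calc gf {L | L ∈ F n i ∧ L ∈ TwoG η E b} * Xb b ^ 2 = gf {L | L ∈ F n i ∧ L ∈ TwoG η E b} * Xb b * Xb b := by ring
    _ ≤ gf (P b 0 ∩ GT b η) * Xb b * Xb b := mul_le_mul_left (mul_le_mul_left (gf_mono hsub) _) _
    _ ≤ ENNReal.ofReal C * M 0 * Xb b := mul_le_mul_left key _
    _ = ENNReal.ofReal (C * (C1 * MPF a D n i 23 0)) := by
        rw [hM]
        show ENNReal.ofReal C * (ENNReal.ofReal _ * (Xb b)⁻¹) * Xb b = _
        rw [← mul_assoc, ← ENNReal.ofReal_mul hC.le, mul_assoc, ENNReal.inv_mul_cancel hX0b hXt, mul_one]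
    _ ≤ _ := by
        refine ENNReal.ofReal_le_ofReal ?_
        have e : C * (C1 * MPF a D n i 23 0) = C * (C1 * (4 * (8 * a) ^ 4 * 23 ^ 4)) * D * pr n i := by
          unfold MPF
          push_cast
          ring
        rw [e]
        gcongr
        rw [hK]
        have : 0 ≤ X0 ^ 2 := by positivity
        linarith

end ARM

end HexObs
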