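import Pool.Agent.ARM.T2
import Pool.Agent.ARM.SmL
import Pool.Agent.ARM.LMass
import Pool.Agent.ARM.TipG
import Pool.Agent.TIP.GeoZ

/-!
# ARM2 (helper9): row T2N from T1 alone
-/

set_option autoImplicit false

namespace HexObs

namespace ARM

/-- row PMJ -/
theorem pMJ : PMJ := pmj_of yMassJ

/-- row QPt -/
theorem qPt : QPt := qPt_of smL pMJ

/-- **row T2N from T1** -/
theorem t2N_all (hT : T1) : T2N := by
  obtain ⟨κ, hκ, C, -, hR⟩ := TIP.regZ_all
  exact t2N_of hκ hR hT (exCs_of tipF2s) smL pMJ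

/-- rows RootB, RootN from T1 -/
theorem rootBN_all (hT : T1) {κ : ℝ} {C : ℕ} (hκ : 0 < κ) (hR : TIP.RegZ κ C) : RootB κ C ∧ RootN κ C := by
  have hB : RootB κ C := rootB_of hκ hT (exCs_of tipF2s) (qPtBad_of smL pMJ fun η D a c1 hη => qBadM_core hR η D a c1 hη)
  exact ⟨hB, rootN_of hR hB⟩

end ARM

end HexObs
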