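import Pool.Agent.ARM.QNt
import Pool.Agent.ARM.DefsQ

/-!
# ARM, row T2Qc, the geometry (helper44): near touches of closed words

**`nt_geo`** : a near touch (`NTc`) of a closed word gives, after re-rooting, a factor in `NTQ` strictly between the start and
the end.
-/

set_option autoImplicit false

namespace HexObs

namespace ARM

open Finset TS SDN HexObs.SIM NTA TIP

open scoped ENNReal

/-- distances inside a factor -/
lemma fac_hn {X Q Y : List Bool} {k : ℕ} (hk : k ≤ Q.length) :
    TIW.hn (vx oo up (X ++ (Q ++ Y)) X.length - vx oo up (X ++ (Q ++ Y)) (X.length + k)) = TIW.hn (vx oo up Q k) := by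
  have a1 : vx oo up (X ++ (Q ++ Y)) X.length = vx oo up X X.length := vx_append (by omega)
  have a2 : vx oo up (Q ++ Y) k = vx oo up Q k := vx_append (by omega)
  rw [vx_general, a1, a2, sub_add_cancel_left, TIW.hn_neg, TIW.hn_mulE (nrm_rotTo upd (dx_mem up_dirs X X.length))]

/-- a closed word followed by a word -/
lemma cy_vx {C w : List Bool} {N : ℕ} (hC : C ∈ POL.Cy N) (k : ℕ) : vx oo up (C ++ w) (N + k) = vx oo up w k := by
  obtain ⟨h1, h2, h3, -⟩ := hC
  have h4 := vx_general C w k
  rw [h1, h2, h3] at h4
  rw [h4]
  have h5 : rotTo up up = (1, 0) := by decide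
  rw [h5, oo_zero, zero_add]
  unfold mulE
  ext <;> simp

/-- **the geometry of the near touches of closed words** -/
theorem nt_geo {L R2 T M S R1 : List Bool} {x : Bool} {n c i : ℕ} {r R : ℤ} (hx : L ++ [x] ∈ POL.Cy (n + 1))
    (hL : L = (R2 ++ T) ++ (M ++ (S ++ R1))) (h1 : 2 ^ i < dz L R2.length)
    (h2 : 2 ^ i < dz L ((R2 ++ T) ++ (M ++ S)).length) (h : L ∈ NTc c i r R) :
    R1 ++ ([x] ++ R2) ∈ NPR.Fac (NTQ r (R - r)) := by
  obtain ⟨a, b, hab, hb, -, -, hr, h3⟩ := h
  have hr0 : 0 ≤ r := (TIW.hn_nonneg _).trans hr
  have hln : L.length = n := by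
    have := hx.1
    rw [List.length_append, List.length_singleton] at this
    omega
  obtain ⟨t0, ht0⟩ : ∃ t0, t0 = ((R2 ++ T) ++ (M ++ S)).length := ⟨_, rfl⟩
  have hL2 : L = ((R2 ++ T) ++ (M ++ S)) ++ R1 := by
    rw [hL]
    simp only [List.append_assoc]
  have hlen : L.length = t0 + R1.length := by rw [hL2, List.length_append, ht0]
  have hL3 : L = R2 ++ (T ++ (M ++ (S ++ R1))) := by
    rw [hL, List.append_assoc]
  have hR2l : R2.length ≤ t0 := by
    rw [ht0]
    simp only [List.length_append]
    omega
  rw [← ht0] at h2
  have hdrop : ∀ k, t0 ≤ k → L.drop k = R1.drop (k - t0) := by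
    intro k hk
    rw [hL2, List.drop_append, List.drop_of_length_le (by omega), List.nil_append, ← ht0]
  have htake : ∀ k, k ≤ R2.length → L.take k = R2.take k := by
    intro k hk
    rw [hL3, List.take_append_of_le_length hk]
  rcases h3 with ⟨h3, s, hs1, hs2, hs3⟩ | ⟨h3, h4, s, hs, hs1, hs3⟩
  · -- the factor from a to b of L
    have hfac : ∀ X Y : List Bool, X ++ ((L.take b).drop a ++ Y) = R1 ++ ([x] ++ R2) → R1 ++ ([x] ++ R2) ∈
        NPR.Fac (NTQ r (R - r)) := by
      intro X Y he
      have hq : ((L.take b).drop a).length = b - a := by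
        rw [List.length_drop, List.length_take]
        omega
      have hla : (L.take a).length = a := by
        rw [List.length_take]
        omega
      have e0 : L.take a ++ ((L.take b).drop a ++ L.drop b) = L := by
        rw [← List.append_assoc]
        have e2 : L.take a = (L.take b).take a := by
          rw [List.take_take, min_eq_left hab]
        rw [e2, List.take_append_drop, List.take_append_drop]
      have key : ∀ k, k ≤ b - a → TIW.hn (vx oo up L a - vx oo up L (a + k)) = TIW.hn (vx oo up ((L.take b).drop a) k) := by
        intro k hk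
        have := fac_hn (X := L.take a) (Q := (L.take b).drop a) (Y := L.drop b) (k := k) (by omega)
        rwa [e0, hla] at this
      refine ⟨X, (L.take b).drop a, Y, he.symm, ?_, s - a, by omega, ?_⟩
      · unfold TIW.en
        rw [hq, ← key (b - a) le_rfl, show a + (b - a) = b by omega]
        exact hr
      · rw [← key (s - a) (by omega), show a + (s - a) = s by omega]
        linarith
    rcases h3 with h3 | h3
    · have hat : t0 < a := by
        by_contra hcon
        exact absurd (h3.2 t0 (by omega) (by omega)) (not_le.2 h2)
      refine hfac (R1.take (a - t0)) (R1.drop (b - t0) ++ ([x] ++ R2)) ?_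
      have e1 : (L.take b).drop a = (R1.take (b - t0)).drop (a - t0) := by
        have e2 : L.take b = ((R2 ++ T) ++ (M ++ S)) ++ R1.take (b - t0) := by
          rw [hL2, List.take_append, List.take_of_length_le (by omega), ← ht0]
        rw [e2, List.drop_append, List.drop_of_length_le (by omega), List.nil_append, ← ht0]
      rw [e1, ← List.append_assoc, ← List.append_assoc]
      congr 1
      have e2 : R1.take (a - t0) = (R1.take (b - t0)).take (a - t0) := by
        rw [List.take_take, min_eq_left (by omega)]
      rw [e2, List.take_append_drop, List.take_append_drop]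
    · have hbt : b < R2.length := by
        by_contra hcon
        exact absurd (h3.2 R2.length (by omega)) (not_le.2 h1)
      refine hfac (R1 ++ ([x] ++ R2.take a)) (R2.drop b) ?_
      have e1 : L.take b = R2.take b := htake b hbt.le
      rw [e1, List.append_assoc, List.append_assoc]
      congr 2
      rw [← List.append_assoc]
      have e2 : R2.take a = (R2.take b).take a := by
        rw [List.take_take, min_eq_left hab]
      rw [e2, List.take_append_drop, List.take_append_drop]
  · -- the factor from b to a through the root
    have hat : a < R2.length := by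
      by_contra hcon
      exact absurd (h3.2 R2.length (by omega)) (not_le.2 h1)
    have hbt : t0 < b := by
      by_contra hcon
      exact absurd (h4.2 t0 (by omega) (by omega)) (not_le.2 h2)
    obtain ⟨Q, hQ⟩ : ∃ Q, Q = L.drop b ++ ([x] ++ L.take a) := ⟨_, rfl⟩
    have hQl : Q.length = n + 1 + a - b := by
      rw [hQ]
      simp only [List.length_append, List.length_drop, List.length_take, List.length_singleton]
      omega
    have hlb : (L.take b).length = b := by
      rw [List.length_take]
      omega
    have e0 : L.take b ++ (Q ++ L.drop a) = (L ++ [x]) ++ L := by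
      rw [hQ]
      calc L.take b ++ ((L.drop b ++ ([x] ++ L.take a)) ++ L.drop a) = (L.take b ++ L.drop b) ++ ([x] ++ (L.take a ++ L.drop a)) := by
            simp only [List.append_assoc]
        _ = _ := by
            rw [List.take_append_drop, List.take_append_drop, List.append_assoc]
    have key : ∀ k, k ≤ n + 1 + a - b → TIW.hn (vx oo up ((L ++ [x]) ++ L) b - vx oo up ((L ++ [x]) ++ L) (b + k)) =
        TIW.hn (vx oo up Q k) := by
      intro k hk
      have := fac_hn (X := L.take b) (Q := Q) (Y := L.drop a) (k := k) (by omega)
      rwa [e0, hlb] at this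
    have kb : ∀ k, k ≤ n → vx oo up ((L ++ [x]) ++ L) k = vx oo up L k := by
      intro k hk
      rw [List.append_assoc]
      exact vx_append (by omega)
    have kd : ∀ k, vx oo up ((L ++ [x]) ++ L) (n + 1 + k) = vx oo up L k := fun k => cy_vx hx k
    have hend : TIW.hn (vx oo up L b - vx oo up L a) = TIW.hn (TIW.en Q) := by
      unfold TIW.en
      rw [hQl, ← key _ le_rfl, show b + (n + 1 + a - b) = n + 1 + a by omega, kd, kb b (by omega)]
    have hsb : R - r ≤ TIW.hn (vx oo up L b - vx oo up L s) := by
      have h5 : vx oo up L a - vx oo up L s = (vx oo up L a - vx oo up L b) - (vx oo up L s - vx oo up L b) := by abel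
      have h6 := TIW.hn_sub (vx oo up L a - vx oo up L b) (vx oo up L s - vx oo up L b)
      rw [← h5] at h6
      have h7 : TIW.hn (vx oo up L s - vx oo up L b) = TIW.hn (vx oo up L b - vx oo up L s) := TIW.hn_sub_comm _ _
      linarith
    refine ⟨R1.take (b - t0), Q, R2.drop a, ?_, ⟨?_, ?_⟩⟩
    · rw [hQ, hdrop b (by omega), htake a hat.le]
      calc R1 ++ ([x] ++ R2) = (R1.take (b - t0) ++ R1.drop (b - t0)) ++ ([x] ++ (R2.take a ++ R2.drop a)) := by
            rw [List.take_append_drop, List.take_append_drop]
        _ = _ := by simp only [List.append_assoc]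
    · rw [← hend, TIW.hn_sub_comm]
      exact hr
    · rcases hs1 with hs1 | hs1
      · refine ⟨n + 1 + s - b, by omega, ?_⟩
        rw [← key _ (by omega), show b + (n + 1 + s - b) = n + 1 + s by omega, kd, kb b (by omega)]
        exact hsb
      · refine ⟨s - b, by omega, ?_⟩
        rw [← key _ (by omega), show b + (s - b) = s by omega, kb s (by omega), kb b (by omega)]
        exact hsb

end ARM

end HexObs
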