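import Pool.Agent.ARM.RootN1
import Pool.Agent.ARM.QPt

/-!
# ARM2, row T2N (helper9): **row RootB**

* `e2f_of` : closed words with two disjoint good factors, one end with a long factor without good windows (ExCs);
* `e1f_of` : one good factor (re-rooting).
-/

set_option autoImplicit false

namespace HexObs

namespace ARM

open Finset TS SDN SIM NTA TIP

open TIP.Nf (cz mem_cz nc_cz rank_lt rank_sum card_rank cz_split in_mid in_app in_mono Dt NeW)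

open scoped ENNReal

open BM (Lb gf_Lb)

namespace T2

/-- the height of the cuts -/
lemma hh_of {κ : ℝ} (hκ : 0 < κ) {b : ℕ} (hU : 8 ≤ κ * Ub b) : ∃ h : ℕ, 1 ≤ h ∧ κ / 8 * Ub b ≤ (h : ℝ) ∧
    ∀ Z : List Bool, κ * Ub b ≤ (nc Z : ℝ) → 4 * h ≤ nc Z := by
  refine ⟨⌈κ / 8 * Ub b⌉₊, Nat.one_le_ceil_iff.2 (by have := Ub_pos b; positivity), Nat.le_ceil _, fun Z hZ => ?_⟩
  have h1 : (⌈κ / 8 * Ub b⌉₊ : ℝ) < κ / 8 * Ub b + 1 := Nat.ceil_lt_add_one (by have := Ub_pos b; positivity)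
  have h2 : ((4 * ⌈κ / 8 * Ub b⌉₊ : ℕ) : ℝ) ≤ (nc Z : ℝ) := by
    push_cast
    linarith
  exact_mod_cast h2

/-- the root piece with a long factor in Nz -/
lemma w2b_of {κ η : ℝ} {C E b b' J n N c1 : ℕ} {Y2 M Y1 : List Bool} {β : Bool} (hb : b ≠ 0) (hM : M ≠ []) (h2 : Y2 ∈ En η E b)
    (h1 : Y1 ∈ St η E b) (i2 : In (2 ^ (b + (J + 1))) Y2) (i1 : In (2 ^ (b + (J + 1))) Y1)
    (hc : M ++ ((Y1 ++ [β]) ++ Y2) ∈ POL.Cy (n + 1)) (hb' : b' = b ∨ b' = b + 1) (hN : 2 ^ J ≤ N * 2 ^ c1)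
    (h3 : Y2 ∈ Lz κ C b' N ∨ Y1 ∈ Lz κ C b' N) : (Y1 ++ [β]) ++ Y2 ∈ W2B κ C η E b (J + 3) (c1 + 3) := by
  refine ⟨w2_of hb hM h2 h1 i2 i1 hc, b', N, hb', ?_, ?_⟩
  · rw [pow_add 2 J 3, pow_add 2 c1 3, ← mul_assoc]
    exact Nat.mul_le_mul_right _ hN
  · rcases h3 with h3 | h3
    · have := lz_app (X := Y1 ++ [β]) (Z := []) h3
      rwa [List.append_nil] at this
    · have := lz_app (X := []) (Z := [β] ++ Y2) h3
      rwa [List.nil_append, ← List.append_assoc] at this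

lemma half_pow {a J : ℕ} : (1 / 2 : ℝ) ^ ((a + 4) * (J + 3)) * 16 ^ J ≤ (1 / 2) ^ (a * J) := by
  have h1 : (1 / 2 : ℝ) ^ ((a + 4) * (J + 3)) ≤ (1 / 2) ^ (a * J) * (1 / 2) ^ (4 * J) := by
    rw [← pow_add]
    refine pow_le_pow_of_le_one (by norm_num) (by norm_num) ?_
    nlinarith
  have h2 : (1 / 2 : ℝ) ^ (4 * J) * 16 ^ J = 1 := by
    rw [pow_mul, ← mul_pow]
    norm_num
  calc (1 / 2 : ℝ) ^ ((a + 4) * (J + 3)) * 16 ^ J ≤ (1 / 2) ^ (a * J) * (1 / 2) ^ (4 * J) * 16 ^ J := by gcongr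
    _ = (1 / 2) ^ (a * J) := by rw [mul_assoc, h2, mul_one]

/-- **two good factors** -/
theorem e2f_of {κ : ℝ} {C : ℕ} (hκ : 0 < κ) (hT : T1) (hE : ExCs) (hQ : QPtBad κ C) (a c1 : ℕ) :
    ∃ (A : ℝ) (J0 b0 : ℕ), 0 < A ∧ ∀ n b J : ℕ, 1 ≤ n → b0 ≤ b → J0 ≤ J →
      gf (E2F κ C b c1 J n) ≤ ENNReal.ofReal (A * (1 / 2) ^ (a * J) * (n : ℝ) ^ (-(3 / 2) : ℝ)) := by
  obtain ⟨D, hD, hT⟩ := hT
  obtain ⟨C1, hC1, hE⟩ := hE (κ / 8) (2 * C) 1 (by positivity)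
  obtain ⟨J1, b1, hQ⟩ := hQ (κ / 8) (2 * C) (a + 4) (c1 + 3) 5 (by positivity)
  obtain ⟨K, hK, hF⟩ := final_num TPC.xLow (κ := κ / 8) (by positivity)
  obtain ⟨b2, hb2⟩ := exU hκ 8
  have hxc := xc_pos
  refine ⟨K * (C1 * D) * xc⁻¹, J1 + 2 * C, b1 + b2 + 1, by positivity, fun n b J hn hb hJ => ?_⟩
  have hU := Ub_pos b
  have hb0 : b ≠ 0 := by omega
  obtain ⟨h, hh1, hh2, hh3⟩ := hh_of hκ (hb2 b (by omega))
  obtain ⟨g, hg⟩ : ∃ g : ℝ, g = (1 / 2) ^ ((a + 4) * (J + 3)) := ⟨_, rfl⟩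
  have hg0 : 0 ≤ g := by rw [hg]; positivity
  have hCJ : 2 * C ≤ 2 ^ J := (show 2 * C ≤ J by omega).trans Nat.lt_two_pow_self.le
  -- the inner bound
  have hin : ∀ M, ∑' p : {p : List Bool × List Bool | RhB κ C b (2 * C) J c1 (κ / 8) p.1 M p.2 ∧ In (2 ^ (b + J + 1)) p.1 ∧
      In (2 ^ (b + J + 1)) p.2 ∧ p.1 ++ (M ++ p.2) ∈ C0 n}, wE (p : List Bool × List Bool).1 * wE (p : List Bool × List Bool).2 ≤
        ENNReal.ofReal (xc⁻¹ * (g * (Ub b / 4 ^ b))) * ENNReal.ofReal (wt n M.length (b + J)) := by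
    intro M
    refine le_trans (root_in (n := n) (M := M) (Q := W2B κ C (κ / 8) (2 * C) b (J + 3) (c1 + 3))
      (X := ENNReal.ofReal (g * (Ub b / (4 ^ b * ml b)) / (1 + ((n + 1 - M.length : ℕ) : ℝ) / ml b) ^ 5)) ?_ ?_)
      (root_num hg0 (Nat.le_add_right b J))
    · rintro ⟨Y2, Y1⟩ ⟨⟨hM, h2, h1, N, hN, h3⟩, i2, i1, h4⟩
      refine ⟨h4, fun β hβ => ?_⟩
      exact w2b_of hb0 (twoG_ne hb0 hM) h2 h1 i2 i1 hβ (Or.inl rfl) hN h3
    · intro z
      rw [hg]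
      exact hQ b (J + 3) _ z (by omega) (by omega)
  have h1 := hE D n (b + J) b hD.le (fun n' i _ _ => hT n' i) (Nat.le_add_right b J) (RhB κ C b (2 * C) J c1 (κ / 8))
    (ENNReal.ofReal (xc⁻¹ * (g * (Ub b / 4 ^ b)))) ((h : ℝ) * h) (fun Y2 M Y1 hr => hr.1) hin
    (by have : (0 : ℝ) < h := by exact_mod_cast hh1
        positivity)
  have h2 := hF _ b J n h (C1 * D) (xc⁻¹ * g) hn (by positivity) (by positivity) hh2 (h1.trans (le_of_eq (by
    rw [mul_assoc xc⁻¹ g])))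
  refine (gf_mono ?_).trans (h2.trans (ENNReal.ofReal_le_ofReal ?_))
  · rintro L ⟨hL, P, Z, V, W, Y, e1, hZ, hW', hP, hY, N, hN, hbig⟩
    obtain ⟨Z1, Z2, Z3, rfl, hz⟩ := Zd_of hZ
    obtain ⟨W1, W2, W3, rfl, hw⟩ := Zd_of hW'
    have hd : D2 κ C b L P Z1 Z2 Z3 V W1 W2 W3 Y := ⟨by rw [e1]; simp only [List.append_assoc], hz, hw⟩
    refine ⟨hL, ?_⟩
    have h3 := tri_B TIP.neW hd hb0 hh1 hh2 (hh3 _ hz.n2) (hh3 _ hw.n2) le_rfl hCJ hP hY hN hbig
    rw [show b + J + 1 = b + (J + 1) by omega]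
    exact_mod_cast h3
  · have h3 := half_pow (a := a) (J := J)
    rw [← hg] at h3
    have hν : (0 : ℝ) ≤ (n : ℝ) ^ (-(3 / 2) : ℝ) := by positivity
    calc K * (C1 * D) * (xc⁻¹ * g) * 16 ^ J * (n : ℝ) ^ (-(3 / 2) : ℝ)
        = K * (C1 * D) * xc⁻¹ * (g * 16 ^ J) * (n : ℝ) ^ (-(3 / 2) : ℝ) := by ring
      _ ≤ K * (C1 * D) * xc⁻¹ * (1 / 2) ^ (a * J) * (n : ℝ) ^ (-(3 / 2) : ℝ) := by gcongr

/-! ### one good factor -/

open Classical in
/-- the number of the cuts of the rotations -/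
lemma cnt_ge {κ : ℝ} {C b c1 J n h : ℕ} (hb : b ≠ 0) (hh : 1 ≤ h) (hη : κ / 8 * Ub b ≤ (h : ℝ))
    (hh3 : ∀ Z : List Bool, κ * Ub b ≤ (nc Z : ℝ) → 4 * h ≤ nc Z) (hC : 2 * C ≤ 2 ^ J) {L : List Bool}
    (hL : L ∈ E1F κ C b c1 J n) : ∃ β : Bool, L ++ [β] ∈ POL.Cy (n + 1) ∧ ((h * h : ℕ) : ℝ≥0∞) ≤
      ∑ a ∈ range (n + 1), cnt (W2B κ C (κ / 8) (2 * C) b (J + 3) (c1 + 3)) b ((L ++ [β]).rotate a) := by
  obtain ⟨⟨β, hβ⟩, X, Z, Y, e1, hZ, hX, hY, b', N, hb', hN, hbig⟩ := hL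
  obtain ⟨Z1, Z2, Z3, rfl, hz⟩ := Zd_of hZ
  have hW := TIP.neW
  have h4 := hh3 _ hz.n2
  refine ⟨β, hβ, ?_⟩
  have hlen := hβ.1
  rw [List.length_append, List.length_singleton] at hlen
  have c1' := card_rank hW (Z := Z2) (lo := h) (hi := 2 * h) hh (by omega)
  have c2' := card_rank hW (Z := Z2) (lo := 2 * h) (hi := 3 * h) (by omega) (by omega)
  obtain ⟨S1, hS1⟩ : ∃ S1 : Finset ℕ, S1 = (cz Z2).filter (fun c => h ≤ nc (Z2.take c) ∧ nc (Z2.take c) < 2 * h) := ⟨_, rfl⟩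
  obtain ⟨S2, hS2⟩ : ∃ S2 : Finset ℕ, S2 = (cz Z2).filter (fun c => 2 * h ≤ nc (Z2.take c) ∧ nc (Z2.take c) < 3 * h) := ⟨_, rfl⟩
  rw [← hS1] at c1'
  rw [← hS2] at c2'
  have hZl : ∀ c ∈ cz Z2, c ≤ Z2.length := fun c hc => (mem_cz.1 hc).1
  have hLl : L.length = X.length + (Z1.length + (Z2.length + (Z3.length + Y.length))) := by
    rw [e1]
    simp only [List.length_append]
    omega
  -- one rotation
  have key : ∀ c ∈ S1, (h : ℝ≥0∞) ≤ cnt (W2B κ C (κ / 8) (2 * C) b (J + 3) (c1 + 3)) b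
      ((L ++ [β]).rotate ((X ++ Z1).length + c)) := by
    intro c hc
    rw [hS1, mem_filter] at hc
    obtain ⟨hc1, hc2, hc3⟩ := hc
    obtain ⟨a1, a2, a3⟩ := mem_cz.1 hc1
    have er : (L ++ [β]).rotate ((X ++ Z1).length + c) =
        (Z2.drop c ++ (Z3 ++ Y)) ++ ([β] ++ (X ++ (Z1 ++ Z2.take c))) := by
      rw [List.rotate_eq_drop_append_take (by simp only [List.length_append, List.length_singleton]; omega)]
      have e2 : L ++ [β] = (X ++ (Z1 ++ Z2.take c)) ++ ((Z2.drop c ++ (Z3 ++ Y)) ++ [β]) := by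
        rw [e1]
        conv_lhs => rw [← List.take_append_drop c Z2]
        simp only [List.append_assoc]
      have e3 : (X ++ Z1).length + c = (X ++ (Z1 ++ Z2.take c)).length := by
        simp only [List.length_append, List.length_take]
        omega
      rw [e2, e3, List.drop_left, List.take_left]
      simp only [List.append_assoc]
    have hlt : ∀ c' ∈ S2, c < c' := by
      intro c' hc'
      rw [hS2, mem_filter] at hc'
      by_contra hcon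
      rcases Nat.eq_or_lt_of_le (not_lt.1 hcon) with he | he
      · rw [he] at hc'
        omega
      · have := rank_lt hW hc'.1 hc1 he
        omega
    have hcard : (S2.image fun c' => c' - c).card = h := by
      rw [card_image_of_injOn, c2']
      · omega
      · intro x hx y hy hxy
        have := hlt x (mem_coe.1 hx)
        have := hlt y (mem_coe.1 hy)
        simp only at hxy
        omega
    have hcyr : (L ++ [β]).rotate ((X ++ Z1).length + c) ∈ POL.Cy (n + 1) := by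
      have e2 : L ++ [β] = (X ++ (Z1 ++ Z2.take c)) ++ ((Z2.drop c ++ (Z3 ++ Y)) ++ [β]) := by
        rw [e1]
        conv_lhs => rw [← List.take_append_drop c Z2]
        simp only [List.append_assoc]
      rw [e2] at hβ
      have := POL.cy_rot hβ
      rw [er]
      simpa only [List.append_assoc] using this
    unfold cnt
    calc (h : ℝ≥0∞) = ∑ k ∈ S2.image (fun c' => c' - c), 1 := by rw [sum_const, hcard, nsmul_eq_mul, mul_one]
      _ ≤ ∑ k ∈ S2.image (fun c' => c' - c), (if ((L ++ [β]).rotate ((X ++ Z1).length + c)).take k ∈ Lb b ∧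
          ((L ++ [β]).rotate ((X ++ Z1).length + c)).drop k ∈ W2B κ C (κ / 8) (2 * C) b (J + 3) (c1 + 3) then 1 else 0) := by
          refine sum_le_sum fun k hk => ?_
          obtain ⟨c', hc', rfl⟩ := mem_image.1 hk
          have hcc := hlt c' hc'
          rw [hS2, mem_filter] at hc'
          obtain ⟨d1, d2, d3⟩ := hc'
          obtain ⟨P, M, R, p1, p2, p3, p4, p5, p6, p7, p8, p9, p10⟩ := cz_split hc1 d1 hcc.le
          obtain ⟨b1, b2, b3⟩ := mem_cz.1 d1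
          have hMl : M.length = c' - c := by omega
          have hM0 : M ≠ [] := by
            intro h0
            rw [h0, List.length_nil] at hMl
            omega
          have es : (L ++ [β]).rotate ((X ++ Z1).length + c) =
              M ++ (((R ++ (Z3 ++ Y)) ++ [β]) ++ (X ++ (Z1 ++ Z2.take c))) := by
            rw [er, p8]
            simp only [List.append_assoc]
          have hhM : hgt P + (hgt M + hgt R) = hgt Z2 := by
            rw [← hgt_app p2 p3, ← hgt_app p1 (BU_app p2 p3), ← p4]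
          have hh2 := hz.h2
          have eR : Z2.drop c' = R := p10
          rw [if_pos]
          rw [es, List.take_left' hMl, List.drop_left' hMl]
          refine ⟨⟨p2, by omega⟩, ?_⟩
          have hs := rank_sum hW d1
          refine w2b_of hb hM0 (J := J) ⟨X, Z1 ++ Z2.take c, hz.ge hb hc1 hη hc2 (by omega), rfl⟩
            ⟨Z2.drop c' ++ Z3, hz.gs hb d1 hη (by omega) le_rfl, Y, by rw [eR, List.append_assoc]⟩ ?_ ?_ (n := n) ?_ hb' hN ?_
          · exact in_mono (in_app2 hX (hz.in_pre (c := c))) (by have := hpow (b := b) hC; omega)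
          · have hp := hpow (b := b) hC
            rw [← List.append_assoc, ← eR]
            refine in_mono (in_app (BU_dx (BU_app b3 hz.b3)) ?_ hY) hp
            refine in_mid (X := Z1 ++ Z2.take c') (R := []) (BU_dx (BU_app hz.b1 b2)) ?_
            have : (Z1 ++ Z2.take c') ++ ((Z2.drop c' ++ Z3) ++ []) = Z1 ++ (Z2 ++ Z3) := by
              rw [List.append_nil, List.append_assoc]
              conv_rhs => rw [← List.take_append_drop c' Z2]
              simp only [List.append_assoc]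
            rw [this]
            exact hz.inn
          · rw [← es]
            exact hcyr
          · rcases hbig with h5 | h5
            · left
              have := lz_app (X := []) (Z := Z1 ++ Z2.take c) h5
              rwa [List.nil_append] at this
            · right
              have := lz_app (X := R ++ Z3) (Z := []) h5
              rwa [List.append_nil, List.append_assoc] at this
      _ ≤ _ := by
          refine sum_le_sum_of_subset fun k hk => ?_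
          obtain ⟨c', hc', rfl⟩ := mem_image.1 hk
          rw [hS2, mem_filter] at hc'
          have := hZl c' hc'.1
          rw [mem_range, List.length_rotate, List.length_append, List.length_singleton]
          omega
  have hinj : Set.InjOn (fun c : ℕ => (X ++ Z1).length + c) (S1 : Set ℕ) := fun x _ y _ h => Nat.add_left_cancel h
  calc ((h * h : ℕ) : ℝ≥0∞) = ∑ c ∈ S1, (h : ℝ≥0∞) := by
        rw [sum_const, c1', nsmul_eq_mul, show 2 * h - h = h by omega]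
        push_cast
        rfl
    _ ≤ ∑ c ∈ S1, cnt (W2B κ C (κ / 8) (2 * C) b (J + 3) (c1 + 3)) b ((L ++ [β]).rotate ((X ++ Z1).length + c)) :=
        sum_le_sum key
    _ = ∑ a ∈ S1.image (fun c : ℕ => (X ++ Z1).length + c),
          cnt (W2B κ C (κ / 8) (2 * C) b (J + 3) (c1 + 3)) b ((L ++ [β]).rotate a) :=
        (sum_image (f := fun a => cnt (W2B κ C (κ / 8) (2 * C) b (J + 3) (c1 + 3)) b ((L ++ [β]).rotate a)) hinj).symm
    _ ≤ _ := by
        refine sum_le_sum_of_subset fun a ha => ?_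
        obtain ⟨c, hc, rfl⟩ := mem_image.1 ha
        rw [hS1, mem_filter] at hc
        have := hZl c hc.1
        rw [mem_range, List.length_append]
        omega

lemma len_num {b n p : ℕ} : 1 / (1 + ((n + 1 - p : ℕ) : ℝ) / ml b) ^ 3 ≤ (1 + (p : ℝ) / ml b) ^ 3 / (1 + (n : ℝ) / ml b) ^ 3 := by
  have hm := ml_pos b
  rw [div_le_div_iff₀ (by positivity) (by positivity), one_mul, ← mul_pow]
  refine pow_le_pow_left₀ (by positivity) ?_ 3
  have h1 : (n : ℝ) ≤ (p : ℝ) + ((n + 1 - p : ℕ) : ℝ) := by exact_mod_cast (show n ≤ p + (n + 1 - p) by omega)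
  have h2 : (n : ℝ) / ml b ≤ (p : ℝ) / ml b + ((n + 1 - p : ℕ) : ℝ) / ml b := by
    rw [← add_div]
    exact div_le_div_of_nonneg_right h1 hm.le
  have h3 : (0 : ℝ) ≤ (p : ℝ) / ml b := by positivity
  have h4 : (0 : ℝ) ≤ ((n + 1 - p : ℕ) : ℝ) / ml b := by positivity
  nlinarith [mul_nonneg h3 h4]

lemma n_num {b n : ℕ} (hn : 1 ≤ n) : ((n : ℝ) + 1) / (4 ^ b * ml b) / (1 + (n : ℝ) / ml b) ^ 3 ≤ 2 * (n : ℝ) ^ (-(3 / 2) : ℝ) := by
  have hm := ml_pos b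
  have hn0 : (0 : ℝ) < n := by exact_mod_cast hn
  have hn1 : (1 : ℝ) ≤ n := by exact_mod_cast hn
  obtain ⟨x, hx⟩ : ∃ x : ℝ, x = (n : ℝ) / ml b := ⟨_, rfl⟩
  have hx0 : 0 < x := by rw [hx]; positivity
  have hnx : (n : ℝ) = x * ml b := by rw [hx, div_mul_cancel₀ _ hm.ne']
  rw [← hx, ← ml_rpow b]
  have h1 : x ^ (5 / 2 : ℝ) ≤ (1 + x) ^ 3 := by
    calc x ^ (5 / 2 : ℝ) ≤ (1 + x) ^ (5 / 2 : ℝ) := Real.rpow_le_rpow hx0.le (by linarith) (by norm_num)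
      _ ≤ (1 + x) ^ (3 : ℝ) := Real.rpow_le_rpow_of_exponent_le (by linarith) (by norm_num)
      _ = (1 + x) ^ 3 := by
          rw [show (3 : ℝ) = ((3 : ℕ) : ℝ) by norm_num, Real.rpow_natCast]
  rw [div_div, div_le_iff₀ (by positivity)]
  have h2 : (n : ℝ) ^ (-(3 / 2) : ℝ) * (ml b ^ (3 / 2 : ℝ) * ml b) * x ^ (5 / 2 : ℝ) = n := by
    have e1 : (n : ℝ) ^ (-(3 / 2) : ℝ) = x ^ (-(3 / 2) : ℝ) * ml b ^ (-(3 / 2) : ℝ) := by
      rw [hnx, Real.mul_rpow hx0.le hm.le]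
    have e2 : x ^ (-(3 / 2) : ℝ) * x ^ (5 / 2 : ℝ) = x := by
      rw [← Real.rpow_add hx0]
      norm_num
    have e3 : ml b ^ (-(3 / 2) : ℝ) * ml b ^ (3 / 2 : ℝ) = 1 := by
      rw [← Real.rpow_add hm]
      norm_num
    rw [e1]
    calc x ^ (-(3 / 2) : ℝ) * ml b ^ (-(3 / 2) : ℝ) * (ml b ^ (3 / 2 : ℝ) * ml b) * x ^ (5 / 2 : ℝ)
        = (x ^ (-(3 / 2) : ℝ) * x ^ (5 / 2 : ℝ)) * (ml b ^ (-(3 / 2) : ℝ) * ml b ^ (3 / 2 : ℝ)) * ml b := by ring
      _ = n := by rw [e2, e3, mul_one, hnx]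
  calc (n : ℝ) + 1 ≤ 2 * n := by linarith
    _ = 2 * ((n : ℝ) ^ (-(3 / 2) : ℝ) * (ml b ^ (3 / 2 : ℝ) * ml b) * x ^ (5 / 2 : ℝ)) := by rw [h2]
    _ ≤ 2 * ((n : ℝ) ^ (-(3 / 2) : ℝ) * (ml b ^ (3 / 2 : ℝ) * ml b) * (1 + x) ^ 3) := by gcongr
    _ = _ := by ring

/-- **one good factor** -/
theorem e1f_of {κ : ℝ} {C : ℕ} (hκ : 0 < κ) (hQ : QPtBad κ C) (a c1 : ℕ) :
    ∃ (A : ℝ) (J0 b0 : ℕ), 0 < A ∧ ∀ n b J : ℕ, 1 ≤ n → b0 ≤ b → J0 ≤ J →
      gf (E1F κ C b c1 J n) ≤ ENNReal.ofReal (A * (1 / 2) ^ (a * J) * (n : ℝ) ^ (-(3 / 2) : ℝ)) := by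
  obtain ⟨J1, b1, hQ⟩ := hQ (κ / 8) (2 * C) a (c1 + 3) 3 (by positivity)
  obtain ⟨Cm, hCm, hmom⟩ := buMom 3
  obtain ⟨b2, hb2⟩ := exU hκ 8
  have hxc := xc_pos
  refine ⟨2 * xc⁻¹ * Cm * (8 / κ) ^ 2, J1 + 2 * C, b1 + b2 + 1, by positivity, fun n b J hn hb hJ => ?_⟩
  have hU := Ub_pos b
  have hm := ml_pos b
  have hb0 : b ≠ 0 := by omega
  obtain ⟨h, hh1, hh2, hh3⟩ := hh_of hκ (hb2 b (by omega))
  have hCJ : 2 * C ≤ 2 ^ J := (show 2 * C ≤ J by omega).trans Nat.lt_two_pow_self.le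
  have h1 := reroot (G := E1F κ C b c1 J n) (WB := W2B κ C (κ / 8) (2 * C) b (J + 3) (c1 + 3)) (b := b) (n := n)
    (q := ((h * h : ℕ) : ℝ≥0∞)) (fun L hL => cnt_ge hb0 hh1 hh2 hh3 hCJ hL)
  obtain ⟨g, hg⟩ : ∃ g : ℝ, g = (1 / 2) ^ (a * (J + 3)) * (Ub b / (4 ^ b * ml b)) := ⟨_, rfl⟩
  have hg0 : 0 ≤ g := by rw [hg]; positivity
  have h2 : ∑' P : Lb b, wE (P : List Bool) * gf {Q | Q ∈ W2B κ C (κ / 8) (2 * C) b (J + 3) (c1 + 3) ∧
      (P : List Bool) ++ Q ∈ POL.Cy (n + 1)} ≤ ENNReal.ofReal (g / (1 + (n : ℝ) / ml b) ^ 3 * (Cm * Ub b)) := by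
    calc ∑' P : Lb b, wE (P : List Bool) * gf {Q | Q ∈ W2B κ C (κ / 8) (2 * C) b (J + 3) (c1 + 3) ∧
          (P : List Bool) ++ Q ∈ POL.Cy (n + 1)}
        ≤ ∑' P : Lb b, ENNReal.ofReal (g / (1 + (n : ℝ) / ml b) ^ 3) * (wE (P : List Bool) *
          ENNReal.ofReal ((1 + ((P : List Bool).length : ℝ) / ml b) ^ 3 *
            (1 + ((TIW.hn (TIW.en (P : List Bool)) : ℤ) : ℝ) / 2 ^ b) ^ 3)) := by
          refine ENNReal.tsum_le_tsum fun P => ?_
          have h3 := gf_cy (M := (P : List Bool)) (Q := W2B κ C (κ / 8) (2 * C) b (J + 3) (c1 + 3)) (n := n + 1)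
            (fun z => hQ b (J + 3) (n + 1 - (P : List Bool).length) z (by omega) (by omega))
          refine (mul_le_mul' le_rfl h3).trans ?_
          rw [mul_left_comm]
          refine mul_le_mul' le_rfl ?_
          rw [← ENNReal.ofReal_mul (by positivity)]
          refine ENNReal.ofReal_le_ofReal ?_
          have h4 := len_num (b := b) (n := n) (p := (P : List Bool).length)
          have h5 : (1 : ℝ) ≤ (1 + ((TIW.hn (TIW.en (P : List Bool)) : ℤ) : ℝ) / 2 ^ b) ^ 3 := by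
            refine one_le_pow₀ ?_
            have : (0 : ℝ) ≤ ((TIW.hn (TIW.en (P : List Bool)) : ℤ) : ℝ) / 2 ^ b := by
              have : (0 : ℤ) ≤ TIW.hn (TIW.en (P : List Bool)) := TIW.hn_nonneg _
              positivity
            linarith
          calc (1 / 2 : ℝ) ^ (a * (J + 3)) * (Ub b / (4 ^ b * ml b)) / (1 + ((n + 1 - (P : List Bool).length : ℕ) : ℝ) / ml b) ^ 3
              = g * (1 / (1 + ((n + 1 - (P : List Bool).length : ℕ) : ℝ) / ml b) ^ 3) := by rw [hg]; ring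
            _ ≤ g * ((1 + ((P : List Bool).length : ℝ) / ml b) ^ 3 / (1 + (n : ℝ) / ml b) ^ 3) :=
                mul_le_mul_of_nonneg_left h4 hg0
            _ = g / (1 + (n : ℝ) / ml b) ^ 3 * ((1 + ((P : List Bool).length : ℝ) / ml b) ^ 3 * 1) := by ring
            _ ≤ _ := by gcongr
      _ = ENNReal.ofReal (g / (1 + (n : ℝ) / ml b) ^ 3) * _ := ENNReal.tsum_mul_left
      _ ≤ ENNReal.ofReal (g / (1 + (n : ℝ) / ml b) ^ 3) * ENNReal.ofReal (Cm * Ub b) := mul_le_mul' le_rfl (hmom b)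
      _ = _ := (ENNReal.ofReal_mul (by positivity)).symm
  have h3 : gf (E1F κ C b c1 J n) * ENNReal.ofReal ((h : ℝ) * h) ≤
      ENNReal.ofReal (xc⁻¹ * (((n : ℝ) + 1) * (g / (1 + (n : ℝ) / ml b) ^ 3 * (Cm * Ub b)))) * 1 := by
    rw [mul_one]
    have e1 : ENNReal.ofReal ((h : ℝ) * h) = ((h * h : ℕ) : ℝ≥0∞) := by
      rw [← ENNReal.ofReal_natCast]
      push_cast
      rfl
    have e2 : ENNReal.ofReal (xc⁻¹ * (((n : ℝ) + 1) * (g / (1 + (n : ℝ) / ml b) ^ 3 * (Cm * Ub b)))) =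
        ENNReal.ofReal xc⁻¹ * (((n + 1 : ℕ) : ℝ≥0∞) * ENNReal.ofReal (g / (1 + (n : ℝ) / ml b) ^ 3 * (Cm * Ub b))) := by
      rw [ENNReal.ofReal_mul (by positivity), ENNReal.ofReal_mul (by positivity), ← ENNReal.ofReal_natCast]
      push_cast
      rfl
    rw [e1, e2]
    exact h1.trans (mul_le_mul' le_rfl (mul_le_mul' le_rfl h2))
  have hh0 : (0 : ℝ) < h := by exact_mod_cast hh1
  have h4 := div_of_mul (by positivity) (by positivity) h3
  rw [mul_one] at h4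
  refine h4.trans (ENNReal.ofReal_le_ofReal ?_)
  rw [div_le_iff₀ (by positivity)]
  have h5 := n_num (b := b) hn
  have h6 : (1 / 2 : ℝ) ^ (a * (J + 3)) ≤ (1 / 2) ^ (a * J) :=
    pow_le_pow_of_le_one (by norm_num) (by norm_num) (Nat.mul_le_mul_left _ (by omega))
  have h7 : Ub b * Ub b ≤ (8 / κ) ^ 2 * ((h : ℝ) * h) := by
    have e1 : Ub b ≤ 8 / κ * h := by
      rw [div_mul_eq_mul_div, le_div_iff₀ hκ]
      linarith
    calc Ub b * Ub b ≤ (8 / κ * h) * (8 / κ * h) := mul_le_mul e1 e1 hU.le (by positivity)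
      _ = _ := by ring
  calc xc⁻¹ * (((n : ℝ) + 1) * (g / (1 + (n : ℝ) / ml b) ^ 3 * (Cm * Ub b)))
      = xc⁻¹ * Cm * (1 / 2) ^ (a * (J + 3)) * (((n : ℝ) + 1) / (4 ^ b * ml b) / (1 + (n : ℝ) / ml b) ^ 3) * (Ub b * Ub b) := by
        rw [hg]
        field_simp
    _ ≤ xc⁻¹ * Cm * (1 / 2) ^ (a * J) * (2 * (n : ℝ) ^ (-(3 / 2) : ℝ)) * ((8 / κ) ^ 2 * ((h : ℝ) * h)) := by gcongr
    _ = _ := by ring

end T2

/-- **row RootB** -/
theorem rootB_of {κ : ℝ} {C : ℕ} (hκ : 0 < κ) (hT : T1) (hE : ExCs) (hQ : QPtBad κ C) : RootB κ C := by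
  intro a c1
  obtain ⟨A1, J1, b1, hA1, h1⟩ := T2.e2f_of hκ hT hE hQ a c1
  obtain ⟨A2, J2, b2, hA2, h2⟩ := T2.e1f_of hκ hQ a c1
  refine ⟨A1 + A2, J1 + J2, b1 + b2, by positivity, fun n b J hn hb hJ => ⟨?_, ?_⟩⟩
  · refine (h1 n b J hn (by omega) (by omega)).trans (ENNReal.ofReal_le_ofReal ?_)
    have : 0 ≤ A2 * (1 / 2) ^ (a * J) * (n : ℝ) ^ (-(3 / 2) : ℝ) := by positivity
    linarith
  · refine (h2 n b J hn (by omega) (by omega)).trans (ENNReal.ofReal_le_ofReal ?_)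
    have : 0 ≤ A1 * (1 / 2) ^ (a * J) * (n : ℝ) ^ (-(3 / 2) : ℝ) := by positivity
    linarith

end ARM

end HexObs
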