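import Pool.Agent.ARM.TwoX
import Pool.Agent.ARM.NtGeo
import Pool.Agent.ARM.RootB
import Pool.Agent.ARM.ConfC

/-!
# ARM, row T2Qc (helper44): near touches of closed words

**`t2Qc_of`** : `T1 → ExCs → SmL → PMJ → PlNt → BadRoot κ C → T2Qc`. Two rich factors outside the ball 2 ^ (j + u)
(`two_cross`), the near touch is in the part around the root strictly between them (`nt_geo`), mass of this part `nt_pt`,
double counting `ExCs`.
-/

set_option autoImplicit false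

namespace HexObs

namespace ARM

open Finset TS SDN HexObs.SIM NTA TIP

open TIP.Nf (cz mem_cz nc_cz rank_lt rank_sum card_rank cz_split in_mid in_app in_mono Dt NeW)

open _root_.HexObs.ARM.T2 TwoX

open scoped ENNReal

namespace QC

/-- the relation: two good ends of the middle part, the near touch is strictly between the good start of Y1 and the good end
of Y2 -/
def RhQ (n : ℕ) (r R : ℤ) (b E : ℕ) (η : ℝ) (Y2 M Y1 : List Bool) : Prop :=
  M ∈ TwoG η E b ∧ ∃ P T S Y : List Bool, Y2 = P ++ T ∧ T ∈ NPR.GE η E b ∧ Y1 = S ++ Y ∧ S ∈ NPR.GS η E b ∧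
    ∀ β : Bool, (Y2 ++ (M ++ Y1)) ++ [β] ∈ POL.Cy (n + 1) → Y ++ ([β] ++ P) ∈ NPR.Fac (NTQ r R)

lemma ntq_mono {r r' R R' : ℤ} (hr : r ≤ r') (hR : R' ≤ R) {t : List Bool} (h : t ∈ NPR.Fac (NTQ r R)) :
    t ∈ NPR.Fac (NTQ r' R') := by
  obtain ⟨X, Q, Y, e, h1, s, hs, h2⟩ := h
  exact ⟨X, Q, Y, e, h1.trans hr, s, hs, hR.trans h2⟩

/-- the number of the decompositions -/
lemma tri_Q {κ : ℝ} {C b c i n J E h : ℕ} {η : ℝ} {r R : ℤ} {L P Z1 Z2 Z3 V W1 W2 W3 Y : List Bool} (hW : NeW)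
    (hd : ARM.T2.D2 κ C b L P Z1 Z2 Z3 V W1 W2 W3 Y) (hb : b ≠ 0) (hh : 1 ≤ h) (hη : η * Ub b ≤ (h : ℝ)) (hz : 4 * h ≤ nc Z2)
    (hw : 4 * h ≤ nc W2) (hE : 2 * C ≤ E) (hC : 2 * C ≤ 2 ^ J) (hP : In (2 ^ (b + J)) P) (hY : In (2 ^ (b + J)) Y)
    (h1 : 2 ^ i < dz L P.length) (h2 : 2 ^ i < dz L (L.length - Y.length)) (hnt : L ∈ NTc c i r R) :
    h * h ≤ (tri (2 ^ (b + (J + 1))) (RhQ n r (R - r) b E η) L).ncard := by
  obtain ⟨S1, hS1, hc1⟩ := card_ix hW hh hz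
  obtain ⟨S2, hS2, hc2⟩ := card_ix hW hh hw
  have key : S1.card * S2.card ≤ (tri (2 ^ (b + (J + 1))) (RhQ n r (R - r) b E η) L).ncard := by
    refine tri_ge (p1 := fun c => P ++ (Z1 ++ Z2.take c)) (p2 := fun d => W2.drop d ++ (W3 ++ Y)) ?_ ?_ ?_
    · intro c hc c' hc' he
      have h1 := congrArg List.length he
      have h2 := (mem_cz.1 (hc1 c hc).1).1
      have h3 := (mem_cz.1 (hc1 c' hc').1).1
      simp only [List.length_append, List.length_take] at h1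
      omega
    · intro c hc c' hc' he
      have h1 := congrArg List.length he
      have h2 := (mem_cz.1 (hc2 c hc).1).1
      have h3 := (mem_cz.1 (hc2 c' hc').1).1
      simp only [List.length_append, List.length_drop] at h1
      omega
    · intro x hx d hdd
      obtain ⟨e1, e2, e3⟩ := hc1 x hx
      obtain ⟨f1, f2, f3⟩ := hc2 d hdd
      obtain ⟨g1, g2⟩ := hd.box (c := x) hC hP hY f1
      obtain ⟨i1, i2, -, -⟩ := hd.parts hW hb hη hz hw hE e1 e2 e3 f1 f2 f3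
      have hs' := rank_sum hW f1
      refine ⟨g1, g2, _, i1, i2, P, Z1 ++ Z2.take x, W2.drop d ++ W3, Y, rfl, hd.z.ge hb e1 hη e2 (by omega), ?_,
        hd.w.gs hb f1 hη (by omega) hE, fun β hβ => ?_⟩
      · rw [List.append_assoc]
      · rw [← i1] at hβ
        refine nt_geo (T := Z1 ++ Z2.take x) (M := Z2.drop x ++ (Z3 ++ (V ++ (W1 ++ W2.take d)))) (S := W2.drop d ++ W3)
          hβ ?_ h1 ?_ hnt
        · rw [List.append_assoc (W2.drop d) W3 Y]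
          exact i1
        · have e5 : L.length - Y.length = ((P ++ (Z1 ++ Z2.take x)) ++ ((Z2.drop x ++ (Z3 ++ (V ++ (W1 ++ W2.take d)))) ++
              (W2.drop d ++ W3))).length := by
            conv_lhs => rw [i1]
            simp only [List.length_append]
            omega
          rwa [← e5]
  rwa [hS1, hS2] at key

end QC

open QC

/-- **row T2Qc** -/
theorem t2Qc_of {κ : ℝ} {C : ℕ} (hκ : 0 < κ) (hT : T1) (hE : ExCs) (hS : SmL) (hP : PMJ) (hPl : PlNt)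
    (hB : BadRoot κ C) : T2Qc := by
  intro u c k ε hcu hε
  obtain ⟨D, hD, hT⟩ := hT
  obtain ⟨C1, hC1, hE⟩ := hE (κ / 8) (2 * C) 1 (by positivity)
  obtain ⟨K, hK, hF⟩ := final_num TPC.xLow (κ := κ / 8) (by positivity)
  obtain ⟨b2, hb2⟩ := exU hκ 8
  obtain ⟨b3, hb3⟩ := t2C (u + 3) (ε / 3) (by positivity)
  obtain ⟨A, J0, b4, hA, hB⟩ := hB 1 5
  have hxc := xc_pos
  -- the scale
  obtain ⟨m1, hm1⟩ := pow_unbounded_of_one_lt (A / (ε / 3)) (one_lt_two (α := ℝ))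
  obtain ⟨m, hm⟩ : ∃ m, m = m1 + J0 + u + 2 * C := ⟨_, rfl⟩
  obtain ⟨J, hJ⟩ : ∃ J, J = m + 5 := ⟨_, rfl⟩
  have hAm : A * (1 / 2) ^ (1 * J) ≤ ε / 3 := by
    rw [div_lt_iff₀ (by positivity)] at hm1
    rw [one_mul, one_div, inv_pow, ← div_eq_mul_inv, div_le_iff₀ (by positivity)]
    have : (2 : ℝ) ^ m1 ≤ 2 ^ J := pow_le_pow_right₀ (by norm_num) (by omega)
    nlinarith
  have hCJ : 2 * C ≤ 2 ^ J := (show 2 * C ≤ J by omega).trans Nat.lt_two_pow_self.le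
  obtain ⟨g, hg⟩ : ∃ g : ℝ, g = ε / 3 / (K * (C1 * D) * xc⁻¹ * 16 ^ J) := ⟨_, rfl⟩
  have hg0 : 0 < g := by rw [hg]; positivity
  obtain ⟨e, b5, hke, heb, hnt⟩ := nt_pt hPl hS hP (η := κ / 8) (by positivity) (2 * C) 5 (m - u) (u + 8) (k + 1) hg0
  refine ⟨e, b2 + b3 + b4 + b5 + m + 1, by omega, by omega, fun n j hj hnj => ?_⟩
  obtain ⟨b, hb⟩ : ∃ b, b = j + u - m := ⟨_, rfl⟩
  have hi : j + u = b + m := by omega
  have hb0 : b ≠ 0 := by omega
  have hbJ : j + u + 5 = b + J := by omega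
  have hmj := ml_pos j
  have hn : 1 ≤ n := by
    have h1 : (0 : ℝ) < n := lt_of_lt_of_le (by positivity) hnj
    exact_mod_cast h1
  have hν : (0 : ℝ) ≤ (n : ℝ) ^ (-(3 / 2) : ℝ) := by positivity
  obtain ⟨h, hh1, hh2, hh3⟩ := hh_of hκ (hb2 b (by omega))
  obtain ⟨r, hr⟩ : ∃ r : ℤ, r = 2 ^ (j - e) := ⟨_, rfl⟩
  obtain ⟨R, hR⟩ : ∃ R : ℤ, R = 2 ^ (j - k) := ⟨_, rfl⟩
  have hRr : (2 : ℤ) ^ (j - (k + 1)) ≤ R - r := by
    have h1 : R = 2 * 2 ^ (j - (k + 1)) := by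
      rw [hR, ← pow_succ']
      congr 1
      omega
    have h2 : r ≤ 2 ^ (j - (k + 1)) := by
      rw [hr]
      exact pow_le_pow_right₀ (by norm_num) (by omega)
    omega
  rw [← hr, ← hR]
  -- the inner bound
  have hin : ∀ M, ∑' p : {p : List Bool × List Bool | RhQ n r (R - r) b (2 * C) (κ / 8) p.1 M p.2 ∧ In (2 ^ (b + J + 1)) p.1 ∧
      In (2 ^ (b + J + 1)) p.2 ∧ p.1 ++ (M ++ p.2) ∈ C0 n}, wE (p : List Bool × List Bool).1 * wE (p : List Bool × List Bool).2 ≤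
        ENNReal.ofReal (xc⁻¹ * (g * (Ub b / 4 ^ b))) * ENNReal.ofReal (wt n M.length (b + J)) := by
    intro M
    refine le_trans (root_in (n := n) (M := M)
      (Q := W2R (κ / 8) (2 * C) b (m - u + (u + 8)) (NPR.Fac (NTQ (2 ^ (b + (m - u) - e)) (2 ^ (b + (m - u) - (k + 1))))))
      (X := ENNReal.ofReal (g * (Ub b / (4 ^ b * ml b)) / (1 + ((n + 1 - M.length : ℕ) : ℝ) / ml b) ^ 5)) ?_ ?_)
      (root_num hg0.le (Nat.le_add_right b J))
    · rintro ⟨Y2, Y1⟩ ⟨⟨hM, P, T, S, Y, e2, hT2, e1, hS1, h3⟩, i2, i1, h4⟩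
      refine ⟨h4, fun β hβ => ?_⟩
      simp only at e1 e2 i1 i2
      obtain ⟨w1, w2, -⟩ := w2_of hb0 (twoG_ne hb0 hM) (Y2 := Y2) (Y1 := Y1) (J := J + 1) (β := β)
        ⟨P, T, hT2, e2⟩ ⟨S, hS1, Y, e1⟩ i2 i1 hβ
      have hcy : (Y2 ++ (M ++ Y1)) ++ [β] ∈ POL.Cy (n + 1) := by
        have h5 : (M ++ (Y1 ++ [β])) ++ Y2 ∈ POL.Cy (n + 1) := by
          rw [List.append_assoc]
          exact hβ
        have h6 := POL.cy_rot h5
        have e6 : (Y2 ++ (M ++ Y1)) ++ [β] = Y2 ++ (M ++ (Y1 ++ [β])) := by simp only [List.append_assoc]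
        rw [e6]
        exact h6
      refine ⟨w1, ?_, S, hS1, Y ++ ([β] ++ P), ?_, T, hT2, ?_⟩
      · rw [show b + (m - u + (u + 8)) = b + (J + 1 + 2) by omega]
        exact w2
      · rw [show b + (m - u) = j by omega]
        refine ntq_mono (le_of_eq hr) hRr (h3 β hcy)
      · simp only
        rw [e1, e2]
        simp only [List.append_assoc]
    · intro z
      refine (hnt b (by omega) (n + 1 - M.length) z).trans (le_of_eq ?_)
      rw [div_eq_mul_inv _ ((1 + ((n + 1 - M.length : ℕ) : ℝ) / ml b) ^ 5)]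
  have h1 := hE D n (b + J) b hD.le (fun n' i _ _ => hT n' i) (Nat.le_add_right b J) (RhQ n r (R - r) b (2 * C) (κ / 8))
    (ENNReal.ofReal (xc⁻¹ * (g * (Ub b / 4 ^ b)))) ((h : ℝ) * h) (fun Y2 M Y1 hr => hr.1) hin
    (by have : (0 : ℝ) < h := by exact_mod_cast hh1
        positivity)
  have h2 := hF _ b J n h (C1 * D) (xc⁻¹ * g) hn (by positivity) (by positivity) hh2 (h1.trans (le_of_eq (by
    rw [mul_assoc xc⁻¹ g])))
  have h3 := hB n b J (2 ^ m) hn (by omega) (by omega) (by rw [hJ, pow_add])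
  have h4 := hb3 n j (by omega) (le_trans (mul_le_mul_of_nonneg_right (pow_le_pow_right₀ (by norm_num) (by omega))
    hmj.le) hnj)
  have hsub : {L | L ∈ C0 n ∧ L ∈ NTc (j + c) (j + u) r R} ⊆
      {L | L ∈ C0 n ∧ ∀ s, s ≤ L.length → dz L s ≤ 2 ^ (j + (u + 3))} ∪ ({L | L ∈ C0 n ∧ BadR κ C b (2 ^ m) (2 ^ (b + J)) L} ∪
        {L | L ∈ C0 n ∧ (h : ℝ) * h ≤ ((tri (2 ^ (b + J + 1)) (RhQ n r (R - r) b (2 * C) (κ / 8)) L).ncard : ℝ)}) := by
    rintro L ⟨hL, hq⟩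
    by_cases hf : ∀ s, s ≤ L.length → dz L s ≤ 2 ^ (j + (u + 3))
    · exact Or.inl ⟨hL, hf⟩
    right
    push Not at hf
    have hf' : ∃ s, s ≤ L.length ∧ 2 ^ (j + u + 3) < dz L s := by
      obtain ⟨s, hs1, hs2⟩ := hf
      exact ⟨s, hs1, by rwa [show j + u + 3 = j + (u + 3) by omega]⟩
    rcases two_cross (κ := κ) (C := C) hi hL hf' with h5 | ⟨P, Z, V, W, Y, e1, hZ, hWz, hPi, hYi, hP1, hY1⟩
    · left
      rw [hJ]
      exact ⟨hL, h5⟩
    · right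
      refine ⟨hL, ?_⟩
      obtain ⟨Z1, Z2, Z3, rfl, hz⟩ := Zd_of hZ
      obtain ⟨W1, W2, W3, rfl, hw⟩ := Zd_of hWz
      have hd : ARM.T2.D2 κ C b L P Z1 Z2 Z3 V W1 W2 W3 Y := ⟨by rw [e1]; simp only [List.append_assoc], hz, hw⟩
      have hpos : (0 : ℤ) < 2 ^ (j + u) := by positivity
      have hpp : (2 : ℤ) ^ (j + u + 1) = 2 * 2 ^ (j + u) := by rw [pow_succ]; ring
      have e5 : L.length - Y.length = (P ++ ((Z1 ++ (Z2 ++ Z3)) ++ (V ++ (W1 ++ (W2 ++ W3))))).length := by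
        rw [e1]
        simp only [List.length_append]
        omega
      rw [← hJ] at hPi hYi
      have h6 := tri_Q (n := n) (E := 2 * C) TIP.neW hd hb0 hh1 hh2 (hh3 _ hz.n2) (hh3 _ hw.n2) le_rfl hCJ hPi hYi
        (i := j + u) (by linarith) (by rw [e5]; linarith) hq
      rw [show b + J + 1 = b + (J + 1) by omega]
      exact_mod_cast h6
  refine (gf_mono hsub).trans ((gf_union_le _ _).trans ((add_le_add h4 ((gf_union_le _ _).trans (add_le_add h3 h2))).trans ?_))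
  rw [← ENNReal.ofReal_add (by positivity) (by positivity), ← ENNReal.ofReal_add (by positivity) (by positivity)]
  refine ENNReal.ofReal_le_ofReal ?_
  have h7 : K * (C1 * D) * (xc⁻¹ * g) * 16 ^ J = ε / 3 := by
    rw [hg]
    field_simp
  have h8 : A * (1 / 2) ^ (1 * J) * (n : ℝ) ^ (-(3 / 2) : ℝ) ≤ ε / 3 * (n : ℝ) ^ (-(3 / 2) : ℝ) :=
    mul_le_mul_of_nonneg_right hAm hν
  rw [h7]
  linarith

end ARM

end HexObs
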