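import Pool.Agent.ARM.DefsL

/-!
# ARM2, row L1 of (A3) (helper94): joinable words with many missing letters

* **`tailJ_of : JMass → TailJ`**: windows of the length `ml k`; the weight of the window t is t ^ (-4), the mass
  `C 4 ^ k Ub k max (n', ml k) ^ (-3/2)`, together at most `4 C 4 ^ k Ub k n ^ (-3/2) t ^ (-2)`.
-/

set_option autoImplicit false

namespace HexObs

namespace ARM

open Finset TS SDN NTA TIP

open scoped ENNReal

/-- one window -/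
lemma win_num {t m n x : ℝ} (ht : 1 ≤ t) (hm : 0 < m) (hmn : m ≤ n) (hx : n - t * m ≤ x) :
    t ^ (-(4 : ℝ)) * (max x m) ^ (-(3 / 2 : ℝ)) ≤ 4 * (t ^ 2)⁻¹ * n ^ (-(3 / 2 : ℝ)) := by
  have hn : 0 < n := hm.trans_le hmn
  have ht0 : 0 < t := by linarith
  have e4 : t ^ (-(4 : ℝ)) = (t ^ 2)⁻¹ * (t ^ 2)⁻¹ := by
    rw [Real.rpow_neg ht0.le, show (4 : ℝ) = ((4 : ℕ) : ℝ) by norm_num, Real.rpow_natCast, ← mul_inv]
    congr 1
    ring
  have h2 : (t ^ 2)⁻¹ ≤ 1 := inv_le_one_of_one_le₀ (by nlinarith)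
  have h2' : 0 < (t ^ 2)⁻¹ := by positivity
  have hN : 0 < n ^ (-(3 / 2 : ℝ)) := by positivity
  rcases le_or_gt (t * m) (n / 2) with h | h
  · have h3 : (max x m) ^ (-(3 / 2 : ℝ)) ≤ 4 * n ^ (-(3 / 2 : ℝ)) := by
      have h4 : n / 2 ≤ max x m := (by linarith : n / 2 ≤ x).trans (le_max_left _ _)
      refine (Real.rpow_le_rpow_of_nonpos (by positivity) h4 (by norm_num)).trans ?_
      rw [Real.div_rpow hn.le (by norm_num), div_eq_mul_inv, mul_comm]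
      refine mul_le_mul_of_nonneg_right ?_ hN.le
      rw [← Real.rpow_neg (by norm_num)]
      calc (2 : ℝ) ^ (-(-(3 / 2 : ℝ))) ≤ (2 : ℝ) ^ (2 : ℝ) :=
            Real.rpow_le_rpow_of_exponent_le (by norm_num) (by norm_num)
        _ = 4 := by
            rw [show (2 : ℝ) = ((2 : ℕ) : ℝ) by norm_num, Real.rpow_natCast]
            norm_num
    rw [e4]
    have h5 : 0 ≤ (max x m) ^ (-(3 / 2 : ℝ)) := by positivity
    calc (t ^ 2)⁻¹ * (t ^ 2)⁻¹ * (max x m) ^ (-(3 / 2 : ℝ)) ≤ (t ^ 2)⁻¹ * 1 * (4 * n ^ (-(3 / 2 : ℝ))) := by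
          gcongr
      _ = _ := by ring
  · have h3 : (max x m) ^ (-(3 / 2 : ℝ)) ≤ m ^ (-(3 / 2 : ℝ)) :=
      Real.rpow_le_rpow_of_nonpos hm (le_max_right _ _) (by norm_num)
    have h4 : (t ^ 2)⁻¹ ≤ 4 * m ^ 2 * (n ^ 2)⁻¹ := by
      rw [← div_eq_mul_inv, inv_le_comm₀ (by positivity) (by positivity), inv_div, div_le_iff₀ (by positivity)]
      nlinarith
    have h5 : m ^ 2 * (n ^ 2)⁻¹ * m ^ (-(3 / 2 : ℝ)) ≤ n ^ (-(3 / 2 : ℝ)) := by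
      have e1 : m ^ 2 * m ^ (-(3 / 2 : ℝ)) = m ^ (1 / 2 : ℝ) := by
        rw [← Real.rpow_natCast, ← Real.rpow_add hm]
        norm_num
      have e2 : n ^ (-(3 / 2 : ℝ)) = n ^ (1 / 2 : ℝ) * (n ^ 2)⁻¹ := by
        rw [← Real.rpow_natCast, ← Real.rpow_neg hn.le, ← Real.rpow_add hn]
        norm_num
      rw [e2, show m ^ 2 * (n ^ 2)⁻¹ * m ^ (-(3 / 2 : ℝ)) = m ^ 2 * m ^ (-(3 / 2 : ℝ)) * (n ^ 2)⁻¹ by ring, e1]
      refine mul_le_mul_of_nonneg_right ?_ (by positivity)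
      exact Real.rpow_le_rpow hm.le hmn (by norm_num)
    rw [e4]
    have h6 : 0 ≤ m ^ (-(3 / 2 : ℝ)) := by positivity
    calc (t ^ 2)⁻¹ * (t ^ 2)⁻¹ * (max x m) ^ (-(3 / 2 : ℝ))
        ≤ (t ^ 2)⁻¹ * (4 * m ^ 2 * (n ^ 2)⁻¹) * m ^ (-(3 / 2 : ℝ)) := by gcongr
      _ = 4 * (t ^ 2)⁻¹ * (m ^ 2 * (n ^ 2)⁻¹ * m ^ (-(3 / 2 : ℝ))) := by ring
      _ ≤ _ := mul_le_mul_of_nonneg_left h5 (by positivity)

/-- the tail of the series is small -/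
lemma exists_tail {δ : ℝ} (hδ : 0 < δ) : ∃ A : ℕ, 1 ≤ A ∧ Summable (fun s : ℕ => (((A + s : ℕ) : ℝ) ^ 2)⁻¹) ∧
    ∑' s : ℕ, (((A + s : ℕ) : ℝ) ^ 2)⁻¹ ≤ δ := by
  have hs : Summable (fun t : ℕ => ((t : ℝ) ^ 2)⁻¹) := Real.summable_nat_pow_inv.2 (by norm_num)
  have h1 := tendsto_sum_nat_add (fun t : ℕ => ((t : ℝ) ^ 2)⁻¹)
  obtain ⟨A, hA⟩ := Filter.eventually_atTop.1 (h1.eventually_le_const hδ)
  refine ⟨A + 1, by omega, ?_, ?_⟩
  · have h2 := (summable_nat_add_iff (f := fun t : ℕ => ((t : ℝ) ^ 2)⁻¹) (A + 1)).2 hs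
    refine h2.congr fun s => ?_
    rw [add_comm s (A + 1)]
  · refine le_trans (le_of_eq ?_) (hA (A + 1) (by omega))
    refine tsum_congr fun s => ?_
    rw [add_comm s (A + 1)]

/-- **row L1** -/
theorem tailJ_of (h : JMass) : TailJ := by
  obtain ⟨H0, hH0, h⟩ := h
  refine ⟨H0, hH0, fun H hH Mx ε hε => ?_⟩
  obtain ⟨C, k0, hC, h⟩ := h H hH Mx
  obtain ⟨A, hA1, hsum, hA⟩ := exists_tail (δ := ε / (4 * C)) (by positivity)
  refine ⟨A, k0, 0, by exact_mod_cast hA1, ?_⟩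
  intro k r n D E hk hn hD1 hD2 hr1 hr2 hE hup
  have hm : 0 < ml k := by unfold ml; positivity
  rw [pow_zero, one_mul] at hn
  have hn0 : (0 : ℝ) < n := hm.trans_le hn
  have hUp := Ub_pos k
  have hUb : 0 ≤ (4 : ℝ) ^ k * Ub k := by positivity
  set f : List Bool → ℝ≥0∞ := fun M => wE M * ENNReal.ofReal (wt n M.length k) with hf
  set W : ℕ → Set (List Bool) := fun s => {M | Jn E r D k M ∧ M.length ≤ n ∧
    (((A + s : ℕ) : ℝ) - 1) * ml k < (n : ℝ) - M.length ∧ (n : ℝ) - M.length ≤ ((A + s : ℕ) : ℝ) * ml k} with hW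
  have hsub : {M : List Bool | Jn E r D k M ∧ M.length ≤ n ∧ (M.length : ℝ) + A * ml k ≤ n} ⊆ ⋃ s, W s := by
    rintro M ⟨h1, h2, h3⟩
    obtain ⟨y, hy⟩ : ∃ y : ℝ, y = ((n : ℝ) - M.length) / ml k := ⟨_, rfl⟩
    have hyA : (A : ℝ) ≤ y := by
      rw [hy, le_div_iff₀ hm]
      linarith
    have hyc : A ≤ ⌈y⌉₊ := by
      have : (A : ℝ) ≤ (⌈y⌉₊ : ℝ) := hyA.trans (Nat.le_ceil y)
      exact_mod_cast this
    have e : A + (⌈y⌉₊ - A) = ⌈y⌉₊ := by omega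
    have hym : (n : ℝ) - M.length = y * ml k := by
      rw [hy]
      field_simp
    refine Set.mem_iUnion.2 ⟨⌈y⌉₊ - A, h1, h2, ?_, ?_⟩
    · rw [e, hym]
      have h4 : (⌈y⌉₊ : ℝ) < y + 1 := Nat.ceil_lt_add_one ((Nat.cast_nonneg A).trans hyA)
      exact mul_lt_mul_of_pos_right (by linarith) hm
    · rw [e, hym]
      exact mul_le_mul_of_nonneg_right (Nat.le_ceil y) hm.le
  have hwin : ∀ s : ℕ, ∑' M : W s, f M ≤
      ENNReal.ofReal (4 * C * (4 ^ k * Ub k) * (n : ℝ) ^ (-(3 / 2 : ℝ)) * (((A + s : ℕ) : ℝ) ^ 2)⁻¹) := by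
    intro s
    have ht1 : (1 : ℝ) ≤ ((A + s : ℕ) : ℝ) := by
      have : 1 ≤ A + s := by omega
      exact_mod_cast this
    have h1 : ∑' M : W s, f M ≤ ∑' M : W s, wE (M : List Bool) * ENNReal.ofReal (((A + s : ℕ) : ℝ) ^ (-(4 : ℝ))) := by
      refine ENNReal.tsum_le_tsum fun M => ?_
      obtain ⟨M, hM⟩ := M
      obtain ⟨-, g2, g3, -⟩ := hM
      refine mul_le_mul' le_rfl (ENNReal.ofReal_le_ofReal ?_)
      show wt n M.length k ≤ _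
      unfold wt
      refine Real.rpow_le_rpow_of_nonpos (by linarith) ?_ (by norm_num)
      rw [Nat.cast_sub g2]
      have g4 : ((A + s : ℕ) : ℝ) - 1 ≤ ((n : ℝ) - M.length) / ml k := by
        rw [le_div_iff₀ hm]
        exact g3.le
      linarith
    refine h1.trans ?_
    rw [ENNReal.tsum_mul_right]
    have h2 : (∑' M : W s, wE (M : List Bool)) ≤ gf {M | Jn E r D k M ∧ ⌈(n : ℝ) - ((A + s : ℕ) : ℝ) * ml k⌉₊ ≤ M.length ∧
        (M.length : ℝ) < (⌈(n : ℝ) - ((A + s : ℕ) : ℝ) * ml k⌉₊ : ℕ) + ml k} := by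
      refine gf_mono ?_
      rintro M ⟨g1, -, g3, g4⟩
      refine ⟨g1, ?_, ?_⟩
      · rw [Nat.ceil_le]
        linarith
      · have g5 := Nat.le_ceil ((n : ℝ) - ((A + s : ℕ) : ℝ) * ml k)
        nlinarith
    refine (mul_le_mul' (h2.trans (h k r _ D E hk hD1 hD2 hr1 hr2 hE hup)) le_rfl).trans ?_
    rw [← ENNReal.ofReal_mul (by positivity)]
    refine ENNReal.ofReal_le_ofReal ?_
    have h3 := win_num (x := (⌈(n : ℝ) - ((A + s : ℕ) : ℝ) * ml k⌉₊ : ℕ)) ht1 hm hn (Nat.le_ceil _)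
    have h4 := mul_le_mul_of_nonneg_left h3 (mul_nonneg hC.le hUb)
    refine le_trans (le_of_eq ?_) (h4.trans (le_of_eq ?_)) <;> ring
  calc ∑' M : {M : List Bool | Jn E r D k M ∧ M.length ≤ n ∧ (M.length : ℝ) + A * ml k ≤ n},
        wE (M : List Bool) * ENNReal.ofReal (wt n (M : List Bool).length k)
      ≤ ∑' M : (⋃ s, W s : Set (List Bool)), f M := ENNReal.tsum_mono_subtype f hsub
    _ ≤ ∑' s, ∑' M : W s, f M := ENNReal.tsum_iUnion_le_tsum f _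
    _ ≤ ∑' s : ℕ, ENNReal.ofReal (4 * C * (4 ^ k * Ub k) * (n : ℝ) ^ (-(3 / 2 : ℝ)) * (((A + s : ℕ) : ℝ) ^ 2)⁻¹) :=
        ENNReal.tsum_le_tsum hwin
    _ = ENNReal.ofReal (4 * C * (4 ^ k * Ub k) * (n : ℝ) ^ (-(3 / 2 : ℝ)) * ∑' s : ℕ, (((A + s : ℕ) : ℝ) ^ 2)⁻¹) := by
        rw [← tsum_mul_left, ENNReal.ofReal_tsum_of_nonneg (fun s => by positivity) (hsum.mul_left _)]
    _ ≤ _ := by
        refine ENNReal.ofReal_le_ofReal ?_
        have h5 : 0 ≤ 4 * C * (4 ^ k * Ub k) * (n : ℝ) ^ (-(3 / 2 : ℝ)) := by positivity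
        refine (mul_le_mul_of_nonneg_left hA h5).trans (le_of_eq ?_)
        field_simp

end ARM

end HexObs
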