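import Pool.Agent.ARM.JLow
import Pool.Agent.ARM.LowPtA
import Pool.Agent.ARM.JFill
import Pool.Agent.ARM.NcBG
import Pool.Agent.ARM.JoinR
import Pool.Agent.ARM.JMass
import Pool.Agent.ARM.TailJ
import Pool.Agent.ARM.T1
import Pool.Agent.ARM.T2Fin
import Pool.Agent.ARM.T2Qc
import Pool.Agent.ARM.BadRoot
import Pool.Agent.ARM.NtP

/-!
# ARM, (A3) (helper47): the lower bound at a point, from row T2S alone
-/

set_option autoImplicit false

namespace HexObs

namespace ARM

/-- the joinable words, from row T2S -/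
theorem jLow_in (hSt : T2S) : JLow := by
  obtain ⟨κ, hκ, C, -, hR⟩ := TIP.regZ_all
  obtain ⟨hB, hN⟩ := rootBN_all t1 hκ hR
  exact jLow_of (t2N_all t1) hSt (t2Qc_of hκ t1 (exCs_of tipF2s) smL pMJ plNt (badRoot_of hB hN)) t2C joinSc smL yMassW
    (tailJ_of jMass)

/-- **the lower bound at a point**, from row T2S -/
theorem lowPt_in (hSt : T2S) : LowPt := lowPt_of (jLow_in hSt) (jFill_of ncHB)

end ARM

end HexObs
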