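import Pool.Agent.ARM.LowFill
import Pool.Agent.ARM.DefsL
import Pool.Agent.ARM.GlueGB

/-!
# ARM, row L0 (helper51): `lowSm_of`, the lower bound at the points at a bounded distance, from `JLow`
-/

set_option autoImplicit false

namespace HexObs

namespace ARM

namespace LS

open Finset TS SDN SIM NTA TIP G3

open scoped ENNReal

/-- the mass of a family of words, from a code that keeps the length of the first piece -/
lemma mass_code {Wd U : Set (List Bool)} {nn a m : ℕ} (g : ℕ → ℕ) (h : ∀ M ∈ Wd, M.length ≤ nn ∧ nn ≤ M.length + a ∧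
    ∃ P2 P1 : List Bool, P2.length = g M.length ∧ P2 ++ (M ++ P1) ∈ U ∧ (P2 ++ (M ++ P1)).length ≤ M.length + m) :
    gf Wd ≤ ((a + 1 : ℕ) : ℝ≥0∞) * (ENNReal.ofReal ((xc⁻¹) ^ m) * gf U) := by
  have hxc := xc_pos
  have hxc1 : xc ≤ 1 := BAR.xc_le.trans (by norm_num)
  have h' : ∀ M : Wd, ∃ P : List Bool × List Bool, P.1.length = g (M : List Bool).length ∧ P.1 ++ ((M : List Bool) ++ P.2) ∈ U ∧
      (P.1 ++ ((M : List Bool) ++ P.2)).length ≤ (M : List Bool).length + m := fun M => by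
    obtain ⟨-, -, P2, P1, h1, h2, h3⟩ := h M M.2
    exact ⟨(P2, P1), h1, h2, h3⟩
  choose P hP1 hP2 hP3 using h'
  refine (gf_mono (Q := ⋃ i ∈ range (a + 1), {M | M ∈ Wd ∧ M.length + i = nn}) ?_).trans
    ((BAR.gf_bi_le _ _).trans ?_)
  · intro M hM
    obtain ⟨g1, g2, -⟩ := h M hM
    rw [Set.mem_iUnion₂]
    exact ⟨nn - M.length, mem_range.2 (by omega), hM, by omega⟩
  · refine (sum_le_card_nsmul _ _ (ENNReal.ofReal ((xc⁻¹) ^ m) * gf U) fun i _ => ?_).trans ?_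
    · unfold gf
      rw [← ENNReal.tsum_mul_left]
      let f : {M | M ∈ Wd ∧ M.length + i = nn} → U := fun M =>
        ⟨(P ⟨M, M.2.1⟩).1 ++ ((M : List Bool) ++ (P ⟨M, M.2.1⟩).2), hP2 ⟨M, M.2.1⟩⟩
      have hf : Function.Injective f := by
        intro M M' he
        have e1 : (P ⟨M, M.2.1⟩).1 ++ ((M : List Bool) ++ (P ⟨M, M.2.1⟩).2) =
            (P ⟨M', M'.2.1⟩).1 ++ ((M' : List Bool) ++ (P ⟨M', M'.2.1⟩).2) := congrArg Subtype.val he
        have l1 := M.2.2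
        have l2 := M'.2.2
        have l3 : (M : List Bool).length = (M' : List Bool).length := by omega
        have l4 : (P ⟨M, M.2.1⟩).1.length = (P ⟨M', M'.2.1⟩).1.length := by
          rw [hP1, hP1]
          exact congrArg g l3
        have e2 := (List.append_inj e1 l4).2
        exact Subtype.ext (List.append_inj e2 l3).1
      refine le_trans (ENNReal.tsum_le_tsum fun M => ?_)
        (ENNReal.tsum_comp_le_tsum_of_injective hf (fun L : U => ENNReal.ofReal ((xc⁻¹) ^ m) * wE (L : List Bool)))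
      have l1 := hP3 ⟨M, M.2.1⟩
      change wE (M : List Bool) ≤ ENNReal.ofReal ((xc⁻¹) ^ m) * wE ((P ⟨M, M.2.1⟩).1 ++ ((M : List Bool) ++ (P ⟨M, M.2.1⟩).2))
      unfold wE
      rw [← ENNReal.ofReal_mul (by positivity)]
      refine ENNReal.ofReal_le_ofReal ?_
      have l2 : xc ^ ((M : List Bool).length + m) ≤ xc ^ ((P ⟨M, M.2.1⟩).1 ++ ((M : List Bool) ++ (P ⟨M, M.2.1⟩).2)).length :=
        pow_le_pow_of_le_one hxc.le hxc1 l1
      have l3 : xc ^ (M : List Bool).length = (xc⁻¹) ^ m * xc ^ ((M : List Bool).length + m) := by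
        rw [pow_add, inv_pow]
        field_simp
      rw [l3]
      exact mul_le_mul_of_nonneg_left l2 (by positivity)
    · rw [card_range, nsmul_eq_mul]

lemma ml3 : ml 3 = 16 := by
  unfold ml
  rw [show (4 / 3 : ℝ) * ((3 : ℕ) : ℝ) = ((4 : ℕ) : ℝ) by norm_num, Real.rpow_natCast]
  norm_num

lemma ml6 : ml 6 = 256 := by
  unfold ml
  rw [show (4 / 3 : ℝ) * ((6 : ℕ) : ℝ) = ((8 : ℕ) : ℝ) by norm_num, Real.rpow_natCast]
  norm_num

lemma ml_3t (t : ℕ) : ml (3 * t) = 16 ^ t := by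
  unfold ml
  rw [show (4 / 3 : ℝ) * ((3 * t : ℕ) : ℝ) = ((4 * t : ℕ) : ℝ) by push_cast; ring, Real.rpow_natCast, pow_mul]
  norm_num

/-- **row L0** -/
theorem lowSm_of (hJ : JLow) : LowSm := by
  intro b
  obtain ⟨H1, hH1, hJ⟩ := hJ
  obtain ⟨H2, hH2, hT⟩ := tAll
  obtain ⟨H, hH⟩ : ∃ H, H = max H1 H2 := ⟨_, rfl⟩
  obtain ⟨Mx, sx, b0, c1, A, hc1, hA, hJ⟩ := hJ H (by omega)
  obtain ⟨kT, hT⟩ := hT H (by omega) (max Mx 4)
  obtain ⟨k1, hk1⟩ : ∃ k1, k1 = max kT 6 := ⟨_, rfl⟩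
  obtain ⟨L, hL⟩ : ∃ L : ℕ, L = 198 * H * 2 ^ k1 + 2 ^ (k1 + 9) + 8 := ⟨_, rfl⟩
  have hL2 : (198 * (H : ℤ) * 2 ^ k1 + 2 ^ (k1 + 9) + 8) ≤ 2 ^ L := by
    have h1 : L ≤ 2 ^ L := Nat.lt_two_pow_self.le
    have h2 : ((198 * H * 2 ^ k1 + 2 ^ (k1 + 9) + 8 : ℕ) : ℤ) ≤ ((2 ^ L : ℕ) : ℤ) := by
      rw [← hL]
      exact_mod_cast h1
    push_cast at h2
    linarith
  obtain ⟨t, ht⟩ : ∃ t : ℕ, t = b0 + kT + b + 4 + ⌈(3 + A) * ml (sx + L) + 2⌉₊ := ⟨_, rfl⟩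
  have hmL := ml_pos (sx + L)
  have ht4 : (3 + A) * ml (sx + L) + 2 ≤ 4 ^ t := by
    have h1 := Nat.le_ceil ((3 + A) * ml (sx + L) + 2)
    have h2 : ⌈(3 + A) * ml (sx + L) + 2⌉₊ ≤ 4 ^ t := by
      have : t ≤ 4 ^ t := (Nat.lt_pow_self (by norm_num)).le
      omega
    have h3 : ((⌈(3 + A) * ml (sx + L) + 2⌉₊ : ℕ) : ℝ) ≤ ((4 ^ t : ℕ) : ℝ) := by exact_mod_cast h2
    push_cast at h3
    linarith
  obtain ⟨q, hq⟩ : ∃ q, q = 3 * t := ⟨_, rfl⟩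
  obtain ⟨N, hN⟩ : ∃ N : ℕ, N = 2 ^ q := ⟨_, rfl⟩
  obtain ⟨j, hj⟩ : ∃ j, j = (sx + L) + q := ⟨_, rfl⟩
  have hmj : ml j = 16 ^ t * ml (sx + L) := by
    rw [hj, ml_add, hq, ← ml_3t]
    unfold ml
    rfl
  have hmj0 := ml_pos j
  have h16 : (1 : ℝ) ≤ 16 ^ t := one_le_pow₀ (by norm_num)
  have hG : (3 + A) * ml j + 2 ≤ 64 ^ t := by
    have h1 : (64 : ℝ) ^ t = 16 ^ t * 4 ^ t := by
      rw [← mul_pow]
      norm_num
    rw [h1, hmj]
    have h2 := mul_le_mul_of_nonneg_left ht4 (by positivity : (0 : ℝ) ≤ 16 ^ t)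
    nlinarith
  have hN8 : 8 ≤ N := by
    rw [hN]
    calc 8 = 2 ^ 3 := by norm_num
      _ ≤ 2 ^ q := Nat.pow_le_pow_right (by norm_num) (by omega)
  obtain ⟨R, hR⟩ : ∃ R : ℕ, R = AR.sR N N := ⟨_, rfl⟩
  have hR4 : (64 : ℝ) ^ t ≤ R := by
    have h1 : N * N ≤ R := by
      rw [hR]
      unfold AR.sR
      nlinarith
    have h2 : N * N = 64 ^ t := by
      rw [hN, hq, ← pow_add, show 3 * t + 3 * t = 6 * t by ring, pow_mul]
      norm_num
    rw [h2] at h1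
    exact_mod_cast h1
  obtain ⟨m1, hm1⟩ : ∃ m1, m1 = ml k1 := ⟨_, rfl⟩
  have hm1' : 256 ≤ m1 := by
    rw [hm1, ← ml6]
    exact ml_le (by omega)
  have hR0 : (0 : ℝ) < R := lt_of_lt_of_le (by positivity) hR4
  have hRG : (3 + A) * ml j + 2 ≤ R := hG.trans hR4
  have hRm : 256 * (R : ℝ) ≤ R * m1 := by nlinarith
  have hAm : 0 < A * ml j := by positivity
  obtain ⟨U, hU⟩ : ∃ U : ℕ, U = ⌈(R : ℝ) * m1 / 16⌉₊ := ⟨_, rfl⟩
  have hU1 : (R : ℝ) * m1 / 16 ≤ U := by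
    rw [hU]
    exact Nat.le_ceil _
  have hU2 : (U : ℝ) ≤ (R : ℝ) * m1 / 16 + 1 := by
    rw [hU]
    exact (Nat.ceil_lt_add_one (by positivity)).le
  obtain ⟨a, ha⟩ : ∃ a : ℕ, a = ⌈A * ml j⌉₊ := ⟨_, rfl⟩
  have ha1 : A * ml j ≤ a := by
    rw [ha]
    exact Nat.le_ceil _
  have hxc := xc_pos
  have hUj := Ub_pos j
  refine ⟨c1 * (4 ^ j * Ub j) / (((a + 1 : ℕ) : ℝ) * (xc⁻¹) ^ (U + a)), U + ⌈2 ^ b0 * ml j⌉₊ + 1, by positivity,
    fun n z hn hz hzb hcl => ?_⟩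
  obtain ⟨nn, hnn⟩ : ∃ nn, nn = n - U := ⟨_, rfl⟩
  have hnnU : n = nn + U := by omega
  have hnn1 : 2 ^ b0 * ml j ≤ nn := by
    have h1 := Nat.le_ceil ((2 : ℝ) ^ b0 * ml j)
    have h2 : ⌈(2 : ℝ) ^ b0 * ml j⌉₊ ≤ nn := by omega
    have h3 : ((⌈(2 : ℝ) ^ b0 * ml j⌉₊ : ℕ) : ℝ) ≤ nn := by exact_mod_cast h2
    linarith
  obtain ⟨k, r, D, E, d1, d2, d3, d4, d5, d6, d7, d8, d9, h1⟩ := hJ nn j (by omega) hnn1
  have hkq : q + L ≤ k := by omega
  have hmk : 16 ≤ ml k := by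
    rw [← ml3]
    exact ml_le (by omega)
  have hmkj : ml k ≤ ml j := ml_le d1
  obtain ⟨b3, b4⟩ := BB_le k hmk
  push_cast at b4
  have hBe : Even (BB k) := by
    unfold BB
    exact even_two_mul _
  have hkL : (2 : ℤ) ^ q * 2 ^ L ≤ 2 ^ k := by
    rw [← pow_add]
    exact pow_le_pow_right₀ (by norm_num) hkq
  have hq1 : (1 : ℤ) ≤ 2 ^ q := one_le_pow₀ (by norm_num)
  have hsz : 18 * ((H : ℤ) * 2 ^ k1) * (2 * (N : ℤ) + 8 + 8 * N) + (2 ^ (k1 + 9) + 8) ≤ 2 ^ k := by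
    refine le_trans ?_ hkL
    have hNq : (N : ℤ) = 2 ^ q := by
      rw [hN]
      push_cast
      rfl
    have h8 : (8 : ℤ) ≤ 2 ^ q := by
      rw [← hNq]
      exact_mod_cast hN8
    rw [hNq]
    have f0 : (0 : ℤ) ≤ (H : ℤ) * 2 ^ k1 := by positivity
    have f1 : (0 : ℤ) ≤ 2 ^ (k1 + 9) := by positivity
    calc 18 * ((H : ℤ) * 2 ^ k1) * (2 * 2 ^ q + 8 + 8 * 2 ^ q) + (2 ^ (k1 + 9) + 8)
        ≤ 18 * ((H : ℤ) * 2 ^ k1) * (11 * 2 ^ q) + 2 ^ q * (2 ^ (k1 + 9) + 8) := by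
          refine add_le_add (mul_le_mul_of_nonneg_left (by linarith) (by positivity)) ?_
          nlinarith
      _ = 2 ^ q * (198 * (H : ℤ) * 2 ^ k1 + 2 ^ (k1 + 9) + 8) := by ring
      _ ≤ 2 ^ q * 2 ^ L := mul_le_mul_of_nonneg_left hL2 (by positivity)
  have hzk : TIW.hn z + 8 ≤ 2 ^ k := by
    have f1 : (2 : ℤ) ^ (b + 4) ≤ 2 ^ k := pow_le_pow_right₀ (by norm_num) (by omega)
    have f2 : (2 : ℤ) ^ (b + 4) = 16 * 2 ^ b := by ring
    have f3 : (1 : ℤ) ≤ 2 ^ b := one_le_pow₀ (by norm_num)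
    linarith
  obtain ⟨dl, hdl⟩ : ∃ dl : ℕ, dl = if Even n then 0 else 1 := ⟨_, rfl⟩
  have hdl1 : dl ≤ 1 := by
    rw [hdl]
    split_ifs <;> omega
  have hkey : ∀ M ∈ {M | Jn E r D k M ∧ M.length ≤ nn ∧ (nn : ℝ) ≤ M.length + A * ml j},
      M.length ≤ nn ∧ nn ≤ M.length + a ∧ ∃ P2 P1 : List Bool,
        P2.length = (fun l => n - (BB k + l + (if Even l then BB k else BB k + 1) + dl) + BB k) M.length ∧
          P2 ++ (M ++ P1) ∈ WE n z ∧ (P2 ++ (M ++ P1)).length ≤ M.length + (U + a) := by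
    rintro M ⟨hJM, m1l, m2l⟩
    have m3l : nn ≤ M.length + a := by
      have : (nn : ℝ) ≤ M.length + a := by linarith
      exact_mod_cast this
    obtain ⟨b1, hb1⟩ : ∃ b1, b1 = if Even M.length then BB k else BB k + 1 := ⟨_, rfl⟩
    have hb1' : b1 ≤ BB k + 1 := by
      rw [hb1]
      split_ifs <;> omega
    have hb1r : (BB k : ℝ) + b1 + dl ≤ 2 * ml j := by
      have f1 : (b1 : ℝ) ≤ BB k + 1 := by exact_mod_cast hb1'
      have f2 : (dl : ℝ) ≤ 1 := by exact_mod_cast hdl1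
      linarith
    have hUr : 2 * ml j ≤ U := by nlinarith
    have hle : BB k + b1 + dl ≤ U := by
      have : (BB k : ℝ) + b1 + dl ≤ U := hb1r.trans hUr
      exact_mod_cast this
    obtain ⟨s, hs⟩ : ∃ s : ℕ, s = n - (BB k + M.length + b1 + dl) := ⟨_, rfl⟩
    have hns : n = s + BB k + M.length + b1 + dl := by omega
    have hb1e : Even (M.length + b1) := by
      rw [hb1]
      split_ifs with g
      · exact g.add hBe
      · exact (Nat.not_even_iff_odd.1 g).add_odd (Even.add_one hBe)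
    have hse : Even s := by
      have f1 : (n - dl) = s + (BB k + (M.length + b1)) := by omega
      have f2 : Even (n - dl) := by
        rw [hdl]
        split_ifs with g
        · exact g
        · have g1 : Odd n := Nat.not_even_iff_odd.1 g
          exact Nat.Odd.sub_odd g1 odd_one
      rw [f1] at f2
      exact (Nat.even_add.1 f2).2 (hBe.add hb1e)
    have hsr : (n : ℝ) = s + BB k + M.length + b1 + dl := by exact_mod_cast hns
    have hnr : (n : ℝ) = nn + U := by exact_mod_cast hnnU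
    have hMr : (M.length : ℝ) ≤ nn := by exact_mod_cast m1l
    have n1 : (0 : ℝ) ≤ BB k := Nat.cast_nonneg _
    have n2 : (0 : ℝ) ≤ b1 := Nat.cast_nonneg _
    have n3 : (0 : ℝ) ≤ dl := Nat.cast_nonneg _
    obtain ⟨P2, P1, hP2, hP⟩ := fill (h := N) (N := N) (n := n) (s := s) (k1 := k1) (b1 := b1) hT (by omega) (by omega) (by omega)
      (by omega) (by omega) (by omega) hmk (by omega) hsz hzk hz hcl d3 d4 d5 (by omega) d7 d8 d9 hJM hb1 hse (by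
        rw [← hR, ← hm1]
        nlinarith) (by
        rw [← hR, ← hm1]
        nlinarith) (by
        rw [← hdl]
        exact hns)
    refine ⟨m1l, m3l, P2, P1, ?_, hP, ?_⟩
    · rw [hP2, hs, hb1]
    · rw [hP.2.1]
      omega
  have h2 := mass_code (nn := nn) (a := a) (m := U + a) (Wd := {M | Jn E r D k M ∧ M.length ≤ nn ∧ (nn : ℝ) ≤ M.length + A * ml j})
    (U := WE n z) (fun l => n - (BB k + l + (if Even l then BB k else BB k + 1) + dl) + BB k) hkey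
  -- the numbers
  have h3 : ENNReal.ofReal (c1 * (4 ^ j * Ub j) * (n : ℝ) ^ (-(3 / 2 : ℝ))) ≤
      ENNReal.ofReal (c1 * (4 ^ j * Ub j) * (nn : ℝ) ^ (-(3 / 2 : ℝ))) := by
    refine ENNReal.ofReal_le_ofReal ?_
    have f1 : (n : ℝ) ^ (-(3 / 2 : ℝ)) ≤ (nn : ℝ) ^ (-(3 / 2 : ℝ)) := by
      refine Real.rpow_le_rpow_of_nonpos (lt_of_lt_of_le (by positivity) hnn1) ?_ (by norm_num)
      exact_mod_cast (by omega : nn ≤ n)
    have : 0 ≤ c1 * (4 ^ j * Ub j) := by positivity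
    exact mul_le_mul_of_nonneg_left f1 this
  have h4 := h3.trans (h1.trans h2)
  obtain ⟨Y, hY⟩ : ∃ Y : ℝ, Y = ((a + 1 : ℕ) : ℝ) * (xc⁻¹) ^ (U + a) := ⟨_, rfl⟩
  have hY0 : 0 < Y := by
    rw [hY]
    positivity
  have h5 : ((a + 1 : ℕ) : ℝ≥0∞) * (ENNReal.ofReal ((xc⁻¹) ^ (U + a)) * gf (WE n z)) = ENNReal.ofReal Y * gf (WE n z) := by
    rw [hY, ENNReal.ofReal_mul (by positivity), ENNReal.ofReal_natCast, mul_assoc]
  rw [h5] at h4
  have h6 : ENNReal.ofReal (c1 * (4 ^ j * Ub j) / Y * (n : ℝ) ^ (-(3 / 2 : ℝ))) * ENNReal.ofReal Y =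
      ENNReal.ofReal (c1 * (4 ^ j * Ub j) * (n : ℝ) ^ (-(3 / 2 : ℝ))) := by
    rw [← ENNReal.ofReal_mul (by positivity)]
    congr 1
    field_simp
  rw [← hY]
  have h7 : ENNReal.ofReal Y ≠ 0 := by
    rw [Ne, ENNReal.ofReal_eq_zero, not_le]
    exact hY0
  rw [← h6, mul_comm] at h4
  exact (ENNReal.mul_le_mul_iff_right h7 ENNReal.ofReal_ne_top).1 h4

end LS

/-- **row L0** -/
theorem lowSm_of (hJ : JLow) : LowSm := LS.lowSm_of hJ

end ARM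

end HexObs
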