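import Pool.Agent.ARM.Mom
import Pool.Agent.ARM.DefsI
import Pool.Agent.NPR.TwoMid
import Pool.Agent.NPR.TipxH

/-!
# ARM, row PMJ (helper28): words with a good start and a good end, the moments of the length

* `start_tail` : words with a good start, tail of the lengths (from row B3');
* **`pmj_of`** : `PMJ`, from `YMassJ`.
-/

set_option autoImplicit false

namespace HexObs

namespace ARM

open Finset TS SDN HexObs.SIM NTA TIP TIW

open scoped ENNReal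

/-- words of the box of the scale b + J with a good start and a good end of the scale b -/
def W2E (η : ℝ) (D b J : ℕ) : Set (List Bool) :=
  {A | A ∈ SA ∧ In (2 ^ (b + J)) A ∧ ∃ S ∈ NPR.GS η D b, ∃ R, ∃ T ∈ NPR.GE η D b, A = S ++ (R ++ T)}

/-- **row PMJ** -/
def PMJ : Prop := ∀ (η : ℝ) (D q : ℕ), 0 < η → ∃ C : ℝ, 1 ≤ C ∧ ∀ b J : ℕ, 1 ≤ b →
  ∑' A : W2E η D b J, wE (A : List Bool) * ENNReal.ofReal ((1 + ((A : List Bool).length : ℝ) / ml (b + J)) ^ q) ≤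
    ENNReal.ofReal (C ^ (J + 1) * Ub b)

lemma In_WL {K : ℕ} {A : List Bool} (hA : A ∈ SA) (h : In (2 ^ K) A) : A ∈ WL (K + 2) := by
  refine ⟨hA, fun i hi dir => ?_⟩
  obtain ⟨a1, a2⟩ := RevM.In_coord h hi
  have e : ∀ v : Pt, mulE (1, 0) v = v := by
    rintro ⟨x, y⟩
    simp [mulE]
  have h1 := RevM.row_of (c := (1, 0)) (by decide) (v := vx oo up A i) (B := ((2 ^ K : ℕ) : ℤ)) (by rw [e]; exact a1)
    (by rw [e]; exact a2) dir
  have h2 : (2 : ℤ) ^ (K + 2) = 4 * 2 ^ K := by rw [pow_add]; ring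
  have h3 : (1 : ℤ) ≤ 2 ^ K := one_le_pow₀ (by norm_num)
  push_cast at h1
  rw [h2]
  linarith

lemma In_of_WL {K : ℕ} {A : List Bool} (h : A ∈ WL K) : In (2 ^ (K + 5)) A := by
  have h1 : In (12 * 2 ^ K + 8) A := NPR.DW_In (by
    push_cast
    exact NPR.WL_DW h)
  refine fun i hi => Bl_mono _ ?_ (h1 i hi)
  have h2 : (2 : ℕ) ^ (K + 5) = 32 * 2 ^ K := by rw [pow_add]; ring
  have h3 : 1 ≤ 2 ^ K := Nat.one_le_two_pow
  omega

/-- words of the box of the scale K with a good start of the scale b -/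
def StW (η : ℝ) (D b K : ℕ) : Set (List Bool) := {w | w ∈ WL K ∧ w ∈ St η D b}

/-- **words with a good start: tail of the lengths** -/
lemma start_tail (hY : YMassJ) {η : ℝ} (hη : 0 < η) (D q : ℕ) : ∃ C : ℝ, 1 ≤ C ∧ ∀ (b J : ℕ) (lam : ℝ), 1 ≤ b → 0 ≤ lam →
    gf {w | w ∈ StW η D b (b + J + 5) ∧ lam * ml (b + J) ≤ (w.length : ℝ)} * ENNReal.ofReal (lam ^ q) ≤
      ENNReal.ofReal (C ^ (J + 1) * Ub b) * Xb b := by
  obtain ⟨C, hC, h⟩ := hY η q hη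
  obtain ⟨κ, hκ⟩ : ∃ κ : ℝ, κ = (2 : ℝ) ^ ((4 / 3 : ℝ) * ((10 : ℕ) : ℝ)) := ⟨_, rfl⟩
  have hκ1 : 1 ≤ κ := by
    rw [hκ]
    exact Real.one_le_rpow (by norm_num) (by positivity)
  have hκq : 1 ≤ κ ^ q := one_le_pow₀ hκ1
  have hκ0 : 0 < κ := by linarith
  have hC11 : 1 ≤ C ^ 11 := one_le_pow₀ hC
  refine ⟨κ ^ q * C ^ 11, one_le_mul_of_one_le_of_one_le hκq hC11, fun b J lam hb hl => ?_⟩
  have hb0 : b ≠ 0 := by omega
  have hU : 0 < Ub b := Ub_pos b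
  have hm : ml (b + (J + 10)) = κ * ml (b + J) := by
    rw [show b + (J + 10) = b + J + 10 by ring, ml_add, hκ]
  have h1 := tail_mom {Y : List Bool | Y ∈ SA ∧ rev Y ∈ GT b η ∧ In (2 ^ (b + (J + 10))) Y} (ml_pos (b + (J + 10)))
    (div_nonneg hl hκ0.le) q
  have h2 := h1.trans (h b (J + 10))
  have h3 : gf {w | w ∈ StW η D b (b + J + 5) ∧ lam * ml (b + J) ≤ (w.length : ℝ)} ≤
      gf {A | A ∈ {Y : List Bool | Y ∈ SA ∧ rev Y ∈ GT b η ∧ In (2 ^ (b + (J + 10))) Y} ∧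
        lam / κ * ml (b + (J + 10)) ≤ (A.length : ℝ)} := by
    refine gf_mono ?_
    rintro w ⟨⟨hw, V, hV, R, rfl⟩, hl2⟩
    refine ⟨⟨hw.1, NPR.GS_rev hb0 hV R, ?_⟩, ?_⟩
    · have := In_of_WL hw
      rwa [show b + J + 5 + 5 = b + (J + 10) by ring] at this
    · rw [hm]
      have e : lam / κ * (κ * ml (b + J)) = lam * ml (b + J) := by field_simp
      rw [e]
      exact hl2
  have e1 : lam ^ q = (lam / κ) ^ q * κ ^ q := by
    rw [← mul_pow, div_mul_cancel₀ _ hκ0.ne']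
  have e2 : C ^ (J + 10 + 1) * Ub b * κ ^ q ≤ (κ ^ q * C ^ 11) ^ (J + 1) * Ub b := by
    have e3 : C ^ (J + 10 + 1) ≤ (C ^ 11) ^ (J + 1) := by
      rw [← pow_mul]
      exact pow_le_pow_right₀ hC (by ring_nf; omega)
    have e4 : κ ^ q ≤ (κ ^ q) ^ (J + 1) := le_self_pow₀ hκq (by omega)
    rw [mul_pow]
    have e5 : 0 < κ ^ q := by positivity
    have e6 : 0 < C ^ (J + 10 + 1) := by positivity
    calc C ^ (J + 10 + 1) * Ub b * κ ^ q = κ ^ q * C ^ (J + 10 + 1) * Ub b := by ring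
      _ ≤ _ := mul_le_mul_of_nonneg_right (mul_le_mul e4 e3 e6.le (by positivity)) hU.le
  calc gf {w | w ∈ StW η D b (b + J + 5) ∧ lam * ml (b + J) ≤ (w.length : ℝ)} * ENNReal.ofReal (lam ^ q)
      ≤ gf {A | A ∈ {Y : List Bool | Y ∈ SA ∧ rev Y ∈ GT b η ∧ In (2 ^ (b + (J + 10))) Y} ∧
        lam / κ * ml (b + (J + 10)) ≤ (A.length : ℝ)} * (ENNReal.ofReal ((lam / κ) ^ q) * ENNReal.ofReal (κ ^ q)) := by
        rw [e1, ENNReal.ofReal_mul (by positivity)]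
        exact mul_le_mul_left h3 _
    _ ≤ ENNReal.ofReal (C ^ (J + 10 + 1) * Ub b) * Xb b * ENNReal.ofReal (κ ^ q) := by
        rw [← mul_assoc]
        exact mul_le_mul_left h2 _
    _ = ENNReal.ofReal (C ^ (J + 10 + 1) * Ub b * κ ^ q) * Xb b := by
        rw [mul_right_comm, ← ENNReal.ofReal_mul (by positivity)]
    _ ≤ _ := mul_le_mul_left (ENNReal.ofReal_le_ofReal e2) _

/-- division -/
lemma div_of_mul {a x : ℝ≥0∞} {c r : ℝ} (hr : 0 < r) (hc : 0 ≤ c) (h : a * ENNReal.ofReal r ≤ ENNReal.ofReal c * x) :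
    a ≤ ENNReal.ofReal (c / r) * x := by
  have h1 : a = a * ENNReal.ofReal r * ENNReal.ofReal (1 / r) := by
    rw [mul_assoc, ← ENNReal.ofReal_mul hr.le, mul_one_div_cancel hr.ne', ENNReal.ofReal_one, mul_one]
  rw [h1]
  refine (mul_le_mul_left h _).trans (le_of_eq ?_)
  rw [mul_right_comm, ← ENNReal.ofReal_mul hc, mul_one_div]

/-- division by the tip -/
lemma div_Xb {a : ℝ≥0∞} {c : ℝ} {b : ℕ} (h : a * Xb b ≤ ENNReal.ofReal c * Xb b) : a ≤ ENNReal.ofReal c :=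
  (ENNReal.mul_le_mul_iff_left (Xb_ne_zero b) (Xb_ne_top b)).1 h

/-- the tip class with a lower bound of the length -/
def P2E (η : ℝ) (D b J : ℕ) (y : ℝ) : Set (List Bool) :=
  {w | w ∈ NPR.SV (NPR.GS η D b) (b + J + 2) b ∧ y ≤ (w.length : ℝ)}

lemma W2E_P2E {η : ℝ} {D b J : ℕ} (hb : b ≠ 0) {A : List Bool} {y : ℝ} (hA : A ∈ W2E η D b J) (hy : y ≤ (A.length : ℝ)) :
    A ∈ P2E η D b J y ∩ GT b η := by
  obtain ⟨h1, h2, S, hS, R, T, hT, rfl⟩ := hA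
  have h3 := NPR.end_mem (VV := NPR.GS η D b) (K := b + J + 2) (R := R) hb hS hT (In_WL h1 h2)
  exact ⟨⟨h3.1, hy⟩, h3.2⟩

/-- **one step of the tip lemma in the class P2E** -/
lemma step2 {η : ℝ} (hη : 0 < η) : ∃ (C lam : ℝ) (j0 : ℕ), 1 ≤ C ∧ 1 < lam ∧
    ∀ (D b J j : ℕ) (y w : ℝ) (M0 M' : ℝ≥0∞), b ≠ 0 → 1 ≤ j → j + j0 ≤ b → 0 ≤ w →
      gf (StW η D b (b + J + 5)) ≤ M0 → gf {t | t ∈ StW η D b (b + J + 5) ∧ y / 2 ≤ (t.length : ℝ)} ≤ M' →
      gf {Z | Z ∈ BU ∧ hgt Z ≤ 2 ^ b ∧ y / 2 ≤ (Z.length : ℝ)} ≤ ENNReal.ofReal (w * Ub b) →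
      gf (P2E η D b J y ∩ GT b η) * Xb b ≤ ENNReal.ofReal (C * ((lam ^ j)⁻¹ + w)) * M0 + ENNReal.ofReal (C ^ j) * M' := by
  obtain ⟨Ce, hCe, hend⟩ := NPR.end_SV (η := η / 8) (by positivity)
  obtain ⟨C, lam, j0, hC, hlam, htip⟩ := NPR.tipxHJ η hη
  have hl0 : 0 < lam := by linarith
  refine ⟨C * (Ce + 1), lam, j0, by nlinarith, hlam, fun D b J j y w M0 M' hb hj hjb hw hM0 hM' hW => ?_⟩
  obtain ⟨b', rfl⟩ : ∃ b', b = b' + 1 := ⟨b - 1, by omega⟩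
  have k1 := hend (NPR.GS η D (b' + 1)) (b' + 1 + J + 2) b' M0 (by omega) hM0
  have k2 := htip (b' + 1) j (P2E η D (b' + 1) J y) {t | t ∈ StW η D (b' + 1) (b' + 1 + J + 2) ∧ y / 2 ≤ (t.length : ℝ)}
    (NPR.SV (NPR.GS η D (b' + 1)) (b' + 1 + J + 2) b') {Z : List Bool | y / 2 ≤ (Z.length : ℝ)} w M'
    (ENNReal.ofReal Ce * M0) hj hjb (fun w hw => hw.1.1.1) (fun w hw => hw.1.1.1)
    (fun A Z h1 h2 h3 => NPR.SV_pre h1.1 h2 h3) ?_ hw hW ?_ ?_
  · refine k2.trans (add_le_add ?_ ?_)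
    · rw [← mul_assoc, ← ENNReal.ofReal_mul (by positivity)]
      refine mul_le_mul_left (ENNReal.ofReal_le_ofReal ?_) _
      have h1 : 0 ≤ C * ((lam ^ j)⁻¹ + w) := by positivity
      nlinarith
    · refine mul_le_mul_left (ENNReal.ofReal_le_ofReal ?_) _
      exact pow_le_pow_left₀ (by linarith) (by nlinarith) _
  · intro A Z1 Z2 h1 h2 h3 h4 h5
    have h6 := NPR.SV_pre h1.1 (BU_app h2 h3) h4
    obtain ⟨h7, V, R, i, he, hV, -⟩ := h6
    refine ⟨⟨⟨?_, fun i hi dir => ?_⟩, V, hV, R ++ Z1, by rw [he, List.append_assoc]⟩, ?_⟩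
    · have := SA_take h1.1.1.1 (A ++ Z1).length
      rwa [← List.append_assoc, List.take_left'] at this
      rfl
    · have := h1.1.1.2 i (by rw [← List.append_assoc, List.length_append]; omega) dir
      rwa [← List.append_assoc, vx_append (by omega)] at this
    · have h8 : y ≤ ((A ++ (Z1 ++ Z2)).length : ℝ) := h1.2
      have h9 : ((Z1 ++ Z2).length : ℝ) < y / 2 := not_le.1 h5
      rw [List.length_append] at h8
      push_cast at h8
      have h10 : ((A ++ Z1).length : ℝ) = A.length + Z1.length := by rw [List.length_append]; push_cast; ring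
      have h11 : (0 : ℝ) ≤ Z1.length := Nat.cast_nonneg _
      rw [h10]
      linarith
  · refine (gf_mono ?_).trans hM'
    rintro t ⟨h1, L, ⟨⟨hL, V, hV, R, rfl⟩, hl⟩, x, hx, rfl⟩
    refine ⟨⟨EnsW.glue_WL (K := b' + 1 + J + 2) (R := 2 ^ (b' + 1)) (Nat.pow_le_pow_right (by norm_num) (by omega)) hL hx h1,
      V, hV, R ++ x, by rw [List.append_assoc]⟩, ?_⟩
    have h2 : ((V ++ R).length : ℝ) ≤ ((V ++ R ++ x).length : ℝ) := by
      rw [List.length_append (as := V ++ R)]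
      push_cast
      have : (0 : ℝ) ≤ x.length := Nat.cast_nonneg _
      linarith
    exact le_trans hl h2
  · rw [Nat.add_sub_cancel]
    exact k1

/-- **the plain mass** -/
lemma plain2 (hY : YMassJ) {η : ℝ} (hη : 0 < η) (D : ℕ) : ∃ C : ℝ, 1 ≤ C ∧ ∀ b J : ℕ, 1 ≤ b →
    gf (StW η D b (b + J + 5)) ≤ ENNReal.ofReal (C ^ (J + 1) * Ub b) * Xb b ∧
    gf (W2E η D b J) ≤ ENNReal.ofReal (C ^ (J + 1) * Ub b) := by
  obtain ⟨C0, hC0, h0⟩ := start_tail hY hη D 0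
  obtain ⟨Ce, hCe, hend⟩ := NPR.end_SV hη
  refine ⟨C0 * (Ce + 1), by nlinarith, fun b J hb => ?_⟩
  have hb0 : b ≠ 0 := by omega
  have hU : 0 < Ub b := Ub_pos b
  have h1 : gf (StW η D b (b + J + 5)) ≤ ENNReal.ofReal (C0 ^ (J + 1) * Ub b) * Xb b := by
    have h2 := h0 b J 0 hb le_rfl
    rw [pow_zero, ENNReal.ofReal_one, mul_one] at h2
    refine (gf_mono ?_).trans h2
    intro w hw
    refine ⟨hw, ?_⟩
    rw [zero_mul]
    exact Nat.cast_nonneg _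
  have e1 : (C0 * (Ce + 1)) ^ (J + 1) = C0 ^ (J + 1) * (Ce + 1) ^ (J + 1) := mul_pow _ _ _
  have e2 : Ce + 1 ≤ (Ce + 1) ^ (J + 1) := le_self_pow₀ (by linarith) (by omega)
  have e3 : 0 < C0 ^ (J + 1) := by positivity
  refine ⟨h1.trans (mul_le_mul_left (ENNReal.ofReal_le_ofReal ?_) _), ?_⟩
  · refine mul_le_mul_of_nonneg_right ?_ hU.le
    rw [e1]
    nlinarith
  · have h3 := hend (NPR.GS η D b) (b + J + 2) b _ (by omega) h1
    have h4 : gf (W2E η D b J) ≤ gf (NPR.SV (NPR.GS η D b) (b + J + 2) b ∩ GT b η) := by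
      refine gf_mono fun A hA => ?_
      have := W2E_P2E hb0 hA (y := 0) (Nat.cast_nonneg _)
      exact ⟨this.1.1, this.2⟩
    have h5 : gf (W2E η D b J) * Xb b ≤ ENNReal.ofReal (Ce * (C0 ^ (J + 1) * Ub b)) * Xb b := by
      refine (mul_le_mul_left h4 _).trans (h3.trans (le_of_eq ?_))
      rw [← mul_assoc, ← ENNReal.ofReal_mul hCe.le]
    refine (div_Xb h5).trans (ENNReal.ofReal_le_ofReal ?_)
    rw [e1, ← mul_assoc]
    refine mul_le_mul_of_nonneg_right ?_ hU.le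
    nlinarith

/-- **the tail of the lengths** -/
theorem two_tail (hY : YMassJ) {η : ℝ} (hη : 0 < η) (D q : ℕ) : ∃ C : ℝ, 1 ≤ C ∧ ∀ b J s : ℕ, 1 ≤ b →
    gf {A | A ∈ W2E η D b J ∧ 2 ^ s * ml (b + J) ≤ (A.length : ℝ)} ≤ ENNReal.ofReal (C ^ (J + 1) * Ub b / 2 ^ (q * s)) := by
  obtain ⟨CX, hCX, hX⟩ := NPR.Xb_growth
  obtain ⟨Ct, lam, j0, hCt, hlam, hstep⟩ := step2 hη
  obtain ⟨Ab, hAb, hbrd⟩ := brd_tail q
  obtain ⟨a, ha⟩ := pow_unbounded_of_one_lt ((2 : ℝ) ^ q) hlam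
  obtain ⟨c, hc⟩ := pow_unbounded_of_one_lt (Ct ^ a) (one_lt_two : (1 : ℝ) < 2)
  obtain ⟨c', hc'⟩ := pow_unbounded_of_one_lt (CX ^ a) (one_lt_two : (1 : ℝ) < 2)
  obtain ⟨C0, hC0, h0⟩ := plain2 hY hη D
  obtain ⟨Q, hQ⟩ : ∃ Q : ℕ, Q = q + c + c' := ⟨_, rfl⟩
  obtain ⟨C1, hC1, h1⟩ := start_tail hY hη D Q
  have hl0 : 0 < lam := by linarith
  have ha1 : 1 ≤ a := by
    by_contra hcon
    have : a = 0 := by omega
    subst this
    rw [pow_zero] at ha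
    have : (1 : ℝ) ≤ 2 ^ q := one_le_pow₀ (by norm_num)
    linarith
  obtain ⟨E1, hE1⟩ : ∃ E1 : ℝ, E1 = Ct * (1 + Ab * 2 ^ q) := ⟨_, rfl⟩
  obtain ⟨E2, hE2⟩ : ∃ E2 : ℝ, E2 = 2 ^ Q := ⟨_, rfl⟩
  obtain ⟨E3, hE3⟩ : ∃ E3 : ℝ, E3 = CX ^ j0 := ⟨_, rfl⟩
  have pE1 : 0 < E1 := by rw [hE1]; positivity
  have pE2 : 0 < E2 := by rw [hE2]; positivity
  have pE3 : 0 < E3 := by rw [hE3]; positivity
  have hbig : ∀ J : ℕ, E1 * C0 ^ (J + 1) + E2 * C1 ^ (J + 1) + E3 * C1 ^ (J + 1) + C0 ^ (J + 1) ≤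
      ((E1 + E2 + E3 + 1) * (C0 + C1)) ^ (J + 1) := by
    intro J
    have a1 : C0 ^ (J + 1) ≤ (C0 + C1) ^ (J + 1) := pow_le_pow_left₀ (by linarith) (by linarith) _
    have a2 : C1 ^ (J + 1) ≤ (C0 + C1) ^ (J + 1) := pow_le_pow_left₀ (by linarith) (by linarith) _
    have a3 : E1 + E2 + E3 + 1 ≤ (E1 + E2 + E3 + 1) ^ (J + 1) := le_self_pow₀ (by linarith) (by omega)
    have a4 : 0 < (C0 + C1) ^ (J + 1) := by positivity
    rw [mul_pow]
    calc E1 * C0 ^ (J + 1) + E2 * C1 ^ (J + 1) + E3 * C1 ^ (J + 1) + C0 ^ (J + 1) ≤ E1 * (C0 + C1) ^ (J + 1) +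
          E2 * (C0 + C1) ^ (J + 1) + E3 * (C0 + C1) ^ (J + 1) + (C0 + C1) ^ (J + 1) := by gcongr
      _ = (E1 + E2 + E3 + 1) * (C0 + C1) ^ (J + 1) := by ring
      _ ≤ _ := mul_le_mul_of_nonneg_right a3 a4.le
  refine ⟨(E1 + E2 + E3 + 1) * (C0 + C1), by nlinarith, fun b J s hb => ?_⟩
  have hb0 : b ≠ 0 := by omega
  have hU : 0 < Ub b := Ub_pos b
  have hB := hbig J
  obtain ⟨G, hG⟩ : ∃ G : ℝ, G = ((E1 + E2 + E3 + 1) * (C0 + C1)) ^ (J + 1) := ⟨_, rfl⟩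
  obtain ⟨x0, hx0⟩ : ∃ x0 : ℝ, x0 = C0 ^ (J + 1) := ⟨_, rfl⟩
  obtain ⟨x1, hx1⟩ : ∃ x1 : ℝ, x1 = C1 ^ (J + 1) := ⟨_, rfl⟩
  rw [← hG, ← hx0, ← hx1] at hB
  rw [← hG]
  have p0 : 0 < x0 := by rw [hx0]; positivity
  have p1 : 0 < x1 := by rw [hx1]; positivity
  have pt : (0 : ℝ) < 2 ^ (q * s) := by positivity
  obtain ⟨hs0, hw0⟩ := h0 b J hb
  rw [← hx0] at hs0 hw0
  -- the goal times the tip
  have hfin : ∀ r : ℝ, r ≤ E1 * x0 + E2 * x1 + E3 * x1 + x0 → 0 ≤ r →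
      ENNReal.ofReal (r * Ub b / 2 ^ (q * s)) ≤ ENNReal.ofReal (G * Ub b / 2 ^ (q * s)) := by
    intro r hr _
    refine ENNReal.ofReal_le_ofReal ?_
    have : r ≤ G := hr.trans hB
    gcongr
  have q1 : 0 < E1 * x0 := by positivity
  have q2 : 0 < E2 * x1 := by positivity
  have q3 : 0 < E3 * x1 := by positivity
  rcases Nat.eq_zero_or_pos s with hs | hs
  · subst hs
    refine ((gf_mono fun A hA => hA.1).trans hw0).trans ?_
    have := hfin x0 (by linarith) p0.le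
    rw [mul_zero, pow_zero, div_one] at this ⊢
    rwa [div_one] at this
  rcases Nat.lt_or_ge b (a * s + j0) with hbj | hbj
  · -- no room
    have h2 := h1 b J (2 ^ s) hb (by positivity)
    rw [← hx1] at h2
    have h3 := div_of_mul (by positivity) (by positivity) h2
    have h4 : gf {A | A ∈ W2E η D b J ∧ 2 ^ s * ml (b + J) ≤ (A.length : ℝ)} ≤
        gf {w | w ∈ StW η D b (b + J + 5) ∧ 2 ^ s * ml (b + J) ≤ (w.length : ℝ)} := by
      refine gf_mono ?_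
      rintro A ⟨⟨a1, a2, S, hS, R, T, hT, rfl⟩, a3⟩
      have a4 := In_WL a1 a2
      exact ⟨⟨⟨a1, fun i hi dir => (a4.2 i hi dir).trans (pow_le_pow_right₀ (by norm_num) (by omega))⟩, S, hS, R ++ T, rfl⟩, a3⟩
    have h5 : Xb b ≤ ENNReal.ofReal (E3 * 2 ^ (c' * s)) := by
      refine (hX b).trans (ENNReal.ofReal_le_ofReal ?_)
      calc CX ^ (b + 1) ≤ CX ^ (j0 + a * s) := pow_le_pow_right₀ hCX (by omega)
        _ = E3 * (CX ^ a) ^ s := by rw [pow_add, pow_mul, hE3]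
        _ ≤ E3 * (2 ^ c') ^ s := mul_le_mul_of_nonneg_left (pow_le_pow_left₀ (by positivity) hc'.le s) pE3.le
        _ = _ := by rw [← pow_mul]
    calc gf {A | A ∈ W2E η D b J ∧ 2 ^ s * ml (b + J) ≤ (A.length : ℝ)}
        ≤ ENNReal.ofReal (x1 * Ub b / (2 ^ s) ^ Q) * ENNReal.ofReal (E3 * 2 ^ (c' * s)) :=
          h4.trans (h3.trans (mul_le_mul_right h5 _))
      _ = ENNReal.ofReal (x1 * Ub b / (2 ^ s) ^ Q * (E3 * 2 ^ (c' * s))) := by
          rw [← ENNReal.ofReal_mul (by positivity)]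
      _ ≤ ENNReal.ofReal (E3 * x1 * Ub b / 2 ^ (q * s)) := by
          refine ENNReal.ofReal_le_ofReal ?_
          have e1 : ((2 : ℝ) ^ s) ^ Q = 2 ^ (q * s) * 2 ^ (c * s) * 2 ^ (c' * s) := by
            rw [← pow_mul, ← pow_add, ← pow_add, hQ]
            congr 1
            ring
          have e2 : (0 : ℝ) < 2 ^ (c' * s) := by positivity
          have e3 : (1 : ℝ) ≤ 2 ^ (c * s) := one_le_pow₀ (by norm_num)
          have e4 : x1 * Ub b / (2 ^ s) ^ Q * (E3 * 2 ^ (c' * s)) = E3 * x1 * Ub b / (2 ^ (q * s) * 2 ^ (c * s)) := by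
            rw [e1]
            field_simp
          rw [e4]
          refine div_le_div_of_nonneg_left (by positivity) pt ?_
          nlinarith
      _ ≤ _ := hfin _ (by linarith) q3.le
  · -- the tip lemma
    have hj1 : 1 ≤ a * s := Nat.mul_pos ha1 hs
    have h2 := h1 b J (2 ^ s / 2) hb (by positivity)
    rw [← hx1] at h2
    have h3 := div_of_mul (by positivity) (by positivity) h2
    have h4 := hstep D b J (a * s) (2 ^ s * ml (b + J)) (Ab * 2 ^ q / 2 ^ (q * s)) _ _ hb0 hj1 hbj (by positivity) hs0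
      (by
        refine le_trans (gf_mono ?_) h3
        rintro t ⟨a1, a2⟩
        refine ⟨a1, ?_⟩
        linarith) (by
        refine le_trans (gf_mono ?_) ((hbrd b (2 ^ s / 2) (by positivity)).trans (le_of_eq ?_))
        · rintro Z ⟨a1, a2, a3⟩
          refine ⟨a1, a2, ?_⟩
          have a4 : ml b ≤ ml (b + J) := ml_le (by omega)
          have a5 : (0 : ℝ) < 2 ^ s := by positivity
          nlinarith
        · rw [div_pow, ← pow_mul, mul_comm s q]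
          congr 2
          field_simp)
    have h5 : gf {A | A ∈ W2E η D b J ∧ 2 ^ s * ml (b + J) ≤ (A.length : ℝ)} ≤
        gf (P2E η D b J (2 ^ s * ml (b + J)) ∩ GT b η) := gf_mono fun A hA => W2E_P2E hb0 hA.1 hA.2
    have h6 : Ct * ((lam ^ (a * s))⁻¹ + Ab * 2 ^ q / 2 ^ (q * s)) ≤ E1 / 2 ^ (q * s) := by
      have e1 : (2 : ℝ) ^ (q * s) ≤ lam ^ (a * s) := by
        rw [pow_mul, pow_mul]
        exact pow_le_pow_left₀ (by positivity) ha.le s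
      have e2 : (lam ^ (a * s))⁻¹ ≤ (2 ^ (q * s))⁻¹ := inv_anti₀ pt e1
      have e3 : E1 / 2 ^ (q * s) = Ct * ((2 ^ (q * s))⁻¹ + Ab * 2 ^ q / 2 ^ (q * s)) := by
        rw [hE1]
        field_simp
      rw [e3]
      exact mul_le_mul_of_nonneg_left (by linarith) (by linarith)
    have h7 : Ct ^ (a * s) * (x1 * Ub b / (2 ^ s / 2) ^ Q) ≤ E2 * x1 * Ub b / 2 ^ (q * s) := by
      have e1 : Ct ^ (a * s) ≤ 2 ^ (c * s) := by
        rw [pow_mul, pow_mul]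
        exact pow_le_pow_left₀ (by positivity) hc.le s
      have e2 : ((2 : ℝ) ^ s / 2) ^ Q = 2 ^ (q * s) * 2 ^ (c * s) * 2 ^ (c' * s) / E2 := by
        rw [div_pow, ← pow_mul, hE2, ← pow_add, ← pow_add]
        congr 2
        rw [hQ]
        ring
      have e3 : (1 : ℝ) ≤ 2 ^ (c' * s) := one_le_pow₀ (by norm_num)
      have e4 : (0 : ℝ) < 2 ^ (c * s) := by positivity
      rw [e2]
      calc Ct ^ (a * s) * (x1 * Ub b / (2 ^ (q * s) * 2 ^ (c * s) * 2 ^ (c' * s) / E2)) ≤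
            2 ^ (c * s) * (x1 * Ub b / (2 ^ (q * s) * 2 ^ (c * s) * 2 ^ (c' * s) / E2)) := by gcongr
        _ = E2 * x1 * Ub b / (2 ^ (q * s) * 2 ^ (c' * s)) := by field_simp
        _ ≤ _ := by
          refine div_le_div_of_nonneg_left (by positivity) pt ?_
          nlinarith
    have h8 : gf {A | A ∈ W2E η D b J ∧ 2 ^ s * ml (b + J) ≤ (A.length : ℝ)} * Xb b ≤
        ENNReal.ofReal ((E1 * x0 + E2 * x1) * Ub b / 2 ^ (q * s)) * Xb b := by
      refine (mul_le_mul_left h5 _).trans (h4.trans ?_)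
      rw [← mul_assoc, ← mul_assoc, ← ENNReal.ofReal_mul (by positivity), ← ENNReal.ofReal_mul (by positivity), ← add_mul,
        ← ENNReal.ofReal_add (by positivity) (by positivity)]
      refine mul_le_mul_left (ENNReal.ofReal_le_ofReal ?_) _
      have e1 : (E1 * x0 + E2 * x1) * Ub b / 2 ^ (q * s) = E1 / 2 ^ (q * s) * (x0 * Ub b) + E2 * x1 * Ub b / 2 ^ (q * s) := by
        field_simp
      rw [e1]
      have e2 : 0 < x0 * Ub b := by positivity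
      exact add_le_add (mul_le_mul_of_nonneg_right h6 e2.le) h7
    exact (div_Xb h8).trans (hfin _ (by linarith) (by positivity))

/-- **row PMJ, from row B3'** -/
theorem pmj_of (hY : YMassJ) : PMJ := by
  intro η D q hη
  obtain ⟨C0, hC0, h0⟩ := plain2 hY hη D
  obtain ⟨C1, hC1, h1⟩ := two_tail hY hη D (q + 1)
  obtain ⟨E, hE⟩ : ∃ E : ℝ, E = 2 ^ q + 2 * 4 ^ q := ⟨_, rfl⟩
  have hE1 : 1 ≤ E := by
    have a1 : (1 : ℝ) ≤ 2 ^ q := one_le_pow₀ (by norm_num)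
    have a2 : (0 : ℝ) < 4 ^ q := by positivity
    rw [hE]
    linarith
  refine ⟨(C0 + C1) * E, by nlinarith, fun b J hb => ?_⟩
  have hU : 0 < Ub b := Ub_pos b
  have a0 : C0 ^ (J + 1) ≤ (C0 + C1) ^ (J + 1) := pow_le_pow_left₀ (by linarith) (by linarith) _
  have a1 : C1 ^ (J + 1) ≤ (C0 + C1) ^ (J + 1) := pow_le_pow_left₀ (by linarith) (by linarith) _
  have h2 := mom_tail (W2E η D b J) (μ := ml (b + J)) (C := (C0 + C1) ^ (J + 1) * Ub b) (ml_pos _) (by positivity) q 1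
    (by
      rw [mul_one]
      exact (h0 b J hb).2.trans (ENNReal.ofReal_le_ofReal (mul_le_mul_of_nonneg_right a0 hU.le)))
    (fun s => by
      rw [mul_one]
      refine (h1 b J s hb).trans (ENNReal.ofReal_le_ofReal ?_)
      gcongr)
  refine h2.trans ?_
  rw [mul_one, ← hE]
  refine ENNReal.ofReal_le_ofReal ?_
  have a3 : E ≤ E ^ (J + 1) := le_self_pow₀ hE1 (by omega)
  have a4 : 0 < (C0 + C1) ^ (J + 1) := by positivity
  rw [mul_pow]
  calc (C0 + C1) ^ (J + 1) * Ub b * E = (C0 + C1) ^ (J + 1) * E * Ub b := by ring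
    _ ≤ _ := mul_le_mul_of_nonneg_right (mul_le_mul_of_nonneg_left a3 a4.le) hU.le

end ARM

end HexObs
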