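import Pool.Agent.ARM.PMVa
import Pool.Agent.ARM.PMJ
import Pool.Agent.ARM.VisS

/-!
# ARM2, row PMV (helper15): the mean number of the near returns in words with two good ends

* `mk l i W` : the vertices r of W, far from the start of W, such that W is at distance at most 2 ^ (l + 1) of W_r at some time
  before r and at distance more than 2 ^ (i - 1) of W_r at a time between;
* **`pmv_of : PMJ → PMV`**.
-/

set_option autoImplicit false

namespace HexObs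

namespace ARM

open Finset TS SDN NTW NTA HexObs.SIM TIP TIW NPR

open scoped ENNReal

/-- the marked vertices: a near return after a far excursion -/
def mk (l i : ℕ) (W : List Bool) : Set ℕ :=
  {r | r ≤ W.length ∧ 2 ^ i < 8 * hn (vx oo up W 0 - vx oo up W r) ∧ ∃ a a', a < a' ∧ a' < r ∧
    hn (vx oo up W a - vx oo up W r) ≤ 2 ^ (l + 1) ∧ 2 ^ i < 2 * hn (vx oo up W a' - vx oo up W r)}

/-- **row PMV** -/
def PMV : Prop := ∀ (θ η : ℝ) (D c : ℕ), 0 < θ → 0 < η → ∃ (B : ℝ) (m0 b0 : ℕ), 1 ≤ B ∧ ∀ b l i m : ℕ,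
  i = b + m → m0 ≤ m → b0 ≤ b → b0 ≤ l → l ≤ i →
  ∑' W : W2E η D b (m + c), wE (W : List Bool) * ((mk l i (W : List Bool)).ncard : ℝ≥0∞) ≤
    ENNReal.ofReal (B ^ m * (2 : ℝ) ^ ((θ - 2 / 3) * ((i : ℝ) - l)) * ml i * Ub b)

/-! ### 1. Geometry -/

/-- long words without a rich bridge -/
def QN (κ : ℝ) (Cz b1 n : ℕ) : Set (List Bool) := {Q | Q ∈ Nz κ Cz b1 ∧ ¬ In (n * 2 ^ b1) Q}

lemma GS_In {η : ℝ} {D b : ℕ} (hb : b ≠ 0) {S : List Bool} (hS : S ∈ NPR.GS η D b) : In (D * 2 ^ b) S := by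
  have hS' : if b = 0 then S = [] else ∃ N Z3, S = N ++ Z3 ∧ N ∈ BU ∧ Z3 ∈ BU ∧ hgt N ≤ 2 ^ b ∧ 2 ^ (b + 1) ≤ hgt Z3 ∧
    η * Ub b ≤ (nc N : ℝ) ∧ In (D * 2 ^ b) S := hS
  rw [if_neg hb] at hS'
  obtain ⟨N, Z3, -, -, -, -, -, -, h⟩ := hS'
  exact h

lemma GE_In {η : ℝ} {D b : ℕ} (hb : b ≠ 0) {T : List Bool} (hT : T ∈ NPR.GE η D b) : In (D * 2 ^ b) T := by
  have hT' : if b = 0 then T = [] else ∃ Z1 M, T = Z1 ++ M ∧ Z1 ∈ BU ∧ M ∈ BU ∧ hgt M ≤ 2 ^ b ∧ 2 ^ (b + 1) ≤ hgt Z1 ∧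
    η * Ub b ≤ (nc M : ℝ) ∧ In (D * 2 ^ b) T := hT
  rw [if_neg hb] at hT'
  obtain ⟨Z1, M, -, -, -, -, -, -, h⟩ := hT'
  exact h

/-- displacements of a factor -/
lemma hn_facS (A B : List Bool) (j : ℕ) : hn (vx oo up (A ++ B) (A.length + j) - vx oo up (A ++ B) A.length) =
    hn (vx oo up B j) := by
  have hr : nrm (rotTo up (dx up A A.length)) = 1 := nrm_rotTo upd (dx_mem upd A A.length)
  have h0 := vx_general A B j
  have h1 : vx oo up (A ++ B) A.length = vx oo up A A.length := vx_append (by omega)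
  rw [h0, h1, add_sub_cancel_left, hn_mulE hr]

/-- **the geometry** -/
lemma mk_split {η κ : ℝ} {D Cz b b1 l i m mm c k : ℕ} (hi : i = b + m) (hb1 : i = b1 + mm) (hmm : 4 ≤ mm) (hb : b ≠ 0)
    (hD : 96 * D ≤ 2 ^ m) (hl : l + 5 ≤ i) {W : List Bool} (hW : W ∈ W2E η D b (m + c)) (hk : k ≤ W.length)
    (hr : W.length - k ∈ mk l i W) : W ∈ PCQ η D (b + (m + c) + 2) b b (QN κ Cz b1 (2 ^ (mm - 4))) ∪
      GK η D b κ Cz b1 (b + (m + c) + 2) (2 ^ (l + 2)) k := by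
  obtain ⟨hsa, hin, S, hS, R, T, hT, rfl⟩ := hW
  have hWL := In_WL hsa hin
  obtain ⟨hr1, hr0, a, a', haa, har, hda, hda'⟩ := hr
  obtain ⟨W, hWe⟩ : ∃ W, W = S ++ (R ++ T) := ⟨_, rfl⟩
  rw [← hWe] at hWL hr1 hr0 har hda hda' hk ⊢
  have hlW : W.length = S.length + (R.length + T.length) := by
    rw [hWe]
    simp only [List.length_append]
  -- numbers
  have k4 : (96 : ℤ) * D * 2 ^ b ≤ 2 ^ i := by
    rw [hi, pow_add, mul_comm ((2 : ℤ) ^ b)]
    refine mul_le_mul_of_nonneg_right ?_ (by positivity)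
    exact_mod_cast hD
  have k5 : (2 : ℤ) ^ (l + 1) * 16 ≤ 2 ^ i := by
    rw [show (16 : ℤ) = 2 ^ 4 by norm_num, ← pow_add]
    exact pow_le_pow_right₀ (by norm_num) (by omega)
  have k6 : (0 : ℤ) < 2 ^ i := by positivity
  have k7 : (2 : ℤ) ^ (mm - 4) * 2 ^ b1 * 16 = 2 ^ i := by
    rw [show (16 : ℤ) = 2 ^ 4 by norm_num, ← pow_add, ← pow_add]
    congr 1
    omega
  obtain ⟨r, hre⟩ : ∃ r, r = W.length - k := ⟨_, rfl⟩
  rw [← hre] at hr1 hr0 har hda hda'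
  have hv0 : vx oo up W 0 = 0 := oo_zero
  -- a is behind the start
  have haS : S.length < a := by
    by_contra hcon
    have haS : a ≤ S.length := by omega
    have j1 := hn_le_Bl (GS_In hb hS a haS)
    have j2 : vx oo up W a = vx oo up S a := by
      rw [hWe]
      exact vx_append (by omega)
    have j3 := hn_tri (vx oo up W 0) (vx oo up W a) (vx oo up W r)
    rw [hv0, j2] at j3
    rw [hv0] at hr0
    rw [j2] at hda
    simp only [zero_sub, hn_neg] at j3 hr0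
    push_cast at j1
    linarith
  -- a' is before the end
  have haT : a' ≤ S.length + R.length := by
    by_contra hcon
    obtain ⟨x, hx⟩ : ∃ x, a' = (S ++ R).length + x := ⟨a' - (S ++ R).length, by rw [List.length_append]; omega⟩
    obtain ⟨y, hy⟩ : ∃ y, r = (S ++ R).length + y := ⟨r - (S ++ R).length, by rw [List.length_append]; omega⟩
    have e : W = (S ++ R) ++ T := by rw [hWe, List.append_assoc]
    have hlx : x ≤ T.length := by rw [List.length_append] at hx; omega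
    have hly : y ≤ T.length := by rw [List.length_append] at hy; omega
    have j1 := hn_facS (S ++ R) T x
    have j2 := hn_facS (S ++ R) T y
    rw [← e, ← hx] at j1
    rw [← e, ← hy] at j2
    have j3 := hn_le_Bl (GE_In hb hT x hlx)
    have j4 := hn_le_Bl (GE_In hb hT y hly)
    have j5 := hn_tri (vx oo up W a') (vx oo up W (S ++ R).length) (vx oo up W r)
    rw [hn_sub_comm (vx oo up W (S ++ R).length)] at j5
    rw [j1, j2] at j5
    push_cast at j3 j4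
    linarith
  -- the middle part
  obtain ⟨R1, Q, R2, hR, hl1, hlQ⟩ : ∃ R1 Q R2 : List Bool, R = R1 ++ (Q ++ R2) ∧ R1.length = a - S.length ∧
      Q.length = a' - a := by
    refine ⟨R.take (a - S.length), (R.drop (a - S.length)).take (a' - a), (R.drop (a - S.length)).drop (a' - a), ?_, ?_, ?_⟩
    · rw [List.take_append_drop, List.take_append_drop]
    · rw [List.length_take]
      omega
    · rw [List.length_take, List.length_drop]
      omega
  have hlR : R.length = R1.length + (Q.length + R2.length) := by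
    rw [hR]
    simp only [List.length_append]
  have hQd : hn (vx oo up Q Q.length) = hn (vx oo up W a' - vx oo up W a) := by
    have j1 := hn_facS (S ++ R1) (Q ++ (R2 ++ T)) Q.length
    have e : (S ++ R1) ++ (Q ++ (R2 ++ T)) = W := by
      rw [hWe, hR]
      simp only [List.append_assoc]
    have e2 : (S ++ R1).length = a := by
      rw [List.length_append, hl1]
      omega
    rw [e, e2, hlQ, show a + (a' - a) = a' by omega] at j1
    rw [j1, ← hlQ]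
    rw [vx_append (by omega)]
  by_cases hz : Q ∈ Nz κ Cz b1
  · left
    refine ⟨hWL, S, hS, R1, Q, ⟨hz, fun hI => ?_⟩, R2, T, hT, ?_⟩
    · have h1 := hn_le_Bl (hI Q.length le_rfl)
      rw [hQd] at h1
      push_cast at h1
      have h2 := hn_tri (vx oo up W a') (vx oo up W a) (vx oo up W r)
      linarith
    · rw [hWe, hR]
      simp only [List.append_assoc]
  · right
    obtain ⟨X, Z, Y, he, hY, hZ⟩ : ∃ X Z Y, Q = X ++ (Z ++ Y) ∧ Y ≠ [] ∧ Z ∈ Zc κ Cz b1 := by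
      by_contra hcon
      exact hz fun X Z Y h1 h2 h3 => hcon ⟨X, Z, Y, h1, h2, h3⟩
    have hlQ2 : Q.length = X.length + (Z.length + Y.length) := by
      rw [he]
      simp only [List.length_append]
    refine ⟨hWL, S, R1 ++ X, Z, Y ++ R2, T, ?_, hS, hT, hZ, ?_, a, haS, ?_, ?_⟩
    · rw [hWe, hR, he]
      simp only [List.append_assoc]
    · simp only [List.length_append]
      omega
    · simp only [List.length_append]
      omega
    · rw [← hre]
      have h1 : (2 : ℤ) ^ (l + 1) < 2 ^ (l + 2) := pow_lt_pow_right₀ (by norm_num) (by omega)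
      push_cast
      linarith

/-! ### 2. Long words without a rich bridge -/

lemma beats1 {A P c : ℝ} (hA : 1 ≤ A) (hP : 0 < P) (hc : 0 < c) : ∃ mE : ℕ, ∀ mm : ℕ, mE ≤ mm →
    P * A ^ mm * (2 : ℝ) ^ (-(c * 2 ^ mm)) ≤ 1 := by
  obtain ⟨M, hM, h⟩ := pow_beats (A := 2 * A) (ρ := 2) (c := c) (by linarith) (by norm_num) hc
  obtain ⟨mE, hmE⟩ := pow_unbounded_of_one_lt (P * M) (one_lt_two : (1 : ℝ) < 2)
  refine ⟨mE, fun mm hm => ?_⟩
  have h1 := h mm
  have h2 : (2 : ℝ) ^ mE ≤ 2 ^ mm := pow_le_pow_right₀ (by norm_num) hm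
  have h3 : (0 : ℝ) < 2 ^ mm := by positivity
  rw [mul_pow, mul_assoc] at h1
  have h4 : 2 ^ mm * (P * A ^ mm * (2 : ℝ) ^ (-(c * 2 ^ mm))) ≤ 2 ^ mm * 1 := by
    calc 2 ^ mm * (P * A ^ mm * (2 : ℝ) ^ (-(c * 2 ^ mm))) = P * (2 ^ mm * (A ^ mm * (2 : ℝ) ^ (-(c * 2 ^ mm)))) := by ring
      _ ≤ P * M := mul_le_mul_of_nonneg_left h1 hP.le
      _ ≤ 2 ^ mm * 1 := by linarith
  exact le_of_mul_le_mul_left h4 h3

/-- **words with a long factor without a rich bridge** -/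
lemma exc_mass {κ : ℝ} {Cz : ℕ} (hR : RegZ κ Cz) {η : ℝ} (hη : 0 < η) (D c : ℕ) {A : ℝ} (hA : 1 ≤ A) :
    ∃ (C : ℝ) (mE bE : ℕ), 0 < C ∧ ∀ b m mm b1 : ℕ, b ≠ 0 → bE ≤ b1 → mE ≤ mm → b + m = b1 + mm → m ≤ mm →
      gf (PCQ η D (b + (m + c) + 2) b b (QN κ Cz b1 (2 ^ (mm - 4)))) ≤ ENNReal.ofReal (C * (A ^ mm)⁻¹ * Ub b) := by
  obtain ⟨C', cR, bR, JR, nR, hC', hcR, hRZ⟩ := hR
  obtain ⟨C0, cT, hC0, hcT, hT⟩ := twoE η D hη
  obtain ⟨E, hE, hF⟩ := FK_addZ
  have hE0 : (0 : ℝ) < E := by linarith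
  have hAE : 1 ≤ A * E := one_le_mul_of_one_le_of_one_le hA hE
  obtain ⟨A', hA'⟩ : ∃ A' : ℝ, A' = (A * E) ^ (1 / cT) := ⟨_, rfl⟩
  have hA1 : 1 ≤ A' := by
    rw [hA']
    exact Real.one_le_rpow hAE (by positivity)
  have hA0 : 0 < A' := by linarith
  have hA'T : A' ^ cT = A * E := by
    rw [hA', ← Real.rpow_mul (by linarith), one_div_mul_cancel hcT.ne', Real.rpow_one]
  obtain ⟨mE, hmE⟩ := beats1 (A := C' * A') (P := C' ^ (c + 14) * E ^ 12) (c := cR / 16)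
    (one_le_mul_of_one_le_of_one_le hC' hA1) (by positivity) (by positivity)
  refine ⟨C0 * E ^ (c + 2), mE + 4 + JR + nR, bR, by positivity, fun b m mm b1 hb hb1 hmm hbm hm => ?_⟩
  obtain ⟨K, hK⟩ : ∃ K, K = b + (m + c) + 2 := ⟨_, rfl⟩
  rw [← hK]
  have hK12 : K + 12 = b1 + (mm + c + 14) := by omega
  have hn : nR ≤ 2 ^ (mm - 4) := by
    have h1 : nR < 2 ^ nR := Nat.lt_two_pow_self
    have h2 : (2 : ℕ) ^ nR ≤ 2 ^ (mm - 4) := Nat.pow_le_pow_right (by norm_num) (by omega)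
    omega
  obtain ⟨δ, hδ⟩ : ∃ δ : ℝ, δ = (A' ^ mm)⁻¹ := ⟨_, rfl⟩
  have hδ0 : 0 < δ := by rw [hδ]; positivity
  have hδ1 : δ ≤ 1 := by
    rw [hδ]
    exact inv_le_one_of_one_le₀ (one_le_pow₀ hA1)
  have h1 : gf {t | t ∈ WL (K + 12) ∧ t ∈ Fac (QN κ Cz b1 (2 ^ (mm - 4)))} ≤ ENNReal.ofReal δ * FK K := by
    have r1 := hRZ b1 (mm + c + 14) (2 ^ (mm - 4)) hb1 (by omega) hn
    have r2 : gf {t | t ∈ WL (K + 12) ∧ t ∈ Fac (QN κ Cz b1 (2 ^ (mm - 4)))} ≤
        gf {t | t ∈ WL (b1 + (mm + c + 14)) ∧ t ∈ Lz κ Cz b1 (2 ^ (mm - 4))} := by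
      refine gf_mono ?_
      rintro t ⟨ht, X, Q, Y, he, hQ1, hQ2⟩
      rw [hK12] at ht
      exact ⟨ht, X, Q, Y, he, hQ1, hQ2⟩
    refine r2.trans (r1.trans ?_)
    rw [ENNReal.ofReal_mul (by positivity), mul_assoc]
    show _ * FK (b1 + (mm + c + 14)) ≤ _
    rw [← hK12]
    refine (mul_le_mul_right (hF K 12) _).trans ?_
    rw [← mul_assoc, ← ENNReal.ofReal_mul (by positivity)]
    refine mul_le_mul_left (ENNReal.ofReal_le_ofReal ?_) _
    have e1 : cR * ((2 ^ (mm - 4) : ℕ) : ℝ) = cR / 16 * 2 ^ mm := by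
      have : (2 : ℝ) ^ mm = 2 ^ (mm - 4) * 16 := by
        rw [show (16 : ℝ) = 2 ^ 4 by norm_num, ← pow_add]
        congr 1
        omega
      rw [this]
      push_cast
      ring
    rw [e1, hδ, le_inv_comm₀ (by positivity) (by positivity), le_inv_comm₀ (by positivity) (by positivity)]
    have h2 := hmE mm (by omega)
    rw [← one_div, le_div_iff₀ (by positivity)]
    calc C' ^ (mm + c + 14) * (2 : ℝ) ^ (-(cR / 16 * 2 ^ mm)) * E ^ 12 * A' ^ mm
        = C' ^ (c + 14) * E ^ 12 * (C' * A') ^ mm * (2 : ℝ) ^ (-(cR / 16 * 2 ^ mm)) := by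
          rw [mul_pow, show mm + c + 14 = mm + (c + 14) by omega, pow_add]
          ring
      _ ≤ 1 := h2
  have h2 := hT K _ δ hδ0 hδ1 h1 b b (by omega) (by omega)
  have e3 : xw b = Xb b := by
    unfold xw
    rw [if_neg hb]
  rw [e3] at h2
  have hδc : δ ^ cT = ((A * E) ^ mm)⁻¹ := by
    rw [hδ, Real.inv_rpow (by positivity), ← Real.rpow_natCast A' mm, ← Real.rpow_mul hA0.le, mul_comm (mm : ℝ),
      Real.rpow_mul hA0.le, hA'T, Real.rpow_natCast]
  have hX0 : Xb b * Xb b ≠ 0 := mul_ne_zero (Xb_ne_zero b) (Xb_ne_zero b)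
  have hXt : Xb b * Xb b ≠ ⊤ := ENNReal.mul_ne_top (Xb_ne_top b) (Xb_ne_top b)
  refine (ENNReal.mul_le_mul_iff_left hX0 hXt).1 (h2.trans ?_)
  have h3 : FK K ≤ ENNReal.ofReal (E ^ (m + c + 2)) * FK b := by
    rw [hK, show b + (m + c) + 2 = b + (m + c + 2) by omega]
    exact hF b (m + c + 2)
  have hUb := Ub_pos b
  calc ENNReal.ofReal (C0 * δ ^ cT) * FK K ≤ ENNReal.ofReal (C0 * δ ^ cT) * (ENNReal.ofReal (E ^ (m + c + 2)) * FK b) :=
        mul_le_mul_right h3 _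
    _ = ENNReal.ofReal (C0 * δ ^ cT * E ^ (m + c + 2) * Ub b) * (Xb b * Xb b) := by
        unfold FK
        rw [ENNReal.ofReal_mul (p := C0 * δ ^ cT * E ^ (m + c + 2)) (by positivity),
          ENNReal.ofReal_mul (p := C0 * δ ^ cT) (by positivity)]
        ring
    _ ≤ _ := by
        refine mul_le_mul_left (ENNReal.ofReal_le_ofReal ?_) _
        refine mul_le_mul_of_nonneg_right ?_ hUb.le
        rw [hδc, show m + c + 2 = m + (c + 2) by omega, pow_add]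
        have h4 : E ^ m ≤ E ^ mm := pow_le_pow_right₀ hE hm
        calc C0 * ((A * E) ^ mm)⁻¹ * (E ^ m * E ^ (c + 2)) ≤ C0 * ((A * E) ^ mm)⁻¹ * (E ^ mm * E ^ (c + 2)) := by gcongr
          _ = C0 * E ^ (c + 2) * (A ^ mm)⁻¹ := by
              rw [mul_pow]
              have : (0 : ℝ) < E ^ mm := by positivity
              have : (0 : ℝ) < A ^ mm := by positivity
              field_simp

/-! ### 3. The near returns behind a rich bridge -/

/-- **the mass of the near returns, the numbers** -/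
lemma gk_num {κ : ℝ} (hκ : 0 < κ) (hV : VisS) {η : ℝ} (hη : 0 < η) (D Cz c : ℕ) {θ : ℝ} (hθ : 0 < θ) {E : ℝ} (hE : 1 ≤ E)
    (hF : ∀ L j : ℕ, FK (L + j) ≤ ENNReal.ofReal (E ^ j) * FK L) {q : ℕ} (hq2 : 2 ≤ q)
    (hq : 16 * E ≤ (2 : ℝ) ^ ((q : ℝ) * (θ / 4))) {m1 : ℕ} (hm1 : 1 ≤ m1) :
    ∃ (C : ℝ) (bG : ℕ), 0 < C ∧ ∀ b l s m mm b1 k : ℕ, b ≠ 0 → bG ≤ l → l + s = b + m → l + s = b1 + mm → mm = s / q + m1 →
      m ≤ mm → gf (GK η D b κ Cz b1 (b + (m + c) + 2) (2 ^ (l + 2)) k) ≤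
        ENNReal.ofReal (C * E ^ m * (2 : ℝ) ^ ((θ / 2 - 2 / 3) * (s : ℝ)) * Ub b) := by
  obtain ⟨C1, hC1, hG⟩ := gk_mass hη hκ D
  obtain ⟨CV, bV, hCV, hS⟩ := hV (θ / 4) (by positivity)
  obtain ⟨cH, ρH, hcH, hρH, hH⟩ := Hm_dec hκ
  obtain ⟨BU0, hBU0⟩ := Ub_big
  have hE0 : (0 : ℝ) < E := by linarith
  obtain ⟨M2, hM2, hb2⟩ := pow_beats (A := E * 2 ^ q) (ρ := ρH) (c := cH) (one_le_mul_of_one_le_of_one_le hE
    (one_le_pow₀ (by norm_num))) hρH hcH
  obtain ⟨nU, hnU⟩ := pow_unbounded_of_one_lt (16 / κ) (by norm_num : (1 : ℝ) < 8)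
  obtain ⟨A2, hA2⟩ : ∃ A2 : ℝ, A2 = C1 * (E ^ (c + 8) * E ^ (c + 8) * (2 * M2)) := ⟨_, rfl⟩
  obtain ⟨A3, hA3⟩ : ∃ A3 : ℝ, A3 = C1 * (E ^ (c + 8) * (CV * (2 : ℝ) ^ ((θ / 4 + 4 / 3) * ((c : ℝ) + 9)) * 16 *
    E ^ (c + 11)) * (16 * E) ^ m1) := ⟨_, rfl⟩
  have hA2' : 0 < A2 := by rw [hA2]; positivity
  have hA3' : 0 < A3 := by rw [hA3]; positivity
  refine ⟨A2 + A3, 2 * m1 + bV + BU0 * nU, by positivity, fun b l x m mm b1 k hb0 hl hm hmm' hmx hmmm => ?_⟩
  have hxq : x / q * 2 ≤ x := (Nat.mul_le_mul_left _ hq2).trans (Nat.div_mul_le_self x q)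
  obtain ⟨r, hr⟩ : ∃ r, b1 = r + mm := ⟨b1 - mm, by omega⟩
  have hb1 : b1 ≤ b := by omega
  have hx1 : x ≤ q * mm := by
    have h0 : x < x / q * q + q := Nat.lt_div_mul_add (by omega)
    rw [hmx]
    have h1 : x / q * q + q ≤ q * (x / q + m1) := by
      have : q ≤ q * m1 := Nat.le_mul_of_pos_right _ (by omega)
      rw [mul_add, mul_comm q]
      omega
    omega
  have hUbb : 16 ≤ κ * Ub b1 := by
    have h1 := hBU0 b1 nU (by omega)
    have h2 : 16 / κ ≤ Ub b1 := hnU.le.trans h1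
    rw [div_le_iff₀ hκ] at h2
    linarith
  have hUb := Ub_pos b
  obtain ⟨T, hT⟩ : ∃ T : ℝ, T = (2 : ℝ) ^ ((θ / 2 - 2 / 3) * (x : ℝ)) := ⟨_, rfl⟩
  rw [← hT]
  have hT0 : 0 < T := by rw [hT]; positivity
  have hTq : 1 ≤ (2 ^ q) ^ mm * T := by
    have e : ((2 : ℝ) ^ q) ^ mm = (2 : ℝ) ^ ((q * mm : ℕ) : ℝ) := by rw [← pow_mul, Real.rpow_natCast]
    rw [e, hT, ← Real.rpow_add (by norm_num)]
    refine Real.one_le_rpow (by norm_num) ?_
    have h1 : (x : ℝ) ≤ ((q * mm : ℕ) : ℝ) := by exact_mod_cast hx1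
    have h2 : (0 : ℝ) ≤ x := Nat.cast_nonneg x
    nlinarith
  obtain ⟨K, hK⟩ : ∃ K, K = b + (m + c) + 2 := ⟨_, rfl⟩
  rw [← hK]
  -- FK
  have f1 : FK (K + 6) ≤ ENNReal.ofReal (E ^ m * E ^ (c + 8)) * FK b := by
    rw [← pow_add, show K + 6 = b + (m + (c + 8)) by omega]
    exact hF _ _
  have f2 : FK (K + 6) ≤ ENNReal.ofReal (E ^ mm * E ^ (c + 8)) * FK b1 := by
    rw [← pow_add, show K + 6 = b1 + (mm + (c + 8)) by omega]
    exact hF _ _
  have f3 : FK (K + 9) ≤ ENNReal.ofReal (E ^ m * E ^ (c + 11)) * FK b := by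
    rw [← pow_add, show K + 9 = b + (m + (c + 11)) by omega]
    exact hF _ _
  have hFk0 : ∀ n, FK n ≠ 0 := fun n => by
    unfold FK
    exact mul_ne_zero (by simpa using Ub_pos n) (pow_ne_zero _ (Xb_ne_zero n))
  have hFkt : ∀ n, FK n ≠ ⊤ := fun n => by
    unfold FK
    exact ENNReal.mul_ne_top ENNReal.ofReal_ne_top (ENNReal.pow_ne_top (Xb_ne_top n))
  have g1 := hG Cz b b1 K (2 ^ (l + 2)) r k hb0 hb1 (by omega) (by omega) hUbb
  have g2 := hH b1 r (by omega)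
  rw [show b1 - r = mm by omega] at g2
  have g3 := hS (l + 2) (K + 9) (by omega) (by omega)
  refine (ENNReal.mul_le_mul_iff_left (mul_ne_zero (hFk0 b1) (hFk0 b)) (ENNReal.mul_ne_top (hFkt b1) (hFkt b))).1 (g1.trans ?_)
  have q1 : FK (K + 6) ^ 2 * gf (Hm ⌈κ / 8 * Ub b1⌉₊ r) ≤
      ENNReal.ofReal (E ^ (c + 8) * E ^ (c + 8) * (2 * M2) * E ^ m * T) * (FK b1 * FK b) := by
    calc FK (K + 6) ^ 2 * gf (Hm ⌈κ / 8 * Ub b1⌉₊ r)
        ≤ ((ENNReal.ofReal (E ^ m * E ^ (c + 8)) * FK b) * (ENNReal.ofReal (E ^ mm * E ^ (c + 8)) * FK b1)) *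
            ENNReal.ofReal (2 * (2 : ℝ) ^ (-(cH * ρH ^ mm))) := by
          rw [pow_two]
          exact mul_le_mul' (mul_le_mul' f1 f2) g2
      _ = ENNReal.ofReal (E ^ m * E ^ (c + 8) * (E ^ mm * E ^ (c + 8)) * (2 * (2 : ℝ) ^ (-(cH * ρH ^ mm)))) * (FK b1 * FK b) := by
          rw [ENNReal.ofReal_mul (p := E ^ m * E ^ (c + 8) * (E ^ mm * E ^ (c + 8))) (by positivity),
            ENNReal.ofReal_mul (p := E ^ m * E ^ (c + 8)) (by positivity)]
          ring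
      _ ≤ _ := by
          refine mul_le_mul_left (ENNReal.ofReal_le_ofReal ?_) _
          have h1 := hb2 mm
          rw [mul_pow] at h1
          calc E ^ m * E ^ (c + 8) * (E ^ mm * E ^ (c + 8)) * (2 * (2 : ℝ) ^ (-(cH * ρH ^ mm)))
              ≤ E ^ m * E ^ (c + 8) * (E ^ mm * E ^ (c + 8)) * (2 * (2 : ℝ) ^ (-(cH * ρH ^ mm))) * ((2 ^ q) ^ mm * T) :=
                le_mul_of_one_le_right (by positivity) hTq
            _ = E ^ (c + 8) * E ^ (c + 8) * (2 * (E ^ mm * (2 ^ q) ^ mm * (2 : ℝ) ^ (-(cH * ρH ^ mm)))) * E ^ m * T := by ring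
            _ ≤ _ := by gcongr
  have q2 : FK (K + 6) * (ENNReal.ofReal (1 / 4 ^ r) * SS (K + 9) (2 ^ (l + 2))) ≤
      ENNReal.ofReal (E ^ (c + 8) * (CV * (2 : ℝ) ^ ((θ / 4 + 4 / 3) * ((c : ℝ) + 9)) * 16 * E ^ (c + 11)) *
        (16 * E) ^ m1 * E ^ m * T) * (FK b1 * FK b) := by
    obtain ⟨W, hW⟩ : ∃ W : ℝ, W = CV * ((2 : ℝ) ^ (θ / 4 * (((K + 9 : ℕ) : ℝ) - ((l + 2 : ℕ) : ℝ))) * 4 ^ (l + 2) *
      (2 : ℝ) ^ ((4 / 3 : ℝ) * (((K + 9 : ℕ) : ℝ) - ((l + 2 : ℕ) : ℝ)))) := ⟨_, rfl⟩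
    rw [← hW] at g3
    have hW0 : 0 < W := by rw [hW]; positivity
    calc FK (K + 6) * (ENNReal.ofReal (1 / 4 ^ r) * SS (K + 9) (2 ^ (l + 2)))
        ≤ (ENNReal.ofReal (E ^ mm * E ^ (c + 8)) * FK b1) * (ENNReal.ofReal (1 / 4 ^ r) *
            (ENNReal.ofReal W * (ENNReal.ofReal (E ^ m * E ^ (c + 11)) * FK b))) := by
          refine mul_le_mul' f2 (mul_le_mul_right (g3.trans (mul_le_mul_right f3 _)) _)
      _ = ENNReal.ofReal (E ^ mm * E ^ (c + 8) * (1 / 4 ^ r) * W * (E ^ m * E ^ (c + 11))) * (FK b1 * FK b) := by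
          rw [ENNReal.ofReal_mul (p := E ^ mm * E ^ (c + 8) * (1 / 4 ^ r) * W) (by positivity),
            ENNReal.ofReal_mul (p := E ^ mm * E ^ (c + 8) * (1 / 4 ^ r)) (by positivity),
            ENNReal.ofReal_mul (p := E ^ mm * E ^ (c + 8)) (by positivity)]
          ring
      _ ≤ _ := by
          refine mul_le_mul_left (ENNReal.ofReal_le_ofReal ?_) _
          have e1 : W = CV * (2 : ℝ) ^ ((θ / 4 + 4 / 3) * ((c : ℝ) + 9)) * 16 * (4 ^ l * (2 : ℝ) ^ ((θ / 4 + 4 / 3) * (x : ℝ))) := by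
            have e0 : (((K + 9 : ℕ) : ℝ) - ((l + 2 : ℕ) : ℝ)) = (c : ℝ) + 9 + x := by
              have h1 : ((l : ℝ) + x) = b + m := by exact_mod_cast hm
              rw [hK]
              push_cast
              linarith
            rw [hW, e0,
              show θ / 4 * ((c : ℝ) + 9 + x) = θ / 4 * (c + 9) + θ / 4 * x by ring,
              show (4 / 3 : ℝ) * ((c : ℝ) + 9 + x) = 4 / 3 * (c + 9) + 4 / 3 * x by ring,
              show (θ / 4 + 4 / 3) * ((c : ℝ) + 9) = θ / 4 * (c + 9) + 4 / 3 * (c + 9) by ring,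
              show (θ / 4 + 4 / 3) * (x : ℝ) = θ / 4 * x + 4 / 3 * x by ring]
            simp only [Real.rpow_add (show (0 : ℝ) < 2 by norm_num)]
            rw [pow_add (4 : ℝ) l 2]
            ring
          have e2 : (1 / 4 ^ r : ℝ) * (4 ^ l * (2 : ℝ) ^ ((θ / 4 + 4 / 3) * (x : ℝ))) =
              16 ^ mm * (2 : ℝ) ^ ((θ / 4 - 2 / 3) * (x : ℝ)) := by
            have e3 : (4 : ℝ) ^ l * 4 ^ x = 4 ^ r * 16 ^ mm := by
              rw [show (16 : ℝ) = 4 ^ 2 by norm_num, ← pow_mul, ← pow_add, ← pow_add]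
              congr 1
              omega
            have e4 : (2 : ℝ) ^ ((θ / 4 + 4 / 3) * (x : ℝ)) = 4 ^ x * (2 : ℝ) ^ ((θ / 4 - 2 / 3) * (x : ℝ)) := by
              rw [show (4 : ℝ) = 2 ^ (2 : ℕ) by norm_num, ← pow_mul, ← Real.rpow_natCast 2 (2 * x), ← Real.rpow_add (by norm_num)]
              congr 1
              push_cast
              ring
            rw [e4, ← mul_assoc ((4 : ℝ) ^ l), e3]
            have : (4 : ℝ) ^ r ≠ 0 := by positivity
            field_simp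
          have e5 : (16 * E) ^ mm * (2 : ℝ) ^ ((θ / 4 - 2 / 3) * (x : ℝ)) ≤ (16 * E) ^ m1 * T := by
            have h1 : (16 * E) ^ (x / q) ≤ (2 : ℝ) ^ (θ / 4 * (x : ℝ)) := by
              calc (16 * E) ^ (x / q) ≤ ((2 : ℝ) ^ ((q : ℝ) * (θ / 4))) ^ (x / q) := by gcongr
                _ = (2 : ℝ) ^ (((x / q * q : ℕ) : ℝ) * (θ / 4)) := by
                    rw [← Real.rpow_natCast, ← Real.rpow_mul (by norm_num)]
                    congr 1
                    push_cast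
                    ring
                _ ≤ _ := by
                    refine Real.rpow_le_rpow_of_exponent_le (by norm_num) ?_
                    have : ((x / q * q : ℕ) : ℝ) ≤ x := by exact_mod_cast Nat.div_mul_le_self x q
                    nlinarith
            rw [hmx, pow_add, hT, show (θ / 2 - 2 / 3) * (x : ℝ) = θ / 4 * x + (θ / 4 - 2 / 3) * x by ring,
              Real.rpow_add (by norm_num)]
            have : (0 : ℝ) < (16 * E) ^ m1 := by positivity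
            calc (16 * E) ^ (x / q) * (16 * E) ^ m1 * (2 : ℝ) ^ ((θ / 4 - 2 / 3) * (x : ℝ))
                ≤ (2 : ℝ) ^ (θ / 4 * (x : ℝ)) * (16 * E) ^ m1 * (2 : ℝ) ^ ((θ / 4 - 2 / 3) * (x : ℝ)) := by gcongr
              _ = _ := by ring
          calc E ^ mm * E ^ (c + 8) * (1 / 4 ^ r) * W * (E ^ m * E ^ (c + 11))
              = E ^ (c + 8) * (CV * (2 : ℝ) ^ ((θ / 4 + 4 / 3) * ((c : ℝ) + 9)) * 16 * E ^ (c + 11)) *
                  (E ^ mm * (1 / 4 ^ r * (4 ^ l * (2 : ℝ) ^ ((θ / 4 + 4 / 3) * (x : ℝ))))) * E ^ m := by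
                rw [e1]
                ring
            _ = E ^ (c + 8) * (CV * (2 : ℝ) ^ ((θ / 4 + 4 / 3) * ((c : ℝ) + 9)) * 16 * E ^ (c + 11)) *
                  ((16 * E) ^ mm * (2 : ℝ) ^ ((θ / 4 - 2 / 3) * (x : ℝ))) * E ^ m := by
                rw [e2, mul_pow]
                ring
            _ ≤ E ^ (c + 8) * (CV * (2 : ℝ) ^ ((θ / 4 + 4 / 3) * ((c : ℝ) + 9)) * 16 * E ^ (c + 11)) * ((16 * E) ^ m1 * T) *
                  E ^ m := by gcongr
            _ = _ := by ring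
  calc ENNReal.ofReal C1 * (ENNReal.ofReal (Ub b) * (FK (K + 6) ^ 2 * gf (Hm ⌈κ / 8 * Ub b1⌉₊ r) +
        FK (K + 6) * (ENNReal.ofReal (1 / 4 ^ r) * SS (K + 9) (2 ^ (l + 2)))))
      ≤ ENNReal.ofReal C1 * (ENNReal.ofReal (Ub b) *
          (ENNReal.ofReal (E ^ (c + 8) * E ^ (c + 8) * (2 * M2) * E ^ m * T) * (FK b1 * FK b) +
          ENNReal.ofReal (E ^ (c + 8) * (CV * (2 : ℝ) ^ ((θ / 4 + 4 / 3) * ((c : ℝ) + 9)) * 16 * E ^ (c + 11)) *
            (16 * E) ^ m1 * E ^ m * T) * (FK b1 * FK b))) := mul_le_mul_right (mul_le_mul_right (add_le_add q1 q2) _) _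
    _ = ENNReal.ofReal ((A2 + A3) * E ^ m * T * Ub b) * (FK b1 * FK b) := by
        rw [← add_mul, ← ENNReal.ofReal_add (by positivity) (by positivity), ← mul_assoc, ← mul_assoc,
          ← ENNReal.ofReal_mul (by positivity), ← ENNReal.ofReal_mul (by positivity), hA2, hA3]
        congr 2
        ring

/-! ### 4. The theorem -/

lemma mk_sub (l i : ℕ) (W : List Bool) : mk l i W ⊆ ↑(range (W.length + 1)) := fun r h => by
  rw [coe_range, Set.mem_Iio]
  have := h.1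
  omega

lemma mk_fin (l i : ℕ) (W : List Bool) : (mk l i W).Finite := (range (W.length + 1)).finite_toSet.subset (mk_sub l i W)

lemma mk_card_le (l i : ℕ) (W : List Bool) : (mk l i W).ncard ≤ W.length + 1 := by
  have := Set.ncard_le_ncard (mk_sub l i W) (range (W.length + 1)).finite_toSet
  rwa [Set.ncard_coe_finset, card_range] at this

open Classical in
lemma mk_card_sum (l i : ℕ) {N : ℕ} {W : List Bool} (h : W.length < N) : ((mk l i W).ncard : ℝ≥0∞) ≤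
    ∑ k ∈ range N, if k ≤ W.length ∧ W.length - k ∈ mk l i W then 1 else 0 := by
  have hfin := mk_fin l i W
  have h1 : (mk l i W).ncard ≤ ((range N).filter fun k => k ≤ W.length ∧ W.length - k ∈ mk l i W).card := by
    rw [Set.ncard_eq_toFinset_card _ hfin]
    refine card_le_card_of_injOn (fun r => W.length - r) (fun r hr => ?_) fun r hr r' hr' he => ?_
    · rw [mem_coe, Set.Finite.mem_toFinset] at hr
      have h2 := hr.1
      show W.length - r ∈ (((range N).filter fun k => k ≤ W.length ∧ W.length - k ∈ mk l i W : Finset ℕ) : Set ℕ)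
      rw [mem_coe, mem_filter, mem_range]
      refine ⟨by omega, by omega, ?_⟩
      rwa [show W.length - (W.length - r) = r by omega]
    · rw [mem_coe, Set.Finite.mem_toFinset] at hr hr'
      have h2 := hr.1
      have h3 := hr'.1
      simp only at he
      omega
  calc ((mk l i W).ncard : ℝ≥0∞) ≤ (((range N).filter fun k => k ≤ W.length ∧ W.length - k ∈ mk l i W).card : ℝ≥0∞) := by
        exact_mod_cast h1
    _ = _ := by
        rw [card_filter]
        push_cast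
        rfl

/-- the words with the vertex k letters before the end marked -/
def CK (η : ℝ) (D b J l i k : ℕ) : Set (List Bool) := {W | W ∈ W2E η D b J ∧ k ≤ W.length ∧ W.length - k ∈ mk l i W}

/-- **row PMV** -/
theorem pmv_of (hP : PMJ) : PMV := by
  classical
  intro θ η D c hθ hη
  obtain ⟨κ, hκ, Cz, -, hR⟩ := regZ_all
  obtain ⟨E, hE, hF⟩ := FK_addZ
  have hE0 : (0 : ℝ) < E := by linarith
  obtain ⟨q, hq2, hq⟩ : ∃ q : ℕ, 2 ≤ q ∧ 16 * E ≤ (2 : ℝ) ^ ((q : ℝ) * (θ / 4)) := by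
    obtain ⟨w, hw⟩ := pow_unbounded_of_one_lt (16 * E) (one_lt_two (α := ℝ))
    obtain ⟨q0, hq0⟩ := exists_nat_ge ((w : ℝ) / (θ / 4))
    refine ⟨q0 + 2, by omega, hw.le.trans ?_⟩
    rw [← Real.rpow_natCast]
    refine Real.rpow_le_rpow_of_exponent_le (by norm_num) ?_
    rw [div_le_iff₀ (by positivity)] at hq0
    push_cast
    nlinarith
  obtain ⟨C1, mE, bE, hC1, h1⟩ := exc_mass hR hη D c (A := 2 ^ q) (one_le_pow₀ (by norm_num))
  obtain ⟨m1, hm1⟩ : ∃ m1, m1 = mE + 4 := ⟨_, rfl⟩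
  obtain ⟨C2, bG, hC2, h2⟩ := gk_num hκ visS hη D Cz c hθ hE hF hq2 hq (m1 := m1) (by omega)
  obtain ⟨p, hp⟩ : ∃ p : ℕ, 1 ≤ θ / 4 * p := by
    obtain ⟨p, hp⟩ := exists_nat_ge (1 / (θ / 4))
    refine ⟨p, ?_⟩
    rw [div_le_iff₀ (by positivity)] at hp
    linarith
  obtain ⟨CP, hCP, hP1⟩ := hP η D (p + 1) hη
  obtain ⟨CP0, hCP0, hP0⟩ := hP η D 1 hη
  obtain ⟨a, ha⟩ : ∃ a : ℝ, a = (2 : ℝ) ^ ((4 / 3 : ℝ) * (c : ℝ)) := ⟨_, rfl⟩
  have ha1 : 1 ≤ a := by
    rw [ha]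
    exact Real.one_le_rpow (by norm_num) (by positivity)
  have ha0 : 0 < a := by linarith
  obtain ⟨K0, hK0⟩ : ∃ K0 : ℝ, K0 = a * CP0 ^ (c + 1) := ⟨_, rfl⟩
  obtain ⟨KL, hKL⟩ : ∃ KL : ℝ, KL = a * a ^ p * CP ^ (c + 1) := ⟨_, rfl⟩
  have hK0' : 0 < K0 := by rw [hK0]; positivity
  have hKL' : 0 < KL := by rw [hKL]; positivity
  obtain ⟨B1, hB1⟩ : ∃ B1 : ℝ, B1 = (K0 + 1) * CP0 * (8 * 2 ^ q) := ⟨_, rfl⟩
  obtain ⟨B2, hB2⟩ : ∃ B2 : ℝ, B2 = (KL + 2 * (C1 + C2) + 1) * (CP + E) := ⟨_, rfl⟩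
  have h2q : (1 : ℝ) ≤ 2 ^ q := one_le_pow₀ (by norm_num)
  have hB1' : 1 ≤ B1 := by
    rw [hB1]
    have e1 : 1 ≤ (K0 + 1) * CP0 := one_le_mul_of_one_le_of_one_le (by linarith) hCP0
    exact one_le_mul_of_one_le_of_one_le e1 (by linarith)
  have hB2' : 1 ≤ B2 := by
    rw [hB2]
    exact one_le_mul_of_one_le_of_one_le (by linarith) (by linarith)
  obtain ⟨m0, hm0⟩ := pow_unbounded_of_one_lt (96 * D) (by norm_num : 1 < 2)
  refine ⟨B1 + B2, m0 + 1, 1 + 2 * m1 + bE + bG, by linarith, fun b l i m hi hm hb hbl hli => ?_⟩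
  have hb0 : b ≠ 0 := by omega
  have hUb := Ub_pos b
  obtain ⟨s, rfl⟩ := Nat.exists_eq_add_of_le hli
  have hsr : (((l + s : ℕ) : ℝ) - l) = s := by
    push_cast
    ring
  rw [hsr]
  obtain ⟨i, hii⟩ : ∃ i, i = l + s := ⟨_, rfl⟩
  rw [← hii] at hi hli hsr ⊢
  obtain ⟨T', hT'⟩ : ∃ T' : ℝ, T' = (2 : ℝ) ^ ((θ - 2 / 3) * (s : ℝ)) := ⟨_, rfl⟩
  rw [← hT']
  have hT'0 : 0 < T' := by rw [hT']; positivity
  have hs0 : (0 : ℝ) ≤ s := Nat.cast_nonneg s
  have hmi := ml_pos i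
  have hmi1 : 1 ≤ ml i := by
    rw [← ml_zero]
    exact ml_le (Nat.zero_le _)
  obtain ⟨μ, hμ⟩ : ∃ μ : ℝ, μ = ml (b + (m + c)) := ⟨_, rfl⟩
  have hμe : μ = a * ml i := by
    rw [hμ, show b + (m + c) = i + c by omega, ml_add, ha]
  have hμ1 : 1 ≤ μ := by
    rw [hμe]
    exact one_le_mul_of_one_le_of_one_le ha1 hmi1
  have hμ0 : 0 < μ := by linarith
  -- the trivial bound
  have triv : ∑' W : W2E η D b (m + c), wE (W : List Bool) * ((mk l i (W : List Bool)).ncard : ℝ≥0∞) ≤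
      ENNReal.ofReal (K0 * CP0 ^ m * ml i * Ub b) := by
    have e1 : ∀ W : W2E η D b (m + c), wE (W : List Bool) * ((mk l i (W : List Bool)).ncard : ℝ≥0∞) ≤
        ENNReal.ofReal μ * (wE (W : List Bool) * ENNReal.ofReal ((1 + ((W : List Bool).length : ℝ) / ml (b + (m + c))) ^ 1)) := by
      intro W
      rw [mul_left_comm, ← ENNReal.ofReal_mul hμ0.le]
      refine mul_le_mul_right ?_ _
      rw [← ENNReal.ofReal_natCast]
      refine ENNReal.ofReal_le_ofReal ?_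
      have e2 : ((mk l i (W : List Bool)).ncard : ℝ) ≤ ((W : List Bool).length : ℝ) + 1 := by
        exact_mod_cast mk_card_le l i (W : List Bool)
      rw [← hμ, pow_one, mul_add, mul_one, mul_div_cancel₀ _ hμ0.ne']
      linarith
    refine (ENNReal.tsum_le_tsum e1).trans ?_
    rw [ENNReal.tsum_mul_left]
    refine (mul_le_mul_right (hP0 b (m + c) (by omega)) _).trans (le_of_eq ?_)
    rw [← ENNReal.ofReal_mul hμ0.le, hμe, hK0, show m + c + 1 = m + (c + 1) by omega, pow_add]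
    congr 1
    ring
  have htriv : 1 ≤ (8 * 2 ^ q) ^ m * T' → ∑' W : W2E η D b (m + c), wE (W : List Bool) *
      ((mk l i (W : List Bool)).ncard : ℝ≥0∞) ≤ ENNReal.ofReal ((B1 + B2) ^ m * T' * ml i * Ub b) := by
    intro h
    refine triv.trans (ENNReal.ofReal_le_ofReal ?_)
    refine mul_le_mul_of_nonneg_right (mul_le_mul_of_nonneg_right ?_ hmi.le) hUb.le
    have e1 : B1 ^ m ≤ (B1 + B2) ^ m := pow_le_pow_left₀ (by linarith) (by linarith) _
    have e2 : K0 ≤ (K0 + 1) ^ m := by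
      calc K0 ≤ (K0 + 1) ^ 1 := by linarith
        _ ≤ (K0 + 1) ^ m := pow_le_pow_right₀ (by linarith) (by omega)
    calc K0 * CP0 ^ m ≤ (K0 + 1) ^ m * CP0 ^ m := mul_le_mul_of_nonneg_right e2 (by positivity)
      _ ≤ (K0 + 1) ^ m * CP0 ^ m * ((8 * 2 ^ q) ^ m * T') := le_mul_of_one_le_right (by positivity) h
      _ = B1 ^ m * T' := by rw [hB1, mul_pow ((K0 + 1) * CP0), mul_pow (K0 + 1)]; ring
      _ ≤ (B1 + B2) ^ m * T' := mul_le_mul_of_nonneg_right e1 hT'0.le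
  have h8m : (8 : ℝ) ≤ 8 ^ m := by
    calc (8 : ℝ) = 8 ^ 1 := by norm_num
      _ ≤ 8 ^ m := pow_le_pow_right₀ (by norm_num) (by omega)
  have h2qm : (1 : ℝ) ≤ (2 ^ q) ^ m := one_le_pow₀ h2q
  -- few scales
  rcases Nat.lt_or_ge s 5 with hs | hs
  · refine htriv ?_
    have e1 : 1 ≤ 8 * T' := by
      have e8 : (8 : ℝ) = (2 : ℝ) ^ (3 : ℝ) := by norm_num
      rw [hT', e8, ← Real.rpow_add (by norm_num)]
      refine Real.one_le_rpow (by norm_num) ?_
      have k1 : (s : ℝ) ≤ 4 := by exact_mod_cast (show s ≤ 4 by omega)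
      nlinarith
    rw [mul_pow]
    calc 1 ≤ 8 * T' := e1
      _ ≤ 8 ^ m * (2 ^ q) ^ m * T' := by
          refine mul_le_mul_of_nonneg_right ?_ hT'0.le
          calc (8 : ℝ) ≤ 8 ^ m * 1 := by linarith
            _ ≤ 8 ^ m * (2 ^ q) ^ m := mul_le_mul_of_nonneg_left h2qm (by positivity)
  obtain ⟨mm, hmm⟩ : ∃ mm, mm = s / q + m1 := ⟨_, rfl⟩
  have hsq : ∀ x, s / q + m1 ≤ x → s ≤ q * x := by
    intro x hx
    have h0 : s < s / q * q + q := Nat.lt_div_mul_add (by omega)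
    have h3 : s / q * q + q ≤ q * x := by
      calc s / q * q + q = q * (s / q + 1) := by ring
        _ ≤ q * x := Nat.mul_le_mul_left _ (by omega)
    omega
  have h2x : ∀ x, s / q + m1 ≤ x → (2 : ℝ) ^ (s : ℝ) ≤ (2 ^ q) ^ x := by
    intro x hx
    rw [← pow_mul, Real.rpow_natCast]
    exact pow_le_pow_right₀ (by norm_num) (hsq x hx)
  have hTs : 1 ≤ (2 : ℝ) ^ (s : ℝ) * T' := by
    rw [hT', ← Real.rpow_add (by norm_num)]
    refine Real.one_le_rpow (by norm_num) ?_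
    nlinarith
  rcases Nat.lt_or_ge mm m with hmmm | hmmm
  · -- many scales above the ends
    refine htriv ?_
    rw [mul_pow]
    calc 1 ≤ (2 : ℝ) ^ (s : ℝ) * T' := hTs
      _ ≤ 8 ^ m * (2 ^ q) ^ m * T' := by
          refine mul_le_mul_of_nonneg_right ?_ hT'0.le
          calc (2 : ℝ) ^ (s : ℝ) ≤ 1 * (2 ^ q) ^ m := by
                rw [one_mul]
                exact h2x m (by omega)
            _ ≤ 8 ^ m * (2 ^ q) ^ m := mul_le_mul_of_nonneg_right (by linarith) (by positivity)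
  -- the main case
  have hsq1 : s / q ≤ s := Nat.div_le_self s q
  have hsq0 : 0 ≤ s / q := Nat.zero_le _
  have hmm4 : 4 ≤ mm := by omega
  have hmmE : mE ≤ mm := by omega
  have hbE1 : bE + mm ≤ i := by omega
  obtain ⟨b1, hb1⟩ : ∃ b1, i = b1 + mm := ⟨i - mm, by omega⟩
  obtain ⟨z, hz⟩ : ∃ z : ℝ, z = (2 : ℝ) ^ (θ / 4 * (s : ℝ)) := ⟨_, rfl⟩
  have hz1 : 1 ≤ z := by
    rw [hz]
    exact Real.one_le_rpow (by norm_num) (by positivity)
  have hz0 : 0 < z := by linarith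
  obtain ⟨Λ, hΛ⟩ : ∃ Λ : ℝ, Λ = z * ml i := ⟨_, rfl⟩
  have hΛ1 : 1 ≤ Λ := by
    rw [hΛ]
    exact one_le_mul_of_one_le_of_one_le hz1 hmi1
  have hΛ0 : 0 < Λ := by linarith
  obtain ⟨N, hN⟩ : ∃ N, N = ⌊Λ⌋₊ + 1 := ⟨_, rfl⟩
  have hN2 : (N : ℝ) ≤ 2 * Λ := by
    have := Nat.floor_le hΛ0.le
    rw [hN]
    push_cast
    linarith
  obtain ⟨T, hT⟩ : ∃ T : ℝ, T = (2 : ℝ) ^ ((θ / 2 - 2 / 3) * (s : ℝ)) := ⟨_, rfl⟩
  have hT0 : 0 < T := by rw [hT]; positivity
  -- one class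
  have hcl : ∀ k : ℕ, gf (CK η D b (m + c) l i k) ≤ ENNReal.ofReal ((C1 + C2) * E ^ m * T * Ub b) := by
    intro k
    have e1 : CK η D b (m + c) l i k ⊆ PCQ η D (b + (m + c) + 2) b b (QN κ Cz b1 (2 ^ (mm - 4))) ∪
        GK η D b κ Cz b1 (b + (m + c) + 2) (2 ^ (l + 2)) k := by
      rintro W ⟨hW, hk, hr⟩
      exact mk_split hi hb1 hmm4 hb0 (hm0.le.trans (Nat.pow_le_pow_right (by norm_num) (by omega))) (by omega) hW hk hr
    have e2 := h1 b m mm b1 hb0 (by omega) hmmE (by omega) hmmm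
    have e3 := h2 b l s m mm b1 k hb0 (by omega) (by omega) (by omega) hmm hmmm
    rw [← hT] at e3
    refine (gf_mono e1).trans ((gf_union_le _ _).trans ((add_le_add e2 e3).trans ?_))
    rw [← ENNReal.ofReal_add (by positivity) (by positivity)]
    refine ENNReal.ofReal_le_ofReal ?_
    have e4 : (((2 : ℝ) ^ q) ^ mm)⁻¹ ≤ E ^ m * T := by
      have e5 : 1 ≤ (2 : ℝ) ^ (s : ℝ) * T := by
        rw [hT, ← Real.rpow_add (by norm_num)]
        refine Real.one_le_rpow (by norm_num) ?_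
        nlinarith
      have e6 : 1 ≤ (2 ^ q) ^ mm * T :=
        e5.trans (mul_le_mul_of_nonneg_right (h2x mm (by omega)) hT0.le)
      have e7 : (1 : ℝ) ≤ E ^ m := one_le_pow₀ hE
      rw [inv_le_iff_one_le_mul₀ (by positivity)]
      calc 1 ≤ (2 ^ q) ^ mm * T := e6
        _ ≤ (2 ^ q) ^ mm * T * E ^ m := le_mul_of_one_le_right (by positivity) e7
        _ = _ := by ring
    calc C1 * (((2 : ℝ) ^ q) ^ mm)⁻¹ * Ub b + C2 * E ^ m * T * Ub b ≤ C1 * (E ^ m * T) * Ub b + C2 * E ^ m * T * Ub b := by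
          gcongr
      _ = _ := by ring
  -- the sum
  have hW : ∀ W : W2E η D b (m + c), wE (W : List Bool) * ((mk l i (W : List Bool)).ncard : ℝ≥0∞) ≤
      ENNReal.ofReal (μ * (μ / Λ) ^ p) * (wE (W : List Bool) *
        ENNReal.ofReal ((1 + ((W : List Bool).length : ℝ) / ml (b + (m + c))) ^ (p + 1))) +
      ∑ k ∈ range N, if (W : List Bool) ∈ CK η D b (m + c) l i k then wE (W : List Bool) else 0 := by
    intro W
    rcases le_or_gt ((W : List Bool).length : ℝ) Λ with h | h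
    · refine le_trans ?_ (le_add_left le_rfl)
      have e1 : (W : List Bool).length < N := by
        rw [hN]
        exact Nat.lt_succ_of_le (Nat.le_floor h)
      refine (mul_le_mul_right (mk_card_sum l i e1) _).trans (le_of_eq ?_)
      rw [mul_sum]
      refine sum_congr rfl fun k _ => ?_
      by_cases hk : k ≤ (W : List Bool).length ∧ (W : List Bool).length - k ∈ mk l i (W : List Bool)
      · rw [if_pos hk, if_pos ⟨W.2, hk⟩, mul_one]
      · rw [if_neg hk, if_neg fun h => hk h.2, mul_zero]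
    · refine le_trans ?_ (le_add_right le_rfl)
      rw [mul_left_comm, ← ENNReal.ofReal_mul (by positivity)]
      refine mul_le_mul_right ?_ _
      rw [← ENNReal.ofReal_natCast]
      refine ENNReal.ofReal_le_ofReal ?_
      have e2 : ((mk l i (W : List Bool)).ncard : ℝ) ≤ ((W : List Bool).length : ℝ) + 1 := by
        exact_mod_cast mk_card_le l i (W : List Bool)
      rw [← hμ]
      obtain ⟨x, hx⟩ : ∃ x : ℝ, x = 1 + ((W : List Bool).length : ℝ) / μ := ⟨_, rfl⟩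
      rw [← hx]
      have e3 : μ * x = μ + (W : List Bool).length := by
        rw [hx, mul_add, mul_one, mul_div_cancel₀ _ hμ0.ne']
      have e4 : 1 ≤ μ / Λ * x := by
        rw [div_mul_eq_mul_div, one_le_div hΛ0, e3]
        linarith
      have hx0 : 0 < x := by rw [hx]; positivity
      calc ((mk l i (W : List Bool)).ncard : ℝ) ≤ μ * x := by rw [e3]; linarith
        _ ≤ μ * x * (μ / Λ * x) ^ p := le_mul_of_one_le_right (by positivity) (one_le_pow₀ e4)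
        _ = μ * (μ / Λ) ^ p * x ^ (p + 1) := by rw [mul_pow, pow_succ]; ring
  have s1 : ∑' W : W2E η D b (m + c), ENNReal.ofReal (μ * (μ / Λ) ^ p) * (wE (W : List Bool) *
        ENNReal.ofReal ((1 + ((W : List Bool).length : ℝ) / ml (b + (m + c))) ^ (p + 1))) ≤
      ENNReal.ofReal (KL * CP ^ m * T' * ml i * Ub b) := by
    rw [ENNReal.tsum_mul_left]
    refine (mul_le_mul_right (hP1 b (m + c) (by omega)) _).trans ?_
    rw [← ENNReal.ofReal_mul (by positivity)]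
    refine ENNReal.ofReal_le_ofReal ?_
    have e1 : μ / Λ = a / z := by
      rw [hμe, hΛ]
      field_simp
    have e2 : (2 : ℝ) ^ (s : ℝ) ≤ z ^ p := by
      rw [hz, ← Real.rpow_natCast _ p, ← Real.rpow_mul (by norm_num)]
      refine Real.rpow_le_rpow_of_exponent_le (by norm_num) ?_
      nlinarith
    have e3 : (z ^ p)⁻¹ ≤ T' := by
      rw [inv_le_iff_one_le_mul₀ (by positivity)]
      calc 1 ≤ (2 : ℝ) ^ (s : ℝ) * T' := hTs
        _ ≤ z ^ p * T' := mul_le_mul_of_nonneg_right e2 hT'0.le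
        _ = _ := by ring
    rw [e1, div_pow, hμe, hKL, show m + c + 1 = m + (c + 1) by omega, pow_add]
    calc a * ml i * (a ^ p / z ^ p) * (CP ^ m * CP ^ (c + 1) * Ub b)
        = a * a ^ p * CP ^ (c + 1) * CP ^ m * (z ^ p)⁻¹ * ml i * Ub b := by
          field_simp
      _ ≤ _ := by gcongr
  have s2 : ∑' W : W2E η D b (m + c), ∑ k ∈ range N, (if (W : List Bool) ∈ CK η D b (m + c) l i k then wE (W : List Bool)
      else 0) ≤ ENNReal.ofReal (2 * (C1 + C2) * E ^ m * T' * ml i * Ub b) := by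
    have e1 : ∀ k, (∑' W : W2E η D b (m + c), (if (W : List Bool) ∈ CK η D b (m + c) l i k then wE (W : List Bool) else 0)) ≤
        gf (CK η D b (m + c) l i k) := by
      intro k
      have e2 : gf (CK η D b (m + c) l i k) = ∑' W : List Bool, (if W ∈ CK η D b (m + c) l i k then wE W else 0) := by
        rw [ARM.gf_ind]
        exact tsum_congr fun W => Set.indicator_apply _ _ _
      rw [e2]
      exact ENNReal.tsum_comp_le_tsum_of_injective Subtype.val_injective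
        (fun W : List Bool => if W ∈ CK η D b (m + c) l i k then wE W else 0)
    rw [Summable.tsum_finsetSum fun k _ => ENNReal.summable]
    refine (sum_le_sum fun k _ => (e1 k).trans (hcl k)).trans ?_
    rw [sum_const, card_range, nsmul_eq_mul, ← ENNReal.ofReal_natCast, ← ENNReal.ofReal_mul (Nat.cast_nonneg _)]
    refine ENNReal.ofReal_le_ofReal ?_
    have e3 : z * T ≤ T' := by
      rw [hz, hT, hT', ← Real.rpow_add (by norm_num)]
      refine Real.rpow_le_rpow_of_exponent_le (by norm_num) ?_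
      nlinarith
    calc (N : ℝ) * ((C1 + C2) * E ^ m * T * Ub b) ≤ 2 * Λ * ((C1 + C2) * E ^ m * T * Ub b) :=
          mul_le_mul_of_nonneg_right hN2 (by positivity)
      _ = 2 * (C1 + C2) * E ^ m * (z * T) * ml i * Ub b := by rw [hΛ]; ring
      _ ≤ _ := by gcongr
  refine (ENNReal.tsum_le_tsum hW).trans ?_
  rw [ENNReal.tsum_add]
  refine (add_le_add s1 s2).trans ?_
  rw [← ENNReal.ofReal_add (by positivity) (by positivity)]
  refine ENNReal.ofReal_le_ofReal ?_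
  have e1 : KL * CP ^ m + 2 * (C1 + C2) * E ^ m ≤ (B1 + B2) ^ m := by
    have e2 : CP ^ m ≤ (CP + E) ^ m := pow_le_pow_left₀ (by linarith) (by linarith) _
    have e3 : E ^ m ≤ (CP + E) ^ m := pow_le_pow_left₀ (by linarith) (by linarith) _
    have e4 : KL + 2 * (C1 + C2) + 1 ≤ (KL + 2 * (C1 + C2) + 1) ^ m := le_self_pow₀ (by linarith) (by omega)
    have e5 : 0 < (CP + E) ^ m := by positivity
    calc KL * CP ^ m + 2 * (C1 + C2) * E ^ m ≤ KL * (CP + E) ^ m + 2 * (C1 + C2) * (CP + E) ^ m := by gcongr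
      _ ≤ (KL + 2 * (C1 + C2) + 1) * (CP + E) ^ m := by nlinarith
      _ ≤ (KL + 2 * (C1 + C2) + 1) ^ m * (CP + E) ^ m := mul_le_mul_of_nonneg_right e4 e5.le
      _ = B2 ^ m := by rw [hB2, mul_pow]
      _ ≤ _ := pow_le_pow_left₀ (by linarith) (by linarith) _
  calc KL * CP ^ m * T' * ml i * Ub b + 2 * (C1 + C2) * E ^ m * T' * ml i * Ub b
      = (KL * CP ^ m + 2 * (C1 + C2) * E ^ m) * T' * ml i * Ub b := by ring
    _ ≤ _ := by gcongr

end ARM

end HexObs
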