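import Pool.Agent.ARM.ExC
import Pool.Agent.POL.RootG
import Pool.Agent.TIP.NfNum

/-!
# ARM2, row T2N, part a (helper9): the reversal of the closed words

* `rev_Cy`, `rev_C0` : the reversed word of a closed word is a closed word;
* `nca_rev` : the good cuts of the reversed word and of the reversed walk `rv`;
* **`t2N_of_one`** : row T2N from one end.
-/

set_option autoImplicit false

namespace HexObs

namespace ARM

open Finset TS SDN SIM NTA TIP

open scoped ENNReal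

namespace T2

lemma mulE_z (c : Pt) : mulE c 0 = 0 := by
  simp [mulE]

/-- the reversed closed word -/
lemma rev_Cy {N : ℕ} (hN : 1 ≤ N) {t : List Bool} (h : t ∈ POL.Cy N) : rev t ∈ POL.Cy N := by
  obtain ⟨h1, h2, h3, h4⟩ := h
  obtain ⟨c, hc, hf⟩ := RevM.rev_frame t
  rw [h1] at hf
  have hu : nrm c = 1 := mem_dirs.1 hc
  have hoo : (oo : Pt) = 0 := rfl
  have e0 : vx oo up t (N + 1) = up := by
    rw [vx_succ, h2, h3, hoo, zero_add]
  rw [e0] at hf
  have v0 : vx oo up t 0 = 0 := rfl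
  have v1 : vx oo up t 1 = up := by
    have : vx oo up t 1 = oo + up := rfl
    rw [this, hoo, zero_add]
  have w1 : vx oo up (rev t) 1 = up := by
    have : vx oo up (rev t) 1 = oo + up := rfl
    rw [this, hoo, zero_add]
  have a1 := hf N (by omega)
  have a2 := hf (N + 1) le_rfl
  have a3 := hf 1 (by omega)
  rw [show N + 1 - N = 1 by omega, v1] at a1
  rw [show N + 1 - (N + 1) = 0 by omega, v0] at a2
  rw [show N + 1 - 1 = N by omega, w1, h2, hoo] at a3
  have b1 : vx oo up (rev t) N = 0 := by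
    refine mulE_inj hu ?_
    rw [mulE_z]
    exact (left_eq_add.1 a1)
  have b2 : mulE c (vx oo up (rev t) (N + 1)) = mulE c up := by
    have := a2.symm.trans a3
    exact add_left_cancel this
  have b3 := mulE_inj hu b2
  rw [vx_succ, b1, zero_add] at b3
  refine ⟨by rw [rev_length, h1], by rw [b1, hoo], b3, fun i j hi hj hij => ?_⟩
  have a4 := hf i (by omega)
  have a5 := hf j (by omega)
  rw [hij, ← a5] at a4
  -- the indices
  have key : ∀ i, i < N → ∃ k, vx oo up t (N + 1 - i) = vx oo up t k ∧ ((i = 0 ∧ k = 1) ∨ (i = 1 ∧ k = 0) ∨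
      (2 ≤ i ∧ k = N + 1 - i)) := by
    intro i hi
    rcases Nat.lt_or_ge i 2 with h5 | h5
    · rcases Nat.eq_zero_or_pos i with h6 | h6
      · exact ⟨1, by rw [h6, Nat.sub_zero, e0, v1], Or.inl ⟨h6, rfl⟩⟩
      · refine ⟨0, ?_, Or.inr (Or.inl ⟨by omega, rfl⟩)⟩
        rw [show N + 1 - i = N by omega, h2]
        rfl
    · exact ⟨N + 1 - i, rfl, Or.inr (Or.inr ⟨h5, rfl⟩)⟩
  obtain ⟨k, k1, k2⟩ := key i hi
  obtain ⟨l, l1, l2⟩ := key j hj
  rcases Nat.lt_or_ge N 2 with h7 | h7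
  · omega
  · rw [k1, l1] at a4
    have := h4 k l (by omega) (by omega) a4
    omega

lemma rev_C0 {n : ℕ} {L : List Bool} (h : L ∈ C0 n) : rev L ∈ C0 n := by
  obtain ⟨b, hb⟩ := h
  have h1 := rev_Cy (by omega) hb
  have e : rev (L ++ [b]) = [!b] ++ rev L := by
    unfold rev
    simp
  rw [e] at h1
  exact ⟨!b, POL.cy_rot h1⟩

/-- the first letter is removed -/
lemma freeT_drop {r : ℕ} {A : List Bool} (h : FreeT (2 * r) A) (hA : 1 ≤ A.length) : FreeT r (A.drop 1) := by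
  obtain ⟨c, hc, hd, hf⟩ := drop_frame' A 1
  intro i hi hpos hb
  rw [List.length_drop] at hi
  have hu : nrm c = 1 := mem_dirs.1 hc
  have e1 : tipv A = vx oo up A 1 + mulE c (tipv (A.drop 1)) := by
    unfold tipv
    rw [List.length_drop, ← hf, show 1 + (A.length - 1) = A.length by omega]
  have e2 : tipd A = mulE c (tipd (A.drop 1)) := by
    unfold tipd
    rw [List.length_drop, ← dx_mulE, ← hd, ← dx_drop, show 1 + (A.length - 1) = A.length by omega]
  refine h (1 + i) (by omega) ?_ ?_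
  · rw [hf, e1, add_sub_add_left_eq_sub, ← mulE_sub, e2, ip_mulE, hu, one_mul]
    exact hpos
  · obtain ⟨b1, b2⟩ := hb
    have h1 := Nf.mulE_bl (p := vx oo up (A.drop 1) i - tipv (A.drop 1)) hc b1 b2
    rw [mulE_sub] at h1
    refine ⟨?_, ?_⟩
    · rw [hf, e1]
      have := h1.1
      simp only [Prod.fst_sub, Prod.fst_add] at this ⊢
      push_cast
      rwa [add_sub_add_left_eq_sub]
    · rw [hf, e1]
      have := h1.2
      simp only [Prod.snd_sub, Prod.snd_add] at this ⊢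
      push_cast
      rwa [add_sub_add_left_eq_sub]

lemma nca_fin {j a D : ℕ} {η : ℝ} {t : List Bool} : (NCa j a D η t).Finite := fin_suf fun Y hY => by
  obtain ⟨-, -, A, hA, -⟩ := hY
  exact ⟨A, hA.symm⟩

lemma freeT_mono {r r' : ℕ} {A : List Bool} (hr : r ≤ r') (h : FreeT r' A) : FreeT r A :=
  fun i hi hp hb => h i hi hp (Bl_mono _ hr hb)

lemma nca_mono {j a a' D : ℕ} {η : ℝ} {t : List Bool} (h : a ≤ a') :
    (NCa j a' D η t).ncard ≤ (NCa j a D η t).ncard := by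
  refine Set.ncard_le_ncard ?_ nca_fin
  rintro Y ⟨h1, h2, A, h3, h4⟩
  exact ⟨h1, h2, A, h3, freeT_mono (Nat.pow_le_pow_right (by norm_num) h) h4⟩

/-- the reversed walk has the good cuts of the reversed word -/
lemma nca_rev {j a D : ℕ} {η : ℝ} {t : List Bool} :
    (NCa j (a + 1) D η t).ncard ≤ (NCa j a D η (t.drop 1)).ncard + 1 := by
  refine le_trans (Set.ncard_le_ncard (t := insert t (NCa j a D η (t.drop 1))) ?_ (nca_fin.insert _))
    (Set.ncard_insert_le _ _)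
  rintro Y ⟨h1, h2, A, h3, h4⟩
  cases A with
  | nil =>
    left
    rw [h3, List.nil_append]
  | cons x A =>
    right
    refine ⟨h1, h2, A, ?_, ?_⟩
    · rw [h3]
      rfl
    · have := freeT_drop (r := 2 ^ a) (A := x :: A) (by rw [← pow_succ']; exact h4) (by simp)
      exact this

lemma gc_rev {j a m : ℕ} {η : ℝ} {L : List Bool} (ha : a + 1 ≤ j) :
    gc j a m η (rev L) ≤ gc j (a + 1) m η (rv L) + 1 := by
  unfold gc rv
  have h := nca_rev (j := j) (a := j - (a + 1)) (D := 2 ^ (j + m)) (η := η) (t := rev L)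
  rw [show j - (a + 1) + 1 = j - a by omega] at h
  exact_mod_cast h

lemma gc_mono {j a m : ℕ} {η : ℝ} {L : List Bool} : gc j a m η L ≤ gc j (a + 1) m η L := by
  unfold gc
  have h := nca_mono (j := j) (D := 2 ^ (j + m)) (η := η) (t := L) (show j - (a + 1) ≤ j - a by omega)
  exact_mod_cast h

lemma exU {κ : ℝ} (hκ : 0 < κ) (K : ℝ) : ∃ bU : ℕ, ∀ b, bU ≤ b → K ≤ κ * Ub b := by
  obtain ⟨B, hB⟩ := Ub_big
  obtain ⟨n, hn⟩ := exists_nat_ge (K / κ)
  refine ⟨B * n, fun b hb => ?_⟩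
  have h1 := hB b n hb
  have h2 : (n : ℝ) ≤ 8 ^ n := by
    exact_mod_cast (Nat.lt_pow_self (by norm_num : 1 < 8)).le
  have h3 : K / κ ≤ Ub b := hn.trans (h2.trans h1)
  rw [div_le_iff₀ hκ] at h3
  linarith

end T2

open T2

/-- row T2N, one end -/
def T2N1 : Prop := ∀ ε : ℝ, 0 < ε → ∃ (η κ : ℝ) (a m b0 : ℕ), 0 < η ∧ 0 < κ ∧ a ≤ b0 ∧ ∀ n j : ℕ,
  b0 ≤ j → 2 ^ b0 * ml j ≤ n → gf {L | L ∈ C0 n ∧ gc j a m η L < κ * Ub j} ≤
    ENNReal.ofReal (ε * (n : ℝ) ^ (-(3 / 2) : ℝ))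

/-- **row T2N from one end** -/
theorem t2N_of_one (h : T2N1) : T2N := by
  intro ε hε
  obtain ⟨η, κ, a, m, b0, hη, hκ, hab, h⟩ := h (ε / 2) (by positivity)
  obtain ⟨bU, hbU⟩ := exU hκ 2
  refine ⟨η, κ / 2, a + 1, m, max (b0 + 1) bU, hη, by positivity, by omega, fun n j hj hn => ?_⟩
  have hj1 : b0 + 1 ≤ j := (le_max_left _ _).trans hj
  have hj2 : bU ≤ j := (le_max_right _ _).trans hj
  have hn' : 2 ^ b0 * ml j ≤ n := by
    refine le_trans (mul_le_mul_of_nonneg_right ?_ (ml_pos j).le) hn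
    exact pow_le_pow_right₀ (by norm_num) ((Nat.le_succ b0).trans (le_max_left _ _))
  obtain ⟨T, hT⟩ : ∃ T : Set (List Bool), T = {L | L ∈ C0 n ∧ gc j a m η L < κ * Ub j} := ⟨_, rfl⟩
  have hTm := h n j (by omega) hn'
  rw [← hT] at hTm
  have hU2 := hbU j hj2
  have hU : 0 < κ * Ub j := by linarith
  have hsub : {L | L ∈ C0 n ∧ (gc j (a + 1) m η L < κ / 2 * Ub j ∨ gc j (a + 1) m η (rv L) < κ / 2 * Ub j)} ⊆
      T ∪ {L | rev L ∈ T} := by
    rintro L ⟨h1, h2 | h2⟩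
    · left
      rw [hT]
      refine ⟨h1, ?_⟩
      have := gc_mono (j := j) (a := a) (m := m) (η := η) (L := L)
      linarith
    · right
      show rev L ∈ T
      rw [hT]
      refine ⟨rev_C0 h1, ?_⟩
      have := gc_rev (m := m) (η := η) (L := L) (show a + 1 ≤ j by omega)
      linarith
  calc gf {L | L ∈ C0 n ∧ (gc j (a + 1) m η L < κ / 2 * Ub j ∨ gc j (a + 1) m η (rv L) < κ / 2 * Ub j)}
      ≤ gf (T ∪ {L | rev L ∈ T}) := gf_mono hsub
    _ ≤ gf T + gf {L | rev L ∈ T} := gf_union_le _ _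
    _ = gf T + gf T := by rw [TD.gf_rev_eq T]
    _ ≤ ENNReal.ofReal (ε / 2 * (n : ℝ) ^ (-(3 / 2) : ℝ)) + ENNReal.ofReal (ε / 2 * (n : ℝ) ^ (-(3 / 2) : ℝ)) :=
        add_le_add hTm hTm
    _ = _ := by
        rw [← ENNReal.ofReal_add (by positivity) (by positivity)]
        congr 1
        ring

end ARM

end HexObs
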