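import Pool.Agent.ARM.DefsT
import Pool.Agent.ARM.T2Na
import Pool.Agent.JNT.Dir
import Pool.Agent.POL.Root

/-!
# ARM2, row T2N (helper9): the inner bound of ExCs

* `pair_sum` : a word cut at a marked place;
* `gf_cy` : the second part of a closed word has exact length and exact end;
* **`root_in`** : the sum over the two ends of a closed word, the middle word M fixed, any class of root pieces;
* **`qIn_of`** : `QPt → QIn`.
-/

set_option autoImplicit false

namespace HexObs

namespace ARM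

open Finset TS SDN SIM NTA TIP

open scoped ENNReal

namespace T2

/-- a word cut at a marked place -/
lemma pair_sum {R : Set (List Bool × List Bool)} {S : Set (List Bool)} (φ : List Bool → ℝ≥0∞)
    (h : ∀ p ∈ R, p.2 ++ p.1 ∈ S) :
    ∑' p : R, wE (p : List Bool × List Bool).1 * wE (p : List Bool × List Bool).2 *
        φ ((p : List Bool × List Bool).2 ++ (p : List Bool × List Bool).1) ≤
      ∑' T : S, (((T : List Bool).length + 1 : ℕ) : ℝ≥0∞) * (wE (T : List Bool) * φ T) := by
  obtain ⟨g, hg⟩ : ∃ g : R → (Σ T : S, Fin ((T : List Bool).length + 1)), g = fun p =>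
      ⟨⟨(p : List Bool × List Bool).2 ++ (p : List Bool × List Bool).1, h _ p.2⟩,
        ⟨(p : List Bool × List Bool).2.length, by simp only [List.length_append]; omega⟩⟩ := ⟨_, rfl⟩
  obtain ⟨F, hF⟩ : ∃ F : (Σ T : S, Fin ((T : List Bool).length + 1)) → ℝ≥0∞, F = fun x =>
      wE (x.1 : List Bool) * φ x.1 := ⟨_, rfl⟩
  have hinj : Function.Injective g := by
    rintro ⟨⟨a, b⟩, hp⟩ ⟨⟨a', b'⟩, hp'⟩ he
    rw [hg] at he
    simp only [Sigma.mk.injEq, Subtype.mk.injEq] at he
    obtain ⟨h1, h2⟩ := he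
    have h3 : b.length = b'.length := by
      have key : ∀ (m m' : ℕ), m = m' → ∀ (i : Fin m) (i' : Fin m'), HEq i i' → i.1 = i'.1 := by
        rintro m _ rfl i i' hi
        rw [eq_of_heq hi]
      exact key _ _ (by rw [h1]) _ _ h2
    obtain ⟨h4, h5⟩ := List.append_inj h1 h3
    subst h4 h5
    rfl
  calc ∑' p : R, wE (p : List Bool × List Bool).1 * wE (p : List Bool × List Bool).2 *
        φ ((p : List Bool × List Bool).2 ++ (p : List Bool × List Bool).1)
      = ∑' p : R, F (g p) := by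
        refine tsum_congr fun p => ?_
        rw [hF, hg]
        simp only
        rw [wE_append, mul_comm (wE _) (wE _)]
    _ ≤ ∑' x, F x := ENNReal.tsum_comp_le_tsum_of_injective hinj F
    _ = ∑' T : S, ∑' k : Fin ((T : List Bool).length + 1), F ⟨T, k⟩ := ENNReal.tsum_sigma' F
    _ = _ := by
        refine tsum_congr fun T => ?_
        rw [hF]
        simp only
        rw [tsum_fintype, sum_const, card_univ, Fintype.card_fin, nsmul_eq_mul]

/-- the second part of a closed word -/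
lemma gf_cy {M : List Bool} {Q : Set (List Bool)} {n : ℕ} {X : ℝ≥0∞}
    (hX : ∀ z, gf {t | t ∈ Q ∧ t.length = n - M.length ∧ TIW.en t = z} ≤ X) :
    gf {t | t ∈ Q ∧ M ++ t ∈ POL.Cy n} ≤ X := by
  by_cases hex : ∃ t0, t0 ∈ Q ∧ M ++ t0 ∈ POL.Cy n
  · obtain ⟨t0, -, h0⟩ := hex
    refine (gf_mono fun t ht => ?_).trans (hX (TIW.en t0))
    have h1 : JNT.labN t = JNT.labN t0 := by
      refine JNT.labR_N M _ _ ?_
      rw [POL.Cy.labN ht.2, POL.Cy.labN h0]
    have h2 := (Prod.ext_iff.1 h1).2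
    have h3 := ht.2.1
    rw [List.length_append] at h3
    exact ⟨ht.1, by omega, h2⟩
  · have he : {t | t ∈ Q ∧ M ++ t ∈ POL.Cy n} = ∅ := by
      refine Set.eq_empty_of_forall_notMem fun t ht => hex ⟨t, ht.1, ht.2⟩
    rw [he]
    unfold gf
    simp

lemma wE_letter (b : Bool) : wE [b] = ENNReal.ofReal xc := by
  unfold wE
  simp

/-- a closed word, its rotation -/
lemma rot_C0 {n : ℕ} {A M B : List Bool} (h : A ++ (M ++ B) ∈ C0 n) : ∃ β : Bool, M ++ ((B ++ [β]) ++ A) ∈ POL.Cy (n + 1) := by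
  obtain ⟨β, hb⟩ := h
  refine ⟨β, ?_⟩
  have e : A ++ (M ++ B) ++ [β] = A ++ (M ++ (B ++ [β])) := by simp only [List.append_assoc]
  rw [e] at hb
  have := POL.cy_rot hb
  rwa [List.append_assoc] at this

/-- **the sum over the two ends of a closed word**, the middle word fixed, Q: any class of root pieces -/
lemma root_in {M : List Bool} {n : ℕ} {Q : Set (List Bool)} {R : Set (List Bool × List Bool)} {X : ℝ≥0∞}
    (hR : ∀ p ∈ R, p.1 ++ (M ++ p.2) ∈ C0 n ∧ ∀ β : Bool, M ++ ((p.2 ++ [β]) ++ p.1) ∈ POL.Cy (n + 1) →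
      (p.2 ++ [β]) ++ p.1 ∈ Q)
    (hX : ∀ z, gf {t | t ∈ Q ∧ t.length = n + 1 - M.length ∧ TIW.en t = z} ≤ X) :
    ∑' p : R, wE (p : List Bool × List Bool).1 * wE (p : List Bool × List Bool).2 ≤
      ENNReal.ofReal xc⁻¹ * ((n + 1 - M.length + 1 : ℕ) : ℝ≥0∞) * X := by
  classical
  obtain ⟨S, hS⟩ : ∃ S : Set (List Bool), S = {t | t ∈ Q ∧ M ++ t ∈ POL.Cy (n + 1)} := ⟨_, rfl⟩
  obtain ⟨R', hR'⟩ : ∃ R' : Set (List Bool × List Bool), R' = {p | p.2 ++ p.1 ∈ S} := ⟨_, rfl⟩
  have hch : ∀ p : R, ∃ β : Bool, M ++ (((p : List Bool × List Bool).2 ++ [β]) ++ (p : List Bool × List Bool).1) ∈ POL.Cy (n + 1) :=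
    fun p => rot_C0 (hR _ p.2).1
  choose β hβ using hch
  obtain ⟨g, hg⟩ : ∃ g : R → R', g = fun p => ⟨((p : List Bool × List Bool).1, (p : List Bool × List Bool).2 ++ [β p]), by
      rw [hR', hS]
      exact ⟨(hR _ p.2).2 _ (hβ p), hβ p⟩⟩ := ⟨_, rfl⟩
  have hinj : Function.Injective g := by
    rintro ⟨⟨a, b⟩, hp⟩ ⟨⟨a', b'⟩, hp'⟩ he
    rw [hg] at he
    simp only [Subtype.mk.injEq, Prod.mk.injEq] at he
    obtain ⟨h1, h2⟩ := he
    have h3 : b.length = b'.length := by
      have := congrArg List.length h2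
      simp only [List.length_append, List.length_singleton] at this
      omega
    obtain ⟨h4, -⟩ := List.append_inj h2 h3
    subst h1 h4
    rfl
  have hxc := xc_pos
  have hone : ENNReal.ofReal xc⁻¹ * ENNReal.ofReal xc = 1 := by
    rw [← ENNReal.ofReal_mul (by positivity), inv_mul_cancel₀ hxc.ne', ENNReal.ofReal_one]
  have e1 : ∀ p : R, wE (p : List Bool × List Bool).1 * wE (p : List Bool × List Bool).2 =
      ENNReal.ofReal xc⁻¹ * (fun r : R' => wE (r : List Bool × List Bool).1 * wE (r : List Bool × List Bool).2 * 1) (g p) := by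
    intro p
    rw [hg]
    simp only
    rw [wE_append, wE_letter, mul_one]
    calc _ = (ENNReal.ofReal xc⁻¹ * ENNReal.ofReal xc) * (wE (p : List Bool × List Bool).1 * wE (p : List Bool × List Bool).2) := by
          rw [hone, one_mul]
      _ = _ := by ring
  rw [tsum_congr e1, ENNReal.tsum_mul_left, mul_assoc]
  refine mul_le_mul' le_rfl ?_
  refine (ENNReal.tsum_comp_le_tsum_of_injective hinj
    (fun r : R' => wE (r : List Bool × List Bool).1 * wE (r : List Bool × List Bool).2 * 1)).trans ?_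
  refine (pair_sum (R := R') (S := S) (fun _ => 1) (fun p hp => by rw [hR'] at hp; exact hp)).trans ?_
  have e2 : ∀ T : S, (((T : List Bool).length + 1 : ℕ) : ℝ≥0∞) * (wE (T : List Bool) * 1) =
      ((n + 1 - M.length + 1 : ℕ) : ℝ≥0∞) * wE (T : List Bool) := by
    rintro ⟨T, hT⟩
    rw [hS] at hT
    have h1 := hT.2.1
    rw [List.length_append] at h1
    simp only [mul_one]
    rw [show T.length = n + 1 - M.length by omega]
  rw [tsum_congr e2, ENNReal.tsum_mul_left]
  refine mul_le_mul' le_rfl ?_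
  have h3 := gf_cy (M := M) (Q := Q) (n := n + 1) hX
  rw [← hS] at h3
  exact h3

end T2

end ARM

end HexObs
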