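import Pool.Agent.ARM.T2SD
import Pool.Agent.ARM.QX
import Pool.Agent.ARM.QIn
import Pool.Agent.ARM.T2Nb
import Pool.Agent.ARM.QPt

/-!
# ARM2, row T2S-P (helper28): the two ends of a closed word with a near return at the root

* `mq`, `PMVq` : the marks of PMV (helper15), the same literal (`ARM.mk`, `ARM.PMV`), repeated here so that the closure is light;
* `root_mk` : the sum over the two ends of a closed word against the marks of the root piece;
* `smooth_mk` : exact end and exact length, the sum of the marks (layers);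
* **`pairS_of : SmL → PMJ → PMVq → PairS`**.
-/

set_option autoImplicit false

namespace HexObs

namespace ARM

open Finset TS SDN HexObs.SIM NTA TIP

open scoped ENNReal

/-- the marked vertices: a near return after a far excursion (the same literal as `mk`) -/
def mq (l i : ℕ) (W : List Bool) : Set ℕ :=
  {r | r ≤ W.length ∧ 2 ^ i < 8 * TIW.hn (vx oo up W 0 - vx oo up W r) ∧ ∃ a a', a < a' ∧ a' < r ∧
    TIW.hn (vx oo up W a - vx oo up W r) ≤ 2 ^ (l + 1) ∧ 2 ^ i < 2 * TIW.hn (vx oo up W a' - vx oo up W r)}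

/-- the literal PMV -/
def PMVq : Prop := ∀ (θ η : ℝ) (D c : ℕ), 0 < θ → 0 < η → ∃ (B : ℝ) (m0 b0 : ℕ), 1 ≤ B ∧ ∀ b l i m : ℕ,
  i = b + m → m0 ≤ m → b0 ≤ b → b0 ≤ l → l ≤ i →
  ∑' W : W2E η D b (m + c), wE (W : List Bool) * ((mq l i (W : List Bool)).ncard : ℝ≥0∞) ≤
    ENNReal.ofReal (B ^ m * (2 : ℝ) ^ ((θ - 2 / 3) * ((i : ℝ) - l)) * ml i * Ub b)

/-- the marks of the whole root piece, in terms of its beginnings -/
def mv (l i : ℕ) (X : List Bool) : Set ℕ := {r | r ≤ X.length ∧ 2 ^ i < 4 * dz (X.take r) 0 ∧ X.take r ∈ Vis l i}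

lemma mq_sub (l i : ℕ) (W : List Bool) : mq l i W ⊆ ↑(range (W.length + 1)) := fun r h => by
  have := h.1
  rw [coe_range, Set.mem_Iio]
  omega

lemma mq_fin (l i : ℕ) (W : List Bool) : (mq l i W).Finite := (range (W.length + 1)).finite_toSet.subset (mq_sub l i W)

lemma mq_card_le (l i : ℕ) (W : List Bool) : (mq l i W).ncard ≤ W.length + 1 := by
  have := Set.ncard_le_ncard (mq_sub l i W) (range (W.length + 1)).finite_toSet
  rwa [Set.ncard_coe_finset, card_range] at this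

lemma mv_sub (l i : ℕ) (W : List Bool) : mv l i W ⊆ ↑(range (W.length + 1)) := fun r h => by
  have := h.1
  rw [coe_range, Set.mem_Iio]
  omega

lemma mv_fin (l i : ℕ) (W : List Bool) : (mv l i W).Finite := (range (W.length + 1)).finite_toSet.subset (mv_sub l i W)

lemma dz_take {X : List Bool} {r t : ℕ} (hr : r ≤ X.length) (ht : t ≤ r) :
    dz (X.take r) t = TIW.hn (vx oo up X t - vx oo up X r) := by
  have h1 : ∀ k, k ≤ r → vx oo up (X.take r) k = vx oo up X k := by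
    intro k hk
    have h2 := vx_append (v0 := oo) (d0 := up) (t := X.take r) (s := X.drop r) (i := k) (by rw [List.length_take]; omega)
    rw [List.take_append_drop] at h2
    exact h2.symm
  unfold dz TIW.en
  rw [List.length_take, min_eq_left hr, h1 t ht, h1 r le_rfl]

/-- **the marks stay when a small beginning is removed** -/
lemma mv_drop {D b i m l c r : ℕ} {Q : List Bool} (hc : c ≤ Q.length) (hP : Q.take c ∈ BU) (hIn : In (D * 2 ^ b) (Q.take c))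
    (hi : i = b + m) (hm : 48 * D ≤ 2 ^ m) (hl : l + 5 ≤ i) (hr : r ∈ mv l i Q) : c ≤ r ∧ r - c ∈ mq l i (Q.drop c) := by
  obtain ⟨h1, h2, h3⟩ := hr
  have k6 : (0 : ℤ) < 2 ^ i := by positivity
  have k4 : (48 : ℤ) * D * 2 ^ b ≤ 2 ^ i := by
    rw [hi, pow_add, mul_comm ((2 : ℤ) ^ b)]
    refine mul_le_mul_of_nonneg_right ?_ (by positivity)
    exact_mod_cast hm
  have hcr : c ≤ r := by
    by_contra hn
    have e1 := dz_take h1 (Nat.zero_le r)
    have e2 : vx oo up Q 0 = 0 := oo_zero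
    have e3 : vx oo up Q r = vx oo up (Q.take c) r := by
      have h4 := vx_append (v0 := oo) (d0 := up) (t := Q.take c) (s := Q.drop c) (i := r) (by rw [List.length_take]; omega)
      rwa [List.take_append_drop] at h4
    have e4 := hn_box hIn (k := r) (by rw [List.length_take]; omega)
    rw [e1, e2, e3, zero_sub, TIW.hn_neg] at h2
    push_cast at e4
    nlinarith
  obtain ⟨k, rfl⟩ := Nat.exists_eq_add_of_le hcr
  rw [Nat.add_sub_cancel_left]
  have e5 : Q.take (c + k) = Q.take c ++ (Q.drop c).take k := by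
    rw [List.take_add]
  rw [e5] at h2 h3
  have h5 := rest_far hP hIn hi hm h2
  obtain ⟨a, a', h6, h7, h8, h9⟩ := rest_vis hP hIn hi hm hl h2 h3
  have hk : k ≤ (Q.drop c).length := by rw [List.length_drop]; omega
  have hlk : ((Q.drop c).take k).length = k := by rw [List.length_take, min_eq_left hk]
  rw [hlk] at h7
  rw [dz_take hk (Nat.zero_le _)] at h5
  rw [dz_take hk (by omega)] at h8
  rw [dz_take hk h7] at h9
  have h10 : a' ≠ k := by
    rintro rfl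
    have e6 : TIW.hn (0 : Pt) = 0 := by simp [TIW.hn, ip]
    rw [sub_self, e6, mul_zero] at h9
    exact absurd h9 (not_lt.2 k6.le)
  exact ⟨by omega, hk, h5, a, a', h6, by omega, h8, h9⟩

/-! ### sums -/

/-- the layers -/
lemma tsum_layer (S : Set (List Bool)) (N : List Bool → ℕ) (ψ : List Bool → ℝ≥0∞) :
    ∑' Q : S, ψ Q * (N (Q : List Bool) : ℝ≥0∞) = ∑' k : ℕ, ∑' Q : {Q | Q ∈ S ∧ k < N Q}, ψ Q := by
  classical
  have h1 : ∀ m : ℕ, (m : ℝ≥0∞) = ∑' k : ℕ, (if k < m then 1 else 0) := by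
    intro m
    rw [tsum_eq_sum (s := range m) (fun k hk => if_neg (by simpa using hk)), sum_congr rfl (fun k hk => if_pos (mem_range.1 hk))]
    simp
  have h2 : ∀ Q : S, ψ Q * (N (Q : List Bool) : ℝ≥0∞) = ∑' k : ℕ, ψ Q * (if k < N (Q : List Bool) then 1 else 0) := by
    intro Q
    rw [ENNReal.tsum_mul_left, ← h1]
  rw [tsum_congr h2, ENNReal.tsum_comm]
  refine tsum_congr fun k => ?_
  rw [tsum_subtype S (fun Q => ψ Q * (if k < N Q then 1 else 0)), tsum_subtype {Q | Q ∈ S ∧ k < N Q} ψ]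
  refine tsum_congr fun Q => ?_
  by_cases hS : Q ∈ S
  · by_cases hk : k < N Q
    · rw [Set.indicator_of_mem hS, Set.indicator_of_mem (show Q ∈ {Q | Q ∈ S ∧ k < N Q} from ⟨hS, hk⟩), if_pos hk, mul_one]
    · rw [Set.indicator_of_mem hS, Set.indicator_of_notMem (show Q ∉ {Q | Q ∈ S ∧ k < N Q} from fun h => hk h.2), if_neg hk,
        mul_zero]
  · rw [Set.indicator_of_notMem hS, Set.indicator_of_notMem (show Q ∉ {Q | Q ∈ S ∧ k < N Q} from fun h => hS h.1)]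

/-- the second part of a closed word, any weight -/
lemma cy_sum {M : List Bool} {Q : Set (List Bool)} {n : ℕ} {X : ℝ≥0∞} (ψ : List Bool → ℝ≥0∞)
    (hX : ∀ z, ∑' t : {t | t ∈ Q ∧ t.length = n - M.length ∧ TIW.en t = z}, ψ t ≤ X) :
    ∑' t : {t | t ∈ Q ∧ M ++ t ∈ POL.Cy n}, ψ t ≤ X := by
  by_cases hex : ∃ t0, t0 ∈ Q ∧ M ++ t0 ∈ POL.Cy n
  · obtain ⟨t0, -, h0⟩ := hex
    refine (ENNReal.tsum_mono_subtype ψ fun t ht => ?_).trans (hX (TIW.en t0))
    have h1 : JNT.labN t = JNT.labN t0 := by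
      refine JNT.labR_N M _ _ ?_
      rw [POL.Cy.labN ht.2, POL.Cy.labN h0]
    have h2 := (Prod.ext_iff.1 h1).2
    have h3 := ht.2.1
    rw [List.length_append] at h3
    exact ⟨ht.1, by omega, h2⟩
  · have he : {t | t ∈ Q ∧ M ++ t ∈ POL.Cy n} = ∅ := by
      refine Set.eq_empty_of_forall_notMem fun t ht => hex ⟨t, ht.1, ht.2⟩
    rw [he]
    simp

/-- the words with one marked place -/
lemma mark_sum (S : Set (List Bool)) {N : List Bool → Set ℕ} (hN : ∀ t, (N t).Finite) :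
    ∑' x : {x : List Bool × ℕ | x.1 ∈ S ∧ x.2 ∈ N x.1}, wE (x : List Bool × ℕ).1 =
      ∑' t : S, wE (t : List Bool) * ((N t).ncard : ℝ≥0∞) := by
  classical
  rw [tsum_subtype {x : List Bool × ℕ | x.1 ∈ S ∧ x.2 ∈ N x.1} (fun x => wE x.1), ENNReal.tsum_prod',
    tsum_subtype S (fun t => wE t * ((N t).ncard : ℝ≥0∞))]
  refine tsum_congr fun t => ?_
  by_cases hS : t ∈ S
  · rw [Set.indicator_of_mem hS, tsum_eq_sum (s := (hN t).toFinset)]
    · refine (sum_congr rfl (g := fun _ => wE t) fun k hk => Set.indicator_of_mem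
        (show (t, k) ∈ {x : List Bool × ℕ | x.1 ∈ S ∧ x.2 ∈ N x.1} from ⟨hS, (Set.Finite.mem_toFinset _).1 hk⟩) _).trans ?_
      rw [sum_const, nsmul_eq_mul, Set.ncard_eq_toFinset_card _ (hN t), mul_comm]
    · intro k hk
      refine Set.indicator_of_notMem (fun h => hk ?_) _
      exact (Set.Finite.mem_toFinset _).2 h.2
  · rw [Set.indicator_of_notMem hS]
    refine ENNReal.tsum_eq_zero.2 fun k => ?_
    exact Set.indicator_of_notMem (fun h => hS h.1) _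

/-- **the sum over the two ends of a closed word against the marks of the root piece** -/
lemma root_mk {M : List Bool} {n : ℕ} {Q : Set (List Bool)} {R : Set (List Bool × List Bool)} {N : List Bool → Set ℕ}
    (hN : ∀ t, (N t).Finite)
    (hR : ∀ p ∈ R, p.1 ++ (M ++ p.2) ∈ C0 n ∧ ∀ β : Bool, M ++ ((p.2 ++ [β]) ++ p.1) ∈ POL.Cy (n + 1) →
      (p.2 ++ [β]) ++ p.1 ∈ Q ∧ p.2.length ∈ N ((p.2 ++ [β]) ++ p.1)) :
    ∑' p : R, wE (p : List Bool × List Bool).1 * wE (p : List Bool × List Bool).2 ≤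
      ENNReal.ofReal xc⁻¹ * ∑' t : {t | t ∈ Q ∧ M ++ t ∈ POL.Cy (n + 1)}, wE (t : List Bool) * ((N t).ncard : ℝ≥0∞) := by
  classical
  obtain ⟨S, hS⟩ : ∃ S : Set (List Bool), S = {t | t ∈ Q ∧ M ++ t ∈ POL.Cy (n + 1)} := ⟨_, rfl⟩
  rw [← hS]
  have hch : ∀ p : R, ∃ β : Bool, M ++ (((p : List Bool × List Bool).2 ++ [β]) ++ (p : List Bool × List Bool).1) ∈
      POL.Cy (n + 1) := fun p => T2.rot_C0 (hR _ p.2).1
  choose β hβ using hch
  obtain ⟨g, hg⟩ : ∃ g : R → {x : List Bool × ℕ | x.1 ∈ S ∧ x.2 ∈ N x.1}, g = fun p =>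
      ⟨(((p : List Bool × List Bool).2 ++ [β p]) ++ (p : List Bool × List Bool).1, (p : List Bool × List Bool).2.length), by
        rw [hS]
        exact ⟨⟨((hR _ p.2).2 _ (hβ p)).1, hβ p⟩, ((hR _ p.2).2 _ (hβ p)).2⟩⟩ := ⟨_, rfl⟩
  have hinj : Function.Injective g := by
    rintro ⟨⟨a, b⟩, hp⟩ ⟨⟨a', b'⟩, hp'⟩ he
    rw [hg] at he
    simp only [Subtype.mk.injEq, Prod.mk.injEq] at he
    obtain ⟨h1, h2⟩ := he
    obtain ⟨h3, h4⟩ := List.append_inj h1 (by simp only [List.length_append, List.length_singleton]; omega)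
    obtain ⟨h5, -⟩ := List.append_inj h3 h2
    subst h4 h5
    rfl
  have hxc := xc_pos
  have hone : ENNReal.ofReal xc⁻¹ * ENNReal.ofReal xc = 1 := by
    rw [← ENNReal.ofReal_mul (by positivity), inv_mul_cancel₀ hxc.ne', ENNReal.ofReal_one]
  have e1 : ∀ p : R, wE (p : List Bool × List Bool).1 * wE (p : List Bool × List Bool).2 =
      ENNReal.ofReal xc⁻¹ * (fun x : {x : List Bool × ℕ | x.1 ∈ S ∧ x.2 ∈ N x.1} => wE (x : List Bool × ℕ).1) (g p) := by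
    intro p
    rw [hg]
    simp only
    rw [wE_append, wE_append, T2.wE_letter]
    calc _ = (ENNReal.ofReal xc⁻¹ * ENNReal.ofReal xc) * (wE (p : List Bool × List Bool).1 * wE (p : List Bool × List Bool).2) := by
          rw [hone, one_mul]
      _ = _ := by ring
  rw [tsum_congr e1, ENNReal.tsum_mul_left]
  refine mul_le_mul' le_rfl ?_
  refine (ENNReal.tsum_comp_le_tsum_of_injective hinj
    (fun x : {x : List Bool × ℕ | x.1 ∈ S ∧ x.2 ∈ N x.1} => wE (x : List Bool × ℕ).1)).trans ?_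
  exact (mark_sum S hN).le

/-- **exact end and exact length: the sum of the marks** -/
lemma smooth_mk (hS : SmL) (η : ℝ) (D q : ℕ) (hη : 0 < η) : ∃ (C : ℝ) (b0 : ℕ), 0 < C ∧ 1 ≤ b0 ∧
    ∀ (b J y : ℕ) (z : Pt) (N N' : List Bool → ℕ), b0 ≤ b →
    (∀ Q ∈ W2E η D b J, ∀ c, c ≤ Q.length → In (D * 2 ^ b) (Q.take c) → Q.take c ∈ BU → N Q ≤ N' (Q.drop c)) →
    ∑' Q : {Q | Q ∈ W2E η D b J ∧ Q.length = y ∧ TIW.en Q = z}, wE (Q : List Bool) * (N (Q : List Bool) : ℝ≥0∞) ≤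
      ENNReal.ofReal (C / (4 ^ b * ml b) / (1 + (y : ℝ) / ml b) ^ q) *
        ∑' W : W2E (η / 4) (2 * D) b (J + 1), wE (W : List Bool) *
          ENNReal.ofReal ((1 + ((W : List Bool).length : ℝ) / ml b) ^ q) * (N' (W : List Bool) : ℝ≥0∞) := by
  obtain ⟨C, b0, hC, hb0, h⟩ := T2.smooth_w hS η D q hη
  refine ⟨C, b0, hC, hb0, fun b J y z N N' hb hNN => ?_⟩
  rw [tsum_layer _ N wE, tsum_layer _ N' (fun W => wE W * ENNReal.ofReal ((1 + (W.length : ℝ) / ml b) ^ q)),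
    ← ENNReal.tsum_mul_left]
  refine ENNReal.tsum_le_tsum fun k => ?_
  have h1 := h b J y z {Q | Q ∈ W2E η D b J ∧ k < N Q} {W | k < N' W} hb (fun Q hQ => hQ.1)
    (fun Q hQ c hc h1 h2 => lt_of_lt_of_le hQ.2 (hNN Q hQ.1 c hc h1 h2))
  refine le_trans ?_ h1
  exact gf_mono fun Q hQ => ⟨⟨hQ.1.1, hQ.2⟩, hQ.1.2⟩

/-- the moments of the marks -/
lemma mark_mom {WW : Set (List Bool)} {N : List Bool → ℕ} (hN : ∀ W, N W ≤ W.length + 1) {m Λ : ℝ} (hm : 1 ≤ m) (hΛ : 1 ≤ Λ)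
    (n : ℕ) : ∑' W : WW, wE (W : List Bool) * ENNReal.ofReal ((1 + ((W : List Bool).length : ℝ) / m) ^ 4) *
        (N (W : List Bool) : ℝ≥0∞) ≤
      ENNReal.ofReal (Λ ^ 4) * ∑' W : WW, wE (W : List Bool) * (N (W : List Bool) : ℝ≥0∞) + ENNReal.ofReal (m * (Λ ^ n)⁻¹) *
        ∑' W : WW, wE (W : List Bool) * ENNReal.ofReal ((1 + ((W : List Bool).length : ℝ) / m) ^ (n + 5)) := by
  rw [← ENNReal.tsum_mul_left, ← ENNReal.tsum_mul_left, ← ENNReal.tsum_add]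
  refine ENNReal.tsum_le_tsum fun W => ?_
  obtain ⟨w, hw⟩ : ∃ w : List Bool, w = (W : List Bool) := ⟨_, rfl⟩
  rw [← hw]
  obtain ⟨x, hx⟩ : ∃ x : ℝ, x = 1 + (w.length : ℝ) / m := ⟨_, rfl⟩
  have hx1 : 1 ≤ x := by
    rw [hx]
    have : 0 ≤ (w.length : ℝ) / m := by positivity
    linarith
  have hx0 : 0 < x := by linarith
  have hm0 : 0 < m := by linarith
  have hΛ0 : 0 < Λ := by linarith
  rw [← hx]
  rcases le_or_gt x Λ with h | h
  · refine le_trans ?_ le_self_add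
    calc wE w * ENNReal.ofReal (x ^ 4) * (N w : ℝ≥0∞) = ENNReal.ofReal (x ^ 4) * (wE w * (N w : ℝ≥0∞)) := by ring
      _ ≤ _ := mul_le_mul' (ENNReal.ofReal_le_ofReal (pow_le_pow_left₀ hx0.le h 4)) le_rfl
  · refine le_trans ?_ le_add_self
    have h1 : (N w : ℝ) ≤ m * x := by
      have h2 : (N w : ℝ) ≤ (w.length : ℝ) + 1 := by exact_mod_cast hN w
      rw [hx, mul_add, mul_one, mul_div_cancel₀ _ hm0.ne']
      linarith
    have h3 : x ^ 4 * (N w : ℝ) ≤ m * (Λ ^ n)⁻¹ * x ^ (n + 5) := by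
      calc x ^ 4 * (N w : ℝ) ≤ x ^ 4 * (m * x) := mul_le_mul_of_nonneg_left h1 (by positivity)
        _ = m * x ^ 5 := by ring
        _ ≤ m * ((Λ ^ n)⁻¹ * x ^ n * x ^ 5) := by
            refine mul_le_mul_of_nonneg_left ?_ hm0.le
            refine le_mul_of_one_le_left (by positivity) ?_
            rw [← div_eq_inv_mul, one_le_div (by positivity)]
            exact pow_le_pow_left₀ hΛ0.le h.le n
        _ = _ := by rw [pow_add]; ring
    rw [mul_assoc, ← ENNReal.ofReal_natCast (N w), ← ENNReal.ofReal_mul (by positivity)]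
    refine (mul_le_mul_right (ENNReal.ofReal_le_ofReal h3) _).trans (le_of_eq ?_)
    rw [ENNReal.ofReal_mul (by positivity)]
    ring

/-! ### the root piece -/

lemma twoG_nil {η : ℝ} {E b : ℕ} (hb : b ≠ 0) {M : List Bool} (h : M ∈ TwoG η E b) : M ≠ [] := by
  obtain ⟨S, hS, R, T, hT, rfl⟩ := h
  obtain ⟨N, Z3, rfl, -, -, -, h3, -, -⟩ := (T2.mem_GS hb).1 hS
  intro h0
  have h1 := (List.append_eq_nil_iff.1 h0).1
  have h2 := (List.append_eq_nil_iff.1 h1).2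
  rw [h2] at h3
  have h4 : hgt ([] : List Bool) = 0 := by
    have := hgt_app nil_BU nil_BU
    rw [List.append_nil] at this
    omega
  rw [h4] at h3
  have : 1 ≤ 2 ^ (b + 1) := Nat.one_le_two_pow
  omega

/-- the root piece of a closed word (the same as `T2.w2_of`) -/
lemma root_w2 {η : ℝ} {E b J n : ℕ} {Y2 M Y1 : List Bool} {β : Bool} (hb : b ≠ 0) (hM : M ≠ [])
    (h2 : ∃ R, ∃ T ∈ NPR.GE η E b, Y2 = R ++ T) (h1 : Y1 ∈ St η E b) (i2 : In (2 ^ (b + J)) Y2) (i1 : In (2 ^ (b + J)) Y1)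
    (hc : M ++ ((Y1 ++ [β]) ++ Y2) ∈ POL.Cy (n + 1)) : (Y1 ++ [β]) ++ Y2 ∈ W2E η E b (J + 2) := by
  obtain ⟨R2, T, hT, rfl⟩ := h2
  obtain ⟨S, hS, R1, rfl⟩ := h1
  refine ⟨POL.cy_take (POL.cy_rot hc) hM, ?_, S, hS, R1 ++ ([β] ++ R2), T, hT, ?_⟩
  · have h3 := T2.in_app2 (T2.in_app2 i1 (T2.in_letter (β := β))) i2
    refine Nf.in_mono h3 ?_
    have e : 2 ^ (b + (J + 2)) = 4 * 2 ^ (b + J) := by rw [← add_assoc, pow_add]; ring
    have e2 : 2 ^ 1 ≤ 2 ^ (b + J) := Nat.pow_le_pow_right (by norm_num) (by omega)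
    rw [e]
    omega
  · simp only [List.append_assoc]

lemma mv_card {D b i m l c : ℕ} {Q : List Bool} (hc : c ≤ Q.length) (hP : Q.take c ∈ BU) (hIn : In (D * 2 ^ b) (Q.take c))
    (hi : i = b + m) (hm : 48 * D ≤ 2 ^ m) (hl : l + 5 ≤ i) : (mv l i Q).ncard ≤ (mq l i (Q.drop c)).ncard := by
  refine Set.ncard_le_ncard_of_injOn (fun r => r - c) (fun r hr => (mv_drop hc hP hIn hi hm hl hr).2) ?_ (mq_fin l i _)
  intro r hr r' hr' he
  have h1 := (mv_drop hc hP hIn hi hm hl hr).1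
  have h2 := (mv_drop hc hP hIn hi hm hl hr').1
  simp only at he
  omega

lemma one_le_mlS (b : ℕ) : 1 ≤ ml b := by
  unfold ml
  exact Real.one_le_rpow (by norm_num) (by positivity)

lemma ml_up4 {b m : ℕ} : ml (b + m) ≤ 4 ^ m * ml b := by
  rw [ml_add]
  refine mul_le_mul_of_nonneg_right ?_ (ml_pos b).le
  have h2 : ((4 : ℝ)) ^ m = (2 : ℝ) ^ (2 * (m : ℝ)) := by
    rw [Real.rpow_mul (by norm_num), Real.rpow_natCast]
    norm_num
  rw [h2]
  refine Real.rpow_le_rpow_of_exponent_le (by norm_num) ?_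
  have : (0 : ℝ) ≤ m := Nat.cast_nonneg m
  linarith

/-- the weight -/
lemma wt_low {b i n a : ℕ} (hbi : b ≤ i) : ((1 + ((n + 1 - a : ℕ) : ℝ) / ml b) ^ 4)⁻¹ ≤ wt n a i := by
  have hm := ml_pos b
  have hmi := ml_pos i
  have hml : ml b ≤ ml i := ml_le hbi
  obtain ⟨y, hy⟩ : ∃ y : ℕ, y = n + 1 - a := ⟨_, rfl⟩
  obtain ⟨x, hx⟩ : ∃ x : ℕ, x = n - a := ⟨_, rfl⟩
  have hxy : (x : ℝ) ≤ y := by exact_mod_cast (show x ≤ y by omega)
  have hy0 : (0 : ℝ) ≤ y := Nat.cast_nonneg y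
  have hx0 : (0 : ℝ) ≤ x := Nat.cast_nonneg x
  have hwt : wt n a i = ((1 + (x : ℝ) / ml i) ^ 4)⁻¹ := by
    unfold wt
    rw [← hx, Real.rpow_neg (by positivity)]
    norm_cast
  rw [← hy, hwt]
  refine inv_anti₀ (by positivity) (pow_le_pow_left₀ (by positivity) ?_ 4)
  have : (x : ℝ) / ml i ≤ (y : ℝ) / ml b := div_le_div₀ hy0 hxy hm hml
  linarith

/-- **row T2S-P** -/
theorem pairS_of (hS : SmL) (hP : PMJ) (hV : PMVq) : PairS := by
  intro η θ D c hη hθ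
  obtain ⟨τ, hτ⟩ : ∃ τ : ℝ, τ = θ / 8 := ⟨_, rfl⟩
  have hτ0 : 0 < τ := by rw [hτ]; positivity
  obtain ⟨q, hq⟩ := exists_nat_ge (2 / 3 / τ)
  rw [div_le_iff₀ hτ0] at hq
  obtain ⟨B1, m1, b1, hB1, hV⟩ := hV (θ / 2) (η / 4) (2 * D) (c + 3) (by positivity) (by positivity)
  obtain ⟨K, hK, hPb⟩ := T2.pmj_b hP (η / 4) (2 * D) (q + 5) (by positivity)
  obtain ⟨C, b2, hC, hb2, hSm⟩ := smooth_mk hS η D 4 hη
  obtain ⟨C5, b5, hC5, hQ⟩ := qx_all hS hP hη D 5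
  obtain ⟨m2, hm2⟩ : ∃ m2 : ℕ, 48 * D < 2 ^ m2 := ⟨48 * D, Nat.lt_two_pow_self⟩
  have hxc : 0 < xc⁻¹ := inv_pos.2 xc_pos
  obtain ⟨A, hA⟩ : ∃ A : ℝ, A = xc⁻¹ + 1 := ⟨_, rfl⟩
  have hA1 : 1 ≤ A := by rw [hA]; linarith
  have hKc : 1 ≤ K ^ (c + 5) := one_le_pow₀ hK
  have hC5c : 1 ≤ C5 ^ (c + 4) := one_le_pow₀ hC5
  obtain ⟨P1, hP1⟩ : ∃ P1 : ℝ, P1 = (C + 1) * (16 * (B1 + K ^ (c + 5))) := ⟨_, rfl⟩
  obtain ⟨P2, hP2⟩ : ∃ P2 : ℝ, P2 = 64 * C5 ^ (c + 4) := ⟨_, rfl⟩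
  have hP11 : 1 ≤ P1 := by
    rw [hP1]
    exact one_le_mul_of_one_le_of_one_le (by linarith) (by linarith)
  have hP21 : 1 ≤ P2 := by
    rw [hP2]
    linarith
  refine ⟨A * P1 * P2, m1 + m2 + 1, b1 + b2 + b5 + 1,
    one_le_mul_of_one_le_of_one_le (one_le_mul_of_one_le_of_one_le hA1 hP11) hP21, fun n b l i m M hi hm hb hbl hli => ?_⟩
  have hb0 : b ≠ 0 := by omega
  have hm1 : 1 ≤ m := by omega
  have hbi : b ≤ i := by omega
  have hUb := Ub_pos b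
  have hml := ml_pos b
  have hmli := ml_pos i
  obtain ⟨s, hs⟩ : ∃ s : ℝ, s = (i : ℝ) - l := ⟨_, rfl⟩
  have hs0 : 0 ≤ s := by
    rw [hs]
    have : (l : ℝ) ≤ i := by exact_mod_cast hli
    linarith
  rw [← hs]
  obtain ⟨T, hT⟩ : ∃ T : ℝ, T = (2 : ℝ) ^ ((θ - 2 / 3) * s) := ⟨_, rfl⟩
  have hT0 : 0 < T := by rw [hT]; positivity
  rw [← hT]
  obtain ⟨y, hy⟩ : ∃ y : ℕ, y = n + 1 - M.length := ⟨_, rfl⟩
  have hwt := wt_low (n := n) (a := M.length) hbi
  obtain ⟨ω, hω⟩ : ∃ ω : ℝ, ω = wt n M.length i := ⟨_, rfl⟩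
  rw [← hy, ← hω] at hwt
  have hy0 : (0 : ℝ) ≤ y := Nat.cast_nonneg y
  have hyp : (0 : ℝ) < 1 + (y : ℝ) / ml b := by positivity
  have hω0 : 0 < ω := lt_of_lt_of_le (by positivity) hwt
  have h4i : ((4 : ℝ) ^ b)⁻¹ = 4 ^ m * ((4 : ℝ) ^ i)⁻¹ := by
    rw [hi, pow_add, mul_inv]
    field_simp
  have hA0 : xc⁻¹ ≤ A ^ m := by
    calc xc⁻¹ ≤ A := by rw [hA]; linarith
      _ ≤ A ^ m := le_self_pow₀ hA1 (by omega)
  obtain ⟨R, hR⟩ : ∃ R : Set (List Bool × List Bool), R = {p | RhoS η D b l i p.1 M p.2 ∧ In (2 ^ (i + c)) p.1 ∧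
    In (2 ^ (i + c)) p.2 ∧ p.1 ++ (M ++ p.2) ∈ C0 n} := ⟨_, rfl⟩
  rw [← hR, ← hω]
  -- the root pieces
  have hroot : ∀ p ∈ R, p.1 ++ (M ++ p.2) ∈ C0 n ∧ ∀ β : Bool, M ++ ((p.2 ++ [β]) ++ p.1) ∈ POL.Cy (n + 1) →
      (p.2 ++ [β]) ++ p.1 ∈ W2E η D b (m + c + 2) ∧ p.2.length ∈ mv l i ((p.2 ++ [β]) ++ p.1) := by
    intro p hp
    rw [hR] at hp
    obtain ⟨⟨h1, h2, h3, h4, h5⟩, h6, h7, h8⟩ := hp
    refine ⟨h8, fun β hβ => ⟨?_, ?_⟩⟩
    · have e : i + c = b + (m + c) := by omega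
      rw [e] at h6 h7
      exact root_w2 hb0 (twoG_nil hb0 h1) h2 h3 h6 h7 hβ
    · have e : ((p.2 ++ [β]) ++ p.1).take p.2.length = p.2 := by
        rw [List.append_assoc, List.take_left]
      refine ⟨by simp only [List.length_append]; omega, ?_, ?_⟩
      · rw [e]
        exact h4
      · rw [e]
        exact h5
  rcases Nat.lt_or_ge i (l + 5) with hl | hl
  · -- few scales
    have h1 := T2.root_in (M := M) (n := n) (Q := W2E η D b (m + c + 2)) (R := R)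
      (X := ENNReal.ofReal (C5 ^ (m + c + 2 + 1) * (Ub b / (4 ^ b * ml b)) * ((1 + (y : ℝ) / ml b) ^ 5)⁻¹))
      (fun p hp => ⟨(hroot p hp).1, fun β hβ => ((hroot p hp).2 β hβ).1⟩) (fun z => by
        rw [← hy]
        exact hQ b (m + c + 2) (by omega) y z)
    refine h1.trans ?_
    rw [← hy, ← ENNReal.ofReal_natCast, ← ENNReal.ofReal_mul hxc.le, ← ENNReal.ofReal_mul (by positivity),
      ← ENNReal.ofReal_mul (by positivity)]
    refine ENNReal.ofReal_le_ofReal ?_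
    have h2 : ((y + 1 : ℕ) : ℝ) ≤ ml b * (1 + (y : ℝ) / ml b) := by
      rw [mul_add, mul_one, mul_div_cancel₀ _ hml.ne']
      push_cast
      linarith [one_le_mlS b]
    have h3 : 1 ≤ 16 * T := by
      have e1 : (16 : ℝ) = (2 : ℝ) ^ (4 : ℝ) := by norm_num
      rw [hT, e1, ← Real.rpow_add (by norm_num)]
      refine Real.one_le_rpow (by norm_num) ?_
      have h4 : s ≤ 4 := by
        rw [hs]
        have : (i : ℝ) ≤ l + 4 := by exact_mod_cast (show i ≤ l + 4 by omega)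
        linarith
      nlinarith [mul_nonneg hθ.le hs0]
    have h5 : C5 ^ (m + c + 2 + 1) * 4 ^ m ≤ P2 ^ m * T := by
      have e1 : C5 ^ (m + c + 2 + 1) ≤ (C5 ^ (c + 4)) ^ m := by
        rw [← pow_mul]
        refine pow_le_pow_right₀ hC5 ?_
        nlinarith
      have e2 : (16 : ℝ) ≤ 16 ^ m := le_self_pow₀ (by norm_num) (by omega)
      calc C5 ^ (m + c + 2 + 1) * 4 ^ m ≤ (C5 ^ (c + 4)) ^ m * 4 ^ m * (16 * T) := by
            refine le_trans ?_ (le_mul_of_one_le_right (by positivity) h3)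
            exact mul_le_mul_of_nonneg_right e1 (by positivity)
        _ ≤ (C5 ^ (c + 4)) ^ m * 4 ^ m * (16 ^ m * T) := by gcongr
        _ = P2 ^ m * T := by
            rw [hP2, mul_pow, show (64 : ℝ) = 4 * 16 by norm_num, mul_pow]
            ring
    have h6 : 1 ≤ P1 ^ m := one_le_pow₀ hP11
    calc xc⁻¹ * ((y + 1 : ℕ) : ℝ) * (C5 ^ (m + c + 2 + 1) * (Ub b / (4 ^ b * ml b)) * ((1 + (y : ℝ) / ml b) ^ 5)⁻¹)
        ≤ xc⁻¹ * (ml b * (1 + (y : ℝ) / ml b)) *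
            (C5 ^ (m + c + 2 + 1) * (Ub b / (4 ^ b * ml b)) * ((1 + (y : ℝ) / ml b) ^ 5)⁻¹) := by gcongr
      _ = xc⁻¹ * C5 ^ (m + c + 2 + 1) * Ub b * ((4 : ℝ) ^ b)⁻¹ * ((1 + (y : ℝ) / ml b) ^ 4)⁻¹ := by
          field_simp
      _ = xc⁻¹ * (C5 ^ (m + c + 2 + 1) * 4 ^ m) * (Ub b * ((4 : ℝ) ^ i)⁻¹) * ((1 + (y : ℝ) / ml b) ^ 4)⁻¹ := by
          rw [h4i]
          ring
      _ ≤ A ^ m * (P2 ^ m * T) * (Ub b * ((4 : ℝ) ^ i)⁻¹) * ω := by gcongr
      _ ≤ A ^ m * (P2 ^ m * T) * (Ub b * ((4 : ℝ) ^ i)⁻¹) * ω * P1 ^ m := le_mul_of_one_le_right (by positivity) h6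
      _ = (A * P1 * P2) ^ m * T * (Ub b / 4 ^ i) * ω := by
          rw [mul_pow, mul_pow]
          ring
  · -- with marks
    have hm48 : 48 * D ≤ 2 ^ m := hm2.le.trans (Nat.pow_le_pow_right (by norm_num) (by omega))
    have h1 := root_mk (M := M) (n := n) (Q := W2E η D b (m + c + 2)) (R := R) (N := mv l i) (mv_fin l i) hroot
    have h2 := cy_sum (M := M) (Q := W2E η D b (m + c + 2)) (n := n + 1) (fun t => wE t * ((mv l i t).ncard : ℝ≥0∞))
      (fun z => hSm b (m + c + 2) (n + 1 - M.length) z (fun t => (mv l i t).ncard) (fun t => (mq l i t).ncard) (by omega)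
        (fun Q hQ k k1 k2 k3 => mv_card k1 k3 k2 hi hm48 hl))
    rw [← hy] at h2
    obtain ⟨Λ, hΛ⟩ : ∃ Λ : ℝ, Λ = (2 : ℝ) ^ (τ * s) := ⟨_, rfl⟩
    have hΛ1 : 1 ≤ Λ := by rw [hΛ]; exact Real.one_le_rpow (by norm_num) (by positivity)
    have hΛ0 : 0 < Λ := by linarith
    have h3 := mark_mom (WW := W2E (η / 4) (2 * D) b (m + c + 2 + 1)) (N := fun t => (mq l i t).ncard) (mq_card_le l i)
      (one_le_mlS b) hΛ1 q
    have h4 := hV b l i m hi (by omega) (by omega) (by omega) hli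
    rw [← hs, show m + (c + 3) = m + c + 2 + 1 by ring] at h4
    have h5 := hPb b (m + c + 2 + 1) (by omega)
    have e1 : Λ ^ 4 * (2 : ℝ) ^ ((θ / 2 - 2 / 3) * s) = T := by
      rw [hΛ, hT, ← Real.rpow_natCast, ← Real.rpow_mul (by norm_num), ← Real.rpow_add (by norm_num)]
      congr 1
      rw [hτ]
      push_cast
      ring
    have e2 : (Λ ^ q)⁻¹ ≤ T := by
      rw [hΛ, hT, ← Real.rpow_natCast, ← Real.rpow_mul (by norm_num), ← Real.rpow_neg (by norm_num)]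
      refine Real.rpow_le_rpow_of_exponent_le (by norm_num) ?_
      have h6 := mul_le_mul_of_nonneg_right hq hs0
      nlinarith [mul_nonneg hθ.le hs0]
    have h6 : ∑' W : W2E (η / 4) (2 * D) b (m + c + 2 + 1), wE (W : List Bool) *
        ENNReal.ofReal ((1 + ((W : List Bool).length : ℝ) / ml b) ^ 4) * (((mq l i (W : List Bool)).ncard : ℕ) : ℝ≥0∞) ≤
          ENNReal.ofReal (T * (B1 ^ m + K ^ (m + c + 4)) * ml i * Ub b) := by
      refine h3.trans ((add_le_add (mul_le_mul' le_rfl h4) (mul_le_mul' le_rfl h5)).trans ?_)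
      rw [← ENNReal.ofReal_mul (by positivity), ← ENNReal.ofReal_mul (by positivity),
        ← ENNReal.ofReal_add (by positivity) (by positivity)]
      refine ENNReal.ofReal_le_ofReal ?_
      have k1 : ml b ≤ ml i := ml_le hbi
      calc Λ ^ 4 * (B1 ^ m * (2 : ℝ) ^ ((θ / 2 - 2 / 3) * s) * ml i * Ub b) +
            ml b * (Λ ^ q)⁻¹ * (K ^ (m + c + 2 + 1 + 1) * Ub b)
          = (Λ ^ 4 * (2 : ℝ) ^ ((θ / 2 - 2 / 3) * s)) * (B1 ^ m * ml i * Ub b) +
            ml b * (Λ ^ q)⁻¹ * (K ^ (m + c + 4) * Ub b) := by ring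
        _ ≤ T * (B1 ^ m * ml i * Ub b) + ml i * T * (K ^ (m + c + 4) * Ub b) := by
            rw [e1]
            gcongr
        _ = _ := by ring
    refine h1.trans ((mul_le_mul' le_rfl (h2.trans (mul_le_mul' le_rfl h6))).trans ?_)
    rw [← ENNReal.ofReal_mul (by positivity), ← ENNReal.ofReal_mul hxc.le, ← ENNReal.ofReal_mul (by positivity)]
    refine ENNReal.ofReal_le_ofReal ?_
    have n1 : C * (16 ^ m * (B1 ^ m + K ^ (m + c + 4))) ≤ P1 ^ m := by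
      have k1 : B1 ^ m + K ^ (m + c + 4) ≤ (B1 + K ^ (c + 5)) ^ m := by
        calc B1 ^ m + K ^ (m + c + 4) ≤ B1 ^ m + (K ^ (c + 5)) ^ m := by
              rw [← pow_mul]
              have : m + c + 4 ≤ (c + 5) * m := by nlinarith
              linarith [pow_le_pow_right₀ hK this]
          _ ≤ _ := pow_add_pow_le (by linarith) (by linarith) (by omega)
      have k2 : C ≤ (C + 1) ^ m := by
        calc C ≤ (C + 1) ^ 1 := by linarith
          _ ≤ (C + 1) ^ m := pow_le_pow_right₀ (by linarith) hm1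
      have k3 : 0 ≤ B1 ^ m + K ^ (m + c + 4) := by positivity
      rw [hP1, mul_pow, mul_pow 16]
      gcongr
    have n2 : ml i ≤ 4 ^ m * ml b := by
      rw [hi]
      exact ml_up4
    have n3 : 1 ≤ P2 ^ m := one_le_pow₀ hP21
    calc xc⁻¹ * (C / (4 ^ b * ml b) / (1 + (y : ℝ) / ml b) ^ 4 * (T * (B1 ^ m + K ^ (m + c + 4)) * ml i * Ub b))
        = xc⁻¹ * (C * (B1 ^ m + K ^ (m + c + 4))) * ((4 : ℝ) ^ b)⁻¹ * (ml i / ml b) * (T * Ub b) *
            ((1 + (y : ℝ) / ml b) ^ 4)⁻¹ := by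
          field_simp
      _ ≤ xc⁻¹ * (C * (B1 ^ m + K ^ (m + c + 4))) * ((4 : ℝ) ^ b)⁻¹ * 4 ^ m * (T * Ub b) *
            ((1 + (y : ℝ) / ml b) ^ 4)⁻¹ := by
          have k1 : ml i / ml b ≤ 4 ^ m := by
            rw [div_le_iff₀ hml]
            exact n2
          gcongr
      _ = xc⁻¹ * (C * (16 ^ m * (B1 ^ m + K ^ (m + c + 4)))) * (T * (Ub b * ((4 : ℝ) ^ i)⁻¹)) *
            ((1 + (y : ℝ) / ml b) ^ 4)⁻¹ := by
          rw [h4i, show (16 : ℝ) = 4 * 4 by norm_num, mul_pow]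
          ring
      _ ≤ A ^ m * P1 ^ m * (T * (Ub b * ((4 : ℝ) ^ i)⁻¹)) * ω := by gcongr
      _ ≤ A ^ m * P1 ^ m * (T * (Ub b * ((4 : ℝ) ^ i)⁻¹)) * ω * P2 ^ m := le_mul_of_one_le_right (by positivity) n3
      _ = (A * P1 * P2) ^ m * T * (Ub b / 4 ^ i) * ω := by
          rw [mul_pow, mul_pow]
          ring

end ARM

end HexObs
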