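import Pool.Agent.ARM.T2Qc
import Pool.Agent.ARM.T1
import Pool.Agent.ARM.TipG
import Pool.Agent.ARM.PMJ
import Pool.Agent.ARM.NtP
import Pool.Agent.ARM.BadRoot
import Pool.Agent.ARM.T2Fin

/-!
# ARM, row T2Qc without hypotheses (helper44)
-/

set_option autoImplicit false

namespace HexObs

namespace ARM

open TIP

/-- **the bad roots are rare** -/
theorem badRoot_all : ∃ κ : ℝ, 0 < κ ∧ ∃ C : ℕ, RegZ κ C ∧ BadRoot κ C := by
  obtain ⟨κ, hκ, C, -, hR⟩ := regZ_all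
  obtain ⟨hB, hN⟩ := rootBN_all t1 hκ hR
  exact ⟨κ, hκ, C, hR, badRoot_of hB hN⟩

/-- **row T2Qc** -/
theorem t2Qc : T2Qc := by
  obtain ⟨κ, hκ, C, -, hB⟩ := badRoot_all
  exact t2Qc_of hκ t1 (exCs_of tipF2s) smL (pmj_of yMassJ) plNt hB

end ARM

end HexObs
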