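import Pool.Agent.ARM.TwoCr
import Pool.Agent.ARM.PairS
import Pool.Agent.ARM.PMV
import Pool.Agent.ARM.T2QF

/-!
# ARM, row T2S (helper74, helper44): extra strands of closed words
-/

set_option autoImplicit false

namespace HexObs

namespace ARM

open Finset TS SDN HexObs.SIM NTA TIP

open _root_.HexObs.ARM.T2 TwoX

open scoped ENNReal

namespace S2

lemma ese_cons {l i : ℕ} {x : Bool} {T : List Bool} (h : T ∈ ESe l i) : x :: T ∈ ESe l i := by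
  obtain ⟨t, a, b, h1, h2, h3, h4, h5, h6, h7⟩ := h
  have hd : ∀ k, dz (x :: T) (k + 1) = dz T k := by
    intro k
    have := dz_app [x] T k
    rwa [List.singleton_append, List.length_singleton, add_comm] at this
  refine ⟨t + 1, a + 1, b + 1, by omega, by omega, by simpa using h3, by rw [hd]; exact h4, by rw [hd]; exact h5,
    by rw [hd]; exact h6, fun s hs1 hs2 => ?_⟩
  obtain ⟨s', rfl⟩ : ∃ s', s = s' + 1 := ⟨s - 1, by omega⟩
  rw [hd]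
  exact h7 s' (by omega) (by simpa using hs2)

lemma ese_rv {l i : ℕ} {L : List Bool} (h : rv L ∈ ESe l i) : rev L ∈ ESe l i := by
  unfold rv at h
  rcases hr : rev L with - | ⟨x, T⟩
  · rw [hr] at h
    simpa using h
  · rw [hr] at h
    exact ese_cons (by simpa using h)

lemma dz_len_le (L : List Bool) (k : ℕ) (hk : k ≤ L.length) : dz L (L.length - k) ≤ 2 * (k : ℤ) := by
  induction k with
  | zero =>
    rw [Nat.sub_zero, dz_len]
    norm_num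
  | succ k ih =>
    have h1 := ih (by omega)
    have h2 := (dz_suc L (L.length - (k + 1))).2
    rw [show L.length - (k + 1) + 1 = L.length - k by omega] at h2
    push_cast
    linarith

/-- the mass of all closed words -/
lemma c0_mass : ∃ A : ℝ, 0 < A ∧ ∀ n : ℕ, 1 ≤ n → gf (C0 n) ≤ ENNReal.ofReal (A * (n : ℝ) ^ (-(3 / 2) : ℝ)) := by
  obtain ⟨A, hA, h⟩ := conf_C0 0
  refine ⟨A, hA, fun n hn => ?_⟩
  have h1 := h n (n + 1) hn
  rw [pow_zero, mul_one] at h1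
  refine le_trans (gf_mono ?_) h1
  intro L hL
  refine ⟨hL, fun s hs => ?_⟩
  have hlen := (C0_mem hL).2.1
  have h2 := dz_len_le L (L.length - s) (Nat.sub_le _ _)
  rw [show L.length - (L.length - s) = s by omega] at h2
  have h3 : ((L.length - s : ℕ) : ℤ) ≤ n := by
    have : L.length - s ≤ n := by omega
    exact_mod_cast this
  have h4 : (n : ℤ) ≤ 2 ^ n := by
    have := (Nat.lt_two_pow_self (n := n)).le
    exact_mod_cast this
  rw [pow_succ]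
  linarith

lemma badR_anti {κ : ℝ} {C b N N' : ℕ} {r : ℤ} {L : List Bool} (hN : N' ≤ N) (h : BadR κ C b N r L) :
    BadR κ C b N' r L := by
  obtain ⟨X, Q, Y, e, h1, h2, h3⟩ := h
  exact ⟨X, Q, Y, e, h1, fun h4 => h2 (YB.In_mono (Nat.mul_le_mul_right _ hN) h4), h3⟩

end S2

open S2

/-- row T2S, one end -/
theorem t2S1_of {κ : ℝ} {C : ℕ} (hκ : 0 < κ) (hT : T1) (hE : ExCs) (hX : TwoCr κ C) (hP : PairS) (hB : BadRoot κ C) :
    ∃ (A : ℝ) (b0 : ℕ), 0 < A ∧ ∀ n l i : ℕ, b0 ≤ l → l ≤ i → 1 ≤ n →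
      gf {L | L ∈ C0 n ∧ L ∈ ESe l i} ≤
        ENNReal.ofReal (A * (2 : ℝ) ^ (-(1 / 8 : ℝ) * ((i : ℝ) - l)) * (n : ℝ) ^ (-(3 / 2) : ℝ)) := by
  obtain ⟨D, hD, hT⟩ := hT
  obtain ⟨C1, hC1, hE⟩ := hE (κ / 8) (2 * C) 3 (by positivity)
  obtain ⟨K, hK, hF⟩ := final_num TPC.xLow (κ := κ / 8) (by positivity)
  obtain ⟨b2, hb2⟩ := exU hκ 8
  obtain ⟨m00, b3, hX⟩ := hX
  obtain ⟨B, m0, b1, hB1, hP⟩ := hP (κ / 8) (1 / 8) (2 * C) 3 (by positivity) (by norm_num)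
  obtain ⟨A0, hA0, hM⟩ := c0_mass
  -- the number q
  obtain ⟨q0, hq0⟩ := pow_unbounded_of_one_lt (4 * B) (one_lt_two (α := ℝ))
  obtain ⟨q, hq⟩ : ∃ q, q = 8 * (q0 + 1) := ⟨_, rfl⟩
  have hq1 : 1 ≤ q := by omega
  have hBq : 4 * B ≤ (2 : ℝ) ^ ((q : ℝ) / 8) := by
    have e : (q : ℝ) / 8 = ((q0 + 1 : ℕ) : ℝ) := by
      rw [hq]
      push_cast
      ring
    rw [e, Real.rpow_natCast]
    exact hq0.le.trans (pow_le_pow_right₀ (by norm_num) (by omega))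
  obtain ⟨A, J0, b4, hA, hB⟩ := hB q 10
  obtain ⟨M, hMd⟩ : ∃ M, M = m0 + m00 + J0 + 8 := ⟨_, rfl⟩
  obtain ⟨A3, hA3⟩ : ∃ A3 : ℝ, A3 = A0 * (2 : ℝ) ^ ((q * M : ℕ) : ℝ) := ⟨_, rfl⟩
  have hA30 : 0 < A3 := by rw [hA3]; positivity
  have hA1 : 0 < K * (C1 * D) := by positivity
  refine ⟨A3 + A + K * (C1 * D), b1 + b2 + b3 + b4 + 1, by positivity, fun n l i hl hli hn => ?_⟩
  have hν : (0 : ℝ) < (n : ℝ) ^ (-(3 / 2) : ℝ) := by
    have : (0 : ℝ) < n := by exact_mod_cast hn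
    positivity
  obtain ⟨ν, hνd⟩ : ∃ ν : ℝ, ν = (n : ℝ) ^ (-(3 / 2) : ℝ) := ⟨_, rfl⟩
  rw [← hνd] at hν ⊢
  obtain ⟨δ, hδ⟩ : ∃ δ, δ = i - l := ⟨_, rfl⟩
  have hδr : (i : ℝ) - l = δ := by
    rw [hδ, Nat.cast_sub hli]
  rw [hδr]
  obtain ⟨y, hy⟩ : ∃ y : ℝ, y = (2 : ℝ) ^ (-(1 / 8 : ℝ) * (δ : ℝ)) := ⟨_, rfl⟩
  have hy0 : 0 < y := by rw [hy]; positivity
  rw [← hy]
  by_cases hs : δ < q * M
  · -- the difference of the levels is bounded
    refine (gf_mono (fun L h => h.1)).trans ((hM n hn).trans (ENNReal.ofReal_le_ofReal ?_))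
    rw [← hνd]
    refine mul_le_mul_of_nonneg_right ?_ hν.le
    have h1 : 1 ≤ (2 : ℝ) ^ ((q * M : ℕ) : ℝ) * y := by
      rw [hy, ← Real.rpow_add (by norm_num)]
      refine Real.one_le_rpow (by norm_num) ?_
      have h2 : (δ : ℝ) ≤ ((q * M : ℕ) : ℝ) := by exact_mod_cast hs.le
      have h3 : (0 : ℝ) ≤ (δ : ℝ) := Nat.cast_nonneg _
      linarith
    have h2 : A0 ≤ A3 * y := by
      rw [hA3]
      nlinarith
    nlinarith
  push Not at hs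
  obtain ⟨m, hm⟩ : ∃ m, m = δ / q := ⟨_, rfl⟩
  have hm1 : q * m ≤ δ := by rw [hm]; exact Nat.mul_div_le δ q
  have hm2 : δ < q * (m + 1) := by
    have := Nat.lt_mul_div_succ δ (show 0 < q by omega)
    rw [hm]
    exact this
  have hmM : M ≤ m := by
    rw [hm]
    exact (Nat.le_div_iff_mul_le (by omega)).2 (by rwa [mul_comm] at hs)
  have hmδ : m ≤ δ := le_trans (Nat.le_mul_of_pos_left m (by omega)) hm1
  obtain ⟨b, hb⟩ : ∃ b, b = i - m := ⟨_, rfl⟩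
  have hi : i = b + m := by omega
  have hbl : l ≤ b := by omega
  obtain ⟨h, hh1, hh2, hh3⟩ : ∃ h : ℕ, 1 ≤ h ∧ κ / 8 * Ub b ≤ (h : ℝ) ∧ 4 * (h : ℝ) ≤ κ * Ub b := by
    have hU := Ub_pos b
    refine ⟨⌈κ / 8 * Ub b⌉₊, Nat.one_le_ceil_iff.2 (by positivity), Nat.le_ceil _, ?_⟩
    have h1 : (⌈κ / 8 * Ub b⌉₊ : ℝ) < κ / 8 * Ub b + 1 := Nat.ceil_lt_add_one (by positivity)
    have h2 := hb2 b (by omega)
    linarith
  obtain ⟨g, hg⟩ : ∃ g : ℝ, g = B ^ m * (2 : ℝ) ^ ((1 / 8 - 2 / 3 : ℝ) * (δ : ℝ)) / 4 ^ m := ⟨_, rfl⟩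
  have hB0 : 0 < B := by linarith
  have hg0 : 0 < g := by rw [hg]; positivity
  have hx : B ^ m * (2 : ℝ) ^ ((1 / 8 - 2 / 3 : ℝ) * ((i : ℝ) - l)) * (Ub b / 4 ^ i) = g * (Ub b / 4 ^ b) := by
    rw [hδr, hg, hi, pow_add]
    field_simp
  have h1 := hE D n (b + m) b hD.le (fun n' i _ _ => hT n' i) (Nat.le_add_right b m) (RhoS (κ / 8) (2 * C) b l i)
    (ENNReal.ofReal (g * (Ub b / 4 ^ b))) ((h : ℝ) * h) (fun Y2 M Y1 hr => hr.1) (fun M => by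
      have h2 := hP n b l i m M hi (by omega) (by omega) (by omega) hli
      rw [hx] at h2
      rw [← hi]
      exact h2)
    (by have : (0 : ℝ) < h := by exact_mod_cast hh1
        positivity)
  have h2 := hF _ b m n h (C1 * D) g hn (by positivity) hg0.le hh2 h1
  have h3 := hB n b (m + 2) (2 ^ (m - 8)) hn (by omega) (by omega) (by
    rw [← pow_add]
    exact Nat.pow_le_pow_right (by norm_num) (by omega))
  have hsub : {L | L ∈ C0 n ∧ L ∈ ESe l i} ⊆ {L | L ∈ C0 n ∧ BadR κ C b (2 ^ (m - 8)) (2 ^ (b + (m + 2))) L} ∪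
      {L | L ∈ C0 n ∧ (h : ℝ) * h ≤ ((tri (2 ^ (b + m + 3)) (RhoS (κ / 8) (2 * C) b l i) L).ncard : ℝ)} := by
    rintro L ⟨hL, hL2⟩
    rcases hX n l i b m h (κ / 8) L hi (by omega) (by omega) (by omega) hh1 hh2 hh3 hL hL2 with h4 | ⟨N, h4, h5⟩
    · right
      refine ⟨hL, ?_⟩
      rw [← hi]
      have : ((h ^ 2 : ℕ) : ℝ) ≤ ((tri (2 ^ (i + 3)) (RhoS (κ / 8) (2 * C) b l i) L).ncard : ℝ) := by exact_mod_cast h4
      calc (h : ℝ) * h = ((h ^ 2 : ℕ) : ℝ) := by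
            push_cast
            ring
        _ ≤ _ := this
    · left
      refine ⟨hL, ?_⟩
      rw [show b + (m + 2) = i + 2 by omega]
      refine badR_anti ?_ h5
      have h6 : 2 ^ m = 2 ^ (m - 8) * 2 ^ 8 := by
        rw [← pow_add]
        congr 1
        omega
      rw [h6] at h4
      exact Nat.le_of_mul_le_mul_right h4 (by norm_num)
  refine (gf_mono hsub).trans ((gf_union_le _ _).trans ((add_le_add h3 h2).trans ?_))
  rw [← hνd, ← ENNReal.ofReal_add (by positivity) (by positivity)]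
  refine ENNReal.ofReal_le_ofReal ?_
  have h7 : (1 / 2 : ℝ) ^ (q * (m + 2)) ≤ y := by
    have e : (1 / 2 : ℝ) ^ (q * (m + 2)) = (2 : ℝ) ^ (-((q * (m + 2) : ℕ) : ℝ)) := by
      rw [Real.rpow_neg (by norm_num), Real.rpow_natCast, one_div, inv_pow]
    rw [e, hy]
    refine Real.rpow_le_rpow_of_exponent_le (by norm_num) ?_
    have h8 : δ ≤ q * (m + 2) := hm2.le.trans (Nat.mul_le_mul_left q (by omega))
    have h9 : (δ : ℝ) ≤ ((q * (m + 2) : ℕ) : ℝ) := by exact_mod_cast h8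
    have h10 : (0 : ℝ) ≤ (δ : ℝ) := Nat.cast_nonneg _
    linarith
  have h8 : g * 16 ^ m ≤ y := by
    have e : g * 16 ^ m = (4 * B) ^ m * (2 : ℝ) ^ ((1 / 8 - 2 / 3 : ℝ) * (δ : ℝ)) := by
      rw [hg, mul_pow, show (16 : ℝ) = 4 * 4 by norm_num, mul_pow]
      field_simp
    rw [e]
    have h9 : (4 * B) ^ m ≤ (2 : ℝ) ^ ((δ : ℝ) / 8) := by
      calc (4 * B) ^ m ≤ ((2 : ℝ) ^ ((q : ℝ) / 8)) ^ m := pow_le_pow_left₀ (by positivity) hBq m
        _ = (2 : ℝ) ^ ((q : ℝ) / 8 * m) := by rw [← Real.rpow_natCast, ← Real.rpow_mul (by norm_num)]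
        _ ≤ (2 : ℝ) ^ ((δ : ℝ) / 8) := by
            refine Real.rpow_le_rpow_of_exponent_le (by norm_num) ?_
            have : ((q * m : ℕ) : ℝ) ≤ (δ : ℝ) := by exact_mod_cast hm1
            push_cast at this
            linarith
    calc (4 * B) ^ m * (2 : ℝ) ^ ((1 / 8 - 2 / 3 : ℝ) * (δ : ℝ))
        ≤ (2 : ℝ) ^ ((δ : ℝ) / 8) * (2 : ℝ) ^ ((1 / 8 - 2 / 3 : ℝ) * (δ : ℝ)) :=
          mul_le_mul_of_nonneg_right h9 (by positivity)
      _ = (2 : ℝ) ^ ((δ : ℝ) / 8 + (1 / 8 - 2 / 3 : ℝ) * (δ : ℝ)) := by rw [Real.rpow_add (by norm_num)]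
      _ ≤ y := by
          rw [hy]
          refine Real.rpow_le_rpow_of_exponent_le (by norm_num) ?_
          have h10 : (0 : ℝ) ≤ (δ : ℝ) := Nat.cast_nonneg _
          linarith
  have h9 : K * (C1 * D) * g * 16 ^ m * ν ≤ K * (C1 * D) * y * ν := by
    have : K * (C1 * D) * g * 16 ^ m * ν = K * (C1 * D) * (g * 16 ^ m) * ν := by ring
    rw [this]
    gcongr
  have h10 : A * (1 / 2) ^ (q * (m + 2)) * ν ≤ A * y * ν := by gcongr
  have h11 : 0 ≤ A3 * y * ν := by positivity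
  calc A * (1 / 2) ^ (q * (m + 2)) * ν + K * (C1 * D) * g * 16 ^ m * ν
      ≤ A * y * ν + K * (C1 * D) * y * ν := add_le_add h10 h9
    _ ≤ (A3 + A + K * (C1 * D)) * y * ν := by nlinarith

/-- row T2S from one end -/
theorem t2S_of_one (h : ∃ (A : ℝ) (b0 : ℕ), 0 < A ∧ ∀ n l i : ℕ, b0 ≤ l → l ≤ i → 1 ≤ n →
    gf {L | L ∈ C0 n ∧ L ∈ ESe l i} ≤
      ENNReal.ofReal (A * (2 : ℝ) ^ (-(1 / 8 : ℝ) * ((i : ℝ) - l)) * (n : ℝ) ^ (-(3 / 2) : ℝ))) : T2S := by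
  obtain ⟨A, b0, hA, h⟩ := h
  refine ⟨2 * A, b0, by positivity, fun n l i hl hli hn => ?_⟩
  obtain ⟨T, hT⟩ : ∃ T : Set (List Bool), T = {L | L ∈ C0 n ∧ L ∈ ESe l i} := ⟨_, rfl⟩
  have hTm := h n l i hl hli hn
  rw [← hT] at hTm
  have hsub : {L | L ∈ C0 n ∧ (L ∈ ESe l i ∨ rv L ∈ ESe l i)} ⊆ T ∪ {L | rev L ∈ T} := by
    rintro L ⟨h1, h2 | h2⟩
    · left
      rw [hT]
      exact ⟨h1, h2⟩
    · right
      show rev L ∈ T
      rw [hT]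
      exact ⟨rev_C0 h1, ese_rv h2⟩
  calc gf {L | L ∈ C0 n ∧ (L ∈ ESe l i ∨ rv L ∈ ESe l i)}
      ≤ gf (T ∪ {L | rev L ∈ T}) := gf_mono hsub
    _ ≤ gf T + gf {L | rev L ∈ T} := gf_union_le _ _
    _ = gf T + gf T := by rw [TD.gf_rev_eq T]
    _ ≤ ENNReal.ofReal (A * (2 : ℝ) ^ (-(1 / 8 : ℝ) * ((i : ℝ) - l)) * (n : ℝ) ^ (-(3 / 2) : ℝ)) +
        ENNReal.ofReal (A * (2 : ℝ) ^ (-(1 / 8 : ℝ) * ((i : ℝ) - l)) * (n : ℝ) ^ (-(3 / 2) : ℝ)) := add_le_add hTm hTm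
    _ = _ := by
        rw [← ENNReal.ofReal_add (by positivity) (by positivity)]
        congr 1
        ring

/-- **row T2S** -/
theorem t2S : T2S := by
  obtain ⟨κ, hκ, C, -, hB⟩ := badRoot_all
  exact t2S_of_one (t2S1_of hκ t1 (exCs_of tipF2s) twoCr (pairS_of smL pMJ (pmv_of pMJ)) hB)

end ARM

end HexObs
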