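import Pool.Agent.ARM.PubG
import Pool.Agent.ARM.LowPt
import Pool.Agent.ARM.LowSm
import Pool.Agent.ARM.T2S

/-!
# ARM (A), closed (helper37)

All rows inserted: T1 (helpers 12, 19, 25, 28, 37, 44, 63, 70, 86 and others), T2N, T2S, T2Q, T2C, JoinSc, JFill, LowSm (helpers 7, 9, 13,
15, 28, 36, 37, 39, 44, 47, 51, 58, 63, 65, 70, 73, 74, 87, 94 and others). No hypothesis.
-/

set_option autoImplicit false

namespace HexObs

namespace ARM

/-- **the lower bound at a point** -/
theorem lowPt : LowPt := lowPt_in t2S

/-- **the lower bound at a point near the start** -/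
theorem lowSm : LowSm := lowSm_of (jLow_in t2S)

end ARM

end HexObs
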