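import Pool.Agent.ARM.LowUp2
import Pool.Agent.ARM.Num

/-!
# ARM, row L0 (helper51), part C: one joinable word is filled up to exactly n letters
-/

set_option autoImplicit false

namespace HexObs

namespace ARM

namespace LS

open Finset TS SDN SIM NTA TIP G3

open scoped ENNReal

/-- the tubes exist -/
def TAll (H Mx kT : ℕ) : Prop := ∀ (k r b : ℕ) (D : ℤ) (e : ℕ → Pt) (z : Pt), kT ≤ k → 18 * (H * 2 ^ k) ≤ D →
  D ≤ 36 * (H * 2 ^ k) → 1 ≤ r → r ≤ Mx → IPg e r → e 0 = up → TIW.hn (z - AR.pv e D r) ≤ 2 ^ (k + 2) →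
    cl z = (if Even b then 0 else 2) → cl (e (r - 1)) = (if Even b then 2 else 1) → 1 / 64 * ml k ≤ b → (b : ℝ) ≤ ml k →
      ∃ Q, TubeQ e D (2 ^ (k + 9)) r z Q ∧ Q.length = b

lemma tAll : ∃ H0 : ℕ, 2 ^ 13 ≤ H0 ∧ ∀ H : ℕ, H0 ≤ H → ∀ Mx : ℕ, ∃ kT : ℕ, TAll H Mx kT := by
  obtain ⟨H0, h0, h⟩ := AR.tubeSt (1 / 64) 1 (by norm_num) (by norm_num)
  refine ⟨H0, h0, fun H hH Mx => ?_⟩
  obtain ⟨c, k0, hc, h1⟩ := h H hH Mx
  refine ⟨k0, fun k r b D e z g1 g2 g3 g4 g5 g6 g7 g8 g9 g10 g11 g12 => ?_⟩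
  have h2 := h1 k r b D e z g1 g2 g3 g4 g5 g6 g7 g8 g9 g10 g11 (by rw [one_mul]; exact g12)
  by_contra hne
  push Not at hne
  have h3 : {Q | TubeQ e D (2 ^ (k + 9)) r z Q ∧ Q.length = b} = ∅ := by
    ext Q
    simp only [Set.mem_setOf_eq, Set.mem_empty_iff_false, iff_false]
    rintro ⟨k1, k2⟩
    exact hne Q k1 k2
  rw [h3] at h2
  have h4 : gf (∅ : Set (List Bool)) = 0 := by
    unfold gf
    exact tsum_empty
  rw [h4, nonpos_iff_eq_zero, ENNReal.ofReal_eq_zero] at h2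
  have h5 : 0 < c * (Ub k / (4 ^ k * ml k)) := by
    have := Ub_pos k
    have := ml_pos k
    positivity
  linarith

lemma tEx {H Mx kT k : ℕ} (h : TAll H Mx kT) (hM : 4 ≤ Mx) (hk : kT ≤ k) {D : ℤ} (h1 : 18 * (H * 2 ^ k) ≤ D)
    (h2 : D ≤ 36 * (H * 2 ^ k)) : AR.TEx D k (1 / 64 * ml k) (ml k) :=
  fun r b e z g1 g2 g3 g4 g5 g6 g7 g8 g9 => h k r b D e z hk h1 h2 g1 (g2.trans hM) g3 g4 g5 g6 g7 g8 g9

lemma ipg_up (r : ℕ) : IPg (fun _ => up) r := by
  refine ⟨fun _ _ => TIW.upd', fun _ _ => Or.inl rfl, fun i j hij _ => ?_⟩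
  have h1 : ∀ i, AR.ps (fun _ => up) i = (i : ℤ) • up := fun i => by
    unfold AR.ps
    rw [sum_const, card_range, natCast_zsmul]
  rw [h1, h1, ← sub_smul]
  have h2 : ∀ t : ℤ, nrm (t • up) = t * t := fun t => by
    simp only [nrm, up, Prod.smul_mk, smul_eq_mul]
    ring
  rw [h2]
  have h3 : (2 : ℤ) ≤ (j : ℤ) - i := by omega
  nlinarith

/-- one of the rotations has a negative level -/
lemma neg_rot {z : Pt} (hz : z ≠ 0) : ∃ y ∈ E3 z, ip y up < 0 ∧ TIW.hn y = TIW.hn z ∧ cl y = cl z := by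
  obtain ⟨a, b⟩ := z
  have e1 : mulE (-1, 1) (a, b) = (-a - b, a) := by
    ext <;> simp only [mulE] <;> ring
  have e2 : mulE (-1, 1) (-a - b, a) = (b, -a - b) := by
    ext <;> simp only [mulE] <;> ring
  have i1 : ∀ p q : ℤ, ip (p, q) up = p + 2 * q := fun p q => by simp only [ip, up]; ring
  have hu : nrm ((-1, 1) : Pt) = 1 := by decide
  have hcl : ∀ p : Pt, cl (mulE (-1, 1) p) = cl p := fun p => by
    rw [AR.cl_mulE, show cl ((-1, 1) : Pt) = 1 by decide, one_mul]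
  have h1 : a + 2 * b < 0 ∨ a - b < 0 ∨ -2 * a - b < 0 := by
    by_contra hc
    push Not at hc
    refine hz ?_
    have : a = 0 ∧ b = 0 := by omega
    rw [this.1, this.2]
    rfl
  rcases h1 with h1 | h1 | h1
  · exact ⟨(a, b), Or.inl rfl, by rw [i1]; exact h1, rfl, rfl⟩
  · refine ⟨(-a - b, a), Or.inr (Or.inl e1.symm), by rw [i1]; omega, ?_, ?_⟩
    · rw [← e1, TIW.hn_mulE hu]
    · rw [← e1, hcl]
  · refine ⟨(b, -a - b), Or.inr (Or.inr (by rw [Set.mem_singleton_iff, e1, e2])), by rw [i1]; omega, ?_, ?_⟩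
    · rw [← e2, TIW.hn_mulE hu, ← e1, TIW.hn_mulE hu]
    · rw [← e2, hcl, ← e1, hcl]

/-- the even number of letters of the tubes -/
noncomputable def BB (k : ℕ) : ℕ := 2 * ⌈ml k / 8⌉₊

lemma BB_le (k : ℕ) (hk : 16 ≤ ml k) : 1 / 64 * ml k ≤ BB k ∧ ((BB k + 1 : ℕ) : ℝ) ≤ ml k := by
  have h1 := Nat.le_ceil (ml k / 8)
  have h2 := Nat.ceil_lt_add_one (show 0 ≤ ml k / 8 by linarith)
  unfold BB
  push_cast
  constructor <;> linarith

/-- **the filling** -/
theorem fill {H Mx kT k k1 r h N n s b1 : ℕ} {D : ℤ} {E : ℕ → Pt} {M : List Bool} {z : Pt} (hT : TAll H Mx kT) (hH : 2 ^ 13 ≤ H)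
    (hMx : 4 ≤ Mx) (hk : kT ≤ k) (hk1 : kT ≤ k1) (hk1' : 1 ≤ k1) (hk3 : 3 ≤ k) (hml : 16 ≤ ml k) (hh : 3 ≤ h)
    (hsz : 18 * (H * 2 ^ k1) * (2 * (h : ℤ) + 8 + 8 * N) + (2 ^ (k1 + 9) + 8) ≤ 2 ^ k) (hzk : TIW.hn z + 8 ≤ 2 ^ k) (hz0 : z ≠ 0)
    (hcl : cl z = (if Even n then 0 else 2)) (hD1 : 18 * (H * 2 ^ k) ≤ D) (hD2 : D ≤ 36 * (H * 2 ^ k)) (hr : 4 ≤ r)
    (hrM : r ≤ Mx) (hE : IPg E r) (hup : E (r - 1) = up) (hup2 : E (r - 2) = up) (hJ : Jn E r D k M)
    (hb1 : b1 = if Even M.length then BB k else BB k + 1) (hs0 : Even s) (hs1 : (AR.sR h N : ℝ) * (1 / 64 * ml k1 + 3) ≤ s)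
    (hs2 : 4 * (s : ℝ) ≤ AR.sR h N * (ml k1 - 3)) (hn : n = s + BB k + M.length + b1 + (if Even n then 0 else 1)) :
    ∃ P2 P1 : List Bool, P2.length = s + BB k ∧ P2 ++ (M ++ P1) ∈ WE n z := by
  obtain ⟨H', hH'⟩ : ∃ H' : ℤ, H' = H := ⟨_, rfl⟩
  have hH13 : (8192 : ℤ) ≤ H' := by
    rw [hH']
    have : 8192 ≤ H := hH
    exact_mod_cast this
  rw [← hH'] at hsz hD1 hD2
  have q1 : (1 : ℤ) ≤ 2 ^ k1 := one_le_pow₀ (by norm_num)
  have e9 : (2 : ℤ) ^ (k1 + 9) = 512 * 2 ^ k1 := by ring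
  have e10 : (2 : ℤ) ^ (k1 + 10) = 1024 * 2 ^ k1 := by ring
  have hHk1 : 8192 * (2 : ℤ) ^ k1 ≤ H' * 2 ^ k1 := mul_le_mul_of_nonneg_right hH13 (by linarith)
  have hk0 : (0 : ℤ) < 2 ^ k := by positivity
  have hHk : 8192 * (2 : ℤ) ^ k ≤ H' * 2 ^ k := mul_le_mul_of_nonneg_right hH13 hk0.le
  have e12 : (2 : ℤ) ^ (k + 12) = 4096 * 2 ^ k := by ring
  have e2 : (2 : ℤ) ^ (k + 2) = 4 * 2 ^ k := by ring
  have k8 : (8 : ℤ) ≤ 2 ^ k := by
    have : (2 : ℤ) ^ 3 ≤ 2 ^ k := pow_le_pow_right₀ (by norm_num) hk3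
    linarith
  have hmk1 := ml_pos k1
  obtain ⟨b3, b4⟩ := BB_le k hml
  have hBe : Even (BB k) := by
    unfold BB
    exact even_two_mul _
  -- the serpentine
  obtain ⟨D1, hDd⟩ : ∃ D1 : ℤ, D1 = 18 * (H' * 2 ^ k1) := ⟨_, rfl⟩
  rw [← hDd] at hsz
  have hTE : AR.TEx D1 k1 (1 / 64 * ml k1) (ml k1) := tEx hT hMx hk1 (by rw [hDd, hH']) (by
    rw [hDd, hH']
    rw [hH'] at hHk1
    linarith)
  obtain ⟨y, S, hy, hcy, hS, hSl⟩ := AR.sn_word (h := h) (M := N) hTE hk1' (by rw [e10]; linarith) hh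
    (by positivity) hs0 hs1 hs2
  -- the two ends
  obtain ⟨D', hD'⟩ : ∃ D' : ℤ, D' = D - D % 3 := ⟨_, rfl⟩
  have hD3 : (3 : ℤ) ∣ D' := by
    rw [hD']
    omega
  obtain ⟨p2, hp2d⟩ : ∃ p2 : Pt, p2 = -(D' • up) := ⟨_, rfl⟩
  have hcsm : ∀ t : ℤ, cl (t • up) = (t : ZMod 3) * 2 := fun t => by
    unfold cl up
    simp only [Prod.smul_mk, smul_eq_mul]
    push_cast
    have h3 : (3 : ZMod 3) = 0 := by decide
    linear_combination (-(t : ZMod 3)) * h3
  have hcneg : ∀ p : Pt, cl (-p) = -cl p := fun p => by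
    unfold cl
    simp only [Prod.fst_neg, Prod.snd_neg]
    push_cast
    ring
  have hcp2 : cl p2 = 0 := by
    rw [hp2d, hcneg, hcsm, (ZMod.intCast_zmod_eq_zero_iff_dvd D' 3).2 hD3]
    ring
  have hp2n : TIW.hn (p2 + D • up) ≤ 4 := by
    have h1 : p2 + D • up = (D % 3) • up := by
      rw [hp2d, hD', sub_smul]
      abel
    have h2 : TIW.hn ((D % 3) • up) = |2 * (D % 3)| := by
      have i2 : ip ((D % 3) • up) (rotL up) = D % 3 := by
        simp only [ip, up, rotL, Prod.smul_mk, smul_eq_mul]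
        ring
      have i3 : ip ((D % 3) • up) (rotR up) = D % 3 := by
        simp only [ip, up, rotR, Prod.smul_mk, smul_eq_mul]
        ring
      have i1 : ip ((D % 3) • up) up = 2 * (D % 3) := by
        simp only [ip, up, Prod.smul_mk, smul_eq_mul]
        ring
      unfold TIW.hn
      rw [i1, i2, i3]
      have h3 : 0 ≤ D % 3 := by omega
      rw [abs_of_nonneg h3, abs_of_nonneg (by linarith), max_self]
      exact max_eq_left (by linarith)
    rw [h1, h2, abs_le]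
    constructor <;> omega
  obtain ⟨z', hz', hzn, hzh, hzc⟩ := neg_rot hz0
  obtain ⟨dl, hdl⟩ : ∃ dl : ℕ, dl = if Even n then 0 else 1 := ⟨_, rfl⟩
  obtain ⟨p1, hp1d⟩ : ∃ p1 : Pt, p1 = p2 + z' - (dl : ℤ) • up := ⟨_, rfl⟩
  have hdl1 : dl ≤ 1 := by
    rw [hdl]
    split_ifs <;> omega
  have hup_n : TIW.hn up = 2 := by decide
  have hclu : cl up = 2 := by decide
  have hdn : TIW.hn ((dl : ℤ) • up) ≤ 2 := by
    have : dl = 0 ∨ dl = 1 := by omega
    rcases this with h1 | h1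
    · rw [h1, Nat.cast_zero, zero_smul]
      decide
    · rw [h1, Nat.cast_one, one_smul, hup_n]
  have hcp1 : cl p1 = 0 := by
    have h1 : cl p1 = cl p2 + cl z' + -(cl ((dl : ℤ) • up)) := by
      rw [hp1d, sub_eq_add_neg, AR.cl_add', AR.cl_add', hcneg]
    rw [h1, hcp2, hzc, hcl, hcsm, hdl]
    split_ifs <;> decide
  have hp1n : TIW.hn (p1 + D • up) ≤ 2 ^ k := by
    have h1 : p1 + D • up = (p2 + D • up) + z' - (dl : ℤ) • up := by
      rw [hp1d]
      abel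
    rw [h1]
    have h2 := TIW.hn_sub ((p2 + D • up) + z') ((dl : ℤ) • up)
    have h3 := TIW.hn_add (p2 + D • up) z'
    rw [hzh] at h3
    linarith
  -- Q2
  have hsz' : D1 * (2 * (h : ℤ) + 8 + 8 * N) + (2 ^ (k1 + 9) + 4) + 4 ≤ 2 ^ k := by linarith
  have hyn := (sn_geo (h := h) (M := N) (D1 := D1) (w := 2 ^ (k1 + 9) + 4) (by rw [e9]; linarith) (by positivity) hy hS).2.2.2.2.2
  obtain ⟨Q, hQ, hQl⟩ := hT k 1 (BB k) D (fun _ => up) (-p2 - y) hk (by rw [← hH']; exact hD1) (by rw [← hH']; exact hD2) le_rfl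
    (by omega) (ipg_up 1) rfl (by
      have h1 : AR.pv (fun _ => up) D 1 = D • up := by
        unfold AR.pv AR.ps
        rw [sum_range_one]
      rw [h1, show -p2 - y - D • up = -((p2 + D • up) + y) by abel, TIW.hn_neg]
      refine (TIW.hn_add _ _).trans ?_
      have : (0 : ℤ) < 2 ^ (k1 + 9) := by positivity
      linarith) (by
      have h1 : cl (-p2 - y) = -cl p2 + -cl y := by
        rw [sub_eq_add_neg, AR.cl_add', hcneg, hcneg]
      rw [h1, hcp2, hcy, if_pos hBe]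
      decide) (by
      rw [if_pos hBe]
      exact hclu) b3 (by
      push_cast at b4
      linarith)
  have hU : Up2 D (2 ^ (k + 10)) p2 (S ++ Q) := up2_of (h := h) (M := N) (D1 := D1) (w := 2 ^ (k1 + 9) + 4) hk3 (by rw [e9]; linarith)
    (by positivity) hsz' hp2n (by rw [e12]; linarith) hy hS hQ
  -- Q1
  have hb1e : Even (M.length + b1) := by
    rw [hb1]
    split_ifs with g
    · exact g.add hBe
    · have g1 : Odd M.length := Nat.not_even_iff_odd.1 g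
      exact g1.add_odd (Even.add_one hBe)
  have hpath : IPg (fun i => mulE (rc M) (E i)) (r - 1) := by
    have h1 := ipg_rot hE (nrm_rc M)
    exact ⟨fun i hi => h1.dir i (by omega), fun i hi => h1.tur i (by omega), fun i j hij hj => h1.ind i j hij (by omega)⟩
  have he0 : mulE (rc M) (E 0) = up := by
    have h1 : mulE (TIW.rt M) (mulE (rc M) (E 0)) = mulE (TIW.rt M) up := by
      rw [rt_rc, ← hJ.de, TIW.rt_up]
    exact mulE_inj (TIW.nrm_rt M) h1
  obtain ⟨Q1, hQ1, hQ1l⟩ := hT k (r - 1) b1 D (fun i => mulE (rc M) (E i)) (mulE (rc M) (p1 - TIW.en M)) hk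
    (by rw [← hH']; exact hD1) (by rw [← hH']; exact hD2) (by omega) (by omega) hpath he0 (by
      have h1 := AR.rt_pv M E D 0 (r - 1)
      have h2 : AR.nx M E 0 = fun i => mulE (rc M) (E i) := by
        funext i
        unfold AR.nx
        rw [zero_add]
      rw [h2] at h1
      have h3 : TIW.hn (mulE (rc M) (p1 - TIW.en M) - AR.pv (fun i => mulE (rc M) (E i)) D (r - 1)) =
          TIW.hn (mulE (TIW.rt M) (mulE (rc M) (p1 - TIW.en M) - AR.pv (fun i => mulE (rc M) (E i)) D (r - 1))) :=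
        (TIW.hn_mulE (TIW.nrm_rt M) _).symm
      have h4 : AR.pv E D 0 = 0 := by
        unfold AR.pv
        rw [ps_zero, smul_zero]
      have h5 := pv_qv E D r (r - 1)
      have h6 := qv_pre (E := E) (D := D) hup (by omega : 1 ≤ r)
      rw [h3, mulE_sub, rt_rc, h1, zero_add, h4, sub_zero, h5, h6,
        show p1 - TIW.en M - (-(D • up) - qv E D r 0) = (p1 + D • up) - (TIW.en M - qv E D r 0) by abel]
      have h7 := TIW.hn_sub (p1 + D • up) (TIW.en M - qv E D r 0)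
      have h8 := hJ.pos
      linarith) (AR.tg_cl (A := M) (n := M.length + b1) rfl (by rw [if_pos hb1e]; exact hcp1)) (by
      have h1 := AR.nx_cl (A := M) (e := E) (p := 0) (n := M.length + b1) (b := b1) (j := r - 1 - 1) rfl (by
        rw [zero_add, show r - 1 - 1 = r - 2 by omega, hup2, if_pos hb1e]
        exact hclu)
      unfold AR.nx at h1
      rw [zero_add] at h1
      exact h1) (by
      rw [hb1]
      split_ifs
      · exact b3
      · push_cast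
        linarith) (by
      rw [hb1]
      split_ifs
      · push_cast at b4
        linarith
      · exact b4)
  have hQ1' : T1 E r D k M p1 Q1 := hQ1
  have hSQ : (S ++ Q).length = s + BB k := by rw [List.length_append, hSl, hQl]
  have hipu : ip up up = 2 := by decide
  have hlev : ip (p1 + (dl : ℤ) • up) up < ip p2 up := by
    have h1 : p1 + (dl : ℤ) • up = p2 + z' := by
      rw [hp1d]
      abel
    rw [h1, ip_add_left]
    linarith
  by_cases hne : Even n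
  · rw [if_pos hne] at hdl hn
    rw [hdl, Nat.cast_zero, zero_smul, add_zero] at hlev
    refine ⟨S ++ Q, Q1, hSQ, geo hE hr hup hup2 (by rw [e12]; linarith) hJ hQ1' hU hlev, ?_, ?_⟩
    · have hl : ((S ++ Q) ++ (M ++ Q1)).length = (S ++ Q).length + (M.length + Q1.length) := by
        simp only [List.length_append]
      rw [hl, hSQ, hQ1l]
      omega
    · rw [(geo_en hr hup2 hQ1' hU).1, hp1d, hdl, Nat.cast_zero, zero_smul, sub_zero, add_sub_cancel_left]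
      exact hz'
  · rw [if_neg hne] at hdl hn
    rw [hdl, Nat.cast_one, one_smul] at hlev
    obtain ⟨g1, g2⟩ := geo1 hE hr hup hup2 (by rw [e12]; linarith) hJ hQ1' hU hp1n (by omega) hlev true
    refine ⟨S ++ Q, Q1 ++ [true], hSQ, ?_⟩
    have h1 : (S ++ Q) ++ (M ++ (Q1 ++ [true])) = ((S ++ Q) ++ (M ++ Q1)) ++ [true] := by
      simp only [List.append_assoc]
    rw [h1]
    refine ⟨g1, ?_, ?_⟩
    · have hl : (((S ++ Q) ++ (M ++ Q1)) ++ [true]).length = (S ++ Q).length + (M.length + Q1.length) + 1 := by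
        simp only [List.length_append, List.length_singleton]
      rw [hl, hSQ, hQ1l]
      omega
    · rw [g2, hp1d, hdl, Nat.cast_one, one_smul, show p2 + z' - up + up - p2 = z' by abel]
      exact hz'

end LS

end ARM

end HexObs
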