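import Pool.Agent.ARM.Defs2
import Pool.Agent.ARM2.SnakeW

/-!
# ARM, row L0 (helper51), part A: geometry of the closing with a small displacement

Frame of M (start at the origin, first direction up). Q1 = tube word from the end of M along the first r - 1 steps to p1, Q2 =
a word from p2 up to the origin (`Up2`); p1 is lower than p2. `geo` : Q2 ++ (M ++ Q1) is self avoiding, `geo1` : also with one
more letter.
-/

set_option autoImplicit false

namespace HexObs

namespace ARM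

namespace LS

open Finset TS SDN SIM NTA TIP G3

open scoped ENNReal

variable {E : ℕ → Pt} {r k : ℕ} {D w : ℤ} {M Q1 Q2 : List Bool} {p1 p2 : Pt}

/-- words from p2 up to the origin -/
structure Up2 (D w : ℤ) (p2 : Pt) (Q : List Bool) : Prop where
  sa : Q ∈ SA
  en : TIW.en Q = -p2
  de : TIW.de Q = up
  rg : ∀ i, i ≤ Q.length → AR.NS (-(D • up)) up D w (p2 + vx oo up Q i)
  st : ∀ i, 1 ≤ i → i ≤ Q.length → 0 < ip (vx oo up Q i) up
  bd : ∀ i, i ≤ Q.length → ip (p2 + vx oo up Q i) up ≤ 0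

/-- Q1 from the end of M to p1 -/
def T1 (E : ℕ → Pt) (r : ℕ) (D : ℤ) (k : ℕ) (M : List Bool) (p1 : Pt) (Q : List Bool) : Prop :=
  TubeQ (fun i => mulE (rc M) (E i)) D (2 ^ (k + 9)) (r - 1) (mulE (rc M) (p1 - TIW.en M)) Q

lemma near1 (hJ : Jn E r D k M) {j : ℕ} {p : Pt} (h : Nr (fun i => mulE (rc M) (E i)) D (2 ^ (k + 9)) j p) :
    AR.NS (qv E D r j) (E j) D (2 ^ (k + 10)) (TIW.en M + mulE (TIW.rt M) p) := by
  have h1 := near_abs (jn_plc hJ (s := 0) (by
    have h0 : TIW.hn (0 : Pt) = 0 := by decide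
    rw [h0]
    positivity)) h
  rwa [zero_add] at h1

lemma qv_pre (hup : E (r - 1) = up) (hr : 1 ≤ r) : qv E D r (r - 1) = -(D • up) := by
  have h1 := qv_last E D hr
  rw [hup] at h1
  exact eq_neg_of_add_eq_zero_left h1

/-- M ++ Q1 -/
lemma sa1 (hr : 2 ≤ r) (hJ : Jn E r D k M) (hQ : T1 E r D k M p1 Q1) : M ++ Q1 ∈ SA := by
  have e11 : (2 : ℤ) ^ (k + 10) ≤ 2 ^ (k + 11) := pow_le_pow_right₀ (by norm_num) (by omega)
  refine AR.sa_app hJ.sa hQ.sa fun i hi q hq1 hq2 he => ?_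
  obtain ⟨j, hj, hj1⟩ := hQ.rg q hq2
  have g1 := near1 hJ hj1
  rw [← he] at g1
  rcases Nat.eq_zero_or_pos j with h0 | h0
  · subst h0
    rcases hQ.st q hq1 hq2 with g2 | ⟨j', g2, g3, g4⟩
    · have g5 := hJ.fst i hi (g1.mono e11)
      rw [he, add_sub_cancel_left, ← hJ.de, AR.ip_rt] at g5
      linarith
    · have g5 := near1 hJ g4
      rw [← he] at g5
      exact hJ.mid i hi j' g2 (by omega) (g5.mono e11)
  · exact hJ.mid i hi j h0 (by omega) (g1.mono e11)

lemma en1 (hQ : T1 E r D k M p1 Q1) : TIW.en (M ++ Q1) = p1 := by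
  have h1 : TIW.en Q1 = mulE (rc M) (p1 - TIW.en M) := hQ.en
  rw [TIW.en_app, h1, rt_rc]
  abel

lemma de1 (hr : 2 ≤ r) (hup2 : E (r - 2) = up) (hQ : T1 E r D k M p1 Q1) : TIW.de (M ++ Q1) = up := by
  have h1 : TIW.de Q1 = mulE (rc M) (E (r - 1 - 1)) := hQ.de
  rw [TIW.de_app, h1, rt_rc, show r - 1 - 1 = r - 2 by omega, hup2]

/-- the vertices of M ++ Q1: either not above p1, or near one of the segments j, j + 2 < r -/
lemma low1 (hr : 3 ≤ r) (hup2 : E (r - 2) = up) (hJ : Jn E r D k M) (hQ : T1 E r D k M p1 Q1) {q : ℕ} (hq : q ≤ Q1.length) :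
    ip (TIW.en M + mulE (TIW.rt M) (vx oo up Q1 q) - p1) up ≤ 0 ∨ ∃ j, j + 2 < r ∧
      AR.NS (qv E D r j) (E j) D (2 ^ (k + 10)) (TIW.en M + mulE (TIW.rt M) (vx oo up Q1 q)) := by
  rcases hQ.bd q hq with g | ⟨j, g1, g2⟩
  · left
    have e1 := ip_mulE (TIW.rt M) (vx oo up Q1 q - mulE (rc M) (p1 - TIW.en M)) (mulE (rc M) (E (r - 1 - 1)))
    rw [TIW.nrm_rt, one_mul, rt_rc, mulE_sub, rt_rc, show r - 1 - 1 = r - 2 by omega, hup2] at e1
    rw [show r - 1 - 1 = r - 2 by omega, hup2] at g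
    rw [show TIW.en M + mulE (TIW.rt M) (vx oo up Q1 q) - p1 = mulE (TIW.rt M) (vx oo up Q1 q) - (p1 - TIW.en M) by abel, e1]
    exact g
  · exact Or.inr ⟨j, by omega, near1 hJ g2⟩

lemma rt_id {Q : List Bool} (h : TIW.de Q = up) (x : Pt) : mulE (TIW.rt Q) x = x := by
  have h1 : mulE (TIW.rt Q) up = mulE (1, 0) up := by
    rw [TIW.rt_up, h, mulE_one]
  have h2 : TIW.rt Q = (1, 0) := by
    have h3 : mulE (TIW.rt Q) up = mulE up (TIW.rt Q) := mulE_comm _ _
    have h4 : mulE ((1, 0) : Pt) up = mulE up (1, 0) := mulE_comm _ _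
    rw [h3, h4] at h1
    exact mulE_inj (by decide) h1
  rw [h2, mulE_one]

lemma rt2 {p2 : Pt} {Q : List Bool} (h : Up2 D w p2 Q) (x : Pt) : mulE (TIW.rt Q) x = x := rt_id h.de x

/-- **no common vertex** -/
theorem geo (hE : IPg E r) (hr : 4 ≤ r) (hup : E (r - 1) = up) (hup2 : E (r - 2) = up) (hD : 2 ^ (k + 12) ≤ D)
    (hJ : Jn E r D k M) (hQ1 : T1 E r D k M p1 Q1) (hQ2 : Up2 D (2 ^ (k + 10)) p2 Q2) (hlt : ip p1 up < ip p2 up) :
    Q2 ++ (M ++ Q1) ∈ SA := by
  have e11 : (2 : ℤ) ^ (k + 10) ≤ 2 ^ (k + 11) := pow_le_pow_right₀ (by norm_num) (by omega)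
  have hp : (0 : ℤ) < 2 ^ (k + 10) := by positivity
  have e12 : (2 : ℤ) ^ (k + 12) = 4 * 2 ^ (k + 10) := by ring
  have hlast := qv_pre (D := D) hup (by omega : 1 ≤ r)
  refine AR.sa_app hQ2.sa (sa1 (by omega) hJ hQ1) fun i hi q hq1 hq2 he => ?_
  rw [rt2 hQ2, hQ2.en] at he
  have he' : p2 + vx oo up Q2 i = vx oo up (M ++ Q1) q := by
    rw [he]
    abel
  have g1 : AR.NS (qv E D r (r - 1)) (E (r - 1)) D (2 ^ (k + 10)) (p2 + vx oo up Q2 i) := by
    rw [hlast, hup]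
    exact hQ2.rg i hi
  have g2 := hQ2.bd i hi
  have g3 : ip p2 up ≤ ip (p2 + vx oo up Q2 i) up := by
    rw [ip_add_left]
    rcases Nat.eq_zero_or_pos i with h0 | h0
    · subst h0
      have : ip (vx oo up Q2 0) up = 0 := lev_zero Q2
      rw [this, add_zero]
    · have := hQ2.st i h0 hi
      linarith
  rw [List.length_append] at hq2
  rcases Nat.lt_or_ge M.length q with h1 | h1
  · obtain ⟨q', rfl⟩ : ∃ q', q = M.length + q' := ⟨q - M.length, by omega⟩
    rw [he', vx_MQ] at g1 g3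
    rcases low1 (by omega) hup2 hJ hQ1 (show q' ≤ Q1.length by omega) with g | ⟨j, g4, g5⟩
    · rw [AR.ip_sub_left] at g
      linarith
    · have g6 := ipg_sep hE (by omega : j + 1 < r - 1) (by omega) g1 g5
      rw [sub_self, show TIW.hn (0 : Pt) = 0 by decide] at g6
      linarith
  · rw [vx_append (by omega)] at he'
    rw [he'] at g1 g2
    have g7 := hJ.lst q hq1 h1 (g1.mono e11)
    linarith

/-- **the displacement and the direction** -/
lemma geo_en (hr : 4 ≤ r) (hup2 : E (r - 2) = up) (hQ1 : T1 E r D k M p1 Q1) (hQ2 : Up2 D (2 ^ (k + 10)) p2 Q2) :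
    TIW.en (Q2 ++ (M ++ Q1)) = p1 - p2 ∧ TIW.de (Q2 ++ (M ++ Q1)) = up := by
  constructor
  · rw [TIW.en_app, rt2 hQ2, hQ2.en, en1 hQ1]
    abel
  · rw [TIW.de_app, rt2 hQ2, de1 (by omega) hup2 hQ1]

/-- **one more letter** -/
theorem geo1 (hE : IPg E r) (hr : 4 ≤ r) (hup : E (r - 1) = up) (hup2 : E (r - 2) = up) (hD : 2 ^ (k + 12) ≤ D)
    (hJ : Jn E r D k M) (hQ1 : T1 E r D k M p1 Q1) (hQ2 : Up2 D (2 ^ (k + 10)) p2 Q2) (hp1 : TIW.hn (p1 + D • up) ≤ 2 ^ k)
    (hk : 1 ≤ k) (hlt : ip (p1 + up) up < ip p2 up) (c : Bool) :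
    (Q2 ++ (M ++ Q1)) ++ [c] ∈ SA ∧ TIW.en ((Q2 ++ (M ++ Q1)) ++ [c]) = p1 + up - p2 := by
  have e11 : (2 : ℤ) ^ (k + 10) ≤ 2 ^ (k + 11) := pow_le_pow_right₀ (by norm_num) (by omega)
  have hp : (0 : ℤ) < 2 ^ (k + 10) := by positivity
  have e12 : (2 : ℤ) ^ (k + 12) = 4 * 2 ^ (k + 10) := by ring
  have e10 : (2 : ℤ) ^ (k + 10) = 1024 * 2 ^ k := by ring
  have hk2 : (2 : ℤ) ≤ 2 ^ k := by
    have : (2 : ℤ) ^ 1 ≤ 2 ^ k := pow_le_pow_right₀ (by norm_num) hk
    linarith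
  have hD0 : 0 ≤ D := by linarith
  have hipu : ip up up = 2 := by decide
  have hlast := qv_pre (D := D) hup (by omega : 1 ≤ r)
  have hlt' : ip p1 up < ip p2 up := by
    rw [ip_add_left, hipu] at hlt
    linarith
  have hL := geo hE hr hup hup2 hD hJ hQ1 hQ2 hlt'
  obtain ⟨hen, hde⟩ := geo_en hr hup2 hQ1 hQ2
  obtain ⟨L, hLd⟩ : ∃ L, L = Q2 ++ (M ++ Q1) := ⟨_, rfl⟩
  rw [← hLd] at hL hen hde ⊢
  have hv1 : vx oo up [c] 1 = up := by
    cases c <;> decide
  have hrt : mulE (TIW.rt L) up = up := by rw [TIW.rt_up, hde]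
  -- the new vertex
  obtain ⟨x, hx⟩ : ∃ x, x = p1 + up := ⟨_, rfl⟩
  have hxn : TIW.hn (x + D • up) ≤ 2 ^ (k + 10) := by
    have h1 : x + D • up = (p1 + D • up) + up := by
      rw [hx]
      abel
    have h2 : TIW.hn up = 2 := by decide
    rw [h1]
    refine (TIW.hn_add _ _).trans ?_
    rw [h2, e10]
    linarith
  have hxl : AR.NS (qv E D r (r - 1)) (E (r - 1)) D (2 ^ (k + 10)) x := by
    refine ⟨0, le_rfl, hD0, ?_⟩
    rw [hlast, zero_smul, add_zero, sub_neg_eq_add]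
    exact hxn
  have hxm : AR.NS (qv E D r (r - 2)) (E (r - 2)) D (2 ^ (k + 11)) x := by
    refine ⟨D, hD0, le_rfl, ?_⟩
    have h1 : qv E D r (r - 2) + D • E (r - 2) = qv E D r (r - 1) := by
      unfold qv
      rw [← smul_add]
      congr 1
      obtain ⟨q, rfl⟩ : ∃ q, r = q + 2 := ⟨r - 2, by omega⟩
      rw [show q + 2 - 2 = q by omega, show q + 2 - 1 = q + 1 by omega, AR.ps_succ E q]
      abel
    rw [h1, hlast, sub_neg_eq_add]
    exact hxn.trans e11
  refine ⟨AR.sa_app hL ?_ fun i hi q hq1 hq2 he => ?_, ?_⟩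
  · refine ⟨fun _ _ _ => Set.mem_univ _, fun a b hab hb he => ?_⟩
    have hb1 : b ≤ 1 := by simpa using hb
    have ha : a = 0 := by omega
    have hb' : b = 1 := by omega
    rw [ha, hb', hv1, show vx oo up [c] 0 = oo from rfl] at he
    revert he
    decide
  · have hq : q = 1 := by
      have : q ≤ 1 := by simpa using hq2
      omega
    rw [hq, hv1, hrt, hen] at he
    -- the three parts
    rcases Nat.lt_or_ge Q2.length i with h1 | h1
    · obtain ⟨i', rfl⟩ : ∃ i', i = Q2.length + i' := ⟨i - Q2.length, by omega⟩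
      rw [hLd, TIW.vx_app, rt2 hQ2, hQ2.en] at he
      rw [hLd, List.length_append, List.length_append] at hi
      have he' : vx oo up (M ++ Q1) i' = x := by
        have h2 : vx oo up (M ++ Q1) i' = (-p2 + vx oo up (M ++ Q1) i') + p2 := by abel
        rw [h2, he, hx]
        abel
      rcases Nat.lt_or_ge M.length i' with h2 | h2
      · obtain ⟨q', rfl⟩ : ∃ q', i' = M.length + q' := ⟨i' - M.length, by omega⟩
        rw [vx_MQ] at he'
        rcases low1 (by omega) hup2 hJ hQ1 (show q' ≤ Q1.length by omega) with g | ⟨j, g4, g5⟩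
        · rw [he', hx, add_sub_cancel_left, hipu] at g
          linarith
        · rw [he'] at g5
          have g6 := ipg_sep hE (by omega : j + 1 < r - 1) (by omega) hxl g5
          rw [sub_self, show TIW.hn (0 : Pt) = 0 by decide] at g6
          linarith
      · rw [vx_append (by omega)] at he'
        refine hJ.mid i' h2 (r - 2) (by omega) (by omega) ?_
        rw [he']
        exact hxm
    · rw [hLd, vx_append (by omega)] at he
      have g3 : ip p2 up ≤ ip (p2 + vx oo up Q2 i) up := by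
        rw [ip_add_left]
        rcases Nat.eq_zero_or_pos i with h0 | h0
        · subst h0
          have : ip (vx oo up Q2 0) up = 0 := lev_zero Q2
          rw [this, add_zero]
        · have := hQ2.st i h0 h1
          linarith
      rw [he, show p2 + (p1 - p2 + up) = p1 + up by abel] at g3
      linarith
  · have h1 : TIW.en [c] = up := hv1
    rw [TIW.en_app, h1, hrt, hen]
    abel

end LS

end ARM

end HexObs
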