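import Pool.Agent.ARM.Defs2
import Pool.Agent.ARM.Num
import Pool.Agent.ARM2.TubeF
import Pool.Agent.JNT.LocEM
import Pool.Agent.TPC.XLow

/-!
ARM, row L1 (helper51): the lower bound at the points at a distance of the order n ^ (3/4), from `JNT.locE_M` (words).
-/

set_option autoImplicit false

namespace HexObs

namespace ARM

open Finset TS SDN SIM NTA TIP

open scoped ENNReal

namespace LM

/-- one of the three rotations by 120 degrees is in the sector of `JNT.LocE` -/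
lemma sector (z : Pt) : ∃ x ∈ E3 z, |cross up x| ≤ ip x up ∧ TIW.hn z ≤ 2 * ip x up ∧ ip x up ≤ TIW.hn z ∧
    (∀ y : Pt, y = x ∨ y = JNT.r3 x ∨ y = JNT.r3 (JNT.r3 x) → y ∈ E3 z) ∧ ip x up % 3 = ip z up % 3 := by
  obtain ⟨a, b⟩ := z
  have e1 : mulE (-1, 1) (a, b) = (-a - b, a) := by
    ext <;> simp only [mulE] <;> ring
  have e2 : mulE (-1, 1) (-a - b, a) = (b, -a - b) := by
    ext <;> simp only [mulE] <;> ring
  have e3 : mulE (-1, 1) (b, -a - b) = (a, b) := by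
    ext <;> simp only [mulE] <;> ring
  have hE : E3 (a, b) = {(a, b), (-a - b, a), (b, -a - b)} := by
    unfold E3
    rw [e1, e2]
  have hh : TIW.hn (a, b) = max |a + 2 * b| (max |b - a| |2 * a + b|) := by
    unfold TIW.hn
    have h1 : ip (a, b) up = a + 2 * b := by simp only [ip, up]; ring
    have h2 : ip (a, b) (rotL up) = b - a := by simp only [ip, up, rotL]; ring
    have h3 : ip (a, b) (rotR up) = 2 * a + b := by simp only [ip, up, rotR]; ring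
    rw [h1, h2, h3]
  have i1 : ∀ p q : ℤ, ip (p, q) up = p + 2 * q := fun p q => by simp only [ip, up]; ring
  have i2 : ∀ p q : ℤ, cross up (p, q) = -p := fun p q => by simp only [cross, up]; ring
  rw [hE, hh]
  by_cases h1 : a - b ≤ a + 2 * b ∧ -2 * a - b ≤ a + 2 * b
  · refine ⟨(a, b), by simp, ?_, ?_, ?_, ?_, ?_⟩
    · rw [i1, i2]
      rw [abs_le]
      constructor <;> omega
    · rw [i1]
      refine max_le ?_ (max_le ?_ ?_) <;> rw [abs_le] <;> constructor <;> omega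
    · rw [i1]
      exact le_max_of_le_left (le_abs_self _)
    · intro y hy
      unfold JNT.r3 at hy
      rw [e1, e2] at hy
      simpa using hy
    · rfl
  by_cases h2 : a + 2 * b ≤ a - b ∧ -2 * a - b ≤ a - b
  · refine ⟨(-a - b, a), by simp, ?_, ?_, ?_, ?_, ?_⟩
    · rw [i1, i2]
      rw [abs_le]
      constructor <;> omega
    · rw [i1]
      refine max_le ?_ (max_le ?_ ?_) <;> rw [abs_le] <;> constructor <;> omega
    · rw [i1]
      exact le_max_of_le_right (le_max_of_le_left (by rw [abs_sub_comm]; exact le_trans (by omega) (le_abs_self _)))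
    · intro y hy
      unfold JNT.r3 at hy
      rw [e2, e3] at hy
      rcases hy with rfl | rfl | rfl <;> simp
    · rw [i1, i1]
      omega
  · refine ⟨(b, -a - b), by simp, ?_, ?_, ?_, ?_, ?_⟩
    · rw [i1, i2]
      rw [abs_le]
      constructor <;> omega
    · rw [i1]
      refine max_le ?_ (max_le ?_ ?_) <;> rw [abs_le] <;> constructor <;> omega
    · rw [i1]
      exact le_max_of_le_right (le_max_of_le_right (by rw [← abs_neg]; exact le_trans (by omega) (le_abs_self _)))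
    · intro y hy
      unfold JNT.r3 at hy
      rw [e3, e1] at hy
      rcases hy with rfl | rfl | rfl <;> simp
    · rw [i1, i1]
      omega


lemma cl_ip (z : Pt) : cl z = ((ip z up : ℤ) : ZMod 3) := by
  have h1 : ip z up = (z.1 - z.2) + 3 * z.2 := by
    simp only [ip, up]
    ring
  have h3 : (3 : ZMod 3) = 0 := by decide
  unfold cl
  rw [h1]
  push_cast
  rw [h3]
  ring

/-- the class condition -/
lemma par {n : ℕ} {z : Pt} {t : ℤ} (h : cl z = (if Even n then 0 else 2)) (ht : t % 3 = ip z up % 3) :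
    if n % 2 = 0 then t % 3 = 0 else t % 3 = 2 := by
  rw [cl_ip] at h
  rw [ht]
  by_cases hn : Even n
  · rw [if_pos hn] at h
    rw [if_pos (Nat.even_iff.1 hn)]
    have := (ZMod.intCast_zmod_eq_zero_iff_dvd (ip z up) 3).1 h
    omega
  · rw [if_neg hn] at h
    rw [if_neg (fun h' => hn (Nat.even_iff.2 h'))]
    have h2 : ((ip z up - 2 : ℤ) : ZMod 3) = 0 := by
      push_cast
      rw [h]
      decide
    have := (ZMod.intCast_zmod_eq_zero_iff_dvd (ip z up - 2) 3).1 h2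
    omega

/-- pr / (4 ^ j ml j) as a power -/
lemma pr_le (n j : ℕ) : pr n j / (4 ^ j * ml j) ≤ (2 : ℝ) ^ (-(37 / 24 : ℝ) * (j : ℝ)) := by
  have h1 : pr n j ≤ pw j := by
    rw [pr_eq]
    have h2 : (ml j / max (n : ℝ) (ml j)) ^ (3 / 2 : ℝ) ≤ 1 := by
      apply Real.rpow_le_one (div_pos (ml_pos j) (max_pos n j)).le _ (by norm_num)
      rw [div_le_one (max_pos n j)]
      exact le_max_right _ _
    have := pw_pos j
    nlinarith
  have h4 : (4 : ℝ) ^ j = (2 : ℝ) ^ ((2 : ℝ) * (j : ℝ)) := by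
    rw [Real.rpow_mul (by norm_num), Real.rpow_natCast]
    norm_num
  have hm := ml_pos j
  rw [div_le_iff₀ (by positivity)]
  refine h1.trans (le_of_eq ?_)
  unfold pw ml
  rw [h4, ← Real.rpow_add (by norm_num), ← Real.rpow_add (by norm_num)]
  congr 1
  ring

lemma pow_ml (j s : ℕ) : 2 ^ s * ml j ≤ ml (j + s) := by
  rw [ml_add]
  refine mul_le_mul_of_nonneg_right ?_ (ml_pos j).le
  rw [← Real.rpow_natCast]
  exact Real.rpow_le_rpow_of_exponent_le (by norm_num) (by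
    have : (0 : ℝ) ≤ s := Nat.cast_nonneg s
    linarith)

end LM

open LM

/-- **row L1** (the points at a distance of the order n ^ (3/4)) -/
def LowMid : Prop := ∀ b : ℕ, ∃ (c : ℝ) (j0 : ℕ), 0 < c ∧ ∀ (n j : ℕ) (z : Pt), j0 ≤ j → ml j ≤ n → (n : ℝ) ≤ 2 ^ b * ml j →
  2 ^ j ≤ 2 ^ b * TIW.hn z → TIW.hn z ≤ 2 ^ (j + b) → cl z = (if Even n then 0 else 2) →
    ENNReal.ofReal (c * (pr n j / (4 ^ j * ml j))) ≤ gf (WE n z)

theorem lowMid : LowMid := by
  intro b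
  obtain ⟨c1, C1, hc1, hC1, hml⟩ := AR.ml_mm
  obtain ⟨cU, hcU, hU⟩ := GLow.UU_low
  obtain ⟨cX, hcX, hX⟩ := TPC.xLow
  obtain ⟨s, hs1, hs2⟩ : ∃ s : ℕ, (2 : ℝ) ^ b < c1 * 2 ^ s ∧ C1 < 2 ^ s := by
    obtain ⟨s1, h1⟩ := pow_unbounded_of_one_lt ((2 : ℝ) ^ b / c1) (show (1 : ℝ) < 2 by norm_num)
    obtain ⟨s2, h2⟩ := pow_unbounded_of_one_lt C1 (show (1 : ℝ) < 2 by norm_num)
    rw [div_lt_iff₀ hc1] at h1
    refine ⟨s1 + s2, ?_, ?_⟩
    · have h3 : (2 : ℝ) ^ s1 ≤ 2 ^ (s1 + s2) := pow_le_pow_right₀ (by norm_num) (by omega)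
      nlinarith
    · have h3 : (2 : ℝ) ^ s2 ≤ 2 ^ (s1 + s2) := pow_le_pow_right₀ (by norm_num) (by omega)
      linarith
  obtain ⟨c, k0, hc, hL⟩ := JNT.locE_M (1 / 2 ^ (b + 1 + s)) (2 ^ (s + b)) (by positivity) (by
    have h1 : (1 : ℝ) ≤ 2 ^ (b + 1 + s) := one_le_pow₀ (by norm_num)
    have h2 : (1 : ℝ) ≤ 2 ^ (s + b) := one_le_pow₀ (by norm_num)
    exact ((div_le_one (by positivity)).2 h1).trans h2)
  obtain ⟨j1, hj1⟩ := pow_unbounded_of_one_lt (AR.mm 0) (show (1 : ℝ) < 2 by norm_num)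
  refine ⟨c * cU * cX / C1 * (2 : ℝ) ^ (-(37 / 24 : ℝ) * (s : ℝ)), k0 + s + j1, by positivity, ?_⟩
  intro n j z hj hn1 hn2 hz1 hz2 hcl
  -- the scale of the mean length
  have hmj := ml_pos j
  have hn0 : AR.mm 0 ≤ n := by
    have h1 : (2 : ℝ) ^ j1 ≤ 2 ^ j := pow_le_pow_right₀ (by norm_num) (by omega)
    have h2 := pow_ml 0 j
    rw [ml_zero, mul_one, zero_add] at h2
    linarith
  have hex : ∃ k : ℕ, (n : ℝ) < AR.mm (k + 1) := by
    obtain ⟨k, hk⟩ := pow_unbounded_of_one_lt ((n : ℝ) / AR.mm 0) (show (1 : ℝ) < 2 by norm_num)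
    rw [div_lt_iff₀ (AR.mm_pos 0)] at hk
    refine ⟨k, ?_⟩
    have h1 := AR.mm_low 0 (k + 1)
    rw [zero_add] at h1
    have h2 : (2 : ℝ) ^ k ≤ 2 ^ (k + 1) := pow_le_pow_right₀ (by norm_num) (by omega)
    have h3 := AR.mm_pos 0
    nlinarith
  classical
  obtain ⟨k, hk1, hk2⟩ : ∃ k : ℕ, AR.mm k ≤ n ∧ (n : ℝ) < AR.mm (k + 1) := by
    refine ⟨Nat.find hex, ?_, Nat.find_spec hex⟩
    rcases Nat.eq_zero_or_pos (Nat.find hex) with h | h
    · rw [h]
      exact hn0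
    · have h1 := Nat.find_min hex (Nat.sub_one_lt_of_lt h)
      rw [Nat.sub_add_cancel h] at h1
      exact not_lt.1 h1
  have hkj : k ≤ j + s := by
    by_contra h
    have h1 : ml (j + s) ≤ ml k := ml_le (by omega)
    have h2 := pow_ml j s
    have h3 := (hml k).1
    nlinarith
  have hjk : j ≤ k + s := by
    by_contra h
    have h1 : ml (k + 1 + s) ≤ ml j := ml_le (by omega)
    have h2 := pow_ml (k + 1) s
    have h3 := (hml (k + 1)).2
    have h4 := ml_pos (k + 1)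
    nlinarith
  -- the rotation
  obtain ⟨x, hxE, hx1, hx2, hx3, hx4, hx5⟩ := sector z
  have e1 : 1 / 2 ^ (b + 1 + s) * 2 ^ k ≤ ((ip x up : ℤ) : ℝ) := by
    have h1 : (2 : ℝ) ^ j ≤ 2 ^ b * (TIW.hn z : ℝ) := by exact_mod_cast hz1
    have h2 : (TIW.hn z : ℝ) ≤ 2 * ((ip x up : ℤ) : ℝ) := by exact_mod_cast hx2
    have h3 : (2 : ℝ) ^ k ≤ 2 ^ (j + s) := pow_le_pow_right₀ (by norm_num) hkj
    rw [one_div, inv_mul_le_iff₀ (by positivity)]
    calc (2 : ℝ) ^ k ≤ 2 ^ (j + s) := h3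
      _ = 2 ^ s * 2 ^ j := by rw [pow_add]; ring
      _ ≤ 2 ^ s * (2 ^ b * (2 * ((ip x up : ℤ) : ℝ))) := by
        refine mul_le_mul_of_nonneg_left (h1.trans ?_) (by positivity)
        exact mul_le_mul_of_nonneg_left h2 (by positivity)
      _ = _ := by rw [pow_add, pow_add]; ring
  have e2 : ((ip x up : ℤ) : ℝ) ≤ 2 ^ (s + b) * 2 ^ k := by
    have h1 : (TIW.hn z : ℝ) ≤ 2 ^ (j + b) := by exact_mod_cast hz2
    have h2 : ((ip x up : ℤ) : ℝ) ≤ (TIW.hn z : ℝ) := by exact_mod_cast hx3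
    have h3 : (2 : ℝ) ^ (j + b) ≤ 2 ^ (k + s + b) := pow_le_pow_right₀ (by norm_num) (by omega)
    calc ((ip x up : ℤ) : ℝ) ≤ 2 ^ (k + s + b) := h2.trans (h1.trans h3)
      _ = _ := by rw [pow_add, pow_add, pow_add]; ring
  have key := hL k n x (by omega) hk1 hk2 e1 e2 hx1 (par hcl hx5)
  refine le_trans ?_ (key.trans (gf_mono ?_))
  · -- the numbers
    unfold NTW.nuX
    have h1 := hX k
    have h2 : cU * (2 : ℝ) ^ ((3 / 4 : ℝ) * (k : ℝ)) ≤ Ub k := by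
      have h3 := hU (2 ^ k) Nat.one_le_two_pow
      have h4 : ((2 ^ k : ℕ) : ℝ) ^ (3 / 4 : ℝ) = (2 : ℝ) ^ ((3 / 4 : ℝ) * (k : ℝ)) := by
        push_cast
        rw [← Real.rpow_natCast, ← Real.rpow_mul (by norm_num)]
        congr 1
        ring
      rw [h4] at h3
      exact h3
    have hm : 0 < AR.mm k := AR.mm_pos k
    have h5 : cU * (2 : ℝ) ^ ((3 / 4 : ℝ) * (k : ℝ)) / (C1 * ml k) ≤ Ub k / AR.mm k := by
      apply div_le_div₀ (le_trans (by positivity) h2) h2 hm (hml k).2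
    have h6 : c * cU * cX / C1 * (2 : ℝ) ^ (-(37 / 24 : ℝ) * (s : ℝ)) * (pr n j / (4 ^ j * ml j)) ≤
        c / 4 ^ k * (cU * (2 : ℝ) ^ ((3 / 4 : ℝ) * (k : ℝ)) / (C1 * ml k) * (cX * (2 : ℝ) ^ (25 / 24 * (k : ℝ)))) := by
      have h7 := pr_le n j
      have h8 : c / 4 ^ k * (cU * (2 : ℝ) ^ ((3 / 4 : ℝ) * (k : ℝ)) / (C1 * ml k) * (cX * (2 : ℝ) ^ (25 / 24 * (k : ℝ)))) =
          c * cU * cX / C1 * (2 : ℝ) ^ (-(37 / 24 : ℝ) * (k : ℝ)) := by
        have h4 : (4 : ℝ) ^ k = (2 : ℝ) ^ ((2 : ℝ) * (k : ℝ)) := by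
          rw [Real.rpow_mul (by norm_num), Real.rpow_natCast]
          norm_num
        have h9 : (2 : ℝ) ^ (-(37 / 24 : ℝ) * (k : ℝ)) * ((2 : ℝ) ^ ((2 : ℝ) * (k : ℝ)) * ml k) =
            (2 : ℝ) ^ ((3 / 4 : ℝ) * (k : ℝ)) * (2 : ℝ) ^ (25 / 24 * (k : ℝ)) := by
          unfold ml
          rw [← Real.rpow_add (by norm_num), ← Real.rpow_add (by norm_num), ← Real.rpow_add (by norm_num)]
          congr 1
          ring
        rw [h4]
        have hk4 : (0 : ℝ) < (2 : ℝ) ^ ((2 : ℝ) * (k : ℝ)) := by positivity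
        have hk5 := ml_pos k
        generalize (2 : ℝ) ^ ((2 : ℝ) * (k : ℝ)) = A at h9 hk4 ⊢
        generalize (2 : ℝ) ^ ((3 / 4 : ℝ) * (k : ℝ)) = U at h9 ⊢
        generalize (2 : ℝ) ^ (25 / 24 * (k : ℝ)) = W at h9 ⊢
        generalize (2 : ℝ) ^ (-(37 / 24 : ℝ) * (k : ℝ)) = V at h9 ⊢
        generalize ml k = q at h9 hk5 ⊢
        have h11 : c / A * (cU * U / (C1 * q) * (cX * W)) = c * cU * cX * (U * W) / (C1 * (A * q)) := by
          field_simp
        rw [h11, ← h9]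
        field_simp
      rw [h8]
      have h10 : (2 : ℝ) ^ (-(37 / 24 : ℝ) * (s : ℝ)) * (2 : ℝ) ^ (-(37 / 24 : ℝ) * (j : ℝ)) ≤
          (2 : ℝ) ^ (-(37 / 24 : ℝ) * (k : ℝ)) := by
        rw [← Real.rpow_add (by norm_num)]
        apply Real.rpow_le_rpow_of_exponent_le (by norm_num)
        have : (k : ℝ) ≤ j + s := by exact_mod_cast hkj
        linarith
      calc c * cU * cX / C1 * (2 : ℝ) ^ (-(37 / 24 : ℝ) * (s : ℝ)) * (pr n j / (4 ^ j * ml j))
          ≤ c * cU * cX / C1 * (2 : ℝ) ^ (-(37 / 24 : ℝ) * (s : ℝ)) * (2 : ℝ) ^ (-(37 / 24 : ℝ) * (j : ℝ)) :=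
            mul_le_mul_of_nonneg_left h7 (by positivity)
        _ = c * cU * cX / C1 * ((2 : ℝ) ^ (-(37 / 24 : ℝ) * (s : ℝ)) * (2 : ℝ) ^ (-(37 / 24 : ℝ) * (j : ℝ))) := by ring
        _ ≤ _ := mul_le_mul_of_nonneg_left h10 (by positivity)
    calc ENNReal.ofReal (c * cU * cX / C1 * (2 : ℝ) ^ (-(37 / 24 : ℝ) * (s : ℝ)) * (pr n j / (4 ^ j * ml j)))
        ≤ ENNReal.ofReal (c / 4 ^ k * (cU * (2 : ℝ) ^ ((3 / 4 : ℝ) * (k : ℝ)) / (C1 * ml k) *
          (cX * (2 : ℝ) ^ (25 / 24 * (k : ℝ))))) := ENNReal.ofReal_le_ofReal h6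
      _ = ENNReal.ofReal (c / 4 ^ k) * (ENNReal.ofReal (cU * (2 : ℝ) ^ ((3 / 4 : ℝ) * (k : ℝ)) / (C1 * ml k)) *
          ENNReal.ofReal (cX * (2 : ℝ) ^ (25 / 24 * (k : ℝ)))) := by
            have := ml_pos k
            rw [ENNReal.ofReal_mul (by positivity), ENNReal.ofReal_mul (by positivity)]
      _ ≤ _ := by
        gcongr
  · rintro t ⟨ht, hx⟩
    exact ⟨ht.2, ht.1, hx4 _ (by
      have : TIW.en t = vx oo up t n := by
        unfold TIW.en
        rw [ht.1]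
      rw [this]
      exact hx)⟩

end ARM

end HexObs
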