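import Pool.Agent.ARM.PlcS
import Pool.Agent.NTA.TbM
import Pool.Agent.VF.MeanZ
import Pool.Agent.VF.SharpZ
import Pool.Agent.TPC.StSum

/-!
# ARM, row G3 (helper87): the second moment of the length of the low bridges
-/

set_option autoImplicit false

namespace HexObs

namespace ARM

namespace G3

open Finset TS SDN SIM NTA TIP

open scoped ENNReal

/-- the explicit powers -/
lemma mz_up : ∃ C : ℝ, 1 ≤ C ∧ ∀ k : ℕ, PW.mZ (2 ^ (k + 2)) ≤ C * ml k := by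
  obtain ⟨C, hC, h⟩ := VF.mUp VF.sharpZ
  refine ⟨max 1 (C * (2 : ℝ) ^ (8 / 3 : ℝ)), le_max_left _ _, fun k => ?_⟩
  have h1 : (2 : ℝ) ^ (4 / 3 * ((k + 2 : ℕ) : ℝ)) = (2 : ℝ) ^ (8 / 3 : ℝ) * ml k := by
    unfold ml
    rw [← Real.rpow_add (by norm_num : (0 : ℝ) < 2)]
    congr 1
    push_cast
    ring
  refine (h (k + 2)).trans ?_
  rw [h1, ← mul_assoc]
  refine mul_le_mul_of_nonneg_right (le_max_right _ _) ?_
  unfold ml
  positivity

/-- dyadic layers of a square -/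
lemma layers {y : ℝ} (hy : 0 ≤ y) : ENNReal.ofReal ((1 + y) ^ 2) ≤
    4 + ∑' i : ℕ, (if (2 : ℝ) ^ i ≤ y then ENNReal.ofReal (4 ^ (i + 2)) else 0) := by
  rcases lt_or_ge y 1 with h | h
  · refine le_trans ?_ le_self_add
    have h1 : (1 + y) ^ 2 ≤ 4 := by nlinarith
    calc ENNReal.ofReal ((1 + y) ^ 2) ≤ ENNReal.ofReal 4 := ENNReal.ofReal_le_ofReal h1
      _ = 4 := by simp
  · refine le_trans ?_ le_add_self
    obtain ⟨i, hi1, hi2⟩ : ∃ i : ℕ, (2 : ℝ) ^ i ≤ y ∧ y < 2 ^ (i + 1) := by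
      obtain ⟨i, h1, h2⟩ := exists_nat_pow_near h (by norm_num : (1 : ℝ) < 2)
      exact ⟨i, h1, h2⟩
    refine le_trans ?_ (ENNReal.le_tsum i)
    rw [if_pos hi1]
    refine ENNReal.ofReal_le_ofReal ?_
    have h3 : (1 : ℝ) ≤ 2 ^ i := one_le_pow₀ (by norm_num)
    have h4 : (4 : ℝ) ^ (i + 2) = (2 ^ (i + 2)) ^ 2 := by
      rw [← pow_mul, mul_comm, pow_mul]
      norm_num
    rw [h4]
    have h5 : (2 : ℝ) ^ (i + 1) = 2 * 2 ^ i := by ring
    have h6 : (2 : ℝ) ^ (i + 2) = 4 * 2 ^ i := by ring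
    rw [h5] at hi2
    rw [h6]
    exact pow_le_pow_left₀ (by linarith) (by linarith) 2

/-- **the second moment of the length of the low bridges** -/
theorem low_mom : ∃ C : ℝ, 0 < C ∧ ∀ k : ℕ, ∑' Z : BL k, wE (Z : List Bool) *
    ENNReal.ofReal ((1 + ((Z : List Bool).length : ℝ) / ml k) ^ 2) ≤ ENNReal.ofReal (C * Ub k) := by
  classical
  obtain ⟨C0, hC0, hup⟩ := mz_up
  obtain ⟨A, hA, hB⟩ := tb_M 3
  refine ⟨(1 + C0) ^ 2 * (16 + 128 * A), by positivity, fun k => ?_⟩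
  obtain ⟨m, hm⟩ : ∃ m, m = PW.mZ (2 ^ (k + 2)) := ⟨_, rfl⟩
  have hm0 : 0 < m := by
    rw [hm]
    exact mlow_M.pos (k + 2)
  have hml : 0 < ml k := by
    unfold ml
    positivity
  have hmu : m ≤ C0 * ml k := by
    rw [hm]
    exact hup k
  have hU : 0 < Ub k := Num2Aux.UU_pos _
  have hU2 : Ub (k + 2) ≤ 4 * Ub k := by
    have := TPC.Ub_pow k 2
    norm_num at this
    exact this
  -- pointwise
  have h1 : ∀ Z : List Bool, ENNReal.ofReal ((1 + (Z.length : ℝ) / ml k) ^ 2) ≤ ENNReal.ofReal ((1 + C0) ^ 2) *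
      (4 + ∑' i : ℕ, (if (2 : ℝ) ^ i ≤ (Z.length : ℝ) / m then ENNReal.ofReal (4 ^ (i + 2)) else 0)) := by
    intro Z
    refine le_trans ?_ (mul_le_mul' le_rfl (layers (by positivity)))
    rw [← ENNReal.ofReal_mul (by positivity), ← mul_pow]
    refine ENNReal.ofReal_le_ofReal (pow_le_pow_left₀ (by positivity) ?_ 2)
    have h2 : (Z.length : ℝ) / ml k ≤ C0 * ((Z.length : ℝ) / m) := by
      rw [div_le_iff₀ hml]
      have h3 : (Z.length : ℝ) = (Z.length : ℝ) / m * m := by field_simp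
      have h4 : 0 ≤ (Z.length : ℝ) / m := by positivity
      calc (Z.length : ℝ) = (Z.length : ℝ) / m * m := h3
        _ ≤ (Z.length : ℝ) / m * (C0 * ml k) := mul_le_mul_of_nonneg_left hmu h4
        _ = _ := by ring
    have h4 : 0 ≤ (Z.length : ℝ) / m := by positivity
    nlinarith
  -- the tail
  have h2 : ∀ i : ℕ, gf {Z | Z ∈ BL k ∧ (2 : ℝ) ^ i ≤ (Z.length : ℝ) / m} ≤ ENNReal.ofReal (A / (2 ^ i) ^ 3 * (4 * Ub k)) := by
    intro i
    have h3 : {Z | Z ∈ BL k ∧ (2 : ℝ) ^ i ≤ (Z.length : ℝ) / m} ⊆ ⋃ h ∈ range (2 ^ (k + 2) + 1),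
        {Z | Z ∈ Brd h ∧ 2 ^ i * m ≤ (Z.length : ℝ)} := by
      rintro Z ⟨⟨hZ, hh⟩, hl⟩
      rw [Set.mem_iUnion₂]
      refine ⟨hgt Z, mem_range.2 (by omega), TIP.BU_hgt hZ, ?_⟩
      rw [le_div_iff₀ hm0] at hl
      exact hl
    refine (gf_mono h3).trans ((GgJumpAux.gf_biUnion_le _ _).trans ?_)
    have h4 := hB (k + 2) (2 ^ i) (one_le_pow₀ (by norm_num))
    unfold NTm.TL at h4
    simp only [← hm] at h4
    refine h4.trans (ENNReal.ofReal_le_ofReal ?_)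
    exact mul_le_mul_of_nonneg_left hU2 (by positivity)
  -- the sum
  have h5 : ∑' Z : BL k, wE (Z : List Bool) * ENNReal.ofReal ((1 + ((Z : List Bool).length : ℝ) / ml k) ^ 2) ≤
      ENNReal.ofReal ((1 + C0) ^ 2) * (4 * gf (BL k) + ∑' i : ℕ, ENNReal.ofReal (4 ^ (i + 2)) *
        gf {Z | Z ∈ BL k ∧ (2 : ℝ) ^ i ≤ (Z.length : ℝ) / m}) := by
    have h6 : ∀ i : ℕ, ENNReal.ofReal (4 ^ (i + 2)) * gf {Z | Z ∈ BL k ∧ (2 : ℝ) ^ i ≤ (Z.length : ℝ) / m} =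
        ∑' Z : BL k, wE (Z : List Bool) * (if (2 : ℝ) ^ i ≤ ((Z : List Bool).length : ℝ) / m then ENNReal.ofReal (4 ^ (i + 2)) else 0) := by
      intro i
      rw [AR.gf_ite, ← ENNReal.tsum_mul_left, tsum_subtype (BL k) (fun Z : List Bool => wE Z *
        (if (2 : ℝ) ^ i ≤ (Z.length : ℝ) / m then ENNReal.ofReal (4 ^ (i + 2)) else 0))]
      refine tsum_congr fun Z => ?_
      by_cases hZ : Z ∈ BL k
      · rw [Set.indicator_of_mem hZ]
        by_cases hl : (2 : ℝ) ^ i ≤ (Z.length : ℝ) / m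
        · rw [if_pos ⟨hZ, hl⟩, if_pos hl, mul_comm]
        · rw [if_neg (fun h => hl h.2), if_neg hl]
          ring
      · rw [Set.indicator_of_notMem hZ, if_neg (fun h => hZ h.1), mul_zero]
    rw [tsum_congr h6, ENNReal.tsum_comm]
    unfold gf
    rw [← ENNReal.tsum_mul_left (a := (4 : ℝ≥0∞)), ← ENNReal.tsum_add, ← ENNReal.tsum_mul_left]
    refine ENNReal.tsum_le_tsum fun Z => ?_
    rw [ENNReal.tsum_mul_left]
    calc wE (Z : List Bool) * ENNReal.ofReal ((1 + ((Z : List Bool).length : ℝ) / ml k) ^ 2) ≤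
        wE (Z : List Bool) * (ENNReal.ofReal ((1 + C0) ^ 2) * (4 + ∑' i : ℕ,
          (if (2 : ℝ) ^ i ≤ ((Z : List Bool).length : ℝ) / m then ENNReal.ofReal (4 ^ (i + 2)) else 0))) :=
          mul_le_mul' le_rfl (h1 Z)
      _ = _ := by ring
  refine h5.trans ?_
  have h7 : gf (BL k) ≤ ENNReal.ofReal (4 * Ub k) :=
    (TIP.gf_low (2 ^ (k + 2))).trans (ENNReal.ofReal_le_ofReal hU2)
  have h8 : ∑' i : ℕ, ENNReal.ofReal (4 ^ (i + 2)) * gf {Z | Z ∈ BL k ∧ (2 : ℝ) ^ i ≤ (Z.length : ℝ) / m} ≤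
      ENNReal.ofReal (128 * A * Ub k) := by
    have h9 : ∀ i : ℕ, ENNReal.ofReal (4 ^ (i + 2)) * gf {Z | Z ∈ BL k ∧ (2 : ℝ) ^ i ≤ (Z.length : ℝ) / m} ≤
        ENNReal.ofReal (64 * A * Ub k * (1 / 2) ^ i) := by
      intro i
      refine (mul_le_mul' le_rfl (h2 i)).trans ?_
      rw [← ENNReal.ofReal_mul (by positivity)]
      refine ENNReal.ofReal_le_ofReal (le_of_eq ?_)
      have e1 : (4 : ℝ) ^ (i + 2) = 16 * (2 ^ i) ^ 2 := by
        rw [pow_add, ← pow_mul, mul_comm i 2, pow_mul]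
        norm_num
        ring
      have e2 : ((1 : ℝ) / 2) ^ i = 1 / 2 ^ i := by
        rw [div_pow, one_pow]
      rw [e1, e2]
      have h10 : (2 : ℝ) ^ i ≠ 0 := by positivity
      field_simp
      ring
    refine (ENNReal.tsum_le_tsum h9).trans ?_
    rw [← ENNReal.ofReal_tsum_of_nonneg (fun i => by positivity)
      ((summable_geometric_two).mul_left _), tsum_mul_left, tsum_geometric_two]
    refine ENNReal.ofReal_le_ofReal (le_of_eq ?_)
    ring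
  calc ENNReal.ofReal ((1 + C0) ^ 2) * (4 * gf (BL k) + ∑' i : ℕ, ENNReal.ofReal (4 ^ (i + 2)) *
        gf {Z | Z ∈ BL k ∧ (2 : ℝ) ^ i ≤ (Z.length : ℝ) / m}) ≤
      ENNReal.ofReal ((1 + C0) ^ 2) * (ENNReal.ofReal 4 * ENNReal.ofReal (4 * Ub k) + ENNReal.ofReal (128 * A * Ub k)) := by
        refine mul_le_mul' le_rfl (add_le_add (mul_le_mul' (le_of_eq (by simp)) h7) h8)
    _ = ENNReal.ofReal ((1 + C0) ^ 2 * (16 + 128 * A) * Ub k) := by
        rw [← ENNReal.ofReal_mul (by norm_num), ← ENNReal.ofReal_add (by positivity) (by positivity),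
          ← ENNReal.ofReal_mul (by positivity)]
        congr 1
        ring

end G3

end ARM

end HexObs
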