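import Pool.Agent.ARM.LowGeo

/-!
# ARM, row L0 (helper51), part B: words from p2 up to the origin, any number of letters

The serpentine (small scale, mesh D1) from p2, then a straight tube (scale k, mesh D) to the origin.
-/

set_option autoImplicit false

namespace HexObs

namespace ARM

namespace LS

open Finset TS SDN SIM NTA TIP G3

open scoped ENNReal

variable {e : ℕ → Pt} {R k h M : ℕ} {D D1 w : ℤ} {S Q : List Bool} {p2 y : Pt}

/-- points near a segment: level and first coordinate -/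
lemma seg_box {j : ℕ} {x : Pt} (hx : AR.NS (AR.pv e D j) (e j) D w x) : ∃ t : ℤ, 0 ≤ t ∧ t ≤ D ∧ ∃ q : Pt, TIW.hn (x - q) ≤ w ∧
    ip q up = (D - t) * ip (AR.ps e j) up + t * ip (AR.ps e (j + 1)) up ∧
      q.1 = (D - t) * (AR.ps e j).1 + t * (AR.ps e (j + 1)).1 := by
  obtain ⟨t, h1, h2, h3⟩ := hx
  have e1 : e j = AR.ps e (j + 1) - AR.ps e j := by
    rw [AR.ps_succ]
    abel
  refine ⟨t, h1, h2, _, h3, ?_, ?_⟩
  · unfold AR.pv
    rw [ip_add_left, AR.ip_smul, AR.ip_smul, e1, AR.ip_sub_left]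
    ring
  · unfold AR.pv
    rw [e1]
    simp only [Prod.fst_add, Prod.smul_fst, Prod.fst_sub, smul_eq_mul]
    ring

lemma hn_box {q : Pt} {a b : ℤ} (h1 : |ip q up| ≤ a) (h2 : |q.1| ≤ b) (ha : 0 ≤ a) (hb : 0 ≤ b) : TIW.hn q ≤ a + 2 * b := by
  obtain ⟨x, y⟩ := q
  have i1 : ip (x, y) up = x + 2 * y := by
    simp only [ip, up]
    ring
  have i2 : ip (x, y) (rotL up) = y - x := by
    simp only [ip, up, rotL]
    ring
  have i3 : ip (x, y) (rotR up) = 2 * x + y := by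
    simp only [ip, up, rotR]
    ring
  rw [i1, abs_le] at h1
  simp only [abs_le] at h2
  unfold TIW.hn
  rw [i1, i2, i3]
  refine max_le ?_ (max_le ?_ ?_) <;> rw [abs_le] <;> constructor <;> omega

lemma comb_le {D t A B U : ℤ} (h0 : 0 ≤ t) (h1 : t ≤ D) (hA : A ≤ U) (hB : B ≤ U) : (D - t) * A + t * B ≤ D * U := by
  nlinarith [mul_le_mul_of_nonneg_left hA (sub_nonneg.2 h1), mul_le_mul_of_nonneg_left hB h0]

lemma le_comb {D t A B U : ℤ} (h0 : 0 ≤ t) (h1 : t ≤ D) (hA : U ≤ A) (hB : U ≤ B) : D * U ≤ (D - t) * A + t * B := by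
  nlinarith [mul_le_mul_of_nonneg_left hA (sub_nonneg.2 h1), mul_le_mul_of_nonneg_left hB h0]

/-- **geometry of the words along the serpentine** -/
lemma sn_geo (hw : w + 4 ≤ D1) (hw0 : 0 ≤ w) (hy : TIW.hn (y - AR.pv (AR.sn h M) D1 (AR.sR h M)) ≤ 4)
    (hS : TubeQ (AR.sn h M) D1 w (AR.sR h M) y S) :
    (∀ i, i ≤ S.length → ip (vx oo up S i - y) up ≤ 0) ∧ (∀ i, 1 ≤ i → i ≤ S.length → 0 < ip (vx oo up S i) up) ∧
      (∀ i, i ≤ S.length → TIW.hn (vx oo up S i) ≤ D1 * (2 * h + 8 + 8 * M) + w) ∧ 0 < ip y up ∧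
        ip y up ≤ D1 * (2 * h + 8) + 4 ∧ TIW.hn y ≤ D1 * (2 * h + 8 + 8 * M) + 4 := by
  obtain ⟨R, hR⟩ : ∃ R, R = AR.sR h M := ⟨_, rfl⟩
  have hR2 : 2 * h + 4 ≤ 2 * h + 4 := le_rfl
  have hR1 : 4 ≤ R := by
    rw [hR]
    unfold AR.sR
    omega
  rw [← hR] at hy hS
  have hbox : ∀ i, i ≤ R → _ := fun i hi => AR.sn_box (h := h) (M := M) (i := i) (by rw [← hR]; exact hi)
  have hD1 : 0 ≤ D1 := by linarith
  have hup : AR.sn h M (R - 1) = up := by
    rw [hR]
    unfold AR.sn AR.sR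
    rw [if_neg (by omega), show (2 * h + 4) * M + (h + 4) - 1 - 2 = (2 * h + 4) * M + (h + 1) by omega, AR.snk_up]
  -- the end
  have hyR : ip (AR.ps (AR.sn h M) R) up = 2 * h + 8 := by
    rw [hR]
    unfold AR.sR
    rw [show (2 * h + 4) * M + (h + 4) = 2 + ((2 * h + 4) * M + (h + 2)) by ring, AR.sn_ps, AR.snk_ps', Prod.mk_add_mk]
    simp only [ip, up]
    push_cast
    ring
  have hxR : (AR.ps (AR.sn h M) R).1 = 4 * M := by
    rw [hR]
    unfold AR.sR
    rw [show (2 * h + 4) * M + (h + 4) = 2 + ((2 * h + 4) * M + (h + 2)) by ring, AR.sn_ps, AR.snk_ps', Prod.mk_add_mk]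
    simp
  have hpv : ip (AR.pv (AR.sn h M) D1 R) up = D1 * (2 * h + 8) := by
    unfold AR.pv
    rw [AR.ip_smul, hyR]
  have y1 := TIW.ip_le_hn (y - AR.pv (AR.sn h M) D1 R) TIW.upd'
  have y2 := TIW.neg_hn_le_ip (y - AR.pv (AR.sn h M) D1 R) TIW.upd'
  rw [AR.ip_sub_left, hpv] at y1 y2
  have hh0 : (0 : ℤ) ≤ h := Int.natCast_nonneg _
  have hM0 : (0 : ℤ) ≤ M := Int.natCast_nonneg _
  refine ⟨fun i hi => ?_, fun i hi0 hi => ?_, fun i hi => ?_, by nlinarith, by linarith, ?_⟩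
  · rcases hS.bd i hi with g | ⟨j, g1, g2⟩
    · rw [hup] at g
      exact g
    · obtain ⟨t, t0, t1, q, q1, q2, q3⟩ := seg_box g2
      have b1 := (hbox j (by omega)).2.2.2.2.2 (by rw [← hR]; omega)
      have b2 := (hbox (j + 1) (by omega)).2.2.2.2.2 (by rw [← hR]; omega)
      have g3 := comb_le t0 t1 b1 b2
      have g4 := TIW.ip_le_hn (vx oo up S i - q) TIW.upd'
      rw [AR.ip_sub_left] at g4 ⊢
      rw [← q2] at g3
      nlinarith
  · rcases hS.st i hi0 hi with g | ⟨j, g0, g1, g2⟩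
    · exact g
    · obtain ⟨t, t0, t1, q, q1, q2, q3⟩ := seg_box g2
      have b1 := (hbox j (by omega)).2.2.2.2.1 g0
      have b2 := (hbox (j + 1) (by omega)).2.2.2.2.1 (by omega)
      have g3 := le_comb t0 t1 b1 b2
      have g4 := TIW.neg_hn_le_ip (vx oo up S i - q) TIW.upd'
      rw [AR.ip_sub_left] at g4
      rw [← q2] at g3
      linarith
  · obtain ⟨j, g1, g2⟩ := hS.rg i hi
    obtain ⟨t, t0, t1, q, q1, q2, q3⟩ := seg_box g2
    obtain ⟨b1, b2, b3, b4, -, -⟩ := hbox j (by omega)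
    obtain ⟨c1, c2, c3, c4, -, -⟩ := hbox (j + 1) (by omega)
    have g3 := comb_le t0 t1 b4 c4
    have g4 := le_comb t0 t1 b3 c3
    have g5 := comb_le t0 t1 b2 c2
    have g6 := le_comb t0 t1 b1 c1
    rw [← q2] at g3 g4
    rw [← q3] at g5 g6
    have g7 := hn_box (q := q) (a := D1 * (2 * h + 8)) (b := D1 * (4 * M)) (by rw [abs_le]; constructor <;> nlinarith)
      (by rw [abs_le]; constructor <;> nlinarith) (by positivity) (by positivity)
    have g8 := TIW.hn_add (vx oo up S i - q) q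
    rw [sub_add_cancel] at g8
    nlinarith
  · have g7 := hn_box (q := AR.pv (AR.sn h M) D1 R) (a := D1 * (2 * h + 8)) (b := D1 * (4 * M))
      (by rw [hpv, abs_of_nonneg (by positivity)]) (by
        unfold AR.pv
        rw [Prod.smul_fst, hxR, smul_eq_mul, abs_of_nonneg (by positivity)]) (by positivity) (by positivity)
    have g8 := TIW.hn_add (y - AR.pv (AR.sn h M) D1 R) (AR.pv (AR.sn h M) D1 R)
    rw [sub_add_cancel] at g8
    nlinarith

/-- **from p2 up to the origin** -/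
theorem up2_of (hk : 3 ≤ k) (hw : w + 4 ≤ D1) (hw0 : 0 ≤ w) (hsz : D1 * (2 * h + 8 + 8 * M) + w + 4 ≤ 2 ^ k)
    (hp : TIW.hn (p2 + D • up) ≤ 4) (hD : 2 ^ (k + 12) ≤ D) (hy : TIW.hn (y - AR.pv (AR.sn h M) D1 (AR.sR h M)) ≤ 4)
    (hS : TubeQ (AR.sn h M) D1 w (AR.sR h M) y S) (hQ : TubeQ (fun _ => up) D (2 ^ (k + 9)) 1 (-p2 - y) Q) :
    Up2 D (2 ^ (k + 10)) p2 (S ++ Q) := by
  obtain ⟨s1, s2, s3, s4, s5, s6⟩ := sn_geo hw hw0 hy hS
  have k8 : (8 : ℤ) ≤ 2 ^ k := by
    have : (2 : ℤ) ^ 3 ≤ 2 ^ k := pow_le_pow_right₀ (by norm_num) hk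
    linarith
  have e9 : (2 : ℤ) ^ (k + 9) = 512 * 2 ^ k := by ring
  have e10 : (2 : ℤ) ^ (k + 10) = 1024 * 2 ^ k := by ring
  have e12 : (2 : ℤ) ^ (k + 12) = 4096 * 2 ^ k := by ring
  have hh0 : (0 : ℤ) ≤ h := Int.natCast_nonneg _
  have hM0 : (0 : ℤ) ≤ M := Int.natCast_nonneg _
  have hD1 : 0 ≤ D1 := by linarith
  have hsz2 : D1 * (2 * h + 8) ≤ D1 * (2 * h + 8 + 8 * M) := mul_le_mul_of_nonneg_left (by linarith) hD1
  have hR : 4 ≤ AR.sR h M := by
    unfold AR.sR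
    omega
  have hup : AR.sn h M (AR.sR h M - 1) = up := by
    unfold AR.sn AR.sR
    rw [if_neg (by omega), show (2 * h + 4) * M + (h + 4) - 1 - 2 = (2 * h + 4) * M + (h + 1) by omega, AR.snk_up]
  have hdS : TIW.de S = up := by rw [hS.de, hup]
  have hid := rt_id hdS
  have hen : TIW.en S = y := hS.en
  have hvx : ∀ q, vx oo up (S ++ Q) (S.length + q) = y + vx oo up Q q := fun q => by
    rw [TIW.vx_app, hid, hen]
  have hipu : ip up up = 2 := by decide
  have hp2 : ip p2 up ≤ 4 - 2 * D := by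
    have h1 := TIW.ip_le_hn (p2 + D • up) TIW.upd'
    rw [ip_add_left, AR.ip_smul, hipu] at h1
    linarith
  have qst : ∀ q, 1 ≤ q → q ≤ Q.length → 0 < ip (vx oo up Q q) up := fun q h1 h2 => by
    rcases hQ.st q h1 h2 with g | ⟨j, g1, g2, -⟩
    · exact g
    · omega
  have qrg : ∀ q, q ≤ Q.length → AR.NS 0 up D (2 ^ (k + 9)) (vx oo up Q q) := fun q h2 => by
    obtain ⟨j, g1, g2⟩ := hQ.rg q h2
    obtain rfl : j = 0 := by omega
    have h3 : AR.pv (fun _ => up) D 0 = 0 := by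
      unfold AR.pv
      rw [ps_zero, smul_zero]
    unfold Nr at g2
    rwa [h3] at g2
  have qbd : ∀ q, q ≤ Q.length → ip (vx oo up Q q - (-p2 - y)) up ≤ 0 := fun q h2 => by
    rcases hQ.bd q h2 with g | ⟨j, g1, -⟩
    · exact g
    · omega
  refine ⟨AR.sa_app hS.sa hQ.sa fun i hi q hq1 hq2 he => ?_, ?_, ?_, fun i hi => ?_, fun i hi0 hi => ?_, fun i hi => ?_⟩
  · rw [hid, hen] at he
    have h1 := s1 i hi
    rw [he, add_sub_cancel_left] at h1
    have h2 := qst q hq1 hq2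
    linarith
  · rw [TIW.en_app, hid, hen, hQ.en]
    abel
  · rw [TIW.de_app, hid]
    exact hQ.de
  · rcases Nat.lt_or_ge S.length i with h1 | h1
    · obtain ⟨q, rfl⟩ : ∃ q, i = S.length + q := ⟨i - S.length, by omega⟩
      rw [List.length_append] at hi
      rw [hvx]
      have h2 := NS_shift (a' := -(D • up)) (y' := p2 + (y + vx oo up Q q)) (v := 2 ^ (k + 9)) (qrg q (by omega)) (by
        rw [show p2 + (y + vx oo up Q q) - -(D • up) - (vx oo up Q q - 0) = (p2 + D • up) + y by abel]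
        refine (TIW.hn_add _ _).trans ?_
        linarith)
      exact h2.mono (by linarith)
    · rw [vx_append (by omega)]
      refine ⟨0, le_rfl, by linarith, ?_⟩
      rw [zero_smul, add_zero, show p2 + vx oo up S i - -(D • up) = (p2 + D • up) + vx oo up S i by abel]
      have h2 := s3 i h1
      refine (TIW.hn_add _ _).trans ?_
      linarith
  · rcases Nat.lt_or_ge S.length i with h1 | h1
    · obtain ⟨q, rfl⟩ : ∃ q, i = S.length + q := ⟨i - S.length, by omega⟩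
      rw [List.length_append] at hi
      rw [hvx, ip_add_left]
      have h2 := qst q (by omega) (by omega)
      linarith
    · rw [vx_append (by omega)]
      exact s2 i hi0 h1
  · rcases Nat.lt_or_ge S.length i with h1 | h1
    · obtain ⟨q, rfl⟩ : ∃ q, i = S.length + q := ⟨i - S.length, by omega⟩
      rw [List.length_append] at hi
      rw [hvx]
      have h2 := qbd q (by omega)
      rw [show vx oo up Q q - (-p2 - y) = p2 + (y + vx oo up Q q) by abel] at h2
      exact h2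
    · rw [vx_append (by omega), ip_add_left]
      have h2 := s1 i h1
      rw [AR.ip_sub_left] at h2
      linarith

end LS

end ARM

end HexObs
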