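import Pool.Agent.ARM.MidD
import Pool.Agent.ARM.DefsQ
import Pool.Agent.TIP.RevM

/-!
# ARM, row G1 (helper74): the middle word between two good cuts of a good word has a corridor from tip to tip.
-/

set_option autoImplicit false

namespace HexObs

namespace ARM

open Finset TS SDN SIM NTA TIP TIW

/-! ### 1. The reversed word -/

lemma hn_step {d : Pt} (hd : d ∈ dirs) : hn d = 2 := by
  have key : ∀ d ∈ dirs, hn d = 2 := by decide
  exact key d hd

lemma hn_succ (L : List Bool) (t : ℕ) : hn (vx oo up L (t + 1) - vx oo up L t) = 2 := by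
  have e : vx oo up L (t + 1) = vx oo up L t + dx up L t := rfl
  rw [e, add_sub_cancel_left]
  exact hn_step (dx_mem up_dirs L t)

lemma mid_rv_length (L : List Bool) : (rv L).length = L.length - 1 := by
  unfold rv
  rw [List.length_drop, rev_length]

lemma hn_rv (L : List Bool) {i i' : ℕ} (hi : i ≤ L.length) (hi' : i' ≤ L.length) :
    hn (vx oo up (rv L) i - vx oo up (rv L) i') = hn (vx oo up L (L.length - i) - vx oo up L (L.length - i')) := by
  obtain ⟨c, hc, h⟩ := RevM.rev_frame1 L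
  rw [← hn_mulE (mem_dirs.1 hc), mulE_sub]
  congr 1
  rw [h i hi, h i' hi']
  unfold rv
  abel

/-- the distances from the end of the reversed word -/
lemma dz_rv {L : List Bool} (h1 : 1 ≤ L.length) {i : ℕ} (hi : i ≤ L.length) :
    dz (rv L) i = hn (vx oo up L (L.length - i) - vx oo up L 1) := by
  unfold dz TIW.en
  rw [mid_rv_length, hn_rv L hi (by omega), show L.length - (L.length - 1) = 1 by omega]

lemma dz_le_add {L : List Bool} {S : ℤ} (hS : hn (vx oo up L 1 - en L) ≤ S) (t : ℕ) :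
    dz L t ≤ hn (vx oo up L t - vx oo up L 1) + S ∧ hn (vx oo up L t - vx oo up L 1) ≤ dz L t + S := by
  have h1 := hn_tri (vx oo up L t) (vx oo up L 1) (en L)
  have h2 := hn_tri (vx oo up L t) (en L) (vx oo up L 1)
  rw [hn_sub_comm (en L)] at h2
  unfold dz
  constructor <;> linarith

lemma pow_between {D : ℤ} (hD : 1 ≤ D) : ∃ i : ℕ, D ≤ 2 ^ i ∧ (2 : ℤ) ^ i < 2 * D := by
  classical
  have hex : ∃ i : ℕ, D ≤ 2 ^ i := by
    obtain ⟨n, hn⟩ := Int.eq_ofNat_of_zero_le (show (0 : ℤ) ≤ D by omega)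
    refine ⟨n, ?_⟩
    rw [hn]
    exact_mod_cast (Nat.lt_two_pow_self (n := n)).le
  refine ⟨Nat.find hex, Nat.find_spec hex, ?_⟩
  rcases Nat.eq_zero_or_pos (Nat.find hex) with h | h
  · rw [h]
    omega
  · have h2 := Nat.find_min hex (m := Nat.find hex - 1) (by omega)
    obtain ⟨q, hq⟩ : ∃ q, Nat.find hex = q + 1 := ⟨Nat.find hex - 1, by omega⟩
    rw [hq] at h2 ⊢
    rw [pow_succ]
    simp only [Nat.add_sub_cancel] at h2
    omega

/-- **no extra strand**: a visit near the end between two far excursions -/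
lemma noES {L : List Bool} {S : ℤ} (hS : hn (vx oo up L 1 - en L) ≤ S) {l i0 : ℕ}
    (hE : ∀ T, T = L ∨ T = rv L → ∀ i, i0 ≤ i → T ∉ ESe l i) {t a b : ℕ} (ht : 1 ≤ t) (hta : t ≤ a) (hab : a ≤ b)
    (hb : b ≤ L.length) (h1 : dz L a + S ≤ 2 ^ (l + 1)) (h2 : dz L a < dz L t) (h3 : dz L a < dz L b)
    (h4 : S ≤ 2 ^ i0) (h5 : 2 ^ i0 + 2 * S < 2 * dz L t) (h6 : 2 ^ i0 + 2 * S < 2 * dz L b) : False := by
  have hS0 : 0 ≤ S := (hn_nonneg _).trans hS
  have hL1 : 1 ≤ L.length := by omega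
  have p0 : (0 : ℤ) < 2 ^ i0 := by positivity
  obtain ⟨b', hb', hmb⟩ := exists_max_image (Icc a L.length) (dz L) ⟨b, by rw [mem_Icc]; omega⟩
  obtain ⟨t', ht', hmt⟩ := exists_max_image (Icc 1 a) (dz L) ⟨t, by rw [mem_Icc]; omega⟩
  rw [mem_Icc] at hb' ht'
  have m1 : dz L b ≤ dz L b' := hmb b (by rw [mem_Icc]; omega)
  have m2 : dz L t ≤ dz L t' := hmt t (by rw [mem_Icc]; omega)
  have e1 : a ≠ b' := by
    intro h
    rw [← h] at m1
    omega
  have e2 : t' ≠ a := by
    intro h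
    rw [h] at m2
    omega
  rcases le_or_gt (dz L b') (dz L t') with hc | hc
  · obtain ⟨i, hi1, hi2⟩ := pow_between (D := dz L b') (by omega)
    have hi : i0 ≤ i := by
      by_contra hcon
      have : (2 : ℤ) ^ (i + 1) ≤ 2 ^ i0 := pow_le_pow_right₀ (by norm_num) (by omega)
      rw [pow_succ] at this
      omega
    refine hE L (Or.inl rfl) i hi ⟨t', a, b', by omega, by omega, hb'.2, by omega, by omega, by omega, ?_⟩
    intro s hs hs'
    have := hmb s (by rw [mem_Icc]; omega)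
    have h8 : (2 : ℤ) ^ (i + 2) = 2 ^ i * 4 := by rw [pow_add]; norm_num
    have : (0 : ℤ) < 2 ^ i := by positivity
    omega
  · obtain ⟨i, hi1, hi2⟩ := pow_between (D := dz L t' - S) (by omega)
    have hi : i0 ≤ i := by
      by_contra hcon
      have : (2 : ℤ) ^ (i + 1) ≤ 2 ^ i0 := pow_le_pow_right₀ (by norm_num) (by omega)
      rw [pow_succ] at this
      omega
    have hpi : (2 : ℤ) ^ i0 ≤ 2 ^ i := pow_le_pow_right₀ (by norm_num) hi
    have h8 : (2 : ℤ) ^ (i + 2) = 2 ^ i * 4 := by rw [pow_add]; norm_num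
    have dd : ∀ s, s ≤ L.length → dz (rv L) (L.length - s) = hn (vx oo up L s - vx oo up L 1) := by
      intro s hs
      rw [dz_rv hL1 (by omega), show L.length - (L.length - s) = s by omega]
    refine hE (rv L) (Or.inr rfl) i hi ⟨L.length - b', L.length - a, L.length - t', by omega, by omega, ?_, ?_, ?_, ?_, ?_⟩
    · rw [mid_rv_length]
      omega
    · rw [dd b' hb'.2]
      have := (dz_le_add hS b').1
      omega
    · rw [dd a (by omega)]
      have := (dz_le_add hS a).2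
      omega
    · rw [dd t' (by omega)]
      have := (dz_le_add hS t').1
      omega
    · intro s hs hs'
      rw [mid_rv_length] at hs'
      obtain ⟨v, hv⟩ : ∃ v, s = L.length - v ∧ 1 ≤ v ∧ v ≤ a := ⟨L.length - s, by omega, by omega, by omega⟩
      rw [hv.1, dd v (by omega)]
      have h9 := (dz_le_add hS v).2
      have := hmt v (by rw [mem_Icc]; omega)
      omega

/-! ### 2. Free half balls -/

lemma Fe_of {r : ℕ} {A : List Bool} (h : FreeT r A) : A ∈ Fe r := by
  intro i hi h1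
  have h2 := h i hi h1
  have h3 := coord_of_hn (vx oo up A i - en A)
  by_contra hcon
  apply h2
  have e1 : (vx oo up A i - en A).1 = (vx oo up A i).1 - (tipv A).1 := rfl
  have e2 : (vx oo up A i - en A).2 = (vx oo up A i).2 - (tipv A).2 := rfl
  rw [e1, e2] at h3
  have h0 := abs_nonneg ((vx oo up A i).1 - (tipv A).1)
  have h0' := abs_nonneg ((vx oo up A i).2 - (tipv A).2)
  show |(vx oo up A i).1 - (tipv A).1| ≤ r ∧ |(vx oo up A i).2 - (tipv A).2| ≤ r
  constructor <;> omega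

lemma mid_en_app (X M : List Bool) : en (X ++ M) = en X + mulE (rt X) (en M) := by
  have h := vx_app X M M.length
  unfold TIW.en at h ⊢
  rw [List.length_append]
  exact h

lemma de_app (X M : List Bool) : de (X ++ M) = mulE (rt X) (de M) := by
  have h := dx_app X M M.length
  unfold de at h ⊢
  rw [List.length_append]
  exact h

lemma Fe_suf {r : ℕ} {X M : List Bool} (h : X ++ M ∈ Fe r) : M ∈ Fe r := by
  intro i hi h1
  have h2 := h (X.length + i) (by rw [List.length_append]; omega)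
  have e : vx oo up (X ++ M) (X.length + i) - en (X ++ M) = mulE (rt X) (vx oo up M i - en M) := by
    rw [vx_app, mid_en_app, mulE_sub]
    abel
  rw [e, de_app, ip_mulE, nrm_rt, one_mul, hn_mulE (nrm_rt X)] at h2
  exact h2 h1

/-- the free half ball behind the start -/
lemma Fe_rv {M : List Bool} (h1 : 1 ≤ M.length) {r : ℕ} : rv M ∈ Fe r ↔ ∀ t, 1 ≤ t → t ≤ M.length →
    ip (vx oo up M t - vx oo up M 1) up < 0 → (r : ℤ) ≤ hn (vx oo up M t - vx oo up M 1) := by
  obtain ⟨c, hc, h⟩ := RevM.rev_frame1 M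
  have hc1 := mem_dirs.1 hc
  have e1 : ∀ i, i ≤ M.length → mulE c (vx oo up (rv M) i - en (rv M)) = vx oo up M (M.length - i) - vx oo up M 1 := by
    intro i hi
    have h2 := h i hi
    have h3 := h (M.length - 1) (by omega)
    rw [show M.length - (M.length - 1) = 1 by omega] at h3
    unfold TIW.en
    rw [mid_rv_length, mulE_sub, h2, h3]
    unfold rv
    abel
  have e2 : mulE c (de (rv M)) = -up := by
    have h2 := e1 M.length le_rfl
    have h3 : vx oo up (rv M) M.length = vx oo up (rv M) (M.length - 1) + dx up (rv M) (M.length - 1) := by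
      obtain ⟨q, hq⟩ : ∃ q, M.length = q + 1 := ⟨M.length - 1, by omega⟩
      rw [hq]
      rfl
    have h4 : vx oo up M 1 = oo + up := rfl
    have h5 : vx oo up M 0 = oo := rfl
    unfold TIW.en at h2
    rw [mid_rv_length, h3, add_sub_cancel_left, Nat.sub_self, h4, h5] at h2
    unfold de
    rw [mid_rv_length, h2]
    abel
  have e3 : ∀ i, i ≤ M.length → ip (vx oo up (rv M) i - en (rv M)) (de (rv M)) =
      -ip (vx oo up M (M.length - i) - vx oo up M 1) up := by
    intro i hi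
    have h2 := ip_mulE c (vx oo up (rv M) i - en (rv M)) (de (rv M))
    rw [hc1, one_mul, e1 i hi, e2, ip_neg_right] at h2
    exact h2.symm
  have e4 : ∀ i, i ≤ M.length → hn (vx oo up (rv M) i - en (rv M)) = hn (vx oo up M (M.length - i) - vx oo up M 1) := by
    intro i hi
    rw [← e1 i hi, hn_mulE hc1]
  constructor
  · intro hF t ht ht' hneg
    have h2 := hF (M.length - t) (by rw [mid_rv_length]; omega)
    rw [e3 _ (by omega), e4 _ (by omega), show M.length - (M.length - t) = t by omega] at h2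
    exact h2 (by omega)
  · intro hF i hi hpos
    rw [mid_rv_length] at hi
    rw [e3 i (by omega)] at hpos
    rw [e4 i (by omega)]
    exact hF (M.length - i) (by omega) (by omega) (by omega)

lemma Fe_rv_pre {M Y : List Bool} (h1 : 1 ≤ M.length) {r : ℕ} (h : rv (M ++ Y) ∈ Fe r) : rv M ∈ Fe r := by
  rw [Fe_rv (by rw [List.length_append]; omega)] at h
  rw [Fe_rv h1]
  intro t ht ht' hneg
  have e1 : vx oo up (M ++ Y) t = vx oo up M t := vx_append (by omega)
  have e2 : vx oo up (M ++ Y) 1 = vx oo up M 1 := vx_append (by omega)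
  have h2 := h t ht (by rw [List.length_append]; omega)
  rw [e1, e2] at h2
  exact h2 hneg

/-! ### 3. The parts of a word -/

lemma rev_app (a b : List Bool) : rev (a ++ b) = rev b ++ rev a := by
  unfold rev
  rw [List.map_append, List.reverse_append]

/-- a part at the end of the reversed word is a part at the start of the word -/
lemma split_rv {L A' Y' : List Bool} (hL : 1 ≤ L.length) (h : rv L = A' ++ Y') :
    ∃ B, L = rev Y' ++ B ∧ rv B = A' ∧ B.length = A'.length + 1 := by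
  have hl := congrArg List.length h
  rw [mid_rv_length, List.length_append] at hl
  refine ⟨L.drop Y'.length, ?_, ?_, ?_⟩
  · have h1 : L.take Y'.length = rev Y' := by
      have e : rev L = (rev L).take 1 ++ rv L := (List.take_append_drop 1 (rev L)).symm
      have e2 : L = rev (rv L) ++ rev ((rev L).take 1) := by
        rw [← rev_app, ← e, rev_rev]
      rw [h, rev_app, List.append_assoc] at e2
      have e3 : (rev Y').length = Y'.length := rev_length Y'
      rw [e2]
      conv_lhs => rw [← e3]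
      exact List.take_left
    rw [← h1, List.take_append_drop]
  · have e : rev L = rev (L.drop Y'.length) ++ rev (L.take Y'.length) := by
      rw [← rev_app, List.take_append_drop]
    have h2 : rv L = rv (L.drop Y'.length) ++ rev (L.take Y'.length) := by
      unfold rv
      rw [e, List.drop_append_of_le_length]
      rw [rev_length, List.length_drop]
      omega
    rw [h] at h2
    refine (List.append_inj h2 ?_).1.symm
    rw [mid_rv_length, List.length_drop]
    omega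
  · rw [List.length_drop]
    omega


/-! ### 4. Start part and end part -/

lemma hn_one {L : List Bool} {S : ℤ} (h : hn (en L) ≤ S) : hn (vx oo up L 1 - en L) ≤ S + 2 := by
  have h4 : vx oo up L 1 = up := by
    show oo + up = up
    exact zero_add _
  have h1 := hn_sub up (en L)
  rw [hn_step upd'] at h1
  rw [h4]
  linarith

lemma dz_zero {L : List Bool} : dz L 0 = hn (en L) := by
  have h4 : vx oo up L 0 = 0 := rfl
  unfold dz
  rw [h4, zero_sub, hn_neg]

section parts

variable {L : List Bool} {j c u s0 : ℕ}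

/-- behind a far vertex the visits of the small ball are in the end part -/
lemma tE_of (hd : hn (en L) ≤ 2 ^ j) (hj : 1 ≤ j) (hc : 1 ≤ c) (hcu : c ≤ u) (hu : 3 ≤ u)
    (hE : ∀ T, T = L ∨ T = rv L → ∀ i, j + u ≤ i → T ∉ ESe (j + c) i) (hs : s0 ≤ L.length) (hs0 : 2 ^ (j + u) < dz L s0)
    {t : ℕ} (h1 : s0 ≤ t) (h2 : t ≤ L.length) (h3 : dz L t ≤ 2 ^ (j + c)) : tE L (j + u) t := by
  refine ⟨h2, fun s hs1 hs2 => ?_⟩
  by_contra hcon
  push Not at hcon
  have q1 : (2 : ℤ) ^ (j + c) ≤ 2 ^ (j + u) := pow_le_pow_right₀ (by norm_num) (by omega)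
  have q2 : (2 : ℤ) ^ (j + u) = 2 ^ (j + (u - 3)) * 8 := by
    rw [show j + u = j + (u - 3) + 3 by omega, pow_add]
    norm_num
  have q3 : (2 : ℤ) ^ j ≤ 2 ^ (j + (u - 3)) := pow_le_pow_right₀ (by norm_num) (by omega)
  have q4 : (2 : ℤ) ^ j = 2 ^ (j - 1) * 2 := by
    rw [← pow_succ]
    congr 1
    omega
  have q5 : (0 : ℤ) < 2 ^ (j - 1) := by positivity
  have q6 : (2 : ℤ) ^ (j + c + 1) = 2 ^ (j + c) * 2 := pow_succ _ _
  have q7 : (2 : ℤ) ^ (j + c) = 2 ^ (j + (c - 1)) * 2 := by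
    rw [← pow_succ]
    congr 1
    omega
  have q8 : (2 : ℤ) ^ j ≤ 2 ^ (j + (c - 1)) := pow_le_pow_right₀ (by norm_num) (by omega)
  have z0 : dz L 0 ≤ 2 ^ j := by rw [dz_zero]; exact hd
  have hs1' : 1 ≤ s0 := by
    by_contra h
    rw [show s0 = 0 by omega] at hs0
    omega
  exact noES (S := 2 ^ j + 2) (hn_one hd) hE hs1' h1 hs1 hs2 (by omega) (by omega) (by omega) (by omega) (by omega)
    (by omega)

/-- before a far vertex they are in the start part -/
lemma tS_of (hd : hn (en L) ≤ 2 ^ j) (hj : 1 ≤ j) (hc : 1 ≤ c) (hcu : c ≤ u) (hu : 3 ≤ u)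
    (hE : ∀ T, T = L ∨ T = rv L → ∀ i, j + u ≤ i → T ∉ ESe (j + c) i) (hs : s0 ≤ L.length) (hs0 : 2 ^ (j + u) < dz L s0)
    {t : ℕ} (h1 : t ≤ s0) (h3 : dz L t ≤ 2 ^ (j + c)) : tS L (j + u) t := by
  refine ⟨h1.trans hs, fun s hs1 => ?_⟩
  by_contra hcon
  push Not at hcon
  have q1 : (2 : ℤ) ^ (j + c) ≤ 2 ^ (j + u) := pow_le_pow_right₀ (by norm_num) (by omega)
  have q2 : (2 : ℤ) ^ (j + u) = 2 ^ (j + (u - 3)) * 8 := by
    rw [show j + u = j + (u - 3) + 3 by omega, pow_add]
    norm_num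
  have q3 : (2 : ℤ) ^ j ≤ 2 ^ (j + (u - 3)) := pow_le_pow_right₀ (by norm_num) (by omega)
  have q4 : (2 : ℤ) ^ j = 2 ^ (j - 1) * 2 := by
    rw [← pow_succ]
    congr 1
    omega
  have q5 : (0 : ℤ) < 2 ^ (j - 1) := by positivity
  have q6 : (2 : ℤ) ^ (j + c + 1) = 2 ^ (j + c) * 2 := pow_succ _ _
  have q7 : (2 : ℤ) ^ (j + c) = 2 ^ (j + (c - 1)) * 2 := by
    rw [← pow_succ]
    congr 1
    omega
  have q8 : (2 : ℤ) ^ j ≤ 2 ^ (j + (c - 1)) := pow_le_pow_right₀ (by norm_num) (by omega)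
  have z0 : dz L 0 ≤ 2 ^ j := by rw [dz_zero]; exact hd
  have hs1' : 1 ≤ s := by
    by_contra h
    rw [show s = 0 by omega] at hcon
    omega
  exact noES (S := 2 ^ j + 2) (hn_one hd) hE hs1' hs1 h1 hs (by omega) (by omega) (by omega) (by omega) (by omega)
    (by omega)

end parts

/-! ### 5. Small facts -/

lemma ip_smul (z : ℤ) (d d' : Pt) : ip (z • d) d' = z * ip d d' := by
  unfold ip
  simp only [Prod.smul_fst, Prod.smul_snd, smul_eq_mul]
  ring

lemma ip_self_dir {d : Pt} (hd : d ∈ dirs) : ip d d = 2 := by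
  have h3 : ∀ d ∈ dirs, ip d d = 2 := by decide
  exact h3 d hd

lemma mid_hn_smul_dir {d : Pt} (hd : d ∈ dirs) (w : ℕ) : hn ((w : ℤ) • d) = 2 * w := by
  refine le_antisymm ?_ ?_
  · refine hn_le fun d' hd' => ?_
    rw [ip_smul]
    have h2 := ip_le_hn d hd'
    rw [hn_step hd] at h2
    have h0 : (0 : ℤ) ≤ w := by positivity
    nlinarith
  · have h1 := ip_le_hn ((w : ℤ) • d) hd
    rw [ip_smul, ip_self_dir hd] at h1
    linarith

lemma ip_sub' (p q d : Pt) : ip (p - q) d = ip p d - ip q d := by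
  unfold ip
  simp only [Prod.fst_sub, Prod.snd_sub]
  ring

/-! ### 6. The corridor -/

/-- what is needed about the middle word M (vertices number x, .., x + |M| of L) and the far vertex x + σ -/
structure Mctx (j a m c u e k : ℕ) (L M : List Bool) (x σ : ℕ) : Prop where
  len : x + M.length ≤ L.length
  iso : ∀ t s, t ≤ M.length → s ≤ M.length → hn (vx oo up L (x + t) - vx oo up L (x + s)) = hn (wv M t - wv M s)
  tip : hn (vx oo up L (x + M.length) - en L) ≤ 3 * 2 ^ (j + m)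
  en0 : hn (en L) ≤ 2 ^ j
  sta : hn (wv M 0) ≤ 6 * 2 ^ (j + m) + 2 ^ j + 4
  sg1 : 1 ≤ σ
  sg2 : σ ≤ M.length
  far : 2 ^ (j + u) < dz L (x + σ)
  es1 : ∀ T, T = L ∨ T = rv L → ∀ i, j + c ≤ i + 1 → T ∉ ESe (j + m + 4) i
  es2 : ∀ T, T = L ∨ T = rv L → ∀ i, j + u ≤ i → T ∉ ESe (j + c) i
  nts : L ∉ NTc (j + c) (j + u) (2 ^ (j - e)) (2 ^ (j - k))
  exc : ∀ v : Pt, ∃ s, s ≤ x ∧ 2 ^ (j - k) ≤ hn (v - vx oo up L s)
  fe : M ∈ Fe (2 ^ (j - a))
  fs : ∀ t, 1 ≤ t → t ≤ M.length → ip (vx oo up M t - vx oo up M 1) up < 0 →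
    ((2 ^ (j - a) : ℕ) : ℤ) ≤ hn (vx oo up M t - vx oo up M 1)

namespace Mctx

variable {j a m c u e k : ℕ} {L M : List Bool} {x σ : ℕ}

/-- distances from the end of L and from the tip of M -/
lemma near (h : Mctx j a m c u e k L M x σ) {t : ℕ} (ht : t ≤ M.length) :
    dz L (x + t) ≤ hn (wv M t) + 3 * 2 ^ (j + m) ∧ hn (wv M t) ≤ dz L (x + t) + 3 * 2 ^ (j + m) := by
  have h1 := h.iso t M.length ht le_rfl
  rw [wv_len, sub_zero] at h1
  have h2 := hn_tri (vx oo up L (x + t)) (vx oo up L (x + M.length)) (en L)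
  have h3 := hn_tri (vx oo up L (x + t)) (en L) (vx oo up L (x + M.length))
  rw [hn_sub_comm (en L)] at h3
  have h4 := h.tip
  unfold dz
  constructor <;> linarith

/-- the vertices of M keep away from the point in front of the tip -/
lemma far1 (h : Mctx j a m c u e k L M x σ) {w : ℕ} (hw1 : 2 ^ (j - a) ≤ 8 * w) (hw2 : 8 * w ≤ 3 * 2 ^ (j - a)) {t : ℕ}
    (ht : t ≤ M.length) : (2 : ℤ) ^ (j - a) ≤ 4 * hn (wv M t - (w : ℤ) • de M) + 8 := by
  have hw1' : (2 : ℤ) ^ (j - a) ≤ 8 * w := by exact_mod_cast hw1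
  have hw2' : 8 * (w : ℤ) ≤ 3 * 2 ^ (j - a) := by exact_mod_cast hw2
  have hd : de M ∈ dirs := de_mem M
  rcases le_or_gt (ip (wv M t) (de M)) 0 with hc | hc
  · have h1 := neg_hn_le_ip (wv M t - (w : ℤ) • de M) hd
    rw [ip_sub', ip_smul, ip_self_dir hd] at h1
    linarith
  · have h1 := h.fe t ht hc
    have h2 : ((2 ^ (j - a) : ℕ) : ℤ) = 2 ^ (j - a) := by push_cast; rfl
    rw [h2] at h1
    have h3 := hn_tri (wv M t) ((w : ℤ) • de M) 0
    rw [sub_zero, sub_zero, mid_hn_smul_dir hd] at h3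
    have h4 : hn (vx oo up M t - en M) = hn (wv M t) := rfl
    rw [h4] at h1
    linarith

/-- the vertices of M keep away from the point behind the start -/
lemma far2 (h : Mctx j a m c u e k L M x σ) {w : ℕ} (hw1 : 2 ^ (j - a) ≤ 8 * w) (hw2 : 8 * w ≤ 3 * 2 ^ (j - a)) {t : ℕ}
    (ht : t ≤ M.length) : (2 : ℤ) ^ (j - a) ≤ 4 * hn (wv M t - (-(en M) - (w : ℤ) • up)) + 8 := by
  have hw1' : (2 : ℤ) ^ (j - a) ≤ 8 * w := by exact_mod_cast hw1
  have hw2' : 8 * (w : ℤ) ≤ 3 * 2 ^ (j - a) := by exact_mod_cast hw2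
  have e0 : wv M t - (-(en M) - (w : ℤ) • up) = vx oo up M t + (w : ℤ) • up := by
    unfold wv
    abel
  have ev : vx oo up M 1 = up := by
    show oo + up = up
    exact zero_add _
  rw [e0]
  have hd : up ∈ dirs := upd'
  have hpos : 0 ≤ ip (vx oo up M t) up → (2 : ℤ) ^ (j - a) ≤ 4 * hn (vx oo up M t + (w : ℤ) • up) + 8 := by
    intro hc
    have h1 := ip_le_hn (vx oo up M t + (w : ℤ) • up) hd
    rw [ip_add_left, ip_smul, ip_self_dir hd] at h1
    linarith
  rcases Nat.eq_zero_or_pos t with h0 | h0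
  · refine hpos ?_
    rw [h0]
    show 0 ≤ ip oo up
    decide
  rcases le_or_gt 0 (ip (vx oo up M t - vx oo up M 1) up) with hc | hc
  · refine hpos ?_
    rw [ip_sub', ev, ip_self_dir hd] at hc
    linarith
  · have h1 := h.fs t h0 ht hc
    have h2 : ((2 ^ (j - a) : ℕ) : ℤ) = 2 ^ (j - a) := by push_cast; rfl
    rw [h2] at h1
    have h3 : hn (vx oo up M t - vx oo up M 1) ≤ hn (vx oo up M t + (w : ℤ) • up) + hn (((w + 1 : ℕ) : ℤ) • up) := by
      have e1 : vx oo up M t - vx oo up M 1 = (vx oo up M t + (w : ℤ) • up) - (((w + 1 : ℕ) : ℤ) • up) := by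
        rw [ev]
        push_cast
        rw [add_smul, one_smul]
        abel
      rw [e1]
      exact hn_sub _ _
    rw [mid_hn_smul_dir hd] at h3
    push_cast at h3
    linarith

/-- behind the far vertex -/
lemma endP (h : Mctx j a m c u e k L M x σ) (hj : 1 ≤ j) (hc : 1 ≤ c) (hcu : c ≤ u) (hu : 3 ≤ u) {t : ℕ} (h1 : σ ≤ t)
    (h2 : t ≤ M.length) (h3 : dz L (x + t) ≤ 2 ^ (j + c)) : tE L (j + u) (x + t) := by
  have h4 := h.len
  have h5 := h.sg2
  exact tE_of h.en0 hj hc hcu hu h.es2 (s0 := x + σ) (by omega) h.far (by omega) (by omega) h3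

/-- before the far vertex -/
lemma staP (h : Mctx j a m c u e k L M x σ) (hj : 1 ≤ j) (hc : 1 ≤ c) (hcu : c ≤ u) (hu : 3 ≤ u) {t : ℕ} (h1 : t ≤ σ)
    (h3 : dz L (x + t) ≤ 2 ^ (j + c)) : tS L (j + u) (x + t) := by
  have h4 := h.len
  have h5 := h.sg2
  exact tS_of h.en0 hj hc hcu hu h.es2 (s0 := x + σ) (by omega) h.far (by omega) h3

/-- no near touch on one side -/
lemma nt1 (h : Mctx j a m c u e k L M x σ) (hj : 1 ≤ j) (hc : 1 ≤ c) (hcu : c ≤ u) (hu : 3 ≤ u) {t1 t2 : ℕ}
    (hs : σ ≤ t1 ∨ t2 ≤ σ) (h12 : t1 ≤ t2) (h2 : t2 ≤ M.length) (d1 : dz L (x + t1) ≤ 2 ^ (j + c))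
    (d2 : dz L (x + t2) ≤ 2 ^ (j + c)) (hd : hn (wv M t1 - wv M t2) ≤ 2 ^ (j - e)) {s : ℕ} (hs1 : t1 ≤ s) (hs2 : s ≤ t2) :
    hn (wv M t1 - wv M s) < 2 ^ (j - k) := by
  by_contra hcon
  push Not at hcon
  have h4 := h.len
  refine h.nts ⟨x + t1, x + t2, by omega, by omega, d1, d2, ?_, Or.inl ⟨?_, x + s, by omega, by omega, ?_⟩⟩
  · rw [h.iso t1 t2 (by omega) h2]
    exact hd
  · rcases hs with hs | hs
    · exact Or.inl (h.endP hj hc hcu hu hs (by omega) d1)
    · exact Or.inr (h.staP hj hc hcu hu hs d2)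
  · rw [h.iso t1 s (by omega) (by omega)]
    exact hcon

/-- no near touch of the two sides -/
lemma nt2 (h : Mctx j a m c u e k L M x σ) (hj : 1 ≤ j) (hc : 1 ≤ c) (hcu : c ≤ u) (hu : 3 ≤ u) {t1 t2 : ℕ}
    (hs1 : t1 ≤ σ) (hs2 : σ ≤ t2) (h2 : t2 ≤ M.length) (d1 : dz L (x + t1) ≤ 2 ^ (j + c))
    (d2 : dz L (x + t2) ≤ 2 ^ (j + c)) : 2 ^ (j - e) < hn (wv M t1 - wv M t2) := by
  by_contra hcon
  push Not at hcon
  have h4 := h.len
  obtain ⟨s, q1, q2⟩ := h.exc (vx oo up L (x + t1))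
  refine h.nts ⟨x + t1, x + t2, by omega, by omega, d1, d2, ?_, Or.inr ⟨h.staP hj hc hcu hu hs1 d1,
    h.endP hj hc hcu hu hs2 h2 d2, s, by omega, Or.inl (by omega), q2⟩⟩
  rw [h.iso t1 t2 (by omega) h2]
  exact hcon

/-- steps -/
lemma stp (M : List Bool) (t : ℕ) : hn (wv M (t + 1) - wv M t) = 2 := by
  rw [wv_sub]
  exact hn_succ M t

/-- **the corridor** -/
theorem chn (h : Mctx j a m c u e k L M x σ) (hak : a + 6 ≤ k) (hke : k ≤ e) (hmc : m + 7 ≤ c) (hcu : c ≤ u)
    (hej : e + 4 ≤ j) {q w : ℕ} {r : ℤ} (hq : 1 ≤ q) (hr : 0 ≤ r) (hrq : 3 * (2 * r + 3) * q ≤ 2 ^ (j - e))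
    (hw1 : 2 ^ (j - a) ≤ 8 * w) (hw2 : 8 * w ≤ 3 * 2 ^ (j - a)) : Chn q w r (2 ^ (j + c - 1) / q) M := by
  -- the numbers
  obtain ⟨H, hH⟩ : ∃ H : ℤ, H = q := ⟨_, rfl⟩
  have hH1 : 1 ≤ H := by rw [hH]; exact_mod_cast hq
  rw [← hH] at hrq ⊢
  obtain ⟨B, hB⟩ : ∃ B : ℤ, B = 2 ^ (j - a - 6) := ⟨_, rfl⟩
  obtain ⟨E, hE⟩ : ∃ E : ℤ, E = 2 ^ (j + m) := ⟨_, rfl⟩
  obtain ⟨T, hT⟩ : ∃ T : ℤ, T = 2 ^ j := ⟨_, rfl⟩
  obtain ⟨G, hG⟩ : ∃ G : ℤ, G = 2 ^ (j + c - 2) := ⟨_, rfl⟩
  obtain ⟨xe, hxe⟩ : ∃ xe : ℤ, xe = 2 ^ (j - e) := ⟨_, rfl⟩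
  obtain ⟨xk, hxk⟩ : ∃ xk : ℤ, xk = 2 ^ (j - k) := ⟨_, rfl⟩
  have pA : (2 : ℤ) ^ (j - a) = 64 * B := by
    rw [hB, show j - a = (j - a - 6) + 6 by omega, pow_add]
    norm_num
    ring
  have pB : 16 ≤ B := by
    have : (2 : ℤ) ^ 4 ≤ 2 ^ (j - a - 6) := pow_le_pow_right₀ (by norm_num) (by omega)
    rw [hB]
    linarith
  have pk : xk ≤ B := by rw [hxk, hB]; exact pow_le_pow_right₀ (by norm_num) (by omega)
  have pe : xe ≤ xk := by rw [hxk, hxe]; exact pow_le_pow_right₀ (by norm_num) (by omega)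
  have pT : 64 * B ≤ T := by rw [← pA, hT]; exact pow_le_pow_right₀ (by norm_num) (by omega)
  have pE : T ≤ E := by rw [hE, hT]; exact pow_le_pow_right₀ (by norm_num) (by omega)
  have pG : 32 * E ≤ G := by
    have h1 : (2 : ℤ) ^ (j + m + 5) ≤ 2 ^ (j + c - 2) := pow_le_pow_right₀ (by norm_num) (by omega)
    rw [pow_add] at h1
    rw [hG, hE]
    linarith
  have pc : (2 : ℤ) ^ (j + c) = 4 * G := by
    rw [hG, show j + c = (j + c - 2) + 2 by omega, pow_add]
    norm_num
    ring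
  have pc1 : (2 : ℤ) ^ (j + c - 1) = 2 * G := by
    rw [hG, show j + c - 1 = (j + c - 2) + 1 by omega, pow_succ]
    ring
  have pm4 : (2 : ℤ) ^ (j + m + 4 + 1) = 32 * E := by
    rw [hE, show j + m + 4 + 1 = (j + m) + 5 by omega, pow_add]
    norm_num
    ring
  have pu : (2 : ℤ) ^ (j + c) ≤ 2 ^ (j + u) := pow_le_pow_right₀ (by norm_num) (by omega)
  rw [← hxe] at hrq
  have hrH : 0 ≤ r * H := by positivity
  have h9 : 6 * (r * H) + 9 * H ≤ xe := by linarith
  obtain ⟨ρ, hρ⟩ : ∃ ρ : ℤ, ρ = 4 * B / H - 1 := ⟨_, rfl⟩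
  have r1 : (ρ + 1) * H ≤ 4 * B := by
    rw [hρ, sub_add_cancel]
    exact Int.ediv_mul_le _ (by omega)
  have r2 : 4 * B < (ρ + 1) * H + H := by
    have := Int.lt_ediv_add_one_mul_self (4 * B) (show 0 < H by omega)
    rw [hρ, sub_add_cancel]
    linarith
  obtain ⟨R0, hR0⟩ : ∃ R0 : ℤ, R0 = 6 * E / H + 1 := ⟨_, rfl⟩
  have r3 : 6 * E < R0 * H := by
    have := Int.lt_ediv_add_one_mul_self (6 * E) (show 0 < H by omega)
    rw [hR0]
    exact this
  have r4 : R0 * H ≤ 6 * E + H := by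
    have := Int.ediv_mul_le (6 * E) (show H ≠ 0 by omega)
    rw [hR0]
    linarith
  obtain ⟨R1, hR1⟩ : ∃ R1 : ℤ, R1 = G / H + 1 := ⟨_, rfl⟩
  have r5 : G < R1 * H := by
    have := Int.lt_ediv_add_one_mul_self G (show 0 < H by omega)
    rw [hR1]
    exact this
  have r6 : R1 * H ≤ G + H := by
    have := Int.ediv_mul_le G (show H ≠ 0 by omega)
    rw [hR1]
    linarith
  have hqpos : 0 < q := by omega
  have nz : ∀ {t : ℕ}, t ≤ M.length → dz L (x + t) ≤ hn (wv M t) + 3 * E ∧ hn (wv M t) ≤ dz L (x + t) + 3 * E := by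
    rw [hE]
    exact h.near
  have hj1 : 1 ≤ j := by omega
  have hc1 : 1 ≤ c := by omega
  have hu3 : 3 ≤ u := by omega
  have en0 := h.en0
  rw [← hT] at en0
  have hS : hn (vx oo up L 1 - en L) ≤ T + 2 := hn_one en0
  have hlen := h.len
  have hsg := h.sg2
  have hfar := h.far
  -- words
  obtain ⟨tm, htm⟩ : ∃ tm : Bool → ℕ → ℕ, tm = fun s i => bif s then σ + i else σ - i := ⟨_, rfl⟩
  obtain ⟨nn, hnn⟩ : ∃ nn : Bool → ℕ, nn = fun s => bif s then M.length - σ else σ := ⟨_, rfl⟩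
  have tt : ∀ i, tm true i = σ + i := fun i => by rw [htm]; rfl
  have tf : ∀ i, tm false i = σ - i := fun i => by rw [htm]; rfl
  have nt : nn true = M.length - σ := by rw [hnn]; rfl
  have nf : nn false = σ := by rw [hnn]; rfl
  have tle : ∀ s i, i ≤ nn s → tm s i ≤ M.length := by
    intro s i hi
    cases s
    · rw [tf]; omega
    · rw [nt] at hi
      rw [tt]; omega
  -- small distance to the tip: small distance to the end
  have dzc : ∀ t, t ≤ M.length → nr (R1 + r + 2 + r + 2) 0 (cel q (wv M t)) → dz L (x + t) + xe ≤ 2 ^ (j + c) := by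
    intro t ht hn1
    rw [← cel_zero q] at hn1
    have h1 := hn_of_nr hqpos hn1
    rw [← hH, zero_sub, hn_neg] at h1
    have h2 := (nz ht).1
    rw [pc]
    nlinarith
  have key := corridor (n := nn) (γ := fun s i => cel q (wv M (tm s i))) (p := 0) (q1 := cel q ((w : ℤ) • de M))
    (q2 := cel q (-(en M) - (w : ℤ) • up)) (r := r) (ρ := ρ) (R0 := R0) (R1 := R1) (R' := R1 + r + 2) hr ?_ ?_ ?_ ?_ ?_
    ?_ ?_ ?_ ?_ ?_ ?_
  · refine Relation.ReflTransGen.mono (r := fun f g => adj f g ∧ nr (R1 + r + 2) 0 g ∧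
      ∀ (s : Bool) (i : ℕ), i ≤ nn s → ¬nr r (cel q (wv M (tm s i))) g) ?_ _ _ key
    rintro f g ⟨g1, g2, g3⟩
    refine ⟨g1, nr_mono ?_ g2, ?_⟩
    · rw [pc1]
      refine (Int.le_ediv_iff_mul_le (by omega)).2 ?_
      linarith
    · intro t ht
      rcases le_total σ t with hc | hc
      · have := g3 true (t - σ) (by rw [nt]; omega)
        simp only [tt] at this
        rwa [show σ + (t - σ) = t by omega] at this
      · have := g3 false (σ - t) (by rw [nf]; omega)
        simp only [tf] at this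
        rwa [show σ - (σ - t) = t by omega] at this
  · -- 2 (r + 1) ≤ ρ
    have : 2 * (r + 1) * H < ρ * H := by linarith
    exact (lt_of_mul_lt_mul_right this (by omega)).le
  · -- 0 ≤ R0
    rw [hR0]
    have : 0 ≤ 6 * E / H := Int.ediv_nonneg (by omega) (by omega)
    omega
  · -- R0 + r + 2 ≤ R1
    have : (R0 + r + 2) * H < R1 * H := by linarith
    exact (lt_of_mul_lt_mul_right this (by omega)).le
  · exact le_rfl
  · -- steps
    intro s i hi
    cases s
    · rw [nf] at hi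
      simp only [tf]
      refine nr_of_hn hqpos ?_
      rw [← hH]
      obtain ⟨v, hv⟩ : ∃ v, σ - i = v + 1 ∧ σ - (i + 1) = v := ⟨σ - (i + 1), by omega, rfl⟩
      rw [hv.1, hv.2, stp]
      linarith
    · simp only [tt]
      refine nr_of_hn hqpos ?_
      rw [← hH, hn_sub_comm, ← add_assoc, stp]
      linarith
  · -- q1
    rw [← cel_zero q]
    refine nr_of_hn hqpos ?_
    rw [← hH, zero_sub, hn_neg, mid_hn_smul_dir (de_mem M)]
    have hw2' : 8 * (w : ℤ) ≤ 3 * 2 ^ (j - a) := by exact_mod_cast hw2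
    rw [pA] at hw2'
    linarith
  · -- q2
    rw [← cel_zero q]
    refine nr_of_hn hqpos ?_
    rw [← hH, zero_sub, hn_neg]
    have hw2' : 8 * (w : ℤ) ≤ 3 * 2 ^ (j - a) := by exact_mod_cast hw2
    rw [pA] at hw2'
    have h1 := hn_sub (-(en M)) ((w : ℤ) • up)
    rw [mid_hn_smul_dir upd', ← wv_zero] at h1
    have h2 := h.sta
    rw [← hE, ← hT] at h2
    rw [← wv_zero]
    linarith
  · -- far from the two points
    intro s i hi
    have ht := tle s i hi
    constructor
    · intro hn1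
      have h1 := hn_of_nr hqpos hn1
      have h2 := h.far1 hw1 hw2 ht
      rw [pA] at h2
      rw [← hH] at h1
      linarith
    · intro hn1
      have h1 := hn_of_nr hqpos hn1
      have h2 := h.far2 hw1 hw2 ht
      rw [pA] at h2
      rw [← hH] at h1
      linarith
  · -- near touches of one word
    intro s i i' hii hi' hn1 hn2 k' hk1 hk2
    have ht := tle s i (by omega)
    have ht' := tle s i' hi'
    have d1 := dzc _ ht hn2
    have h1 := hn_of_nr hqpos hn1
    rw [← hH] at h1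
    have h1' : hn (wv M (tm s i) - wv M (tm s i')) ≤ xe := by linarith
    have d2 : dz L (x + tm s i') ≤ 2 ^ (j + c) := by
      have e1 := h.iso (tm s i') (tm s i) ht' ht
      have e2 := hn_tri (vx oo up L (x + tm s i')) (vx oo up L (x + tm s i)) (en L)
      rw [e1, hn_sub_comm (wv M (tm s i'))] at e2
      unfold dz at d1 ⊢
      linarith
    have d1' : dz L (x + tm s i) ≤ 2 ^ (j + c) := by
      have : 0 ≤ xe := by rw [hxe]; positivity
      linarith
    refine nr_of_hn hqpos ?_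
    rw [← hH]
    have hlast : hn (wv M (tm s i) - wv M (tm s k')) < 2 * xk := by
      rw [hxe] at h1'
      cases s
      · rw [nf] at hi'
        rw [tf, tf] at *
        have a1 := h.nt1 hj1 hc1 hcu hu3 (t1 := σ - i') (t2 := σ - i) (Or.inr (by omega)) (by omega) (by omega) d2 d1'
          (by rw [hn_sub_comm]; exact h1') (s := σ - k') (by omega) (by omega)
        have a2 := hn_tri (wv M (σ - i)) (wv M (σ - i')) (wv M (σ - k'))
        rw [← hxe] at h1'
        rw [← hxk] at a1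
        linarith
      · rw [nt] at hi'
        rw [tt, tt] at *
        have a1 := h.nt1 hj1 hc1 hcu hu3 (t1 := σ + i) (t2 := σ + i') (Or.inl (by omega)) (by omega) (by omega) d1' d2
          h1' (s := σ + k') (by omega) (by omega)
        rw [← hxk] at a1
        have : 0 < xk := by rw [hxk]; positivity
        linarith
    linarith
  · -- the two words do not come near each other
    intro i i' hi hi' hn2 hn1
    have ht := tle false i hi
    have ht' := tle true i' hi'
    have d1 := dzc _ ht hn2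
    have h1 := hn_of_nr hqpos hn1
    rw [← hH] at h1
    have h1' : hn (wv M (tm false i) - wv M (tm true i')) ≤ xe := by linarith
    have d2 : dz L (x + tm true i') ≤ 2 ^ (j + c) := by
      have e1 := h.iso (tm true i') (tm false i) ht' ht
      have e2 := hn_tri (vx oo up L (x + tm true i')) (vx oo up L (x + tm false i)) (en L)
      rw [e1, hn_sub_comm (wv M (tm true i'))] at e2
      unfold dz at d1 ⊢
      linarith
    have d1' : dz L (x + tm false i) ≤ 2 ^ (j + c) := by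
      have : 0 ≤ xe := by rw [hxe]; positivity
      linarith
    rw [tf, tt] at *
    have := h.nt2 hj1 hc1 hcu hu3 (t1 := σ - i) (t2 := σ + i') (by omega) (by omega) (by omega) d1' d2
    rw [← hxe] at this
    linarith
  · -- no extra strand
    intro s i hi hn1 k' hk' hn2
    have ht := tle s i hi
    have htk := tle s k' (by omega)
    have b1 : 3 * (R1 * H + 1) ≤ 2 * hn (wv M (tm s i)) := by
      by_contra hcon
      push Not at hcon
      apply hn1
      rw [← cel_zero q]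
      refine nr_of_hn hqpos ?_
      rw [← hH, zero_sub, hn_neg]
      exact hcon
    have b2 : hn (wv M (tm s k')) < 3 * ((R0 + 1 + 1) * H) := by
      rw [← cel_zero q] at hn2
      have := hn_of_nr hqpos hn2
      rwa [← hH, zero_sub, hn_neg] at this
    have c1 := (nz ht).2
    have c2 := (nz htk).1
    have c3 : dz L (x + tm s k') + (T + 2) ≤ 2 ^ (j + m + 4 + 1) := by
      rw [pm4]
      linarith
    have hsmall : dz L (x + tm s k') < dz L (x + tm s i) := by
      rw [pm4] at c3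
      linarith
    have hsmall2 : dz L (x + tm s k') < dz L (x + σ) := by
      rw [pm4] at c3
      linarith
    have hES : ∀ T', T' = L ∨ T' = rv L → ∀ i, j + c - 1 ≤ i → T' ∉ ESe (j + m + 4) i := by
      intro T' hT' i hi
      exact h.es1 T' hT' i (by omega)
    have h5 : (2 : ℤ) ^ (j + c - 1) + 2 * (T + 2) < 2 * dz L (x + σ) := by
      rw [pc1]
      linarith
    have h6 : (2 : ℤ) ^ (j + c - 1) + 2 * (T + 2) < 2 * dz L (x + tm s i) := by
      rw [pc1]
      linarith
    have h4 : T + 2 ≤ (2 : ℤ) ^ (j + c - 1) := by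
      rw [pc1]
      linarith
    have one : ∀ t, 2 ^ (j + c - 1) + 2 * (T + 2) < 2 * dz L t → 1 ≤ t := by
      intro t ht
      by_contra hcon
      rw [show t = 0 by omega, dz_zero, pc1] at ht
      linarith
    cases s
    · rw [nf] at hi
      simp only [tf] at *
      exact noES hS hES (t := x + (σ - i)) (a := x + (σ - k')) (b := x + σ) (one _ h6) (by omega) (by omega) (by omega) c3
        hsmall hsmall2 h4 h6 h5
    · rw [nt] at hi
      simp only [tt] at *
      exact noES hS hES (t := x + σ) (a := x + (σ + k')) (b := x + (σ + i)) (one _ h5) (by omega) (by omega) (by omega) c3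
        hsmall2 hsmall h4 h5 h6

end Mctx

/-! ### 7. Good words with a pair of good cuts -/

lemma mid_hn_In {D : ℕ} {Y : List Bool} (h : In D Y) {i : ℕ} (hi : i ≤ Y.length) : hn (vx oo up Y i) ≤ 3 * D := by
  obtain ⟨h1, h2⟩ := RevM.In_coord h hi
  exact hn_of_coord h1 h2

lemma pre_SA {A B : List Bool} (h : A ++ B ∈ SA) : A ∈ SA := by
  refine ⟨fun _ _ _ => Set.mem_univ _, fun i k h1 h2 => ?_⟩
  have := h.inj i k h1 (by rw [List.length_append]; omega)
  rwa [vx_append (by omega), vx_append (by omega)] at this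

lemma suf_SA {A B : List Bool} (h : A ++ B ∈ SA) : B ∈ SA := by
  refine ⟨fun _ _ _ => Set.mem_univ _, fun i k h1 h2 heq => ?_⟩
  refine h.inj (A.length + i) (A.length + k) (by omega) (by rw [List.length_append]; omega) ?_
  rw [vx_app, vx_app, heq]

section final

variable {n j a m c u e k : ℕ} {η κ : ℝ} {X M Y : List Bool}

/-- a word with a good tip has two vertices at a large distance -/
lemma exc_of (hη : 0 < η) (hX : X ∈ GT j η) (v : Pt) (Z : List Bool) :
    ∃ s, s ≤ X.length ∧ 2 ^ (j - k) ≤ hn (v - vx oo up (X ++ Z) s) := by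
  have h1 : 0 < ((cs j X).card : ℝ) := lt_of_lt_of_le (mul_pos hη (Ub_pos j)) hX
  have h2 : 0 < (cs j X).card := by exact_mod_cast h1
  obtain ⟨t, ht⟩ := Finset.card_pos.1 h2
  classical
  unfold cs at ht
  rw [mem_filter, mem_range] at ht
  obtain ⟨ht1, -, -, A, B, hA, hB, hB2⟩ := ht
  have hXe : X = A ++ (B ++ X.drop t) := by
    rw [← List.append_assoc, ← hA, List.take_append_drop]
  have hl : X.length = A.length + B.length + (X.drop t).length := by
    conv_lhs => rw [hXe]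
    rw [List.length_append, List.length_append]
    omega
  have e1 : vx oo up (X ++ Z) (A.length + B.length) - vx oo up (X ++ Z) A.length = mulE (rt A) (en B) := by
    have e2 : X ++ Z = A ++ (B ++ (X.drop t ++ Z)) := by
      conv_lhs => rw [hXe]
      rw [List.append_assoc, List.append_assoc]
    have e3 := vx_app A (B ++ (X.drop t ++ Z)) 0
    have e4 : mulE (rt A) (vx oo up (B ++ (X.drop t ++ Z)) 0) = 0 := by
      show mulE (rt A) (0, 0) = 0
      unfold mulE
      simp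
    rw [e4] at e3
    simp only [add_zero] at e3
    rw [e2, vx_app, e3, add_sub_cancel_left, vx_append (by omega)]
    rfl
  have h3 : (3 : ℤ) * 2 ^ j ≤ hn (vx oo up (X ++ Z) (A.length + B.length) - vx oo up (X ++ Z) A.length) := by
    rw [e1, hn_mulE (nrm_rt _)]
    have h4 := ip_le_hn (en B) (d := up) upd'
    have h5 : ip (en B) up = lev B B.length := rfl
    have h6 : ((2 ^ j : ℕ) : ℤ) ≤ hgt B := by exact_mod_cast hB2
    rw [h5, (mem_Brd.1 (TIP.BU_hgt hB)).2.2.2] at h4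
    push_cast at h6
    linarith
  have h5 := hn_tri (vx oo up (X ++ Z) (A.length + B.length)) v (vx oo up (X ++ Z) A.length)
  rw [hn_sub_comm _ v] at h5
  have h6 : (2 : ℤ) ^ (j - k) ≤ 2 ^ j := pow_le_pow_right₀ (by norm_num) (by omega)
  have h7 : (0 : ℤ) < 2 ^ j := by positivity
  by_cases h8 : 2 ^ (j - k) ≤ hn (v - vx oo up (X ++ Z) A.length)
  · exact ⟨A.length, by omega, h8⟩
  · push Not at h8
    exact ⟨A.length + B.length, by omega, by linarith⟩

/-- the context of the middle word -/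
theorem mctx_of (hη : 0 < η) (hmc : m + 7 ≤ c) (hcu : c ≤ u) (hj : 4 ≤ j) (hL : X ++ (M ++ Y) ∈ GFc n j η κ a m c u e k)
    (hC : CutP j a m η X M Y) : ∃ σ, 1 < σ ∧ σ < M.length ∧ Mctx j a m c u e k (X ++ (M ++ Y)) M X.length σ := by
  obtain ⟨hF, ⟨s0, hs0, hs1⟩, hNT, hT⟩ := hL
  obtain ⟨-, -, -, hen⟩ := hF
  obtain ⟨⟨-, hY2, hY3⟩, hXG, hX2, hX3⟩ := hC
  have en0 : hn (TIW.en (X ++ (M ++ Y))) ≤ 2 ^ j := by
    rwa [sub_zero] at hen
  -- the numbers
  have pE : (2 : ℤ) ^ j ≤ 2 ^ (j + m) := pow_le_pow_right₀ (by norm_num) (by omega)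
  have pj : (2 : ℤ) ^ 4 ≤ 2 ^ j := pow_le_pow_right₀ (by norm_num) hj
  have pu : (2 : ℤ) ^ (j + m) * 128 ≤ 2 ^ (j + u) := by
    have h1 : (2 : ℤ) ^ (j + m + 7) ≤ 2 ^ (j + u) := pow_le_pow_right₀ (by norm_num) (by omega)
    rw [pow_add] at h1
    linarith
  have cE : ((2 ^ (j + m) : ℕ) : ℤ) = 2 ^ (j + m) := by push_cast; rfl
  -- vertices of M
  have vM : ∀ t, t ≤ M.length + 1 → vx oo up (X ++ (M ++ Y)) (X.length + t) = en X + mulE (rt X) (vx oo up M t) := by
    intro t ht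
    rw [vx_app, vx_append ht]
  have iso : ∀ t s, t ≤ M.length → s ≤ M.length → hn (vx oo up (X ++ (M ++ Y)) (X.length + t) -
      vx oo up (X ++ (M ++ Y)) (X.length + s)) = hn (wv M t - wv M s) := by
    intro t s ht hs
    rw [vM t (by omega), vM s (by omega), wv_sub, ← hn_mulE (nrm_rt X) (vx oo up M t - vx oo up M s), mulE_sub]
    congr 1
    abel
  -- vertices of Y
  have hass : X ++ (M ++ Y) = (X ++ M) ++ Y := (List.append_assoc X M Y).symm
  have vY : ∀ i, vx oo up (X ++ (M ++ Y)) (X.length + M.length + i) = TIW.en (X ++ M) + mulE (rt (X ++ M)) (vx oo up Y i) := by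
    intro i
    rw [hass, ← vx_app, List.length_append]
  have eY : TIW.en (X ++ (M ++ Y)) = TIW.en (X ++ M) + mulE (rt (X ++ M)) (TIW.en Y) := by
    rw [hass, mid_en_app]
  have dY : ∀ i, i ≤ Y.length → dz (X ++ (M ++ Y)) (X.length + M.length + i) ≤ 6 * 2 ^ (j + m) := by
    intro i hi
    have e1 : vx oo up (X ++ (M ++ Y)) (X.length + M.length + i) - TIW.en (X ++ (M ++ Y)) =
        mulE (rt (X ++ M)) (vx oo up Y i - TIW.en Y) := by
      rw [vY, eY, mulE_sub]
      abel
    unfold dz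
    rw [e1, hn_mulE (nrm_rt _)]
    have h1 := mid_hn_In hY2 hi
    have h2 := mid_hn_In hY2 (le_refl Y.length)
    have h3 := hn_sub (vx oo up Y i) (TIW.en Y)
    unfold TIW.en at h3
    rw [cE] at h1 h2
    unfold TIW.en
    linarith
  have tip' : hn (vx oo up (X ++ (M ++ Y)) (X.length + M.length) - TIW.en (X ++ (M ++ Y))) ≤ 3 * 2 ^ (j + m) := by
    have e0 := vY 0
    have e1 : vx oo up (X ++ (M ++ Y)) (X.length + M.length) - TIW.en (X ++ (M ++ Y)) = -mulE (rt (X ++ M)) (TIW.en Y) := by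
      rw [Nat.add_zero] at e0
      rw [e0, eY]
      have e2 : mulE (rt (X ++ M)) (vx oo up Y 0) = 0 := by
        show mulE (rt (X ++ M)) (0, 0) = 0
        unfold mulE
        simp
      rw [e2]
      abel
    rw [e1, hn_neg, hn_mulE (nrm_rt _)]
    have h2 := mid_hn_In hY2 (le_refl Y.length)
    rw [cE] at h2
    exact h2
  -- vertices of X
  have dX0 : ∀ t, 1 ≤ t → t ≤ X.length + 1 → hn (vx oo up (X ++ (M ++ Y)) t - vx oo up (X ++ (M ++ Y)) (X.length + 1)) ≤
      3 * 2 ^ (j + m) := by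
    intro t ht ht'
    obtain ⟨c, hc, h⟩ := RevM.rev_frame X
    have h1 := h (X.length + 1 - t) (by omega)
    rw [show X.length + 1 - (X.length + 1 - t) = t by omega] at h1
    rw [vx_append ht', vx_append le_rfl, h1, add_sub_cancel_left, hn_mulE (mem_dirs.1 hc)]
    have h2 := mid_hn_In hX2 (i := X.length + 1 - t) (by rw [rev_length]; omega)
    rw [cE] at h2
    exact h2
  have one := hn_one en0
  have dX : ∀ t, t ≤ X.length + 1 → dz (X ++ (M ++ Y)) t ≤ 6 * 2 ^ (j + m) + 2 ^ j + 2 := by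
    intro t ht'
    rcases Nat.eq_zero_or_pos t with h0 | h0
    · rw [h0, dz_zero]
      have : (0 : ℤ) < 2 ^ (j + m) := by positivity
      linarith
    · have h1 := dX0 t h0 ht'
      have h2 := dX0 1 le_rfl (by omega)
      have h3 := hn_tri (vx oo up (X ++ (M ++ Y)) t) (vx oo up (X ++ (M ++ Y)) (X.length + 1)) (vx oo up (X ++ (M ++ Y)) 1)
      rw [hn_sub_comm (vx oo up (X ++ (M ++ Y)) (X.length + 1))] at h3
      have h4 := hn_tri (vx oo up (X ++ (M ++ Y)) t) (vx oo up (X ++ (M ++ Y)) 1) (TIW.en (X ++ (M ++ Y)))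
      unfold dz
      linarith
  have hlen : (X ++ (M ++ Y)).length = X.length + M.length + Y.length := by
    rw [List.length_append, List.length_append]
    omega
  rw [hlen] at hs0
  have p1 : X.length + 1 < s0 := by
    by_contra hcon
    have := dX s0 (by omega)
    linarith
  have p2 : s0 < X.length + M.length := by
    by_contra hcon
    have := dY (s0 - (X.length + M.length)) (by omega)
    rw [show X.length + M.length + (s0 - (X.length + M.length)) = s0 by omega] at this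
    have : (0 : ℤ) < 2 ^ (j + m) := by positivity
    linarith
  have hM1 : 1 ≤ M.length := by omega
  refine ⟨s0 - X.length, by omega, by omega, ?_⟩
  refine ⟨by omega, iso, tip', en0, ?_, by omega, by omega, ?_, fun T hT1 i hi => (hT T hT1).2.1 i hi,
    fun T hT1 i hi => (hT T hT1).2.2 i hi, hNT, fun v => exc_of hη hXG v _, Fe_suf (Fe_of hY3),
    (Fe_rv hM1).1 (Fe_rv_pre hM1 (Fe_of hX3))⟩
  · have h1 := iso 0 M.length (by omega) le_rfl
    rw [wv_len, sub_zero] at h1
    rw [← h1]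
    have h2 := hn_succ (X ++ (M ++ Y)) X.length
    rw [hn_sub_comm] at h2
    have h3 := dX0 1 le_rfl (by omega)
    rw [hn_sub_comm] at h3
    have a1 := hn_tri (vx oo up (X ++ (M ++ Y)) X.length) (vx oo up (X ++ (M ++ Y)) (X.length + 1))
      (vx oo up (X ++ (M ++ Y)) (X.length + M.length))
    have a2 := hn_tri (vx oo up (X ++ (M ++ Y)) (X.length + 1)) (vx oo up (X ++ (M ++ Y)) 1)
      (vx oo up (X ++ (M ++ Y)) (X.length + M.length))
    have a3 := hn_tri (vx oo up (X ++ (M ++ Y)) 1) (TIW.en (X ++ (M ++ Y)))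
      (vx oo up (X ++ (M ++ Y)) (X.length + M.length))
    rw [hn_sub_comm (TIW.en (X ++ (M ++ Y)))] at a3
    show hn (vx oo up (X ++ (M ++ Y)) X.length - vx oo up (X ++ (M ++ Y)) (X.length + M.length)) ≤ _
    linarith
  · rw [show X.length + (s0 - X.length) = s0 by omega]
    exact hs1

/-- **ROW G1**: the middle word between two good cuts of a good word (also a closed one) has a corridor from tip to tip -/
theorem mid_ofc (hη : 0 < η) (hak : a + 6 ≤ k) (hke : k ≤ e) (hmc : m + 7 ≤ c) (hcu : c ≤ u) (hej : e + 4 ≤ j)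
    (hL : X ++ (M ++ Y) ∈ GFc n j η κ a m c u e k) (hC : CutP j a m η X M Y) :
    2 ≤ M.length ∧ M ∈ SA ∧ hn (TIW.en M) ≤ 2 ^ (j + m + 3) ∧ 2 ^ (j - e) < hn (TIW.en M) ∧ M ∈ Fe (2 ^ (j - a)) ∧
      rv M ∈ Fe (2 ^ (j - a)) ∧ (∃ s, s ≤ M.length ∧ 2 ^ (j + u - 1) < hn (wv M s)) ∧
      ∀ (h w : ℕ) (r : ℤ), 1 ≤ h → 0 ≤ r → 3 * (2 * r + 3) * h ≤ 2 ^ (j - e) → 2 ^ (j - a) ≤ 8 * w →
        8 * w ≤ 3 * 2 ^ (j - a) → Chn h w r (2 ^ (j + c - 1) / h) M := by
  obtain ⟨σ, h1, h2, hM⟩ := mctx_of hη hmc hcu (by omega) hL hC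
  have hSA : X ++ (M ++ Y) ∈ SA := hL.1.1
  have hM1 : 1 ≤ M.length := by omega
  have pE : (2 : ℤ) ^ j ≤ 2 ^ (j + m) := pow_le_pow_right₀ (by norm_num) (by omega)
  have pj : (2 : ℤ) ^ 4 ≤ 2 ^ j := pow_le_pow_right₀ (by norm_num) (by omega)
  have pc : (2 : ℤ) ^ (j + m) * 128 ≤ 2 ^ (j + c) := by
    have h1 : (2 : ℤ) ^ (j + m + 7) ≤ 2 ^ (j + c) := pow_le_pow_right₀ (by norm_num) (by omega)
    rw [pow_add] at h1
    linarith
  have pu : (2 : ℤ) ^ (j + c) ≤ 2 ^ (j + u) := pow_le_pow_right₀ (by norm_num) (by omega)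
  have e0 : hn (wv M 0) = hn (TIW.en M) := by rw [wv_zero, hn_neg]
  have st := hM.sta
  refine ⟨by omega, pre_SA (suf_SA hSA), ?_, ?_, hM.fe, (Fe_rv hM1).2 hM.fs, ⟨σ, h2.le, ?_⟩, ?_⟩
  · rw [← e0, pow_add]
    linarith
  · have n0 := (hM.near (t := 0) (by omega)).1
    have n1 := (hM.near (t := M.length) le_rfl).1
    rw [wv_len] at n1
    have hz : hn (0 : Pt) = 0 := by decide
    rw [hz] at n1
    have := hM.nt2 (by omega) (by omega) hcu (by omega) (t1 := 0) (t2 := M.length) (by omega) h2.le le_rfl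
      (by linarith) (by linarith)
    rwa [wv_len, sub_zero, e0] at this
  · have n0 := (hM.near h2.le).1
    have hf := hM.far
    have p2 : (2 : ℤ) ^ (j + u) = 2 ^ (j + u - 1) * 2 := by
      rw [← pow_succ]
      congr 1
      omega
    linarith
  · intro h w r hh hr hrh hw1 hw2
    exact hM.chn hak hke hmc hcu hej hh hr hrh hw1 hw2

/-- the same for the words of GF -/
theorem mid_of (hη : 0 < η) (hak : a + 6 ≤ k) (hke : k ≤ e) (hmc : m + 7 ≤ c) (hcu : c ≤ u) (hej : e + 4 ≤ j)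
    (hL : X ++ (M ++ Y) ∈ GF n j η κ a m c u e k) (hC : CutP j a m η X M Y) :
    2 ≤ M.length ∧ M ∈ SA ∧ hn (TIW.en M) ≤ 2 ^ (j + m + 3) ∧ 2 ^ (j - e) < hn (TIW.en M) ∧ M ∈ Fe (2 ^ (j - a)) ∧
      rv M ∈ Fe (2 ^ (j - a)) ∧ (∃ s, s ≤ M.length ∧ 2 ^ (j + u - 1) < hn (wv M s)) ∧
      ∀ (h w : ℕ) (r : ℤ), 1 ≤ h → 0 ≤ r → 3 * (2 * r + 3) * h ≤ 2 ^ (j - e) → 2 ^ (j - a) ≤ 8 * w →
        8 * w ≤ 3 * 2 ^ (j - a) → Chn h w r (2 ^ (j + c - 1) / h) M :=
  mid_ofc hη hak hke hmc hcu hej (GF_sub_GFc n j η κ a m c u e k hL) hC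

/-- pairs of good cuts of a good word, from the counted cuts (only: both ends close, a far vertex) -/
theorem cutP_ofF (hmc : m + 7 ≤ c) (hcu : c ≤ u) (hj : 4 ≤ j) {L Y Y' : List Bool} (hF : L ∈ F n j)
    (hs : ∃ s, s ≤ L.length ∧ 2 ^ (j + u) < dz L s)
    (hY : Y ∈ NCa j (j - a) (2 ^ (j + m)) η L) (hY' : Y' ∈ NCa j (j - a) (2 ^ (j + m)) η (rv L)) :
    ∃ M, L = rev Y' ++ (M ++ Y) ∧ CutP j a m η (rev Y') M Y := by
  obtain ⟨y1, y2, A, hA, y3⟩ := hY
  obtain ⟨x1, x2, A', hA', x3⟩ := hY'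
  obtain ⟨s0, hs0, hs1⟩ := hs
  obtain ⟨-, -, -, hen⟩ := hF
  have en0 : hn (TIW.en L) ≤ 2 ^ j := by
    rwa [sub_zero] at hen
  have pE : (2 : ℤ) ^ j ≤ 2 ^ (j + m) := pow_le_pow_right₀ (by norm_num) (by omega)
  have pj : (2 : ℤ) ^ 4 ≤ 2 ^ j := pow_le_pow_right₀ (by norm_num) hj
  have pu : (2 : ℤ) ^ (j + m) * 128 ≤ 2 ^ (j + u) := by
    have h1 : (2 : ℤ) ^ (j + m + 7) ≤ 2 ^ (j + u) := pow_le_pow_right₀ (by norm_num) (by omega)
    rw [pow_add] at h1
    linarith
  have cE : ((2 ^ (j + m) : ℕ) : ℤ) = 2 ^ (j + m) := by push_cast; rfl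
  have hE0 : (0 : ℤ) < 2 ^ (j + m) := by positivity
  have hL1 : 1 ≤ L.length := by
    by_contra hcon
    rw [show s0 = 0 by omega, dz_zero] at hs1
    linarith
  -- the end part
  have dY : ∀ i, i ≤ Y.length → dz L (A.length + i) ≤ 6 * 2 ^ (j + m) := by
    intro i hi
    have e1 : vx oo up L (A.length + i) - TIW.en L = mulE (rt A) (vx oo up Y i - TIW.en Y) := by
      rw [hA, vx_app, mid_en_app, mulE_sub]
      abel
    unfold dz
    rw [e1, hn_mulE (nrm_rt _)]
    have h1 := mid_hn_In y2 hi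
    have h2 := mid_hn_In y2 (le_refl Y.length)
    have h3 := hn_sub (vx oo up Y i) (TIW.en Y)
    unfold TIW.en at h3
    rw [cE] at h1 h2
    unfold TIW.en
    linarith
  have hs3 : s0 < A.length := by
    by_contra hcon
    have hl : L.length = A.length + Y.length := by rw [hA, List.length_append]
    have := dY (s0 - A.length) (by omega)
    rw [show A.length + (s0 - A.length) = s0 by omega] at this
    linarith
  -- the start part
  obtain ⟨B, hB, hB2, hB3⟩ := split_rv hL1 hA'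
  have hlB : L.length = Y'.length + B.length := by
    conv_lhs => rw [hB]
    rw [List.length_append, rev_length]
  have one := hn_one en0
  have hs4 : Y'.length + 1 < s0 := by
    by_contra hcon
    push Not at hcon
    have hx : ∀ i, i ≤ Y'.length → hn (vx oo up (rv L) (A'.length + i) - vx oo up (rv L) A'.length) ≤ 3 * 2 ^ (j + m) := by
      intro i hi
      have e1 : vx oo up (rv L) (A'.length + i) - vx oo up (rv L) A'.length = mulE (rt A') (vx oo up Y' i) := by
        have e2 := vx_app A' Y' 0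
        rw [Nat.add_zero] at e2
        have e3 : mulE (rt A') (vx oo up Y' 0) = 0 := by
          show mulE (rt A') (0, 0) = 0
          unfold mulE
          simp
        rw [e3, add_zero] at e2
        rw [hA', vx_app, e2, add_sub_cancel_left]
      rw [e1, hn_mulE (nrm_rt _)]
      have h1 := mid_hn_In x2 hi
      rwa [cE] at h1
    have hv : ∀ t, 1 ≤ t → t ≤ Y'.length + 1 → hn (vx oo up L t - vx oo up L (Y'.length + 1)) ≤ 3 * 2 ^ (j + m) := by
      intro t ht ht'
      have h1 := hx (Y'.length + 1 - t) (by omega)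
      rw [hn_rv L (by omega) (by omega), show L.length - (A'.length + (Y'.length + 1 - t)) = t by omega,
        show L.length - A'.length = Y'.length + 1 by omega] at h1
      exact h1
    rcases Nat.eq_zero_or_pos s0 with h0 | h0
    · rw [h0, dz_zero] at hs1
      linarith
    · have h1 := hv s0 h0 hcon
      have h2 := hv 1 le_rfl (by omega)
      have h3 := hn_tri (vx oo up L s0) (vx oo up L (Y'.length + 1)) (vx oo up L 1)
      rw [hn_sub_comm (vx oo up L (Y'.length + 1))] at h3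
      have h4 := hn_tri (vx oo up L s0) (vx oo up L 1) (TIW.en L)
      unfold dz at hs1
      linarith
  -- the middle word
  have hsplit : A = rev Y' ++ A.drop Y'.length := by
    have h1 : A.take Y'.length = rev Y' := by
      have h2 : L.take Y'.length = A.take Y'.length := by
        rw [hA, List.take_append_of_le_length (by omega)]
      have h3 : L.take Y'.length = rev Y' := by
        conv_lhs => rw [hB, ← rev_length Y']
        exact List.take_left
      rw [← h2, h3]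
    rw [← h1, List.take_append_drop]
  have hM : L = rev Y' ++ (A.drop Y'.length ++ Y) := by
    rw [← List.append_assoc, ← hsplit]
    exact hA
  refine ⟨A.drop Y'.length, hM, ⟨y1, y2, by rw [← hsplit]; exact y3⟩, x1, by rw [rev_rev]; exact x2, ?_⟩
  have hBM : B = A.drop Y'.length ++ Y := by
    have := hM
    rw [hB] at this
    exact List.append_cancel_left this
  rw [← hBM, hB2]
  exact x3

/-- pairs of good cuts of a good word, from the counted cuts -/
theorem cutP_ofc (hmc : m + 7 ≤ c) (hcu : c ≤ u) (hj : 4 ≤ j) {L Y Y' : List Bool} (hL : L ∈ GFc n j η κ a m c u e k)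
    (hY : Y ∈ NCa j (j - a) (2 ^ (j + m)) η L) (hY' : Y' ∈ NCa j (j - a) (2 ^ (j + m)) η (rv L)) :
    ∃ M, L = rev Y' ++ (M ++ Y) ∧ CutP j a m η (rev Y') M Y :=
  cutP_ofF hmc hcu hj hL.1 hL.2.1 hY hY'

theorem cutP_of (hmc : m + 7 ≤ c) (hcu : c ≤ u) (hj : 4 ≤ j) {L Y Y' : List Bool} (hL : L ∈ GF n j η κ a m c u e k)
    (hY : Y ∈ NCa j (j - a) (2 ^ (j + m)) η L) (hY' : Y' ∈ NCa j (j - a) (2 ^ (j + m)) η (rv L)) :
    ∃ M, L = rev Y' ++ (M ++ Y) ∧ CutP j a m η (rev Y') M Y :=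
  cutP_ofF hmc hcu hj hL.1 hL.2.1 hY hY'

end final

end ARM

end HexObs
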