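import Pool.Agent.ARM.DefsG
import Pool.Agent.ARM.Corr
import Pool.Agent.TIW.Base

/-!
# ARM, row G1: definitions (helper74). Cells, corridors.

M in its own frame, the origin of the cells is the last vertex of M.
-/

set_option autoImplicit false

namespace HexObs

namespace ARM

open Finset TS SDN SIM NTA TIP TIW

/-- the vertices of M, seen from the last one -/
def wv (M : List Bool) (t : ℕ) : Pt := vx oo up M t - en M

/-- the cells of the mesh h -/
def cel (h : ℕ) (v : Pt) : ℤ × ℤ := (v.1 / h, v.2 / h)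

/-- M has a corridor: a chain of cells of the mesh h from the point w • de M in front of the tip to the point w behind the
start, in the box of radius R, at distance more than r from M -/
def Chn (h w : ℕ) (r R : ℤ) (M : List Bool) : Prop :=
  Relation.ReflTransGen (fun f g => adj f g ∧ nr R 0 g ∧ ∀ t, t ≤ M.length → ¬ nr r (cel h (wv M t)) g)
    (cel h ((w : ℤ) • de M)) (cel h (-(en M) - (w : ℤ) • up))

lemma wv_len (M : List Bool) : wv M M.length = 0 := sub_self _

lemma wv_zero (M : List Bool) : wv M 0 = -(en M) := zero_sub _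

lemma wv_sub (M : List Bool) (t s : ℕ) : wv M t - wv M s = vx oo up M t - vx oo up M s := by
  unfold wv
  abel

/-! ### the hexagonal norm and the coordinates -/

lemma hn_of_coord {p : Pt} {c : ℤ} (h1 : |p.1| ≤ c) (h2 : |p.2| ≤ c) : hn p ≤ 3 * c := by
  refine hn_le fun d hd => ?_
  simp only [dirs, mem_insert, mem_singleton] at hd
  unfold ip
  rw [abs_le] at *
  rcases hd with rfl | rfl | rfl | rfl | rfl | rfl <;> simp only <;> omega

lemma coord_of_hn (p : Pt) : 3 * |p.1| ≤ 2 * hn p ∧ 3 * |p.2| ≤ 2 * hn p := by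
  have a1 := ip_le_hn p (d := (1, 0)) (by decide)
  have a2 := ip_le_hn p (d := (0, 1)) (by decide)
  have a3 := ip_le_hn p (d := (-1, 1)) (by decide)
  have a4 := neg_hn_le_ip p (d := (1, 0)) (by decide)
  have a5 := neg_hn_le_ip p (d := (0, 1)) (by decide)
  have a6 := neg_hn_le_ip p (d := (-1, 1)) (by decide)
  unfold ip at a1 a2 a3 a4 a5 a6
  simp only at a1 a2 a3 a4 a5 a6
  constructor
  · rcases abs_cases p.1 with h | h <;> rw [h.1] <;> omega
  · rcases abs_cases p.2 with h | h <;> rw [h.1] <;> omega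

/-! ### cells -/

lemma cel_zero (h : ℕ) : cel h 0 = 0 := by
  unfold cel
  simp

lemma nr_cel {h : ℕ} (hh : 0 < h) {v w : Pt} {d : ℤ} (h1 : |w.1 - v.1| ≤ d * h) (h2 : |w.2 - v.2| ≤ d * h) :
    nr d (cel h v) (cel h w) := by
  have hh' : (0 : ℤ) < h := by exact_mod_cast hh
  have key : ∀ x y : ℤ, |y - x| ≤ d * h → |y / h - x / h| ≤ d := by
    intro x y hxy
    rw [abs_le] at *
    have e1 : x / (h : ℤ) + d = (x + d * h) / h := by
      rw [Int.add_mul_ediv_right _ _ (by omega)]
    have e2 : y / (h : ℤ) + d = (y + d * h) / h := by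
      rw [Int.add_mul_ediv_right _ _ (by omega)]
    have f1 : y / (h : ℤ) ≤ (x + d * h) / h := Int.ediv_le_ediv hh' (by omega)
    have f2 : x / (h : ℤ) ≤ (y + d * h) / h := Int.ediv_le_ediv hh' (by omega)
    constructor <;> omega
  exact ⟨key _ _ h1, key _ _ h2⟩

lemma of_nr_cel {h : ℕ} (hh : 0 < h) {v w : Pt} {d : ℤ} (h1 : nr d (cel h v) (cel h w)) :
    |w.1 - v.1| < (d + 1) * h ∧ |w.2 - v.2| < (d + 1) * h := by
  have hh' : (0 : ℤ) < h := by exact_mod_cast hh
  have key : ∀ x y : ℤ, |y / h - x / h| ≤ d → |y - x| < (d + 1) * h := by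
    intro x y hxy
    have a1 := Int.emod_add_mul_ediv x h
    have a2 := Int.emod_add_mul_ediv y h
    have b1 := Int.emod_nonneg x hh'.ne'
    have b2 := Int.emod_nonneg y hh'.ne'
    have c1 := Int.emod_lt_of_pos x hh'
    have c2 := Int.emod_lt_of_pos y hh'
    rw [abs_le] at hxy
    rw [abs_lt]
    constructor <;> nlinarith
  exact ⟨key _ _ h1.1, key _ _ h1.2⟩

/-- points with a small hexagonal distance are in near cells -/
lemma nr_of_hn {h : ℕ} (hh : 0 < h) {v w : Pt} {d : ℤ} (h1 : 2 * hn (v - w) < 3 * (d * h + 1)) : nr d (cel h v) (cel h w) := by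
  obtain ⟨a1, a2⟩ := coord_of_hn (v - w)
  have e1 : (v - w).1 = v.1 - w.1 := rfl
  have e2 : (v - w).2 = v.2 - w.2 := rfl
  rw [e1, abs_sub_comm] at a1
  rw [e2, abs_sub_comm] at a2
  exact nr_cel hh (by omega) (by omega)

/-- points in near cells have a small hexagonal distance -/
lemma hn_of_nr {h : ℕ} (hh : 0 < h) {v w : Pt} {d : ℤ} (h1 : nr d (cel h v) (cel h w)) : hn (v - w) < 3 * ((d + 1) * h) := by
  obtain ⟨a1, a2⟩ := of_nr_cel hh h1
  have e1 : (v - w).1 = v.1 - w.1 := rfl
  have e2 : (v - w).2 = v.2 - w.2 := rfl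
  rw [abs_sub_comm, ← e1] at a1
  rw [abs_sub_comm, ← e2] at a2
  have := hn_of_coord (p := v - w) (c := (d + 1) * h - 1) (by omega) (by omega)
  omega

end ARM

end HexObs
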