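import Pool.Agent.ARM.Num
import Pool.Agent.VF.MeanZ
import Pool.Agent.VF.SharpZ
import Pool.Agent.NTA.TbM
import Pool.Agent.NTA.TbBL
import Pool.Agent.NTA.LongQ
import Pool.Agent.EN.LatC

/-!
# ARM: moments of the length and tails (helper28)

* `mZ_le_ml`, `ml_le_mZ` : the mean length of the bridges of the scale k against `ml k`;
* **`mom_tail`** : dyadic tails give the moments; **`tail_mom`** : Markov;
* **`brd_tail`** : the tail of the lengths of the low bridges in terms of `ml`.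
-/

set_option autoImplicit false

namespace HexObs

namespace ARM

open Finset TS SDN SIM NTA TIP

open scoped ENNReal

/-- the mean length of the bridges from above -/
lemma mZ_le_ml : ∃ C : ℝ, 1 ≤ C ∧ ∀ k : ℕ, PW.mZ (2 ^ k) ≤ C * ml k := by
  obtain ⟨C, hC, h⟩ := VF.mUp VF.sharpZ
  refine ⟨C + 1, by linarith, fun k => (h k).trans ?_⟩
  have := ml_pos k
  unfold ml at this ⊢
  nlinarith

/-- the mean length of the bridges from below -/
lemma ml_le_mZ : ∃ C : ℝ, 1 ≤ C ∧ ∀ k : ℕ, ml k ≤ C * PW.mZ (2 ^ k) := by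
  obtain ⟨c, hc, h⟩ := VF.mLow VF.sharpZ
  refine ⟨1 / c + 1, by have : 0 < 1 / c := by positivity
                        linarith, fun k => ?_⟩
  have h1 := h k
  have h2 : 0 < PW.mZ (2 ^ k) := mlow_M.pos k
  have h3 : ml k ≤ 1 / c * PW.mZ (2 ^ k) := by
    rw [one_div, ← div_eq_inv_mul, le_div_iff₀ hc, mul_comm]
    exact h1
  linarith

/-- **dyadic tails give the moments** -/
lemma mom_tail (W : Set (List Bool)) {μ C : ℝ} (hμ : 0 < μ) (hC : 0 ≤ C) (q : ℕ) (x : ℝ≥0∞) (h0 : gf W ≤ ENNReal.ofReal C * x)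
    (h : ∀ s : ℕ, gf {A | A ∈ W ∧ 2 ^ s * μ ≤ (A.length : ℝ)} ≤ ENNReal.ofReal (C / 2 ^ ((q + 1) * s)) * x) :
    ∑' A : W, wE (A : List Bool) * ENNReal.ofReal ((1 + ((A : List Bool).length : ℝ) / μ) ^ q) ≤
      ENNReal.ofReal (C * (2 ^ q + 2 * 4 ^ q)) * x := by
  classical
  have key : ∀ A : List Bool, ENNReal.ofReal ((1 + (A.length : ℝ) / μ) ^ q) ≤ ENNReal.ofReal (2 ^ q) +
      ∑' s : ℕ, (if 2 ^ s * μ ≤ (A.length : ℝ) then ENNReal.ofReal (4 ^ q * 2 ^ (q * s)) else 0) := by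
    intro A
    obtain ⟨X, hX⟩ : ∃ X : ℝ, X = (A.length : ℝ) / μ := ⟨_, rfl⟩
    have hX0 : 0 ≤ X := by rw [hX]; positivity
    rw [← hX]
    rcases lt_or_ge X 1 with h1 | h1
    · refine le_trans (ENNReal.ofReal_le_ofReal ?_) le_self_add
      exact pow_le_pow_left₀ (by linarith) (by linarith) q
    · obtain ⟨s, hs1, hs2⟩ := exists_nat_pow_near h1 (by norm_num : (1 : ℝ) < 2)
      refine le_trans ?_ le_add_self
      refine le_trans ?_ (ENNReal.le_tsum s)
      have h2 : 2 ^ s * μ ≤ (A.length : ℝ) := by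
        rw [hX, le_div_iff₀ hμ] at hs1
        exact hs1
      rw [if_pos h2]
      refine ENNReal.ofReal_le_ofReal ?_
      have h3 : 1 + X ≤ 4 * 2 ^ s := by
        rw [pow_succ] at hs2
        have : (1 : ℝ) ≤ 2 ^ s := one_le_pow₀ (by norm_num)
        linarith
      calc (1 + X) ^ q ≤ (4 * 2 ^ s) ^ q := pow_le_pow_left₀ (by linarith) h3 q
        _ = _ := by rw [mul_pow, ← pow_mul, mul_comm s q]
  have e1 : ∀ s : ℕ, ∑' A : W, wE (A : List Bool) *
      (if 2 ^ s * μ ≤ ((A : List Bool).length : ℝ) then ENNReal.ofReal (4 ^ q * 2 ^ (q * s)) else 0) ≤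
        ENNReal.ofReal (C * 4 ^ q * (1 / 2) ^ s) * x := by
    intro s
    have h1 : ∑' A : W, wE (A : List Bool) *
        (if 2 ^ s * μ ≤ ((A : List Bool).length : ℝ) then ENNReal.ofReal (4 ^ q * 2 ^ (q * s)) else 0) =
          gf {A | A ∈ W ∧ 2 ^ s * μ ≤ (A.length : ℝ)} * ENNReal.ofReal (4 ^ q * 2 ^ (q * s)) := by
      unfold gf
      rw [← ENNReal.tsum_mul_right]
      rw [tsum_subtype W (fun A => wE A * (if 2 ^ s * μ ≤ (A.length : ℝ) then ENNReal.ofReal (4 ^ q * 2 ^ (q * s)) else 0)),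
        tsum_subtype {A | A ∈ W ∧ 2 ^ s * μ ≤ (A.length : ℝ)} (fun A => wE A * ENNReal.ofReal (4 ^ q * 2 ^ (q * s)))]
      refine tsum_congr fun A => ?_
      by_cases hA : A ∈ W
      · by_cases hl : 2 ^ s * μ ≤ (A.length : ℝ)
        · rw [Set.indicator_of_mem hA, Set.indicator_of_mem (show A ∈ {A | A ∈ W ∧ 2 ^ s * μ ≤ (A.length : ℝ)} from ⟨hA, hl⟩),
            if_pos hl]
        · rw [Set.indicator_of_mem hA,
            Set.indicator_of_notMem (show A ∉ {A | A ∈ W ∧ 2 ^ s * μ ≤ (A.length : ℝ)} from fun h => hl h.2), if_neg hl, mul_zero]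
      · rw [Set.indicator_of_notMem hA, Set.indicator_of_notMem (show A ∉ {A | A ∈ W ∧ 2 ^ s * μ ≤ (A.length : ℝ)} from fun h => hA h.1)]
    rw [h1]
    refine (mul_le_mul_left (h s) _).trans (le_of_eq ?_)
    rw [mul_right_comm, ← ENNReal.ofReal_mul (by positivity)]
    congr 2
    have e2 : (2 : ℝ) ^ ((q + 1) * s) = 2 ^ (q * s) * 2 ^ s := by rw [← pow_add]; congr 1; ring
    have h2 : (0 : ℝ) < 2 ^ (q * s) := by positivity
    have h3 : (0 : ℝ) < 2 ^ s := by positivity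
    rw [e2, one_div, inv_pow]
    field_simp
  calc ∑' A : W, wE (A : List Bool) * ENNReal.ofReal ((1 + ((A : List Bool).length : ℝ) / μ) ^ q)
      ≤ ∑' A : W, (wE (A : List Bool) * ENNReal.ofReal (2 ^ q) + ∑' s : ℕ, wE (A : List Bool) *
        (if 2 ^ s * μ ≤ ((A : List Bool).length : ℝ) then ENNReal.ofReal (4 ^ q * 2 ^ (q * s)) else 0)) := by
        refine ENNReal.tsum_le_tsum fun A => ?_
        rw [ENNReal.tsum_mul_left, ← mul_add]
        exact mul_le_mul_right (key A) _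
    _ = gf W * ENNReal.ofReal (2 ^ q) + ∑' s : ℕ, ∑' A : W, wE (A : List Bool) *
        (if 2 ^ s * μ ≤ ((A : List Bool).length : ℝ) then ENNReal.ofReal (4 ^ q * 2 ^ (q * s)) else 0) := by
        rw [ENNReal.tsum_add, ENNReal.tsum_mul_right, ENNReal.tsum_comm]
        rfl
    _ ≤ ENNReal.ofReal C * x * ENNReal.ofReal (2 ^ q) + ∑' s : ℕ, ENNReal.ofReal (C * 4 ^ q * (1 / 2) ^ s) * x :=
        add_le_add (mul_le_mul_left h0 _) (ENNReal.tsum_le_tsum e1)
    _ = _ := by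
        rw [ENNReal.tsum_mul_right, ← ENNReal.ofReal_tsum_of_nonneg (fun j => by positivity) (summable_geometric_two.mul_left _),
          tsum_mul_left, tsum_geometric_two, mul_right_comm, ← ENNReal.ofReal_mul hC, ← add_mul,
          ← ENNReal.ofReal_add (by positivity) (by positivity)]
        congr 2
        ring

/-- **Markov** -/
lemma tail_mom (W : Set (List Bool)) {μ lam : ℝ} (hμ : 0 < μ) (hl : 0 ≤ lam) (q : ℕ) :
    gf {A | A ∈ W ∧ lam * μ ≤ (A.length : ℝ)} * ENNReal.ofReal (lam ^ q) ≤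
      ∑' A : W, wE (A : List Bool) * ENNReal.ofReal ((1 + ((A : List Bool).length : ℝ) / μ) ^ q) := by
  unfold gf
  rw [← ENNReal.tsum_mul_right]
  refine le_trans (ENNReal.tsum_le_tsum (g := fun A : {A | A ∈ W ∧ lam * μ ≤ (A.length : ℝ)} => wE (A : List Bool) *
    ENNReal.ofReal ((1 + ((A : List Bool).length : ℝ) / μ) ^ q)) fun A => ?_)
    (ENNReal.tsum_mono_subtype (fun A : List Bool => wE A * ENNReal.ofReal ((1 + (A.length : ℝ) / μ) ^ q)) (fun A hA => hA.1))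
  refine mul_le_mul_right (ENNReal.ofReal_le_ofReal (pow_le_pow_left₀ hl ?_ q)) _
  have h1 : lam ≤ ((A : List Bool).length : ℝ) / μ := by
    rw [le_div_iff₀ hμ]
    exact A.2.2
  linarith

/-- **the tail of the lengths of the low bridges** -/
lemma brd_tail (Q : ℕ) : ∃ A : ℝ, 1 ≤ A ∧ ∀ (k : ℕ) (lam : ℝ), 0 < lam →
    gf {Z | Z ∈ BU ∧ hgt Z ≤ 2 ^ k ∧ lam * ml k ≤ (Z.length : ℝ)} ≤ ENNReal.ofReal (A / lam ^ Q * Ub k) := by
  obtain ⟨A, hA, hTB⟩ := tb_M Q
  obtain ⟨C, hC, hm⟩ := mZ_le_ml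
  have hC0 : 0 < C := by linarith
  have hCQ : 1 ≤ C ^ Q := one_le_pow₀ hC
  refine ⟨(A + 1) * C ^ Q, by nlinarith, fun k lam hl => ?_⟩
  have hU : 0 < Ub k := Ub_pos k
  have hlQ : 0 < lam ^ Q := by positivity
  have h1 : gf {Z | Z ∈ BU ∧ hgt Z ≤ 2 ^ k ∧ lam * ml k ≤ (Z.length : ℝ)} ≤ NTm.TL (2 ^ k) (lam * ml k) := by
    refine le_trans (gf_mono ?_) (EN.LB.gf_TL (2 ^ k) (lam * ml k))
    intro Z hZ
    exact ⟨hgt Z, hZ.2.1, TIP.BU_hgt hZ.1, hZ.2.2⟩
  refine h1.trans ?_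
  rcases lt_or_ge (lam / C) 1 with h2 | h2
  · refine (TL_le_Ub k _).trans (ENNReal.ofReal_le_ofReal ?_)
    rw [div_lt_one hC0] at h2
    have h3 : lam ^ Q ≤ C ^ Q := pow_le_pow_left₀ hl.le h2.le Q
    have h4 : 1 ≤ (A + 1) * C ^ Q / lam ^ Q := by
      rw [le_div_iff₀ hlQ]
      nlinarith
    nlinarith
  · have h3 : lam / C * PW.mZ (2 ^ k) ≤ lam * ml k := by
      rw [div_mul_eq_mul_div, div_le_iff₀ hC0]
      have := hm k
      nlinarith
    refine (LQ.TL_anti h3).trans ((hTB k (lam / C) h2).trans (ENNReal.ofReal_le_ofReal ?_))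
    have h4 : A / (lam / C) ^ Q = A * C ^ Q / lam ^ Q := by
      rw [div_pow]
      field_simp
    rw [h4]
    have h5 : A * C ^ Q / lam ^ Q ≤ (A + 1) * C ^ Q / lam ^ Q := by
      gcongr
      linarith
    exact mul_le_mul_of_nonneg_right h5 hU.le

end ARM

end HexObs
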