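import Pool.Agent.ARM.NcBP
import Pool.Agent.ARM2.TubeApp

/-!
# ARM, row `NcHB` (helper87): the chain of the tube pieces along the serpentine
-/

set_option autoImplicit false

namespace HexObs

namespace ARM

namespace NB

open Finset TIW TS SDN NTA TIP AR

open scoped ENNReal

/-! ### 1. Targets and lengths -/

lemma cl_xy (x y : ℤ) : cl ((x, y) : Pt) = (x : ZMod 3) - (y : ZMod 3) := by
  unfold cl
  push_cast
  ring

lemma hn_nn {x y : ℤ} (hx : 0 ≤ x) (hy : 0 ≤ y) : hn ((x, y) : Pt) ≤ 2 * (x + y) := by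
  refine hn_le fun d hd => ?_
  rcases dir_cases upd' hd with rfl | rfl | rfl | rfl | rfl | rfl
  · simp only [ip, up]; linarith
  · rw [ip_neg_right]; simp only [ip, up]; linarith
  · simp only [ip, rotL, up]; linarith
  · rw [ip_neg_right]; simp only [ip, rotL, up]; linarith
  · simp only [ip, rotR, up]; linarith
  · rw [ip_neg_right]; simp only [ip, rotR, up]; linarith

/-- points of one class in a ball -/
lemma pts (P : Pt) (c : ZMod 3) {k m : ℕ} (hm : 12 * m ≤ 2 ^ k) : ∃ S : Finset Pt, S.card = m * m ∧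
    ∀ q ∈ S, cl q = c ∧ hn (q - P) ≤ 2 ^ k := by
  classical
  obtain ⟨a, ha, hca⟩ : ∃ a : ℕ, a < 3 ∧ cl P + (a : ZMod 3) = c := by
    have key : ∀ x y : ZMod 3, x + ((0 : ℕ) : ZMod 3) = y ∨ x + ((1 : ℕ) : ZMod 3) = y ∨ x + ((2 : ℕ) : ZMod 3) = y := by
      decide
    rcases key (cl P) c with h | h | h
    · exact ⟨0, by norm_num, h⟩
    · exact ⟨1, by norm_num, h⟩
    · exact ⟨2, by norm_num, h⟩
  obtain ⟨f, hf⟩ : ∃ f : ℕ × ℕ → Pt, f = fun q => P + (((a : ℤ) + 3 * (q.1 : ℤ), 3 * (q.2 : ℤ)) : Pt) := ⟨_, rfl⟩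
  have hinj : Function.Injective f := by
    intro q q' h
    rw [hf] at h
    have h1 := add_left_cancel h
    have h2 := congrArg Prod.fst h1
    have h3 := congrArg Prod.snd h1
    simp only at h2 h3
    exact Prod.ext (by omega) (by omega)
  refine ⟨(range m ×ˢ range m).image f, ?_, fun q hq => ?_⟩
  · rw [card_image_of_injective _ hinj, card_product, card_range]
  · rw [mem_image] at hq
    obtain ⟨⟨i, j⟩, hij, rfl⟩ := hq
    rw [mem_product, mem_range, mem_range] at hij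
    obtain ⟨h1, h2⟩ := hij
    simp only at h1 h2
    rw [hf]
    constructor
    · have e1 : cl (P + (((a : ℤ) + 3 * (i : ℤ), 3 * (j : ℤ)) : Pt)) = cl P + cl (((a : ℤ) + 3 * (i : ℤ), 3 * (j : ℤ)) : Pt) := by
        unfold cl
        simp only [Prod.fst_add, Prod.snd_add]
        push_cast
        ring
      have h3 : (3 : ZMod 3) = 0 := by decide
      show cl (P + (((a : ℤ) + 3 * (i : ℤ), 3 * (j : ℤ)) : Pt)) = c
      rw [e1, cl_xy ((a : ℤ) + 3 * (i : ℤ)) (3 * (j : ℤ))]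
      push_cast
      rw [h3, ← hca]
      ring
    · show hn (P + (((a : ℤ) + 3 * (i : ℤ), 3 * (j : ℤ)) : Pt) - P) ≤ 2 ^ k
      rw [add_sub_cancel_left]
      refine (hn_nn (by positivity) (by positivity)).trans ?_
      have h4 : (12 * m : ℤ) ≤ 2 ^ k := by exact_mod_cast hm
      have h5 : (a : ℤ) ≤ 2 := by omega
      have h6 : (i : ℤ) + 1 ≤ m := by omega
      have h7 : (j : ℤ) + 1 ≤ m := by omega
      linarith

/-- lengths of one parity in a window -/
lemma nums (L p m : ℕ) (hp : p < 2) : ∃ T : Finset ℕ, T.card = m ∧ ∀ n ∈ T, n % 2 = p ∧ L ≤ n ∧ n ≤ L + 2 * m := by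
  classical
  obtain ⟨n0, h1, h2, h3⟩ : ∃ n0, n0 % 2 = p ∧ L ≤ n0 ∧ n0 ≤ L + 1 := by
    rcases Nat.lt_or_ge (L % 2) p with h | h
    · exact ⟨L + 1, by omega, by omega, by omega⟩
    · rcases Nat.lt_or_ge p (L % 2) with h' | h'
      · exact ⟨L + 1, by omega, by omega, by omega⟩
      · exact ⟨L, by omega, by omega, by omega⟩
  refine ⟨(range m).image fun q => n0 + 2 * q, ?_, fun n hn => ?_⟩
  · rw [card_image_of_injective _ fun a b h => by simpa using h, card_range]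
  · rw [mem_image] at hn
    obtain ⟨q, hq, rfl⟩ := hn
    rw [mem_range] at hq
    exact ⟨by omega, by omega, by omega⟩

lemma cl_dir : ∀ d ∈ dirs, cl d = 1 ∨ cl d = 2 := by decide

/-! ### 2. One piece -/

/-- the tube pieces of the scale k and the mesh D -/
def TubeK (k : ℕ) (D : ℤ) (a A1 c0 : ℝ) : Prop := ∀ (r b : ℕ) (e : ℕ → Pt) (z : Pt), 1 ≤ r → r ≤ 4 → IPg e r → e 0 = up →
  hn (z - pv e D r) ≤ 2 ^ (k + 2) → cl z = (if Even b then 0 else 2) → cl (e (r - 1)) = (if Even b then 2 else 1) →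
  a * ml k ≤ b → (b : ℝ) ≤ A1 * ml k →
    ENNReal.ofReal (c0 * (Ub k / (4 ^ k * ml k))) ≤ gf {Q | TubeQ e D (2 ^ (k + 9)) r z Q ∧ Q.length = b}

/-- the next piece behind A: absolute target near the vertex, total length in a window -/
def VW (e : ℕ → Pt) (D : ℤ) (k p r L M : ℕ) (A : List Bool) : Set (List Bool) :=
  {V | ∃ z', TubeQ (nx A e p) D (2 ^ (k + 9)) r z' V ∧ hn (TIW.en A + mulE (rt A) z' - pv e D (p + r)) ≤ 2 ^ k ∧
    L ≤ A.length + V.length ∧ A.length + V.length ≤ L + M}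

lemma ml_pos (k : ℕ) : 0 < ml k := Real.rpow_pos_of_pos (by norm_num) _

lemma piece {k : ℕ} {D : ℤ} {a A1 c0 : ℝ} (hT : TubeK k D a A1 c0) (hc0 : 0 ≤ c0) {e : ℕ → Pt} {p r L M m m1 : ℕ}
    {A : List Bool} (h : IPath e (p + r)) (hr : 1 ≤ r) (hr4 : r ≤ 4) (hs : e p = e (p - 1)) (hd : TIW.de A = e (p - 1))
    (hz : hn (TIW.en A - pv e D p) ≤ 2 ^ k) (hm : 12 * m ≤ 2 ^ k) (hm1 : 2 * m1 ≤ M) (hA : A.length ≤ L)
    (h1 : A.length + a * ml k ≤ L) (h2 : (L : ℝ) + M ≤ A.length + A1 * ml k) :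
    ENNReal.ofReal (m * m * m1 * (c0 * (Ub k / (4 ^ k * ml k)))) ≤ gf (VW e D k p r L M A) := by
  classical
  have hdir : e (p + r - 1) ∈ dirs := h.dir _ (by omega)
  obtain ⟨q0, hq0, hq1⟩ : ∃ q0 : ℕ, q0 < 2 ∧ ∀ n : ℕ, n % 2 = q0 → cl (e (p + r - 1)) = if Even n then 2 else 1 := by
    rcases cl_dir _ hdir with g | g
    · refine ⟨1, by norm_num, fun n hn => ?_⟩
      rw [if_neg (by rw [Nat.even_iff]; omega), g]
    · refine ⟨0, by norm_num, fun n hn => ?_⟩
      rw [if_pos (by rw [Nat.even_iff]; omega), g]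
  obtain ⟨T, hT1, hT2⟩ := nums L q0 m1 hq0
  obtain ⟨S, hS1, hS2⟩ := pts (pv e D (p + r)) (if q0 = 0 then 0 else 2) hm
  obtain ⟨W, hW⟩ : ∃ W : Pt × ℕ → Set (List Bool), W = fun q =>
    {V | TubeQ (nx A e p) D (2 ^ (k + 9)) r (tg A q.1) V ∧ V.length = q.2 - A.length} := ⟨_, rfl⟩
  have hlow : ∀ q ∈ S ×ˢ T, ENNReal.ofReal (c0 * (Ub k / (4 ^ k * ml k))) ≤ gf (W q) := by
    rintro ⟨z1, n⟩ hq
    rw [mem_product] at hq
    obtain ⟨g1, g2⟩ := hq
    obtain ⟨f1, f2, f3⟩ := hT2 n g2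
    obtain ⟨f4, f5⟩ := hS2 z1 g1
    have hn : n = A.length + (n - A.length) := by omega
    have hcz : cl z1 = if Even n then 0 else 2 := by
      rw [f4]
      rcases Nat.lt_or_ge q0 1 with g | g
      · rw [if_pos (by omega), if_pos (by rw [Nat.even_iff]; omega)]
      · rw [if_neg (by omega), if_neg (by rw [Nat.even_iff]; omega)]
    have hpath := nx_path h hr hs hd
    rw [hW]
    refine hT r (n - A.length) (nx A e p) (tg A z1) hr hr4 ⟨hpath.dir, hpath.tur, hpath.ind⟩ (hpath.one (by omega)) ?_ ?_ ?_ ?_ ?_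
    · refine nx_hn.trans ?_
      have e4 : (2 : ℤ) ^ (k + 2) = 4 * 2 ^ k := by ring
      have e5 : (0 : ℤ) < 2 ^ k := by positivity
      rw [e4]
      linarith
    · exact tg_cl hn hcz
    · refine nx_cl (j := r - 1) hn ?_
      rw [show p + (r - 1) = p + r - 1 by omega]
      exact hq1 n f1
    · rw [Nat.cast_sub (by omega)]
      have : (L : ℝ) ≤ n := by exact_mod_cast f2
      linarith
    · rw [Nat.cast_sub (by omega)]
      have : (n : ℝ) ≤ L + M := by
        have : n ≤ L + M := by omega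
        exact_mod_cast this
      linarith
  have hsum : ((S ×ˢ T).card : ℝ≥0∞) * ENNReal.ofReal (c0 * (Ub k / (4 ^ k * ml k))) ≤ gf (⋃ q ∈ S ×ˢ T, W q) := by
    refine le_trans ?_ (BAR.gf_bi_eq (S ×ˢ T) (fun q => W q ∩ {V | q ∈ S ×ˢ T}) ?_ |>.trans (gf_mono ?_))
    · rw [← nsmul_eq_mul, ← Finset.sum_const]
      refine Finset.sum_le_sum fun q hq => (hlow q hq).trans (gf_mono fun V hV => ⟨hV, hq⟩)
    · rintro ⟨z1, n⟩ ⟨z2, n'⟩ V ⟨g1, g2⟩ ⟨g3, g4⟩
      have g2' : (z1, n) ∈ S ×ˢ T := g2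
      have g4' : (z2, n') ∈ S ×ˢ T := g4
      rw [mem_product] at g2' g4'
      rw [hW] at g1 g3
      have f1 : TIW.en V = tg A z1 := g1.1.en
      have f2 : TIW.en V = tg A z2 := g3.1.en
      have f3 : z1 = z2 := by
        rw [← rt_tg A z1, ← rt_tg A z2, ← f1, ← f2]
      have f4 : V.length = n - A.length := g1.2
      have f5 : V.length = n' - A.length := g3.2
      have f6 := (hT2 n g2'.2).2.1
      have f7 := (hT2 n' g4'.2).2.1
      exact Prod.ext f3 (by show n = n'; omega)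
    · intro V hV
      rw [Set.mem_iUnion₂] at hV ⊢
      obtain ⟨q, hq, g⟩ := hV
      exact ⟨q, hq, g.1⟩
  refine le_trans ?_ (hsum.trans (gf_mono ?_))
  · rw [card_product, hS1, hT1, ← ENNReal.ofReal_natCast, ← ENNReal.ofReal_mul (Nat.cast_nonneg _)]
    push_cast
    exact le_rfl
  · intro V hV
    rw [Set.mem_iUnion₂] at hV
    obtain ⟨⟨z1, n⟩, hq, g⟩ := hV
    rw [mem_product] at hq
    rw [hW] at g
    obtain ⟨f1, f2, f3⟩ := hT2 n hq.2
    obtain ⟨f4, f5⟩ := hS2 z1 hq.1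
    have g2 : V.length = n - A.length := g.2
    refine ⟨tg A z1, g.1, ?_, ?_, ?_⟩
    · rw [rt_tg]
      exact f5
    · omega
    · omega

end NB

end ARM

end HexObs
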