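import Pool.Agent.ARM.NcBC

/-!
# ARM, row `NcHB` (helper87): the mass of the long words along the serpentine
-/

set_option autoImplicit false

namespace HexObs

namespace ARM

namespace NB

open Finset TIW TS SDN NTA TIP AR

open scoped ENNReal

/-- the words up to the vertex t, length in a window, with a high vertex in the first part -/
def CC (e : ℕ → Pt) (D : ℤ) (k t L M l1 : ℕ) : Set (List Bool) :=
  {A | ∃ z, TubeQ e D (513 * 2 ^ k) t z A ∧ hn (z - pv e D t) ≤ 2 ^ k ∧ L ≤ A.length ∧ A.length ≤ L + M ∧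
    ∃ i1, i1 ≤ A.length ∧ i1 ≤ l1 ∧ 2 * D - 2 ^ k ≤ ip (vx oo up A i1) up}

lemma tq_mono {e : ℕ → Pt} {D w w' : ℤ} {r : ℕ} {z : Pt} {Q : List Bool} (h : TubeQ e D w r z Q) (hw : w ≤ w') :
    TubeQ e D w' r z Q := by
  refine ⟨h.sa, h.en, h.de, fun i hi => ?_, fun i h1 hi => ?_, fun i hi => ?_⟩
  · obtain ⟨j, h1, h2⟩ := h.rg i hi
    exact ⟨j, h1, h2.mono hw⟩
  · rcases h.st i h1 hi with g | ⟨j, g1, g2, g3⟩
    · exact Or.inl g
    · exact Or.inr ⟨j, g1, g2, g3.mono hw⟩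
  · rcases h.bd i hi with g | ⟨j, g1, g2⟩
    · exact Or.inl g
    · exact Or.inr ⟨j, g1, g2.mono hw⟩

variable {k : ℕ} {D : ℤ} {a A1 c0 κ : ℝ} {e : ℕ → Pt} {p r L L' M m m1 l1 : ℕ}

/-- **one step of the chain** -/
theorem step (hT : TubeK k D a A1 c0) (hc0 : 0 ≤ c0) (h : IPath e (p + r)) (hp : 1 ≤ p) (hr : 1 ≤ r) (hr4 : r ≤ 4)
    (hs : e p = e (p - 1)) (hD : 1026 * 2 ^ k < D) (hm : 12 * m ≤ 2 ^ k) (hm1 : 2 * m1 ≤ M)
    (ha : 0 ≤ a) (h1 : ((L : ℝ) + M) + a * ml k ≤ L') (h2 : (L' : ℝ) + M ≤ L + A1 * ml k) (hκ0 : 0 ≤ κ)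
    (hκ : κ * Ub k ≤ m * m * m1 * (c0 * (Ub k / (4 ^ k * ml k)))) {x : ℝ} (hx : 0 ≤ x)
    (hA : ENNReal.ofReal (x * Ub k) ≤ gf (CC e D k p L M l1)) :
    ENNReal.ofReal (x * κ * Ub k) ≤ gf (CC e D k (p + r) L' M l1) := by
  have hU := Ub_pos k
  have hml := ml_pos k
  have hk0 : (0 : ℤ) < 2 ^ k := by positivity
  have hk9 : (2 : ℤ) ^ (k + 9) = 512 * 2 ^ k := by ring
  have h0 : L + M ≤ L' := by
    have : (L : ℝ) + M ≤ L' := by
      have := mul_nonneg ha hml.le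
      linarith
    exact_mod_cast this
  have hpiece : ∀ A ∈ CC e D k p L M l1, ENNReal.ofReal (κ * Ub k) ≤ gf (VW e D k p r L' M A) := by
    rintro A ⟨z, g1, g2, g3, g4, -⟩
    refine (ENNReal.ofReal_le_ofReal hκ).trans (piece hT hc0 h hr hr4 hs g1.de (by rw [g1.en]; exact g2) hm hm1 (by omega) ?_ ?_)
    · have : (A.length : ℝ) ≤ L + M := by exact_mod_cast g4
      linarith
    · have : (L : ℝ) ≤ A.length := by exact_mod_cast g3
      linarith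
  have hglue : gf (CC e D k p L M l1) * ENNReal.ofReal (κ * Ub k) ≤
      gf (Df (CC e D k p L M l1) BU) * gf (Pr (CC e D k p L M l1) (VW e D k p r L' M)) := by
    refine glueM TIP.FreeA.BU_nil (fun _ h _ h' => TIP.FreeA.BU_app h h') hpiece fun A hA1 A' hA2 V hV1 V' hV2 he hl => ?_
    obtain ⟨Z, rfl⟩ : ∃ Z, A' = A ++ Z := by
      have h1 : A <+: A' ++ V' := ⟨V, he⟩
      have h2 : A' <+: A' ++ V' := List.prefix_append _ _
      obtain ⟨Z, hZ⟩ := List.prefix_of_prefix_length_le h1 h2 hl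
      exact ⟨Z, hZ.symm⟩
    rw [List.append_assoc] at he
    have he' := List.append_cancel_left he
    obtain ⟨z, g1, g2, -⟩ := hA1
    obtain ⟨z2, g3, g4, -⟩ := hA2
    obtain ⟨z', g5, g6, -⟩ := hV1
    rw [he'] at g5
    exact ⟨Z, (zQ h hs g1 g2 g3 g5 (by rw [hk9]; linarith)).1, rfl⟩
  have hdf : gf (Df (CC e D k p L M l1) BU) ≤ ENNReal.ofReal (Ub k) := by
    refine df_mass (d := e (p - 1)) (c := pv e D p) (n := 2 ^ k) ?_
    rintro A ⟨z, g1, g2, -⟩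
    refine ⟨g1.de, ?_⟩
    rw [g1.en]
    exact_mod_cast g2
  refine (of_step (K := Ub k) (u := κ * Ub k) (y := x * κ * Ub k) hU hx (by positivity) hglue hA le_rfl hdf
    (le_of_eq (by ring))).trans (gf_mono ?_)
  rintro Q ⟨A, ⟨z, g1, g2, g3, g4, i1, g5, g6, g7⟩, V, ⟨z', f1, f2, f3, f4⟩, rfl⟩
  refine ⟨z + mulE (rt A) z', ?_, ?_, ?_, ?_, i1, ?_, g6, ?_⟩
  · exact app h hp hr hs g1 g2 f1 (by rw [hk9]; linarith) (by rw [hk9]; linarith)
  · rw [← g1.en]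
    exact f2
  · rw [List.length_append]
    exact f3
  · rw [List.length_append]
    exact f4
  · rw [List.length_append]
    omega
  · rw [vx_append (by omega)]
    exact g7

lemma rt_nil : ∀ y : Pt, mulE (rt ([] : List Bool)) y = y := by
  have h1 : rt ([] : List Bool) = (1, 0) := by decide
  intro y
  rw [h1]
  simp [mulE]

lemma nx_nil (e : ℕ → Pt) : nx [] e 0 = e := by
  funext j
  have h1 := ARM.G3.rt_rc [] (e j)
  rw [rt_nil] at h1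
  unfold nx
  rw [Nat.zero_add]
  exact h1

/-- **the first piece** -/
theorem base (hT : TubeK k D a A1 c0) (hc0 : 0 ≤ c0) (h : IPath e 1) (hm : 12 * m ≤ 2 ^ k) (hm1 : 2 * m1 ≤ M)
    (h1 : a * ml k ≤ L) (h2 : (L : ℝ) + M ≤ A1 * ml k)
    (hκ : κ * Ub k ≤ m * m * m1 * (c0 * (Ub k / (4 ^ k * ml k)))) :
    ENNReal.ofReal (κ * Ub k) ≤ gf (CC e D k 1 L M (L + M)) := by
  have e0 : TIW.en ([] : List Bool) = 0 := rfl
  have e1 : pv e D 0 = 0 := by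
    unfold pv ps
    rw [range_zero, sum_empty, smul_zero]
  have e2 : hn (0 : Pt) = 0 := by decide
  have hk0 : (0 : ℤ) < 2 ^ k := by positivity
  have e3 := rt_nil
  refine (ENNReal.ofReal_le_ofReal hκ).trans ((piece (p := 0) (r := 1) (A := []) (L := L) (M := M) hT hc0 h le_rfl (by norm_num)
    rfl (by rw [h.one (by norm_num)]; rfl) (by rw [e0, e1, sub_zero, e2]; exact hk0.le) hm hm1 (Nat.zero_le _)
    (by simpa using h1) (by simpa using h2)).trans (gf_mono ?_))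
  rintro V ⟨z', g1, g2, g3, g4⟩
  rw [nx_nil] at g1
  rw [e0, e3, zero_add, Nat.zero_add] at g2
  rw [List.length_nil, Nat.zero_add] at g3 g4
  refine ⟨z', tq_mono g1 ?_, g2, g3, g4, V.length, le_rfl, g4, ?_⟩
  · have e5 : (2 : ℤ) ^ (k + 9) = 512 * 2 ^ k := by ring
    rw [e5]
    linarith
  · have g5 : vx oo up V V.length = z' := g1.en
    rw [g5]
    have g6 := neg_hn_le_ip (z' - pv e D 1) upd'
    have g7 : ip (pv e D 1) up = 2 * D := by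
      rw [pv_succ, e1, zero_add, h.one (by norm_num), ip_smul_self upd']
    rw [ip_sub_left, g7] at g6
    linarith

/-- **the chain** -/
theorem chn {n : ℕ} (hn : 2 ≤ n) (hT : TubeK k D a A1 c0) (hc0 : 0 ≤ c0) (hD : 1026 * 2 ^ k < D) (hm : 12 * m ≤ 2 ^ k)
    (hm1 : 2 * m1 ≤ M) (ha : 0 ≤ a) {Λ : ℕ → ℕ} (h0 : Λ 0 = 0)
    (h1 : ∀ t r, 1 ≤ r → r ≤ 4 → ((Λ t : ℝ) + M) + a * ml k ≤ Λ (t + r) ∧ (Λ (t + r) : ℝ) + M ≤ Λ t + A1 * ml k)
    (hκ0 : 0 ≤ κ) (hκ1 : κ ≤ 1) (hκ : κ * Ub k ≤ m * m * m1 * (c0 * (Ub k / (4 ^ k * ml k)))) :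
    ∀ t, Jt n t → ENNReal.ofReal (κ ^ t * Ub k) ≤ gf (CC (snk n) D k t (Λ t) M (Λ 1 + M)) := by
  have hU := Ub_pos k
  have hP : ∀ r, IPath (snk n) r := fun r => ip_path' (snk_path (by omega) r) (snk_zero n)
  intro t
  induction t using Nat.strong_induction_on with
  | _ t ih =>
    intro ht
    rcases Nat.lt_or_ge t 2 with h2 | h2
    · have h3 : t = 1 := by
        have := ht.1
        omega
      subst h3
      rw [pow_one]
      obtain ⟨g1, g2⟩ := h1 0 1 le_rfl (by norm_num)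
      rw [Nat.zero_add, h0] at g1 g2
      have hM : (0 : ℝ) ≤ M := Nat.cast_nonneg _
      exact base hT hc0 (hP 1) hm hm1 (by push_cast at g1; linarith) (by push_cast at g2; linarith) hκ
    · obtain ⟨t', g1, g2, g3⟩ := jt_pred hn ht h2
      have g4 := ih t' g2 g1
      obtain ⟨r, rfl⟩ : ∃ r, t = t' + r := ⟨t - t', by omega⟩
      obtain ⟨f1, f2⟩ := h1 t' r (by omega) (by omega)
      refine le_trans (ENNReal.ofReal_le_ofReal ?_) (step (x := κ ^ t') hT hc0 (hP (t' + r)) g1.1 (by omega) (by omega)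
        (jt_dir hn g1) hD hm hm1 ha f1 f2 hκ0 hκ (pow_nonneg hκ0 _) g4)
      refine mul_le_mul_of_nonneg_right ?_ hU.le
      rw [← pow_succ]
      exact pow_le_pow_of_le_one hκ0 hκ1 (by omega)

/-- **up to the last vertex** -/
theorem chn_last {n c : ℕ} (hn : 2 ≤ n) (hc : 1 ≤ c) (hT : TubeK k D a A1 c0) (hc0 : 0 ≤ c0) (hD : 1026 * 2 ^ k < D)
    (hm : 12 * m ≤ 2 ^ k)
    (hm1 : 2 * m1 ≤ M) (ha : 0 ≤ a) {Λ : ℕ → ℕ} (h0 : Λ 0 = 0)
    (h1 : ∀ t r, 1 ≤ r → r ≤ 4 → ((Λ t : ℝ) + M) + a * ml k ≤ Λ (t + r) ∧ (Λ (t + r) : ℝ) + M ≤ Λ t + A1 * ml k)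
    (hκ0 : 0 ≤ κ) (hκ1 : κ ≤ 1) (hκ : κ * Ub k ≤ m * m * m1 * (c0 * (Ub k / (4 ^ k * ml k)))) :
    ENNReal.ofReal (κ ^ ((n + 2) * (2 * c)) * Ub k) ≤
      gf (CC (snk n) D k ((n + 2) * (2 * c)) (Λ ((n + 2) * (2 * c))) M (Λ 1 + M)) := by
  have hU := Ub_pos k
  have h2 := jt_last hn hc
  have h3 : 4 ≤ (n + 2) * (2 * c) := by nlinarith
  obtain ⟨N, hN⟩ : ∃ N, N = (n + 2) * (2 * c) := ⟨_, rfl⟩
  rw [← hN] at h2 h3 ⊢
  have hP : ∀ r, IPath (snk n) r := fun r => ip_path' (snk_path (by omega) r) (snk_zero n)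
  have h4 := chn hn hT hc0 hD hm hm1 ha h0 h1 hκ0 hκ1 hκ (N - 2) h2
  obtain ⟨f1, f2⟩ := h1 (N - 2) 2 (by norm_num) (by norm_num)
  have h5 := step (x := κ ^ (N - 2)) (r := 2) hT hc0 (hP (N - 2 + 2)) h2.1 (by omega) (by omega)
    (jt_dir hn h2) hD hm hm1 ha f1 f2 hκ0 hκ (pow_nonneg hκ0 _) h4
  rw [show N - 2 + 2 = N by omega] at h5
  refine le_trans (ENNReal.ofReal_le_ofReal ?_) h5
  refine mul_le_mul_of_nonneg_right ?_ hU.le
  rw [← pow_succ]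
  exact pow_le_pow_of_le_one hκ0 hκ1 (by omega)

end NB

end ARM

end HexObs
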