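import Pool.Agent.ARM.DefsL
import Pool.Agent.ARM2.TubeF
import Pool.Agent.JNT.HookM
import Pool.Agent.JNT.NcB

/-!
# ARM, row `NcHB` (helper87): the tip at the end of a tube, the cuts
-/

set_option autoImplicit false

namespace HexObs

namespace ARM

namespace NB

open Finset TIW TS SDN NTA TIP AR

open scoped ENNReal

variable {e : ℕ → Pt} {r : ℕ} {D w b δ : ℤ} {z : Pt} {A E : List Bool}

/-- segments between vertices at level at least one are high -/
lemma ns_high {j : ℕ} {y : Pt} (h1 : 1 ≤ ip (ps e j) up) (h2 : 1 ≤ ip (ps e (j + 1)) up)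
    (h : NS (pv e D j) (e j) D w y) : D - w ≤ ip y up := by
  obtain ⟨t, h3, h4, h5⟩ := h
  have e1 : y = (y - (pv e D j + t • e j)) + (pv e D j + t • e j) := by abel
  have h6 := neg_hn_le_ip (y - (pv e D j + t • e j)) upd'
  have e2 : ip y up = ip (y - (pv e D j + t • e j)) up + (D * ip (ps e j) up + t * ip (e j) up) := by
    conv_lhs => rw [e1]
    unfold pv
    rw [ip_add_left, ip_add_left, ip_smul, ip_smul]
  rw [ps_succ, ip_add_left] at h2
  have h7 : D ≤ D * ip (ps e j) up + t * ip (e j) up := by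
    nlinarith [mul_nonneg (sub_nonneg.2 h4) (sub_nonneg.2 h1), mul_nonneg h3 (by linarith : 0 ≤ ip (ps e j) up + ip (e j) up - 1)]
  rw [e2]
  linarith

lemma ip_path (he : IPg e r) (h0 : e 0 = up) : IPath e r := ⟨he.dir, fun _ => h0, he.tur, he.ind⟩

lemma hn_zero' : hn (0 : Pt) = 0 := by decide

lemma sa_of_hpN {E : List Bool} (h : E ∈ HpN E.length) : E ∈ SA :=
  ⟨fun _ _ _ => Set.mem_univ _, (BAR.HpN_iff.1 h).2.2⟩

/-- **a small half plane word behind a tube** -/
lemma tip_hp (he : IPg e r) (h0 : e 0 = up) (hr : 1 ≤ r) (hlv : ∀ j, 1 ≤ j → j ≤ r → 1 ≤ ip (ps e j) up)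
    (hA : TubeQ e D w r z A) (hz : hn (z - pv e D r) ≤ b) (hE : E ∈ HpN E.length)
    (hEs : ∀ i, i ≤ E.length → hn (vx oo up E i) ≤ δ) (hD : w + b + δ < D) (hw : 0 ≤ w) : A ++ E ∈ HpN (A ++ E).length := by
  have hb0 := (hn_nonneg _).trans hz
  have hd0 := (hn_nonneg _).trans (hEs 0 (Nat.zero_le _))
  have hP := ip_path he h0
  obtain ⟨-, hE1, hE2⟩ := BAR.HpN_iff.1 hE
  have hdir : de A = e (r - 1) := hA.de
  have hen : en A = z := hA.en
  have y1 : ∀ j, ip (mulE (rt A) (vx oo up E j)) (e (r - 1)) = ip (vx oo up E j) up := fun j => by rw [← hdir, ip_rt]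
  have y2 : ∀ j, j ≤ E.length → hn (en A + mulE (rt A) (vx oo up E j) - pv e D r) ≤ b + δ := by
    intro j hj
    rw [show en A + mulE (rt A) (vx oo up E j) - pv e D r = (en A - pv e D r) + mulE (rt A) (vx oo up E j) by abel]
    refine (hn_add _ _).trans ?_
    rw [hn_mulE (nrm_rt A), hen]
    linarith [hEs j hj]
  have hsa : A ++ E ∈ SA := by
    refine sa_app hA.sa (sa_of_hpN hE) fun k hk j hj hjl he' => ?_
    rcases hA.bd k hk with g | ⟨j', hj', g⟩
    · rw [he', hen, show z + mulE (rt A) (vx oo up E j) - z = mulE (rt A) (vx oo up E j) by abel, y1] at g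
      have := hE1 j hj hjl
      have e5 : lev E j = ip (vx oo up E j) up := rfl
      linarith
    · have h2 := sep_pt hP hj' le_rfl (y2 j hjl) g
      rw [← he', sub_self, hn_zero'] at h2
      linarith
  rw [BAR.HpN_iff]
  refine ⟨rfl, fun k hk hkl => ?_, hsa.inj⟩
  show 0 < ip (vx oo up (A ++ E) k) up
  rcases Nat.lt_or_ge A.length k with g | g
  · obtain ⟨j, rfl⟩ : ∃ j, k = A.length + j := ⟨k - A.length, by omega⟩
    rw [List.length_append] at hkl
    rw [vx_app]
    have h2 := y2 j (by omega)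
    have h3 := neg_hn_le_ip (en A + mulE (rt A) (vx oo up E j) - pv e D r) upd'
    rw [ip_sub_left] at h3
    have h4 : D ≤ ip (pv e D r) up := by
      unfold pv
      rw [ip_smul]
      have := hlv r hr le_rfl
      nlinarith
    linarith
  · rw [vx_append (by omega)]
    rcases hA.st k hk g with g1 | ⟨j, hj1, hj2, g1⟩
    · exact g1
    · have := ns_high (hlv j hj1 hj2.le) (hlv (j + 1) (by omega) (by omega)) g1
      linarith

/-- a bridge in front of a half plane word is a cut -/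
lemma brd_cut {Z E : List Bool} (hZ : Z ∈ BU) (hne : Z ≠ []) (hE : E ∈ HpN E.length) :
    Z.length ∈ BAR.cuts (Z ++ E) := by
  obtain ⟨n, hn⟩ := hZ
  obtain ⟨k1, k2, k3, k4⟩ := mem_Brd.1 hn
  obtain ⟨-, hE1, hE2⟩ := BAR.HpN_iff.1 hE
  have hl : 1 ≤ Z.length := by
    rcases Nat.eq_zero_or_pos Z.length with h | h
    · exact absurd (List.length_eq_zero_iff.1 h) hne
    · exact h
  have e0 : ∀ i, i ≤ Z.length → lev (Z ++ E) i = lev Z i := fun i hi => by
    show ip (vx oo up (Z ++ E) i) up = ip (vx oo up Z i) up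
    rw [vx_append (by omega)]
  have e1 : dx up (Z ++ E) Z.length = up := by
    have := dx_app Z E 0
    rw [Nat.add_zero] at this
    rw [this]
    have h2 : dx up E 0 = up := rfl
    rw [h2, rt_up]
    exact k3
  rw [BAR.mem_cuts]
  refine ⟨hl, by rw [List.length_append]; omega, e1, fun i hi => ?_, fun i h1 h2 => ?_⟩
  · rw [e0 i hi, e0 _ le_rfl, k4]
    rcases Nat.eq_zero_or_pos i with h | h
    · rw [h, lev_zero]
      positivity
    · exact (k1 i h hi).2
  · obtain ⟨j, rfl⟩ : ∃ j, i = Z.length + j := ⟨i - Z.length, by omega⟩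
    rw [List.length_append] at h2
    rw [e0 _ le_rfl, k4]
    have h3 : lev (Z ++ E) (Z.length + j) = ip (en Z + mulE (rt Z) (vx oo up E j)) up := by
      show ip (vx oo up (Z ++ E) (Z.length + j)) up = _
      rw [vx_app]
    have h4 : ip (mulE (rt Z) (vx oo up E j)) up = ip (vx oo up E j) up := by
      have h5 : de Z = up := k3
      have h7 := ip_rt Z (vx oo up E j)
      rwa [h5] at h7
    have h6 : ip (en Z) up = 3 * (n : ℤ) := k4
    rw [h3, ip_add_left, h4, h6]
    have := hE1 j (by omega) (by omega)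
    have e5 : lev E j = ip (vx oo up E j) up := rfl
    linarith

/-- **the decomposition is unique** -/
lemma tip_uniq (he : IPg e r) (h0 : e 0 = up) {z' : Pt} {A' E' : List Bool} (hA : TubeQ e D w r z A)
    (hA' : TubeQ e D w r z' A') (hz' : hn (z' - pv e D r) ≤ b) (hE : E ∈ BAR.HiN E.length) (hE' : E' ∈ BAR.HiN E'.length)
    (hEs : ∀ i, i ≤ E.length → hn (vx oo up E i) ≤ δ) (hD : w + b + 2 * δ + 2 ≤ D) (hEq : A ++ E = A' ++ E')
    (hl : A.length ≤ A'.length) : A = A' := by
  have hd0 := (hn_nonneg _).trans (hEs 0 (Nat.zero_le _))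
  have hP := ip_path he h0
  obtain ⟨Z, rfl⟩ : ∃ Z, A' = A ++ Z := by
    have h1 : A <+: A' ++ E' := ⟨E, hEq⟩
    have h2 : A' <+: A' ++ E' := List.prefix_append _ _
    obtain ⟨Z, hZ⟩ := List.prefix_of_prefix_length_le h1 h2 hl
    exact ⟨Z, hZ.symm⟩
  rw [List.append_assoc] at hEq
  have hEq' := List.append_cancel_left hEq
  obtain ⟨d0, hd0'⟩ : ∃ d0 : ℕ, (d0 : ℤ) = δ + 1 := ⟨(δ + 1).toNat, by omega⟩
  have hFe : A ++ Z ∈ Fe (2 * d0) := by
    intro i hi hp
    have hdir : de (A ++ Z) = e (r - 1) := hA'.de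
    have hen : en (A ++ Z) = z' := hA'.en
    rw [hdir, hen] at hp
    rcases hA'.bd i hi with g | ⟨j', hj', g⟩
    · linarith
    · have h2 := sep_pt hP hj' le_rfl hz' g
      rw [hn_sub_comm] at h2
      rw [hen]
      push_cast
      linarith
  have hHp : Z ++ E' ∈ Hp d0 := by
    rw [← hEq']
    obtain ⟨-, g1, g2⟩ := BAR.HpN_iff.1 hE.1
    refine ⟨⟨fun i h1 h2 => g1 i h1 h2, g2⟩, fun i hi => ?_⟩
    have := hEs i hi
    linarith
  have hZ := (zbu d0 A Z E' hFe hHp (by
    have h1 : de (A ++ Z) = e (r - 1) := hA'.de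
    have h2 : de A = e (r - 1) := hA.de
    rw [h1, h2])).1
  by_cases hne : Z = []
  · rw [hne, List.append_nil]
  · exfalso
    have h3 := brd_cut hZ hne hE'.1
    rw [← hEq', hE.2] at h3
    exact absurd h3 (Finset.notMem_empty _)

/-- **the cuts are in front of a high vertex** -/
lemma cut_front {F B G : List Bool} (hF : F = B ++ G) (hB : B ∈ BU) (hG : G ∈ HpN G.length) {i1 : ℕ} {h1 : ℤ}
    (hh : h1 ≤ ip (vx oo up F i1) up) (hen : ip (en F) up < h1) :
    B.length ≤ i1 ∧ 3 * (hgt B : ℤ) ≤ ip (en F) up := by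
  obtain ⟨v1, v2, v3, v4⟩ := BU_facts hB
  have hG0 : 0 ≤ ip (en G) up := by
    rcases Nat.eq_zero_or_pos G.length with h | h
    · have : ip (en G) up = lev G 0 := by
        show lev G G.length = _
        rw [h]
      rw [this, lev_zero]
    · exact ((BAR.HpN_iff.1 hG).2.1 G.length h le_rfl).le
  have henF : ip (en F) up = 3 * (hgt B : ℤ) + ip (en G) up := by
    rw [hF, TIW.en_app, ip_add_left, v3]
    congr 1
    conv_lhs => rw [← v2]
    exact ip_rt B _
  refine ⟨?_, by linarith⟩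
  by_contra hc
  push Not at hc
  have h2 : vx oo up F i1 = vx oo up B i1 := by
    rw [hF, vx_append (by omega)]
  rw [h2] at hh
  rcases Nat.eq_zero_or_pos i1 with h3 | h3
  · rw [h3] at hh
    have : ip (vx oo up B 0) up = 0 := lev_zero B
    rw [this] at hh
    have := Int.natCast_nonneg (hgt B)
    linarith
  · have := (v4 i1 h3 hc.le).2
    linarith

end NB

end ARM

end HexObs
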