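import Pool.Agent.ARM.NcBD
import Pool.Agent.ARM.NcBT

/-!
# ARM, row `NcHB` (helper87): long words without a cut in a small box

* **`ncHB : NcHB`**.
-/

set_option autoImplicit false

namespace HexObs

namespace ARM

namespace NB

open Finset TIW TS SDN NTA TIP AR

open scoped ENNReal

/-! ### 1. Geometry of the whole word -/

lemma hn_smul_le {D : ℤ} (hD : 0 ≤ D) (p : Pt) : hn (D • p) ≤ D * hn p := by
  refine hn_le fun d hd => ?_
  rw [ip_smul]
  exact mul_le_mul_of_nonneg_left (ip_le_hn p hd) hD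

lemma hn_dir {d : Pt} (hd : d ∈ dirs) : hn d = 2 := by
  revert d
  decide

lemma ns_hn {e : ℕ → Pt} {D w R : ℤ} {j : ℕ} {y : Pt} (h : NS (pv e D j) (e j) D w y) (hd : e j ∈ dirs)
    (hR : hn (ps e j) ≤ R) (hD : 0 ≤ D) : hn y ≤ D * R + 2 * D + w := by
  obtain ⟨t, h0, h1, h2⟩ := h
  have e1 : y = (y - (pv e D j + t • e j)) + (D • ps e j + t • e j) := by
    show y = (y - (D • ps e j + t • e j)) + (D • ps e j + t • e j)
    abel
  have h3 := hn_smul_le hD (ps e j)
  have h4 := hn_smul_le h0 (e j)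
  rw [hn_dir hd] at h4
  have h5 : D * hn (ps e j) ≤ D * R := mul_le_mul_of_nonneg_left hR hD
  rw [e1]
  refine (hn_add _ _).trans ?_
  have h6 := hn_add (D • ps e j) (t • e j)
  linarith

variable {k : ℕ} {D : ℤ} {n c N L M l1 : ℕ} {A E : List Bool}

/-- **the word A ++ E is a bridge followed by a word without a cut in a box** -/
theorem tip_all (hn2 : 2 ≤ n) (hc : 1 ≤ c) (hN : N = (n + 2) * (2 * c)) (hA : A ∈ CC (snk n) D k N L M l1)
    (hE : E ∈ BAR.HiN E.length) (hEs : ∀ i, i ≤ E.length → hn (vx oo up E i) ≤ 2 ^ k) (hD : 2048 * 2 ^ k ≤ D) :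
    ∃ B G, A ++ E = B ++ G ∧ B ∈ BU ∧ B.length ≤ l1 ∧ 3 * (hgt B : ℤ) ≤ D + 2 * 2 ^ k ∧ G ∈ BAR.HiN G.length ∧
      ∀ i, i ≤ G.length → hn (vx oo up G i) ≤ 2 * (D * (6 * c + 2 * n + 6)) := by
  obtain ⟨z, g1, g2, g3, g4, i1, g5, g6, g7⟩ := hA
  have hk0 : (0 : ℤ) < 2 ^ k := by positivity
  have hN1 : 1 ≤ N := by
    rw [hN]
    nlinarith
  have hps : ip (pv (snk n) D N) up = D := by
    unfold pv
    rw [ip_smul, hN, ps_last hc, mul_one]
  have hIP := snk_path (n := n) (by omega) N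
  have hF := tip_hp (b := 2 ^ k) (δ := 2 ^ k) (w := 513 * 2 ^ k) hIP (snk_zero n) hN1 (fun j hj _ => snk_lv hj) g1 g2 hE.1 hEs
    (by linarith) (by linarith)
  obtain ⟨B, G, h1, h2, h3⟩ := JNT.Hk.last_cut hF
  have hen : TIW.en (A ++ E) = z + mulE (rt A) (TIW.en E) := by
    rw [TIW.en_app, g1.en]
  have hEe : hn (mulE (rt A) (TIW.en E)) ≤ 2 ^ k := by
    rw [hn_mulE (nrm_rt A)]
    exact hEs _ le_rfl
  have hlev : ip (TIW.en (A ++ E)) up ≤ D + 2 * 2 ^ k := by
    rw [hen, ip_add_left]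
    have a1 := ip_le_hn (z - pv (snk n) D N) upd'
    have a2 := ip_le_hn (mulE (rt A) (TIW.en E)) upd'
    rw [ip_sub_left, hps] at a1
    linarith
  have hi1 : vx oo up (A ++ E) i1 = vx oo up A i1 := vx_append (by omega)
  obtain ⟨f1, f2⟩ := cut_front (i1 := i1) (h1 := 2 * D - 2 ^ k) h1 h2 h3.1 (by rw [hi1]; exact g7) (by linarith)
  -- the box
  have hbox : ∀ i, i ≤ (A ++ E).length → hn (vx oo up (A ++ E) i) ≤ D * (6 * c + 2 * n + 6) := by
    intro i hi
    have hR : ∀ j, j ≤ N → hn (ps (snk n) j) ≤ 6 * c + 2 * n + 3 := by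
      intro j hj
      have := snk_hn (n := n) (j := j) (c := 2 * c) (by rw [← hN]; exact hj)
      push_cast at this
      linarith
    rcases Nat.lt_or_ge A.length i with h | h
    · obtain ⟨j, rfl⟩ : ∃ j, i = A.length + j := ⟨i - A.length, by omega⟩
      rw [List.length_append] at hi
      rw [vx_app]
      have e1 : TIW.en A + mulE (rt A) (vx oo up E j) = (z - pv (snk n) D N) + D • ps (snk n) N + mulE (rt A) (vx oo up E j) := by
        rw [g1.en]
        unfold pv
        abel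
      rw [e1]
      refine (hn_add _ _).trans ?_
      have a1 := hn_add (z - pv (snk n) D N) (D • ps (snk n) N)
      have a2 := hn_smul_le (by linarith : 0 ≤ D) (ps (snk n) N)
      have a3 : D * hn (ps (snk n) N) ≤ D * (6 * c + 2 * n + 3) := mul_le_mul_of_nonneg_left (hR N le_rfl) (by linarith)
      have a4 : hn (mulE (rt A) (vx oo up E j)) ≤ 2 ^ k := by
        rw [hn_mulE (nrm_rt A)]
        exact hEs j (by omega)
      linarith
    · rw [vx_append (by omega)]
      obtain ⟨j, hj, hj2⟩ := g1.rg i h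
      have := ns_hn hj2 (snk_dir n j) (hR j hj.le) (by linarith)
      linarith
  refine ⟨B, G, h1, h2, f1.trans g6, f2.trans hlev, h3, fun i hi => ?_⟩
  have hlen : (A ++ E).length = B.length + G.length := by rw [h1, List.length_append]
  have b1 := hbox (B.length + i) (by omega)
  have b2 := hbox B.length (by omega)
  have e2 : vx oo up (A ++ E) (B.length + i) = TIW.en B + mulE (rt B) (vx oo up G i) := by
    rw [h1, vx_app]
  have e3 : vx oo up (A ++ E) B.length = TIW.en B := by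
    rw [h1, vx_append (by omega)]
    rfl
  rw [e2] at b1
  rw [e3] at b2
  have e4 : mulE (rt B) (vx oo up G i) = (TIW.en B + mulE (rt B) (vx oo up G i)) - TIW.en B := by abel
  have e5 := hn_sub (TIW.en B + mulE (rt B) (vx oo up G i)) (TIW.en B)
  rw [← e4, hn_mulE (nrm_rt B)] at e5
  linarith

/-- the length of the words of the class is even -/
lemma cc_even (hc : 1 ≤ c) (hN : N = (n + 2) * (2 * c)) (hA : A ∈ CC (snk n) D k N L M l1) : Even A.length := by
  obtain ⟨z, g1, -⟩ := hA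
  have h1 := g1.de
  rw [hN, snk_last hc] at h1
  have h2 := cl_de A
  rw [h1] at h2
  have h3 : cl ((1, -1) : Pt) = 2 := by decide
  rw [h3] at h2
  by_contra h4
  rw [if_neg h4] at h2
  revert h2
  decide

/-- **the mass of the words A ++ E** -/
theorem tip_mass (hn2 : 2 ≤ n) (hN1 : 1 ≤ N) {SE : Set (List Bool)}
    (hE : ∀ E ∈ SE, E ∈ BAR.HiN E.length) (hEs : ∀ E ∈ SE, ∀ i, i ≤ E.length → hn (vx oo up E i) ≤ 2 ^ k)
    (hD : 2048 * 2 ^ k ≤ D) :
    gf (CC (snk n) D k N L M l1) * gf SE ≤ gf (Pr (CC (snk n) D k N L M l1) fun _ => SE) := by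
  have hk0 : (1 : ℤ) ≤ 2 ^ k := one_le_pow₀ (by norm_num)
  have h1 := glueM (AA := CC (snk n) D k N L M l1) (VV := fun _ => SE) (BB := {([] : List Bool)}) (v := gf SE)
    (Set.mem_singleton _) (fun Z1 h1 Z2 h2 => by
      rw [Set.mem_singleton_iff] at h1 h2 ⊢
      rw [h1, h2]
      rfl) (fun _ _ => le_rfl) (fun A hA A' hA' V hV V' hV' he hl => by
      obtain ⟨z, g1, -⟩ := hA
      obtain ⟨z', g2, g3, -⟩ := hA'
      have h2 := tip_uniq (b := 2 ^ k) (δ := 2 ^ k) (w := 513 * 2 ^ k) (snk_path (n := n) (by omega) N) (snk_zero n) g1 g2 g3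
        (hE V hV) (hE V' hV') (hEs V hV) (by linarith) he hl
      exact ⟨[], Set.mem_singleton _, by rw [h2, List.append_nil]⟩)
  refine h1.trans ?_
  have h2 : gf (Df (CC (snk n) D k N L M l1) {([] : List Bool)}) ≤ 1 := by
    rw [← gf_nil]
    exact gf_mono fun Z hZ => hZ.1
  calc _ ≤ 1 * gf (Pr (CC (snk n) D k N L M l1) fun _ => SE) := mul_le_mul' h2 le_rfl
    _ = _ := one_mul _

end NB

end ARM

end HexObs
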