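import Pool.Agent.ARM.DefsG
import Pool.Agent.ARM2.PathG

/-!
# ARM, row `NcHB` (helper87): a serpentine

Columns of n + 1 vertices, the first column starts one step lower (the origin); all later vertices at level at least one.
-/

set_option autoImplicit false

namespace HexObs

namespace ARM

namespace NB

open Finset TIW TS SDN NTA TIP AR

lemma ip_path' {e : ℕ → Pt} {r : ℕ} (he : IPg e r) (h0 : e 0 = up) : IPath e r := ⟨he.dir, fun _ => h0, he.tur, he.ind⟩

/-- the vertex number t of the serpentine: column c, place τ -/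
def sv (n c τ : ℕ) : Pt :=
  if τ = 0 then (if c = 0 then (0, 0) else if c % 2 = 1 then (2 * (c : ℤ) - 1, (n : ℤ) + 2 - c) else (2 * (c : ℤ) - 1, 1 - (c : ℤ)))
  else if c % 2 = 0 then (2 * (c : ℤ), (τ : ℤ) - c) else (2 * (c : ℤ), (n : ℤ) + 2 - c - τ)

/-- the directions of the serpentine -/
def sd (n c τ : ℕ) : Pt :=
  if τ = 0 then (if c = 0 then (0, 1) else if c % 2 = 1 then (1, -1) else (1, 0))
  else if τ ≤ n then (if c % 2 = 0 then (0, 1) else (0, -1)) else (if c % 2 = 0 then (1, 0) else (1, -1))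

/-- the direction number t -/
def snk (n t : ℕ) : Pt := sd n (t / (n + 2)) (t % (n + 2))

lemma sv_succ {n c τ : ℕ} (h : τ ≤ n) : sv n c (τ + 1) = sv n c τ + sd n c τ := by
  unfold sv sd
  rcases Nat.eq_zero_or_pos τ with h1 | h1
  · subst h1
    rcases Nat.eq_zero_or_pos c with h2 | h2
    · subst h2
      simp
    · rcases Nat.mod_two_eq_zero_or_one c with h3 | h3
      · rw [if_neg (by omega), if_pos h3, if_pos rfl, if_neg (by omega), if_neg (by omega), if_pos rfl, if_neg (by omega),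
          if_neg (by omega)]
        ext <;> simp <;> ring
      · rw [if_neg (by omega), if_neg (by omega), if_pos rfl, if_neg (by omega), if_pos h3, if_pos rfl, if_neg (by omega),
          if_pos h3]
        ext <;> simp <;> ring
  · rcases Nat.mod_two_eq_zero_or_one c with h3 | h3
    · rw [if_neg (by omega), if_pos h3, if_neg (by omega), if_pos h3, if_neg (by omega), if_pos h, if_pos h3]
      ext <;> simp <;> ring
    · rw [if_neg (by omega), if_neg (by omega), if_neg (by omega), if_neg (by omega), if_neg (by omega), if_pos h,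
        if_neg (by omega)]
      ext <;> simp <;> ring

lemma sv_next {n c : ℕ} : sv n (c + 1) 0 = sv n c (n + 1) + sd n c (n + 1) := by
  unfold sv sd
  rcases Nat.mod_two_eq_zero_or_one c with h3 | h3
  · rw [if_pos rfl, if_neg (by omega), if_pos (by omega), if_neg (by omega), if_pos h3, if_neg (by omega),
      if_neg (by omega), if_pos h3]
    ext <;> simp <;> ring
  · rw [if_pos rfl, if_neg (by omega), if_neg (by omega), if_neg (by omega), if_neg (by omega), if_neg (by omega),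
      if_neg (by omega), if_neg (by omega)]
    ext <;> simp <;> ring

/-- successor of the pair (column, place) -/
lemma dm_succ (n t : ℕ) : (t % (n + 2) ≤ n ∧ (t + 1) / (n + 2) = t / (n + 2) ∧ (t + 1) % (n + 2) = t % (n + 2) + 1) ∨
    (t % (n + 2) = n + 1 ∧ (t + 1) / (n + 2) = t / (n + 2) + 1 ∧ (t + 1) % (n + 2) = 0) := by
  have h1 := Nat.div_add_mod t (n + 2)
  have h2 := Nat.mod_lt t (show 0 < n + 2 by omega)
  rcases Nat.lt_or_ge (t % (n + 2)) (n + 1) with h | h
  · left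
    have h3 : (t + 1) = (n + 2) * (t / (n + 2)) + (t % (n + 2) + 1) := by omega
    refine ⟨by omega, ?_, ?_⟩
    · conv_lhs => rw [h3]
      rw [Nat.mul_add_div (by omega), Nat.div_eq_of_lt (show t % (n + 2) + 1 < n + 2 by omega), Nat.add_zero]
    · conv_lhs => rw [h3]
      rw [Nat.mul_add_mod, Nat.mod_eq_of_lt (show t % (n + 2) + 1 < n + 2 by omega)]
  · right
    have h4 : t % (n + 2) = n + 1 := by omega
    have h3 : (t + 1) = (n + 2) * (t / (n + 2) + 1) + 0 := by
      rw [Nat.mul_add]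
      omega
    refine ⟨h4, ?_, ?_⟩
    · conv_lhs => rw [h3]
      rw [Nat.mul_add_div (by omega), Nat.zero_div, Nat.add_zero]
    · conv_lhs => rw [h3]
      rw [Nat.mul_add_mod, Nat.zero_mod]

lemma ps_snk (n t : ℕ) : ps (snk n) t = sv n (t / (n + 2)) (t % (n + 2)) := by
  induction t with
  | zero =>
    rw [Nat.zero_div, Nat.zero_mod]
    rfl
  | succ t ih =>
    rw [ps_succ, ih]
    unfold snk
    rcases dm_succ n t with ⟨h1, h2, h3⟩ | ⟨h1, h2, h3⟩
    · rw [h2, h3, sv_succ h1]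
    · rw [h2, h3, sv_next, h1]

lemma snk_dir (n t : ℕ) : snk n t ∈ dirs := by
  unfold snk sd
  split_ifs <;> decide

lemma snk_tur {n : ℕ} (hn : 1 ≤ n) (t : ℕ) : snk n (t + 1) = snk n t ∨ snk n (t + 1) = rotL (snk n t) ∨
    snk n (t + 1) = rotR (snk n t) := by
  have e0 : snk n t = sd n (t / (n + 2)) (t % (n + 2)) := rfl
  have e1 : snk n (t + 1) = sd n ((t + 1) / (n + 2)) ((t + 1) % (n + 2)) := rfl
  rw [e0, e1]
  rcases dm_succ n t with ⟨h1, h2, h3⟩ | ⟨h1, h2, h3⟩
  · rw [h2, h3]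
    generalize t / (n + 2) = c
    generalize t % (n + 2) = τ at h1 ⊢
    unfold sd
    rw [if_neg (by omega : ¬ τ + 1 = 0)]
    rcases Nat.eq_zero_or_pos τ with h4 | h4
    · rw [if_pos h4, if_pos (by omega : τ + 1 ≤ n)]
      split_ifs <;> first | (exfalso; omega) | decide
    · rw [if_neg (by omega : ¬ τ = 0), if_pos h1]
      split_ifs <;> first | (exfalso; omega) | decide
  · rw [h1, h2, h3]
    generalize t / (n + 2) = c
    unfold sd
    rw [if_pos rfl, if_neg (by omega : ¬ n + 1 = 0), if_neg (by omega : ¬ n + 1 ≤ n)]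
    split_ifs <;> first | (exfalso; omega) | decide

lemma nrm_xy (x y : ℤ) : nrm ((x, y) : Pt) = x * x + x * y + y * y := by
  unfold nrm
  ring

lemma nrm_x {x y : ℤ} (h : 2 ≤ x) : 3 ≤ nrm ((x, y) : Pt) := by
  rw [nrm_xy]
  nlinarith [sq_nonneg (2 * y + x), mul_nonneg (sub_nonneg.2 h) (by linarith : (0 : ℤ) ≤ x + 2)]

lemma nrm_1 {y : ℤ} (h : 1 ≤ y ∨ y ≤ -2) : 3 ≤ nrm ((1, y) : Pt) := by
  rw [nrm_xy]
  rcases h with h | h <;> nlinarith

lemma nrm_0 {y : ℤ} (h : 2 ≤ y ∨ y ≤ -2) : 3 ≤ nrm ((0, y) : Pt) := by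
  rw [nrm_xy]
  rcases h with h | h <;> nlinarith

lemma sv_00 {n : ℕ} : sv n 0 0 = (0, 0) := rfl

lemma sv_0o {n c : ℕ} (h : c % 2 = 1) : sv n c 0 = (2 * (c : ℤ) - 1, (n : ℤ) + 2 - c) := by
  unfold sv
  rw [if_pos rfl, if_neg (by omega), if_pos h]

lemma sv_0e {n c : ℕ} (h : c % 2 = 0) (h0 : 1 ≤ c) : sv n c 0 = (2 * (c : ℤ) - 1, 1 - (c : ℤ)) := by
  unfold sv
  rw [if_pos rfl, if_neg (by omega), if_neg (by omega)]

lemma sv_e {n c τ : ℕ} (h : c % 2 = 0) (h0 : 1 ≤ τ) : sv n c τ = (2 * (c : ℤ), (τ : ℤ) - c) := by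
  unfold sv
  rw [if_neg (by omega), if_pos h]

lemma sv_o {n c τ : ℕ} (h : c % 2 = 1) (h0 : 1 ≤ τ) : sv n c τ = (2 * (c : ℤ), (n : ℤ) + 2 - c - τ) := by
  unfold sv
  rw [if_neg (by omega), if_neg (by omega)]

/-- the first coordinate -/
lemma sv_x {n c τ : ℕ} : 2 * (c : ℤ) - 1 ≤ (sv n c τ).1 ∧ (sv n c τ).1 ≤ 2 * c ∧ 0 ≤ (sv n c τ).1 ∧
    (1 ≤ τ → (sv n c τ).1 = 2 * c) ∧ (τ = 0 → 1 ≤ c → (sv n c τ).1 = 2 * c - 1) := by
  rcases Nat.eq_zero_or_pos τ with h | h
  · subst h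
    rcases Nat.eq_zero_or_pos c with h2 | h2
    · subst h2
      rw [sv_00]
      refine ⟨by norm_num, by norm_num, by norm_num, fun h => by omega, fun _ h => by omega⟩
    · rcases Nat.mod_two_eq_zero_or_one c with h3 | h3
      · rw [sv_0e h3 h2]
        refine ⟨le_rfl, by simp, by simp; omega, fun h => by omega, fun _ _ => rfl⟩
      · rw [sv_0o h3]
        refine ⟨le_rfl, by simp, by simp; omega, fun h => by omega, fun _ _ => rfl⟩
  · rcases Nat.mod_two_eq_zero_or_one c with h3 | h3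
    · rw [sv_e h3 h]
      refine ⟨by simp, le_rfl, by simp, fun _ => rfl, fun h => by omega⟩
    · rw [sv_o h3 h]
      refine ⟨by simp, le_rfl, by simp, fun _ => rfl, fun h => by omega⟩

/-- **the serpentine is induced** -/
lemma sv_ind {n c c' τ τ' : ℕ} (h1 : τ ≤ n + 1) (h2 : τ' ≤ n + 1) (h : (n + 2) * c + τ + 1 < (n + 2) * c' + τ') :
    3 ≤ nrm (sv n c' τ' - sv n c τ) := by
  have hx : 2 ≤ (sv n c' τ').1 - (sv n c τ).1 → 3 ≤ nrm (sv n c' τ' - sv n c τ) := fun h => nrm_x h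
  obtain ⟨a1, a2, a3, a4, a5⟩ := sv_x (n := n) (c := c) (τ := τ)
  obtain ⟨b1, b2, b3, b4, b5⟩ := sv_x (n := n) (c := c') (τ := τ')
  rcases Nat.lt_trichotomy c' c with g | g | g
  · exfalso
    obtain ⟨d, rfl⟩ : ∃ d, c = c' + 1 + d := ⟨c - (c' + 1), by omega⟩
    have : (n + 2) * (c' + 1 + d) = (n + 2) * c' + (n + 2) + (n + 2) * d := by ring
    have h0 : 0 ≤ (n + 2) * d := Nat.zero_le _
    omega
  · subst g
    have g1 : τ + 1 < τ' := by omega
    rcases Nat.eq_zero_or_pos τ with g2 | g2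
    · subst g2
      rcases Nat.eq_zero_or_pos c' with g3 | g3
      · subst g3
        rw [sv_00, sv_e rfl (by omega)]
        rw [show ((2 * ((0 : ℕ) : ℤ), (τ' : ℤ) - ((0 : ℕ) : ℤ)) : Pt) - ((0, 0) : Pt) = (0, (τ' : ℤ)) by
          ext <;> simp]
        exact nrm_0 (by omega)
      · rcases Nat.mod_two_eq_zero_or_one c' with g4 | g4
        · rw [sv_0e g4 g3, sv_e g4 (by omega)]
          rw [show ((2 * (c' : ℤ), (τ' : ℤ) - c') : Pt) - ((2 * (c' : ℤ) - 1, 1 - (c' : ℤ)) : Pt) = (1, (τ' : ℤ) - 1) by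
            ext <;> simp]
          exact nrm_1 (by omega)
        · rw [sv_0o g4, sv_o g4 (by omega)]
          rw [show ((2 * (c' : ℤ), (n : ℤ) + 2 - c' - τ') : Pt) - ((2 * (c' : ℤ) - 1, (n : ℤ) + 2 - c') : Pt) =
            (1, -(τ' : ℤ)) by ext <;> simp]
          exact nrm_1 (by omega)
    · rcases Nat.mod_two_eq_zero_or_one c' with g4 | g4
      · rw [sv_e g4 g2, sv_e g4 (by omega)]
        rw [show ((2 * (c' : ℤ), (τ' : ℤ) - c') : Pt) - ((2 * (c' : ℤ), (τ : ℤ) - c') : Pt) = (0, (τ' : ℤ) - τ) by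
          ext <;> simp]
        exact nrm_0 (by omega)
      · rw [sv_o g4 g2, sv_o g4 (by omega)]
        rw [show ((2 * (c' : ℤ), (n : ℤ) + 2 - c' - τ') : Pt) - ((2 * (c' : ℤ), (n : ℤ) + 2 - c' - τ) : Pt) =
          (0, (τ : ℤ) - τ') by ext <;> simp]
        exact nrm_0 (by omega)
  · rcases Nat.lt_or_ge (c + 1) c' with g1 | g1
    · refine hx ?_
      omega
    · obtain rfl : c' = c + 1 := by omega
      rcases Nat.eq_zero_or_pos τ' with g2 | g2
      · subst g2
        have g3 : τ ≤ n := by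
          have : (n + 2) * (c + 1) = (n + 2) * c + (n + 2) := by ring
          omega
        rcases Nat.eq_zero_or_pos τ with g4 | g4
        · subst g4
          rcases Nat.eq_zero_or_pos c with g5 | g5
          · subst g5
            rw [sv_00, sv_0o rfl]
            rw [show ((2 * ((0 + 1 : ℕ) : ℤ) - 1, (n : ℤ) + 2 - ((0 + 1 : ℕ) : ℤ)) : Pt) - ((0, 0) : Pt) = (1, (n : ℤ) + 1) by
              ext <;> simp <;> ring]
            exact nrm_1 (by omega)
          · refine hx ?_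
            have := a5 rfl g5
            have := b5 rfl (by omega)
            omega
        · rcases Nat.mod_two_eq_zero_or_one c with g5 | g5
          · rw [sv_e g5 g4, sv_0o (by omega)]
            rw [show ((2 * ((c + 1 : ℕ) : ℤ) - 1, (n : ℤ) + 2 - ((c + 1 : ℕ) : ℤ)) : Pt) - ((2 * (c : ℤ), (τ : ℤ) - c) : Pt) =
              (1, (n : ℤ) + 1 - τ) by ext <;> simp <;> ring]
            exact nrm_1 (by omega)
          · rw [sv_o g5 g4, sv_0e (by omega) (by omega)]
            rw [show ((2 * ((c + 1 : ℕ) : ℤ) - 1, 1 - ((c + 1 : ℕ) : ℤ)) : Pt) -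
              ((2 * (c : ℤ), (n : ℤ) + 2 - c - τ) : Pt) = (1, (τ : ℤ) - n - 2) by ext <;> simp <;> ring]
            exact nrm_1 (by omega)
      · refine hx ?_
        have := b4 g2
        omega

/-- levels -/
lemma sv_lv {n c τ : ℕ} (h1 : τ ≤ n + 1) (h0 : 1 ≤ c + τ) : 1 ≤ ip (sv n c τ) up ∧ ip (sv n c τ) up ≤ 2 * n + 3 := by
  have hip : ∀ x y : ℤ, ip ((x, y) : Pt) up = x + 2 * y := fun x y => by
    simp only [ip, up]
    ring
  rcases Nat.eq_zero_or_pos τ with g2 | g2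
  · subst g2
    rcases Nat.mod_two_eq_zero_or_one c with g4 | g4
    · rw [sv_0e g4 (by omega), hip]
      constructor <;> omega
    · rw [sv_0o g4, hip]
      constructor <;> omega
  · rcases Nat.mod_two_eq_zero_or_one c with g4 | g4
    · rw [sv_e g4 g2, hip]
      constructor <;> omega
    · rw [sv_o g4 g2, hip]
      constructor <;> omega

/-- **the serpentine** -/
theorem snk_path {n : ℕ} (hn : 1 ≤ n) (r : ℕ) : IPg (snk n) r := by
  refine ⟨fun i _ => snk_dir n i, fun i _ => snk_tur hn i, fun i j hij _ => ?_⟩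
  rw [ps_snk, ps_snk]
  have h1 := Nat.div_add_mod i (n + 2)
  have h2 := Nat.mod_lt i (show 0 < n + 2 by omega)
  have h3 := Nat.div_add_mod j (n + 2)
  have h4 := Nat.mod_lt j (show 0 < n + 2 by omega)
  exact sv_ind (by omega) (by omega) (by omega)

lemma snk_zero (n : ℕ) : snk n 0 = up := by
  unfold snk sd
  rw [Nat.zero_div, Nat.zero_mod]
  rfl

/-- all later vertices are at level at least one -/
lemma snk_lv {n j : ℕ} (hj : 1 ≤ j) : 1 ≤ ip (ps (snk n) j) up := by
  rw [ps_snk]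
  have h1 := Nat.div_add_mod j (n + 2)
  have h2 := Nat.mod_lt j (show 0 < n + 2 by omega)
  refine (sv_lv (by omega) ?_).1
  rcases Nat.eq_zero_or_pos (j / (n + 2)) with h | h
  · rw [h, Nat.mul_zero] at h1
    omega
  · omega

/-- size -/
lemma snk_hn {n j c : ℕ} (hj : j ≤ (n + 2) * c) : hn (ps (snk n) j) ≤ 3 * c + 2 * n + 3 := by
  rw [ps_snk]
  have h1 := Nat.div_add_mod j (n + 2)
  have h2 := Nat.mod_lt j (show 0 < n + 2 by omega)
  have h3 : j / (n + 2) ≤ c := by
    rw [Nat.div_le_iff_le_mul_add_pred (by omega)]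
    omega
  obtain ⟨a1, a2, a3, a4, a5⟩ := sv_x (n := n) (c := j / (n + 2)) (τ := j % (n + 2))
  generalize j / (n + 2) = c1 at *
  generalize j % (n + 2) = τ at *
  have h4 : 0 ≤ ip (sv n c1 τ) up ∧ ip (sv n c1 τ) up ≤ 2 * n + 3 := by
    rcases Nat.eq_zero_or_pos (c1 + τ) with h | h
    · obtain ⟨rfl, rfl⟩ : c1 = 0 ∧ τ = 0 := by omega
      rw [sv_00]
      have : ip ((0, 0) : Pt) up = 0 := by decide
      rw [this]
      constructor <;> omega
    · obtain ⟨g1, g2⟩ := sv_lv (n := n) (c := c1) (τ := τ) (by omega) h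
      exact ⟨by linarith, g2⟩
  generalize sv n c1 τ = p at *
  obtain ⟨x, y⟩ := p
  have hip : ip ((x, y) : Pt) up = x + 2 * y := by
    simp only [ip, up]
    ring
  rw [hip] at h4
  simp only at a1 a2 a3
  have h5 : (c1 : ℤ) ≤ c := by exact_mod_cast h3
  refine hn_le fun d hd => ?_
  rcases dir_cases upd' hd with rfl | rfl | rfl | rfl | rfl | rfl
  · rw [hip]; omega
  · rw [ip_neg_right, hip]; omega
  · simp only [ip, rotL, up]; omega
  · rw [ip_neg_right]; simp only [ip, rotL, up]; omega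
  · simp only [ip, rotR, up]; omega
  · rw [ip_neg_right]; simp only [ip, rotR, up]; omega

/-- the joints: the direction does not change there -/
def Jt (n t : ℕ) : Prop := 1 ≤ t ∧ (t = 1 ∨ 2 ≤ t % (n + 2)) ∧ t % (n + 2) ≤ n

lemma jt_dir {n t : ℕ} (hn : 2 ≤ n) (h : Jt n t) : snk n t = snk n (t - 1) := by
  obtain ⟨h1, h2, h3⟩ := h
  rcases h2 with h2 | h2
  · subst h2
    have e1 : snk n 1 = sd n (1 / (n + 2)) (1 % (n + 2)) := rfl
    rw [show 1 - 1 = 0 from rfl, snk_zero, e1, Nat.div_eq_of_lt (by omega), Nat.mod_eq_of_lt (by omega)]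
    unfold sd
    rw [if_neg (by omega), if_pos (by omega), if_pos rfl]
    rfl
  · obtain ⟨s, rfl⟩ : ∃ s, t = s + 1 := ⟨t - 1, by omega⟩
    rw [Nat.add_sub_cancel]
    rcases dm_succ n s with ⟨g1, g2, g3⟩ | ⟨g1, g2, g3⟩
    · unfold snk
      rw [g2, g3]
      rw [g3] at h2 h3
      unfold sd
      rw [if_neg (show ¬ s % (n + 2) + 1 = 0 by omega), if_pos h3, if_neg (show ¬ s % (n + 2) = 0 by omega), if_pos g1]
    · omega

lemma mul_mod' {n c a : ℕ} (ha : a < n + 2) : ((n + 2) * c + a) % (n + 2) = a := by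
  rw [Nat.mul_add_mod, Nat.mod_eq_of_lt ha]

/-- the joint in front -/
lemma jt_pred {n t : ℕ} (hn : 2 ≤ n) (h : Jt n t) (ht : 2 ≤ t) : ∃ t', Jt n t' ∧ t' < t ∧ t ≤ t' + 4 := by
  obtain ⟨h1, h2, h3⟩ := h
  have h4 := Nat.div_add_mod t (n + 2)
  have h5 : 2 ≤ t % (n + 2) := by
    rcases h2 with h2 | h2
    · omega
    · exact h2
  rcases Nat.eq_zero_or_pos (t / (n + 2)) with h6 | h6
  · rw [h6, Nat.mul_zero, Nat.zero_add] at h4
    refine ⟨t - 1, ⟨by omega, ?_, ?_⟩, by omega, by omega⟩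
    · rw [Nat.mod_eq_of_lt (by omega)]
      omega
    · rw [Nat.mod_eq_of_lt (by omega)]
      omega
  · rcases Nat.lt_or_ge 2 (t % (n + 2)) with h7 | h7
    · have h8 : t - 1 = (n + 2) * (t / (n + 2)) + (t % (n + 2) - 1) := by omega
      refine ⟨t - 1, ⟨by omega, ?_, ?_⟩, by omega, by omega⟩
      · rw [h8, mul_mod' (by omega)]
        omega
      · rw [h8, mul_mod' (by omega)]
        omega
    · obtain ⟨c, hc⟩ : ∃ c, t / (n + 2) = c + 1 := ⟨t / (n + 2) - 1, by omega⟩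
      rw [hc, Nat.mul_add, Nat.mul_one] at h4
      have h8 : t - 4 = (n + 2) * c + n := by omega
      refine ⟨t - 4, ⟨by omega, ?_, ?_⟩, by omega, by omega⟩
      · rw [h8, mul_mod' (by omega)]
        omega
      · rw [h8, mul_mod' (by omega)]

/-- the last joint -/
lemma jt_last {n c : ℕ} (hn : 2 ≤ n) (hc : 1 ≤ c) : Jt n ((n + 2) * (2 * c) - 2) := by
  obtain ⟨d, rfl⟩ : ∃ d, c = d + 1 := ⟨c - 1, by omega⟩
  have h8 : (n + 2) * (2 * (d + 1)) - 2 = (n + 2) * (2 * d + 1) + n := by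
    have : (n + 2) * (2 * (d + 1)) = (n + 2) * (2 * d + 1) + (n + 2) := by ring
    omega
  refine ⟨by omega, ?_, ?_⟩
  · rw [h8, mul_mod' (by omega)]
    omega
  · rw [h8, mul_mod' (by omega)]

lemma ps_last {n c : ℕ} (hc : 1 ≤ c) : ip (ps (snk n) ((n + 2) * (2 * c))) up = 1 := by
  have h1 : (n + 2) * (2 * c) / (n + 2) = 2 * c := Nat.mul_div_cancel_left _ (by omega)
  have h2 : (n + 2) * (2 * c) % (n + 2) = 0 := Nat.mul_mod_right _ _
  rw [ps_snk, h1, h2, sv_0e (by omega) (by omega)]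
  simp only [ip, up]
  push_cast
  ring

lemma snk_last {n c : ℕ} (hc : 1 ≤ c) : snk n ((n + 2) * (2 * c) - 1) = (1, -1) := by
  obtain ⟨d, rfl⟩ : ∃ d, c = d + 1 := ⟨c - 1, by omega⟩
  have h8 : (n + 2) * (2 * (d + 1)) - 1 = (n + 2) * (2 * d + 1) + (n + 1) := by
    have : (n + 2) * (2 * (d + 1)) = (n + 2) * (2 * d + 1) + (n + 2) := by ring
    omega
  have h1 : ((n + 2) * (2 * d + 1) + (n + 1)) / (n + 2) = 2 * d + 1 := by
    rw [Nat.mul_add_div (by omega), Nat.div_eq_of_lt (by omega), Nat.add_zero]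
  unfold snk
  rw [h8, mul_mod' (by omega), h1]
  unfold sd
  rw [if_neg (by omega), if_neg (by omega), if_neg (by omega)]

end NB

end ARM

end HexObs
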