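import Pool.Agent.ARM.NoRich

/-!
# ARM (two arms): all the words without a rich factor, no condition on the end (helper63)

* **`nz_mass`** : words with at least n letters without a rich factor of the scale b: `K pr n b`.
-/

set_option autoImplicit false

namespace HexObs

namespace ARM

open Finset TS SDN HexObs.SIM NTA TIP

open scoped ENNReal

/-- **words without a rich factor, no condition on the end** -/
theorem nz_mass {κ : ℝ} {C : ℕ} (hR : RegZ κ C) (hC : ConfSt) : ∃ (K : ℝ) (b0 : ℕ), 0 < K ∧ ∀ n b : ℕ, b0 ≤ b →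
    gf {L | L ∈ SA ∧ n ≤ L.length ∧ L ∈ Nz κ C b} ≤ ENNReal.ofReal (K * pr n b) := by
  classical
  obtain ⟨J0, b1, hno⟩ := noRich hR hC 6 1
  obtain ⟨C2, hC2, hconf⟩ := hC
  refine ⟨C2 * 16 ^ (J0 + 3) + 2, b1, by positivity, fun n b hb => ?_⟩
  have hpr : 0 < pr n b := pr_pos _ _
  obtain ⟨i, hi⟩ : ∃ i, i = b + J0 + 3 := ⟨_, rfl⟩
  have hcov : {L | L ∈ SA ∧ n ≤ L.length ∧ L ∈ Nz κ C b} ⊆ {L | L ∈ SA ∧ n ≤ L.length ∧ ∀ s, s ≤ L.length → dz L s ≤ 2 ^ i} ∪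
      ⋃ J : ℕ, {L | L ∈ SA ∧ n ≤ L.length ∧ In (2 ^ (b + (J0 + J))) L ∧
        ∃ N : ℕ, 2 ^ (J0 + J) ≤ N * 2 ^ 1 ∧ L ∈ Lz κ C b N} := by
    rintro L ⟨h1, h2, h5⟩
    have hex : ∃ J, In (2 ^ (b + J)) L := by
      obtain ⟨J, hJ⟩ := In_len L
      exact ⟨J, hJ b⟩
    rcases le_or_gt (Nat.find hex) J0 with h | h
    · refine Or.inl ⟨h1, h2, fun s hs => ?_⟩
      have h6 : In (2 ^ (b + J0)) L := Nf.in_mono (Nat.find_spec hex) (Nat.pow_le_pow_right (by norm_num) (by omega))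
      rw [hi]
      exact dz_In h6 s hs
    · refine Or.inr (Set.mem_iUnion.2 ⟨Nat.find hex - J0, h1, h2, ?_, 2 ^ (Nat.find hex - 1), ?_, ?_⟩)
      · rw [show J0 + (Nat.find hex - J0) = Nat.find hex by omega]
        exact Nat.find_spec hex
      · rw [← pow_add]
        exact Nat.pow_le_pow_right (by norm_num) (by omega)
      · refine ⟨[], L, [], by rw [List.nil_append, List.append_nil], h5, ?_⟩
        rw [← pow_add, show Nat.find hex - 1 + b = b + (Nat.find hex - 1) by omega]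
        exact Nat.find_min hex (by omega)
  refine (gf_mono hcov).trans ((gf_union_le _ _).trans ?_)
  have hsplit : ENNReal.ofReal ((C2 * 16 ^ (J0 + 3) + 2) * pr n b) = ENNReal.ofReal (C2 * 16 ^ (J0 + 3) * pr n b) +
      ENNReal.ofReal (2 * pr n b) := by
    rw [← ENNReal.ofReal_add (by positivity) (by positivity)]
    congr 1
    ring
  rw [hsplit]
  refine add_le_add ?_ ?_
  · refine (hconf n i).trans (ENNReal.ofReal_le_ofReal ?_)
    have hm := ml_pos i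
    have hmax : 0 < max (n : ℝ) (ml i) := lt_max_of_lt_right hm
    obtain ⟨x, hx⟩ : ∃ x : ℝ, x = ml i / max (n : ℝ) (ml i) := ⟨_, rfl⟩
    have hx0 : 0 < x := by rw [hx]; positivity
    have hx1 : x ≤ 1 := by
      rw [hx, div_le_one hmax]
      exact le_max_right _ _
    have h4 : x ^ (4 : ℕ) ≤ x ^ (3 / 2 : ℝ) := by
      rw [← Real.rpow_natCast]
      exact Real.rpow_le_rpow_of_exponent_ge hx0 hx1 (by norm_num)
    have h5 := pr_up16 n b (J0 + 3)
    rw [show b + (J0 + 3) = i by omega] at h5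
    have h6 : pr n i = (2 : ℝ) ^ ((43 / 24 : ℝ) * (i : ℝ)) * x ^ (3 / 2 : ℝ) := by rw [hx]; rfl
    rw [← hx]
    calc C2 * ((2 : ℝ) ^ ((43 / 24 : ℝ) * (i : ℝ)) * x ^ (4 : ℕ))
        ≤ C2 * ((2 : ℝ) ^ ((43 / 24 : ℝ) * (i : ℝ)) * x ^ (3 / 2 : ℝ)) := by gcongr
      _ = C2 * pr n i := by rw [h6]
      _ ≤ C2 * (16 ^ (J0 + 3) * pr n b) := by gcongr
      _ = _ := by ring
  · refine (Crw.gf_iUnion_le _).trans ?_
    have h1 : ∀ J : ℕ, gf {L | L ∈ SA ∧ n ≤ L.length ∧ In (2 ^ (b + (J0 + J))) L ∧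
        ∃ N : ℕ, 2 ^ (J0 + J) ≤ N * 2 ^ 1 ∧ L ∈ Lz κ C b N} ≤ ENNReal.ofReal (pr n b * (1 / 2) ^ J) := by
      intro J
      refine (hno b (J0 + J) n hb (by omega)).trans (ENNReal.ofReal_le_ofReal ?_)
      have h2 := pr_up16 n b (J0 + J)
      have h3 : (0 : ℝ) < 2 ^ (6 * (J0 + J)) := by positivity
      rw [div_le_iff₀ h3]
      refine h2.trans ?_
      have h4 : (2 : ℝ) ^ (6 * (J0 + J)) = 64 ^ (J0 + J) := by
        rw [pow_mul]
        norm_num
      have h5 : (16 : ℝ) ^ (J0 + J) ≤ (1 / 2) ^ (J0 + J) * 64 ^ (J0 + J) := by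
        rw [← mul_pow]
        exact pow_le_pow_left₀ (by norm_num) (by norm_num) _
      have h6 : (1 / 2 : ℝ) ^ (J0 + J) ≤ (1 / 2) ^ J := pow_le_pow_of_le_one (by norm_num) (by norm_num) (by omega)
      rw [h4]
      calc (16 : ℝ) ^ (J0 + J) * pr n b ≤ ((1 / 2) ^ (J0 + J) * 64 ^ (J0 + J)) * pr n b := by gcongr
        _ ≤ ((1 / 2) ^ J * 64 ^ (J0 + J)) * pr n b := by gcongr
        _ = _ := by ring
    refine (ENNReal.tsum_le_tsum h1).trans ?_
    rw [tsum_half (by positivity)]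

end ARM

end HexObs
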