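import Pool.Agent.ARM.NtG

/-!
ARM, row Q (helper65): the masses of the two kinds of near touches in words with a window.
-/

set_option autoImplicit false

namespace HexObs

namespace ARM

open Finset TS SDN NTW NTA HexObs.SIM TIP TIP.Nf TIW

open scoped ENNReal

lemma kU_big {κ : ℝ} (hκ : 0 < κ) : ∃ b0 : ℕ, ∀ b, b0 ≤ b → 8 ≤ κ * Ub b := by
  obtain ⟨B, hB⟩ := Ub_big
  obtain ⟨n, hn⟩ := exists_nat_ge (8 / κ)
  refine ⟨B * n, fun b hb => ?_⟩
  have h1 := hB b n hb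
  have h2 : (n : ℝ) ≤ 8 ^ n := by
    exact_mod_cast (Nat.lt_pow_self (by norm_num : 1 < 8)).le
  have h3 : 8 / κ ≤ Ub b := hn.trans (h2.trans h1)
  rw [div_le_iff₀ hκ] at h3
  linarith

/-- the number of the cuts -/
lemma h_num {x : ℝ} (h8 : 8 ≤ x) : ∃ h : ℕ, 1 ≤ h ∧ x / 8 ≤ h ∧ ∀ m : ℕ, x ≤ m → 4 * h ≤ m := by
  refine ⟨⌈x / 8⌉₊, ?_, Nat.le_ceil _, fun m hm => ?_⟩
  · rw [Nat.one_le_iff_ne_zero, Nat.ne_zero_iff_zero_lt, Nat.ceil_pos]
    linarith
  · have h1 : (⌈x / 8⌉₊ : ℝ) < x / 8 + 1 := Nat.ceil_lt_add_one (by linarith)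
    have h2 : (4 : ℝ) * (⌈x / 8⌉₊ : ℝ) < m + 1 := by linarith
    have h3 : 4 * ⌈x / 8⌉₊ < m + 1 := by exact_mod_cast h2
    omega

/-- **words with a window whose end part contains a word in VV** -/
theorem endEv_mass (hE : ExF) (hM : YMassJ) {κ : ℝ} (hκ : 0 < κ) : ∃ (K1 : ℝ) (b0 : ℕ), 1 ≤ K1 ∧
    ∀ (VV : Set (List Bool)) (C b J n j : ℕ) (D δ : ℝ) (ρ : ℤ), b0 ≤ b → 2 * C ≤ 2 ^ J → 0 ≤ D → HF D n j → j ≤ b →
    0 ≤ δ → 2 * ρ + 2 ≤ 3 * 2 ^ (b + 1) →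
    gf {w | w ∈ WL (b + (J + 1) + 6) ∧ ∃ V ∈ VV, ∃ R, w = V ++ R} ≤
      ENNReal.ofReal (δ * Ub (b + (J + 1) + 6)) * Xb (b + (J + 1) + 6) ^ 2 →
    gf {L | L ∈ Fp n j ∧ L ∈ Win κ C b J ∧ L ∈ EndEv VV ρ} ≤
      ENNReal.ofReal (K1 * Real.sqrt (K1 ^ (J + 2) * δ) * (D * pr n (b + (J + 1)))) := by
  obtain ⟨η, hηd⟩ : ∃ η : ℝ, η = κ / 8 := ⟨_, rfl⟩
  have hη : 0 < η := by rw [hηd]; positivity
  obtain ⟨C1, hC1, h1⟩ := yv_mass hη
  obtain ⟨C2, hC2, h2⟩ := ef_mass hE hM hη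
  obtain ⟨b0, hb0⟩ := kU_big hκ
  have hC10 : 0 < C1 := by linarith
  have hC20 : 0 < C2 := by linarith
  refine ⟨max (C2 / η) (C1 * C2) + 1, b0, by
    have := (by positivity : 0 ≤ C1 * C2).trans (le_max_right (C2 / η) (C1 * C2))
    linarith, fun VV C b J n j D δ ρ hb hCJ hD hF hjb hδ hρ hVV => ?_⟩
  have h8 := hb0 b hb
  have hU := Ub_pos b
  have hp := pr_nonneg n (b + (J + 1))
  obtain ⟨h, hh1, hh2, hh4⟩ := h_num h8
  have hηh : η * Ub b ≤ (h : ℝ) := by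
    rw [hηd]
    calc κ / 8 * Ub b = κ * Ub b / 8 := by ring
      _ ≤ h := hh2
  have key := h2 D n j b (J + 1) hD hF hjb
    (fun A B => A ∈ GT b η ∧ B ∈ YV VV η b (J + 1) ∧ rev B ∈ GT b η ∧ B ∈ SA) (C1 ^ (J + 2) * δ) η (by positivity) hη
    (fun A B hAB => ⟨hAB.1, hAB.2.2.2, hAB.2.2.1⟩) (fun A => (gf_mono (fun B hB => hB.1.2.1)).trans (by
      have := h1 VV b (J + 1) δ hδ hVV
      exact this))
  refine (gf_mono ?_).trans (key.trans (ENNReal.ofReal_le_ofReal ?_))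
  · rintro L ⟨hLF, ⟨X, Z1, Z2, Z3, Y, hw⟩, hEv⟩
    refine ⟨hLF, ?_⟩
    obtain ⟨S, hS, hcut⟩ := slots hw hh1 (hh4 _ hw.n2)
    have h5 : S.card ≤ nD (2 ^ (b + (J + 1)))
        (fun A B => A ∈ GT b η ∧ B ∈ YV VV η b (J + 1) ∧ rev B ∈ GT b η ∧ B ∈ SA) L := by
      refine nD_ge fun c hc => ?_
      obtain ⟨c1, M, N, c2, c3, c4, c5, c6, c7, c8, -⟩ := hcut c hc
      have hhM : hgt M + hgt N = hgt Z2 := by rw [← TIP.hgt_app c3 c4, ← c2]
      have hh2' := hw.h2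
      have hnN : η * Ub b ≤ (nc N : ℝ) := hηh.trans (by exact_mod_cast c8)
      have hnM : η * Ub b ≤ (nc M : ℝ) := hηh.trans (by exact_mod_cast c7)
      have hYC : YCp η b (L.drop c) N Z3 Y := ⟨c6, hw.ne, c4, hw.b3, by omega, hw.h3, hnN⟩
      have hin : In (2 ^ (b + (J + 1))) (L.drop c) := by
        rw [c6]
        exact hw.inB c2 c3 c4 hCJ
      have hp1 : 2 ^ (b + 1) ≤ 2 ^ (b + 2) := Nat.pow_le_pow_right (by norm_num) (by omega)
      refine ⟨c1, ⟨?_, ?_, ?_, SA_drop hLF.1 c⟩, hin⟩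
      · rw [c5]
        exact ne_A hw.b1 (hp1.trans hw.h1) c3 (by omega) hnM
      · have e : L.take c ++ L.drop c = L := List.take_append_drop c L
        exact end_YV (A := L.take c) hYC (by rw [e]; exact hLF.1) hin hρ (by rw [e]; exact hEv)
      · rw [c6]
        exact ne_B c4 (by omega) hw.b3 (hp1.trans hw.h3) hnN
    have h6 : (h : ℝ) ≤ (nD (2 ^ (b + (J + 1)))
        (fun A B => A ∈ GT b η ∧ B ∈ YV VV η b (J + 1) ∧ rev B ∈ GT b η ∧ B ∈ SA) L : ℝ) := by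
      exact_mod_cast hS.trans h5
    exact hηh.trans h6
  · have h5 : 0 ≤ D * pr n (b + (J + 1)) := by positivity
    refine mul_le_mul_of_nonneg_right ?_ h5
    obtain ⟨K1, hK1⟩ : ∃ K1 : ℝ, K1 = max (C2 / η) (C1 * C2) + 1 := ⟨_, rfl⟩
    rw [← hK1]
    have h6 : C2 / η ≤ K1 := by rw [hK1]; have := le_max_left (C2 / η) (C1 * C2); linarith
    have h7 : C1 * C2 ≤ K1 := by rw [hK1]; have := le_max_right (C2 / η) (C1 * C2); linarith
    have h8 : Real.sqrt (C2 ^ (J + 1 + 1) * (C1 ^ (J + 2) * δ)) ≤ Real.sqrt (K1 ^ (J + 2) * δ) := by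
      apply Real.sqrt_le_sqrt
      calc C2 ^ (J + 1 + 1) * (C1 ^ (J + 2) * δ) = (C1 * C2) ^ (J + 2) * δ := by rw [mul_pow]; ring
        _ ≤ K1 ^ (J + 2) * δ := by gcongr
    calc C2 * Real.sqrt (C2 ^ (J + 1 + 1) * (C1 ^ (J + 2) * δ)) / η =
        C2 / η * Real.sqrt (C2 ^ (J + 1 + 1) * (C1 ^ (J + 2) * δ)) := by ring
      _ ≤ K1 * Real.sqrt (K1 ^ (J + 2) * δ) := by
        refine mul_le_mul h6 h8 (Real.sqrt_nonneg _) (le_trans (by positivity) h6)

/-- **words with a window with a touch of the regular start part and the end part** -/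
theorem mEv_mass (hE : ExF) (hM : YMassJ) (hY : YNSt) {κ : ℝ} (hκ : 0 < κ) (C J : ℕ) (hCJ : 6 * C ≤ 2 ^ J) :
    ∀ ε : ℝ, 0 < ε → ∃ (M : ℝ) (b0 : ℕ), 0 < M ∧ ∀ (b n j i d S K : ℕ) (D : ℝ) (J' m R : ℕ → ℕ) (r : ℤ), b0 ≤ b →
    0 ≤ D → HF D n j → j ≤ b → i + 5 ≤ b → r + 2 ≤ d →
    (∀ s, s < S → 6 ≤ K - J' s ∧ 107 ≤ m s ∧ R s = 3 * m s * 2 ^ (K - J' s) ∧ R s ≤ 2 ^ i ∧ d ≤ R s) →
    (∀ s, s + 1 < S → 80 * R (s + 1) ≤ 2 ^ (K - J' s)) → M ≤ ∑ s ∈ range S, ((2 ^ (K - J' s) : ℕ) : ℝ) / R s →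
    gf {L | L ∈ Fp n j ∧ L ∈ Win κ C b J ∧ L ∈ MEv i r ∧ L ∉ StartEv (IrS S K J' m) (2 ^ (i + 3))} ≤
      ENNReal.ofReal (ε * (D * pr n (b + (J + 1)))) := by
  obtain ⟨η, hηd⟩ : ∃ η : ℝ, η = κ / 8 := ⟨_, rfl⟩
  have hη : 0 < η := by rw [hηd]; positivity
  obtain ⟨C2, hC2, h2⟩ := ef_mass hE hM hη
  have hC20 : 0 < C2 := by linarith
  intro ε hε
  obtain ⟨δ, hδd⟩ : ∃ δ : ℝ, δ = (ε * η / C2) ^ 2 / C2 ^ (J + 2) * η := ⟨_, rfl⟩
  have hδ : 0 < δ := by rw [hδd]; positivity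
  obtain ⟨M, b1, hM0, hY⟩ := hY η J (J + 1) δ hη hδ
  obtain ⟨b0, hb0⟩ := kU_big hκ
  refine ⟨M, max b0 b1, hM0, fun b n j i d S K D J' m R r hb hD hF hjb hib hrd hS hR hsum => ?_⟩
  have h8 := hb0 b ((le_max_left _ _).trans hb)
  have hU := Ub_pos b
  have hp := pr_nonneg n (b + (J + 1))
  obtain ⟨h, hh1, hh2, hh4⟩ := h_num h8
  have hηh : η * Ub b ≤ (h : ℝ) := by
    rw [hηd]
    calc κ / 8 * Ub b = κ * Ub b / 8 := by ring
      _ ≤ h := hh2
  have hp1 : 2 ^ (b + 1) ≤ 2 ^ (b + 2) := Nat.pow_le_pow_right (by norm_num) (by omega)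
  have hib2 : 2 ^ i ≤ 2 ^ (b + J) := Nat.pow_le_pow_right (by norm_num) (by omega)
  obtain ⟨ρ, hρ⟩ : ∃ ρ : List Bool → List Bool → Prop, ρ = fun A B => A ∈ GT b η ∧ B ∈ SA ∧ rev B ∈ GT b η ∧
      B ∈ YN η (η * Ub b) b J (J + 1) S d (fun s => 2 ^ (K - J' s)) R (A.drop 1) := ⟨_, rfl⟩
  have key := h2 D n j b (J + 1) hD hF hjb ρ (δ / η) η (by positivity) hη
    (fun A B hAB => by rw [hρ] at hAB; exact ⟨hAB.1, hAB.2.1, hAB.2.2.1⟩) (fun A => by
      refine (gf_mono (Q := YN η (η * Ub b) b J (J + 1) S d (fun s => 2 ^ (K - J' s)) R (A.drop 1)) fun B hB => ?_).trans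
        (hY (A.drop 1) b S d (fun s => 2 ^ (K - J' s)) R η ((le_max_right _ _).trans hb) hη (fun s hs => ?_) hR hsum)
      · have h3 := hB.1
        rw [hρ] at h3
        exact h3.2.2.2
      · obtain ⟨s1, s2, s3, s4, s5⟩ := hS s hs
        have h3 : 2 ^ 6 ≤ 2 ^ (K - J' s) := Nat.pow_le_pow_right (by norm_num) s1
        refine ⟨h3, ?_, s5, s4.trans hib2⟩
        rw [s3]
        exact Nat.mul_le_mul_right _ (by omega))
  refine (gf_mono ?_).trans (key.trans (ENNReal.ofReal_le_ofReal ?_))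
  · rintro L ⟨hLF, ⟨X, Z1, Z2, Z3, Y, hw⟩, hEv, hreg⟩
    refine ⟨hLF, ?_⟩
    obtain ⟨T, hT, hcut⟩ := slots hw hh1 (hh4 _ hw.n2)
    have h5 : T.card ≤ nD (2 ^ (b + (J + 1))) ρ L := by
      refine nD_ge fun c hc => ?_
      obtain ⟨c1, M', N, c2, c3, c4, c5, c6, c7, c8, T2, hT2, hcut2⟩ := hcut c hc
      have hhM : hgt M' + hgt N = hgt Z2 := by rw [← TIP.hgt_app c3 c4, ← c2]
      have hh2' := hw.h2
      have hnN : η * Ub b ≤ (nc N : ℝ) := hηh.trans (by exact_mod_cast c8)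
      have hnM : η * Ub b ≤ (nc M' : ℝ) := hηh.trans (by exact_mod_cast c7)
      have hin : In (2 ^ (b + (J + 1))) (L.drop c) := by
        rw [c6]
        exact hw.inB c2 c3 c4 (by omega)
      have hc0 : 1 ≤ c := by
        have h6 := congrArg List.length c5
        rw [List.length_take, min_eq_left c1] at h6
        simp only [List.length_append] at h6
        have h7 : Z1 ≠ [] := by
          rintro rfl
          have h7 := hw.h1
          rw [TIP.hgt_nil] at h7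
          have := Nat.one_le_two_pow (n := b + 2)
          omega
        have := List.length_pos_iff.2 h7
        omega
      have hA1 : (L.take c).drop 1 ++ L.drop c = L.drop 1 := by
        have h6 : (L.take c).drop 1 = (L.drop 1).take (c - 1) := by rw [List.drop_take]
        have h7 : L.drop c = (L.drop 1).drop (c - 1) := by
          rw [List.drop_drop]
          congr 1
          omega
        rw [h6, h7, List.take_append_drop]
      have hAl : ((L.take c).drop 1).length = c - 1 := by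
        rw [List.length_drop, List.length_take]
        omega
      rw [hρ]
      refine ⟨c1, ⟨?_, SA_drop hLF.1 c, ?_, T2, ?_, fun k hk => ?_⟩, hin⟩
      · rw [c5]
        exact ne_A hw.b1 (hp1.trans hw.h1) c3 (by omega) hnM
      · rw [c6]
        exact ne_B c4 (by omega) hw.b3 (hp1.trans hw.h3) hnN
      · exact hηh.trans (by exact_mod_cast hT2)
      · obtain ⟨k1, k2, k3, k4⟩ := hcut2 k hk
        have hnk : η * Ub b ≤ (nc (N.drop k) : ℝ) := hηh.trans (by exact_mod_cast k4)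
        have hhN : hgt (N.take k) + hgt (N.drop k) = hgt N := by
          rw [← TIP.hgt_app k2 k3, List.take_append_drop]
        have htk : (L.drop c).take k = N.take k := by rw [c6, List.take_append_of_le_length k1]
        have hdk : (L.drop c).drop k = N.drop k ++ (Z3 ++ Y) := by rw [c6, List.drop_append_of_le_length k1]
        have hZ2 : Z2 = M' ++ (N.take k ++ N.drop k) := by rw [List.take_append_drop, ← c2]
        have hZ2' : Z2 = (M' ++ N.take k) ++ N.drop k := by rw [hZ2, List.append_assoc]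
        refine ⟨?_, ?_, ?_, ?_, ?_, ?_, SA_drop (SA_drop hLF.1 c) k, ?_, ?_⟩
        · rw [c6, List.length_append]
          omega
        · rw [htk]
          exact k2
        · rw [htk]
          omega
        · rw [htk]
          have h6 := hn_In (hw.inV hZ2 c3)
          refine h6.trans ?_
          have h7 : 3 * (2 * (C * 2 ^ b)) ≤ 2 ^ (b + J) := by
            rw [pow_add]
            calc 3 * (2 * (C * 2 ^ b)) = 2 ^ b * (6 * C) := by ring
              _ ≤ 2 ^ b * 2 ^ J := Nat.mul_le_mul_left _ hCJ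
          exact_mod_cast h7
        · rw [hA1]
          exact SA_drop hLF.1 1
        · rw [hA1, hAl]
          exact near_M hw c1 c2 c3 c5 c6 k1 k2 k3 hnk hib hrd
            (fun s hs => ⟨(hS s hs).1, (hS s hs).2.1, (hS s hs).2.2.1, (hS s hs).2.2.2.1⟩) hEv hreg
        · rw [hdk]
          exact ne_B k3 (by omega) hw.b3 (hp1.trans hw.h3) hnk
        · rw [hdk]
          exact hw.inB hZ2' (TIP.BU_app c3 k2) k3 (by omega)
    have h6 : (h : ℝ) ≤ (nD (2 ^ (b + (J + 1))) ρ L : ℝ) := by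
      exact_mod_cast hT.trans h5
    exact hηh.trans h6
  · have h5 : 0 ≤ D * pr n (b + (J + 1)) := by positivity
    refine mul_le_mul_of_nonneg_right (le_of_eq ?_) h5
    have e1 : C2 ^ (J + 1 + 1) * (δ / η) = (ε * η / C2) ^ 2 := by
      rw [hδd]
      field_simp
    rw [e1, Real.sqrt_sq (by positivity)]
    field_simp

end ARM

end HexObs
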