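import Pool.Agent.ARM.NumB
import Pool.Agent.SIM.VWord
import Pool.Agent.ARM.NtD

/-!
ARM, row Q (helper65): the sum over a bridge between the two parts of a near touch (after SIM/VWord, helper69): the rest of
the word is not confined, the bridge is.
-/

set_option autoImplicit false

namespace HexObs

namespace ARM

open Finset TS SDN SIM

open scoped ENNReal

open Classical in
/-- **the sum over the free bridge** -/
theorem xboundS : ∃ C : ℝ, 0 < C ∧ ∀ (A B : List Bool) (n K S d : ℕ) (ρ R : ℕ → ℕ), 1 ≤ n →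
    (∀ s, s < S → 64 ≤ ρ s ∧ 320 * ρ s ≤ R s ∧ d ≤ R s ∧ R s ≤ 2 ^ K) →
    (∀ s, s + 1 < S → 80 * R (s + 1) ≤ ρ s) → 0 < ∑ s ∈ range S, (ρ s : ℝ) / R s →
    gf {Z | Z ∈ BU ∧ n ≤ hgt Z ∧ TIW.hn (TIW.en Z) ≤ 2 ^ K ∧ A ++ (Z ++ B) ∈ SA ∧
      NearQ S d ρ R A.length (A.length + Z.length) (A ++ (Z ++ B))} ≤
      ENNReal.ofReal (C * 4 ^ K * (UU n / n ^ 2) / ∑ s ∈ range S, (ρ s : ℝ) / R s) := by
  obtain ⟨C, hC, hanti⟩ := anti_end
  refine ⟨2 * 10 ^ 9 * C, by positivity, fun A B n K S d ρ R hn hS hR hsum => ?_⟩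
  obtain ⟨E, hE⟩ : ∃ E : Set (List Bool), E = {Z | Z ∈ BU ∧ n ≤ hgt Z ∧ TIW.hn (TIW.en Z) ≤ 2 ^ K ∧ A ++ (Z ++ B) ∈ SA ∧
    NearQ S d ρ R A.length (A.length + Z.length) (A ++ (Z ++ B))} := ⟨_, rfl⟩
  rw [← hE]
  obtain ⟨V, hV⟩ : ∃ V : Finset Pt, V = (bl 0 (2 ^ K)).filter (fun v => ∃ Z ∈ E, dsp A Z = v) := ⟨_, rfl⟩
  have hBU : ∀ Z ∈ BU, dx up Z Z.length = up := fun Z ⟨h, hZ⟩ => (mem_Brd.1 hZ).2.2.1
  have hbox : ∀ Z ∈ E, dsp A Z ∈ Bl 0 (2 ^ K) := by
    intro Z hZ
    rw [hE] at hZ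
    obtain ⟨-, -, z3, -⟩ := hZ
    have h1 : TIW.hn (dsp A Z) ≤ ((2 ^ K : ℕ) : ℤ) := by
      unfold dsp
      rw [TIW.hn_mulE (nrm_rotTo upd (dx_mem upd A A.length))]
      push_cast
      exact z3
    exact Bl_of_hn h1
  -- the number of the translations
  have hcount : (V.card : ℝ) * ∑ s ∈ range S, (ρ s : ℝ) / R s ≤ 2 * 10 ^ 9 * ((2 ^ K : ℕ) : ℝ) ^ 2 := by
    have hb : Pth (fun k => vx oo up (A ++ B) (A.length + k)) B.length :=
      Pth_le (Pth_tail (j := A.length) (pth_vx (A ++ B) (A.length + B.length)) (by omega)) (by omega)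
    refine vcount (a := fun k => vx oo up (A ++ B) k) (b := fun k => vx oo up (A ++ B) (A.length + k)) (n := A.length)
      (m := B.length) (d := d) hb hS hR ?_
    · intro v hv
      rw [hV, Finset.mem_filter] at hv
      obtain ⟨-, Z, hZ, rfl⟩ := hv
      refine ⟨hbox Z hZ, ?_⟩
      rw [hE] at hZ
      obtain ⟨z1, z2, -, z3, z4⟩ := hZ
      have hZu := hBU Z z1
      refine ⟨cl_dsp hZu, ?_, ?_⟩
      · intro i hi j hj
        show vx oo up (A ++ B) i ≠ vx oo up (A ++ B) (A.length + j) + dsp A Z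
        rw [← vx_behind hZu]
        have h1 : vx oo up (A ++ B) i = vx oo up (A ++ (Z ++ B)) i := by
          rw [vx_append (by omega), vx_append (by omega)]
        rw [h1]
        have hZ0 : 1 ≤ Z.length := by
          by_contra hcon
          have h2 : Z = [] := List.eq_nil_of_length_eq_zero (by omega)
          rw [h2] at z2
          have : hgt [] = 0 := rfl
          omega
        refine z3.inj _ _ (by omega) ?_
        rw [List.length_append, List.length_append]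
        omega
      · obtain ⟨i, x, e, j, a1, a2, a3, a4, a5, a6, a7, a8, a9⟩ := z4
        have hpre : ∀ k, k ≤ A.length → vx oo up (A ++ B) k = vx oo up (A ++ (Z ++ B)) k := by
          intro k hk
          rw [vx_append (by omega), vx_append (by omega)]
        have hpost : ∀ k, A.length + Z.length ≤ k → vx oo up (A ++ (Z ++ B)) k =
            vx oo up (A ++ B) (A.length + (k - (A.length + Z.length))) + dsp A Z := by
          intro k hk
          rw [← vx_behind hZu]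
          congr 1
          omega
        rw [List.length_append, List.length_append] at a5
        refine ⟨i, by omega, j - (A.length + Z.length), by omega, ?_, ?_, ?_⟩
        · show vx oo up (A ++ B) i ∈ Bl (vx oo up (A ++ B) (A.length + (j - (A.length + Z.length))) + dsp A Z) d
          rw [← hpost j (by omega), hpre i (by omega)]
          exact a6
        · intro s hs
          show GoodPt (fun k => vx oo up (A ++ B) k) A.length (vx oo up (A ++ B) i) (ρ s) (R s)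
          rw [hpre i (by omega)]
          obtain ⟨c, c1, c2⟩ := a9 s hs
          refine ⟨c, c1, fun g m hg hk => ?_⟩
          obtain ⟨cg, b1, t, b2⟩ := c2 g m hg hk
          refine ⟨cg, b1, t, fun u hu hu2 => ?_⟩
          obtain ⟨k, hk1, k', hk2, e1⟩ := b2 u hu hu2
          exact ⟨k, hk1, k', by omega, by rw [e1]; exact (hpre k' (by omega)).symm⟩
        · intro s hs
          refine ⟨e - (A.length + Z.length), by omega, fun hcon => a8 s hs ?_⟩
          have hcon' : vx oo up (A ++ B) (A.length + (e - (A.length + Z.length))) ∈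
            Bl (vx oo up (A ++ B) (A.length + (j - (A.length + Z.length)))) (R s) := hcon
          rw [hpost e (by omega), hpost j (by omega)]
          rw [mem_Bl] at hcon' ⊢
          simp only [Prod.fst_add, Prod.snd_add]
          refine ⟨⟨?_, ?_⟩, ?_, ?_⟩ <;> omega
  -- one translation
  have hone : ∀ v, gf {Z | Z ∈ E ∧ dsp A Z = v} ≤ ENNReal.ofReal (C * (UU n / n ^ 2)) := by
    intro v
    by_cases hex : ∃ Z0, Z0 ∈ E ∧ dsp A Z0 = v
    · obtain ⟨Z0, hZ0, hv0⟩ := hex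
      have hZ0' := hZ0
      rw [hE] at hZ0'
      obtain ⟨⟨h, hh⟩, z2, -, -, -⟩ := hZ0'
      have hlev := (mem_Brd.1 hh).2.2.2
      have hg0 : hgt Z0 = h := by
        unfold hgt
        rw [hlev]
        omega
      rw [hg0] at z2
      refine (gf_mono (Q := {t | t ∈ Brd h ∧ latE t = latE Z0}) ?_).trans ((hanti h (by omega) _).trans ?_)
      · rintro Z ⟨hZ, hZv⟩
        rw [hE] at hZ
        obtain ⟨⟨h', hh'⟩, -, -, -, -⟩ := hZ
        have h3 : vx oo up Z Z.length = vx oo up Z0 Z0.length := dsp_inj (A := A) (by rw [hZv, hv0])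
        have h4 := (mem_Brd.1 hh').2.2.2
        have h5 : lev Z Z.length = lev Z0 Z0.length := by
          unfold lev
          rw [h3]
        have h6 : h' = h := by omega
        refine ⟨h6 ▸ hh', ?_⟩
        unfold latE lat
        rw [h3]
      · apply ENNReal.ofReal_le_ofReal
        have hn0 : (0 : ℝ) < n := by exact_mod_cast hn
        have hnh : (n : ℝ) ≤ h := by exact_mod_cast z2
        have h7 : uu h ≤ uu n := Num2Aux.anti z2
        have h8 := Num2Aux.mul_le_UU n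
        have h9 := Num2Aux.nonneg n
        refine mul_le_mul_of_nonneg_left ?_ hC.le
        calc uu h / h ≤ uu n / n := div_le_div₀ h9 h7 hn0 hnh
          _ ≤ UU n / n ^ 2 := by
            rw [div_le_div_iff₀ hn0 (by positivity)]
            nlinarith
    · have : {Z | Z ∈ E ∧ dsp A Z = v} = ∅ := Set.eq_empty_of_forall_notMem fun Z hZ => hex ⟨Z, hZ⟩
      rw [this]
      simp [gf]
  have hsub : E ⊆ ⋃ v ∈ V, {Z | Z ∈ E ∧ dsp A Z = v} := by
    intro Z hZ
    rw [Set.mem_iUnion₂]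
    refine ⟨dsp A Z, ?_, hZ, rfl⟩
    rw [hV, Finset.mem_filter, mem_bl]
    exact ⟨hbox Z hZ, Z, hZ, rfl⟩
  refine (gf_mono hsub).trans ((ENNReal.tsum_biUnion_le wE V _).trans ((Finset.sum_le_sum fun v _ => hone v).trans ?_))
  rw [Finset.sum_const, ← ENNReal.ofReal_nsmul]
  apply ENNReal.ofReal_le_ofReal
  rw [nsmul_eq_mul, le_div_iff₀ hsum]
  have hx : 0 ≤ C * (UU n / n ^ 2) := by
    have := (Num2Aux.UU_pos n).le
    positivity
  calc (V.card : ℝ) * (C * (UU n / n ^ 2)) * ∑ s ∈ range S, (ρ s : ℝ) / R s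
      = (C * (UU n / n ^ 2)) * ((V.card : ℝ) * ∑ s ∈ range S, (ρ s : ℝ) / R s) := by ring
    _ ≤ (C * (UU n / n ^ 2)) * (2 * 10 ^ 9 * ((2 ^ K : ℕ) : ℝ) ^ 2) := mul_le_mul_of_nonneg_left hcount hx
    _ = 2 * 10 ^ 9 * C * 4 ^ K * (UU n / n ^ 2) := by
      push_cast
      rw [show ((2 : ℝ) ^ K) ^ 2 = 4 ^ K by
        rw [← pow_mul, mul_comm K 2, pow_mul]
        norm_num]
      ring

/-- parts Y behind A with at least q splittings Y = V ++ B: V a low bridge, B behind a good tip, and a near touch of A with B -/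
def YN (η q : ℝ) (b cc J S d : ℕ) (ρ R : ℕ → ℕ) (A : List Bool) : Set (List Bool) :=
  {Y | ∃ T : Finset ℕ, q ≤ (T.card : ℝ) ∧ ∀ k ∈ T, k ≤ Y.length ∧ Y.take k ∈ BU ∧ hgt (Y.take k) ≤ 2 ^ b ∧
    TIW.hn (TIW.en (Y.take k)) ≤ 2 ^ (b + cc) ∧ A ++ Y ∈ SA ∧ NearQ S d ρ R A.length (A.length + k) (A ++ Y) ∧
    Y.drop k ∈ SA ∧ rev (Y.drop k) ∈ TIP.GT b η ∧ TIP.In (2 ^ (b + J)) (Y.drop k)}

/-- **the mass of these parts** -/
def YNSt : Prop := ∀ (η : ℝ) (cc J : ℕ) (δ : ℝ), 0 < η → 0 < δ → ∃ (M : ℝ) (b0 : ℕ), 0 < M ∧ ∀ (A : List Bool)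
  (b S d : ℕ) (ρ R : ℕ → ℕ) (q : ℝ), b0 ≤ b → 0 < q →
  (∀ s, s < S → 64 ≤ ρ s ∧ 320 * ρ s ≤ R s ∧ d ≤ R s ∧ R s ≤ 2 ^ (b + cc)) → (∀ s, s + 1 < S → 80 * R (s + 1) ≤ ρ s) →
  M ≤ ∑ s ∈ range S, (ρ s : ℝ) / R s →
  gf (YN η (q * Ub b) b cc J S d ρ R A) ≤ ENNReal.ofReal (δ / q * Ub b) * NTA.Xb b

end ARM

end HexObs
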