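import Pool.Agent.ARM.NtW
import Pool.Agent.ARM.NtM
import Pool.Agent.ARM.Rv
import Pool.Agent.SIM.GoodW

/-!
ARM, row Q (helper65): geometry of near touches in a word with a window.
-/

set_option autoImplicit false

namespace HexObs

namespace ARM

open Finset TS SDN NTW NTA HexObs.SIM TIP TIP.Nf TIW

open scoped ENNReal

/-! ### levels in the part behind a cut -/

lemma lev_le_hn (B : List Bool) (r s : ℕ) : lev B r - lev B s ≤ hn (vx oo up B r - vx oo up B s) := by
  have h1 := ip_le_hn (vx oo up B r - vx oo up B s) (show up ∈ dirs by decide)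
  have h2 : ip (vx oo up B r - vx oo up B s) up = lev B r - lev B s := by
    unfold lev ip
    simp only [Prod.fst_sub, Prod.snd_sub]
    ring
  linarith

lemma lev_z (B : List Bool) : lev B 0 = 0 := by
  have h0 : vx oo up B 0 = oo := rfl
  unfold lev
  rw [h0]
  decide

/-- the end of the high bridge -/
lemma YCp.e3 {η : ℝ} {b : ℕ} {B N Z3 Y : List Bool} (h : YCp η b B N Z3 Y) : (N ++ Z3).length < B.length ∧
    2 * (3 * 2 ^ (b + 1)) ≤ lev B (N ++ Z3).length := by
  obtain ⟨hB, hY, hN, hZ, h1, h2, -⟩ := h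
  have hl : 1 ≤ Y.length := List.length_pos_iff.2 hY
  refine ⟨?_, ?_⟩
  · rw [hB]
    simp only [List.length_append]
    omega
  · have e : B = (N ++ Z3) ++ Y := by rw [hB, List.append_assoc]
    have h3 : lev B (N ++ Z3).length = lev (N ++ Z3) (N ++ Z3).length := by
      rw [e]
      exact lev_append (by omega)
    have h4 := (mem_Brd.1 (TIP.BU_hgt (TIP.BU_app hN hZ))).2.2.2
    rw [h3, h4, TIP.hgt_app hN hZ]
    have h5 : ((2 ^ (b + 2) : ℕ) : ℤ) ≤ hgt Z3 := by exact_mod_cast h2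
    push_cast at h5 ⊢
    have h6 : (2 : ℤ) ^ (b + 2) = 2 * 2 ^ (b + 1) := by ring
    have h7 : (0 : ℤ) ≤ hgt N := Nat.cast_nonneg _
    linarith

/-- **a vertex in the end part lies behind a vertex in the high rows** -/
lemma end_pos {η : ℝ} {b : ℕ} {B N Z3 Y : List Bool} (h : YCp η b B N Z3 Y) {r : ℕ} {ρ : ℤ}
    (hρ : 2 * ρ + 2 ≤ 3 * 2 ^ (b + 1)) (hd : ∀ s, r ≤ s → s ≤ B.length → dz B s ≤ ρ) :
    ∃ r', 1 ≤ r' ∧ r' ≤ r ∧ 3 * 2 ^ (b + 1) + 2 ≤ lev B r' := by
  obtain ⟨h1, h2⟩ := h.e3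
  obtain ⟨e3, he3⟩ : ∃ e3, e3 = (N ++ Z3).length := ⟨_, rfl⟩
  rw [← he3] at h1 h2
  have hp : (1 : ℤ) ≤ 2 ^ b := one_le_pow₀ (by norm_num)
  have hp2 : (2 : ℤ) ^ (b + 1) = 2 * 2 ^ b := by ring
  have h0 := lev_z B
  rcases Nat.le_total e3 r with hr | hr
  · refine ⟨e3, ?_, hr, by linarith⟩
    by_contra hc
    rw [show e3 = 0 by omega, h0] at h2
    linarith
  · have h3 := hd r le_rfl (by omega)
    have h4 := hd e3 hr h1.le
    have h5 := lev_le_hn B e3 r
    have h6 := hn_dz B e3 r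
    refine ⟨r, ?_, le_rfl, by linarith⟩
    by_contra hc
    rw [show r = 0 by omega, h0] at h5
    rw [show r = 0 by omega] at h3 h6
    linarith

/-- **the end part starts behind the cut** -/
lemma end_cut {η : ℝ} {b : ℕ} {A B N Z3 Y : List Bool} (h : YCp η b B N Z3 Y) {a : ℕ} {ρ : ℤ}
    (hρ : 2 * ρ + 2 ≤ 3 * 2 ^ (b + 1)) (ha : a ≤ (A ++ B).length) (hd : ∀ s, a ≤ s → s ≤ (A ++ B).length → dz (A ++ B) s ≤ ρ) :
    ∃ r r', a = A.length + r ∧ r ≤ B.length ∧ 1 ≤ r' ∧ r' ≤ r ∧ 3 * 2 ^ (b + 1) + 2 ≤ lev B r' := by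
  have hl : (A ++ B).length = A.length + B.length := List.length_append
  rcases Nat.lt_or_ge A.length a with h1 | h1
  · obtain ⟨r, rfl⟩ : ∃ r, a = A.length + r := ⟨a - A.length, by omega⟩
    obtain ⟨r', a1, a2, a3⟩ := end_pos h (r := r) hρ (fun s hs hs' => by
      have := hd (A.length + s) (by omega) (by omega)
      rwa [dz_app] at this)
    exact ⟨r, r', rfl, by omega, a1, a2, a3⟩
  · exfalso
    obtain ⟨r', a1, a2, a3⟩ := end_pos h (r := 0) hρ (fun s hs hs' => by
      have := hd (A.length + s) (by omega) (by omega)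
      rwa [dz_app] at this)
    omega

/-- words whose end part of radius ρ contains a word in VV, read from the end -/
def EndEv (VV : Set (List Bool)) (ρ : ℤ) : Set (List Bool) :=
  {L | ∃ q, q ≤ L.length ∧ (∀ s, L.length - q ≤ s → s ≤ L.length → dz L s ≤ ρ) ∧ (rv L).take q ∈ VV}

lemma rv_app_take {A B : List Bool} {q : ℕ} (h : q + 1 ≤ B.length) : (rv (A ++ B)).take q = ((rev B).drop 1).take q := by
  unfold rv
  rw [TD.rev_append', List.drop_append_of_le_length (by rw [rev_length]; omega),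
    List.take_append_of_le_length (by rw [List.length_drop, rev_length]; omega)]

/-- **the part behind a cut ends with a word in VV** -/
lemma end_YV {η : ℝ} {b J : ℕ} {VV : Set (List Bool)} {A B N Z3 Y : List Bool} (h : YCp η b B N Z3 Y)
    (hsa : A ++ B ∈ SA) (hin : In (2 ^ (b + J)) B) {ρ : ℤ} (hρ : 2 * ρ + 2 ≤ 3 * 2 ^ (b + 1))
    (hL : A ++ B ∈ EndEv VV ρ) : B ∈ YV VV η b J := by
  obtain ⟨q, hq, hd, hV⟩ := hL
  obtain ⟨r, r', e, hr, a1, a2, a3⟩ := end_cut h hρ (by omega) hd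
  have hl : (A ++ B).length = A.length + B.length := List.length_append
  rw [rv_app_take (by omega)] at hV
  refine ⟨?_, hin, N, Z3, Y, h, q, r', a1, by omega, a3, hV⟩
  have := SA_drop hsa A.length
  rwa [List.drop_left'  rfl] at this

/-! ### near touches in the end part -/

lemma vx_take {t : List Bool} {i a : ℕ} (ha : a ≤ i) : vx oo up (t.take i) a = vx oo up t a := by
  rcases Nat.lt_or_ge t.length i with h | h
  · rw [List.take_of_length_le h.le]
  · have h1 : vx oo up (t.take i ++ t.drop i) a = vx oo up (t.take i) a := vx_append (by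
      rw [List.length_take]
      omega)
    rw [List.take_append_drop] at h1
    exact h1.symm

lemma nt_end {L : List Bool} {a s b : ℕ} {r R ρ : ℤ} (h1 : a ≤ s) (h2 : s ≤ b) (hb : b ≤ L.length) (ha : 1 ≤ a)
    (hE : ∀ s, a ≤ s → s ≤ L.length → dz L s ≤ ρ) (hn1 : hn (vx oo up L a - vx oo up L b) ≤ r)
    (hn2 : R ≤ hn (vx oo up L a - vx oo up L s)) : L ∈ EndEv (NTp r (R - r)) ρ := by
  obtain ⟨c, hc, hf⟩ := rv_vx L
  refine ⟨L.length - a, by omega, fun s hs hs' => hE s (by omega) hs', L.length - b, L.length - s, L.length - a,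
    by omega, by omega, ?_, ?_, ?_⟩
  · rw [List.length_take, rv_length]
    omega
  · rw [vx_take (by omega), vx_take le_rfl]
    have e : mulE c (vx oo up (rv L) (L.length - b) - vx oo up (rv L) (L.length - a)) = vx oo up L b - vx oo up L a := by
      have f1 := hf (L.length - b) (by omega)
      have f2 := hf (L.length - a) (by omega)
      rw [show L.length - (L.length - b) = b by omega] at f1
      rw [show L.length - (L.length - a) = a by omega] at f2
      rw [mulE_sub, f1, f2]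
      abel
    rw [← hn_mulE' hc, e, hn_sub_comm]
    exact hn1
  · rw [vx_take (by omega), vx_take (by omega)]
    have e : mulE c (vx oo up (rv L) (L.length - b) - vx oo up (rv L) (L.length - s)) = vx oo up L b - vx oo up L s := by
      have f1 := hf (L.length - b) (by omega)
      have f2 := hf (L.length - s) (by omega)
      rw [show L.length - (L.length - b) = b by omega] at f1
      rw [show L.length - (L.length - s) = s by omega] at f2
      rw [mulE_sub, f1, f2]
      abel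
    rw [← hn_mulE' hc, e]
    have h3 := hn_tri (vx oo up L a) (vx oo up L b) (vx oo up L s)
    linarith

/-! ### the start part -/

/-- words whose start part of radius ρ (seen from the vertex number 1) contains a word in VV -/
def StartEv (VV : Set (List Bool)) (ρ : ℤ) : Set (List Bool) :=
  {L | ∃ q, q + 2 ≤ L.length ∧ (∀ i, i ≤ q → hn (vx oo up (L.drop 1) i) ≤ ρ) ∧ (L.drop 1).take q ∈ VV}

lemma rev_drop_one' (Y : List Bool) : rev ((rev Y).drop 1) = Y.dropLast := by
  unfold rev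
  rw [List.map_drop, List.map_reverse, List.map_map]
  have h : ((not ∘ not) : Bool → Bool) = id := by
    funext x
    cases x <;> rfl
  rw [h, List.map_id, List.drop_one, List.tail_reverse, List.reverse_reverse]

lemma hn_drop1 (L : List Bool) (i k : ℕ) : hn (vx oo up (L.drop 1) i - vx oo up (L.drop 1) k) =
    hn (vx oo up L (i + 1) - vx oo up L (k + 1)) := by
  obtain ⟨c, hc, -, hf⟩ := drop_frame' L 1
  rw [add_comm i 1, add_comm k 1, hf i, hf k, add_sub_add_left_eq_sub, ← mulE_sub, hn_mulE' hc]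

lemma hn_drop1' (L : List Bool) (i : ℕ) : hn (vx oo up (L.drop 1) i) = hn (vx oo up L (i + 1) - vx oo up L 1) := by
  have h := hn_drop1 L i 0
  have h0 : vx oo up (L.drop 1) 0 = 0 := rfl
  rwa [h0, sub_zero, zero_add] at h

/-- **the start part is the end part of the reversed walk** -/
lemma start_rv {VV : Set (List Bool)} {ρ : ℤ} {L : List Bool} (h : L ∈ StartEv VV ρ) : rv L ∈ EndEv VV ρ := by
  obtain ⟨q, hq, hd, hV⟩ := h
  obtain ⟨c, hc, hf⟩ := rv_vx L
  have hl := rv_length L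
  refine ⟨q, by omega, fun s hs hs' => ?_, ?_⟩
  · rw [hl] at hs hs'
    have e : mulE c (vx oo up (rv L) s - vx oo up (rv L) (L.length - 1)) = vx oo up L (L.length - s) - vx oo up L 1 := by
      have f1 := hf s (by omega)
      have f2 := hf (L.length - 1) (by omega)
      rw [show L.length - (L.length - 1) = 1 by omega] at f2
      rw [mulE_sub, f1, f2]
      abel
    have h1 : dz (rv L) s = hn (vx oo up L (L.length - s) - vx oo up L 1) := by
      unfold dz TIW.en
      rw [hl, ← hn_mulE' hc, e]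
    rw [h1, show L.length - s = (L.length - 1 - s) + 1 by omega, ← hn_drop1']
    exact hd _ (by omega)
  · have e : (rv (rv L)).take q = (L.drop 1).take q := by
      have e1 : rv (rv L) = (L.dropLast).drop 1 := by
        show (rev ((rev L).drop 1)).drop 1 = _
        rw [rev_drop_one']
      rw [e1, List.dropLast_eq_take, List.drop_take, List.take_take, min_eq_left (by omega)]
    rw [e]
    exact hV

/-! ### windows and distances -/

/-- one of the ends of the high bridge in front is far from every point -/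
lemma Wn.far {κ : ℝ} {C b J : ℕ} {L X Z1 Z2 Z3 Y : List Bool} (hw : Wn κ C b J L X Z1 Z2 Z3 Y) :
    2 * (3 * 2 ^ (b + 1)) ≤ hn (vx oo up L X.length - vx oo up L (X ++ Z1).length) := by
  obtain ⟨c, hc, -, hf⟩ := drop_frame' L X.length
  have e : L.drop X.length = Z1 ++ (Z2 ++ (Z3 ++ Y)) := by
    rw [hw.eq, List.drop_left' rfl]
  rw [e] at hf
  have h1 := hf Z1.length
  have h2 : vx oo up (Z1 ++ (Z2 ++ (Z3 ++ Y))) Z1.length = vx oo up Z1 Z1.length := vx_append (by omega)
  rw [h2] at h1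
  have h3 : vx oo up L X.length - vx oo up L (X ++ Z1).length = mulE c (-(vx oo up Z1 Z1.length)) := by
    rw [List.length_append, h1, mulE_neg]
    abel
  rw [h3, hn_mulE' hc, hn_neg]
  have h4 := lev_le_hn Z1 Z1.length 0
  have h5 : vx oo up Z1 0 = 0 := rfl
  rw [h5, sub_zero, lev_z, (mem_Brd.1 (TIP.BU_hgt hw.b1)).2.2.2] at h4
  have h6 : ((2 ^ (b + 2) : ℕ) : ℤ) ≤ hgt Z1 := by exact_mod_cast hw.h1
  push_cast at h6
  have h7 : (2 : ℤ) ^ (b + 2) = 2 * 2 ^ (b + 1) := by ring
  linarith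

/-! ### a touch of the start part with the end part -/

lemma hn_of_Bl {x y : Pt} {D : ℕ} (h : x ∈ Bl y D) : hn (x - y) ≤ 3 * D := by
  refine hn_le_Bl ?_
  rw [mem_Bl] at h ⊢
  have e : (oo : Pt) = 0 := rfl
  rw [e]
  simp only [Prod.fst_sub, Prod.snd_sub, Prod.fst_zero, Prod.snd_zero]
  omega

lemma Bl_of_hn' {x y : Pt} {D : ℕ} (h : hn (x - y) ≤ D) : x ∈ Bl y D := by
  have h1 := Bl_of_hn h
  rw [mem_Bl] at h1 ⊢
  have e : (oo : Pt) = 0 := rfl
  rw [e] at h1
  simp only [Prod.fst_sub, Prod.snd_sub, Prod.fst_zero, Prod.snd_zero] at h1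
  omega

lemma hn_stepN (t : List Bool) (i : ℕ) : hn (vx oo up t i - vx oo up t (i + 1)) ≤ 2 := by
  rw [vx_succ, sub_add_cancel_left, hn_neg]
  have h : ∀ d ∈ dirs, hn d ≤ 2 := by decide
  exact h _ (dx_mem upd t i)

/-- the exit of the start part -/
lemma start_exit {κ : ℝ} {C b J : ℕ} {L X Z1 Z2 Z3 Y : List Bool} (hw : Wn κ C b J L X Z1 Z2 Z3 Y) {ρ : ℤ} (h2 : 2 ≤ ρ)
    (hρ : ρ < 3 * 2 ^ (b + 1)) : ∃ z, z + 2 ≤ (X ++ Z1).length ∧ (∀ i, i ≤ z → hn (vx oo up (L.drop 1) i) ≤ ρ) ∧
      ρ - 2 < hn (vx oo up (L.drop 1) z) := by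
  have hf := hw.far
  have hl : X.length ≤ (X ++ Z1).length := by
    rw [List.length_append]
    omega
  have hex : ∃ t, t ≤ (X ++ Z1).length ∧ ρ < hn (vx oo up L t - vx oo up L 1) := by
    rcases le_or_gt (hn (vx oo up L X.length - vx oo up L 1)) ρ with h | h
    · refine ⟨(X ++ Z1).length, le_rfl, ?_⟩
      have h3 := hn_tri (vx oo up L X.length) (vx oo up L 1) (vx oo up L (X ++ Z1).length)
      rw [hn_sub_comm (vx oo up L 1)] at h3
      linarith
    · exact ⟨X.length, hl, h⟩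
  obtain ⟨t, ht, htf⟩ := hex
  have ht1 : 1 ≤ t := by
    by_contra hc
    rw [show t = 0 by omega] at htf
    have := hn_stepN L 0
    rw [zero_add] at this
    linarith
  have hex2 : ∃ x, ρ < hn (vx oo up (L.drop 1) x) := ⟨t - 1, by
    rw [hn_drop1', show t - 1 + 1 = t by omega]
    exact htf⟩
  obtain ⟨x, hx⟩ : ∃ x, x = Nat.find hex2 := ⟨_, rfl⟩
  have hx1 : ρ < hn (vx oo up (L.drop 1) x) := by rw [hx]; exact Nat.find_spec hex2
  have hx2 : ∀ y, y < x → hn (vx oo up (L.drop 1) y) ≤ ρ := fun y hy => by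
    rw [hx] at hy
    exact not_lt.1 (Nat.find_min hex2 hy)
  have hxt : x ≤ t - 1 := by
    rw [hx]
    refine Nat.find_min' hex2 ?_
    rw [hn_drop1', show t - 1 + 1 = t by omega]
    exact htf
  have hx0 : 1 ≤ x := by
    by_contra hc
    rw [show x = 0 by omega] at hx1
    have h0 : hn (vx oo up (L.drop 1) 0) = 0 := by
      have : vx oo up (L.drop 1) 0 = oo := rfl
      rw [this]
      decide
    linarith
  refine ⟨x - 1, by omega, fun i hi => hx2 i (by omega), ?_⟩
  have h3 := hn_stepN (L.drop 1) (x - 1)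
  rw [show x - 1 + 1 = x by omega] at h3
  have h4 := hn_tri (vx oo up (L.drop 1) x) (vx oo up (L.drop 1) (x - 1)) 0
  rw [sub_zero, sub_zero, hn_sub_comm] at h4
  linarith

/-- irregular words at one of the scales -/
def IrS (S K : ℕ) (J n : ℕ → ℕ) : Set (List Bool) := {t | ∃ s, s < S ∧ Irg 6 8 (K - J s) (n s) t}

/-- a touch of the start part and the end part -/
def MEv (i : ℕ) (r : ℤ) : Set (List Bool) :=
  {L | ∃ a b, a ≤ b ∧ b ≤ L.length ∧ hn (vx oo up L a - vx oo up L b) ≤ r ∧ tS L i a ∧ tE L i b}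

/-- **the near touch seen from the cuts** -/
theorem near_M {κ : ℝ} {C b J : ℕ} {L X Z1 Z2 Z3 Y : List Bool} (hw : Wn κ C b J L X Z1 Z2 Z3 Y) {η : ℝ} {c k i d S K : ℕ}
    {J' n R : ℕ → ℕ} {r : ℤ} {M N : List Bool} (hc : c ≤ L.length) (hZ : Z2 = M ++ N) (hM : M ∈ BU)
    (htk : L.take c = X ++ (Z1 ++ M)) (hdr : L.drop c = N ++ (Z3 ++ Y)) (hk : k ≤ N.length) (hk1 : N.take k ∈ BU)
    (hk2 : N.drop k ∈ BU) (hk3 : η * Ub b ≤ (nc (N.drop k) : ℝ)) (hi : i + 5 ≤ b) (hd : r + 2 ≤ d)
    (hS : ∀ s, s < S → 6 ≤ K - J' s ∧ 107 ≤ n s ∧ R s = 3 * n s * 2 ^ (K - J' s) ∧ R s ≤ 2 ^ i) (hL : L ∈ MEv i r)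
    (hreg : L ∉ StartEv (IrS S K J' n) (2 ^ (i + 3))) :
    NearQ S d (fun s => 2 ^ (K - J' s)) R (c - 1) (c - 1 + k) (L.drop 1) := by
  obtain ⟨a, b', hab, hb', hnr, ⟨ha, hSa⟩, -, hEb⟩ := hL
  have hp : (1 : ℤ) ≤ 2 ^ i := one_le_pow₀ (by norm_num)
  have hp2 : (2 : ℤ) ^ (i + 5) ≤ 2 ^ b := pow_le_pow_right₀ (by norm_num) hi
  have e5 : (2 : ℤ) ^ (i + 5) = 32 * 2 ^ i := by ring
  have e3 : (2 : ℤ) ^ (i + 3) = 8 * 2 ^ i := by ring
  have eb : (2 : ℤ) ^ (b + 1) = 2 * 2 ^ b := by ring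
  obtain ⟨z, hz1, hz2, hz3⟩ := start_exit hw (ρ := 2 ^ (i + 3)) (by linarith) (by linarith)
  have hcl : (X ++ Z1).length ≤ c := by
    have := congrArg List.length htk
    rw [List.length_take, min_eq_left hc] at this
    rw [this]
    simp only [List.length_append]
    omega
  -- the vertex in the start part
  have hz4 : ¬ (L.drop 1).take z ∈ IrS S K J' n := fun h => hreg ⟨z, by omega, hz2, h⟩
  have hLa : hn (vx oo up (L.drop 1) (a - 1)) ≤ 2 * 2 ^ i := by
    rw [hn_drop1']
    rcases Nat.eq_zero_or_pos a with h | h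
    · rw [h]
      have : vx oo up L (0 - 1 + 1) - vx oo up L 1 = 0 := sub_self _
      rw [this]
      have : hn (0 : Pt) = 0 := by decide
      linarith
    · have h1 := hn_dz L (a - 1 + 1) 1
      have h2 := hSa (a - 1 + 1) (by omega)
      have h3 := hSa 1 h
      linarith
  have haz : a - 1 ≤ z := by
    by_contra hcon
    have h1 := hn_drop1' L z
    have h2 := hn_dz L (z + 1) 1
    have h3 := hSa (z + 1) (by omega)
    have h4 := hSa 1 (by omega)
    linarith
  have hzf : 3 * 2 ^ i < hn (vx oo up (L.drop 1) z - vx oo up (L.drop 1) (a - 1)) := by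
    have h1 := hn_tri (vx oo up (L.drop 1) z) (vx oo up (L.drop 1) (a - 1)) 0
    rw [sub_zero, sub_zero] at h1
    linarith
  -- the end part
  have hN : N ∈ BU := by
    have := TIP.BU_app hk1 hk2
    rwa [List.take_append_drop] at this
  have hBe : L.take (c + k) ++ (N.drop k ++ (Z3 ++ Y)) = L := by
    have h1 : L.drop (c + k) = N.drop k ++ (Z3 ++ Y) := by
      rw [← List.drop_drop, hdr, List.drop_append_of_le_length hk]
    rw [← h1, List.take_append_drop]
  have hck : c + k ≤ L.length := by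
    have := congrArg List.length hdr
    rw [List.length_drop, List.length_append] at this
    omega
  have htl : (L.take (c + k)).length = c + k := by
    rw [List.length_take]
    omega
  have hhZ : hgt (N.drop k) ≤ 2 ^ b := by
    have h1 := TIP.hgt_app hk1 hk2
    rw [List.take_append_drop] at h1
    have h2 := TIP.hgt_app hM hN
    rw [← hZ] at h2
    have := hw.h2
    omega
  have hY : YCp η b (N.drop k ++ (Z3 ++ Y)) (N.drop k) Z3 Y := ⟨rfl, hw.ne, hk2, hw.b3, hhZ, hw.h3, hk3⟩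
  obtain ⟨u, u', hu, hul, hu1, hu2, hu3⟩ := end_cut (A := L.take (c + k)) hY (a := b') (ρ := 2 ^ i) (by linarith)
    (by rw [hBe]; exact hb') (by rw [hBe]; exact hEb)
  rw [htl] at hu
  -- a vertex far from the touch
  have hfr : ∀ e' e'', hn (vx oo up L (c + k + e') - vx oo up L (c + k + e'')) =
      hn (vx oo up (N.drop k ++ (Z3 ++ Y)) e' - vx oo up (N.drop k ++ (Z3 ++ Y)) e'') := by
    intro e' e''
    obtain ⟨w, hwd, -, hf⟩ := drop_frame' L (c + k)
    have h1 : L.drop (c + k) = N.drop k ++ (Z3 ++ Y) := by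
      rw [← List.drop_drop, hdr, List.drop_append_of_le_length hk]
    rw [h1] at hf
    rw [hf, hf, add_sub_add_left_eq_sub, ← mulE_sub, hn_mulE' hwd]
  have hexe : ∃ e', e' ≤ u ∧ 3 * 2 ^ i < hn (vx oo up L (c + k + e') - vx oo up L (c + k + u)) := by
    by_contra hcon
    push Not at hcon
    have h1 := hcon 0 (Nat.zero_le _)
    have h2 := hcon u' hu2
    rw [hfr] at h1 h2
    have h3 := lev_le_hn (N.drop k ++ (Z3 ++ Y)) u' 0
    rw [lev_z] at h3
    have h4 := hn_tri (vx oo up (N.drop k ++ (Z3 ++ Y)) u') (vx oo up (N.drop k ++ (Z3 ++ Y)) u)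
      (vx oo up (N.drop k ++ (Z3 ++ Y)) 0)
    rw [hn_sub_comm (vx oo up (N.drop k ++ (Z3 ++ Y)) u)] at h4
    linarith
  obtain ⟨e', he', hfar⟩ := hexe
  have hc1 : 1 ≤ c := by omega
  have hL1 : (L.drop 1).length = L.length - 1 := List.length_drop
  refine ⟨a - 1, z, c - 1 + k + e', b' - 1, haz, by omega, by omega, by omega, by omega, ?_, fun s hs => ?_, fun s hs => ?_,
    fun s hs => ?_⟩
  · refine Bl_of_hn' ?_
    rw [hn_drop1, show b' - 1 + 1 = b' by omega]
    have h1 : hn (vx oo up L (a - 1 + 1) - vx oo up L a) ≤ 2 := by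
      rcases Nat.eq_zero_or_pos a with h | h
      · rw [h, hn_sub_comm]
        exact hn_stepN L 0
      · rw [show a - 1 + 1 = a by omega, sub_self]
        decide
    have h2 := hn_tri (vx oo up L (a - 1 + 1)) (vx oo up L a) (vx oo up L b')
    linarith
  · intro hcon
    have h1 := hn_of_Bl hcon
    have h2 : ((R s : ℕ) : ℤ) ≤ 2 ^ i := by exact_mod_cast (hS s hs).2.2.2
    linarith
  · intro hcon
    have h1 := hn_of_Bl hcon
    rw [hn_drop1, show c - 1 + k + e' + 1 = c + k + e' by omega, show b' - 1 + 1 = c + k + u by omega] at h1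
    have h2 : ((R s : ℕ) : ℤ) ≤ 2 ^ i := by exact_mod_cast (hS s hs).2.2.2
    linarith
  · obtain ⟨s1, s2, s3, s4⟩ := hS s hs
    have hI : ¬ Irg 6 8 (K - J' s) (n s) ((L.drop 1).take z) := fun h => hz4 ⟨s, hs, h⟩
    have hzl : ((L.drop 1).take z).length = z := by
      rw [List.length_take]
      omega
    have hg := good_of_irg (t := (L.drop 1).take z) (r := K - J' s) (n := n s) (R := R s) (i := a - 1) (z := z) (N := z)
      s1 s3.ge (by
        rw [s3]
        exact Nat.mul_le_mul_right _ (by omega)) hI haz (by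
        rw [vx_take le_rfl, vx_take haz]
        intro hcon
        have h1 := hn_of_Bl hcon
        have h2 : ((R s : ℕ) : ℤ) ≤ 2 ^ i := by exact_mod_cast s4
        linarith) le_rfl hzl.ge
    rw [vx_take haz] at hg
    exact hg.congr fun k hk => vx_take hk

end ARM

end HexObs
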