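import Pool.Agent.ARM.NtE
import Pool.Agent.SIM.FinA

/-!
ARM, row Q (helper65): **near touches in the class F have little mass**: the assembly.
-/

set_option autoImplicit false

namespace HexObs

namespace ARM

open Finset TS SDN NTW NTA HexObs.SIM TIP TIP.Nf TIW

open scoped ENNReal

/-! ### monotonicity -/

lemma EndEv_mono {V V' : Set (List Bool)} {ρ ρ' : ℤ} (h : V ⊆ V') (hρ : ρ ≤ ρ') : EndEv V ρ ⊆ EndEv V' ρ' := by
  rintro L ⟨q, h1, h2, h3⟩
  exact ⟨q, h1, fun s hs hs' => (h2 s hs hs').trans hρ, h h3⟩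

lemma StartEv_mono {V V' : Set (List Bool)} {ρ ρ' : ℤ} (h : V ⊆ V') (hρ : ρ ≤ ρ') : StartEv V ρ ⊆ StartEv V' ρ' := by
  rintro L ⟨q, h1, h2, h3⟩
  exact ⟨q, h1, fun i hi => (h2 i hi).trans hρ, h h3⟩

lemma NTp_mono {r r' R R' : ℤ} (hr : r ≤ r') (hR : R' ≤ R) : NTp r R ⊆ NTp r' R' := by
  rintro t ⟨a, s, b, h1, h2, h3, h4, h5⟩
  exact ⟨a, s, b, h1, h2, h3, h4.trans hr, hR.trans h5⟩

lemma NTp_app {r R : ℤ} {V W : List Bool} (h : V ∈ NTp r R) : V ++ W ∈ NTp r R := by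
  obtain ⟨a, s, b, h1, h2, h3, h4, h5⟩ := h
  refine ⟨a, s, b, h1, h2, by rw [List.length_append]; omega, ?_, ?_⟩
  · rwa [vx_append (by omega), vx_append (by omega)]
  · rwa [vx_append (by omega), vx_append (by omega)]

lemma Irg_app {A B : ℤ} {r n : ℕ} {V W : List Bool} (h : Irg A B r n V) : Irg A B r n (V ++ W) := by
  obtain ⟨dir, i, z, h1, h2, h3, h4⟩ := h
  have e1 : ∀ k, k ≤ V.length → SIM.lp dir (V ++ W) k = SIM.lp dir V k := fun k hk => by
    unfold SIM.lp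
    rw [vx_append (by omega)]
  have e2 : ∀ k, k ≤ V.length → lq dir (V ++ W) k = lq dir V k := fun k hk => by
    unfold lq
    rw [vx_append (by omega)]
  refine ⟨dir, i, z, h1, by rw [List.length_append]; omega, by rw [e1 z h2, e1 i (by omega)]; exact h3, ?_⟩
  rcases h4 with h4 | h4
  · left
    rintro a b ha hb ⟨g1, g2, g3⟩
    refine h4 a b ha hb ⟨g1, by rwa [e1 b (by omega), e1 a (by omega)] at g2, fun k l k1 k2 l1 l2 => ?_⟩
    have := g3 k l k1 k2 l1 l2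
    rwa [e2 k (by omega), e2 l (by omega)] at this
  · right
    rintro a b ha hb ⟨g1, g2, g3⟩
    refine h4 a b ha hb ⟨g1, by rwa [e2 b (by omega), e2 a (by omega)] at g2, fun k l k1 k2 l1 l2 => ?_⟩
    have := g3 k l k1 k2 l1 l2
    rwa [e1 k (by omega), e1 l (by omega)] at this

/-! ### the cases -/

/-- **the three kinds of near touches** -/
lemma nts_cases {κ : ℝ} {C b J c i : ℕ} {r R : ℤ} {L : List Bool} (hW : L ∈ Win κ C b J) (hib : i ≤ b) (hr : 0 ≤ r)
    (hR : 0 < R) (hL : L ∈ NTs c i r R) : L ∈ EndEv (NTp (r + 2) (R - r - 2)) (2 ^ (i + 3)) ∨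
      L ∈ StartEv (NTp (r + 2) (R - r - 2)) (2 ^ (i + 3)) ∨ L ∈ MEv i r := by
  obtain ⟨X, Z1, Z2, Z3, Y, hw⟩ := hW
  have hfar := hw.far
  have hp : (1 : ℤ) ≤ 2 ^ i := one_le_pow₀ (by norm_num)
  have hpb : (2 : ℤ) ^ i ≤ 2 ^ b := pow_le_pow_right₀ (by norm_num) hib
  have eb : (2 : ℤ) ^ (b + 1) = 2 * 2 ^ b := by ring
  have e3 : (2 : ℤ) ^ (i + 3) = 8 * 2 ^ i := by ring
  have hl1 : X.length ≤ L.length := by
    rw [hw.eq]
    simp only [List.length_append]
    omega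
  have hl2 : (X ++ Z1).length ≤ L.length := by
    rw [hw.eq]
    simp only [List.length_append]
    omega
  have hall : ¬ ∀ s, s ≤ L.length → dz L s ≤ 2 ^ i := by
    intro h
    have h1 := h _ hl1
    have h2 := h _ hl2
    have h3 := hn_dz L X.length (X ++ Z1).length
    linarith
  obtain ⟨a, b', hab, hb, -, -, hnr, hcase⟩ := hL
  rcases hcase with ⟨hES, s, hs1, hs2, hsR⟩ | ⟨hS, hE, -⟩
  · rcases hES with ⟨-, hE⟩ | ⟨-, hS⟩
    · left
      have ha : 1 ≤ a := by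
        by_contra hc
        exact hall fun s hs => hE s (by omega) hs
      exact EndEv_mono (NTp_mono (by linarith) (by linarith)) (by linarith)
        (nt_end hs1 hs2 hb ha hE hnr hsR)
    · right
      left
      have hbl : b' + 1 ≤ L.length := by
        by_contra hc
        exact hall fun s hs => hS s (by omega)
      have hs0 : 1 ≤ s := by
        by_contra hc
        rw [show s = 0 by omega, show a = 0 by omega, sub_self] at hsR
        have : hn (0 : Pt) = 0 := by decide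
        linarith
      have h1 : hn (vx oo up L (a - 1 + 1) - vx oo up L a) ≤ 2 := by
        rcases Nat.eq_zero_or_pos a with h | h
        · rw [h, hn_sub_comm]
          exact hn_stepN L 0
        · rw [show a - 1 + 1 = a by omega, sub_self]
          decide
      refine ⟨b' - 1, by omega, fun k hk => ?_, a - 1, s - 1, b' - 1, by omega, by omega, ?_, ?_, ?_⟩
      · rw [hn_drop1']
        have h2 := hn_dz L (k + 1) 1
        have h3 := hS (k + 1) (by omega)
        have h4 := hS 1 (by omega)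
        linarith
      · rw [List.length_take, List.length_drop]
        omega
      · rw [vx_take (by omega), vx_take le_rfl, hn_drop1, show b' - 1 + 1 = b' by omega]
        have h2 := hn_tri (vx oo up L (a - 1 + 1)) (vx oo up L a) (vx oo up L b')
        linarith
      · rw [vx_take (by omega), vx_take (by omega), hn_drop1, show s - 1 + 1 = s by omega]
        have h2 := hn_tri (vx oo up L a) (vx oo up L (a - 1 + 1)) (vx oo up L s)
        rw [hn_sub_comm (vx oo up L a) (vx oo up L (a - 1 + 1))] at h2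
        linarith
  · right
    right
    exact ⟨a, b', hab, hb, hnr, hS, hE⟩

/-! ### numbers -/

lemma radQ {K : ℕ} {J n : ℕ → ℕ} (hJ : ∀ s, J s < J (s + 1)) (hn : ∀ s, 107 ≤ n s)
    (h : ∀ s, 240 * n (s + 1) ≤ 2 ^ (J (s + 1) - J s)) : ∀ s, J s ≤ K →
    3 * n s * 2 ^ (K - J s) ≤ 3 * n 0 * 2 ^ (K - J 0) ∧ (1 ≤ s → 80 * (3 * n s * 2 ^ (K - J s)) ≤ 2 ^ (K - J (s - 1))) := by
  intro s
  induction s with
  | zero => exact fun _ => ⟨le_rfl, fun h => absurd h (by norm_num)⟩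
  | succ s ih =>
    intro hs
    have h1 := hJ s
    obtain ⟨ih1, -⟩ := ih (by omega)
    have h2 : 80 * (3 * n (s + 1) * 2 ^ (K - J (s + 1))) ≤ 2 ^ (K - J s) := by
      calc 80 * (3 * n (s + 1) * 2 ^ (K - J (s + 1))) = (240 * n (s + 1)) * 2 ^ (K - J (s + 1)) := by ring
        _ ≤ 2 ^ (J (s + 1) - J s) * 2 ^ (K - J (s + 1)) := Nat.mul_le_mul_right _ (h s)
        _ = 2 ^ (K - J s) := by rw [← pow_add]; congr 1; omega
    refine ⟨?_, fun _ => h2⟩
    have h3 : 2 ^ (K - J s) ≤ 3 * n s * 2 ^ (K - J s) := Nat.le_mul_of_pos_left _ (by have := hn s; omega)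
    omega

/-- the plain bound of the bad words -/
lemma plain_VV {r R : ℤ} {S K e k : ℕ} {J m : ℕ → ℕ} {δ : ℝ} (hδ : 0 ≤ δ) (hr : r ≤ 2 ^ (K - e)) (hR : 2 ^ (K - k) ≤ R)
    (h1 : gf {t | t ∈ WL K ∧ t ∈ NTp (2 ^ (K - e)) (2 ^ (K - k))} ≤ ENNReal.ofReal (δ * Ub K) * Xb K ^ 2)
    (h2 : gf (OffR S J m K) ≤ ENNReal.ofReal (δ * Ub K) * Xb K ^ 2) :
    gf {w | w ∈ WL K ∧ ∃ V ∈ NTp r R ∪ IrS S K J m, ∃ W, w = V ++ W} ≤ ENNReal.ofReal (2 * δ * Ub K) * Xb K ^ 2 := by
  have hU := Ub_pos K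
  have hsub : {w | w ∈ WL K ∧ ∃ V ∈ NTp r R ∪ IrS S K J m, ∃ W, w = V ++ W} ⊆
      {t | t ∈ WL K ∧ t ∈ NTp (2 ^ (K - e)) (2 ^ (K - k))} ∪ OffR S J m K := by
    rintro w ⟨hw, V, hV | ⟨s, hs, hI⟩, W, rfl⟩
    · exact Or.inl ⟨hw, NTp_app (NTp_mono hr hR hV)⟩
    · exact Or.inr ⟨hw, s, hs, Irg_app hI⟩
  refine (gf_mono hsub).trans ((gf_union_le _ _).trans ((add_le_add h1 h2).trans (le_of_eq ?_)))
  rw [← add_mul, ← ENNReal.ofReal_add (by positivity) (by positivity)]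
  congr 2
  ring

end ARM

end HexObs
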