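import Pool.Agent.ARM.NtQ

/-!
ARM, row Q (helper65): **`ntSt_of : ExF → YMassJ → NWin κ C → YNSt → PlNt → NtSt`**.
-/

set_option autoImplicit false

namespace HexObs

namespace ARM

open Finset TS SDN NTW NTA HexObs.SIM TIP TIP.Nf TIW

open scoped ENNReal

/-- **row Q** -/
theorem ntSt_of {κ : ℝ} {C : ℕ} (hκ : 0 < κ) (hE : ExF) (hM : YMassJ) (hN : NWin κ C) (hY : YNSt) (hPl : PlNt) : NtSt := by
  intro u c k ε _ hε
  have hκ2 : 0 < κ / 2 := by positivity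
  -- the windows
  obtain ⟨ε1, hε1d⟩ : ∃ ε1 : ℝ, ε1 = ε / (40 * 16 ^ (u + 6)) := ⟨_, rfl⟩
  have hε1 : 0 < ε1 := by rw [hε1d]; positivity
  obtain ⟨J0, hwin⟩ := win_of hκ hN ε1 hε1
  obtain ⟨J, hJd⟩ : ∃ J, J = J0 + 6 * (2 * C) := ⟨_, rfl⟩
  have hCJ : 6 * (2 * C) ≤ 2 ^ J := by
    have h1 := (Nat.lt_two_pow_self (n := J)).le
    omega
  obtain ⟨b1, hwin1⟩ := hwin J (u + 5) (by omega)
  obtain ⟨b1', hwin2⟩ := hwin J (u + 4) (by omega)
  obtain ⟨g, hg⟩ : ∃ g, g = u + 5 + (J + 1) + 6 := ⟨_, rfl⟩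
  obtain ⟨G, hG⟩ : ∃ G : ℝ, G = 16 ^ (u + 5 + (J + 1)) := ⟨_, rfl⟩
  have hG0 : 0 < G := by rw [hG]; positivity
  -- the masses
  obtain ⟨K1, b2, hK1, hend⟩ := endEv_mass hE hM hκ2
  have hK10 : 0 < K1 := by linarith
  obtain ⟨δ, hδd⟩ : ∃ δ : ℝ, δ = (ε / (80 * K1 * G)) ^ 2 / K1 ^ (J + 2) / 2 := ⟨_, rfl⟩
  have hδ : 0 < δ := by rw [hδd]; positivity
  have hδK : K1 * Real.sqrt (K1 ^ (J + 2) * (2 * δ)) = ε / (80 * G) := by
    have e1 : K1 ^ (J + 2) * (2 * δ) = (ε / (80 * K1 * G)) ^ 2 := by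
      rw [hδd]
      field_simp
    rw [e1, Real.sqrt_sq (by positivity)]
    field_simp
  obtain ⟨M, b3, hM0, hme⟩ := mEv_mass hE hM hY hκ2 (2 * C) J hCJ (ε / (5 * G)) (by positivity)
  -- the plain bound
  obtain ⟨k', hk'⟩ : ∃ k', k' = k + 1 + g := ⟨_, rfl⟩
  obtain ⟨e', K0, hke, heK, hpl⟩ := hPl k' δ hδ
  obtain ⟨e1, he1⟩ : ∃ e1 : ℝ, e1 = min δ (1 / 2 ^ g) := ⟨_, rfl⟩
  have he10 : 0 < e1 := by rw [he1]; exact lt_min hδ (by positivity)
  have he1δ : e1 ≤ δ := by rw [he1]; exact min_le_left _ _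
  have he1g : e1 ≤ 1 / 2 ^ g := by rw [he1]; exact min_le_right _ _
  obtain ⟨S, J', m, K0', hS0, -, hm, hJ', h240, hr0, hMs, hK0', hoff⟩ := reg_off (e := e1) (M := M) he10 0
  have hJmono : ∀ s, s ≤ S → J' s ≤ J' S := fun s hs => (strictMono_nat_of_lt_succ hJ').monotone hs
  obtain ⟨e, he⟩ : ∃ e, e = e' + J' S + k + 3 := ⟨_, rfl⟩
  obtain ⟨b0, hb0⟩ : ∃ b0, b0 = b1 + b1' + b2 + b3 + K0 + K0' + e + 8 := ⟨_, rfl⟩
  refine ⟨e, b0, by omega, by omega, fun D n j hD hF hj hn => ?_⟩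
  have hp := pr_nonneg n j
  have hml := one_le_ml j
  obtain ⟨b, hb⟩ : ∃ b, b = j + (u + 5) := ⟨_, rfl⟩
  have hb' : j + 1 + (u + 4) = b := by omega
  obtain ⟨K, hK⟩ : ∃ K, K = b + (J + 1) + 6 := ⟨_, rfl⟩
  have hKg : K = j + g := by omega
  -- the length
  have hnb : (2 : ℝ) ^ b0 ≤ n := by
    have h1 : (2 : ℝ) ^ b0 * 1 ≤ 2 ^ b0 * ml j := mul_le_mul_of_nonneg_left hml (by positivity)
    linarith
  have hn2 : 2 ≤ n := by
    have h1 : (2 : ℝ) ^ 1 ≤ 2 ^ b0 := pow_le_pow_right₀ (by norm_num) (by omega)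
    have h2 : ((2 : ℕ) : ℝ) ≤ n := by push_cast; linarith
    exact_mod_cast h2
  have hn1 : 2 ^ b1 * ml j ≤ n := by
    refine le_trans (mul_le_mul_of_nonneg_right ?_ (by linarith)) hn
    exact pow_le_pow_right₀ (by norm_num) (by omega)
  have hn1' : 2 ^ b1' * ml (j + 1) ≤ ((n - 1 : ℕ) : ℝ) := by
    have h1 : ml (j + 1) ≤ 4 * ml j := by
      rw [ml_add]
      refine mul_le_mul_of_nonneg_right ?_ (by linarith)
      calc (2 : ℝ) ^ ((4 / 3 : ℝ) * ((1 : ℕ) : ℝ)) ≤ 2 ^ (2 : ℝ) := by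
            refine Real.rpow_le_rpow_of_exponent_le (by norm_num) ?_
            norm_num
        _ = 4 := by
            rw [show (2 : ℝ) = ((2 : ℕ) : ℝ) by norm_num, Real.rpow_natCast]
            norm_num
    have h2 : (n : ℝ) ≤ 2 * ((n - 1 : ℕ) : ℝ) := by
      have : n ≤ 2 * (n - 1) := by omega
      exact_mod_cast this
    have h3 : (2 : ℝ) ^ (b1' + 3) * ml j ≤ n := by
      refine le_trans (mul_le_mul_of_nonneg_right ?_ (by linarith)) hn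
      exact pow_le_pow_right₀ (by norm_num) (by omega)
    have h4 : (2 : ℝ) ^ b1' * ml (j + 1) ≤ 2 ^ b1' * (4 * ml j) := mul_le_mul_of_nonneg_left h1 (by positivity)
    have h5 : (2 : ℝ) ^ (b1' + 3) = 8 * 2 ^ b1' := by ring
    rw [h5] at h3
    nlinarith
  have hF' : HF D (n - 1) (j + 1) := fun n' i hn' hi => hF n' i (by omega) (by omega)
  -- powers
  have hpw : ∀ a a' : ℕ, a ≤ a' → (2 : ℤ) ^ a ≤ 2 ^ a' := fun a a' h => pow_le_pow_right₀ (by norm_num) h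
  obtain ⟨r, hr⟩ : ∃ r : ℤ, r = 2 ^ (j - e) := ⟨_, rfl⟩
  obtain ⟨R0, hR0⟩ : ∃ R0 : ℤ, R0 = 2 ^ (j - k) := ⟨_, rfl⟩
  have hrp : 1 ≤ r := by rw [hr]; exact one_le_pow₀ (by norm_num)
  have hrK : r + 2 ≤ 2 ^ (K - e') := by
    have h1 := hpw (j - e) (j - e' - 1) (by omega)
    have h2 := hpw 1 (j - e' - 1) (by omega)
    have h3 := hpw (j - e') (K - e') (by omega)
    have h4 : (2 : ℤ) ^ (j - e') = 2 * 2 ^ (j - e' - 1) := by
      rw [← pow_succ']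
      congr 1
      omega
    rw [hr]
    linarith
  have hRk : 2 ^ (K - k') ≤ R0 - r - 2 := by
    have h1 := hpw (j - e) (j - k - 3) (by omega)
    have h2 := hpw 1 (j - k - 3) (by omega)
    have h3 : K - k' = j - k - 1 := by omega
    have h4 : (2 : ℤ) ^ (j - k) = 8 * 2 ^ (j - k - 3) := by
      rw [show (8 : ℤ) = 2 ^ 3 by norm_num, ← pow_add]
      congr 1
      omega
    have h5 : (2 : ℤ) ^ (j - k - 1) = 4 * 2 ^ (j - k - 3) := by
      rw [show (4 : ℤ) = 2 ^ 2 by norm_num, ← pow_add]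
      congr 1
      omega
    rw [h3, h5, hR0, h4, hr]
    linarith
  have hR0p : 0 < R0 := by
    rw [hR0]
    positivity
  -- the bad words
  obtain ⟨VV, hVVd⟩ : ∃ VV : Set (List Bool), VV = NTp (r + 2) (R0 - r - 2) ∪ IrS S K J' m := ⟨_, rfl⟩
  have hVV : gf {w | w ∈ WL K ∧ ∃ V ∈ VV, ∃ W, w = V ++ W} ≤ ENNReal.ofReal (2 * δ * Ub K) * Xb K ^ 2 := by
    rw [hVVd]
    refine plain_VV hδ.le hrK hRk (hpl K (by omega)) ((hoff K (by omega)).trans ?_)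
    refine mul_le_mul_left (ENNReal.ofReal_le_ofReal ?_) _
    exact mul_le_mul_of_nonneg_right he1δ (Ub_pos K).le
  rw [hK] at hVV
  obtain ⟨ρ, hρ⟩ : ∃ ρ : ℤ, ρ = 2 ^ (j + u + 3) := ⟨_, rfl⟩
  have hρb : 2 * ρ + 2 ≤ 3 * 2 ^ (b + 1) := by
    have h1 : (2 : ℤ) ^ (b + 1) = 8 * 2 ^ (j + u + 3) := by
      rw [show (8 : ℤ) = 2 ^ 3 by norm_num, ← pow_add]
      congr 1
      omega
    have h2 : (1 : ℤ) ≤ 2 ^ (j + u + 3) := one_le_pow₀ (by norm_num)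
    rw [h1, hρ]
    linarith
  -- the radii
  obtain ⟨R, hR⟩ : ∃ R : ℕ → ℕ, R = fun s => 3 * m s * 2 ^ (K - J' s) := ⟨_, rfl⟩
  have hJK : ∀ s, s ≤ S → J' s + 6 ≤ K := fun s hs => by have := hJmono s hs; omega
  have hR0i : 3 * m 0 * 2 ^ (K - J' 0) ≤ 2 ^ (j + u) := by
    have h1 : 3 * (m 0 : ℝ) ≤ 1 / 2 ^ g * 2 ^ J' 0 := hr0.trans (mul_le_mul_of_nonneg_right he1g (by positivity))
    have h2 : 3 * m 0 * 2 ^ g ≤ 2 ^ J' 0 := by
      have h3 : 3 * (m 0 : ℝ) * 2 ^ g ≤ 2 ^ J' 0 := by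
        calc 3 * (m 0 : ℝ) * 2 ^ g ≤ (1 / 2 ^ g * 2 ^ J' 0) * 2 ^ g :=
              mul_le_mul_of_nonneg_right h1 (by positivity)
          _ = 2 ^ J' 0 := by field_simp
      exact_mod_cast h3
    have h4 : 3 * m 0 * 2 ^ (K - J' 0) * 2 ^ g ≤ 2 ^ j * 2 ^ g := by
      calc 3 * m 0 * 2 ^ (K - J' 0) * 2 ^ g = (3 * m 0 * 2 ^ g) * 2 ^ (K - J' 0) := by ring
        _ ≤ 2 ^ J' 0 * 2 ^ (K - J' 0) := Nat.mul_le_mul_right _ h2
        _ = 2 ^ j * 2 ^ g := by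
          rw [← pow_add, ← pow_add]
          congr 1
          have := hJK 0 (Nat.zero_le _)
          omega
    have h5 := Nat.le_of_mul_le_mul_right h4 (by positivity)
    exact h5.trans (Nat.pow_le_pow_right (by norm_num) (by omega))
  have hRi : ∀ s, s < S → R s ≤ 2 ^ (j + u) := fun s hs => by
    have h1 := (radQ (K := K) hJ' hm h240 s (by have := hJK s hs.le; omega)).1
    rw [hR]
    exact h1.trans hR0i
  obtain ⟨d, hd⟩ : ∃ d : ℕ, d = 2 ^ (j - e) + 2 := ⟨_, rfl⟩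
  have hdR : ∀ s, s < S → d ≤ R s := fun s hs => by
    have h1 : 2 ^ (j - e) ≤ 2 ^ (j - J' S - 1) := Nat.pow_le_pow_right (by norm_num) (by omega)
    have h2 : 2 ^ 1 ≤ 2 ^ (j - J' S - 1) := Nat.pow_le_pow_right (by norm_num) (by omega)
    have h3 : 2 ^ (j - J' S) = 2 * 2 ^ (j - J' S - 1) := by
      rw [← pow_succ']
      congr 1
      omega
    have h4 : 2 ^ (j - J' S) ≤ 2 ^ (K - J' s) := Nat.pow_le_pow_right (by norm_num) (by have := hJmono s hs.le; omega)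
    have h5 : 2 ^ (K - J' s) ≤ 3 * m s * 2 ^ (K - J' s) := Nat.le_mul_of_pos_left _ (by have := hm s; omega)
    rw [hR, hd]
    show 2 ^ (j - e) + 2 ≤ 3 * m s * 2 ^ (K - J' s)
    omega
  have hrd : r + 2 ≤ d := by
    rw [hr, hd]
    push_cast
    exact le_rfl
  have hRs : ∀ s, s + 1 < S → 80 * R (s + 1) ≤ 2 ^ (K - J' s) := fun s hs => by
    have h2 := (radQ (K := K) hJ' hm h240 (s + 1) (by have := hJK (s + 1) hs.le; omega)).2 (by omega)
    rw [hR]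
    exact h2
  have hsum : M ≤ ∑ s ∈ range S, ((2 ^ (K - J' s) : ℕ) : ℝ) / R s := by
    refine hMs.trans (le_of_eq (Finset.sum_congr rfl fun s _ => ?_))
    have h1 : (0 : ℝ) < m s := by
      have := hm s
      exact_mod_cast (by omega : 0 < m s)
    rw [hR]
    push_cast
    field_simp
  -- the covering
  obtain ⟨W, hW⟩ : ∃ W : Set (List Bool), W = Win (κ / 2) (2 * C) b J := ⟨_, rfl⟩
  obtain ⟨T1, hT1⟩ : ∃ T1 : Set (List Bool), T1 = {L | L ∈ Fp n j ∧ L ∉ W} := ⟨_, rfl⟩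
  obtain ⟨T2, hT2⟩ : ∃ T2 : Set (List Bool), T2 = {L | L ∈ Fp n j ∧ L ∈ W ∧ L ∈ EndEv VV ρ} := ⟨_, rfl⟩
  obtain ⟨T3, hT3⟩ : ∃ T3 : Set (List Bool), T3 = {L | L ∈ F n (j + 1) ∧ rv L ∈ Wᶜ} := ⟨_, rfl⟩
  obtain ⟨T4, hT4⟩ : ∃ T4 : Set (List Bool), T4 = {L | L ∈ F n (j + 1) ∧ rv L ∈ W ∩ EndEv VV ρ} := ⟨_, rfl⟩
  obtain ⟨T5, hT5⟩ : ∃ T5 : Set (List Bool), T5 = {L | L ∈ Fp n j ∧ L ∈ W ∧ L ∈ MEv (j + u) r ∧
    L ∉ StartEv (IrS S K J' m) (2 ^ (j + u + 3))} := ⟨_, rfl⟩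
  have hcov : {L | L ∈ Fp n j ∧ L ∈ NTs (j + c) (j + u) (2 ^ (j - e)) (2 ^ (j - k))} ⊆ ((T1 ∪ T2) ∪ (T3 ∪ T4)) ∪ T5 := by
    rintro L ⟨hLF, hL⟩
    rw [← hr, ← hR0] at hL
    by_cases h1 : L ∈ W
    swap
    · exact Or.inl (Or.inl (Or.inl (by rw [hT1]; exact ⟨hLF, h1⟩)))
    by_cases h2 : L ∈ EndEv VV ρ
    · exact Or.inl (Or.inl (Or.inr (by rw [hT2]; exact ⟨hLF, h1, h2⟩)))
    have hLF' : L ∈ F n (j + 1) := Fp_sub_F (by omega) hLF
    by_cases h3 : rv L ∈ W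
    swap
    · exact Or.inl (Or.inr (Or.inl (by rw [hT3]; exact ⟨hLF', h3⟩)))
    by_cases h4 : rv L ∈ EndEv VV ρ
    · exact Or.inl (Or.inr (Or.inr (by rw [hT4]; exact ⟨hLF', h3, h4⟩)))
    have h5 := nts_cases (κ := κ / 2) (C := 2 * C) (b := b) (J := J) (by rw [← hW]; exact h1) (by omega) (by omega) hR0p hL
    rw [← hρ] at h5
    rcases h5 with h5 | h5 | h5
    · exact (h2 (EndEv_mono (by rw [hVVd]; exact Set.subset_union_left) le_rfl h5)).elim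
    · exact (h4 (start_rv (StartEv_mono (by rw [hVVd]; exact Set.subset_union_left) le_rfl h5))).elim
    · refine Or.inr ?_
      rw [hT5]
      refine ⟨hLF, h1, h5, fun h6 => h4 (start_rv ?_)⟩
      rw [hρ]
      exact StartEv_mono (by rw [hVVd]; exact Set.subset_union_right) le_rfl h6
  -- the masses
  have hpG : pr n (b + (J + 1)) ≤ G * pr n j := by
    have h1 := pr_up16 n j (u + 5 + (J + 1))
    rw [hG]
    rw [show j + (u + 5 + (J + 1)) = b + (J + 1) by omega] at h1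
    exact h1
  have hpG' : pr (n - 1) (b + (J + 1)) ≤ 4 * (G * pr n j) := by
    refine (pr_pred n _).trans ?_
    linarith
  have hp6 : pr n (j + (u + 5) + 1) ≤ 16 ^ (u + 6) * pr n j := by
    have h1 := pr_up16 n j (u + 6)
    rw [show j + (u + 6) = j + (u + 5) + 1 by omega] at h1
    exact h1
  have hp6' : pr (n - 1) (j + 1 + (u + 4) + 1) ≤ 4 * (16 ^ (u + 6) * pr n j) := by
    refine (pr_pred n _).trans ?_
    rw [show j + 1 + (u + 4) + 1 = j + (u + 5) + 1 by omega]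
    linarith
  have h16 : (0 : ℝ) < 16 ^ (u + 6) := by positivity
  have g1 : gf T1 ≤ ENNReal.ofReal (ε / 40 * (D * pr n j)) := by
    have h1 := hwin1 D n j hD hF (by omega) hn1
    rw [hT1, hW, hb]
    refine h1.trans (ENNReal.ofReal_le_ofReal ?_)
    calc ε1 * D * pr n (j + (u + 5) + 1) ≤ ε1 * D * (16 ^ (u + 6) * pr n j) := by gcongr
      _ = ε / 40 * (D * pr n j) := by
        rw [hε1d]
        field_simp
  have g2 : gf T2 ≤ ENNReal.ofReal (ε / 80 * (D * pr n j)) := by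
    have h1 := hend VV (2 * C) b J n j D (2 * δ) ρ (by omega) (by omega) hD hF (by omega) (by positivity) hρb hVV
    rw [hT2, hW]
    refine h1.trans (ENNReal.ofReal_le_ofReal ?_)
    rw [hδK]
    calc ε / (80 * G) * (D * pr n (b + (J + 1))) ≤ ε / (80 * G) * (D * (G * pr n j)) := by gcongr
      _ = ε / 80 * (D * pr n j) := by field_simp
  have g3 : gf T3 ≤ ENNReal.ofReal (ε / 5 * (D * pr n j)) := by
    have h1 := hwin2 D (n - 1) (j + 1) hD hF' (by omega) hn1'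
    rw [hb', ← hW] at h1
    have h2 := gf_rv (n := n) (j := j + 1) (by omega) (Wᶜ)
    rw [hT3]
    refine h2.trans ((mul_le_mul_right h1 2).trans ?_)
    rw [show (2 : ℝ≥0∞) = ENNReal.ofReal 2 by simp, ← ENNReal.ofReal_mul (by norm_num)]
    refine ENNReal.ofReal_le_ofReal ?_
    rw [← hb']
    calc 2 * (ε1 * D * pr (n - 1) (j + 1 + (u + 4) + 1)) ≤ 2 * (ε1 * D * (4 * (16 ^ (u + 6) * pr n j))) := by gcongr
      _ = ε / 5 * (D * pr n j) := by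
        rw [hε1d]
        field_simp
        ring
  have g4 : gf T4 ≤ ENNReal.ofReal (ε / 10 * (D * pr n j)) := by
    have h1 := hend VV (2 * C) b J (n - 1) (j + 1) D (2 * δ) ρ (by omega) (by omega) hD hF' (by omega) (by positivity)
      hρb hVV
    rw [← hW] at h1
    have h2 := gf_rv (n := n) (j := j + 1) (by omega) (W ∩ EndEv VV ρ)
    rw [hT4]
    refine h2.trans ((mul_le_mul_right (show gf {L | L ∈ Fp (n - 1) (j + 1) ∧ L ∈ W ∩ EndEv VV ρ} ≤ _ from h1) 2).trans ?_)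
    rw [show (2 : ℝ≥0∞) = ENNReal.ofReal 2 by simp, ← ENNReal.ofReal_mul (by norm_num)]
    refine ENNReal.ofReal_le_ofReal ?_
    rw [hδK]
    calc 2 * (ε / (80 * G) * (D * pr (n - 1) (b + (J + 1)))) ≤ 2 * (ε / (80 * G) * (D * (4 * (G * pr n j)))) := by gcongr
      _ = ε / 10 * (D * pr n j) := by
        field_simp
        ring
  have g5 : gf T5 ≤ ENNReal.ofReal (ε / 5 * (D * pr n j)) := by
    have h1 := hme b n j (j + u) d S K D J' m R r (by omega) hD hF (by omega) (by omega) hrd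
      (fun s hs => ⟨by have := hJK s hs.le; omega, hm s, by rw [hR], hRi s hs, hdR s hs⟩) hRs hsum
    rw [← hW] at h1
    rw [hT5]
    refine h1.trans (ENNReal.ofReal_le_ofReal ?_)
    calc ε / (5 * G) * (D * pr n (b + (J + 1))) ≤ ε / (5 * G) * (D * (G * pr n j)) := by gcongr
      _ = ε / 5 * (D * pr n j) := by field_simp
  obtain ⟨x, hx⟩ : ∃ x : ℝ, x = D * pr n j := ⟨_, rfl⟩
  have hx0 : 0 ≤ x := by rw [hx]; positivity
  rw [← hx] at g1 g2 g3 g4 g5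
  refine (gf_mono hcov).trans ((gf_union_le _ _).trans ((add_le_add ((gf_union_le _ _).trans (add_le_add
    ((gf_union_le _ _).trans (add_le_add g1 g2)) ((gf_union_le _ _).trans (add_le_add g3 g4)))) g5).trans ?_))
  rw [← ENNReal.ofReal_add (by positivity) (by positivity), ← ENNReal.ofReal_add (by positivity) (by positivity),
    ← ENNReal.ofReal_add (by positivity) (by positivity), ← ENNReal.ofReal_add (by positivity) (by positivity)]
  refine ENNReal.ofReal_le_ofReal ?_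
  rw [mul_assoc, ← hx]
  have : 0 ≤ ε * x := by positivity
  linarith

end ARM

end HexObs
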