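import Pool.Agent.ARM.NtD
import Pool.Agent.ARM.YBadW
import Pool.Agent.NPR.TwoEnd

/-!
ARM, row Q (helper65): parts behind a cut of a rich factor which end with a word of a given class; the weight of the length;
the class F.
-/

set_option autoImplicit false

namespace HexObs

namespace ARM

open Finset TS SDN NTW NTA HexObs.SIM TIP TIW NPR

open scoped ENNReal

/-- the part B behind a cut of a rich factor: N the rest of the rich bridge, Z3 the high bridge behind it -/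
def YCp (η : ℝ) (b : ℕ) (B N Z3 Y : List Bool) : Prop :=
  B = N ++ (Z3 ++ Y) ∧ Y ≠ [] ∧ N ∈ BU ∧ Z3 ∈ BU ∧ hgt N ≤ 2 ^ b ∧ 2 ^ (b + 2) ≤ hgt Z3 ∧ η * Ub b ≤ (nc N : ℝ)

/-- parts whose reversal starts with a word in VV, behind it a vertex in the rows 2 ^ (b + 1) and more -/
def YV (VV : Set (List Bool)) (η : ℝ) (b J : ℕ) : Set (List Bool) :=
  {B | B ∈ SA ∧ In (2 ^ (b + J)) B ∧ ∃ N Z3 Y, YCp η b B N Z3 Y ∧ ∃ q r, 1 ≤ r ∧ r + q ≤ B.length ∧
    3 * 2 ^ (b + 1) + 2 ≤ lev B r ∧ ((rev B).drop 1).take q ∈ VV}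

lemma lv_frT (L : List Bool) (p : Pt) : lv (TIP.fr L p) = ip (p - tipv L) (tipd L) := by
  rw [lv_ip]
  unfold TIP.fr
  have h1 : mulE (rotTo (tipd L) up) (tipd L) = up := rotTo_apply up (tipd_mem L)
  have h2 := nrm_rotTo (tipd_mem L) upd
  have h3 := ip_mulE (rotTo (tipd L) up) (p - tipv L) (tipd L)
  rw [h1, h2, one_mul] at h3
  exact h3

/-- the reversal of such a part -/
lemma yv_sv {VV : Set (List Bool)} {η : ℝ} {b J : ℕ} {B : List Bool} (hB : B ∈ YV VV η b J) :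
    (rev B).drop 1 ∈ SV VV (b + J + 3) b ∩ GT b η := by
  obtain ⟨hsa, hin, N, Z3, Y, ⟨hBe, hY, hN, hZ3, hNh, hZh, hnc⟩, q, r, hr1, hrq, hlr, hV⟩ := hB
  have hYl : 1 ≤ Y.length := List.length_pos_iff.2 hY
  have hK : 4 * 2 ^ (b + J) + 1 ≤ 2 ^ (b + J + 3) := by
    have e : (2 : ℕ) ^ (b + J + 3) = 8 * 2 ^ (b + J) := by rw [pow_add]; ring
    have : 1 ≤ 2 ^ (b + J) := Nat.one_le_two_pow
    omega
  have e1 : (rev B).drop 1 = (rev Y).drop 1 ++ (rev Z3 ++ rev N) := by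
    rw [hBe, TD.rev_append', TD.rev_append', List.append_assoc,
      List.drop_append_of_le_length (by rw [rev_length]; exact hYl)]
  have hl : ((rev B).drop 1).length = B.length - 1 := by rw [List.length_drop, rev_length]
  refine ⟨⟨RevM.box1 hin hsa hK, ((rev B).drop 1).take q, ((rev B).drop 1).drop q,
    B.length - r, (List.take_append_drop _ _).symm, hV, ?_, ?_, ?_⟩, ?_⟩
  · rw [List.length_take]
    omega
  · rw [hl]
    omega
  · obtain ⟨c, hc, hf⟩ := RevM.rev_frame1 B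
    have hcn := mem_dirs.1 hc
    obtain ⟨T, hT⟩ : ∃ T, T = (rev B).drop 1 := ⟨_, rfl⟩
    rw [← hT] at hf hl ⊢
    have f1 := hf (B.length - r) (by omega)
    have f2 := hf (B.length - 1) (by omega)
    have f3 := hf B.length le_rfl
    rw [show B.length - (B.length - r) = r by omega] at f1
    rw [show B.length - (B.length - 1) = 1 by omega] at f2
    rw [Nat.sub_self] at f3
    have hTl : T.length = B.length - 1 := hl
    have hT1 : vx oo up T B.length = vx oo up T (B.length - 1) + dx up T (B.length - 1) := by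
      have : B.length = (B.length - 1) + 1 := by omega
      conv_lhs => rw [this]
      rfl
    have hu : vx oo up B 1 = vx oo up B 0 + up := rfl
    rw [lv_frT]
    unfold tipv tipd
    rw [hTl]
    have g1 : mulE c (vx oo up T (B.length - r) - vx oo up T (B.length - 1)) = vx oo up B r - vx oo up B 1 := by
      rw [mulE_sub, f1, f2]
      abel
    have g2 : mulE c (dx up T (B.length - 1)) = -up := by
      have : dx up T (B.length - 1) = vx oo up T B.length - vx oo up T (B.length - 1) := by rw [hT1]; abel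
      rw [this, mulE_sub]
      have e3 : mulE c (vx oo up T B.length) = vx oo up B 0 - vx oo up B B.length := by rw [f3]; abel
      have e4 : mulE c (vx oo up T (B.length - 1)) = vx oo up B 1 - vx oo up B B.length := by rw [f2]; abel
      rw [e3, e4, hu]
      abel
    have g3 : ip (vx oo up T (B.length - r) - vx oo up T (B.length - 1)) (dx up T (B.length - 1)) =
        ip (vx oo up B r - vx oo up B 1) (-up) := by
      rw [← g1, ← g2, ip_mulE, hcn, one_mul]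
    rw [g3]
    have g4 : ip (vx oo up B r - vx oo up B 1) (-up) = -(lev B r) + lev B 1 := by
      unfold lev ip
      simp only [Prod.fst_sub, Prod.snd_sub, Prod.fst_neg, Prod.snd_neg]
      ring
    have g5 : lev B 1 = 2 := by
      unfold lev
      rw [hu]
      have h0 : vx oo up B 0 = oo := rfl
      rw [h0]
      decide
    rw [g4, g5]
    omega
  · rw [e1]
    refine ne_A (BU_rev hZ3) ?_ (BU_rev hN) ?_ ?_
    · rw [hgt_eq (Brd_rev (TIP.BU_hgt hZ3))]
      refine le_trans ?_ hZh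
      exact Nat.pow_le_pow_right (by norm_num) (by omega)
    · rwa [hgt_eq (Brd_rev (TIP.BU_hgt hN))]
    · rwa [nc_rev]

/-- **the mass of these parts**, from the words of a box that start in VV -/
theorem yv_mass {η : ℝ} (hη : 0 < η) : ∃ C : ℝ, 1 ≤ C ∧ ∀ (VV : Set (List Bool)) (b J : ℕ) (δ : ℝ), 0 ≤ δ →
    gf {w | w ∈ WL (b + J + 6) ∧ ∃ V ∈ VV, ∃ R, w = V ++ R} ≤ ENNReal.ofReal (δ * Ub (b + J + 6)) * Xb (b + J + 6) ^ 2 →
    gf (YV VV η b J) ≤ ENNReal.ofReal (C ^ (J + 1) * δ * Ub b) * Xb b := by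
  obtain ⟨C, hC, h⟩ := end_SV hη
  obtain ⟨D, hD, hup⟩ := EnsW.ref_up
  refine ⟨max (3 * C * D ^ 6) D, le_max_of_le_right hD, fun VV b J δ hδ hM => ?_⟩
  have hU := Ub_pos b
  have hD0 : 0 < D := by linarith
  have h1 : gf (YV VV η b J) ≤ 3 * gf (SV VV (b + J + 3) b ∩ GT b η) := gf_rev1 fun B hB => yv_sv hB
  have h2 := h VV (b + J + 3) b _ (by omega) hM
  have h3 := hup b (J + 6)
  have e3 : b + (J + 6) = b + J + 6 := by omega
  rw [e3] at h3
  have h4 : ENNReal.ofReal (δ * Ub (b + J + 6)) * Xb (b + J + 6) ^ 2 ≤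
      ENNReal.ofReal (δ * D ^ (J + 6) * Ub b) * Xb b * Xb b := by
    calc ENNReal.ofReal (δ * Ub (b + J + 6)) * Xb (b + J + 6) ^ 2 = ENNReal.ofReal δ * (ENNReal.ofReal (Ub (b + J + 6)) *
          Xb (b + J + 6) ^ 2) := by rw [ENNReal.ofReal_mul hδ, mul_assoc]
      _ ≤ ENNReal.ofReal δ * (ENNReal.ofReal (D ^ (J + 6)) * (ENNReal.ofReal (Ub b) * Xb b ^ 2)) := mul_le_mul_right h3 _
      _ = _ := by
        rw [ENNReal.ofReal_mul (by positivity), ENNReal.ofReal_mul hδ]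
        ring
  have h5 : gf (YV VV η b J) * Xb b ≤ ENNReal.ofReal (3 * C * (δ * D ^ (J + 6) * Ub b)) * Xb b * Xb b := by
    calc gf (YV VV η b J) * Xb b ≤ 3 * gf (SV VV (b + J + 3) b ∩ GT b η) * Xb b := mul_le_mul_left h1 _
      _ = 3 * (gf (SV VV (b + J + 3) b ∩ GT b η) * Xb b) := by ring
      _ ≤ 3 * (ENNReal.ofReal C * (ENNReal.ofReal (δ * Ub (b + J + 6)) * Xb (b + J + 6) ^ 2)) := mul_le_mul_right h2 _
      _ ≤ 3 * (ENNReal.ofReal C * (ENNReal.ofReal (δ * D ^ (J + 6) * Ub b) * Xb b * Xb b)) := by gcongr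
      _ = _ := by
        have e : 3 * C * (δ * D ^ (J + 6) * Ub b) = 3 * (C * (δ * D ^ (J + 6) * Ub b)) := by ring
        have e' : ENNReal.ofReal 3 = 3 := by simp
        rw [e, ENNReal.ofReal_mul (p := 3) (by norm_num), ENNReal.ofReal_mul (p := C) hC.le, e']
        ring
  have h6 := (ENNReal.mul_le_mul_iff_left (Xb_ne_zero b) (Xb_ne_top b)).1 h5
  refine h6.trans (mul_le_mul_left (ENNReal.ofReal_le_ofReal ?_) _)
  have h7 : 3 * C * D ^ 6 * D ^ J ≤ max (3 * C * D ^ 6) D ^ (J + 1) := by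
    rw [pow_succ, mul_comm]
    exact mul_le_mul (pow_le_pow_left₀ hD0.le (le_max_right _ _) _) (le_max_left _ _) (by positivity)
      (pow_nonneg (le_trans hD0.le (le_max_right _ _)) _)
  calc 3 * C * (δ * D ^ (J + 6) * Ub b) = 3 * C * D ^ 6 * D ^ J * (δ * Ub b) := by rw [pow_add]; ring
    _ ≤ max (3 * C * D ^ 6) D ^ (J + 1) * (δ * Ub b) := mul_le_mul_of_nonneg_right h7 (by positivity)
    _ = _ := by ring

/-! ### the weight of the length -/

/-- **a small class of parts, with the weight of the length** -/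
theorem cs_len (hM : YMassJ) {η : ℝ} (hη : 0 < η) : ∃ C : ℝ, 1 ≤ C ∧ ∀ (b J y : ℕ) (δ : ℝ) (P : Set (List Bool)), 0 ≤ δ →
    (∀ Y ∈ P, Y ∈ SA ∧ rev Y ∈ GT b η ∧ In (2 ^ (b + J)) Y) → gf P ≤ ENNReal.ofReal (δ * Ub b) * Xb b →
    gf {Y | Y ∈ P ∧ y ≤ Y.length} ≤ ENNReal.ofReal (Real.sqrt (C ^ (J + 1) * δ) * Ub b) * Xb b *
      ENNReal.ofReal ((1 + (y : ℝ) / ml (b + J)) ^ (-(4 : ℝ))) := by
  classical
  obtain ⟨C, hC, h⟩ := hM η 8 hη
  refine ⟨C, hC, fun b J y δ P hδ hP hg => ?_⟩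
  have hU := Ub_pos b
  have hm := ml_pos (b + J)
  have hC0 : 0 < C := by linarith
  obtain ⟨z, hz⟩ : ∃ z : ℝ, z = (y : ℝ) / ml (b + J) := ⟨_, rfl⟩
  have hz0 : 0 ≤ z := by rw [hz]; positivity
  rw [← hz]
  have h1 : gf {Y | Y ∈ P ∧ y ≤ Y.length} ≤ ENNReal.ofReal (δ * Ub b) * Xb b := (gf_mono fun Y hY => hY.1).trans hg
  have h2 : ∑' Y : P, wE (Y : List Bool) * ENNReal.ofReal ((1 + ((Y : List Bool).length : ℝ) / ml (b + J)) ^ 8) ≤
      ENNReal.ofReal (C ^ (J + 1) * Ub b) * Xb b := by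
    refine le_trans ?_ (h b J)
    exact ENNReal.tsum_mono_subtype (fun Y : List Bool => wE Y * ENNReal.ofReal ((1 + (Y.length : ℝ) / ml (b + J)) ^ 8)) hP
  have h3 := mass_len (y := y) hm h2
  rw [← hz] at h3
  have h4 : gf {Y | Y ∈ P ∧ y ≤ Y.length} ≤ ENNReal.ofReal (((1 + z) ^ 8)⁻¹ * (C ^ (J + 1) * Ub b)) * Xb b := by
    refine h3.trans (le_of_eq ?_)
    rw [← mul_assoc, ← ENNReal.ofReal_mul (by positivity)]
  have h5 := sqrt_mul (by positivity) (by positivity) h1 h4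
  refine h5.trans (le_of_eq ?_)
  have e : Real.sqrt (δ * Ub b * (((1 + z) ^ 8)⁻¹ * (C ^ (J + 1) * Ub b))) =
      Real.sqrt (C ^ (J + 1) * δ) * Ub b * (1 + z) ^ (-(4 : ℝ)) := by
    have e1 : δ * Ub b * (((1 + z) ^ 8)⁻¹ * (C ^ (J + 1) * Ub b)) = (C ^ (J + 1) * δ) * (Ub b * (1 + z) ^ (-(4 : ℝ))) ^ 2 := by
      rw [wt_pow z hz0, mul_pow, ← inv_pow, ← inv_pow, ← pow_mul]
      ring
    rw [e1, Real.sqrt_mul (by positivity), Real.sqrt_sq (by positivity)]
    ring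
  rw [e, ENNReal.ofReal_mul (by positivity)]
  ring

/-- **double counting in the class F**: small classes of parts behind good tips -/
theorem ef_mass (hE : ExF) (hM : YMassJ) {η : ℝ} (hη : 0 < η) : ∃ C : ℝ, 1 ≤ C ∧ ∀ (D : ℝ) (n j b J : ℕ), 0 ≤ D →
    HF D n j → j ≤ b → ∀ (ρ : List Bool → List Bool → Prop) (δ q : ℝ), 0 ≤ δ → 0 < q →
    (∀ A Y, ρ A Y → A ∈ GT b η ∧ Y ∈ SA ∧ rev Y ∈ GT b η) →
    (∀ A, gf {Y | ρ A Y ∧ In (2 ^ (b + J)) Y} ≤ ENNReal.ofReal (δ * Ub b) * Xb b) →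
    gf {L | L ∈ Fp n j ∧ q * Ub b ≤ (nD (2 ^ (b + J)) ρ L : ℝ)} ≤
      ENNReal.ofReal (C * Real.sqrt (C ^ (J + 1) * δ) / q * (D * pr n (b + J))) := by
  obtain ⟨C1, hC1, hE⟩ := hE η 0 hη
  obtain ⟨C2, hC2, hcs⟩ := cs_len hM hη
  have hC20 : 0 < C2 := by linarith
  refine ⟨C1 + C2, by linarith, fun D n j b J hD hF hjb ρ δ q hδ hq hρ hx => ?_⟩
  have hU := Ub_pos b
  have hp := pr_nonneg n (b + J)
  have hFi : HF D n (b + J) := fun n' i hn' hi => hF n' i hn' (by omega)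
  have h1 := hE D n j (b + J) b hD hFi (by omega) (by omega) ρ
    (ENNReal.ofReal (Real.sqrt (C2 ^ (J + 1) * δ) * Ub b) * Xb b) (q * Ub b) (fun A Y h => (hρ A Y h).1) (fun A => ?_)
    (by positivity)
  · rw [add_zero] at h1
    refine (cancelF (by positivity) (by positivity) h1).trans (ENNReal.ofReal_le_ofReal ?_)
    have h2 : Real.sqrt (C2 ^ (J + 1) * δ) ≤ Real.sqrt ((C1 + C2) ^ (J + 1) * δ) := by
      apply Real.sqrt_le_sqrt
      gcongr
      linarith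
    have e : C1 * D * pr n (b + J) * (Real.sqrt (C2 ^ (J + 1) * δ) * Ub b) / (q * Ub b) =
        C1 * Real.sqrt (C2 ^ (J + 1) * δ) / q * (D * pr n (b + J)) := by
      field_simp
    rw [e]
    have h3 : 0 ≤ D * pr n (b + J) := by positivity
    refine mul_le_mul_of_nonneg_right ?_ h3
    gcongr
    linarith
  · have h2 := hcs b J (n - A.length) δ {Y | ρ A Y ∧ In (2 ^ (b + J)) Y} hδ
      (fun Y hY => ⟨(hρ A Y hY.1).2.1, (hρ A Y hY.1).2.2, hY.2⟩) (hx A)
    refine (gf_mono ?_).trans h2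
    rintro Y ⟨y1, y2, y3⟩
    refine ⟨⟨y1, by rwa [add_zero] at y2⟩, ?_⟩
    have h3 := y3.2.1
    rw [List.length_append] at h3
    omega

end ARM

end HexObs
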