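import Pool.Agent.ARM.NtT

/-!
ARM, row Q (helper65): windows: rich bridges between two high bridges, near the end; their cuts.
-/

set_option autoImplicit false

namespace HexObs

namespace ARM

open Finset TS SDN NTW NTA HexObs.SIM TIP TIP.Nf TIW

open scoped ENNReal

/-! ### half of a rich bridge -/

open Classical in
/-- **half of the height, half of the cuts** -/
theorem half_rich {Z : List Bool} (hZ : Z ∈ BU) {H : ℕ} (hh : hgt Z ≤ 2 * H) : ∃ P W R, P ∈ BU ∧ W ∈ BU ∧ R ∈ BU ∧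
    Z = P ++ (W ++ R) ∧ hgt W ≤ H ∧ nc Z ≤ 2 * nc W := by
  obtain ⟨S, hS⟩ : ∃ S, S = (cz Z).filter fun c => hgt (Z.take c) ≤ H := ⟨_, rfl⟩
  obtain ⟨S', hS'⟩ : ∃ S', S' = (cz Z).filter fun c => ¬ hgt (Z.take c) ≤ H := ⟨_, rfl⟩
  have h0 : 0 ∈ S := by
    rw [hS, mem_filter]
    refine ⟨mem_cz.2 ⟨Nat.zero_le _, by rw [List.take_zero]; exact nil_BU, by rw [List.drop_zero]; exact hZ⟩, ?_⟩
    rw [List.take_zero, TIP.hgt_nil]
    exact Nat.zero_le _
  have hcard : nc Z = S.card + S'.card := by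
    rw [nc_cz, hS, hS']
    exact (card_filter_add_card_filter_not _).symm
  obtain ⟨c, hc⟩ : ∃ c, c = S.max' ⟨0, h0⟩ := ⟨_, rfl⟩
  have hcS : c ∈ S := by rw [hc]; exact S.max'_mem _
  have hcmax : ∀ x ∈ S, x ≤ c := fun x hx => by rw [hc]; exact S.le_max' x hx
  have hcz : c ∈ cz Z := by rw [hS] at hcS; exact (mem_filter.1 hcS).1
  have hcH : hgt (Z.take c) ≤ H := by rw [hS] at hcS; exact (mem_filter.1 hcS).2
  obtain ⟨a1, a2, a3⟩ := mem_cz.1 hcz
  have hSc : S.card ≤ nc (Z.take c) := by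
    rw [nc_cz]
    refine card_le_card fun x hx => ?_
    have hxz : x ∈ cz Z := by rw [hS] at hx; exact (mem_filter.1 hx).1
    obtain ⟨P, M, R, p1, p2, p3, p4, p5, p6, p7, p8, p9, p10⟩ := cz_split hxz hcz (hcmax x hx)
    refine mem_cz.2 ⟨?_, ?_, ?_⟩
    · rw [p9, List.length_append]
      omega
    · rw [p9, List.take_left' p5]
      exact p1
    · rw [p9, List.drop_left' p5]
      exact p2
  rcases S'.eq_empty_or_nonempty with he | hne
  · rw [he, card_empty, add_zero] at hcard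
    refine ⟨[], Z.take c, Z.drop c, nil_BU, a2, a3, by rw [List.nil_append, List.take_append_drop], hcH, by omega⟩
  · obtain ⟨d, hd⟩ : ∃ d, d = S'.min' hne := ⟨_, rfl⟩
    have hdS : d ∈ S' := by rw [hd]; exact S'.min'_mem _
    have hdmin : ∀ x ∈ S', d ≤ x := fun x hx => by rw [hd]; exact S'.min'_le x hx
    have hdz : d ∈ cz Z := by rw [hS'] at hdS; exact (mem_filter.1 hdS).1
    have hdH : ¬ hgt (Z.take d) ≤ H := by rw [hS'] at hdS; exact (mem_filter.1 hdS).2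
    obtain ⟨b1, b2, b3⟩ := mem_cz.1 hdz
    have hSd : S'.card ≤ nc (Z.drop d) := by
      rw [nc_cz]
      refine card_le_card_of_injOn (fun x => x - d) (fun x hx => ?_) fun x hx y hy hxy => ?_
      · have hxz : x ∈ cz Z := by rw [hS', mem_coe] at hx; exact (mem_filter.1 hx).1
        obtain ⟨P, M, R, p1, p2, p3, p4, p5, p6, p7, p8, p9, p10⟩ := cz_split hdz hxz (hdmin x hx)
        have hM : M.length = x - d := by omega
        refine mem_coe.2 (mem_cz.2 ⟨?_, ?_, ?_⟩)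
        · rw [p8, List.length_append]
          show x - d ≤ _
          omega
        · rw [p8]
          show (M ++ R).take (x - d) ∈ BU
          rw [List.take_left' hM]
          exact p2
        · rw [p8]
          show (M ++ R).drop (x - d) ∈ BU
          rw [List.drop_left' hM]
          exact p3
      · have h1 := hdmin x hx
        have h2 := hdmin y hy
        simp only at hxy
        omega
    have hdh : hgt (Z.drop d) ≤ H := by
      have h1 := TIP.hgt_app b2 b3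
      rw [List.take_append_drop] at h1
      omega
    rcases Nat.le_total (nc (Z.take c)) (nc (Z.drop d)) with h1 | h1
    · exact ⟨Z.take d, Z.drop d, [], b2, b3, nil_BU, by rw [List.append_nil, List.take_append_drop], hdh, by omega⟩
    · exact ⟨[], Z.take c, Z.drop c, nil_BU, a2, a3, by rw [List.nil_append, List.take_append_drop], hcH, by omega⟩

/-! ### windows -/

/-- a window near the end: a rich bridge Z2 between two high bridges -/
structure Wn (κ : ℝ) (C b J : ℕ) (L X Z1 Z2 Z3 Y : List Bool) : Prop where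
  eq : L = X ++ (Z1 ++ (Z2 ++ (Z3 ++ Y)))
  b1 : Z1 ∈ BU
  b2 : Z2 ∈ BU
  b3 : Z3 ∈ BU
  h1 : 2 ^ (b + 2) ≤ hgt Z1
  h3 : 2 ^ (b + 2) ≤ hgt Z3
  h2 : hgt Z2 ≤ 2 ^ b
  n2 : κ * Ub b ≤ (nc Z2 : ℝ)
  inn : In (C * 2 ^ b) (Z1 ++ (Z2 ++ Z3))
  ne : Y ≠ []
  inY : In (2 ^ (b + J)) Y

/-- words with a window -/
def Win (κ : ℝ) (C b J : ℕ) : Set (List Bool) := {L | ∃ X Z1 Z2 Z3 Y, Wn κ C b J L X Z1 Z2 Z3 Y}

/-- **most words of the class F have a window** -/
theorem win_of {κ : ℝ} {C : ℕ} (hκ : 0 < κ) (hN : NWin κ C) : ∀ ε : ℝ, 0 < ε → ∃ J0 : ℕ, ∀ J w : ℕ, J0 ≤ J → ∃ b0 : ℕ,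
    ∀ (D : ℝ) (n j : ℕ), 0 ≤ D → HF D n j → b0 ≤ j → 2 ^ b0 * ml j ≤ n →
      gf {L | L ∈ Fp n j ∧ L ∉ Win (κ / 2) (2 * C) (j + w) J} ≤ ENNReal.ofReal (ε * D * pr n (j + w + 1)) := by
  intro ε hε
  obtain ⟨m, b1, h⟩ := hN ε hε
  refine ⟨m + 1, fun J w hJ => ⟨b1 + 2 * w + 2, fun D n j hD hF hj hn => ?_⟩⟩
  have h1 := h D n (j + w + 1) hD (fun n' i hn' hi => hF n' i hn' (by omega)) (by omega) ?_
  · refine (gf_mono ?_).trans h1
    rintro L ⟨hL, hW⟩
    refine ⟨?_, fun hcon => hW ?_⟩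
    · obtain ⟨f1, f2, f3, f4⟩ := hL
      refine ⟨f1, f2, f3.trans_le ?_, f4.trans ?_⟩
      · have := ml_mono (show j ≤ j + w + 1 by omega)
        linarith
      · have : (2 : ℤ) ^ j ≤ 2 ^ (j + w + 1) := pow_le_pow_right₀ (by norm_num) (by omega)
        linarith
    · obtain ⟨X, Z, Y, e, hY, ⟨Z1, Z2, Z3, rfl, c1, c2, c3, c4, c5, c6, c7, c8⟩, hin⟩ := hcon
      obtain ⟨P, W, R, p1, p2, p3, p4, p5, p6⟩ := half_rich (H := 2 ^ (j + w)) c2 (by rw [← pow_succ']; exact c6)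
      have hU : Ub (j + w) ≤ Ub (j + w + 1) := Ub_mono (by omega)
      refine ⟨X, Z1 ++ P, W, R ++ Z3, Y, ?_, TIP.BU_app c1 p1, p2, TIP.BU_app p3 c3, ?_, ?_, p5, ?_, ?_, hY, ?_⟩
      · rw [e, p4]
        simp only [List.append_assoc]
      · rw [TIP.hgt_app c1 p1]
        have : 2 ^ (j + w + 1 + 1) = 2 ^ (j + w + 2) := rfl
        omega
      · rw [TIP.hgt_app p3 c3]
        have : 2 ^ (j + w + 1 + 1) = 2 ^ (j + w + 2) := rfl
        omega
      · have h2 : (nc Z2 : ℝ) ≤ 2 * nc W := by exact_mod_cast p6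
        have h3 : κ * Ub (j + w) ≤ κ * Ub (j + w + 1) := mul_le_mul_of_nonneg_left hU hκ.le
        linarith
      · have e2 : (Z1 ++ P) ++ (W ++ (R ++ Z3)) = Z1 ++ (Z2 ++ Z3) := by
          rw [p4]
          simp only [List.append_assoc]
        rw [e2]
        refine in_mono c8 (le_of_eq ?_)
        rw [pow_succ]
        ring
      · refine in_mono hin (Nat.pow_le_pow_right (by norm_num) (by omega))
  · refine le_trans ?_ hn
    have e1 : ml (j + w + 1) ≤ 4 ^ (w + 1) * ml j := by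
      rw [add_assoc, ml_add]
      refine mul_le_mul_of_nonneg_right ?_ (ml_pos j).le
      have : (4 : ℝ) ^ (w + 1) = (2 : ℝ) ^ ((2 : ℝ) * ((w + 1 : ℕ) : ℝ)) := by
        rw [Real.rpow_mul (by norm_num), Real.rpow_natCast]
        norm_num
      rw [this]
      refine Real.rpow_le_rpow_of_exponent_le (by norm_num) ?_
      have : (0 : ℝ) ≤ ((w + 1 : ℕ) : ℝ) := Nat.cast_nonneg _
      linarith
    calc (2 : ℝ) ^ b1 * ml (j + w + 1) ≤ 2 ^ b1 * (4 ^ (w + 1) * ml j) := by gcongr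
      _ = 2 ^ (b1 + 2 * w + 2) * ml j := by
        rw [show (4 : ℝ) = 2 ^ 2 by norm_num, ← pow_mul]
        ring

/-- h cuts of a bridge with at least h cuts behind each -/
def SCt (h : ℕ) (N : List Bool) : Prop := ∃ S : Finset ℕ, h ≤ S.card ∧ ∀ k ∈ S, k ≤ N.length ∧ N.take k ∈ BU ∧
  N.drop k ∈ BU ∧ h ≤ nc (N.drop k)

open Classical in
/-- **the cuts of a window** -/
theorem slots {κ : ℝ} {C b J h : ℕ} {L X Z1 Z2 Z3 Y : List Bool} (hw : Wn κ C b J L X Z1 Z2 Z3 Y) (hh : 1 ≤ h)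
    (h4 : 4 * h ≤ nc Z2) : ∃ S : Finset ℕ, h ≤ S.card ∧ ∀ c ∈ S, c ≤ L.length ∧ ∃ M N, Z2 = M ++ N ∧ M ∈ BU ∧ N ∈ BU ∧
      L.take c = X ++ (Z1 ++ M) ∧ L.drop c = N ++ (Z3 ++ Y) ∧ h ≤ nc M ∧ h ≤ nc N ∧ SCt h N := by
  have h1 := card_rank neW (Z := Z2) (lo := h) (hi := 2 * h) hh (by omega)
  have h2 : 2 * h - h = h := by omega
  rw [h2] at h1
  have h3 := card_rank neW (Z := Z2) (lo := 2 * h) (hi := 3 * h) (by omega) (by omega)
  have h3' : 3 * h - 2 * h = h := by omega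
  rw [h3'] at h3
  refine ⟨((cz Z2).filter fun c => h ≤ nc (Z2.take c) ∧ nc (Z2.take c) < 2 * h).image fun c => (X ++ Z1).length + c, ?_,
    fun q hq => ?_⟩
  · rw [card_image_of_injective _ (fun x y h => Nat.add_left_cancel h), h1]
  obtain ⟨c, hc, rfl⟩ := mem_image.1 hq
  rw [mem_filter] at hc
  obtain ⟨hc1, hc2, hc3⟩ := hc
  obtain ⟨a1, a2, a3⟩ := mem_cz.1 hc1
  have hs := rank_sum neW hc1
  have e1 : L = (X ++ (Z1 ++ Z2.take c)) ++ (Z2.drop c ++ (Z3 ++ Y)) := by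
    rw [hw.eq]
    conv_lhs => rw [← List.take_append_drop c Z2]
    simp only [List.append_assoc]
  have l1 : (X ++ (Z1 ++ Z2.take c)).length = (X ++ Z1).length + c := by
    simp only [List.length_append, List.length_take]
    omega
  refine ⟨?_, Z2.take c, Z2.drop c, (List.take_append_drop c Z2).symm, a2, a3, ?_, ?_, hc2, by omega, ?_⟩
  · have := congrArg List.length e1
    rw [List.length_append, l1] at this
    omega
  · rw [e1, List.take_left' l1]
  · rw [e1, List.drop_left' l1]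
  · have hlt : ∀ c' ∈ (cz Z2).filter (fun c => 2 * h ≤ nc (Z2.take c) ∧ nc (Z2.take c) < 3 * h), c < c' := by
      intro c' hc'
      rw [mem_filter] at hc'
      by_contra hcon
      rcases Nat.eq_or_lt_of_le (not_lt.1 hcon) with he | he
      · rw [he] at hc'
        omega
      · have := rank_lt neW hc'.1 hc1 he
        omega
    refine ⟨((cz Z2).filter (fun c => 2 * h ≤ nc (Z2.take c) ∧ nc (Z2.take c) < 3 * h)).image (fun c' => c' - c), ?_,
      fun k hk => ?_⟩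
    · rw [card_image_of_injOn, h3]
      intro x hx y hy hxy
      have := hlt x (mem_coe.1 hx)
      have := hlt y (mem_coe.1 hy)
      simp only at hxy
      omega
    · obtain ⟨c', hc', rfl⟩ := mem_image.1 hk
      have hcc := hlt c' hc'
      rw [mem_filter] at hc'
      obtain ⟨d1, d2, d3⟩ := hc'
      obtain ⟨P, M, R, p1, p2, p3, p4, p5, p6, p7, p8, p9, p10⟩ := cz_split hc1 d1 hcc.le
      have hs' := rank_sum neW d1
      have hMl : M.length = c' - c := by omega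
      rw [p8]
      refine ⟨?_, ?_, ?_, ?_⟩
      · rw [List.length_append]
        omega
      · rw [List.take_left' hMl]
        exact p2
      · rw [List.drop_left' hMl]
        exact p3
      · rw [List.drop_left' hMl, ← p10]
        omega

/-- the part behind a cut is in a box -/
lemma Wn.inB {κ : ℝ} {C b J : ℕ} {L X Z1 Z2 Z3 Y M N : List Bool} (hw : Wn κ C b J L X Z1 Z2 Z3 Y) (e : Z2 = M ++ N)
    (hM : M ∈ BU) (hN : N ∈ BU) (hC : 2 * C ≤ 2 ^ J) : In (2 ^ (b + (J + 1))) (N ++ (Z3 ++ Y)) := by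
  have h1 : In (2 * (C * 2 ^ b)) (N ++ Z3) := by
    refine in_mid (X := Z1 ++ M) (R := []) (BU_dx (TIP.BU_app hw.b1 hM)) ?_
    have e2 : (Z1 ++ M) ++ ((N ++ Z3) ++ []) = Z1 ++ (Z2 ++ Z3) := by
      rw [e]
      simp only [List.append_assoc, List.append_nil]
    rw [e2]
    exact hw.inn
  have h2 := in_app (BU_dx (TIP.BU_app hN hw.b3)) h1 hw.inY
  rw [List.append_assoc] at h2
  refine in_mono h2 ?_
  have e1 : 2 ^ (b + (J + 1)) = 2 ^ J * 2 ^ b + 2 ^ (b + J) := by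
    rw [← add_assoc, pow_succ, pow_add]
    ring
  have e2 := Nat.mul_le_mul_right (2 ^ b) hC
  rw [e1]
  nlinarith

/-- the bridge Z2 and its parts are in a box -/
lemma Wn.inV {κ : ℝ} {C b J : ℕ} {L X Z1 Z2 Z3 Y M V R : List Bool} (hw : Wn κ C b J L X Z1 Z2 Z3 Y)
    (e : Z2 = M ++ (V ++ R)) (hM : M ∈ BU) : In (2 * (C * 2 ^ b)) V := by
  refine in_mid (X := Z1 ++ M) (R := R ++ Z3) (BU_dx (TIP.BU_app hw.b1 hM)) ?_
  have e2 : (Z1 ++ M) ++ (V ++ (R ++ Z3)) = Z1 ++ (Z2 ++ Z3) := by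
    rw [e]
    simp only [List.append_assoc]
  rw [e2]
  exact hw.inn

end ARM

end HexObs
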