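import Pool.Agent.ARM.BUMom
import Pool.Agent.ARM.YBadW
import Pool.Agent.NPR.TwoEnd
import Pool.Agent.TIP.Rich
import Pool.Agent.TIP.DCnt
import Pool.Agent.TIP.NgC
import Pool.Agent.TIP.NfA
import Pool.Agent.ARM.ExF

/-!
# ARM2: two-ended moments (helper47)

`PM2` : the mass of the words of a box with a good start and a good end, with the moments of the length.
* `end_rich` : the tip lemma at a rich end behind any class of starts;
* **`pm2_of : YMassW → PM2`**.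
-/

set_option autoImplicit false

namespace HexObs

namespace ARM

open Finset TS SDN HexObs.SIM NTA TIP

open scoped ENNReal

/-- **two-ended moments** -/
def PM2 : Prop := ∀ (η : ℝ) (c q : ℕ), 0 < η → ∃ (C : ℝ) (b0 : ℕ), 0 < C ∧ ∀ b : ℕ, b0 ≤ b →
  ∑' P : {P : List Bool | P ∈ SA ∧ In (2 ^ (b + c)) P ∧ ∃ W X, P = W ++ X ∧ rev W ∈ GT b η ∧ X ∈ GT b η},
    wE (P : List Bool) * ENNReal.ofReal ((1 + ((P : List Bool).length : ℝ) / ml b) ^ q) ≤ ENNReal.ofReal (C * Ub b)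

/-! ### 1. A rich end behind any class of starts -/

lemma lv_bridge (A : List Bool) {B : List Bool} (hB : B ∈ BU) :
    lv (TIP.fr (A ++ B) (vx oo up (A ++ B) A.length)) = -(3 * (hgt B : ℤ)) := by
  rw [lv_fr_app A B hB, vx_append (by omega)]
  have h4 : TIP.fr A (vx oo up A A.length) = 0 := by
    unfold TIP.fr tipv
    rw [sub_self]
    unfold mulE
    ext <;> simp
  rw [h4]
  have h5 : lv (0 : Pt) = 0 := by
    rw [lv_ip]
    unfold ip
    simp
  rw [h5]
  ring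

lemma gf_BUh (n : ℕ) : gf {Z | Z ∈ BU ∧ hgt Z ≤ n} ≤ ENNReal.ofReal (UU n) := by
  refine (gf_mono ?_).trans (PtC.gf_BU_le n)
  rintro Z ⟨h1, h2⟩
  exact ⟨hgt Z, h2, TIP.BU_hgt h1⟩

lemma wl_pre {K : ℕ} {A Z : List Bool} (h : A ++ Z ∈ WL K) : A ∈ WL K := by
  refine ⟨?_, fun i hi dir => ?_⟩
  · have := SA_take h.1 A.length
    rwa [List.take_left' rfl] at this
  · have := h.2 i (by rw [List.length_append]; omega) dir
    rwa [vx_append (by omega)] at this

lemma GT_anti {b : ℕ} {η η' : ℝ} (h : η' ≤ η) : GT b η ⊆ GT b η' := fun _ hL =>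
  (mul_le_mul_of_nonneg_right h (Ub_pos b).le).trans hL

/-- **the tip lemma at a rich end, any class of starts** -/
theorem end_rich {η : ℝ} (hη : 0 < η) : ∃ C : ℝ, 0 < C ∧ ∀ (VV : Set (List Bool)) (K b : ℕ) (M : ℝ≥0∞), 1 ≤ b → b ≤ K →
    gf {w | w ∈ WL (K + 3) ∧ ∃ V ∈ VV, ∃ R, w = V ++ R} ≤ M →
    gf {P | P ∈ WL K ∧ ∃ V ∈ VV, ∃ X, P = V ++ X ∧ X ∈ GT b η} * Xb b ≤ ENNReal.ofReal C * M := by
  classical
  obtain ⟨C, hC, h⟩ := NPR.end_SV (η := η / 8) (by positivity)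
  obtain ⟨Dx, hDx, hx⟩ := xDbl
  refine ⟨2 / η * C * Dx, by positivity, fun VV K b M hb hbK hM => ?_⟩
  obtain ⟨b', rfl⟩ : ∃ b', b = b' + 1 := ⟨b - 1, by omega⟩
  have hU := Ub_pos (b' + 1)
  obtain ⟨G, hG⟩ : ∃ G, G = {P | P ∈ WL K ∧ ∃ V ∈ VV, ∃ X, P = V ++ X ∧ X ∈ GT (b' + 1) η} := ⟨_, rfl⟩
  have key : ENNReal.ofReal (η / 2 * Ub (b' + 1)) * gf G ≤
      gf (NPR.SV VV K b' ∩ GT b' (η / 8)) * ENNReal.ofReal (Ub (b' + 1)) := by
    refine dc (Y := fun _ => {Z | Z ∈ BU ∧ hgt Z ≤ 2 ^ (b' + 1)}) (fun A _ => gf_BUh _) ?_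
    intro L hL
    rw [hG] at hL
    obtain ⟨hLW, V, hV, X, rfl, hX⟩ := hL
    have hX' : η * Ub (b' + 1) ≤ ((cs (b' + 1) X).card : ℝ) := hX
    have hr := rich' b' η X hη
    obtain ⟨T, hT⟩ : ∃ T, T = (cs (b' + 1) X).filter fun j => ¬ X.take j ∉ GT b' (η / 8) := ⟨_, rfl⟩
    have hcard : η / 2 * Ub (b' + 1) ≤ (T.card : ℝ) := by
      have h1 := card_filter_add_card_filter_not (s := cs (b' + 1) X) (fun j => X.take j ∉ GT b' (η / 8))
      have h2 : (((cs (b' + 1) X).filter fun j => X.take j ∉ GT b' (η / 8)).card : ℝ) + (T.card : ℝ) =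
          ((cs (b' + 1) X).card : ℝ) := by
        rw [hT]
        exact_mod_cast h1
      linarith
    refine ⟨T.map (addLeftEmbedding V.length), ?_, ?_⟩
    · rw [card_map]
      calc ENNReal.ofReal (η / 2 * Ub (b' + 1)) ≤ ENNReal.ofReal (T.card : ℝ) := ENNReal.ofReal_le_ofReal hcard
        _ = _ := ENNReal.ofReal_natCast _
    · intro q hq
      rw [mem_map] at hq
      obtain ⟨j, hj, rfl⟩ := hq
      rw [hT, mem_filter, not_not, mem_cs] at hj
      obtain ⟨⟨hj1, hj2, hj3, A, B, hAB, hB, hBh⟩, hj4⟩ := hj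
      have e1 : (V ++ X).take (V.length + j) = V ++ X.take j := by
        rw [List.take_append, List.take_of_length_le (by omega)]
        congr 2
        omega
      have e2 : (V ++ X).drop (V.length + j) = X.drop j := by
        rw [List.drop_append, List.drop_of_length_le (by omega), List.nil_append]
        congr 1
        omega
      show V.length + j ≤ (V ++ X).length ∧ (V ++ X).take (V.length + j) ∈ _ ∧ (V ++ X).drop (V.length + j) ∈ _
      rw [e1, e2]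
      refine ⟨by rw [List.length_append]; omega, ⟨⟨?_, V, X.take j, (V ++ A).length, rfl, hV, ?_, ?_, ?_⟩, NPR.GT_left hj4⟩,
        hj2, hj3⟩
      · refine wl_pre (Z := X.drop j) ?_
        rw [List.append_assoc, List.take_append_drop]
        exact hLW
      · rw [List.length_append]
        omega
      · rw [hAB, ← List.append_assoc, List.length_append (as := V ++ A)]
        omega
      · rw [hAB, ← List.append_assoc, lv_bridge (V ++ A) hB]
        have : (2 : ℤ) ^ (b' + 1) ≤ hgt B := by exact_mod_cast hBh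
        omega
  rw [← hG]
  have h1 := h VV K b' M (by omega) hM
  have h2 : ENNReal.ofReal (η / 2 * Ub (b' + 1)) * gf G * Xb b' ≤ ENNReal.ofReal (C * Ub (b' + 1)) * M := by
    calc ENNReal.ofReal (η / 2 * Ub (b' + 1)) * gf G * Xb b'
        ≤ gf (NPR.SV VV K b' ∩ GT b' (η / 8)) * ENNReal.ofReal (Ub (b' + 1)) * Xb b' := mul_le_mul' key le_rfl
      _ = (gf (NPR.SV VV K b' ∩ GT b' (η / 8)) * Xb b') * ENNReal.ofReal (Ub (b' + 1)) := by ring
      _ ≤ ENNReal.ofReal C * M * ENNReal.ofReal (Ub (b' + 1)) := mul_le_mul' h1 le_rfl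
      _ = _ := by
          rw [ENNReal.ofReal_mul hC.le]
          ring
  have e3 : ENNReal.ofReal (2 / η / Ub (b' + 1)) * ENNReal.ofReal (η / 2 * Ub (b' + 1)) = 1 := by
    rw [← ENNReal.ofReal_mul (by positivity)]
    have : 2 / η / Ub (b' + 1) * (η / 2 * Ub (b' + 1)) = 1 := by
      field_simp
    rw [this, ENNReal.ofReal_one]
  calc gf G * Xb (b' + 1) ≤ gf G * (ENNReal.ofReal Dx * Xb b') := mul_le_mul' le_rfl (hx b')
    _ = ENNReal.ofReal Dx * ((ENNReal.ofReal (2 / η / Ub (b' + 1)) * ENNReal.ofReal (η / 2 * Ub (b' + 1))) *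
          (gf G * Xb b')) := by
        rw [e3]
        ring
    _ = ENNReal.ofReal Dx * (ENNReal.ofReal (2 / η / Ub (b' + 1)) *
          (ENNReal.ofReal (η / 2 * Ub (b' + 1)) * gf G * Xb b')) := by
        ring
    _ ≤ ENNReal.ofReal Dx * (ENNReal.ofReal (2 / η / Ub (b' + 1)) * (ENNReal.ofReal (C * Ub (b' + 1)) * M)) :=
        mul_le_mul' le_rfl (mul_le_mul' le_rfl h2)
    _ = _ := by
        rw [← mul_assoc, ← mul_assoc, ← ENNReal.ofReal_mul (by linarith), ← ENNReal.ofReal_mul (by positivity)]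
        congr 2
        field_simp

/-! ### 2. One-ended masses -/

namespace PM

open BM

/-- tails of the parts behind a good tip -/
lemma ymass_tail (h : YMassW) (η : ℝ) (c q : ℕ) (hη : 0 < η) : ∃ C : ℝ, 0 < C ∧ ∀ b y : ℕ,
    gf {Y | Y ∈ {Y : List Bool | Y ∈ SA ∧ rev Y ∈ GT b η ∧ In (2 ^ (b + c)) Y} ∧ y ≤ Y.length} ≤
      ENNReal.ofReal (C / (1 + (y : ℝ) / ml b) ^ q * Ub b) * Xb b := by
  obtain ⟨C, hC, h1⟩ := h η c q hη
  refine ⟨C, hC, fun b y => ?_⟩
  have hU := Ub_pos b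
  have hm := ml_pos b
  refine (mass_len hm (h1 b)).trans (le_of_eq ?_)
  rw [← mul_assoc, ← ENNReal.ofReal_mul (by positivity)]
  congr 2
  field_simp

/-- starts: a good tip at the start, at least y letters -/
def V1 (η : ℝ) (b y : ℕ) : Set (List Bool) := {V | rev V ∈ GT b η ∧ y ≤ V.length}

/-- starts of the reversed words -/
def V2 (η : ℝ) (b y : ℕ) : Set (List Bool) := {V | ∃ l : Bool, rev (l :: V) ∈ GT b η ∧ y ≤ V.length + 1}

lemma WL_In {K : ℕ} {t : List Bool} (h : t ∈ WL K) : In (2 ^ (K + 3)) t := fun _ hi => WL_bd h hi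

lemma m1 {η : ℝ} {b k y : ℕ} : gf {w | w ∈ WL (b + k) ∧ ∃ V ∈ V1 η b y, ∃ R, w = V ++ R} ≤
    gf {Y | Y ∈ {Y : List Bool | Y ∈ SA ∧ rev Y ∈ GT b η ∧ In (2 ^ (b + (k + 3))) Y} ∧ y ≤ Y.length} := by
  refine gf_mono ?_
  rintro w ⟨hw, V, ⟨hV, hy⟩, R, rfl⟩
  refine ⟨⟨hw.1, ?_, WL_In hw⟩, by rw [List.length_append]; omega⟩
  rw [TD.rev_append']
  exact NPR.GT_left hV

open scoped Classical in
/-- moments of the bridges without the first letter, the word is reversed -/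
lemma bu_mom1 (q : ℕ) : ∃ C : ℝ, 0 < C ∧ ∀ b : ℕ, ∑' A : List Bool,
    (if ∃ l : Bool, rev (l :: A) ∈ Lb b then wE A * ENNReal.ofReal ((1 + ((A.length + 1 : ℕ) : ℝ) / ml b) ^ q) else 0) ≤
      ENNReal.ofReal (C * Ub b) := by
  classical
  obtain ⟨C, hC, h⟩ := buMom q
  have hx := xc_pos
  refine ⟨2 / xc * C, by positivity, fun b => ?_⟩
  have hm := ml_pos b
  have hU := Ub_pos b
  obtain ⟨g, hg⟩ : ∃ g : List Bool → ℝ≥0∞, g = fun Z => if Z ∈ Lb b then
    wE Z * ENNReal.ofReal ((1 + (Z.length : ℝ) / ml b) ^ q) else 0 := ⟨_, rfl⟩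
  have h1 : ∑' Z, g Z ≤ ENNReal.ofReal (C * Ub b) := by
    refine le_trans ?_ (h b)
    rw [tsum_subtype (Lb b) (fun Z => wE Z * ENNReal.ofReal ((1 + (Z.length : ℝ) / ml b) ^ q *
      (1 + ((TIW.hn (TIW.en Z) : ℤ) : ℝ) / 2 ^ b) ^ q))]
    refine ENNReal.tsum_le_tsum fun Z => ?_
    rw [hg]
    by_cases hZ : Z ∈ Lb b
    · simp only [Set.indicator_of_mem hZ, if_pos hZ]
      refine mul_le_mul' le_rfl (ENNReal.ofReal_le_ofReal ?_)
      have h2 : (0 : ℝ) ≤ ((TIW.hn (TIW.en Z) : ℤ) : ℝ) / 2 ^ b := by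
        have := TIW.hn_nonneg (TIW.en Z)
        have : (0 : ℝ) ≤ ((TIW.hn (TIW.en Z) : ℤ) : ℝ) := by exact_mod_cast this
        positivity
      exact le_mul_of_one_le_right (by positivity) (one_le_pow₀ (by linarith))
    · simp only [if_neg hZ]
      exact zero_le
  have h2 : ∀ A : List Bool, (if ∃ l : Bool, rev (l :: A) ∈ Lb b then
      wE A * ENNReal.ofReal ((1 + ((A.length + 1 : ℕ) : ℝ) / ml b) ^ q) else 0) ≤
      ENNReal.ofReal (1 / xc) * (g (rev (true :: A)) + g (rev (false :: A))) := by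
    intro A
    by_cases hA : ∃ l : Bool, rev (l :: A) ∈ Lb b
    · rw [if_pos hA]
      obtain ⟨l, hl⟩ := hA
      have h3 : wE A * ENNReal.ofReal ((1 + ((A.length + 1 : ℕ) : ℝ) / ml b) ^ q) = ENNReal.ofReal (1 / xc) * g (rev (l :: A)) := by
        rw [hg]
        show _ = ENNReal.ofReal (1 / xc) * (if rev (l :: A) ∈ Lb b then _ else _)
        rw [if_pos hl, wE_rev, rev_length, List.length_cons, ← mul_assoc]
        congr 1
        unfold wE
        rw [← ENNReal.ofReal_mul (by positivity), List.length_cons, pow_succ]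
        congr 1
        field_simp
      rw [h3]
      refine mul_le_mul' le_rfl ?_
      cases l
      · exact le_add_self
      · exact le_self_add
    · rw [if_neg hA]
      exact zero_le
  have h4 : ∀ l : Bool, ∑' A : List Bool, g (rev (l :: A)) ≤ ∑' Z, g Z := by
    intro l
    have hinj : Function.Injective fun A : List Bool => rev (l :: A) := by
      intro A A' hAA
      have h5 : rev (rev (l :: A)) = rev (rev (l :: A')) := congrArg rev hAA
      rw [rev_rev, rev_rev] at h5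
      exact (List.cons.inj h5).2
    exact ENNReal.tsum_comp_le_tsum_of_injective hinj g
  calc _ ≤ ∑' A : List Bool, ENNReal.ofReal (1 / xc) * (g (rev (true :: A)) + g (rev (false :: A))) :=
        ENNReal.tsum_le_tsum h2
    _ = ENNReal.ofReal (1 / xc) * (∑' A, g (rev (true :: A)) + ∑' A, g (rev (false :: A))) := by
        rw [ENNReal.tsum_mul_left, ENNReal.tsum_add]
    _ ≤ ENNReal.ofReal (1 / xc) * (ENNReal.ofReal (C * Ub b) + ENNReal.ofReal (C * Ub b)) :=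
        mul_le_mul' le_rfl (add_le_add ((h4 true).trans h1) ((h4 false).trans h1))
    _ = ENNReal.ofReal (2 / xc * C * Ub b) := by
        rw [← ENNReal.ofReal_add (by positivity) (by positivity), ← ENNReal.ofReal_mul (by positivity)]
        congr 1
        ring

lemma Ub_large (x : ℝ) : ∃ b0 : ℕ, ∀ b, b0 ≤ b → x ≤ Ub b := by
  obtain ⟨B, hB⟩ := Ub_big
  obtain ⟨n, hn⟩ := exists_nat_ge x
  refine ⟨B * n, fun b hb => hn.trans ?_⟩
  refine le_trans ?_ (hB b n hb)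
  have h1 : n < 8 ^ n := Nat.lt_pow_self (by norm_num)
  exact_mod_cast h1.le

open Classical in
/-- starts of the reversed words: the mass -/
lemma m2 (h : YMassW) (η : ℝ) (k q : ℕ) (hη : 0 < η) : ∃ (C : ℝ) (b0 : ℕ), 0 < C ∧ ∀ b y : ℕ, b0 ≤ b →
    gf {w | w ∈ WL (b + k) ∧ ∃ V ∈ V2 η b y, ∃ R, w = V ++ R} ≤
      ENNReal.ofReal (C / (1 + (y : ℝ) / ml b) ^ q * Ub b) * Xb b := by
  obtain ⟨C1, hC1, h1⟩ := ymass_tail h (η / 8) (k + 7) q (by positivity)
  obtain ⟨C2, hC2, h2⟩ := bu_mom1 q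
  obtain ⟨b0, hb0⟩ := Ub_large (4 / η)
  obtain ⟨Cm, hCm⟩ : ∃ Cm : ℝ, Cm = (2 : ℝ) ^ (4 / 3 : ℝ) := ⟨_, rfl⟩
  have hCm1 : 1 ≤ Cm := by
    rw [hCm]
    exact Real.one_le_rpow (by norm_num) (by norm_num)
  refine ⟨4 / η * C1 * Cm ^ q * C2, b0 + 1, by positivity, fun b y hb => ?_⟩
  obtain ⟨b', rfl⟩ : ∃ b', b = b' + 1 := ⟨b - 1, by omega⟩
  have hU := Ub_pos (b' + 1)
  have hU' := Ub_pos b'
  have hm := ml_pos (b' + 1)
  have hm' := ml_pos b'
  have hmm : ml b' ≤ ml (b' + 1) := ml_le (by omega)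
  have hUU : Ub b' ≤ Ub (b' + 1) := Ub_mono (by omega)
  have hbig : 4 ≤ η * Ub (b' + 1) := by
    have := hb0 (b' + 1) (by omega)
    rw [div_le_iff₀ hη] at this
    linarith
  obtain ⟨G, hG⟩ : ∃ G, G = {w | w ∈ WL (b' + 1 + k) ∧ ∃ V ∈ V2 η (b' + 1) y, ∃ R, w = V ++ R} := ⟨_, rfl⟩
  obtain ⟨XX, hXX⟩ : ∃ XX : Set (List Bool), XX = {A | ∃ l : Bool, rev (l :: A) ∈ Lb (b' + 1)} := ⟨_, rfl⟩
  obtain ⟨Y, hY⟩ : ∃ Y : List Bool → Set (List Bool), Y = fun A =>
    {w' | w' ∈ {Y : List Bool | Y ∈ SA ∧ rev Y ∈ GT b' (η / 8) ∧ In (2 ^ (b' + (k + 7))) Y} ∧ y - (A.length + 1) ≤ w'.length} := ⟨_, rfl⟩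
  have key : ENNReal.ofReal (η / 4 * Ub (b' + 1)) * gf G ≤ ∑' A : List Bool, if A ∈ XX then wE A * gf (Y A) else 0 := by
    refine dcs (Y := Y) ?_
    intro w hw
    rw [hG] at hw
    obtain ⟨hwW, V, ⟨l, hV, hy⟩, R, rfl⟩ := hw
    obtain ⟨X, hX⟩ : ∃ X, X = rev (l :: V) := ⟨_, rfl⟩
    have hXl : X.length = V.length + 1 := by rw [hX, rev_length, List.length_cons]
    have hrX : rev X = l :: V := by rw [hX, rev_rev]
    rw [← hX] at hV
    have hX' : η * Ub (b' + 1) ≤ ((cs (b' + 1) X).card : ℝ) := hV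
    have hr := rich' b' η X hη
    obtain ⟨T0, hT0⟩ : ∃ T0, T0 = (cs (b' + 1) X).filter fun j => ¬ X.take j ∉ GT b' (η / 8) := ⟨_, rfl⟩
    have hcard : η / 2 * Ub (b' + 1) ≤ (T0.card : ℝ) := by
      have h3 := card_filter_add_card_filter_not (s := cs (b' + 1) X) (fun j => X.take j ∉ GT b' (η / 8))
      have h4 : (((cs (b' + 1) X).filter fun j => X.take j ∉ GT b' (η / 8)).card : ℝ) + (T0.card : ℝ) =
          ((cs (b' + 1) X).card : ℝ) := by
        rw [hT0]
        exact_mod_cast h3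
      linarith
    obtain ⟨T, hT⟩ : ∃ T, T = T0.erase X.length := ⟨_, rfl⟩
    have hcard2 : η / 4 * Ub (b' + 1) ≤ (T.card : ℝ) := by
      have h3 : T0.card ≤ T.card + 1 := by
        rw [hT]
        have := pred_card_le_card_erase (s := T0) (a := X.length)
        omega
      have h4 : (T0.card : ℝ) ≤ T.card + 1 := by exact_mod_cast h3
      nlinarith
    have hTm : ∀ j ∈ T, j ≤ V.length ∧ X.drop j ∈ Lb (b' + 1) ∧ X.take j ∈ GT b' (η / 8) := by
      intro j hj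
      rw [hT, mem_erase, hT0, mem_filter, not_not, mem_cs] at hj
      obtain ⟨hj0, ⟨hj1, hj2, hj3, -⟩, hj4⟩ := hj
      exact ⟨by omega, ⟨hj2, hj3⟩, hj4⟩
    refine ⟨T.image fun j => V.length - j, ?_, ?_⟩
    · rw [card_image_of_injOn]
      · calc ENNReal.ofReal (η / 4 * Ub (b' + 1)) ≤ ENNReal.ofReal (T.card : ℝ) := ENNReal.ofReal_le_ofReal hcard2
          _ = _ := ENNReal.ofReal_natCast _
      · intro j hj j' hj' he
        have a1 := (hTm j hj).1
        have a2 := (hTm j' hj').1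
        have he' : V.length - j = V.length - j' := he
        omega
    · intro q hq
      rw [mem_image] at hq
      obtain ⟨j, hj, rfl⟩ := hq
      obtain ⟨a1, a2, a3⟩ := hTm j hj
      have e0 : rev X = rev (X.drop j) ++ rev (X.take j) := by
        rw [← TD.rev_append', List.take_append_drop]
      have e1 : (rev (X.drop j)).length = V.length - j + 1 := by
        rw [rev_length, List.length_drop]
        omega
      have e2 : rev (X.drop j) = l :: V.take (V.length - j) := by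
        have h3 : (rev X).take (V.length - j + 1) = rev (X.drop j) := by
          rw [e0, List.take_left' e1]
        rw [← h3, hrX, List.take_succ_cons]
      have e3 : rev (X.take j) = V.drop (V.length - j) := by
        have h3 : (rev X).drop (V.length - j + 1) = rev (X.take j) := by
          rw [e0, List.drop_left' e1]
        rw [← h3, hrX, List.drop_succ_cons]
      have e4 : (V ++ R).take (V.length - j) = V.take (V.length - j) := List.take_append_of_le_length (by omega)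
      have e5 : (V ++ R).drop (V.length - j) = rev (X.take j) ++ R := by
        rw [List.drop_append_of_le_length (by omega), e3]
      rw [e4, e5]
      refine ⟨by rw [List.length_append]; omega, ?_, ?_⟩
      · rw [hXX]
        refine ⟨l, ?_⟩
        rw [← e2, rev_rev]
        exact a2
      · rw [hY]
        have hd := NgC.drop_box hwW (a := V.length - j) (by rw [List.length_append]; omega)
        rw [e5] at hd
        refine ⟨⟨hd.1, ?_, ?_⟩, ?_⟩
        · rw [TD.rev_append', rev_rev]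
          exact NPR.GT_left a3
        · have := WL_In hd
          rwa [show b' + 1 + k + 3 + 3 = b' + (k + 7) by ring] at this
        · rw [List.length_append, rev_length, List.length_take, List.length_take]
          omega
  have hYA : ∀ A : List Bool, gf (Y A) ≤ ENNReal.ofReal (C1 * Cm ^ q / (1 + (y : ℝ) / ml (b' + 1)) ^ q *
      (1 + ((A.length + 1 : ℕ) : ℝ) / ml (b' + 1)) ^ q * Ub b') * Xb b' := by
    intro A
    have h3 := h1 b' (y - (A.length + 1))
    rw [hY]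
    refine h3.trans (mul_le_mul' (ENNReal.ofReal_le_ofReal (mul_le_mul_of_nonneg_right ?_ hU'.le)) le_rfl)
    have hml : ml (b' + 1) = Cm * ml b' := by
      rw [ml_add, hCm]
      norm_num
    have g1 : (y : ℝ) ≤ ((y - (A.length + 1) : ℕ) : ℝ) + ((A.length + 1 : ℕ) : ℝ) := by
      exact_mod_cast (by omega : y ≤ (y - (A.length + 1)) + (A.length + 1))
    obtain ⟨u, hu⟩ : ∃ u : ℝ, u = ((y - (A.length + 1) : ℕ) : ℝ) := ⟨_, rfl⟩
    obtain ⟨v, hv⟩ : ∃ v : ℝ, v = ((A.length + 1 : ℕ) : ℝ) := ⟨_, rfl⟩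
    have hu0 : 0 ≤ u := by rw [hu]; positivity
    have hv0 : 0 ≤ v := by rw [hv]; positivity
    rw [← hu, ← hv] at g1
    rw [← hu, ← hv]
    have g2 : 1 + (y : ℝ) / ml (b' + 1) ≤ (1 + u / ml b') * (1 + v / ml (b' + 1)) := by
      have g3 : (y : ℝ) / ml (b' + 1) ≤ u / ml b' + v / ml (b' + 1) := by
        calc (y : ℝ) / ml (b' + 1) ≤ (u + v) / ml (b' + 1) := div_le_div_of_nonneg_right g1 hm.le
          _ = u / ml (b' + 1) + v / ml (b' + 1) := add_div _ _ _
          _ ≤ _ := by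
            gcongr
      have g4 : 0 ≤ u / ml b' * (v / ml (b' + 1)) := by positivity
      nlinarith
    have g5 : (1 + (y : ℝ) / ml (b' + 1)) ^ q ≤ (1 + u / ml b') ^ q * (1 + v / ml (b' + 1)) ^ q := by
      rw [← mul_pow]
      exact pow_le_pow_left₀ (by positivity) g2 q
    rw [div_le_iff₀ (by positivity)]
    have g6 : 1 ≤ Cm ^ q := one_le_pow₀ hCm1
    calc C1 ≤ C1 * Cm ^ q * 1 := by nlinarith
      _ ≤ C1 * Cm ^ q * ((1 + u / ml b') ^ q * (1 + v / ml (b' + 1)) ^ q / (1 + (y : ℝ) / ml (b' + 1)) ^ q) := by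
          gcongr
          rwa [one_le_div (by positivity)]
      _ = _ := by ring
  rw [← hG]
  have hfin : ∑' A : List Bool, (if A ∈ XX then wE A * gf (Y A) else 0) ≤
      ENNReal.ofReal (C1 * Cm ^ q / (1 + (y : ℝ) / ml (b' + 1)) ^ q * Ub (b' + 1)) * Xb (b' + 1) *
        ENNReal.ofReal (C2 * Ub (b' + 1)) := by
    refine le_trans ?_ (mul_le_mul' le_rfl (h2 (b' + 1)))
    rw [← ENNReal.tsum_mul_left]
    refine ENNReal.tsum_le_tsum fun A => ?_
    by_cases hA : A ∈ XX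
    · have hA' : ∃ l : Bool, rev (l :: A) ∈ Lb (b' + 1) := by
        rw [hXX] at hA
        exact hA
      rw [if_pos hA, if_pos hA']
      refine (mul_le_mul' le_rfl (hYA A)).trans ?_
      have e1 : ENNReal.ofReal (C1 * Cm ^ q / (1 + (y : ℝ) / ml (b' + 1)) ^ q *
          (1 + ((A.length + 1 : ℕ) : ℝ) / ml (b' + 1)) ^ q * Ub b') ≤
          ENNReal.ofReal (C1 * Cm ^ q / (1 + (y : ℝ) / ml (b' + 1)) ^ q * Ub (b' + 1)) *
            ENNReal.ofReal ((1 + ((A.length + 1 : ℕ) : ℝ) / ml (b' + 1)) ^ q) := by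
        rw [← ENNReal.ofReal_mul (by positivity)]
        refine ENNReal.ofReal_le_ofReal ?_
        rw [mul_right_comm]
        gcongr
      calc _ ≤ wE A * (ENNReal.ofReal (C1 * Cm ^ q / (1 + (y : ℝ) / ml (b' + 1)) ^ q * Ub (b' + 1)) *
            ENNReal.ofReal ((1 + ((A.length + 1 : ℕ) : ℝ) / ml (b' + 1)) ^ q) * Xb (b' + 1)) :=
            mul_le_mul' le_rfl (mul_le_mul' e1 (Xb_mono (by omega)))
        _ = _ := by ring
    · rw [if_neg hA]
      exact zero_le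
  have e3 : ENNReal.ofReal (4 / η / Ub (b' + 1)) * ENNReal.ofReal (η / 4 * Ub (b' + 1)) = 1 := by
    rw [← ENNReal.ofReal_mul (by positivity)]
    have : 4 / η / Ub (b' + 1) * (η / 4 * Ub (b' + 1)) = 1 := by
      field_simp
    rw [this, ENNReal.ofReal_one]
  calc gf G = ENNReal.ofReal (4 / η / Ub (b' + 1)) * (ENNReal.ofReal (η / 4 * Ub (b' + 1)) * gf G) := by
        rw [← mul_assoc, e3, one_mul]
    _ ≤ ENNReal.ofReal (4 / η / Ub (b' + 1)) * (ENNReal.ofReal (C1 * Cm ^ q / (1 + (y : ℝ) / ml (b' + 1)) ^ q *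
          Ub (b' + 1)) * Xb (b' + 1) * ENNReal.ofReal (C2 * Ub (b' + 1))) := mul_le_mul' le_rfl (key.trans hfin)
    _ = ENNReal.ofReal (4 / η / Ub (b' + 1)) * ENNReal.ofReal (C1 * Cm ^ q / (1 + (y : ℝ) / ml (b' + 1)) ^ q *
          Ub (b' + 1)) * ENNReal.ofReal (C2 * Ub (b' + 1)) * Xb (b' + 1) := by ring
    _ = _ := by
        rw [← ENNReal.ofReal_mul (by positivity), ← ENNReal.ofReal_mul (by positivity)]
        congr 2
        field_simp

/-! ### 3. Two ends -/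

lemma in_WL {K : ℕ} {P : List Bool} (h : P ∈ SA) (hI : In (2 ^ K) P) : P ∈ WL (K + 2) := by
  refine ⟨h, fun i hi dir => ?_⟩
  obtain ⟨a1, a2⟩ := RevM.In_coord hI hi
  have e : mulE (1, 0) (vx oo up P i) = vx oo up P i := by
    ext <;> simp [mulE]
  refine (RevM.row_of (c := (1, 0)) (by decide) (B := ((2 ^ K : ℕ) : ℤ)) (by rw [e]; exact a1) (by rw [e]; exact a2) dir).trans ?_
  have h1 : (1 : ℤ) ≤ 2 ^ K := one_le_pow₀ (by norm_num)
  push_cast
  rw [pow_add]
  omega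

/-- two good ends -/
def PP (η : ℝ) (b c : ℕ) : Set (List Bool) :=
  {P : List Bool | P ∈ SA ∧ In (2 ^ (b + c)) P ∧ ∃ W X, P = W ++ X ∧ rev W ∈ GT b η ∧ X ∈ GT b η}

lemma cancelX {b : ℕ} {g : ℝ≥0∞} {x : ℝ} (h : g * Xb b ≤ ENNReal.ofReal x * Xb b) : g ≤ ENNReal.ofReal x :=
  (ENNReal.mul_le_mul_iff_left (Xb_ne_zero b) (Xb_ne_top b)).1 h

lemma case1 (h : YMassW) (η : ℝ) (c q : ℕ) (hη : 0 < η) : ∃ C : ℝ, 0 < C ∧ ∀ b y : ℕ, 1 ≤ b →
    gf {P | P ∈ SA ∧ In (2 ^ (b + c)) P ∧ ∃ W X, P = W ++ X ∧ rev W ∈ GT b η ∧ X ∈ GT b η ∧ y ≤ W.length} ≤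
      ENNReal.ofReal (C / (1 + (y : ℝ) / ml b) ^ q * Ub b) := by
  obtain ⟨C1, hC1, h1⟩ := ymass_tail h η (c + 8) q hη
  obtain ⟨C2, hC2, h2⟩ := end_rich hη
  refine ⟨C2 * C1, by positivity, fun b y hb => cancelX (b := b) ?_⟩
  have hU := Ub_pos b
  have hm := ml_pos b
  refine (mul_le_mul' (gf_mono ?_) le_rfl).trans ((h2 (V1 η b y) (b + c + 2) b _ hb (by omega)
    (m1 (k := c + 5))).trans ((mul_le_mul' le_rfl (h1 b y)).trans (le_of_eq ?_)))
  · rintro P ⟨a1, a2, W, X, rfl, a3, a4, a5⟩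
    exact ⟨in_WL a1 a2, W, ⟨a3, a5⟩, X, rfl, a4⟩
  · rw [← mul_assoc, ← ENNReal.ofReal_mul hC2.le]
    congr 2
    ring

lemma case2 (h : YMassW) (η : ℝ) (c q : ℕ) (hη : 0 < η) : ∃ (C : ℝ) (b0 : ℕ), 0 < C ∧ ∀ b y : ℕ, b0 ≤ b → 1 ≤ y →
    gf {P | P ∈ SA ∧ In (2 ^ (b + c)) P ∧ ∃ W X, P = W ++ X ∧ rev W ∈ GT b η ∧ X ∈ GT b η ∧ y ≤ X.length} ≤
      ENNReal.ofReal (C / (1 + (y : ℝ) / ml b) ^ q * Ub b) := by
  obtain ⟨C1, b0, hC1, h1⟩ := m2 h η (c + 6) q hη
  obtain ⟨C2, hC2, h2⟩ := end_rich hη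
  refine ⟨3 * (C2 * C1), b0 + 1, by positivity, fun b y hb hy => ?_⟩
  have hU := Ub_pos b
  have hm := ml_pos b
  obtain ⟨Q, hQ⟩ : ∃ Q, Q = {P | P ∈ WL (b + c + 3) ∧ ∃ V ∈ V2 η b y, ∃ X, P = V ++ X ∧ X ∈ GT b η} := ⟨_, rfl⟩
  have h3 : gf Q ≤ ENNReal.ofReal (C2 * C1 / (1 + (y : ℝ) / ml b) ^ q * Ub b) := by
    refine cancelX (b := b) ?_
    rw [hQ]
    refine (h2 (V2 η b y) (b + c + 3) b _ (by omega) (by omega) (h1 b y (by omega))).trans (le_of_eq ?_)
    rw [← mul_assoc, ← ENNReal.ofReal_mul hC2.le]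
    congr 2
    ring
  have h4 : gf {P | P ∈ SA ∧ In (2 ^ (b + c)) P ∧ ∃ W X, P = W ++ X ∧ rev W ∈ GT b η ∧ X ∈ GT b η ∧ y ≤ X.length} ≤
      1 * (gf Q * gf {t : List Bool | t.length ≤ 1}) := by
    refine gf_le_pair 1 (fun P => (rev P).drop 1) (fun P => (rev P).take 1) ?_ ?_ ?_ ?_
    · rintro P ⟨a1, a2, W, X, rfl, a3, a4, a5⟩
      rw [hQ]
      have e1 : rev (W ++ X) = rev X ++ rev W := TD.rev_append' _ _
      obtain ⟨l, V, hV⟩ : ∃ l V, rev X = l :: V := by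
        cases hr : rev X with
        | nil =>
          have := rev_length X
          rw [hr] at this
          simp only [List.length_nil] at this
          omega
        | cons l V => exact ⟨l, V, rfl⟩
      have e2 : (rev (W ++ X)).drop 1 = V ++ rev W := by
        rw [e1, hV]
        rfl
      have hb1 := RevM.box1 a2 a1 (K := b + c + 3) (by
        have e3 : 1 ≤ 2 ^ (b + c) := Nat.one_le_two_pow
        have e4 : 2 ^ (b + c + 3) = 8 * 2 ^ (b + c) := by ring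
        omega)
      refine ⟨hb1, V, ⟨l, ?_, ?_⟩, rev W, e2, a3⟩
      · rw [← hV, rev_rev]
        exact a4
      · have := rev_length X
        rw [hV, List.length_cons] at this
        omega
    · intro P _
      show ((rev P).take 1).length ≤ 1
      rw [List.length_take]
      omega
    · intro s _ t _ g1 g2
      have g3 : rev s = rev t := by
        rw [← List.take_append_drop 1 (rev s), ← List.take_append_drop 1 (rev t)]
        exact congrArg₂ (· ++ ·) g2 g1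
      rw [← rev_rev s, g3, rev_rev]
    · intro P _
      rw [one_mul, mul_comm, ← wE_append, List.take_append_drop, wE_rev]
  refine h4.trans ?_
  rw [one_mul]
  refine (mul_le_mul' h3 RevM.gf_short).trans (le_of_eq ?_)
  rw [show (3 : ℝ≥0∞) = ENNReal.ofReal 3 by simp, ← ENNReal.ofReal_mul (by positivity)]
  congr 1
  ring

lemma tail (h : YMassW) (η : ℝ) (c q : ℕ) (hη : 0 < η) : ∃ (C : ℝ) (b0 : ℕ), 0 < C ∧ ∀ b y : ℕ, b0 ≤ b →
    gf {P | P ∈ PP η b c ∧ y ≤ P.length} ≤ ENNReal.ofReal (C / (1 + (y : ℝ) / ml b) ^ q * Ub b) := by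
  obtain ⟨C1, hC1, h1⟩ := case1 h η c q hη
  obtain ⟨C2, b0, hC2, h2⟩ := case2 h η c q hη
  refine ⟨2 ^ q * (C1 + C2), b0 + 1, by positivity, fun b y hb => ?_⟩
  have hU := Ub_pos b
  have hm := ml_pos b
  obtain ⟨y', hy'⟩ : ∃ y', y' = (y + 1) / 2 := ⟨_, rfl⟩
  have g1 : (1 + (y : ℝ) / ml b) ≤ 2 * (1 + (y' : ℝ) / ml b) := by
    have g2 : (y : ℝ) ≤ 2 * y' := by exact_mod_cast (by omega : y ≤ 2 * y')
    have g3 : (y : ℝ) / ml b ≤ 2 * y' / ml b := div_le_div_of_nonneg_right g2 hm.le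
    have g4 : 2 * (y' : ℝ) / ml b = 2 * (y' / ml b) := by ring
    linarith
  have g5 : ∀ C : ℝ, 0 < C → C / (1 + (y' : ℝ) / ml b) ^ q ≤ 2 ^ q * C / (1 + (y : ℝ) / ml b) ^ q := by
    intro C hC
    rw [div_le_div_iff₀ (by positivity) (by positivity)]
    have g6 : (1 + (y : ℝ) / ml b) ^ q ≤ 2 ^ q * (1 + (y' : ℝ) / ml b) ^ q := by
      rw [← mul_pow]
      exact pow_le_pow_left₀ (by positivity) g1 q
    nlinarith
  rcases Nat.eq_zero_or_pos y' with h0 | h0
  · refine (gf_mono ?_).trans ((h1 b y' (by omega)).trans (ENNReal.ofReal_le_ofReal (mul_le_mul_of_nonneg_right ?_ hU.le)))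
    · rintro P ⟨⟨a1, a2, W, X, a3, a4, a5⟩, -⟩
      exact ⟨a1, a2, W, X, a3, a4, a5, by omega⟩
    · refine (g5 C1 hC1).trans ?_
      gcongr
      linarith
  · have hsub : {P | P ∈ PP η b c ∧ y ≤ P.length} ⊆
        {P | P ∈ SA ∧ In (2 ^ (b + c)) P ∧ ∃ W X, P = W ++ X ∧ rev W ∈ GT b η ∧ X ∈ GT b η ∧ y' ≤ W.length} ∪
        {P | P ∈ SA ∧ In (2 ^ (b + c)) P ∧ ∃ W X, P = W ++ X ∧ rev W ∈ GT b η ∧ X ∈ GT b η ∧ y' ≤ X.length} := by
      rintro P ⟨⟨a1, a2, W, X, a3, a4, a5⟩, a6⟩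
      rw [a3, List.length_append] at a6
      rcases Nat.lt_or_ge W.length y' with h3 | h3
      · exact Or.inr ⟨a1, a2, W, X, a3, a4, a5, by omega⟩
      · exact Or.inl ⟨a1, a2, W, X, a3, a4, a5, h3⟩
    refine (gf_mono hsub).trans ((gf_union_le _ _).trans ((add_le_add (h1 b y' (by omega)) (h2 b y' (by omega) h0)).trans ?_))
    rw [← ENNReal.ofReal_add (by positivity) (by positivity)]
    refine ENNReal.ofReal_le_ofReal ?_
    rw [← add_mul]
    refine mul_le_mul_of_nonneg_right ?_ hU.le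
    refine (add_le_add (g5 C1 hC1) (g5 C2 hC2)).trans (le_of_eq ?_)
    ring

end PM

open PM

/-- **two-ended moments** -/
theorem pm2_of (h : YMassW) : PM2 := by
  intro η c q hη
  obtain ⟨C, b0, hC, h1⟩ := PM.tail h η c (q + 1) hη
  refine ⟨2 ^ q * C + 2 * 4 ^ q * C, b0, by positivity, fun b hb => ?_⟩
  have hU := Ub_pos b
  have hm := ml_pos b
  have key := BM.mom_of_tail (S := PP η b c) (f := fun P => (P.length : ℝ) / ml b) (fun P => by positivity) q
    (A := C * Ub b) (B := C * Ub b) (by positivity) (by positivity) (by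
      refine le_trans ?_ ((h1 b 0 hb).trans (le_of_eq ?_))
      · exact gf_mono fun P hP => ⟨hP, Nat.zero_le _⟩
      · simp) (fun n => by
      refine (gf_mono ?_).trans ((h1 b ⌈(2 : ℝ) ^ n * ml b⌉₊ hb).trans (ENNReal.ofReal_le_ofReal ?_))
      · rintro P ⟨a1, a2⟩
        refine ⟨a1, Nat.ceil_le.2 ?_⟩
        exact (le_div_iff₀ hm).1 a2
      · rw [div_mul_eq_mul_div]
        refine div_le_div_of_nonneg_left (by positivity) (by positivity) (pow_le_pow_left₀ (by positivity) ?_ _)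
        have g1 := Nat.le_ceil ((2 : ℝ) ^ n * ml b)
        have g2 : (2 : ℝ) ^ n ≤ (⌈(2 : ℝ) ^ n * ml b⌉₊ : ℝ) / ml b := by rwa [le_div_iff₀ hm]
        linarith)
  refine le_trans (le_of_eq rfl) (key.trans (ENNReal.ofReal_le_ofReal (le_of_eq ?_)))
  ring

end ARM

end HexObs
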