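import Pool.Agent.ARM.RetA

/-!
# ARM2, row PMV, first half (helper15): two-ended words with a near return to a vertex k letters before the end

* `rich_pairs2` : the pairs of cuts of helper44, with the bridge before the first cut;
* `startA` : the mean number of the points near a word behind a good start of the scale b, with a good end of the scale b1;
* **`gk_mass`** : the mass of the words with a good start, a good end, a vertex a, behind it a rich bridge of the scale b1 and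
  behind it the vertex k letters before the end, at distance less than ρ of the vertex a.
-/

set_option autoImplicit false

namespace HexObs

namespace ARM

open Finset TS SDN NTW NTA HexObs.SIM TIP TIW NPR

open scoped ENNReal

/-! ### 1. Pairs of cuts -/

/-- **pairs of cuts of a rich bridge**, with the bridge before the first cut -/
theorem rich_pairs2 {κ : ℝ} {C b : ℕ} {t X Z Y : List Bool} (ht : t = X ++ (Z ++ Y)) (hZ : Z ∈ Zc κ C b)
    (hbig : 16 ≤ κ * Ub b) : ∃ S : Finset (ℕ × ℕ), (κ / 8 * Ub b) ^ 2 ≤ (S.card : ℝ) ∧ ∀ q ∈ S, q.1 ≤ q.2 ∧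
      q.2 ≤ t.length ∧ t.take q.1 ∈ GT b (κ / 8) ∧
      (∃ Z1 : List Bool, t.take q.1 = X ++ Z1 ∧ Z1 ∈ BU ∧ 2 ^ (b + 1) ≤ hgt Z1) ∧
      (∃ N Z3 : List Bool, t.drop q.2 = N ++ (Z3 ++ Y) ∧ N ∈ BU ∧ Z3 ∈ BU ∧
        hgt N ≤ 2 ^ b ∧ 2 ^ (b + 1) ≤ hgt Z3 ∧ κ / 8 * Ub b ≤ (nc N : ℝ)) ∧
      ∃ m : ℕ, κ / 8 * Ub b ≤ (m : ℝ) ∧ (t.take q.2).drop q.1 ∈ Ir m := by
  classical
  obtain ⟨Z1, Z2, Z3, e, z1, z2, z3, g1, g3, g2, hc, -⟩ := hZ
  obtain ⟨a, ha⟩ : ∃ a, a = ⌈κ / 8 * Ub b⌉₊ := ⟨_, rfl⟩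
  have ha1 : κ / 8 * Ub b ≤ (a : ℝ) := by
    rw [ha]
    exact Nat.le_ceil _
  have ha2 : (a : ℝ) < κ / 8 * Ub b + 1 := by
    rw [ha]
    exact Nat.ceil_lt_add_one (by linarith)
  have ha0 : 2 ≤ a := by
    have : (2 : ℝ) ≤ a := by linarith
    exact_mod_cast this
  have hma : 8 * a ≤ nc Z2 + 7 := by
    have : (8 * a : ℝ) < nc Z2 + 8 := by linarith
    have : 8 * a < nc Z2 + 8 := by exact_mod_cast this
    omega
  have key : ∀ p : ℕ × ℕ, ∃ M V N : List Bool, p.1 < a → p.2 < a → Z2 = M ++ (V ++ N) ∧ M ∈ BU ∧ V ∈ BU ∧ N ∈ BU ∧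
      nc M = a + p.1 ∧ V ∈ Ir (2 * a + 1 + p.2 - p.1) ∧ nc (M ++ V) = 3 * a + 1 + p.2 ∧ a ≤ nc N := by
    intro p
    by_cases hp : p.1 < a ∧ p.2 < a
    · obtain ⟨hp1, hp2⟩ := hp
      obtain ⟨M, N, hM, hN, e2, c1, c2⟩ := nc_split z2 (i := a + p.1) (by omega) (by omega)
      obtain ⟨V, N', hV, hN', e3, c3⟩ := ir_front hN (n := 2 * a + 1 + p.2 - p.1) (by omega)
      refine ⟨M, V, N', fun _ _ => ⟨by rw [e2, e3], hM, Ir_BU hV, hN', c1, hV, ?_, by omega⟩⟩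
      have h1 := nc_app hM (Ir_BU hV)
      rw [nc_Ir hV] at h1
      omega
    · exact ⟨[], [], [], fun h1 h2 => (hp ⟨h1, h2⟩).elim⟩
  choose M V N hk using key
  obtain ⟨f, hf⟩ : ∃ f : ℕ × ℕ → ℕ × ℕ, f = fun p => ((X ++ (Z1 ++ M p)).length, (X ++ (Z1 ++ (M p ++ V p))).length) := ⟨_, rfl⟩
  refine ⟨(range a ×ˢ range a).image f, ?_, fun q hq => ?_⟩
  · have hinj : Set.InjOn f (↑(range a ×ˢ range a) : Set (ℕ × ℕ)) := by
      intro p hp p' hp' he
      rw [coe_product, Set.mem_prod, mem_coe, mem_coe, mem_range, mem_range] at hp hp'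
      obtain ⟨h1, -, -, -, h2, -, h3, -⟩ := hk p hp.1 hp.2
      obtain ⟨h1', -, -, -, h2', -, h3', -⟩ := hk p' hp'.1 hp'.2
      rw [hf] at he
      have he1 := congrArg Prod.fst he
      have he2 := congrArg Prod.snd he
      simp only [List.length_append] at he1 he2
      have m1 : M p = M p' := (List.append_inj (h1.symm.trans h1') (by omega)).1
      have h4 : (M p ++ V p) ++ N p = (M p' ++ V p') ++ N p' := by
        rw [List.append_assoc, List.append_assoc]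
        exact h1.symm.trans h1'
      have m2 : M p ++ V p = M p' ++ V p' := (List.append_inj h4 (by simp only [List.length_append]; omega)).1
      rw [m1] at h2
      rw [m2] at h3
      refine Prod.ext ?_ ?_
      · omega
      · omega
    rw [card_image_of_injOn hinj, card_product, card_range]
    push_cast
    rw [← pow_two]
    exact pow_le_pow_left₀ (by linarith) ha1 2
  · rw [mem_image] at hq
    obtain ⟨p, hp, rfl⟩ := hq
    rw [mem_product, mem_range, mem_range] at hp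
    obtain ⟨h1, hM, hV, hN, h2, h5, h3, h4⟩ := hk p hp.1 hp.2
    have e1 : t = (X ++ (Z1 ++ M p)) ++ (V p ++ (N p ++ (Z3 ++ Y))) := by
      rw [ht, e, h1]
      simp only [List.append_assoc]
    have e2 : t = (X ++ (Z1 ++ (M p ++ V p))) ++ (N p ++ (Z3 ++ Y)) := by
      rw [ht, e, h1]
      simp only [List.append_assoc]
    have hh1 := hgt_app hM (BU_app hV hN)
    have hh2 := hgt_app hV hN
    rw [← h1] at hh1
    rw [hf]
    show (X ++ (Z1 ++ M p)).length ≤ (X ++ (Z1 ++ (M p ++ V p))).length ∧ (X ++ (Z1 ++ (M p ++ V p))).length ≤ t.length ∧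
      t.take (X ++ (Z1 ++ M p)).length ∈ GT b (κ / 8) ∧
      (∃ Z1' : List Bool, t.take (X ++ (Z1 ++ M p)).length = X ++ Z1' ∧ Z1' ∈ BU ∧ 2 ^ (b + 1) ≤ hgt Z1') ∧
      (∃ N Z3 : List Bool, t.drop (X ++ (Z1 ++ (M p ++ V p))).length =
        N ++ (Z3 ++ Y) ∧ N ∈ BU ∧ Z3 ∈ BU ∧ hgt N ≤ 2 ^ b ∧ 2 ^ (b + 1) ≤ hgt Z3 ∧ κ / 8 * Ub b ≤ (nc N : ℝ)) ∧
      ∃ m : ℕ, κ / 8 * Ub b ≤ (m : ℝ) ∧ (t.take (X ++ (Z1 ++ (M p ++ V p))).length).drop (X ++ (Z1 ++ M p)).length ∈ Ir m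
    refine ⟨?_, ?_, ?_, ⟨Z1 ++ M p, ?_, BU_app z1 hM, ?_⟩, ⟨N p, Z3, ?_, hN, z3, by omega, g3, ?_⟩,
      2 * a + 1 + p.2 - p.1, ?_, ?_⟩
    · simp only [List.length_append]
      omega
    · rw [e2]
      simp only [List.length_append]
      omega
    · rw [e1, List.take_left' rfl]
      refine ne_A z1 g1 hM (by omega) ?_
      rw [h2]
      push_cast
      have : (0 : ℝ) ≤ p.1 := Nat.cast_nonneg _
      linarith
    · rw [e1, List.take_left' rfl]
    · rw [hgt_app z1 hM]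
      omega
    · rw [e2, List.drop_left' rfl]
    · have : (a : ℝ) ≤ (nc (N p) : ℝ) := by exact_mod_cast h4
      linarith
    · have h6 : a ≤ 2 * a + 1 + p.2 - p.1 := by omega
      have : (a : ℝ) ≤ ((2 * a + 1 + p.2 - p.1 : ℕ) : ℝ) := by exact_mod_cast h6
      linarith
    · have e3 : t.take (X ++ (Z1 ++ (M p ++ V p))).length = (X ++ (Z1 ++ M p)) ++ V p := by
        rw [e2, List.take_left' rfl]
        simp only [List.append_assoc]
      rw [e3, List.drop_left' rfl]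
      exact h5

/-! ### 2. The starts -/

/-- a piece that ends with a high bridge -/
lemma SV_of {VV : Set (List Bool)} {K b : ℕ} {V R T : List Bool} (hV : V ∈ VV) (hT : T ∈ BU) (hT2 : 2 ^ (b + 1) ≤ hgt T)
    (hp : V ++ (R ++ T) ∈ WL K) : V ++ (R ++ T) ∈ SV VV K b := by
  have e1 : V ++ (R ++ T) = (V ++ R) ++ T := by rw [List.append_assoc]
  refine ⟨hp, V, R ++ T, (V ++ R).length, rfl, hV, by rw [List.length_append]; omega, ?_, ?_⟩
  · simp only [List.length_append]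
    omega
  · rw [e1, lv_fr_app (V ++ R) T hT, vx_append (by omega)]
    have h4 : TIP.fr (V ++ R) (vx oo up (V ++ R) (V ++ R).length) = 0 := by
      unfold TIP.fr tipv
      rw [sub_self]
      unfold mulE
      ext <;> simp
    rw [h4]
    have h5 : lv (0 : Pt) = 0 := by
      rw [lv_ip]
      unfold ip
      simp
    rw [h5]
    have h6 : (2 : ℤ) ^ (b + 1) ≤ hgt T := by exact_mod_cast hT2
    omega

/-- good starts, then a part that ends near y -/
def VG (η : ℝ) (D b ρ : ℕ) (y : Pt) : Set (List Bool) :=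
  {V | ∃ S ∈ NPR.GS η D b, ∃ R, V = S ++ R ∧ R ≠ [] ∧ hn (TIW.en V - y) < ρ}

/-- the points at distance less than ρ from a vertex behind the good start of the scale b and before the high bridge at the
end -/
def YA (η : ℝ) (D b b1 ρ : ℕ) (A : List Bool) : Set Pt :=
  {y | ∃ S ∈ NPR.GS η D b, ∃ X Z1 : List Bool, A = S ++ (X ++ Z1) ∧ Z1 ∈ BU ∧ 2 ^ (b1 + 1) ≤ hgt Z1 ∧
    ∃ a, S.length < a ∧ a ≤ (S ++ X).length ∧ hn (vx oo up A a - y) < ρ}

open Classical in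
/-- their number -/
noncomputable def nA (η : ℝ) (D b b1 ρ : ℕ) (A : List Bool) : ℝ≥0∞ := ∑' y : Pt, if y ∈ YA η D b b1 ρ A then 1 else 0

lemma YA_SV {η : ℝ} {D b b1 ρ K : ℕ} {A : List Bool} (hA : A ∈ WL K) {y : Pt} (hy : y ∈ YA η D b b1 ρ A) :
    A ∈ SV (VG η D b ρ y) K b1 := by
  obtain ⟨S, hS, X, Z1, rfl, hZ, hZh, a, ha1, ha2, hd⟩ := hy
  rw [List.length_append] at ha2
  have hlt : (X.take (a - S.length)).length = a - S.length := by
    rw [List.length_take]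
    omega
  have e0 : S ++ (X ++ Z1) = (S ++ X.take (a - S.length)) ++ (X.drop (a - S.length) ++ Z1) := by
    rw [List.append_assoc, ← List.append_assoc (X.take _), List.take_append_drop]
  rw [e0] at hA ⊢
  refine SV_of ⟨S, hS, X.take (a - S.length), rfl, ?_, ?_⟩ hZ hZh hA
  · intro h0
    rw [h0, List.length_nil] at hlt
    omega
  · have h1 : TIW.en (S ++ X.take (a - S.length)) = vx oo up (S ++ (X ++ Z1)) a := by
      have hl : (S ++ X.take (a - S.length)).length = a := by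
        rw [List.length_append, hlt]
        omega
      unfold TIW.en
      rw [hl, e0]
      exact (vx_append (by omega)).symm
    rw [h1]
    exact hd

open Classical in
/-- **the mean number of the points near a word behind a good start**, with a good end -/
theorem startA {η η' : ℝ} (hη : 0 < η) (hη' : 0 < η') (D : ℕ) : ∃ C : ℝ, 0 < C ∧ ∀ K b b1 ρ : ℕ, b ≠ 0 → b1 ≤ b → b ≤ K →
    (∑' A : List Bool, if A ∈ WL K ∩ GT b1 η' then wE A * nA η D b b1 ρ A else 0) * (Xb b1 * Xb b) ≤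
      ENNReal.ofReal C * SS (K + 9) ρ := by
  obtain ⟨C1, hC1, h1⟩ := end_SV hη'
  obtain ⟨C2, hC2, h2⟩ := startSaus hη
  refine ⟨C1 * C2, by positivity, fun K b b1 ρ hb0 hb1 hb => ?_⟩
  have e1 : (∑' A : List Bool, if A ∈ WL K ∩ GT b1 η' then wE A * nA η D b b1 ρ A else 0) ≤
      ∑' y : Pt, gf (SV (VG η D b ρ y) K b1 ∩ GT b1 η') := by
    calc (∑' A : List Bool, if A ∈ WL K ∩ GT b1 η' then wE A * nA η D b b1 ρ A else 0)
        ≤ ∑' A : List Bool, ∑' y : Pt, if A ∈ SV (VG η D b ρ y) K b1 ∩ GT b1 η' then wE A else 0 := by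
          refine ENNReal.tsum_le_tsum fun A => ?_
          by_cases hA : A ∈ WL K ∩ GT b1 η'
          · rw [if_pos hA, nA, ← ENNReal.tsum_mul_left]
            refine ENNReal.tsum_le_tsum fun y => ?_
            by_cases hy : y ∈ YA η D b b1 ρ A
            · rw [if_pos hy, mul_one, if_pos ⟨YA_SV hA.1 hy, hA.2⟩]
            · rw [if_neg hy, mul_zero]
              exact zero_le
          · rw [if_neg hA]
            exact zero_le
      _ = _ := by
          rw [ENNReal.tsum_comm]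
          refine tsum_congr fun y => ?_
          rw [gf_ind]
          exact tsum_congr fun w => by split_ifs <;> rfl
  have e2 : ∀ y : Pt, gf (SV (VG η D b ρ y) K b1 ∩ GT b1 η') * Xb b1 ≤
      ENNReal.ofReal C1 * ∑' w : List Bool, if w ∈ DW (3 * 2 ^ (K + 6)) ∧ y ∈ YB η b ρ w then wE w else 0 := by
    intro y
    refine (h1 (VG η D b ρ y) K b1 _ (hb1.trans hb) le_rfl).trans (mul_le_mul_right ?_ _)
    have e3 : gf {w | w ∈ WL (K + 3) ∧ ∃ V ∈ VG η D b ρ y, ∃ R, w = V ++ R} ≤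
        gf {w | w ∈ DW (3 * 2 ^ (K + 6)) ∧ y ∈ YB η b ρ w} := by
      refine gf_mono ?_
      rintro w ⟨hw, V, ⟨S, hS, R1, rfl, hR1, hd⟩, R, rfl⟩
      refine ⟨DW_mono ?_ (WL_DW hw), ?_⟩
      · have e : (2 : ℤ) ^ (K + 6) = 8 * 2 ^ (K + 3) := by rw [pow_add, pow_add]; ring
        have : (1 : ℤ) ≤ 2 ^ (K + 3) := one_le_pow₀ (by norm_num)
        rw [e]
        linarith
      · obtain ⟨N, Z3, rfl, n1, n2, n3, n4, n5⟩ := GS_spl hb0 hS
        have hR1l : 1 ≤ R1.length := List.length_pos_iff.2 hR1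
        refine ⟨N, Z3, R1 ++ R, by simp only [List.append_assoc], ?_, n1, n2, n3, n4, n5, ((N ++ Z3) ++ R1).length, ?_, ?_, ?_⟩
        · intro h0
          exact hR1 (List.append_eq_nil_iff.1 h0).1
        · rw [List.length_append (as := N ++ Z3)]
          omega
        · rw [List.length_append (bs := R)]
          omega
        · rw [vx_append (by omega)]
          exact hd
    refine e3.trans (le_of_eq ?_)
    rw [gf_ind]
    refine tsum_congr fun w => ?_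
    by_cases hw : w ∈ DW (3 * 2 ^ (K + 6)) ∧ y ∈ YB η b ρ w
    · exact (if_pos hw).trans (if_pos hw).symm
    · exact (if_neg hw).trans (if_neg hw).symm
  have e4 : (∑' y : Pt, gf (SV (VG η D b ρ y) K b1 ∩ GT b1 η')) * Xb b1 ≤
      ENNReal.ofReal C1 * ∑' B : List Bool, if B ∈ DW (3 * 2 ^ (K + 6)) then wE B * nY η b ρ B else 0 := by
    rw [← ENNReal.tsum_mul_right]
    refine (ENNReal.tsum_le_tsum e2).trans ?_
    rw [ENNReal.tsum_mul_left]
    refine mul_le_mul_right (le_of_eq ?_) _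
    rw [ENNReal.tsum_comm]
    refine tsum_congr fun w => ?_
    by_cases hw : w ∈ DW (3 * 2 ^ (K + 6))
    · rw [if_pos hw, nY, ← ENNReal.tsum_mul_left]
      refine tsum_congr fun y => ?_
      by_cases hy : y ∈ YB η b ρ w
      · rw [if_pos ⟨hw, hy⟩, if_pos hy, mul_one]
      · rw [if_neg fun h => hy h.2, if_neg hy, mul_zero]
    · rw [if_neg hw]
      exact ENNReal.tsum_eq_zero.2 fun y => if_neg fun h => hw h.1
  have e5 := h2 (K + 6) b ρ (by omega)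
  calc (∑' A : List Bool, if A ∈ WL K ∩ GT b1 η' then wE A * nA η D b b1 ρ A else 0) * (Xb b1 * Xb b)
      ≤ (∑' y : Pt, gf (SV (VG η D b ρ y) K b1 ∩ GT b1 η')) * (Xb b1 * Xb b) := mul_le_mul_left e1 _
    _ = (∑' y : Pt, gf (SV (VG η D b ρ y) K b1 ∩ GT b1 η')) * Xb b1 * Xb b := by rw [mul_assoc]
    _ ≤ (ENNReal.ofReal C1 * ∑' B : List Bool, if B ∈ DW (3 * 2 ^ (K + 6)) then wE B * nY η b ρ B else 0) * Xb b :=
        mul_le_mul_left e4 _
    _ = ENNReal.ofReal C1 * ((∑' B : List Bool, if B ∈ DW (3 * 2 ^ (K + 6)) then wE B * nY η b ρ B else 0) * Xb b) := by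
        rw [mul_assoc]
    _ ≤ ENNReal.ofReal C1 * (ENNReal.ofReal C2 * SS (K + 9) ρ) := mul_le_mul_right e5 _
    _ = _ := by rw [← mul_assoc, ← ENNReal.ofReal_mul hC1.le]

/-- the plain mass of the starts -/
theorem plainA {η η' : ℝ} (hη : 0 < η) (hη' : 0 < η') (D : ℕ) : ∃ C : ℝ, 0 < C ∧ ∀ K b b1 : ℕ, b ≠ 0 → b1 ≤ b → b ≤ K →
    gf (SV (NPR.GS η D b) K b1 ∩ GT b1 η') * (Xb b1 * Xb b) ≤ ENNReal.ofReal C * FK (K + 3) := by
  obtain ⟨C1, hC1, h1⟩ := end_SV hη'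
  obtain ⟨C2, hC2, h2⟩ := start_GS D hη
  refine ⟨C1 * C2, by positivity, fun K b b1 hb0 hb1 hb => ?_⟩
  have e1 := h1 (NPR.GS η D b) K b1 _ (hb1.trans hb) le_rfl
  have e2 := h2 (K + 3) b (by omega)
  have e3 : xw b = Xb b := by
    unfold xw
    rw [if_neg hb0]
  rw [e3] at e2
  calc gf (SV (NPR.GS η D b) K b1 ∩ GT b1 η') * (Xb b1 * Xb b) = gf (SV (NPR.GS η D b) K b1 ∩ GT b1 η') * Xb b1 * Xb b := by
        rw [mul_assoc]
    _ ≤ (ENNReal.ofReal C1 * gf {w | w ∈ WL (K + 3) ∧ ∃ V ∈ NPR.GS η D b, ∃ R, w = V ++ R}) * Xb b := mul_le_mul_left e1 _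
    _ = ENNReal.ofReal C1 * (gf {w | w ∈ WL (K + 3) ∧ ∃ V ∈ NPR.GS η D b, ∃ R, w = V ++ R} * Xb b) := by rw [mul_assoc]
    _ ≤ ENNReal.ofReal C1 * (ENNReal.ofReal C2 * FK (K + 3)) := mul_le_mul_right e2 _
    _ = _ := by rw [← mul_assoc, ← ENNReal.ofReal_mul hC1.le]

/-! ### 3. The ends -/

/-- the starts of the ends -/
def VB (η' : ℝ) (b1 : ℕ) : Set (List Bool) :=
  {V | ∃ N Z3 : List Bool, V = N ++ Z3 ∧ N ∈ BU ∧ Z3 ∈ BU ∧ hgt N ≤ 2 ^ b1 ∧ 2 ^ (b1 + 1) ≤ hgt Z3 ∧ η' * Ub b1 ≤ (nc N : ℝ)}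

/-- the ends -/
def XE (η η' : ℝ) (D b b1 K : ℕ) : Set (List Bool) :=
  {B | B ∈ DW (12 * 2 ^ K + 8) ∧ ∃ V ∈ VB η' b1, ∃ Y, ∃ T ∈ NPR.GE η D b, B = V ++ (Y ++ T)}

/-- the mass of the ends -/
theorem plainE {η η' : ℝ} (hη : 0 < η) (hη' : 0 < η') (D : ℕ) : ∃ C : ℝ, 0 < C ∧ ∀ K b b1 : ℕ, b ≠ 0 → b1 ≤ b → b ≤ K →
    gf (XE η η' D b b1 K) * (Xb b1 * Xb b) ≤ ENNReal.ofReal C * FK (K + 6) := by
  obtain ⟨C1, hC1, h1⟩ := end_SV hη
  obtain ⟨C2, hC2, h2⟩ := start_plain hη'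
  refine ⟨C1 * C2, by positivity, fun K b b1 hb0 hb1 hb => ?_⟩
  have e1 := h1 (VB η' b1) (K + 3) b _ (by omega) le_rfl
  have e2 := h2 (K + 6) b1 (by omega)
  have e3 : gf (XE η η' D b b1 K) ≤ gf (SV (VB η' b1) (K + 3) b ∩ GT b η) := by
    refine gf_mono ?_
    rintro B ⟨hB, V, hV, Y, T, hT, rfl⟩
    refine end_mem hb0 hV hT (DW_WL ?_ hB)
    have e : (2 : ℤ) ^ (K + 3) = 8 * 2 ^ K := by rw [pow_add]; ring
    have : (1 : ℤ) ≤ 2 ^ K := one_le_pow₀ (by norm_num)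
    rw [e]
    linarith
  have e4 : gf {w | w ∈ WL (K + 3 + 3) ∧ ∃ V ∈ VB η' b1, ∃ R, w = V ++ R} ≤ gf {w | w ∈ WL (K + 6) ∧ rev w ∈ GT b1 η'} := by
    refine gf_mono ?_
    rintro w ⟨hw, V, ⟨N, Z3, rfl, n1, n2, n3, n4, n5⟩, R, rfl⟩
    refine ⟨hw, ?_⟩
    rw [List.append_assoc]
    exact ne_B n1 n3 n2 n4 n5
  calc gf (XE η η' D b b1 K) * (Xb b1 * Xb b) ≤ gf (SV (VB η' b1) (K + 3) b ∩ GT b η) * (Xb b1 * Xb b) := mul_le_mul_left e3 _
    _ = gf (SV (VB η' b1) (K + 3) b ∩ GT b η) * Xb b * Xb b1 := by ring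
    _ ≤ (ENNReal.ofReal C1 * gf {w | w ∈ WL (K + 3 + 3) ∧ ∃ V ∈ VB η' b1, ∃ R, w = V ++ R}) * Xb b1 := mul_le_mul_left e1 _
    _ ≤ (ENNReal.ofReal C1 * gf {w | w ∈ WL (K + 6) ∧ rev w ∈ GT b1 η'}) * Xb b1 := by gcongr
    _ = ENNReal.ofReal C1 * (gf {w | w ∈ WL (K + 6) ∧ rev w ∈ GT b1 η'} * Xb b1) := by rw [mul_assoc]
    _ ≤ ENNReal.ofReal C1 * (ENNReal.ofReal C2 * FK (K + 6)) := mul_le_mul_right e2 _
    _ = _ := by rw [← mul_assoc, ← ENNReal.ofReal_mul hC1.le]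

/-! ### 4. The leaves -/

open Classical in
/-- the mass of the leaves with an end in a set of places -/
lemma gf_leaf : ∃ C : ℝ, 0 < C ∧ ∀ (YY : Set Pt) (f g : Pt → Pt) (aa r : ℕ), (∀ p, g (f p) = p) →
    gf {V | V ∈ BU ∧ (∃ m, aa ≤ m ∧ V ∈ Ir m) ∧ f (TIW.en V) ∈ YY} ≤
      gf (Hm aa r) * ENNReal.ofReal (Ub r) + ENNReal.ofReal (C * (Ub r / 4 ^ r)) * ∑' y : Pt, if y ∈ YY then 1 else 0 := by
  obtain ⟨C, hC, h⟩ := JNT.IvT.gf_at
  refine ⟨C, hC, fun YY f g aa r hfg => ?_⟩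
  obtain ⟨G0, hG0⟩ : ∃ G0 : Set (List Bool), G0 = {V | V ∈ HB (2 ^ r) ∧ f (TIW.en V) ∈ YY} := ⟨_, rfl⟩
  obtain ⟨Gy, hGy⟩ : ∃ Gy : Pt → Set (List Bool), Gy = fun y => {V | V ∈ HB (2 ^ r) ∧ JNT.en V = g y} := ⟨_, rfl⟩
  have hsub : {V | V ∈ BU ∧ (∃ m, aa ≤ m ∧ V ∈ Ir m) ∧ f (TIW.en V) ∈ YY} ⊆
      {V | V ∈ NPR.Bk r ∧ ∃ m, aa ≤ m ∧ V ∈ Ir m} ∪ G0 := by
    rintro V ⟨h1, h2, h3⟩
    rcases Nat.le_total (hgt V) (2 ^ r) with h4 | h4
    · exact Or.inl ⟨⟨h1, h4⟩, h2⟩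
    · rw [hG0]
      exact Or.inr ⟨⟨hgt V, h4, TIP.BU_hgt h1⟩, h3⟩
  refine (gf_mono hsub).trans ((gf_union_le _ _).trans (add_le_add (Hm_tail aa r) ?_))
  have h4r : (((2 ^ r : ℕ) : ℝ)) ^ 2 = 4 ^ r := by
    push_cast
    rw [← pow_mul, mul_comm r 2, pow_mul]
    norm_num
  rw [gf_ind]
  calc (∑' V : List Bool, if V ∈ G0 then wE V else 0)
      ≤ ∑' V : List Bool, ∑' y : Pt, (if y ∈ YY then 1 else 0 : ℝ≥0∞) * (if V ∈ Gy y then wE V else 0) := by
        refine ENNReal.tsum_le_tsum fun V => ?_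
        by_cases hV : V ∈ G0
        · rw [if_pos hV]
          rw [hG0] at hV
          refine le_trans ?_ (ENNReal.le_tsum (f (TIW.en V)))
          rw [if_pos hV.2, one_mul, if_pos]
          rw [hGy]
          refine ⟨hV.1, ?_⟩
          show TIW.en V = _
          rw [hfg]
        · rw [if_neg hV]
          exact zero_le
    _ = ∑' y : Pt, (if y ∈ YY then 1 else 0 : ℝ≥0∞) * gf (Gy y) := by
        rw [ENNReal.tsum_comm]
        refine tsum_congr fun y => ?_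
        rw [ENNReal.tsum_mul_left, gf_ind]
    _ ≤ ∑' y : Pt, (if y ∈ YY then 1 else 0 : ℝ≥0∞) * ENNReal.ofReal (C * (Ub r / 4 ^ r)) := by
        refine ENNReal.tsum_le_tsum fun y => mul_le_mul_right ?_ _
        rw [hGy]
        refine (h (2 ^ r) Nat.one_le_two_pow _).trans (le_of_eq ?_)
        rw [h4r]
        rfl
    _ = _ := by
        rw [ENNReal.tsum_mul_right, mul_comm]

/-! ### 5. The mass -/

/-- words with a good start, a good end and, between a vertex a and the vertex k letters before the end, at distance less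
than ρ, a rich bridge of the scale b1 -/
def GK (η : ℝ) (D b : ℕ) (κ : ℝ) (Cz b1 K ρ k : ℕ) : Set (List Bool) :=
  {W | W ∈ WL K ∧ ∃ S X Z Y T : List Bool, W = S ++ (X ++ (Z ++ (Y ++ T))) ∧ S ∈ NPR.GS η D b ∧ T ∈ NPR.GE η D b ∧
    Z ∈ Zc κ Cz b1 ∧ k ≤ (Y ++ T).length ∧ ∃ a, S.length < a ∧ a ≤ (S ++ X).length ∧
    hn (vx oo up W a - vx oo up W (W.length - k)) < ρ}

/-- the vertex k letters before the end, in terms of the end of the leaf -/
lemma vx_leaf {A V B : List Bool} (hV : V ∈ BU) (i : ℕ) : vx oo up (A ++ (V ++ B)) (A.length + (V.length + i)) =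
    mulE (rotTo up (dx up A A.length)) (vx oo up B i + xA A + TIW.en V) := by
  have hr : nrm (rotTo up (dx up A A.length)) = 1 := nrm_rotTo upd (dx_mem upd A A.length)
  rw [vx_general A (V ++ B) (V.length + i), vx_cat (FreeA.dx_BU hV)]
  have h2 : vx oo up B i + xA A + TIW.en V = xA A + (vx oo up V V.length + vx oo up B i) := by
    unfold TIW.en
    abel
  rw [h2, mulE_add]
  unfold xA
  rw [mulE_add, mulE_cj hr, mulE_add]

/-- the map from the end of the leaf to the vertex -/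
def fL (A B : List Bool) (k : ℕ) (p : Pt) : Pt := mulE (rotTo up (dx up A A.length)) (vx oo up B (B.length - k) + xA A + p)

/-- its inverse -/
def gL (A B : List Bool) (k : ℕ) (y : Pt) : Pt :=
  mulE (conjE (rotTo up (dx up A A.length))) y - (vx oo up B (B.length - k) + xA A)

lemma gL_fL (A B : List Bool) (k : ℕ) (p : Pt) : gL A B k (fL A B k p) = p := by
  have hr : nrm (rotTo up (dx up A A.length)) = 1 := nrm_rotTo upd (dx_mem upd A A.length)
  unfold gL fL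
  have h : ∀ q : Pt, mulE (conjE (rotTo up (dx up A A.length))) (mulE (rotTo up (dx up A A.length)) q) = q := by
    intro q
    rw [mulE_assoc, mulE_comm (conjE _), mulE_conjE, hr, mulE_one]
  rw [h, add_sub_cancel_left]

/-- **the mass of the words with a near return to the vertex k letters before the end** -/
theorem gk_mass {η κ : ℝ} (hη : 0 < η) (hκ : 0 < κ) (D : ℕ) : ∃ C : ℝ, 0 < C ∧ ∀ (Cz b b1 K ρ r k : ℕ), b ≠ 0 → b1 ≤ b → b ≤ K →
    r ≤ b1 → 16 ≤ κ * Ub b1 → gf (GK η D b κ Cz b1 K ρ k) * (FK b1 * FK b) ≤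
      ENNReal.ofReal C * (ENNReal.ofReal (Ub b) * (FK (K + 6) ^ 2 * gf (Hm ⌈κ / 8 * Ub b1⌉₊ r) +
        FK (K + 6) * (ENNReal.ofReal (1 / 4 ^ r) * SS (K + 9) ρ))) := by
  classical
  obtain ⟨C1, hC1, h1⟩ := plainA (η' := κ / 8) hη (by positivity) D
  obtain ⟨C2, hC2, h2⟩ := plainE (η' := κ / 8) hη (by positivity) D
  obtain ⟨C3, hC3, h3⟩ := startA (η' := κ / 8) hη (by positivity) D
  obtain ⟨C4, hC4, h4⟩ := gf_leaf
  refine ⟨64 / κ ^ 2 * (C2 * (C1 + C4 * C3)), by positivity, fun Cz b b1 K ρ r k hb0 hb1 hb hr hbig => ?_⟩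
  obtain ⟨aa, haa⟩ : ∃ a, a = ⌈κ / 8 * Ub b1⌉₊ := ⟨_, rfl⟩
  rw [← haa]
  have hUb := Ub_pos b
  have hUb1 := Ub_pos b1
  have hUr := Ub_pos r
  obtain ⟨XA, hXA⟩ : ∃ XA : Set (List Bool), XA = SV (NPR.GS η D b) K b1 ∩ GT b1 (κ / 8) := ⟨_, rfl⟩
  obtain ⟨XB', hXB⟩ : ∃ XB' : Set (List Bool), XB' = XE η (κ / 8) D b b1 K := ⟨_, rfl⟩
  obtain ⟨VV, hVV⟩ : ∃ VV : List Bool → List Bool → Set (List Bool), VV = fun A B =>
    {V | V ∈ BU ∧ (∃ m, aa ≤ m ∧ V ∈ Ir m) ∧ fL A B k (TIW.en V) ∈ YA η D b b1 ρ A} := ⟨_, rfl⟩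
  -- double counting
  have d1 := dc2 (G := GK η D b κ Cz b1 K ρ k) (XA := XA) (XB := XB') (Vs := VV)
    (c := ENNReal.ofReal ((κ / 8 * Ub b1) ^ 2)) (fun W hW => by
      obtain ⟨hW, S, X, Z, Y, T, he, hS, hT, hZ, hk, a, ha1, ha2, hd⟩ := hW
      have he' : W = (S ++ X) ++ (Z ++ (Y ++ T)) := by rw [he, List.append_assoc]
      obtain ⟨F, hF, hq⟩ := rich_pairs2 he' hZ hbig
      refine ⟨F, ?_, fun q hqF => ?_⟩
      · rw [← ENNReal.ofReal_natCast]
        exact ENNReal.ofReal_le_ofReal hF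
      · obtain ⟨q1, q2, q3, ⟨Z1, p1, p2, p3⟩, ⟨N, Z3, q4, hN, hZ3, q5, q6, q7⟩, m, q8, q9⟩ := hq q hqF
        have hV : (W.take q.2).drop q.1 ∈ BU := Ir_BU q9
        have hlA : (W.take q.1).length = q.1 := by rw [List.length_take]; omega
        have hlV : ((W.take q.2).drop q.1).length = q.2 - q.1 := by rw [List.length_drop, List.length_take]; omega
        have hlB : (W.drop q.2).length = W.length - q.2 := List.length_drop
        have hlB2 := congrArg List.length q4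
        rw [hlB] at hlB2
        simp only [List.length_append] at hlB2 hk
        have e0 : W.take q.1 ++ ((W.take q.2).drop q.1 ++ W.drop q.2) = W := by
          rw [← List.append_assoc]
          have e2 : W.take q.1 = (W.take q.2).take q.1 := by
            rw [List.take_take, min_eq_left q1]
          rw [e2, List.take_append_drop, List.take_append_drop]
        have p1' : W.take q.1 = S ++ (X ++ Z1) := by rw [p1, List.append_assoc]
        have hp1l := congrArg List.length p1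
        rw [hlA, List.length_append] at hp1l
        have hWA : W.take q.1 ∈ WL K := take_WL' hW _
        refine ⟨q1, q2, ?_, ?_, ?_⟩
        · rw [hXA]
          refine ⟨?_, q3⟩
          rw [p1'] at hWA ⊢
          exact SV_of hS p2 p3 hWA
        · rw [hXB]
          refine ⟨DW_drop (WL_DW hW) _ q2, N ++ Z3, ⟨N, Z3, rfl, hN, hZ3, q5, q6, q7⟩, Y, T, hT, ?_⟩
          rw [q4, List.append_assoc]
        · rw [hVV]
          refine ⟨hV, ⟨m, ?_, q9⟩, S, hS, X, Z1, p1', p2, p3, a, ha1, ha2, ?_⟩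
          · rw [haa]
            exact Nat.ceil_le.2 q8
          · have e1 := vx_leaf (A := W.take q.1) (B := W.drop q.2) hV (W.length - q.2 - k)
            rw [e0, hlA, hlV, show q.1 + (q.2 - q.1 + (W.length - q.2 - k)) = W.length - k by omega] at e1
            have e2 : fL (W.take q.1) (W.drop q.2) k (TIW.en ((W.take q.2).drop q.1)) = vx oo up W (W.length - k) := by
              rw [e1]
              unfold fL
              rw [hlA, hlB]
            rw [e2, vx_tk (by omega)]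
            exact hd)
  -- the right side
  obtain ⟨MA, hMA⟩ : ∃ M : ℝ≥0∞, M = ∑' A : List Bool, if A ∈ WL K ∩ GT b1 (κ / 8) then wE A * nA η D b b1 ρ A else 0 := ⟨_, rfl⟩
  have d2 : (∑' A : List Bool, ∑' B : List Bool, if A ∈ XA ∧ B ∈ XB' then wE A * wE B * gf (VV A B) else 0) ≤
      gf XA * gf XB' * (gf (Hm aa r) * ENNReal.ofReal (Ub r)) + ENNReal.ofReal (C4 * (Ub r / 4 ^ r)) * (MA * gf XB') := by
    have e1 : ∀ A : List Bool, (∑' B : List Bool, if A ∈ XA ∧ B ∈ XB' then wE A * wE B * gf (VV A B) else 0) ≤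
        (if A ∈ XA then wE A else 0) * gf XB' * (gf (Hm aa r) * ENNReal.ofReal (Ub r)) +
        ENNReal.ofReal (C4 * (Ub r / 4 ^ r)) * ((if A ∈ WL K ∩ GT b1 (κ / 8) then wE A * nA η D b b1 ρ A else 0) * gf XB') := by
      intro A
      by_cases hA : A ∈ XA
      · have hA' : A ∈ WL K ∩ GT b1 (κ / 8) := by
          rw [hXA] at hA
          exact ⟨hA.1.1, hA.2⟩
        rw [if_pos hA, if_pos hA', gf_ind XB', ← ENNReal.tsum_mul_left, ← ENNReal.tsum_mul_left, ← ENNReal.tsum_mul_right,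
          ← ENNReal.tsum_mul_left, ← ENNReal.tsum_add]
        refine ENNReal.tsum_le_tsum fun B => ?_
        by_cases hB : B ∈ XB'
        · rw [if_pos ⟨hA, hB⟩, if_pos hB]
          have e2 : gf (VV A B) ≤ gf (Hm aa r) * ENNReal.ofReal (Ub r) + ENNReal.ofReal (C4 * (Ub r / 4 ^ r)) *
              nA η D b b1 ρ A := by
            rw [hVV]
            refine (h4 (YA η D b b1 ρ A) (fL A B k) (gL A B k) aa r (gL_fL A B k)).trans (le_of_eq ?_)
            congr 2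
          calc wE A * wE B * gf (VV A B) ≤ wE A * wE B * (gf (Hm aa r) * ENNReal.ofReal (Ub r) +
                ENNReal.ofReal (C4 * (Ub r / 4 ^ r)) * nA η D b b1 ρ A) := mul_le_mul_right e2 _
            _ = _ := by ring
        · rw [if_neg fun h => hB h.2]
          exact zero_le
      · refine le_trans (le_of_eq (ENNReal.tsum_eq_zero.2 fun B => if_neg fun h => hA h.1)) zero_le
    refine (ENNReal.tsum_le_tsum e1).trans (le_of_eq ?_)
    rw [ENNReal.tsum_add, ENNReal.tsum_mul_right, ENNReal.tsum_mul_right, ENNReal.tsum_mul_left, ENNReal.tsum_mul_right, ← gf_ind,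
      hMA]
  have h1' := h1 K b b1 hb0 hb1 hb
  have h2' := h2 K b b1 hb0 hb1 hb
  have h3' := h3 K b b1 ρ hb0 hb1 hb
  rw [← hXA] at h1'
  rw [← hXB] at h2'
  have h3'' : MA * (Xb b1 * Xb b) ≤ ENNReal.ofReal C3 * SS (K + 9) ρ := by
    rw [hMA]
    exact h3'
  obtain ⟨gA, hgA⟩ : ∃ gA : ℝ≥0∞, gA = gf XA := ⟨_, rfl⟩
  obtain ⟨gB, hgB⟩ : ∃ gB : ℝ≥0∞, gB = gf XB' := ⟨_, rfl⟩
  obtain ⟨gH, hgH⟩ : ∃ gH : ℝ≥0∞, gH = gf (Hm aa r) := ⟨_, rfl⟩
  obtain ⟨gG, hgG⟩ : ∃ gG : ℝ≥0∞, gG = gf (GK η D b κ Cz b1 K ρ k) := ⟨_, rfl⟩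
  obtain ⟨x, hx⟩ : ∃ x : ℝ≥0∞, x = Xb b1 * Xb b := ⟨_, rfl⟩
  rw [← hgA, ← hgB, ← hgH] at d2
  rw [← hgA, ← hx] at h1'
  rw [← hgB, ← hx] at h2'
  rw [← hx] at h3''
  rw [← hgG] at d1
  rw [← hgH, ← hgG]
  have d3 := d1.trans d2
  have hK3 : FK (K + 3) ≤ FK (K + 6) := TE_mono (by omega)
  have hfk : ENNReal.ofReal (Ub b1) * (FK b1 * FK b) = ENNReal.ofReal (Ub b) * (ENNReal.ofReal (Ub b1) ^ 2 * x ^ 2) := by
    unfold FK
    rw [hx]
    ring
  have e5 : ENNReal.ofReal (Ub b1) * (ENNReal.ofReal ((κ / 8) ^ 2) * (gG * (FK b1 * FK b))) ≤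
      ENNReal.ofReal (Ub b1) * (ENNReal.ofReal (C2 * (C1 + C4 * C3)) * (ENNReal.ofReal (Ub b) * (FK (K + 6) ^ 2 * gH +
        FK (K + 6) * (ENNReal.ofReal (1 / 4 ^ r) * SS (K + 9) ρ)))) := by
    calc ENNReal.ofReal (Ub b1) * (ENNReal.ofReal ((κ / 8) ^ 2) * (gG * (FK b1 * FK b)))
        = ENNReal.ofReal ((κ / 8) ^ 2) * gG * (ENNReal.ofReal (Ub b1) * (FK b1 * FK b)) := by ring
      _ = ENNReal.ofReal (Ub b) * (ENNReal.ofReal ((κ / 8 * Ub b1) ^ 2) * gG * (x * x)) := by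
          rw [hfk, mul_pow (κ / 8) (Ub b1), ENNReal.ofReal_mul (by positivity), ENNReal.ofReal_pow hUb1.le]
          ring
      _ ≤ ENNReal.ofReal (Ub b) * ((gA * gB * (gH * ENNReal.ofReal (Ub r)) +
            ENNReal.ofReal (C4 * (Ub r / 4 ^ r)) * (MA * gB)) * (x * x)) :=
          mul_le_mul_right (mul_le_mul_left d3 _) _
      _ = ENNReal.ofReal (Ub b) * ((gA * x) * ((gB * x) * (gH * ENNReal.ofReal (Ub r))) +
            ENNReal.ofReal (C4 * (Ub r / 4 ^ r)) * ((MA * x) * (gB * x))) := by ring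
      _ ≤ ENNReal.ofReal (Ub b) * ((ENNReal.ofReal C1 * FK (K + 3)) * ((ENNReal.ofReal C2 * FK (K + 6)) *
            (gH * ENNReal.ofReal (Ub r))) + ENNReal.ofReal (C4 * (Ub r / 4 ^ r)) * ((ENNReal.ofReal C3 * SS (K + 9) ρ) *
            (ENNReal.ofReal C2 * FK (K + 6)))) := by gcongr
      _ = ENNReal.ofReal (Ub b) * (ENNReal.ofReal (Ub r) * ((ENNReal.ofReal (C2 * C1) * (FK (K + 3) * FK (K + 6) * gH)) +
            ENNReal.ofReal (C2 * (C4 * C3)) * (FK (K + 6) * (ENNReal.ofReal (1 / 4 ^ r) * SS (K + 9) ρ)))) := by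
          rw [show C4 * (Ub r / 4 ^ r) = C4 * (Ub r * (1 / 4 ^ r)) by ring, ENNReal.ofReal_mul hC4.le,
            ENNReal.ofReal_mul hUr.le, ENNReal.ofReal_mul hC2.le, ENNReal.ofReal_mul hC2.le, ENNReal.ofReal_mul hC4.le]
          ring
      _ ≤ ENNReal.ofReal (Ub b) * (ENNReal.ofReal (Ub b1) * ((ENNReal.ofReal (C2 * (C1 + C4 * C3)) * (FK (K + 6) ^ 2 * gH)) +
            ENNReal.ofReal (C2 * (C1 + C4 * C3)) * (FK (K + 6) * (ENNReal.ofReal (1 / 4 ^ r) * SS (K + 9) ρ)))) := by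
          have hC43 : 0 < C4 * C3 := by positivity
          have i1 : C2 * C1 ≤ C2 * (C1 + C4 * C3) := mul_le_mul_of_nonneg_left (by linarith) hC2.le
          have i2 : C2 * (C4 * C3) ≤ C2 * (C1 + C4 * C3) := mul_le_mul_of_nonneg_left (by linarith) hC2.le
          have i3 : FK (K + 3) * FK (K + 6) ≤ FK (K + 6) ^ 2 := by
            rw [pow_two]
            exact mul_le_mul_left hK3 _
          have i4 : Ub r ≤ Ub b1 := Ub_mono hr
          gcongr
      _ = _ := by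
          rw [← mul_add]
          ring
  have e6 : ENNReal.ofReal ((κ / 8) ^ 2) * (gG * (FK b1 * FK b)) ≤ ENNReal.ofReal (C2 * (C1 + C4 * C3)) *
      (ENNReal.ofReal (Ub b) * (FK (K + 6) ^ 2 * gH + FK (K + 6) * (ENNReal.ofReal (1 / 4 ^ r) * SS (K + 9) ρ))) :=
    (ENNReal.mul_le_mul_iff_right (by positivity) ENNReal.ofReal_ne_top).1 e5
  calc gG * (FK b1 * FK b) = ENNReal.ofReal (64 / κ ^ 2) * (ENNReal.ofReal ((κ / 8) ^ 2) * (gG * (FK b1 * FK b))) := by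
        rw [← mul_assoc (ENNReal.ofReal _), ← ENNReal.ofReal_mul (by positivity),
          show 64 / κ ^ 2 * (κ / 8) ^ 2 = 1 by field_simp; norm_num, ENNReal.ofReal_one, one_mul]
    _ ≤ ENNReal.ofReal (64 / κ ^ 2) * (ENNReal.ofReal (C2 * (C1 + C4 * C3)) *
      (ENNReal.ofReal (Ub b) * (FK (K + 6) ^ 2 * gH + FK (K + 6) * (ENNReal.ofReal (1 / 4 ^ r) * SS (K + 9) ρ)))) :=
        mul_le_mul_right e6 _
    _ = _ := by rw [← mul_assoc, ← ENNReal.ofReal_mul (by positivity)]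

end ARM

end HexObs
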