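import Pool.Agent.ARM.DefsG
import Pool.Agent.ARM2.PathG
import Pool.Agent.POL.RootG

/-!
# ARM, row G3 (helper87), part A: placed words

* `Plc E r D k s M` : the word M starts at s, its end is near the first vertex of the path, it keeps away from the path;
* `TP E r D k M Q` : Q is a tube word that closes M (in the frame of the end of M);
* `cy_of` : `M ++ Q` is a closed word.
-/

set_option autoImplicit false

namespace HexObs

namespace ARM

namespace G3

open Finset TS SDN SIM NTA TIP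

open scoped ENNReal

/-! ### 1. Rotations -/

lemma mulE_smul (c : Pt) (t : ℤ) (p : Pt) : mulE c (t • p) = t • mulE c p := by
  simp only [mulE, Prod.smul_fst, Prod.smul_snd, smul_eq_mul, Prod.smul_mk]
  congr 1 <;> ring

lemma mulE_zero (c : Pt) : mulE c 0 = 0 := by
  simp [mulE]

lemma ps_zero (E : ℕ → Pt) : AR.ps E 0 = 0 := sum_range_zero _

lemma ps_rot (c : Pt) (E : ℕ → Pt) (i : ℕ) : AR.ps (fun a => mulE c (E a)) i = mulE c (AR.ps E i) := by
  induction i with
  | zero => rw [ps_zero, ps_zero, mulE_zero]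
  | succ i ih => rw [AR.ps_succ, AR.ps_succ, ih, mulE_add]

lemma NS_rot {c : Pt} (hc : nrm c = 1) {a d y : Pt} {D w : ℤ} (h : AR.NS a d D w y) :
    AR.NS (mulE c a) (mulE c d) D w (mulE c y) := by
  obtain ⟨t, h1, h2, h3⟩ := h
  refine ⟨t, h1, h2, ?_⟩
  rw [← mulE_smul, ← mulE_add, ← mulE_sub, TIW.hn_mulE hc]
  exact h3

lemma NS_shift {a a' d y y' : Pt} {D w v : ℤ} (h : AR.NS a d D w y) (hv : TIW.hn ((y' - a') - (y - a)) ≤ v) :
    AR.NS a' d D (w + v) y' := by
  obtain ⟨t, h1, h2, h3⟩ := h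
  refine ⟨t, h1, h2, ?_⟩
  have e1 : y' - (a' + t • d) = (y - (a + t • d)) + ((y' - a') - (y - a)) := by abel
  rw [e1]
  exact (TIW.hn_add _ _).trans (add_le_add h3 hv)

lemma ipg_rot {E : ℕ → Pt} {r : ℕ} (h : IPg E r) {c : Pt} (hc : nrm c = 1) : IPg (fun a => mulE c (E a)) r := by
  refine ⟨fun i hi => TIW.mulE_mem hc (h.dir i hi), fun i hi => ?_, fun i j hij hj => ?_⟩
  · rcases h.tur i hi with h1 | h1 | h1
    · left
      simp only [h1]
    · right
      left
      show mulE c (E (i + 1)) = rotL (mulE c (E i))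
      rw [h1, AR.rotL_mulE]
    · right
      right
      show mulE c (E (i + 1)) = rotR (mulE c (E i))
      rw [h1, AR.rotR_mulE]
  · rw [ps_rot, ps_rot, ← mulE_sub, nrm_mulE, hc, one_mul]
    exact h.ind i j hij hj

lemma ipg_path {E : ℕ → Pt} {r : ℕ} (h : IPg E r) (h0 : E 0 = up) : AR.IPath E r :=
  ⟨h.dir, fun _ => h0, h.tur, h.ind⟩

/-- the start of the path, at the origin, and the path that ends at the origin -/
lemma pv_qv (E : ℕ → Pt) (D : ℤ) (r i : ℕ) : AR.pv E D i = qv E D r i - qv E D r 0 := by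
  unfold AR.pv qv
  rw [ps_zero, ← smul_sub]
  congr 1
  abel

lemma qv_last (E : ℕ → Pt) (D : ℤ) {r : ℕ} (hr : 1 ≤ r) : qv E D r (r - 1) + D • E (r - 1) = 0 := by
  unfold qv
  rw [← smul_add]
  obtain ⟨q, rfl⟩ : ∃ q, r = q + 1 := ⟨r - 1, by omega⟩
  rw [Nat.add_sub_cancel, AR.ps_succ]
  have : AR.ps E q - (AR.ps E q + E q) + E q = 0 := by abel
  rw [this, smul_zero]

/-- **segments with a segment between them are at distance D** -/
lemma ipg_sep {E : ℕ → Pt} {r : ℕ} (h : IPg E r) {i j : ℕ} (hij : j + 1 < i) (hi : i < r) {D w w' : ℤ} {x y : Pt}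
    (hy : AR.NS (qv E D r i) (E i) D w y) (hx : AR.NS (qv E D r j) (E j) D w' x) : D - w - w' ≤ TIW.hn (y - x) := by
  have hE0 : E 0 ∈ dirs := h.dir 0 (by omega)
  obtain ⟨c, hcd⟩ : ∃ c, c = rotTo (E 0) up := ⟨_, rfl⟩
  have hc : nrm c = 1 := by
    rw [hcd]
    exact nrm_rotTo hE0 TIW.upd'
  have h0 : mulE c (E 0) = up := by
    rw [hcd]
    exact rotTo_apply up hE0
  have hp := ipg_path (ipg_rot h hc) h0
  have key : ∀ {i w y}, AR.NS (qv E D r i) (E i) D w y →
      AR.NS (AR.pv (fun a => mulE c (E a)) D i) (mulE c (E i)) D w (mulE c (y - qv E D r 0)) := by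
    intro i w y h1
    obtain ⟨t, h2, h3, h4⟩ := NS_rot hc h1
    refine ⟨t, h2, h3, ?_⟩
    have e1 : AR.pv (fun a => mulE c (E a)) D i = mulE c (qv E D r i) - mulE c (qv E D r 0) := by
      unfold AR.pv
      rw [ps_rot, ← mulE_smul, ← mulE_sub, ← pv_qv]
      rfl
    have e2 : mulE c (y - qv E D r 0) - (AR.pv (fun a => mulE c (E a)) D i + t • mulE c (E i)) =
        mulE c y - (mulE c (qv E D r i) + t • mulE c (E i)) := by
      rw [e1, mulE_sub]
      abel
    rw [e2]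
    exact h4
  have h5 := AR.sep_seg hp hij hi (key hy) (key hx)
  rw [← mulE_sub, TIW.hn_mulE hc, sub_sub_sub_cancel_right] at h5
  exact h5

/-! ### 2. Placed words -/

/-- **placed words** -/
structure Plc (E : ℕ → Pt) (r : ℕ) (D : ℤ) (k : ℕ) (s : Pt) (M : List Bool) : Prop where
  sa : M ∈ SA
  de : TIW.de M = E 0
  hs : TIW.hn s ≤ 2 ^ (k + 1)
  ht : TIW.hn (s + TIW.en M - qv E D r 0) ≤ 2 ^ (k + 1)
  mid : ∀ i, i ≤ M.length → ∀ j, 1 ≤ j → j + 1 < r →
    ¬ AR.NS (qv E D r j) (E j) D (2 ^ (k + 10)) (s + vx oo up M i)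
  fst : ∀ i, i ≤ M.length → AR.NS (qv E D r 0) (E 0) D (2 ^ (k + 10)) (s + vx oo up M i) →
    ip (vx oo up M i - TIW.en M) (E 0) ≤ 0
  lst : ∀ i, 1 ≤ i → i ≤ M.length → AR.NS (qv E D r (r - 1)) (E (r - 1)) D (2 ^ (k + 10)) (s + vx oo up M i) →
    0 < ip (vx oo up M i) up

variable {E : ℕ → Pt} {r : ℕ} {D : ℤ} {k : ℕ} {s : Pt} {M Q : List Bool}

/-- joinable words, with a small shift -/
lemma jn_plc (h : Jn E r D k M) (hs : TIW.hn s ≤ 2 ^ k) : Plc E r D k s M := by
  have p1 : (2 : ℤ) ^ (k + 1) = 2 ^ k + 2 ^ k := by ring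
  have p2 : (2 : ℤ) ^ (k + 10) + 2 ^ k ≤ 2 ^ (k + 11) := by
    have : (2 : ℤ) ^ (k + 11) = 2 ^ (k + 10) + 1024 * 2 ^ k := by ring
    have h0 : (0 : ℤ) < 2 ^ k := by positivity
    linarith
  have key : ∀ {a d y : Pt}, AR.NS a d D (2 ^ (k + 10)) (s + y) → AR.NS a d D (2 ^ (k + 11)) y := by
    intro a d y h1
    refine (NS_shift (v := 2 ^ k) (a' := a) (y' := y) h1 ?_).mono p2
    have e1 : y - a - (s + y - a) = -s := by abel
    rw [e1, TIW.hn_neg]
    exact hs
  refine ⟨h.sa, h.de, ?_, ?_, fun i hi j hj hj' hn => h.mid i hi j hj hj' (key hn), fun i hi hn => h.fst i hi (key hn),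
    fun i hi hi' hn => h.lst i hi hi' (key hn)⟩
  · rw [p1]
    have h0 : (0 : ℤ) ≤ 2 ^ k := by positivity
    linarith
  · have e1 : s + TIW.en M - qv E D r 0 = s + (TIW.en M - qv E D r 0) := by abel
    rw [e1, p1]
    exact (TIW.hn_add _ _).trans (add_le_add hs h.pos)

/-! ### 3. Tube words -/

/-- the inverse of the frame of the end of M -/
def rc (M : List Bool) : Pt := conjE (TIW.rt M)

lemma nrm_rc (M : List Bool) : nrm (rc M) = 1 := by
  unfold rc
  rw [nrm_conjE, TIW.nrm_rt]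

lemma rt_rc (M : List Bool) (p : Pt) : mulE (TIW.rt M) (mulE (rc M) p) = p := by
  unfold rc
  rw [mulE_assoc, mulE_conjE, TIW.nrm_rt, mulE_one]

/-- **Q closes M** -/
def TP (E : ℕ → Pt) (r : ℕ) (D : ℤ) (k : ℕ) (M Q : List Bool) : Prop :=
  TubeQ (fun i => mulE (rc M) (E i)) D (2 ^ (k + 9)) r (mulE (rc M) (-(TIW.en M))) Q

/-- the segments in the two frames -/
lemma near_abs (hP : Plc E r D k s M) {j : ℕ} {p : Pt}
    (h : Nr (fun i => mulE (rc M) (E i)) D (2 ^ (k + 9)) j p) :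
    AR.NS (qv E D r j) (E j) D (2 ^ (k + 10)) (s + TIW.en M + mulE (TIW.rt M) p) := by
  have h1 := NS_rot (TIW.nrm_rt M) h
  rw [rt_rc] at h1
  have e1 : mulE (TIW.rt M) (AR.pv (fun i => mulE (rc M) (E i)) D j) = qv E D r j - qv E D r 0 := by
    unfold AR.pv
    rw [ps_rot, ← mulE_smul, rt_rc, ← pv_qv]
    rfl
  rw [e1] at h1
  have p1 : (2 : ℤ) ^ (k + 9) + 2 ^ (k + 1) ≤ 2 ^ (k + 10) := by
    have e1 : (2 : ℤ) ^ (k + 10) = 2 ^ (k + 9) + 512 * 2 ^ k := by ring
    have e2 : (2 : ℤ) ^ (k + 1) = 2 * 2 ^ k := by ring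
    have h0 : (0 : ℤ) < 2 ^ k := by positivity
    linarith
  refine (NS_shift (v := 2 ^ (k + 1)) h1 ?_).mono p1
  have e2 : s + TIW.en M + mulE (TIW.rt M) p - qv E D r j - (mulE (TIW.rt M) p - (qv E D r j - qv E D r 0)) =
      s + TIW.en M - qv E D r 0 := by abel
  rw [e2]
  exact hP.ht

lemma vx_MQ (M Q : List Bool) (i : ℕ) :
    vx oo up (M ++ Q) (M.length + i) = TIW.en M + mulE (TIW.rt M) (vx oo up Q i) := TIW.vx_app M Q i

lemma TP.rgA (hP : Plc E r D k s M) (hQ : TP E r D k M Q) {i : ℕ} (hi : i ≤ Q.length) :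
    ∃ j, j < r ∧ AR.NS (qv E D r j) (E j) D (2 ^ (k + 10)) (s + vx oo up (M ++ Q) (M.length + i)) := by
  obtain ⟨j, h1, h2⟩ := hQ.rg i hi
  refine ⟨j, h1, ?_⟩
  rw [vx_MQ, ← add_assoc]
  exact near_abs hP h2

lemma ip_rtE (hP : Plc E r D k s M) (p : Pt) : ip (mulE (TIW.rt M) p) (E 0) = ip p up := by
  rw [← hP.de, AR.ip_rt]

lemma TP.stA (hP : Plc E r D k s M) (hQ : TP E r D k M Q) {i : ℕ} (h0 : 1 ≤ i) (hi : i ≤ Q.length) :
    0 < ip (vx oo up (M ++ Q) (M.length + i) - TIW.en M) (E 0) ∨ ∃ j, 1 ≤ j ∧ j < r ∧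
      AR.NS (qv E D r j) (E j) D (2 ^ (k + 10)) (s + vx oo up (M ++ Q) (M.length + i)) := by
  rcases hQ.st i h0 hi with h1 | ⟨j, h1, h2, h3⟩
  · left
    rw [vx_MQ, add_sub_cancel_left, ip_rtE hP]
    exact h1
  · right
    refine ⟨j, h1, h2, ?_⟩
    rw [vx_MQ, ← add_assoc]
    exact near_abs hP h3

lemma TP.bdA (hup : E (r - 1) = up) (hP : Plc E r D k s M) (hQ : TP E r D k M Q) {i : ℕ} (hi : i ≤ Q.length) :
    ip (vx oo up (M ++ Q) (M.length + i)) up ≤ 0 ∨ ∃ j, j + 1 < r ∧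
      AR.NS (qv E D r j) (E j) D (2 ^ (k + 10)) (s + vx oo up (M ++ Q) (M.length + i)) := by
  rcases hQ.bd i hi with h1 | ⟨j, h1, h3⟩
  · left
    have e1 : ip (vx oo up Q i - mulE (rc M) (-(TIW.en M))) (mulE (rc M) (E (r - 1))) =
        ip (vx oo up (M ++ Q) (M.length + i)) up := by
      have h2 := ip_mulE (TIW.rt M) (vx oo up Q i - mulE (rc M) (-(TIW.en M))) (mulE (rc M) (E (r - 1)))
      rw [TIW.nrm_rt, one_mul, mulE_sub, rt_rc, rt_rc, hup] at h2
      rw [hup, ← h2, vx_MQ]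
      congr 1
      abel
    rw [← e1]
    exact h1
  · right
    refine ⟨j, h1, ?_⟩
    rw [vx_MQ, ← add_assoc]
    exact near_abs hP h3

/-- **M and Q meet only at their ends** -/
lemma TP.disj (hE : IPg E r) (hr : 3 ≤ r) (hup : E (r - 1) = up) (hD : 2 ^ (k + 12) ≤ D) (hP : Plc E r D k s M)
    (hQ : TP E r D k M Q) {i q : ℕ} (hi : i ≤ M.length) (hq : 1 ≤ q) (hq' : q < Q.length) :
    vx oo up M i ≠ vx oo up (M ++ Q) (M.length + q) := by
  intro he
  have hp : (0 : ℤ) < 2 ^ (k + 10) := by positivity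
  have e12 : (2 : ℤ) ^ (k + 12) = 4 * 2 ^ (k + 10) := by ring
  have hfar : ∀ {y : Pt}, AR.NS (qv E D r 0) (E 0) D (2 ^ (k + 10)) y →
      ¬ AR.NS (qv E D r (r - 1)) (E (r - 1)) D (2 ^ (k + 10)) y := by
    intro y h1 h2
    have h3 := ipg_sep hE (i := r - 1) (j := 0) (by omega) (by omega) h2 h1
    rw [sub_self] at h3
    have h4 : TIW.hn (0 : Pt) = 0 := by decide
    rw [h4] at h3
    linarith
  obtain ⟨j, hj, hn⟩ := hQ.rgA hP hq'.le
  rw [← he] at hn
  rcases Nat.eq_zero_or_pos j with h0 | h0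
  · rw [h0] at hn
    have h1 := hP.fst i hi hn
    rcases hQ.stA hP hq hq'.le with h2 | ⟨j', h2, h3, h4⟩
    · rw [← he] at h2
      linarith
    · rw [← he] at h4
      rcases Nat.lt_or_ge (j' + 1) r with h5 | h5
      · exact hP.mid i hi j' h2 h5 h4
      · have h6 : j' = r - 1 := by omega
        rw [h6] at h4
        exact hfar hn h4
  · rcases Nat.lt_or_ge (j + 1) r with h5 | h5
    · exact hP.mid i hi j h0 h5 hn
    · have h6 : j = r - 1 := by omega
      rw [h6] at hn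
      rcases Nat.eq_zero_or_pos i with hi0 | hi0
      · have h7 : vx oo up M i = 0 := by
          rw [hi0]
          rfl
        have h8 : mulE (TIW.rt M) (vx oo up Q Q.length) = -(TIW.en M) := by
          have h9 : vx oo up Q Q.length = mulE (rc M) (-(TIW.en M)) := hQ.en
          rw [h9, rt_rc]
        have h10 : mulE (TIW.rt M) (vx oo up Q q) = mulE (TIW.rt M) (vx oo up Q Q.length) := by
          rw [h8]
          rw [vx_MQ, h7] at he
          exact eq_neg_of_add_eq_zero_right he.symm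
        exact hQ.sa.inj q Q.length hq' le_rfl (mulE_inj (TIW.nrm_rt M) h10)
      · have h1 := hP.lst i hi0 hi hn
        rcases hQ.bdA hup hP hq'.le with h2 | ⟨j', h2, h4⟩
        · rw [← he] at h2
          linarith
        · rw [← he] at h4
          rcases Nat.eq_zero_or_pos j' with h7 | h7
          · rw [h7] at h4
            exact hfar h4 hn
          · exact hP.mid i hi j' h7 h2 h4

/-- **the closed word** -/
theorem cy_of (hE : IPg E r) (hr : 3 ≤ r) (hup : E (r - 1) = up) (hD : 2 ^ (k + 12) ≤ D) (hP : Plc E r D k s M)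
    (hQ : TP E r D k M Q) : M ++ Q ∈ POL.Cy (M.length + Q.length) := by
  have hen : vx oo up Q Q.length = mulE (rc M) (-(TIW.en M)) := hQ.en
  have hde : dx up Q Q.length = mulE (rc M) (E (r - 1)) := hQ.de
  have key : ∀ i j, i < j → j < M.length + Q.length → vx oo up (M ++ Q) i ≠ vx oo up (M ++ Q) j := by
    intro i j hij hj he
    rcases Nat.lt_or_ge M.length j with h1 | h1
    · obtain ⟨q, rfl⟩ : ∃ q, j = M.length + q := ⟨j - M.length, by omega⟩
      rcases Nat.lt_or_ge M.length i with h2 | h2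
      · obtain ⟨p, rfl⟩ : ∃ p, i = M.length + p := ⟨i - M.length, by omega⟩
        rw [vx_MQ, vx_MQ] at he
        exact hQ.sa.inj p q (by omega) (by omega) (mulE_inj (TIW.nrm_rt M) (add_left_cancel he))
      · rw [vx_append (by omega : i ≤ M.length + 1)] at he
        exact hQ.disj hE hr hup hD hP h2 (by omega) (by omega) he
    · rw [vx_append (by omega : i ≤ M.length + 1), vx_append (by omega : j ≤ M.length + 1)] at he
      exact hP.sa.inj i j hij h1 he
  refine ⟨List.length_append, ?_, ?_, fun i j hi hj he => ?_⟩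
  · rw [vx_MQ, hen, rt_rc, add_neg_cancel]
    rfl
  · rw [TIW.dx_app, hde, rt_rc, hup]
  · rcases lt_trichotomy i j with h | h | h
    · exact absurd he (key i j h hj)
    · exact h
    · exact absurd he.symm (key j i h hi)

end G3

end ARM

end HexObs
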