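import Pool.Agent.ARM.PlcW
import Pool.Agent.ARM2.Glue

/-!
# ARM, row G3 (helper87), part S: the sums

* `min_dec`: a placed word is a minimal placed word with two low bridges;
* `sum_dec`: the mass of the placed words in a window of lengths from the masses of the minimal ones;
* `sum_cy`: the mass of the minimal placed words from the closed words.
-/

set_option autoImplicit false

namespace HexObs

namespace ARM

namespace G3

open Finset TS SDN SIM NTA TIP

open scoped ENNReal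

variable {E : ℕ → Pt} {r : ℕ} {D : ℤ} {k : ℕ}

/-! ### 1. Sums along injective maps -/

/-- weights along an injective map -/
lemma inj_sum {α β : Type*} {S : Set α} {T : Set β} {f : α → ℝ≥0∞} {g : β → ℝ≥0∞} (φ : α → β)
    (h : ∀ x ∈ S, φ x ∈ T) (hi : Set.InjOn φ S) (hw : ∀ x ∈ S, f x ≤ g (φ x)) :
    ∑' x : S, f x ≤ ∑' y : T, g y := by
  have hi' : Function.Injective (fun x : S => (⟨φ x, h x x.2⟩ : T)) := by
    intro x y hxy
    exact Subtype.ext (hi x.2 y.2 (congrArg Subtype.val hxy))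
  calc ∑' x : S, f x ≤ ∑' x : S, (fun y : T => g y) ⟨φ x, h x x.2⟩ := ENNReal.tsum_le_tsum fun x => hw x x.2
    _ ≤ ∑' y : T, g y := ENNReal.tsum_comp_le_tsum_of_injective hi' (fun y : T => g y)

/-! ### 2. Minimal placed words -/

lemma rt_bu {Z : List Bool} (hZ : Z ∈ BU) : TIW.rt Z = (1, 0) := by
  unfold TIW.rt
  rw [(AR.BU_facts hZ).2.1]
  decide

lemma en_bu {Z : List Bool} (hZ : Z ∈ BU) (A : List Bool) : TIW.en (Z ++ A) = TIW.en Z + TIW.en A := by
  rw [TIW.en_app, rt_bu hZ, mulE_one]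

/-- **minimal decomposition** -/
lemma min_dec : ∀ (n : ℕ) (s : Pt) (M : List Bool), M.length = n → Plc E r D k s M →
    ∃ Z1 I Z2 : List Bool, Z1 ∈ BU ∧ Z2 ∈ BU ∧ M = Z1 ++ (I ++ Z2) ∧ Wm E r D k (s + TIW.en Z1) I := by
  intro n
  induction n using Nat.strong_induction_on with
  | _ n ih =>
    intro s M hn hP
    by_cases hm : Wm E r D k s M
    · refine ⟨[], M, [], nil_BU, nil_BU, by simp, ?_⟩
      have : TIW.en ([] : List Bool) = 0 := rfl
      rw [this, add_zero]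
      exact hm
    · have h1 : ¬ ∀ Z1 I Z2 : List Bool, Z1 ∈ BU → Z2 ∈ BU → M = Z1 ++ (I ++ Z2) →
          Plc E r D k (s + TIW.en Z1) I → Z1 = [] ∧ Z2 = [] := fun h => hm ⟨hP, h⟩
      push Not at h1
      obtain ⟨Z1, I, Z2, z1, z2, he, hI, h2⟩ := h1
      have hlt : I.length < n := by
        have h3 := congrArg List.length he
        rw [List.length_append, List.length_append, hn] at h3
        rcases Nat.eq_zero_or_pos Z1.length with h4 | h4
        · have h5 := h2 (List.length_eq_zero_iff.1 h4)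
          have h6 : 0 < Z2.length := List.length_pos_iff.2 h5
          omega
        · omega
      obtain ⟨Y1, J, Y2, y1, y2, he', hJ⟩ := ih I.length hlt (s + TIW.en Z1) I rfl hI
      refine ⟨Z1 ++ Y1, J, Y2 ++ Z2, BU_app z1 y1, BU_app y2 z2, ?_, ?_⟩
      · rw [he, he']
        simp only [List.append_assoc]
      · rw [en_bu z1, ← add_assoc]
        exact hJ

/-- the heights of the two bridges -/
lemma dec_hgt {s : Pt} {Z1 I Z2 : List Bool} (z1 : Z1 ∈ BU) (z2 : Z2 ∈ BU)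
    (hP : Plc E r D k s (Z1 ++ (I ++ Z2))) (hI : Plc E r D k (s + TIW.en Z1) I) :
    hgt Z1 ≤ 2 ^ (k + 2) ∧ hgt Z2 ≤ 2 ^ (k + 2) := by
  have e2 : (2 : ℤ) ^ (k + 2) = 2 ^ (k + 1) + 2 ^ (k + 1) := by ring
  constructor
  · have h1 := (AR.BU_facts z1).2.2.1
    have h2 := TIW.ip_le_hn (TIW.en Z1) TIW.upd'
    have h3 : TIW.hn (TIW.en Z1) ≤ 2 ^ (k + 1) + 2 ^ (k + 1) := by
      have e1 : TIW.en Z1 = (s + TIW.en Z1) - s := by abel
      rw [e1]
      exact (TIW.hn_sub _ _).trans (add_le_add hI.hs hP.hs)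
    have h4 : ((hgt Z1 : ℕ) : ℤ) ≤ ((2 ^ (k + 2) : ℕ) : ℤ) := by
      push_cast
      have h5 : (0 : ℤ) ≤ hgt Z1 := by positivity
      linarith
    exact_mod_cast h4
  · have h1 := (AR.BU_facts z2).2.2.1
    have h2 := TIW.ip_le_hn (TIW.en Z2) TIW.upd'
    have h3 : TIW.hn (TIW.en Z2) ≤ 2 ^ (k + 1) + 2 ^ (k + 1) := by
      rw [← TIW.hn_mulE (TIW.nrm_rt I)]
      have e0 : TIW.en (Z1 ++ (I ++ Z2)) = TIW.en Z1 + (TIW.en I + mulE (TIW.rt I) (TIW.en Z2)) := by
        rw [en_bu z1, TIW.en_app]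
      have h6 := hP.ht
      rw [e0] at h6
      have e1 : mulE (TIW.rt I) (TIW.en Z2) = (s + (TIW.en Z1 + (TIW.en I + mulE (TIW.rt I) (TIW.en Z2))) -
          qv E D r 0) - (s + TIW.en Z1 + TIW.en I - qv E D r 0) := by abel
      rw [e1]
      exact (TIW.hn_sub _ _).trans (add_le_add h6 hI.ht)
    have h4 : ((hgt Z2 : ℕ) : ℤ) ≤ ((2 ^ (k + 2) : ℕ) : ℤ) := by
      push_cast
      have h5 : (0 : ℤ) ≤ hgt Z2 := by positivity
      linarith
    exact_mod_cast h4

/-- low bridges -/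
def BL (k : ℕ) : Set (List Bool) := {Z | Z ∈ BU ∧ hgt Z ≤ 2 ^ (k + 2)}

/-- the placed words in a window of lengths -/
def PLW (E : ℕ → Pt) (r : ℕ) (D : ℤ) (k : ℕ) (n : ℕ) (m : ℝ) : Set (Pt × List Bool) :=
  {x | Plc E r D k x.1 x.2 ∧ n ≤ x.2.length ∧ (x.2.length : ℝ) < n + m}

/-- the minimal placed words in a window of lengths -/
def MW (E : ℕ → Pt) (r : ℕ) (D : ℤ) (k : ℕ) (n : ℕ) (m : ℝ) : Set (Pt × List Bool) :=
  {x | Wm E r D k x.1 x.2 ∧ n ≤ x.2.length ∧ (x.2.length : ℝ) < n + m}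

/-- **the placed words from the minimal ones** -/
theorem sum_dec (n : ℕ) (m : ℝ) : ∑' x : PLW E r D k n m, wE (x : Pt × List Bool).2 ≤
    ∑' Z1 : BL k, wE (Z1 : List Bool) * ∑' Z2 : BL k, wE (Z2 : List Bool) *
      ∑' y : MW E r D k (n - ((Z1 : List Bool).length + (Z2 : List Bool).length)) m, wE (y : Pt × List Bool).2 := by
  classical
  have key : ∀ x ∈ PLW E r D k n m, ∃ Z1 I Z2 : List Bool, Z1 ∈ BU ∧ Z2 ∈ BU ∧ x.2 = Z1 ++ (I ++ Z2) ∧
      Wm E r D k (x.1 + TIW.en Z1) I := fun x hx => min_dec x.2.length x.1 x.2 rfl hx.1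
  choose! f g h hf using key
  have e1 : ∑' Z1 : BL k, wE (Z1 : List Bool) * ∑' Z2 : BL k, wE (Z2 : List Bool) *
      ∑' y : MW E r D k (n - ((Z1 : List Bool).length + (Z2 : List Bool).length)) m, wE (y : Pt × List Bool).2 =
      ∑' p : (Σ Z1 : BL k, Σ Z2 : BL k, MW E r D k (n - ((Z1 : List Bool).length + (Z2 : List Bool).length)) m),
        wE (p.1 : List Bool) * (wE (p.2.1 : List Bool) * wE (p.2.2 : Pt × List Bool).2) := by
    rw [ENNReal.tsum_sigma']
    refine tsum_congr fun Z1 => ?_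
    rw [ENNReal.tsum_sigma', ← ENNReal.tsum_mul_left]
    refine tsum_congr fun Z2 => ?_
    rw [← ENNReal.tsum_mul_left, ← ENNReal.tsum_mul_left]
  rw [e1]
  have hmem : ∀ x ∈ PLW E r D k n m, f x ∈ BL k ∧ h x ∈ BL k ∧
      (x.1 + TIW.en (f x), g x) ∈ MW E r D k (n - ((f x).length + (h x).length)) m := by
    intro x hx
    obtain ⟨h1, h2, h3, h4⟩ := hf x hx
    have hP := hx.1
    rw [h3] at hP
    obtain ⟨h5, h6⟩ := dec_hgt h1 h2 hP h4.1
    have hl := congrArg List.length h3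
    rw [List.length_append, List.length_append] at hl
    refine ⟨⟨h1, h5⟩, ⟨h2, h6⟩, h4, ?_, ?_⟩
    · have := hx.2.1
      show n - ((f x).length + (h x).length) ≤ (g x).length
      omega
    · have h7 := hx.2.2
      have h8 := hx.2.1
      show ((g x).length : ℝ) < ((n - ((f x).length + (h x).length) : ℕ) : ℝ) + m
      rw [hl] at h7
      push_cast at h7
      rcases Nat.lt_or_ge n ((f x).length + (h x).length) with h9 | h9
      · have h10 : n - ((f x).length + (h x).length) = 0 := by omega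
        rw [h10, Nat.cast_zero, zero_add]
        have h11 : (n : ℝ) < (f x).length + (h x).length := by exact_mod_cast h9
        linarith
      · rw [Nat.cast_sub h9]
        push_cast
        linarith
  let φ : PLW E r D k n m → (Σ Z1 : BL k, Σ Z2 : BL k,
      MW E r D k (n - ((Z1 : List Bool).length + (Z2 : List Bool).length)) m) := fun x =>
    ⟨⟨f x, (hmem x x.2).1⟩, ⟨h x, (hmem x x.2).2.1⟩, ⟨((x : Pt × List Bool).1 + TIW.en (f x), g x), (hmem x x.2).2.2⟩⟩
  have hφ : Function.Injective φ := by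
    intro x y hxy
    have a1 : f (x : Pt × List Bool) = f (y : Pt × List Bool) := congrArg (fun p => ((p.1 : BL k) : List Bool)) hxy
    have a2 : h (x : Pt × List Bool) = h (y : Pt × List Bool) := congrArg (fun p => ((p.2.1 : BL k) : List Bool)) hxy
    have a3 : ((x : Pt × List Bool).1 + TIW.en (f x), g (x : Pt × List Bool)) =
        ((y : Pt × List Bool).1 + TIW.en (f y), g (y : Pt × List Bool)) :=
      congrArg (fun p => (p.2.2 : Pt × List Bool)) hxy
    rw [Prod.mk.injEq] at a3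
    obtain ⟨a4, a5⟩ := a3
    apply Subtype.ext
    apply Prod.ext
    · rw [a1] at a4
      exact add_right_cancel a4
    · rw [(hf x x.2).2.2.1, (hf y y.2).2.2.1, a1, a2, a5]
  refine le_trans (le_of_eq (tsum_congr fun x => ?_)) (ENNReal.tsum_comp_le_tsum_of_injective hφ _)
  show wE (x : Pt × List Bool).2 = wE (f x) * (wE (h x) * wE (g x))
  rw [← wE_append, ← wE_append]
  have h1 := (hf x x.2).2.2.1
  unfold wE
  rw [h1]
  simp only [List.length_append]
  congr 2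
  ring

/-! ### 3. The sum over the roots -/

/-- the tube words with at least q0 and at most q1 letters -/
def QQ (E : ℕ → Pt) (r : ℕ) (D : ℤ) (k : ℕ) (q0 q1 : ℕ) (M : List Bool) : Set (List Bool) :=
  {Q | TP E r D k M Q ∧ q0 ≤ Q.length ∧ Q.length ≤ q1}

/-- the closed words with n0 to n1 letters -/
def CW (n0 n1 : ℕ) : Set (List Bool) := {w | ∃ N, n0 ≤ N ∧ N ≤ n1 ∧ w ∈ POL.Cy N}

lemma cw_mass (n0 n1 : ℕ) : gf (CW n0 n1) ≤ ∑ N ∈ Icc n0 n1, gf (POL.Cy N) := by
  classical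
  refine le_trans (gf_mono ?_) (GgJumpAux.gf_biUnion_le _ _)
  rintro w ⟨N, h1, h2, h3⟩
  rw [Set.mem_iUnion₂]
  exact ⟨N, mem_Icc.2 ⟨h1, h2⟩, h3⟩

/-- the marked quadruples -/
def X4 (E : ℕ → Pt) (r : ℕ) (D : ℤ) (k : ℕ) (n : ℕ) (m : ℝ) (q0 q1 : ℕ) : Set ((Pt × List Bool) × (List Bool × ℕ)) :=
  {x | x.1 ∈ MW E r D k n m ∧ x.2.1 ∈ QQ E r D k q0 q1 x.1.2 ∧ 1 ≤ x.2.2 ∧ x.2.2 ≤ x.2.1.length}

/-- the position and the direction of the root, and the closed word -/
def rtm (x : (Pt × List Bool) × (List Bool × ℕ)) : (Pt × Pt) × List Bool :=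
  ((x.1.1 + vx oo up (x.1.2 ++ x.2.1) (x.1.2.length + x.2.2), dx up (x.1.2 ++ x.2.1) (x.1.2.length + x.2.2)),
    x.2.1.drop x.2.2 ++ (x.1.2 ++ x.2.1.take x.2.2))

/-- **the roots determine the quadruple** -/
theorem rtm_inj (hE : IPg E r) (hr : 3 ≤ r) (hup : E (r - 1) = up) (hD : 2 ^ (k + 12) ≤ D) {n : ℕ} {m : ℝ} {q0 q1 : ℕ} :
    Set.InjOn rtm (X4 E r D k n m q0 q1) := by
  rintro ⟨⟨s, M⟩, Q, i⟩ ⟨⟨hM, -, -⟩, ⟨hQ, -, -⟩, hi1, hi2⟩ ⟨⟨s', M'⟩, Q', i'⟩ ⟨⟨hM', -, -⟩, ⟨hQ', -, -⟩, hi1', hi2'⟩ he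
  simp only [rtm, Prod.mk.injEq] at he
  obtain ⟨⟨e1, e2⟩, e3⟩ := he
  obtain ⟨Q1, hQ1⟩ : ∃ Q1, Q1 = Q.take i := ⟨_, rfl⟩
  obtain ⟨Q2, hQ2⟩ : ∃ Q2, Q2 = Q.drop i := ⟨_, rfl⟩
  obtain ⟨Q1', hQ1'⟩ : ∃ Q1', Q1' = Q'.take i' := ⟨_, rfl⟩
  obtain ⟨Q2', hQ2'⟩ : ∃ Q2', Q2' = Q'.drop i' := ⟨_, rfl⟩
  have hQe : Q = Q1 ++ Q2 := by rw [hQ1, hQ2, List.take_append_drop]
  have hQe' : Q' = Q1' ++ Q2' := by rw [hQ1', hQ2', List.take_append_drop]
  have hl1 : Q1.length = i := by rw [hQ1, List.length_take]; exact min_eq_left hi2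
  have hl1' : Q1'.length = i' := by rw [hQ1', List.length_take]; exact min_eq_left hi2'
  simp only at hi1 hi2 hi1' hi2' hM hQ hM' hQ'
  rw [← hQ1, ← hQ2, ← hQ1', ← hQ2'] at e3
  rw [hQe, hQe', ← hl1, ← hl1'] at e1 e2
  rw [hQe] at hQ
  rw [hQe'] at hQ'
  have n1 : Q1 ≠ [] := by
    intro h
    rw [h] at hl1
    simp at hl1
    omega
  have n1' : Q1' ≠ [] := by
    intro h
    rw [h] at hl1'
    simp at hl1'
    omega
  obtain ⟨c, c1, c2, c3, c4, c5⟩ := tr_of hE hr hup hD hM.1 hQ n1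
  obtain ⟨c', d1, d2, d3, d4, d5⟩ := tr_of hE hr hup hD hM'.1 hQ' n1'
  have hcc : c = c' := by
    have h1 : mulE c up = mulE c' up := by rw [c2, d2, e2]
    rw [mulE_comm c, mulE_comm c'] at h1
    exact mulE_inj (mem_dirs.1 up_dirs) h1
  rw [← hcc, ← e1, ← e3] at d4 d5
  rw [← e3] at d3
  have hN : M.length + (Q1 ++ Q2).length = M'.length + (Q1' ++ Q2').length := by rw [← c3.1, ← d3.1]
  rw [← hN] at d5
  have s1 : sl (Q2 ++ (M ++ Q1)) Q2.length (Q2.length + M.length) = M := sl_mid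
  have s1' : sl (Q2 ++ (M ++ Q1)) Q2'.length (Q2'.length + M'.length) = M' := by
    rw [e3]
    exact sl_mid
  obtain ⟨u1, u2⟩ := mark_eq hE hr hD c1 c3 c5 d5 (by rw [c4, s1]; exact hM) (by rw [d4, s1']; exact hM')
  have hMM : M = M' := by
    calc M = sl (Q2 ++ (M ++ Q1)) Q2.length (Q2.length + M.length) := s1.symm
      _ = sl (Q2 ++ (M ++ Q1)) Q2'.length (Q2'.length + M'.length) := by rw [u2, u1]
      _ = M' := s1'
  have hss : s = s' := by rw [← c4, ← d4, u1]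
  have h3 := List.append_inj e3 u1
  have h4 : Q1 = Q1' := by
    have h5 := h3.2
    rw [hMM] at h5
    exact List.append_cancel_left h5
  rw [hss, hMM, hQe, hQe', h4, h3.1, ← hl1, ← hl1', h4]

/-- the size of the region of the path -/
lemma root_pos (hE : IPg E r) (hD : 0 ≤ D) {s : Pt} {M Q : List Bool} (hP : Plc E r D k s M) (hQ : TP E r D k M Q) {i : ℕ}
    (hi : i ≤ Q.length) : TIW.hn (s + vx oo up (M ++ Q) (M.length + i)) ≤ 2 * (r + 1) * D + 2 ^ (k + 10) := by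
  obtain ⟨j, hj, t, h1, h2, h3⟩ := hQ.rgA hP hi
  have hd2 : ∀ d ∈ dirs, TIW.hn d ≤ 2 := by decide
  have hps : ∀ a b : ℕ, a ≤ b → b ≤ r → TIW.hn (AR.ps E b - AR.ps E a) ≤ 2 * (b - a : ℕ) := by
    intro a b hab
    induction b, hab using Nat.le_induction with
    | base =>
      intro _
      rw [sub_self, Nat.sub_self]
      decide
    | succ b hb ih =>
      intro hbr
      have e1 : AR.ps E (b + 1) - AR.ps E a = (AR.ps E b - AR.ps E a) + E b := by
        rw [AR.ps_succ]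
        abel
      rw [e1, Nat.succ_sub hb]
      push_cast
      have h4 := ih (by omega)
      have h5 := hd2 _ (hE.dir b (by omega))
      linarith [TIW.hn_add (AR.ps E b - AR.ps E a) (E b)]
  have hsm : ∀ (t : ℤ) (v : Pt), 0 ≤ t → TIW.hn (t • v) ≤ t * TIW.hn v := by
    intro t v ht
    refine TIW.hn_le fun d hd => ?_
    rw [AR.ip_smul]
    exact mul_le_mul_of_nonneg_left (TIW.ip_le_hn v hd) ht
  have e1 : s + vx oo up (M ++ Q) (M.length + i) =
      (s + vx oo up (M ++ Q) (M.length + i) - (qv E D r j + t • E j)) + (qv E D r j + t • E j) := by abel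
  rw [e1]
  have h6 : TIW.hn (qv E D r j) ≤ D * (2 * (r - j : ℕ)) := by
    unfold qv
    have e2 : D • (AR.ps E j - AR.ps E r) = -(D • (AR.ps E r - AR.ps E j)) := by
      rw [← smul_neg]
      congr 1
      abel
    rw [e2, TIW.hn_neg]
    exact (hsm D _ hD).trans (mul_le_mul_of_nonneg_left (hps j r hj.le le_rfl) hD)
  have h7 : TIW.hn (t • E j) ≤ D * 2 := by
    refine (hsm t _ h1).trans ?_
    have h8 := hd2 _ (hE.dir j hj)
    have h9 := TIW.hn_nonneg (E j)
    nlinarith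
  have h10 : D * (2 * ((r - j : ℕ) : ℤ)) ≤ D * (2 * r) := by
    refine mul_le_mul_of_nonneg_left ?_ hD
    have : ((r - j : ℕ) : ℤ) ≤ r := by exact_mod_cast Nat.sub_le r j
    linarith
  have h11 := TIW.hn_add (s + vx oo up (M ++ Q) (M.length + i) - (qv E D r j + t • E j)) (qv E D r j + t • E j)
  have h12 := TIW.hn_add (qv E D r j) (t • E j)
  linarith

/-- a box of the lattice -/
noncomputable def bx (B : ℕ) : Finset Pt := Icc (-(2 * B : ℤ)) (2 * B) ×ˢ Icc (-(2 * B : ℤ)) (2 * B)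

lemma mem_bx {B : ℕ} {p : Pt} (h : TIW.hn p ≤ B) : p ∈ bx B := by
  have h1 := TIW.nrm_le_hn p
  have h0 := TIW.hn_nonneg p
  have h2 : nrm p ≤ (B : ℤ) ^ 2 := h1.trans (by nlinarith)
  obtain ⟨h3, h4⟩ := abs_le_of_nrm (by positivity : (0 : ℤ) ≤ B) h2
  have hB : (0 : ℤ) ≤ B := by positivity
  unfold bx
  rw [mem_product, mem_Icc, mem_Icc]
  refine ⟨⟨?_, ?_⟩, ?_, ?_⟩ <;> nlinarith

lemma card_bx (B : ℕ) : (bx B).card = (4 * B + 1) ^ 2 := by
  unfold bx
  rw [card_product, Int.card_Icc, sq]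
  have : ((2 * B : ℤ) + 1 - -(2 * B)).toNat = 4 * B + 1 := by
    have e : (2 * B : ℤ) + 1 - -(2 * B) = ((4 * B + 1 : ℕ) : ℤ) := by
      push_cast
      ring
    rw [e, Int.toNat_natCast]
  rw [this]

/-- **the sum over the roots** -/
theorem sum_root (hE : IPg E r) (hr : 3 ≤ r) (hup : E (r - 1) = up) (hD : 2 ^ (k + 12) ≤ D) (n : ℕ) (m : ℝ) (q0 q1 B : ℕ)
    (hB : 2 * (r + 1) * D + 2 ^ (k + 10) ≤ B) (n1 : ℕ) (hn1 : (n : ℝ) + m + q1 ≤ n1) (v : ℝ≥0∞)
    (hv : ∀ x ∈ MW E r D k n m, v ≤ gf (QQ E r D k q0 q1 x.2)) :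
    (∑' x : MW E r D k n m, wE (x : Pt × List Bool).2) * (v * q0) ≤
      ((6 * (4 * B + 1) ^ 2 : ℕ) : ℝ≥0∞) * gf (CW (n + q0) n1) := by
  classical
  have hD0 : 0 ≤ D := le_trans (by positivity) hD
  -- lower bound for the sum over the quadruples
  have h1 : (∑' x : MW E r D k n m, wE (x : Pt × List Bool).2) * (v * q0) ≤
      ∑' x : X4 E r D k n m q0 q1, wE (x : (Pt × List Bool) × (List Bool × ℕ)).1.2 *
        wE (x : (Pt × List Bool) × (List Bool × ℕ)).2.1 := by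
    rw [tsum_subtype (X4 E r D k n m q0 q1)
      (fun x : (Pt × List Bool) × (List Bool × ℕ) => wE x.1.2 * wE x.2.1), ENNReal.tsum_prod', ← ENNReal.tsum_mul_right,
      tsum_subtype (MW E r D k n m) (fun x : Pt × List Bool => wE x.2 * (v * q0))]
    refine ENNReal.tsum_le_tsum fun y => ?_
    by_cases hy : y ∈ MW E r D k n m
    · rw [Set.indicator_of_mem hy, ENNReal.tsum_prod']
      have h2 : wE y.2 * (gf (QQ E r D k q0 q1 y.2) * q0) ≤ ∑' Q : List Bool, ∑' i : ℕ,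
          (X4 E r D k n m q0 q1).indicator (fun x : (Pt × List Bool) × (List Bool × ℕ) => wE x.1.2 * wE x.2.1)
            (y, (Q, i)) := by
        rw [AR.gf_ite, ← ENNReal.tsum_mul_right, ← ENNReal.tsum_mul_left]
        refine ENNReal.tsum_le_tsum fun Q => ?_
        by_cases hQ : Q ∈ QQ E r D k q0 q1 y.2
        · rw [if_pos hQ]
          have h3 : ∑ i ∈ Icc 1 Q.length, (X4 E r D k n m q0 q1).indicator
              (fun x : (Pt × List Bool) × (List Bool × ℕ) => wE x.1.2 * wE x.2.1) (y, (Q, i)) =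
              (Q.length : ℝ≥0∞) * (wE y.2 * wE Q) := by
            rw [sum_congr rfl (g := fun _ => wE y.2 * wE Q) (fun i hi => ?_), sum_const, Nat.card_Icc, nsmul_eq_mul]
            · rw [Nat.add_sub_cancel]
            · rw [mem_Icc] at hi
              rw [Set.indicator_of_mem]
              exact ⟨hy, hQ, hi.1, hi.2⟩
          refine le_trans ?_ (ENNReal.sum_le_tsum (Icc 1 Q.length))
          rw [h3]
          have h4 : (q0 : ℝ≥0∞) ≤ Q.length := by exact_mod_cast hQ.2.1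
          calc wE y.2 * (wE Q * q0) = q0 * (wE y.2 * wE Q) := by ring
            _ ≤ _ := mul_le_mul' h4 le_rfl
        · rw [if_neg hQ, zero_mul, mul_zero]
          exact zero_le
      refine le_trans ?_ h2
      exact mul_le_mul' le_rfl (mul_le_mul' (hv y hy) le_rfl)
    · rw [Set.indicator_of_notMem hy]
      exact zero_le
  -- the map to the closed words
  refine h1.trans ?_
  have h5 : ∑' x : X4 E r D k n m q0 q1, wE (x : (Pt × List Bool) × (List Bool × ℕ)).1.2 *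
        wE (x : (Pt × List Bool) × (List Bool × ℕ)).2.1 ≤
      ∑' y : ((((bx B ×ˢ dirs : Finset (Pt × Pt)) : Set (Pt × Pt)) ×ˢ CW (n + q0) n1 :
        Set ((Pt × Pt) × List Bool))), wE (y : (Pt × Pt) × List Bool).2 := by
    refine inj_sum (f := fun x : (Pt × List Bool) × (List Bool × ℕ) => wE x.1.2 * wE x.2.1)
      (g := fun y : (Pt × Pt) × List Bool => wE y.2) rtm ?_ (rtm_inj hE hr hup hD) ?_
    · rintro ⟨⟨s, M⟩, Q, i⟩ ⟨⟨hM, hM1, hM2⟩, ⟨hQ, hq0, hq1⟩, hi1, hi2⟩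
      simp only at hM hM1 hM2 hQ hq0 hq1 hi1 hi2
      refine ⟨?_, M.length + Q.length, by omega, ?_, ?_⟩
      · show (_, _) ∈ ((bx B ×ˢ dirs : Finset (Pt × Pt)) : Set (Pt × Pt))
        rw [mem_coe, mem_product]
        exact ⟨mem_bx ((root_pos hE hD0 hM.1 hQ hi2).trans hB), dx_mem up_dirs _ _⟩
      · have h6 : ((M.length + Q.length : ℕ) : ℝ) ≤ n1 := by
          push_cast
          have : (Q.length : ℝ) ≤ q1 := by exact_mod_cast hq1
          linarith
        exact_mod_cast h6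
      · show Q.drop i ++ (M ++ Q.take i) ∈ POL.Cy (M.length + Q.length)
        have h7 := tr_of hE hr hup hD hM.1 (Q1 := Q.take i) (Q2 := Q.drop i)
          (by rw [List.take_append_drop]; exact hQ) (by
            intro h
            have h8 := congrArg List.length h
            rw [List.length_take, List.length_nil] at h8
            omega)
        obtain ⟨c, -, -, h8, -⟩ := h7
        rw [List.take_append_drop] at h8
        exact h8
    · rintro ⟨⟨s, M⟩, Q, i⟩ _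
      show wE M * wE Q ≤ wE (Q.drop i ++ (M ++ Q.take i))
      rw [wE_append, wE_append]
      have h9 : wE Q = wE (Q.take i) * wE (Q.drop i) := by
        rw [← wE_append, List.take_append_drop]
      rw [h9]
      refine le_of_eq ?_
      ring
  refine h5.trans ?_
  have h10 : ∑' y : ((((bx B ×ˢ dirs : Finset (Pt × Pt)) : Set (Pt × Pt)) ×ˢ CW (n + q0) n1 :
        Set ((Pt × Pt) × List Bool))), wE (y : (Pt × Pt) × List Bool).2 =
      ((bx B ×ˢ dirs : Finset (Pt × Pt)).card : ℝ≥0∞) * gf (CW (n + q0) n1) := by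
    rw [tsum_subtype (((bx B ×ˢ dirs : Finset (Pt × Pt)) : Set (Pt × Pt)) ×ˢ CW (n + q0) n1)
      (fun y : (Pt × Pt) × List Bool => wE y.2), ENNReal.tsum_prod']
    have h11 : ∀ a : Pt × Pt, ∑' w : List Bool, (((bx B ×ˢ dirs : Finset (Pt × Pt)) : Set (Pt × Pt)) ×ˢ CW (n + q0) n1).indicator
        (fun y : (Pt × Pt) × List Bool => wE y.2) (a, w) = if a ∈ (bx B ×ˢ dirs : Finset (Pt × Pt)) then gf (CW (n + q0) n1) else 0 := by
      intro a
      by_cases ha : a ∈ (bx B ×ˢ dirs : Finset (Pt × Pt))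
      · rw [if_pos ha, AR.gf_ite]
        refine tsum_congr fun w => ?_
        by_cases hw : w ∈ CW (n + q0) n1
        · rw [if_pos hw, Set.indicator_of_mem]
          exact ⟨ha, hw⟩
        · rw [if_neg hw, Set.indicator_of_notMem]
          exact fun h => hw h.2
      · rw [if_neg ha]
        rw [ENNReal.tsum_eq_zero]
        intro w
        rw [Set.indicator_of_notMem]
        exact fun h => ha h.1
    rw [tsum_congr h11, tsum_eq_sum (s := (bx B ×ˢ dirs : Finset (Pt × Pt))) (fun a ha => if_neg ha),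
      sum_congr rfl (g := fun _ => gf (CW (n + q0) n1)) (fun a ha => if_pos ha), sum_const, nsmul_eq_mul]
  rw [h10, card_product, card_bx]
  have h12 : dirs.card = 6 := by decide
  rw [h12]
  refine mul_le_mul' (le_of_eq ?_) le_rfl
  push_cast
  ring

end G3

end ARM

end HexObs
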