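import Pool.Agent.ARM.PlcA

/-!
# ARM, row G3 (helper87), part U: two markings of one placed closed word

`V i`, `U i`: position and direction number i. `Tr V U N a b`: the part from a to b is a placed word, the rest (from b to N and
from 0 to a) is a tube word. Two markings meet, the intersection is a placed word, the differences are bridges.
-/

set_option autoImplicit false

namespace HexObs

namespace ARM

namespace G3

open Finset TS SDN SIM NTA TIP

open scoped ENNReal

variable {E : ℕ → Pt} {r : ℕ} {D : ℤ} {k : ℕ} {V U : ℕ → Pt} {N a b a' b' : ℕ}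

/-- a placed part -/
structure Pl (E : ℕ → Pt) (r : ℕ) (D : ℤ) (k : ℕ) (V U : ℕ → Pt) (a b : ℕ) : Prop where
  ua : U a = up
  ub : U b = E 0
  sa : TIW.hn (V a) ≤ 2 ^ (k + 1)
  tb : TIW.hn (V b - qv E D r 0) ≤ 2 ^ (k + 1)
  mid : ∀ i, a ≤ i → i ≤ b → ∀ j, 1 ≤ j → j + 1 < r → ¬ AR.NS (qv E D r j) (E j) D (2 ^ (k + 10)) (V i)
  fst : ∀ i, a ≤ i → i ≤ b → AR.NS (qv E D r 0) (E 0) D (2 ^ (k + 10)) (V i) → ip (V i - V b) (E 0) ≤ 0
  lst : ∀ i, a < i → i ≤ b → AR.NS (qv E D r (r - 1)) (E (r - 1)) D (2 ^ (k + 10)) (V i) → 0 < ip (V i - V a) up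

/-- **a marking** -/
structure Tr (E : ℕ → Pt) (r : ℕ) (D : ℤ) (k : ℕ) (V U : ℕ → Pt) (N a b : ℕ) : Prop extends Pl E r D k V U a b where
  ab : a ≤ b
  bN : b < N
  rg : ∀ i, (i ≤ a ∨ (b ≤ i ∧ i ≤ N)) → ∃ j, j < r ∧ AR.NS (qv E D r j) (E j) D (2 ^ (k + 10)) (V i)
  st : ∀ i, (i ≤ a ∨ (b < i ∧ i ≤ N)) → 0 < ip (V i - V b) (E 0) ∨
    ∃ j, 1 ≤ j ∧ j < r ∧ AR.NS (qv E D r j) (E j) D (2 ^ (k + 10)) (V i)
  bd : ∀ i, (i ≤ a ∨ (b ≤ i ∧ i ≤ N)) → ip (V i - V a) up ≤ 0 ∨
    ∃ j, j + 1 < r ∧ AR.NS (qv E D r j) (E j) D (2 ^ (k + 10)) (V i)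

/-- no point is near the first and the last segment -/
lemma far_ends (hE : IPg E r) (hr : 3 ≤ r) (hD : 2 ^ (k + 12) ≤ D) {x y : Pt}
    (h1 : AR.NS (qv E D r 0) (E 0) D (2 ^ (k + 10)) x) (h2 : AR.NS (qv E D r (r - 1)) (E (r - 1)) D (2 ^ (k + 10)) y) :
    2 < TIW.hn (y - x) := by
  have h3 := ipg_sep hE (i := r - 1) (j := 0) (by omega) (by omega) h2 h1
  have e12 : (2 : ℤ) ^ (k + 12) = 4 * 2 ^ (k + 10) := by ring
  have hp : (2 : ℤ) ≤ 2 ^ (k + 10) := by
    have : (2 : ℤ) ^ 1 ≤ 2 ^ (k + 10) := pow_le_pow_right₀ (by norm_num) (by omega)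
    simpa using this
  linarith

lemma pw_one (k : ℕ) : (2 : ℤ) ^ (k + 1) ≤ 2 ^ (k + 10) := pow_le_pow_right₀ (by norm_num) (by omega)

lemma Pl.near0 (hD : 0 ≤ D) (h : Pl E r D k V U a b) : AR.NS (qv E D r 0) (E 0) D (2 ^ (k + 10)) (V b) := by
  refine ⟨0, le_rfl, hD, ?_⟩
  rw [zero_smul, add_zero]
  exact h.tb.trans (pw_one k)

lemma Pl.nearL (hD : 0 ≤ D) (hr : 1 ≤ r) (h : Pl E r D k V U a b) :
    AR.NS (qv E D r (r - 1)) (E (r - 1)) D (2 ^ (k + 10)) (V a) := by
  refine ⟨D, hD, le_rfl, ?_⟩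
  rw [qv_last E D hr, sub_zero]
  exact h.sa.trans (pw_one k)

/-- **two markings meet** -/
theorem Tr.meet (hE : IPg E r) (hr : 3 ≤ r) (hD : 2 ^ (k + 12) ≤ D) (hst : ∀ i, i < N → TIW.hn (V (i + 1) - V i) ≤ 2)
    (h : Tr E r D k V U N a b) (h' : Tr E r D k V U N a' b') : a' ≤ b := by
  have hD0 : 0 ≤ D := le_trans (by positivity) hD
  by_contra hc
  push Not at hc
  have key : ∀ i, a' ≤ i → i ≤ b' → AR.NS (qv E D r (r - 1)) (E (r - 1)) D (2 ^ (k + 10)) (V i) := by
    intro i hi
    induction i, hi using Nat.le_induction with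
    | base => exact fun _ => h'.nearL hD0 (by omega)
    | succ i hi ih =>
      intro hb
      have h1 := ih (by omega)
      obtain ⟨j, hj, hn⟩ := h.rg (i + 1) (Or.inr ⟨by omega, by have := h'.bN; omega⟩)
      rcases Nat.eq_zero_or_pos j with h0 | h0
      · rw [h0] at hn
        have h2 := far_ends hE hr hD hn h1
        have h3 := hst i (by have := h'.bN; omega)
        rw [TIW.hn_sub_comm] at h3
        omega
      · rcases Nat.lt_or_ge (j + 1) r with h5 | h5
        · exact absurd hn (h'.mid (i + 1) (by omega) hb j h0 h5)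
        · have h6 : j = r - 1 := by omega
          rw [h6] at hn
          exact hn
  have h1 := key b' h'.ab le_rfl
  have h2 := far_ends hE hr hD (h'.near0 hD0) h1
  have h4 : TIW.hn (0 : Pt) = 0 := by decide
  rw [sub_self, h4] at h2
  omega

/-- the intersection -/
theorem Tr.inter (h : Tr E r D k V U N a b) (h' : Tr E r D k V U N a' b') :
    Pl E r D k V U (max a a') (min b b') := by
  have hua : U (max a a') = up := by
    rcases max_choice a a' with e | e <;> rw [e]
    · exact h.ua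
    · exact h'.ua
  have hub : U (min b b') = E 0 := by
    rcases min_choice b b' with e | e <;> rw [e]
    · exact h.ub
    · exact h'.ub
  have hsa : TIW.hn (V (max a a')) ≤ 2 ^ (k + 1) := by
    rcases max_choice a a' with e | e <;> rw [e]
    · exact h.sa
    · exact h'.sa
  have htb : TIW.hn (V (min b b') - qv E D r 0) ≤ 2 ^ (k + 1) := by
    rcases min_choice b b' with e | e <;> rw [e]
    · exact h.tb
    · exact h'.tb
  refine ⟨hua, hub, hsa, htb, fun i h1 h2 => h.mid i (by omega) (by omega), fun i h1 h2 hn => ?_, fun i h1 h2 hn => ?_⟩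
  · rcases min_choice b b' with e | e <;> rw [e]
    · exact h.fst i (by omega) (by omega) hn
    · exact h'.fst i (by omega) (by omega) hn
  · rcases max_choice a a' with e | e <;> rw [e]
    · exact h.lst i (by omega) (by omega) hn
    · exact h'.lst i (by omega) (by omega) hn

/-- **the difference at the start** -/
theorem Tr.dif1 (hE : IPg E r) (hr : 3 ≤ r) (hD : 2 ^ (k + 12) ≤ D) (hst : ∀ i, i < N → TIW.hn (V (i + 1) - V i) ≤ 2)
    (h : Tr E r D k V U N a b) (h' : Tr E r D k V U N a' b') (_haa : a ≤ a') :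
    ∀ i, a ≤ i → i ≤ a' → (a < i → 0 < ip (V i - V a) up) ∧ ip (V i - V a') up ≤ 0 := by
  have hD0 : 0 ≤ D := le_trans (by positivity) hD
  have hm : a' ≤ b := h.meet hE hr hD hst h'
  have h0N := h.bN
  have key : ∀ q i, a ≤ i → i + q = a' → AR.NS (qv E D r (r - 1)) (E (r - 1)) D (2 ^ (k + 10)) (V i) := by
    intro q
    induction q with
    | zero =>
      intro i _ hi
      rw [show i = a' by omega]
      exact h'.nearL hD0 (by omega)
    | succ q ih =>
      intro i hi hi'
      have h1 := ih (i + 1) (by omega) (by omega)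
      obtain ⟨j, hj, hn⟩ := h'.rg i (Or.inl (by omega))
      rcases Nat.eq_zero_or_pos j with h0 | h0
      · rw [h0] at hn
        have h2 := far_ends hE hr hD hn h1
        have h3 := hst i (by omega)
        omega
      · rcases Nat.lt_or_ge (j + 1) r with h5 | h5
        · exact absurd hn (h.mid i hi (by omega) j h0 h5)
        · have h6 : j = r - 1 := by omega
          rw [h6] at hn
          exact hn
  intro i hi hi'
  have hn := key (a' - i) i hi (by omega)
  refine ⟨fun hlt => h.lst i hlt (by omega) hn, ?_⟩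
  rcases h'.bd i (Or.inl hi') with h1 | ⟨j, h1, h2⟩
  · exact h1
  · exfalso
    rcases Nat.eq_zero_or_pos j with h0 | h0
    · rw [h0] at h2
      have h3 := far_ends hE hr hD h2 hn
      have h4 : TIW.hn (0 : Pt) = 0 := by decide
      rw [sub_self, h4] at h3
      omega
    · exact h.mid i hi (by omega) j h0 h1 h2

/-- **the difference at the end** -/
theorem Tr.dif2 (hE : IPg E r) (hr : 3 ≤ r) (hD : 2 ^ (k + 12) ≤ D) (hst : ∀ i, i < N → TIW.hn (V (i + 1) - V i) ≤ 2)
    (h : Tr E r D k V U N a b) (h' : Tr E r D k V U N a' b') (_hbb : b' ≤ b) :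
    ∀ i, b' ≤ i → i ≤ b → (b' < i → 0 < ip (V i - V b') (E 0)) ∧ ip (V i - V b) (E 0) ≤ 0 := by
  have hD0 : 0 ≤ D := le_trans (by positivity) hD
  have hm : a ≤ b' := h'.meet hE hr hD hst h
  have h0N := h.bN
  have key : ∀ i, b' ≤ i → i ≤ b → AR.NS (qv E D r 0) (E 0) D (2 ^ (k + 10)) (V i) := by
    intro i hi
    induction i, hi using Nat.le_induction with
    | base => exact fun _ => h'.near0 hD0
    | succ i hi ih =>
      intro hb
      have h1 := ih (by omega)
      obtain ⟨j, hj, hn⟩ := h'.rg (i + 1) (Or.inr ⟨by omega, by omega⟩)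
      rcases Nat.eq_zero_or_pos j with h0 | h0
      · rw [h0] at hn
        exact hn
      · exfalso
        rcases Nat.lt_or_ge (j + 1) r with h5 | h5
        · exact h.mid (i + 1) (by omega) hb j h0 h5 hn
        · have h6 : j = r - 1 := by omega
          rw [h6] at hn
          have h2 := far_ends hE hr hD h1 hn
          have h3 := hst i (by omega)
          omega
  intro i hi hi'
  have hn := key i hi hi'
  refine ⟨fun hlt => ?_, h.fst i (by omega) hi' hn⟩
  rcases h'.st i (Or.inr ⟨hlt, by omega⟩) with h1 | ⟨j, h1, h2, h3⟩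
  · exact h1
  · exfalso
    rcases Nat.lt_or_ge (j + 1) r with h5 | h5
    · exact h.mid i (by omega) hi' j h1 h5 h3
    · have h6 : j = r - 1 := by omega
      rw [h6] at h3
      have h4 := far_ends hE hr hD hn h3
      have h7 : TIW.hn (0 : Pt) = 0 := by decide
      rw [sub_self, h7] at h4
      omega

end G3

end ARM

end HexObs
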