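import Pool.Agent.ARM.PlcU

/-!
# ARM, row G3 (helper87), part W: the marked closed word

`w = Q2 ++ (M ++ Q1)`: positions `V i = p + c w_i`.
-/

set_option autoImplicit false

namespace HexObs

namespace ARM

namespace G3

open Finset TS SDN SIM NTA TIP

open scoped ENNReal

/-- the letters number a, .., b - 1 -/
def sl (w : List Bool) (a b : ℕ) : List Bool := (w.drop a).take (b - a)

lemma sl_len {w : List Bool} {a b : ℕ} (hb : b ≤ w.length) : (sl w a b).length = b - a := by
  unfold sl
  rw [List.length_take, List.length_drop]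
  omega

lemma sl_cat {w : List Bool} {a b c : ℕ} (h1 : a ≤ b) (h2 : b ≤ c) : sl w a c = sl w a b ++ sl w b c := by
  unfold sl
  have e1 : c - a = (b - a) + (c - b) := by omega
  rw [e1, List.take_add, List.drop_drop, show a + (b - a) = b by omega]

lemma sl_mid {X M Y : List Bool} : sl (X ++ (M ++ Y)) X.length (X.length + M.length) = M := by
  unfold sl
  rw [List.drop_left' rfl, Nat.add_sub_cancel_left, List.take_left' rfl]

/-- the position and the direction number i of a placed word -/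
def Vp (w : List Bool) (p c : Pt) (i : ℕ) : Pt := p + mulE c (vx oo up w i)

/-- the direction number i of a placed word -/
def Up (w : List Bool) (c : Pt) (i : ℕ) : Pt := mulE c (dx up w i)

variable {E : ℕ → Pt} {r : ℕ} {D : ℤ} {k : ℕ} {p c : Pt} {w : List Bool} {N a b a' b' : ℕ}

lemma vx_step (w : List Bool) (i : ℕ) : vx oo up w (i + 1) = vx oo up w i + dx up w i := rfl

lemma Vp_step (hc : nrm c = 1) (i : ℕ) : TIW.hn (Vp w p c (i + 1) - Vp w p c i) ≤ 2 := by
  have e1 : Vp w p c (i + 1) - Vp w p c i = mulE c (dx up w i) := by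
    unfold Vp
    rw [vx_step, mulE_add]
    abel
  rw [e1, TIW.hn_mulE hc]
  have h1 : dx up w i ∈ dirs := dx_mem up_dirs w i
  have key : ∀ d ∈ dirs, TIW.hn d ≤ 2 := by decide
  exact key _ h1

/-- the frame of the part that starts at a -/
lemma part_vx {u : Pt} (hu : mulE u up = Up w c a) (_hun : nrm u = 1) {m i : ℕ} (hi : i ≤ m) (hm : a + m ≤ w.length) :
    mulE u (vx oo up ((w.drop a).take m) i) = Vp w p c (a + i) - Vp w p c a ∧
      mulE u (dx up ((w.drop a).take m) i) = Up w c (a + i) := by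
  obtain ⟨c1, hc1, h2, h3⟩ := drop_frame' w a
  have hlen : ((w.drop a).take m).length = m := by
    rw [List.length_take, List.length_drop]
    omega
  have e1 : vx oo up ((w.drop a).take m) i = vx oo up (w.drop a) i := by
    have h4 := vx_append (v0 := oo) (d0 := up) (t := (w.drop a).take m) (s := (w.drop a).drop m) (i := i) (by omega)
    rw [List.take_append_drop] at h4
    exact h4.symm
  have e1' : dx up ((w.drop a).take m) i = dx up (w.drop a) i := by
    have h4 := dx_append (d0 := up) (t := (w.drop a).take m) (s := (w.drop a).drop m) (i := i) (by omega)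
    rw [List.take_append_drop] at h4
    exact h4.symm
  have e2 : u = mulE c c1 := by
    have h5 : mulE u up = mulE (mulE c c1) up := by
      rw [hu]
      unfold Up
      rw [h2, mulE_assoc]
    rw [mulE_comm u, mulE_comm (mulE c c1)] at h5
    exact mulE_inj (mem_dirs.1 up_dirs) h5
  constructor
  · rw [e1, e2, ← mulE_assoc]
    unfold Vp
    rw [h3 i, mulE_add]
    abel
  · rw [e1', e2, ← mulE_assoc]
    unfold Up
    congr 1
    rw [dx_drop, h2, dx_mulE]

/-- the same without a rotation -/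
lemma part_up (hu : Up w c a = up) {m i : ℕ} (hi : i ≤ m) (hm : a + m ≤ w.length) :
    vx oo up ((w.drop a).take m) i = Vp w p c (a + i) - Vp w p c a ∧
      dx up ((w.drop a).take m) i = Up w c (a + i) := by
  have h := part_vx (p := p) (u := (1, 0)) (by rw [mulE_one, hu]) (by decide) hi hm
  rw [mulE_one, mulE_one] at h
  exact h

/-- a part of a closed word is self-avoiding -/
lemma sl_SA (hw : w ∈ POL.Cy N) (hb : b < N) : sl w a b ∈ SA := by
  have h1 : w.take b ∈ SA := by
    have h2 : w.take b ++ w.drop b ∈ POL.Cy N := by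
      rw [List.take_append_drop]
      exact hw
    refine POL.cy_take h2 ?_
    intro h3
    have h4 := congrArg List.length h3
    rw [List.length_drop, hw.1] at h4
    simp at h4
    omega
  have h2 : sl w a b = (w.take b).drop a := by
    unfold sl
    rw [List.drop_take]
  rw [h2]
  exact SA_drop h1 a

/-- **a placed part is a placed word** -/
lemma Pl.plc (_hc : nrm c = 1) (hw : w ∈ POL.Cy N) (hab : a ≤ b) (hb : b < N)
    (h : Pl E r D k (Vp w p c) (Up w c) a b) : Plc E r D k (Vp w p c a) (sl w a b) := by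
  have hlw : w.length = N := hw.1
  have hl : (sl w a b).length = b - a := sl_len (by omega)
  have hv : ∀ i, i ≤ (sl w a b).length → vx oo up (sl w a b) i = Vp w p c (a + i) - Vp w p c a := by
    intro i hi
    rw [hl] at hi
    exact (part_up h.ua hi (by omega)).1
  have hen : TIW.en (sl w a b) = Vp w p c b - Vp w p c a := by
    unfold TIW.en
    rw [hv _ le_rfl, hl, show a + (b - a) = b by omega]
  have hde : TIW.de (sl w a b) = Up w c b := by
    unfold TIW.de
    rw [hl]
    have h1 := (part_up (w := w) (c := c) (a := a) (p := p) (m := b - a) h.ua (i := b - a) le_rfl (by omega)).2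
    rw [show a + (b - a) = b by omega] at h1
    exact h1
  refine ⟨sl_SA hw hb, by rw [hde, h.ub], h.sa, ?_, fun i hi j hj hj' hn => ?_, fun i hi hn => ?_, fun i hi hi' hn => ?_⟩
  · rw [hen, add_sub_cancel]
    exact h.tb
  · rw [hv i hi, add_sub_cancel] at hn
    rw [hl] at hi
    exact h.mid (a + i) (by omega) (by omega) j hj hj' hn
  · rw [hv i hi, add_sub_cancel] at hn
    rw [hv i hi, hen]
    rw [hl] at hi
    have h1 := h.fst (a + i) (by omega) (by omega) hn
    have e1 : Vp w p c (a + i) - Vp w p c a - (Vp w p c b - Vp w p c a) = Vp w p c (a + i) - Vp w p c b := by abel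
    rw [e1]
    exact h1
  · rw [hv i hi', add_sub_cancel] at hn
    rw [hv i hi']
    rw [hl] at hi'
    exact h.lst (a + i) (by omega) (by omega) hn

/-- a bridge from its levels -/
lemma bu_of {Z : List Bool} (hs : Z ∈ SA) (hd : dx up Z Z.length = up) (h1 : ∀ i, 1 ≤ i → i ≤ Z.length → 0 < lev Z i)
    (h2 : ∀ i, i ≤ Z.length → lev Z i ≤ lev Z Z.length) : Z ∈ BU := by
  have h0 : 0 ≤ lev Z Z.length := by
    have := h2 0 (Nat.zero_le _)
    rw [lev_zero] at this
    exact this
  have hev : Even Z.length := by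
    by_contra hodd
    have h1 := cl_dx up Z Z.length
    rw [if_neg hodd, hd] at h1
    revert h1
    decide
  have hmod := lev_mod Z Z.length
  rw [if_pos hev, sub_zero] at hmod
  obtain ⟨q, hq⟩ := hmod
  obtain ⟨T, rfl⟩ := Int.eq_ofNat_of_zero_le (show 0 ≤ q by omega)
  exact ⟨T, mem_Brd.2 ⟨fun i h3 h4 => ⟨h1 i h3 h4, by rw [← hq]; exact h2 i h4⟩, hs.inj, hd, hq⟩⟩

/-- **the difference of two markings at one end is a bridge** -/
lemma part_bu {d : Pt} (hd : d ∈ dirs) (hw : w ∈ POL.Cy N) (hab : a ≤ b) (hb : b < N)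
    (hua : Up w c a = d) (hub : Up w c b = d)
    (h : ∀ i, a ≤ i → i ≤ b → (a < i → 0 < ip (Vp w p c i - Vp w p c a) d) ∧ ip (Vp w p c i - Vp w p c b) d ≤ 0) :
    sl w a b ∈ BU := by
  have hlw : w.length = N := hw.1
  have hl : (sl w a b).length = b - a := sl_len (by omega)
  obtain ⟨h1, h2⟩ := frame_dir hd
  obtain ⟨u, hu⟩ : ∃ u, u = rotTo up d := ⟨_, rfl⟩
  rw [← hu] at h1 h2
  have hun : nrm u = 1 := mem_dirs.1 h1
  have hv : ∀ i, i ≤ b - a → mulE u (vx oo up (sl w a b) i) = Vp w p c (a + i) - Vp w p c a ∧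
      mulE u (dx up (sl w a b) i) = Up w c (a + i) := by
    intro i hi
    exact part_vx (by rw [← h2, hua]) hun hi (by omega)
  have hlev : ∀ i, i ≤ b - a → lev (sl w a b) i = ip (Vp w p c (a + i) - Vp w p c a) d := by
    intro i hi
    rw [← (hv i hi).1, h2, ip_mulE, hun, one_mul]
    rfl
  refine bu_of (sl_SA hw hb) ?_ (fun i h3 h4 => ?_) (fun i h4 => ?_)
  · rw [hl]
    have h5 := (hv (b - a) le_rfl).2
    rw [show a + (b - a) = b by omega, hub, h2] at h5
    exact mulE_inj hun h5
  · rw [hl] at h4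
    rw [hlev i h4]
    exact (h (a + i) (by omega) (by omega)).1 (by omega)
  · rw [hl] at h4 ⊢
    rw [hlev i h4, hlev (b - a) le_rfl, show a + (b - a) = b by omega]
    have h5 := (h (a + i) (by omega) (by omega)).2
    have e1 : Vp w p c (a + i) - Vp w p c b = (Vp w p c (a + i) - Vp w p c a) - (Vp w p c b - Vp w p c a) := by abel
    rw [e1, AR.ip_sub_left] at h5
    linarith

/-! ### The markings of a closed word -/

/-- minimal placed words -/
def Wm (E : ℕ → Pt) (r : ℕ) (D : ℤ) (k : ℕ) (s : Pt) (M : List Bool) : Prop :=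
  Plc E r D k s M ∧ ∀ Z1 I Z2 : List Bool, Z1 ∈ BU → Z2 ∈ BU → M = Z1 ++ (I ++ Z2) → Plc E r D k (s + TIW.en Z1) I →
    Z1 = [] ∧ Z2 = []

/-- one of two markings, minimal -/
lemma mark_le (hE : IPg E r) (hr : 3 ≤ r) (hD : 2 ^ (k + 12) ≤ D) (hc : nrm c = 1) (hw : w ∈ POL.Cy N)
    (h : Tr E r D k (Vp w p c) (Up w c) N a b) (h' : Tr E r D k (Vp w p c) (Up w c) N a' b')
    (hm : Wm E r D k (Vp w p c a) (sl w a b)) : a' ≤ a ∧ b ≤ b' := by
  have hst : ∀ i, i < N → TIW.hn (Vp w p c (i + 1) - Vp w p c i) ≤ 2 := fun i _ => Vp_step hc i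
  have hlw : w.length = N := hw.1
  have m1 : a' ≤ b := h.meet hE hr hD hst h'
  have m2 : a ≤ b' := h'.meet hE hr hD hst h
  have hab := h.ab
  have hab' := h'.ab
  have hbN := h.bN
  have hbN' := h'.bN
  have hI := h.inter h'
  have i1 : a ≤ max a a' := le_max_left _ _
  have i2 : max a a' ≤ min b b' := by omega
  have i3 : min b b' ≤ b := min_le_left _ _
  have hIp : Plc E r D k (Vp w p c (max a a')) (sl w (max a a') (min b b')) := hI.plc hc hw i2 (by omega)
  have z1 : sl w a (max a a') ∈ BU := by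
    rcases Nat.lt_or_ge a a' with h1 | h1
    · rw [max_eq_right h1.le]
      refine part_bu (p := p) (c := c) up_dirs hw h1.le (by omega) h.ua h'.ua ?_
      exact h.dif1 hE hr hD hst h' h1.le
    · rw [max_eq_left h1]
      unfold sl
      rw [Nat.sub_self, List.take_zero]
      exact nil_BU
  have z2 : sl w (min b b') b ∈ BU := by
    rcases Nat.lt_or_ge b' b with h1 | h1
    · rw [min_eq_right h1.le]
      refine part_bu (p := p) (c := c) (hE.dir 0 (by omega)) hw h1.le (by omega) h'.ub h.ub ?_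
      exact h.dif2 hE hr hD hst h' h1.le
    · rw [min_eq_left h1]
      unfold sl
      rw [Nat.sub_self, List.take_zero]
      exact nil_BU
  have hen : Vp w p c a + TIW.en (sl w a (max a a')) = Vp w p c (max a a') := by
    unfold TIW.en
    rw [sl_len (by omega)]
    have h1 := (part_up (w := w) (c := c) (a := a) (p := p) (m := max a a' - a) (i := max a a' - a) h.ua le_rfl
      (by omega)).1
    unfold sl
    rw [h1, show a + (max a a' - a) = max a a' by omega]
    abel
  have hcat : sl w a b = sl w a (max a a') ++ (sl w (max a a') (min b b') ++ sl w (min b b') b) := by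
    rw [← sl_cat i2 i3, ← sl_cat i1 (by omega)]
  obtain ⟨e1, e2⟩ := hm.2 _ _ _ z1 z2 hcat (by rw [hen]; exact hIp)
  have e3 := congrArg List.length e1
  have e4 := congrArg List.length e2
  rw [sl_len (by omega)] at e3 e4
  simp only [List.length_nil] at e3 e4
  omega

/-- **uniqueness** -/
theorem mark_eq (hE : IPg E r) (hr : 3 ≤ r) (hD : 2 ^ (k + 12) ≤ D) (hc : nrm c = 1) (hw : w ∈ POL.Cy N)
    (h : Tr E r D k (Vp w p c) (Up w c) N a b) (h' : Tr E r D k (Vp w p c) (Up w c) N a' b')
    (hm : Wm E r D k (Vp w p c a) (sl w a b)) (hm' : Wm E r D k (Vp w p c a') (sl w a' b')) : a = a' ∧ b = b' := by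
  have h1 := mark_le hE hr hD hc hw h h' hm
  have h2 := mark_le hE hr hD hc hw h' h hm'
  omega

/-- **the marking of a word closed by a tube** -/
theorem tr_of (hE : IPg E r) (hr : 3 ≤ r) (hup : E (r - 1) = up) (hD : 2 ^ (k + 12) ≤ D) {s : Pt} {M Q1 Q2 : List Bool}
    (hP : Plc E r D k s M) (hQ : TP E r D k M (Q1 ++ Q2)) (hQ1 : Q1 ≠ []) :
    ∃ c : Pt, nrm c = 1 ∧ mulE c up = dx up (M ++ (Q1 ++ Q2)) (M.length + Q1.length) ∧
      Q2 ++ (M ++ Q1) ∈ POL.Cy (M.length + (Q1 ++ Q2).length) ∧
      Vp (Q2 ++ (M ++ Q1)) (s + vx oo up (M ++ (Q1 ++ Q2)) (M.length + Q1.length)) c Q2.length = s ∧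
      Tr E r D k (Vp (Q2 ++ (M ++ Q1)) (s + vx oo up (M ++ (Q1 ++ Q2)) (M.length + Q1.length)) c)
        (Up (Q2 ++ (M ++ Q1)) c) (M.length + (Q1 ++ Q2).length) Q2.length (Q2.length + M.length) := by
  have hcy := cy_of hE hr hup hD hP hQ
  have hcy' : (M ++ Q1) ++ Q2 ∈ POL.Cy (M.length + (Q1 ++ Q2).length) := by
    rw [List.append_assoc]
    exact hcy
  have hrot := POL.cy_rot hcy'
  obtain ⟨c, c1, c2, c3, c4, c5, c6⟩ := POL.cy_frame hcy'
  have hl1 : (M ++ Q1).length = M.length + Q1.length := List.length_append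
  have hl2 : (Q1 ++ Q2).length = Q1.length + Q2.length := List.length_append
  have hq1 : 1 ≤ Q1.length := List.length_pos_iff.2 hQ1
  rw [List.append_assoc, hl1] at c2 c3 c4
  obtain ⟨p, hp⟩ : ∃ p, p = s + vx oo up (M ++ (Q1 ++ Q2)) (M.length + Q1.length) := ⟨_, rfl⟩
  obtain ⟨w, hwd⟩ : ∃ w, w = Q2 ++ (M ++ Q1) := ⟨_, rfl⟩
  rw [← hwd] at hrot c3 c4 c5 c6
  rw [← hwd, ← hp]
  have v1 : ∀ i, i ≤ Q2.length → Vp w p c i = s + vx oo up (M ++ (Q1 ++ Q2)) (M.length + (Q1.length + i)) := by
    intro i hi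
    unfold Vp
    rw [hp, ← add_assoc M.length, c3 i hi]
    abel
  have v2 : ∀ j, j ≤ M.length + Q1.length → Vp w p c (Q2.length + j) = s + vx oo up (M ++ (Q1 ++ Q2)) j := by
    intro j hj
    unfold Vp
    rw [hp, c4 j hj]
    abel
  -- vertices of M
  have v3 : ∀ j, j ≤ M.length → Vp w p c (Q2.length + j) = s + vx oo up M j := by
    intro j hj
    rw [v2 j (by omega), vx_append (by omega)]
  have v0 : Vp w p c Q2.length = s := by
    have := v3 0 (Nat.zero_le _)
    rw [add_zero] at this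
    rw [this]
    exact add_zero s
  have vb : Vp w p c (Q2.length + M.length) = s + TIW.en M := v3 M.length le_rfl
  -- directions
  have u2 : ∀ j, j < M.length + Q1.length → Up w c (Q2.length + j) = dx up (M ++ (Q1 ++ Q2)) j := by
    intro j hj
    have h1 := v2 j (by omega)
    have h2 := v2 (j + 1) (by omega)
    have h3 : Vp w p c (Q2.length + (j + 1)) = Vp w p c (Q2.length + j) + Up w c (Q2.length + j) := by
      unfold Vp Up
      rw [← add_assoc Q2.length, vx_step, mulE_add, add_assoc]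
    rw [h1, h2, vx_step, ← add_assoc] at h3
    exact (add_left_cancel h3).symm
  have ua : Up w c Q2.length = up := by
    have := u2 0 (by omega)
    rw [add_zero] at this
    rw [this]
    rfl
  have ub : Up w c (Q2.length + M.length) = E 0 := by
    rw [u2 M.length (by omega), dx_append le_rfl]
    exact hP.de
  -- the vertices of the tube
  have vq : ∀ i, (i ≤ Q2.length ∨ (Q2.length + M.length ≤ i ∧ i ≤ M.length + (Q1 ++ Q2).length)) →
      ∃ q, q ≤ (Q1 ++ Q2).length ∧ Vp w p c i = s + vx oo up (M ++ (Q1 ++ Q2)) (M.length + q) ∧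
        ((i ≤ Q2.length ∨ Q2.length + M.length < i) → 1 ≤ q) := by
    intro i hi
    rcases Nat.lt_or_ge Q2.length i with h1 | h1
    · obtain ⟨hi1, hi2⟩ : Q2.length + M.length ≤ i ∧ i ≤ M.length + (Q1 ++ Q2).length := by
        rcases hi with hi | hi
        · omega
        · exact hi
      obtain ⟨q, rfl⟩ : ∃ q, i = Q2.length + (M.length + q) := ⟨i - (Q2.length + M.length), by omega⟩
      exact ⟨q, by omega, v2 _ (by omega), fun h => by omega⟩
    · exact ⟨Q1.length + i, by omega, v1 i h1, fun _ => by omega⟩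
  have vm : ∀ i, Q2.length ≤ i → i ≤ Q2.length + M.length → ∃ j, j ≤ M.length ∧ i = Q2.length + j ∧
      Vp w p c i = s + vx oo up M j := by
    intro i h1 h2
    obtain ⟨j, rfl⟩ : ∃ j, i = Q2.length + j := ⟨i - Q2.length, by omega⟩
    exact ⟨j, by omega, rfl, v3 j (by omega)⟩
  refine ⟨c, c1, c2, ?_, v0, ⟨ua, ub, ?_, ?_, fun i h1 h2 j hj hj' hn => ?_, fun i h1 h2 hn => ?_, fun i h1 h2 hn => ?_⟩,
    by omega, by omega, fun i hi => ?_, fun i hi => ?_, fun i hi => ?_⟩
  · exact hrot
  · rw [v0]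
    exact hP.hs
  · rw [vb]
    exact hP.ht
  · obtain ⟨m, hm, -, hv⟩ := vm i h1 h2
    rw [hv] at hn
    exact hP.mid m hm j hj hj' hn
  · obtain ⟨m, hm, -, hv⟩ := vm i h1 h2
    rw [hv] at hn
    rw [hv, vb, add_sub_add_left_eq_sub]
    exact hP.fst m hm hn
  · obtain ⟨m, hm, hi, hv⟩ := vm i h1.le h2
    rw [hv] at hn
    rw [hv, v0, add_sub_cancel_left]
    exact hP.lst m (by omega) hm hn
  · obtain ⟨q, hq, hv, -⟩ := vq i hi
    rw [hv]
    exact hQ.rgA hP hq
  · obtain ⟨q, hq, hv, hq1⟩ := vq i (by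
      rcases hi with hi | ⟨hi, hi'⟩
      · exact Or.inl hi
      · exact Or.inr ⟨by omega, hi'⟩)
    have h1 : 1 ≤ q := hq1 (by
      rcases hi with hi | ⟨hi, hi'⟩
      · exact Or.inl hi
      · exact Or.inr hi)
    rw [hv, vb, add_sub_add_left_eq_sub]
    exact hQ.stA hP h1 hq
  · obtain ⟨q, hq, hv, -⟩ := vq i hi
    rw [hv, v0, add_sub_cancel_left]
    exact hQ.bdA hup hP hq

end G3

end ARM

end HexObs
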