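import Pool.Agent.ARM.Num
import Pool.Agent.ARM.Defs2
import Pool.Agent.JNT.LocLowP
import Pool.Agent.JNT.LocUp
import Pool.Agent.TPC.AN
import Pool.Agent.TPC.XUp
import Pool.Agent.TPC.XLow
import Pool.Agent.SDN.MainA
import Pool.Agent.NT.MassD
import Pool.Agent.EN.TailW

/-!
ARM: the public form (helper37): the complete law of the end point, from UpPt, LowPt, LowSm and the landed law of the end
point at a distance of at least ε n ^ (3/4).
-/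

set_option autoImplicit false

namespace NTSZ

namespace Loc

open Finset MeasureTheory Filter Topology

open HexObs hiding pos curve

open HexObs.TS HexObs.SDN HexObs.NTW HexObs.JNT HexObs.TIW

open Pool.Agent.NTS.Res

open NTSF

open scoped ENNReal Classical

/-! ### numbers -/

/-- the predicted mass at a point -/
lemma prz {n j : ℕ} (h : HexObs.ARM.ml j ≤ n) : HexObs.ARM.pr n j / (4 ^ j * HexObs.ARM.ml j) =
    (2 : ℝ) ^ ((11 / 24 : ℝ) * (j : ℝ)) * (n : ℝ) ^ (-(3 / 2) : ℝ) := by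
  have hm := HexObs.ARM.ml_pos j
  have hn : (0 : ℝ) < n := lt_of_lt_of_le hm h
  rw [HexObs.ARM.pr_eq, max_eq_left h, Real.div_rpow hm.le hn.le]
  have e1 : (HexObs.ARM.ml j) ^ (3 / 2 : ℝ) = (2 : ℝ) ^ (2 * (j : ℝ)) := by
    unfold HexObs.ARM.ml
    rw [← Real.rpow_mul (by norm_num)]
    congr 1
    ring
  have e2 : (4 : ℝ) ^ j = (2 : ℝ) ^ (2 * (j : ℝ)) := by
    rw [show (4 : ℝ) = (2 : ℝ) ^ (2 : ℝ) by norm_num, ← Real.rpow_natCast, ← Real.rpow_mul (by norm_num)]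
  have e3 : HexObs.ARM.pw j = (2 : ℝ) ^ ((43 / 24 : ℝ) * (j : ℝ)) := rfl
  have e4 : (n : ℝ) ^ (-(3 / 2) : ℝ) = ((n : ℝ) ^ (3 / 2 : ℝ))⁻¹ := by
    rw [← Real.rpow_neg hn.le]
  have e5 : (2 : ℝ) ^ ((11 / 24 : ℝ) * (j : ℝ)) * HexObs.ARM.ml j = (2 : ℝ) ^ ((43 / 24 : ℝ) * (j : ℝ)) := by
    unfold HexObs.ARM.ml
    rw [← Real.rpow_add (by norm_num)]
    congr 1
    ring
  rw [e1, e2, e3, e4]
  have p1 : (0 : ℝ) < (2 : ℝ) ^ (2 * (j : ℝ)) := by positivity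
  have p2 : (0 : ℝ) < (n : ℝ) ^ (3 / 2 : ℝ) := by positivity
  rw [← e5]
  field_simp

/-- the mass of the words with n letters, both sides -/
theorem gfN_two : ∃ c C : ℝ, 0 < c ∧ 0 < C ∧ ∀ n : ℕ, 1 ≤ n →
    ENNReal.ofReal (c * (n : ℝ) ^ (11 / 32 : ℝ)) ≤ gf (SawN n) ∧ gf (SawN n) ≤ ENNReal.ofReal (C * (n : ℝ) ^ (11 / 32 : ℝ)) := by
  obtain ⟨c, C, hc, hC, h⟩ := TPC.an_const TPC.xUp TPC.xLow
  have hx := xc_pos
  have hmu : muB = 1 / xc := le_antisymm muB_le le_muB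
  refine ⟨2 / 3 * c, 2 / 3 * C, by positivity, by positivity, fun n hn => ?_⟩
  rw [PHWDict.gf_SawN]
  have h1 : (2 : ℝ) * aB n = 3 * cS n := by exact_mod_cast aB_eq hn
  have h2 : (cS n : ℝ) = 2 / 3 * aB n := by linarith
  have h3 : muB ^ n * xc ^ n = 1 := by
    rw [hmu, ← mul_pow, one_div, inv_mul_cancel₀ hx.ne', one_pow]
  constructor
  · refine ENNReal.ofReal_le_ofReal ?_
    rw [h2]
    calc 2 / 3 * c * (n : ℝ) ^ (11 / 32 : ℝ) = 2 / 3 * c * (n : ℝ) ^ (11 / 32 : ℝ) * (muB ^ n * xc ^ n) := by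
          rw [h3, mul_one]
      _ = 2 / 3 * (c * (muB ^ n * (n : ℝ) ^ ((11 : ℝ) / 32))) * xc ^ n := by ring
      _ ≤ _ := by
          have := (h n hn).1
          gcongr
  · refine ENNReal.ofReal_le_ofReal ?_
    rw [h2]
    calc 2 / 3 * (aB n : ℝ) * xc ^ n ≤ 2 / 3 * (C * (muB ^ n * (n : ℝ) ^ ((11 : ℝ) / 32))) * xc ^ n := by
          have := (h n hn).2
          gcongr
      _ = 2 / 3 * C * (n : ℝ) ^ (11 / 32 : ℝ) * (muB ^ n * xc ^ n) := by ring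
      _ = _ := by rw [h3, mul_one]

/-- **the walks with a given end, from the words**; the bound only for the three points of the orbit -/
theorem end_one {n : ℕ} (hn : 0 < n) {c : ℝ} (hc : 0 ≤ c) (z : ℂ)
    (h : ∀ x : Pt, ‖NTF.JJ x‖ = ‖z‖ → gf {t | t ∈ SawN n ∧ vx oo up t n = x} ≤ ENNReal.ofReal c * gf (SawN n)) :
    prb n (fun s => Pool.Agent.NTS.Res.pos s n = z) ≤ 3 * c := by
  have key : ∀ w : ℂ, ‖w‖ = ‖z‖ → ∃ B : Set (List Bool), gf B ≤ ENNReal.ofReal c * gf (SawN n) ∧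
      ∀ t ∈ SawN n, Pool.Agent.NTS.Res.pos (NTF.sw n t) n = w → t ∈ B := by
    intro w hw
    by_cases hx : ∃ x : Pt, NTF.JJ x = w
    · obtain ⟨x, hx⟩ := hx
      refine ⟨_, h x (by rw [hx, hw]), fun t ht h1 => ⟨ht, ?_⟩⟩
      rw [pos_sw n t n le_rfl, ← hx] at h1
      exact NTF.JJ_inj h1
    · refine ⟨∅, by rw [gf_empty']; exact zero_le, fun t ht h1 => absurd ⟨vx oo up t n, ?_⟩ hx⟩
      rw [← pos_sw n t n le_rfl]
      exact h1
  have hin : ‖om⁻¹‖ = 1 := by rw [norm_inv, om_norm, inv_one]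
  obtain ⟨B0, g0, f0⟩ := key z rfl
  obtain ⟨B1, g1, f1⟩ := key (om⁻¹ * z) (by rw [norm_mul, hin, one_mul])
  obtain ⟨B2, g2, f2⟩ := key (om⁻¹ * (om⁻¹ * z)) (by rw [norm_mul, norm_mul, hin, one_mul, one_mul])
  exact prb_le _ (NTSF.Mod.prop_le3 hn (fun s => Pool.Agent.NTS.Res.pos s n = z) hc f0
    (fun t ht h1 => f1 t ht ((rot_end _ _).1 h1))
    (fun t ht h1 => f2 t ht ((rot_end _ _).1 ((rot_end _ _).1 h1))) g0 g1 g2)

end Loc

end NTSZ
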