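import Pool.Agent.ARM.PubL

/-!
ARM: the public form (helper37): the complete law of the end point.
-/

set_option autoImplicit false

namespace NTSZ

namespace Loc

open Finset

open Pool.Agent.NTS.Res

open NTSF

open scoped Classical

/-- **the complete law of the end point**, from UpPt, LowPt, LowSm; `hE` = `loc_twoE`, `hX` = every point reached by a path
with n ≥ 8 steps is reached by a self-avoiding one -/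
theorem law_of (hE : ∃ c C : ℝ, 0 < c ∧ 0 < C ∧
    (∀ n : ℕ, 1 ≤ n → ∀ z : ℂ, ∀ L : ℝ, 0 ≤ L → prb n (fun s => Pool.Agent.NTS.Res.pos s n = z ∧ ∃ j, j ≤ n ∧
        L * (n : ℝ) ^ (3 / 4 : ℝ) ≤ ‖Pool.Agent.NTS.Res.pos s j‖) ≤
        C * (n : ℝ) ^ (-(3 / 2) : ℝ) * Real.exp (-(c * L ^ 4))) ∧
    ∀ ε : ℝ, 0 < ε → ∃ a : ℝ, 0 < a ∧ ∀ n : ℕ, 1 ≤ n → ∀ z : ℂ,
      (∃ s ∈ saw n, Pool.Agent.NTS.Res.pos s n = z) → ε * (n : ℝ) ^ (3 / 4 : ℝ) ≤ ‖z‖ →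
        a * (n : ℝ) ^ (-(3 / 2) : ℝ) * Real.exp (-(C * (‖z‖ / (n : ℝ) ^ (3 / 4 : ℝ)) ^ 4)) ≤
          prb n (fun s => Pool.Agent.NTS.Res.pos s n = z))
    (hX : ∀ n : ℕ, 8 ≤ n → ∀ z : ℂ, z ≠ 0 → (∃ s : Fin n → Fin 3, Pool.Agent.NTS.Res.pos s n = z) →
      ∃ s ∈ saw n, Pool.Agent.NTS.Res.pos s n = z)
    (hU : HexObs.ARM.UpPt) (hL : HexObs.ARM.LowPt) (hS : HexObs.ARM.LowSm) :
    ∃ c C : ℝ, 0 < c ∧ 0 < C ∧ ∀ n : ℕ, 1 ≤ n → ∀ z : ℂ,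
      (∀ L : ℝ, 0 ≤ L → prb n (fun s => Pool.Agent.NTS.Res.pos s n = z ∧ ∃ j, j ≤ n ∧
        L * (n : ℝ) ^ (3 / 4 : ℝ) ≤ ‖Pool.Agent.NTS.Res.pos s j‖) ≤
        C * (n : ℝ) ^ (-(3 / 2) : ℝ) * Real.exp (-(c * L ^ 4))) ∧
      (z ≠ 0 → prb n (fun s => Pool.Agent.NTS.Res.pos s n = z) ≤ C * (n : ℝ) ^ (-(3 / 2) : ℝ) *
        (‖z‖ / (n : ℝ) ^ (3 / 4 : ℝ)) ^ (11 / 24 : ℝ) * Real.exp (-(c * (‖z‖ / (n : ℝ) ^ (3 / 4 : ℝ)) ^ 4))) ∧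
      (z ≠ 0 → (∃ s : Fin n → Fin 3, Pool.Agent.NTS.Res.pos s n = z) →
        (8 ≤ n ∨ 2 < ‖z‖ ∨ ∃ s ∈ saw n, Pool.Agent.NTS.Res.pos s n = z) →
        c * (n : ℝ) ^ (-(3 / 2) : ℝ) * (‖z‖ / (n : ℝ) ^ (3 / 4 : ℝ)) ^ (11 / 24 : ℝ) *
          Real.exp (-(C * (‖z‖ / (n : ℝ) ^ (3 / 4 : ℝ)) ^ 4)) ≤ prb n (fun s => Pool.Agent.NTS.Res.pos s n = z)) := by
  obtain ⟨c0, C0, hc0, hC0, h1, h2⟩ := hE
  obtain ⟨c1, C1, hc1, hC1, h3⟩ := law_up ⟨c0, C0, hc0, hC0, h1⟩ hU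
  obtain ⟨c2, C2, N, hc2, hC2, h4⟩ := law_low ⟨C0, hC0, h2⟩ hL hS
  obtain ⟨c, hc⟩ : ∃ c : ℝ, c = min c0 (min c1 c2) := ⟨_, rfl⟩
  obtain ⟨C, hC⟩ : ∃ C : ℝ, C = max C0 (max C1 C2) := ⟨_, rfl⟩
  have hcp : 0 < c := by rw [hc]; exact lt_min hc0 (lt_min hc1 hc2)
  have e0 : c ≤ c0 := by rw [hc]; exact min_le_left _ _
  have e1 : c ≤ c1 := by rw [hc]; exact (min_le_right _ _).trans (min_le_left _ _)
  have e2 : c ≤ c2 := by rw [hc]; exact (min_le_right _ _).trans (min_le_right _ _)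
  have f0 : C0 ≤ C := by rw [hC]; exact le_max_left _ _
  have f1 : C1 ≤ C := by rw [hC]; exact (le_max_left _ _).trans (le_max_right _ _)
  have f2 : C2 ≤ C := by rw [hC]; exact (le_max_right _ _).trans (le_max_right _ _)
  have hCp : 0 < C := lt_of_lt_of_le hC0 f0
  refine ⟨c, C, hcp, hCp, fun n hn z => ⟨fun L hL => ?_, fun hz => ?_, fun hz hr hs => ?_⟩⟩
  · refine (h1 n hn z L hL).trans ?_
    have hn' : (0 : ℝ) < n := by exact_mod_cast hn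
    gcongr
  · refine (h3 n hn z hz).trans ?_
    have hn' : (0 : ℝ) < n := by exact_mod_cast hn
    gcongr
  · have hs' : ∃ s ∈ saw n, Pool.Agent.NTS.Res.pos s n = z := by
      rcases hs with h | h | h
      · exact hX n h z hz hr
      · exact ExS.exists_saw n z h hr
      · exact h
    refine le_trans ?_ (h4 n hn z hz hr (Or.inr (Or.inr hs')))
    have hn' : (0 : ℝ) < n := by exact_mod_cast hn
    gcongr

end Loc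

end NTSZ
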