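import Pool.Agent.ARM.Law
import Pool.Agent.POL.FinC

/-!
ARM: the public form (helper13): the complete law of the end point together with the number of the polygons, one pair of
constants; from LowPt, LowSm.
-/

set_option autoImplicit false

namespace NTSZ

namespace Loc

open Finset

open Pool.Agent.NTS.Res

open NTSF

open scoped Classical

/-- a self-avoiding walk does not end at its first site -/
lemma end_ne {n : ℕ} (hn : 1 ≤ n) {z : ℂ} (h : ∃ s ∈ saw n, Pool.Agent.NTS.Res.pos s n = z) : z ≠ 0 := by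
  obtain ⟨s, hs, h1⟩ := h
  rintro rfl
  have h2 : ∀ j k : ℕ, j ≤ n → k ≤ n → Pool.Agent.NTS.Res.pos s j = Pool.Agent.NTS.Res.pos s k → j = k :=
    (Finset.mem_filter.1 hs).2
  have h3 : Pool.Agent.NTS.Res.pos s 0 = 0 := by
    unfold Pool.Agent.NTS.Res.pos
    rw [Finset.filter_false_of_mem (by intro i _; omega), Finset.sum_empty]
  have := h2 0 n (Nat.zero_le n) le_rfl (by rw [h1, h3])
  omega

/-- **the complete law of the end point, with the polygons** -/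
theorem law_pol (hL : HexObs.ARM.LowPt) (hS : HexObs.ARM.LowSm) :
    ∃ c C : ℝ, 0 < c ∧ 0 < C ∧
      (∀ n : ℕ, 1 ≤ n → ∀ z : ℂ,
        (∀ L : ℝ, 0 ≤ L → prb n (fun s => Pool.Agent.NTS.Res.pos s n = z ∧ ∃ j, j ≤ n ∧
          L * (n : ℝ) ^ (3 / 4 : ℝ) ≤ ‖Pool.Agent.NTS.Res.pos s j‖) ≤
          C * (n : ℝ) ^ (-(3 / 2) : ℝ) * Real.exp (-(c * L ^ 4))) ∧
        (z ≠ 0 → prb n (fun s => Pool.Agent.NTS.Res.pos s n = z) ≤ C * (n : ℝ) ^ (-(3 / 2) : ℝ) *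
          (‖z‖ / (n : ℝ) ^ (3 / 4 : ℝ)) ^ (11 / 24 : ℝ) * Real.exp (-(c * (‖z‖ / (n : ℝ) ^ (3 / 4 : ℝ)) ^ 4))) ∧
        (((∃ s ∈ saw n, Pool.Agent.NTS.Res.pos s n = z) ∨
            (8 ≤ n ∧ z ≠ 0 ∧ ∃ s : Fin n → Fin 3, Pool.Agent.NTS.Res.pos s n = z)) →
          c * (n : ℝ) ^ (-(3 / 2) : ℝ) * (‖z‖ / (n : ℝ) ^ (3 / 4 : ℝ)) ^ (11 / 24 : ℝ) *
            Real.exp (-(C * (‖z‖ / (n : ℝ) ^ (3 / 4 : ℝ)) ^ 4)) ≤ prb n (fun s => Pool.Agent.NTS.Res.pos s n = z))) ∧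
      ∀ f : ℕ → Fin 3 → ℂ, _root_.MS.Hex f → ∀ n : ℕ, 9 ≤ n → ¬ Even n →
        (c * (n : ℝ) ^ (-(3 / 2) : ℝ) * HexObs.POLP.mu ^ n ≤ ((_root_.PGX.Pol f n).card : ℝ) ∧
          ((_root_.PGX.Pol f n).card : ℝ) ≤ C * (n : ℝ) ^ (-(3 / 2) : ℝ) * HexObs.POLP.mu ^ n) := by
  obtain ⟨c0, C0, hc0, hC0, h1⟩ := law_in hL hS
  obtain ⟨c1, C1, hc1, h2⟩ := HexObs.POL.finC
  obtain ⟨c, hc⟩ : ∃ c : ℝ, c = min c0 c1 := ⟨_, rfl⟩
  obtain ⟨C, hC⟩ : ∃ C : ℝ, C = max C0 C1 := ⟨_, rfl⟩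
  have hcp : 0 < c := by rw [hc]; exact lt_min hc0 hc1
  have e0 : c ≤ c0 := by rw [hc]; exact min_le_left _ _
  have e1 : c ≤ c1 := by rw [hc]; exact min_le_right _ _
  have f0 : C0 ≤ C := by rw [hC]; exact le_max_left _ _
  have f1 : C1 ≤ C := by rw [hC]; exact le_max_right _ _
  have hCp : 0 < C := lt_of_lt_of_le hC0 f0
  have hmu : 0 ≤ HexObs.POLP.mu := by
    unfold HexObs.POLP.mu
    positivity
  refine ⟨c, C, hcp, hCp, fun n hn z => ⟨fun L hL => ?_, fun hz => ?_, fun hz => ?_⟩, fun f hf n hn ho => ⟨?_, ?_⟩⟩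
  · refine ((h1 n hn z).1 L hL).trans ?_
    have hn' : (0 : ℝ) < n := by exact_mod_cast hn
    gcongr
  · refine ((h1 n hn z).2.1 hz).trans ?_
    have hn' : (0 : ℝ) < n := by exact_mod_cast hn
    gcongr
  · have h3 : z ≠ 0 ∧ (∃ s : Fin n → Fin 3, Pool.Agent.NTS.Res.pos s n = z) ∧
        (8 ≤ n ∨ 2 < ‖z‖ ∨ ∃ s ∈ saw n, Pool.Agent.NTS.Res.pos s n = z) := by
      rcases hz with h | ⟨h, h', h''⟩
      · obtain ⟨s, hs, h4⟩ := h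
        exact ⟨end_ne hn ⟨s, hs, h4⟩, ⟨s, h4⟩, Or.inr (Or.inr ⟨s, hs, h4⟩)⟩
      · exact ⟨h', h'', Or.inl h⟩
    refine le_trans ?_ ((h1 n hn z).2.2 h3.1 h3.2.1 h3.2.2)
    have hn' : (0 : ℝ) < n := by exact_mod_cast hn
    gcongr
  · refine le_trans ?_ (h2 f hf n hn ho).1.1
    have hn' : (0 : ℝ) < n := by exact_mod_cast (show 0 < n by omega)
    gcongr
  · refine ((h2 f hf n hn ho).1.2).trans ?_
    have hn' : (0 : ℝ) < n := by exact_mod_cast (show 0 < n by omega)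
    gcongr

end Loc

end NTSZ
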