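import Pool.Agent.ARM.PubU
import Pool.Agent.JNT.ExSaw

/-!
ARM: the public form, lower side (helper37).
-/

set_option autoImplicit false

namespace NTSZ

namespace Loc

open Finset MeasureTheory Filter Topology

open HexObs hiding pos curve

open HexObs.TS HexObs.SDN HexObs.NTW HexObs.JNT HexObs.TIW

open Pool.Agent.NTS.Res

open NTSF

open scoped ENNReal Classical

/-- the class of a point -/
lemma cl_of_ip {n : ℕ} {x : Pt} (h : ip x up % 3 = if n % 2 = 0 then 0 else 2) :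
    cl x = (if Even n then 0 else 2) := by
  have e1 : x.1 - x.2 = ip x up - 3 * x.2 := by
    simp only [ip, up]
    ring
  have e2 : cl x = ((ip x up % 3 : ℤ) : ZMod 3) := by
    have h3 : (3 : ZMod 3) = 0 := by decide
    have h4 : ((ip x up % ((3 : ℕ) : ℤ) : ℤ) : ZMod 3) = ((ip x up : ℤ) : ZMod 3) := ZMod.intCast_mod _ 3
    unfold cl
    rw [e1, Int.cast_sub, Int.cast_mul, Int.cast_ofNat, h3, zero_mul, sub_zero, ← h4]
    norm_num
  rw [e2, h]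
  by_cases hn : Even n
  · rw [if_pos (Nat.even_iff.1 hn), if_pos hn]
    rfl
  · rw [if_neg (fun h' => hn (Nat.even_iff.2 h')), if_neg hn]
    rfl

/-- **the lower side** -/
theorem law_low (hE : ∃ C : ℝ, 0 < C ∧ ∀ ε : ℝ, 0 < ε → ∃ a : ℝ, 0 < a ∧ ∀ n : ℕ, 1 ≤ n → ∀ z : ℂ,
      (∃ s ∈ saw n, Pool.Agent.NTS.Res.pos s n = z) → ε * (n : ℝ) ^ (3 / 4 : ℝ) ≤ ‖z‖ →
        a * (n : ℝ) ^ (-(3 / 2) : ℝ) * Real.exp (-(C * (‖z‖ / (n : ℝ) ^ (3 / 4 : ℝ)) ^ 4)) ≤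
          prb n (fun s => Pool.Agent.NTS.Res.pos s n = z))
    (hL : HexObs.ARM.LowPt) (hS : HexObs.ARM.LowSm) :
    ∃ (c C : ℝ) (N : ℕ), 0 < c ∧ 0 < C ∧ ∀ n : ℕ, 1 ≤ n → ∀ z : ℂ, z ≠ 0 →
      (∃ s : Fin n → Fin 3, Pool.Agent.NTS.Res.pos s n = z) →
      (2 < ‖z‖ ∨ N ≤ n ∨ ∃ s ∈ saw n, Pool.Agent.NTS.Res.pos s n = z) →
      c * (n : ℝ) ^ (-(3 / 2) : ℝ) * (‖z‖ / (n : ℝ) ^ (3 / 4 : ℝ)) ^ (11 / 24 : ℝ) *
        Real.exp (-(C * (‖z‖ / (n : ℝ) ^ (3 / 4 : ℝ)) ^ 4)) ≤ prb n (fun s => Pool.Agent.NTS.Res.pos s n = z) := by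
  obtain ⟨C4, hC4, hE⟩ := hE
  obtain ⟨cL, b0, hcL, hL⟩ := hL
  obtain ⟨cS, n0, hcS, hS⟩ := hS b0
  obtain ⟨cg, Cg, hcg, hCg, hg⟩ := gfN_two
  obtain ⟨N1, hN1⟩ : ∃ N1 : ℕ, 2 ^ b0 * HexObs.ARM.ml b0 ≤ N1 := exists_nat_ge _
  obtain ⟨N0, hN0⟩ : ∃ N0 : ℕ, N0 = max N1 n0 := ⟨_, rfl⟩
  obtain ⟨ε, hε⟩ : ∃ ε : ℝ, ε = min (1 / 2 ^ (b0 + 2)) (1 / ((N0 : ℝ) + 1)) := ⟨_, rfl⟩
  have hε0 : 0 < ε := by rw [hε]; exact lt_min (by positivity) (by positivity)
  have hε1 : ε ≤ 1 / 2 ^ (b0 + 2) := by rw [hε]; exact min_le_left _ _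
  have hε2 : ε ≤ 1 / ((N0 : ℝ) + 1) := by rw [hε]; exact min_le_right _ _
  have hε3 : ε ≤ 1 := by
    refine hε2.trans ?_
    rw [div_le_one (by positivity)]
    have : (0 : ℝ) ≤ N0 := Nat.cast_nonneg _
    linarith
  obtain ⟨a, ha, hE⟩ := hE ε hε0
  obtain ⟨N, hN⟩ : ∃ N : ℕ, (2 / ε) ^ 2 < (N : ℝ) := exists_nat_gt _
  obtain ⟨c2, hc2⟩ : ∃ c2 : ℝ, c2 = min (cS / 2 ^ b0) (cL / 2) := ⟨_, rfl⟩
  have hc20 : 0 < c2 := by rw [hc2]; exact lt_min (by positivity) (by positivity)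
  have hc2S : c2 * 2 ^ b0 ≤ cS := by
    have : c2 ≤ cS / 2 ^ b0 := by rw [hc2]; exact min_le_left _ _
    rwa [le_div_iff₀ (by positivity)] at this
  have hc2L : c2 ≤ cL / 2 := by rw [hc2]; exact min_le_right _ _
  obtain ⟨c, hc⟩ : ∃ c : ℝ, c = min a (c2 / (3 * Cg)) := ⟨_, rfl⟩
  have hc0 : 0 < c := by rw [hc]; exact lt_min ha (by positivity)
  have hca : c ≤ a := by rw [hc]; exact min_le_left _ _
  have hcb : c ≤ c2 / (3 * Cg) := by rw [hc]; exact min_le_right _ _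
  refine ⟨c, C4 + 1, N, hc0, by linarith, fun n hn z hz hre hs => ?_⟩
  have hn' : (0 : ℝ) < n := by exact_mod_cast hn
  have hn1 : (1 : ℝ) ≤ n := by exact_mod_cast hn
  have hp : (0 : ℝ) < (n : ℝ) ^ (3 / 4 : ℝ) := by positivity
  have hz0 : 0 < ‖z‖ := norm_pos_iff.2 hz
  obtain ⟨X, hX⟩ : ∃ X : ℝ, X = ‖z‖ / (n : ℝ) ^ (3 / 4 : ℝ) := ⟨_, rfl⟩
  obtain ⟨W, hW⟩ : ∃ W : ℝ, W = (n : ℝ) ^ (-(3 / 2) : ℝ) := ⟨_, rfl⟩
  have hX0 : 0 < X := by rw [hX]; positivity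
  have hW0 : 0 < W := by rw [hW]; positivity
  have hXr : 0 < X ^ (11 / 24 : ℝ) := by positivity
  have hzX : ‖z‖ = X * (n : ℝ) ^ (3 / 4 : ℝ) := by
    rw [hX]
    field_simp
  obtain ⟨s0, hs0⟩ := hre
  obtain ⟨x, hx1, hx2⟩ := reach_pt s0 n le_rfl
  rw [hs0] at hx1
  have hxz : NTF.JJ x ≠ 0 := by rw [hx1]; exact hz
  have hz1 : 1 ≤ ‖z‖ := by
    rw [← hx1]
    exact one_le_JJ hxz
  rcases le_or_gt ε X with hXe | hXe
  · -- the far points
    have hsaw : ∃ s ∈ saw n, Pool.Agent.NTS.Res.pos s n = z := by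
      rcases hs with h | h | h
      · exact ExS.exists_saw n z h ⟨s0, hs0⟩
      · refine ExS.exists_saw n z ?_ ⟨s0, hs0⟩
        by_contra h2
        have h3 : ‖z‖ ≤ 2 := not_lt.1 h2
        have h4 : (2 / ε) ^ 2 < (n : ℝ) := lt_of_lt_of_le hN (by exact_mod_cast h)
        have h5 : 2 / ε < (n : ℝ) ^ (3 / 4 : ℝ) := by
          have h6 : 2 / ε < (n : ℝ) ^ (1 / 2 : ℝ) := by
            rw [← Real.sqrt_eq_rpow]
            exact Real.lt_sqrt_of_sq_lt h4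
          exact lt_of_lt_of_le h6 (Real.rpow_le_rpow_of_exponent_le hn1 (by norm_num))
        have h7 : X < ε := by
          rw [hX, div_lt_iff₀ hp]
          rw [div_lt_iff₀ hε0] at h5
          linarith
        linarith
      · exact h
    have h1 := hE n hn z hsaw (by rw [hzX]; exact mul_le_mul_of_nonneg_right hXe hp.le)
    rw [← hX, ← hW] at h1 ⊢
    refine le_trans ?_ h1
    have e1 : X ^ (11 / 24 : ℝ) ≤ Real.exp (X ^ 4) := by
      refine le_trans ?_ (Real.add_one_le_exp _)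
      rcases le_total X 1 with h | h
      · have : X ^ (11 / 24 : ℝ) ≤ 1 := Real.rpow_le_one hX0.le h (by norm_num)
        have : 0 < X ^ 4 := by positivity
        linarith
      · have : X ^ (11 / 24 : ℝ) ≤ X ^ (4 : ℝ) := Real.rpow_le_rpow_of_exponent_le h (by norm_num)
        have h4 : X ^ (4 : ℝ) = X ^ (4 : ℕ) := by exact_mod_cast Real.rpow_natCast X 4
        rw [h4] at this
        linarith
    have e2 : Real.exp (-((C4 + 1) * X ^ 4)) = Real.exp (-(C4 * X ^ 4)) * Real.exp (-(X ^ 4)) := by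
      rw [← Real.exp_add]
      congr 1
      ring
    have e3 : X ^ (11 / 24 : ℝ) * Real.exp (-(X ^ 4)) ≤ 1 := by
      calc X ^ (11 / 24 : ℝ) * Real.exp (-(X ^ 4)) ≤ Real.exp (X ^ 4) * Real.exp (-(X ^ 4)) := by gcongr
        _ = 1 := by rw [← Real.exp_add, add_neg_cancel, Real.exp_zero]
    calc c * W * X ^ (11 / 24 : ℝ) * Real.exp (-((C4 + 1) * X ^ 4))
        = c * W * Real.exp (-(C4 * X ^ 4)) * (X ^ (11 / 24 : ℝ) * Real.exp (-(X ^ 4))) := by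
          rw [e2]
          ring
      _ ≤ c * W * Real.exp (-(C4 * X ^ 4)) * 1 := mul_le_mul_of_nonneg_left e3 (by positivity)
      _ ≤ a * W * Real.exp (-(C4 * X ^ 4)) := by
          rw [mul_one]
          gcongr
  · -- the near points
    have hXe' : ‖z‖ / (n : ℝ) ^ (3 / 4 : ℝ) < ε := by rw [← hX]; exact hXe
    have hnN := n_big hn hz1 hε2 hXe'
    have hnN1 : N1 ≤ n := by omega
    have hn0 : n0 ≤ n := by omega
    have q1 := one_le_hn hxz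
    have q2 := hn_le_two x
    have q3 := JJ_le_hn0 x
    rw [hx1] at q2 q3
    have hx0 : x ≠ 0 := by
      intro h
      rw [h] at hxz
      apply hxz
      apply Complex.ext
      · rw [NTF.JJ_re]
        simp
      · rw [NTF.JJ_im]
        simp
    have hcl := cl_of_ip hx2
    have hmass : ENNReal.ofReal (c2 * ‖z‖ ^ (11 / 24 : ℝ) * W) ≤ gf (HexObs.ARM.WE n x) := by
      rcases le_or_gt (TIW.hn x) (2 ^ b0) with hb | hb
      · refine le_trans (ENNReal.ofReal_le_ofReal ?_) (hS n x hn0 hx0 hb hcl)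
        rw [← hW]
        have r1 : ‖z‖ ≤ 2 ^ b0 := q3.trans (by exact_mod_cast hb)
        have r2 : ‖z‖ ^ (11 / 24 : ℝ) ≤ 2 ^ b0 := by
          calc ‖z‖ ^ (11 / 24 : ℝ) ≤ ‖z‖ ^ (1 : ℝ) := Real.rpow_le_rpow_of_exponent_le hz1 (by norm_num)
            _ = ‖z‖ := Real.rpow_one _
            _ ≤ _ := r1
        calc c2 * ‖z‖ ^ (11 / 24 : ℝ) * W ≤ c2 * 2 ^ b0 * W := by gcongr
          _ ≤ cS * W := by gcongr
      · obtain ⟨j, hj1, hj2⟩ : ∃ j : ℕ, 2 ^ j ≤ TIW.hn x ∧ TIW.hn x < 2 ^ (j + 1) := by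
          have hpos : 0 < (TIW.hn x).toNat := by
            have : (1 : ℤ) ≤ TIW.hn x := by exact_mod_cast q1
            omega
          refine ⟨Nat.log 2 (TIW.hn x).toNat, ?_, ?_⟩
          · have h1 := Nat.pow_log_le_self 2 hpos.ne'
            have h2 : (((TIW.hn x).toNat : ℕ) : ℤ) = TIW.hn x := Int.toNat_of_nonneg (hn_nonneg x)
            calc (2 : ℤ) ^ Nat.log 2 (TIW.hn x).toNat = ((2 ^ Nat.log 2 (TIW.hn x).toNat : ℕ) : ℤ) := by push_cast; rfl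
              _ ≤ (((TIW.hn x).toNat : ℕ) : ℤ) := by exact_mod_cast h1
              _ = _ := h2
          · have h1 := Nat.lt_pow_succ_log_self (b := 2) (by norm_num) (TIW.hn x).toNat
            have h2 : (((TIW.hn x).toNat : ℕ) : ℤ) = TIW.hn x := Int.toNat_of_nonneg (hn_nonneg x)
            calc TIW.hn x = (((TIW.hn x).toNat : ℕ) : ℤ) := h2.symm
              _ < ((2 ^ (Nat.log 2 (TIW.hn x).toNat + 1) : ℕ) : ℤ) := by exact_mod_cast h1
              _ = _ := by push_cast; rfl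
        have hjb : b0 ≤ j := by
          by_contra h
          have h1 : (2 : ℤ) ^ (j + 1) ≤ 2 ^ b0 := pow_le_pow_right₀ (by norm_num) (by omega)
          omega
        have hj3 : (2 : ℝ) ^ j ≤ TIW.hn x := by exact_mod_cast hj1
        have hj4 : (TIW.hn x : ℝ) ≤ 2 ^ (j + 1) := by exact_mod_cast hj2.le
        have hsc := scale_ok (i := j) hn hz1 hε1 hXe' (by linarith)
        have hml : HexObs.ARM.ml j ≤ n := by
          have r3 : (1 : ℝ) ≤ 2 ^ b0 := one_le_pow₀ (by norm_num)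
          have r4 := HexObs.ARM.ml_pos j
          nlinarith
        have h1 := hL n j x hjb (by exact_mod_cast hsc) hj1 hj2.le hcl
        rw [prz hml, ← hW] at h1
        refine le_trans (ENNReal.ofReal_le_ofReal ?_) h1
        have s1 : ‖z‖ ^ (11 / 24 : ℝ) ≤ 2 * (2 : ℝ) ^ ((11 / 24 : ℝ) * (j : ℝ)) := by
          calc ‖z‖ ^ (11 / 24 : ℝ) ≤ (2 ^ (j + 1) : ℝ) ^ (11 / 24 : ℝ) := Real.rpow_le_rpow hz0.le (q3.trans hj4) (by norm_num)
            _ = (2 : ℝ) ^ (11 / 24 : ℝ) * (2 ^ j : ℝ) ^ (11 / 24 : ℝ) := by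
                rw [pow_succ', Real.mul_rpow (by norm_num) (by positivity)]
            _ ≤ 2 * (2 ^ j : ℝ) ^ (11 / 24 : ℝ) := by
                apply mul_le_mul_of_nonneg_right _ (by positivity)
                calc (2 : ℝ) ^ (11 / 24 : ℝ) ≤ (2 : ℝ) ^ (1 : ℝ) := Real.rpow_le_rpow_of_exponent_le (by norm_num) (by norm_num)
                  _ = 2 := Real.rpow_one _
            _ = _ := by
                rw [← Real.rpow_natCast (2 : ℝ) j, ← Real.rpow_mul (by norm_num)]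
                congr 2
                ring
        calc c2 * ‖z‖ ^ (11 / 24 : ℝ) * W ≤ cL / 2 * (2 * (2 : ℝ) ^ ((11 / 24 : ℝ) * (j : ℝ))) * W := by gcongr
          _ = _ := by ring
    obtain ⟨q, hq⟩ : ∃ q : ℝ, q = c2 * ‖z‖ ^ (11 / 24 : ℝ) * W / (Cg * (n : ℝ) ^ (11 / 32 : ℝ)) := ⟨_, rfl⟩
    have hq0 : 0 ≤ q := by rw [hq]; positivity
    have h3 : ENNReal.ofReal q * gf (SawN n) ≤ gf (HexObs.ARM.WE n x) := by
      calc ENNReal.ofReal q * gf (SawN n) ≤ ENNReal.ofReal q * ENNReal.ofReal (Cg * (n : ℝ) ^ (11 / 32 : ℝ)) :=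
            mul_le_mul_right (hg n hn).2 _
        _ = ENNReal.ofReal (c2 * ‖z‖ ^ (11 / 24 : ℝ) * W) := by
            rw [← ENNReal.ofReal_mul hq0, hq, div_mul_cancel₀ _ (by positivity)]
        _ ≤ _ := hmass
    have h4 := prop_ge hn (fun s => Orb z (Pool.Agent.NTS.Res.pos s n)) (fun s => by rw [pos_rot]; exact orb_mul) hq0
      (B := HexObs.ARM.WE n x) (by
        rintro t ⟨ht, hlen, h⟩
        have ht' : t ∈ SawN n := NTSF.mem_SawN.2 ⟨ht, hlen⟩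
        refine ⟨ht', ?_⟩
        rw [pos_sw n t n le_rfl]
        unfold TIW.en at h
        rw [hlen] at h
        rcases h with h | h | h
        · rw [h]
          exact Or.inl hx1
        · rw [h]
          exact Or.inr (Or.inl (by rw [← hx1]; exact JJ_r3 x))
        · rw [h]
          exact Or.inr (Or.inr (by rw [← hx1, ← JJ_r3, ← JJ_r3]; rfl))) h3
    have h5 := card_orb (n := n) z
    have h6 : q / 3 * ((saw n).card : ℝ) ≤ (((saw n).filter fun s => Pool.Agent.NTS.Res.pos s n = z).card : ℝ) := by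
      linarith
    refine le_trans ?_ (le_prb _ h6)
    rw [ratio_pow hn hz0.le, ← hW]
    have e1 : Real.exp (-((C4 + 1) * (‖z‖ / (n : ℝ) ^ (3 / 4 : ℝ)) ^ 4)) ≤ 1 := by
      apply Real.exp_le_one_iff.2
      have : 0 ≤ (C4 + 1) * (‖z‖ / (n : ℝ) ^ (3 / 4 : ℝ)) ^ 4 := by positivity
      linarith
    calc c * W * (‖z‖ ^ (11 / 24 : ℝ) / (n : ℝ) ^ (11 / 32 : ℝ)) * Real.exp (-((C4 + 1) * (‖z‖ / (n : ℝ) ^ (3 / 4 : ℝ)) ^ 4))
        ≤ c2 / (3 * Cg) * W * (‖z‖ ^ (11 / 24 : ℝ) / (n : ℝ) ^ (11 / 32 : ℝ)) * 1 := by gcongr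
      _ = q / 3 := by
          rw [hq]
          field_simp

end Loc

end NTSZ
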