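import Pool.Agent.ARM.Pub
import Pool.Agent.TIW.Base

/-!
ARM: the public form, upper side (helper37).
-/

set_option autoImplicit false

namespace NTSZ

namespace Loc

open Finset MeasureTheory Filter Topology

open HexObs hiding pos curve

open HexObs.TS HexObs.SDN HexObs.NTW HexObs.JNT HexObs.TIW

open Pool.Agent.NTS.Res

open NTSF

open scoped ENNReal Classical

lemma one_le_JJ {x : Pt} (hx : NTF.JJ x ≠ 0) : 1 ≤ ‖NTF.JJ x‖ := by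
  have h1 := NTF.JJ_norm x
  have h2 : 0 < ‖NTF.JJ x‖ := norm_pos_iff.2 hx
  have h3 : (0 : ℝ) < ((nrm x : ℤ) : ℝ) := by rw [← h1]; positivity
  have h4 : (1 : ℤ) ≤ nrm x := by
    have : (0 : ℤ) < nrm x := by exact_mod_cast h3
    omega
  have h5 : (1 : ℝ) ≤ ‖NTF.JJ x‖ ^ 2 := by
    rw [h1]
    exact_mod_cast h4
  nlinarith

/-- the hexagonal norm and the quadratic norm (as `TIW.hn_sq_le`) -/
lemma hn_sq_le0 (p : Pt) : HexObs.TIW.hn p ^ 2 ≤ 4 * nrm p := by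
  obtain ⟨a, b⟩ := p
  have h : ∀ d ∈ dirs, ip (a, b) d ^ 2 ≤ 4 * nrm (a, b) := by
    intro d hd
    simp only [dirs, Finset.mem_insert, Finset.mem_singleton] at hd
    rcases hd with rfl | rfl | rfl | rfl | rfl | rfl <;> simp only [ip, nrm] <;>
      nlinarith [sq_nonneg a, sq_nonneg b, sq_nonneg (a + b), sq_nonneg (a - b)]
  have h1 := h up (by decide)
  have h2 := h (rotL up) (by decide)
  have h3 := h (rotR up) (by decide)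
  unfold HexObs.TIW.hn
  rcases max_cases |ip (a, b) up| (max |ip (a, b) (rotL up)| |ip (a, b) (rotR up)|) with ⟨e, _⟩ | ⟨e, _⟩
  · rw [e, sq_abs]
    exact h1
  · rcases max_cases |ip (a, b) (rotL up)| |ip (a, b) (rotR up)| with ⟨e', _⟩ | ⟨e', _⟩
    · rw [e, e', sq_abs]
      exact h2
    · rw [e, e', sq_abs]
      exact h3

lemma hn_le_two (p : Pt) : (hn p : ℝ) ≤ 2 * ‖NTF.JJ p‖ := by
  have h1 := NTF.JJ_norm p
  have h2 := hn_sq_le0 p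
  have h3 := hn_nonneg p
  have h4 : (hn p : ℝ) ^ 2 ≤ 4 * ((nrm p : ℤ) : ℝ) := by exact_mod_cast h2
  have h5 : (hn p : ℝ) ^ 2 ≤ (2 * ‖NTF.JJ p‖) ^ 2 := by
    rw [mul_pow, h1]
    linarith
  exact (sq_le_sq₀ (by exact_mod_cast h3) (by positivity)).1 h5

lemma JJ_le_hn0 (p : Pt) : ‖NTF.JJ p‖ ≤ hn p := by
  have h1 := NTF.JJ_norm p
  have h2 := nrm_le_hn p
  have h3 := hn_nonneg p
  have h4 : ((nrm p : ℤ) : ℝ) ≤ (hn p : ℝ) ^ 2 := by exact_mod_cast h2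
  have h5 : ‖NTF.JJ p‖ ^ 2 ≤ (hn p : ℝ) ^ 2 := by
    rw [h1]
    exact h4
  exact (sq_le_sq₀ (norm_nonneg _) (by exact_mod_cast h3)).1 h5

lemma one_le_hn {x : Pt} (hx : NTF.JJ x ≠ 0) : (1 : ℝ) ≤ hn x := (one_le_JJ hx).trans (JJ_le_hn0 x)

/-- the scales: `y` = the norm of the point, X = y / n ^ (3/4) small -/
lemma scale_ok {n i : ℕ} {b0 : ℕ} {y ε : ℝ} (hn : 1 ≤ n) (_hy : 1 ≤ y) (hε : ε ≤ 1 / 2 ^ (b0 + 2))
    (hX : y / (n : ℝ) ^ (3 / 4 : ℝ) < ε) (hi : (2 : ℝ) ^ i ≤ 4 * y) : 2 ^ b0 * HexObs.ARM.ml i ≤ n := by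
  have hn' : (0 : ℝ) < n := by exact_mod_cast hn
  have hp : (0 : ℝ) < (n : ℝ) ^ (3 / 4 : ℝ) := by positivity
  rw [div_lt_iff₀ hp] at hX
  have e1 : HexObs.ARM.ml i = ((2 : ℝ) ^ i) ^ (4 / 3 : ℝ) := by
    unfold HexObs.ARM.ml
    rw [← Real.rpow_natCast (2 : ℝ) i, ← Real.rpow_mul (by norm_num)]
    congr 1
    ring
  have e2 : (2 : ℝ) ^ i ≤ (n : ℝ) ^ (3 / 4 : ℝ) / 2 ^ b0 := by
    rw [le_div_iff₀ (by positivity)]
    have h1 : 4 * y ≤ 4 * (1 / 2 ^ (b0 + 2) * (n : ℝ) ^ (3 / 4 : ℝ)) := by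
      have : ε * (n : ℝ) ^ (3 / 4 : ℝ) ≤ 1 / 2 ^ (b0 + 2) * (n : ℝ) ^ (3 / 4 : ℝ) := mul_le_mul_of_nonneg_right hε hp.le
      linarith
    have h2 : (0 : ℝ) < 2 ^ b0 := by positivity
    calc (2 : ℝ) ^ i * 2 ^ b0 ≤ 4 * (1 / 2 ^ (b0 + 2) * (n : ℝ) ^ (3 / 4 : ℝ)) * 2 ^ b0 :=
          mul_le_mul_of_nonneg_right (hi.trans h1) h2.le
      _ = (n : ℝ) ^ (3 / 4 : ℝ) := by
          rw [pow_add]
          field_simp
          norm_num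
  have e3 : ((n : ℝ) ^ (3 / 4 : ℝ)) ^ (4 / 3 : ℝ) = n := by
    rw [← Real.rpow_mul hn'.le]
    norm_num
  have e4 : (2 : ℝ) ^ b0 ≤ ((2 : ℝ) ^ b0) ^ (4 / 3 : ℝ) := by
    have h1 : (1 : ℝ) ≤ (2 : ℝ) ^ b0 := one_le_pow₀ (by norm_num)
    calc (2 : ℝ) ^ b0 = ((2 : ℝ) ^ b0) ^ (1 : ℝ) := (Real.rpow_one _).symm
      _ ≤ _ := Real.rpow_le_rpow_of_exponent_le h1 (by norm_num)
  rw [e1]
  have e5 : ((2 : ℝ) ^ i) ^ (4 / 3 : ℝ) ≤ n / ((2 : ℝ) ^ b0) ^ (4 / 3 : ℝ) := by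
    calc ((2 : ℝ) ^ i) ^ (4 / 3 : ℝ) ≤ ((n : ℝ) ^ (3 / 4 : ℝ) / 2 ^ b0) ^ (4 / 3 : ℝ) :=
          Real.rpow_le_rpow (by positivity) e2 (by norm_num)
      _ = _ := by rw [Real.div_rpow hp.le (by positivity), e3]
  rw [le_div_iff₀ (by positivity)] at e5
  have h6 : (0 : ℝ) ≤ ((2 : ℝ) ^ i) ^ (4 / 3 : ℝ) := by positivity
  nlinarith

/-- the power of the ratio -/
lemma ratio_pow {n : ℕ} {y : ℝ} (hn : 1 ≤ n) (hy : 0 ≤ y) :
    (y / (n : ℝ) ^ (3 / 4 : ℝ)) ^ (11 / 24 : ℝ) = y ^ (11 / 24 : ℝ) / (n : ℝ) ^ (11 / 32 : ℝ) := by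
  have hn' : (0 : ℝ) < n := by exact_mod_cast hn
  rw [Real.div_rpow hy (by positivity), ← Real.rpow_mul hn'.le]
  norm_num

/-- n is large if the ratio is small -/
lemma n_big {n N0 : ℕ} {y ε : ℝ} (hn : 1 ≤ n) (hy : 1 ≤ y) (hε : ε ≤ 1 / ((N0 : ℝ) + 1))
    (hX : y / (n : ℝ) ^ (3 / 4 : ℝ) < ε) : N0 ≤ n := by
  have hn' : (0 : ℝ) < n := by exact_mod_cast hn
  have hn1 : (1 : ℝ) ≤ n := by exact_mod_cast hn
  have hp : (0 : ℝ) < (n : ℝ) ^ (3 / 4 : ℝ) := by positivity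
  have h1 : (n : ℝ) ^ (3 / 4 : ℝ) ≤ n := by
    calc (n : ℝ) ^ (3 / 4 : ℝ) ≤ (n : ℝ) ^ (1 : ℝ) := Real.rpow_le_rpow_of_exponent_le hn1 (by norm_num)
      _ = n := Real.rpow_one _
  have h2 : 1 / (n : ℝ) ≤ y / (n : ℝ) ^ (3 / 4 : ℝ) := by
    rw [div_le_div_iff₀ hn' hp]
    nlinarith
  have h3 : 1 / (n : ℝ) < 1 / ((N0 : ℝ) + 1) := lt_of_le_of_lt h2 (lt_of_lt_of_le hX hε)
  have h4 : ((N0 : ℝ) + 1) < n := by
    rwa [one_div_lt_one_div hn' (by positivity)] at h3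
  have h5 : (N0 : ℝ) < n := by linarith
  exact_mod_cast h5.le

/-- **the upper side** -/
theorem law_up (hE : ∃ c C : ℝ, 0 < c ∧ 0 < C ∧ ∀ n : ℕ, 1 ≤ n → ∀ z : ℂ, ∀ L : ℝ, 0 ≤ L →
      prb n (fun s => Pool.Agent.NTS.Res.pos s n = z ∧ ∃ j, j ≤ n ∧
        L * (n : ℝ) ^ (3 / 4 : ℝ) ≤ ‖Pool.Agent.NTS.Res.pos s j‖) ≤ C * (n : ℝ) ^ (-(3 / 2) : ℝ) * Real.exp (-(c * L ^ 4)))
    (hU : HexObs.ARM.UpPt) :
    ∃ c C : ℝ, 0 < c ∧ 0 < C ∧ ∀ n : ℕ, 1 ≤ n → ∀ z : ℂ, z ≠ 0 →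
      prb n (fun s => Pool.Agent.NTS.Res.pos s n = z) ≤ C * (n : ℝ) ^ (-(3 / 2) : ℝ) *
        (‖z‖ / (n : ℝ) ^ (3 / 4 : ℝ)) ^ (11 / 24 : ℝ) * Real.exp (-(c * (‖z‖ / (n : ℝ) ^ (3 / 4 : ℝ)) ^ 4)) := by
  obtain ⟨c1, C1, hc1, hC1, h1⟩ := hE
  obtain ⟨CU, b0, hCU, h2⟩ := hU
  obtain ⟨cg, Cg, hcg, hCg, hg⟩ := gfN_two
  obtain ⟨N0, hN0⟩ : ∃ N0 : ℕ, 2 ^ b0 * HexObs.ARM.ml b0 ≤ N0 := exists_nat_ge _
  obtain ⟨ε, hε⟩ : ∃ ε : ℝ, ε = min (1 / 2 ^ (b0 + 2)) (1 / ((N0 : ℝ) + 1)) := ⟨_, rfl⟩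
  have hε0 : 0 < ε := by rw [hε]; exact lt_min (by positivity) (by positivity)
  have hε1 : ε ≤ 1 / 2 ^ (b0 + 2) := by rw [hε]; exact min_le_left _ _
  have hε2 : ε ≤ 1 / ((N0 : ℝ) + 1) := by rw [hε]; exact min_le_right _ _
  have hε3 : ε ≤ 1 := by
    refine hε2.trans ?_
    rw [div_le_one (by positivity)]
    have : (0 : ℝ) ≤ N0 := Nat.cast_nonneg _
    linarith
  obtain ⟨CA, hCA⟩ : ∃ CA : ℝ, CA = C1 / ε ^ (11 / 24 : ℝ) := ⟨_, rfl⟩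
  obtain ⟨CB, hCB⟩ : ∃ CB : ℝ, CB = 3 * (CU * 2 ^ (b0 + 2) / cg) * Real.exp c1 := ⟨_, rfl⟩
  have hCA0 : 0 < CA := by rw [hCA]; positivity
  have hCB0 : 0 < CB := by rw [hCB]; positivity
  refine ⟨c1, CA + CB, hc1, by positivity, fun n hn z hz => ?_⟩
  have hn' : (0 : ℝ) < n := by exact_mod_cast hn
  have hp : (0 : ℝ) < (n : ℝ) ^ (3 / 4 : ℝ) := by positivity
  have hz0 : 0 < ‖z‖ := norm_pos_iff.2 hz
  obtain ⟨X, hX⟩ : ∃ X : ℝ, X = ‖z‖ / (n : ℝ) ^ (3 / 4 : ℝ) := ⟨_, rfl⟩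
  obtain ⟨W, hW⟩ : ∃ W : ℝ, W = (n : ℝ) ^ (-(3 / 2) : ℝ) := ⟨_, rfl⟩
  have hX0 : 0 < X := by rw [hX]; positivity
  have hW0 : 0 < W := by rw [hW]; positivity
  have hXr : 0 < X ^ (11 / 24 : ℝ) := by positivity
  have hex := Real.exp_pos (-(c1 * X ^ 4))
  have hzX : ‖z‖ = X * (n : ℝ) ^ (3 / 4 : ℝ) := by
    rw [hX]
    field_simp
  rw [← hX, ← hW]
  have hE0 : prb n (fun s => Pool.Agent.NTS.Res.pos s n = z) ≤ C1 * W * Real.exp (-(c1 * X ^ 4)) := by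
    rw [hW]
    refine le_trans ?_ (h1 n hn z X hX0.le)
    unfold prb
    apply div_le_div_of_nonneg_right _ (saw_card_pos n).le
    exact_mod_cast Finset.card_le_card fun s hs => by
      rw [Finset.mem_filter] at hs ⊢
      exact ⟨hs.1, hs.2, n, le_rfl, by rw [hs.2, hzX]⟩
  rcases le_or_gt ε X with hXe | hXe
  · refine hE0.trans ?_
    have e1 : ε ^ (11 / 24 : ℝ) ≤ X ^ (11 / 24 : ℝ) := Real.rpow_le_rpow hε0.le hXe (by norm_num)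
    have e2 : C1 ≤ CA * X ^ (11 / 24 : ℝ) := by
      rw [hCA, div_mul_eq_mul_div, le_div_iff₀ (by positivity)]
      exact mul_le_mul_of_nonneg_left e1 hC1.le
    calc C1 * W * Real.exp (-(c1 * X ^ 4)) ≤ (CA * X ^ (11 / 24 : ℝ)) * W * Real.exp (-(c1 * X ^ 4)) := by gcongr
      _ ≤ ((CA + CB) * X ^ (11 / 24 : ℝ)) * W * Real.exp (-(c1 * X ^ 4)) := by
          gcongr
          linarith
      _ = _ := by ring
  · by_cases hx : ∃ x : Pt, NTF.JJ x = z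
    swap
    · have h0 : ((saw n).filter fun s => Pool.Agent.NTS.Res.pos s n = z) = ∅ := by
        rw [Finset.filter_eq_empty_iff]
        intro s _ hs
        obtain ⟨x, hx1, -⟩ := reach_pt s n le_rfl
        exact hx ⟨x, by rw [hx1, hs]⟩
      have h00 : prb n (fun s => Pool.Agent.NTS.Res.pos s n = z) = 0 := by
        unfold prb
        rw [h0, Finset.card_empty, Nat.cast_zero, zero_div]
      rw [h00]
      positivity
    obtain ⟨x0, hx0⟩ := hx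
    have hz1 : 1 ≤ ‖z‖ := by
      rw [← hx0]
      exact one_le_JJ (by rw [hx0]; exact hz)
    have hXe' : ‖z‖ / (n : ℝ) ^ (3 / 4 : ℝ) < ε := by rw [← hX]; exact hXe
    have hnN := n_big hn hz1 hε2 hXe'
    obtain ⟨c', hc'⟩ : ∃ c' : ℝ, c' = CU * 2 ^ (b0 + 2) * ‖z‖ ^ (11 / 24 : ℝ) * W / (cg * (n : ℝ) ^ (11 / 32 : ℝ)) := ⟨_, rfl⟩
    have hc0 : 0 ≤ c' := by rw [hc']; positivity
    have hone := end_one hn hc0 z (fun x hx => by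
      have hxz : NTF.JJ x ≠ 0 := by
        intro h
        rw [h, norm_zero] at hx
        linarith
      have q1 := one_le_hn hxz
      have q2 := hn_le_two x
      rw [hx] at q2
      obtain ⟨i, hi1, hi2⟩ := dy_above q1
      obtain ⟨j, hj, hjb, hjx, hjz⟩ : ∃ j : ℕ, 2 ^ b0 * HexObs.ARM.ml j ≤ n ∧ b0 ≤ j ∧ (TIW.hn x : ℝ) ≤ 2 ^ j ∧
          (2 : ℝ) ^ j ≤ 2 ^ (b0 + 2) * ‖z‖ := by
        have r1 : (2 : ℝ) ^ i ≤ 4 * ‖z‖ := by linarith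
        have r2 : (4 : ℝ) ≤ 2 ^ (b0 + 2) := by
          calc (4 : ℝ) = 2 ^ 2 := by norm_num
            _ ≤ _ := pow_le_pow_right₀ (by norm_num) (by omega)
        rcases le_total b0 i with h | h
        · exact ⟨i, scale_ok hn hz1 hε1 hXe' r1, h, hi1, by nlinarith⟩
        · refine ⟨b0, hN0.trans (by exact_mod_cast hnN), le_rfl, hi1.trans (pow_le_pow_right₀ (by norm_num) h), ?_⟩
          rw [pow_add]
          have : (0 : ℝ) < 2 ^ b0 := by positivity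
          nlinarith
      have hml : HexObs.ARM.ml j ≤ n := by
        have r3 : (1 : ℝ) ≤ 2 ^ b0 := one_le_pow₀ (by norm_num)
        have r4 := HexObs.ARM.ml_pos j
        nlinarith
      have hsub : {t | t ∈ SawN n ∧ vx oo up t n = x} ⊆ {L | L ∈ SA ∧ L.length = n ∧ TIW.en L = x} := by
        rintro t ⟨ht, h⟩
        have h3 : t ∈ SA ∧ t.length = n := NTSF.mem_SawN.1 ht
        refine ⟨h3.1, h3.2, ?_⟩
        unfold TIW.en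
        rw [h3.2]
        exact h
      refine (gf_mono hsub).trans ((h2 n j x hjb (by exact_mod_cast hj) (by exact_mod_cast hjx)).trans ?_)
      rw [prz hml, ← hW]
      have s1 : (2 : ℝ) ^ ((11 / 24 : ℝ) * (j : ℝ)) ≤ 2 ^ (b0 + 2) * ‖z‖ ^ (11 / 24 : ℝ) := by
        calc (2 : ℝ) ^ ((11 / 24 : ℝ) * (j : ℝ)) = ((2 : ℝ) ^ j) ^ (11 / 24 : ℝ) := by
              rw [← Real.rpow_natCast (2 : ℝ) j, ← Real.rpow_mul (by norm_num)]
              congr 1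
              ring
          _ ≤ (2 ^ (b0 + 2) * ‖z‖) ^ (11 / 24 : ℝ) := Real.rpow_le_rpow (by positivity) hjz (by norm_num)
          _ = (2 ^ (b0 + 2) : ℝ) ^ (11 / 24 : ℝ) * ‖z‖ ^ (11 / 24 : ℝ) := Real.mul_rpow (by positivity) hz0.le
          _ ≤ _ := by
              apply mul_le_mul_of_nonneg_right _ (by positivity)
              calc (2 ^ (b0 + 2) : ℝ) ^ (11 / 24 : ℝ) ≤ (2 ^ (b0 + 2) : ℝ) ^ (1 : ℝ) :=
                    Real.rpow_le_rpow_of_exponent_le (one_le_pow₀ (by norm_num)) (by norm_num)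
                _ = _ := Real.rpow_one _
      have s2 : ENNReal.ofReal (CU * ((2 : ℝ) ^ ((11 / 24 : ℝ) * (j : ℝ)) * W)) ≤
          ENNReal.ofReal (c' * (cg * (n : ℝ) ^ (11 / 32 : ℝ))) := by
        apply ENNReal.ofReal_le_ofReal
        rw [hc', div_mul_cancel₀ _ (by positivity)]
        calc CU * ((2 : ℝ) ^ ((11 / 24 : ℝ) * (j : ℝ)) * W) ≤ CU * ((2 ^ (b0 + 2) * ‖z‖ ^ (11 / 24 : ℝ)) * W) := by gcongr
          _ = _ := by ring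
      refine s2.trans ?_
      rw [ENNReal.ofReal_mul hc0]
      exact mul_le_mul_right (hg n hn).1 _)
    refine hone.trans ?_
    have t1 : 3 * c' = 3 * (CU * 2 ^ (b0 + 2) / cg) * W * X ^ (11 / 24 : ℝ) := by
      rw [hc', hX, ratio_pow hn hz0.le]
      have : (0 : ℝ) < (n : ℝ) ^ (11 / 32 : ℝ) := by positivity
      field_simp
    rw [t1]
    have t2 : 1 ≤ Real.exp c1 * Real.exp (-(c1 * X ^ 4)) := by
      rw [← Real.exp_add]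
      apply Real.one_le_exp
      have : X ^ 4 ≤ 1 := pow_le_one₀ hX0.le (by linarith)
      nlinarith
    calc 3 * (CU * 2 ^ (b0 + 2) / cg) * W * X ^ (11 / 24 : ℝ)
        ≤ 3 * (CU * 2 ^ (b0 + 2) / cg) * W * X ^ (11 / 24 : ℝ) * (Real.exp c1 * Real.exp (-(c1 * X ^ 4))) :=
          le_mul_of_one_le_right (by positivity) t2
      _ = CB * W * X ^ (11 / 24 : ℝ) * Real.exp (-(c1 * X ^ 4)) := by
          rw [hCB]
          ring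
      _ ≤ _ := by
          gcongr
          linarith

end Loc

end NTSZ
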