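import Pool.Agent.ARM.QX
import Pool.Agent.ARM.NtD

/-!
# ARM, row T2Qc (helper28): two-ended words with a near touch between the start and the end

* `NTQ` : words with a near touch of their end with their start;
* `nt_two` : the mass; **`nt_pt`** : exact end and exact length.
-/

set_option autoImplicit false

namespace HexObs

namespace ARM

open Finset TS SDN HexObs.SIM NTA TIP

open scoped ENNReal

/-- words whose end is close to their start, with a far vertex -/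
def NTQ (r R : ℤ) : Set (List Bool) := {Q | TIW.hn (TIW.en Q) ≤ r ∧ ∃ s, s ≤ Q.length ∧ R ≤ TIW.hn (vx oo up Q s)}

lemma NTQ_NTp {r R : ℤ} {t : List Bool} (h : t ∈ NPR.Fac (NTQ r R)) : t ∈ NTp r R := by
  obtain ⟨X, Q, Y, rfl, h1, s, hs, h2⟩ := h
  have e : ∀ i, i ≤ Q.length → vx oo up (X ++ (Q ++ Y)) (X.length + i) = vx oo up (X ++ (Q ++ Y)) X.length +
      mulE (rotTo up (dx up X X.length)) (vx oo up Q i) := by
    intro i hi
    have a1 : vx oo up (X ++ (Q ++ Y)) X.length = vx oo up X X.length := vx_append (by omega)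
    have a2 : vx oo up (Q ++ Y) i = vx oo up Q i := vx_append (by omega)
    rw [vx_general, a1, a2]
  have hh : ∀ i, i ≤ Q.length → TIW.hn (vx oo up (X ++ (Q ++ Y)) X.length - vx oo up (X ++ (Q ++ Y)) (X.length + i)) =
      TIW.hn (vx oo up Q i) := by
    intro i hi
    rw [e i hi, sub_add_cancel_left, TIW.hn_neg, TIW.hn_mulE (nrm_rotTo upd (dx_mem up_dirs X X.length))]
  refine ⟨X.length, X.length + s, X.length + Q.length, by omega, by omega, ?_, ?_, ?_⟩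
  · simp only [List.length_append]
    omega
  · rw [hh _ le_rfl]
    exact h1
  · rw [hh _ hs]
    exact h2

/-- **the mass of the two-ended words with a near touch**; j = b + g, box 2 ^ (j + J1) -/
theorem nt_two (hPl : PlNt) {η : ℝ} (hη : 0 < η) (D g J1 k : ℕ) {ε : ℝ} (hε : 0 < ε) : ∃ e b0 : ℕ, k ≤ e ∧ e ≤ b0 ∧
    ∀ b, b0 ≤ b → gf (W2R η D b (g + J1) (NPR.Fac (NTQ (2 ^ (b + g - e)) (2 ^ (b + g - k))))) ≤ ENNReal.ofReal (ε * Ub b) := by
  obtain ⟨C0, c, B, hC0, hc, hB, htwo⟩ := QB.two_mass hη D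
  obtain ⟨x, hx⟩ : ∃ x : ℝ, x = ε / (C0 * B ^ (g + J1)) := ⟨_, rfl⟩
  have hx0 : 0 < x := by rw [hx]; positivity
  obtain ⟨δ, hδ⟩ : ∃ δ : ℝ, δ = min 1 (x ^ (1 / c)) := ⟨_, rfl⟩
  have hδ0 : 0 < δ := by rw [hδ]; exact lt_min one_pos (Real.rpow_pos_of_pos hx0 _)
  have hδ1 : δ ≤ 1 := by rw [hδ]; exact min_le_left _ _
  have hδc : δ ^ c ≤ x := by
    have h1 : δ ≤ x ^ (1 / c) := by rw [hδ]; exact min_le_right _ _
    calc δ ^ c ≤ (x ^ (1 / c)) ^ c := Real.rpow_le_rpow hδ0.le h1 hc.le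
      _ = x := by rw [← Real.rpow_mul hx0.le, one_div, inv_mul_cancel₀ hc.ne', Real.rpow_one]
  obtain ⟨w, hw⟩ : ∃ w, w = J1 + 14 := ⟨_, rfl⟩
  obtain ⟨e', K0, hk, hK, hpl⟩ := hPl (k + w) δ hδ0
  refine ⟨e' - w, K0 + e' + 1, by omega, by omega, fun b hb => ?_⟩
  have hU : 0 < Ub b := Ub_pos b
  obtain ⟨K, hKe⟩ : ∃ K, K = b + (g + J1) + 14 := ⟨_, rfl⟩
  have h1 : gf {t | t ∈ WL (b + (g + J1) + 14) ∧ t ∈ NPR.Fac (NPR.Fac (NTQ (2 ^ (b + g - (e' - w))) (2 ^ (b + g - k))))} ≤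
      ENNReal.ofReal δ * NPR.FK (b + (g + J1) + 14) := by
    rw [← hKe]
    have h2 := hpl K (by omega)
    refine (gf_mono ?_).trans (h2.trans (le_of_eq ?_))
    · rintro t ⟨ht, X, Q, Y, rfl, X', Q', Y', rfl, hQ'⟩
      refine ⟨ht, NTQ_NTp ⟨X ++ X', Q', Y' ++ Y, by simp only [List.append_assoc], ?_⟩⟩
      have e1 : b + g - (e' - w) = K - e' := by omega
      have e2 : b + g - k = K - (k + w) := by omega
      rw [e1, e2] at hQ'
      exact hQ'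
    · unfold NPR.FK
      rw [ENNReal.ofReal_mul hδ0.le, mul_assoc]
  have h2 := htwo b (g + J1) _ δ (by omega) hδ0 hδ1 h1
  refine (gf_mono ?_).trans (h2.trans (ENNReal.ofReal_le_ofReal ?_))
  · rintro A ⟨a1, a2, S, hS, R, hR, T, hT, rfl⟩
    exact ⟨In_WL a1 a2, S, hS, R, ⟨[], R, [], by rw [List.append_nil, List.nil_append], hR⟩, T, hT, rfl⟩
  · have h3 : C0 * δ ^ c * B ^ (g + J1) ≤ ε := by
      calc C0 * δ ^ c * B ^ (g + J1) ≤ C0 * x * B ^ (g + J1) := by gcongr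
        _ = ε := by rw [hx]; field_simp
    exact mul_le_mul_of_nonneg_right h3 hU.le

/-- **exact end and exact length of the two-ended words with a near touch** -/
theorem nt_pt (hPl : PlNt) (hS : SmL) (hP : PMJ) {η : ℝ} (hη : 0 < η) (D q g J1 k : ℕ) {ε : ℝ} (hε : 0 < ε) :
    ∃ e b0 : ℕ, k ≤ e ∧ e ≤ b0 ∧ ∀ b, b0 ≤ b → ∀ (y : ℕ) (z : Pt),
      gf {Y | Y ∈ W2R η D b (g + J1) (NPR.Fac (NTQ (2 ^ (b + g - e)) (2 ^ (b + g - k)))) ∧ Y.length = y ∧ TIW.en Y = z} ≤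
        ENNReal.ofReal (ε * (Ub b / (4 ^ b * ml b)) * ((1 + (y : ℝ) / ml b) ^ q)⁻¹) := by
  obtain ⟨C, b1, hC, h⟩ := qx_pt hS hP hη D q
  obtain ⟨δ, hδ⟩ : ∃ δ : ℝ, δ = ε / C ^ (g + J1 + 1) := ⟨_, rfl⟩
  have hδ0 : 0 < δ := by rw [hδ]; positivity
  obtain ⟨e, b2, he1, he2, h2⟩ := nt_two hPl (show 0 < η / 4 by positivity) (2 * D) g (J1 + 1) k (show 0 < δ ^ 2 by positivity)
  refine ⟨e, b1 + b2, he1, by omega, fun b hb y z => ?_⟩
  have h3 := h b (g + J1) (by omega) _ δ hδ0 (h2 b (by omega)) y z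
  refine h3.trans (ENNReal.ofReal_le_ofReal (le_of_eq ?_))
  rw [hδ]
  field_simp

end ARM

end HexObs
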