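import Pool.Agent.ARM.QX

/-!
# ARM (helper28): two-ended words with a long factor without rich window, exact end and exact length

* **`qPtBad_core`** : every power of 2 ^ (-J), every power of the length.
-/

set_option autoImplicit false

namespace HexObs

namespace ARM

open Finset TS SDN HexObs.SIM NTA TIP

open scoped ENNReal

/-- the long factor lies in the middle part -/
lemma W2E_Lz {κ η : ℝ} {C D b b' J n n' : ℕ} (hb : b ≠ 0) (hbb : b ≤ b') (hn : 8 * n' ≤ n) (hD : 2 * D ≤ n') {Q : List Bool}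
    (hQ : Q ∈ W2E η D b J) (hL : Q ∈ Lz κ C b' n) : Q ∈ W2R η D b J (Lz κ C b' n') := by
  obtain ⟨q1, q2, S, hS, R, T, hT, rfl⟩ := hQ
  refine ⟨q1, q2, S, hS, R, ?_, T, hT, rfl⟩
  refine QB.core (N := n * 2 ^ b') (N' := n' * 2 ^ b') (QB.GS_In hb hS) (QB.GE_In hb hT) ?_ hL
  have h3 : 2 ^ b ≤ 2 ^ b' := Nat.pow_le_pow_right (by norm_num) hbb
  have h4 : D * 2 ^ b ≤ D * 2 ^ b' := Nat.mul_le_mul_left _ h3
  have h5 : 8 * n' * 2 ^ b' ≤ n * 2 ^ b' := Nat.mul_le_mul_right _ hn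
  have h6 : 2 * D * 2 ^ b' ≤ n' * 2 ^ b' := Nat.mul_le_mul_right _ hD
  nlinarith

/-- **exact end and exact length, with a long factor without rich window** -/
theorem qPtBad_core {κ : ℝ} {C : ℕ} (hR : RegZ κ C) (hS : SmL) (hP : PMJ) (η : ℝ) (D a c1 q : ℕ) (hη : 0 < η) :
    ∃ J0 b0 : ℕ, ∀ (b J y : ℕ) (z : Pt), b0 ≤ b → J0 ≤ J →
      gf {Q | Q ∈ W2E η D b J ∧ (∃ b' n : ℕ, (b' = b ∨ b' = b + 1) ∧ 2 ^ J ≤ n * 2 ^ c1 ∧ Q ∈ Lz κ C b' n) ∧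
        Q.length = y ∧ TIW.en Q = z} ≤
        ENNReal.ofReal ((1 / 2) ^ (a * J) * (Ub b / (4 ^ b * ml b)) * ((1 + (y : ℝ) / ml b) ^ q)⁻¹) := by
  obtain ⟨C1, b1, hC1, hpt⟩ := qx_pt hS hP hη D q
  obtain ⟨x, hx⟩ := pow_unbounded_of_one_lt C1 (one_lt_two : (1 : ℝ) < 2)
  obtain ⟨a2, ha2⟩ : ∃ a2 : ℕ, a2 = x + a + 1 := ⟨_, rfl⟩
  obtain ⟨J1, b2, hbad⟩ := qBadM_core hR (η / 4) (2 * D) (2 * a2) (c1 + 4) (by positivity)
  refine ⟨J1 + c1 + 3 + 2 * D, b1 + b2 + 1, fun b J y z hb hJ => ?_⟩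
  have hb0 : b ≠ 0 := by omega
  have hUb := Ub_pos b
  have hml := ml_pos b
  obtain ⟨n', hn'⟩ : ∃ n', n' = 2 ^ (J - (c1 + 3)) := ⟨_, rfl⟩
  have hnD : 2 * D ≤ n' := by
    rw [hn']
    exact (show 2 * D ≤ J - (c1 + 3) by omega).trans Nat.lt_two_pow_self.le
  obtain ⟨δ, hδ⟩ : ∃ δ : ℝ, δ = (1 / 2) ^ (a2 * (J + 1)) := ⟨_, rfl⟩
  have hδ0 : 0 < δ := by rw [hδ]; positivity
  have key : ∀ b', (b' = b ∨ b' = b + 1) → gf {Q | Q ∈ W2E η D b J ∧ (∃ n : ℕ, 2 ^ J ≤ n * 2 ^ c1 ∧ Q ∈ Lz κ C b' n) ∧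
      Q.length = y ∧ TIW.en Q = z} ≤
        ENNReal.ofReal (C1 ^ (J + 1) * δ * (Ub b / (4 ^ b * ml b)) * ((1 + (y : ℝ) / ml b) ^ q)⁻¹) := by
    intro b' hb'
    have hm : gf (W2R (η / 4) (2 * D) b (J + 1) (Lz κ C b' n')) ≤ ENNReal.ofReal (δ ^ 2 * Ub b) := by
      have h1 := hbad b (J + 1) (by omega) (by omega)
      refine (gf_mono ?_).trans (h1.trans (ENNReal.ofReal_le_ofReal (le_of_eq ?_)))
      · intro Q hQ
        refine ⟨W2R_sub _ _ _ _ _ hQ, b', n', hb', ?_, ?_⟩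
        · rw [hn', ← pow_add]
          exact Nat.pow_le_pow_right (by norm_num) (by omega)
        · obtain ⟨-, -, S, -, R, hRz, T, -, rfl⟩ := hQ
          exact YB.Lz_left S (YB.Lz_right T hRz)
      · rw [hδ, ← pow_mul]
        congr 2
        ring
    have h2 := hpt b J (by omega) (Lz κ C b' n') δ hδ0 hm y z
    refine (gf_mono ?_).trans h2
    rintro Q ⟨q1, ⟨n, q2, q3⟩, q4, q5⟩
    refine ⟨W2E_Lz hb0 (by omega) ?_ hnD q1 q3, q4, q5⟩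
    have h3 : 8 * n' * 2 ^ c1 ≤ n * 2 ^ c1 := by
      refine le_trans (le_of_eq ?_) q2
      rw [hn', show (8 : ℕ) = 2 ^ 3 by norm_num, ← pow_add, ← pow_add]
      congr 1
      omega
    exact Nat.le_of_mul_le_mul_right h3 (by positivity)
  have hcov : {Q | Q ∈ W2E η D b J ∧ (∃ b' n : ℕ, (b' = b ∨ b' = b + 1) ∧ 2 ^ J ≤ n * 2 ^ c1 ∧ Q ∈ Lz κ C b' n) ∧
        Q.length = y ∧ TIW.en Q = z} ⊆
      {Q | Q ∈ W2E η D b J ∧ (∃ n : ℕ, 2 ^ J ≤ n * 2 ^ c1 ∧ Q ∈ Lz κ C b n) ∧ Q.length = y ∧ TIW.en Q = z} ∪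
      {Q | Q ∈ W2E η D b J ∧ (∃ n : ℕ, 2 ^ J ≤ n * 2 ^ c1 ∧ Q ∈ Lz κ C (b + 1) n) ∧ Q.length = y ∧ TIW.en Q = z} := by
    rintro Q ⟨h1, ⟨b', n, rfl | rfl, h3, h4⟩, h5, h6⟩
    · exact Or.inl ⟨h1, ⟨n, h3, h4⟩, h5, h6⟩
    · exact Or.inr ⟨h1, ⟨n, h3, h4⟩, h5, h6⟩
  refine (gf_mono hcov).trans ((gf_union_le _ _).trans ((add_le_add (key b (Or.inl rfl)) (key (b + 1) (Or.inr rfl))).trans ?_))
  rw [← ENNReal.ofReal_add (by positivity) (by positivity)]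
  refine ENNReal.ofReal_le_ofReal ?_
  have h3 : C1 ^ (J + 1) * δ ≤ (1 / 2) * (1 / 2) ^ (a * J) := by
    have h4 : C1 ^ (J + 1) ≤ (2 ^ x) ^ (J + 1) := pow_le_pow_left₀ (by linarith) hx.le _
    have h5 : ((2 : ℝ) ^ x) ^ (J + 1) * δ = (1 / 2) ^ ((a + 1) * (J + 1)) := by
      rw [hδ, ha2, show (x + a + 1) * (J + 1) = x * (J + 1) + (a + 1) * (J + 1) by ring, pow_add (1 / 2 : ℝ), ← mul_assoc,
        ← pow_mul, ← mul_pow]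
      norm_num
    calc C1 ^ (J + 1) * δ ≤ (2 ^ x) ^ (J + 1) * δ := mul_le_mul_of_nonneg_right h4 hδ0.le
      _ = (1 / 2) ^ ((a + 1) * (J + 1)) := h5
      _ ≤ (1 / 2 : ℝ) ^ (1 + a * J) := pow_le_pow_of_le_one (by norm_num) (by norm_num) (by nlinarith)
      _ = _ := by rw [pow_add, pow_one]
  have h6 : 0 ≤ (Ub b / (4 ^ b * ml b)) * ((1 + (y : ℝ) / ml b) ^ q)⁻¹ := by positivity
  calc C1 ^ (J + 1) * δ * (Ub b / (4 ^ b * ml b)) * ((1 + (y : ℝ) / ml b) ^ q)⁻¹ +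
        C1 ^ (J + 1) * δ * (Ub b / (4 ^ b * ml b)) * ((1 + (y : ℝ) / ml b) ^ q)⁻¹ =
        2 * (C1 ^ (J + 1) * δ) * ((Ub b / (4 ^ b * ml b)) * ((1 + (y : ℝ) / ml b) ^ q)⁻¹) := by ring
    _ ≤ (1 / 2) ^ (a * J) * ((Ub b / (4 ^ b * ml b)) * ((1 + (y : ℝ) / ml b) ^ q)⁻¹) :=
        mul_le_mul_of_nonneg_right (by linarith) h6
    _ = _ := by ring

end ARM

end HexObs
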