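import Pool.Agent.ARM.VisS

/-!
# ARM, row I1 closed (helper44, helper70): `retW`, `retT` are in `ARM/VisS.lean`
-/
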