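import Pool.Agent.ARM.RetA

/-!
# ARM, row I, first half (helper44): words of a box that come back near their start

* `VisS` : the mean number of the points near a word of the box (row VisW, helper70), the hypothesis;
* **`retW`** : the mass of the words that go to distance more than 2 ^ (i - 2) and come back to distance at most 2 ^ (l + 1).
-/

set_option autoImplicit false

namespace HexObs

namespace ARM

open Finset TS SDN NTW NTA HexObs.SIM TIP TIW NPR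

open scoped ENNReal

/-- **row VisW** (helper70) -/
def VisS : Prop := ∀ θ : ℝ, 0 < θ → ∃ (C : ℝ) (b0 : ℕ), 0 < C ∧ ∀ l K : ℕ, b0 ≤ l → l ≤ K →
  SS K (2 ^ l) ≤ ENNReal.ofReal (C * ((2 : ℝ) ^ (θ * ((K : ℝ) - l)) * 4 ^ l * (2 : ℝ) ^ ((4 / 3 : ℝ) * ((K : ℝ) - l)))) * FK K

/-- words of the box i + c that go to distance more than 2 ^ (i - 2) and come back to distance at most 2 ^ (l + 1) -/
def Rt (l i c : ℕ) : Set (List Bool) :=
  {w | w ∈ WL (i + c) ∧ ∃ s t, s ≤ t ∧ t ≤ w.length ∧ 2 ^ i < 4 * hn (vx oo up w s) ∧ hn (vx oo up w t) ≤ 2 ^ (l + 1)}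

/-- **row RetW** -/
def RetW : Prop := ∀ (θ : ℝ) (c : ℕ), 0 < θ → ∃ (C : ℝ) (b0 : ℕ), 0 < C ∧ ∀ l i : ℕ, b0 ≤ l → l ≤ i →
  gf (Rt l i c) ≤ ENNReal.ofReal (C * (2 : ℝ) ^ ((θ - 2 / 3) * ((i : ℝ) - l))) * FK i

/-! ### numbers -/

lemma expo_bdd {ρ : ℝ} (hρ : 1 < ρ) {c : ℝ} (hc : 0 < c) {a : ℝ} (ha : 0 ≤ a) : ∃ M : ℝ, 0 ≤ M ∧ ∀ m : ℕ, a * m - c * ρ ^ m ≤ M := by
  have ht := tendsto_pow_const_div_const_pow_of_one_lt 1 hρ
  have hpos : 0 < c / (a + 1) := by positivity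
  obtain ⟨N, hN⟩ := Filter.eventually_atTop.1 (ht.eventually_lt_const hpos)
  refine ⟨a * N, by positivity, fun m => ?_⟩
  have hρm : 0 < ρ ^ m := by positivity
  rcases Nat.le_total N m with h | h
  · have h1 := hN m h
    rw [pow_one, div_lt_div_iff₀ hρm (by positivity)] at h1
    have h2 : a * m ≤ m * (a + 1) := by
      have : (0 : ℝ) ≤ m := Nat.cast_nonneg m
      nlinarith
    have h3 : 0 ≤ a * N := by positivity
    linarith
  · have h2 : a * m ≤ a * N := mul_le_mul_of_nonneg_left (by exact_mod_cast h) ha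
    have : 0 < c * ρ ^ m := by positivity
    linarith

/-- a doubly exponentially small factor beats all powers -/
lemma pow_beats {A ρ c : ℝ} (hA : 1 ≤ A) (hρ : 1 < ρ) (hc : 0 < c) : ∃ M : ℝ, 1 ≤ M ∧ ∀ m : ℕ,
    A ^ m * (2 : ℝ) ^ (-(c * ρ ^ m)) ≤ M := by
  obtain ⟨a, ha⟩ := pow_unbounded_of_one_lt A (one_lt_two (α := ℝ))
  obtain ⟨M, hM, h⟩ := expo_bdd hρ hc (Nat.cast_nonneg a)
  refine ⟨(2 : ℝ) ^ M, Real.one_le_rpow (by norm_num) hM, fun m => ?_⟩
  calc A ^ m * (2 : ℝ) ^ (-(c * ρ ^ m)) ≤ (2 ^ a) ^ m * (2 : ℝ) ^ (-(c * ρ ^ m)) := by gcongr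
    _ = (2 : ℝ) ^ ((a : ℝ) * m - c * ρ ^ m) := by
        rw [← pow_mul, ← Real.rpow_natCast 2 (a * m), ← Real.rpow_add (by norm_num)]
        push_cast
        rfl
    _ ≤ (2 : ℝ) ^ M := Real.rpow_le_rpow_of_exponent_le (by norm_num) (h m)

/-- many pieces in a low bridge -/
lemma Hm_dec {κ : ℝ} (hκ : 0 < κ) : ∃ c ρ : ℝ, 0 < c ∧ 1 < ρ ∧ ∀ b r : ℕ, r ≤ b →
    gf (Hm ⌈κ / 8 * Ub b⌉₊ r) ≤ ENNReal.ofReal (2 * (2 : ℝ) ^ (-(c * ρ ^ (b - r)))) := by
  have hk := kap0_pos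
  refine ⟨κ / 48, (2 : ℝ) ^ kap0, by positivity, Real.one_lt_rpow (by norm_num) hk, fun b r hr => ?_⟩
  obtain ⟨a, ha⟩ : ∃ a, a = ⌈κ / 8 * Ub b⌉₊ := ⟨_, rfl⟩
  obtain ⟨n, hn⟩ : ∃ n, n = ⌈2 * Ub r⌉₊ := ⟨_, rfl⟩
  obtain ⟨j, hj⟩ : ∃ j, j = a / n := ⟨_, rfl⟩
  have hUr := Ch.one_le_Ub r
  have hUb := Ub_pos b
  have ha1 : κ / 8 * Ub b ≤ (a : ℝ) := by
    rw [ha]
    exact Nat.le_ceil _
  have hn1 : 2 * Ub r ≤ (n : ℝ) := by
    rw [hn]
    exact Nat.le_ceil _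
  have hn2 : (n : ℝ) ≤ 3 * Ub r := by
    have := Nat.ceil_lt_add_one (show (0 : ℝ) ≤ 2 * Ub r by linarith)
    rw [← hn] at this
    linarith
  have hn0 : 0 < n := by
    have : (0 : ℝ) < n := by linarith
    exact_mod_cast this
  have hn0' : (0 : ℝ) < n := by exact_mod_cast hn0
  have h1 : gf (Hm a r) ≤ ENNReal.ofReal (1 / 2) ^ j := by
    refine (Hm_anti ?_ r).trans (Hm_pow hn1 j)
    rw [hj]
    exact Nat.div_mul_le_self a n
  rw [← ha]
  refine h1.trans ?_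
  rw [← ENNReal.ofReal_pow (by norm_num)]
  refine ENNReal.ofReal_le_ofReal ?_
  have h2 : (a : ℝ) < (j + 1) * n := by
    have h0 : a < a / n * n + n := Nat.lt_div_mul_add hn0
    rw [← hj] at h0
    have h0' : (a : ℝ) < j * n + n := by exact_mod_cast h0
    linarith
  have h3 := GB.Ub_ratio_down hr
  have h4 : (2 : ℝ) ^ (-(kap0 * ((b : ℝ) - r))) = (((2 : ℝ) ^ kap0) ^ (b - r))⁻¹ := by
    rw [← Real.rpow_natCast, ← Real.rpow_mul (by norm_num), ← Real.rpow_neg (by norm_num), Nat.cast_sub hr]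
  rw [h4, div_le_iff₀ hUb] at h3
  obtain ⟨R, hR⟩ : ∃ R : ℝ, R = ((2 : ℝ) ^ kap0) ^ (b - r) := ⟨_, rfl⟩
  rw [← hR] at h3 ⊢
  have hR0 : 0 < R := by
    rw [hR]
    positivity
  have h5 : κ / 48 * R ≤ j + 1 := by
    have h6 : Ub r * R ≤ 2 * Ub b := by
      have := mul_le_mul_of_nonneg_right h3 hR0.le
      have e : 2 * R⁻¹ * Ub b * R = 2 * Ub b := by field_simp
      linarith
    have h7 : κ / 8 * Ub b < (j + 1) * (3 * Ub r) := by
      have : ((j : ℝ) + 1) * n ≤ (j + 1) * (3 * Ub r) := mul_le_mul_of_nonneg_left hn2 (by positivity)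
      linarith
    have h8 : κ / 16 * (Ub r * R) ≤ κ / 8 * Ub b := by nlinarith
    have h9 : Ub r * (κ / 16 * R) < Ub r * (3 * (j + 1)) := by nlinarith
    have h10 := lt_of_mul_lt_mul_left h9 (by linarith)
    linarith
  have e1 : (1 / 2 : ℝ) ^ j = 2 * (2 : ℝ) ^ (-((j : ℝ) + 1)) := by
    rw [neg_add, Real.rpow_add (by norm_num), Real.rpow_neg (by norm_num), Real.rpow_natCast, Real.rpow_neg_one, one_div, inv_pow]
    ring
  rw [e1]
  exact mul_le_mul_of_nonneg_left (Real.rpow_le_rpow_of_exponent_le (by norm_num) (by linarith)) (by norm_num)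

/-! ### the split -/

lemma Rt_split {κ : ℝ} {Cz l i c b m : ℕ} (hi : i = b + m) (hm : 4 ≤ m) :
    Rt l i c ⊆ {t | t ∈ WL (b + (m + c)) ∧ t ∈ Lz κ Cz b (2 ^ (m - 4))} ∪ Gr κ Cz b (i + c) (2 ^ (l + 2)) := by
  rintro w ⟨hw, s, t, hst, ht, hs, hd⟩
  by_cases hz : w.take s ∈ Nz κ Cz b
  · left
    refine ⟨?_, [], w.take s, w.drop s, ?_, hz, ?_⟩
    · rwa [show b + (m + c) = i + c by omega]
    · rw [List.nil_append, List.take_append_drop]
    · intro hI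
      have hl : (w.take s).length = s := by rw [List.length_take]; omega
      have h1 := hn_le_Bl (hI s (by rw [hl]))
      rw [vx_tk le_rfl] at h1
      have h2 : (2 : ℤ) ^ (m - 4) * 2 ^ b * 16 = 2 ^ i := by
        rw [show (16 : ℤ) = 2 ^ 4 by norm_num, ← pow_add, ← pow_add]
        congr 1
        omega
      push_cast at h1
      have h3 : (0 : ℤ) < 2 ^ (m - 4) * 2 ^ b := by positivity
      linarith
  · right
    obtain ⟨X, Z, Y, he, hY, hZ⟩ : ∃ X Z Y, w.take s = X ++ (Z ++ Y) ∧ Y ≠ [] ∧ Z ∈ Zc κ Cz b := by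
      by_contra hcon
      exact hz fun X Z Y h1 h2 h3 => hcon ⟨X, Z, Y, h1, h2, h3⟩
    have hYl : 1 ≤ Y.length := List.length_pos_iff.2 hY
    refine ⟨hw, X, Z, Y ++ w.drop s, ?_, hZ, t, ?_, ht, ?_⟩
    · rw [← List.append_assoc Z, ← List.append_assoc X, ← he, List.take_append_drop]
    · have h1 := congrArg List.length he
      rw [List.length_take] at h1
      simp only [List.length_append] at h1 ⊢
      omega
    · have h1 : (2 : ℤ) ^ (l + 1) < 2 ^ (l + 2) := pow_lt_pow_right₀ (by norm_num) (by omega)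
      push_cast
      linarith

/-! ### the theorem -/

/-- **row RetW** -/
theorem retW_of {κ : ℝ} {Cz : ℕ} (hκ : 0 < κ) (hR : RegZ κ Cz) (hV : VisS) : RetW := by
  intro θ c hθ
  obtain ⟨C', cR, bR, JR, nR, hC', hcR, hRZ⟩ := hR
  obtain ⟨C1, hC1, hG⟩ := gr_mass hκ
  obtain ⟨E, hE, hF⟩ := FK_addZ
  obtain ⟨CV, bV, hCV, hS⟩ := hV (θ / 2) (by positivity)
  obtain ⟨cH, ρH, hcH, hρH, hH⟩ := Hm_dec hκ
  obtain ⟨BU0, hBU0⟩ := Ub_big
  have hE0 : (0 : ℝ) < E := by linarith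
  -- the speed
  obtain ⟨q, hq2, hq⟩ : ∃ q : ℕ, 2 ≤ q ∧ 16 * E ≤ (2 : ℝ) ^ ((q : ℝ) * (θ / 2)) := by
    obtain ⟨w, hw⟩ := pow_unbounded_of_one_lt (16 * E) (one_lt_two (α := ℝ))
    obtain ⟨q0, hq0⟩ := exists_nat_ge ((w : ℝ) / (θ / 2))
    refine ⟨q0 + 2, by omega, hw.le.trans ?_⟩
    rw [← Real.rpow_natCast]
    refine Real.rpow_le_rpow_of_exponent_le (by norm_num) ?_
    rw [div_le_iff₀ (by positivity)] at hq0
    push_cast
    nlinarith
  obtain ⟨M1, hM1, hb1⟩ := pow_beats (A := C' * 2 ^ q) (ρ := 2) (c := cR / 16) (one_le_mul_of_one_le_of_one_le hC'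
    (one_le_pow₀ (by norm_num))) (by norm_num) (by positivity)
  obtain ⟨M2, hM2, hb2⟩ := pow_beats (A := E * 2 ^ q) (ρ := ρH) (c := cH) (one_le_mul_of_one_le_of_one_le hE
    (one_le_pow₀ (by norm_num))) hρH hcH
  obtain ⟨nU, hnU⟩ := pow_unbounded_of_one_lt (16 / κ) (by norm_num : (1 : ℝ) < 8)
  obtain ⟨m1, hm1⟩ : ∃ m1 : ℕ, m1 = 5 + JR + nR := ⟨_, rfl⟩
  obtain ⟨A1, hA1⟩ : ∃ A1 : ℝ, A1 = C' ^ c * E ^ c * M1 := ⟨_, rfl⟩
  obtain ⟨A2, hA2⟩ : ∃ A2 : ℝ, A2 = C1 * (E ^ (c + 3) * E ^ (c + 3) * (2 * M2)) := ⟨_, rfl⟩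
  obtain ⟨A3, hA3⟩ : ∃ A3 : ℝ, A3 = C1 * (E ^ c * (CV * (2 : ℝ) ^ ((θ / 2 + 4 / 3) * ((c : ℝ) + 4)) * 16 * E ^ (c + 6)) *
    (16 * E) ^ m1) := ⟨_, rfl⟩
  have hA1' : 0 < A1 := by rw [hA1]; positivity
  have hA2' : 0 < A2 := by rw [hA2]; positivity
  have hA3' : 0 < A3 := by rw [hA3]; positivity
  refine ⟨A1 + A2 + A3, 2 * m1 + bR + bV + BU0 * nU, by positivity, fun l i hl hli => ?_⟩
  obtain ⟨x, rfl⟩ := Nat.exists_eq_add_of_le hli
  obtain ⟨m, hm⟩ : ∃ m, m = x / q + m1 := ⟨_, rfl⟩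
  have hxq : x / q * 2 ≤ x := (Nat.mul_le_mul_left _ hq2).trans (Nat.div_mul_le_self x q)
  obtain ⟨b, hb⟩ : ∃ b, l + x = b + m := ⟨l + x - m, by omega⟩
  obtain ⟨r, hr⟩ : ∃ r, b = r + m := ⟨b - m, by omega⟩
  have hx1 : x ≤ q * m := by
    have h0 : x < x / q * q + q := Nat.lt_div_mul_add (by omega)
    rw [hm]
    have h1 : x / q * q + q ≤ q * (x / q + m1) := by
      have : q ≤ q * m1 := Nat.le_mul_of_pos_right _ (by omega)
      rw [mul_add, mul_comm q]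
      omega
    omega
  have hUbb : 16 ≤ κ * Ub b := by
    have h1 := hBU0 b nU (by omega)
    have h2 : 16 / κ ≤ Ub b := hnU.le.trans h1
    rw [div_le_iff₀ hκ] at h2
    linarith
  have hxr : (((l + x : ℕ) : ℝ) - l) = x := by
    push_cast
    ring
  rw [hxr]
  obtain ⟨T, hT⟩ : ∃ T : ℝ, T = (2 : ℝ) ^ ((θ - 2 / 3) * (x : ℝ)) := ⟨_, rfl⟩
  rw [← hT]
  have hT0 : 0 < T := by rw [hT]; positivity
  have hTq : 1 ≤ (2 ^ q) ^ m * T := by
    have e : ((2 : ℝ) ^ q) ^ m = (2 : ℝ) ^ ((q * m : ℕ) : ℝ) := by rw [← pow_mul, Real.rpow_natCast]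
    rw [e, hT, ← Real.rpow_add (by norm_num)]
    refine Real.one_le_rpow (by norm_num) ?_
    have h1 : (x : ℝ) ≤ ((q * m : ℕ) : ℝ) := by exact_mod_cast hx1
    have h2 : (0 : ℝ) ≤ x := Nat.cast_nonneg x
    nlinarith
  -- FK
  have f1 : FK (l + x + c) ≤ ENNReal.ofReal (E ^ c) * FK (l + x) := hF _ _
  have f2 : FK (l + x + c + 3) ≤ ENNReal.ofReal (E ^ (c + 3)) * FK (l + x) := hF (l + x) (c + 3)
  have f3 : FK (l + x + c + 6) ≤ ENNReal.ofReal (E ^ (c + 6)) * FK (l + x) := hF (l + x) (c + 6)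
  have f4 : FK (l + x) ≤ ENNReal.ofReal (E ^ m) * FK b := by
    rw [hb]
    exact hF b m
  have hFb0 : FK b ≠ 0 := by
    unfold FK
    exact mul_ne_zero (by simpa using Ub_pos b) (pow_ne_zero _ (Xb_ne_zero b))
  have hFbt : FK b ≠ ⊤ := by
    unfold FK
    exact ENNReal.mul_ne_top ENNReal.ofReal_ne_top (ENNReal.pow_ne_top (Xb_ne_top b))
  -- part 1
  have p1 : gf {t | t ∈ WL (b + (m + c)) ∧ t ∈ Lz κ Cz b (2 ^ (m - 4))} ≤ ENNReal.ofReal (A1 * T) * FK (l + x) := by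
    have hn : nR ≤ 2 ^ (m - 4) := by
      have h1 : nR < 2 ^ nR := Nat.lt_two_pow_self
      have h2 : (2 : ℕ) ^ nR ≤ 2 ^ (m - 4) := Nat.pow_le_pow_right (by norm_num) (by omega)
      omega
    have r1 := hRZ b (m + c) (2 ^ (m - 4)) (by omega) (by omega) hn
    refine r1.trans ?_
    rw [show b + (m + c) = l + x + c by omega, ENNReal.ofReal_mul (by positivity), mul_assoc]
    show _ * FK (l + x + c) ≤ _
    refine (mul_le_mul_right f1 _).trans ?_
    rw [← mul_assoc, ← ENNReal.ofReal_mul (by positivity)]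
    refine mul_le_mul_left (ENNReal.ofReal_le_ofReal ?_) _
    have e1 : cR * ((2 ^ (m - 4) : ℕ) : ℝ) = cR / 16 * 2 ^ m := by
      have : (2 : ℝ) ^ m = 2 ^ (m - 4) * 16 := by
        rw [show (16 : ℝ) = 2 ^ 4 by norm_num, ← pow_add]
        congr 1
        omega
      rw [this]
      push_cast
      ring
    rw [e1]
    have h1 := hb1 m
    rw [mul_pow] at h1
    calc C' ^ (m + c) * (2 : ℝ) ^ (-(cR / 16 * 2 ^ m)) * E ^ c
        ≤ C' ^ (m + c) * (2 : ℝ) ^ (-(cR / 16 * 2 ^ m)) * E ^ c * ((2 ^ q) ^ m * T) := le_mul_of_one_le_right (by positivity) hTq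
      _ = C' ^ c * E ^ c * (C' ^ m * (2 ^ q) ^ m * (2 : ℝ) ^ (-(cR / 16 * 2 ^ m))) * T := by
          rw [pow_add]
          ring
      _ ≤ C' ^ c * E ^ c * M1 * T := by gcongr
      _ = A1 * T := by rw [hA1]
  -- part 2
  have p2 : gf (Gr κ Cz b (l + x + c) (2 ^ (l + 2))) ≤ ENNReal.ofReal ((A2 + A3) * T) * FK (l + x) := by
    have g1 := hG Cz b (l + x + c) (2 ^ (l + 2)) r (by omega) (by omega) hUbb
    have g2 := hH b r (by omega)
    rw [show b - r = m by omega] at g2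
    have g3 := hS (l + 2) (l + x + c + 6) (by omega) (by omega)
    refine (ENNReal.mul_le_mul_iff_left hFb0 hFbt).1 (g1.trans ?_)
    have q1 : FK (l + x + c + 3) ^ 2 * gf (Hm ⌈κ / 8 * Ub b⌉₊ r) ≤
        ENNReal.ofReal (E ^ (c + 3) * E ^ (c + 3) * (2 * M2) * T) * FK (l + x) * FK b := by
      calc FK (l + x + c + 3) ^ 2 * gf (Hm ⌈κ / 8 * Ub b⌉₊ r)
          ≤ ((ENNReal.ofReal (E ^ (c + 3)) * FK (l + x)) * (ENNReal.ofReal (E ^ (c + 3)) * (ENNReal.ofReal (E ^ m) * FK b))) *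
              ENNReal.ofReal (2 * (2 : ℝ) ^ (-(cH * ρH ^ m))) := by
            rw [pow_two]
            refine mul_le_mul' (mul_le_mul' f2 (f2.trans (mul_le_mul_right f4 _))) g2
        _ = ENNReal.ofReal (E ^ (c + 3) * E ^ (c + 3) * E ^ m * (2 * (2 : ℝ) ^ (-(cH * ρH ^ m)))) * FK (l + x) * FK b := by
            rw [ENNReal.ofReal_mul (p := E ^ (c + 3) * E ^ (c + 3) * E ^ m) (by positivity),
              ENNReal.ofReal_mul (p := E ^ (c + 3) * E ^ (c + 3)) (by positivity),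
              ENNReal.ofReal_mul (p := E ^ (c + 3)) (by positivity)]
            ring
        _ ≤ _ := by
            refine mul_le_mul_left (mul_le_mul_left (ENNReal.ofReal_le_ofReal ?_) _) _
            have h1 := hb2 m
            rw [mul_pow] at h1
            calc E ^ (c + 3) * E ^ (c + 3) * E ^ m * (2 * (2 : ℝ) ^ (-(cH * ρH ^ m)))
                ≤ E ^ (c + 3) * E ^ (c + 3) * E ^ m * (2 * (2 : ℝ) ^ (-(cH * ρH ^ m))) * ((2 ^ q) ^ m * T) :=
                  le_mul_of_one_le_right (by positivity) hTq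
              _ = E ^ (c + 3) * E ^ (c + 3) * (2 * (E ^ m * (2 ^ q) ^ m * (2 : ℝ) ^ (-(cH * ρH ^ m)))) * T := by ring
              _ ≤ _ := by gcongr
    have q2 : FK (l + x + c) * (ENNReal.ofReal (1 / 4 ^ r) * SS (l + x + c + 6) (2 ^ (l + 2))) ≤
        ENNReal.ofReal (E ^ c * (CV * (2 : ℝ) ^ ((θ / 2 + 4 / 3) * ((c : ℝ) + 4)) * 16 * E ^ (c + 6)) *
          (16 * E) ^ m1 * T) * FK (l + x) * FK b := by
      obtain ⟨W, hW⟩ : ∃ W : ℝ, W = CV * ((2 : ℝ) ^ (θ / 2 * (((l + x + c + 6 : ℕ) : ℝ) - ((l + 2 : ℕ) : ℝ))) * 4 ^ (l + 2) *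
        (2 : ℝ) ^ ((4 / 3 : ℝ) * (((l + x + c + 6 : ℕ) : ℝ) - ((l + 2 : ℕ) : ℝ)))) := ⟨_, rfl⟩
      rw [← hW] at g3
      have hW0 : 0 < W := by rw [hW]; positivity
      calc FK (l + x + c) * (ENNReal.ofReal (1 / 4 ^ r) * SS (l + x + c + 6) (2 ^ (l + 2)))
          ≤ (ENNReal.ofReal (E ^ c) * (ENNReal.ofReal (E ^ m) * FK b)) * (ENNReal.ofReal (1 / 4 ^ r) *
              (ENNReal.ofReal W * (ENNReal.ofReal (E ^ (c + 6)) * FK (l + x)))) := by
            refine mul_le_mul' (f1.trans (mul_le_mul_right f4 _)) (mul_le_mul_right (g3.trans (mul_le_mul_right f3 _)) _)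
        _ = ENNReal.ofReal (E ^ c * E ^ m * (1 / 4 ^ r) * W * E ^ (c + 6)) * FK (l + x) * FK b := by
            rw [ENNReal.ofReal_mul (by positivity), ENNReal.ofReal_mul (by positivity), ENNReal.ofReal_mul (by positivity),
              ENNReal.ofReal_mul (by positivity)]
            ring
        _ ≤ _ := by
            refine mul_le_mul_left (mul_le_mul_left (ENNReal.ofReal_le_ofReal ?_) _) _
            have e1 : W = CV * (2 : ℝ) ^ ((θ / 2 + 4 / 3) * ((c : ℝ) + 4)) * 16 * (4 ^ l * (2 : ℝ) ^ ((θ / 2 + 4 / 3) * (x : ℝ))) := by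
              rw [hW, show (((l + x + c + 6 : ℕ) : ℝ) - ((l + 2 : ℕ) : ℝ)) = (c : ℝ) + 4 + x by push_cast; ring,
                show θ / 2 * ((c : ℝ) + 4 + x) = θ / 2 * (c + 4) + θ / 2 * x by ring,
                show (4 / 3 : ℝ) * ((c : ℝ) + 4 + x) = 4 / 3 * (c + 4) + 4 / 3 * x by ring,
                show (θ / 2 + 4 / 3) * ((c : ℝ) + 4) = θ / 2 * (c + 4) + 4 / 3 * (c + 4) by ring,
                show (θ / 2 + 4 / 3) * (x : ℝ) = θ / 2 * x + 4 / 3 * x by ring]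
              simp only [Real.rpow_add (show (0 : ℝ) < 2 by norm_num)]
              rw [pow_add (4 : ℝ) l 2]
              ring
            have e2 : (1 / 4 ^ r : ℝ) * (4 ^ l * (2 : ℝ) ^ ((θ / 2 + 4 / 3) * (x : ℝ))) =
                16 ^ m * (2 : ℝ) ^ ((θ / 2 - 2 / 3) * (x : ℝ)) := by
              have e3 : (4 : ℝ) ^ l * 4 ^ x = 4 ^ r * 16 ^ m := by
                rw [show (16 : ℝ) = 4 ^ 2 by norm_num, ← pow_mul, ← pow_add, ← pow_add]
                congr 1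
                omega
              have e4 : (2 : ℝ) ^ ((θ / 2 + 4 / 3) * (x : ℝ)) = 4 ^ x * (2 : ℝ) ^ ((θ / 2 - 2 / 3) * (x : ℝ)) := by
                rw [show (4 : ℝ) = 2 ^ (2 : ℕ) by norm_num, ← pow_mul, ← Real.rpow_natCast 2 (2 * x), ← Real.rpow_add (by norm_num)]
                congr 1
                push_cast
                ring
              rw [e4, ← mul_assoc ((4 : ℝ) ^ l), e3]
              have : (4 : ℝ) ^ r ≠ 0 := by positivity
              field_simp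
            have e5 : (16 * E) ^ m * (2 : ℝ) ^ ((θ / 2 - 2 / 3) * (x : ℝ)) ≤ (16 * E) ^ m1 * T := by
              have h1 : (16 * E) ^ (x / q) ≤ (2 : ℝ) ^ (θ / 2 * (x : ℝ)) := by
                calc (16 * E) ^ (x / q) ≤ ((2 : ℝ) ^ ((q : ℝ) * (θ / 2))) ^ (x / q) := by gcongr
                  _ = (2 : ℝ) ^ (((x / q * q : ℕ) : ℝ) * (θ / 2)) := by
                      rw [← Real.rpow_natCast, ← Real.rpow_mul (by norm_num)]
                      congr 1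
                      push_cast
                      ring
                  _ ≤ _ := by
                      refine Real.rpow_le_rpow_of_exponent_le (by norm_num) ?_
                      have : ((x / q * q : ℕ) : ℝ) ≤ x := by exact_mod_cast Nat.div_mul_le_self x q
                      nlinarith
              rw [hm, pow_add, hT, show (θ - 2 / 3) * (x : ℝ) = θ / 2 * x + (θ / 2 - 2 / 3) * x by ring,
                Real.rpow_add (by norm_num)]
              have : (0 : ℝ) < (16 * E) ^ m1 := by positivity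
              calc (16 * E) ^ (x / q) * (16 * E) ^ m1 * (2 : ℝ) ^ ((θ / 2 - 2 / 3) * (x : ℝ))
                  ≤ (2 : ℝ) ^ (θ / 2 * (x : ℝ)) * (16 * E) ^ m1 * (2 : ℝ) ^ ((θ / 2 - 2 / 3) * (x : ℝ)) := by gcongr
                _ = _ := by ring
            calc E ^ c * E ^ m * (1 / 4 ^ r) * W * E ^ (c + 6)
                = E ^ c * (CV * (2 : ℝ) ^ ((θ / 2 + 4 / 3) * ((c : ℝ) + 4)) * 16 * E ^ (c + 6)) *
                    (E ^ m * (1 / 4 ^ r * (4 ^ l * (2 : ℝ) ^ ((θ / 2 + 4 / 3) * (x : ℝ))))) := by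
                  rw [e1]
                  ring
              _ = E ^ c * (CV * (2 : ℝ) ^ ((θ / 2 + 4 / 3) * ((c : ℝ) + 4)) * 16 * E ^ (c + 6)) *
                    ((16 * E) ^ m * (2 : ℝ) ^ ((θ / 2 - 2 / 3) * (x : ℝ))) := by
                  rw [e2, mul_pow]
                  ring
              _ ≤ E ^ c * (CV * (2 : ℝ) ^ ((θ / 2 + 4 / 3) * ((c : ℝ) + 4)) * 16 * E ^ (c + 6)) * ((16 * E) ^ m1 * T) := by gcongr
              _ = _ := by ring
    calc ENNReal.ofReal C1 * (FK (l + x + c + 3) ^ 2 * gf (Hm ⌈κ / 8 * Ub b⌉₊ r) +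
          FK (l + x + c) * (ENNReal.ofReal (1 / 4 ^ r) * SS (l + x + c + 6) (2 ^ (l + 2))))
        ≤ ENNReal.ofReal C1 * (ENNReal.ofReal (E ^ (c + 3) * E ^ (c + 3) * (2 * M2) * T) * FK (l + x) * FK b +
            ENNReal.ofReal (E ^ c * (CV * (2 : ℝ) ^ ((θ / 2 + 4 / 3) * ((c : ℝ) + 4)) * 16 * E ^ (c + 6)) *
              (16 * E) ^ m1 * T) * FK (l + x) * FK b) := mul_le_mul_right (add_le_add q1 q2) _
      _ = ENNReal.ofReal ((A2 + A3) * T) * FK (l + x) * FK b := by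
          rw [← add_mul, ← add_mul, ← ENNReal.ofReal_add (by positivity) (by positivity), ← mul_assoc, ← mul_assoc,
            ← ENNReal.ofReal_mul (by positivity), hA2, hA3]
          congr 3
          ring
  refine (gf_mono (Rt_split (κ := κ) (Cz := Cz) (b := b) (m := m) hb (by omega))).trans ((gf_union_le _ _).trans
    ((add_le_add p1 p2).trans (le_of_eq ?_)))
  rw [← add_mul, ← ENNReal.ofReal_add (by positivity) (by positivity)]
  congr 2
  ring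

end ARM

end HexObs
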