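import Pool.Agent.ARM.RootB
import Pool.Agent.ARM.QBadM
import Pool.Agent.TPC.CylLift

/-!
# ARM2, row T2N (helper9): **row RootN** (large closed words without a good window of the scale b)
-/

set_option autoImplicit false

namespace HexObs

namespace ARM

open Finset TS SDN SIM NTA TIP

open scoped ENNReal

namespace T2

lemma geo_sum {S : ℕ → Set (List Bool)} {A : ℝ} (hA : 0 ≤ A) (h : ∀ k, gf (S k) ≤ ENNReal.ofReal (A * (1 / 2) ^ k)) :
    gf (⋃ k, S k) ≤ ENNReal.ofReal (2 * A) := by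
  refine (TPC.gf_iUnion_le S).trans ((ENNReal.tsum_le_tsum h).trans (le_of_eq ?_))
  rw [← ENNReal.ofReal_tsum_of_nonneg (fun k => by positivity) (summable_geometric_two.mul_left _), tsum_mul_left,
    tsum_geometric_two, mul_comm]

/-- the number of the letters of a word in a box -/
lemma len_In {L : List Bool} {D : ℕ} (h : L ∈ SA) (hI : In D L) : L.length + 1 ≤ (2 * D + 1) ^ 2 := by
  classical
  have h1 : (range (L.length + 1)).card ≤ (Finset.Icc (-(D : ℤ)) D ×ˢ Finset.Icc (-(D : ℤ)) D).card := by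
    refine Finset.card_le_card_of_injOn (fun i => vx oo up L i) (fun i hi => ?_) (fun i hi j hj he => ?_)
    · rw [mem_coe, mem_range] at hi
      obtain ⟨a1, a2⟩ := RevM.In_coord hI (i := i) (by omega)
      rw [mem_coe, mem_product, Finset.mem_Icc, Finset.mem_Icc]
      exact ⟨abs_le.1 a1, abs_le.1 a2⟩
    · rw [mem_coe, mem_range] at hi hj
      rcases lt_trichotomy i j with h2 | h2 | h2
      · exact absurd he (h.inj i j h2 (by omega))
      · exact h2
      · exact absurd he.symm (h.inj j i h2 (by omega))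
  rw [card_range, card_product, Int.card_Icc] at h1
  have e : ((D : ℤ) + 1 - -(D : ℤ)).toNat = 2 * D + 1 := by omega
  rw [e] at h1
  rw [sq]
  exact h1

/-- every word is in some box -/
lemma In_ex (Y : List Bool) : ∃ J : ℕ, In (2 ^ J) Y := by
  obtain ⟨D, hD⟩ : ∃ D : ℕ, D = ∑ k ∈ range (Y.length + 1), ((vx oo up Y k).1.natAbs + (vx oo up Y k).2.natAbs) := ⟨_, rfl⟩
  refine ⟨D, fun i hi => ?_⟩
  have h1 : (vx oo up Y i).1.natAbs + (vx oo up Y i).2.natAbs ≤ D := by
    rw [hD]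
    exact single_le_sum (f := fun k => (vx oo up Y k).1.natAbs + (vx oo up Y k).2.natAbs) (fun _ _ => Nat.zero_le _)
      (mem_range.2 (by omega))
  have h3 : D ≤ 2 ^ D := Nat.lt_two_pow_self.le
  refine ⟨?_, ?_⟩
  · show |(vx oo up Y i).1 - (0 : ℤ)| ≤ _
    rw [sub_zero, Int.abs_eq_natAbs]
    exact_mod_cast (by omega : (vx oo up Y i).1.natAbs ≤ 2 ^ D)
  · show |(vx oo up Y i).2 - (0 : ℤ)| ≤ _
    rw [sub_zero, Int.abs_eq_natAbs]
    exact_mod_cast (by omega : (vx oo up Y i).2.natAbs ≤ 2 ^ D)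

/-- the scale of a word -/
lemma In_find {L : List Bool} {m : ℕ} (h : ¬ In (2 ^ m) L) : ∃ l : ℕ, In (2 ^ (m + 1 + l)) L ∧ ¬ In (2 ^ (m + l)) L := by
  classical
  have hf := Nat.find_spec (In_ex L)
  have hlt : m < Nat.find (In_ex L) := by
    by_contra hcon
    exact h (YB.In_mono (Nat.pow_le_pow_right (by norm_num) (not_lt.1 hcon)) hf)
  refine ⟨Nat.find (In_ex L) - (m + 1), ?_, ?_⟩
  · rw [show m + 1 + (Nat.find (In_ex L) - (m + 1)) = Nat.find (In_ex L) by omega]
    exact hf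
  · exact Nat.find_min (In_ex L) (by omega)

end T2

open T2

/-- **row RootN** -/
theorem rootN_of {κ : ℝ} {C : ℕ} (hR : RegZ κ C) (hB : RootB κ C) : RootN κ C := by
  intro a
  obtain ⟨A1, J1, b1, hA1, h1⟩ := hB (a + 1) 7
  obtain ⟨C', c, b2, J2, n2, hC', hc, hreg⟩ := hR
  obtain ⟨B, hB, hup⟩ := NPR.TE_up
  obtain ⟨s, hs⟩ : ∃ s : ℕ, s = max b1 b2 := ⟨_, rfl⟩
  have hFt : NPR.FK 0 ≠ ⊤ := ENNReal.mul_ne_top ENNReal.ofReal_ne_top (ENNReal.pow_ne_top (NTA.Xb_ne_top 0))
  obtain ⟨F0, hF0, hFK⟩ : ∃ F0 : ℝ, 0 ≤ F0 ∧ NPR.FK 0 ≤ ENNReal.ofReal F0 :=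
    ⟨(NPR.FK 0).toReal, ENNReal.toReal_nonneg, le_of_eq (ENNReal.ofReal_toReal hFt).symm⟩
  have hl2 : 0 < Real.log 2 := Real.log_pos one_lt_two
  obtain ⟨I0, hI0⟩ := YB.num (27 * (C' ^ 2 * B ^ 2 * F0)) (8 * (C' * B) * 2 ^ (a + 1)) (c * Real.log 2) (s + 1) (by positivity)
    (by
      have e1 : (1 : ℝ) ≤ C' * B := one_le_mul_of_one_le_of_one_le hC' hB
      have e2 : (1 : ℝ) ≤ 2 ^ (a + 1) := one_le_pow₀ (by norm_num)
      exact one_le_mul_of_one_le_of_one_le (by linarith) e2) (by positivity)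
  refine ⟨4 * A1 + 2, J1 + J2 + I0 + n2 + s + 2 * C + 6, s + 1, by positivity, fun n b J hn hb hJ => ?_⟩
  have hn0 : (0 : ℝ) < n := by exact_mod_cast hn
  obtain ⟨ν, hν⟩ : ∃ ν : ℝ, ν = (n : ℝ) ^ (-(3 / 2) : ℝ) := ⟨_, rfl⟩
  have hν0 : 0 < ν := by rw [hν]; positivity
  obtain ⟨S, hS⟩ : ∃ S : ℕ → ℕ → Set (List Bool), S = fun k l => {L | (s ≤ b - 1 - k ∧ k < b) ∧
    L ∈ E1F κ C (b - 1 - k) 7 (J + 4 + k + l) n} := ⟨_, rfl⟩
  obtain ⟨G, hG⟩ : ∃ G : ℕ → Set (List Bool), G = fun l => {L | L ∈ C0 n ∧ In (2 ^ (b + J + 1 + l)) L ∧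
    L ∈ Lz κ C s (2 ^ (b + J + l - s))} := ⟨_, rfl⟩
  -- the covering
  have hcov : {L | L ∈ C0 n ∧ L ∈ Nz κ C b ∧ ¬ In (2 ^ (b + J)) L} ⊆ (⋃ k, ⋃ l, S k l) ∪ ⋃ l, G l := by
    classical
    rintro L ⟨hL, hN, hI⟩
    obtain ⟨l, hl1, hl2'⟩ := In_find hI
    by_cases hcas : ∃ k, (s ≤ b - 1 - k ∧ k < b) ∧ L ∉ Nz κ C (b - 1 - k)
    · left
      obtain ⟨⟨k1, k2⟩, k3⟩ := Nat.find_spec hcas
      obtain ⟨k, hk⟩ : ∃ k, k = Nat.find hcas := ⟨_, rfl⟩
      rw [← hk] at k1 k2 k3
      have k4 : L ∈ Nz κ C (b - k) := by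
        rcases Nat.eq_zero_or_pos k with h0 | h0
        · rw [h0, Nat.sub_zero]
          exact hN
        · by_contra hcon
          refine Nat.find_min hcas (m := k - 1) (by omega) ⟨⟨by omega, by omega⟩, ?_⟩
          rwa [show b - 1 - (k - 1) = b - k by omega]
      rw [Set.mem_iUnion₂]
      refine ⟨k, l, ?_⟩
      rw [hS]
      refine ⟨⟨k1, k2⟩, hL, ?_⟩
      have k5 : ∃ X Z Y, L = X ++ (Z ++ Y) ∧ Z ∈ Zc κ C (b - 1 - k) := by
        by_contra hcon
        apply k3
        intro X Z Y e1 _ e3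
        exact hcon ⟨X, Z, Y, e1, e3⟩
      obtain ⟨X, Z, Y, e1, hZ⟩ := k5
      have hX : In (2 ^ (b + J + 1 + l)) X := QB.In_pre (B := Z ++ Y) (by rw [← e1]; exact hl1)
      have hY : In (4 * 2 ^ (b + J + 1 + l)) Y := QB.In_suf (A := X ++ Z) (by rw [List.append_assoc, ← e1]; exact hl1)
      have e2 : 2 ^ (b - 1 - k + (J + 4 + k + l)) = 4 * 2 ^ (b + J + 1 + l) := by
        rw [show b - 1 - k + (J + 4 + k + l) = (b + J + 1 + l) + 2 by omega, pow_add]
        ring
      refine ⟨X, Z, Y, e1, hZ, YB.In_mono (by omega) hX, by rw [e2]; exact hY, b - k, 2 ^ (J + l + k - 3), Or.inr (by omega), ?_, ?_⟩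
      · rw [← pow_add]
        exact Nat.pow_le_pow_right (by norm_num) (by omega)
      · have e3 : 2 ^ (J + l + k - 3) * 2 ^ (b - k) = 2 ^ (b + J + l - 3) := by
          rw [← pow_add]
          congr 1
          omega
        by_contra hcon
        rw [not_or] at hcon
        obtain ⟨g1, g2⟩ := hcon
        have g1' : In (2 ^ (b + J + l - 3)) X := by
          by_contra h5
          apply g1
          refine ⟨[], X, [], by simp, YB.Nz_pre (Y := Z ++ Y) (by rw [← e1]; exact k4), ?_⟩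
          rw [e3]
          exact h5
        have g2' : In (2 ^ (b + J + l - 3)) Y := by
          by_contra h5
          apply g2
          refine ⟨[], Y, [], by simp, YB.Nz_suf (X := X ++ Z) (by rw [List.append_assoc, ← e1]; exact k4), ?_⟩
          rw [e3]
          exact h5
        have hZI : In (C * 2 ^ (b - 1 - k)) Z := by
          obtain ⟨Z1, Z2, Z3, -, -, -, -, -, -, -, -, h⟩ := hZ
          exact h
        have h6 := QB.In_app g1' (QB.In_app hZI g2')
        rw [← e1] at h6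
        refine hl2' (YB.In_mono ?_ h6)
        have e4 : 2 ^ (b + J + l) = 8 * 2 ^ (b + J + l - 3) := by
          rw [show b + J + l = (b + J + l - 3) + 3 by omega, pow_add, Nat.add_sub_cancel]
          ring
        have e5 : 2 * (C * 2 ^ (b - 1 - k)) ≤ 2 ^ (b + J + l - 3) := by
          have e6 : 2 * C ≤ 2 ^ (2 * C) := Nat.lt_two_pow_self.le
          have e7 : 2 ^ (2 * C) * 2 ^ (b - 1 - k) ≤ 2 ^ (b + J + l - 3) := by
            rw [← pow_add]
            exact Nat.pow_le_pow_right (by norm_num) (by omega)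
          calc 2 * (C * 2 ^ (b - 1 - k)) = 2 * C * 2 ^ (b - 1 - k) := by ring
            _ ≤ 2 ^ (2 * C) * 2 ^ (b - 1 - k) := Nat.mul_le_mul_right _ e6
            _ ≤ _ := e7
        rw [e4]
        omega
    · right
      rw [Set.mem_iUnion]
      refine ⟨l, ?_⟩
      rw [hG]
      have hNs : L ∈ Nz κ C s := by
        by_contra hcon
        refine hcas ⟨b - 1 - s, ⟨by omega, by omega⟩, ?_⟩
        rwa [show b - 1 - (b - 1 - s) = s by omega]
      refine ⟨hL, hl1, [], L, [], by simp, hNs, ?_⟩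
      rw [← pow_add, show b + J + l - s + s = b + J + l by omega]
      exact hl2'
  -- the masses
  have hA0 : 0 ≤ A1 * (1 / 2) ^ (a * J) * ν := by positivity
  have hSm : gf (⋃ k, ⋃ l, S k l) ≤ ENNReal.ofReal (2 * (2 * (A1 * (1 / 2) ^ (a * J) * ν))) := by
    refine geo_sum (by positivity) fun k => ?_
    refine (geo_sum (A := A1 * (1 / 2) ^ (a * J) * ν * (1 / 2) ^ k) (by positivity) fun l => ?_).trans (le_of_eq ?_)
    · by_cases hk : s ≤ b - 1 - k ∧ k < b
      · have h2 := (h1 n (b - 1 - k) (J + 4 + k + l) hn (by rw [hs] at hk; omega) (by omega)).2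
        refine (gf_mono (fun L hL => ?_)).trans (h2.trans (ENNReal.ofReal_le_ofReal ?_))
        · rw [hS] at hL
          exact hL.2
        · rw [← hν]
          have e1 : (1 / 2 : ℝ) ^ ((a + 1) * (J + 4 + k + l)) ≤ (1 / 2) ^ (a * J) * (1 / 2) ^ k * (1 / 2) ^ l := by
            rw [← pow_add, ← pow_add]
            refine pow_le_pow_of_le_one (by norm_num) (by norm_num) ?_
            nlinarith [Nat.zero_le (a * (4 + k + l))]
          calc A1 * (1 / 2) ^ ((a + 1) * (J + 4 + k + l)) * ν ≤ A1 * ((1 / 2) ^ (a * J) * (1 / 2) ^ k * (1 / 2) ^ l) * ν := by gcongr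
            _ = _ := by ring
      · have he : S k l = ∅ := by
          rw [hS]
          exact Set.eq_empty_of_forall_notMem fun L hL => hk hL.1
        rw [he]
        unfold gf
        simp
    · congr 1
      ring
  have hGm : gf (⋃ l, G l) ≤ ENNReal.ofReal (2 * ((1 / 2) ^ (a * J) * ν)) := by
    refine geo_sum (by positivity) fun l => ?_
    obtain ⟨i, hi⟩ : ∃ i, i = b + J + 1 + l := ⟨_, rfl⟩
    by_cases hne : n + 1 ≤ (2 * 2 ^ i + 1) ^ 2
    · -- the length
      have hn9 : (n : ℝ) ≤ 9 * 4 ^ i := by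
        have e1 : n ≤ 9 * 4 ^ i := by
          have e2 : (2 * 2 ^ i + 1) ^ 2 ≤ (3 * 2 ^ i) ^ 2 := Nat.pow_le_pow_left (by have := Nat.one_le_two_pow (n := i); omega) 2
          have e3 : (3 * 2 ^ i) ^ 2 = 9 * 4 ^ i := by
            rw [mul_pow, ← pow_mul, mul_comm i 2, pow_mul]
            norm_num
          omega
        exact_mod_cast e1
      have hn27 : 1 ≤ 27 * 8 ^ i * ν := by
        have e1 : (n : ℝ) ^ (3 / 2 : ℝ) ≤ 27 * 8 ^ i := by
          calc (n : ℝ) ^ (3 / 2 : ℝ) ≤ (9 * 4 ^ i) ^ (3 / 2 : ℝ) := Real.rpow_le_rpow hn0.le hn9 (by norm_num)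
            _ = 27 * 8 ^ i := by
                have e2 : (9 : ℝ) * 4 ^ i = (3 * 2 ^ i) ^ (2 : ℝ) := by
                  rw [show (2 : ℝ) = ((2 : ℕ) : ℝ) by norm_num, Real.rpow_natCast, mul_pow, ← pow_mul, mul_comm i 2, pow_mul]
                  norm_num
                rw [e2, ← Real.rpow_mul (by positivity), show (2 : ℝ) * (3 / 2) = ((3 : ℕ) : ℝ) by norm_num, Real.rpow_natCast,
                  mul_pow, ← pow_mul, mul_comm i 3, pow_mul]
                norm_num
        have e2 : (n : ℝ) ^ (3 / 2 : ℝ) * ν = 1 := by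
          rw [hν, ← Real.rpow_add hn0]
          norm_num
        calc (1 : ℝ) = (n : ℝ) ^ (3 / 2 : ℝ) * ν := e2.symm
          _ ≤ _ := mul_le_mul_of_nonneg_right e1 hν0.le
      have hsub : G l ⊆ {t | t ∈ WL (s + (i + 2 - s)) ∧ t ∈ Lz κ C s (2 ^ (i - (s + 1)))} := by
        rw [hG]
        rintro L ⟨g1, g2, g3⟩
        refine ⟨?_, ?_⟩
        · rw [show s + (i + 2 - s) = b + J + 1 + l + 2 by omega]
          exact In_WL (C0_mem g1).1 g2
        · rwa [show i - (s + 1) = b + J + l - s by omega]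
      have h2 := hreg s (i + 2 - s) (2 ^ (i - (s + 1))) (by omega) (by omega)
        ((show n2 ≤ i - (s + 1) by omega).trans Nat.lt_two_pow_self.le)
      refine (gf_mono hsub).trans (h2.trans ?_)
      obtain ⟨x, hx⟩ : ∃ x : ℝ, x = Real.exp (-(c * Real.log 2 * 2 ^ (i - (s + 1)))) := ⟨_, rfl⟩
      have hx0 : 0 < x := by rw [hx]; positivity
      have hx2 : (2 : ℝ) ^ (-(c * ((2 ^ (i - (s + 1)) : ℕ) : ℝ))) = x := by
        rw [hx, Real.rpow_def_of_pos (by norm_num)]
        congr 1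
        push_cast
        ring
      rw [hx2]
      have h3 : ENNReal.ofReal (Ub (s + (i + 2 - s))) * Xb (s + (i + 2 - s)) ^ 2 ≤ ENNReal.ofReal (B ^ (i + 2) * F0) := by
        have h4 := hup 0 (i + 2)
        rw [zero_add] at h4
        rw [show s + (i + 2 - s) = i + 2 by omega, ENNReal.ofReal_mul (by positivity)]
        exact h4.trans (mul_le_mul' le_rfl hFK)
      calc ENNReal.ofReal (C' ^ (i + 2 - s) * x * Ub (s + (i + 2 - s))) * Xb (s + (i + 2 - s)) ^ 2
          = ENNReal.ofReal (C' ^ (i + 2 - s) * x) * (ENNReal.ofReal (Ub (s + (i + 2 - s))) * Xb (s + (i + 2 - s)) ^ 2) := by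
            rw [ENNReal.ofReal_mul (by positivity), mul_assoc]
        _ ≤ ENNReal.ofReal (C' ^ (i + 2 - s) * x) * ENNReal.ofReal (B ^ (i + 2) * F0) := mul_le_mul' le_rfl h3
        _ = ENNReal.ofReal (C' ^ (i + 2 - s) * x * (B ^ (i + 2) * F0)) := by rw [← ENNReal.ofReal_mul (by positivity)]
        _ ≤ _ := by
            refine ENNReal.ofReal_le_ofReal ?_
            have h5 := hI0 i (by omega)
            rw [← hx] at h5
            have h6 : C' ^ (i + 2 - s) ≤ C' ^ (i + 2) := pow_le_pow_right₀ hC' (by omega)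
            have h7 : (1 / 2 : ℝ) ^ ((a + 1) * i) ≤ (1 / 2) ^ (a * J) * (1 / 2) ^ l := by
              rw [← pow_add]
              refine pow_le_pow_of_le_one (by norm_num) (by norm_num) ?_
              have : a * J ≤ a * i := Nat.mul_le_mul_left a (by omega)
              have : l ≤ i := by omega
              nlinarith
            have h8 : (27 * 8 ^ i) * (C' ^ (i + 2) * x * (B ^ (i + 2) * F0)) * (2 : ℝ) ^ ((a + 1) * i) ≤ 1 := by
              refine le_trans (le_of_eq ?_) h5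
              rw [mul_pow, mul_pow, mul_pow, ← pow_mul]
              ring
            have h9 : (2 : ℝ) ^ ((a + 1) * i) * (1 / 2) ^ ((a + 1) * i) = 1 := by
              rw [← mul_pow]
              norm_num
            calc C' ^ (i + 2 - s) * x * (B ^ (i + 2) * F0) ≤ C' ^ (i + 2) * x * (B ^ (i + 2) * F0) := by gcongr
              _ = C' ^ (i + 2) * x * (B ^ (i + 2) * F0) * 1 * 1 := by ring
              _ ≤ C' ^ (i + 2) * x * (B ^ (i + 2) * F0) * (27 * 8 ^ i * ν) * ((2 : ℝ) ^ ((a + 1) * i) * (1 / 2) ^ ((a + 1) * i)) := by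
                  rw [h9]
                  gcongr
              _ = ((27 * 8 ^ i) * (C' ^ (i + 2) * x * (B ^ (i + 2) * F0)) * (2 : ℝ) ^ ((a + 1) * i)) * (ν * (1 / 2) ^ ((a + 1) * i)) := by
                  ring
              _ ≤ 1 * (ν * ((1 / 2) ^ (a * J) * (1 / 2) ^ l)) := by gcongr
              _ = _ := by ring
    · have he : G l = ∅ := by
        refine Set.eq_empty_of_forall_notMem fun L hL => hne ?_
        rw [hG] at hL
        have h2 := len_In (C0_mem hL.1).1 hL.2.1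
        rw [(C0_mem hL.1).2.1] at h2
        rw [hi]
        exact h2
      rw [he]
      unfold gf
      simp
  calc gf {L | L ∈ C0 n ∧ L ∈ Nz κ C b ∧ ¬ In (2 ^ (b + J)) L} ≤ gf ((⋃ k, ⋃ l, S k l) ∪ ⋃ l, G l) := gf_mono hcov
    _ ≤ gf (⋃ k, ⋃ l, S k l) + gf (⋃ l, G l) := gf_union_le _ _
    _ ≤ ENNReal.ofReal (2 * (2 * (A1 * (1 / 2) ^ (a * J) * ν))) + ENNReal.ofReal (2 * ((1 / 2) ^ (a * J) * ν)) := add_le_add hSm hGm
    _ = _ := by
        rw [← ENNReal.ofReal_add (by positivity) (by positivity), ← hν]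
        congr 1
        ring

end ARM

end HexObs
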