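import Pool.Agent.ARM.QIn
import Pool.Agent.ARM.T2Nb
import Pool.Agent.ARM.ExCs
import Pool.Agent.ARM.BUMom
import Pool.Agent.TPC.Defs
import Pool.Agent.POL.Root

/-!
# ARM2, row T2N (helper9): numbers and the two inner sums

* `w2_of` : the root piece of a closed word;
* `root_num`, `final_num` : the numbers of ExCs for a closed word;
* **`reroot`** : the sum over the rotations of a closed word (cuts of one bridge).
-/

set_option autoImplicit false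

namespace HexObs

namespace ARM

open Finset TS SDN SIM NTA TIP

open TIP.Nf (cz mem_cz nc_cz rank_lt rank_sum card_rank cz_split in_mid in_app in_mono Dt NeW)

open scoped ENNReal

open BM (Lb gf_Lb)

namespace T2

lemma twoG_ne {η : ℝ} {E b : ℕ} (hb : b ≠ 0) {M : List Bool} (h : M ∈ TwoG η E b) : M ≠ [] := by
  obtain ⟨S, hS, R, T, hT, rfl⟩ := h
  obtain ⟨N, Z3, rfl, -, -, -, h3, -, -⟩ := (mem_GS hb).1 hS
  intro h0
  have h1 := (List.append_eq_nil_iff.1 h0).1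
  have h2 := (List.append_eq_nil_iff.1 h1).2
  rw [h2] at h3
  have h4 : hgt ([] : List Bool) = 0 := by
    have := hgt_app nil_BU nil_BU
    rw [List.append_nil] at this
    omega
  rw [h4] at h3
  have : 1 ≤ 2 ^ (b + 1) := Nat.one_le_two_pow
  omega

/-- **the root piece of a closed word** -/
lemma w2_of {η : ℝ} {E b J n : ℕ} {Y2 M Y1 : List Bool} {β : Bool} (hb : b ≠ 0) (hM : M ≠ []) (h2 : Y2 ∈ En η E b)
    (h1 : Y1 ∈ St η E b) (i2 : In (2 ^ (b + J)) Y2) (i1 : In (2 ^ (b + J)) Y1)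
    (hc : M ++ ((Y1 ++ [β]) ++ Y2) ∈ POL.Cy (n + 1)) : (Y1 ++ [β]) ++ Y2 ∈ W2E η E b (J + 2) := by
  obtain ⟨R2, T, hT, rfl⟩ := h2
  obtain ⟨S, hS, R1, rfl⟩ := h1
  refine ⟨POL.cy_take (POL.cy_rot hc) hM, ?_, S, hS, R1 ++ ([β] ++ R2), T, hT, ?_⟩
  · have h3 := in_app2 (in_app2 i1 (in_letter (β := β))) i2
    refine in_mono h3 ?_
    have e : 2 ^ (b + (J + 2)) = 4 * 2 ^ (b + J) := by rw [← add_assoc, pow_add]; ring
    have e2 : 2 ^ 1 ≤ 2 ^ (b + J) := Nat.pow_le_pow_right (by norm_num) (by omega)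
    rw [e]
    omega
  · simp only [List.append_assoc]

/-! ### numbers -/

lemma root_num {b i n a : ℕ} {g : ℝ} (hg : 0 ≤ g) (hbi : b ≤ i) :
    ENNReal.ofReal xc⁻¹ * ((n + 1 - a + 1 : ℕ) : ℝ≥0∞) *
      ENNReal.ofReal (g * (Ub b / (4 ^ b * ml b)) / (1 + ((n + 1 - a : ℕ) : ℝ) / ml b) ^ 5) ≤
      ENNReal.ofReal (xc⁻¹ * (g * (Ub b / 4 ^ b))) * ENNReal.ofReal (wt n a i) := by
  have hxc := xc_pos
  have hU := Ub_pos b
  have hm := ml_pos b
  have hmi := ml_pos i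
  have hm1 := one_le_ml b
  have hml : ml b ≤ ml i := ml_le hbi
  obtain ⟨y, hy⟩ : ∃ y : ℕ, y = n + 1 - a := ⟨_, rfl⟩
  obtain ⟨x, hx⟩ : ∃ x : ℕ, x = n - a := ⟨_, rfl⟩
  have hxy : (x : ℝ) ≤ y := by exact_mod_cast (show x ≤ y by omega)
  have hy0 : (0 : ℝ) ≤ y := Nat.cast_nonneg y
  have hx0 : (0 : ℝ) ≤ x := Nat.cast_nonneg x
  have hwt : wt n a i = ((1 + (x : ℝ) / ml i) ^ 4)⁻¹ := by
    unfold wt
    rw [← hx, Real.rpow_neg (by positivity)]
    norm_cast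
  rw [← hy, hwt, ← ENNReal.ofReal_natCast, ← ENNReal.ofReal_mul (by positivity), ← ENNReal.ofReal_mul (by positivity),
    ← ENNReal.ofReal_mul (by positivity)]
  refine ENNReal.ofReal_le_ofReal ?_
  push_cast
  have h1 : (y : ℝ) + 1 ≤ ml b * (1 + (y : ℝ) / ml b) := by
    rw [mul_add, mul_one, mul_div_cancel₀ _ hm.ne']
    linarith
  have h2 : (1 + (x : ℝ) / ml i) ^ 4 ≤ (1 + (y : ℝ) / ml b) ^ 4 := by
    refine pow_le_pow_left₀ (by positivity) ?_ 4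
    have : (x : ℝ) / ml i ≤ (y : ℝ) / ml b := div_le_div₀ hy0 hxy hm hml
    linarith
  calc xc⁻¹ * ((y : ℝ) + 1) * (g * (Ub b / (4 ^ b * ml b)) / (1 + (y : ℝ) / ml b) ^ 5)
      ≤ xc⁻¹ * (ml b * (1 + (y : ℝ) / ml b)) * (g * (Ub b / (4 ^ b * ml b)) / (1 + (y : ℝ) / ml b) ^ 5) := by gcongr
    _ = xc⁻¹ * (g * (Ub b / 4 ^ b)) * ((1 + (y : ℝ) / ml b) ^ 4)⁻¹ := by
        have h3 : (0 : ℝ) < 1 + (y : ℝ) / ml b := by positivity
        field_simp
    _ ≤ xc⁻¹ * (g * (Ub b / 4 ^ b)) * ((1 + (x : ℝ) / ml i) ^ 4)⁻¹ := by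
        refine mul_le_mul_of_nonneg_left ?_ (by positivity)
        exact inv_anti₀ (by positivity) h2

lemma ml_rpow (b : ℕ) : (ml b) ^ (3 / 2 : ℝ) = 4 ^ b := by
  unfold ml
  rw [← Real.rpow_mul (by norm_num), show (4 / 3 : ℝ) * (b : ℝ) * (3 / 2) = 2 * (b : ℝ) by ring,
    Real.rpow_mul (by norm_num), Real.rpow_natCast]
  norm_num

lemma pr_le {n b : ℕ} (hn : 1 ≤ n) : pr n b ≤ (2 : ℝ) ^ ((43 / 24 : ℝ) * (b : ℝ)) * 4 ^ b * (n : ℝ) ^ (-(3 / 2) : ℝ) := by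
  have hn0 : (0 : ℝ) < n := by exact_mod_cast hn
  have hm := ml_pos b
  unfold pr
  rw [mul_assoc]
  refine mul_le_mul_of_nonneg_left ?_ (by positivity)
  calc (ml b / max (n : ℝ) (ml b)) ^ (3 / 2 : ℝ) ≤ (ml b / n) ^ (3 / 2 : ℝ) := by
        refine Real.rpow_le_rpow (by positivity) ?_ (by norm_num)
        exact div_le_div_of_nonneg_left hm.le hn0 (le_max_left _ _)
    _ = 4 ^ b * (n : ℝ) ^ (-(3 / 2) : ℝ) := by
        rw [Real.div_rpow hm.le hn0.le, ml_rpow, div_eq_mul_inv, ← Real.rpow_neg hn0.le]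

lemma final_num (hX : TPC.XLow) {κ : ℝ} (hκ : 0 < κ) : ∃ K : ℝ, 0 < K ∧ ∀ (G : ℝ≥0∞) (b J n h : ℕ) (A g : ℝ), 1 ≤ n →
    0 ≤ A → 0 ≤ g → κ * Ub b ≤ h →
    G * (ENNReal.ofReal ((h : ℝ) * h) * Xb b ^ 2) ≤ ENNReal.ofReal (A * pr n (b + J)) * ENNReal.ofReal (g * (Ub b / 4 ^ b)) →
    G ≤ ENNReal.ofReal (K * A * g * 16 ^ J * (n : ℝ) ^ (-(3 / 2) : ℝ)) := by
  obtain ⟨c, hc, hX⟩ := hX
  obtain ⟨c', C', hc', -, hU2⟩ := JNT.JoT.Ub_two
  refine ⟨1 / (κ ^ 2 * c' * c), by positivity, fun G b J n h A g hn hA hg hh hG => ?_⟩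
  have hU := Ub_pos b
  have hn0 : (0 : ℝ) < n := by exact_mod_cast hn
  have hh0 : 0 < (h : ℝ) := lt_of_lt_of_le (by positivity) hh
  have hx0 : (0 : ℝ) < (2 : ℝ) ^ (25 / 24 * (b : ℝ)) := by positivity
  have h1 : G * ENNReal.ofReal ((h : ℝ) * h * (c * (2 : ℝ) ^ (25 / 24 * (b : ℝ)))) ≤
      ENNReal.ofReal (A * pr n (b + J) * (g * (Ub b / 4 ^ b))) * 1 := by
    rw [mul_one, ENNReal.ofReal_mul (mul_nonneg hA (pr_nonneg _ _)), ENNReal.ofReal_mul (by positivity)]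
    refine le_trans ?_ hG
    exact mul_le_mul' le_rfl (mul_le_mul' le_rfl (hX b))
  have h2 := div_of_mul (by positivity) (mul_nonneg (mul_nonneg hA (pr_nonneg _ _)) (by positivity)) h1
  rw [mul_one] at h2
  refine h2.trans (ENNReal.ofReal_le_ofReal ?_)
  rw [div_le_iff₀ (by positivity)]
  have h3 := pr_up16 n b J
  have h4 := pr_le (b := b) hn
  have h5 : pr n (b + J) ≤ 16 ^ J * ((2 : ℝ) ^ ((43 / 24 : ℝ) * (b : ℝ)) * 4 ^ b * (n : ℝ) ^ (-(3 / 2) : ℝ)) :=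
    h3.trans (mul_le_mul_of_nonneg_left h4 (by positivity))
  have h6 := (hU2 b).1
  have e1 : (2 : ℝ) ^ ((43 / 24 : ℝ) * (b : ℝ)) = (2 : ℝ) ^ (3 / 4 * (b : ℝ)) * (2 : ℝ) ^ (25 / 24 * (b : ℝ)) := by
    rw [← Real.rpow_add (by norm_num)]
    congr 1
    ring
  obtain ⟨X, hXd⟩ : ∃ X : ℝ, X = (2 : ℝ) ^ (25 / 24 * (b : ℝ)) := ⟨_, rfl⟩
  obtain ⟨V, hV⟩ : ∃ V : ℝ, V = (2 : ℝ) ^ (3 / 4 * (b : ℝ)) := ⟨_, rfl⟩
  obtain ⟨ν, hν⟩ : ∃ ν : ℝ, ν = (n : ℝ) ^ (-(3 / 2) : ℝ) := ⟨_, rfl⟩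
  have hν0 : 0 < ν := by rw [hν]; positivity
  rw [← hXd] at hx0 e1 ⊢
  rw [← hV] at h6 e1
  have hV0 : 0 < V := by rw [hV]; positivity
  rw [e1, ← hν] at h5
  rw [← hν]
  calc A * pr n (b + J) * (g * (Ub b / 4 ^ b)) ≤ A * (16 ^ J * (V * X * 4 ^ b * ν)) * (g * (Ub b / 4 ^ b)) := by gcongr
    _ = A * g * 16 ^ J * ν * X * (Ub b * V) := by
        field_simp
    _ ≤ A * g * 16 ^ J * ν * X * (Ub b * (Ub b / c')) := by
        have : V ≤ Ub b / c' := by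
          rw [le_div_iff₀ hc']
          linarith
        gcongr
    _ = 1 / (κ ^ 2 * c' * c) * A * g * 16 ^ J * ν * ((κ * Ub b) * (κ * Ub b) * (c * X)) := by
        field_simp
    _ ≤ 1 / (κ ^ 2 * c' * c) * A * g * 16 ^ J * ν * ((h : ℝ) * h * (c * X)) := by gcongr

/-! ### the rotations -/

/-- the number of the beginnings in Lb b with a rest in WB -/
noncomputable def cnt (WB : Set (List Bool)) (b : ℕ) (s : List Bool) : ℝ≥0∞ := by
  classical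
  exact ∑ k ∈ range (s.length + 1), if s.take k ∈ Lb b ∧ s.drop k ∈ WB then 1 else 0

open Classical in
lemma cnt_le (WB : Set (List Bool)) (b : ℕ) (s : List Bool) :
    cnt WB b s ≤ ∑' P : List Bool, ∑' Q : List Bool, (if (P ∈ Lb b ∧ Q ∈ WB) ∧ P ++ Q = s then 1 else 0) := by
  obtain ⟨F, hF⟩ : ∃ F : List Bool × List Bool → ℝ≥0∞, F = fun x =>
      if (x.1 ∈ Lb b ∧ x.2 ∈ WB) ∧ x.1 ++ x.2 = s then 1 else 0 := ⟨_, rfl⟩
  have hinj : Set.InjOn (fun k : ℕ => (s.take k, s.drop k)) (range (s.length + 1) : Set ℕ) := by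
    intro k hk k' hk' he
    rw [mem_coe, mem_range] at hk hk'
    have h1 := congrArg (fun x : List Bool × List Bool => x.1.length) he
    simp only [List.length_take] at h1
    omega
  calc cnt WB b s = ∑ k ∈ range (s.length + 1), F (s.take k, s.drop k) := by
        unfold cnt
        refine sum_congr rfl fun k _ => ?_
        rw [hF]
        simp only [List.take_append_drop, and_true]
    _ = ∑ x ∈ (range (s.length + 1)).image (fun k : ℕ => (s.take k, s.drop k)), F x := (sum_image hinj).symm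
    _ ≤ ∑' x, F x := ENNReal.sum_le_tsum _
    _ = _ := by
        rw [ENNReal.tsum_prod', hF]

open Classical in
/-- **the beginnings of the closed words** -/
lemma cnt_sum (WB : Set (List Bool)) (b N : ℕ) :
    ∑' s : POL.Cy N, wE s.1 * cnt WB b s.1 ≤ ∑' P : Lb b, wE (P : List Bool) * gf {Q | Q ∈ WB ∧ (P : List Bool) ++ Q ∈ POL.Cy N} := by
  have hg : ∀ P : List Bool, gf {Q | Q ∈ WB ∧ P ++ Q ∈ POL.Cy N} =
      ∑' Q : List Bool, (if Q ∈ WB ∧ P ++ Q ∈ POL.Cy N then wE Q else 0) := by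
    intro P
    unfold gf
    rw [_root_.tsum_subtype _ (fun t => wE t)]
    exact tsum_congr fun t => by rw [Set.indicator_apply]; rfl
  have h1 : ∑' s : POL.Cy N, wE s.1 * cnt WB b s.1 ≤ ∑' s : POL.Cy N, ∑' P : List Bool, ∑' Q : List Bool,
      wE s.1 * (if (P ∈ Lb b ∧ Q ∈ WB) ∧ P ++ Q = s.1 then 1 else 0) := by
    refine ENNReal.tsum_le_tsum fun s => ?_
    refine (mul_le_mul' le_rfl (cnt_le WB b s.1)).trans (le_of_eq ?_)
    rw [← ENNReal.tsum_mul_left]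
    exact tsum_congr fun P => by rw [ENNReal.tsum_mul_left]
  refine h1.trans ?_
  rw [ENNReal.tsum_comm, _root_.tsum_subtype (Lb b) (fun P => wE P * gf {Q | Q ∈ WB ∧ P ++ Q ∈ POL.Cy N})]
  refine ENNReal.tsum_le_tsum fun P => ?_
  by_cases hP : P ∈ Lb b
  · rw [Set.indicator_of_mem hP, hg, ← ENNReal.tsum_mul_left, ENNReal.tsum_comm]
    refine ENNReal.tsum_le_tsum fun Q => ?_
    by_cases hQ : Q ∈ WB ∧ P ++ Q ∈ POL.Cy N
    · rw [if_pos hQ, tsum_eq_single (⟨P ++ Q, hQ.2⟩ : POL.Cy N)]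
      · rw [if_pos ⟨⟨hP, hQ.1⟩, rfl⟩, mul_one, wE_append]
      · intro s hs
        rw [if_neg, mul_zero]
        rintro ⟨-, h3⟩
        exact hs (Subtype.ext h3.symm)
    · refine le_of_eq_of_le (ENNReal.tsum_eq_zero.2 fun s => ?_) zero_le
      rw [if_neg, mul_zero]
      rintro ⟨h2, h3⟩
      exact hQ ⟨h2.2, by rw [h3]; exact s.2⟩
  · refine le_of_eq_of_le (ENNReal.tsum_eq_zero.2 fun s => ENNReal.tsum_eq_zero.2 fun Q => ?_) zero_le
    rw [if_neg, mul_zero]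
    rintro ⟨h2, -⟩
    exact hP h2.1

/-- **re-rooting**: all the closed words of G have at least q cuts in some rotation -/
lemma reroot {WB G : Set (List Bool)} {b n : ℕ} {q : ℝ≥0∞}
    (hG : ∀ L ∈ G, ∃ β : Bool, L ++ [β] ∈ POL.Cy (n + 1) ∧ q ≤ ∑ a ∈ range (n + 1), cnt WB b ((L ++ [β]).rotate a)) :
    gf G * q ≤ ENNReal.ofReal xc⁻¹ * (((n + 1 : ℕ) : ℝ≥0∞) *
      ∑' P : Lb b, wE (P : List Bool) * gf {Q | Q ∈ WB ∧ (P : List Bool) ++ Q ∈ POL.Cy (n + 1)}) := by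
  classical
  have hxc := xc_pos
  have hone : ENNReal.ofReal xc⁻¹ * ENNReal.ofReal xc = 1 := by
    rw [← ENNReal.ofReal_mul (by positivity), inv_mul_cancel₀ hxc.ne', ENNReal.ofReal_one]
  choose! β h1 h2 using hG
  obtain ⟨g, hg⟩ : ∃ g : G → POL.Cy (n + 1), g = fun L => ⟨(L : List Bool) ++ [β L], h1 _ L.2⟩ := ⟨_, rfl⟩
  have hinj : Function.Injective g := by
    rintro ⟨L, hL⟩ ⟨L', hL'⟩ he
    rw [hg] at he
    simp only [Subtype.mk.injEq] at he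
    have h3 := List.append_inj_left' he rfl
    exact Subtype.ext h3
  calc gf G * q = ∑' L : G, wE (L : List Bool) * q := by
        unfold gf
        rw [ENNReal.tsum_mul_right]
    _ ≤ ∑' L : G, ENNReal.ofReal xc⁻¹ * (fun t : POL.Cy (n + 1) => wE t.1 * ∑ a ∈ range (n + 1), cnt WB b (t.1.rotate a)) (g L) := by
        refine ENNReal.tsum_le_tsum fun L => ?_
        rw [hg]
        simp only
        rw [wE_append, wE_letter]
        calc wE (L : List Bool) * q = (ENNReal.ofReal xc⁻¹ * ENNReal.ofReal xc) * (wE (L : List Bool) * q) := by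
              rw [hone, one_mul]
          _ ≤ (ENNReal.ofReal xc⁻¹ * ENNReal.ofReal xc) * (wE (L : List Bool) *
              ∑ a ∈ range (n + 1), cnt WB b (((L : List Bool) ++ [β L]).rotate a)) :=
              mul_le_mul' le_rfl (mul_le_mul' le_rfl (h2 _ L.2))
          _ = _ := by ring
    _ = ENNReal.ofReal xc⁻¹ * ∑' L : G, (fun t : POL.Cy (n + 1) => wE t.1 * ∑ a ∈ range (n + 1), cnt WB b (t.1.rotate a)) (g L) :=
        ENNReal.tsum_mul_left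
    _ ≤ ENNReal.ofReal xc⁻¹ * ∑' t : POL.Cy (n + 1), wE t.1 * ∑ a ∈ range (n + 1), cnt WB b (t.1.rotate a) :=
        mul_le_mul' le_rfl (ENNReal.tsum_comp_le_tsum_of_injective hinj
          (fun t : POL.Cy (n + 1) => wE t.1 * ∑ a ∈ range (n + 1), cnt WB b (t.1.rotate a)))
    _ = ENNReal.ofReal xc⁻¹ * ∑ a ∈ range (n + 1), ∑' t : POL.Cy (n + 1), wE t.1 * cnt WB b (t.1.rotate a) := by
        simp only [Finset.mul_sum]
        rw [← Finset.mul_sum, Summable.tsum_finsetSum fun _ _ => ENNReal.summable]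
    _ ≤ ENNReal.ofReal xc⁻¹ * ∑ a ∈ range (n + 1),
          ∑' P : Lb b, wE (P : List Bool) * gf {Q | Q ∈ WB ∧ (P : List Bool) ++ Q ∈ POL.Cy (n + 1)} := by
        refine mul_le_mul' le_rfl (Finset.sum_le_sum fun a _ => ?_)
        exact (POL.shift_le a (cnt WB b)).trans (cnt_sum WB b (n + 1))
    _ = _ := by
        rw [Finset.sum_const, Finset.card_range, nsmul_eq_mul]

end T2

end ARM

end HexObs
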