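import Pool.Agent.ARM.Rv
import Pool.Agent.SLW.BotFin

/-!
ARM: **the sandwich** (helper37): (T1) from the rows BaseSt, ConfSt, NF, EsSt, NtSt, GoodSt.
-/

set_option autoImplicit false

namespace HexObs

namespace ARM

open Finset TS SDN SIM NTA TIP

open scoped ENNReal

lemma HF_mono {D : ℝ} {n n' j i : ℕ} (hn : n' ≤ n) (hj : j ≤ i) (h : HF D n j) : HF D n' i :=
  fun m k hm hk => h m k (hm.trans hn) (hj.trans hk)

/-- geometric series with the ratio 2 ^ (-1/6) -/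
lemma geo6 (A : ℝ) (hA : 0 ≤ A) : ∑' s : ℕ, ENNReal.ofReal (A * (2 : ℝ) ^ (-(1 / 6 : ℝ) * (s : ℝ))) ≤ ENNReal.ofReal (10 * A) := by
  obtain ⟨r, hr⟩ : ∃ r : ℝ, r = (2 : ℝ) ^ (-(1 / 6 : ℝ)) := ⟨_, rfl⟩
  have hr0 : 0 < r := by rw [hr]; positivity
  have hr6 : r ^ 6 = 1 / 2 := by
    rw [hr, ← Real.rpow_natCast, ← Real.rpow_mul (by norm_num)]
    norm_num
  have hr9 : r ≤ 9 / 10 := by
    by_contra hc
    have h1 : (9 / 10 : ℝ) < r := not_le.1 hc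
    have h2 : (9 / 10 : ℝ) ^ 6 < r ^ 6 := pow_lt_pow_left₀ h1 (by norm_num) (by norm_num)
    rw [hr6] at h2
    norm_num at h2
  have e : ∀ s : ℕ, A * (2 : ℝ) ^ (-(1 / 6 : ℝ) * (s : ℝ)) = A * r ^ s := by
    intro s
    rw [Real.rpow_mul (by norm_num), ← hr, Real.rpow_natCast]
  have hs : Summable fun s : ℕ => A * r ^ s := (summable_geometric_of_lt_one hr0.le (by linarith)).mul_left A
  have h1 : ∑' s : ℕ, ENNReal.ofReal (A * r ^ s) = ENNReal.ofReal (∑' s : ℕ, A * r ^ s) :=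
    (ENNReal.ofReal_tsum_of_nonneg (fun s => by positivity) hs).symm
  simp only [e]
  rw [h1, tsum_mul_left, tsum_geometric_of_lt_one hr0.le (by linarith)]
  apply ENNReal.ofReal_le_ofReal
  have h2 : (1 - r)⁻¹ ≤ 10 := by
    rw [inv_le_comm₀ (by linarith) (by norm_num)]
    linarith
  nlinarith

/-- the extra strands from all levels at least i0 -/
theorem es_sum (hS : EsSt) : ∃ (C : ℝ) (b0 : ℕ), 0 < C ∧ ∀ (D : ℝ) (n j l i0 : ℕ), 0 ≤ D → HF D n j → b0 ≤ j → j ≤ l →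
    l ≤ i0 → gf {L | L ∈ Fp n j ∧ ∃ i, i0 ≤ i ∧ L ∈ ESe l i} ≤
      ENNReal.ofReal (C * (2 : ℝ) ^ (2 / 3 * ((l : ℝ) - j) - 1 / 6 * ((i0 : ℝ) - j)) * D * pr n j) := by
  obtain ⟨C, b0, hC, h⟩ := hS (1 / 24) (by norm_num)
  refine ⟨10 * C, b0, by linarith, fun D n j l i0 hD hH hj hjl hli => ?_⟩
  have hp := pr_pos n j
  have hsub : {L | L ∈ Fp n j ∧ ∃ i, i0 ≤ i ∧ L ∈ ESe l i} ⊆ ⋃ s : ℕ, {L | L ∈ Fp n j ∧ L ∈ ESe l (i0 + s)} := by
    rintro L ⟨h1, i, h2, h3⟩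
    refine Set.mem_iUnion.2 ⟨i - i0, h1, ?_⟩
    rwa [show i0 + (i - i0) = i by omega]
  obtain ⟨A, hA⟩ : ∃ A : ℝ, A = C * D * (2 : ℝ) ^ (2 / 3 * ((l : ℝ) - j) - 1 / 6 * ((i0 : ℝ) - j)) * pr n j := ⟨_, rfl⟩
  have hA0 : 0 ≤ A := by rw [hA]; positivity
  refine (gf_mono hsub).trans ((Crw.gf_iUnion_le _).trans ?_)
  have hb : ∀ s : ℕ, gf {L | L ∈ Fp n j ∧ L ∈ ESe l (i0 + s)} ≤ ENNReal.ofReal (A * (2 : ℝ) ^ (-(1 / 6 : ℝ) * (s : ℝ))) := by
    intro s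
    refine (h D n j l (i0 + s) hD hH hj hjl (by omega)).trans (ENNReal.ofReal_le_ofReal (le_of_eq ?_))
    have e : (11 / 24 + 1 / 24 : ℝ) * (((i0 + s : ℕ) : ℝ) - j) - 2 / 3 * (((i0 + s : ℕ) : ℝ) - l) =
        (2 / 3 * ((l : ℝ) - j) - 1 / 6 * ((i0 : ℝ) - j)) + (-(1 / 6 : ℝ) * (s : ℝ)) := by
      push_cast
      ring
    rw [e, Real.rpow_add (by norm_num), hA]
    ring
  refine (ENNReal.tsum_le_tsum hb).trans ((geo6 A hA0).trans (ENNReal.ofReal_le_ofReal (le_of_eq ?_)))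
  rw [hA]
  ring

/-- a large exponent -/
lemma ex_exp (K : ℝ) {ε : ℝ} (hε : 0 < ε) : ∃ u0 : ℕ, ∀ u : ℕ, u0 ≤ u → K * (2 : ℝ) ^ (-(1 / 6 : ℝ) * (u : ℝ)) ≤ ε := by
  have h1 : Filter.Tendsto (fun u : ℕ => K * (((2 : ℝ) ^ (-(1 / 6 : ℝ))) ^ u)) Filter.atTop (nhds (K * 0)) := by
    apply Filter.Tendsto.const_mul
    apply tendsto_pow_atTop_nhds_zero_of_lt_one (by positivity)
    apply Real.rpow_lt_one_of_one_lt_of_neg (by norm_num) (by norm_num)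
  rw [mul_zero] at h1
  obtain ⟨u0, hu0⟩ := Filter.eventually_atTop.1 (h1.eventually (gt_mem_nhds hε))
  refine ⟨u0, fun u hu => ?_⟩
  have := hu0 u hu
  rw [Real.rpow_mul (by norm_num), Real.rpow_natCast]
  exact this.le

/-- **one step of the sandwich** -/
theorem step (hC : ConfSt) (hB : BaseSt) (hN : NF) (hS : EsSt) (hQ : NtSt) (hG : GoodSt) :
    ∃ (C1 : ℝ) (b0 : ℕ), 0 < C1 ∧ ∀ (D : ℝ) (n j : ℕ), 0 ≤ D → HF D n j → b0 ≤ j →
      gf (F n j) ≤ ENNReal.ofReal ((C1 + D / 2) * pr n j) := by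
  obtain ⟨η, κ, a, m, b1, hη, hκ, -, hN⟩ := hN (1 / 72) (by norm_num)
  obtain ⟨k, c0, hG⟩ := hG η κ a m hη hκ
  obtain ⟨C2, b2, hC2, hS⟩ := es_sum hS
  -- the choice of c
  obtain ⟨c, hc0, hcm, hcε⟩ : ∃ c : ℕ, c0 ≤ c ∧ m + 5 ≤ c ∧
      C2 * (2 : ℝ) ^ (2 / 3 * ((m : ℝ) + 4) - 1 / 6 * ((c : ℝ) - 1)) ≤ 1 / 72 := by
    obtain ⟨u0, hu0⟩ := ex_exp (C2 * (2 : ℝ) ^ (2 / 3 * ((m : ℝ) + 4) + 1 / 6)) (ε := 1 / 72) (by norm_num)
    obtain ⟨c, hcc⟩ : ∃ c : ℕ, c = max u0 (max c0 (m + 5)) := ⟨_, rfl⟩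
    have w1 : u0 ≤ c := by omega
    refine ⟨c, by omega, by omega, ?_⟩
    refine le_trans (le_of_eq ?_) (hu0 c w1)
    rw [mul_assoc, ← Real.rpow_add (by norm_num)]
    congr 2
    ring
  -- the choice of u
  obtain ⟨u, hcu, huε⟩ : ∃ u : ℕ, c ≤ u ∧ C2 * (2 : ℝ) ^ (2 / 3 * (c : ℝ) - 1 / 6 * (u : ℝ)) ≤ 1 / 72 := by
    obtain ⟨u0, hu0⟩ := ex_exp (C2 * (2 : ℝ) ^ (2 / 3 * (c : ℝ))) (ε := 1 / 72) (by norm_num)
    obtain ⟨u, hcc⟩ : ∃ u : ℕ, u = max u0 c := ⟨_, rfl⟩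
    have w1 : u0 ≤ u := by omega
    refine ⟨u, by omega, ?_⟩
    refine le_trans (le_of_eq ?_) (hu0 u w1)
    rw [mul_assoc, ← Real.rpow_add (by norm_num)]
    congr 2
    ring
  obtain ⟨e, b3, hke, -, hQ⟩ := hQ u c k (1 / 72) hcu (by norm_num)
  obtain ⟨C4, b4, hC4, hG⟩ := hG c u e hc0 hcu hke
  obtain ⟨C5, hC5, hC⟩ := hC
  obtain ⟨bb, hbb⟩ : ∃ bb : ℕ, bb = max (max b1 b2) (max b3 b4) + 1 := ⟨_, rfl⟩
  obtain ⟨C6, hC6, hB⟩ := hB ((2 : ℝ) ^ (bb : ℕ)) (by positivity)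
  refine ⟨C4 + C5 * (2 : ℝ) ^ ((91 / 24 : ℝ) * (u : ℝ)) + C6, bb, by positivity, fun D n j hD hH hj => ?_⟩
  have hp := pr_pos n j
  have hmj := ml_pos j
  have l1 : b1 ≤ max (max b1 b2) (max b3 b4) := (le_max_left _ _).trans (le_max_left _ _)
  have l2 : b2 ≤ max (max b1 b2) (max b3 b4) := (le_max_right _ _).trans (le_max_left _ _)
  have l3 : b3 ≤ max (max b1 b2) (max b3 b4) := (le_max_left _ _).trans (le_max_right _ _)
  have l4 : b4 ≤ max (max b1 b2) (max b3 b4) := (le_max_right _ _).trans (le_max_right _ _)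
  rcases le_total ((n : ℝ)) ((2 : ℝ) ^ bb * ml j) with hn | hn
  · refine (hB n j hn).trans (ENNReal.ofReal_le_ofReal ?_)
    apply mul_le_mul_of_nonneg_right _ hp.le
    have : 0 ≤ C5 * (2 : ℝ) ^ ((91 / 24 : ℝ) * (u : ℝ)) := by positivity
    linarith
  -- the long words
  have hlow : ∀ b, b ≤ max (max b1 b2) (max b3 b4) → (2 : ℝ) ^ b * ml j ≤ ((n - 1 : ℕ) : ℝ) := by
    intro b hb
    have h1 : (2 : ℝ) ^ (b + 1) * ml j ≤ n := by
      refine le_trans ?_ hn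
      apply mul_le_mul_of_nonneg_right _ hmj.le
      exact pow_le_pow_right₀ (by norm_num) (by omega)
    have h2 : (1 : ℝ) ≤ (2 : ℝ) ^ b * ml j := by
      have h3 := one_le_ml j
      have h4 : (1 : ℝ) ≤ (2 : ℝ) ^ b := one_le_pow₀ (by norm_num)
      nlinarith
    have h3 : (n : ℝ) ≤ ((n - 1 : ℕ) : ℝ) + 1 := by exact_mod_cast (by omega : n ≤ n - 1 + 1)
    rw [pow_succ] at h1
    nlinarith
  have hlow' : ∀ b, b ≤ max (max b1 b2) (max b3 b4) → (2 : ℝ) ^ b * ml j ≤ (n : ℝ) := fun b hb =>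
    (hlow b hb).trans (by exact_mod_cast Nat.sub_le n 1)
  have hn1 : 1 ≤ n := by
    have h1 := hlow' 0 (Nat.zero_le _)
    rw [pow_zero, one_mul] at h1
    have h2 := one_le_ml j
    exact_mod_cast h2.trans h1
  -- the bad classes
  obtain ⟨X1, hX1⟩ : ∃ X : Set (List Bool), X = {L | gc j a m η L < κ * Ub j} := ⟨_, rfl⟩
  obtain ⟨X2, hX2⟩ : ∃ X : Set (List Bool), X = {L | ∃ i, j + c - 1 ≤ i ∧ L ∈ ESe (j + m + 4) i} := ⟨_, rfl⟩
  obtain ⟨X3, hX3⟩ : ∃ X : Set (List Bool), X = {L | ∃ i, j + u ≤ i ∧ L ∈ ESe (j + c) i} := ⟨_, rfl⟩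
  obtain ⟨X4, hX4⟩ : ∃ X : Set (List Bool), X = NTs (j + c) (j + u) (2 ^ (j - e)) (2 ^ (j - k)) := ⟨_, rfl⟩
  have hbad : ∀ n' : ℕ, n' ≤ n → (∀ b, b ≤ max (max b1 b2) (max b3 b4) → (2 : ℝ) ^ b * ml j ≤ (n' : ℝ)) →
      gf {L | L ∈ Fp n' j ∧ L ∈ ((X1 ∪ X2) ∪ (X3 ∪ X4))} ≤ ENNReal.ofReal (1 / 18 * D * pr n' j) := by
    intro n' hn' hlw
    have hH' : HF D n' j := HF_mono hn' le_rfl hH
    have hp' := pr_pos n' j
    have q1 : gf {L | L ∈ Fp n' j ∧ L ∈ X1} ≤ ENNReal.ofReal (1 / 72 * D * pr n' j) := by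
      rw [hX1]
      exact hN D n' j hD hH' (by omega) (hlw b1 l1)
    have q2 : gf {L | L ∈ Fp n' j ∧ L ∈ X2} ≤ ENNReal.ofReal (1 / 72 * D * pr n' j) := by
      rw [hX2]
      refine (hS D n' j (j + m + 4) (j + c - 1) hD hH' (by omega) (by omega) (by omega)).trans
        (ENNReal.ofReal_le_ofReal ?_)
      have e1 : (((j + m + 4 : ℕ) : ℝ) - j) = (m : ℝ) + 4 := by push_cast; ring
      have e2 : (((j + c - 1 : ℕ) : ℝ) - j) = (c : ℝ) - 1 := by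
        rw [Nat.cast_sub (by omega)]
        push_cast
        ring
      rw [e1, e2]
      gcongr
    have q3 : gf {L | L ∈ Fp n' j ∧ L ∈ X3} ≤ ENNReal.ofReal (1 / 72 * D * pr n' j) := by
      rw [hX3]
      refine (hS D n' j (j + c) (j + u) hD hH' (by omega) (by omega) (by omega)).trans
        (ENNReal.ofReal_le_ofReal ?_)
      have e1 : (((j + c : ℕ) : ℝ) - j) = (c : ℝ) := by push_cast; ring
      have e2 : (((j + u : ℕ) : ℝ) - j) = (u : ℝ) := by push_cast; ring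
      rw [e1, e2]
      gcongr
    have q4 : gf {L | L ∈ Fp n' j ∧ L ∈ X4} ≤ ENNReal.ofReal (1 / 72 * D * pr n' j) := by
      rw [hX4]
      exact hQ D n' j hD hH' (by omega) (hlw b3 l3)
    have hsub : {L | L ∈ Fp n' j ∧ L ∈ ((X1 ∪ X2) ∪ (X3 ∪ X4))} ⊆
        ({L | L ∈ Fp n' j ∧ L ∈ X1} ∪ {L | L ∈ Fp n' j ∧ L ∈ X2}) ∪ ({L | L ∈ Fp n' j ∧ L ∈ X3} ∪ {L | L ∈ Fp n' j ∧ L ∈ X4}) := by
      rintro L ⟨h1, (h2 | h2) | (h2 | h2)⟩
      · exact Or.inl (Or.inl ⟨h1, h2⟩)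
      · exact Or.inl (Or.inr ⟨h1, h2⟩)
      · exact Or.inr (Or.inl ⟨h1, h2⟩)
      · exact Or.inr (Or.inr ⟨h1, h2⟩)
    refine (gf_mono hsub).trans ((gf_union_le _ _).trans ((add_le_add (gf_union_le _ _) (gf_union_le _ _)).trans
      ((add_le_add (add_le_add q1 q2) (add_le_add q3 q4)).trans (le_of_eq ?_))))
    rw [← ENNReal.ofReal_add (by positivity) (by positivity), ← ENNReal.ofReal_add (by positivity) (by positivity)]
    congr 1
    ring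
  have hb1 := hbad n le_rfl hlow'
  have hb2 := hbad (n - 1) (Nat.sub_le n 1) hlow
  have hb3 : gf {L | L ∈ F n j ∧ rv L ∈ ((X1 ∪ X2) ∪ (X3 ∪ X4))} ≤ ENNReal.ofReal (4 / 9 * D * pr n j) := by
    refine (gf_rv hn1 _).trans ((mul_le_mul_right hb2 2).trans ?_)
    have e2 : (2 : ℝ≥0∞) = ENNReal.ofReal 2 := by norm_num
    rw [e2, ← ENNReal.ofReal_mul (by norm_num)]
    apply ENNReal.ofReal_le_ofReal
    have := pr_pred n j
    nlinarith
  have hconf : gf {L | L ∈ F n j ∧ ∀ s, s ≤ L.length → dz L s ≤ 2 ^ (j + u)} ≤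
      ENNReal.ofReal (C5 * (2 : ℝ) ^ ((91 / 24 : ℝ) * (u : ℝ)) * pr n j) := by
    have hsb : {L | L ∈ F n j ∧ ∀ s, s ≤ L.length → dz L s ≤ 2 ^ (j + u)} ⊆
        {L | L ∈ SA ∧ n ≤ L.length ∧ ∀ s, s ≤ L.length → dz L s ≤ 2 ^ (j + u)} :=
      fun L hL => ⟨(mem_F.1 hL.1).1, (mem_F.1 hL.1).2.1, hL.2⟩
    refine (gf_mono hsb).trans ((hC n (j + u)).trans
      (ENNReal.ofReal_le_ofReal ?_))
    have h1 := pr_up n j u
    have h2 : (2 : ℝ) ^ ((43 / 24 : ℝ) * (((j + u : ℕ) : ℝ))) * (ml (j + u) / max (n : ℝ) (ml (j + u))) ^ (4 : ℕ) ≤ pr n (j + u) := by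
      rw [pr_eq]
      show pw (j + u) * _ ≤ _
      apply mul_le_mul_of_nonneg_left _ (pw_pos _).le
      have h3 : 0 ≤ ml (j + u) / max (n : ℝ) (ml (j + u)) := (div_pos (ml_pos _) (max_pos n _)).le
      have h4 : ml (j + u) / max (n : ℝ) (ml (j + u)) ≤ 1 := by
        rw [div_le_one (max_pos n _)]
        exact le_max_right _ _
      rw [← Real.rpow_natCast]
      rcases h3.eq_or_lt with h5 | h5
      · rw [← h5, Real.zero_rpow (by norm_num), Real.zero_rpow (by norm_num)]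
      · exact Real.rpow_le_rpow_of_exponent_ge h5 h4 (by norm_num)
    calc C5 * ((2 : ℝ) ^ ((43 / 24 : ℝ) * (((j + u : ℕ) : ℝ))) * (ml (j + u) / max (n : ℝ) (ml (j + u))) ^ (4 : ℕ))
        ≤ C5 * pr n (j + u) := by gcongr
      _ ≤ C5 * ((2 : ℝ) ^ ((91 / 24 : ℝ) * (u : ℝ)) * pr n j) := by gcongr
      _ = _ := by ring
  have hgood := hG n j (by omega) (hlow' b4 l4)
  have hcov : F n j ⊆ (GF n j η κ a m c u e k ∪ {L | L ∈ F n j ∧ ∀ s, s ≤ L.length → dz L s ≤ 2 ^ (j + u)}) ∪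
      ({L | L ∈ Fp n j ∧ L ∈ ((X1 ∪ X2) ∪ (X3 ∪ X4))} ∪ {L | L ∈ F n j ∧ rv L ∈ ((X1 ∪ X2) ∪ (X3 ∪ X4))}) := by
    intro L hL
    by_cases h1 : L ∈ ((X1 ∪ X2) ∪ (X3 ∪ X4))
    · exact Or.inr (Or.inl ⟨F_sub_Fp n j hL, h1⟩)
    by_cases h2 : rv L ∈ ((X1 ∪ X2) ∪ (X3 ∪ X4))
    · exact Or.inr (Or.inr ⟨hL, h2⟩)
    by_cases h3 : ∀ s, s ≤ L.length → dz L s ≤ 2 ^ (j + u)
    · exact Or.inl (Or.inr ⟨hL, h3⟩)
    refine Or.inl (Or.inl ⟨hL, ?_, ?_⟩)
    · push Not at h3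
      exact h3
    · intro T hT
      have h4 : T ∉ ((X1 ∪ X2) ∪ (X3 ∪ X4)) := by
        rcases hT with rfl | rfl
        · exact h1
        · exact h2
      rw [hX1, hX2, hX3, hX4] at h4
      simp only [Set.mem_union, Set.mem_ofPred_eq, not_or, not_lt, not_exists, not_and] at h4
      obtain ⟨⟨g1, g2⟩, g3, g4⟩ := h4
      exact ⟨g1, fun i hi => g2 i (by omega), fun i hi => g3 i hi, g4⟩
  refine (gf_mono hcov).trans ((gf_union_le _ _).trans ((add_le_add (gf_union_le _ _) (gf_union_le _ _)).trans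
    ((add_le_add (add_le_add hgood hconf) (add_le_add hb1 hb3)).trans ?_)))
  rw [← ENNReal.ofReal_add (by positivity) (by positivity), ← ENNReal.ofReal_add (by positivity) (by positivity),
    ← ENNReal.ofReal_add (by positivity) (by positivity)]
  apply ENNReal.ofReal_le_ofReal
  have hDp : 0 ≤ D * pr n j := mul_nonneg hD hp.le
  have h6p : 0 ≤ C6 * pr n j := mul_nonneg hC6.le hp.le
  nlinarith

/-- the masses are finite -/
lemma F_fin (n i : ℕ) : gf (F n i) ≠ ⊤ := by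
  obtain ⟨M, hM⟩ := exists_nat_ge ((n : ℝ) + ml i)
  apply SLW.gf_fin_ne_top
  refine (List.finite_length_le Bool M).subset fun L hL => ?_
  have h1 : (L.length : ℝ) ≤ M := ((mem_F.1 hL).2.2.1.le).trans hM
  exact_mod_cast h1

/-- **(T1) from the rows** -/
theorem t1_of (hB : BaseSt) (hC : ConfSt) (hN : NF) (hS : EsSt) (hQ : NtSt) (hG : GoodSt) : T1 := by
  obtain ⟨C1, b0, hC1, hstep⟩ := step hC hB hN hS hQ hG
  obtain ⟨C6, hC6, hB⟩ := hB 1 one_pos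
  -- a priori bounds
  have hap : ∀ N : ℕ, ∃ D : ℝ, 0 ≤ D ∧ HF D N b0 := by
    intro N
    obtain ⟨I, hI⟩ : ∃ I : ℕ, ∀ i, I ≤ i → (N : ℝ) ≤ 1 * ml i := by
      refine ⟨N, fun i hi => ?_⟩
      rw [one_mul]
      have h1 : (N : ℝ) ≤ (2 : ℝ) ^ i := by
        have h2 : i < 2 ^ i := Nat.lt_two_pow_self
        have h3 : N ≤ 2 ^ i := by omega
        exact_mod_cast h3
      refine h1.trans ?_
      unfold ml
      rw [← Real.rpow_natCast]
      apply Real.rpow_le_rpow_of_exponent_le (by norm_num)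
      have : (0 : ℝ) ≤ i := Nat.cast_nonneg i
      linarith
    obtain ⟨S, hS⟩ : ∃ S : ℝ, S = ∑ n ∈ range (N + 1), ∑ i ∈ range I, (gf (F n i)).toReal / pr n i := ⟨_, rfl⟩
    have hS0 : 0 ≤ S := by
      rw [hS]
      exact Finset.sum_nonneg fun n _ => Finset.sum_nonneg fun i _ => div_nonneg ENNReal.toReal_nonneg (pr_pos n i).le
    refine ⟨C6 + S, by linarith, fun n i hn _ => ?_⟩
    have hp := pr_pos n i
    rcases Nat.lt_or_ge i I with hi | hi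
    · have h1 : (gf (F n i)).toReal / pr n i ≤ S := by
        rw [hS]
        refine le_trans ?_ (Finset.single_le_sum (f := fun n => ∑ i ∈ range I, (gf (F n i)).toReal / pr n i)
          (fun n _ => Finset.sum_nonneg fun i _ => div_nonneg ENNReal.toReal_nonneg (pr_pos n i).le)
          (Finset.mem_range.2 (by omega : n < N + 1)))
        exact Finset.single_le_sum (f := fun i => (gf (F n i)).toReal / pr n i)
          (fun i _ => div_nonneg ENNReal.toReal_nonneg (pr_pos n i).le) (Finset.mem_range.2 hi)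
      rw [div_le_iff₀ hp] at h1
      rw [← ENNReal.ofReal_toReal (F_fin n i)]
      apply ENNReal.ofReal_le_ofReal
      nlinarith
    · refine (hB n i ?_).trans (ENNReal.ofReal_le_ofReal ?_)
      · have h1 : (n : ℝ) ≤ N := by exact_mod_cast hn
        exact h1.trans (hI i hi)
      · apply mul_le_mul_of_nonneg_right _ hp.le
        linarith
  -- the bound at the levels b0 and higher
  have hmain : ∀ n i : ℕ, b0 ≤ i → gf (F n i) ≤ ENNReal.ofReal (2 * C1 * pr n i) := by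
    intro n i hi
    obtain ⟨D, hD, hH⟩ := hap n
    have hk : ∀ k : ℕ, HF (2 * C1 + D / 2 ^ k) n b0 := by
      intro k
      induction k with
      | zero =>
        intro n' i' h1 h2
        refine (hH n' i' h1 h2).trans (ENNReal.ofReal_le_ofReal ?_)
        apply mul_le_mul_of_nonneg_right _ (pr_pos _ _).le
        rw [pow_zero, div_one]
        linarith
      | succ k ih =>
        intro n' i' h1 h2
        refine (hstep (2 * C1 + D / 2 ^ k) n' i' (by positivity) (HF_mono h1 h2 ih) h2).trans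
          (ENNReal.ofReal_le_ofReal (le_of_eq ?_))
        congr 1
        rw [pow_succ]
        field_simp
        ring
    have hp := pr_pos n i
    have hlim : Filter.Tendsto (fun k : ℕ => ENNReal.ofReal ((2 * C1 + D / 2 ^ k) * pr n i)) Filter.atTop
        (nhds (ENNReal.ofReal ((2 * C1 + 0) * pr n i))) := by
      apply ENNReal.tendsto_ofReal
      apply Filter.Tendsto.mul_const
      apply Filter.Tendsto.const_add
      have h1 : Filter.Tendsto (fun k : ℕ => D * ((1 / 2 : ℝ) ^ k)) Filter.atTop (nhds (D * 0)) :=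
        (tendsto_pow_atTop_nhds_zero_of_lt_one (by norm_num) (by norm_num)).const_mul D
      rw [mul_zero] at h1
      refine h1.congr fun k => ?_
      rw [one_div, inv_pow, div_eq_mul_inv]
    have h2 := ge_of_tendsto' hlim (fun k => hk k n i le_rfl hi)
    rwa [add_zero] at h2
  refine ⟨2 * C1 * (2 : ℝ) ^ ((91 / 24 : ℝ) * (b0 : ℝ)), by positivity, fun n i => ?_⟩
  rcases le_total b0 i with hi | hi
  · refine (hmain n i hi).trans (ENNReal.ofReal_le_ofReal ?_)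
    have hp := pr_pos n i
    have h1 : (1 : ℝ) ≤ (2 : ℝ) ^ ((91 / 24 : ℝ) * (b0 : ℝ)) := Real.one_le_rpow (by norm_num) (by positivity)
    have h2 : 0 ≤ 2 * C1 * pr n i := by positivity
    nlinarith
  · refine (gf_mono (F_mono hi)).trans ((hmain n b0 le_rfl).trans (ENNReal.ofReal_le_ofReal ?_))
    obtain ⟨s, rfl⟩ : ∃ s, b0 = i + s := ⟨b0 - i, by omega⟩
    have h1 := pr_up n i s
    have hp := pr_pos n i
    have h2 : (2 : ℝ) ^ ((91 / 24 : ℝ) * (s : ℝ)) ≤ (2 : ℝ) ^ ((91 / 24 : ℝ) * ((i + s : ℕ) : ℝ)) := by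
      apply Real.rpow_le_rpow_of_exponent_le (by norm_num)
      push_cast
      have : (0 : ℝ) ≤ i := Nat.cast_nonneg i
      linarith
    calc 2 * C1 * pr n (i + s) ≤ 2 * C1 * ((2 : ℝ) ^ ((91 / 24 : ℝ) * ((i + s : ℕ) : ℝ)) * pr n i) := by
          apply mul_le_mul_of_nonneg_left _ (by positivity)
          exact h1.trans (mul_le_mul_of_nonneg_right h2 hp.le)
      _ = _ := by ring

end ARM

end HexObs
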