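import Pool.Agent.ARM.Num
import Pool.Agent.TIP.M3
import Pool.Agent.TIP.TipFam
import Pool.Agent.TIP.Nar
import Pool.Agent.NTA.HalfT
import Pool.Agent.NTA.LongQ
import Pool.Agent.NTA.TbM
import Pool.Agent.PW.LeafTZ

/-!
# ARM: gluing of short half plane words at a tip with a free ball (helper82)

* `narrowS`: the half plane words without a cut in a box of the size of their strip, with at most `2 ^ s' m_k` letters, have
  a positive fraction of the mass;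
* **`m3S`**: M3 for a class of words; only the gluing bound for words of size `2 ^ (k + s)` with at most `2 ^ s' m_k`
  letters is used.
-/

set_option autoImplicit false

namespace HexObs

namespace ARM

open Finset BAR TS SDN NTW NTA SIM TIP

open scoped ENNReal

namespace BM

/-- the mean length of the bridges of the scale i from above -/
lemma mZ_le : ∃ C : ℝ, 1 ≤ C ∧ ∀ i : ℕ, PW.mZ (2 ^ i) ≤ C * ml i := by
  obtain ⟨C, hC⟩ := PWd.mhi_P
  refine ⟨max C 1, le_max_right _ _, fun i => (hC i).trans ?_⟩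
  exact mul_le_mul_of_nonneg_right (le_max_left _ _) (ml_pos i).le

/-- the mean length of the bridges of the scale i from below -/
lemma le_mZ : ∃ C : ℝ, 1 ≤ C ∧ ∀ i : ℕ, ml i ≤ C * PW.mZ (2 ^ i) := by
  obtain ⟨c, hc, h⟩ := PWd.mlo_P
  refine ⟨max (1 / c) 1, le_max_right _ _, fun i => ?_⟩
  have h1 : ml i ≤ 1 / c * PW.mZ (2 ^ i) := by
    rw [one_div, inv_mul_eq_div, le_div_iff₀ hc, mul_comm]
    exact h i
  exact h1.trans (mul_le_mul_of_nonneg_right (le_max_left _ _) (PW.mZ_pos Nat.one_le_two_pow).le)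

/-- the tail of the lengths of the half plane words -/
lemma ht_M : NTA.HT (fun k => PW.mZ (2 ^ k)) := halfT mlow_M (longQ mlow_M mup_M tb_M)

/-- a cut at the last height: the rest has no cut, in the same box, and is not longer -/
lemma box_NAS {i k n : ℕ} (x : ℝ) (hik : i ≤ k) :
    gf {W | W ∈ SSt (2 ^ i) ∧ W ∈ WL n ∧ (W.length : ℝ) ≤ x} ≤
      ENNReal.ofReal (Ub i) * gf {W | W ∈ BAR.NA (2 ^ k) ∧ BX (2 ^ (n + 2)) W ∧ (W.length : ℝ) ≤ x} := by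
  have h1 : {W | W ∈ SSt (2 ^ i) ∧ W ∈ WL n ∧ (W.length : ℝ) ≤ x} ⊆
      ⋃ r ∈ range (2 ^ i + 1), {w | ∃ c ∈ Brd r, ∃ s ∈ {W | W ∈ BAR.NA (2 ^ k) ∧ BX (2 ^ (n + 2)) W ∧
        (W.length : ℝ) ≤ x}, w = c ++ s} := by
    rintro W ⟨hW, hl, hx⟩
    obtain ⟨r, hr, c, hc, s, hs, rfl⟩ := last_cut hW (2 ^ i)
    rw [Set.mem_iUnion₂]
    refine ⟨r, mem_range.2 (by omega), c, hc, s,
      ⟨⟨SSt_mono (Nat.pow_le_pow_right (by norm_num) hik) hs.1, fun j hj hcut => ?_⟩, ?_, ?_⟩, rfl⟩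
    · by_cases h : j ≤ 2 ^ i - r
      · exact hs.2 j hj h hcut
      · obtain ⟨c', s', hc', hs', rfl⟩ := hcut
        have h2 := Brd_height_le (Brd_append hc hc') (s := s') (by rwa [List.append_assoc])
        omega
    · intro j hj dir
      have h2 := hl.2 c.length (by rw [List.length_append]; omega) dir
      have h3 := hl.2 (c.length + j) (by rw [List.length_append]; omega) dir
      have e := vx_cat (s := c) (t := s) (mem_Brd.1 hc).2.2.1 j
      rw [vx_append (by omega)] at h2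
      have h4 := row_sub e h3 h2
      refine h4.trans ?_
      rw [pow_add]
      have : (1 : ℤ) ≤ 2 ^ n := one_le_pow₀ (by norm_num)
      omega
    · refine le_trans ?_ hx
      rw [List.length_append]
      push_cast
      have : (0 : ℝ) ≤ c.length := Nat.cast_nonneg _
      linarith
  refine (gf_mono h1).trans ((gf_bi_le _ _).trans ?_)
  show _ ≤ ENNReal.ofReal (UU (2 ^ i)) * _
  rw [← sum_BT, sum_mul]
  refine sum_le_sum fun r _ => ?_
  rw [← gf_Brd]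
  refine gf_le_mul fun t ht => ?_
  obtain ⟨c, hc, s, hs, h⟩ := ht
  exact ⟨c, hc, s, hs, h⟩

end BM

open BM

/-- **narrow and short** -/
theorem narrowS : ∃ (s s' : ℕ) (c : ℝ), 0 < c ∧ ∀ k : ℕ, ENNReal.ofReal c * Xb k ≤
    gf {W | W ∈ BAR.NA (2 ^ k) ∧ BX (2 ^ (k + s)) W ∧ (W.length : ℝ) ≤ 2 ^ s' * ml k} := by
  obtain ⟨c, J0, k0, hc, hfar⟩ := TPC.sst_far
  obtain ⟨A, hA, hlen⟩ := ht_M 1
  obtain ⟨Cm, hCm, hmz⟩ := mZ_le
  -- the box
  obtain ⟨J, hJ0, hJ⟩ : ∃ J : ℕ, J0 ≤ J ∧ (2 : ℝ) ^ (-(c * 2 ^ J)) ≤ 1 / 4 := by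
    obtain ⟨n, hn⟩ := exists_nat_ge (2 / c)
    refine ⟨max J0 n, le_max_left _ _, ?_⟩
    have h1 : (n : ℝ) ≤ 2 ^ (max J0 n) := by
      have h2 : n < 2 ^ n := Nat.lt_two_pow_self
      have h3 : (2 : ℕ) ^ n ≤ 2 ^ (max J0 n) := Nat.pow_le_pow_right (by norm_num) (le_max_right _ _)
      exact_mod_cast (by omega : n ≤ 2 ^ (max J0 n))
    have h4 : 2 ≤ c * 2 ^ (max J0 n) := by
      rw [div_le_iff₀ hc] at hn
      nlinarith
    calc (2 : ℝ) ^ (-(c * 2 ^ (max J0 n))) ≤ (2 : ℝ) ^ (-(2 : ℝ)) :=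
          Real.rpow_le_rpow_of_exponent_le (by norm_num) (by linarith)
      _ = 1 / 4 := by
          rw [Real.rpow_neg (by norm_num)]
          norm_num
  -- the length
  obtain ⟨s', hs'⟩ : ∃ s' : ℕ, (4 * A + 1) * Cm ≤ 2 ^ s' := by
    obtain ⟨n, hn⟩ := pow_unbounded_of_one_lt ((4 * A + 1) * Cm) (one_lt_two (α := ℝ))
    exact ⟨n, hn.le⟩
  obtain ⟨c3, hc3, hc3'⟩ : ∃ c3 : ℝ, 0 ≤ c3 ∧ gf (SSt (2 ^ k0)) = ENNReal.ofReal c3 := by
    have hne : gf (SSt (2 ^ k0)) ≠ ⊤ := by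
      have h1 := le_Xb (show k0 ≤ k0 from le_rfl)
      have h2 : ENNReal.ofReal (UU (2 ^ k0)) * (BAR.HH (2 ^ k0) / ENNReal.ofReal (UU (2 ^ k0))) = BAR.HH (2 ^ k0) :=
        ENNReal.mul_div_cancel (by simpa using Num2Aux.UU_pos _) ENNReal.ofReal_ne_top
      have h3 : gf (SSt (2 ^ k0)) ≤ ENNReal.ofReal (UU (2 ^ k0)) * Xb k0 := by
        calc gf (SSt (2 ^ k0)) = BAR.HH (2 ^ k0) := rfl
          _ = _ := h2.symm
          _ ≤ _ := mul_le_mul_right h1 _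
      exact ne_top_of_le_ne_top (ENNReal.mul_ne_top ENNReal.ofReal_ne_top (Xb_ne_top k0)) h3
    exact ⟨_, ENNReal.toReal_nonneg, (ENNReal.ofReal_toReal hne).symm⟩
  refine ⟨J + 2, s', min (1 / 2) (1 / (c3 + 1)), by positivity, fun k => ?_⟩
  obtain ⟨i, hik, hi⟩ := Xb_reach k
  have hUi : (0 : ℝ) < Ub i := Ub_pos i
  by_cases hik0 : k0 ≤ i
  · -- many scales
    have h1 := hfar J i (2 ^ i) hJ0 hik0 le_rfl (Nat.pow_lt_pow_right (by norm_num) (by omega))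
    have hl := hlen i (4 * A + 1) (by linarith)
    have hx : (4 * A + 1) * PW.mZ (2 ^ i) ≤ 2 ^ s' * ml k := by
      calc (4 * A + 1) * PW.mZ (2 ^ i) ≤ (4 * A + 1) * (Cm * ml i) :=
            mul_le_mul_of_nonneg_left (hmz i) (by linarith)
        _ = (4 * A + 1) * Cm * ml i := by ring
        _ ≤ 2 ^ s' * ml k := mul_le_mul hs' (ml_le hik) (ml_pos i).le (by positivity)
    have h2 : gf (SSt (2 ^ i)) ≤ gf {W | W ∈ SSt (2 ^ i) ∧ W ∈ WL (i + J) ∧ (W.length : ℝ) ≤ 2 ^ s' * ml k} +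
        (gf {W | W ∈ SSt (2 ^ i) ∧ W ∉ WL (i + J)} +
          gf {W | W ∈ SSt (2 ^ i) ∧ (4 * A + 1) * PW.mZ (2 ^ i) ≤ (W.length : ℝ)}) := by
      refine (gf_mono fun W hW => ?_).trans ((gf_union_le _ _).trans (add_le_add le_rfl (gf_union_le _ _)))
      by_cases h : W ∈ WL (i + J)
      · rcases le_or_gt (W.length : ℝ) (2 ^ s' * ml k) with h' | h'
        · exact Or.inl ⟨hW, h, h'⟩
        · exact Or.inr (Or.inr ⟨hW, hx.trans h'.le⟩)
      · exact Or.inr (Or.inl ⟨hW, h⟩)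
    have h3 := box_NAS (n := i + J) (2 ^ s' * ml k) hik
    have h4 : gf {W | W ∈ BAR.NA (2 ^ k) ∧ BX (2 ^ (i + J + 2)) W ∧ (W.length : ℝ) ≤ 2 ^ s' * ml k} ≤
        gf {W | W ∈ BAR.NA (2 ^ k) ∧ BX (2 ^ (k + (J + 2))) W ∧ (W.length : ℝ) ≤ 2 ^ s' * ml k} := by
      refine gf_mono fun W hW => ⟨hW.1, fun j hj dir => (hW.2.1 j hj dir).trans ?_, hW.2.2⟩
      exact pow_le_pow_right₀ (by norm_num) (by omega)
    have h5 : gf {W | W ∈ SSt (2 ^ i) ∧ W ∉ WL (i + J)} ≤ ENNReal.ofReal (1 / 4) * (ENNReal.ofReal (Ub i) * Xb k) := by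
      refine h1.trans ?_
      rw [← mul_assoc, ← ENNReal.ofReal_mul (by norm_num)]
      refine mul_le_mul' (ENNReal.ofReal_le_ofReal (mul_le_mul_of_nonneg_right hJ hUi.le)) ?_
      exact Xb_mono hik
    have h5' : gf {W | W ∈ SSt (2 ^ i) ∧ (4 * A + 1) * PW.mZ (2 ^ i) ≤ (W.length : ℝ)} ≤
        ENNReal.ofReal (1 / 4) * (ENNReal.ofReal (Ub i) * Xb k) := by
      refine hl.trans ?_
      rw [← mul_assoc, ← ENNReal.ofReal_mul (by norm_num)]
      refine mul_le_mul' (ENNReal.ofReal_le_ofReal (mul_le_mul_of_nonneg_right ?_ hUi.le)) (Xb_mono hik)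
      rw [pow_one, div_le_iff₀ (by linarith)]
      linarith
    have h6 : ENNReal.ofReal (1 / 2) * (ENNReal.ofReal (Ub i) * Xb k) ≤
        gf {W | W ∈ SSt (2 ^ i) ∧ W ∈ WL (i + J) ∧ (W.length : ℝ) ≤ 2 ^ s' * ml k} := by
      have hfin : ENNReal.ofReal (1 / 2) * (ENNReal.ofReal (Ub i) * Xb k) ≠ ⊤ :=
        ENNReal.mul_ne_top ENNReal.ofReal_ne_top (ENNReal.mul_ne_top ENNReal.ofReal_ne_top (Xb_ne_top k))
      have e : ENNReal.ofReal (1 / 2) * (ENNReal.ofReal (Ub i) * Xb k) + ENNReal.ofReal (1 / 2) * (ENNReal.ofReal (Ub i) * Xb k) =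
          gf (SSt (2 ^ i)) := by
        rw [← hi, ← add_mul, ← ENNReal.ofReal_add (by norm_num) (by norm_num)]
        norm_num
      have e' : ENNReal.ofReal (1 / 4) * (ENNReal.ofReal (Ub i) * Xb k) + ENNReal.ofReal (1 / 4) * (ENNReal.ofReal (Ub i) * Xb k) =
          ENNReal.ofReal (1 / 2) * (ENNReal.ofReal (Ub i) * Xb k) := by
        rw [← add_mul, ← ENNReal.ofReal_add (by norm_num) (by norm_num)]
        norm_num
      have h7 := (e.le.trans h2).trans (add_le_add_right (add_le_add h5 h5') _)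
      rw [e'] at h7
      exact (ENNReal.add_le_add_iff_right hfin).1 h7
    have h8 : ENNReal.ofReal (Ub i) * (ENNReal.ofReal (1 / 2) * Xb k) ≤
        ENNReal.ofReal (Ub i) * gf {W | W ∈ BAR.NA (2 ^ k) ∧ BX (2 ^ (k + (J + 2))) W ∧
          (W.length : ℝ) ≤ 2 ^ s' * ml k} := by
      calc ENNReal.ofReal (Ub i) * (ENNReal.ofReal (1 / 2) * Xb k) =
            ENNReal.ofReal (1 / 2) * (ENNReal.ofReal (Ub i) * Xb k) := by ring
        _ ≤ _ := h6.trans (h3.trans (mul_le_mul_right h4 _))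
    have h9 := (ENNReal.mul_le_mul_iff_right (by simpa using hUi) ENNReal.ofReal_ne_top).1 h8
    exact (mul_le_mul_left (ENNReal.ofReal_le_ofReal (min_le_left _ _)) _).trans h9
  · -- few scales
    have h1 : Xb k ≤ ENNReal.ofReal c3 := by
      rw [← hc3']
      have h2 : (1 : ℝ≥0∞) ≤ ENNReal.ofReal (Ub i) := by
        rw [← ENNReal.ofReal_one]
        exact ENNReal.ofReal_le_ofReal (HD.one_le_UU _)
      calc Xb k = 1 * Xb k := (one_mul _).symm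
        _ ≤ ENNReal.ofReal (Ub i) * Xb k := mul_le_mul_left h2 _
        _ = gf (SSt (2 ^ i)) := hi
        _ ≤ _ := gf_mono fun W hW => SSt_mono (Nat.pow_le_pow_right (by norm_num) (by omega)) hW
    have h2 : (1 : ℝ≥0∞) ≤ gf {W | W ∈ BAR.NA (2 ^ k) ∧ BX (2 ^ (k + (J + 2))) W ∧ (W.length : ℝ) ≤ 2 ^ s' * ml k} := by
      have h3 : ({[]} : Set (List Bool)) ⊆ {W | W ∈ BAR.NA (2 ^ k) ∧ BX (2 ^ (k + (J + 2))) W ∧
          (W.length : ℝ) ≤ 2 ^ s' * ml k} := by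
        rintro W rfl
        have h4 := nil_NAb (2 ^ k) (2 ^ (k + (J + 2))) (by positivity)
        refine ⟨h4.1, h4.2, ?_⟩
        have h5 := ml_pos k
        simp only [List.length_nil, Nat.cast_zero]
        positivity
      have h4 := gf_mono h3
      rwa [JumpVaux.gf_nil] at h4
    refine le_trans ?_ h2
    calc ENNReal.ofReal (min (1 / 2) (1 / (c3 + 1))) * Xb k ≤ ENNReal.ofReal (1 / (c3 + 1)) * ENNReal.ofReal c3 :=
          mul_le_mul' (ENNReal.ofReal_le_ofReal (min_le_right _ _)) h1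
      _ = ENNReal.ofReal (1 / (c3 + 1) * c3) := by rw [← ENNReal.ofReal_mul (by positivity)]
      _ ≤ ENNReal.ofReal 1 := by
          refine ENNReal.ofReal_le_ofReal ?_
          rw [div_mul_eq_mul_div, one_mul, div_le_one (by positivity)]
          linarith
      _ = 1 := ENNReal.ofReal_one

open M3a

/-- the gluing, 6 to 1, for a class T of half plane words without cuts -/
theorem m3_glueT {P T : Set (List Bool)} {M : ℝ≥0∞} {b k r R : ℕ} (hsa : P ⊆ SA)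
    (hT : ∀ e ∈ T, e ∈ BAR.NA (2 ^ k) ∧ BX R e)
    (hgl : gf {t | t ∈ SA ∧ ∃ L ∈ P, ∃ e ∈ T, t = L ++ e} ≤ M) (hR : 2 * R + 1 ≤ r)
    (hk : 2 ^ k ≤ R) (hr : 4 * r ≤ 2 ^ b) : gf (FT (Far6 r) P b) * gf T ≤ 6 * M := by
  have hkb : k + 1 ≤ b := by
    by_contra hcon
    have h1 : 2 ^ b ≤ 2 ^ k := Nat.pow_le_pow_right (by norm_num) (by omega)
    omega
  have hsub : FT (Far6 r) P b ⊆ ⋃ d ∈ dirs, {L | L ∈ FT (Far6 r) P b ∧ tipd L = d} := by
    intro L hL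
    rw [Set.mem_iUnion₂]
    exact ⟨tipd L, tipd_mem L, hL, rfl⟩
  have hone : ∀ d ∈ dirs, gf {L | L ∈ FT (Far6 r) P b ∧ tipd L = d} * gf T ≤ M := by
    intro d _
    refine le_trans (gf_mul_inj ?_ ?_) hgl
    · rintro L ⟨⟨hLP, A, Z, rfl, -, hZ, -, hF⟩, -⟩ e he
      obtain ⟨he1, he2⟩ := hT e he
      exact ⟨glue_SA (hsa hLP) hZ hF he1 he2 hR, A ++ Z, hLP, e, he, rfl⟩
    · rintro L ⟨hL, hLd⟩ L' ⟨hL', hLd'⟩ e he e' he' h
      obtain ⟨he1, -⟩ := hT e he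
      obtain ⟨he1', -⟩ := hT e' he'
      have q : ∀ {L : List Bool}, L ∈ FT (Far6 r) P b → ∃ A Z, L = A ++ Z ∧ OnB b A ∧ Z ∈ BU := by
        rintro L ⟨-, A, Z, h1, h2, h3, -⟩
        exact ⟨A, Z, h1, h2, h3⟩
      rcases Nat.le_total L.length L'.length with hle | hle
      · exact uniq hkb (q hL') he1 (BAR.pos_SSt he1'.1) (hLd.trans hLd'.symm) h hle
      · exact (uniq hkb (q hL) he1' (BAR.pos_SSt he1.1) (hLd'.trans hLd.symm) h.symm hle).symm
  calc gf (FT (Far6 r) P b) * gf T ≤ (∑ d ∈ dirs, gf {L | L ∈ FT (Far6 r) P b ∧ tipd L = d}) * gf T :=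
        mul_le_mul' ((gf_mono hsub).trans (BAR.gf_bi_le _ _)) le_rfl
    _ = ∑ d ∈ dirs, gf {L | L ∈ FT (Far6 r) P b ∧ tipd L = d} * gf T := sum_mul _ _ _
    _ ≤ ∑ _d ∈ dirs, M := sum_le_sum hone
    _ = 6 * M := by
        rw [sum_const, nsmul_eq_mul]
        rfl

/-- **M3 for a class of words, short words glued** -/
theorem m3S : ∃ (C : ℝ) (s s' : ℕ), 0 < C ∧ ∀ (P : Set (List Bool)) (M : ℝ≥0∞) (b k r : ℕ), P ⊆ SA →
    gf {t | t ∈ SA ∧ ∃ L ∈ P, ∃ e, (BX ((2 ^ (k + s) : ℕ) : ℤ) e ∧ (e.length : ℝ) ≤ 2 ^ s' * ml k) ∧ t = L ++ e} ≤ M →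
      2 ^ (k + s + 2) + 1 ≤ r → 4 * r ≤ 2 ^ b → gf (FT (Far6 r) P b) * Xb k ≤ ENNReal.ofReal C * M := by
  obtain ⟨s, s', c, hc, h⟩ := narrowS
  refine ⟨6 / c, s, s', by positivity, fun P M b k r hsa hgl hr1 hr2 => ?_⟩
  have h1 : 2 ^ (k + s + 2) = 4 * 2 ^ (k + s) := by
    rw [pow_add]
    ring
  have h2 : 1 ≤ 2 ^ (k + s) := Nat.one_le_two_pow
  obtain ⟨T, hT⟩ : ∃ T : Set (List Bool), T = {e | e ∈ BAR.NA (2 ^ k) ∧ BX ((2 ^ (k + s) : ℕ) : ℤ) e ∧
    (e.length : ℝ) ≤ 2 ^ s' * ml k} := ⟨_, rfl⟩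
  have h3 := m3_glueT (T := T) (b := b) (k := k) (r := r) (R := 2 ^ (k + s)) (M := M) hsa
    (fun e he => by rw [hT] at he; exact ⟨he.1, he.2.1⟩)
    (le_trans (gf_mono fun t ht => by
      obtain ⟨t1, L, hL, e, he, t2⟩ := ht
      rw [hT] at he
      exact ⟨t1, L, hL, e, he.2, t2⟩) hgl) (by omega) (Nat.pow_le_pow_right (by norm_num) (by omega)) hr2
  have h5 := h k
  have h4 : {W | W ∈ BAR.NA (2 ^ k) ∧ BX (2 ^ (k + s)) W ∧ (W.length : ℝ) ≤ 2 ^ s' * ml k} = T := by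
    rw [hT]
    push_cast
    rfl
  rw [h4] at h5
  have h6 : Xb k ≤ ENNReal.ofReal (1 / c) * gf T := by
    calc Xb k = ENNReal.ofReal (1 / c) * (ENNReal.ofReal c * Xb k) := by
          rw [← mul_assoc, ← ENNReal.ofReal_mul (by positivity), one_div, inv_mul_cancel₀ hc.ne', ENNReal.ofReal_one, one_mul]
      _ ≤ _ := mul_le_mul' le_rfl h5
  calc gf (FT (Far6 r) P b) * Xb k ≤ gf (FT (Far6 r) P b) * (ENNReal.ofReal (1 / c) * gf T) := mul_le_mul' le_rfl h6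
    _ = ENNReal.ofReal (1 / c) * (gf (FT (Far6 r) P b) * gf T) := by ring
    _ ≤ ENNReal.ofReal (1 / c) * (6 * M) := mul_le_mul' le_rfl h3
    _ = ENNReal.ofReal (6 / c) * M := by
        rw [← mul_assoc]
        congr 1
        rw [show (6 : ℝ) / c = 1 / c * 6 by ring, ENNReal.ofReal_mul (by positivity)]
        norm_num

end ARM

end HexObs
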