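import Pool.Agent.ARM.SmSym
import Pool.Agent.ARM.Defs
import Pool.Agent.TIP.Rich
import Pool.Agent.JNT.Ph

/-!
# ARM, smoothing: tuples of cuts (helper25)

* `Dr m Y T F`: the sum of `F (P1 :: .. :: Pm) W` over the `m`-tuples of the cuts `T` of `Y = P1 ++ .. ++ Pm ++ W`;
* `Dr_le`: its sum over all words is at most the sum over all tuples of pieces and all rests;
* `Dr_ge`: there are at least `K ^ m` tuples if `m K ≤ T.card`;
* `Cs b Y T`: cuts of `Y`: the prefixes and the parts between two cuts are bridges of height at most `2 ^ b`.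
-/

set_option autoImplicit false

namespace HexObs

namespace ARM

open Finset TS SDN SIM NTA TIP

open scoped ENNReal

namespace Sm

/-- the elements behind c, shifted -/
def sh (c : ℕ) (T : Finset ℕ) : Finset ℕ := (T.filter fun i => c < i).image fun i => i - c

lemma mem_sh {c i : ℕ} {T : Finset ℕ} : i ∈ sh c T ↔ c + i ∈ T ∧ 0 < i := by
  unfold sh
  rw [mem_image]
  constructor
  · rintro ⟨j, hj, rfl⟩
    obtain ⟨h1, h2⟩ := mem_filter.1 hj
    exact ⟨by rwa [Nat.add_sub_cancel' h2.le], by omega⟩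
  · rintro ⟨h1, h2⟩
    exact ⟨c + i, mem_filter.2 ⟨h1, by omega⟩, by omega⟩

lemma card_sh (c : ℕ) (T : Finset ℕ) : (sh c T).card = (T.filter fun i => c < i).card := by
  unfold sh
  rw [card_image_of_injOn]
  intro i hi j hj h
  have h1 := (mem_filter.1 (mem_coe.1 hi)).2
  have h2 := (mem_filter.1 (mem_coe.1 hj)).2
  simp only at h
  omega

/-- the sum over the m-tuples of cuts -/
noncomputable def Dr : ℕ → List Bool → Finset ℕ → (List (List Bool) → List Bool → ℝ≥0∞) → ℝ≥0∞
  | 0, Y, _, F => F [] Y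
  | m + 1, Y, T, F => ∑ c ∈ T, Dr m (Y.drop c) (sh c T) (fun Ps W => F (Y.take c :: Ps) W)

/-- the partial sums of the lengths are in T -/
def CutL : Finset ℕ → List (List Bool) → Prop
  | _, [] => True
  | T, P :: Ps => P.length ∈ T ∧ CutL (sh P.length T) Ps

/-! ### from above -/

lemma split_le {T : List Bool → Finset ℕ} (hT : ∀ Y, ∀ c ∈ T Y, c ≤ Y.length) (a : List Bool → List Bool → ℝ≥0∞) :
    ∑' Y : List Bool, ∑ c ∈ T Y, a (Y.take c) (Y.drop c) ≤ ∑' P : List Bool, ∑' W : List Bool, a P W := by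
  classical
  have e1 : ∀ Y : List Bool, ∑ c ∈ T Y, a (Y.take c) (Y.drop c) ≤
      ∑' p : List Bool × List Bool, if p.1 ++ p.2 = Y then a p.1 p.2 else 0 := by
    intro Y
    have hinj : Set.InjOn (fun q : ℕ => (Y.take q, Y.drop q)) (T Y : Set ℕ) := by
      intro q hq1 q' hq2 he
      have h1 := congrArg (fun p : List Bool × List Bool => p.1.length) he
      simp only [List.length_take] at h1
      have := hT Y q hq1
      have := hT Y q' hq2
      omega
    calc ∑ c ∈ T Y, a (Y.take c) (Y.drop c)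
        = ∑ c ∈ T Y, (fun p : List Bool × List Bool => if p.1 ++ p.2 = Y then a p.1 p.2 else 0) (Y.take c, Y.drop c) := by
          refine sum_congr rfl fun c _ => ?_
          show _ = if Y.take c ++ Y.drop c = Y then a (Y.take c) (Y.drop c) else 0
          rw [if_pos (List.take_append_drop c Y)]
      _ = ∑ p ∈ (T Y).image (fun q : ℕ => (Y.take q, Y.drop q)),
            (fun p : List Bool × List Bool => if p.1 ++ p.2 = Y then a p.1 p.2 else 0) p := by rw [sum_image hinj]
      _ ≤ _ := ENNReal.sum_le_tsum _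
  refine (ENNReal.tsum_le_tsum e1).trans ?_
  rw [ENNReal.tsum_comm]
  have e2 : ∀ p : List Bool × List Bool, (∑' Y : List Bool, if p.1 ++ p.2 = Y then a p.1 p.2 else 0) = a p.1 p.2 := by
    intro p
    rw [tsum_eq_single (p.1 ++ p.2) (fun Y hY => if_neg fun h => hY h.symm), if_pos rfl]
  rw [tsum_congr e2, ENNReal.tsum_prod']

theorem Dr_le (m : ℕ) : ∀ (T : List Bool → Finset ℕ), (∀ Y, ∀ c ∈ T Y, c ≤ Y.length) →
    ∀ F : List (List Bool) → List Bool → ℝ≥0∞,
    ∑' Y : List Bool, wE Y * Dr m Y (T Y) F ≤ LS wE m (fun Ps => ∑' W : List Bool, wE W * F Ps W) := by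
  induction m with
  | zero => intro T _ F; exact le_rfl
  | succ m ih =>
    intro T hT F
    have e1 : ∀ Y : List Bool, wE Y * Dr (m + 1) Y (T Y) F = ∑ c ∈ T Y, (fun P W : List Bool =>
        wE P * (wE W * Dr m W (sh P.length (T (P ++ W))) (fun Ps W' => F (P :: Ps) W'))) (Y.take c) (Y.drop c) := by
      intro Y
      simp only [Dr]
      rw [mul_sum]
      refine sum_congr rfl fun c hc => ?_
      rw [List.take_append_drop, List.length_take, min_eq_left (hT Y c hc), ← mul_assoc, ← wE_append,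
        List.take_append_drop]
    rw [tsum_congr e1]
    refine (split_le hT (fun P W : List Bool =>
        wE P * (wE W * Dr m W (sh P.length (T (P ++ W))) (fun Ps W' => F (P :: Ps) W')))).trans ?_
    simp only [LS]
    refine ENNReal.tsum_le_tsum fun P => ?_
    rw [ENNReal.tsum_mul_left]
    refine mul_le_mul' le_rfl (ih (fun W => sh P.length (T (P ++ W))) ?_ (fun Ps W' => F (P :: Ps) W'))
    intro W c hc
    have := hT _ _ (mem_sh.1 hc).1
    rw [List.length_append] at this
    omega

/-! ### from below -/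

lemma firstK (T : Finset ℕ) (K m : ℕ) (h : (m + 1) * K ≤ T.card) :
    ∃ S ⊆ T, S.card = K ∧ ∀ c ∈ S, m * K ≤ (sh c T).card := by
  classical
  obtain ⟨n, hn⟩ : ∃ n, T.card = n := ⟨_, rfl⟩
  have hK : K ≤ n := by
    have : K ≤ (m + 1) * K := Nat.le_mul_of_pos_left _ (by omega)
    omega
  obtain ⟨e, he⟩ : ∃ e, e = T.orderEmbOfFin hn := ⟨_, rfl⟩
  have hmem : ∀ i, e i ∈ T := fun i => by rw [he]; exact orderEmbOfFin_mem T hn i
  refine ⟨(univ : Finset (Fin K)).image fun i => e ⟨i.1, by omega⟩, ?_, ?_, ?_⟩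
  · intro c hc
    obtain ⟨i, -, rfl⟩ := mem_image.1 hc
    exact hmem _
  · rw [card_image_of_injective, card_univ, Fintype.card_fin]
    intro i j hij
    have := e.injective hij
    rw [Fin.mk.injEq] at this
    exact Fin.ext this
  · intro c hc
    obtain ⟨i, -, rfl⟩ := mem_image.1 hc
    rw [card_sh]
    have h1 : (Finset.Ioi (⟨i.1, by omega⟩ : Fin n)).image e ⊆ T.filter fun j => e ⟨i.1, by omega⟩ < j := by
      intro j hj
      obtain ⟨k, hk, rfl⟩ := mem_image.1 hj
      exact mem_filter.2 ⟨hmem k, e.strictMono (Finset.mem_Ioi.1 hk)⟩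
    have h2 := card_le_card h1
    rw [card_image_of_injective _ e.injective, Fin.card_Ioi] at h2
    have h3 : n - 1 - i.1 ≤ (T.filter fun j => e ⟨i.1, by omega⟩ < j).card := h2
    have h4 := i.2
    have h5 : (m + 1) * K = m * K + K := by ring
    omega

theorem Dr_ge (m : ℕ) : ∀ (Y : List Bool) (T : Finset ℕ) (F : List (List Bool) → List Bool → ℝ≥0∞) (K : ℕ),
    m * K ≤ T.card → (∀ c ∈ T, c ≤ Y.length) →
    (∀ Ps W, Ps.length = m → Y = Ps.flatten ++ W → CutL T Ps → 1 ≤ F Ps W) → (K : ℝ≥0∞) ^ m ≤ Dr m Y T F := by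
  induction m with
  | zero =>
    intro Y T F K _ _ h
    rw [pow_zero]
    exact h [] Y rfl rfl trivial
  | succ m ih =>
    intro Y T F K hK hT h
    obtain ⟨S, hS, hSK, hc⟩ := firstK T K m hK
    simp only [Dr]
    calc (K : ℝ≥0∞) ^ (m + 1) = ∑ c ∈ S, (K : ℝ≥0∞) ^ m := by rw [sum_const, hSK, nsmul_eq_mul, pow_succ']
      _ ≤ ∑ c ∈ S, Dr m (Y.drop c) (sh c T) (fun Ps W => F (Y.take c :: Ps) W) := by
          refine sum_le_sum fun c hcS => ih _ _ _ K (hc c hcS) ?_ ?_
          · intro i hi
            have := hT _ (mem_sh.1 hi).1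
            rw [List.length_drop]
            omega
          · intro Ps W h1 h2 h3
            have h4 := hT c (hS hcS)
            refine h (Y.take c :: Ps) W (by rw [List.length_cons, h1]) ?_ ?_
            · rw [List.flatten_cons, List.append_assoc, ← h2, List.take_append_drop]
            · refine ⟨?_, ?_⟩
              · rw [List.length_take, min_eq_left h4]
                exact hS hcS
              · rw [List.length_take, min_eq_left h4]
                exact h3
      _ ≤ _ := sum_le_sum_of_subset hS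

/-! ### cuts -/

/-- cuts of the word Y -/
structure Cs (b : ℕ) (Y : List Bool) (T : Finset ℕ) : Prop where
  pos : ∀ c ∈ T, 0 < c
  le : ∀ c ∈ T, c ≤ Y.length
  bu : ∀ c ∈ T, Y.take c ∈ BU
  hg : ∀ c ∈ T, hgt (Y.take c) ≤ 2 ^ b
  df : ∀ c ∈ T, ∀ c' ∈ T, c ≤ c' → (Y.drop c).take (c' - c) ∈ BU

lemma Cs.sh {b c : ℕ} {Y : List Bool} {T : Finset ℕ} (h : Cs b Y T) (hc : c ∈ T) : Cs b (Y.drop c) (sh c T) := by
  have key : ∀ i, Y.take (c + i) = Y.take c ++ (Y.drop c).take i := fun i => List.take_add
  constructor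
  · intro i hi
    exact (mem_sh.1 hi).2
  · intro i hi
    have := h.le _ (mem_sh.1 hi).1
    rw [List.length_drop]
    omega
  · intro i hi
    have h1 := h.df c hc _ (mem_sh.1 hi).1 (by omega)
    rwa [Nat.add_sub_cancel_left] at h1
  · intro i hi
    have h1 := h.df c hc _ (mem_sh.1 hi).1 (by omega)
    rw [Nat.add_sub_cancel_left] at h1
    have h2 := h.hg _ (mem_sh.1 hi).1
    rw [key, hgt_app (h.bu c hc) h1] at h2
    omega
  · intro i hi j hj hij
    have h1 := h.df _ (mem_sh.1 hi).1 _ (mem_sh.1 hj).1 (by omega)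
    rw [List.drop_drop]
    rwa [show c + j - (c + i) = j - i by omega] at h1

lemma Cs.pieces {b : ℕ} : ∀ (Ps : List (List Bool)) {Y W : List Bool} {T : Finset ℕ}, Cs b Y T → Y = Ps.flatten ++ W →
    CutL T Ps → (∀ P ∈ Ps, P ∈ BU ∧ P ≠ [] ∧ hgt P ≤ 2 ^ b) ∧ (Ps ≠ [] → Ps.flatten.length ∈ T) := by
  intro Ps
  induction Ps with
  | nil =>
    intro Y W T _ _ _
    exact ⟨by simp, fun h => absurd rfl h⟩
  | cons P Ps ih =>
    rintro Y W T h hY ⟨h1, h2⟩
    have e1 : Y = P ++ (Ps.flatten ++ W) := by rw [hY, List.flatten_cons, List.append_assoc]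
    have e2 : Y.take P.length = P := by rw [e1, List.take_left']; rfl
    have e3 : Y.drop P.length = Ps.flatten ++ W := by rw [e1, List.drop_left']; rfl
    obtain ⟨k1, k2⟩ := ih (h.sh h1) e3 h2
    constructor
    · intro Q hQ
      rcases List.mem_cons.1 hQ with rfl | hQ
      · refine ⟨?_, ?_, ?_⟩
        · have := h.bu _ h1
          rwa [e2] at this
        · intro h0
          have := h.pos _ h1
          rw [h0] at this
          exact absurd this (by simp)
        · have := h.hg _ h1
          rwa [e2] at this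
      · exact k1 Q hQ
    · intro _
      by_cases h0 : Ps = []
      · subst h0
        simpa using h1
      · have h3 := (mem_sh.1 (k2 h0)).1
        rwa [List.flatten_cons, List.length_append]

/-- displacement and length -/
noncomputable def vv (P : List Bool) : Pt × ℕ := (TIW.en P, P.length)

lemma vv_flatten : ∀ (Ps : List (List Bool)) (W : List Bool), (∀ P ∈ Ps, P ∈ BU) →
    vv (Ps.flatten ++ W) = vv W + (Ps.map vv).sum := by
  intro Ps
  induction Ps with
  | nil =>
    intro W _
    rw [List.flatten_nil, List.nil_append, List.map_nil, List.sum_nil, add_zero]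
  | cons P Ps ih =>
    intro W h
    have h1 := ih W fun Q hQ => h Q (List.mem_cons_of_mem _ hQ)
    have h2 : vv (P ++ (Ps.flatten ++ W)) = vv P + vv (Ps.flatten ++ W) := by
      unfold vv
      have h3 : TIW.en (P ++ (Ps.flatten ++ W)) = TIW.en P + TIW.en (Ps.flatten ++ W) :=
        JNT.en_app (h P List.mem_cons_self)
      rw [h3, List.length_append]
      rfl
    rw [List.flatten_cons, List.append_assoc, h2, h1, List.map_cons, List.sum_cons]
    abel

end Sm

end ARM

end HexObs
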