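import Pool.Agent.ARM.Smooth

/-!
# ARM: the smoothing lemma at a good tip (helper25)

* `gt_cuts`: the cuts of a word behind a good tip, half of them;
* **`smooth`**: the parts behind a good tip, exact end and length: `C / (4 ^ b m_b)` times the mass of the rests, which are
  again parts behind a good tip.
-/

set_option autoImplicit false

namespace HexObs

namespace ARM

open Finset TS SDN SIM NTA TIP

open scoped ENNReal

namespace Sm

lemma hgt_rv {P : List Bool} (h : P ∈ BU) : hgt (rev P) = hgt P := by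
  obtain ⟨n, hn⟩ := h
  rw [hgt_eq hn, hgt_eq (Brd_rev hn)]

/-- the cuts behind a cut, the same scale -/
lemma cs_take' {b : ℕ} {L : List Bool} {j' j : ℕ} (h' : j' ∈ cs b L) (h : j ∈ cs b L) (hjj : j' ≤ j) :
    j' ∈ cs b (L.take j) := by
  rw [mem_cs] at h h' ⊢
  obtain ⟨a1, a2, a3, a4⟩ := h
  obtain ⟨b1, b2, b3, b4⟩ := h'
  obtain ⟨A, B, c1, c2, c3⟩ := a4
  have e1 : L.drop j' = (L.take j).drop j' ++ L.drop j := by
    have : L.drop j' = (L.take j ++ L.drop j).drop j' := by rw [List.take_append_drop]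
    rw [this, List.drop_append_of_le_length]
    rw [List.length_take]
    omega
  have e2 : L.take j' ++ (L.take j).drop j' = L.take j := by
    have : (L.take j).take j' = L.take j' := by rw [List.take_take, min_eq_left hjj]
    rw [← this, List.take_append_drop]
  obtain ⟨m1, m2⟩ := mid_BU (X := L.take j') (Y := (L.take j).drop j') (Z := L.drop j) (A := A) (B := B) (n := 2 ^ b)
    (by rw [← e1]; exact b2) a2 (by rw [← e1]; exact b3) c2 (by rw [e2, c1]) c3
  rw [← e1] at m2
  refine ⟨by rw [List.length_take]; omega, m1, by omega, ?_⟩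
  rwa [List.take_take, min_eq_left hjj]

/-- the upper half of a set of numbers -/
lemma upper_half (J : Finset ℕ) : ∃ S ⊆ J, J.card ≤ 2 * S.card ∧ ∀ j ∈ S, J.card ≤ 2 * (J.filter fun i => i ≤ j).card := by
  classical
  obtain ⟨n, hn⟩ : ∃ n, J.card = n := ⟨_, rfl⟩
  obtain ⟨e, he⟩ : ∃ e, e = J.orderEmbOfFin hn := ⟨_, rfl⟩
  have hmem : ∀ i, e i ∈ J := fun i => by rw [he]; exact orderEmbOfFin_mem J hn i
  refine ⟨((univ : Finset (Fin n)).filter fun i => n ≤ 2 * (i.1 + 1)).image e, ?_, ?_, ?_⟩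
  · intro c hc
    obtain ⟨i, -, rfl⟩ := mem_image.1 hc
    exact hmem i
  · rw [card_image_of_injective _ e.injective, hn]
    have h1 : ((univ : Finset (Fin n)).filter fun i => n ≤ 2 * (i.1 + 1)).card +
        ((univ : Finset (Fin n)).filter fun i => ¬ n ≤ 2 * (i.1 + 1)).card = n := by
      rw [Finset.card_filter_add_card_filter_not, card_univ, Fintype.card_fin]
    have h2 : ((univ : Finset (Fin n)).filter fun i => ¬ n ≤ 2 * (i.1 + 1)).card ≤ (range (n / 2)).card := by
      refine card_le_card_of_injOn (fun i => i.1) ?_ ?_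
      · intro i hi
        have := (mem_filter.1 (mem_coe.1 hi)).2
        exact mem_coe.2 (mem_range.2 (show i.1 < n / 2 by omega))
      · intro i _ j _ h
        exact Fin.ext h
    rw [card_range] at h2
    omega
  · intro c hc
    obtain ⟨i, hi, rfl⟩ := mem_image.1 hc
    have h1 : (Finset.Iic i).image e ⊆ J.filter fun j => j ≤ e i := by
      intro j hj
      obtain ⟨k, hk, rfl⟩ := mem_image.1 hj
      exact mem_filter.2 ⟨hmem k, e.monotone (Finset.mem_Iic.1 hk)⟩
    have h2 := card_le_card h1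
    rw [card_image_of_injective _ e.injective, Fin.card_Iic] at h2
    have := (mem_filter.1 hi).2
    omega

lemma rev_len (Y : List Bool) : (rev Y).length = Y.length := by
  unfold rev
  rw [List.length_reverse, List.length_map]

/-- half of the cuts of a part behind a good tip -/
theorem gt_cuts {b : ℕ} {η : ℝ} {Y : List Bool} (h : rev Y ∈ GT b η) : ∃ T : Finset ℕ, η / 2 * Ub b ≤ (T.card : ℝ) ∧
    (∀ p ∈ T, p ≤ Y.length ∧ Y.take p ∈ BU ∧ hgt (Y.take p) ≤ 2 ^ b ∧ rev (Y.drop p) ∈ GT b (η / 2)) ∧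
    ∀ p ∈ T, ∀ p' ∈ T, p ≤ p' → (Y.drop p).take (p' - p) ∈ BU := by
  classical
  obtain ⟨L, hL⟩ : ∃ L, L = rev Y := ⟨_, rfl⟩
  have hY : Y = rev L := by rw [hL, rev_rev]
  have hlen : L.length = Y.length := by rw [hL, rev_len]
  have hG : η * Ub b ≤ ((cs b L).card : ℝ) := by rw [hL]; exact h
  obtain ⟨S, hS, hc, hh⟩ := upper_half (cs b L)
  have hSle : ∀ j ∈ S, j ≤ L.length := fun j hj => (mem_cs.1 (hS hj)).1
  -- the prefix and the rest
  have e1 : ∀ j, j ≤ L.length → Y.take (L.length - j) = rev (L.drop j) ∧ Y.drop (L.length - j) = rev (L.take j) := by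
    intro j hj
    have h1 : Y = rev (L.drop j) ++ rev (L.take j) := by
      rw [← rev_append, List.take_append_drop, hY]
    have h2 : (rev (L.drop j)).length = L.length - j := by rw [rev_len, List.length_drop]
    constructor
    · rw [h1, List.take_left' h2]
    · rw [h1, List.drop_left' h2]
  refine ⟨S.image fun j => L.length - j, ?_, ?_, ?_⟩
  · have h1 : (S.image fun j => L.length - j).card = S.card := by
      rw [card_image_of_injOn]
      intro i hi j hj hij
      have := hSle i hi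
      have := hSle j hj
      simp only at hij
      omega
    rw [h1]
    have h2 : ((cs b L).card : ℝ) ≤ 2 * (S.card : ℝ) := by exact_mod_cast hc
    linarith
  · intro p hp
    obtain ⟨j, hj, rfl⟩ := mem_image.1 hp
    obtain ⟨a1, a2, a3, a4⟩ := mem_cs.1 (hS hj)
    obtain ⟨k1, k2⟩ := e1 j a1
    refine ⟨by omega, ?_, ?_, ?_⟩
    · rw [k1]
      exact BU_rev a2
    · rw [k1, hgt_rv a2]
      exact a3
    · rw [k2, rev_rev]
      show η / 2 * Ub b ≤ ((cs b (L.take j)).card : ℝ)
      have h1 : (cs b L).filter (fun i => i ≤ j) ⊆ cs b (L.take j) := fun i hi => by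
        obtain ⟨b1, b2⟩ := mem_filter.1 hi
        exact cs_take' b1 (hS hj) b2
      have h2 := card_le_card h1
      have h3 := hh j hj
      have h4 : ((cs b L).card : ℝ) ≤ 2 * ((cs b (L.take j)).card : ℝ) := by
        have : (cs b L).card ≤ 2 * (cs b (L.take j)).card := by omega
        exact_mod_cast this
      linarith
  · intro p hp p' hp' hpp
    obtain ⟨j, hj, rfl⟩ := mem_image.1 hp
    obtain ⟨j', hj', rfl⟩ := mem_image.1 hp'
    have h1 := hSle j hj
    have h2 := hSle j' hj'
    have h3 : j' ≤ j := by omega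
    rw [(e1 j h1).2]
    have h4 : L.take j = (L.take j).take j' ++ (L.take j).drop j' := (List.take_append_drop _ _).symm
    have h5 : rev (L.take j) = rev ((L.take j).drop j') ++ rev ((L.take j).take j') := by
      rw [← rev_append, List.take_append_drop]
    have h6 : (rev ((L.take j).drop j')).length = L.length - j' - (L.length - j) := by
      rw [rev_len, List.length_drop, List.length_take]
      omega
    rw [h5, List.take_left' h6]
    exact BU_rev (mem_cs.1 (cs_take' (hS hj') (hS hj) h3)).2.1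

end Sm

/-- **the smoothing lemma at a good tip** -/
theorem smooth (η : ℝ) (q : ℕ) (hη : 0 < η) : ∃ (C : ℝ) (b0 : ℕ), 0 < C ∧ ∀ (b y : ℕ) (z : Pt), b0 ≤ b →
    ∀ (S : Set (List Bool)) (φ : List Bool → ℝ≥0∞),
      (∀ Y ∈ S, Y ∈ SA ∧ rev Y ∈ GT b η ∧ Y.length = y ∧ TIW.en Y = z) →
      (∀ P W, P ++ W ∈ S → P ∈ BU → rev W ∈ GT b (η / 2) → 1 ≤ ENNReal.ofReal (Sm.bw b q P) * φ W) →
      gf S ≤ ENNReal.ofReal (C / (4 ^ b * ml b)) *
        ∑' W : {W : List Bool | W ∈ SA ∧ rev W ∈ GT b (η / 2)}, wE (W : List Bool) * φ W := by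
  obtain ⟨C, b0, hC, h⟩ := smoothT (η / 2) q (by positivity)
  refine ⟨C, b0, hC, fun b y z hb S φ hS hφ => h b y z hb S _ φ fun Y hY => ?_⟩
  obtain ⟨h1, h2, h3, h4⟩ := hS Y hY
  obtain ⟨T, k1, k2, k3⟩ := Sm.gt_cuts h2
  refine ⟨h3, h4, T, k1, fun c hc => ?_, k3⟩
  obtain ⟨a1, a2, a3, a4⟩ := k2 c hc
  refine ⟨a1, a2, a3, ⟨SA_drop h1 c, a4⟩, hφ _ _ ?_ a2 a4⟩
  rw [List.take_append_drop]
  exact hY

end ARM

end HexObs
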