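import Mathlib

/-!
# ARM, smoothing: symmetric sums over tuples of pieces (helper25)

* `e0`, `e1`, `e2`: the sum over the choices of 0, 1, 2 elements of a list with the weight `s`, all others `w`;
* `LS X m F`: the sum of `F` over the lists of length `m` with the weight `X` of every element;
* `LS_e2_le`: the sum of `e2` times a function of the total displacement;
* `top_le`: for lists with at least 11 elements, `0 < g ≤ 1`, `1 ≤ be`: the product of `be` is at most `e2` for
  `w = be ^ 3 / sqrt g`, `s = g ^ 2`.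
-/

set_option autoImplicit false

namespace HexObs

namespace ARM

namespace Sm

open scoped ENNReal

section Sym

variable {α R : Type*} [CommSemiring R] (w s : α → R)

/-- product -/
def e0 : List α → R
  | [] => 1
  | a :: l => w a * e0 l

/-- one element with the weight s -/
def e1 : List α → R
  | [] => 0
  | a :: l => w a * e1 l + s a * e0 w l

/-- two elements with the weight s -/
def e2 : List α → R
  | [] => 0
  | a :: l => w a * e2 l + s a * e1 w s l

variable {w s}

lemma e0_perm {l l' : List α} (h : l.Perm l') : e0 w l = e0 w l' := by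
  induction h with
  | nil => rfl
  | cons a _ ih => simp only [e0, ih]
  | swap a b l => simp only [e0]; ring
  | trans _ _ h1 h2 => exact h1.trans h2

lemma e1_perm {l l' : List α} (h : l.Perm l') : e1 w s l = e1 w s l' := by
  induction h with
  | nil => rfl
  | cons a h ih => simp only [e1, ih, e0_perm h]
  | swap a b l => simp only [e1, e0]; ring
  | trans _ _ h1 h2 => exact h1.trans h2

lemma e2_perm {l l' : List α} (h : l.Perm l') : e2 w s l = e2 w s l' := by
  induction h with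
  | nil => rfl
  | cons a h ih => simp only [e2, ih, e1_perm h]
  | swap a b l => simp only [e2, e1]; ring
  | trans _ _ h1 h2 => exact h1.trans h2

end Sym

/-! ### the cast -/

section Cast

variable {α : Type*} {w s : α → ℝ}

lemma e0_nn {l : List α} (hw : ∀ a ∈ l, 0 ≤ w a) : 0 ≤ e0 w l := by
  induction l with
  | nil => exact zero_le_one
  | cons a l ih =>
    exact mul_nonneg (hw a List.mem_cons_self) (ih fun x hx => hw x (List.mem_cons_of_mem _ hx))

lemma e1_nn {l : List α} (hw : ∀ a ∈ l, 0 ≤ w a) (hs : ∀ a ∈ l, 0 ≤ s a) : 0 ≤ e1 w s l := by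
  induction l with
  | nil => exact le_rfl
  | cons a l ih =>
    have h1 : ∀ x ∈ l, 0 ≤ w x := fun x hx => hw x (List.mem_cons_of_mem _ hx)
    exact add_nonneg (mul_nonneg (hw a List.mem_cons_self) (ih h1 fun x hx => hs x (List.mem_cons_of_mem _ hx)))
      (mul_nonneg (hs a List.mem_cons_self) (e0_nn h1))

lemma e2_nn {l : List α} (hw : ∀ a ∈ l, 0 ≤ w a) (hs : ∀ a ∈ l, 0 ≤ s a) : 0 ≤ e2 w s l := by
  induction l with
  | nil => exact le_rfl
  | cons a l ih =>
    have h1 : ∀ x ∈ l, 0 ≤ w x := fun x hx => hw x (List.mem_cons_of_mem _ hx)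
    have h2 : ∀ x ∈ l, 0 ≤ s x := fun x hx => hs x (List.mem_cons_of_mem _ hx)
    exact add_nonneg (mul_nonneg (hw a List.mem_cons_self) (ih h1 h2))
      (mul_nonneg (hs a List.mem_cons_self) (e1_nn h1 h2))

lemma e0_cast {l : List α} (hw : ∀ a ∈ l, 0 ≤ w a) :
    e0 (fun a => ENNReal.ofReal (w a)) l = ENNReal.ofReal (e0 w l) := by
  induction l with
  | nil => simp [e0]
  | cons a l ih =>
    have h1 : ∀ x ∈ l, 0 ≤ w x := fun x hx => hw x (List.mem_cons_of_mem _ hx)
    simp only [e0]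
    rw [ih h1, ENNReal.ofReal_mul (hw a List.mem_cons_self)]

lemma e1_cast {l : List α} (hw : ∀ a ∈ l, 0 ≤ w a) (hs : ∀ a ∈ l, 0 ≤ s a) :
    e1 (fun a => ENNReal.ofReal (w a)) (fun a => ENNReal.ofReal (s a)) l = ENNReal.ofReal (e1 w s l) := by
  induction l with
  | nil => simp [e1]
  | cons a l ih =>
    have h1 : ∀ x ∈ l, 0 ≤ w x := fun x hx => hw x (List.mem_cons_of_mem _ hx)
    have h2 : ∀ x ∈ l, 0 ≤ s x := fun x hx => hs x (List.mem_cons_of_mem _ hx)
    have h3 := hw a List.mem_cons_self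
    have h4 := hs a List.mem_cons_self
    simp only [e1]
    rw [ih h1 h2, e0_cast h1, ENNReal.ofReal_add (mul_nonneg h3 (e1_nn h1 h2)) (mul_nonneg h4 (e0_nn h1)),
      ENNReal.ofReal_mul h3, ENNReal.ofReal_mul h4]

lemma e2_cast {l : List α} (hw : ∀ a ∈ l, 0 ≤ w a) (hs : ∀ a ∈ l, 0 ≤ s a) :
    e2 (fun a => ENNReal.ofReal (w a)) (fun a => ENNReal.ofReal (s a)) l = ENNReal.ofReal (e2 w s l) := by
  induction l with
  | nil => simp [e2]
  | cons a l ih =>
    have h1 : ∀ x ∈ l, 0 ≤ w x := fun x hx => hw x (List.mem_cons_of_mem _ hx)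
    have h2 : ∀ x ∈ l, 0 ≤ s x := fun x hx => hs x (List.mem_cons_of_mem _ hx)
    have h3 := hw a List.mem_cons_self
    have h4 := hs a List.mem_cons_self
    simp only [e2]
    rw [ih h1 h2, e1_cast h1 h2, ENNReal.ofReal_add (mul_nonneg h3 (e2_nn h1 h2)) (mul_nonneg h4 (e1_nn h1 h2)),
      ENNReal.ofReal_mul h3, ENNReal.ofReal_mul h4]

end Cast

/-! ### sums over lists -/

section Sums

variable {α : Type*} {X : α → ℝ≥0∞}

/-- the sum over the lists of length m -/
noncomputable def LS (X : α → ℝ≥0∞) : ℕ → (List α → ℝ≥0∞) → ℝ≥0∞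
  | 0, F => F []
  | m + 1, F => ∑' P : α, X P * LS X m (fun Ps => F (P :: Ps))

lemma LS_mono {m : ℕ} : ∀ {F G : List α → ℝ≥0∞}, (∀ Ps, Ps.length = m → (∀ P ∈ Ps, X P ≠ 0) → F Ps ≤ G Ps) →
    LS X m F ≤ LS X m G := by
  induction m with
  | zero =>
    intro F G h
    exact h [] rfl (by simp)
  | succ m ih =>
    intro F G h
    refine ENNReal.tsum_le_tsum fun P => ?_
    by_cases hP : X P = 0
    · rw [hP, zero_mul]
      exact zero_le
    · refine mul_le_mul' le_rfl (ih fun Ps h1 h2 => h _ (by rw [List.length_cons, h1]) fun Q hQ => ?_)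
      rcases List.mem_cons.1 hQ with rfl | hQ
      · exact hP
      · exact h2 Q hQ

lemma LS_mul {m : ℕ} (c : ℝ≥0∞) : ∀ F : List α → ℝ≥0∞, LS X m (fun Ps => c * F Ps) = c * LS X m F := by
  induction m with
  | zero => intro F; rfl
  | succ m ih =>
    intro F
    simp only [LS]
    rw [← ENNReal.tsum_mul_left]
    refine tsum_congr fun P => ?_
    rw [ih]
    ring

lemma LS_add {m : ℕ} : ∀ F G : List α → ℝ≥0∞, LS X m (fun Ps => F Ps + G Ps) = LS X m F + LS X m G := by
  induction m with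
  | zero => intro F G; rfl
  | succ m ih =>
    intro F G
    simp only [LS]
    rw [← ENNReal.tsum_add]
    refine tsum_congr fun P => ?_
    rw [ih, mul_add]

lemma LS_tsum {m : ℕ} {β : Type*} : ∀ F : β → List α → ℝ≥0∞,
    LS X m (fun Ps => ∑' b, F b Ps) = ∑' b, LS X m (F b) := by
  induction m with
  | zero => intro F; rfl
  | succ m ih =>
    intro F
    simp only [LS]
    rw [ENNReal.tsum_comm]
    refine tsum_congr fun P => ?_
    rw [ENNReal.tsum_mul_left]
    congr 1
    exact ih fun b Ps => F b (P :: Ps)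

variable {V : Type*} [AddCommMonoid V] (v : α → V) (w s : α → ℝ≥0∞) (ψ : V → ℝ≥0∞)

/-- the sum of a function of the total displacement -/
noncomputable def KK (X : α → ℝ≥0∞) (e : List α → ℝ≥0∞) (m : ℕ) (x : V) : ℝ≥0∞ :=
  LS X m (fun Ps => e Ps * ψ (x + (Ps.map v).sum))

lemma KK0_succ (m : ℕ) (x : V) :
    KK v ψ X (e0 w) (m + 1) x = ∑' P, X P * w P * KK v ψ X (e0 w) m (x + v P) := by
  unfold KK
  simp only [LS, e0]
  refine tsum_congr fun P => ?_
  have e : (fun Ps : List α => w P * e0 w Ps * ψ (x + ((P :: Ps).map v).sum)) =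
      fun Ps => w P * (e0 w Ps * ψ (x + v P + (Ps.map v).sum)) := by
    funext Ps
    rw [List.map_cons, List.sum_cons, ← add_assoc, mul_assoc]
  rw [e, LS_mul, mul_assoc]

lemma KK1_succ (m : ℕ) (x : V) :
    KK v ψ X (e1 w s) (m + 1) x = ∑' P, X P * w P * KK v ψ X (e1 w s) m (x + v P) +
      ∑' P, X P * s P * KK v ψ X (e0 w) m (x + v P) := by
  unfold KK
  simp only [LS, e1]
  rw [← ENNReal.tsum_add]
  refine tsum_congr fun P => ?_
  have e : (fun Ps : List α => (w P * e1 w s Ps + s P * e0 w Ps) * ψ (x + ((P :: Ps).map v).sum)) =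
      fun Ps => w P * (e1 w s Ps * ψ (x + v P + (Ps.map v).sum)) + s P * (e0 w Ps * ψ (x + v P + (Ps.map v).sum)) := by
    funext Ps
    rw [List.map_cons, List.sum_cons, ← add_assoc]
    ring
  rw [e, LS_add, LS_mul, LS_mul]
  ring

lemma KK2_succ (m : ℕ) (x : V) :
    KK v ψ X (e2 w s) (m + 1) x = ∑' P, X P * w P * KK v ψ X (e2 w s) m (x + v P) +
      ∑' P, X P * s P * KK v ψ X (e1 w s) m (x + v P) := by
  unfold KK
  simp only [LS, e2]
  rw [← ENNReal.tsum_add]
  refine tsum_congr fun P => ?_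
  have e : (fun Ps : List α => (w P * e2 w s Ps + s P * e1 w s Ps) * ψ (x + ((P :: Ps).map v).sum)) =
      fun Ps => w P * (e2 w s Ps * ψ (x + v P + (Ps.map v).sum)) + s P * (e1 w s Ps * ψ (x + v P + (Ps.map v).sum)) := by
    funext Ps
    rw [List.map_cons, List.sum_cons, ← add_assoc]
    ring
  rw [e, LS_add, LS_mul, LS_mul]
  ring

variable {v w s ψ} {M B : ℝ≥0∞}

lemma bdA (hM : ∑' P, X P * w P ≤ M)
    (hB : ∀ x : V, ∑' P, ∑' Q, X P * s P * (X Q * s Q) * ψ (x + v P + v Q) ≤ B) (m : ℕ) :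
    ∀ x : V, ∑' P, ∑' Q, X P * s P * (X Q * s Q) * KK v ψ X (e0 w) m (x + v P + v Q) ≤ M ^ m * B := by
  induction m with
  | zero =>
    intro x
    rw [pow_zero, one_mul]
    refine le_trans (le_of_eq ?_) (hB x)
    refine tsum_congr fun P => tsum_congr fun Q => ?_
    congr 1
    show 1 * ψ _ = _
    rw [one_mul, List.map_nil, List.sum_nil, add_zero]
  | succ m ih =>
    intro x
    have e : ∀ P Q, X P * s P * (X Q * s Q) * KK v ψ X (e0 w) (m + 1) (x + v P + v Q) =
        ∑' U, X U * w U * (X P * s P * (X Q * s Q) * KK v ψ X (e0 w) m (x + v U + v P + v Q)) := by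
      intro P Q
      rw [KK0_succ, ← ENNReal.tsum_mul_left]
      refine tsum_congr fun U => ?_
      rw [show x + v P + v Q + v U = x + v U + v P + v Q by abel]
      ring
    calc ∑' P, ∑' Q, X P * s P * (X Q * s Q) * KK v ψ X (e0 w) (m + 1) (x + v P + v Q)
        = ∑' P, ∑' Q, ∑' U, X U * w U * (X P * s P * (X Q * s Q) * KK v ψ X (e0 w) m (x + v U + v P + v Q)) := by
          exact tsum_congr fun P => tsum_congr fun Q => e P Q
      _ = ∑' U, X U * w U * ∑' P, ∑' Q, X P * s P * (X Q * s Q) * KK v ψ X (e0 w) m (x + v U + v P + v Q) := by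
          have : ∀ P, ∑' Q, ∑' U, X U * w U * (X P * s P * (X Q * s Q) * KK v ψ X (e0 w) m (x + v U + v P + v Q)) =
              ∑' U, ∑' Q, X U * w U * (X P * s P * (X Q * s Q) * KK v ψ X (e0 w) m (x + v U + v P + v Q)) :=
            fun P => ENNReal.tsum_comm
          rw [tsum_congr this, ENNReal.tsum_comm]
          refine tsum_congr fun U => ?_
          rw [← ENNReal.tsum_mul_left]
          refine tsum_congr fun P => ?_
          rw [← ENNReal.tsum_mul_left]
      _ ≤ ∑' U, X U * w U * (M ^ m * B) := ENNReal.tsum_le_tsum fun U => mul_le_mul' le_rfl (ih _)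
      _ ≤ M ^ (m + 1) * B := by
          rw [ENNReal.tsum_mul_right, pow_succ', mul_assoc]
          exact mul_le_mul' hM le_rfl

lemma bdB (hM1 : 1 ≤ M) (hM : ∑' P, X P * w P ≤ M)
    (hB : ∀ x : V, ∑' P, ∑' Q, X P * s P * (X Q * s Q) * ψ (x + v P + v Q) ≤ B) (m : ℕ) :
    ∀ x : V, ∑' P, X P * s P * KK v ψ X (e1 w s) m (x + v P) ≤ m * (M ^ m * B) := by
  induction m with
  | zero =>
    intro x
    refine le_of_eq ?_
    rw [Nat.cast_zero, zero_mul]
    refine ENNReal.tsum_eq_zero.2 fun P => ?_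
    show X P * s P * (0 * ψ _) = 0
    rw [zero_mul, mul_zero]
  | succ m ih =>
    intro x
    have e : ∀ P, X P * s P * KK v ψ X (e1 w s) (m + 1) (x + v P) =
        ∑' U, X U * w U * (X P * s P * KK v ψ X (e1 w s) m (x + v U + v P)) +
        ∑' U, X P * s P * (X U * s U) * KK v ψ X (e0 w) m (x + v P + v U) := by
      intro P
      rw [KK1_succ, mul_add, ← ENNReal.tsum_mul_left, ← ENNReal.tsum_mul_left]
      congr 1
      · refine tsum_congr fun U => ?_
        rw [show x + v P + v U = x + v U + v P by abel]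
        ring
      · refine tsum_congr fun U => ?_
        ring
    rw [tsum_congr e, ENNReal.tsum_add]
    have h1 : ∑' P, ∑' U, X U * w U * (X P * s P * KK v ψ X (e1 w s) m (x + v U + v P)) ≤ m * (M ^ (m + 1) * B) := by
      rw [ENNReal.tsum_comm]
      calc ∑' U, ∑' P, X U * w U * (X P * s P * KK v ψ X (e1 w s) m (x + v U + v P))
          = ∑' U, X U * w U * ∑' P, X P * s P * KK v ψ X (e1 w s) m (x + v U + v P) :=
            tsum_congr fun U => ENNReal.tsum_mul_left
        _ ≤ ∑' U, X U * w U * (m * (M ^ m * B)) := ENNReal.tsum_le_tsum fun U => mul_le_mul' le_rfl (ih _)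
        _ = (∑' U, X U * w U) * (m * (M ^ m * B)) := ENNReal.tsum_mul_right
        _ ≤ M * (m * (M ^ m * B)) := mul_le_mul' hM le_rfl
        _ = m * (M ^ (m + 1) * B) := by ring
    have h2 : ∑' P, ∑' U, X P * s P * (X U * s U) * KK v ψ X (e0 w) m (x + v P + v U) ≤ M ^ (m + 1) * B := by
      refine (bdA hM hB m x).trans ?_
      rw [pow_succ]
      exact mul_le_mul' (le_mul_of_one_le_right' hM1) le_rfl
    calc _ ≤ m * (M ^ (m + 1) * B) + M ^ (m + 1) * B := add_le_add h1 h2
      _ = ((m + 1 : ℕ) : ℝ≥0∞) * (M ^ (m + 1) * B) := by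
          push_cast
          ring

/-- **the sum over the lists with two marked elements** -/
theorem bdC (hM1 : 1 ≤ M) (hM : ∑' P, X P * w P ≤ M)
    (hB : ∀ x : V, ∑' P, ∑' Q, X P * s P * (X Q * s Q) * ψ (x + v P + v Q) ≤ B) (m : ℕ) :
    ∀ x : V, KK v ψ X (e2 w s) m x ≤ (m : ℝ≥0∞) ^ 2 * (M ^ m * B) := by
  induction m with
  | zero =>
    intro x
    show 0 * ψ _ ≤ _
    rw [zero_mul]
    exact zero_le
  | succ m ih =>
    intro x
    rw [KK2_succ]
    have h1 : ∑' P, X P * w P * KK v ψ X (e2 w s) m (x + v P) ≤ (m : ℝ≥0∞) ^ 2 * (M ^ (m + 1) * B) := by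
      calc _ ≤ ∑' P, X P * w P * ((m : ℝ≥0∞) ^ 2 * (M ^ m * B)) :=
            ENNReal.tsum_le_tsum fun U => mul_le_mul' le_rfl (ih _)
        _ = (∑' P, X P * w P) * ((m : ℝ≥0∞) ^ 2 * (M ^ m * B)) := ENNReal.tsum_mul_right
        _ ≤ M * ((m : ℝ≥0∞) ^ 2 * (M ^ m * B)) := mul_le_mul' hM le_rfl
        _ = (m : ℝ≥0∞) ^ 2 * (M ^ (m + 1) * B) := by ring
    have h2 : ∑' P, X P * s P * KK v ψ X (e1 w s) m (x + v P) ≤ m * (M ^ (m + 1) * B) := by
      refine (bdB hM1 hM hB m x).trans ?_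
      rw [pow_succ]
      exact mul_le_mul' le_rfl (mul_le_mul' (le_mul_of_one_le_right' hM1) le_rfl)
    calc _ ≤ (m : ℝ≥0∞) ^ 2 * (M ^ (m + 1) * B) + m * (M ^ (m + 1) * B) := add_le_add h1 h2
      _ ≤ (m : ℝ≥0∞) ^ 2 * (M ^ (m + 1) * B) + m * (M ^ (m + 1) * B) + (m * (M ^ (m + 1) * B) + M ^ (m + 1) * B) :=
          le_self_add
      _ = ((m + 1 : ℕ) : ℝ≥0∞) ^ 2 * (M ^ (m + 1) * B) := by
          push_cast
          ring

end Sums

/-! ### the pointwise inequality -/

section Top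

variable {α : Type*} {g be : α → ℝ}

lemma exists_top (g : α → ℝ) : ∀ l : List α, l ≠ [] → ∃ a l', l.Perm (a :: l') ∧ ∀ x ∈ l', g x ≤ g a := by
  intro l
  induction l with
  | nil => intro h; exact absurd rfl h
  | cons x l ih =>
    intro _
    by_cases hl : l = []
    · subst hl
      exact ⟨x, [], List.Perm.refl _, by simp⟩
    · obtain ⟨a, l', h1, h2⟩ := ih hl
      rcases le_total (g a) (g x) with h | h
      · refine ⟨x, l, List.Perm.refl _, fun y hy => ?_⟩
        rcases List.mem_cons.1 (h1.mem_iff.1 hy) with rfl | hy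
        · exact h
        · exact (h2 y hy).trans h
      · refine ⟨a, x :: l', (h1.cons x).trans (List.Perm.swap a x l'), fun y hy => ?_⟩
        rcases List.mem_cons.1 hy with rfl | hy
        · exact h
        · exact h2 y hy

/-- three largest elements -/
lemma exists_top3 (g : α → ℝ) (l : List α) (hl : 3 ≤ l.length) : ∃ a b c r, l.Perm (a :: b :: c :: r) ∧
    g c ≤ g b ∧ g b ≤ g a ∧ ∀ x ∈ r, g x ≤ g c := by
  obtain ⟨a, l1, h1, k1⟩ := exists_top g l (by rintro rfl; simp at hl)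
  have e1 := h1.length_eq
  rw [List.length_cons] at e1
  obtain ⟨b, l2, h2, k2⟩ := exists_top g l1 (by rintro rfl; simp at e1; omega)
  have e2 := h2.length_eq
  rw [List.length_cons] at e2
  obtain ⟨c, l3, h3, k3⟩ := exists_top g l2 (by rintro rfl; simp at e2; omega)
  have hb : b ∈ l1 := h2.mem_iff.2 List.mem_cons_self
  have hc : c ∈ l2 := h3.mem_iff.2 List.mem_cons_self
  exact ⟨a, b, c, l3, h1.trans ((h2.trans (h3.cons b)).cons a), k2 c hc, k1 b hb, k3⟩

/-- the third of three has the largest weight, up to the order -/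
lemma perm3 (be : α → ℝ) (a b c : α) (r : List α) : ∃ a' b' c', (a :: b :: c :: r).Perm (a' :: b' :: c' :: r) ∧
    be a' ≤ be c' ∧ be b' ≤ be c' ∧ (∀ p : α → Prop, p a → p b → p c → p a' ∧ p b' ∧ p c') := by
  rcases le_total (be a) (be b) with h1 | h1
  · rcases le_total (be b) (be c) with h2 | h2
    · exact ⟨a, b, c, List.Perm.refl _, h1.trans h2, h2, fun p x y z => ⟨x, y, z⟩⟩
    · exact ⟨a, c, b, (List.Perm.swap c b r).cons a, h1, h2, fun p x y z => ⟨x, z, y⟩⟩
  · rcases le_total (be a) (be c) with h2 | h2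
    · exact ⟨a, b, c, List.Perm.refl _, h2, h1.trans h2, fun p x y z => ⟨x, y, z⟩⟩
    · refine ⟨b, c, a, ?_, h1, h2, fun p x y z => ⟨y, z, x⟩⟩
      exact (List.Perm.swap b a (c :: r)).trans ((List.Perm.swap c a r).cons b)

/-- the weight of the elements that are not marked -/
noncomputable def ww (g be : α → ℝ) (a : α) : ℝ := be a ^ 3 / √(g a)

lemma ww_nn {a : α} (hb : 1 ≤ be a) : 0 ≤ ww g be a := by
  unfold ww
  have : 0 ≤ be a := by linarith
  positivity

lemma e0_low {t : ℝ} (ht : 0 < t) : ∀ r : List α, (∀ x ∈ r, 0 < g x ∧ g x ≤ t ∧ 1 ≤ be x) →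
    e0 be r * (1 / √t) ^ r.length ≤ e0 (ww g be) r := by
  intro r
  induction r with
  | nil => intro _; simp [e0]
  | cons a r ih =>
    intro h
    obtain ⟨h1, h2, h3⟩ := h a List.mem_cons_self
    have h4 := ih fun x hx => h x (List.mem_cons_of_mem _ hx)
    have h5 : 0 ≤ e0 be r := e0_nn fun x hx => by linarith [(h x (List.mem_cons_of_mem _ hx)).2.2]
    have h6 : be a * (1 / √t) ≤ ww g be a := by
      unfold ww
      rw [mul_one_div, div_le_div_iff₀ (Real.sqrt_pos.2 ht) (Real.sqrt_pos.2 h1)]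
      have h7 : be a ≤ be a ^ 3 := by nlinarith [mul_nonneg (by linarith : 0 ≤ be a) (by linarith : 0 ≤ be a - 1)]
      have h8 := Real.sqrt_le_sqrt h2
      exact mul_le_mul h7 h8 (Real.sqrt_nonneg _) (by positivity)
    have h9 : 0 ≤ be a * (1 / √t) := by
      have : 0 ≤ be a := by linarith
      positivity
    calc e0 be (a :: r) * (1 / √t) ^ (a :: r).length = (be a * (1 / √t)) * (e0 be r * (1 / √t) ^ r.length) := by
          simp only [e0, List.length_cons, pow_succ]
          ring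
      _ ≤ ww g be a * e0 (ww g be) r := mul_le_mul h6 h4 (by positivity) (h9.trans h6)

/-- **the pointwise inequality** -/
theorem top_le (l : List α) (hl : 11 ≤ l.length) (h : ∀ x ∈ l, 0 < g x ∧ g x ≤ 1 ∧ 1 ≤ be x) :
    e0 be l ≤ e2 (ww g be) (fun x => g x ^ 2) l := by
  obtain ⟨a, b, c, r, hp, h1, h2, h3⟩ := exists_top3 g l (by omega)
  obtain ⟨a', b', c', hp', k1, k2, k3⟩ := perm3 be a b c r
  have hpp := hp.trans hp'
  have hlen := hpp.length_eq
  simp only [List.length_cons] at hlen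
  rw [e0_perm hpp, e2_perm hpp]
  have hm : ∀ x ∈ a' :: b' :: c' :: r, 0 < g x ∧ g x ≤ 1 ∧ 1 ≤ be x := fun x hx => h x (hpp.mem_iff.2 hx)
  have hc : c ∈ l := hp.mem_iff.2 (by simp)
  obtain ⟨t0, t1, -⟩ := h c hc
  obtain ⟨ga, gb, gc⟩ := k3 (fun x => g c ≤ g x) (h1.trans h2) h1 le_rfl
  obtain ⟨a0, a1, a2⟩ := hm a' (by simp)
  obtain ⟨b0, b1, b2⟩ := hm b' (by simp)
  obtain ⟨c0, c1, c2⟩ := hm c' (by simp)
  have hr : ∀ x ∈ r, 0 < g x ∧ g x ≤ g c ∧ 1 ≤ be x := fun x hx => by
    obtain ⟨u0, -, u2⟩ := hm x (by simp [hx])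
    exact ⟨u0, h3 x hx, u2⟩
  have hww : ∀ x ∈ a' :: b' :: c' :: r, 0 ≤ ww g be x := fun x hx => ww_nn (hm x hx).2.2
  have hr0 : 0 ≤ e0 be r := e0_nn fun x hx => by linarith [(hr x hx).2.2]
  have h4 : g a' ^ 2 * (g b' ^ 2 * (ww g be c' * e0 (ww g be) r)) ≤
      e2 (ww g be) (fun x => g x ^ 2) (a' :: b' :: c' :: r) := by
    simp only [e2, e1, e0]
    have n1 : 0 ≤ ww g be a' := hww a' (by simp)
    have n2 : 0 ≤ ww g be b' := hww b' (by simp)
    have n3 : 0 ≤ ww g be c' := hww c' (by simp)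
    have hr' : ∀ x ∈ r, 0 ≤ ww g be x := fun x hx => hww x (by simp [hx])
    have n4 : 0 ≤ e0 (ww g be) r := e0_nn hr'
    have n5 : 0 ≤ e1 (ww g be) (fun x => g x ^ 2) r := e1_nn hr' fun x _ => by positivity
    have n6 : 0 ≤ e2 (ww g be) (fun x => g x ^ 2) r := e2_nn hr' fun x _ => by positivity
    have p1 : 0 ≤ ww g be a' * (ww g be b' * (ww g be c' * e2 (ww g be) (fun x => g x ^ 2) r +
      g c' ^ 2 * e1 (ww g be) (fun x => g x ^ 2) r) + g b' ^ 2 * (ww g be c' * e1 (ww g be) (fun x => g x ^ 2) r +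
        g c' ^ 2 * e0 (ww g be) r)) := by positivity
    have p2 : 0 ≤ g a' ^ 2 * (ww g be b' * (ww g be c' * e1 (ww g be) (fun x => g x ^ 2) r +
        g c' ^ 2 * e0 (ww g be) r)) := by positivity
    linarith
  refine le_trans ?_ h4
  obtain ⟨t, ht⟩ : ∃ t, t = g c := ⟨_, rfl⟩
  rw [← ht] at t0 t1 ga gb gc
  have h5 := e0_low (g := g) (be := be) t0 r (by rw [ht]; exact hr)
  have hs1 : 1 ≤ 1 / √t := by
    rw [le_div_iff₀ (Real.sqrt_pos.2 t0), one_mul]
    exact Real.sqrt_le_one.2 t1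
  have h6 : e0 be r * (1 / √t) ^ 8 ≤ e0 (ww g be) r :=
    (mul_le_mul_of_nonneg_left (pow_le_pow_right₀ hs1 (by omega)) hr0).trans h5
  have h7 : (1 / √t) ^ 8 = 1 / t ^ 4 := by
    rw [one_div_pow]
    congr 1
    calc √t ^ 8 = (√t ^ 2) ^ 4 := by ring
      _ = t ^ 4 := by rw [Real.sq_sqrt t0.le]
  rw [h7] at h6
  have h8 : be c' ^ 3 ≤ ww g be c' := by
    unfold ww
    rw [le_div_iff₀ (Real.sqrt_pos.2 c0)]
    have : √(g c') ≤ 1 := Real.sqrt_le_one.2 c1
    have h9 : 0 ≤ be c' ^ 3 := by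
      have : 0 ≤ be c' := by linarith
      positivity
    nlinarith
  have h9 : be a' * be b' * be c' ≤ be c' ^ 3 := by
    have := mul_le_mul k1 k2 (by linarith) (by linarith : (0 : ℝ) ≤ be c')
    calc be a' * be b' * be c' ≤ be c' * be c' * be c' := mul_le_mul_of_nonneg_right this (by linarith)
      _ = be c' ^ 3 := by ring
  have h10 : t ^ 2 ≤ g a' ^ 2 := pow_le_pow_left₀ t0.le ga 2
  have h11 : t ^ 2 ≤ g b' ^ 2 := pow_le_pow_left₀ t0.le gb 2
  have hbc : 0 ≤ be a' * be b' * be c' := by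
    have : 0 ≤ be a' := by linarith
    have : 0 ≤ be b' := by linarith
    have : 0 ≤ be c' := by linarith
    positivity
  calc e0 be (a' :: b' :: c' :: r) = t ^ 2 * (t ^ 2 * ((be a' * be b' * be c') * (e0 be r * (1 / t ^ 4)))) := by
        simp only [e0]
        field_simp
    _ ≤ g a' ^ 2 * (g b' ^ 2 * (ww g be c' * e0 (ww g be) r)) := by
        have p1 : 0 ≤ e0 be r * (1 / t ^ 4) := by positivity
        have q1 := mul_le_mul (h9.trans h8) h6 p1 (hbc.trans (h9.trans h8))
        have q2 := mul_le_mul h11 q1 (by positivity) (by positivity)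
        exact mul_le_mul h10 q2 (by positivity) (by positivity)

end Top

end Sm

end ARM

end HexObs
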