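import Pool.Agent.ARM.SmCnt
import Pool.Agent.ARM.BUMom
import Pool.Agent.JNT.JoBM
import Pool.Agent.TIP.YBadG

/-!
# ARM: the smoothing lemma (helper25)

`bw b q P = ((1 + |P| / m_b) (1 + ex P / 2 ^ b)) ^ q`, `ex P` the largest coordinate of `P`.

* **`smoothT`**: words `Y` of exact length and exact end with many cuts at the start: their mass is at most
  `C / (4 ^ b m_b)` times the mass of the rests behind a cut, with any weight `φ` such that `1 ≤ bw (prefix) φ (rest)`.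

Proof: 11-tuples of cuts; pointwise one of the pairs of pieces has heights not smaller than the height of 8 other pieces and
does not carry the largest weight; for this pair the joint bound `JNT.joB_M`, for the others the moments.
-/

set_option autoImplicit false

namespace HexObs

namespace ARM

open Finset TS SDN SIM NTA TIP

open scoped ENNReal

namespace Sm

open BM

/-! ### the extent -/

/-- the largest coordinate -/
noncomputable def ex (P : List Bool) : ℕ :=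
  (range (P.length + 1)).sup fun i => max (vx oo up P i).1.natAbs (vx oo up P i).2.natAbs

lemma ex_le {P : List Bool} {D : ℕ} : ex P ≤ D ↔ In D P := by
  unfold ex
  rw [Finset.sup_le_iff, YB.In_iff]
  constructor
  · intro h i hi
    have h1 := h i (mem_range.2 (by omega))
    rw [max_le_iff] at h1
    rw [Int.abs_eq_natAbs, Int.abs_eq_natAbs]
    omega
  · intro h i hi
    have h1 := h i (by have := mem_range.1 hi; omega)
    rw [Int.abs_eq_natAbs, Int.abs_eq_natAbs] at h1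
    rw [max_le_iff]
    omega

lemma ex_nil : ex [] = 0 := by
  rw [← Nat.le_zero, ex_le, YB.In_iff]
  intro i hi
  have : i = 0 := by simpa using hi
  subst this
  show |(oo : Pt).1| ≤ _ ∧ |(oo : Pt).2| ≤ _
  decide

lemma ex_app {P W : List Bool} (hP : P ∈ BU) : ex (P ++ W) ≤ ex P + ex W := by
  rw [ex_le, YB.In_iff]
  intro i hi
  have h1 := YB.In_iff.1 (ex_le.1 (le_refl (ex P)))
  have h2 := YB.In_iff.1 (ex_le.1 (le_refl (ex W)))
  rw [List.length_append] at hi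
  push_cast
  rcases le_total i P.length with h | h
  · rw [vx_append (by omega)]
    obtain ⟨a1, a2⟩ := h1 i h
    constructor <;> omega
  · obtain ⟨k, rfl⟩ : ∃ k, i = P.length + k := ⟨i - P.length, by omega⟩
    rw [vx_cat (BU_dx hP) k, Prod.fst_add, Prod.snd_add]
    obtain ⟨a1, a2⟩ := h1 P.length le_rfl
    obtain ⟨b1, b2⟩ := h2 k (by omega)
    constructor
    · exact (abs_add_le _ _).trans (add_le_add a1 b1)
    · exact (abs_add_le _ _).trans (add_le_add a2 b2)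

/-! ### the weight -/

/-- the weight of a piece -/
noncomputable def bw (b q : ℕ) (P : List Bool) : ℝ := ((1 + (P.length : ℝ) / ml b) * (1 + (ex P : ℝ) / 2 ^ b)) ^ q

lemma bw_base {b : ℕ} (P : List Bool) : 1 ≤ (1 + (P.length : ℝ) / ml b) * (1 + (ex P : ℝ) / 2 ^ b) := by
  have := ml_pos b
  have h1 : 0 ≤ (P.length : ℝ) / ml b := by positivity
  have h2 : 0 ≤ (ex P : ℝ) / 2 ^ b := by positivity
  nlinarith

lemma one_le_bw {b q : ℕ} (P : List Bool) : 1 ≤ bw b q P := one_le_pow₀ (bw_base P)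

lemma bw_app {b q : ℕ} {P W : List Bool} (hP : P ∈ BU) : bw b q (P ++ W) ≤ bw b q P * bw b q W := by
  unfold bw
  rw [← mul_pow]
  have hm := ml_pos b
  refine pow_le_pow_left₀ (by linarith [bw_base (b := b) (P ++ W)]) ?_ q
  have h1 : ((P ++ W).length : ℝ) / ml b = (P.length : ℝ) / ml b + (W.length : ℝ) / ml b := by
    rw [List.length_append]; push_cast; ring
  have h2 : (ex (P ++ W) : ℝ) / 2 ^ b ≤ (ex P : ℝ) / 2 ^ b + (ex W : ℝ) / 2 ^ b := by
    rw [← add_div]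
    refine div_le_div_of_nonneg_right ?_ (by positivity)
    exact_mod_cast ex_app hP
  obtain ⟨x, hx⟩ : ∃ x, x = (P.length : ℝ) / ml b := ⟨_, rfl⟩
  obtain ⟨x', hx'⟩ : ∃ x, x = (W.length : ℝ) / ml b := ⟨_, rfl⟩
  obtain ⟨u, hu⟩ : ∃ x, x = (ex P : ℝ) / 2 ^ b := ⟨_, rfl⟩
  obtain ⟨u', hu'⟩ : ∃ x, x = (ex W : ℝ) / 2 ^ b := ⟨_, rfl⟩
  have p1 : 0 ≤ x := by rw [hx]; positivity
  have p2 : 0 ≤ x' := by rw [hx']; positivity
  have p3 : 0 ≤ u := by rw [hu]; positivity
  have p4 : 0 ≤ u' := by rw [hu']; positivity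
  rw [h1, ← hx, ← hx', ← hu, ← hu']
  rw [← hu, ← hu'] at h2
  calc (1 + (x + x')) * (1 + (ex (P ++ W) : ℝ) / 2 ^ b) ≤ ((1 + x) * (1 + x')) * ((1 + u) * (1 + u')) := by
        refine mul_le_mul (by nlinarith [mul_nonneg p1 p2]) (by nlinarith [mul_nonneg p3 p4]) (by positivity) (by positivity)
    _ = (1 + x) * (1 + u) * ((1 + x') * (1 + u')) := by ring

lemma bw_nil {b q : ℕ} : bw b q [] = 1 := by
  unfold bw
  rw [ex_nil]
  simp

lemma bw_flatten {b q : ℕ} : ∀ Ps : List (List Bool), (∀ P ∈ Ps, P ∈ BU) → bw b q Ps.flatten ≤ e0 (bw b q) Ps := by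
  intro Ps
  induction Ps with
  | nil =>
    intro _
    rw [List.flatten_nil, bw_nil]
    exact le_rfl
  | cons P Ps ih =>
    intro h
    rw [List.flatten_cons]
    have h1 := ih fun Q hQ => h Q (List.mem_cons_of_mem _ hQ)
    refine (bw_app (h P List.mem_cons_self)).trans ?_
    exact mul_le_mul_of_nonneg_left h1 (by linarith [one_le_bw (b := b) (q := q) P])

lemma ml_mono {k b : ℕ} (h : k ≤ b) : ml k ≤ ml b := by
  unfold ml
  refine Real.rpow_le_rpow_of_exponent_le (by norm_num) ?_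
  have : (k : ℝ) ≤ b := by exact_mod_cast h
  linarith

lemma bw_mono {k b q : ℕ} (h : k ≤ b) (P : List Bool) : bw b q P ≤ bw k q P := by
  unfold bw
  refine pow_le_pow_left₀ (by linarith [bw_base (b := b) P]) ?_ q
  have h1 := ml_pos k
  have h2 : (P.length : ℝ) / ml b ≤ (P.length : ℝ) / ml k := div_le_div_of_nonneg_left (by positivity) h1 (ml_mono h)
  have h3 : (ex P : ℝ) / 2 ^ b ≤ (ex P : ℝ) / 2 ^ k :=
    div_le_div_of_nonneg_left (by positivity) (by positivity) (pow_le_pow_right₀ (by norm_num) h)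
  exact mul_le_mul (by linarith) (by linarith) (by positivity) (by positivity)

/-! ### the moments -/

/-- the tail of the extents -/
lemma ex_tail (Q : ℕ) : ∃ A : ℝ, 0 < A ∧ ∀ b n : ℕ,
    gf {Z | Z ∈ Lb b ∧ (2 : ℝ) ^ n ≤ (ex Z : ℝ) / 2 ^ b} ≤ ENNReal.ofReal (A * Ub b / ((2 : ℝ) ^ n) ^ Q) := by
  obtain ⟨C, c, hC, hc, h⟩ := wide_free
  refine ⟨C * Real.exp c * ((Q.factorial : ℝ) / (c / 4) ^ Q), by positivity, fun b n => ?_⟩
  have hU := Ub_pos b
  have h2n : (0 : ℝ) < 2 ^ n := by positivity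
  refine (gf_mono (Q := {Z | Z ∈ BU ∧ hgt Z ≤ 2 ^ (b + 1) ∧ ¬ In (2 ^ n / 4 * 2 ^ b) Z}) ?_).trans
    ((h b _).trans (ENNReal.ofReal_le_ofReal ?_))
  · rintro Z ⟨⟨h1, h2⟩, h3⟩
    refine ⟨h1, h2.trans (Nat.pow_le_pow_right (by norm_num) (by omega)), fun hI => ?_⟩
    have h4 := ex_le.2 hI
    rw [le_div_iff₀ (by positivity)] at h3
    have h5 : 2 ^ n * 2 ^ b ≤ ex Z := by exact_mod_cast h3
    have h6 : 2 ^ n / 4 * 2 ^ b < 2 ^ n * 2 ^ b := by
      refine Nat.mul_lt_mul_of_pos_right ?_ (by positivity)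
      have : 0 < 2 ^ n := by positivity
      omega
    omega
  · have h1 : Real.exp (-(c * ((2 ^ n / 4 : ℕ) : ℝ))) ≤ Real.exp c * Real.exp (-(c / 4 * 2 ^ n)) := by
      rw [← Real.exp_add]
      apply Real.exp_le_exp.2
      have h2 : 2 ^ n ≤ 4 * (2 ^ n / 4) + 4 := by omega
      have h3 : ((2 : ℝ) ^ n) ≤ 4 * ((2 ^ n / 4 : ℕ) : ℝ) + 4 := by exact_mod_cast h2
      nlinarith
    have h2 : Real.exp (-(c / 4 * 2 ^ n)) ≤ (Q.factorial : ℝ) / (c / 4) ^ Q / (2 ^ n) ^ Q := by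
      have h3 := Real.pow_div_factorial_le_exp (c / 4 * 2 ^ n) (by positivity) Q
      rw [Real.exp_neg, div_div, ← mul_pow, inv_eq_one_div, div_le_div_iff₀ (Real.exp_pos _) (by positivity), one_mul]
      rw [div_le_iff₀ (by positivity)] at h3
      linarith
    calc C * Real.exp (-(c * ((2 ^ n / 4 : ℕ) : ℝ))) * Ub b
        ≤ C * (Real.exp c * ((Q.factorial : ℝ) / (c / 4) ^ Q / (2 ^ n) ^ Q)) * Ub b := by gcongr; exact h1.trans (by gcongr)
      _ = _ := by ring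

/-- moments of the weight -/
lemma bwMom (q : ℕ) : ∃ C : ℝ, 0 < C ∧ ∀ b : ℕ, ∑' Z : Lb b, wE (Z : List Bool) * ENNReal.ofReal (bw b q Z) ≤
    ENNReal.ofReal (C * Ub b) := by
  obtain ⟨A1, hA1, h1⟩ := len_tail (2 * q + 1)
  obtain ⟨A2, hA2, h2⟩ := ex_tail (2 * q + 1)
  refine ⟨(2 ^ (2 * q) + 2 * 4 ^ (2 * q) * A1) + (2 ^ (2 * q) + 2 * 4 ^ (2 * q) * A2), by positivity, fun b => ?_⟩
  have hU := Ub_pos b
  have hml := ml_pos b
  have hx : ∀ Z : List Bool, 0 ≤ (Z.length : ℝ) / ml b := fun Z => by positivity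
  have hy : ∀ Z : List Bool, 0 ≤ (ex Z : ℝ) / 2 ^ b := fun Z => by positivity
  have k1 := mom_of_tail (S := Lb b) hx (2 * q) (A := A1 * Ub b) (B := Ub b) (by positivity) hU.le (gf_Lb b) (h1 b)
  have k2 := mom_of_tail (S := Lb b) hy (2 * q) (A := A2 * Ub b) (B := Ub b) (by positivity) hU.le (gf_Lb b) (h2 b)
  calc ∑' Z : Lb b, wE (Z : List Bool) * ENNReal.ofReal (bw b q Z)
      ≤ ∑' Z : Lb b, (wE (Z : List Bool) * ENNReal.ofReal ((1 + ((Z : List Bool).length : ℝ) / ml b) ^ (2 * q)) +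
        wE (Z : List Bool) * ENNReal.ofReal ((1 + (ex (Z : List Bool) : ℝ) / 2 ^ b) ^ (2 * q))) := by
        refine ENNReal.tsum_le_tsum fun Z => ?_
        rw [← mul_add, ← ENNReal.ofReal_add (by have := hx Z; positivity) (by have := hy Z; positivity)]
        refine mul_le_mul_right (ENNReal.ofReal_le_ofReal ?_) _
        unfold bw
        obtain ⟨s, hs⟩ : ∃ s, s = (1 + ((Z : List Bool).length : ℝ) / ml b) ^ q := ⟨_, rfl⟩
        obtain ⟨t, ht⟩ : ∃ t, t = (1 + (ex (Z : List Bool) : ℝ) / 2 ^ b) ^ q := ⟨_, rfl⟩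
        rw [mul_pow, ← hs, ← ht, mul_comm 2 q, pow_mul, pow_mul, ← hs, ← ht]
        nlinarith [sq_nonneg (s - t), sq_nonneg (s + t)]
    _ ≤ ENNReal.ofReal (2 ^ (2 * q) * Ub b + 2 * 4 ^ (2 * q) * (A1 * Ub b)) +
        ENNReal.ofReal (2 ^ (2 * q) * Ub b + 2 * 4 ^ (2 * q) * (A2 * Ub b)) := by
        rw [ENNReal.tsum_add]
        exact add_le_add k1 k2
    _ = _ := by
        rw [← ENNReal.ofReal_add (by positivity) (by positivity)]
        congr 1
        ring

/-! ### numbers -/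

lemma ub_rat : ∃ R : ℝ, 1 ≤ R ∧ ∀ k b : ℕ, k ≤ b → Ub k ≤ R * (2 : ℝ) ^ (-(3 / 4) * ((b - k : ℕ) : ℝ)) * Ub b := by
  obtain ⟨c, C, hc, hC, h⟩ := JNT.JoT.Ub_two
  refine ⟨max (C / c) 1, le_max_right _ _, fun k b hkb => ?_⟩
  have h1 := (h k).2
  have h2 := (h b).1
  have e : (2 : ℝ) ^ (3 / 4 * (k : ℝ)) = (2 : ℝ) ^ (-(3 / 4) * ((b - k : ℕ) : ℝ)) * (2 : ℝ) ^ (3 / 4 * (b : ℝ)) := by
    rw [← Real.rpow_add (by norm_num), Nat.cast_sub hkb]
    congr 1
    ring
  have hp : (0 : ℝ) < (2 : ℝ) ^ (-(3 / 4) * ((b - k : ℕ) : ℝ)) := by positivity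
  calc Ub k ≤ C * ((2 : ℝ) ^ (-(3 / 4) * ((b - k : ℕ) : ℝ)) * (2 : ℝ) ^ (3 / 4 * (b : ℝ))) := by rw [← e]; exact h1
    _ = C / c * (2 : ℝ) ^ (-(3 / 4) * ((b - k : ℕ) : ℝ)) * (c * (2 : ℝ) ^ (3 / 4 * (b : ℝ))) := by
        field_simp
    _ ≤ C / c * (2 : ℝ) ^ (-(3 / 4) * ((b - k : ℕ) : ℝ)) * Ub b := mul_le_mul_of_nonneg_left h2 (by positivity)
    _ ≤ _ := by
        refine mul_le_mul_of_nonneg_right ?_ (Ub_pos b).le
        exact mul_le_mul_of_nonneg_right (le_max_left _ _) hp.le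

lemma ml_rat {k b : ℕ} (hkb : k ≤ b) : ml k = (2 : ℝ) ^ (-(4 / 3) * ((b - k : ℕ) : ℝ)) * ml b := by
  unfold ml
  rw [← Real.rpow_add (by norm_num), Nat.cast_sub hkb]
  congr 1
  ring

/-- geometric sums of rpow -/
lemma geo_sum {a : ℝ} (ha : 0 < a) : ∃ G : ℝ, 0 < G ∧ ∀ b : ℕ,
    ∑ k ∈ range (b + 1), (2 : ℝ) ^ (-a * ((b - k : ℕ) : ℝ)) ≤ G := by
  obtain ⟨r, hr⟩ : ∃ r : ℝ, r = (2 : ℝ) ^ (-a) := ⟨_, rfl⟩
  have hr0 : 0 < r := by rw [hr]; positivity
  have hr1 : r < 1 := by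
    rw [hr]
    exact Real.rpow_lt_one_of_one_lt_of_neg (by norm_num) (by linarith)
  refine ⟨(1 - r)⁻¹, inv_pos.2 (by linarith), fun b => ?_⟩
  have e : ∀ k ∈ range (b + 1), (2 : ℝ) ^ (-a * ((b - k : ℕ) : ℝ)) = r ^ (b + 1 - 1 - k) := by
    intro k _
    rw [Nat.add_sub_cancel, hr, ← Real.rpow_natCast, ← Real.rpow_mul (by norm_num)]
  rw [sum_congr rfl e, Finset.sum_range_reflect (fun j => r ^ j) (b + 1)]
  have hs := summable_geometric_of_lt_one hr0.le hr1
  rw [← tsum_geometric_of_lt_one hr0.le hr1]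
  exact hs.sum_le_tsum _ fun i _ => pow_nonneg hr0.le i

/-! ### the pieces -/

/-- the pieces -/
def Xs (b : ℕ) : Set (List Bool) := {P | P ∈ BU ∧ P ≠ [] ∧ hgt P ≤ 2 ^ b}

lemma hgt_pos {P : List Bool} (h : P ∈ BU) (h0 : P ≠ []) : 1 ≤ hgt P := by
  by_contra hc
  have h1 := mem_Brd.1 (TIP.BU_hgt h)
  have h2 : 1 ≤ P.length := List.length_pos_iff.2 h0
  have h3 := (h1.1 P.length h2 le_rfl).1
  rw [h1.2.2.2] at h3
  omega

/-- relative height -/
noncomputable def gg (b : ℕ) (P : List Bool) : ℝ := (hgt P : ℝ) / 2 ^ b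

lemma gg_pos {b : ℕ} {P : List Bool} (h : P ∈ Xs b) : 0 < gg b P := by
  have := hgt_pos h.1 h.2.1
  have h1 : (0 : ℝ) < hgt P := by exact_mod_cast this
  unfold gg
  positivity

lemma gg_le {b : ℕ} {P : List Bool} (h : P ∈ Xs b) : gg b P ≤ 1 := by
  unfold gg
  rw [div_le_one (by positivity)]
  exact_mod_cast h.2.2

open Classical in
/-- weight of the other pieces -/
noncomputable def wx (b q : ℕ) (P : List Bool) : ℝ≥0∞ :=
  if P ∈ Xs b then ENNReal.ofReal (ww (gg b) (bw b q) P / Ub b) else 0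

open Classical in
/-- weight of the two pieces of the pair -/
noncomputable def sx (b : ℕ) (P : List Bool) : ℝ≥0∞ :=
  if P ∈ Xs b then ENNReal.ofReal (gg b P ^ 2 / Ub b) else 0

open Classical in
lemma wx_sum (q : ℕ) : ∃ C : ℝ, 1 ≤ C ∧ ∀ b : ℕ, ∑' P : List Bool, wE P * wx b q P ≤ ENNReal.ofReal C := by
  obtain ⟨C, hC, hmom⟩ := bwMom (3 * q)
  obtain ⟨R, hR, hrat⟩ := ub_rat
  obtain ⟨G, hG, hgeo⟩ := geo_sum (a := 1 / 4) (by norm_num)
  refine ⟨max 1 (√2 * C * R * G), le_max_left _ _, fun b => ?_⟩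
  have hU := Ub_pos b
  have key : ∀ P : List Bool, wE P * wx b q P ≤ ∑ k ∈ range (b + 1), ENNReal.ofReal (√(2 * 2 ^ (b - k)) / Ub b) *
      (if P ∈ Lb k then wE P * ENNReal.ofReal (bw k (3 * q) P) else 0) := by
    intro P
    unfold wx
    by_cases hP : P ∈ Xs b
    · rw [if_pos hP]
      have h1 := hgt_pos hP.1 hP.2.1
      obtain ⟨k, hk⟩ : ∃ k, k = Nat.clog 2 (hgt P) := ⟨_, rfl⟩
      have hk1 : hgt P ≤ 2 ^ k := by rw [hk]; exact Nat.le_pow_clog (by norm_num) _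
      have hkb : k ≤ b := by
        rw [hk]
        exact (Nat.clog_le_iff_le_pow (by norm_num)).2 hP.2.2
      have hk2 : 2 ^ k ≤ 2 * hgt P := by
        rcases Nat.eq_zero_or_pos k with h | h
        · rw [h]; omega
        · have h2 : 2 ^ (k - 1) < hgt P := by
            by_contra hc
            have := (Nat.clog_le_iff_le_pow (b := 2) (by norm_num)).2 (not_lt.1 hc)
            omega
          have h3 : 2 ^ k = 2 * 2 ^ (k - 1) := by
            rw [← pow_succ', Nat.sub_add_cancel h]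
          omega
      refine le_trans ?_ (single_le_sum (f := fun k => ENNReal.ofReal (√(2 * 2 ^ (b - k)) / Ub b) *
        (if P ∈ Lb k then wE P * ENNReal.ofReal (bw k (3 * q) P) else 0)) (fun _ _ => zero_le)
          (mem_range.2 (Nat.lt_succ_of_le hkb)))
      show _ ≤ ENNReal.ofReal (√(2 * 2 ^ (b - k)) / Ub b) * (if P ∈ Lb k then wE P * ENNReal.ofReal (bw k (3 * q) P) else 0)
      rw [if_pos (show P ∈ Lb k from ⟨hP.1, hk1⟩), ← mul_assoc, mul_comm _ (wE P), mul_assoc,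
        ← ENNReal.ofReal_mul (by positivity)]
      refine mul_le_mul' le_rfl (ENNReal.ofReal_le_ofReal ?_)
      rw [div_mul_eq_mul_div]
      refine div_le_div_of_nonneg_right ?_ hU.le
      have e3 : bw b q P ^ 3 = bw b (3 * q) P := by
        unfold bw
        rw [← pow_mul, mul_comm q 3]
      unfold ww
      rw [e3, div_eq_mul_one_div, mul_comm]
      have hg := gg_pos hP
      refine mul_le_mul ?_ (bw_mono hkb P) (by linarith [one_le_bw (b := b) (q := 3 * q) P]) (Real.sqrt_nonneg _)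
      rw [← Real.sqrt_one, ← Real.sqrt_div (by norm_num)]
      refine Real.sqrt_le_sqrt ?_
      rw [div_le_iff₀ hg]
      unfold gg
      have h4 : (2 : ℝ) ^ b = 2 ^ (b - k) * 2 ^ k := by rw [← pow_add, Nat.sub_add_cancel hkb]
      have h5 : ((2 : ℝ) ^ k) ≤ 2 * hgt P := by exact_mod_cast hk2
      rw [h4, mul_div_assoc', le_div_iff₀ (by positivity), one_mul]
      have h6 : (0 : ℝ) < 2 ^ (b - k) := by positivity
      nlinarith
    · rw [if_neg hP, mul_zero]
      exact zero_le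
  refine (ENNReal.tsum_le_tsum key).trans ?_
  rw [Summable.tsum_finsetSum (fun _ _ => ENNReal.summable)]
  have h1 : ∀ k ∈ range (b + 1), ∑' P : List Bool, ENNReal.ofReal (√(2 * 2 ^ (b - k)) / Ub b) *
      (if P ∈ Lb k then wE P * ENNReal.ofReal (bw k (3 * q) P) else 0) ≤
      ENNReal.ofReal (√2 * C * R * (2 : ℝ) ^ (-(1 / 4) * ((b - k : ℕ) : ℝ))) := by
    intro k hk
    have hkb : k ≤ b := Nat.lt_succ_iff.1 (mem_range.1 hk)
    rw [ENNReal.tsum_mul_left]
    have e1 : ∑' P : List Bool, (if P ∈ Lb k then wE P * ENNReal.ofReal (bw k (3 * q) P) else 0) =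
        ∑' Z : Lb k, wE (Z : List Bool) * ENNReal.ofReal (bw k (3 * q) Z) := by
      rw [tsum_subtype (Lb k) (fun P => wE P * ENNReal.ofReal (bw k (3 * q) P))]
      refine tsum_congr fun P => ?_
      rw [Set.indicator_apply]
    rw [e1]
    refine (mul_le_mul' le_rfl (hmom k)).trans ?_
    rw [← ENNReal.ofReal_mul (by positivity)]
    refine ENNReal.ofReal_le_ofReal ?_
    have h2 := hrat k b hkb
    have h3 : √(2 * 2 ^ (b - k)) = √2 * (2 : ℝ) ^ ((1 / 2 : ℝ) * ((b - k : ℕ) : ℝ)) := by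
      rw [Real.sqrt_mul (by norm_num), Real.sqrt_eq_rpow ((2 : ℝ) ^ (b - k)), ← Real.rpow_natCast 2 (b - k),
        ← Real.rpow_mul (by norm_num)]
      congr 2
      ring
    have h4 : (2 : ℝ) ^ ((1 / 2 : ℝ) * ((b - k : ℕ) : ℝ)) * (2 : ℝ) ^ (-(3 / 4) * ((b - k : ℕ) : ℝ)) =
        (2 : ℝ) ^ (-(1 / 4) * ((b - k : ℕ) : ℝ)) := by
      rw [← Real.rpow_add (by norm_num)]
      congr 1
      ring
    calc √(2 * 2 ^ (b - k)) / Ub b * (C * Ub k)
        ≤ √(2 * 2 ^ (b - k)) / Ub b * (C * (R * (2 : ℝ) ^ (-(3 / 4) * ((b - k : ℕ) : ℝ)) * Ub b)) := by gcongr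
      _ = √2 * C * R * ((2 : ℝ) ^ ((1 / 2 : ℝ) * ((b - k : ℕ) : ℝ)) * (2 : ℝ) ^ (-(3 / 4) * ((b - k : ℕ) : ℝ))) := by
          rw [h3]
          field_simp
      _ = _ := by rw [h4]
  refine (sum_le_sum h1).trans ?_
  rw [← ENNReal.ofReal_sum_of_nonneg (fun k _ => by positivity), ← mul_sum]
  refine ENNReal.ofReal_le_ofReal ?_
  have h5 := hgeo b
  exact (mul_le_mul_of_nonneg_left h5 (by positivity)).trans (le_max_right _ _)

open Classical in
lemma sx_sum : ∃ C : ℝ, 0 < C ∧ ∀ (b : ℕ) (z x : Pt × ℕ), ∑' P : List Bool, ∑' Q : List Bool,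
    wE P * sx b P * (wE Q * sx b Q) * (if x + vv P + vv Q = z then 1 else 0) ≤ ENNReal.ofReal (C / (4 ^ b * ml b)) := by
  obtain ⟨C, hC, hj⟩ := JNT.joB_M
  obtain ⟨R, hR, hrat⟩ := ub_rat
  obtain ⟨G, hG, hgeo⟩ := geo_sum (a := 1 / 6) (by norm_num)
  obtain ⟨D, hD, hmz⟩ := le_mZ
  refine ⟨4 * C * R ^ 2 * D * G, by positivity, fun b z x => ?_⟩
  have hU := Ub_pos b
  have hml := ml_pos b
  have key : ∀ P Q : List Bool, wE P * sx b P * (wE Q * sx b Q) * (if x + vv P + vv Q = z then 1 else 0) ≤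
      ∑ k ∈ range (b + 1), ENNReal.ofReal (4 * 4 ^ k / 4 ^ b / Ub b ^ 2) *
        (if P ∈ HB (2 ^ k) ∧ Q ∈ HB (2 ^ k) ∧ JNT.en P + JNT.en Q = z.1 - x.1 ∧ P.length + Q.length = z.2 - x.2 then
          wE P * wE Q else 0) := by
    intro P Q
    by_cases hP : P ∈ Xs b
    swap
    · unfold sx
      rw [if_neg hP, mul_zero, zero_mul, zero_mul]
      exact zero_le
    by_cases hQ : Q ∈ Xs b
    swap
    · unfold sx
      rw [if_neg hQ, mul_zero, mul_zero, zero_mul]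
      exact zero_le
    by_cases hz : x + vv P + vv Q = z
    swap
    · rw [if_neg hz, mul_zero]
      exact zero_le
    obtain ⟨k, hk⟩ : ∃ k, k = Nat.log 2 (min (hgt P) (hgt Q)) := ⟨_, rfl⟩
    have hp := hgt_pos hP.1 hP.2.1
    have hq := hgt_pos hQ.1 hQ.2.1
    have hmin : min (hgt P) (hgt Q) ≠ 0 := by
      have : 1 ≤ min (hgt P) (hgt Q) := le_min hp hq
      omega
    have hk1 : 2 ^ k ≤ min (hgt P) (hgt Q) := by rw [hk]; exact Nat.pow_log_le_self 2 hmin
    have hk2 : min (hgt P) (hgt Q) < 2 ^ (k + 1) := by rw [hk]; exact Nat.lt_pow_succ_log_self (by norm_num) _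
    have hkb : k ≤ b := by
      have h1 : 2 ^ k ≤ 2 ^ b := hk1.trans ((min_le_left _ _).trans hP.2.2)
      exact (Nat.pow_le_pow_iff_right (by norm_num)).1 h1
    refine le_trans ?_ (single_le_sum (f := fun k => ENNReal.ofReal (4 * 4 ^ k / 4 ^ b / Ub b ^ 2) *
        (if P ∈ HB (2 ^ k) ∧ Q ∈ HB (2 ^ k) ∧ JNT.en P + JNT.en Q = z.1 - x.1 ∧ P.length + Q.length = z.2 - x.2 then
          wE P * wE Q else 0)) (fun _ _ => zero_le) (mem_range.2 (Nat.lt_succ_of_le hkb)))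
    have hcond : P ∈ HB (2 ^ k) ∧ Q ∈ HB (2 ^ k) ∧ JNT.en P + JNT.en Q = z.1 - x.1 ∧ P.length + Q.length = z.2 - x.2 := by
      refine ⟨⟨hgt P, hk1.trans (min_le_left _ _), TIP.BU_hgt hP.1⟩, ⟨hgt Q, hk1.trans (min_le_right _ _), TIP.BU_hgt hQ.1⟩, ?_, ?_⟩
      · have h1 := congrArg Prod.fst hz
        have h2 : (x + vv P + vv Q).1 = x.1 + JNT.en P + JNT.en Q := rfl
        rw [← h1, h2]
        abel
      · have h1 := congrArg Prod.snd hz
        have h2 : (x + vv P + vv Q).2 = x.2 + P.length + Q.length := rfl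
        rw [← h1, h2]
        omega
    show _ ≤ ENNReal.ofReal (4 * 4 ^ k / 4 ^ b / Ub b ^ 2) *
        (if P ∈ HB (2 ^ k) ∧ Q ∈ HB (2 ^ k) ∧ JNT.en P + JNT.en Q = z.1 - x.1 ∧ P.length + Q.length = z.2 - x.2 then
          wE P * wE Q else 0)
    rw [if_pos hcond, if_pos hz, mul_one]
    unfold sx
    rw [if_pos hP, if_pos hQ]
    calc wE P * ENNReal.ofReal (gg b P ^ 2 / Ub b) * (wE Q * ENNReal.ofReal (gg b Q ^ 2 / Ub b))
        = ENNReal.ofReal (gg b P ^ 2 / Ub b * (gg b Q ^ 2 / Ub b)) * (wE P * wE Q) := by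
          rw [ENNReal.ofReal_mul (by positivity)]
          ring
      _ ≤ _ := by
          refine mul_le_mul' (ENNReal.ofReal_le_ofReal ?_) le_rfl
          have h1 : gg b P ^ 2 / Ub b * (gg b Q ^ 2 / Ub b) = (gg b P * gg b Q) ^ 2 / Ub b ^ 2 := by
            field_simp
          rw [h1]
          refine div_le_div_of_nonneg_right ?_ (by positivity)
          have h2 : gg b P * gg b Q ≤ 2 * 2 ^ k / 2 ^ b := by
            have a1 := gg_le hP
            have a2 := gg_le hQ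
            have a3 := (gg_pos hP).le
            have a4 := (gg_pos hQ).le
            have a5 : ((min (hgt P) (hgt Q) : ℕ) : ℝ) ≤ 2 * 2 ^ k := by
              have : min (hgt P) (hgt Q) ≤ 2 * 2 ^ k := by rw [← pow_succ']; omega
              exact_mod_cast this
            rcases le_total (hgt P) (hgt Q) with h | h
            · rw [min_eq_left h] at a5
              have a6 : gg b P ≤ 2 * 2 ^ k / 2 ^ b := div_le_div_of_nonneg_right a5 (by positivity)
              nlinarith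
            · rw [min_eq_right h] at a5
              have a6 : gg b Q ≤ 2 * 2 ^ k / 2 ^ b := div_le_div_of_nonneg_right a5 (by positivity)
              nlinarith
          have h3 : 0 ≤ gg b P * gg b Q := mul_nonneg (gg_pos hP).le (gg_pos hQ).le
          calc (gg b P * gg b Q) ^ 2 ≤ (2 * 2 ^ k / 2 ^ b) ^ 2 := pow_le_pow_left₀ h3 h2 2
            _ = 4 * 4 ^ k / 4 ^ b := by
                rw [div_pow, mul_pow, ← pow_mul, ← pow_mul, mul_comm k 2, mul_comm b 2, pow_mul, pow_mul]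
                norm_num
  refine (ENNReal.tsum_le_tsum fun P => ENNReal.tsum_le_tsum fun Q => key P Q).trans ?_
  have e1 : ∀ P : List Bool, ∑' Q : List Bool, ∑ k ∈ range (b + 1), ENNReal.ofReal (4 * 4 ^ k / 4 ^ b / Ub b ^ 2) *
        (if P ∈ HB (2 ^ k) ∧ Q ∈ HB (2 ^ k) ∧ JNT.en P + JNT.en Q = z.1 - x.1 ∧ P.length + Q.length = z.2 - x.2 then
          wE P * wE Q else 0) = ∑ k ∈ range (b + 1), ENNReal.ofReal (4 * 4 ^ k / 4 ^ b / Ub b ^ 2) *
        ∑' Q : List Bool, (if P ∈ HB (2 ^ k) ∧ Q ∈ HB (2 ^ k) ∧ JNT.en P + JNT.en Q = z.1 - x.1 ∧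
          P.length + Q.length = z.2 - x.2 then wE P * wE Q else 0) := by
    intro P
    rw [Summable.tsum_finsetSum (fun _ _ => ENNReal.summable)]
    exact sum_congr rfl fun k _ => ENNReal.tsum_mul_left
  rw [tsum_congr e1, Summable.tsum_finsetSum (fun _ _ => ENNReal.summable)]
  have h1 : ∀ k ∈ range (b + 1), ∑' P : List Bool, ENNReal.ofReal (4 * 4 ^ k / 4 ^ b / Ub b ^ 2) *
        ∑' Q : List Bool, (if P ∈ HB (2 ^ k) ∧ Q ∈ HB (2 ^ k) ∧ JNT.en P + JNT.en Q = z.1 - x.1 ∧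
          P.length + Q.length = z.2 - x.2 then wE P * wE Q else 0) ≤
      ENNReal.ofReal (4 * C * R ^ 2 * D / (4 ^ b * ml b) * (2 : ℝ) ^ (-(1 / 6) * ((b - k : ℕ) : ℝ))) := by
    intro k hk
    have hkb : k ≤ b := Nat.lt_succ_iff.1 (mem_range.1 hk)
    rw [ENNReal.tsum_mul_left]
    refine (mul_le_mul' le_rfl (hj k (z.1 - x.1) (z.2 - x.2))).trans ?_
    rw [← ENNReal.ofReal_mul (by positivity)]
    refine ENNReal.ofReal_le_ofReal ?_
    have hUk := Ub_pos k
    have hmk := ml_pos k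
    have h2 := hrat k b hkb
    have h3 : 0 < PW.mZ (2 ^ k) := PW.mZ_pos Nat.one_le_two_pow
    have h4 : 1 / PW.mZ (2 ^ k) ≤ D / ml k := by
      rw [div_le_div_iff₀ h3 hmk, one_mul]
      exact hmz k
    have h5 : Ub k ^ 2 ≤ (R * (2 : ℝ) ^ (-(3 / 4) * ((b - k : ℕ) : ℝ)) * Ub b) ^ 2 := pow_le_pow_left₀ hUk.le h2 2
    obtain ⟨j, hjd⟩ : ∃ j : ℝ, j = ((b - k : ℕ) : ℝ) := ⟨_, rfl⟩
    have h6 := ml_rat hkb
    rw [← hjd] at h5 h6 ⊢
    have e6 : ((2 : ℝ) ^ (-(3 / 4) * j)) ^ 2 / (2 : ℝ) ^ (-(4 / 3) * j) = (2 : ℝ) ^ (-(1 / 6) * j) := by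
      rw [← Real.rpow_natCast ((2 : ℝ) ^ (-(3 / 4) * j)) 2, ← Real.rpow_mul (by norm_num), ← Real.rpow_sub (by norm_num)]
      congr 1
      push_cast
      ring
    have h7 : (0 : ℝ) < (2 : ℝ) ^ (-(4 / 3) * j) := by positivity
    calc 4 * 4 ^ k / 4 ^ b / Ub b ^ 2 * (C * (Ub k ^ 2 / (4 ^ k * PW.mZ (2 ^ k))))
        = 4 * C / 4 ^ b / Ub b ^ 2 * (Ub k ^ 2 * (1 / PW.mZ (2 ^ k))) := by
          field_simp
      _ ≤ 4 * C / 4 ^ b / Ub b ^ 2 * ((R * (2 : ℝ) ^ (-(3 / 4) * j) * Ub b) ^ 2 * (D / ml k)) := by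
          refine mul_le_mul_of_nonneg_left ?_ (by positivity)
          exact mul_le_mul h5 h4 (by positivity) (by positivity)
      _ = 4 * C * R ^ 2 * D / (4 ^ b * ml b) * (((2 : ℝ) ^ (-(3 / 4) * j)) ^ 2 / (2 : ℝ) ^ (-(4 / 3) * j)) := by
          rw [h6]
          field_simp
      _ = _ := by rw [e6]
  refine (sum_le_sum h1).trans ?_
  rw [← ENNReal.ofReal_sum_of_nonneg (fun k _ => by positivity), ← mul_sum]
  refine ENNReal.ofReal_le_ofReal ?_
  have h5 := hgeo b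
  calc 4 * C * R ^ 2 * D / (4 ^ b * ml b) * ∑ i ∈ range (b + 1), (2 : ℝ) ^ (-(1 / 6) * ((b - i : ℕ) : ℝ))
      ≤ 4 * C * R ^ 2 * D / (4 ^ b * ml b) * G := mul_le_mul_of_nonneg_left h5 (by positivity)
    _ = _ := by ring

/-! ### scaling of e2 -/

lemma e0_div {α : Type*} {w : α → ℝ} {U : ℝ} (hU : U ≠ 0) : ∀ l : List α,
    e0 (fun a => w a / U) l * U ^ l.length = e0 w l := by
  intro l
  induction l with
  | nil => simp [e0]
  | cons a l ih =>
    simp only [e0, List.length_cons, pow_succ]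
    rw [← ih]
    field_simp

lemma e1_div {α : Type*} {w s : α → ℝ} {U : ℝ} (hU : U ≠ 0) : ∀ l : List α,
    e1 (fun a => w a / U) (fun a => s a / U) l * U ^ l.length = e1 w s l := by
  intro l
  induction l with
  | nil => simp [e1]
  | cons a l ih =>
    simp only [e1, List.length_cons, pow_succ]
    rw [← ih, ← e0_div (w := w) hU l]
    field_simp

lemma e2_div {α : Type*} {w s : α → ℝ} {U : ℝ} (hU : U ≠ 0) : ∀ l : List α,
    e2 (fun a => w a / U) (fun a => s a / U) l * U ^ l.length = e2 w s l := by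
  intro l
  induction l with
  | nil => simp [e2]
  | cons a l ih =>
    simp only [e2, List.length_cons, pow_succ]
    rw [← ih, ← e1_div (w := w) (s := s) hU l]
    field_simp

lemma e0_congr {α R : Type*} [CommSemiring R] {w w' : α → R} : ∀ {l : List α}, (∀ a ∈ l, w a = w' a) →
    e0 w l = e0 w' l := by
  intro l
  induction l with
  | nil => intro _; rfl
  | cons a l ih =>
    intro h
    simp only [e0]
    rw [h a List.mem_cons_self, ih fun x hx => h x (List.mem_cons_of_mem _ hx)]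

lemma e1_congr {α R : Type*} [CommSemiring R] {w w' s s' : α → R} : ∀ {l : List α}, (∀ a ∈ l, w a = w' a) →
    (∀ a ∈ l, s a = s' a) → e1 w s l = e1 w' s' l := by
  intro l
  induction l with
  | nil => intro _ _; rfl
  | cons a l ih =>
    intro h k
    have h1 : ∀ x ∈ l, w x = w' x := fun x hx => h x (List.mem_cons_of_mem _ hx)
    simp only [e1]
    rw [h a List.mem_cons_self, k a List.mem_cons_self, ih h1 fun x hx => k x (List.mem_cons_of_mem _ hx), e0_congr h1]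

lemma e2_congr {α R : Type*} [CommSemiring R] {w w' s s' : α → R} : ∀ {l : List α}, (∀ a ∈ l, w a = w' a) →
    (∀ a ∈ l, s a = s' a) → e2 w s l = e2 w' s' l := by
  intro l
  induction l with
  | nil => intro _ _; rfl
  | cons a l ih =>
    intro h k
    have h1 : ∀ x ∈ l, w x = w' x := fun x hx => h x (List.mem_cons_of_mem _ hx)
    have h2 : ∀ x ∈ l, s x = s' x := fun x hx => k x (List.mem_cons_of_mem _ hx)
    simp only [e2]
    rw [h a List.mem_cons_self, k a List.mem_cons_self, ih h1 h2, e1_congr h1 h2]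

/-- the pointwise inequality for the pieces -/
lemma piece_le {b q : ℕ} {Ps : List (List Bool)} (hm : 11 ≤ Ps.length) (hP : ∀ P ∈ Ps, P ∈ Xs b) :
    ENNReal.ofReal (bw b q Ps.flatten) ≤ ENNReal.ofReal (Ub b ^ Ps.length) * e2 (wx b q) (sx b) Ps := by
  have hU := Ub_pos b
  have h1 : e2 (wx b q) (sx b) Ps = ENNReal.ofReal (e2 (fun P => ww (gg b) (bw b q) P / Ub b)
      (fun P => gg b P ^ 2 / Ub b) Ps) := by
    rw [← e2_cast]
    · refine e2_congr (fun P h => ?_) (fun P h => ?_)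
      · unfold wx
        rw [if_pos (hP P h)]
      · unfold sx
        rw [if_pos (hP P h)]
    · intro P _
      have := ww_nn (g := gg b) (one_le_bw (b := b) (q := q) P)
      positivity
    · intro P _
      positivity
  rw [h1, ← ENNReal.ofReal_mul (by positivity), mul_comm, e2_div hU.ne']
  refine ENNReal.ofReal_le_ofReal ((bw_flatten Ps fun P h => (hP P h).1).trans ?_)
  exact top_le Ps hm fun P h => ⟨gg_pos (hP P h), gg_le (hP P h), one_le_bw P⟩

end Sm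

open Sm

open Classical in
/-- **the smoothing lemma**: cuts, rests and weight as parameters -/
theorem smoothT (η : ℝ) (q : ℕ) (hη : 0 < η) : ∃ (C : ℝ) (b0 : ℕ), 0 < C ∧ ∀ (b y : ℕ) (z : Pt), b0 ≤ b →
    ∀ (S WW : Set (List Bool)) (φ : List Bool → ℝ≥0∞), (∀ Y ∈ S, Y.length = y ∧ TIW.en Y = z ∧ ∃ T : Finset ℕ,
      η * Ub b ≤ (T.card : ℝ) ∧ (∀ c ∈ T, c ≤ Y.length ∧ Y.take c ∈ BU ∧ hgt (Y.take c) ≤ 2 ^ b ∧ Y.drop c ∈ WW ∧
        1 ≤ ENNReal.ofReal (bw b q (Y.take c)) * φ (Y.drop c)) ∧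
      ∀ c ∈ T, ∀ c' ∈ T, c ≤ c' → (Y.drop c).take (c' - c) ∈ BU) →
    gf S ≤ ENNReal.ofReal (C / (4 ^ b * ml b)) * ∑' W : WW, wE (W : List Bool) * φ W := by
  obtain ⟨M, hM, hwx⟩ := wx_sum q
  obtain ⟨B, hB, hsx⟩ := sx_sum
  obtain ⟨c0, C0, hc0, -, hUb⟩ := JNT.JoT.Ub_two
  obtain ⟨b0, hb0⟩ : ∃ b0 : ℕ, ∀ b, b0 ≤ b → 44 ≤ η * Ub b := by
    obtain ⟨n, hn⟩ := pow_unbounded_of_one_lt (44 / (η * c0)) (show (1 : ℝ) < (2 : ℝ) ^ (3 / 4 : ℝ) by
      exact Real.one_lt_rpow (by norm_num) (by norm_num))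
    refine ⟨n, fun b hb => ?_⟩
    have h1 := (hUb b).1
    have h2 : ((2 : ℝ) ^ (3 / 4 : ℝ)) ^ n ≤ (2 : ℝ) ^ (3 / 4 * (b : ℝ)) := by
      rw [← Real.rpow_natCast, ← Real.rpow_mul (by norm_num)]
      refine Real.rpow_le_rpow_of_exponent_le (by norm_num) ?_
      have : (n : ℝ) ≤ b := by exact_mod_cast hb
      linarith
    rw [div_lt_iff₀ (by positivity)] at hn
    have h3 : η * (c0 * ((2 : ℝ) ^ (3 / 4 : ℝ)) ^ n) ≤ η * Ub b :=
      mul_le_mul_of_nonneg_left ((mul_le_mul_of_nonneg_left h2 hc0.le).trans h1) hη.le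
    nlinarith
  refine ⟨(44 / η) ^ 11 * (121 * (M ^ 11 * B)), b0, by positivity, fun b y z hb S WW φ hS => ?_⟩
  have hU := Ub_pos b
  have hml := ml_pos b
  have h44 := hb0 b hb
  obtain ⟨K, hK⟩ : ∃ K : ℕ, K = ⌊η * Ub b / 22⌋₊ := ⟨_, rfl⟩
  have hK1 : (K : ℝ) ≤ η * Ub b / 22 := by rw [hK]; exact Nat.floor_le (by positivity)
  have hK2 : η * Ub b / 44 ≤ K := by
    have := Nat.lt_floor_add_one (η * Ub b / 22)
    rw [← hK] at this
    linarith
  -- the cuts
  have hT : ∀ Y ∈ S, ∃ T : Finset ℕ, 11 * K ≤ T.card ∧ Cs b Y T ∧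
      ∀ c ∈ T, Y.drop c ∈ WW ∧ 1 ≤ ENNReal.ofReal (bw b q (Y.take c)) * φ (Y.drop c) := by
    intro Y hY
    obtain ⟨-, -, T, h1, h2, h3⟩ := hS Y hY
    refine ⟨T.erase 0, ?_, ?_, ?_⟩
    · have h4 : T.card ≤ (T.erase 0).card + 1 := by
        have := Finset.pred_card_le_card_erase (s := T) (a := 0)
        omega
      have h5 : (T.card : ℝ) ≤ ((T.erase 0).card : ℝ) + 1 := by exact_mod_cast h4
      have h6 : (11 * K : ℝ) ≤ ((T.erase 0).card : ℝ) := by linarith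
      exact_mod_cast h6
    · constructor
      · intro c hc
        have := (mem_erase.1 hc).1
        omega
      · exact fun c hc => (h2 c (mem_erase.1 hc).2).1
      · exact fun c hc => (h2 c (mem_erase.1 hc).2).2.1
      · exact fun c hc => (h2 c (mem_erase.1 hc).2).2.2.1
      · exact fun c hc c' hc' => h3 c (mem_erase.1 hc).2 c' (mem_erase.1 hc').2
    · exact fun c hc => (h2 c (mem_erase.1 hc).2).2.2.2
  choose! T hTK hTC hTW using hT
  obtain ⟨T', hT'⟩ : ∃ T' : List Bool → Finset ℕ, T' = fun Y => if Y ∈ S then T Y else ∅ := ⟨_, rfl⟩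
  have hT'S : ∀ Y ∈ S, T' Y = T Y := fun Y hY => by rw [hT']; exact if_pos hY
  have hle : ∀ Y, ∀ c ∈ T' Y, c ≤ Y.length := by
    intro Y c hc
    by_cases hY : Y ∈ S
    · rw [hT'S Y hY] at hc
      exact (hTC Y hY).le c hc
    · rw [hT'] at hc
      simp only [if_neg hY] at hc
      exact absurd hc (Finset.notMem_empty _)
  obtain ⟨F, hF⟩ : ∃ F : List (List Bool) → List Bool → ℝ≥0∞, F = fun Ps W =>
    if Ps.flatten ++ W ∈ S ∧ CutL (T' (Ps.flatten ++ W)) Ps then 1 else 0 := ⟨_, rfl⟩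
  have s1 : (K : ℝ≥0∞) ^ 11 * gf S ≤ ∑' Y : List Bool, wE Y * Dr 11 Y (T' Y) F := by
    rw [gf_ind, ← ENNReal.tsum_mul_left]
    refine ENNReal.tsum_le_tsum fun Y => ?_
    by_cases hY : Y ∈ S
    · rw [if_pos hY, mul_comm]
      refine mul_le_mul' le_rfl (Dr_ge 11 Y (T' Y) F K ?_ (hle Y) ?_)
      · rw [hT'S Y hY]
        exact hTK Y hY
      · intro Ps W _ h2 h3
        rw [hF]
        simp only
        rw [if_pos ⟨by rw [← h2]; exact hY, by rw [← h2]; exact h3⟩]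
    · rw [if_neg hY, mul_zero]
      exact zero_le
  -- the pointwise bound
  have s2 : ∀ Ps : List (List Bool), Ps.length = 11 → ∀ W : List Bool, F Ps W ≤
      (if W ∈ WW then φ W else 0) * ENNReal.ofReal (Ub b ^ 11) *
        (e2 (wx b q) (sx b) Ps * (if vv W + (Ps.map vv).sum = (z, y) then 1 else 0)) := by
    intro Ps hPs W
    rw [hF]
    simp only
    by_cases h : Ps.flatten ++ W ∈ S ∧ CutL (T' (Ps.flatten ++ W)) Ps
    · rw [if_pos h]
      obtain ⟨hYS, hcut⟩ := h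
      obtain ⟨hy, hz, -⟩ := hS _ hYS
      rw [hT'S _ hYS] at hcut
      obtain ⟨k1, k2⟩ := Cs.pieces Ps (hTC _ hYS) rfl hcut
      have hne : Ps ≠ [] := by rintro rfl; simp at hPs
      obtain ⟨k3, k4⟩ := hTW _ hYS _ (k2 hne)
      rw [List.drop_left' rfl, List.take_left' rfl] at k4
      rw [List.drop_left' rfl] at k3
      have k5 := vv_flatten Ps W fun P hP => (k1 P hP).1
      have k6 : vv W + (Ps.map vv).sum = (z, y) := by
        rw [← k5]
        unfold vv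
        rw [hz, hy]
      rw [if_pos k3, if_pos k6, mul_one]
      have k7 := piece_le (b := b) (q := q) (Ps := Ps) (by omega) fun P hP => k1 P hP
      rw [hPs] at k7
      calc (1 : ℝ≥0∞) ≤ ENNReal.ofReal (bw b q Ps.flatten) * φ W := k4
        _ ≤ ENNReal.ofReal (Ub b ^ 11) * e2 (wx b q) (sx b) Ps * φ W := mul_le_mul' k7 le_rfl
        _ = _ := by ring
    · rw [if_neg h]
      exact zero_le
  have s3 : LS wE 11 (fun Ps => ∑' W : List Bool, wE W * F Ps W) ≤
      ∑' W : List Bool, wE W * ((if W ∈ WW then φ W else 0) * ENNReal.ofReal (Ub b ^ 11)) *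
        (121 * (ENNReal.ofReal M ^ 11 * ENNReal.ofReal (B / (4 ^ b * ml b)))) := by
    calc LS wE 11 (fun Ps => ∑' W : List Bool, wE W * F Ps W)
        ≤ LS wE 11 (fun Ps => ∑' W : List Bool, wE W * ((if W ∈ WW then φ W else 0) * ENNReal.ofReal (Ub b ^ 11)) *
          (e2 (wx b q) (sx b) Ps * (if vv W + (Ps.map vv).sum = (z, y) then 1 else 0))) := by
          refine LS_mono fun Ps hPs _ => ENNReal.tsum_le_tsum fun W => ?_
          rw [mul_assoc]
          exact mul_le_mul' le_rfl (s2 Ps hPs W)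
      _ = ∑' W : List Bool, wE W * ((if W ∈ WW then φ W else 0) * ENNReal.ofReal (Ub b ^ 11)) *
          KK vv (fun u => if u = (z, y) then 1 else 0) wE (e2 (wx b q) (sx b)) 11 (vv W) := by
          rw [LS_tsum (fun (W : List Bool) (Ps : List (List Bool)) =>
            wE W * ((if W ∈ WW then φ W else 0) * ENNReal.ofReal (Ub b ^ 11)) *
              (e2 (wx b q) (sx b) Ps * (if vv W + (Ps.map vv).sum = (z, y) then 1 else 0)))]
          refine tsum_congr fun W => ?_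
          rw [LS_mul]
          rfl
      _ ≤ _ := by
          refine ENNReal.tsum_le_tsum fun W => mul_le_mul' le_rfl ?_
          have := bdC (v := vv) (w := wx b q) (s := sx b) (X := wE) (ψ := fun u => if u = (z, y) then 1 else 0)
            (M := ENNReal.ofReal M) (B := ENNReal.ofReal (B / (4 ^ b * ml b))) (by
              rw [← ENNReal.ofReal_one]
              exact ENNReal.ofReal_le_ofReal hM) (hwx b) (fun x => hsx b (z, y) x) 11 (vv W)
          refine this.trans (le_of_eq ?_)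
          norm_num
  have s4 := s1.trans ((Dr_le 11 T' hle F).trans s3)
  rw [ENNReal.tsum_mul_right] at s4
  have e5 : ∑' W : List Bool, wE W * ((if W ∈ WW then φ W else 0) * ENNReal.ofReal (Ub b ^ 11)) =
      ENNReal.ofReal (Ub b ^ 11) * ∑' W : WW, wE (W : List Bool) * φ W := by
    rw [tsum_subtype WW (fun W => wE W * φ W), ← ENNReal.tsum_mul_left]
    refine tsum_congr fun W => ?_
    rw [Set.indicator_apply]
    by_cases hW : W ∈ WW
    · rw [if_pos hW, if_pos hW]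
      ring
    · rw [if_neg hW, if_neg hW]
      ring
  rw [e5] at s4
  obtain ⟨Sg, hSg⟩ : ∃ Sg, Sg = ∑' W : WW, wE (W : List Bool) * φ W := ⟨_, rfl⟩
  rw [← hSg] at s4 ⊢
  have hKK : ENNReal.ofReal ((η * Ub b / 44) ^ 11) ≤ (K : ℝ≥0∞) ^ 11 := by
    rw [ENNReal.ofReal_pow (by positivity)]
    refine pow_le_pow_left₀ zero_le ?_ 11
    rw [← ENNReal.ofReal_natCast]
    exact ENNReal.ofReal_le_ofReal hK2
  have s5 := (mul_le_mul' hKK le_rfl).trans s4
  have hone : ENNReal.ofReal ((44 / (η * Ub b)) ^ 11) * ENNReal.ofReal ((η * Ub b / 44) ^ 11) = 1 := by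
    rw [← ENNReal.ofReal_mul (by positivity), ← mul_pow]
    have : 44 / (η * Ub b) * (η * Ub b / 44) = 1 := by field_simp
    rw [this, one_pow, ENNReal.ofReal_one]
  calc gf S = ENNReal.ofReal ((44 / (η * Ub b)) ^ 11) * (ENNReal.ofReal ((η * Ub b / 44) ^ 11) * gf S) := by
        rw [← mul_assoc, hone, one_mul]
    _ ≤ ENNReal.ofReal ((44 / (η * Ub b)) ^ 11) * (ENNReal.ofReal (Ub b ^ 11) * Sg *
        (121 * (ENNReal.ofReal M ^ 11 * ENNReal.ofReal (B / (4 ^ b * ml b))))) := mul_le_mul' le_rfl s5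
    _ = ENNReal.ofReal ((44 / η) ^ 11 * (121 * (M ^ 11 * B)) / (4 ^ b * ml b)) * Sg := by
        have e7 : (44 / η) ^ 11 * (121 * (M ^ 11 * B)) / (4 ^ b * ml b) =
            (44 / (η * Ub b)) ^ 11 * Ub b ^ 11 * (121 * (M ^ 11 * (B / (4 ^ b * ml b)))) := by
          rw [div_pow, div_pow, mul_pow]
          field_simp
        have hM0 : 0 < M := by linarith
        rw [e7, ENNReal.ofReal_mul (p := (44 / (η * Ub b)) ^ 11 * Ub b ^ 11) (by positivity),
          ENNReal.ofReal_mul (p := (44 / (η * Ub b)) ^ 11) (by positivity), ENNReal.ofReal_mul (p := 121) (by norm_num),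
          ENNReal.ofReal_mul (p := M ^ 11) (by positivity), ENNReal.ofReal_pow (p := M) hM0.le, ENNReal.ofReal_ofNat]
        ring

end ARM

end HexObs
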