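import Pool.Agent.TIP.Step3
import Pool.Agent.TIP.M3C
import Pool.Agent.TIP.UaZ
import Pool.Agent.TIP.WideF
import Pool.Agent.JNT.NcB
import Pool.Agent.TIW.Base

/-!
ARM, row T (helper73), part 1: one step of the tip lemma for classes with a size of the removed bridge (countably many
exceptional classes); gluing of short narrow half plane words without cuts.
-/

set_option autoImplicit false

namespace HexObs

namespace ARM

open Finset TS SDN NTW NTA SIM TIP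

open scoped ENNReal

open Classical in
/-- every word of G has many splittings into a word of X i and a word of Y i, for some i -/
theorem dcI {G : Set (List Bool)} {X : ℕ → Set (List Bool)} {Y : ℕ → List Bool → Set (List Bool)} {M : ℕ → ℝ≥0∞} {c : ℝ≥0∞}
    (hM : ∀ i, ∀ A ∈ X i, gf (Y i A) ≤ M i)
    (h : ∀ L ∈ G, ∃ S : Finset ℕ, c ≤ (S.card : ℝ≥0∞) ∧ ∀ q ∈ S, q ≤ L.length ∧ ∃ i, L.take q ∈ X i ∧
      L.drop q ∈ Y i (L.take q)) : c * gf G ≤ ∑' i, gf (X i) * M i := by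
  have e1 : c * gf G ≤ ∑' L : List Bool, ∑' p : List Bool × List Bool, ∑' i : ℕ,
      if p.1 ++ p.2 = L ∧ p.1 ∈ X i ∧ p.2 ∈ Y i p.1 then wE p.1 * wE p.2 else 0 := by
    rw [gf_ind, ← ENNReal.tsum_mul_left]
    refine ENNReal.tsum_le_tsum fun L => ?_
    by_cases hL : L ∈ G
    · obtain ⟨S, hS, hq⟩ := h L hL
      rw [if_pos hL]
      have hinj : Set.InjOn (fun q : ℕ => (L.take q, L.drop q)) (S : Set ℕ) := by
        intro q hq1 q' hq2 he
        have h1 := congrArg (fun p : List Bool × List Bool => p.1.length) he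
        simp only [List.length_take] at h1
        have := (hq q hq1).1
        have := (hq q' hq2).1
        omega
      calc c * wE L ≤ (S.card : ℝ≥0∞) * wE L := mul_le_mul_left hS _
        _ = ∑ q ∈ S, wE L := by rw [sum_const, nsmul_eq_mul]
        _ ≤ ∑ q ∈ S, (fun p : List Bool × List Bool => ∑' i : ℕ,
              if p.1 ++ p.2 = L ∧ p.1 ∈ X i ∧ p.2 ∈ Y i p.1 then wE p.1 * wE p.2 else 0) (L.take q, L.drop q) := by
            refine sum_le_sum fun q hqS => ?_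
            obtain ⟨-, i, hi⟩ := hq q hqS
            refine le_trans (le_of_eq ?_) (ENNReal.le_tsum i)
            show wE L = if L.take q ++ L.drop q = L ∧ L.take q ∈ X i ∧ L.drop q ∈ Y i (L.take q) then
              wE (L.take q) * wE (L.drop q) else 0
            rw [if_pos ⟨List.take_append_drop q L, hi⟩, ← wE_append, List.take_append_drop]
        _ = ∑ p ∈ S.image (fun q : ℕ => (L.take q, L.drop q)), (fun p : List Bool × List Bool => ∑' i : ℕ,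
              if p.1 ++ p.2 = L ∧ p.1 ∈ X i ∧ p.2 ∈ Y i p.1 then wE p.1 * wE p.2 else 0) p := by
            rw [sum_image hinj]
        _ ≤ _ := ENNReal.sum_le_tsum _
    · rw [if_neg hL, mul_zero]
      exact zero_le
  refine e1.trans ?_
  rw [ENNReal.tsum_comm]
  have e2 : ∀ p : List Bool × List Bool, (∑' L : List Bool, ∑' i : ℕ,
      if p.1 ++ p.2 = L ∧ p.1 ∈ X i ∧ p.2 ∈ Y i p.1 then wE p.1 * wE p.2 else 0) =
      ∑' i : ℕ, if p.1 ∈ X i ∧ p.2 ∈ Y i p.1 then wE p.1 * wE p.2 else 0 := by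
    intro p
    rw [ENNReal.tsum_comm]
    refine tsum_congr fun i => ?_
    rw [tsum_eq_single (p.1 ++ p.2) (fun L hL => if_neg fun h => hL h.1.symm)]
    by_cases hp : p.1 ∈ X i ∧ p.2 ∈ Y i p.1
    · rw [if_pos ⟨rfl, hp⟩, if_pos hp]
    · rw [if_neg hp, if_neg fun h => hp h.2]
  rw [tsum_congr e2, ENNReal.tsum_comm]
  refine ENNReal.tsum_le_tsum fun i => ?_
  rw [ENNReal.tsum_prod', gf_ind (X i), ← ENNReal.tsum_mul_right]
  refine ENNReal.tsum_le_tsum fun A => ?_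
  by_cases hA : A ∈ X i
  · rw [if_pos hA]
    have e3 : ∀ Z : List Bool, (if (A, Z).1 ∈ X i ∧ (A, Z).2 ∈ Y i (A, Z).1 then wE (A, Z).1 * wE (A, Z).2 else 0) =
        wE A * (if Z ∈ Y i A then wE Z else 0) := by
      intro Z
      by_cases hZ : Z ∈ Y i A
      · rw [if_pos ⟨hA, hZ⟩, if_pos hZ]
      · rw [if_neg (fun h => hZ h.2), if_neg hZ, mul_zero]
    rw [tsum_congr e3, ENNReal.tsum_mul_left, ← gf_ind]
    exact mul_le_mul_right (hM i A hA) _
  · rw [if_neg hA, zero_mul]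
    refine le_of_eq (ENNReal.tsum_eq_zero.2 fun Z => if_neg fun h => hA h.1)

open Classical in
/-- **one step of the recursion**; Big: the ends that are too large; X 0: the words before a small end; X i, Wd i, i >= 1: the
classes of the large ends; P': the words that are left if the end Z2 of a small bridge Z1 ++ Z2 is cut off -/
theorem stepS (Fr : List Bool → List Bool → Prop) {P P' Big : Set (List Bool)} {X Wd : ℕ → Set (List Bool)} {b : ℕ}
    {η κ : ℝ} {E : ℝ≥0∞} {w : ℕ → ℝ≥0∞} (hsa : P ⊆ SA)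
    (h0 : ∀ A Z, A ++ Z ∈ P → Z ∈ BU → hgt Z ≤ 2 ^ (b + 1) → Z ∉ Big → A ∈ X 0)
    (h1 : ∀ A Z1 Z2, A ++ (Z1 ++ Z2) ∈ P → Z1 ∈ BU → Z2 ∈ BU → hgt (Z1 ++ Z2) ≤ 2 ^ (b + 1) → Z1 ++ Z2 ∉ Big →
      A ++ Z1 ∈ P')
    (h2 : ∀ A Z, A ++ Z ∈ P → Z ∈ BU → hgt Z ≤ 2 ^ (b + 1) → Z ∈ Big → ∃ i, A ∈ X (i + 1) ∧ Z ∈ Wd (i + 1))
    (hη : 0 < η) (hκ : 0 < κ)
    (hUA : ∀ A, gf {Z | Z ∈ BU ∧ hgt Z ≤ 2 ^ (b + 1) ∧ A ++ Z ∈ SA ∧ (frN Fr A Z : ℝ) < κ} ≤ E)
    (hw : ∀ i, gf {Z | Z ∈ BU ∧ hgt Z ≤ 2 ^ (b + 1) ∧ Z ∈ Wd (i + 1)} ≤ w (i + 1)) :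
    gf (P ∩ GT (b + 1) η) ≤ ENNReal.ofReal (4 / (η * Ub (b + 1))) * (gf (X 0 ∩ GT b (η / 8)) * E +
      ∑' i, gf (X (i + 1) ∩ GT b (η / 8)) * w (i + 1)) +
      ENNReal.ofReal (Ub (b + 1) / κ) * gf (FT Fr P' (b + 1)) := by
  have hU : (0 : ℝ) < Ub (b + 1) := Ub_pos (b + 1)
  -- exceptional rich cuts
  obtain ⟨Ex, hEx⟩ : ∃ Ex : List Bool → ℕ → Prop, Ex = fun L j => L.take j ∈ GT b (η / 8) ∧
    ((frN Fr (L.take j) (L.drop j) : ℝ) < κ ∨ L.drop j ∈ Big) := ⟨_, rfl⟩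
  obtain ⟨G1, hG1⟩ : ∃ G1 : Set (List Bool), G1 = {L | L ∈ P ∧ L ∈ GT (b + 1) η ∧
    η / 4 * Ub (b + 1) ≤ (((cs (b + 1) L).filter (Ex L)).card : ℝ)} := ⟨_, rfl⟩
  obtain ⟨G2, hG2⟩ : ∃ G2 : Set (List Bool), G2 = {L | L ∈ P ∧ L ∈ GT (b + 1) η ∧
    ¬ η / 4 * Ub (b + 1) ≤ (((cs (b + 1) L).filter (Ex L)).card : ℝ)} := ⟨_, rfl⟩
  have hcov : P ∩ GT (b + 1) η ⊆ G1 ∪ G2 := by
    rintro L ⟨hL1, hL2⟩
    by_cases h : η / 4 * Ub (b + 1) ≤ (((cs (b + 1) L).filter (Ex L)).card : ℝ)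
    · exact Or.inl (by rw [hG1]; exact ⟨hL1, hL2, h⟩)
    · exact Or.inr (by rw [hG2]; exact ⟨hL1, hL2, h⟩)
  -- the first part
  have k0 : ENNReal.ofReal (η / 4 * Ub (b + 1)) * gf G1 ≤ gf (X 0 ∩ GT b (η / 8)) * E +
      ∑' i, gf (X (i + 1) ∩ GT b (η / 8)) * w (i + 1) := by
    obtain ⟨Y, hY⟩ : ∃ Y : ℕ → List Bool → Set (List Bool), Y = fun i A => if i = 0 then
      {Z | Z ∈ BU ∧ hgt Z ≤ 2 ^ (b + 1) ∧ A ++ Z ∈ SA ∧ (frN Fr A Z : ℝ) < κ} else
      {Z | Z ∈ BU ∧ hgt Z ≤ 2 ^ (b + 1) ∧ Z ∈ Wd i} := ⟨_, rfl⟩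
    obtain ⟨m, hm⟩ : ∃ m : ℕ → ℝ≥0∞, m = fun i => if i = 0 then E else w i := ⟨_, rfl⟩
    have key := dcI (G := G1) (X := fun i => X i ∩ GT b (η / 8)) (Y := Y) (M := m)
      (c := ENNReal.ofReal (η / 4 * Ub (b + 1))) (fun i A _ => by
        rw [hY, hm]
        rcases i with _ | i
        · exact hUA A
        · exact hw i) (fun L hL => by
        rw [hG1] at hL
        obtain ⟨hL1, -, hL3⟩ := hL
        refine ⟨(cs (b + 1) L).filter (Ex L), ?_, fun q hq => ?_⟩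
        · rw [← ENNReal.ofReal_natCast]
          exact ENNReal.ofReal_le_ofReal hL3
        · rw [mem_filter] at hq
          obtain ⟨hq1, hq2⟩ := hq
          rw [hEx] at hq2
          obtain ⟨hq3, hq4⟩ := hq2
          obtain ⟨c1, c2, c3, -⟩ := mem_cs.1 hq1
          have hL4 : L.take q ++ L.drop q ∈ P := by rwa [List.take_append_drop]
          refine ⟨c1, ?_⟩
          by_cases hbig : L.drop q ∈ Big
          · obtain ⟨i, hi1, hi2⟩ := h2 _ _ hL4 c2 c3 hbig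
            refine ⟨i + 1, ⟨hi1, hq3⟩, ?_⟩
            rw [hY]
            exact ⟨c2, c3, hi2⟩
          · refine ⟨0, ⟨h0 _ _ hL4 c2 c3 hbig, hq3⟩, ?_⟩
            rw [hY]
            exact ⟨c2, c3, hsa hL4, hq4.resolve_right hbig⟩)
    refine key.trans (le_of_eq ?_)
    rw [tsum_eq_zero_add' ENNReal.summable]
    rw [hm]
    rfl
  -- the second part
  have h3 : ENNReal.ofReal κ * gf G2 ≤ gf (FT Fr P' (b + 1)) * ENNReal.ofReal (Ub (b + 1)) := by
    refine dc (Y := fun _ => {Z | ∃ n, n ≤ 2 ^ (b + 1) ∧ Z ∈ Brd n}) (fun A _ => gf_BU_le _) fun L hL => ?_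
    rw [hG2] at hL
    obtain ⟨hL1, hL2, hL3⟩ := hL
    -- a rich cut with many free cuts
    obtain ⟨j, hj, hjw, hjk⟩ : ∃ j ∈ cs (b + 1) L, L.drop j ∉ Big ∧ κ ≤ (frN Fr (L.take j) (L.drop j) : ℝ) := by
      by_contra hcon
      have hsub : cs (b + 1) L ⊆ ((cs (b + 1) L).filter fun j => L.take j ∉ GT b (η / 8)) ∪
          (cs (b + 1) L).filter (Ex L) := by
        intro j hj
        rw [mem_union, mem_filter, mem_filter]
        by_cases hr : L.take j ∈ GT b (η / 8)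
        · refine Or.inr ⟨hj, ?_⟩
          rw [hEx]
          refine ⟨hr, ?_⟩
          by_contra h3
          obtain ⟨h4, h5⟩ := not_or.1 h3
          exact hcon ⟨j, hj, h5, not_lt.1 h4⟩
        · exact Or.inl ⟨hj, hr⟩
      have h3 := (card_le_card hsub).trans (card_union_le _ _)
      have h4 : ((cs (b + 1) L).card : ℝ) ≤ (((cs (b + 1) L).filter fun j => L.take j ∉ GT b (η / 8)).card : ℝ) +
          (((cs (b + 1) L).filter (Ex L)).card : ℝ) := by exact_mod_cast h3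
      have h5 : η * Ub (b + 1) ≤ ((cs (b + 1) L).card : ℝ) := hL2
      have h6 := rich' b η L hη
      have h7 : 0 < η * Ub (b + 1) := by positivity
      have h8 := not_le.1 hL3
      linarith
    obtain ⟨c1, c2, c3, c4⟩ := mem_cs.1 hj
    -- the free cuts as cuts of L
    refine ⟨(((range ((L.drop j).length + 1)).filter fun i => (L.drop j).take i ∈ BU ∧ (L.drop j).drop i ∈ BU ∧
      Fr (L.take j) ((L.drop j).take i)).image fun i => j + i), ?_, fun q hq => ?_⟩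
    · rw [card_image_of_injective _ (fun x y h => Nat.add_left_cancel h), ← ENNReal.ofReal_natCast]
      exact ENNReal.ofReal_le_ofReal hjk
    · obtain ⟨i, hi, rfl⟩ := mem_image.1 hq
      rw [mem_filter, mem_range, List.length_drop] at hi
      obtain ⟨i1, i2, i3, i4⟩ := hi
      have e1 : L.take (j + i) = L.take j ++ (L.drop j).take i := by rw [List.take_add]
      have e2 : L.drop (j + i) = (L.drop j).drop i := by rw [List.drop_drop]
      have e3 : hgt (L.drop j) = hgt ((L.drop j).take i) + hgt ((L.drop j).drop i) := by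
        have := hgt_eq (Brd_append (TIP.BU_hgt i2) (TIP.BU_hgt i3))
        rwa [List.take_append_drop] at this
      have e4 : L.take (j + i) ∈ P' := by
        rw [e1]
        refine h1 (L.take j) ((L.drop j).take i) ((L.drop j).drop i) ?_ i2 i3 ?_ ?_
        · rw [List.take_append_drop, List.take_append_drop]
          exact hL1
        · rw [List.take_append_drop]
          exact c3
        · rw [List.take_append_drop]
          exact hjw
      refine ⟨by omega, ⟨e4, L.take j, (L.drop j).take i, e1, c4, i2, by omega, i4⟩, ?_⟩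
      rw [e2]
      exact ⟨_, by omega, TIP.BU_hgt i3⟩
  -- the sum
  have k1 : gf G1 ≤ ENNReal.ofReal (4 / (η * Ub (b + 1))) * (gf (X 0 ∩ GT b (η / 8)) * E +
      ∑' i, gf (X (i + 1) ∩ GT b (η / 8)) * w (i + 1)) := by
    have e : ENNReal.ofReal (4 / (η * Ub (b + 1))) * ENNReal.ofReal (η / 4 * Ub (b + 1)) = 1 := by
      rw [← ENNReal.ofReal_mul (by positivity), ← ENNReal.ofReal_one]
      congr 1
      field_simp
    calc gf G1 = ENNReal.ofReal (4 / (η * Ub (b + 1))) * (ENNReal.ofReal (η / 4 * Ub (b + 1)) * gf G1) := by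
          rw [← mul_assoc, e, one_mul]
      _ ≤ _ := mul_le_mul_right k0 _
  have k2 : gf G2 ≤ ENNReal.ofReal (Ub (b + 1) / κ) * gf (FT Fr P' (b + 1)) := by
    have e : ENNReal.ofReal κ⁻¹ * ENNReal.ofReal κ = 1 := by
      rw [← ENNReal.ofReal_mul (by positivity), ← ENNReal.ofReal_one]
      congr 1
      field_simp
    calc gf G2 = ENNReal.ofReal κ⁻¹ * (ENNReal.ofReal κ * gf G2) := by rw [← mul_assoc, e, one_mul]
      _ ≤ ENNReal.ofReal κ⁻¹ * (gf (FT Fr P' (b + 1)) * ENNReal.ofReal (Ub (b + 1))) := mul_le_mul_right h3 _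
      _ = _ := by
          rw [mul_comm (gf (FT Fr P' (b + 1))), ← mul_assoc, ← ENNReal.ofReal_mul (by positivity)]
          congr 2
          rw [div_eq_mul_inv, mul_comm]
  exact (gf_mono hcov).trans ((gf_union_le _ _).trans (add_le_add k1 k2))

/-! ### short narrow words without cuts -/

/-- short narrow half plane words without cuts of the scale k -/
def ShE (k : ℕ) (e : List Bool) : Prop :=
  e ∈ BAR.NA (2 ^ k) ∧ BX ((2 ^ k : ℕ) : ℤ) e ∧ (e.length : ℝ) ≤ PW.mZ (2 ^ k)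

theorem shE_mass : ∃ (c : ℝ) (k0 : ℕ), 0 < c ∧ ∀ k, k0 ≤ k → ENNReal.ofReal c * Xb k ≤ gf {e | ShE k e} := by
  have hm : MLow (fun k => PW.mZ (2 ^ k)) := mlow_M
  obtain ⟨lam, hl1, hlam⟩ := JNT.half_shortb hm EN.ht_M
  obtain ⟨D, hD⟩ := JNT.na_far hm tb_M EN.ht_M EN.asm_M hl1 (show (0 : ℝ) < 1 / 32 by norm_num) hlam
  obtain ⟨CX, hCX, hXd⟩ := XDbl.pow xDbl
  have hCX0 : 0 < CX := by linarith
  obtain ⟨i0, hi0⟩ := pow_unbounded_of_one_lt lam (one_lt_two (α := ℝ))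
  obtain ⟨i, hi⟩ : ∃ i, i = i0 + D := ⟨_, rfl⟩
  have hlami : lam ≤ 2 ^ i := hi0.le.trans (pow_le_pow_right₀ (by norm_num) (by omega))
  refine ⟨1 / (32 * CX ^ i), i, by positivity, fun k hk => ?_⟩
  obtain ⟨k', rfl⟩ : ∃ k', k = k' + i := ⟨k - i, by omega⟩
  obtain ⟨G, hG⟩ : ∃ G, G = gf {W | W ∈ TPF.NAb false (2 ^ k') ∧ (W.length : ℝ) ≤ lam * PW.mZ (2 ^ k') ∧
    W ∈ WL (k' + D)} := ⟨_, rfl⟩
  have h1 : ENNReal.ofReal (1 / 16) * Xb k' ≤ G + ENNReal.ofReal (1 / 32) * Xb k' := by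
    have h2 : {W | W ∈ TPF.NAb false (2 ^ k') ∧ (W.length : ℝ) ≤ lam * PW.mZ (2 ^ k')} ⊆
        {W | W ∈ TPF.NAb false (2 ^ k') ∧ (W.length : ℝ) ≤ lam * PW.mZ (2 ^ k') ∧ W ∈ WL (k' + D)} ∪
        {W | W ∈ TPF.NAb false (2 ^ k') ∧ (W.length : ℝ) ≤ lam * PW.mZ (2 ^ k') ∧ W ∉ WL (k' + D)} := by
      rintro W ⟨h1, h2⟩
      by_cases h : W ∈ WL (k' + D)
      · exact Or.inl ⟨h1, h2, h⟩
      · exact Or.inr ⟨h1, h2, h⟩
    rw [hG]
    exact (hlam k' false).trans (((gf_mono h2).trans (gf_union_le _ _)).trans (add_le_add le_rfl (hD k' false)))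
  have h2 : ENNReal.ofReal (1 / 32) * Xb k' ≤ G := by
    have e1 : ENNReal.ofReal (1 / 16) * Xb k' = ENNReal.ofReal (1 / 32) * Xb k' + ENNReal.ofReal (1 / 32) * Xb k' := by
      rw [← add_mul, ← ENNReal.ofReal_add (by norm_num) (by norm_num)]
      norm_num
    rw [e1] at h1
    exact (ENNReal.add_le_add_iff_right (ENNReal.mul_ne_top ENNReal.ofReal_ne_top (NTA.Xb_ne_top k'))).1 h1
  have h3 : ENNReal.ofReal (1 / (32 * CX ^ i)) * Xb (k' + i) ≤ G := by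
    refine le_trans (mul_le_mul' le_rfl (hXd k' i)) (le_trans (le_of_eq ?_) h2)
    rw [← mul_assoc, ← ENNReal.ofReal_mul (by positivity)]
    congr 2
    field_simp
  refine h3.trans ?_
  rw [hG]
  refine gf_mono ?_
  rintro W ⟨⟨h4, -⟩, h6, h7⟩
  refine ⟨⟨BAR.SSt_mono (Nat.pow_le_pow_right (by norm_num) (by omega)) h4.1, h4.2⟩, fun n hn dir => ?_, ?_⟩
  · refine (h7.2 n hn dir).trans ?_
    push_cast
    exact pow_le_pow_right₀ (by norm_num) (by omega)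
  · have h9 := EN.m_two hm k' i
    have hmk := hm.pos k'
    calc (W.length : ℝ) ≤ lam * PW.mZ (2 ^ k') := h6
      _ ≤ 2 ^ i * PW.mZ (2 ^ k') := mul_le_mul_of_nonneg_right hlami hmk.le
      _ ≤ PW.mZ (2 ^ (k' + i)) := h9

/-- **the gluing**: only short narrow words -/
theorem glueS : ∃ (C : ℝ) (k0 : ℕ), 0 < C ∧ ∀ (P : Set (List Bool)) (M : ℝ≥0∞) (b k r : ℕ), P ⊆ SA →
    gf {t | t ∈ SA ∧ ∃ L ∈ P, ∃ e, ShE k e ∧ t = L ++ e} ≤ M → k0 ≤ k → 2 ^ (k + 1) + 1 ≤ r → 4 * r ≤ 2 ^ b →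
      gf (FT (Far6 r) P b) * Xb k ≤ ENNReal.ofReal C * M := by
  obtain ⟨c, k0, hc, hmass⟩ := shE_mass
  refine ⟨6 / c, k0, by positivity, fun P M b k r hsa hgl hk0 hr1 hr => ?_⟩
  have h0 : 2 ^ (k + 1) = 2 * 2 ^ k := by
    rw [pow_succ]
    ring
  have hkb : k + 1 ≤ b := by
    by_contra hcon
    have h1 : 2 ^ b ≤ 2 ^ k := Nat.pow_le_pow_right (by norm_num) (by omega)
    omega
  obtain ⟨T, hT⟩ : ∃ T : Set (List Bool), T = {e | ShE k e} := ⟨_, rfl⟩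
  have hsub : FT (Far6 r) P b ⊆ ⋃ d ∈ dirs, {L | L ∈ FT (Far6 r) P b ∧ tipd L = d} := by
    intro L hL
    rw [Set.mem_iUnion₂]
    exact ⟨tipd L, tipd_mem L, hL, rfl⟩
  have hone : ∀ d ∈ dirs, gf {L | L ∈ FT (Far6 r) P b ∧ tipd L = d} * gf T ≤ M := by
    intro d _
    refine le_trans (M3a.gf_mul_inj ?_ ?_) hgl
    · rintro L ⟨⟨hLP, A, Z, rfl, -, hZ, -, hF⟩, -⟩ e he
      rw [hT] at he
      exact ⟨M3a.glue_SA (hsa hLP) hZ hF he.1 he.2.1 (by omega), A ++ Z, hLP, e, he, rfl⟩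
    · rintro L ⟨hL, hLd⟩ L' ⟨hL', hLd'⟩ e he e' he' h
      rw [hT] at he he'
      have q : ∀ {L : List Bool}, L ∈ FT (Far6 r) P b → ∃ A Z, L = A ++ Z ∧ OnB b A ∧ Z ∈ BU := by
        rintro L ⟨-, A, Z, h1, h2, h3, -⟩
        exact ⟨A, Z, h1, h2, h3⟩
      rcases Nat.le_total L.length L'.length with hle | hle
      · exact M3a.uniq hkb (q hL') he.1 (BAR.pos_SSt he'.1.1) (hLd.trans hLd'.symm) h hle
      · exact (M3a.uniq hkb (q hL) he'.1 (BAR.pos_SSt he.1.1) (hLd'.trans hLd.symm) h.symm hle).symm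
  have h3 : gf (FT (Far6 r) P b) * gf T ≤ 6 * M := by
    calc gf (FT (Far6 r) P b) * gf T ≤ (∑ d ∈ dirs, gf {L | L ∈ FT (Far6 r) P b ∧ tipd L = d}) * gf T :=
          mul_le_mul' ((gf_mono hsub).trans (BAR.gf_bi_le _ _)) le_rfl
      _ = ∑ d ∈ dirs, gf {L | L ∈ FT (Far6 r) P b ∧ tipd L = d} * gf T := sum_mul _ _ _
      _ ≤ ∑ _d ∈ dirs, M := sum_le_sum hone
      _ = 6 * M := by
          rw [sum_const, nsmul_eq_mul]
          rfl
  have h6 : Xb k ≤ ENNReal.ofReal (1 / c) * gf T := by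
    calc Xb k = ENNReal.ofReal (1 / c) * (ENNReal.ofReal c * Xb k) := by
          rw [← mul_assoc, ← ENNReal.ofReal_mul (by positivity), one_div, inv_mul_cancel₀ hc.ne', ENNReal.ofReal_one, one_mul]
      _ ≤ _ := mul_le_mul' le_rfl (by rw [hT]; exact hmass k hk0)
  calc gf (FT (Far6 r) P b) * Xb k ≤ gf (FT (Far6 r) P b) * (ENNReal.ofReal (1 / c) * gf T) := mul_le_mul' le_rfl h6
    _ = ENNReal.ofReal (1 / c) * (gf (FT (Far6 r) P b) * gf T) := by ring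
    _ ≤ ENNReal.ofReal (1 / c) * (6 * M) := mul_le_mul' le_rfl h3
    _ = ENNReal.ofReal (6 / c) * M := by
        rw [← mul_assoc]
        congr 1
        rw [show (6 : ℝ) / c = 1 / c * 6 by ring, ENNReal.ofReal_mul (by positivity)]
        norm_num

end ARM

end HexObs
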