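import Pool.Agent.ARM.T2Nb
import Pool.Agent.ARM.EsW
import Pool.Agent.ARM.T2SD

/-!
# ARM2, row T2S-G (helper65): **`twoCr : TwoCr κ C`**

A closed word with an extra strand: either the start (up to the first vertex at distance more than `2 ^ (i - 1)`) and the last
crossing before the visit both contain a good factor, then there are `h ^ 2` decompositions; or one of them is a long factor
without good factors near the root.
-/

set_option autoImplicit false

namespace HexObs

namespace ARM

open Finset TS SDN SIM NTA TIP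

open TIP.Nf (cz mem_cz nc_cz rank_lt rank_sum card_rank cz_split in_mid in_app in_mono Dt NeW)

open scoped ENNReal

namespace T2

lemma hn_st (t : List Bool) (i : ℕ) : TIW.hn (vx oo up t i - vx oo up t (i + 1)) ≤ 2 := by
  rw [vx_succ, sub_add_cancel_left, TIW.hn_neg]
  have h : ∀ d ∈ dirs, TIW.hn d ≤ 2 := by decide
  exact h _ (dx_mem upd t i)

/-- the first vertex at distance more than 2 ^ (i - 1) -/
lemma first_far {i t : ℕ} {L : List Bool} (ht : 2 ^ i < 2 * dz L t) :
    ∃ s1, s1 ≤ t ∧ 2 ^ i < 2 * dz L s1 ∧ ∀ s, s < s1 → 2 * dz L s ≤ 2 ^ i := by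
  classical
  have hex : ∃ s, 2 ^ i < 2 * dz L s := ⟨t, ht⟩
  exact ⟨Nat.find hex, Nat.find_min' hex ht, Nat.find_spec hex, fun s hs => not_lt.1 (Nat.find_min hex hs)⟩

lemma two_cr_main {κ η : ℝ} {C b n l i m h : ℕ} {L : List Bool} (him : i = b + m) (hm : 6 ≤ m) (hb : 1 ≤ b)
    (hl : l + 6 ≤ i) (hh : 1 ≤ h) (hη : η * Ub b ≤ (h : ℝ)) (h4 : 4 * (h : ℝ) ≤ κ * Ub b) (hL : L ∈ C0 n)
    (hE : L ∈ ESe l i) :
    h ^ 2 ≤ (tri (2 ^ (i + 3)) (RhoS η (2 * C) b l i) L).ncard ∨
      ∃ N : ℕ, 2 ^ m ≤ N * 2 ^ 8 ∧ BadR κ C b N (2 ^ (i + 2)) L := by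
  obtain ⟨hsa, hlen, hen⟩ := C0_mem hL
  obtain ⟨t0, t1, hc⟩ := cr_of (by omega) hE
  obtain ⟨s1, hs1, hs2, hs3⟩ := first_far hc.far
  have hz0 : dz L 0 ≤ 2 := by
    have h0 : vx oo up L 0 = 0 := rfl
    unfold dz
    rw [h0, zero_sub, TIW.hn_neg]
    exact hen
  have hp7 : (128 : ℤ) ≤ 2 ^ i := by
    rw [show (128 : ℤ) = 2 ^ 7 by norm_num]
    exact pow_le_pow_right₀ (by norm_num) (by omega)
  have hN5 : (2 : ℤ) ^ i = 32 * ((2 ^ (m - 5) * 2 ^ b : ℕ) : ℤ) := by
    push_cast
    rw [← pow_add, show (32 : ℤ) = 2 ^ 5 by norm_num, ← pow_add]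
    congr 1
    omega
  have hN8 : 2 ^ m ≤ 2 ^ (m - 5) * 2 ^ 8 := by
    rw [← pow_add]
    exact Nat.pow_le_pow_right (by norm_num) (by omega)
  have e4 : (2 : ℤ) ^ (i + 2) = 4 * 2 ^ i := by ring
  have e8 : (2 : ℤ) ^ (i + 3) = 8 * 2 ^ i := by ring
  have ht0 := hc.lt
  have ht1 := hc.le
  have hs0 : 1 ≤ s1 := by
    rcases Nat.eq_zero_or_pos s1 with h | h
    · rw [h] at hs2
      linarith
    · exact h
  have hsL : s1 ≤ L.length := by omega
  have hs1d : dz L s1 ≤ 2 ^ i := by
    have h1 := dz_hn L s1 (s1 - 1)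
    have h2 := hn_st L (s1 - 1)
    rw [show s1 - 1 + 1 = s1 by omega] at h2
    have h3 := hs3 (s1 - 1) (by omega)
    have h5 : TIW.hn (vx oo up L s1 - vx oo up L (s1 - 1)) = TIW.hn (vx oo up L (s1 - 1) - vx oo up L s1) := by
      rw [← TIW.hn_neg, neg_sub]
    linarith
  have eq2 : L = L.take (t0 + 1) ++ ((L.take t1).drop (t0 + 1) ++ L.drop t1) := by
    rw [← drop_app_take (show t0 + 1 ≤ t1 by omega) ht1, List.take_append_drop]
  by_cases hw1 : L.take s1 ∈ Nz κ C b
  · right
    refine ⟨2 ^ (m - 5), hN8, [], L.take s1, L.drop s1, by rw [List.nil_append, List.take_append_drop], hw1, fun hin => ?_,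
      Or.inl fun s hs => ?_⟩
    · have h1 := hn_fac (A := []) (B := L.drop s1) hin (s := s1) (s' := 0) (Nat.zero_le _)
        (by rw [List.nil_append, List.length_take]; omega) le_rfl (Nat.zero_le _)
      rw [List.nil_append, List.take_append_drop] at h1
      have h2 := dz_hn L s1 0
      linarith
    · rw [List.nil_append, List.length_take] at hs
      rcases Nat.lt_or_ge s s1 with h1 | h1
      · have := hs3 s h1
        have := dz_nonneg L s
        linarith
      · rw [show s = s1 by omega]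
        linarith
  by_cases hw2 : (L.take t1).drop (t0 + 1) ∈ Nz κ C b
  · right
    have hl1 : (L.take (t0 + 1)).length = t0 + 1 := by
      rw [List.length_take]
      omega
    refine ⟨2 ^ (m - 5), hN8, L.take (t0 + 1), (L.take t1).drop (t0 + 1), L.drop t1, eq2, hw2, fun hin => ?_,
      Or.inr fun s hs hs' => ?_⟩
    · have h1 := hn_fac (A := L.take (t0 + 1)) (B := L.drop t1) hin (s := t0 + 1) (s' := t1) (by omega)
        (by rw [List.length_append]; omega) (by omega)
        (by rw [List.length_append, List.length_drop, List.length_take, List.length_take]; omega)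
      rw [← eq2] at h1
      have h2 := dz_hn L (t0 + 1) t1
      have h3 := dz_hn L t0 (t0 + 1)
      have h5 := hn_st L t0
      have h6 := hc.far
      have h7 := hc.near
      linarith
    · rw [hl1] at hs
      exact hc.rest s (by omega) hs'
  left
  obtain ⟨P, Z, Y1', e1, hY1', hZ, -⟩ := ne_first hw1
  obtain ⟨X2, W, Y2', e2, hY2', hW, -⟩ := ne_first hw2
  obtain ⟨Z1, Z2, Z3, rfl, hz⟩ := Zd_of hZ
  obtain ⟨W1, W2, W3, rfl, hw⟩ := Zd_of hW
  have e3 : L.take (t0 + 1) = L.take s1 ++ (L.take (t0 + 1)).drop s1 := by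
    conv_lhs => rw [← List.take_append_drop s1 (L.take (t0 + 1)), take_take' (by omega)]
  obtain ⟨V0, hV0⟩ : ∃ V0, V0 = (L.take (t0 + 1)).drop s1 := ⟨_, rfl⟩
  rw [← hV0] at e3
  obtain ⟨Y0, hY0⟩ : ∃ Y0, Y0 = Y2' ++ L.drop t1 := ⟨_, rfl⟩
  obtain ⟨V, hV⟩ : ∃ V, V = Y1' ++ (V0 ++ X2) := ⟨_, rfl⟩
  have hd : D2 κ C b L P Z1 Z2 Z3 V W1 W2 W3 Y0 := by
    refine ⟨?_, hz, hw⟩
    rw [eq2, e3, e1, e2, hV, hY0]
    simp only [List.append_assoc]
  have hnz : 4 * h ≤ nc Z2 := by exact_mod_cast h4.trans hz.n2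
  have hnw : 4 * h ≤ nc W2 := by exact_mod_cast h4.trans hw.n2
  obtain ⟨S1, hS1, hc1⟩ := card_ix TIP.neW hh hnz
  obtain ⟨S2, hS2, hc2⟩ := card_ix TIP.neW hh hnw
  have key : S1.card * S2.card ≤ (tri (2 ^ (i + 3)) (RhoS η (2 * C) b l i) L).ncard := by
    refine tri_ge (p1 := fun c => P ++ (Z1 ++ Z2.take c)) (p2 := fun d => W2.drop d ++ (W3 ++ Y0)) ?_ ?_ ?_
    · intro c hc c' hc' he
      have h1 := congrArg List.length he
      have h2 := (mem_cz.1 (hc1 c hc).1).1
      have h3 := (mem_cz.1 (hc1 c' hc').1).1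
      simp only [List.length_append, List.length_take] at h1
      omega
    · intro c hc c' hc' he
      have h1 := congrArg List.length he
      have h2 := (mem_cz.1 (hc2 c hc).1).1
      have h3 := (mem_cz.1 (hc2 c' hc').1).1
      simp only [List.length_append, List.length_drop] at h1
      omega
    · intro c hcc d hdd
      obtain ⟨x1, x2, x3⟩ := hc1 c hcc
      obtain ⟨y1, y2, y3⟩ := hc2 d hdd
      obtain ⟨i1, i2, i3, i4⟩ := hd.parts TIP.neW (by omega) hη hnz hnw (E := 2 * C) le_rfl x1 x2 x3 y1 y2 y3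
      have hcl : c ≤ Z2.length := (mem_cz.1 x1).1
      have hdl : d ≤ W2.length := (mem_cz.1 y1).1
      -- the position of the second cut
      obtain ⟨A, hA⟩ : ∃ A, A = L.take (t0 + 1) ++ (X2 ++ (W1 ++ W2.take d)) := ⟨_, rfl⟩
      obtain ⟨Y1, hY1⟩ : ∃ Y1, Y1 = W2.drop d ++ (W3 ++ Y0) := ⟨_, rfl⟩
      have eA : L = A ++ Y1 := by
        rw [hA, hY1, hY0]
        conv_lhs => rw [eq2, e2, ← List.take_append_drop d W2]
        simp only [List.append_assoc]
      have hl1 : (L.take (t0 + 1)).length = t0 + 1 := by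
        rw [List.length_take]
        omega
      have hlw := congrArg List.length e2
      rw [List.length_drop, List.length_take] at hlw
      simp only [List.length_append] at hlw
      have hY2l := List.length_pos_iff.2 hY2'
      have hAl : A.length = t0 + 1 + (X2.length + (W1.length + d)) := by
        rw [hA]
        simp only [List.length_append, hl1, List.length_take]
        omega
      have hA1 : t0 < A.length := by omega
      have hA2 : A.length < t1 := by omega
      have hYl : A.length + Y1.length = L.length := by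
        rw [← List.length_append, ← eA]
      have hdz : ∀ k, dz Y1 k = dz L (A.length + k) := fun k => by
        conv_rhs => rw [eA]
        rw [dz_app]
      -- the position of the first cut
      have hle := congrArg List.length e1
      rw [List.length_take] at hle
      simp only [List.length_append] at hle
      have hY1l := List.length_pos_iff.2 hY1'
      have hPl : (P ++ (Z1 ++ Z2.take c)).length < s1 := by
        simp only [List.length_append, List.length_take]
        omega
      show In (2 ^ (i + 3)) (P ++ (Z1 ++ Z2.take c)) ∧ In (2 ^ (i + 3)) (W2.drop d ++ (W3 ++ Y0)) ∧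
        ∃ M, L = (P ++ (Z1 ++ Z2.take c)) ++ (M ++ (W2.drop d ++ (W3 ++ Y0))) ∧
          RhoS η (2 * C) b l i (P ++ (Z1 ++ Z2.take c)) M (W2.drop d ++ (W3 ++ Y0))
      refine ⟨In_of_hn fun s hs => ?_, ?_, _, i1, i2, i3, i4, ?_, ?_⟩
      · have v1 : vx oo up (P ++ (Z1 ++ Z2.take c)) s = vx oo up L s := by
          conv_rhs => rw [i1]
          exact (vx_append (t := P ++ (Z1 ++ Z2.take c)) (hs.trans (Nat.le_succ _))).symm
        rw [v1]
        have v2 := TIW.hn_sub (vx oo up L s) (vx oo up L 0)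
        have h0 : vx oo up L 0 = 0 := rfl
        have v3 := hn_dz L s 0
        rw [h0, sub_zero] at v3
        have v4 := hs3 s (by omega)
        have v5 := dz_nonneg L s
        push_cast
        linarith
      · rw [← hY1]
        refine In_of_dz fun s hs => ?_
        rw [hdz, hdz]
        have h6 := hc.rest (A.length + s) (by omega) (by omega)
        have h7 := hc.rest (A.length + 0) (by omega) (by omega)
        push_cast
        linarith
      · rw [← hY1, hdz, add_zero]
        exact hc.mid _ hA1.le hA2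
      · rw [← hY1]
        obtain ⟨a, b', v1, v2, v3, v4, v5⟩ := hc.vis
        refine ⟨a - A.length, b' - A.length, by omega, by omega, ?_, ?_⟩
        · rw [hdz, show A.length + (a - A.length) = a by omega]
          exact v4
        · rw [hdz, show A.length + (b' - A.length) = b' by omega]
          exact v5
  rw [hS1, hS2] at key
  rwa [pow_two]

end T2

/-- **row T2S-G** -/
theorem twoCr {κ : ℝ} {C : ℕ} : TwoCr κ C :=
  ⟨6, 1, fun _ _ _ _ _ _ _ _ him hm hb hl hh hη h4 hL hE => T2.two_cr_main him hm hb hl hh hη h4 hL hE⟩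

end ARM

end HexObs
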