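import Pool.Agent.ARM.DefsT
import Pool.Agent.ARM.T2SD
import Pool.Agent.ARM.NumB
import Pool.Agent.TIW.Nice
import Pool.Agent.POL.Root

/-!
# ARM, closed words (helper44): the two crossings

* `cross_fun` : the first crossing of a function; `start_cross`, `end_cross` : a rich factor in the first crossing of the start,
  in the last crossing of the end, or a long factor without rich factors near the root;
* **`two_cross`** : both.
-/

set_option autoImplicit false

namespace HexObs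

namespace ARM

open Finset TS SDN HexObs.SIM NTA TIP

open scoped ENNReal

namespace TwoX

lemma cross_fun {f : ℕ → ℤ} {n : ℕ} {a B : ℤ} (hab : a ≤ B) (h0 : f 0 ≤ a) (hs : ∃ s, s ≤ n ∧ B < f s) :
    ∃ t0 t1, t0 < t1 ∧ t1 ≤ n ∧ f t0 ≤ a ∧ (∀ s, t0 < s → s ≤ t1 → a < f s) ∧ (∀ s, s < t1 → f s ≤ B) ∧ B < f t1 := by
  classical
  obtain ⟨h1, h2⟩ := Nat.find_spec hs
  obtain ⟨t1, ht1⟩ : ∃ t1, t1 = Nat.find hs := ⟨_, rfl⟩
  rw [← ht1] at h1 h2
  have hmin : ∀ s, s < t1 → f s ≤ B := by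
    intro s hs'
    by_contra hcon
    rw [ht1] at hs'
    exact Nat.find_min hs hs' ⟨by omega, not_le.1 hcon⟩
  have h3 : f (Nat.findGreatest (fun s => f s ≤ a) t1) ≤ a :=
    Nat.findGreatest_spec (P := fun s => f s ≤ a) (Nat.zero_le t1) h0
  have h4 : Nat.findGreatest (fun s => f s ≤ a) t1 ≤ t1 := Nat.findGreatest_le t1
  refine ⟨Nat.findGreatest (fun s => f s ≤ a) t1, t1, ?_, h1, h3, fun s hs1 hs2 => ?_, hmin, h2⟩
  · rcases Nat.lt_or_ge (Nat.findGreatest (fun s => f s ≤ a) t1) t1 with h | h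
    · exact h
    · exfalso
      have : Nat.findGreatest (fun s => f s ≤ a) t1 = t1 := by omega
      rw [this] at h3
      linarith
  · exact not_le.1 (Nat.findGreatest_is_greatest hs1 hs2)

lemma hn_suc (L : List Bool) (t : ℕ) : TIW.hn (vx oo up L (t + 1) - vx oo up L t) = 2 := by
  have h1 : vx oo up L (t + 1) - vx oo up L t = dx up L t := by
    have : vx oo up L (t + 1) = vx oo up L t + dx up L t := rfl
    rw [this]
    abel
  rw [h1]
  have : ∀ d ∈ dirs, TIW.hn d = 2 := by decide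
  exact this _ (dx_mem up_dirs L t)

lemma dz_suc (L : List Bool) (t : ℕ) : dz L (t + 1) ≤ dz L t + 2 ∧ dz L t ≤ dz L (t + 1) + 2 := by
  have h1 := dz_hn L (t + 1) t
  have h2 := dz_hn L t (t + 1)
  have h3 := hn_suc L t
  have h4 : TIW.hn (vx oo up L t - vx oo up L (t + 1)) = 2 := by
    rw [TIW.hn_sub_comm]
    exact h3
  omega

/-- distances inside a factor -/
lemma fac_len {L : List Bool} {a b : ℕ} (hab : a ≤ b) (hb : b ≤ L.length) :
    L = L.take a ++ ((L.take b).drop a ++ L.drop b) ∧ ((L.take b).drop a).length = b - a ∧ (L.take a).length = a := by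
  refine ⟨?_, ?_, ?_⟩
  · rw [← List.append_assoc]
    have e2 : L.take a = (L.take b).take a := by
      rw [List.take_take, min_eq_left hab]
    rw [e2, List.take_append_drop, List.take_append_drop]
  · rw [List.length_drop, List.length_take]
    omega
  · rw [List.length_take]
    omega

lemma fac_far {L : List Bool} {a b D : ℕ} (hab : a ≤ b) (hb : b ≤ L.length) (h : 3 * (D : ℤ) < TIW.hn (vx oo up L a - vx oo up L b)) :
    ¬ In D ((L.take b).drop a) := by
  intro hI
  obtain ⟨e0, e1, e2⟩ := fac_len hab hb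
  have h1 := TIW.hn_le_Bl (hI (b - a) (by omega))
  have h2 : TIW.hn (vx oo up L a - vx oo up L b) = TIW.hn (vx oo up ((L.take b).drop a) (b - a)) := by
    have a1 : vx oo up L a = vx oo up (L.take a) a := by
      conv_lhs => rw [e0]
      exact vx_append (by omega)
    have a3 : vx oo up L b = vx oo up (L.take a) a + mulE (rotTo up (dx up (L.take a) a)) (vx oo up ((L.take b).drop a) (b - a)) := by
      have a2 : vx oo up ((L.take b).drop a ++ L.drop b) (b - a) = vx oo up ((L.take b).drop a) (b - a) := vx_append (by omega)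
      have := vx_general (L.take a) ((L.take b).drop a ++ L.drop b) (b - a)
      rw [← e0, e2, a2, show a + (b - a) = b by omega] at this
      exact this
    rw [a1, a3, sub_add_cancel_left, TIW.hn_neg, TIW.hn_mulE (nrm_rotTo upd (dx_mem up_dirs _ _))]
  linarith

/-- the first crossing of the start -/
lemma start_cross {κ : ℝ} {C b i m : ℕ} {L : List Bool} (him : i = b + m) (h0 : dz L 0 ≤ 2)
    (hs : ∃ s, s ≤ L.length ∧ 2 ^ (i + 3) < dz L s) :
    (∃ X Q Y, L = X ++ (Q ++ Y) ∧ Q ∈ Nz κ C b ∧ ¬ In (2 ^ m * 2 ^ b) Q ∧ ∀ s, s ≤ (X ++ Q).length → dz L s ≤ 2 ^ (i + 4)) ∨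
    ∃ P Z R, L = P ++ (Z ++ R) ∧ Z ∈ Zc κ C b ∧ (∀ s, s ≤ (P ++ Z).length → dz L s ≤ 2 ^ (i + 3)) ∧
      ∀ s, P.length ≤ s → s ≤ (P ++ Z).length → 2 ^ (i + 1) < dz L s := by
  have p0 : (1 : ℤ) ≤ 2 ^ i := one_le_pow₀ (by norm_num)
  have p1 : (2 : ℤ) ^ (i + 1) = 2 * 2 ^ i := by rw [pow_succ]; ring
  have p3 : (2 : ℤ) ^ (i + 3) = 8 * 2 ^ i := by rw [pow_add]; ring
  have p4 : (2 : ℤ) ^ (i + 4) = 16 * 2 ^ i := by rw [pow_add]; ring
  obtain ⟨t0, t1, h01, h1, h2, h3, h4, h5⟩ := cross_fun (f := dz L) (a := 2 ^ (i + 1)) (B := 2 ^ (i + 3)) (by omega)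
    (by omega) hs
  have hst := (dz_suc L t0).1
  obtain ⟨e0, e1, e2⟩ := fac_len (L := L) (a := t0 + 1) (b := t1) (by omega) h1
  have hd : dz L t1 ≤ 2 ^ (i + 3) + 2 := by
    have := (dz_suc L (t1 - 1)).1
    rw [show t1 - 1 + 1 = t1 by omega] at this
    have := h4 (t1 - 1) (by omega)
    omega
  by_cases hz : (L.take t1).drop (t0 + 1) ∈ Nz κ C b
  · left
    refine ⟨_, _, _, e0, hz, fac_far (by omega) h1 ?_, fun s hs => ?_⟩
    · have h6 := dz_hn L t1 (t0 + 1)
      rw [TIW.hn_sub_comm] at h6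
      have h7 : ((2 ^ m * 2 ^ b : ℕ) : ℤ) = 2 ^ i := by
        push_cast
        rw [him, pow_add, mul_comm]
      rw [h7]
      omega
    · rw [List.length_append, e1, e2] at hs
      rcases Nat.eq_or_lt_of_le (show s ≤ t1 by omega) with h | h
      · rw [h]
        omega
      · have := h4 s h
        omega
  · right
    obtain ⟨X1, Z, Y1, g1, g2, g3⟩ : ∃ X Z Y, (L.take t1).drop (t0 + 1) = X ++ (Z ++ Y) ∧ Y ≠ [] ∧ Z ∈ Zc κ C b := by
      by_contra hcon
      exact hz fun X Z Y h1 h2 h3 => hcon ⟨X, Z, Y, h1, h2, h3⟩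
    have gl := congrArg List.length g1
    rw [e1] at gl
    simp only [List.length_append] at gl
    have hY1 := List.length_pos_iff.2 g2
    refine ⟨L.take (t0 + 1) ++ X1, Z, Y1 ++ L.drop t1, ?_, g3, fun s hs => ?_, fun s hs1 hs2 => ?_⟩
    · conv_lhs => rw [e0, g1]
      simp only [List.append_assoc]
    · simp only [List.length_append, e2] at hs
      exact h4 s (by omega)
    · simp only [List.length_append, e2] at hs1 hs2
      exact h3 s (by omega) (by omega)

/-- the last crossing of the end -/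
lemma end_cross {κ : ℝ} {C b i m : ℕ} {L : List Bool} (him : i = b + m)
    (hs : ∃ s, s ≤ L.length ∧ 2 ^ (i + 3) < dz L s) :
    (∃ X Q Y, L = X ++ (Q ++ Y) ∧ Q ∈ Nz κ C b ∧ ¬ In (2 ^ m * 2 ^ b) Q ∧
      ∀ s, X.length ≤ s → s ≤ L.length → dz L s ≤ 2 ^ (i + 4)) ∨
    ∃ P Z R, L = P ++ (Z ++ R) ∧ Z ∈ Zc κ C b ∧ (∃ s, s ≤ P.length ∧ 2 ^ (i + 3) < dz L s) ∧
      (∀ s, P.length ≤ s → s ≤ L.length → dz L s ≤ 2 ^ (i + 4)) ∧
      ∀ s, P.length ≤ s → s ≤ (P ++ Z).length → 2 ^ (i + 1) < dz L s := by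
  have p0 : (1 : ℤ) ≤ 2 ^ i := one_le_pow₀ (by norm_num)
  have p1 : (2 : ℤ) ^ (i + 1) = 2 * 2 ^ i := by rw [pow_succ]; ring
  have p3 : (2 : ℤ) ^ (i + 3) = 8 * 2 ^ i := by rw [pow_add]; ring
  have p4 : (2 : ℤ) ^ (i + 4) = 16 * 2 ^ i := by rw [pow_add]; ring
  obtain ⟨n, hn⟩ : ∃ n, n = L.length := ⟨_, rfl⟩
  have hf0 : dz L (n - 0) ≤ 2 ^ (i + 1) := by
    rw [Nat.sub_zero, hn, dz_len]
    positivity
  obtain ⟨t0, t1, h01, h1, h2, h3, h4, h5⟩ := cross_fun (f := fun s => dz L (n - s)) (n := n) (a := 2 ^ (i + 1))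
    (B := 2 ^ (i + 3)) (by omega) hf0 (by
      obtain ⟨s, hs1, hs2⟩ := hs
      exact ⟨n - s, by omega, by
        show 2 ^ (i + 3) < dz L (n - (n - s))
        rwa [show n - (n - s) = s by omega]⟩)
  -- t1 is the last far time, t0 the first near time behind it
  obtain ⟨T1, hT1⟩ : ∃ T1, T1 = n - t1 := ⟨_, rfl⟩
  obtain ⟨T0, hT0⟩ : ∃ T0, T0 = n - t0 := ⟨_, rfl⟩
  have h2' : dz L T0 ≤ 2 ^ (i + 1) := by rw [hT0]; exact h2
  have h5' : 2 ^ (i + 3) < dz L T1 := by rw [hT1]; exact h5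
  have h3' : ∀ s, T1 ≤ s → s < T0 → 2 ^ (i + 1) < dz L s := by
    intro s hs1 hs2
    have := h3 (n - s) (by omega) (by omega)
    rwa [show n - (n - s) = s by omega] at this
  have h4' : ∀ s, T1 < s → s ≤ n → dz L s ≤ 2 ^ (i + 3) := by
    intro s hs1 hs2
    have := h4 (n - s) (by omega)
    rwa [show n - (n - s) = s by omega] at this
  have hT10 : T1 < T0 := by omega
  have hT0n : T0 ≤ n := by omega
  have hd : dz L T1 ≤ 2 ^ (i + 3) + 2 := by
    have := (dz_suc L T1).2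
    have := h4' (T1 + 1) (by omega) (by omega)
    omega
  have hfar : ∀ s, T1 ≤ s → s ≤ n → dz L s ≤ 2 ^ (i + 4) := by
    intro s hs1 hs2
    rcases Nat.eq_or_lt_of_le hs1 with h | h
    · rw [← h]
      omega
    · have := h4' s h hs2
      omega
  have hst := (dz_suc L (T0 - 1)).2
  rw [show T0 - 1 + 1 = T0 by omega] at hst
  obtain ⟨e0, e1, e2⟩ := fac_len (L := L) (a := T1) (b := T0 - 1) (by omega) (by omega)
  by_cases hz : (L.take (T0 - 1)).drop T1 ∈ Nz κ C b
  · left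
    refine ⟨_, _, _, e0, hz, fac_far (by omega) (by omega) ?_, fun s hs1 hs2 => ?_⟩
    · have h6 := dz_hn L T1 (T0 - 1)
      have h7 : ((2 ^ m * 2 ^ b : ℕ) : ℤ) = 2 ^ i := by
        push_cast
        rw [him, pow_add, mul_comm]
      rw [h7]
      omega
    · rw [e2] at hs1
      exact hfar s hs1 (by omega)
  · right
    obtain ⟨X1, Z, Y1, g1, g2, g3⟩ : ∃ X Z Y, (L.take (T0 - 1)).drop T1 = X ++ (Z ++ Y) ∧ Y ≠ [] ∧ Z ∈ Zc κ C b := by
      by_contra hcon
      exact hz fun X Z Y h1 h2 h3 => hcon ⟨X, Z, Y, h1, h2, h3⟩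
    have gl := congrArg List.length g1
    rw [e1] at gl
    simp only [List.length_append] at gl
    have hY1 := List.length_pos_iff.2 g2
    refine ⟨L.take T1 ++ X1, Z, Y1 ++ L.drop (T0 - 1), ?_, g3, ⟨T1, ?_, h5'⟩, fun s hs1 hs2 => ?_, fun s hs1 hs2 => ?_⟩
    · conv_lhs => rw [e0, g1]
      simp only [List.append_assoc]
    · rw [List.length_append, e2]
      omega
    · simp only [List.length_append, e2] at hs1
      exact hfar s (by omega) (by omega)
    · simp only [List.length_append, e2] at hs1 hs2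
      exact h3' s (by omega) (by omega)

lemma c0_dz {n : ℕ} {L : List Bool} (hL : L ∈ C0 n) : dz L 0 = 2 ∧ L.length = n := by
  obtain ⟨x, h1, h2, -, -⟩ := hL
  have hl : L.length = n := by
    rw [List.length_append, List.length_singleton] at h1
    omega
  refine ⟨?_, hl⟩
  have h3 := hn_suc (L ++ [x]) n
  rw [h2] at h3
  have h4 : vx oo up (L ++ [x]) n = TIW.en L := by
    unfold TIW.en
    rw [hl]
    exact vx_append (by omega)
  rw [h4] at h3
  exact h3

/-- **both crossings of a closed word** -/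
theorem two_cross {κ : ℝ} {C b i m n : ℕ} {L : List Bool} (him : i = b + m) (hL : L ∈ C0 n)
    (hs : ∃ s, s ≤ L.length ∧ 2 ^ (i + 3) < dz L s) :
    BadR κ C b (2 ^ m) (2 ^ (b + (m + 5))) L ∨
    ∃ P Z V W Y, L = P ++ (Z ++ (V ++ (W ++ Y))) ∧ Z ∈ Zc κ C b ∧ W ∈ Zc κ C b ∧ In (2 ^ (b + (m + 5))) P ∧
      In (2 ^ (b + (m + 5))) Y ∧ 2 ^ (i + 1) < dz L P.length ∧ 2 ^ (i + 1) < dz L (P ++ (Z ++ (V ++ W))).length := by
  obtain ⟨hd0, hln⟩ := c0_dz hL
  have p0 : (1 : ℤ) ≤ 2 ^ i := one_le_pow₀ (by norm_num)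
  have p3 : (2 : ℤ) ^ (i + 3) = 8 * 2 ^ i := by rw [pow_add]; ring
  have p4 : (2 : ℤ) ^ (i + 4) = 16 * 2 ^ i := by rw [pow_add]; ring
  have p5 : (2 : ℤ) ^ (b + (m + 5)) = 32 * 2 ^ i := by rw [him, ← add_assoc, pow_add (2 : ℤ) (b + m) 5]; ring
  rcases start_cross (κ := κ) (C := C) him (by omega) hs with ⟨X, Q, Y, e1, h1, h2, h3⟩ | ⟨P, Z, R, e1, h1, h2, h3⟩
  · left
    exact ⟨X, Q, Y, e1, h1, h2, Or.inl fun s hs => (h3 s hs).trans (by omega)⟩
  rcases end_cross (κ := κ) (C := C) him hs with ⟨X, Q, Y, e2, g1, g2, g3⟩ | ⟨P', W, Y, e2, g1, ⟨s0, g2, g3⟩, g4, g5⟩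
  · left
    exact ⟨X, Q, Y, e2, g1, g2, Or.inr fun s hs hs' => (g3 s hs hs').trans (by omega)⟩
  right
  have hlt : (P ++ Z).length < P'.length := by
    by_contra hcon
    have := h2 s0 (by omega)
    omega
  obtain ⟨V, hV, hR⟩ : ∃ V, P' = (P ++ Z) ++ V ∧ R = V ++ (W ++ Y) := by
    have e3 : (P ++ Z) ++ R = P' ++ (W ++ Y) := by
      rw [List.append_assoc, ← e1, ← e2]
    rcases List.append_eq_append_iff.1 e3 with ⟨V, h4, h5⟩ | ⟨V, h4, h5⟩
    · exact ⟨V, h4, h5⟩
    · exfalso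
      have := congrArg List.length h4
      simp only [List.length_append] at this hlt
      omega
  have hlP' : P'.length ≤ L.length := by
    rw [e2, List.length_append]
    omega
  refine ⟨P, Z, V, W, Y, ?_, h1, g1, ?_, ?_, ?_, ?_⟩
  · rw [e1, hR]
  · refine In_of_hn fun s hs' => ?_
    have k1 : vx oo up L s = vx oo up P s := by
      rw [e1]
      exact vx_append (by omega)
    have k2 := hn_dz L s 0
    have k3 : vx oo up L s - vx oo up L 0 = vx oo up P s := by
      rw [k1]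
      show vx oo up P s - oo = _
      rw [oo_zero, sub_zero]
    rw [k3] at k2
    have k4 := h2 s (by rw [List.length_append]; omega)
    push_cast
    rw [p5]
    omega
  · have e4 : L = (P' ++ W) ++ Y := by rw [e2, List.append_assoc]
    refine In_of_dz fun s hs' => ?_
    have k1 : dz L ((P' ++ W).length + s) = dz Y s := by
      rw [e4]
      exact dz_app (P' ++ W) Y s
    have k2 : dz L ((P' ++ W).length + 0) = dz Y 0 := by
      rw [e4]
      exact dz_app (P' ++ W) Y 0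
    have hlL : L.length = (P' ++ W).length + Y.length := by
      rw [e4, List.length_append]
    have hPW : P'.length ≤ (P' ++ W).length := by
      rw [List.length_append]
      omega
    have k3 := g4 ((P' ++ W).length + s) (by omega) (by omega)
    have k4 := g4 ((P' ++ W).length + 0) (by omega) (by omega)
    push_cast
    rw [p5]
    omega
  · exact h3 _ le_rfl (by rw [List.length_append]; omega)
  · have e5 : (P ++ (Z ++ (V ++ W))).length = (P' ++ W).length := by
      rw [hV]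
      simp only [List.length_append]
      omega
    rw [e5]
    exact g5 _ (by rw [List.length_append]; omega) le_rfl

end TwoX

end ARM

end HexObs
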