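import Pool.Agent.ARM.LBad
import Pool.Agent.ARM.NoRich2
import Pool.Agent.ARM.NF
import Pool.Agent.ARM.Defs2

/-!
# ARM2, row U, part 2 (helper29): the long words with a good tip and without a rich factor of the next level

* `aMass`: their mass, with the tail of the length;
* `exA`: double counting in a class with a tail of the length (no hypothesis of the sandwich);
* `caseU`: the good cuts of one word.
-/

set_option autoImplicit false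

namespace HexObs

namespace ARM

open Finset TS SDN SIM NTA TIP TIP.Nf

open scoped ENNReal

/-- **row B3' in the direct form** (words with a good tip in a box, moments of the length) -/
def LMassJ : Prop := ∀ (η : ℝ) (q : ℕ), 0 < η → ∃ C : ℝ, 1 ≤ C ∧ ∀ b J : ℕ,
  ∑' L : {L : List Bool | L ∈ WL (b + J) ∧ L ∈ GT b η},
    wE (L : List Bool) * ENNReal.ofReal ((1 + ((L : List Bool).length : ℝ) / ml (b + J)) ^ q) ≤
      ENNReal.ofReal (C ^ (J + 1) * Ub b) * Xb b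

/-- the weight of a length at a higher level -/
lemma w4_up (y b J : ℕ) : ((1 + (y : ℝ) / ml (b + J)) ^ 4)⁻¹ ≤ 256 ^ J * ((1 + (y : ℝ) / ml b) ^ 4)⁻¹ := by
  have hm := ml_pos b
  have hm' := ml_pos (b + J)
  have h1 : ml (b + J) ≤ 4 ^ J * ml b := by
    rw [ml_add]
    refine mul_le_mul_of_nonneg_right ?_ hm.le
    calc (2 : ℝ) ^ ((4 / 3 : ℝ) * (J : ℝ)) ≤ 2 ^ ((2 : ℝ) * (J : ℝ)) :=
          Real.rpow_le_rpow_of_exponent_le (by norm_num) (by have : (0 : ℝ) ≤ J := Nat.cast_nonneg J; linarith)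
      _ = 4 ^ J := by
        rw [Real.rpow_mul (by norm_num), Real.rpow_natCast]
        norm_num
  have h4 : (1 : ℝ) ≤ 4 ^ J := one_le_pow₀ (by norm_num)
  have h2 : 1 + (y : ℝ) / ml b ≤ 4 ^ J * (1 + (y : ℝ) / ml (b + J)) := by
    have h3 : (y : ℝ) / ml b ≤ 4 ^ J * ((y : ℝ) / ml (b + J)) := by
      rw [← mul_div_assoc, div_le_div_iff₀ hm hm']
      calc (y : ℝ) * ml (b + J) ≤ y * (4 ^ J * ml b) := mul_le_mul_of_nonneg_left h1 (Nat.cast_nonneg y)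
        _ = 4 ^ J * y * ml b := by ring
    linarith
  rw [← div_eq_mul_inv, le_div_iff₀ (by positivity), inv_mul_le_iff₀ (by positivity)]
  calc (1 + (y : ℝ) / ml b) ^ 4 ≤ (4 ^ J * (1 + (y : ℝ) / ml (b + J))) ^ 4 := pow_le_pow_left₀ (by positivity) h2 4
    _ = (1 + (y : ℝ) / ml (b + J)) ^ 4 * 256 ^ J := by
      rw [mul_pow, ← pow_mul, mul_comm J 4, pow_mul]
      norm_num
      ring

open Classical in
/-- **the words with a good tip, without a rich factor of the level b + e** -/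
theorem aMass {κ : ℝ} {C : ℕ} (hR : RegZ κ C) (hM : LMassJ) (e : ℕ) : ∀ η : ℝ, 0 < η → ∃ (A : ℝ) (b0 : ℕ), 0 < A ∧
    ∀ b y : ℕ, b0 ≤ b → gf {L | (L ∈ SA ∧ L ∈ GT b η ∧ L ∈ Nz κ C (b + e)) ∧ y ≤ L.length} ≤
      ENNReal.ofReal (A * Ub b * ((1 + (y : ℝ) / ml b) ^ 4)⁻¹) * Xb b := by
  intro η hη
  obtain ⟨C1, hC1, hM⟩ := hM η 8 hη
  obtain ⟨a1, ha1⟩ : ∃ a1 : ℕ, C1 ^ 2 * 4 ^ 9 ≤ 2 ^ a1 := by
    obtain ⟨a1, h⟩ := pow_unbounded_of_one_lt (C1 ^ 2 * 4 ^ 9) (one_lt_two)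
    exact ⟨a1, h.le⟩
  obtain ⟨J0, b0, hL⟩ := lBad hR e η a1 (4 + e) hη
  obtain ⟨J1, hJ1⟩ : ∃ J1 : ℕ, J1 = J0 + e + 1 := ⟨_, rfl⟩
  refine ⟨C1 ^ (J1 + 4) * 256 ^ (J1 + 3) + 1, b0, by positivity, fun b y hb => ?_⟩
  have hU : (0 : ℝ) < Ub b := Ub_pos b
  obtain ⟨w, hw⟩ : ∃ w : ℕ → ℝ, w = fun K => 1 + (y : ℝ) / ml K := ⟨_, rfl⟩
  have hw1 : ∀ K, 1 ≤ w K := fun K => by
    rw [hw]
    have h1 := ml_pos K
    have : 0 ≤ (y : ℝ) / ml K := by positivity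
    show (1 : ℝ) ≤ 1 + (y : ℝ) / ml K
    linarith
  have hw0 : ∀ K, 0 < w K := fun K => lt_of_lt_of_le one_pos (hw1 K)
  -- the tail of the length
  have htail : ∀ J : ℕ, gf {L | (L ∈ WL (b + J) ∧ L ∈ GT b η) ∧ y ≤ L.length} ≤
      ENNReal.ofReal ((w (b + J) ^ 8)⁻¹ * (C1 ^ (J + 1) * Ub b)) * Xb b := by
    intro J
    have h3 := mass_len (P := {L : List Bool | L ∈ WL (b + J) ∧ L ∈ GT b η}) (y := y) (ml_pos (b + J)) (hM b J)
    rw [← mul_assoc, ← ENNReal.ofReal_mul (by have := ml_pos (b + J); positivity)] at h3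
    rw [hw]
    exact h3
  obtain ⟨S0, hS0⟩ : ∃ S0 : Set (List Bool), S0 = {L | (L ∈ WL (b + (J1 + 3)) ∧ L ∈ GT b η) ∧ y ≤ L.length} := ⟨_, rfl⟩
  obtain ⟨S1, hS1⟩ : ∃ S1 : ℕ → Set (List Bool), S1 = fun J => {L | (L ∈ WL (b + (J + 3)) ∧ L ∈ GT b η ∧
    ∃ n : ℕ, 2 ^ (J + 3) ≤ n * 2 ^ (4 + e) ∧ L ∈ Lz κ C (b + e) n) ∧ y ≤ L.length} := ⟨_, rfl⟩
  have hcov : {L | (L ∈ SA ∧ L ∈ GT b η ∧ L ∈ Nz κ C (b + e)) ∧ y ≤ L.length} ⊆ S0 ∪ ⋃ s : ℕ, S1 (J1 + s) := by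
    rintro L ⟨⟨h1, h2, h3⟩, h4⟩
    have hex : ∃ J, In (2 ^ (b + J)) L := by
      obtain ⟨J, hJ⟩ := In_len L
      exact ⟨J, hJ b⟩
    rcases le_or_gt (Nat.find hex) J1 with h | h
    · left
      rw [hS0]
      have h6 : In (2 ^ (b + J1)) L := Nf.in_mono (Nat.find_spec hex) (Nat.pow_le_pow_right (by norm_num) (by omega))
      exact ⟨⟨WL_In h1 h6, h2⟩, h4⟩
    · refine Or.inr (Set.mem_iUnion.2 ⟨Nat.find hex - J1, ?_⟩)
      rw [hS1, show J1 + (Nat.find hex - J1) = Nat.find hex by omega]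
      refine ⟨⟨WL_In h1 (Nat.find_spec hex), h2, 2 ^ (Nat.find hex - 1 - e), ?_, ?_⟩, h4⟩
      · rw [← pow_add]
        exact Nat.pow_le_pow_right (by norm_num) (by omega)
      · refine ⟨[], L, [], by rw [List.nil_append, List.append_nil], h3, ?_⟩
        rw [← pow_add, show Nat.find hex - 1 - e + (b + e) = b + (Nat.find hex - 1) by omega]
        exact Nat.find_min hex (by omega)
  have hm0 : gf S0 ≤ ENNReal.ofReal (C1 ^ (J1 + 4) * 256 ^ (J1 + 3) * Ub b * (w b ^ 4)⁻¹) * Xb b := by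
    rw [hS0]
    refine (htail (J1 + 3)).trans (mul_le_mul' (ENNReal.ofReal_le_ofReal ?_) le_rfl)
    have h1 : (w (b + (J1 + 3)) ^ 8)⁻¹ ≤ (w (b + (J1 + 3)) ^ 4)⁻¹ :=
      inv_anti₀ (by have := hw0 (b + (J1 + 3)); positivity) (pow_le_pow_right₀ (hw1 _) (by norm_num))
    have h2 : (w (b + (J1 + 3)) ^ 4)⁻¹ ≤ 256 ^ (J1 + 3) * (w b ^ 4)⁻¹ := by
      rw [hw]
      exact w4_up y b (J1 + 3)
    calc (w (b + (J1 + 3)) ^ 8)⁻¹ * (C1 ^ (J1 + 3 + 1) * Ub b) ≤ (256 ^ (J1 + 3) * (w b ^ 4)⁻¹) * (C1 ^ (J1 + 3 + 1) * Ub b) :=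
          mul_le_mul_of_nonneg_right (h1.trans h2) (by positivity)
      _ = _ := by ring
  have hm1 : ∀ s : ℕ, gf (S1 (J1 + s)) ≤ ENNReal.ofReal ((1 / 2 * Ub b * (w b ^ 4)⁻¹) * (1 / 2) ^ s) * Xb b := by
    intro s
    obtain ⟨J, hJ⟩ : ∃ J, J = J1 + s + 3 := ⟨_, rfl⟩
    have h1 : gf (S1 (J1 + s)) ≤ ENNReal.ofReal (Ub b / (2 : ℝ) ^ (a1 * J)) * Xb b := by
      rw [hS1]
      refine (gf_mono ?_).trans (hL b J hb (by omega))
      rintro L ⟨h2, -⟩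
      rw [hJ]
      exact h2
    have h2 : gf (S1 (J1 + s)) ≤ ENNReal.ofReal ((w (b + J) ^ 8)⁻¹ * (C1 ^ (J + 1) * Ub b)) * Xb b := by
      rw [hS1]
      refine (gf_mono ?_).trans (htail J)
      rintro L ⟨⟨h2, h3, -⟩, h4⟩
      rw [hJ]
      exact ⟨⟨h2, h3⟩, h4⟩
    have hwJ := hw0 (b + J)
    refine (sqrt_mul (by positivity) (by positivity) h1 h2).trans (mul_le_mul' (ENNReal.ofReal_le_ofReal ?_) le_rfl)
    have h5 : Real.sqrt (Ub b / 2 ^ (a1 * J) * ((w (b + J) ^ 8)⁻¹ * (C1 ^ (J + 1) * Ub b))) ≤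
        Ub b * (1 / 2) ^ (9 * J) * (w (b + J) ^ 4)⁻¹ := by
      refine Real.sqrt_le_iff.2 ⟨by positivity, ?_⟩
      have h3 : C1 ^ (J + 1) * 4 ^ (9 * J) ≤ 2 ^ (a1 * J) := by
        calc C1 ^ (J + 1) * 4 ^ (9 * J) ≤ C1 ^ (2 * J) * 4 ^ (9 * J) := by
              have : J + 1 ≤ 2 * J := by omega
              gcongr
          _ = (C1 ^ 2 * 4 ^ 9) ^ J := by rw [mul_pow, ← pow_mul, ← pow_mul]
          _ ≤ (2 ^ a1) ^ J := by gcongr
          _ = 2 ^ (a1 * J) := (pow_mul _ _ _).symm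
      have hp : (0 : ℝ) < 2 ^ (a1 * J) := by positivity
      have h4 : (4 : ℝ) ^ (9 * J) * ((1 / 2) ^ (9 * J)) ^ 2 = 1 := by
        rw [← pow_mul, mul_comm (9 * J) 2, pow_mul (1 / 2 : ℝ) 2, ← mul_pow]
        norm_num
      have h6 : C1 ^ (J + 1) / 2 ^ (a1 * J) ≤ ((1 / 2) ^ (9 * J)) ^ 2 := by
        rw [div_le_iff₀ hp]
        calc C1 ^ (J + 1) = C1 ^ (J + 1) * (4 ^ (9 * J) * ((1 / 2) ^ (9 * J)) ^ 2) := by rw [h4, mul_one]
          _ = ((1 / 2) ^ (9 * J)) ^ 2 * (C1 ^ (J + 1) * 4 ^ (9 * J)) := by ring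
          _ ≤ ((1 / 2) ^ (9 * J)) ^ 2 * 2 ^ (a1 * J) := mul_le_mul_of_nonneg_left h3 (by positivity)
      calc Ub b / 2 ^ (a1 * J) * ((w (b + J) ^ 8)⁻¹ * (C1 ^ (J + 1) * Ub b))
          = Ub b ^ 2 * (w (b + J) ^ 8)⁻¹ * (C1 ^ (J + 1) / 2 ^ (a1 * J)) := by ring
        _ ≤ Ub b ^ 2 * (w (b + J) ^ 8)⁻¹ * ((1 / 2) ^ (9 * J)) ^ 2 := mul_le_mul_of_nonneg_left h6 (by positivity)
        _ = (Ub b * (1 / 2) ^ (9 * J) * (w (b + J) ^ 4)⁻¹) ^ 2 := by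
          rw [mul_pow, mul_pow, inv_pow, ← pow_mul (w (b + J))]
          ring
    have h6 : (w (b + J) ^ 4)⁻¹ ≤ 256 ^ J * (w b ^ 4)⁻¹ := by
      rw [hw]
      exact w4_up y b J
    have h7 : (1 / 2 : ℝ) ^ (9 * J) * 256 ^ J = (1 / 2) ^ J := by
      rw [pow_mul, ← mul_pow]
      norm_num
    have h8 : (1 / 2 : ℝ) ^ J ≤ 1 / 2 * (1 / 2) ^ s := by
      rw [← pow_succ']
      exact pow_le_pow_of_le_one (by norm_num) (by norm_num) (by omega)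
    have hwb := hw0 b
    calc _ ≤ Ub b * (1 / 2) ^ (9 * J) * (w (b + J) ^ 4)⁻¹ := h5
      _ ≤ Ub b * (1 / 2) ^ (9 * J) * (256 ^ J * (w b ^ 4)⁻¹) := mul_le_mul_of_nonneg_left h6 (by positivity)
      _ = Ub b * (w b ^ 4)⁻¹ * ((1 / 2) ^ (9 * J) * 256 ^ J) := by ring
      _ = Ub b * (w b ^ 4)⁻¹ * (1 / 2) ^ J := by rw [h7]
      _ ≤ Ub b * (w b ^ 4)⁻¹ * (1 / 2 * (1 / 2) ^ s) := mul_le_mul_of_nonneg_left h8 (by positivity)
      _ = _ := by ring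
  have hwb := hw0 b
  refine (gf_mono hcov).trans ((gf_union_le _ _).trans ((add_le_add hm0 ((ENNReal.tsum_iUnion_le_tsum wE _).trans
    (ENNReal.tsum_le_tsum hm1))).trans ?_))
  rw [ENNReal.tsum_mul_right, tsum_half (by positivity), ← add_mul, ← ENNReal.ofReal_add (by positivity) (by positivity)]
  refine mul_le_mul' (ENNReal.ofReal_le_ofReal (le_of_eq ?_)) le_rfl
  have e9 : w b = 1 + (y : ℝ) / ml b := by rw [hw]
  rw [← e9]
  ring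

open Classical in
/-- **double counting in a class with a tail of the length** -/
theorem exA {b n D : ℕ} {𝒜 : Set (List Bool)} {M q : ℝ} {X x : ℝ≥0∞} {ρ : List Bool → List Bool → Prop} (hM : 0 ≤ M)
    (hA : ∀ y : ℕ, gf {A | A ∈ 𝒜 ∧ y ≤ A.length} ≤ ENNReal.ofReal (M * ((1 + (y : ℝ) / ml b) ^ 4)⁻¹) * X)
    (hρ : ∀ A Y, ρ A Y → A ∈ 𝒜) (hx : ∀ A, gf {Y | ρ A Y ∧ In D Y} ≤ x * ENNReal.ofReal (wt n A.length b)) :
    ENNReal.ofReal q * gf {L | q ≤ (nD D ρ L : ℝ)} ≤ x * (ENNReal.ofReal (32 * M * ((1 + (n : ℝ) / ml b) ^ 4)⁻¹) * X) := by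
  have hm := ml_pos b
  obtain ⟨ω, hω⟩ : ∃ ω : ℝ, ω = ((1 + (n : ℝ) / ml b) ^ 4)⁻¹ := ⟨_, rfl⟩
  have hω0 : 0 < ω := by rw [hω]; positivity
  have hhalf : ∀ y : ℕ, n ≤ 2 * y → ((1 + (y : ℝ) / ml b) ^ 4)⁻¹ ≤ 16 * ω := by
    intro y hy
    rw [hω, ← div_eq_mul_inv, le_div_iff₀ (by positivity), inv_mul_le_iff₀ (by positivity)]
    have h1 : 1 + (n : ℝ) / ml b ≤ 2 * (1 + (y : ℝ) / ml b) := by
      have h2 : (n : ℝ) ≤ 2 * y := by exact_mod_cast hy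
      have h3 : (n : ℝ) / ml b ≤ 2 * y / ml b := div_le_div_of_nonneg_right h2 hm.le
      rw [mul_add, ← mul_div_assoc]
      linarith
    calc (1 + (n : ℝ) / ml b) ^ 4 ≤ (2 * (1 + (y : ℝ) / ml b)) ^ 4 := pow_le_pow_left₀ (by positivity) h1 4
      _ = (1 + (y : ℝ) / ml b) ^ 4 * 16 := by ring
  have h1 : ENNReal.ofReal q * gf {L | q ≤ (nD D ρ L : ℝ)} ≤
      ∑' A : List Bool, if A ∈ 𝒜 then wE A * gf {Y | ρ A Y ∧ In D Y} else 0 := by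
    refine dcs (Y := fun A => {Y | ρ A Y ∧ In D Y}) fun L hL => ?_
    obtain ⟨S, hS, hcut⟩ := nD_cuts D ρ L
    refine ⟨S, ?_, fun k hk => ?_⟩
    · rw [← ENNReal.ofReal_natCast]
      refine ENNReal.ofReal_le_ofReal (le_trans hL ?_)
      exact_mod_cast hS
    · obtain ⟨h2, h3, h4⟩ := hcut k hk
      exact ⟨h2, hρ _ _ h3, h3, h4⟩
  obtain ⟨V, hV⟩ : ∃ V : Set (List Bool), V = {A | A ∈ 𝒜 ∧ (n + 1) / 2 ≤ A.length} := ⟨_, rfl⟩
  obtain ⟨V0, hV0⟩ : ∃ V0 : Set (List Bool), V0 = {A | A ∈ 𝒜 ∧ 0 ≤ A.length} := ⟨_, rfl⟩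
  have h2 : ∀ A : List Bool, (if A ∈ 𝒜 then wE A * gf {Y | ρ A Y ∧ In D Y} else 0) ≤
      x * ((if A ∈ V then wE A else 0) + ENNReal.ofReal (16 * ω) * (if A ∈ V0 then wE A else 0)) := by
    intro A
    by_cases hA' : A ∈ 𝒜
    · rw [if_pos hA', if_pos (show A ∈ V0 by rw [hV0]; exact ⟨hA', Nat.zero_le _⟩)]
      refine (mul_le_mul' le_rfl (hx A)).trans ?_
      rw [mul_left_comm]
      refine mul_le_mul' le_rfl ?_
      by_cases h3 : (n + 1) / 2 ≤ A.length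
      · rw [if_pos (show A ∈ V by rw [hV]; exact ⟨hA', h3⟩)]
        refine le_trans ?_ le_self_add
        refine (mul_le_mul' le_rfl (ENNReal.ofReal_le_ofReal (q := 1) ?_)).trans (by rw [ENNReal.ofReal_one, mul_one])
        unfold wt
        rw [wt_pow _ (by positivity)]
        exact inv_le_one_of_one_le₀ (one_le_pow₀ (by have : (0 : ℝ) ≤ ((n - A.length : ℕ) : ℝ) / ml b := by positivity
                                                     linarith))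
      · refine le_trans ?_ le_add_self
        rw [mul_comm]
        refine mul_le_mul' (ENNReal.ofReal_le_ofReal ?_) le_rfl
        unfold wt
        rw [wt_pow _ (by positivity)]
        exact hhalf (n - A.length) (by omega)
    · rw [if_neg hA']
      exact zero_le
  refine h1.trans ((ENNReal.tsum_le_tsum h2).trans ?_)
  rw [ENNReal.tsum_mul_left, ENNReal.tsum_add, ENNReal.tsum_mul_left, ← gf_ind, ← gf_ind]
  refine mul_le_mul' le_rfl ?_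
  have h3 : gf V ≤ ENNReal.ofReal (M * (16 * ω)) * X := by
    rw [hV]
    refine (hA ((n + 1) / 2)).trans (mul_le_mul' (ENNReal.ofReal_le_ofReal ?_) le_rfl)
    exact mul_le_mul_of_nonneg_left (hhalf _ (by omega)) hM
  have h4 : gf V0 ≤ ENNReal.ofReal M * X := by
    rw [hV0]
    refine (hA 0).trans (mul_le_mul' (ENNReal.ofReal_le_ofReal (le_of_eq ?_)) le_rfl)
    rw [Nat.cast_zero, zero_div, add_zero, one_pow, inv_one, mul_one]
  calc gf V + ENNReal.ofReal (16 * ω) * gf V0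
      ≤ ENNReal.ofReal (M * (16 * ω)) * X + ENNReal.ofReal (16 * ω) * (ENNReal.ofReal M * X) :=
        add_le_add h3 (mul_le_mul' le_rfl h4)
    _ = _ := by
      rw [← hω, ← mul_assoc (ENNReal.ofReal (16 * ω)), ← ENNReal.ofReal_mul (by positivity), ← add_mul,
        ← ENNReal.ofReal_add (by positivity) (by positivity)]
      congr 2
      ring

open Classical in
/-- **the good cuts of one word** -/
theorem caseU (hW : NeW) {κ : ℝ} {C b : ℕ} {t X Z1 Z2 Z3 Y0 : List Bool} (hd : Dt κ C b t X Z1 Z2 Z3 Y0) {η : ℝ} {h E0 D : ℕ}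
    {ρ : List Bool → List Bool → Prop} (hh : 1 ≤ h) (hη : η * Ub b ≤ (h : ℝ)) (h4 : 4 * h ≤ nc Z2) (hE : In E0 Y0)
    (hD : 2 * (C * 2 ^ b) + E0 ≤ D) (hρ : ∀ q W, q ≤ t.length → t.take q ∈ GT b η → rev (t.drop q) ∈ GT b η →
      t.drop q = W ++ Y0 → ρ (t.take q) (t.drop q)) : h ≤ nD D ρ t := by
  have h1 := card_rank hW (Z := Z2) (lo := h) (hi := 2 * h) hh (by omega)
  have h2 : 2 * h - h = h := by omega
  rw [h2] at h1
  rw [← h1, ← card_image_of_injective _ (fun x y h => Nat.add_left_cancel h : Function.Injective fun c => (X ++ Z1).length + c)]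
  refine nD_ge fun q hq => ?_
  obtain ⟨c, hc, rfl⟩ := mem_image.1 hq
  rw [mem_filter] at hc
  obtain ⟨hc1, hc2, hc3⟩ := hc
  obtain ⟨a1, a2, a3⟩ := mem_cz.1 hc1
  obtain ⟨f1, f2, f3⟩ := hd.cut a1
  obtain ⟨g1, g2⟩ := hd.gt hW hη h4 hc1 hc2 (by omega)
  exact ⟨f1, hρ _ (Z2.drop c ++ Z3) f1 g1 g2 (by rw [f3, List.append_assoc]), hd.inD hE hD hc1⟩

end ARM

end HexObs
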