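import Pool.Agent.ARM.UpA
import Pool.Agent.ARM.LMass
import Pool.Agent.ARM.TipF

/-!
# ARM2, row U (helper29): the upper bound at a point

A word with n letters and the end z, |z| <= 2 ^ j: behind the last rich factor of the level j the exact end and the exact
length cost `1 / (4 ^ j ml j)` (`YPt`, `YPtBad`, `ExF`, `T1`); without a rich factor of the level j the same is done at the
largest lower level b with a rich factor, the first part has no rich factor of the level b + 1 (`aMass`, `exA`).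

* **`upPt_of`**: `UpPt` from `T1`, `ExF`, `RegZ`, `LMassJ`, `YPt`, `YPtBad`;
* **`upPt_in`**: `UpPt` from `T1`, `YPt`, `YPtBad`.
-/

set_option autoImplicit false

namespace HexObs

namespace ARM

open Finset TS SDN SIM NTA TIP TIP.Nf

open scoped ENNReal

/-- the pairs: exact length and end, two good tips -/
def PR (b n : ℕ) (z : Pt) (η : ℝ) (N B : Set (List Bool)) (A Y : List Bool) : Prop :=
  (A ∈ SA ∧ A ∈ GT b η ∧ A ∈ N) ∧ (Y ∈ SA ∧ rev Y ∈ GT b η) ∧ Y ∈ B ∧ (A ++ Y).length = n ∧ TIW.en (A ++ Y) = z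

/-- parts with a long factor without rich window -/
def Bz (κ : ℝ) (C b J : ℕ) : Set (List Bool) := {Y | ∃ n' : ℕ, 2 ^ J ≤ n' * 2 ^ 2 ∧ Y ∈ Lz κ C b n'}

lemma ex_w (A : List Bool) (z : Pt) : ∃ w : Pt, ∀ Y, TIW.en (A ++ Y) = z → TIW.en Y = w := by
  by_cases h : ∃ Y0, TIW.en (A ++ Y0) = z
  · obtain ⟨Y0, h0⟩ := h
    refine ⟨TIW.en Y0, fun Y hY => ?_⟩
    rw [en_app] at h0 hY
    exact mulE_inj (TIW.nrm_rt A) (add_left_cancel (hY.trans h0.symm))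
  · exact ⟨0, fun Y hY => absurd ⟨Y, hY⟩ h⟩

open Classical in
/-- the covering of the words with a rich factor -/
lemma covU {κ η : ℝ} {C b n m : ℕ} {z : Pt} {N : Set (List Bool)} {L : List Bool} (hκ : 0 < κ) (hη : η = κ / 8)
    (h8 : 8 ≤ κ * Ub b) (hm : 2 * C ≤ 2 ^ m) (hL : L ∈ SA) (hn : L.length = n) (hz : TIW.en L = z) (hN : ∀ q, L.take q ∈ N)
    (hNz : L ∉ Nz κ C b) :
    κ * Ub b / 8 ≤ (nD (2 ^ (b + (m + 1))) (PR b n z η N Set.univ) L : ℝ) ∨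
      ∃ s : ℕ, κ * Ub b / 8 ≤ (nD (2 ^ (b + (m + s + 2))) (PR b n z η N (Bz κ C b (m + s + 2))) L : ℝ) := by
  have hU := TS.Ub_pos b
  obtain ⟨X, Z1, Z2, Z3, Y0, hd⟩ := dt_of neW hL hNz
  obtain ⟨h, hh⟩ : ∃ h : ℕ, h = ⌈κ * Ub b / 8⌉₊ := ⟨_, rfl⟩
  have hh1 : 1 ≤ h := by
    rw [hh, Nat.one_le_iff_ne_zero, Nat.ne_zero_iff_zero_lt, Nat.ceil_pos]
    positivity
  have hq : κ * Ub b / 8 ≤ (h : ℝ) := by
    rw [hh]
    exact Nat.le_ceil _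
  have hh2 : (h : ℝ) < κ * Ub b / 8 + 1 := by
    rw [hh]
    exact Nat.ceil_lt_add_one (by positivity)
  have hηh : η * Ub b ≤ (h : ℝ) := by
    rw [hη]
    calc κ / 8 * Ub b = κ * Ub b / 8 := by ring
      _ ≤ h := hq
  have h4 : 4 * h ≤ nc Z2 := by
    have h5 : (4 : ℝ) * h ≤ nc Z2 := by
      have := hd.n2
      linarith
    exact_mod_cast h5
  have hpow : ∀ J, m ≤ J → 2 * (C * 2 ^ b) + 2 ^ (b + J) ≤ 2 ^ (b + (J + 1)) := by
    intro J hJ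
    have e1 : 2 ^ (b + (J + 1)) = 2 ^ J * 2 ^ b + 2 ^ (b + J) := by
      rw [← add_assoc, pow_succ, pow_add]
      ring
    have e2 := Nat.mul_le_mul_right (2 ^ b) (hm.trans (Nat.pow_le_pow_right (by norm_num) hJ))
    rw [e1]
    nlinarith
  have hex : ∃ J, In (2 ^ (b + J)) Y0 := by
    obtain ⟨J, hJ⟩ := In_len Y0
    exact ⟨J, hJ b⟩
  have hpr : ∀ q W, q ≤ L.length → L.take q ∈ GT b η → rev (L.drop q) ∈ GT b η → L.drop q = W ++ Y0 →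
      ∀ B : Set (List Bool), L.drop q ∈ B → PR b n z η N B (L.take q) (L.drop q) := by
    intro q W _ h6 h7 _ B hB
    refine ⟨⟨SA_take hL q, h6, hN q⟩, ⟨SA_drop hL q, h7⟩, hB, ?_, ?_⟩
    · rw [List.take_append_drop, hn]
    · rw [List.take_append_drop, hz]
  rcases le_or_gt (Nat.find hex) m with hJ | hJ
  · left
    have h5 : In (2 ^ (b + m)) Y0 := in_mono (Nat.find_spec hex) (Nat.pow_le_pow_right (by norm_num) (by omega))
    refine hq.trans ?_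
    exact_mod_cast caseU neW hd (ρ := PR b n z η N Set.univ) hh1 hηh h4 h5 (hpow m le_rfl)
      (fun q W a1 a2 a3 a4 => hpr q W a1 a2 a3 a4 _ (Set.mem_univ _))
  · right
    obtain ⟨J, hJd⟩ : ∃ J, J = Nat.find hex := ⟨_, rfl⟩
    have h5 := Nat.find_spec hex
    have h6 := Nat.find_min hex (m := Nat.find hex - 1) (by omega)
    rw [← hJd] at h5 h6 hJ
    have h7 : ¬ In (2 ^ (J - 1) * 2 ^ b) Y0 := by
      rwa [← pow_add, add_comm (J - 1) b]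
    refine ⟨J - m - 1, hq.trans ?_⟩
    rw [show m + (J - m - 1) + 2 = J + 1 by omega]
    exact_mod_cast caseU neW hd (ρ := PR b n z η N (Bz κ C b (J + 1))) hh1 hηh h4 h5 (hpow J hJ.le)
      (fun q W a1 a2 a3 a4 => hpr q W a1 a2 a3 a4 _ ⟨2 ^ (J - 1), by
        rw [← pow_add]
        exact Nat.pow_le_pow_right (by norm_num) (by omega), W, Y0, [], by rw [a4, List.append_nil], hd.nz, h7⟩)

/-! ### numbers -/

/-- the target -/
noncomputable def Tp (n j : ℕ) : ℝ := pr n j / (4 ^ j * ml j)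

lemma Tp_pos (n j : ℕ) : 0 < Tp n j := by
  have h1 := pr_pos n j
  have h2 := ml_pos j
  unfold Tp
  positivity

lemma four_r (b : ℕ) : (4 : ℝ) ^ b = (2 : ℝ) ^ (2 * (b : ℝ)) := by
  rw [Real.rpow_mul (by norm_num), Real.rpow_natCast]
  norm_num

lemma Tp_eq {n j : ℕ} (h : ml j ≤ n) : Tp n j = (2 : ℝ) ^ ((11 / 24 : ℝ) * (j : ℝ)) * (n : ℝ) ^ (-(3 / 2) : ℝ) := by
  have hm := ml_pos j
  have hn : (0 : ℝ) < n := lt_of_lt_of_le hm h
  unfold Tp pr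
  rw [max_eq_left h, Real.div_rpow hm.le hn.le, Real.rpow_neg hn.le, four_r]
  unfold ml
  rw [← Real.rpow_mul (by norm_num), ← Real.rpow_add (by norm_num), mul_div_assoc', ← Real.rpow_add (by norm_num),
    div_div, mul_comm ((n : ℝ) ^ (3 / 2 : ℝ)), ← div_div, ← Real.rpow_sub (by norm_num), div_eq_mul_inv]
  congr 2
  ring

/-- a lower level -/
lemma low_lev {n j b : ℕ} (hb : b ≤ j) (h : ml j ≤ n) :
    (2 : ℝ) ^ ((43 / 24 : ℝ) * (b : ℝ)) / (4 ^ b * ml b) * ((1 + (n : ℝ) / ml b) ^ 4)⁻¹ ≤ (1 / 2) ^ (j - b) * Tp n j := by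
  have hm := ml_pos b
  have hmj := ml_pos j
  have hn : (0 : ℝ) < n := lt_of_lt_of_le hmj h
  have h1 : ((1 + (n : ℝ) / ml b) ^ 4)⁻¹ ≤ ml b ^ 4 * (n : ℝ) ^ (-(4 : ℝ)) := by
    have h2 : (n : ℝ) ^ (-(4 : ℝ)) = ((n : ℝ) ^ 4)⁻¹ := by
      rw [Real.rpow_neg hn.le]
      congr 1
      exact_mod_cast Real.rpow_natCast (n : ℝ) 4
    rw [h2, ← div_eq_mul_inv, ← div_pow, ← inv_pow]
    refine pow_le_pow_left₀ (by positivity) ?_ 4
    rw [← one_div, div_le_div_iff₀ (by positivity) hn]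
    have h3 : ml b * (1 + (n : ℝ) / ml b) = ml b + n := by field_simp
    rw [h3]
    linarith
  have h2 : (2 : ℝ) ^ ((43 / 24 : ℝ) * (b : ℝ)) / (4 ^ b * ml b) * ((1 + (n : ℝ) / ml b) ^ 4)⁻¹ ≤
      (2 : ℝ) ^ ((91 / 24 : ℝ) * (b : ℝ)) * (n : ℝ) ^ (-(4 : ℝ)) := by
    refine (mul_le_mul_of_nonneg_left h1 (by positivity)).trans (le_of_eq ?_)
    rw [← mul_assoc]
    congr 1
    rw [four_r]
    unfold ml
    rw [← Real.rpow_natCast ((2 : ℝ) ^ ((4 / 3 : ℝ) * (b : ℝ))) 4, ← Real.rpow_mul (by norm_num), ← Real.rpow_add (by norm_num),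
      ← Real.rpow_sub (by norm_num), ← Real.rpow_add (by norm_num)]
    congr 1
    push_cast
    ring
  refine h2.trans ?_
  rw [Tp_eq h]
  have h3 : (n : ℝ) ^ (-(4 : ℝ)) = (n : ℝ) ^ (-(5 / 2) : ℝ) * (n : ℝ) ^ (-(3 / 2) : ℝ) := by
    rw [← Real.rpow_add hn]
    norm_num
  have h4 : (n : ℝ) ^ (-(5 / 2) : ℝ) ≤ (2 : ℝ) ^ (-(80 / 24 : ℝ) * (j : ℝ)) := by
    refine (Real.rpow_le_rpow_of_nonpos hmj h (by norm_num)).trans (le_of_eq ?_)
    unfold ml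
    rw [← Real.rpow_mul (by norm_num)]
    congr 1
    ring
  have h5 : (1 / 2 : ℝ) ^ (j - b) = (2 : ℝ) ^ (-((j : ℝ) - b)) := by
    rw [Real.rpow_neg (by norm_num), ← Nat.cast_sub hb, Real.rpow_natCast, one_div, inv_pow]
  have h6 : (2 : ℝ) ^ ((91 / 24 : ℝ) * (b : ℝ)) * (2 : ℝ) ^ (-(80 / 24 : ℝ) * (j : ℝ)) ≤
      (2 : ℝ) ^ (-((j : ℝ) - b)) * (2 : ℝ) ^ ((11 / 24 : ℝ) * (j : ℝ)) := by
    rw [← Real.rpow_add (by norm_num), ← Real.rpow_add (by norm_num)]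
    refine Real.rpow_le_rpow_of_exponent_le (by norm_num) ?_
    have h7 : (b : ℝ) ≤ j := by exact_mod_cast hb
    linarith
  have hp : (0 : ℝ) < (n : ℝ) ^ (-(3 / 2) : ℝ) := by positivity
  rw [h3, h5]
  calc (2 : ℝ) ^ ((91 / 24 : ℝ) * (b : ℝ)) * ((n : ℝ) ^ (-(5 / 2) : ℝ) * (n : ℝ) ^ (-(3 / 2) : ℝ))
      ≤ (2 : ℝ) ^ ((91 / 24 : ℝ) * (b : ℝ)) * ((2 : ℝ) ^ (-(80 / 24 : ℝ) * (j : ℝ)) * (n : ℝ) ^ (-(3 / 2) : ℝ)) := by gcongr
    _ = ((2 : ℝ) ^ ((91 / 24 : ℝ) * (b : ℝ)) * (2 : ℝ) ^ (-(80 / 24 : ℝ) * (j : ℝ))) * (n : ℝ) ^ (-(3 / 2) : ℝ) := by ring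
    _ ≤ ((2 : ℝ) ^ (-((j : ℝ) - b)) * (2 : ℝ) ^ ((11 / 24 : ℝ) * (j : ℝ))) * (n : ℝ) ^ (-(3 / 2) : ℝ) := by gcongr
    _ = _ := by ring

lemma bot_lev {n j b : ℕ} (hb : b ≤ j) (h : ml j ≤ n) : pr n b ≤ (2 : ℝ) ^ ((91 / 24 : ℝ) * (b : ℝ)) * Tp n j := by
  have hm := ml_pos b
  have hmj := ml_pos j
  have hn : (0 : ℝ) < n := lt_of_lt_of_le hmj h
  have h1 : pr n b = (2 : ℝ) ^ ((91 / 24 : ℝ) * (b : ℝ)) * (n : ℝ) ^ (-(3 / 2) : ℝ) := by
    unfold pr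
    rw [max_eq_left ((ml_mono hb).trans h), Real.div_rpow hm.le hn.le, Real.rpow_neg hn.le]
    unfold ml
    rw [← Real.rpow_mul (by norm_num), mul_div_assoc', ← Real.rpow_add (by norm_num), div_eq_mul_inv]
    congr 2
    ring
  rw [h1, Tp_eq h]
  have h2 : (1 : ℝ) ≤ (2 : ℝ) ^ ((11 / 24 : ℝ) * (j : ℝ)) := Real.one_le_rpow (by norm_num) (by positivity)
  have hp : (0 : ℝ) < (n : ℝ) ^ (-(3 / 2) : ℝ) := by positivity
  refine mul_le_mul_of_nonneg_left ?_ (by positivity)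
  nlinarith

/-! ### level j -/

/-- the words with a rich factor of the level j -/
lemma upI {κ η : ℝ} {C m : ℕ} (hκ : 0 < κ) (hη : η = κ / 8) (hm : 2 * C ≤ 2 ^ m) (hT : T1) (hE : ExF) (hY : YPt)
    (hYB : ∃ b0 : ℕ, ∀ b J y : ℕ, ∀ z : Pt, b0 ≤ b → m ≤ J →
      gf {Y | Y ∈ SA ∧ rev Y ∈ GT b η ∧ In (2 ^ (b + J)) Y ∧ (∃ n : ℕ, 2 ^ J ≤ n * 2 ^ 2 ∧ Y ∈ Lz κ C b n) ∧
        Y.length = y ∧ TIW.en Y = z} ≤
      ENNReal.ofReal (Ub b / ((2 : ℝ) ^ (5 * J) * (4 ^ b * ml b)) * (1 + (y : ℝ) / ml b) ^ (-(4 : ℝ))) * Xb b) :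
    ∃ (K : ℝ) (b0 : ℕ), 0 < K ∧ ∀ (n j : ℕ) (z : Pt), b0 ≤ j → TIW.hn z ≤ 2 ^ j →
      gf {L | L ∈ SA ∧ L.length = n ∧ TIW.en L = z ∧ L ∉ Nz κ C j} ≤ ENNReal.ofReal (K * Tp n j) := by
  have hη0 : 0 < η := by rw [hη]; positivity
  obtain ⟨D, hD, hT⟩ := hT
  obtain ⟨C1, hC1, hE1⟩ := hE η (m + 1) hη0
  obtain ⟨C2, hC2, hE2⟩ := hE η 0 hη0
  obtain ⟨Cy, b1, hCy, hY⟩ := hY η (m + 1) hη0
  obtain ⟨b2, hYB⟩ := hYB
  obtain ⟨bU, hbU⟩ : ∃ bU : ℕ, ∀ b, bU ≤ b → 8 ≤ κ * Ub b := by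
    obtain ⟨B, hB⟩ := Ub_big
    obtain ⟨n, hn⟩ := exists_nat_ge (8 / κ)
    refine ⟨B * n, fun b hb => ?_⟩
    have h1 := hB b n hb
    have h2 : (n : ℝ) ≤ 8 ^ n := by
      exact_mod_cast (Nat.lt_pow_self (by norm_num : 1 < 8)).le
    have h3 : 8 / κ ≤ Ub b := hn.trans (h2.trans h1)
    rw [div_le_iff₀ hκ] at h3
    linarith
  refine ⟨8 * C1 * D * Cy / κ + 8 * C2 * D / κ, b1 + b2 + bU, by positivity, fun n j z hj hz => ?_⟩
  have h8 := hbU j (by omega)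
  have hU := TS.Ub_pos j
  have hml := ml_pos j
  have hp := pr_pos n j
  have hTp := Tp_pos n j
  have hF : HF D n j := fun n' i _ _ => hT n' i
  obtain ⟨ρ, hρ⟩ : ∃ ρ, ρ = PR j n z η Set.univ Set.univ := ⟨_, rfl⟩
  obtain ⟨ρs, hρs⟩ : ∃ ρs : ℕ → List Bool → List Bool → Prop, ρs = fun s => PR j n z η Set.univ (Bz κ C j (m + s + 2)) := ⟨_, rfl⟩
  have hcov : {L | L ∈ SA ∧ L.length = n ∧ TIW.en L = z ∧ L ∉ Nz κ C j} ⊆
      {L | L ∈ Fp n j ∧ κ * Ub j / 8 ≤ (nD (2 ^ (j + (m + 1))) ρ L : ℝ)} ∪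
        ⋃ s : ℕ, {L | L ∈ Fp n j ∧ κ * Ub j / 8 ≤ (nD (2 ^ ((j + (m + s + 2)) + 0)) (ρs s) L : ℝ)} := by
    rintro L ⟨h1, h2, h3, h4⟩
    have hFp : L ∈ Fp n j := by
      refine ⟨h1, h2.ge, ?_, ?_⟩
      · rw [h2]
        linarith
      · rw [h3]
        linarith
    rcases covU (b := j) (n := n) (z := z) (N := Set.univ) hκ hη h8 hm h1 h2 h3 (fun _ => Set.mem_univ _) h4 with h5 | ⟨s, h5⟩
    · left
      rw [hρ]
      exact ⟨hFp, h5⟩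
    · refine Or.inr (Set.mem_iUnion.2 ⟨s, hFp, ?_⟩)
      rw [hρs]
      exact h5
  have hfst : gf {L | L ∈ Fp n j ∧ κ * Ub j / 8 ≤ (nD (2 ^ (j + (m + 1))) ρ L : ℝ)} ≤
      ENNReal.ofReal (8 * C1 * D * Cy / κ * Tp n j) := by
    have h5 := hE1 D n j j j hD.le hF le_rfl le_rfl ρ (ENNReal.ofReal (Cy * Ub j / (4 ^ j * ml j)) * Xb j) (κ * Ub j / 8)
      (fun A Y h => by rw [hρ] at h; exact h.1.2.1) (fun A => ?_) (by positivity)
    · refine (cancelF (by positivity) (by positivity) h5).trans (ENNReal.ofReal_le_ofReal (le_of_eq ?_))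
      unfold Tp
      field_simp
    · obtain ⟨w, hw⟩ := ex_w A z
      have h6 := hY j (n - A.length) w (by omega)
      have e1 : ENNReal.ofReal (Cy * Ub j / (4 ^ j * ml j) * (1 + ((n - A.length : ℕ) : ℝ) / ml j) ^ (-(4 : ℝ))) * Xb j =
          ENNReal.ofReal (Cy * Ub j / (4 ^ j * ml j)) * Xb j * ENNReal.ofReal (wt n A.length j) := by
        rw [ENNReal.ofReal_mul (by positivity)]
        unfold wt
        ring
      rw [e1] at h6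
      refine (gf_mono ?_).trans h6
      rintro Y ⟨y1, y2, -⟩
      rw [hρ] at y1
      obtain ⟨-, ⟨y3, y4⟩, -, y5, y6⟩ := y1
      refine ⟨y3, y4, y2, ?_, hw Y y6⟩
      rw [List.length_append] at y5
      omega
  have hsnd : ∀ s : ℕ, gf {L | L ∈ Fp n j ∧ κ * Ub j / 8 ≤ (nD (2 ^ ((j + (m + s + 2)) + 0)) (ρs s) L : ℝ)} ≤
      ENNReal.ofReal ((4 * C2 * D / κ * Tp n j) * (1 / 2) ^ s) := by
    intro s
    obtain ⟨J, hJ⟩ : ∃ J, J = m + s + 2 := ⟨_, rfl⟩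
    have hFi : HF D n (j + J) := fun n' i _ _ => hT n' i
    rw [← hJ]
    have h5 := hE2 D n j (j + J) j hD.le hFi (by omega) (by omega) (ρs s)
      (ENNReal.ofReal (Ub j / ((2 : ℝ) ^ (5 * J) * (4 ^ j * ml j))) * Xb j) (κ * Ub j / 8)
      (fun A Y h => by rw [hρs] at h; exact h.1.2.1) (fun A => ?_) (by positivity)
    · refine (cancelF (by positivity) (by have := pr_pos n (j + J); positivity) h5).trans (ENNReal.ofReal_le_ofReal ?_)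
      have h7 := pr_up16 n j J
      have h8' : (2 : ℝ) ^ (5 * J) = 32 ^ J := by
        rw [pow_mul]
        norm_num
      have h9 : (16 : ℝ) ^ J / 32 ^ J = (1 / 2) ^ J := by
        rw [← div_pow]
        norm_num
      have h10 : (1 / 2 : ℝ) ^ J ≤ 1 / 2 * (1 / 2) ^ s := by
        rw [← pow_succ']
        exact pow_le_pow_of_le_one (by norm_num) (by norm_num) (by omega)
      rw [h8', div_le_iff₀ (by positivity)]
      calc C2 * D * pr n (j + J) * (Ub j / (32 ^ J * (4 ^ j * ml j)))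
          ≤ C2 * D * (16 ^ J * pr n j) * (Ub j / (32 ^ J * (4 ^ j * ml j))) := by gcongr
        _ = 8 * C2 * D / κ * Tp n j * (16 ^ J / 32 ^ J) * (κ * Ub j / 8) := by
            unfold Tp
            field_simp
        _ = 8 * C2 * D / κ * Tp n j * (1 / 2) ^ J * (κ * Ub j / 8) := by rw [h9]
        _ ≤ 8 * C2 * D / κ * Tp n j * (1 / 2 * (1 / 2) ^ s) * (κ * Ub j / 8) := by gcongr
        _ = _ := by ring
    · obtain ⟨w, hw⟩ := ex_w A z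
      have h6 := hYB j J (n - A.length) w (by omega) (by omega)
      have h6' : gf {Y | Y ∈ SA ∧ rev Y ∈ GT j η ∧ In (2 ^ (j + J)) Y ∧ (∃ n : ℕ, 2 ^ J ≤ n * 2 ^ 2 ∧ Y ∈ Lz κ C j n) ∧
          Y.length = n - A.length ∧ TIW.en Y = w} ≤
          ENNReal.ofReal (Ub j / ((2 : ℝ) ^ (5 * J) * (4 ^ j * ml j))) * Xb j * ENNReal.ofReal (wt n A.length (j + J)) := by
        refine h6.trans ?_
        rw [ENNReal.ofReal_mul (by positivity), mul_right_comm]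
        refine mul_le_mul' le_rfl (ENNReal.ofReal_le_ofReal ?_)
        unfold wt
        have hmJ := ml_pos (j + J)
        refine Real.rpow_le_rpow_of_nonpos (by positivity) ?_ (by norm_num)
        have : ((n - A.length : ℕ) : ℝ) / ml (j + J) ≤ ((n - A.length : ℕ) : ℝ) / ml j :=
          div_le_div_of_nonneg_left (by positivity) hml (ml_mono (by omega))
        linarith
      refine (gf_mono ?_).trans h6'
      rintro Y ⟨y1, y2, -⟩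
      rw [hρs] at y1
      obtain ⟨-, ⟨y3, y4⟩, y7, y5, y6⟩ := y1
      refine ⟨y3, y4, by rwa [add_zero] at y2, ?_, ?_, hw Y y6⟩
      · rw [hJ]
        exact y7
      · rw [List.length_append] at y5
        omega
  refine (gf_mono hcov).trans ((gf_union_le _ _).trans ((add_le_add hfst ((ENNReal.tsum_iUnion_le_tsum wE _).trans
    (ENNReal.tsum_le_tsum hsnd))).trans ?_))
  rw [tsum_half (by positivity), ← ENNReal.ofReal_add (by positivity) (by positivity)]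
  refine ENNReal.ofReal_le_ofReal (le_of_eq ?_)
  ring

/-! ### lower levels -/

/-- the words without a rich factor of the level b + 1, with a rich factor of the level b -/
lemma upII {κ η : ℝ} {C m : ℕ} (hκ : 0 < κ) (hη : η = κ / 8) (hm : 2 * C ≤ 2 ^ m) (hR : RegZ κ C) (hM : LMassJ) (hY : YPt)
    (hYB : ∃ b0 : ℕ, ∀ b J y : ℕ, ∀ z : Pt, b0 ≤ b → m ≤ J →
      gf {Y | Y ∈ SA ∧ rev Y ∈ GT b η ∧ In (2 ^ (b + J)) Y ∧ (∃ n : ℕ, 2 ^ J ≤ n * 2 ^ 2 ∧ Y ∈ Lz κ C b n) ∧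
        Y.length = y ∧ TIW.en Y = z} ≤
      ENNReal.ofReal (Ub b / ((2 : ℝ) ^ (5 * J) * (4 ^ b * ml b)) * (1 + (y : ℝ) / ml b) ^ (-(4 : ℝ))) * Xb b) :
    ∃ (K : ℝ) (b0 : ℕ), 0 < K ∧ ∀ (n b : ℕ) (z : Pt), b0 ≤ b →
      gf {L | L ∈ SA ∧ L.length = n ∧ TIW.en L = z ∧ L ∈ Nz κ C (b + 1) ∧ L ∉ Nz κ C b} ≤
        ENNReal.ofReal (K * ((2 : ℝ) ^ ((43 / 24 : ℝ) * (b : ℝ)) / (4 ^ b * ml b) * ((1 + (n : ℝ) / ml b) ^ 4)⁻¹)) := by
  have hη0 : 0 < η := by rw [hη]; positivity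
  obtain ⟨A0, b3, hA0, hA⟩ := aMass hR hM 1 η hη0
  obtain ⟨Cy, b1, hCy, hY⟩ := hY η (m + 1) hη0
  obtain ⟨b2, hYB⟩ := hYB
  obtain ⟨C3, hC3, hFK⟩ := NPR.Fast.FK_up
  obtain ⟨bU, hbU⟩ : ∃ bU : ℕ, ∀ b, bU ≤ b → 8 ≤ κ * Ub b := by
    obtain ⟨B, hB⟩ := Ub_big
    obtain ⟨n, hn⟩ := exists_nat_ge (8 / κ)
    refine ⟨B * n, fun b hb => ?_⟩
    have h1 := hB b n hb
    have h2 : (n : ℝ) ≤ 8 ^ n := by
      exact_mod_cast (Nat.lt_pow_self (by norm_num : 1 < 8)).le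
    have h3 : 8 / κ ≤ Ub b := hn.trans (h2.trans h1)
    rw [div_le_iff₀ hκ] at h3
    linarith
  refine ⟨256 * A0 * C3 / κ * (Cy + 1), b1 + b2 + b3 + bU, by positivity, fun n b z hb => ?_⟩
  have h8 := hbU b (by omega)
  have hU := TS.Ub_pos b
  have hml := ml_pos b
  obtain ⟨ω, hω⟩ : ∃ ω : ℝ, ω = ((1 + (n : ℝ) / ml b) ^ 4)⁻¹ := ⟨_, rfl⟩
  have hω0 : 0 < ω := by rw [hω]; positivity
  obtain ⟨P, hP⟩ : ∃ P : ℝ, P = (2 : ℝ) ^ ((43 / 24 : ℝ) * (b : ℝ)) := ⟨_, rfl⟩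
  have hP0 : 0 < P := by rw [hP]; positivity
  have hFKb : ENNReal.ofReal (Ub b) * Xb b ^ 2 ≤ ENNReal.ofReal (C3 * P) := by
    rw [hP]
    exact hFK b
  obtain ⟨𝒜, h𝒜⟩ : ∃ 𝒜 : Set (List Bool), 𝒜 = {A | A ∈ SA ∧ A ∈ GT b η ∧ A ∈ Nz κ C (b + 1)} := ⟨_, rfl⟩
  have hA' : ∀ y : ℕ, gf {A | A ∈ 𝒜 ∧ y ≤ A.length} ≤ ENNReal.ofReal (A0 * Ub b * ((1 + (y : ℝ) / ml b) ^ 4)⁻¹) * Xb b := by
    intro y
    rw [h𝒜]
    exact hA b y (by omega)
  -- from the double counting to the mass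
  have hcan : ∀ {μ : ℝ≥0∞} {x : ℝ}, 0 ≤ x → ENNReal.ofReal (κ * Ub b / 8) * μ ≤
      (ENNReal.ofReal (x * Ub b / (4 ^ b * ml b)) * Xb b) * (ENNReal.ofReal (32 * (A0 * Ub b) * ω) * Xb b) →
      μ ≤ ENNReal.ofReal (256 * A0 * C3 / κ * x * (P / (4 ^ b * ml b) * ω)) := by
    intro μ x hx h
    have hq : ENNReal.ofReal (κ * Ub b / 8) ≠ 0 := by
      rw [Ne, ENNReal.ofReal_eq_zero, not_le]
      positivity
    have h1 : (ENNReal.ofReal (x * Ub b / (4 ^ b * ml b)) * Xb b) * (ENNReal.ofReal (32 * (A0 * Ub b) * ω) * Xb b) ≤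
        ENNReal.ofReal (x * Ub b / (4 ^ b * ml b) * (32 * A0 * ω) * (C3 * P)) := by
      calc (ENNReal.ofReal (x * Ub b / (4 ^ b * ml b)) * Xb b) * (ENNReal.ofReal (32 * (A0 * Ub b) * ω) * Xb b)
          = ENNReal.ofReal (x * Ub b / (4 ^ b * ml b) * (32 * A0 * ω)) * (ENNReal.ofReal (Ub b) * Xb b ^ 2) := by
            have e1 : ENNReal.ofReal (32 * (A0 * Ub b) * ω) = ENNReal.ofReal (32 * A0 * ω) * ENNReal.ofReal (Ub b) := by
              rw [← ENNReal.ofReal_mul (by positivity)]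
              congr 1
              ring
            rw [e1, ENNReal.ofReal_mul (p := x * Ub b / (4 ^ b * ml b)) (by positivity)]
            ring
        _ ≤ ENNReal.ofReal (x * Ub b / (4 ^ b * ml b) * (32 * A0 * ω)) * ENNReal.ofReal (C3 * P) := mul_le_mul' le_rfl hFKb
        _ = _ := by rw [← ENNReal.ofReal_mul (by positivity)]
    have h2 : ENNReal.ofReal (x * Ub b / (4 ^ b * ml b) * (32 * A0 * ω) * (C3 * P)) =
        ENNReal.ofReal (κ * Ub b / 8) * ENNReal.ofReal (256 * A0 * C3 / κ * x * (P / (4 ^ b * ml b) * ω)) := by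
      rw [← ENNReal.ofReal_mul (by positivity)]
      congr 1
      field_simp
      ring
    exact (ENNReal.mul_le_mul_iff_right hq ENNReal.ofReal_ne_top).1 ((h.trans h1).trans (le_of_eq h2))
  obtain ⟨ρ, hρ⟩ : ∃ ρ, ρ = PR b n z η (Nz κ C (b + 1)) Set.univ := ⟨_, rfl⟩
  obtain ⟨ρs, hρs⟩ : ∃ ρs : ℕ → List Bool → List Bool → Prop, ρs = fun s => PR b n z η (Nz κ C (b + 1)) (Bz κ C b (m + s + 2)) :=
    ⟨_, rfl⟩
  have hcov : {L | L ∈ SA ∧ L.length = n ∧ TIW.en L = z ∧ L ∈ Nz κ C (b + 1) ∧ L ∉ Nz κ C b} ⊆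
      {L | κ * Ub b / 8 ≤ (nD (2 ^ (b + (m + 1))) ρ L : ℝ)} ∪
        ⋃ s : ℕ, {L | κ * Ub b / 8 ≤ (nD (2 ^ (b + (m + s + 2))) (ρs s) L : ℝ)} := by
    rintro L ⟨h1, h2, h3, h5, h4⟩
    have hN : ∀ q, L.take q ∈ Nz κ C (b + 1) := fun q => YB.Nz_pre (Y := L.drop q) (by rwa [List.take_append_drop])
    rcases covU (b := b) (n := n) (z := z) (N := Nz κ C (b + 1)) hκ hη h8 hm h1 h2 h3 hN h4 with h5 | ⟨s, h5⟩
    · left
      rw [hρ]
      exact h5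
    · refine Or.inr (Set.mem_iUnion.2 ⟨s, ?_⟩)
      rw [hρs]
      exact h5
  have hfst : gf {L | κ * Ub b / 8 ≤ (nD (2 ^ (b + (m + 1))) ρ L : ℝ)} ≤
      ENNReal.ofReal (256 * A0 * C3 / κ * Cy * (P / (4 ^ b * ml b) * ω)) := by
    refine hcan hCy.le ?_
    have h5 := exA (b := b) (n := n) (D := 2 ^ (b + (m + 1))) (𝒜 := 𝒜) (M := A0 * Ub b) (q := κ * Ub b / 8) (X := Xb b)
      (x := ENNReal.ofReal (Cy * Ub b / (4 ^ b * ml b)) * Xb b) (ρ := ρ) (by positivity) hA'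
      (fun A Y h => by rw [hρ] at h; rw [h𝒜]; exact h.1) (fun A => ?_)
    · rw [← hω] at h5
      exact h5
    · obtain ⟨w, hw⟩ := ex_w A z
      have h6 := hY b (n - A.length) w (by omega)
      have e1 : ENNReal.ofReal (Cy * Ub b / (4 ^ b * ml b) * (1 + ((n - A.length : ℕ) : ℝ) / ml b) ^ (-(4 : ℝ))) * Xb b =
          ENNReal.ofReal (Cy * Ub b / (4 ^ b * ml b)) * Xb b * ENNReal.ofReal (wt n A.length b) := by
        rw [ENNReal.ofReal_mul (by positivity)]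
        unfold wt
        ring
      rw [e1] at h6
      refine (gf_mono ?_).trans h6
      rintro Y ⟨y1, y2⟩
      rw [hρ] at y1
      obtain ⟨-, ⟨y3, y4⟩, -, y5, y6⟩ := y1
      refine ⟨y3, y4, y2, ?_, hw Y y6⟩
      rw [List.length_append] at y5
      omega
  have hsnd : ∀ s : ℕ, gf {L | κ * Ub b / 8 ≤ (nD (2 ^ (b + (m + s + 2))) (ρs s) L : ℝ)} ≤
      ENNReal.ofReal ((256 * A0 * C3 / κ * (1 / 2) * (P / (4 ^ b * ml b) * ω)) * (1 / 2) ^ s) := by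
    intro s
    obtain ⟨J, hJ⟩ : ∃ J, J = m + s + 2 := ⟨_, rfl⟩
    rw [← hJ]
    have h5 := exA (b := b) (n := n) (D := 2 ^ (b + J)) (𝒜 := 𝒜) (M := A0 * Ub b) (q := κ * Ub b / 8) (X := Xb b)
      (x := ENNReal.ofReal (((2 : ℝ) ^ (5 * J))⁻¹ * Ub b / (4 ^ b * ml b)) * Xb b) (ρ := ρs s) (by positivity) hA'
      (fun A Y h => by rw [hρs] at h; rw [h𝒜]; exact h.1) (fun A => ?_)
    · rw [← hω] at h5
      refine (hcan (by positivity) h5).trans (ENNReal.ofReal_le_ofReal ?_)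
      have h10 : ((2 : ℝ) ^ (5 * J))⁻¹ ≤ 1 / 2 * (1 / 2) ^ s := by
        rw [← pow_succ', one_div, inv_pow]
        refine inv_anti₀ (by positivity) (pow_le_pow_right₀ (by norm_num) (by omega))
      calc 256 * A0 * C3 / κ * ((2 : ℝ) ^ (5 * J))⁻¹ * (P / (4 ^ b * ml b) * ω)
          ≤ 256 * A0 * C3 / κ * (1 / 2 * (1 / 2) ^ s) * (P / (4 ^ b * ml b) * ω) := by gcongr
        _ = _ := by ring
    · obtain ⟨w, hw⟩ := ex_w A z
      have h6 := hYB b J (n - A.length) w (by omega) (by omega)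
      have e1 : ENNReal.ofReal (Ub b / ((2 : ℝ) ^ (5 * J) * (4 ^ b * ml b)) *
          (1 + ((n - A.length : ℕ) : ℝ) / ml b) ^ (-(4 : ℝ))) * Xb b =
          ENNReal.ofReal (((2 : ℝ) ^ (5 * J))⁻¹ * Ub b / (4 ^ b * ml b)) * Xb b * ENNReal.ofReal (wt n A.length b) := by
        rw [ENNReal.ofReal_mul (by positivity)]
        unfold wt
        have e2 : Ub b / ((2 : ℝ) ^ (5 * J) * (4 ^ b * ml b)) = ((2 : ℝ) ^ (5 * J))⁻¹ * Ub b / (4 ^ b * ml b) := by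
          field_simp
        rw [e2]
        ring
      rw [e1] at h6
      refine (gf_mono ?_).trans h6
      rintro Y ⟨y1, y2⟩
      rw [hρs] at y1
      obtain ⟨-, ⟨y3, y4⟩, y7, y5, y6⟩ := y1
      refine ⟨y3, y4, y2, ?_, ?_, hw Y y6⟩
      · rw [hJ]
        exact y7
      · rw [List.length_append] at y5
        omega
  refine (gf_mono hcov).trans ((gf_union_le _ _).trans ((add_le_add hfst ((ENNReal.tsum_iUnion_le_tsum wE _).trans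
    (ENNReal.tsum_le_tsum hsnd))).trans ?_))
  rw [tsum_half (by positivity), ← ENNReal.ofReal_add (by positivity) (by positivity), ← hP, ← hω]
  refine ENNReal.ofReal_le_ofReal (le_of_eq ?_)
  ring

/-! ### the theorem -/

/-- the levels -/
lemma lev_ex {κ : ℝ} {C b0 j : ℕ} (hb : b0 ≤ j) {L : List Bool} (h : L ∈ Nz κ C j) :
    L ∈ Nz κ C b0 ∨ ∃ b, b0 ≤ b ∧ b < j ∧ L ∈ Nz κ C (b + 1) ∧ L ∉ Nz κ C b := by
  induction j, hb using Nat.le_induction with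
  | base => exact Or.inl h
  | succ j hj ih =>
    by_cases h1 : L ∈ Nz κ C j
    · rcases ih h1 with h2 | ⟨b, h2, h3, h4⟩
      · exact Or.inl h2
      · exact Or.inr ⟨b, h2, by omega, h4⟩
    · exact Or.inr ⟨j, hj, by omega, h, h1⟩

/-- **row U** -/
theorem upPt_of {κ : ℝ} {C : ℕ} (hκ : 0 < κ) (hR : RegZ κ C) (hT : T1) (hE : ExF) (hM : LMassJ) (hY : YPt)
    (hYB : YPtBad κ C) : UpPt := by
  obtain ⟨η, hη⟩ : ∃ η : ℝ, η = κ / 8 := ⟨_, rfl⟩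
  have hη0 : 0 < η := by rw [hη]; positivity
  obtain ⟨J0, b4, hYB⟩ := hYB η 5 2 hη0
  obtain ⟨m, hm⟩ : ∃ m : ℕ, m = J0 + 2 * C := ⟨_, rfl⟩
  have hmC : 2 * C ≤ 2 ^ m := by
    have := (Nat.lt_two_pow_self (n := m)).le
    omega
  have hYB' : ∃ b0 : ℕ, ∀ b J y : ℕ, ∀ z : Pt, b0 ≤ b → m ≤ J →
      gf {Y | Y ∈ SA ∧ rev Y ∈ GT b η ∧ In (2 ^ (b + J)) Y ∧ (∃ n : ℕ, 2 ^ J ≤ n * 2 ^ 2 ∧ Y ∈ Lz κ C b n) ∧
        Y.length = y ∧ TIW.en Y = z} ≤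
      ENNReal.ofReal (Ub b / ((2 : ℝ) ^ (5 * J) * (4 ^ b * ml b)) * (1 + (y : ℝ) / ml b) ^ (-(4 : ℝ))) * Xb b :=
    ⟨b4, fun b J y z hb hJ => hYB b J y z hb (by omega)⟩
  obtain ⟨K1, b1, hK1, h1⟩ := upI hκ hη hmC hT hE hY hYB'
  obtain ⟨K2, b2, hK2, h2⟩ := upII hκ hη hmC hR hM hY hYB'
  obtain ⟨K3, b3, hK3, h3⟩ := nz_mass hR confSt
  obtain ⟨b0, hb0⟩ : ∃ b0 : ℕ, b0 = b1 + b2 + b3 := ⟨_, rfl⟩
  refine ⟨K1 + K3 * (2 : ℝ) ^ ((91 / 24 : ℝ) * (b0 : ℝ)) + K2, b0, by positivity, fun n j z hj hn hz => ?_⟩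
  have hml := ml_pos j
  have hnj : ml j ≤ n := by
    refine le_trans ?_ hn
    have : (1 : ℝ) ≤ 2 ^ b0 := one_le_pow₀ (by norm_num)
    nlinarith
  have hTp := Tp_pos n j
  have hcov : {L | L ∈ SA ∧ L.length = n ∧ TIW.en L = z} ⊆
      ({L | L ∈ SA ∧ L.length = n ∧ TIW.en L = z ∧ L ∉ Nz κ C j} ∪ {L | L ∈ SA ∧ n ≤ L.length ∧ L ∈ Nz κ C b0}) ∪
        ⋃ k : ℕ, {L | b0 + (k + 1) ≤ j ∧ L ∈ SA ∧ L.length = n ∧ TIW.en L = z ∧ L ∈ Nz κ C (j - (k + 1) + 1) ∧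
          L ∉ Nz κ C (j - (k + 1))} := by
    rintro L ⟨a1, a2, a3⟩
    by_cases h5 : L ∈ Nz κ C j
    · rcases lev_ex hj h5 with h6 | ⟨b, h6, h7, h8, h9⟩
      · exact Or.inl (Or.inr ⟨a1, a2.ge, h6⟩)
      · refine Or.inr (Set.mem_iUnion.2 ⟨j - b - 1, by omega, a1, a2, a3, ?_, ?_⟩)
        · rw [show j - (j - b - 1 + 1) = b by omega]
          exact h8
        · rw [show j - (j - b - 1 + 1) = b by omega]
          exact h9
    · exact Or.inl (Or.inl ⟨a1, a2, a3, h5⟩)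
  have hI := h1 n j z (by omega) hz
  have hIII : gf {L | L ∈ SA ∧ n ≤ L.length ∧ L ∈ Nz κ C b0} ≤
      ENNReal.ofReal (K3 * (2 : ℝ) ^ ((91 / 24 : ℝ) * (b0 : ℝ)) * Tp n j) := by
    refine (h3 n b0 (by omega)).trans (ENNReal.ofReal_le_ofReal ?_)
    rw [mul_assoc]
    exact mul_le_mul_of_nonneg_left (bot_lev hj hnj) hK3.le
  have hII : ∀ k : ℕ, gf {L | b0 + (k + 1) ≤ j ∧ L ∈ SA ∧ L.length = n ∧ TIW.en L = z ∧ L ∈ Nz κ C (j - (k + 1) + 1) ∧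
      L ∉ Nz κ C (j - (k + 1))} ≤ ENNReal.ofReal ((K2 * Tp n j / 2) * (1 / 2) ^ k) := by
    intro k
    by_cases hk : b0 + (k + 1) ≤ j
    · refine (gf_mono fun L hL => hL.2).trans ((h2 n (j - (k + 1)) z (by omega)).trans (ENNReal.ofReal_le_ofReal ?_))
      refine (mul_le_mul_of_nonneg_left (low_lev (by omega) hnj) hK2.le).trans (le_of_eq ?_)
      rw [show j - (j - (k + 1)) = k + 1 by omega, pow_succ]
      ring
    · have e1 : {L | b0 + (k + 1) ≤ j ∧ L ∈ SA ∧ L.length = n ∧ TIW.en L = z ∧ L ∈ Nz κ C (j - (k + 1) + 1) ∧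
          L ∉ Nz κ C (j - (k + 1))} = ∅ := Set.eq_empty_of_forall_notMem fun L hL => hk hL.1
      have e2 : gf (∅ : Set (List Bool)) = 0 := by
        unfold gf
        exact tsum_empty
      rw [e1, e2]
      exact zero_le
  refine (gf_mono hcov).trans ((gf_union_le _ _).trans ((add_le_add ((gf_union_le _ _).trans (add_le_add hI hIII))
    ((ENNReal.tsum_iUnion_le_tsum wE _).trans (ENNReal.tsum_le_tsum hII))).trans ?_))
  rw [tsum_half (by positivity), ← ENNReal.ofReal_add (by positivity) (by positivity),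
    ← ENNReal.ofReal_add (by positivity) (by positivity)]
  refine ENNReal.ofReal_le_ofReal (le_of_eq ?_)
  unfold Tp
  ring

/-- **row U, the landed rows inserted** -/
theorem upPt_in {κ : ℝ} {C : ℕ} (hκ : 0 < κ) (hR : RegZ κ C) (hT : T1) (hY : YPt) (hYB : YPtBad κ C) : UpPt :=
  upPt_of hκ hR hT (exF_of tipF_all) lMassJ hY hYB

end ARM

end HexObs
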