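import Pool.Agent.ARM.FastN
import Pool.Agent.NPR.Fast
import Pool.Agent.PW.Cover

/-!
# ARM2, row VisW (helper70): the mean number of the points near a word of the box

* `mean_WL` : the mean length of the words of the box;
* **`visW : VisW`**.
-/

set_option autoImplicit false

namespace HexObs

namespace ARM

open Finset TS SDN NTW NTA

open scoped ENNReal

/-- **row VisW**: the points at distance less than 2 ^ l from a word of the box of the scale K -/
def VisW : Prop := ∀ θ : ℝ, 0 < θ → ∃ (C : ℝ) (b0 : ℕ), 0 < C ∧ ∀ l K : ℕ, b0 ≤ l → l ≤ K →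
  ∑' w : {w : List Bool | w ∈ WL K}, wE (w : List Bool) * ((PW.saus (2 ^ l) (w : List Bool)).ncard : ℝ≥0∞) ≤
    ENNReal.ofReal (C * 2 ^ (θ * ((K : ℝ) - l)) * 4 ^ l * 2 ^ (4 / 3 * ((K : ℝ) - l))) *
      (ENNReal.ofReal (Ub K) * Xb K ^ 2)

lemma tsum_WL (K : ℕ) (f : List Bool → ℝ≥0∞) :
    ∑' w : {w : List Bool | w ∈ WL K}, f w = ∑' w : List Bool, (WL K).indicator f w :=
  tsum_subtype (WL K) f

lemma gf_ind (S : Set (List Bool)) : gf S = ∑' w : List Bool, S.indicator wE w := by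
  unfold gf
  exact tsum_subtype S wE

/-- a natural number by its dyadic order -/
lemma nat_dy {m : ℝ} (hm : 0 < m) (n : ℕ) : (n : ℝ≥0∞) ≤ ENNReal.ofReal m +
    ∑' j : ℕ, (open Classical in if (2 : ℝ) ^ j * m ≤ n then ENNReal.ofReal (2 ^ (j + 1) * m) else 0) := by
  classical
  rcases le_or_gt m (n : ℝ) with h | h
  · obtain ⟨j, h1, h2⟩ := exists_nat_pow_near (x := (n : ℝ) / m) (y := 2) (by rwa [one_le_div hm]) one_lt_two
    rw [le_div_iff₀ hm] at h1
    rw [div_lt_iff₀ hm] at h2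
    refine le_trans ?_ (le_add_left (ENNReal.le_tsum j))
    rw [if_pos h1, ← ENNReal.ofReal_natCast]
    exact ENNReal.ofReal_le_ofReal h2.le
  · refine le_trans ?_ le_self_add
    rw [← ENNReal.ofReal_natCast]
    exact ENNReal.ofReal_le_ofReal h.le

/-- **the mean length of the words of the box** -/
theorem mean_WL : ∃ C : ℝ, 1 ≤ C ∧ ∀ K : ℕ,
    ∑' w : {w : List Bool | w ∈ WL K}, wE (w : List Bool) * ((w : List Bool).length : ℝ≥0∞) ≤
      ENNReal.ofReal (C * PW.mZ (2 ^ K)) * (ENNReal.ofReal (Ub K) * Xb K ^ 2) := by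
  classical
  obtain ⟨C0, hC0, h⟩ := NTA.ti_M
  obtain ⟨A, hA, h⟩ := h 2
  obtain ⟨T, hT, hTot⟩ := ens_WL.tot
  have hA0 : 0 < A := by linarith
  refine ⟨T + 4 * A, by linarith, fun K => ?_⟩
  have hm := mlow_M.pos K
  obtain ⟨F, hF⟩ : ∃ F, F = ENNReal.ofReal (Ub K) * Xb K ^ 2 := ⟨_, rfl⟩
  have h1 : ∀ w : {w : List Bool | w ∈ WL K}, wE (w : List Bool) * ((w : List Bool).length : ℝ≥0∞) ≤
      ENNReal.ofReal (PW.mZ (2 ^ K)) * wE (w : List Bool) + ∑' j : ℕ, ENNReal.ofReal (2 ^ (j + 1) * PW.mZ (2 ^ K)) *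
        ({t | t ∈ WL K ∧ (2 : ℝ) ^ j * PW.mZ (2 ^ K) ≤ (t.length : ℝ)} : Set (List Bool)).indicator wE w := by
    intro w
    refine (mul_le_mul_right (nat_dy hm _) _).trans (le_of_eq ?_)
    rw [mul_add, ← ENNReal.tsum_mul_left]
    congr 1
    · exact mul_comm _ _
    · refine tsum_congr fun j => ?_
      by_cases hj : (2 : ℝ) ^ j * PW.mZ (2 ^ K) ≤ ((w : List Bool).length : ℝ)
      · rw [if_pos hj, Set.indicator_of_mem (show (w : List Bool) ∈ {t | t ∈ WL K ∧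
          (2 : ℝ) ^ j * PW.mZ (2 ^ K) ≤ (t.length : ℝ)} from ⟨w.2, hj⟩), mul_comm]
      · rw [if_neg hj, Set.indicator_of_notMem (fun hc => hj hc.2), mul_zero, mul_zero]
  refine (ENNReal.tsum_le_tsum h1).trans ?_
  rw [ENNReal.tsum_add, ENNReal.tsum_mul_left, ENNReal.tsum_comm, ← hF]
  have e1 : ∑' w : {w : List Bool | w ∈ WL K}, wE (w : List Bool) = gf (WL K) := rfl
  rw [e1]
  have h2 : ∀ j : ℕ, ∑' w : {w : List Bool | w ∈ WL K}, ENNReal.ofReal (2 ^ (j + 1) * PW.mZ (2 ^ K)) *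
      ({t | t ∈ WL K ∧ (2 : ℝ) ^ j * PW.mZ (2 ^ K) ≤ (t.length : ℝ)} : Set (List Bool)).indicator wE w ≤
      ENNReal.ofReal (2 * A * PW.mZ (2 ^ K) * (1 / 2) ^ j) * F := by
    intro j
    rw [ENNReal.tsum_mul_left]
    have h3 : ∑' w : {w : List Bool | w ∈ WL K},
        ({t | t ∈ WL K ∧ (2 : ℝ) ^ j * PW.mZ (2 ^ K) ≤ (t.length : ℝ)} : Set (List Bool)).indicator wE w ≤
        gf {t | t ∈ WL K ∧ (2 : ℝ) ^ j * PW.mZ (2 ^ K) ≤ (t.length : ℝ)} := by
      rw [gf_ind]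
      exact ENNReal.tsum_comp_le_tsum_of_injective Subtype.val_injective _
    have h4 := h K K (2 ^ j) le_rfl (one_le_pow₀ (by norm_num))
    have h5 : gf {t | t ∈ WL K ∧ (2 : ℝ) ^ j * PW.mZ (2 ^ K) ≤ (t.length : ℝ)} ≤
        ENNReal.ofReal (A / (2 ^ j) ^ 2) * F := by
      rw [hF]
      refine (gf_mono fun t ht => ?_).trans (h4.trans (le_of_eq ?_))
      · refine ⟨ht.1, 0, t.length, bx_all ht.1, ?_⟩
        rw [Nat.cast_zero, sub_zero]
        exact ht.2
      · rw [Nat.sub_self, pow_zero, mul_one]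
    refine (mul_le_mul_right (h3.trans h5) _).trans (le_of_eq ?_)
    rw [← mul_assoc, ← ENNReal.ofReal_mul (by positivity)]
    congr 2
    rw [one_div, inv_pow, pow_succ]
    field_simp
  refine (add_le_add (mul_le_mul_right (hTot K) _) (ENNReal.tsum_le_tsum h2)).trans ?_
  rw [ENNReal.tsum_mul_right, ← hF, ← mul_assoc, ← add_mul, ← ENNReal.ofReal_mul hm.le]
  refine mul_le_mul_left ?_ _
  rw [← ENNReal.ofReal_tsum_of_nonneg (fun j => by positivity)
    ((summable_geometric_of_lt_one (by norm_num) (by norm_num)).mul_left _), tsum_mul_left, tsum_geometric_two,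
    ← ENNReal.ofReal_add (by positivity) (by positivity)]
  refine ENNReal.ofReal_le_ofReal (le_of_eq ?_)
  ring

/-! ### The number of the points -/

/-- the points near a word without large displacements in a short time -/
lemma ncard_good {t : List Bool} {l : ℕ} {x : ℝ} (hx : 0 < x) (h : t ∉ EN.DE l x) :
    ((PW.saus (2 ^ l) t).ncard : ℝ) ≤ (2 * (t.length : ℝ) / x + 1) * (81 * 4 ^ l) := by
  have h2l : (1 : ℝ) ≤ 2 ^ l := one_le_pow₀ (by norm_num)
  have e4 : (4 : ℝ) ^ l = 2 ^ l * 2 ^ l := by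
    rw [← mul_pow]
    norm_num
  rcases lt_or_ge x 1 with hx1 | hx1
  · -- one ball for each vertex
    have h1 : (PW.saus (2 ^ l) t).ncard ≤ (t.length + 1) * (2 * 2 ^ l + 1) ^ 2 := by
      refine (Set.ncard_le_ncard (PW.saus_sub _ _) ((Finset.range (t.length + 1)).finite_toSet.biUnion
        fun i _ => (PW.ball_card (vx oo up t i) (2 ^ l)).1)).trans ?_
      refine (Finset.set_ncard_biUnion_le _ _).trans ?_
      refine (Finset.sum_le_sum fun q _ => (PW.ball_card (vx oo up t q) (2 ^ l)).2).trans (le_of_eq ?_)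
      rw [Finset.sum_const, Finset.card_range, smul_eq_mul]
    have h2 : ((PW.saus (2 ^ l) t).ncard : ℝ) ≤ (t.length + 1) * (2 * 2 ^ l + 1) ^ 2 := by exact_mod_cast h1
    refine h2.trans ?_
    have h3 : (t.length : ℝ) ≤ 2 * (t.length : ℝ) / x := by
      rw [le_div_iff₀ hx]
      nlinarith [Nat.cast_nonneg (α := ℝ) t.length]
    have h4 : (2 * (2 : ℝ) ^ l + 1) ^ 2 ≤ 81 * 4 ^ l := by
      rw [e4]
      nlinarith
    have h5 : (0 : ℝ) ≤ t.length := Nat.cast_nonneg _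
    exact mul_le_mul (by linarith) h4 (by positivity) (by positivity)
  · obtain ⟨N, hN⟩ : ∃ N, N = ⌊x⌋₊ := ⟨_, rfl⟩
    have hN1 : 1 ≤ N := by
      rw [hN]
      exact Nat.le_floor (by exact_mod_cast hx1)
    have hNx : (N : ℝ) ≤ x := by
      rw [hN]
      exact Nat.floor_le hx.le
    have hNx2 : x ≤ 2 * N := by
      have h1 := Nat.lt_floor_add_one x
      rw [← hN] at h1
      have h2 : (1 : ℝ) ≤ N := by exact_mod_cast hN1
      linarith
    have hfast : ∀ i j, i ≤ j → j ≤ t.length → j - i ≤ N → TIW.hn (vx oo up t j - vx oo up t i) < ((2 ^ (l + 1) : ℕ) : ℤ) := by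
      intro i j hij hj hjN
      by_contra hcon
      push Not at hcon
      obtain ⟨dir, h8⟩ := NPR.Fast.hn_lvl hcon
      refine h ⟨dir, i, j, hij, hj, ?_, ?_⟩
      · have e1 : ((j - i : ℕ) : ℝ) ≤ N := by exact_mod_cast hjN
        rw [Nat.cast_sub hij] at e1
        linarith
      · rw [NTF.lvl_sub dir] at h8
        push_cast at h8
        rw [pow_succ] at h8
        generalize (2 : ℤ) ^ l = Z at *
        linarith
    have hb := PW.saus_block (t := t) (r := 2 ^ (l + 1)) (N := t.length / N + 1) (l := N) hN1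
      (by rw [mul_comm]; exact Nat.lt_mul_div_succ _ (by omega)) hfast
    have h1 : (PW.saus (2 ^ l) t).ncard ≤ (PW.saus (2 ^ (l + 1)) t).ncard := by
      refine Set.ncard_le_ncard ?_ (PW.saus_fin _ _)
      rintro p ⟨i, hi, hp⟩
      refine ⟨i, hi, hp.trans_le ?_⟩
      push_cast
      exact pow_le_pow_right₀ (by norm_num) (by omega)
    have h2 : ((PW.saus (2 ^ l) t).ncard : ℝ) ≤ ((t.length / N + 1 : ℕ) : ℝ) * (4 * 2 ^ (l + 1) + 1) ^ 2 := by
      have := h1.trans hb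
      exact_mod_cast this
    refine h2.trans ?_
    have h3 : ((t.length / N + 1 : ℕ) : ℝ) ≤ 2 * (t.length : ℝ) / x + 1 := by
      push_cast
      have h4 : ((t.length / N : ℕ) : ℝ) ≤ (t.length : ℝ) / N := Nat.cast_div_le
      have h5 : (t.length : ℝ) / N ≤ 2 * (t.length : ℝ) / x := by
        have hN0 : (0 : ℝ) < N := by exact_mod_cast hN1
        rw [div_le_div_iff₀ hN0 hx]
        nlinarith [Nat.cast_nonneg (α := ℝ) t.length]
      linarith
    have h4 : (4 * (2 : ℝ) ^ (l + 1) + 1) ^ 2 ≤ 81 * 4 ^ l := by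
      rw [e4, pow_succ (2 : ℝ) l]
      generalize (2 : ℝ) ^ l = Z at *
      nlinarith
    exact mul_le_mul h3 h4 (by positivity) (by positivity)

/-- the points near a word of the box -/
lemma ncard_box {t : List Bool} {K l : ℕ} (hl : l ≤ K) (ht : t ∈ WL K) :
    ((PW.saus (2 ^ l) t).ncard : ℝ) ≤ 729 * 4 ^ K := by
  have h2K : (1 : ℤ) ≤ 2 ^ K := one_le_pow₀ (by norm_num)
  have hsub : PW.saus (2 ^ l) t ⊆ {p : Pt | TIW.hn (p - oo) < ((13 * 2 ^ K : ℕ) : ℤ)} := by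
    rintro p ⟨i, hi, hp⟩
    have h1 := EN.abs_lvl_WL ht hi false
    have h2 := EN.abs_lvl_WL ht hi true
    have h3 := TIW.hn_of_lvl h1 h2
    have h4 := TIW.hn_tri p (vx oo up t i) oo
    have h5 : (2 : ℤ) ^ l ≤ 2 ^ K := pow_le_pow_right₀ (by norm_num) hl
    have e : vx oo up t i - oo = vx oo up t i := sub_zero _
    rw [e] at h4
    push_cast at hp
    show TIW.hn (p - oo) < _
    push_cast
    linarith
  have h1 := (Set.ncard_le_ncard hsub (PW.ball_card oo _).1).trans (PW.ball_card oo _).2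
  have h2 : ((PW.saus (2 ^ l) t).ncard : ℝ) ≤ (2 * (13 * 2 ^ K) + 1) ^ 2 := by exact_mod_cast h1
  refine h2.trans ?_
  have e4 : (4 : ℝ) ^ K = 2 ^ K * 2 ^ K := by
    rw [← mul_pow]
    norm_num
  have h3 : (1 : ℝ) ≤ 2 ^ K := one_le_pow₀ (by norm_num)
  rw [e4]
  nlinarith

/-- **row VisW** -/
theorem visW : VisW := by
  classical
  intro θ hθ
  obtain ⟨C, hC, hF⟩ := fastW
  obtain ⟨Cm, hCm, hmean⟩ := mean_WL
  obtain ⟨T, hT, hTot⟩ := ens_WL.tot
  obtain ⟨M, hM, hmu⟩ := VF.mUp VF.sharpZ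
  obtain ⟨c, hc, hml⟩ := VF.mLow VF.sharpZ
  have hC0 : 0 < C := by linarith
  have hT0 : 0 < T := by linarith
  have hCm0 : 0 < Cm := by linarith
  obtain ⟨Q, hQ⟩ := pow_unbounded_of_one_lt (4 * C) (Real.one_lt_rpow (by norm_num : (1 : ℝ) < 2) hθ)
  obtain ⟨A, hA, hF⟩ := hF Q
  have hA0 : 0 < A := by linarith
  refine ⟨81 * (2 * Cm * M / c + T) + 729 * A, 0, by positivity, fun l K _ hl => ?_⟩
  obtain ⟨F, hFd⟩ : ∃ F, F = ENNReal.ofReal (Ub K) * Xb K ^ 2 := ⟨_, rfl⟩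
  rw [← hFd]
  have hlK : (0 : ℝ) ≤ (K : ℝ) - l := by
    have : (l : ℝ) ≤ K := by exact_mod_cast hl
    linarith
  obtain ⟨z, hz⟩ : ∃ z : ℝ, z = 2 ^ (θ * ((K : ℝ) - l)) := ⟨_, rfl⟩
  have hz1 : 1 ≤ z := by
    rw [hz]
    exact Real.one_le_rpow (by norm_num) (by positivity)
  have hz0 : 0 < z := by linarith
  obtain ⟨v, hv⟩ : ∃ v : ℝ, v = 2 ^ (4 / 3 * ((K : ℝ) - l)) := ⟨_, rfl⟩
  have hv1 : 1 ≤ v := by
    rw [hv]
    exact Real.one_le_rpow (by norm_num) (by positivity)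
  have hml0 := mlow_M.pos l
  have hmK0 := mlow_M.pos K
  obtain ⟨x, hx⟩ : ∃ x, x = z⁻¹ * PW.mZ (2 ^ l) := ⟨_, rfl⟩
  have hx0 : 0 < x := by rw [hx]; positivity
  have hbad := hF K l z⁻¹ hl (by positivity) (inv_le_one_of_one_le₀ hz1)
  rw [← hx, ← hFd] at hbad
  obtain ⟨B, hB⟩ : ∃ B, B = {t | t ∈ WL K ∧ t ∈ EN.DE l x} := ⟨_, rfl⟩
  rw [← hB] at hbad
  -- one word
  have hone : ∀ w : {w : List Bool | w ∈ WL K}, wE (w : List Bool) * ((PW.saus (2 ^ l) (w : List Bool)).ncard : ℝ≥0∞) ≤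
      ENNReal.ofReal (2 / x * (81 * 4 ^ l)) * (wE (w : List Bool) * ((w : List Bool).length : ℝ≥0∞)) +
        ENNReal.ofReal (81 * 4 ^ l) * wE (w : List Bool) + ENNReal.ofReal (729 * 4 ^ K) * B.indicator wE w := by
    intro w
    by_cases hw : (w : List Bool) ∈ EN.DE l x
    · refine le_trans ?_ le_add_self
      rw [Set.indicator_of_mem (by rw [hB]; exact ⟨w.2, hw⟩), mul_comm]
      refine mul_le_mul_left ?_ _
      rw [← ENNReal.ofReal_natCast]
      exact ENNReal.ofReal_le_ofReal (ncard_box hl w.2)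
    · refine le_trans ?_ le_self_add
      have h1 := ncard_good hx0 hw
      calc wE (w : List Bool) * ((PW.saus (2 ^ l) (w : List Bool)).ncard : ℝ≥0∞)
          ≤ wE (w : List Bool) * ENNReal.ofReal ((2 * ((w : List Bool).length : ℝ) / x + 1) * (81 * 4 ^ l)) := by
            refine mul_le_mul_right ?_ _
            rw [← ENNReal.ofReal_natCast]
            exact ENNReal.ofReal_le_ofReal h1
        _ = wE (w : List Bool) * (ENNReal.ofReal (2 / x * (81 * 4 ^ l)) * ((w : List Bool).length : ℝ≥0∞) +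
              ENNReal.ofReal (81 * 4 ^ l)) := by
            congr 1
            rw [← ENNReal.ofReal_natCast ((w : List Bool).length), ← ENNReal.ofReal_mul (by positivity),
              ← ENNReal.ofReal_add (by positivity) (by positivity)]
            congr 1
            ring
        _ = _ := by ring
  refine (ENNReal.tsum_le_tsum hone).trans ?_
  rw [ENNReal.tsum_add, ENNReal.tsum_add, ENNReal.tsum_mul_left, ENNReal.tsum_mul_left, ENNReal.tsum_mul_left]
  have e1 : ∑' w : {w : List Bool | w ∈ WL K}, wE (w : List Bool) = gf (WL K) := rfl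
  have e2 : ∑' w : {w : List Bool | w ∈ WL K}, B.indicator wE w ≤ gf B := by
    rw [gf_ind]
    exact ENNReal.tsum_comp_le_tsum_of_injective Subtype.val_injective _
  rw [e1]
  have g1 := hmean K
  have g2 := hTot K
  rw [← hFd] at g1 g2
  refine (add_le_add (add_le_add (mul_le_mul_right g1 _) (mul_le_mul_right g2 _))
    (mul_le_mul_right (e2.trans hbad) _)).trans ?_
  rw [← mul_assoc, ← mul_assoc (ENNReal.ofReal (81 * 4 ^ l)), ← mul_assoc (ENNReal.ofReal (729 * 4 ^ K)),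
    ← ENNReal.ofReal_mul (by positivity), ← ENNReal.ofReal_mul (by positivity),
    ← ENNReal.ofReal_mul (by positivity), ← add_mul, ← add_mul, ← ENNReal.ofReal_add (by positivity) (by positivity),
    ← ENNReal.ofReal_add (by positivity) (by positivity)]
  refine mul_le_mul_left (ENNReal.ofReal_le_ofReal ?_) _
  rw [← hz, ← hv]
  have hmK : PW.mZ (2 ^ K) ≤ M / c * v * PW.mZ (2 ^ l) := by
    have h1 := hmu K
    have h2 := hml l
    have h3 : (2 : ℝ) ^ (4 / 3 * (K : ℝ)) = v * 2 ^ (4 / 3 * (l : ℝ)) := by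
      rw [hv, ← Real.rpow_add (by norm_num)]
      congr 1
      ring
    calc PW.mZ (2 ^ K) ≤ M * 2 ^ (4 / 3 * (K : ℝ)) := h1
      _ = M / c * v * (c * 2 ^ (4 / 3 * (l : ℝ))) := by
          rw [h3]
          field_simp
      _ ≤ M / c * v * PW.mZ (2 ^ l) := by gcongr
  have t1 : 2 / x * (81 * 4 ^ l) * (Cm * PW.mZ (2 ^ K)) ≤ 81 * (2 * Cm * M / c) * z * 4 ^ l * v := by
    calc 2 / x * (81 * 4 ^ l) * (Cm * PW.mZ (2 ^ K)) ≤ 2 / x * (81 * 4 ^ l) * (Cm * (M / c * v * PW.mZ (2 ^ l))) := by gcongr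
      _ = _ := by
          rw [hx]
          field_simp
  have t2 : 81 * 4 ^ l * T ≤ 81 * T * z * 4 ^ l * v := by
    have h1 : 1 ≤ z * v := one_le_mul_of_one_le_of_one_le hz1 hv1
    calc (81 : ℝ) * 4 ^ l * T ≤ 81 * 4 ^ l * T * (z * v) := le_mul_of_one_le_right (by positivity) h1
      _ = _ := by ring
  have t3 : 729 * 4 ^ K * (A * z⁻¹ ^ Q * C ^ (K - l)) ≤ 729 * A * z * 4 ^ l * v := by
    have h1 : (4 : ℝ) ^ K = 4 ^ l * 4 ^ (K - l) := by
      rw [← pow_add]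
      congr 1
      omega
    have h2 : (4 * C) ^ (K - l) ≤ z ^ Q := by
      have h3 : z = (2 ^ θ) ^ (K - l) := by
        rw [hz, ← Real.rpow_natCast, ← Real.rpow_mul (by norm_num), Nat.cast_sub hl]
      rw [h3, ← pow_mul, mul_comm (K - l) Q, pow_mul]
      exact pow_le_pow_left₀ (by positivity) hQ.le _
    have h3 : z⁻¹ ^ Q * (4 * C) ^ (K - l) ≤ 1 := by
      rw [inv_pow, inv_mul_le_iff₀ (by positivity), mul_one]
      exact h2
    have h4 : 1 ≤ z * v := one_le_mul_of_one_le_of_one_le hz1 hv1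
    calc 729 * 4 ^ K * (A * z⁻¹ ^ Q * C ^ (K - l)) = 729 * A * 4 ^ l * (z⁻¹ ^ Q * (4 * C) ^ (K - l)) := by
          rw [h1, mul_pow]
          ring
      _ ≤ 729 * A * 4 ^ l * 1 := by gcongr
      _ ≤ 729 * A * 4 ^ l * (z * v) := by gcongr
      _ = _ := by ring
  calc _ ≤ 81 * (2 * Cm * M / c) * z * 4 ^ l * v + 81 * T * z * 4 ^ l * v + 729 * A * z * 4 ^ l * v :=
        add_le_add (add_le_add t1 t2) t3
    _ = _ := by ring

open Classical in
/-- the same, the sum over all words (the form of helper44) -/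
theorem visI : ∀ θ : ℝ, 0 < θ → ∃ (C : ℝ) (b0 : ℕ), 0 < C ∧ ∀ l K : ℕ, b0 ≤ l → l ≤ K →
    (∑' w : List Bool, if w ∈ WL K then wE w * ((PW.saus (2 ^ l) w).ncard : ℝ≥0∞) else 0) ≤
      ENNReal.ofReal (C * 2 ^ (θ * ((K : ℝ) - l)) * 4 ^ l * 2 ^ (4 / 3 * ((K : ℝ) - l))) * NPR.FK K := by
  intro θ hθ
  obtain ⟨C, b0, hC, h⟩ := visW θ hθ
  refine ⟨C, b0, hC, fun l K h1 h2 => le_trans (le_of_eq ?_) (h l K h1 h2)⟩
  rw [tsum_WL K fun w => wE w * ((PW.saus (2 ^ l) w).ncard : ℝ≥0∞)]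
  refine tsum_congr fun w => ?_
  by_cases hw : w ∈ WL K
  · rw [if_pos hw, Set.indicator_of_mem hw]
  · rw [if_neg hw, Set.indicator_of_notMem hw]

end ARM

end HexObs
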