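import Pool.Agent.ARM.InPt
import Pool.Agent.ARM.Defs2
import Pool.Agent.ARM.SmG

/-!
# ARM2 (rows A1): the parts behind a good tip, exact end and length (helper91)

* `bw b q P`: the weight of a prefix; `SmG`: the smoothing lemma at the good tip of the start (helper25);
* `yPt_of : SmG → YMassW → YPt`; **`yPt_in : YMassW → YPt`**.
-/

set_option autoImplicit false
set_option linter.ambiguousOpen false

namespace HexObs

namespace ARM

open Finset TS SDN SIM NTA TIP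

open scoped ENNReal

namespace YP

/-- one letter of the start -/
def SmG (bw : ℕ → ℕ → List Bool → ℝ) : Prop := ∀ (η : ℝ) (q : ℕ), 0 < η → ∃ (C : ℝ) (b0 : ℕ), 0 < C ∧
  ∀ (b y : ℕ) (z : Pt), b0 ≤ b → ∀ (S : Set (List Bool)) (φ : List Bool → ℝ≥0∞),
    (∀ Y ∈ S, Y ∈ SA ∧ rev Y ∈ GT b η ∧ Y.length = y ∧ TIW.en Y = z) →
    (∀ P W, P ++ W ∈ S → P ∈ BU → rev W ∈ GT b (η / 2) → 1 ≤ ENNReal.ofReal (bw b q P) * φ W) →
    gf S ≤ ENNReal.ofReal (C / (4 ^ b * ml b)) *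
      ∑' W : {W : List Bool | W ∈ SA ∧ rev W ∈ GT b (η / 2)}, wE (W : List Bool) * φ W

open Classical in
/-- **row Y1** -/
theorem yPt_of {bw : ℕ → ℕ → List Bool → ℝ} (hbw : ∀ b P, (1 + (P.length : ℝ) / ml b) ^ 4 ≤ bw b 4 P)
    (hS : SmG bw) (hY : YMassW) : YPt := by
  intro η c hη
  obtain ⟨C1, b0, hC1, H⟩ := hS η 4 hη
  obtain ⟨C2, hC2, HY⟩ := hY (η / 2) (c + 1) 4 (by positivity)
  refine ⟨C1 * C2, b0, by positivity, fun b y z hb => ?_⟩
  have hml : 0 < ml b := by unfold ml; positivity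
  have hUb := Ub_pos b
  obtain ⟨κ, hκ⟩ : ∃ κ : ℝ, κ = ((1 + (y : ℝ) / ml b) ^ 4)⁻¹ := ⟨_, rfl⟩
  have hκ0 : 0 ≤ κ := by rw [hκ]; positivity
  have e0 : (1 + (y : ℝ) / ml b) ^ (-(4 : ℝ)) = κ := by
    rw [hκ, Real.rpow_neg (by positivity), show (4 : ℝ) = ((4 : ℕ) : ℝ) by norm_num, Real.rpow_natCast]
  set φ : List Bool → ℝ≥0∞ := fun W => if In (2 ^ (b + (c + 1))) W then
    ENNReal.ofReal ((1 + (W.length : ℝ) / ml b) ^ 4 * κ) else 0 with hφ
  have h1 := H b y z hb {Y | Y ∈ SA ∧ rev Y ∈ GT b η ∧ In (2 ^ (b + c)) Y ∧ Y.length = y ∧ TIW.en Y = z} φ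
    (fun Y hY => ⟨hY.1, hY.2.1, hY.2.2.2.1, hY.2.2.2.2⟩) (by
      rintro P W ⟨-, -, y3, y4, -⟩ hP hW
      have h2 : In (2 ^ (b + (c + 1))) W := by
        have h3 := In_bu hP y3
        rwa [show 2 * 2 ^ (b + c) = 2 ^ (b + (c + 1)) by rw [← add_assoc, pow_succ]; ring] at h3
      rw [hφ]
      simp only [if_pos h2]
      have h4 := wt_ge (c := P.length) (w := W.length) (y := y) hml (by rw [← y4, List.length_append])
      rw [← hκ] at h4
      exact h4.trans (mul_le_mul_left (ENNReal.ofReal_le_ofReal (hbw b P)) _))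
  refine h1.trans ?_
  have h2 : ∑' W : {W : List Bool | W ∈ SA ∧ rev W ∈ GT b (η / 2)}, wE (W : List Bool) * φ W ≤
      ENNReal.ofReal κ * ∑' W : {W : List Bool | W ∈ SA ∧ rev W ∈ GT b (η / 2) ∧ In (2 ^ (b + (c + 1))) W},
        wE (W : List Bool) * ENNReal.ofReal ((1 + ((W : List Bool).length : ℝ) / ml b) ^ 4) := by
    rw [← ENNReal.tsum_mul_left]
    rw [tsum_subtype {W : List Bool | W ∈ SA ∧ rev W ∈ GT b (η / 2)} (fun W => wE W * φ W),
      tsum_subtype {W : List Bool | W ∈ SA ∧ rev W ∈ GT b (η / 2) ∧ In (2 ^ (b + (c + 1))) W}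
        (fun W => ENNReal.ofReal κ * (wE W * ENNReal.ofReal ((1 + (W.length : ℝ) / ml b) ^ 4)))]
    refine ENNReal.tsum_le_tsum fun W => ?_
    by_cases hW : W ∈ SA ∧ rev W ∈ GT b (η / 2)
    · rw [Set.indicator_of_mem (s := {W : List Bool | W ∈ SA ∧ rev W ∈ GT b (η / 2)}) hW]
      by_cases hI : In (2 ^ (b + (c + 1))) W
      · rw [Set.indicator_of_mem (s := {W : List Bool | W ∈ SA ∧ rev W ∈ GT b (η / 2) ∧ In (2 ^ (b + (c + 1))) W})
          ⟨hW.1, hW.2, hI⟩, hφ]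
        simp only [if_pos hI]
        rw [mul_comm _ κ, ENNReal.ofReal_mul hκ0]
        exact le_of_eq (by ring)
      · rw [hφ]
        simp only [if_neg hI, mul_zero]
        exact zero_le
    · rw [Set.indicator_of_notMem (s := {W : List Bool | W ∈ SA ∧ rev W ∈ GT b (η / 2)}) hW]
      exact zero_le
  have h3 := HY b
  refine (mul_le_mul_right (h2.trans (mul_le_mul_right h3 _)) _).trans (le_of_eq ?_)
  rw [e0, ← mul_assoc, ← mul_assoc, ← ENNReal.ofReal_mul (by positivity), ← ENNReal.ofReal_mul (by positivity)]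
  congr 2
  field_simp

/-- the weight of a prefix -/
theorem bw_ge (b : ℕ) (P : List Bool) : (1 + (P.length : ℝ) / ml b) ^ 4 ≤ Sm.bw b 4 P := by
  have hml : 0 < ml b := by unfold ml; positivity
  unfold Sm.bw
  refine pow_le_pow_left₀ (by positivity) ?_ 4
  exact le_mul_of_one_le_right (by positivity) (by
    have : (0 : ℝ) ≤ (Sm.ex P : ℝ) / 2 ^ b := by positivity
    linarith)

end YP

/-- **row Y1: the parts behind a good tip, exact end and length** -/
theorem yPt_in (hY : YMassW) : YPt := YP.yPt_of YP.bw_ge (fun η q hη => smooth η q hη) hY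

end ARM

end HexObs
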