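import Pool.Agent.ARM.SmG
import Pool.Agent.ARM.InPt
import Pool.Agent.ARM.Defs2
import Pool.Agent.TIP.YBad

/-!
# ARM, row Y2 (helper25): the parts behind a good tip with a long factor without good window, exact end and length

`yPtBad_of : YMassJ → YBad κ C → YPtBad κ C`: the smoothing lemma; either the prefix is wide (weight of the extent), or the rest
has a long factor (YBad, the fourth moment of the length from the mass and the fifth moment).
-/

set_option autoImplicit false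
set_option linter.ambiguousOpen false

namespace HexObs

namespace ARM

open Finset TS SDN SIM NTA TIP

open scoped ENNReal

namespace YB2

/-- reversal of a word of small extent -/
lemma wd_rev {P : List Bool} {D : ℕ} (h : In D P) : rev P ∉ WdR (4 * D + 4) := by
  rintro ⟨i, j, hi, hj, hn⟩
  apply hn
  obtain ⟨c, hc, hf⟩ := RevM.rev_frame P
  rw [Sm.rev_len] at hi hj
  have key : ∀ a, a ≤ P.length + 1 → |(vx oo up P a).1| ≤ (D : ℤ) + 1 ∧ |(vx oo up P a).2| ≤ (D : ℤ) + 1 := by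
    intro a ha
    rcases Nat.lt_or_ge P.length a with h1 | h1
    · obtain rfl : a = P.length + 1 := by omega
      obtain ⟨b1, b2⟩ := RevM.In_coord h (i := P.length) le_rfl
      obtain ⟨d1, d2⟩ := YB.vx_close P P.length
      constructor
      · have := abs_add_le ((vx oo up P (P.length + 1)).1 - (vx oo up P P.length).1) (vx oo up P P.length).1
        rw [sub_add_cancel] at this
        omega
      · have := abs_add_le ((vx oo up P (P.length + 1)).2 - (vx oo up P P.length).2) (vx oo up P P.length).2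
        rw [sub_add_cancel] at this
        omega
    · obtain ⟨b1, b2⟩ := RevM.In_coord h h1
      constructor <;> omega
  have e : vx oo up P (P.length + 1 - i) - vx oo up P (P.length + 1 - j) =
      mulE c (vx oo up (rev P) i - vx oo up (rev P) j) := by
    have h1 := hf i (by omega)
    have h2 := hf j (by omega)
    have h3 : mulE c (vx oo up (rev P) i) = mulE c (vx oo up (rev P) j) +
        mulE c (vx oo up (rev P) i - vx oo up (rev P) j) := by
      rw [← mulE_add]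
      congr 1
      abel
    rw [h1, h2, h3]
    abel
  obtain ⟨a1, a2⟩ := key (P.length + 1 - i) (by omega)
  obtain ⟨b1, b2⟩ := key (P.length + 1 - j) (by omega)
  have h4 : |(mulE c (vx oo up (rev P) i - vx oo up (rev P) j)).1| ≤ 2 * ((D : ℤ) + 1) ∧
      |(mulE c (vx oo up (rev P) i - vx oo up (rev P) j)).2| ≤ 2 * ((D : ℤ) + 1) := by
    rw [← e, Prod.fst_sub, Prod.snd_sub]
    rw [abs_le] at *
    rw [abs_le]
    constructor <;> constructor <;> omega
  obtain ⟨k1, k2⟩ := YB.mul_coord' hc h4.1 h4.2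
  rw [Prod.fst_sub] at k1
  rw [Prod.snd_sub] at k2
  refine ⟨?_, ?_⟩
  · push_cast
    omega
  · push_cast
    omega

/-- the weight of a prefix -/
lemma bw_ge {b q : ℕ} (hq : 4 ≤ q) (P : List Bool) :
    (1 + (P.length : ℝ) / ml b) ^ 4 * (1 + (Sm.ex P : ℝ) / 2 ^ b) ^ q ≤ Sm.bw b q P := by
  have hm := ml_pos b
  unfold Sm.bw
  rw [mul_pow]
  have h1 : 0 ≤ (P.length : ℝ) / ml b := by positivity
  have h2 : 0 ≤ (Sm.ex P : ℝ) / 2 ^ b := by positivity
  exact mul_le_mul_of_nonneg_right (pow_le_pow_right₀ (by linarith) hq) (by positivity)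

lemma two_pow_ge (x : ℝ) : ∃ n : ℕ, x ≤ 2 ^ n := by
  obtain ⟨n, hn⟩ := pow_unbounded_of_one_lt x (one_lt_two (α := ℝ))
  exact ⟨n, hn.le⟩

end YB2

open YB2

open Classical in
/-- **row Y2** -/
theorem yPtBad_of {κ : ℝ} {C : ℕ} (hY : YMassJ) (hB : YBad κ C) : YPtBad κ C := by
  intro η a c1 hη
  have hη2 : 0 < η / 2 := by positivity
  obtain ⟨B4, hB4, hm4⟩ := wmass hY hη2 4
  obtain ⟨B5, hB5, hm5⟩ := wmass hY hη2 5
  obtain ⟨A4, hA4⟩ := two_pow_ge B4
  obtain ⟨A5, hA5⟩ := two_pow_ge B5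
  obtain ⟨q, hq⟩ : ∃ q : ℕ, q = A4 + a + 5 := ⟨_, rfl⟩
  obtain ⟨s, hs⟩ : ∃ s : ℕ, s = A5 + a + 1 := ⟨_, rfl⟩
  obtain ⟨a', ha'⟩ : ∃ a' : ℕ, a' = 4 * s + a + 1 := ⟨_, rfl⟩
  obtain ⟨J1, b1, hbad⟩ := hB (η / 2) a' (c1 + 3) hη2
  obtain ⟨C0, b0, hC0, hsm⟩ := smooth η q hη
  obtain ⟨J2, hJ2⟩ := two_pow_ge (3 * C0 * (2 ^ (2 * A5) + 2 ^ (q * (c1 + 7) + 2 * A4) + 1))
  refine ⟨J1 + J2 + c1 + 7, max b0 b1, fun b J y z hb hJ => ?_⟩
  have hb0 : b0 ≤ b := (le_max_left _ _).trans hb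
  have hb1 : b1 ≤ b := (le_max_right _ _).trans hb
  have hU := Ub_pos b
  have hml := ml_pos b
  obtain ⟨r, hr⟩ : ∃ r, r = J - c1 - 7 := ⟨_, rfl⟩
  have hJr : J = r + (c1 + 7) := by omega
  obtain ⟨n0, hn0⟩ : ∃ n0, n0 = 2 ^ (r + 3) := ⟨_, rfl⟩
  have hn01 : 1 ≤ n0 := by rw [hn0]; exact Nat.one_le_two_pow
  obtain ⟨δ, hδ⟩ : ∃ δ : ℝ, δ = (((2 : ℝ) ^ r) ^ q)⁻¹ := ⟨_, rfl⟩
  have hδ0 : 0 < δ := by rw [hδ]; positivity
  obtain ⟨κy, hκy⟩ : ∃ κy : ℝ, κy = ((1 + (y : ℝ) / ml b) ^ 4)⁻¹ := ⟨_, rfl⟩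
  have hκ0 : 0 < κy := by rw [hκy]; positivity
  have e0 : (1 + (y : ℝ) / ml b) ^ (-(4 : ℝ)) = κy := by
    rw [hκy, Real.rpow_neg (by positivity), show (4 : ℝ) = ((4 : ℕ) : ℝ) by norm_num, Real.rpow_natCast]
  obtain ⟨W0, hW0⟩ : ∃ W0 : Set (List Bool), W0 = {W | W ∈ SA ∧ rev W ∈ GT b (η / 2) ∧ In (2 ^ (b + (J + 1))) W} :=
    ⟨_, rfl⟩
  obtain ⟨W1, hW1⟩ : ∃ W1 : Set (List Bool), W1 = {W | W ∈ W0 ∧ W ∈ Lz κ C b (4 * n0)} := ⟨_, rfl⟩
  obtain ⟨φ, hφ⟩ : ∃ φ : List Bool → ℝ≥0∞, φ = fun W => if In (2 ^ (b + (J + 1))) W then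
    ENNReal.ofReal ((1 + (W.length : ℝ) / ml b) ^ 4 * κy) *
      ((if W ∈ Lz κ C b (4 * n0) then 1 else 0) + ENNReal.ofReal δ) else 0 := ⟨_, rfl⟩
  have h1 := hsm b y z hb0 {Y | Y ∈ SA ∧ rev Y ∈ GT b η ∧ In (2 ^ (b + J)) Y ∧
    (∃ n : ℕ, 2 ^ J ≤ n * 2 ^ c1 ∧ Y ∈ Lz κ C b n) ∧ Y.length = y ∧ TIW.en Y = z} φ
    (fun Y hY => ⟨hY.1, hY.2.1, hY.2.2.2.2.1, hY.2.2.2.2.2⟩) (by
      rintro P W ⟨-, -, y3, ⟨n, hn, hLz⟩, y5, -⟩ hP _
      have h2 : In (2 ^ (b + (J + 1))) W := by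
        have h3 := In_bu hP y3
        rwa [show 2 * 2 ^ (b + J) = 2 ^ (b + (J + 1)) by rw [← add_assoc, pow_succ]; ring] at h3
      have h4 := wt_ge (c := P.length) (w := W.length) (y := y) hml (by rw [← y5, List.length_append])
      rw [← hκy] at h4
      rw [hφ]
      simp only [if_pos h2]
      rcases le_or_gt (Sm.ex P) (2 ^ (b + r)) with hx | hx
      · -- the rest has a long factor
        have h5 : W ∈ Lz κ C b (4 * n0) := by
          have h6 : 16 * n0 ≤ n := by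
            have h7 : 2 ^ (r + 7) * 2 ^ c1 ≤ n * 2 ^ c1 := by
              refine le_trans (le_of_eq ?_) hn
              rw [← pow_add]
              congr 1
              omega
            have h8 := Nat.le_of_mul_le_mul_right h7 (by positivity)
            have h9 : 16 * n0 = 2 ^ (r + 7) := by
              rw [hn0, pow_add, pow_add]
              ring
            omega
          have h7 := YB.Lz_anti h6 hLz
          have h8 : rev P ∉ WdR (n0 * 2 ^ b) := by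
            have h9 := wd_rev (Sm.ex_le.1 hx)
            have h10 : 4 * 2 ^ (b + r) + 4 ≤ n0 * 2 ^ b := by
              have : n0 * 2 ^ b = 8 * 2 ^ (b + r) := by
                rw [hn0, pow_add, pow_add]
                ring
              have h11 : 1 ≤ 2 ^ (b + r) := Nat.one_le_two_pow
              omega
            rintro ⟨i, j, hi, hj, hij⟩
            exact h9 ⟨i, j, hi, hj, fun hc => hij (Bl_mono _ h10 hc)⟩
          have h9 := YB.Lz_cut (A := rev W) (Z := rev P) hn01 h8 (by rw [rev_append, rev_rev, rev_rev]; exact h7)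
          rwa [rev_rev] at h9
        rw [if_pos h5]
        refine h4.trans (mul_le_mul' (ENNReal.ofReal_le_ofReal ?_) ?_)
        · refine le_trans ?_ (bw_ge (b := b) (q := q) (by omega) P)
          refine le_mul_of_one_le_right (by positivity) (one_le_pow₀ ?_)
          have : 0 ≤ (Sm.ex P : ℝ) / 2 ^ b := by positivity
          linarith
        · exact le_mul_of_one_le_right' le_self_add
      · -- the prefix is wide
        have h5 : (2 : ℝ) ^ r ≤ 1 + (Sm.ex P : ℝ) / 2 ^ b := by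
          have h6 : (2 : ℝ) ^ r ≤ (Sm.ex P : ℝ) / 2 ^ b := by
            rw [le_div_iff₀ (by positivity), ← pow_add, add_comm r b]
            exact_mod_cast hx.le
          linarith
        have h6 : (1 + (P.length : ℝ) / ml b) ^ 4 ≤ Sm.bw b q P * δ := by
          rw [hδ, ← div_eq_mul_inv, le_div_iff₀ (by positivity)]
          refine le_trans ?_ (bw_ge (b := b) (q := q) (by omega) P)
          exact mul_le_mul_of_nonneg_left (pow_le_pow_left₀ (by positivity) h5 q) (by positivity)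
        calc (1 : ℝ≥0∞) ≤ ENNReal.ofReal ((1 + (P.length : ℝ) / ml b) ^ 4) *
              ENNReal.ofReal ((1 + (W.length : ℝ) / ml b) ^ 4 * κy) := h4
          _ ≤ ENNReal.ofReal (Sm.bw b q P * δ) * ENNReal.ofReal ((1 + (W.length : ℝ) / ml b) ^ 4 * κy) :=
              mul_le_mul' (ENNReal.ofReal_le_ofReal h6) le_rfl
          _ = ENNReal.ofReal (Sm.bw b q P) * (ENNReal.ofReal ((1 + (W.length : ℝ) / ml b) ^ 4 * κy) *
              ENNReal.ofReal δ) := by
              rw [ENNReal.ofReal_mul (p := Sm.bw b q P) (by linarith [Sm.one_le_bw (b := b) (q := q) P])]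
              ring
          _ ≤ _ := mul_le_mul' le_rfl (mul_le_mul' le_rfl le_add_self))
  refine h1.trans ?_
  -- the mass of the rests
  obtain ⟨f, hf⟩ : ∃ f : List Bool → ℝ≥0∞, f = fun W => wE W * ENNReal.ofReal ((1 + (W.length : ℝ) / ml b) ^ 4) := ⟨_, rfl⟩
  have h2 : ∑' W : {W : List Bool | W ∈ SA ∧ rev W ∈ GT b (η / 2)}, wE (W : List Bool) * φ W ≤
      ENNReal.ofReal κy * (∑' W : W1, f W + ENNReal.ofReal δ * ∑' W : W0, f W) := by
    rw [tsum_subtype {W : List Bool | W ∈ SA ∧ rev W ∈ GT b (η / 2)} (fun W => wE W * φ W), tsum_subtype W1 f,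
      tsum_subtype W0 f, ← ENNReal.tsum_mul_left, ← ENNReal.tsum_add, ← ENNReal.tsum_mul_left]
    refine ENNReal.tsum_le_tsum fun W => ?_
    by_cases hW : W ∈ SA ∧ rev W ∈ GT b (η / 2)
    · rw [Set.indicator_of_mem (s := {W : List Bool | W ∈ SA ∧ rev W ∈ GT b (η / 2)}) hW]
      by_cases hI : In (2 ^ (b + (J + 1))) W
      · have hw0 : W ∈ W0 := by rw [hW0]; exact ⟨hW.1, hW.2, hI⟩
        rw [Set.indicator_of_mem hw0, hφ]
        simp only [if_pos hI]
        by_cases hL : W ∈ Lz κ C b (4 * n0)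
        · have hw1 : W ∈ W1 := by rw [hW1]; exact ⟨hw0, hL⟩
          rw [Set.indicator_of_mem hw1, if_pos hL, hf, mul_comm _ κy, ENNReal.ofReal_mul hκ0.le]
          exact le_of_eq (by ring)
        · have hw1 : W ∉ W1 := by rw [hW1]; exact fun h => hL h.2
          rw [Set.indicator_of_notMem hw1, if_neg hL, hf, mul_comm _ κy, ENNReal.ofReal_mul hκ0.le]
          exact le_of_eq (by ring)
      · rw [hφ]
        simp only [if_neg hI, mul_zero]
        exact zero_le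
    · rw [Set.indicator_of_notMem (s := {W : List Bool | W ∈ SA ∧ rev W ∈ GT b (η / 2)}) hW]
      exact zero_le
  have m4 : ∑' W : W0, f W ≤ ENNReal.ofReal (B4 ^ (J + 1 + 1) * Ub b) * Xb b := by
    rw [hf, hW0]
    exact hm4 b (J + 1)
  obtain ⟨Λ, hΛ⟩ : ∃ Λ : ℝ, Λ = 2 ^ (s * J) := ⟨_, rfl⟩
  have hΛ1 : 1 ≤ Λ := by rw [hΛ]; exact one_le_pow₀ (by norm_num)
  have hΛ0 : 0 < Λ := by linarith
  have m1 : ∑' W : W1, f W ≤ ENNReal.ofReal (Λ ^ 4 * (Ub b / 2 ^ (a' * (J + 1))) + Λ⁻¹ * (B5 ^ (J + 1 + 1) * Ub b)) * Xb b := by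
    have h3 := fourth (WW := W1) (W0 := W0) (by rw [hW1]; exact fun W h => h.1) hml hΛ1 (q := 5) (by norm_num)
    have h4 : gf W1 ≤ ENNReal.ofReal (Ub b / 2 ^ (a' * (J + 1))) * Xb b := by
      refine (gf_mono ?_).trans (hbad b (J + 1) hb1 (by omega))
      rw [hW1, hW0]
      rintro W ⟨⟨k1, k2, k3⟩, k4⟩
      refine ⟨k1, k2, k3, 4 * n0, ?_, k4⟩
      have : 4 * n0 * 2 ^ (c1 + 3) = 2 ^ (J + 1) := by
        rw [hn0, show (4 : ℕ) = 2 ^ 2 by norm_num, ← pow_add, ← pow_add]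
        congr 1
        omega
      rw [this]
    have h5 : ∑' W : W0, wE (W : List Bool) * ENNReal.ofReal ((1 + ((W : List Bool).length : ℝ) / ml b) ^ 5) ≤
        ENNReal.ofReal (B5 ^ (J + 1 + 1) * Ub b) * Xb b := by
      rw [hW0]
      exact hm5 b (J + 1)
    rw [hf]
    refine h3.trans ?_
    refine (add_le_add (mul_le_mul' le_rfl h4) (mul_le_mul' le_rfl h5)).trans (le_of_eq ?_)
    rw [← mul_assoc, ← mul_assoc, ← ENNReal.ofReal_mul (by positivity), ← ENNReal.ofReal_mul (by positivity),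
      ← add_mul, ← ENNReal.ofReal_add (by positivity) (by positivity)]
    norm_num
  have h3 : ∑' W : {W : List Bool | W ∈ SA ∧ rev W ∈ GT b (η / 2)}, wE (W : List Bool) * φ W ≤
      ENNReal.ofReal (κy * (Λ ^ 4 * (Ub b / 2 ^ (a' * (J + 1))) + Λ⁻¹ * (B5 ^ (J + 1 + 1) * Ub b) +
        δ * (B4 ^ (J + 1 + 1) * Ub b))) * Xb b := by
    refine h2.trans ?_
    refine (mul_le_mul' le_rfl (add_le_add m1 (mul_le_mul' le_rfl m4))).trans (le_of_eq ?_)
    rw [← mul_assoc (ENNReal.ofReal δ), ← ENNReal.ofReal_mul hδ0.le, ← add_mul,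
      ← ENNReal.ofReal_add (by positivity) (by positivity), ← mul_assoc, ← ENNReal.ofReal_mul hκ0.le]
  refine (mul_le_mul' le_rfl h3).trans ?_
  rw [← mul_assoc, ← ENNReal.ofReal_mul (by positivity)]
  refine mul_le_mul' (ENNReal.ofReal_le_ofReal ?_) le_rfl
  rw [e0]
  -- numbers
  have hJ3 : 3 * C0 * (2 ^ (2 * A5) + 2 ^ (q * (c1 + 7) + 2 * A4) + 1) ≤ (2 : ℝ) ^ J :=
    hJ2.trans (pow_le_pow_right₀ (by norm_num) (by omega))
  have hp : (0 : ℝ) < 2 ^ (a * J) := by positivity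
  have haJ : (2 : ℝ) ^ ((a + 1) * J) = 2 ^ (a * J) * 2 ^ J := by
    rw [← pow_add]
    congr 1
    ring
  have t1 : Λ ^ 4 * (1 / 2 ^ (a' * (J + 1))) ≤ 1 / 2 ^ ((a + 1) * J) := by
    rw [hΛ, ← pow_mul, mul_one_div, div_le_div_iff₀ (by positivity) (by positivity), one_mul, ← pow_add]
    refine pow_le_pow_right₀ (by norm_num) ?_
    rw [ha']
    nlinarith
  have t2 : Λ⁻¹ * B5 ^ (J + 1 + 1) ≤ 2 ^ (2 * A5) / 2 ^ ((a + 1) * J) := by
    have h6 : B5 ^ (J + 1 + 1) ≤ (2 : ℝ) ^ (A5 * (J + 2)) := by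
      rw [pow_mul]
      exact pow_le_pow_left₀ (by linarith) hA5 _
    rw [inv_mul_eq_div, div_le_div_iff₀ hΛ0 (by positivity)]
    calc B5 ^ (J + 1 + 1) * 2 ^ ((a + 1) * J) ≤ (2 : ℝ) ^ (A5 * (J + 2)) * 2 ^ ((a + 1) * J) :=
          mul_le_mul_of_nonneg_right h6 (by positivity)
      _ = 2 ^ (2 * A5) * Λ := by
          rw [hΛ, ← pow_add, ← pow_add]
          congr 1
          rw [hs]
          ring
  have t3 : δ * B4 ^ (J + 1 + 1) ≤ 2 ^ (q * (c1 + 7) + 2 * A4) / 2 ^ ((a + 1) * J) := by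
    have h6 : B4 ^ (J + 1 + 1) ≤ (2 : ℝ) ^ (A4 * (J + 2)) := by
      rw [pow_mul]
      exact pow_le_pow_left₀ (by linarith) hA4 _
    rw [hδ, inv_mul_eq_div, div_le_div_iff₀ (by positivity) (by positivity)]
    calc B4 ^ (J + 1 + 1) * 2 ^ ((a + 1) * J) ≤ (2 : ℝ) ^ (A4 * (J + 2)) * 2 ^ ((a + 1) * J) :=
          mul_le_mul_of_nonneg_right h6 (by positivity)
      _ ≤ 2 ^ (q * (c1 + 7) + 2 * A4) * ((2 : ℝ) ^ r) ^ q := by
          rw [← pow_mul, ← pow_add, ← pow_add]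
          refine pow_le_pow_right₀ (by norm_num) ?_
          have h7 : q * (c1 + 7) + r * q = q * J := by rw [hJr]; ring
          have h8 : q * J = A4 * J + (a + 1) * J + 4 * J := by rw [hq]; ring
          nlinarith
  have hsum : C0 * (Λ ^ 4 * (1 / 2 ^ (a' * (J + 1))) + Λ⁻¹ * B5 ^ (J + 1 + 1) + δ * B4 ^ (J + 1 + 1)) ≤ 1 / 2 ^ (a * J) := by
    calc C0 * (Λ ^ 4 * (1 / 2 ^ (a' * (J + 1))) + Λ⁻¹ * B5 ^ (J + 1 + 1) + δ * B4 ^ (J + 1 + 1))
        ≤ C0 * (1 / 2 ^ ((a + 1) * J) + 2 ^ (2 * A5) / 2 ^ ((a + 1) * J) +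
            2 ^ (q * (c1 + 7) + 2 * A4) / 2 ^ ((a + 1) * J)) := by gcongr
      _ = (C0 * (2 ^ (2 * A5) + 2 ^ (q * (c1 + 7) + 2 * A4) + 1)) / 2 ^ J / 2 ^ (a * J) := by
          rw [haJ]
          field_simp
          ring
      _ ≤ 1 / 2 ^ (a * J) := by
          refine div_le_div_of_nonneg_right ?_ hp.le
          rw [div_le_one (by positivity)]
          have : 0 ≤ C0 * (2 ^ (2 * A5) + 2 ^ (q * (c1 + 7) + 2 * A4) + 1) := by positivity
          linarith
  calc C0 / (4 ^ b * ml b) * (κy * (Λ ^ 4 * (Ub b / 2 ^ (a' * (J + 1))) + Λ⁻¹ * (B5 ^ (J + 1 + 1) * Ub b) +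
        δ * (B4 ^ (J + 1 + 1) * Ub b)))
      = Ub b / (4 ^ b * ml b) * κy * (C0 * (Λ ^ 4 * (1 / 2 ^ (a' * (J + 1))) + Λ⁻¹ * B5 ^ (J + 1 + 1) +
          δ * B4 ^ (J + 1 + 1))) := by
        field_simp
    _ ≤ Ub b / (4 ^ b * ml b) * κy * (1 / 2 ^ (a * J)) := mul_le_mul_of_nonneg_left hsum (by positivity)
    _ = Ub b / (2 ^ (a * J) * (4 ^ b * ml b)) * κy := by
        field_simp

end ARM

end HexObs
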